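import Pool.Agent.Helper65.SF.Defs

/-!
# SF-A: the operators, definitions
-/

namespace SF

open MeasureTheory

/-- The golden rotation number `(sqrt 5 - 1)/2`. -/
noncomputable def alph : ℝ := (Real.sqrt 5 - 1) / 2

/-- The Fibonacci potential `lam * chi_[1-alph,1) (n alph + om mod 1)`. -/
noncomputable def pot (lam om : ℝ) (n : ℤ) : ℝ :=
  if 1 - alph ≤ Int.fract ((n : ℝ) * alph + om) then lam else 0

/-- One dimensional Schroedinger operator on arbitrary functions. -/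
def op1 (V : ℤ → ℝ) (u : ℤ → ℝ) (n : ℤ) : ℝ := u (n + 1) + u (n - 1) + V n * u n

/-- `mom V j i = <delta_i, H_V^j delta_i>`. -/
def mom (V : ℤ → ℝ) (j : ℕ) (i : ℤ) : ℝ := ((op1 V)^[j] (Pi.single i 1)) i

/-- Two dimensional operator on arbitrary functions. -/
def op2 (V U : ℤ → ℝ) (u : ℤ × ℤ → ℝ) (p : ℤ × ℤ) : ℝ :=
  u (p.1 + 1, p.2) + u (p.1 - 1, p.2) + u (p.1, p.2 + 1) + u (p.1, p.2 - 1) + (V p.1 + U p.2) * u p

/-- `<delta_(0,0), H^j delta_(0,0)>`. -/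
def mom2 (V U : ℤ → ℝ) (j : ℕ) : ℝ := ((op2 V U)^[j] (Pi.single (0, 0) 1)) (0, 0)

/-- Periodic extension of `V 1, ..., V f`. -/
def per (f : ℕ) (V : ℤ → ℝ) (n : ℤ) : ℝ := V ((n - 1) % (f : ℤ) + 1)

/-- One step transfer matrix at energy `E = -t`. -/
def tstep (t v : ℝ) : M2 ℝ := !![-t - v, -1; 1, 0]

/-- Product `T (V f) ... T (V 1)`. -/
def tprod (t : ℝ) (V : ℤ → ℝ) : ℕ → M2 ℝ
  | 0 => 1
  | (f + 1) => tstep t (V (f + 1)) * tprod t V f

/-- The `k`-th solution `t` of `X lam t n = cos phi`. -/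
noncomputable def root (lam : ℝ) (n : ℕ) (k : ℕ) (phi : ℝ) : ℝ :=
  EE lam n (((k : ℝ) * Real.pi + (if k % 2 = 0 then phi else Real.pi - phi))
    / (Real.pi * (Nat.fib n : ℝ)))

end SF
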