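import Pool.Agent.Helper65.SF.F0
import Pool.Agent.Helper65.SF.ADefs

/-!
# SF-A3: the characteristic word

`tprod t (pot lam 0) (fib k) = eM lam t k` for `k >= 1`, `lam` real.

Proof in words.  Write `f k = fib k`.  `alph^k` identities: `f (k) * alph - f (k-1) = (-1)^(k+1) alph^k`
(k >= 1), so `f k alph` is close to an integer.  Claim: for `k >= 3`, and `1 <= j <= f (k-2)` ... the word
`V 1 ... V (f k)` (`V n = pot lam 0 n`) satisfies `V (f (k+1) + j) = V j` for `1 <= j <= f k`, `k >= 2`: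
`(f (k+1) + j) alph` mod 1 `= j alph + (-1)^k alph^(k+1)` mod 1, and no point `j alph`, `1 <= j <= f k`, is
that close to the endpoints `0` and `1 - alph` (i.e. `-alph`) on the wrong side: `|| j alph || >= alph^k` for
`1 <= j < f (k+1)`, and `||(j+1) alph|| >= alph^(k)` for `j + 1 < f (k+1)`; `alph^(k+1)` is smaller.  (For
`j = f k`, `j + 1 = f k + 1 <= f (k+1) - 1` if k >= 3; check k = 2, 3 by hand.)
So `tprod (f (k+2)) = T(V (f(k+2))) ... T(V (f(k+1)+1)) * tprod (f (k+1)) = tprod (f k) * tprod (f (k+1))`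
for k >= 1 with the base cases `f 1 = 1`: the word `V 1` should be 0 for `M 1`; note `V 1 = lam`, `V 2 = 0`,
`V 3 = lam`: the recursion starts with `M 2 = T(lam)`, `M 3 = T(0) T(lam)` and the claim is for `k >= 2` only:
`tprod t V (f 2) = T (V 1) = T lam = eM 2`, `tprod t V (f 3) = T 0 T lam = eM 3`.
-/

namespace SF

namespace A3

theorem alph_sq : alph ^ 2 = 1 - alph := by
  have h5 : (Real.sqrt 5) ^ 2 = 5 := Real.sq_sqrt (by norm_num)
  unfold alph
  linear_combination h5 / 4

theorem alph_gt : 1 / 2 < alph := by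
  have h5 : 2 < Real.sqrt 5 := by
    rw [Real.lt_sqrt (by norm_num)]
    norm_num
  unfold alph
  linarith

theorem alph_lt : alph < 0.62 := by
  have h5 : Real.sqrt 5 < 2.24 := by
    rw [Real.sqrt_lt' (by norm_num)]
    norm_num
  unfold alph
  linarith

theorem alph_pos : 0 < alph := by linarith [alph_gt]

theorem alph_lt_one : alph < 1 := by linarith [alph_lt]

theorem fib_alph (k : ℕ) :
    (Nat.fib (k + 1) : ℝ) * alph - Nat.fib k = (-1) ^ k * alph ^ (k + 1) := by
  induction k with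
  | zero => simp
  | succ k ih =>
    rw [Nat.fib_add_two]
    push_cast
    have h := alph_sq
    rw [pow_succ (-1 : ℝ) k, pow_succ alph (k + 1)]
    linear_combination (-alph) * ih + (Nat.fib (k + 1) : ℝ) * h

theorem rep (k : ℕ) : ∀ i p : ℤ, ∃ u v : ℤ,
    i = u * Nat.fib (k + 1) + v * Nat.fib (k + 2) ∧ p = u * Nat.fib k + v * Nat.fib (k + 1) := by
  induction k with
  | zero =>
    intro i p
    exact ⟨i - p, p, by simp, by simp⟩
  | succ k ih =>
    intro i p
    obtain ⟨u, v, h1, h2⟩ := ih i p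
    refine ⟨v - u, u, ?_, ?_⟩
    · have : Nat.fib (k + 1 + 2) = Nat.fib (k + 1) + Nat.fib (k + 2) := Nat.fib_add_two
      rw [this]
      push_cast
      rw [h1]
      ring
    · have : Nat.fib (k + 1 + 1) = Nat.fib k + Nat.fib (k + 1) := Nat.fib_add_two
      rw [this]
      push_cast
      rw [h2]
      ring

theorem best (k : ℕ) (i p : ℤ) (h1 : 1 ≤ i) (h2 : i < Nat.fib (k + 2)) :
    alph ^ (k + 1) ≤ |(i : ℝ) * alph - p| := by
  obtain ⟨u, v, hi, hp⟩ := rep k i p
  have e1 := fib_alph k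
  have e2 := fib_alph (k + 1)
  have key : (i : ℝ) * alph - p = (-1) ^ k * alph ^ (k + 1) * ((u : ℝ) - v * alph) := by
    have hi' : (i : ℝ) = u * (Nat.fib (k + 1) : ℝ) + v * (Nat.fib (k + 2) : ℝ) := by
      exact_mod_cast hi
    have hp' : (p : ℝ) = u * (Nat.fib k : ℝ) + v * (Nat.fib (k + 1) : ℝ) := by exact_mod_cast hp
    rw [hi', hp']
    have e2' : (Nat.fib (k + 2) : ℝ) * alph - Nat.fib (k + 1) = (-1) ^ (k + 1) * alph ^ (k + 2) := e2
    rw [pow_succ (-1 : ℝ) k, pow_succ alph (k + 1)] at e2'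
    linear_combination (u : ℝ) * e1 + (v : ℝ) * e2'
  have ha := alph_pos
  rw [key, abs_mul, abs_mul, abs_pow, abs_neg, abs_one, one_pow, one_mul,
    abs_of_pos (pow_pos ha (k + 1))]
  have hF1 : (1 : ℤ) ≤ Nat.fib (k + 1) := by
    exact_mod_cast Nat.fib_pos.2 (by omega)
  have hF2 : (1 : ℤ) ≤ Nat.fib (k + 2) := by
    exact_mod_cast Nat.fib_pos.2 (by omega)
  suffices hs : 1 ≤ |(u : ℝ) - v * alph| by
    calc alph ^ (k + 1) = alph ^ (k + 1) * 1 := (mul_one _).symm
      _ ≤ _ := mul_le_mul_of_nonneg_left hs (pow_pos ha (k + 1)).le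
  rcases lt_trichotomy v 0 with hv | hv | hv
  · -- v < 0, so u > 0
    have hu : 1 ≤ u := by
      by_contra hu
      have hu : u ≤ 0 := by omega
      have : u * (Nat.fib (k + 1) : ℤ) ≤ 0 := mul_nonpos_of_nonpos_of_nonneg hu (by omega)
      have h3 : v * (Nat.fib (k + 2) : ℤ) ≤ 0 := mul_nonpos_of_nonpos_of_nonneg hv.le (by omega)
      omega
    have hu' : (1 : ℝ) ≤ u := by exact_mod_cast hu
    have hv' : (v : ℝ) ≤ 0 := by exact_mod_cast hv.le
    have : (v : ℝ) * alph ≤ 0 := mul_nonpos_of_nonpos_of_nonneg hv' ha.le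
    exact le_trans (by linarith) (le_abs_self _)
  · subst hv
    have hu : 1 ≤ u := by
      by_contra hu
      have hu : u ≤ 0 := by omega
      have : u * (Nat.fib (k + 1) : ℤ) ≤ 0 := mul_nonpos_of_nonpos_of_nonneg hu (by omega)
      omega
    have hu' : (1 : ℝ) ≤ u := by exact_mod_cast hu
    have : (1 : ℝ) ≤ (u : ℝ) - ((0 : ℤ) : ℝ) * alph := by simpa using hu'
    exact this.trans (le_abs_self _)
  · -- v > 0, so u < 0
    have hu : u ≤ -1 := by
      by_contra hu
      have hu : 0 ≤ u := by omega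
      have h3 : 0 ≤ u * (Nat.fib (k + 1) : ℤ) := mul_nonneg hu (by omega)
      have h4 : (Nat.fib (k + 2) : ℤ) ≤ v * (Nat.fib (k + 2) : ℤ) := by nlinarith
      omega
    have hu' : (u : ℝ) ≤ -1 := by exact_mod_cast hu
    have hv' : (0 : ℝ) ≤ v := by exact_mod_cast hv.le
    have : 0 ≤ (v : ℝ) * alph := mul_nonneg hv' ha.le
    exact le_trans (by linarith) (neg_le_abs _)

theorem floor_shift (k : ℕ) (hk : 1 ≤ k) (i : ℤ) (h1 : 1 ≤ i) (h2 : i ≤ Nat.fib (k + 2)) :
    ⌊(((Nat.fib (k + 2) : ℤ) + i : ℤ) : ℝ) * alph⌋ = Nat.fib (k + 1) + ⌊(i : ℝ) * alph⌋ := by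
  set d : ℝ := (-1) ^ (k + 1) * alph ^ (k + 2) with hd
  have ha := alph_pos
  have hF : (Nat.fib (k + 2) : ℝ) * alph = Nat.fib (k + 1) + d := by
    have := fib_alph (k + 1)
    have h3 : (Nat.fib (k + 2) : ℝ) * alph - Nat.fib (k + 1) = d := this
    linarith
  have hdabs : |d| = alph ^ (k + 2) := by
    rw [hd, abs_mul, abs_pow, abs_neg, abs_one, one_pow, one_mul, abs_of_pos (pow_pos ha _)]
  have hdlt : |d| < alph ^ (k + 1) := by
    rw [hdabs]
    exact pow_lt_pow_right_of_lt_one₀ ha alph_lt_one (by omega)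
  set p : ℤ := ⌊(i : ℝ) * alph⌋ with hp
  have hp1 : (p : ℝ) ≤ (i : ℝ) * alph := Int.floor_le _
  have hp2 : (i : ℝ) * alph < p + 1 := Int.lt_floor_add_one _
  have hgoal : (p : ℝ) ≤ (i : ℝ) * alph + d ∧ (i : ℝ) * alph + d < p + 1 := by
    rcases h2.lt_or_eq with hlt | heq
    · have b1 := best k i p h1 hlt
      have b2 := best k i (p + 1) h1 hlt
      rw [abs_of_nonneg (by linarith)] at b1
      push_cast at b2
      rw [abs_of_neg (by linarith)] at b2
      have := abs_lt.1 hdlt
      constructor <;> linarith [this.1, this.2]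
    · have hi : (i : ℝ) * alph = Nat.fib (k + 1) + d := by
        rw [heq]
        exact_mod_cast hF
      have hd3 : |d| < 1 / 4 := by
        rw [hdabs]
        have h3 : alph ^ (k + 2) ≤ alph ^ 3 :=
          pow_le_pow_of_le_one ha.le alph_lt_one.le (by omega)
        have h4 : alph ^ 3 = 2 * alph - 1 := by
          have := alph_sq
          linear_combination (alph - 1) * this
        have := alph_lt
        linarith
      obtain ⟨hd1, hd2⟩ := abs_lt.1 hd3
      rcases le_or_gt 0 d with hd0 | hd0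
      · have hpe : p = Nat.fib (k + 1) := by
          rw [hp, Int.floor_eq_iff, hi]
          push_cast
          constructor <;> linarith
        rw [hpe, hi]
        push_cast
        constructor <;> linarith
      · have hpe : p = Nat.fib (k + 1) - 1 := by
          rw [hp, Int.floor_eq_iff, hi]
          push_cast
          constructor <;> linarith
        rw [hpe, hi]
        push_cast
        constructor <;> linarith
  rw [Int.floor_eq_iff]
  push_cast
  have e : ((Nat.fib (k + 2) : ℝ) + i) * alph = Nat.fib (k + 1) + ((i : ℝ) * alph + d) := by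
    rw [add_mul, hF]
    ring
  rw [e]
  constructor <;> linarith [hgoal.1, hgoal.2]

theorem pot_eq (lam : ℝ) (n : ℤ) :
    pot lam 0 n = if ⌊(n : ℝ) * alph⌋ + 1 ≤ ⌊((n + 1 : ℤ) : ℝ) * alph⌋ then lam else 0 := by
  unfold pot
  rw [add_zero]
  have : (1 - alph ≤ Int.fract ((n : ℝ) * alph)) ↔
      ⌊(n : ℝ) * alph⌋ + 1 ≤ ⌊((n + 1 : ℤ) : ℝ) * alph⌋ := by
    rw [Int.le_floor, Int.fract]
    push_cast
    constructor <;> intro h <;> linarith
  simp only [this]

theorem pot_shift (lam : ℝ) (k : ℕ) (hk : 1 ≤ k) (j : ℤ) (h1 : 1 ≤ j) (h2 : j ≤ Nat.fib (k + 1)) :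
    pot lam 0 (Nat.fib (k + 2) + j) = pot lam 0 j := by
  have hf : (Nat.fib (k + 2) : ℤ) = Nat.fib k + Nat.fib (k + 1) := by
    rw [Nat.fib_add_two]
    push_cast
    ring
  have hk1 : (1 : ℤ) ≤ Nat.fib k := by exact_mod_cast Nat.fib_pos.2 (by omega)
  rw [pot_eq, pot_eq, floor_shift k hk j h1 (by omega),
    show (Nat.fib (k + 2) : ℤ) + j + 1 = Nat.fib (k + 2) + (j + 1) from by ring,
    floor_shift k hk (j + 1) (by omega) (by omega)]
  have : ((Nat.fib (k + 1) : ℤ) + ⌊(j : ℝ) * alph⌋ + 1 ≤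
      Nat.fib (k + 1) + ⌊((j + 1 : ℤ) : ℝ) * alph⌋) ↔
      (⌊(j : ℝ) * alph⌋ + 1 ≤ ⌊((j + 1 : ℤ) : ℝ) * alph⌋) := by
    constructor <;> intro h <;> omega
  simp only [this]

theorem tprod_add (t : ℝ) (V : ℤ → ℝ) (m f : ℕ) :
    tprod t V (m + f) = tprod t (fun n => V (m + n)) f * tprod t V m := by
  induction f with
  | zero => simp [tprod]
  | succ f ih =>
    rw [← add_assoc, tprod, ih, tprod, Matrix.mul_assoc]
    congr 2

theorem tprod_congr (t : ℝ) (V V' : ℤ → ℝ) (f : ℕ) (h : ∀ j : ℤ, 1 ≤ j → j ≤ f → V j = V' j) :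
    tprod t V f = tprod t V' f := by
  induction f with
  | zero => rfl
  | succ f ih =>
    rw [tprod, tprod, ih (fun j h1 h2 => h j h1 (by push_cast; omega)),
      h (f + 1) (by omega) (by push_cast; omega)]

theorem pot_one (lam : ℝ) : pot lam 0 1 = lam := by
  unfold pot
  have h1 := alph_gt
  have h2 := alph_lt_one
  have : Int.fract (((1 : ℤ) : ℝ) * alph + 0) = alph := by
    rw [Int.fract_eq_iff]
    exact ⟨by linarith, h2, 0, by push_cast; ring⟩
  rw [this, if_pos (by linarith)]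

theorem pot_two (lam : ℝ) : pot lam 0 2 = 0 := by
  unfold pot
  have h1 := alph_gt
  have h2 := alph_lt
  have : Int.fract (((2 : ℤ) : ℝ) * alph + 0) = 2 * alph - 1 := by
    rw [Int.fract_eq_iff]
    exact ⟨by linarith, by linarith, 1, by push_cast; ring⟩
  rw [this, if_neg (by linarith)]

end A3

/-- For `k >= 2` the Fibonacci transfer matrices are the products along the characteristic word. -/
theorem tprod_fib (lam t : ℝ) (k : ℕ) (hk : 2 ≤ k) :
    tprod t (pot lam 0) (Nat.fib k) = eM lam t k := by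
  have key : ∀ k : ℕ, tprod t (pot lam 0) (Nat.fib (k + 2)) = eM lam t (k + 2) ∧
      tprod t (pot lam 0) (Nat.fib (k + 3)) = eM lam t (k + 3) := by
    intro k
    induction k with
    | zero =>
      have f2 : Nat.fib (0 + 2) = 0 + 1 := rfl
      have f3 : Nat.fib (0 + 3) = 0 + 1 + 1 := rfl
      have p1 : pot lam 0 (((0 : ℕ) : ℤ) + 1) = lam := A3.pot_one lam
      have p2 : pot lam 0 (((0 + 1 : ℕ) : ℤ) + 1) = 0 := A3.pot_two lam
      constructor
      · rw [f2, tprod, tprod, p1]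
        unfold eM
        simp only [mseq, tstep]
        ext i j
        fin_cases i <;> fin_cases j <;>
          simp [Matrix.mul_apply, Fin.sum_univ_two, -mul_eq_mul_left_iff] <;> ring
      · rw [f3, tprod, tprod, tprod, p1, p2]
        unfold eM
        simp only [mseq, tstep]
        ext i j
        fin_cases i <;> fin_cases j <;>
          simp [Matrix.mul_apply, Fin.sum_univ_two, -mul_eq_mul_left_iff] <;> ring
    | succ k ih =>
      refine ⟨ih.2, ?_⟩
      have hf : Nat.fib (k + 1 + 3) = Nat.fib (k + 3) + Nat.fib (k + 2) := by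
        have : Nat.fib (k + 1 + 3) = Nat.fib (k + 2) + Nat.fib (k + 3) := Nat.fib_add_two
        omega
      rw [hf, A3.tprod_add]
      have hc : tprod t (fun n => pot lam 0 ((Nat.fib (k + 3) : ℕ) + n)) (Nat.fib (k + 2)) =
          tprod t (pot lam 0) (Nat.fib (k + 2)) := by
        refine A3.tprod_congr t _ _ _ ?_
        intro j h1 h2
        exact A3.pot_shift lam (k + 1) (by omega) j h1 h2
      rw [hc, ih.1, ih.2]
      rfl
  obtain ⟨m, rfl⟩ : ∃ m, k = m + 2 := ⟨k - 2, by omega⟩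
  exact (key m).1

end SF
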