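import Pool.Agent.Helper65.SF.ADefs

/-!
# SF-A4: Floquet theory for periodic potentials

Let `f >= 3` (and `j < f`), `V` real on `1..f`, `M = T(V f) ... T(V 1)` at energy `E = -t`,
`T(v) = [[E - v, -1],[1,0]]`.  Let `phi` with `sin phi ≠ 0`, and assume that there are `f` different real
numbers `t 0, ..., t (f-1)` with `trace (tprod (t i) V f) = 2 cos phi`.  Then
`sum_i (- t i)^j = sum_{i=1}^f mom (per f V) j i` for `j < f`.

Proof in words.  Let `Hphi` be the complex `f x f` matrix, index set `ZMod f` (or `Fin f`),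
`Hphi i i = V i`, `Hphi i (i+1) = 1`, `Hphi i (i-1) = 1`, multiplied by `exp (i phi)` (resp.
`exp (-i phi)`) on the wrap around `f -> 1` (resp. `1 -> f`).  `Hphi` has eigenvalue `E` iff there is
`u : Z -> C`, `u ≠ 0`, `u (n+1) + u (n-1) + per V n u n = E u n`, `u (n+f) = exp (i phi) u n`.  If
`trace M = 2 cos phi`, `det M = 1`, then `exp (i phi)` is an eigenvalue of `M`; take an eigenvector
`(u 1, u 0)` and continue by the recursion; `(u (f+1), u f) = M (u 1, u 0)`.  So all `E i = - t i` are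
eigenvalues, they are f different ones, so `Hphi` is diagonalizable with these eigenvalues and
`trace (Hphi ^ j) = sum (E i)^j`.  (Alternatively: no matrix; let `S` be the f-dimensional space of
`u : Z -> C` with `u (n+f) = exp (i phi) u n` and let H act on S.)
On the other hand the diagonal entry `(Hphi^j) i i` is, for `j < f`, equal to `mom (per f V) j i`: a closed path of
length `j < f` in `ZMod f` lifts to a closed path in Z.  (In the second setting: the value at `i` of
`H^j` applied to the quasi-periodic extension of `delta_i` is `sum_w exp(..w) ((op1)^j delta_(i+wf)) i`, and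
the terms `w ≠ 0` vanish because of the support.)
-/

namespace SF

open Complex

/-! ### helper94: the complex operator -/

/-- The operator on complex functions. -/
noncomputable def h94op (V : ℤ → ℝ) (u : ℤ → ℂ) (n : ℤ) : ℂ :=
  u (n + 1) + u (n - 1) + (V n : ℂ) * u n

theorem h94op_cast (V : ℤ → ℝ) (u : ℤ → ℝ) (j : ℕ) :
    (h94op V)^[j] (fun n => (u n : ℂ)) = fun n => (((op1 V)^[j] u n : ℝ) : ℂ) := by
  induction j generalizing u with
  | zero => rfl
  | succ j ih =>
    rw [Function.iterate_succ_apply, Function.iterate_succ_apply, ← ih]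
    congr 1
    funext n
    simp [h94op, op1]

theorem h94op_local (V : ℤ → ℝ) (j : ℕ) (u u' : ℤ → ℂ) (m : ℤ)
    (h : ∀ n, |n - m| ≤ (j : ℤ) → u n = u' n) : (h94op V)^[j] u m = (h94op V)^[j] u' m := by
  induction j generalizing u u' with
  | zero => exact h m (by simp)
  | succ j ih =>
    rw [Function.iterate_succ_apply, Function.iterate_succ_apply]
    apply ih
    intro n hn
    have hn' := abs_le.1 hn
    have h1 := h (n + 1) (abs_le.2 ⟨by push_cast; omega, by push_cast; omega⟩)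
    have h2 := h (n - 1) (abs_le.2 ⟨by push_cast; omega, by push_cast; omega⟩)
    have h3 := h n (abs_le.2 ⟨by push_cast; omega, by push_cast; omega⟩)
    unfold h94op
    rw [h1, h2, h3]

theorem h94_lt {f : ℕ} (hf : 0 < f) (n : ℤ) : ((n - 1) % (f : ℤ)).toNat < f := by
  have h1 := Int.emod_nonneg (n - 1) (b := (f : ℤ)) (by omega)
  have h2 := Int.emod_lt_of_pos (n - 1) (b := (f : ℤ)) (by omega)
  omega

/-- Quasi-periodic extension. -/
noncomputable def h94ext {f : ℕ} (hf : 0 < f) (z : ℂ) (x : Fin f → ℂ) (n : ℤ) : ℂ :=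
  z ^ ((n - 1) / (f : ℤ)) * x ⟨((n - 1) % (f : ℤ)).toNat, h94_lt hf n⟩

theorem h94ext_qp {f : ℕ} (hf : 0 < f) {z : ℂ} (hz : z ≠ 0) (x : Fin f → ℂ) (n : ℤ) :
    h94ext hf z x (n + f) = z * h94ext hf z x n := by
  unfold h94ext
  have h0 : (f : ℤ) ≠ 0 := by omega
  have h1 : (n + f - 1) / (f : ℤ) = (n - 1) / (f : ℤ) + 1 := by
    rw [show n + f - 1 = (n - 1) + f by ring, Int.add_ediv_of_dvd_right (dvd_refl _),
      Int.ediv_self h0]
  have h2 : (n + f - 1) % (f : ℤ) = (n - 1) % (f : ℤ) := by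
    rw [show n + f - 1 = (n - 1) + f by ring, Int.add_emod_right]
  rw [h1, zpow_add_one₀ hz]
  simp only [h2]
  ring

theorem h94_qp {f : ℕ} {z : ℂ} (hz : z ≠ 0) {y : ℤ → ℂ} (hy : ∀ n, y (n + f) = z * y n)
    (q : ℤ) : ∀ n, y (n + q * f) = z ^ q * y n := by
  induction q using Int.induction_on with
  | zero => intro n; simp
  | succ q ih =>
    intro n
    rw [show n + ((q : ℤ) + 1) * f = (n + q * f) + f by ring, hy, ih, zpow_add_one₀ hz]
    ring
  | pred q ih =>
    intro n
    have h1 := hy (n + (-(q : ℤ) - 1) * f)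
    rw [show n + (-(q : ℤ) - 1) * f + f = n + (-(q : ℤ)) * f by ring, ih] at h1
    rw [zpow_sub_one₀ hz]
    field_simp
    rw [h1]
    ring

theorem h94_per_add (f : ℕ) (V : ℤ → ℝ) (n : ℤ) : per f V (n + f) = per f V n := by
  unfold per
  rw [show n + f - 1 = (n - 1) + f by ring, Int.add_emod_right]

theorem h94op_qp {f : ℕ} (V : ℤ → ℝ) {z : ℂ} {y : ℤ → ℂ} (hy : ∀ n, y (n + f) = z * y n)
    (n : ℤ) : h94op (per f V) y (n + f) = z * h94op (per f V) y n := by
  unfold h94op
  rw [h94_per_add, hy n, show n + (f : ℤ) + 1 = (n + 1) + f by ring, hy,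
    show n + (f : ℤ) - 1 = (n - 1) + f by ring, hy]
  ring

/-- The Floquet operator. -/
noncomputable def h94T {f : ℕ} (hf : 0 < f) (z : ℂ) (V : ℤ → ℝ) :
    (Fin f → ℂ) →ₗ[ℂ] (Fin f → ℂ) where
  toFun x i := h94op (per f V) (h94ext hf z x) ((i : ℤ) + 1)
  map_add' x y := by
    funext i
    simp only [h94op, h94ext, Pi.add_apply]
    ring
  map_smul' c x := by
    funext i
    simp only [h94op, h94ext, Pi.smul_apply, smul_eq_mul, RingHom.id_apply]
    ring

theorem h94T_apply {f : ℕ} (hf : 0 < f) (z : ℂ) (V : ℤ → ℝ) (x : Fin f → ℂ) (i : Fin f) :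
    h94T hf z V x i = h94op (per f V) (h94ext hf z x) ((i : ℤ) + 1) := rfl

theorem h94ext_of_qp {f : ℕ} (hf : 0 < f) {z : ℂ} (hz : z ≠ 0) {y : ℤ → ℂ}
    (hy : ∀ n, y (n + f) = z * y n) :
    h94ext hf z (fun i : Fin f => y ((i : ℤ) + 1)) = y := by
  funext n
  unfold h94ext
  have h1 := Int.emod_nonneg (n - 1) (b := (f : ℤ)) (by omega)
  have h2 : (((⟨((n - 1) % (f : ℤ)).toNat, h94_lt hf n⟩ : Fin f) : ℕ) : ℤ) = (n - 1) % (f : ℤ) := by
    simp only
    omega
  change z ^ ((n - 1) / (f : ℤ)) *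
    y ((((⟨((n - 1) % (f : ℤ)).toNat, h94_lt hf n⟩ : Fin f) : ℕ) : ℤ) + 1) = y n
  rw [h2, ← h94_qp hz hy]
  congr 1
  have := Int.emod_add_mul_ediv (n - 1) (f : ℤ)
  linarith

theorem h94ext_T {f : ℕ} (hf : 0 < f) {z : ℂ} (hz : z ≠ 0) (V : ℤ → ℝ) (x : Fin f → ℂ) :
    h94ext hf z (h94T hf z V x) = h94op (per f V) (h94ext hf z x) :=
  h94ext_of_qp hf hz (h94op_qp V (h94ext_qp hf hz x))

theorem h94ext_T_iter {f : ℕ} (hf : 0 < f) {z : ℂ} (hz : z ≠ 0) (V : ℤ → ℝ) (j : ℕ)
    (x : Fin f → ℂ) :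
    h94ext hf z (((h94T hf z V) ^ j) x) = (h94op (per f V))^[j] (h94ext hf z x) := by
  induction j generalizing x with
  | zero => simp
  | succ j ih =>
    rw [pow_succ, Module.End.mul_apply, ih, h94ext_T hf hz, Function.iterate_succ_apply]

theorem h94ext_val {f : ℕ} (hf : 0 < f) (z : ℂ) (x : Fin f → ℂ) (i : Fin f) :
    h94ext hf z x ((i : ℤ) + 1) = x i := by
  unfold h94ext
  have hi := i.2
  have h1 : ((i : ℤ) + 1 - 1) / (f : ℤ) = 0 := by
    rw [add_sub_cancel_right]
    exact Int.ediv_eq_zero_of_lt (by omega) (by omega)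
  have h2 : ((i : ℤ) + 1 - 1) % (f : ℤ) = i := by
    rw [add_sub_cancel_right]
    exact Int.emod_eq_of_lt (by omega) (by omega)
  rw [h1, zpow_zero, one_mul]
  congr 1
  apply Fin.ext
  simp only [h2]
  omega

theorem h94ext_delta {f : ℕ} (hf : 0 < f) (z : ℂ) (i : Fin f) (n : ℤ)
    (hn : |n - ((i : ℤ) + 1)| < (f : ℤ)) :
    h94ext hf z (Pi.single i 1) n = (((Pi.single ((i : ℤ) + 1) (1 : ℝ) : ℤ → ℝ) n : ℝ) : ℂ) := by
  by_cases h : n = (i : ℤ) + 1
  · rw [h, h94ext_val]
    simp
  · rw [Pi.single_eq_of_ne h]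
    unfold h94ext
    rw [Pi.single_eq_of_ne]
    · simp
    · intro h3
      apply h
      have h4 := congrArg (fun k : Fin f => ((k : ℕ) : ℤ)) h3
      simp only at h4
      have h5 := Int.emod_nonneg (n - 1) (b := (f : ℤ)) (by omega)
      have h6 : (n - 1) % (f : ℤ) = (i : ℤ) := by omega
      have h7 := Int.emod_add_mul_ediv (n - 1) (f : ℤ)
      rw [h6] at h7
      have h8 : n - ((i : ℤ) + 1) = (f : ℤ) * ((n - 1) / (f : ℤ)) := by linarith
      rw [h8, abs_mul, abs_of_pos (by omega : (0 : ℤ) < f)] at hn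
      have h9 : |(n - 1) / (f : ℤ)| < 1 := by
        by_contra hcon
        push Not at hcon
        have : (f : ℤ) * 1 ≤ (f : ℤ) * |(n - 1) / (f : ℤ)| :=
          mul_le_mul_of_nonneg_left hcon (by omega)
        linarith
      have h10 : (n - 1) / (f : ℤ) = 0 := Int.abs_lt_one_iff.1 h9
      rw [h10, mul_zero] at h8
      linarith

theorem h94_trace_T {f : ℕ} (hf : 0 < f) {z : ℂ} (hz : z ≠ 0) (V : ℤ → ℝ) (j : ℕ) (hj : j < f) :
    LinearMap.trace ℂ (Fin f → ℂ) ((h94T hf z V) ^ j) =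
      ((∑ i ∈ Finset.range f, mom (per f V) j ((i : ℤ) + 1) : ℝ) : ℂ) := by
  rw [LinearMap.trace_eq_matrix_trace ℂ (Pi.basisFun ℂ (Fin f)), Matrix.trace]
  rw [← Fin.sum_univ_eq_sum_range (fun i => mom (per f V) j ((i : ℤ) + 1)), ofReal_sum]
  refine Finset.sum_congr rfl fun i _ => ?_
  rw [Matrix.diag_apply, LinearMap.toMatrix_apply, Pi.basisFun_apply, Pi.basisFun_repr,
    ← h94ext_val hf z (((h94T hf z V) ^ j) (Pi.single i 1)) i, h94ext_T_iter hf hz]
  rw [h94op_local (per f V) j (h94ext hf z (Pi.single i 1))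
    (fun n => (((Pi.single ((i : ℤ) + 1) (1 : ℝ) : ℤ → ℝ) n : ℝ) : ℂ)) ((i : ℤ) + 1)]
  · rw [h94op_cast]
    rfl
  · intro n hn
    exact h94ext_delta hf z i n (by omega)

/-! ### eigenvectors -/

/-- The solution of the recursion. -/
noncomputable def h94a (t : ℝ) (V : ℤ → ℝ) (w0 w1 : ℂ) : ℕ → ℂ
  | 0 => w1
  | 1 => w0
  | (n + 2) => (-(t : ℂ) - (V ((n : ℤ) + 1) : ℂ)) * h94a t V w0 w1 (n + 1) - h94a t V w0 w1 n

theorem h94_prod (t : ℝ) (V : ℤ → ℝ) (w0 w1 : ℂ) (n : ℕ) :
    ((tprod t V n).map (fun x : ℝ => (x : ℂ))).mulVec ![w0, w1] =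
      ![h94a t V w0 w1 (n + 1), h94a t V w0 w1 n] := by
  induction n with
  | zero =>
    have : (tprod t V 0).map (fun x : ℝ => (x : ℂ)) = (1 : Matrix (Fin 2) (Fin 2) ℂ) := by
      ext i j
      fin_cases i <;> fin_cases j <;> simp [tprod]
    rw [this, Matrix.one_mulVec]
    rfl
  | succ n ih =>
    have h1 : (tprod t V (n + 1)).map (fun x : ℝ => (x : ℂ)) =
        (tstep t (V ((n : ℤ) + 1))).map (fun x : ℝ => (x : ℂ)) *
          (tprod t V n).map (fun x : ℝ => (x : ℂ)) := by
      change (tstep t (V ((n : ℤ) + 1)) * tprod t V n).map (Complex.ofRealHom) = _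
      rw [Matrix.map_mul]
      rfl
    rw [h1, ← Matrix.mulVec_mulVec, ih]
    ext i
    fin_cases i
    · simp [tstep, Matrix.mulVec, dotProduct, Fin.sum_univ_two, h94a]
      ring
    · simp [tstep, Matrix.mulVec, dotProduct, Fin.sum_univ_two]

theorem h94_det (t : ℝ) (V : ℤ → ℝ) (n : ℕ) : (tprod t V n).det = 1 := by
  induction n with
  | zero => simp [tprod]
  | succ n ih =>
    rw [tprod, Matrix.det_mul, ih, mul_one]
    simp [tstep, Matrix.det_fin_two]

theorem h94_eig {f : ℕ} (hf : 0 < f) (V : ℤ → ℝ) (phi t : ℝ)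
    (ht : (tprod t V f).trace = 2 * Real.cos phi) :
    ∃ x : Fin f → ℂ, x ≠ 0 ∧
      h94T hf (Complex.exp ((phi : ℂ) * I)) V x = (-(t : ℂ)) • x := by
  set z := Complex.exp ((phi : ℂ) * I) with hzd
  have hz : z ≠ 0 := Complex.exp_ne_zero _
  have hcos : 2 * ((Real.cos phi : ℝ) : ℂ) = z + z⁻¹ := by
    rw [Complex.ofReal_cos, Complex.cos, hzd, ← Complex.exp_neg]
    rw [neg_mul]
    ring
  set P := tprod t V f with hP
  -- an eigenvector of the transfer matrix
  have hdet : (P.map (fun x : ℝ => (x : ℂ)) - z • (1 : Matrix (Fin 2) (Fin 2) ℂ)).det = 0 := by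
    have h1 : P 0 0 * P 1 1 - P 0 1 * P 1 0 = 1 := by
      have := h94_det t V f
      rwa [Matrix.det_fin_two] at this
    have h2 : P 0 0 + P 1 1 = 2 * Real.cos phi := by
      rw [← ht, Matrix.trace_fin_two]
    have h1' : (P 0 0 : ℂ) * P 1 1 - P 0 1 * P 1 0 = 1 := by exact_mod_cast h1
    have h2' : (P 0 0 : ℂ) + P 1 1 = z + z⁻¹ := by
      rw [← hcos]
      exact_mod_cast h2
    have h3 : z * z⁻¹ = 1 := mul_inv_cancel₀ hz
    rw [Matrix.det_fin_two]
    simp only [Matrix.sub_apply, Matrix.map_apply, Matrix.smul_apply, Matrix.one_apply_eq,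
      smul_eq_mul, mul_one, ne_eq, zero_ne_one, not_false_eq_true, Matrix.one_apply_ne,
      mul_zero, sub_zero, one_ne_zero]
    linear_combination h1' - z * h2' - h3
  obtain ⟨w, hw, hw0⟩ := Matrix.exists_mulVec_eq_zero_iff.2 hdet
  have hw1 : (P.map (fun x : ℝ => (x : ℂ))).mulVec ![w 0, w 1] = z • ![w 0, w 1] := by
    have hww : ![w 0, w 1] = w := by
      ext i
      fin_cases i <;> rfl
    rw [hww]
    rw [Matrix.sub_mulVec, Matrix.smul_mulVec, Matrix.one_mulVec, sub_eq_zero] at hw0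
    exact hw0
  rw [hP, h94_prod] at hw1
  set a := h94a t V (w 0) (w 1) with ha
  have ha0 : a 0 = w 1 := rfl
  have ha1 : a 1 = w 0 := rfl
  have haf1 : a (f + 1) = z * a 1 := by
    have := congrFun hw1 0
    simpa [ha1] using this
  have haf : a f = z * a 0 := by
    have := congrFun hw1 1
    simpa [ha0] using this
  have harec : ∀ n : ℕ, a (n + 2) = (-(t : ℂ) - (V ((n : ℤ) + 1) : ℂ)) * a (n + 1) - a n :=
    fun n => rfl
  refine ⟨fun i => a (i + 1), ?_, ?_⟩
  · intro h0
    apply hw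
    have h1 : a 1 = 0 := congrFun h0 ⟨0, hf⟩
    have h2 : a f = 0 := by
      have := congrFun h0 ⟨f - 1, by omega⟩
      simp only [Pi.zero_apply] at this
      rwa [show f - 1 + 1 = f by omega] at this
    have h3 : a 0 = 0 := by
      rw [haf] at h2
      exact (mul_eq_zero.1 h2).resolve_left hz
    ext i
    fin_cases i
    · exact h1
    · exact h3
  · -- values of the extension
    have hv : ∀ n : ℕ, n ≤ f + 1 → h94ext hf z (fun i : Fin f => a (i + 1)) (n : ℤ) = a n := by
      intro n hn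
      rcases Nat.eq_zero_or_pos n with h0 | h0
      · subst h0
        have h1 := h94ext_qp hf hz (fun i : Fin f => a (i + 1)) 0
        have h2 := h94ext_val hf z (fun i : Fin f => a (i + 1)) ⟨f - 1, by omega⟩
        simp only at h2
        rw [show f - 1 + 1 = f by omega] at h2
        rw [show (((f - 1 : ℕ) : ℤ) + 1) = 0 + (f : ℤ) by omega, h1, haf] at h2
        have h3 := mul_left_cancel₀ hz h2
        exact_mod_cast h3
      · rcases Nat.lt_or_ge f n with h1 | h1
        · have hn' : n = f + 1 := by omega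
          subst hn'
          have h2 := h94ext_qp hf hz (fun i : Fin f => a (i + 1)) 1
          have h3 := h94ext_val hf z (fun i : Fin f => a (i + 1)) ⟨0, hf⟩
          simp only [Nat.cast_zero, zero_add] at h3
          rw [h3] at h2
          rw [haf1, ← h2]
          congr 1
          push_cast
          ring
        · have h2 := h94ext_val hf z (fun i : Fin f => a (i + 1)) ⟨n - 1, by omega⟩
          simp only at h2
          rw [show n - 1 + 1 = n by omega] at h2
          rw [← h2]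
          congr 1
          omega
    funext i
    rw [h94T_apply]
    unfold h94op
    have hi := i.2
    have e1 := hv (i + 2) (by omega)
    have e2 := hv i (by omega)
    have e3 := hv (i + 1) (by omega)
    rw [show (i : ℤ) + 1 + 1 = ((i + 2 : ℕ) : ℤ) by push_cast; ring, e1,
      show (i : ℤ) + 1 - 1 = ((i : ℕ) : ℤ) by ring, e2,
      show (i : ℤ) + 1 = ((i + 1 : ℕ) : ℤ) by push_cast; ring, e3]
    have hper : per f V (((i : ℕ) + 1 : ℕ) : ℤ) = V ((i : ℤ) + 1) := by
      unfold per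
      congr 1
      push_cast
      rw [add_sub_cancel_right, Int.emod_eq_of_lt (by omega) (by omega)]
    rw [hper, harec i]
    simp only [Pi.smul_apply, smul_eq_mul]
    ring

theorem floquet_trace (f : ℕ) (V : ℤ → ℝ) (phi : ℝ) (hphi : Real.sin phi ≠ 0)
    (t : Fin f → ℝ) (hinj : Function.Injective t)
    (ht : ∀ i, (tprod (t i) V f).trace = 2 * Real.cos phi) (j : ℕ) (hj : j < f) :
    ∑ i, (-t i) ^ j = ∑ i ∈ Finset.range f, mom (per f V) j ((i : ℤ) + 1) := by
  have hf : 0 < f := by omega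
  set z := Complex.exp ((phi : ℂ) * I) with hzd
  have hz : z ≠ 0 := Complex.exp_ne_zero _
  choose x hx0 hx using fun i => h94_eig hf V phi (t i) (ht i)
  have hev : ∀ i, Module.End.HasEigenvector (h94T hf z V) (-(t i : ℂ)) (x i) := fun i =>
    ⟨Module.End.mem_eigenspace_iff.2 (hx i), hx0 i⟩
  have hinj' : Function.Injective (fun i => (-(t i : ℂ))) := by
    intro i k h
    apply hinj
    have := neg_injective h
    exact_mod_cast this
  have hli := Module.End.eigenvectors_linearIndependent' (h94T hf z V) _ hinj' x hev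
  haveI : Nonempty (Fin f) := ⟨⟨0, hf⟩⟩
  let b := basisOfLinearIndependentOfCardEqFinrank hli (by simp)
  have hb : ∀ i, b i = x i := fun i => by
    simp only [b]
    rw [coe_basisOfLinearIndependentOfCardEqFinrank]
  have hpow : ∀ (j : ℕ) i, ((h94T hf z V) ^ j) (x i) = (-(t i : ℂ)) ^ j • x i := by
    intro j i
    induction j with
    | zero => simp
    | succ j ih =>
      rw [pow_succ', Module.End.mul_apply, ih, map_smul, hx i, smul_smul, pow_succ]
  have htr : LinearMap.trace ℂ (Fin f → ℂ) ((h94T hf z V) ^ j) = ∑ i, (-(t i : ℂ)) ^ j := by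
    rw [LinearMap.trace_eq_matrix_trace ℂ b, Matrix.trace]
    refine Finset.sum_congr rfl fun i _ => ?_
    rw [Matrix.diag_apply, LinearMap.toMatrix_apply, hb, hpow, ← hb i, map_smul,
      Finsupp.smul_apply, Module.Basis.repr_self, Finsupp.single_eq_same, smul_eq_mul, mul_one]
  have hfin := h94_trace_T hf hz V j hj
  rw [htr] at hfin
  have : ((∑ i, (-t i) ^ j : ℝ) : ℂ) =
      ((∑ i ∈ Finset.range f, mom (per f V) j ((i : ℤ) + 1) : ℝ) : ℂ) := by
    rw [← hfin]
    push_cast
    rfl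
  exact_mod_cast this

end SF
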