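import Pool.Agent.Helper65.SF.A2

/-!
# SF-A5: equidistribution

Proof in words.  `F om = mom (pot lam om) j 0` depends only on the window `pot lam om n`, `|n| <= j`, so it is
1-periodic and locally constant away from finitely many points mod 1 (`om` with `n alph + om` in
`Z` or `1 - alph + Z`, `|n| <= j`), bounded by `(2+|lam|)^j`, measurable.  `mom (pot lam 0) j i = F (i alph)`
(`mom_shift`).  For `i` with `j < i <= f - j` the windows of `per f (pot lam 0)` and `pot lam 0` agree, so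
`(1/f) sum_{i=1}^f mom (per f (pot lam 0)) j i = (1/f) sum_{i=1}^f F (i alph) + O(1/f)`.
With `f = fib n`, `g = fib (n-1)`: `|i alph - i g / f| <= 1/f` (`|alph - g/f| <= 1/f^2`), `i g` runs through all
residues mod f (coprime); both `i alph` and the points of the cell `[r/f,(r+1)/f]`, `r = i g mod f`, lie (mod 1)
in `[(r-1)/f,(r+1)/f]`, and the number of jumps there is
`V_r = sum_k (floor (k alph + (r+1)/f) - floor (k alph + (r-1)/f))`, `-j <= k <= j+1`, whose sum over `r`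
telescopes.
-/

namespace SF

open MeasureTheory

theorem alph_sq97 : alph ^ 2 + alph = 1 := by
  unfold alph
  have h : Real.sqrt 5 ^ 2 = 5 := Real.sq_sqrt (by norm_num)
  nlinarith

theorem alph_pos97 : 0 < alph := by
  unfold alph
  have h : (1:ℝ) < Real.sqrt 5 := by
    rw [Real.lt_sqrt] <;> norm_num
  linarith

theorem fibdiff97 (n : ℕ) :
    |alph * (Nat.fib (n + 1) : ℝ) - (Nat.fib n : ℝ)| = alph ^ (n + 1) := by
  induction n with
  | zero => simp [abs_of_pos alph_pos97]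
  | succ n ih =>
    have e : alph * (Nat.fib (n + 1 + 1) : ℝ) - (Nat.fib (n + 1) : ℝ)
        = - alph * (alph * (Nat.fib (n + 1) : ℝ) - (Nat.fib n : ℝ)) := by
      rw [Nat.fib_add_two]; push_cast
      linear_combination (Nat.fib (n + 1) : ℝ) * alph_sq97
    rw [e, abs_mul, abs_neg, abs_of_pos alph_pos97, ih]; ring

theorem fibpow97 (n : ℕ) : alph ^ n * (Nat.fib (n + 1) : ℝ) ≤ 1 := by
  have ha := alph_pos97
  have hs := alph_sq97
  induction n using Nat.twoStepInduction with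
  | zero => simp
  | one => simp; nlinarith
  | more n h1 h2 =>
    have e : alph ^ (n + 2) * (Nat.fib (n + 2 + 1) : ℝ)
        = alph ^ 2 * (alph ^ n * (Nat.fib (n + 1) : ℝ))
          + alph * (alph ^ (n + 1) * (Nat.fib (n + 1 + 1) : ℝ)) := by
      have : Nat.fib (n + 2 + 1) = Nat.fib (n + 1) + Nat.fib (n + 1 + 1) := Nat.fib_add_two
      rw [this]; push_cast; ring
    rw [e]
    have h3 : alph ^ 2 * (alph ^ n * (Nat.fib (n + 1) : ℝ)) ≤ alph ^ 2 * 1 :=
      mul_le_mul_of_nonneg_left h1 (by positivity)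
    have h4 : alph * (alph ^ (n + 1) * (Nat.fib (n + 1 + 1) : ℝ)) ≤ alph * 1 :=
      mul_le_mul_of_nonneg_left h2 ha.le
    linarith

/-- `|alph f - g| <= 1/f`. -/
theorem fibapprox97 (n : ℕ) :
    |alph * (Nat.fib (n + 1) : ℝ) - (Nat.fib n : ℝ)| ≤ 1 / (Nat.fib (n + 1) : ℝ) := by
  have hf : (0:ℝ) < (Nat.fib (n + 1) : ℝ) := by exact_mod_cast Nat.fib_pos.mpr (Nat.succ_pos n)
  rw [fibdiff97, le_div_iff₀ hf]
  have h := fibpow97 n
  have ha := alph_pos97
  have hs := alph_sq97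
  have hlt : alph ≤ 1 := by nlinarith
  calc alph ^ (n + 1) * (Nat.fib (n + 1) : ℝ) = alph * (alph ^ n * (Nat.fib (n + 1) : ℝ)) := by ring
    _ ≤ alph * 1 := mul_le_mul_of_nonneg_left h ha.le
    _ ≤ 1 := by linarith

theorem pot_floor97 (lam om : ℝ) (n : ℤ) :
    pot lam om n = if ⌊(n : ℝ) * alph + om⌋ + 1 ≤ ⌊((n + 1 : ℤ) : ℝ) * alph + om⌋ then lam else 0 := by
  unfold pot
  have h : (1 - alph ≤ Int.fract ((n : ℝ) * alph + om)) ↔
      (⌊(n : ℝ) * alph + om⌋ + 1 ≤ ⌊((n + 1 : ℤ) : ℝ) * alph + om⌋) := by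
    rw [Int.le_floor, Int.fract]
    push_cast
    constructor <;> intro h <;> linarith
  by_cases h1 : 1 - alph ≤ Int.fract ((n : ℝ) * alph + om)
  · rw [if_pos h1, if_pos (h.mp h1)]
  · rw [if_neg h1, if_neg (fun h2 => h1 (h.mpr h2))]

theorem pot_abs97 (lam om : ℝ) (n : ℤ) : |pot lam om n| ≤ |lam| := by
  unfold pot
  split_ifs
  · exact le_refl _
  · simp

/-- The function to be integrated. -/
noncomputable def FF97 (lam : ℝ) (j : ℕ) (om : ℝ) : ℝ := mom (pot lam om) j 0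

theorem FF_bound97 (lam : ℝ) (j : ℕ) (om : ℝ) : |FF97 lam j om| ≤ (2 + |lam|) ^ j :=
  mom_bound _ _ (pot_abs97 lam om) j 0

theorem FF_floor97 (lam : ℝ) (j : ℕ) (x y : ℝ)
    (h : ∀ k : ℤ, -(j : ℤ) ≤ k → k ≤ j + 1 → ⌊(k : ℝ) * alph + x⌋ = ⌊(k : ℝ) * alph + y⌋) :
    FF97 lam j x = FF97 lam j y := by
  unfold FF97
  apply mom_local
  intro n h1 h2
  rw [pot_floor97, pot_floor97, h n (by omega) (by omega), h (n + 1) (by omega) (by omega)]

theorem FF_shift97 (lam : ℝ) (j : ℕ) (x : ℝ) (m : ℤ) : FF97 lam j (x - m) = FF97 lam j x := by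
  unfold FF97
  apply mom_local
  intro n _ _
  unfold pot
  have : (n : ℝ) * alph + (x - m) = ((n : ℝ) * alph + x) - m := by ring
  rw [this, Int.fract_sub_intCast]

/-- number of jumps near cell `r`. -/
noncomputable def VV97 (j f : ℕ) (r : ℕ) : ℤ :=
  ∑ k ∈ Finset.Icc (-(j : ℤ)) (j + 1),
    (⌊(k : ℝ) * alph + ((r : ℝ) + 1) / f⌋ - ⌊(k : ℝ) * alph + ((r : ℝ) - 1) / f⌋)

theorem VV_term97 (f : ℕ) (r : ℕ) (c : ℝ) :
    ⌊c + ((r : ℝ) - 1) / f⌋ ≤ ⌊c + ((r : ℝ) + 1) / f⌋ := by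
  apply Int.floor_le_floor
  have : ((r : ℝ) - 1) / f ≤ ((r : ℝ) + 1) / f :=
    div_le_div_of_nonneg_right (by linarith) (Nat.cast_nonneg f)
  linarith

theorem FF_cell97 (lam : ℝ) (j f r : ℕ) (x y : ℝ)
    (hx1 : ((r : ℝ) - 1) / f ≤ x) (hx2 : x ≤ ((r : ℝ) + 1) / f)
    (hy1 : ((r : ℝ) - 1) / f ≤ y) (hy2 : y ≤ ((r : ℝ) + 1) / f) :
    |FF97 lam j x - FF97 lam j y| ≤ 2 * (2 + |lam|) ^ j * (VV97 j f r : ℝ) := by
  have hB : 0 ≤ (2 + |lam|) ^ j := by positivity
  have hnn : ∀ k ∈ Finset.Icc (-(j : ℤ)) (j + 1),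
      0 ≤ (⌊(k : ℝ) * alph + ((r : ℝ) + 1) / f⌋ - ⌊(k : ℝ) * alph + ((r : ℝ) - 1) / f⌋) :=
    fun k _ => sub_nonneg.mpr (VV_term97 f r _)
  have hV : 0 ≤ VV97 j f r := Finset.sum_nonneg hnn
  rcases hV.eq_or_lt with h0 | h1
  · have h2 := (Finset.sum_eq_zero_iff_of_nonneg hnn).mp h0.symm
    have : FF97 lam j x = FF97 lam j y := by
      apply FF_floor97
      intro k hk1 hk2
      have h3 := h2 k (Finset.mem_Icc.mpr ⟨hk1, hk2⟩)
      have a1 : ⌊(k : ℝ) * alph + ((r : ℝ) - 1) / f⌋ ≤ ⌊(k : ℝ) * alph + x⌋ :=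
        Int.floor_le_floor (by linarith)
      have a2 : ⌊(k : ℝ) * alph + x⌋ ≤ ⌊(k : ℝ) * alph + ((r : ℝ) + 1) / f⌋ :=
        Int.floor_le_floor (by linarith)
      have b1 : ⌊(k : ℝ) * alph + ((r : ℝ) - 1) / f⌋ ≤ ⌊(k : ℝ) * alph + y⌋ :=
        Int.floor_le_floor (by linarith)
      have b2 : ⌊(k : ℝ) * alph + y⌋ ≤ ⌊(k : ℝ) * alph + ((r : ℝ) + 1) / f⌋ :=
        Int.floor_le_floor (by linarith)
      omega
    rw [this, sub_self, abs_zero, ← h0]
    simp
  · have h2 : (1 : ℝ) ≤ (VV97 j f r : ℝ) := by exact_mod_cast h1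
    have h3 := abs_le.mp (FF_bound97 lam j x)
    have h4 := abs_le.mp (FF_bound97 lam j y)
    have h5 : |FF97 lam j x - FF97 lam j y| ≤ 2 * (2 + |lam|) ^ j := by
      rw [abs_le]; constructor <;> linarith [h3.1, h3.2, h4.1, h4.2]
    nlinarith

theorem VV_sum97 (j f : ℕ) (hf : 0 < f) : ∑ r ∈ Finset.range f, VV97 j f r = 2 * (2 * j + 2) := by
  unfold VV97
  rw [Finset.sum_comm]
  have hf' : (0:ℝ) < f := by exact_mod_cast hf
  have key : ∀ c : ℝ, ∑ r ∈ Finset.range f,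
      (⌊c + ((r : ℝ) + 1) / f⌋ - ⌊c + ((r : ℝ) - 1) / f⌋) = 2 := by
    intro c
    have e : ∀ r : ℕ, (⌊c + ((r : ℝ) + 1) / f⌋ - ⌊c + ((r : ℝ) - 1) / f⌋)
        = (⌊c + (((r + 1 : ℕ) : ℝ)) / f⌋ - ⌊c + ((r : ℕ) : ℝ) / f⌋)
          + (⌊c + (((r + 1 : ℕ) : ℝ) - 1) / f⌋ - ⌊c + (((r : ℕ) : ℝ) - 1) / f⌋) := by
      intro r
      push_cast
      have : (r : ℝ) + 1 - 1 = r := by ring
      rw [this]
      ring
    rw [Finset.sum_congr rfl (fun r _ => e r), Finset.sum_add_distrib,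
      Finset.sum_range_sub (fun r : ℕ => ⌊c + ((r : ℕ) : ℝ) / f⌋),
      Finset.sum_range_sub (fun r : ℕ => ⌊c + (((r : ℕ) : ℝ) - 1) / f⌋)]
    have e1 : c + ((f : ℕ) : ℝ) / f = c + ((0 : ℕ) : ℝ) / f + 1 := by
      field_simp; push_cast; ring
    have e2 : c + (((f : ℕ) : ℝ) - 1) / f = c + (((0 : ℕ) : ℝ) - 1) / f + 1 := by
      field_simp; push_cast; ring
    rw [e1, e2, Int.floor_add_one, Int.floor_add_one]
    ring
  rw [Finset.sum_congr rfl (fun k _ => key _), Finset.sum_const, Int.card_Icc]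
  simp only [nsmul_eq_mul]
  have : ((((j:ℤ) + 1 + 1 - -(j:ℤ)).toNat : ℕ) : ℤ) = 2 * j + 2 := by
    rw [Int.toNat_of_nonneg (by omega)]; ring
  rw [this]; ring

theorem op_meas97 (lam : ℝ) (u : ℤ → ℝ) (j : ℕ) :
    ∀ n : ℤ, Measurable (fun om => ((op1 (pot lam om))^[j] u) n) := by
  induction j with
  | zero => intro n; simp
  | succ j ih =>
    intro n
    simp only [Function.iterate_succ_apply', op1]
    have hp : Measurable (fun om => pot lam om n) := by
      unfold pot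
      apply Measurable.ite _ measurable_const measurable_const
      exact measurableSet_le measurable_const
        (measurable_fract.comp (measurable_const.add measurable_id))
    exact ((ih (n + 1)).add (ih (n - 1))).add (hp.mul (ih n))

theorem FF_meas97 (lam : ℝ) (j : ℕ) : Measurable (FF97 lam j) := op_meas97 lam _ j 0

theorem FF_int97 (lam : ℝ) (j : ℕ) (a b : ℝ) : IntervalIntegrable (FF97 lam j) volume a b := by
  have h1 : IntervalIntegrable (fun _ : ℝ => (2 + |lam|) ^ j) volume a b := intervalIntegrable_const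
  refine h1.mono_fun (FF_meas97 lam j).aestronglyMeasurable ?_
  refine Filter.Eventually.of_forall (fun x => ?_)
  have h2 : 0 ≤ (2 + |lam|) ^ j := by positivity
  change ‖FF97 lam j x‖ ≤ ‖(2 + |lam|) ^ j‖
  rw [Real.norm_eq_abs, Real.norm_eq_abs, abs_of_nonneg h2]
  exact FF_bound97 lam j x

theorem mom_integrable (lam : ℝ) (j : ℕ) :
    IntervalIntegrable (fun om => mom (pot lam om) j 0) volume 0 1 := FF_int97 lam j 0 1

/-- The estimate for one cell. -/
theorem cell_est97 (lam : ℝ) (j f g i : ℕ) (hi : i < f)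
    (hfg : |alph * (f : ℝ) - (g : ℝ)| ≤ 1 / (f : ℝ)) :
    |(1 / (f : ℝ)) * FF97 lam j (((i : ℝ) + 1) * alph)
      - ∫ x in ((((i + 1) * g % f : ℕ) : ℝ) / f)..(((((i + 1) * g % f : ℕ) + 1 : ℕ) : ℝ) / f),
        FF97 lam j x| ≤ (1 / (f : ℝ)) * (2 * (2 + |lam|) ^ j * (VV97 j f ((i + 1) * g % f) : ℝ)) := by
  have hf : (0:ℝ) < f := by exact_mod_cast (lt_of_le_of_lt (Nat.zero_le i) hi)
  set r := (i + 1) * g % f with hr
  set m := (i + 1) * g / f with hm
  have hdiv : (((i + 1) * g : ℕ) : ℝ) = f * m + r := by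
    have := Nat.div_add_mod ((i + 1) * g) f
    rw [← hm, ← hr] at this
    exact_mod_cast this.symm
  push_cast at hdiv
  have e0 : FF97 lam j (((i : ℝ) + 1) * alph) = FF97 lam j (((i : ℝ) + 1) * alph - (m : ℤ)) :=
    (FF_shift97 lam j _ _).symm
  set y : ℝ := ((i : ℝ) + 1) * alph - (m : ℤ) with hy
  have hi1 : ((i : ℝ) + 1) ≤ f := by exact_mod_cast hi
  have hab := abs_le.mp hfg
  have hyr : f * y - r = ((i : ℝ) + 1) * (alph * f - g) := by
    rw [hy]; push_cast; linear_combination hdiv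
  have hb : |f * y - r| ≤ 1 := by
    rw [hyr, abs_mul, abs_of_nonneg (by positivity : (0:ℝ) ≤ (i : ℝ) + 1)]
    calc ((i : ℝ) + 1) * |alph * f - g| ≤ f * (1 / f) :=
          mul_le_mul hi1 hfg (abs_nonneg _) hf.le
      _ = 1 := by field_simp
  have hb' := abs_le.mp hb
  have hy1 : ((r : ℝ) - 1) / f ≤ y := by rw [div_le_iff₀ hf]; linarith [hb'.1]
  have hy2 : y ≤ ((r : ℝ) + 1) / f := by rw [le_div_iff₀ hf]; linarith [hb'.2]
  have hlen : (((r + 1 : ℕ) : ℝ) / f) - ((r : ℝ) / f) = 1 / f := by push_cast; ring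
  have e1 : (1 / (f : ℝ)) * FF97 lam j y = ∫ x in ((r : ℝ) / f)..(((r + 1 : ℕ) : ℝ) / f), FF97 lam j y := by
    rw [intervalIntegral.integral_const, hlen, smul_eq_mul]
  rw [e0, e1, ← intervalIntegral.integral_sub intervalIntegrable_const (FF_int97 lam j _ _)]
  have h3 := intervalIntegral.norm_integral_le_of_norm_le_const
    (a := ((r : ℝ) / f)) (b := (((r + 1 : ℕ) : ℝ) / f))
    (f := fun x => FF97 lam j y - FF97 lam j x)
    (C := 2 * (2 + |lam|) ^ j * (VV97 j f r : ℝ)) (by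
      intro x hx
      have hle : ((r : ℝ) / f) ≤ (((r + 1 : ℕ) : ℝ) / f) := by
        have : (0:ℝ) ≤ 1 / f := by positivity
        linarith [hlen]
      rw [Set.uIoc_of_le hle] at hx
      obtain ⟨hx1, hx2⟩ := hx
      have hx3 : ((r : ℝ) - 1) / f ≤ x := by
        have : ((r : ℝ) - 1) / f ≤ (r : ℝ) / f := div_le_div_of_nonneg_right (by linarith) hf.le
        linarith
      push_cast at hx2
      exact FF_cell97 lam j f r y x hy1 hy2 hx3 hx2)
  rw [hlen, abs_of_nonneg (by positivity : (0:ℝ) ≤ 1 / (f : ℝ))] at h3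
  rw [Real.norm_eq_abs] at h3
  linarith [h3]

theorem mean_est97 (lam : ℝ) (j f g : ℕ) (hf : 0 < f) (hco : Nat.Coprime g f)
    (hfg : |alph * (f : ℝ) - (g : ℝ)| ≤ 1 / (f : ℝ)) :
    |(1 / (f : ℝ)) * ∑ i ∈ Finset.range f, FF97 lam j (((i : ℝ) + 1) * alph)
      - ∫ x in (0:ℝ)..1, FF97 lam j x| ≤ (1 / (f : ℝ)) * (2 * (2 + |lam|) ^ j * (2 * (2 * j + 2))) := by
  have hf' : (0:ℝ) < f := by exact_mod_cast hf
  -- the bijection
  have bij : ∀ G : ℕ → ℝ, ∑ i ∈ Finset.range f, G ((i + 1) * g % f) = ∑ r ∈ Finset.range f, G r := by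
    intro G
    have hmaps : ∀ i ∈ Finset.range f, (i + 1) * g % f ∈ Finset.range f := fun i _ =>
      Finset.mem_range.mpr (Nat.mod_lt _ hf)
    have hinj : Set.InjOn (fun i => (i + 1) * g % f) (Finset.range f : Set ℕ) := by
      intro a ha b hb hab
      have ha' := Finset.mem_range.mp (Finset.mem_coe.mp ha)
      have hb' := Finset.mem_range.mp (Finset.mem_coe.mp hb)
      have h1 : (a + 1) * g ≡ (b + 1) * g [MOD f] := hab
      have h2 : a + 1 ≡ b + 1 [MOD f] :=
        Nat.ModEq.cancel_right_of_coprime (by rw [Nat.gcd_comm]; exact hco) h1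
      have h3 : a ≡ b [MOD f] := Nat.ModEq.add_right_cancel' 1 h2
      exact Nat.ModEq.eq_of_lt_of_lt h3 ha' hb'
    have himg : (Finset.range f).image (fun i => (i + 1) * g % f) = Finset.range f := by
      apply Finset.eq_of_subset_of_card_le
      · intro r hr
        obtain ⟨i, hi, rfl⟩ := Finset.mem_image.mp hr
        exact hmaps i hi
      · rw [Finset.card_image_of_injOn hinj]
    calc ∑ i ∈ Finset.range f, G ((i + 1) * g % f)
        = ∑ r ∈ (Finset.range f).image (fun i => (i + 1) * g % f), G r :=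
          (Finset.sum_image (fun a ha b hb h => hinj ha hb h)).symm
      _ = ∑ r ∈ Finset.range f, G r := by rw [himg]
  have hsplit : ∫ x in (0:ℝ)..1, FF97 lam j x
      = ∑ r ∈ Finset.range f, ∫ x in ((r : ℝ) / f)..(((r + 1 : ℕ) : ℝ) / f), FF97 lam j x := by
    have h := intervalIntegral.sum_integral_adjacent_intervals (μ := volume) (f := FF97 lam j)
      (a := fun r : ℕ => (r : ℝ) / f) (n := f) (fun k _ => FF_int97 lam j _ _)
    rw [h]
    congr 1
    · simp
    · field_simp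
  rw [hsplit, ← bij (fun r => ∫ x in ((r : ℝ) / f)..(((r + 1 : ℕ) : ℝ) / f), FF97 lam j x),
    Finset.mul_sum, ← Finset.sum_sub_distrib]
  calc |∑ i ∈ Finset.range f, ((1 / (f : ℝ)) * FF97 lam j (((i : ℝ) + 1) * alph)
        - ∫ x in ((((i + 1) * g % f : ℕ) : ℝ) / f)..(((((i + 1) * g % f : ℕ) + 1 : ℕ) : ℝ) / f),
          FF97 lam j x)|
      ≤ ∑ i ∈ Finset.range f, |(1 / (f : ℝ)) * FF97 lam j (((i : ℝ) + 1) * alph)
        - ∫ x in ((((i + 1) * g % f : ℕ) : ℝ) / f)..(((((i + 1) * g % f : ℕ) + 1 : ℕ) : ℝ) / f),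
          FF97 lam j x| := Finset.abs_sum_le_sum_abs _ _
    _ ≤ ∑ i ∈ Finset.range f,
        (1 / (f : ℝ)) * (2 * (2 + |lam|) ^ j * (VV97 j f ((i + 1) * g % f) : ℝ)) :=
        Finset.sum_le_sum (fun i hi => cell_est97 lam j f g i (Finset.mem_range.mp hi) hfg)
    _ = ∑ r ∈ Finset.range f, (1 / (f : ℝ)) * (2 * (2 + |lam|) ^ j * (VV97 j f r : ℝ)) :=
        bij (fun r => (1 / (f : ℝ)) * (2 * (2 + |lam|) ^ j * (VV97 j f r : ℝ)))
    _ = (1 / (f : ℝ)) * (2 * (2 + |lam|) ^ j * ((∑ r ∈ Finset.range f, VV97 j f r : ℤ) : ℝ)) := by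
        rw [← Finset.mul_sum, ← Finset.mul_sum]; push_cast; rfl
    _ = (1 / (f : ℝ)) * (2 * (2 + |lam|) ^ j * (2 * (2 * j + 2))) := by
        rw [VV_sum97 j f hf]; push_cast; rfl

theorem per_est97 (lam : ℝ) (j f : ℕ) :
    |∑ i ∈ Finset.range f, mom (per f (pot lam 0)) j ((i : ℤ) + 1)
      - ∑ i ∈ Finset.range f, FF97 lam j (((i : ℝ) + 1) * alph)|
      ≤ 2 * (2 + |lam|) ^ j * (2 * j) := by
  have e1 : ∀ i : ℕ, FF97 lam j (((i : ℝ) + 1) * alph) = mom (pot lam 0) j ((i : ℤ) + 1) := by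
    intro i
    rw [← mom_shift]
    unfold FF97
    congr 1
    funext n
    unfold pot
    have : (n : ℝ) * alph + ((i : ℝ) + 1) * alph = ((n + ((i : ℤ) + 1) : ℤ) : ℝ) * alph + 0 := by
      push_cast; ring
    rw [this]
  have hB : 0 ≤ (2 + |lam|) ^ j := by positivity
  rw [← Finset.sum_sub_distrib]
  have hterm : ∀ i ∈ Finset.range f, |mom (per f (pot lam 0)) j ((i : ℤ) + 1)
      - FF97 lam j (((i : ℝ) + 1) * alph)| ≤
      (if i < j then 2 * (2 + |lam|) ^ j else 0) + (if f - j ≤ i then 2 * (2 + |lam|) ^ j else 0) := by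
    intro i hi
    have hi' := Finset.mem_range.mp hi
    rw [e1]
    by_cases hbad : i < j ∨ f - j ≤ i
    · have b1 : |mom (per f (pot lam 0)) j ((i : ℤ) + 1)| ≤ (2 + |lam|) ^ j :=
        mom_bound _ _ (fun n => pot_abs97 lam 0 _) j _
      have b2 : |mom (pot lam 0) j ((i : ℤ) + 1)| ≤ (2 + |lam|) ^ j :=
        mom_bound _ _ (fun n => pot_abs97 lam 0 _) j _
      have b3 : |mom (per f (pot lam 0)) j ((i : ℤ) + 1) - mom (pot lam 0) j ((i : ℤ) + 1)|
          ≤ 2 * (2 + |lam|) ^ j := by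
        have := abs_le.mp b1
        have := abs_le.mp b2
        rw [abs_le]; constructor <;> linarith
      rcases hbad with h | h
      · rw [if_pos h]; split_ifs <;> linarith
      · rw [if_pos h]; split_ifs <;> linarith
    · push Not at hbad
      obtain ⟨h1, h2⟩ := hbad
      have : mom (per f (pot lam 0)) j ((i : ℤ) + 1) = mom (pot lam 0) j ((i : ℤ) + 1) := by
        apply mom_local
        intro n hn1 hn2
        unfold per
        rw [Int.emod_eq_of_lt (by omega) (by omega)]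
        congr 1
        ring
      rw [this, sub_self, abs_zero]
      split_ifs <;> linarith
  calc |∑ i ∈ Finset.range f, (mom (per f (pot lam 0)) j ((i : ℤ) + 1)
      - FF97 lam j (((i : ℝ) + 1) * alph))|
      ≤ ∑ i ∈ Finset.range f, |mom (per f (pot lam 0)) j ((i : ℤ) + 1)
      - FF97 lam j (((i : ℝ) + 1) * alph)| := Finset.abs_sum_le_sum_abs _ _
    _ ≤ ∑ i ∈ Finset.range f, ((if i < j then 2 * (2 + |lam|) ^ j else 0)
        + (if f - j ≤ i then 2 * (2 + |lam|) ^ j else 0)) := Finset.sum_le_sum hterm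
    _ = ((Finset.range f).filter (fun i => i < j)).card * (2 * (2 + |lam|) ^ j)
        + ((Finset.range f).filter (fun i => f - j ≤ i)).card * (2 * (2 + |lam|) ^ j) := by
        rw [Finset.sum_add_distrib, ← Finset.sum_filter, ← Finset.sum_filter, Finset.sum_const,
          Finset.sum_const, nsmul_eq_mul, nsmul_eq_mul]
    _ ≤ j * (2 * (2 + |lam|) ^ j) + j * (2 * (2 + |lam|) ^ j) := by
        have c1 : ((Finset.range f).filter (fun i => i < j)).card ≤ j := by
          calc ((Finset.range f).filter (fun i => i < j)).card ≤ (Finset.range j).card := by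
                apply Finset.card_le_card
                intro i hi
                rw [Finset.mem_filter] at hi
                exact Finset.mem_range.mpr hi.2
            _ = j := Finset.card_range j
        have c2 : ((Finset.range f).filter (fun i => f - j ≤ i)).card ≤ j := by
          calc ((Finset.range f).filter (fun i => f - j ≤ i)).card ≤ (Finset.Ico (f - j) f).card := by
                apply Finset.card_le_card
                intro i hi
                rw [Finset.mem_filter, Finset.mem_range] at hi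
                exact Finset.mem_Ico.mpr ⟨hi.2, hi.1⟩
            _ ≤ j := by rw [Nat.card_Ico]; omega
        have c1' : (((Finset.range f).filter (fun i => i < j)).card : ℝ) ≤ j := by exact_mod_cast c1
        have c2' : (((Finset.range f).filter (fun i => f - j ≤ i)).card : ℝ) ≤ j := by
          exact_mod_cast c2
        have h2 : 0 ≤ 2 * (2 + |lam|) ^ j := by positivity
        exact add_le_add (mul_le_mul_of_nonneg_right c1' h2) (mul_le_mul_of_nonneg_right c2' h2)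
    _ = 2 * (2 + |lam|) ^ j * (2 * j) := by ring

theorem mean_mom (lam : ℝ) (j : ℕ) :
    Filter.Tendsto (fun n : ℕ => (1 / (Nat.fib n : ℝ)) *
      ∑ i ∈ Finset.range (Nat.fib n), mom (per (Nat.fib n) (pot lam 0)) j ((i : ℤ) + 1))
      Filter.atTop (nhds (∫ om in (0:ℝ)..1, mom (pot lam om) j 0)) := by
  rw [tendsto_iff_norm_sub_tendsto_zero]
  set C : ℝ := 2 * (2 + |lam|) ^ j * (2 * j) + 2 * (2 + |lam|) ^ j * (2 * (2 * j + 2)) with hC
  have hbound : ∀ n : ℕ, 1 ≤ n → ‖(1 / (Nat.fib n : ℝ)) *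
      ∑ i ∈ Finset.range (Nat.fib n), mom (per (Nat.fib n) (pot lam 0)) j ((i : ℤ) + 1)
      - ∫ om in (0:ℝ)..1, mom (pot lam om) j 0‖ ≤ C * (1 / (Nat.fib n : ℝ)) := by
    intro n hn
    obtain ⟨m, rfl⟩ : ∃ m, n = m + 1 := ⟨n - 1, by omega⟩
    have hf : 0 < Nat.fib (m + 1) := Nat.fib_pos.mpr (Nat.succ_pos m)
    have hf' : (0:ℝ) < (Nat.fib (m + 1) : ℝ) := by exact_mod_cast hf
    have h1 := mean_est97 lam j (Nat.fib (m + 1)) (Nat.fib m) hf (Nat.fib_coprime_fib_succ m)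
      (fibapprox97 m)
    have h2 := per_est97 lam j (Nat.fib (m + 1))
    have h3 : (∫ om in (0:ℝ)..1, mom (pot lam om) j 0) = ∫ x in (0:ℝ)..1, FF97 lam j x := rfl
    rw [h3, Real.norm_eq_abs]
    set f : ℝ := (Nat.fib (m + 1) : ℝ) with hfdef
    set S := ∑ i ∈ Finset.range (Nat.fib (m + 1)),
      mom (per (Nat.fib (m + 1)) (pot lam 0)) j ((i : ℤ) + 1) with hS
    set T := ∑ i ∈ Finset.range (Nat.fib (m + 1)), FF97 lam j (((i : ℝ) + 1) * alph) with hT
    set I := ∫ x in (0:ℝ)..1, FF97 lam j x with hI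
    have e : 1 / f * S - I = 1 / f * (S - T) + (1 / f * T - I) := by ring
    have h4 : |1 / f * (S - T)| ≤ 1 / f * (2 * (2 + |lam|) ^ j * (2 * j)) := by
      rw [abs_mul, abs_of_nonneg (by positivity : (0:ℝ) ≤ 1 / f)]
      exact mul_le_mul_of_nonneg_left h2 (by positivity)
    calc |1 / f * S - I| = |1 / f * (S - T) + (1 / f * T - I)| := by rw [e]
      _ ≤ |1 / f * (S - T)| + |1 / f * T - I| := abs_add_le _ _
      _ ≤ 1 / f * (2 * (2 + |lam|) ^ j * (2 * j))
          + (1 / f) * (2 * (2 + |lam|) ^ j * (2 * (2 * j + 2))) := add_le_add h4 h1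
      _ = C * (1 / f) := by rw [hC]; ring
  have hfib : Filter.Tendsto (fun n : ℕ => (Nat.fib n : ℝ)) Filter.atTop Filter.atTop := by
    apply Filter.tendsto_atTop_mono' Filter.atTop _ tendsto_natCast_atTop_atTop
    filter_upwards [Filter.eventually_ge_atTop 5] with n hn
    exact_mod_cast Nat.le_fib_self hn
  have hlim : Filter.Tendsto (fun n : ℕ => C * (1 / (Nat.fib n : ℝ))) Filter.atTop (nhds 0) := by
    have h := (tendsto_inv_atTop_zero.comp hfib).const_mul C
    simp only [mul_zero] at h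
    refine h.congr (fun n => ?_)
    simp [Function.comp]
  refine squeeze_zero' (Filter.Eventually.of_forall (fun n => norm_nonneg _)) ?_ hlim
  filter_upwards [Filter.eventually_ge_atTop 1] with n hn
  exact hbound n hn

end SF
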