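import Pool.Agent.Helper65.SF.ADefs

/-!
# SF-A0: the operator on `l^2(Z x Z)`

The bounded operator
`(H psi)(m,n) = psi(m+1,n)+psi(m-1,n)+psi(m,n+1)+psi(m,n-1)+(V m + U n) psi(m,n)` on
`lp (fun _ : Z x Z => C) 2` for bounded real `V, U`, as a sum of shifts (composition with a bijection of
the index set) and of multiplication by a bounded function; the formula, self-adjointness
(`inner (H u) v = inner u (H v)`) and the norm bound.
-/

namespace SF

open MeasureTheory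

/-- The Hilbert space `l^2(Z x Z)`. -/
noncomputable abbrev L2ZZ := lp (fun _ : ℤ × ℤ => ℂ) 2

/-- The continuous functional calculus of self-adjoint operators, for an arbitrary Hilbert space. -/
theorem gencfc (H : Type) [NormedAddCommGroup H] [InnerProductSpace ℂ H] [CompleteSpace H] :
    ContinuousFunctionalCalculus ℝ (H →L[ℂ] H) IsSelfAdjoint := inferInstance

/-- The same for `l^2(Z x Z)`. -/
instance instCfcL2 : ContinuousFunctionalCalculus ℝ (L2ZZ →L[ℂ] L2ZZ) IsSelfAdjoint := gencfc L2ZZ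

/-! ### Shifts -/

theorem memlp_comp (e : ℤ × ℤ ≃ ℤ × ℤ) (f : L2ZZ) : Memℓp (fun x => f (e x)) 2 := by
  apply memℓp_gen
  have h := (lp.memℓp f).summable (by norm_num)
  exact (e.summable_iff (f := fun i => ‖f i‖ ^ (2 : ENNReal).toReal)).2 h

/-- Composition with a bijection of the index set, as a linear map. -/
noncomputable def shiftLin (e : ℤ × ℤ ≃ ℤ × ℤ) : L2ZZ →ₗ[ℂ] L2ZZ where
  toFun f := ⟨fun x => f (e x), memlp_comp e f⟩
  map_add' _ _ := rfl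
  map_smul' _ _ := rfl

theorem shiftLin_norm (e : ℤ × ℤ ≃ ℤ × ℤ) (f : L2ZZ) : ‖shiftLin e f‖ ≤ 1 * ‖f‖ := by
  rw [one_mul]
  refine lp.norm_le_of_tsum_le (by norm_num) (norm_nonneg _) ?_
  rw [lp.norm_rpow_eq_tsum (by norm_num) f]
  exact le_of_eq (e.tsum_eq (fun i => ‖f i‖ ^ (2 : ENNReal).toReal))

/-- Composition with a bijection of the index set. -/
noncomputable def shiftOp (e : ℤ × ℤ ≃ ℤ × ℤ) : L2ZZ →L[ℂ] L2ZZ :=
  (shiftLin e).mkContinuous 1 (shiftLin_norm e)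

theorem shiftOp_apply (e : ℤ × ℤ ≃ ℤ × ℤ) (f : L2ZZ) (p : ℤ × ℤ) : shiftOp e f p = f (e p) := rfl

theorem shiftOp_norm (e : ℤ × ℤ ≃ ℤ × ℤ) : ‖shiftOp e‖ ≤ 1 :=
  LinearMap.mkContinuous_norm_le _ zero_le_one _

theorem shiftOp_inner (e : ℤ × ℤ ≃ ℤ × ℤ) (f g : L2ZZ) :
    inner ℂ (shiftOp e f) g = inner ℂ f (shiftOp e.symm g) := by
  rw [lp.inner_eq_tsum, lp.inner_eq_tsum]
  rw [← e.tsum_eq (fun i => inner ℂ (f i) (shiftOp e.symm g i))]
  refine tsum_congr fun i => ?_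
  rw [shiftOp_apply, shiftOp_apply, Equiv.symm_apply_apply]

/-! ### Multiplication operators -/

theorem memlp_mul (w : ℤ × ℤ → ℝ) (C : ℝ) (hw : ∀ p, |w p| ≤ C) (f : L2ZZ) :
    Memℓp (fun x => ((w x : ℝ) : ℂ) * f x) 2 := by
  have hC : 0 ≤ C := (abs_nonneg _).trans (hw (0, 0))
  have h := (lp.memℓp f).const_smul ((C : ℝ) : ℂ)
  refine h.mono' fun i => ?_
  rw [Pi.smul_apply, norm_mul, norm_smul, Complex.norm_real, Complex.norm_real, Real.norm_eq_abs,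
    Real.norm_eq_abs, abs_of_nonneg hC]
  exact mul_le_mul_of_nonneg_right (hw i) (norm_nonneg _)

/-- Multiplication by a bounded function, as a linear map. -/
noncomputable def mulLin (w : ℤ × ℤ → ℝ) (C : ℝ) (hw : ∀ p, |w p| ≤ C) : L2ZZ →ₗ[ℂ] L2ZZ where
  toFun f := ⟨fun x => ((w x : ℝ) : ℂ) * f x, memlp_mul w C hw f⟩
  map_add' f g := by
    apply lp.ext
    funext x
    exact mul_add _ _ _
  map_smul' a f := by
    apply lp.ext
    funext x
    exact mul_left_comm _ _ _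

theorem mulLin_norm (w : ℤ × ℤ → ℝ) (C : ℝ) (hw : ∀ p, |w p| ≤ C) (f : L2ZZ) :
    ‖mulLin w C hw f‖ ≤ C * ‖f‖ := by
  have hC : 0 ≤ C := (abs_nonneg _).trans (hw (0, 0))
  have h : ‖mulLin w C hw f‖ ≤ ‖((C : ℝ) : ℂ) • f‖ := by
    refine lp.norm_mono (by norm_num) fun i => ?_
    change ‖((w i : ℝ) : ℂ) * f i‖ ≤ ‖((C : ℝ) : ℂ) * f i‖
    rw [norm_mul, norm_mul, Complex.norm_real, Complex.norm_real, Real.norm_eq_abs,
      Real.norm_eq_abs, abs_of_nonneg hC]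
    exact mul_le_mul_of_nonneg_right (hw i) (norm_nonneg _)
  refine h.trans (le_of_eq ?_)
  rw [norm_smul, Complex.norm_real, Real.norm_eq_abs, abs_of_nonneg hC]

/-- Multiplication by a bounded function. -/
noncomputable def mulOp (w : ℤ × ℤ → ℝ) (C : ℝ) (hw : ∀ p, |w p| ≤ C) : L2ZZ →L[ℂ] L2ZZ :=
  (mulLin w C hw).mkContinuous C (mulLin_norm w C hw)

theorem mulOp_apply (w : ℤ × ℤ → ℝ) (C : ℝ) (hw : ∀ p, |w p| ≤ C) (f : L2ZZ) (p : ℤ × ℤ) :
    mulOp w C hw f p = ((w p : ℝ) : ℂ) * f p := rfl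

theorem mulOp_norm (w : ℤ × ℤ → ℝ) (C : ℝ) (hw : ∀ p, |w p| ≤ C) : ‖mulOp w C hw‖ ≤ C :=
  LinearMap.mkContinuous_norm_le _ ((abs_nonneg _).trans (hw (0, 0))) _

theorem mulOp_inner (w : ℤ × ℤ → ℝ) (C : ℝ) (hw : ∀ p, |w p| ≤ C) (f g : L2ZZ) :
    inner ℂ (mulOp w C hw f) g = inner ℂ f (mulOp w C hw g) := by
  rw [lp.inner_eq_tsum, lp.inner_eq_tsum]
  refine tsum_congr fun i => ?_
  rw [mulOp_apply, mulOp_apply]
  simp only [RCLike.inner_apply, map_mul, Complex.conj_ofReal]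
  ring

/-! ### The operator -/

/-- Translation by one in the first variable. -/
def sh1 : ℤ × ℤ ≃ ℤ × ℤ := (Equiv.addRight (1 : ℤ)).prodCongr (Equiv.refl ℤ)

/-- Translation by one in the second variable. -/
def sh2 : ℤ × ℤ ≃ ℤ × ℤ := (Equiv.refl ℤ).prodCongr (Equiv.addRight (1 : ℤ))

theorem potBound (V U : ℤ → ℝ) (c : ℝ) (hV : ∀ n, |V n| ≤ c) (hU : ∀ n, |U n| ≤ c) (p : ℤ × ℤ) :
    |V p.1 + U p.2| ≤ 2 * c := by
  have h := abs_add_le (V p.1) (U p.2)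
  have h1 := hV p.1
  have h2 := hU p.2
  linarith

/-- The operator, for potentials bounded by `c`. -/
noncomputable def H2 (V U : ℤ → ℝ) (c : ℝ) (hV : ∀ n, |V n| ≤ c) (hU : ∀ n, |U n| ≤ c) :
    L2ZZ →L[ℂ] L2ZZ :=
  shiftOp sh1 + shiftOp sh1.symm + shiftOp sh2 + shiftOp sh2.symm
    + mulOp (fun p => V p.1 + U p.2) (2 * c) (potBound V U c hV hU)

theorem H2_apply (V U : ℤ → ℝ) (c : ℝ) (hV : ∀ n, |V n| ≤ c) (hU : ∀ n, |U n| ≤ c)
    (psi : L2ZZ) (m n : ℤ) :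
    H2 V U c hV hU psi (m, n) = psi (m + 1, n) + psi (m - 1, n) + psi (m, n + 1) + psi (m, n - 1)
      + ((V m + U n : ℝ) : ℂ) * psi (m, n) := by
  rfl

theorem H2_selfAdjoint (V U : ℤ → ℝ) (c : ℝ) (hV : ∀ n, |V n| ≤ c) (hU : ∀ n, |U n| ≤ c) :
    IsSelfAdjoint (H2 V U c hV hU) := by
  rw [ContinuousLinearMap.isSelfAdjoint_iff_isSymmetric]
  intro f g
  change inner ℂ (H2 V U c hV hU f) g = inner ℂ f (H2 V U c hV hU g)
  simp only [H2, add_apply, inner_add_left, inner_add_right, shiftOp_inner,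
    mulOp_inner, Equiv.symm_symm]
  ring

theorem H2_norm (V U : ℤ → ℝ) (c : ℝ) (hV : ∀ n, |V n| ≤ c) (hU : ∀ n, |U n| ≤ c) :
    ‖H2 V U c hV hU‖ ≤ 4 + 2 * c := by
  have h1 := shiftOp_norm sh1
  have h2 := shiftOp_norm sh1.symm
  have h3 := shiftOp_norm sh2
  have h4 := shiftOp_norm sh2.symm
  have h5 := mulOp_norm (fun p => V p.1 + U p.2) (2 * c) (potBound V U c hV hU)
  refine (norm_add_le _ _).trans ?_
  have h6 := norm_add_le (shiftOp sh1 + shiftOp sh1.symm + shiftOp sh2) (shiftOp sh2.symm)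
  have h7 := norm_add_le (shiftOp sh1 + shiftOp sh1.symm) (shiftOp sh2)
  have h8 := norm_add_le (shiftOp sh1) (shiftOp sh1.symm)
  linarith

end SF
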