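import Pool.Agent.Helper65.SF.A0

/-!
# SF-A1: functional calculus of the operator at `x ^ j`

Proof in words.  The spectrum of the self-adjoint operator H lies in `[-‖H‖, ‖H‖]`, a function which
agrees with `x ^ j` there has `cfc g H = H ^ j` (`cfc_congr`, `cfc_pow_id`).  The matrix element
`<delta, H^j delta>` equals `mom2 V U j`: by induction on j, `(H^j delta) p = ((op2 V U)^[j] (Pi.single 0 1)) p`
for all p (`H2_apply`).  A function g vanishing on `[-10,10]` has `cfc g H = 0`.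
-/

namespace SF

/-- The vector `delta_(0,0)`. -/
noncomputable def del0 : L2ZZ := lp.single 2 ((0, 0) : ℤ × ℤ) (1 : ℂ)

theorem H2_pow (V U : ℤ → ℝ) (c : ℝ) (hV : ∀ n, |V n| ≤ c) (hU : ∀ n, |U n| ≤ c) (j : ℕ)
    (p : ℤ × ℤ) :
    ((H2 V U c hV hU ^ j) del0) p = (((op2 V U)^[j] (Pi.single (0, 0) 1)) p : ℝ) := by
  induction j generalizing p with
  | zero =>
    rw [pow_zero, one_apply_eq_self, Function.iterate_zero_apply, del0,
      lp.single_apply]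
    by_cases h : p = (0, 0)
    · subst h; simp
    · rw [Pi.single_eq_of_ne h, Pi.single_eq_of_ne h]; simp
  | succ j ih =>
    obtain ⟨m, n⟩ := p
    rw [pow_succ', mul_apply_eq_comp, H2_apply, ih, ih, ih, ih, ih,
      Function.iterate_succ_apply', op2]
    push_cast
    ring

theorem inner_H2_pow (V U : ℤ → ℝ) (c : ℝ) (hV : ∀ n, |V n| ≤ c) (hU : ∀ n, |U n| ≤ c) (j : ℕ) :
    inner ℂ del0 ((H2 V U c hV hU ^ j) del0) = (mom2 V U j : ℂ) := by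
  have h : inner ℂ del0 ((H2 V U c hV hU ^ j) del0) =
      inner ℂ (1 : ℂ) (((H2 V U c hV hU ^ j) del0) (0, 0)) := by
    have h1 := lp.inner_single_left (𝕜 := ℂ) (G := fun _ : ℤ × ℤ => ℂ) ((0, 0) : ℤ × ℤ) (1 : ℂ)
      ((H2 V U c hV hU ^ j) del0)
    rw [← h1]
    rfl
  rw [h, H2_pow, mom2]
  simp

theorem spec_H2 (V U : ℤ → ℝ) (c : ℝ) (hV : ∀ n, |V n| ≤ c) (hU : ∀ n, |U n| ≤ c)
    (hc : c ≤ 1) (x : ℝ) (hx : x ∈ spectrum ℝ (H2 V U c hV hU)) : |x| ≤ 10 := by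
  have h1 := spectrum.norm_le_norm_mul_of_mem hx
  have h2 : ‖(1 : L2ZZ →L[ℂ] L2ZZ)‖ ≤ 1 := ContinuousLinearMap.norm_id_le
  have h3 := H2_norm V U c hV hU
  have h4 : 0 ≤ ‖H2 V U c hV hU‖ := norm_nonneg _
  have h5 : 0 ≤ ‖(1 : L2ZZ →L[ℂ] L2ZZ)‖ := norm_nonneg _
  rw [Real.norm_eq_abs] at h1
  nlinarith

theorem cfc_H2_pow (V U : ℤ → ℝ) (c : ℝ) (hV : ∀ n, |V n| ≤ c) (hU : ∀ n, |U n| ≤ c)
    (hc : c ≤ 1) (j : ℕ) (g : ℝ → ℝ) (hg : Continuous g) (hgj : ∀ x, |x| ≤ 10 → g x = x ^ j) :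
    cfc g (H2 V U c hV hU) = H2 V U c hV hU ^ j := by
  rw [cfc_congr (g := fun x : ℝ => x ^ j)
    (fun x hx => hgj x (spec_H2 V U c hV hU hc x hx))]
  exact cfc_pow_id _ j (H2_selfAdjoint V U c hV hU)

theorem cfc_H2_zero (V U : ℤ → ℝ) (c : ℝ) (hV : ∀ n, |V n| ≤ c) (hU : ∀ n, |U n| ≤ c)
    (hc : c ≤ 1) (g : ℝ → ℝ) (hg : Continuous g) (hg0 : ∀ x, |x| ≤ 10 → g x = 0) :
    cfc g (H2 V U c hV hU) = 0 := by
  rw [cfc_congr (g := fun _ : ℝ => (0 : ℝ))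
    (fun x hx => hg0 x (spec_H2 V U c hV hU hc x hx))]
  exact cfc_const_zero ℝ _

end SF
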