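import Pool.Agent.Helper65.SF.ADefs

/-!
# SF-A2: binomial formula, locality

Proof in words.
* `mom2_binom`: on functions of the form `u(m) v(n)` the operator `op2 V U` acts as
  `(op1 V u) v + u (op1 U v)`; by induction `(op2 V U)^[j] (u v) = sum_i binom(j,i) (op1 V^i u)(op1 U^(j-i) v)`
  (linearity of op2 in u is needed).
* `mom_local`: `(op1 V)^[j] (Pi.single i 1)` is supported in `[i-j, i+j]` and only depends on `V` on
  `[i-j, i+j]`.
* `mom_shift`, `mom_bound`: clear by induction (`|((op1 V)^[j] u) n| <= (2+c)^j sup |u|`).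
-/

namespace SF

/-! ### Binomial formula -/

/-- The first coordinate part of `op2` as a linear map. -/
def h24A (V : ℤ → ℝ) : Module.End ℝ (ℤ × ℤ → ℝ) where
  toFun u p := u (p.1 + 1, p.2) + u (p.1 - 1, p.2) + V p.1 * u p
  map_add' u v := by
    funext p
    simp only [Pi.add_apply]
    ring
  map_smul' c u := by
    funext p
    simp only [Pi.smul_apply, smul_eq_mul, RingHom.id_apply]
    ring

/-- The second coordinate part of `op2` as a linear map. -/
def h24B (U : ℤ → ℝ) : Module.End ℝ (ℤ × ℤ → ℝ) where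
  toFun u p := u (p.1, p.2 + 1) + u (p.1, p.2 - 1) + U p.2 * u p
  map_add' u v := by
    funext p
    simp only [Pi.add_apply]
    ring
  map_smul' c u := by
    funext p
    simp only [Pi.smul_apply, smul_eq_mul, RingHom.id_apply]
    ring

theorem h24A_apply (V : ℤ → ℝ) (u : ℤ × ℤ → ℝ) (p : ℤ × ℤ) :
    h24A V u p = u (p.1 + 1, p.2) + u (p.1 - 1, p.2) + V p.1 * u p := rfl

theorem h24B_apply (U : ℤ → ℝ) (u : ℤ × ℤ → ℝ) (p : ℤ × ℤ) :
    h24B U u p = u (p.1, p.2 + 1) + u (p.1, p.2 - 1) + U p.2 * u p := rfl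

theorem h24_comm (V U : ℤ → ℝ) : Commute (h24A V) (h24B U) := by
  refine LinearMap.ext fun u => funext fun p => ?_
  show h24A V (h24B U u) p = h24B U (h24A V u) p
  simp only [h24A_apply, h24B_apply]
  ring

theorem h24_op2 (V U : ℤ → ℝ) (j : ℕ) (u : ℤ × ℤ → ℝ) :
    (op2 V U)^[j] u = ((h24A V + h24B U) ^ j) u := by
  induction j with
  | zero => rfl
  | succ j ih =>
    rw [Function.iterate_succ_apply', ih, pow_succ']
    funext p
    show op2 V U _ p = (h24A V + h24B U) (((h24A V + h24B U) ^ j) u) p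
    rw [LinearMap.add_apply, Pi.add_apply, h24A_apply, h24B_apply]
    unfold op2
    ring

theorem h24A_pow (V : ℤ → ℝ) (i : ℕ) (u v : ℤ → ℝ) :
    (h24A V ^ i) (fun p => u p.1 * v p.2) = fun p => ((op1 V)^[i] u) p.1 * v p.2 := by
  induction i with
  | zero => rfl
  | succ i ih =>
    rw [pow_succ']
    show h24A V ((h24A V ^ i) (fun p => u p.1 * v p.2)) = _
    rw [ih]
    funext p
    rw [h24A_apply, Function.iterate_succ_apply']
    unfold op1
    ring

theorem h24B_pow (U : ℤ → ℝ) (i : ℕ) (u v : ℤ → ℝ) :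
    (h24B U ^ i) (fun p => u p.1 * v p.2) = fun p => u p.1 * ((op1 U)^[i] v) p.2 := by
  induction i with
  | zero => rfl
  | succ i ih =>
    rw [pow_succ']
    show h24B U ((h24B U ^ i) (fun p => u p.1 * v p.2)) = _
    rw [ih]
    funext p
    rw [h24B_apply, Function.iterate_succ_apply']
    unfold op1
    ring

theorem h24_single : (Pi.single ((0 : ℤ), (0 : ℤ)) (1 : ℝ) : ℤ × ℤ → ℝ)
    = fun p => (Pi.single (0 : ℤ) (1 : ℝ) : ℤ → ℝ) p.1 * (Pi.single (0 : ℤ) (1 : ℝ) : ℤ → ℝ) p.2 := by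
  funext p
  obtain ⟨a, b⟩ := p
  by_cases ha : a = 0
  · by_cases hb : b = 0
    · subst ha; subst hb
      simp
    · rw [Pi.single_eq_of_ne (by simp [Prod.ext_iff, ha, hb])]
      simp [Pi.single_eq_of_ne hb]
  · rw [Pi.single_eq_of_ne (by simp [Prod.ext_iff, ha])]
    simp [Pi.single_eq_of_ne ha]

theorem mom2_binom (V U : ℤ → ℝ) (j : ℕ) :
    mom2 V U j = ∑ i ∈ Finset.range (j + 1), (j.choose i : ℝ) * mom V i 0 * mom U (j - i) 0 := by
  unfold mom2
  rw [h24_op2, (h24_comm V U).add_pow, LinearMap.sum_apply, Finset.sum_apply]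
  refine Finset.sum_congr rfl fun i _ => ?_
  have h1 : ((h24A V ^ i * h24B U ^ (j - i) * ((j.choose i : ℕ) : Module.End ℝ (ℤ × ℤ → ℝ)))
      (Pi.single (0, 0) 1)) =
      (j.choose i : ℝ) • ((h24A V ^ i) ((h24B U ^ (j - i)) (Pi.single (0, 0) 1))) := by
    have h2 : ((j.choose i : ℕ) : Module.End ℝ (ℤ × ℤ → ℝ)) (Pi.single (0, 0) 1)
        = (j.choose i : ℝ) • (Pi.single (0, 0) 1 : ℤ × ℤ → ℝ) := by
      rw [Module.End.natCast_apply, Nat.cast_smul_eq_nsmul]
    show (h24A V ^ i) ((h24B U ^ (j - i)) (((j.choose i : ℕ) : Module.End ℝ (ℤ × ℤ → ℝ))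
      (Pi.single (0, 0) 1))) = _
    rw [h2, map_smul, map_smul]
  rw [h1, h24_single, h24B_pow, h24A_pow, Pi.smul_apply, smul_eq_mul]
  unfold mom
  ring

/-! ### Locality -/

theorem h24_supp (V : ℤ → ℝ) (i : ℤ) (k : ℕ) (n : ℤ) (h : n < i - k ∨ i + k < n) :
    ((op1 V)^[k] (Pi.single i 1)) n = 0 := by
  induction k generalizing n with
  | zero =>
    have hn : n ≠ i := by
      rintro rfl
      simp at h
    simp [Pi.single_eq_of_ne hn]
  | succ k ih =>
    rw [Function.iterate_succ_apply']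
    push_cast at h
    show ((op1 V)^[k] (Pi.single i 1)) (n + 1) + ((op1 V)^[k] (Pi.single i 1)) (n - 1)
      + V n * ((op1 V)^[k] (Pi.single i 1)) n = 0
    rw [ih (n + 1) (by omega), ih (n - 1) (by omega), ih n (by omega)]
    ring

theorem h24_local (V V' : ℤ → ℝ) (j : ℕ) (i : ℤ)
    (h : ∀ n, i - j ≤ n → n ≤ i + j → V n = V' n) (k : ℕ) (hk : k ≤ j) :
    (op1 V)^[k] (Pi.single i 1) = (op1 V')^[k] (Pi.single i 1) := by
  induction k with
  | zero => rfl
  | succ k ih =>
    rw [Function.iterate_succ_apply', Function.iterate_succ_apply', ← ih (by omega)]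
    funext n
    unfold op1
    by_cases hn : n < i - k ∨ i + k < n
    · have h0 := h24_supp V i k n hn
      unfold op1 at h0
      rw [h0]
      ring
    · rw [h n (by omega) (by omega)]

theorem mom_local (V V' : ℤ → ℝ) (j : ℕ) (i : ℤ)
    (h : ∀ n, i - j ≤ n → n ≤ i + j → V n = V' n) : mom V j i = mom V' j i := by
  unfold mom
  rw [h24_local V V' j i h j le_rfl]

theorem h24_shift (V : ℤ → ℝ) (i : ℤ) (k : ℕ) :
    (op1 (fun n => V (n + i)))^[k] (Pi.single 0 1)
      = fun n => ((op1 V)^[k] (Pi.single i 1)) (n + i) := by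
  induction k with
  | zero =>
    funext n
    by_cases hn : n = 0
    · subst hn; simp
    · have hn' : n + i ≠ i := by omega
      simp [Pi.single_eq_of_ne hn, Pi.single_eq_of_ne hn']
  | succ k ih =>
    rw [Function.iterate_succ_apply', Function.iterate_succ_apply', ih]
    funext n
    unfold op1
    simp only []
    rw [show n + 1 + i = n + i + 1 by ring, show n - 1 + i = n + i - 1 by ring]

theorem mom_shift (V : ℤ → ℝ) (j : ℕ) (i : ℤ) : mom (fun n => V (n + i)) j 0 = mom V j i := by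
  unfold mom
  rw [h24_shift]
  simp

theorem h24_bound (V : ℤ → ℝ) (c : ℝ) (hV : ∀ n, |V n| ≤ c) (j : ℕ) (i : ℤ) (n : ℤ) :
    |((op1 V)^[j] (Pi.single i 1)) n| ≤ (2 + c) ^ j := by
  have hc : 0 ≤ c := (abs_nonneg _).trans (hV 0)
  induction j generalizing n with
  | zero =>
    by_cases hn : n = i
    · subst hn; simp
    · simp [Pi.single_eq_of_ne hn]
  | succ j ih =>
    rw [Function.iterate_succ_apply']
    unfold op1
    set w := (op1 V)^[j] (Pi.single i 1) with hw
    have h1 := ih (n + 1)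
    have h2 := ih (n - 1)
    have h3 := ih n
    have h4 : |V n * w n| ≤ c * (2 + c) ^ j := by
      rw [abs_mul]
      exact mul_le_mul (hV n) h3 (abs_nonneg _) hc
    calc |w (n + 1) + w (n - 1) + V n * w n| ≤ |w (n + 1)| + |w (n - 1)| + |V n * w n| :=
          abs_add_three _ _ _
      _ ≤ (2 + c) ^ j + (2 + c) ^ j + c * (2 + c) ^ j := by linarith
      _ = (2 + c) ^ (j + 1) := by ring

theorem mom_bound (V : ℤ → ℝ) (c : ℝ) (hV : ∀ n, |V n| ≤ c) (j : ℕ) (i : ℤ) :
    |mom V j i| ≤ (2 + c) ^ j :=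
  h24_bound V c hV j i i

end SF
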