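import Pool.Agent.Helper65.SF.F0b

/-!
# SF-F4m: positive traceless matrices (Minkowski cone) and logarithmic derivatives

Proof in words.  A traceless real matrix `[[p,q],[r,-p]]` with `r >= 0 >= q`, `p^2 + m^2 <= - q r` is called
positive of mass `>= m`.
* `Pos_add`: reversed triangle inequality: `-(q+q')(r+r') - (p+p')^2 >= (m+m')^2` because
  `-q r' - q' r - 2 p p' >= 2 m m'`: `|q| r' + |q'| r >= 2 sqrt (|q| r |q'| r')` and
  `|q| r >= p^2 + m^2`, `|q'| r' >= p'^2 + m'^2`, `(p^2+m^2)(p'^2+m'^2) >= (|p p'| + m m')^2`.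
* `Pos_conj`: the quadratic form `v0 (Om v) 1 - v1 (Om v) 0 = r v0^2 - 2 p v0 v1 - q v1^2` is >= 0 iff `r >= 0, q <= 0,
  p^2 <= - q r`; under conjugation by `M` of determinant 1 the form is composed with `M⁻¹`, and
  `det (M Om M⁻¹) = det Om = -p^2 - q r`.
* `Pos_trace`: `M = x + M0`, `M0 = [[a,b],[c,-a]]`, `c = M 1 0 ≠ 0`, `-a^2 - b c = 1 - x^2`;
  `trace (Om M)/2 = p a + (q c + r b)/2`; for `c > 0`, `b < 0`: `|q| c + r |b| >= 2 sqrt (|q| r |b| c) >= 2 (|p a| + m sqrt(1-x^2))`.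
* `mseq_logderiv`: `M (k+2)' = M k' M (k+1) + M k M (k+1)' = (Om k + M k Om (k+1) (M k)⁻¹) M (k+2)`.
-/

namespace SF

open Matrix

/-- Positive traceless matrix of mass at least `m`. -/
def Pos (Om : M2 ℝ) (m : ℝ) : Prop :=
  Om.trace = 0 ∧ 0 ≤ Om 1 0 ∧ Om 0 1 ≤ 0 ∧ 0 ≤ m ∧ Om 0 0 ^ 2 + m ^ 2 ≤ -(Om 0 1 * Om 1 0)

/-- The logarithmic derivatives along `mseq`. -/
noncomputable def logd (A B OA OB : M2 ℝ) : ℕ → M2 ℝ
  | 0 => OA
  | 1 => OB
  | (k + 2) => logd A B OA OB k + mseq A B k * logd A B OA OB (k + 1) * (mseq A B k).adjugate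

/-- Cauchy-Schwarz type inequality used several times. -/
lemma f4m_cs (a b a' b' p m p' n : ℝ) (ha : 0 ≤ a) (hb : 0 ≤ b) (ha' : 0 ≤ a') (hb' : 0 ≤ b')
    (h1 : p ^ 2 + m ^ 2 ≤ a * b) (h2 : p' ^ 2 + n ^ 2 ≤ a' * b') :
    2 * (p * p' + m * n) ≤ a * b' + a' * b := by
  have hS : 0 ≤ a * b' + a' * b := by positivity
  have hsq : (2 * (p * p' + m * n)) ^ 2 ≤ (a * b' + a' * b) ^ 2 := by
    have e1 : (a * b' + a' * b) ^ 2 = (a * b' - a' * b) ^ 2 + 4 * ((a * b) * (a' * b')) := by ring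
    have e2 : (p ^ 2 + m ^ 2) * (p' ^ 2 + n ^ 2) ≤ (a * b) * (a' * b') :=
      mul_le_mul h1 h2 (by positivity) (by positivity)
    have e3 : (p ^ 2 + m ^ 2) * (p' ^ 2 + n ^ 2) = (p * p' + m * n) ^ 2 + (p * n - m * p') ^ 2 := by
      ring
    nlinarith [sq_nonneg (a * b' - a' * b), sq_nonneg (p * n - m * p')]
  exact le_trans (le_abs_self _) (abs_le_of_sq_le_sq hsq hS)

lemma f4m_form (r a p c d : ℝ) (hr : 0 ≤ r) (ha : 0 ≤ a) (h : p ^ 2 ≤ a * r) :
    0 ≤ d ^ 2 * r + 2 * c * d * p + c ^ 2 * a := by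
  have h0 := f4m_cs a r (d ^ 2) (c ^ 2) p 0 (-(c * d)) 0 ha hr (sq_nonneg d) (sq_nonneg c)
    (by linarith) (by nlinarith)
  linarith

lemma f4m_t11 (P : M2 ℝ) (h : P.trace = 0) : P 1 1 = -P 0 0 := by
  rw [Matrix.trace_fin_two] at h
  linarith

theorem Pos_add (P R : M2 ℝ) (m n : ℝ) (hP : Pos P m) (hR : Pos R n) : Pos (P + R) (m + n) := by
  obtain ⟨t1, r1, q1, m1, e1⟩ := hP
  obtain ⟨t2, r2, q2, m2, e2⟩ := hR
  refine ⟨?_, ?_, ?_, by linarith, ?_⟩
  · rw [Matrix.trace_add, t1, t2, add_zero]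
  · rw [Matrix.add_apply]
    linarith
  · rw [Matrix.add_apply]
    linarith
  · simp only [Matrix.add_apply]
    have := f4m_cs (-P 0 1) (P 1 0) (-R 0 1) (R 1 0) (P 0 0) m (R 0 0) n (by linarith) r1
      (by linarith) r2 (by linarith) (by linarith)
    nlinarith

theorem Pos_conj (P M : M2 ℝ) (m : ℝ) (hP : Pos P m) (hM : M.det = 1) :
    Pos (M * P * M.adjugate) m := by
  obtain ⟨t1, r1, q1, m1, e1⟩ := hP
  have h11 := f4m_t11 P t1
  rw [Matrix.det_fin_two] at hM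
  have e00 : (M * P * M.adjugate) 0 0 = (M 0 0 * P 0 0 + M 0 1 * P 1 0) * M 1 1 -
      (M 0 0 * P 0 1 - M 0 1 * P 0 0) * M 1 0 := by
    rw [Matrix.adjugate_fin_two]
    simp [Matrix.mul_apply, Fin.sum_univ_two, h11]
    ring
  have e01 : (M * P * M.adjugate) 0 1 =
      -((M 0 1) ^ 2 * P 1 0 + 2 * M 0 0 * M 0 1 * P 0 0 + (M 0 0) ^ 2 * (-P 0 1)) := by
    rw [Matrix.adjugate_fin_two]
    simp [Matrix.mul_apply, Fin.sum_univ_two, h11]
    ring
  have e10 : (M * P * M.adjugate) 1 0 =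
      (M 1 1) ^ 2 * P 1 0 + 2 * M 1 0 * M 1 1 * P 0 0 + (M 1 0) ^ 2 * (-P 0 1) := by
    rw [Matrix.adjugate_fin_two]
    simp [Matrix.mul_apply, Fin.sum_univ_two, h11]
    ring
  have hpq : (P 0 0) ^ 2 ≤ (-P 0 1) * P 1 0 := by nlinarith
  refine ⟨?_, ?_, ?_, m1, ?_⟩
  · rw [Matrix.trace_mul_comm, ← Matrix.mul_assoc, Matrix.adjugate_mul, Matrix.smul_mul,
      Matrix.one_mul, Matrix.trace_smul, t1, smul_zero]
  · rw [e10]
    exact f4m_form _ _ _ _ _ r1 (by linarith) hpq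
  · rw [e01]
    have := f4m_form (P 1 0) (-P 0 1) (P 0 0) (M 0 0) (M 0 1) r1 (by linarith) hpq
    linarith
  · rw [e00, e01, e10]
    have key : ((M 0 0 * P 0 0 + M 0 1 * P 1 0) * M 1 1 -
      (M 0 0 * P 0 1 - M 0 1 * P 0 0) * M 1 0) ^ 2 +
      (-((M 0 1) ^ 2 * P 1 0 + 2 * M 0 0 * M 0 1 * P 0 0 + (M 0 0) ^ 2 * (-P 0 1))) *
      ((M 1 1) ^ 2 * P 1 0 + 2 * M 1 0 * M 1 1 * P 0 0 + (M 1 0) ^ 2 * (-P 0 1)) =
      ((P 0 0) ^ 2 + P 0 1 * P 1 0) * (M 0 0 * M 1 1 - M 0 1 * M 1 0) ^ 2 := by ring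
    rw [hM] at key
    linarith

/-- The data of an elliptic matrix of determinant one. -/
lemma f4m_ell (M : M2 ℝ) (hM : M.det = 1) (ht : |M.trace| < 2) :
    0 < 1 - (M.trace / 2) ^ 2 ∧
    ((M 0 0 - M 1 1) / 2) ^ 2 + (1 - (M.trace / 2) ^ 2) = -(M 0 1 * M 1 0) := by
  rw [Matrix.det_fin_two] at hM
  rw [abs_lt] at ht
  constructor
  · nlinarith
  · rw [Matrix.trace_fin_two]
    linear_combination (-1 : ℝ) * hM

lemma f4m_tr (P M : M2 ℝ) (h : P.trace = 0) : (P * M).trace / 2 =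
    P 0 0 * ((M 0 0 - M 1 1) / 2) + (P 0 1 * M 1 0 + P 1 0 * M 0 1) / 2 := by
  rw [Matrix.trace_fin_two]
  simp only [Matrix.mul_apply, Fin.sum_univ_two, f4m_t11 P h]
  ring

theorem Pos_trace (P M : M2 ℝ) (m : ℝ) (hP : Pos P m) (hM : M.det = 1) (ht : |M.trace| < 2) :
    m * Real.sqrt (1 - (M.trace / 2) ^ 2) ≤ -(orient M) * ((P * M).trace / 2) := by
  obtain ⟨t1, r1, q1, m1, e1⟩ := hP
  obtain ⟨hs, he⟩ := f4m_ell M hM ht
  rw [f4m_tr P M t1]
  set s := Real.sqrt (1 - (M.trace / 2) ^ 2) with hsdef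
  set a0 := (M 0 0 - M 1 1) / 2 with ha0
  have hs2 : s ^ 2 = 1 - (M.trace / 2) ^ 2 := Real.sq_sqrt hs.le
  rw [← hs2] at he hs
  have hbc : M 0 1 * M 1 0 < 0 := by nlinarith [sq_nonneg a0]
  unfold orient
  rcases lt_trichotomy (M 1 0) 0 with hc | hc | hc
  · rw [if_neg (not_le.2 hc)]
    have hb : 0 < M 0 1 := by
      by_contra hb
      have := mul_nonneg_of_nonpos_of_nonpos (not_lt.1 hb) hc.le
      linarith
    have := f4m_cs (-P 0 1) (P 1 0) (M 0 1) (-M 1 0) (P 0 0) m (-a0) s (by linarith) r1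
      hb.le (by linarith) (by linarith) (by nlinarith)
    nlinarith
  · rw [hc] at hbc
    linarith
  · rw [if_pos hc.le]
    have hb : M 0 1 < 0 := by
      by_contra hb
      have := mul_nonneg (not_lt.1 hb) hc.le
      linarith
    have := f4m_cs (-P 0 1) (P 1 0) (-M 0 1) (M 1 0) (P 0 0) m a0 s (by linarith) r1
      (by linarith) hc.le (by linarith) (by nlinarith)
    nlinarith

/-- A nonzero positive matrix has `0 < P 1 0 - P 0 1`. -/
lemma f4m_pos_of_ne (P : M2 ℝ) (m : ℝ) (hP : Pos P m) (h0 : P ≠ 0) : 0 < P 1 0 - P 0 1 := by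
  obtain ⟨t1, r1, q1, m1, e1⟩ := hP
  rcases (by linarith : (0 : ℝ) ≤ P 1 0 - P 0 1).lt_or_eq with h | h
  · exact h
  · exfalso
    apply h0
    have hr : P 1 0 = 0 := by linarith
    have hq : P 0 1 = 0 := by linarith
    have hp : P 0 0 = 0 := by
      rw [hq, zero_mul, neg_zero] at e1
      have : (P 0 0) ^ 2 = 0 := le_antisymm (by nlinarith) (sq_nonneg _)
      exact pow_eq_zero_iff (two_ne_zero) |>.1 this
    have h11 := f4m_t11 P t1
    ext i j
    fin_cases i <;> fin_cases j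
    · exact hp
    · exact hq
    · exact hr
    · change P 1 1 = 0
      rw [h11, hp, neg_zero]

theorem Pos_trace_strict (P M : M2 ℝ) (hP : Pos P 0) (hP0 : P ≠ 0) (hM : M.det = 1)
    (ht : |M.trace| < 2) : 0 < -(orient M) * ((P * M).trace / 2) := by
  have hne := f4m_pos_of_ne P 0 hP hP0
  obtain ⟨t1, r1, q1, m1, e1⟩ := hP
  obtain ⟨hs, he⟩ := f4m_ell M hM ht
  rw [f4m_tr P M t1]
  set a0 := (M 0 0 - M 1 1) / 2 with ha0
  have hbc : M 0 1 * M 1 0 < 0 := by nlinarith [sq_nonneg a0]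
  have key : ∀ b c : ℝ, 0 < b → 0 < c → a0 ^ 2 < b * c →
      2 * |P 0 0 * a0| < (-P 0 1) * c + P 1 0 * b := by
    intro b c hb hc hbc'
    have hS : 0 ≤ (-P 0 1) * c + P 1 0 * b :=
      add_nonneg (mul_nonneg (by linarith) hc.le) (mul_nonneg r1 hb.le)
    rcases eq_or_ne (P 0 0) 0 with hp | hp
    · rw [hp, zero_mul, abs_zero, mul_zero]
      rcases eq_or_lt_of_le r1 with h | h
      · have : 0 < -P 0 1 := by linarith
        have := mul_pos this hc
        have := mul_nonneg r1 hb.le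
        linarith
      · have := mul_pos h hb
        have := mul_nonneg (by linarith : (0 : ℝ) ≤ -P 0 1) hc.le
        linarith
    · have hp2 : 0 < (P 0 0) ^ 2 := by positivity
      have hsq : (2 * |P 0 0 * a0|) ^ 2 < ((-P 0 1) * c + P 1 0 * b) ^ 2 := by
        rw [mul_pow, sq_abs]
        have e2 : (P 0 0) ^ 2 * (b * c) ≤ (-P 0 1 * P 1 0) * (b * c) :=
          mul_le_mul_of_nonneg_right (by nlinarith) (by positivity)
        have e3 : (P 0 0) ^ 2 * a0 ^ 2 < (P 0 0) ^ 2 * (b * c) := mul_lt_mul_of_pos_left hbc' hp2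
        nlinarith [sq_nonneg ((-P 0 1) * c - P 1 0 * b)]
      exact lt_of_pow_lt_pow_left₀ 2 hS hsq
  unfold orient
  rcases lt_trichotomy (M 1 0) 0 with hc | hc | hc
  · rw [if_neg (not_le.2 hc)]
    have hb : 0 < M 0 1 := by
      by_contra hb
      have := mul_nonneg_of_nonpos_of_nonpos (not_lt.1 hb) hc.le
      linarith
    have h1 := key (M 0 1) (-M 1 0) hb (by linarith) (by nlinarith)
    have h2 := neg_abs_le (P 0 0 * a0)
    nlinarith
  · rw [hc] at hbc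
    linarith
  · rw [if_pos hc.le]
    have hb : M 0 1 < 0 := by
      by_contra hb
      have := mul_nonneg (not_lt.1 hb) hc.le
      linarith
    have h1 := key (-M 0 1) (M 1 0) (by linarith) hc (by nlinarith)
    have h2 := le_abs_self (P 0 0 * a0)
    nlinarith

/-- Derivative of the half trace of `mseq (A t) (B t) k`. -/
theorem mseq_logderiv (A B : ℝ → M2 ℝ) (OA OB : M2 ℝ) (t : ℝ) (dA : (A t).det = 1)
    (dB : (B t).det = 1)
    (hA : ∀ i j, HasDerivAt (fun s => A s i j) ((OA * A t) i j) t)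
    (hB : ∀ i j, HasDerivAt (fun s => B s i j) ((OB * B t) i j) t) (k : ℕ) :
    (∀ i j, HasDerivAt (fun s => mseq (A s) (B s) k i j)
      ((logd (A t) (B t) OA OB k * mseq (A t) (B t) k) i j) t) ∧
    HasDerivAt (fun s => (mseq (A s) (B s) k).trace / 2)
      ((logd (A t) (B t) OA OB k * mseq (A t) (B t) k).trace / 2) t := by
  have key : ∀ k, (∀ i j, HasDerivAt (fun s => mseq (A s) (B s) k i j)
      ((logd (A t) (B t) OA OB k * mseq (A t) (B t) k) i j) t) ∧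
      (∀ i j, HasDerivAt (fun s => mseq (A s) (B s) (k + 1) i j)
      ((logd (A t) (B t) OA OB (k + 1) * mseq (A t) (B t) (k + 1)) i j) t) := by
    intro k
    induction k with
    | zero => exact ⟨hA, hB⟩
    | succ k ih =>
      refine ⟨ih.2, ?_⟩
      intro i j
      have e : (logd (A t) (B t) OA OB (k + 1 + 1) * mseq (A t) (B t) (k + 1 + 1)) =
          (logd (A t) (B t) OA OB k * mseq (A t) (B t) k) * mseq (A t) (B t) (k + 1) +
          mseq (A t) (B t) k * (logd (A t) (B t) OA OB (k + 1) * mseq (A t) (B t) (k + 1)) := by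
        change (logd (A t) (B t) OA OB k + mseq (A t) (B t) k * logd (A t) (B t) OA OB (k + 1) *
          (mseq (A t) (B t) k).adjugate) * (mseq (A t) (B t) k * mseq (A t) (B t) (k + 1)) = _
        rw [add_mul, Matrix.mul_assoc (mseq (A t) (B t) k * logd (A t) (B t) OA OB (k + 1)),
          ← Matrix.mul_assoc (mseq (A t) (B t) k).adjugate, Matrix.adjugate_mul,
          det_mseq (A t) (B t) dA dB k, one_smul, Matrix.one_mul]
        simp only [Matrix.mul_assoc]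
      rw [e]
      have hfun : (fun s => mseq (A s) (B s) (k + 1 + 1) i j) =
          fun s => mseq (A s) (B s) k i 0 * mseq (A s) (B s) (k + 1) 0 j +
            mseq (A s) (B s) k i 1 * mseq (A s) (B s) (k + 1) 1 j := by
        funext s
        change (mseq (A s) (B s) k * mseq (A s) (B s) (k + 1)) i j = _
        rw [Matrix.mul_apply, Fin.sum_univ_two]
      rw [hfun]
      have h := ((ih.1 i 0).mul (ih.2 0 j)).add ((ih.1 i 1).mul (ih.2 1 j))
      refine h.congr_deriv ?_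
      rw [Matrix.add_apply, Matrix.mul_apply (M := logd (A t) (B t) OA OB k * mseq (A t) (B t) k),
        Matrix.mul_apply (M := mseq (A t) (B t) k), Fin.sum_univ_two, Fin.sum_univ_two]
      ring
  refine ⟨(key k).1, ?_⟩
  have h := (((key k).1 0 0).add ((key k).1 1 1)).div_const 2
  have hfun : (fun s => (mseq (A s) (B s) k).trace / 2) =
      fun s => (mseq (A s) (B s) k 0 0 + mseq (A s) (B s) k 1 1) / 2 := by
    funext s
    rw [Matrix.trace_fin_two]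
  rw [hfun, Matrix.trace_fin_two]
  exact h

lemma f4m_add_ne (P R : M2 ℝ) (m n : ℝ) (hP : Pos P m) (hR : Pos R n) (h0 : P ≠ 0) :
    P + R ≠ 0 := by
  intro h
  have h1 := f4m_pos_of_ne P m hP h0
  obtain ⟨t2, r2, q2, m2, e2⟩ := hR
  have e10 := congrFun (congrFun h 1) 0
  have e01 := congrFun (congrFun h 0) 1
  simp only [Matrix.add_apply, Matrix.zero_apply] at e10 e01
  linarith

/-- Energy family: the mass of the logarithmic derivative. -/
theorem logd_energy (lam t : ℝ) (k : ℕ) (hk : 1 ≤ k) :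
    Pos (logd !![1, -lam; 0, 1] !![-t, -1; 1, 0] 0 !![0, -1; 0, 0] k)
      (if k ≤ 2 then 0 else (Nat.fib (k - 2) : ℝ)) ∧
    logd !![1, -lam; 0, 1] !![-t, -1; 1, 0] 0 !![0, -1; 0, 0] k ≠ 0 := by
  have hO : Pos (!![0, -1; 0, 0] : M2 ℝ) 0 := by
    refine ⟨?_, ?_, ?_, le_refl _, ?_⟩ <;> simp [Matrix.trace_fin_two]
  have hO0 : (!![0, -1; 0, 0] : M2 ℝ) ≠ 0 := by
    intro h
    have := congrFun (congrFun h 0) 1
    simp at this
  have h2 : logd (!![1, -lam; 0, 1] : M2 ℝ) !![-t, -1; 1, 0] 0 !![0, -1; 0, 0] 2 =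
      !![0, -1; 0, 0] := by
    change (0 : M2 ℝ) + !![1, -lam; 0, 1] * !![0, -1; 0, 0] * (!![1, -lam; 0, 1] : M2 ℝ).adjugate = _
    rw [Matrix.adjugate_fin_two]
    ext i j
    fin_cases i <;> fin_cases j <;> simp [Matrix.mul_apply, Fin.sum_univ_two]
  have h3 : logd (!![1, -lam; 0, 1] : M2 ℝ) !![-t, -1; 1, 0] 0 !![0, -1; 0, 0] 3 =
      !![-t, -1 - t ^ 2; 1, t] := by
    change (!![0, -1; 0, 0] : M2 ℝ) + !![-t, -1; 1, 0] *
      logd (!![1, -lam; 0, 1] : M2 ℝ) !![-t, -1; 1, 0] 0 !![0, -1; 0, 0] 2 *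
      (!![-t, -1; 1, 0] : M2 ℝ).adjugate = _
    rw [h2, Matrix.adjugate_fin_two]
    ext i j
    fin_cases i <;> fin_cases j <;> simp [Matrix.mul_apply, Fin.sum_univ_two] <;> ring
  have hP3 : Pos (!![-t, -1 - t ^ 2; 1, t] : M2 ℝ) 1 := by
    refine ⟨?_, ?_, ?_, zero_le_one, ?_⟩ <;> simp [Matrix.trace_fin_two]
    · nlinarith
  have h30 : (!![-t, -1 - t ^ 2; 1, t] : M2 ℝ) ≠ 0 := by
    intro h
    have := congrFun (congrFun h 1) 0
    simp at this
  have key : ∀ k, (Pos (logd !![1, -lam; 0, 1] !![-t, -1; 1, 0] 0 !![0, -1; 0, 0] (k + 2))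
      (Nat.fib k : ℝ) ∧
      logd !![1, -lam; 0, 1] !![-t, -1; 1, 0] 0 !![0, -1; 0, 0] (k + 2) ≠ 0) ∧
      (Pos (logd !![1, -lam; 0, 1] !![-t, -1; 1, 0] 0 !![0, -1; 0, 0] (k + 3))
      (Nat.fib (k + 1) : ℝ) ∧
      logd !![1, -lam; 0, 1] !![-t, -1; 1, 0] 0 !![0, -1; 0, 0] (k + 3) ≠ 0) := by
    intro k
    induction k with
    | zero =>
      refine ⟨⟨?_, ?_⟩, ⟨?_, ?_⟩⟩
      · rw [h2]
        simpa using hO
      · rw [h2]
        exact hO0
      · rw [h3]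
        simpa using hP3
      · rw [h3]
        exact h30
    | succ k ih =>
      refine ⟨ih.2, ?_⟩
      have e : logd (!![1, -lam; 0, 1] : M2 ℝ) !![-t, -1; 1, 0] 0 !![0, -1; 0, 0] (k + 1 + 3) =
          logd !![1, -lam; 0, 1] !![-t, -1; 1, 0] 0 !![0, -1; 0, 0] (k + 2) +
          mseq !![1, -lam; 0, 1] !![-t, -1; 1, 0] (k + 2) *
          logd !![1, -lam; 0, 1] !![-t, -1; 1, 0] 0 !![0, -1; 0, 0] (k + 3) *
          (mseq !![1, -lam; 0, 1] !![-t, -1; 1, 0] (k + 2)).adjugate := rfl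
      have hc := Pos_conj _ (mseq !![1, -lam; 0, 1] !![-t, -1; 1, 0] (k + 2)) _ ih.2.1
        (det_eM lam t (k + 2))
      constructor
      · rw [e, Nat.fib_add_two, Nat.cast_add]
        exact Pos_add _ _ _ _ ih.1.1 hc
      · rw [e]
        exact f4m_add_ne _ _ _ _ ih.1.1 hc ih.1.2
  rcases (by omega : k = 1 ∨ k = 2 ∨ 3 ≤ k) with h | h | h
  · subst h
    rw [if_pos (by norm_num)]
    exact ⟨hO, hO0⟩
  · subst h
    rw [if_pos (by norm_num), h2]
    exact ⟨hO, hO0⟩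
  · obtain ⟨j, rfl⟩ := Nat.exists_eq_add_of_le' h
    rw [if_neg (by omega)]
    have := (key j).2
    rwa [show j + 3 - 2 = j + 1 from by omega]

/-- Word family: the mass of the logarithmic derivative (`k = 1` gives the zero matrix). -/
theorem logd_word (lam b psi : ℝ) (k : ℕ) :
    Pos (logd (rot psi * hyp lam b) (rot b) !![0, -1; 1, 0] 0 k) (fibz 1 0 k : ℝ) := by
  have key : ∀ k, Pos (logd (rot psi * hyp lam b) (rot b) !![0, -1; 1, 0] 0 k) (fibz 1 0 k : ℝ) ∧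
      Pos (logd (rot psi * hyp lam b) (rot b) !![0, -1; 1, 0] 0 (k + 1))
        (fibz 1 0 (k + 1) : ℝ) := by
    intro k
    induction k with
    | zero =>
      refine ⟨?_, ?_⟩
      · change Pos (!![0, -1; 1, 0] : M2 ℝ) ((1 : ℤ) : ℝ)
        refine ⟨?_, ?_, ?_, ?_, ?_⟩ <;> simp [Matrix.trace_fin_two]
      · change Pos (0 : M2 ℝ) ((0 : ℤ) : ℝ)
        refine ⟨?_, ?_, ?_, ?_, ?_⟩ <;> simp
    | succ k ih =>
      refine ⟨ih.2, ?_⟩
      have e : logd (rot psi * hyp lam b) (rot b) !![0, -1; 1, 0] 0 (k + 1 + 1) =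
          logd (rot psi * hyp lam b) (rot b) !![0, -1; 1, 0] 0 k +
          mseq (rot psi * hyp lam b) (rot b) k *
          logd (rot psi * hyp lam b) (rot b) !![0, -1; 1, 0] 0 (k + 1) *
          (mseq (rot psi * hyp lam b) (rot b) k).adjugate := rfl
      have e2 : fibz 1 0 (k + 1 + 1) = fibz 1 0 k + fibz 1 0 (k + 1) := by
        change fibz 1 0 (k + 1) + fibz 1 0 k = _
        ring
      rw [e, e2, Int.cast_add]
      exact Pos_add _ _ _ _ ih.1 (Pos_conj _ _ _ ih.2 (det_wM lam b psi k))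
  exact (key k).1

end SF
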