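import Pool.Agent.Helper65.SF.F4
import Pool.Agent.Helper65.SF.F4m

/-!
# SF-F4d: monotonicity of the lifted angles of the energy family

Proof in words.
* `TE_deriv`: for `k >= 3` use `mseq_logderiv`, `logd_energy`, `Pos_trace` (`trace_eM`): `-o X' >=
  fib (k-2) sqrt (1 - X^2)`, and `o sqrt (1-X^2) = sin TE`; `fib (k-2) >= fib k / 4`.  `k = 1, 2`: `X' = -1/2`, o = 1.
  `theta = TE` is near t a continuous solution of `cos theta = X`, `sin theta ≠ 0`, so it is
  differentiable with `theta' = - X' / sin theta` (e.g. `theta = +- arccos X + 2 pi j` locally, or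
  `HasDerivAt.of_local_left_inverse`).  This general fact is `hasDerivAt_of_cos`.
* `mono_of_lift`: if `theta a > theta b`, `a < b`, take c in `(theta b, theta a)` not in `pi Z`, the last
  point in `[a,b]` with value `>= c` has value c and positive derivative, contradiction.
* `EE_spec`: the set in the definition is closed, nonempty (contains 3), bounded below by -3.
* `EE_unique`: at `t` the derivative is positive, so the set is `[t, oo)`.
-/

namespace SF

open Complex

/-- A continuous angle function of a differentiable cosine is differentiable where the sine is nonzero. -/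
theorem hasDerivAt_of_cos (th f : ℝ → ℝ) (t f' : ℝ) (hc : ContinuousAt th t)
    (hf : HasDerivAt f f' t) (hcos : ∀ᶠ s in nhds t, Real.cos (th s) = f s)
    (hs : Real.sin (th t) ≠ 0) : HasDerivAt th (-f' / Real.sin (th t)) t := by
  have hst : HasStrictDerivAt Real.cos (-Real.sin (th t)) (th t) := Real.hasStrictDerivAt_cos _
  have hne : -Real.sin (th t) ≠ 0 := neg_ne_zero.2 hs
  have hinv := hst.to_localInverse hne
  have hleft : ∀ᶠ x in nhds (th t), hst.localInverse Real.cos (-Real.sin (th t)) (th t) hne (Real.cos x) = x :=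
    (hst.hasStrictFDerivAt_equiv hne).eventually_left_inverse
  have h1 : ∀ᶠ s in nhds t, hst.localInverse Real.cos (-Real.sin (th t)) (th t) hne (Real.cos (th s)) = th s :=
    hc.eventually hleft
  have hft : Real.cos (th t) = f t := hcos.self_of_nhds
  rw [hft] at hinv
  have h2 := hinv.hasDerivAt.comp t hf
  have h3 : th =ᶠ[nhds t] (hst.localInverse Real.cos (-Real.sin (th t)) (th t) hne) ∘ f := by
    filter_upwards [h1, hcos] with s e1 e2
    rw [Function.comp_apply, ← e2, e1]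
  have h4 := h2.congr_of_eventuallyEq h3
  have e : (-Real.sin (th t))⁻¹ * f' = -f' / Real.sin (th t) := by
    rw [inv_neg]; field_simp
  rw [e] at h4
  exact h4

/-- The sine of the lifted angle. -/
theorem sin_TE (lam t : ℝ) (h0 : 0 ≤ lam) (k : ℕ) :
    Real.sin (TE lam t k) = oE lam t k * Real.sqrt (1 - clip (X lam t k) ^ 2) := by
  have h := congrArg Complex.im (TE_exp lam t h0 k)
  rw [Complex.exp_ofReal_mul_I_im] at h
  exact h

theorem fib_quarter (k : ℕ) (hk : 3 ≤ k) : (Nat.fib k : ℝ) / 4 ≤ (Nat.fib (k - 2) : ℝ) := by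
  obtain ⟨j, rfl⟩ : ∃ j, k = j + 3 := ⟨k - 3, by omega⟩
  have e1 : j + 3 - 2 = j + 1 := by omega
  rw [e1]
  have e2 : Nat.fib (j + 3) = Nat.fib (j + 1) + Nat.fib (j + 2) := Nat.fib_add_two
  have e3 : Nat.fib (j + 2) = Nat.fib j + Nat.fib (j + 1) := Nat.fib_add_two
  have e4 : Nat.fib j ≤ Nat.fib (j + 1) := Nat.fib_le_fib_succ
  have e5 : Nat.fib (j + 3) ≤ 4 * Nat.fib (j + 1) := by omega
  have e6 : (Nat.fib (j + 3) : ℝ) ≤ 4 * (Nat.fib (j + 1) : ℝ) := by exact_mod_cast e5
  linarith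

theorem TE_deriv (lam t : ℝ) (h0 : 0 ≤ lam) (h1 : lam ≤ 1 / 100) (k : ℕ) (hk : 1 ≤ k)
    (hx : |X lam t k| < 1) :
    ∃ d : ℝ, (Nat.fib k : ℝ) / 4 ≤ d ∧ HasDerivAt (fun s => TE lam s k) d t ∧
      HasDerivAt (fun s => X lam s k) (-Real.sin (TE lam t k) * d) t := by
  classical
  have hA0 : ((!![1, -lam; 0, 1] : M2 ℝ)).det = 1 := by simp [Matrix.det_fin_two]
  have hB0 : ∀ s : ℝ, ((!![-s, -1; 1, 0] : M2 ℝ)).det = 1 := by
    intro s; simp [Matrix.det_fin_two]
  have hml := mseq_logderiv (fun _ => (!![1, -lam; 0, 1] : M2 ℝ)) (fun s => (!![-s, -1; 1, 0] : M2 ℝ))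
    0 !![0, -1; 0, 0] t hA0 (hB0 t)
    (by
      intro i j
      simp only [Matrix.zero_mul, Matrix.zero_apply]
      exact hasDerivAt_const _ _)
    (by
      intro i j
      fin_cases i <;> fin_cases j
      · simpa [Matrix.mul_apply, Fin.sum_univ_two] using (hasDerivAt_neg' t)
      · simpa [Matrix.mul_apply, Fin.sum_univ_two] using hasDerivAt_const t (-1 : ℝ)
      · simpa [Matrix.mul_apply, Fin.sum_univ_two] using hasDerivAt_const t (1 : ℝ)
      · simpa [Matrix.mul_apply, Fin.sum_univ_two] using hasDerivAt_const t (0 : ℝ)) k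
  obtain ⟨-, hD⟩ := hml
  set D : ℝ := ((logd !![1, -lam; 0, 1] !![-t, -1; 1, 0] 0 !![0, -1; 0, 0] k : M2 ℝ) *
    mseq (!![1, -lam; 0, 1] : M2 ℝ) (!![-t, -1; 1, 0] : M2 ℝ) k).trace / 2 with hDdef
  have hXe : ∀ s : ℝ, (mseq (!![1, -lam; 0, 1] : M2 ℝ) (!![-s, -1; 1, 0] : M2 ℝ) k).trace / 2 = X lam s k := by
    intro s
    have := trace_eM (K := ℝ) two_ne_zero lam s k
    unfold eM at this
    rw [this]; ring
  have hXD : HasDerivAt (fun s => X lam s k) D t := by
    have e : (fun s => X lam s k) = fun s => (mseq (!![1, -lam; 0, 1] : M2 ℝ) (!![-s, -1; 1, 0] : M2 ℝ) k).trace / 2 := by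
      funext s; rw [hXe]
    rw [e]; exact hD
  have hcos : ∀ᶠ s in nhds t, Real.cos (TE lam s k) = X lam s k := by
    have hopen : ∀ᶠ s in nhds t, |X lam s k| < 1 := by
      have hcX : ContinuousAt (fun s => |X lam s k|) t :=
        ((X_differentiable lam k).continuous.abs).continuousAt
      exact hcX.eventually (gt_mem_nhds hx)
    filter_upwards [hopen] with s hs
    rw [cos_TE lam s h0 k, clip_of_lt hs]
  have hsin : Real.sin (TE lam t k) ≠ 0 := (sin_TE_ne lam t h0 k).2 hx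
  have hTE : HasDerivAt (fun s => TE lam s k) (-D / Real.sin (TE lam t k)) t :=
    hasDerivAt_of_cos (fun s => TE lam s k) (fun s => X lam s k) t D
      (TE_continuous lam h0 h1 k).continuousAt hXD hcos hsin
  refine ⟨-D / Real.sin (TE lam t k), ?_, hTE, ?_⟩
  swap
  · have e : -Real.sin (TE lam t k) * (-D / Real.sin (TE lam t k)) = D := by
      field_simp
    rw [e]; exact hXD
  -- the lower bound
  have hsinv := sin_TE lam t h0 k
  rw [clip_of_lt hx] at hsinv
  obtain ⟨hPos, -⟩ := logd_energy lam t k hk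
  have hdet : (eM lam t k).det = 1 := det_eM lam t k
  have htr : (eM lam t k).trace = 2 * X lam t k := trace_eM two_ne_zero lam t k
  have htr2 : |(eM lam t k).trace| < 2 := by
    rw [htr, abs_mul, abs_two]; linarith
  have hPT := Pos_trace _ (eM lam t k) _ hPos hdet htr2
  have hhalf : (eM lam t k).trace / 2 = X lam t k := by rw [htr]; ring
  rw [hhalf] at hPT
  have hDe : ((logd !![1, -lam; 0, 1] !![-t, -1; 1, 0] 0 !![0, -1; 0, 0] k : M2 ℝ) * eM lam t k).trace / 2 = D := rfl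
  rw [hDe] at hPT
  have ho : oE lam t k = orient (eM lam t k) := rfl
  have hsq : Real.sqrt (1 - X lam t k ^ 2) ≠ 0 := by
    intro h
    rw [h, mul_zero] at hsinv
    exact hsin hsinv
  have hsqpos : 0 < Real.sqrt (1 - X lam t k ^ 2) :=
    lt_of_le_of_ne (Real.sqrt_nonneg _) (Ne.symm hsq)
  have hsqle : Real.sqrt (1 - X lam t k ^ 2) ≤ 1 := by
    rw [Real.sqrt_le_one]
    nlinarith [sq_nonneg (X lam t k)]
  have hor : orient (eM lam t k) = 1 ∨ orient (eM lam t k) = -1 := by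
    unfold orient
    split_ifs
    · left; rfl
    · right; rfl
  by_cases hk2 : k ≤ 2
  · have hDv : D = -1 / 2 := by
      have hu : HasDerivAt (fun s => X lam s k) (-1 / 2) t := by
        rcases (by omega : k = 1 ∨ k = 2) with rfl | rfl
        · have e : (fun s => X lam s 1) = fun s : ℝ => -s / 2 := by funext s; rfl
          rw [e]
          simpa using ((hasDerivAt_id t).neg.div_const 2)
        · have e : (fun s => X lam s 2) = fun s : ℝ => -(s + lam) / 2 := by funext s; rfl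
          rw [e]
          simpa using (((hasDerivAt_id t).add_const lam).neg.div_const 2)
      exact hXD.unique hu
    rw [if_pos hk2, zero_mul, hDv] at hPT
    have hor1 : orient (eM lam t k) = 1 := by
      rcases hor with h | h
      · exact h
      · rw [h] at hPT; norm_num at hPT
    rw [ho, hor1, one_mul] at hsinv
    have hfib : (Nat.fib k : ℝ) = 1 := by
      rcases (by omega : k = 1 ∨ k = 2) with rfl | rfl <;> norm_num
    rw [hfib, hsinv, hDv, le_div_iff₀ hsqpos]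
    linarith
  · rw [if_neg hk2] at hPT
    have hfq := fib_quarter k (by omega)
    refine hfq.trans ?_
    rcases hor with h | h
    · rw [ho, h, one_mul] at hsinv
      rw [h] at hPT
      rw [hsinv, le_div_iff₀ hsqpos]
      linarith
    · rw [ho, h] at hsinv
      rw [h] at hPT
      rw [hsinv]
      have e : -D / (-1 * Real.sqrt (1 - X lam t k ^ 2)) = D / Real.sqrt (1 - X lam t k ^ 2) := by
        rw [neg_one_mul, neg_div_neg_eq]
      rw [e, le_div_iff₀ hsqpos]
      linarith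

/-- A point of positive derivative has larger values on the right. -/
theorem right_larger (th : ℝ → ℝ) (x d b : ℝ) (hd : HasDerivAt th d x) (hpos : 0 < d) (hb : x < b) :
    ∃ s, x < s ∧ s < b ∧ th x < th s := by
  have h := (hasDerivAt_iff_tendsto_slope.1 hd).eventually (lt_mem_nhds hpos)
  have h1 : ∀ᶠ s in nhdsWithin x (Set.Ioi x), 0 < slope th x s :=
    h.filter_mono (nhdsWithin_mono _ (fun y hy => ne_of_gt hy))
  have h2 : ∀ᶠ s in nhdsWithin x (Set.Ioi x), s ∈ Set.Ioo x b := Ioo_mem_nhdsGT hb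
  obtain ⟨s, hs1, hs2⟩ := (h1.and h2).exists
  refine ⟨s, hs2.1, hs2.2, ?_⟩
  rw [slope_def_field] at hs1
  have h3 : 0 < s - x := sub_pos.2 hs2.1
  have h4 : 0 < th s - th x := by
    by_contra hcon
    push Not at hcon
    have := div_nonpos_of_nonpos_of_nonneg hcon h3.le
    linarith
  linarith

/-- A point of positive derivative has smaller values on the left. -/
theorem left_smaller (th : ℝ → ℝ) (x d a : ℝ) (hd : HasDerivAt th d x) (hpos : 0 < d) (ha : a < x) :
    ∃ s, a < s ∧ s < x ∧ th s < th x := by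
  have h := (hasDerivAt_iff_tendsto_slope.1 hd).eventually (lt_mem_nhds hpos)
  have h1 : ∀ᶠ s in nhdsWithin x (Set.Iio x), 0 < slope th x s :=
    h.filter_mono (nhdsWithin_mono _ (fun y hy => ne_of_lt hy))
  have h2 : ∀ᶠ s in nhdsWithin x (Set.Iio x), s ∈ Set.Ioo a x := Ioo_mem_nhdsLT ha
  obtain ⟨s, hs1, hs2⟩ := (h1.and h2).exists
  refine ⟨s, hs2.1, hs2.2, ?_⟩
  rw [slope_def_field] at hs1
  have h3 : s - x < 0 := sub_neg.2 hs2.2
  have h4 : th s - th x < 0 := by
    by_contra hcon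
    push Not at hcon
    have := div_nonpos_of_nonneg_of_nonpos hcon h3.le
    linarith
  linarith

/-- A point between two reals with nonzero sine. -/
theorem exists_sin_ne (u v : ℝ) (h : u < v) : ∃ c, u < c ∧ c < v ∧ Real.sin c ≠ 0 := by
  by_cases h1 : Real.sin ((u + v) / 2) = 0
  · have hcos : Real.cos ((u + v) / 2) ≠ 0 := by
      intro h2
      have := Real.sin_sq_add_cos_sq ((u + v) / 2)
      rw [h1, h2] at this
      norm_num at this
    have he : 0 < min ((v - u) / 4) 1 := by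
      apply lt_min
      · linarith
      · norm_num
    have he1 : min ((v - u) / 4) 1 ≤ (v - u) / 4 := min_le_left _ _
    have he2 : min ((v - u) / 4) 1 ≤ 1 := min_le_right _ _
    refine ⟨(u + v) / 2 + min ((v - u) / 4) 1, by linarith, by linarith, ?_⟩
    rw [Real.sin_add, h1, zero_mul, zero_add]
    apply mul_ne_zero hcos
    have hpi := Real.pi_gt_three
    exact ne_of_gt (Real.sin_pos_of_pos_of_lt_pi he (by linarith))
  · exact ⟨(u + v) / 2, by linarith, by linarith, h1⟩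

theorem mono_of_lift (th : ℝ → ℝ) (hc : Continuous th)
    (hd : ∀ t, Real.sin (th t) ≠ 0 → ∃ d : ℝ, 0 < d ∧ HasDerivAt th d t) : Monotone th := by
  intro a b hab
  by_contra hcon
  push Not at hcon
  obtain ⟨c, hc1, hc2, hc3⟩ := exists_sin_ne _ _ hcon
  have hcomp : IsCompact (Set.Icc a b ∩ th ⁻¹' Set.Ici c) :=
    isCompact_Icc.inter_right (isClosed_Ici.preimage hc)
  obtain ⟨x0, hx0, hx0g⟩ := hcomp.exists_isGreatest ⟨a, ⟨le_refl a, hab⟩, hc2.le⟩
  have hx0b : x0 ≤ b := hx0.1.2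
  have hx0c : c ≤ th x0 := hx0.2
  obtain ⟨y, hy, hyc⟩ := intermediate_value_Icc' hx0b hc.continuousOn ⟨hc1.le, hx0c⟩
  have hyx : y ≤ x0 := hx0g ⟨⟨hx0.1.1.trans hy.1, hy.2⟩, by
    change c ≤ th y
    rw [hyc]⟩
  have hyx' : y = x0 := le_antisymm hyx hy.1
  rw [hyx'] at hyc
  obtain ⟨d, hd0, hd1⟩ := hd x0 (by rw [hyc]; exact hc3)
  have hlt : x0 < b := by
    rcases lt_or_eq_of_le hx0b with h | h
    · exact h
    · exfalso
      rw [h] at hyc
      linarith
  obtain ⟨s, hs1, hs2, hs3⟩ := right_larger th x0 d b hd1 hd0 hlt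
  have hs4 : s ≤ x0 := hx0g ⟨⟨hx0.1.1.trans hs1.le, hs2.le⟩, by
    change c ≤ th s
    rw [hyc] at hs3
    exact hs3.le⟩
  linarith

theorem TE_mono (lam : ℝ) (h0 : 0 ≤ lam) (h1 : lam ≤ 1 / 100) (k : ℕ) :
    Monotone (fun t => TE lam t k) := by
  rcases Nat.eq_zero_or_pos k with rfl | hk
  · intro a b _
    change TE lam a 0 ≤ TE lam b 0
    rw [TE_zero, TE_zero]
  · apply mono_of_lift _ (TE_continuous lam h0 h1 k)
    intro t ht
    obtain ⟨d, hd, hd1, -⟩ := TE_deriv lam t h0 h1 k hk ((sin_TE_ne lam t h0 k).1 ht)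
    refine ⟨d, ?_, hd1⟩
    have hf : 0 < (Nat.fib k : ℝ) := by exact_mod_cast Nat.fib_pos.2 hk
    linarith

theorem EE_set_bdd (lam : ℝ) (h0 : 0 ≤ lam) (h1 : lam ≤ 1 / 100) (n : ℕ) (hn : 1 ≤ n) (s : ℝ)
    (hs0 : 0 < s) (t : ℝ) (ht : Real.pi * (Nat.fib n : ℝ) * s ≤ TE lam t n) : -3 ≤ t := by
  by_contra hcon
  push Not at hcon
  rw [TE_of_le lam t h0 h1 hcon.le n] at ht
  have hf : 0 < (Nat.fib n : ℝ) := by exact_mod_cast Nat.fib_pos.2 hn
  have := mul_pos (mul_pos Real.pi_pos hf) hs0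
  linarith

theorem EE_set_three (lam : ℝ) (h0 : 0 ≤ lam) (h1 : lam ≤ 1 / 100) (n : ℕ) (s : ℝ)
    (hs1 : s < 1) : Real.pi * (Nat.fib n : ℝ) * s ≤ TE lam 3 n := by
  rw [TE_of_ge lam 3 h0 h1 le_rfl n]
  have hf : 0 ≤ Real.pi * (Nat.fib n : ℝ) := mul_nonneg Real.pi_pos.le (Nat.cast_nonneg _)
  nlinarith

/-- `EE` is an inverse of the angle function. -/
theorem EE_spec (lam : ℝ) (h0 : 0 ≤ lam) (h1 : lam ≤ 1 / 100) (n : ℕ) (hn : 1 ≤ n) (s : ℝ)
    (hs0 : 0 < s) (hs1 : s < 1) :
    TE lam (EE lam n s) n = Real.pi * (Nat.fib n : ℝ) * s ∧ |EE lam n s| ≤ 3 := by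
  have hcont := TE_continuous lam h0 h1 n
  set v : ℝ := Real.pi * (Nat.fib n : ℝ) * s with hv
  have hclosed : IsClosed {t : ℝ | v ≤ TE lam t n} := isClosed_le continuous_const hcont
  have hne : ({t : ℝ | v ≤ TE lam t n}).Nonempty := ⟨3, EE_set_three lam h0 h1 n s hs1⟩
  have hbd : BddBelow {t : ℝ | v ≤ TE lam t n} :=
    ⟨-3, fun t ht => EE_set_bdd lam h0 h1 n hn s hs0 t ht⟩
  have hmem : sInf {t : ℝ | v ≤ TE lam t n} ∈ {t : ℝ | v ≤ TE lam t n} := hclosed.csInf_mem hne hbd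
  have hEE : EE lam n s = sInf {t : ℝ | v ≤ TE lam t n} := rfl
  rw [← hEE] at hmem
  have hlow : -3 ≤ EE lam n s := EE_set_bdd lam h0 h1 n hn s hs0 _ hmem
  have hup : EE lam n s ≤ 3 := by
    rw [hEE]
    exact csInf_le hbd (EE_set_three lam h0 h1 n s hs1)
  refine ⟨?_, abs_le.2 ⟨hlow, hup⟩⟩
  have hv0 : 0 ≤ v := by
    rw [hv]
    exact mul_nonneg (mul_nonneg Real.pi_pos.le (Nat.cast_nonneg _)) hs0.le
  obtain ⟨y, hy, hyv⟩ := intermediate_value_Icc hlow hcont.continuousOn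
    (show v ∈ Set.Icc (TE lam (-3) n) (TE lam (EE lam n s) n) from
      ⟨by rw [TE_of_le lam (-3) h0 h1 le_rfl n]; exact hv0, hmem⟩)
  have hge : EE lam n s ≤ y := by
    rw [hEE]
    exact csInf_le hbd (le_of_eq hyv.symm)
  have hye : y = EE lam n s := le_antisymm hy.2 hge
  rw [hye] at hyv
  exact hyv

theorem EE_unique (lam : ℝ) (h0 : 0 ≤ lam) (h1 : lam ≤ 1 / 100) (n : ℕ) (hn : 1 ≤ n) (s t : ℝ)
    (hs : Real.sin (Real.pi * (Nat.fib n : ℝ) * s) ≠ 0)
    (ht : TE lam t n = Real.pi * (Nat.fib n : ℝ) * s) : EE lam n s = t := by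
  have hmono := TE_mono lam h0 h1 n
  have hleast : IsLeast {u : ℝ | Real.pi * (Nat.fib n : ℝ) * s ≤ TE lam u n} t := by
    refine ⟨le_of_eq ht.symm, ?_⟩
    intro u hu
    by_contra hcon
    push Not at hcon
    have hsin : Real.sin (TE lam t n) ≠ 0 := by rw [ht]; exact hs
    obtain ⟨d, hd, hd1, -⟩ := TE_deriv lam t h0 h1 n hn ((sin_TE_ne lam t h0 n).1 hsin)
    have hf : 0 < (Nat.fib n : ℝ) := by exact_mod_cast Nat.fib_pos.2 hn
    obtain ⟨w, hw1, hw2, hw3⟩ := left_smaller (fun s => TE lam s n) t d u hd1 (by linarith) hcon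
    have h2 : TE lam u n ≤ TE lam w n := hmono hw1.le
    have h3 : Real.pi * (Nat.fib n : ℝ) * s ≤ TE lam u n := hu
    have h4 : TE lam w n < TE lam t n := hw3
    linarith
  exact hleast.csInf_eq

theorem EE_mono (lam : ℝ) (h0 : 0 ≤ lam) (h1 : lam ≤ 1 / 100) (n : ℕ) (hn : 1 ≤ n) :
    MonotoneOn (EE lam n) (Set.Ioo 0 1) := by
  intro s hs s' hs' hss
  apply csInf_le_csInf
  · exact ⟨-3, fun t ht => EE_set_bdd lam h0 h1 n hn s hs.1 t ht⟩
  · exact ⟨3, EE_set_three lam h0 h1 n s' hs'.2⟩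
  · intro t ht
    have hf : 0 ≤ Real.pi * (Nat.fib n : ℝ) := mul_nonneg Real.pi_pos.le (Nat.cast_nonneg _)
    have h2 : Real.pi * (Nat.fib n : ℝ) * s ≤ Real.pi * (Nat.fib n : ℝ) * s' :=
      mul_le_mul_of_nonneg_left hss hf
    exact h2.trans ht

end SF
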