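import Pool.Agent.Helper65.SF.A3
import Pool.Agent.Helper65.SF.A4
import Pool.Agent.Helper65.SF.A5
import Pool.Agent.Helper65.SF.F4d

/-!
# SF-A6: moments of the approximants

Proof in words.  Fix `n >= 3`, `f = fib n`, `0 <= lam <= 1/100`.  For `phi` in `(0, pi)` and `k < f` put
`theta k = k pi + phi` (k even), `k pi + pi - phi` (k odd); these are f points of `(0, pi f)` with
`cos = cos phi`, `sin ≠ 0`, strictly increasing in k; `root lam n k phi = EE lam n (theta k/(pi f))` satisfies
`TE lam (root) n = theta k` (`EE_spec`) so `X lam (root) n = cos phi` (`cos_TE`, `sin_TE_ne`: `|X| < 1`), and the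
roots are different.  `floquet_trace` with `tprod_fib` and `trace_eM` gives
`sum_k (- root k)^j = sum_i mom (per f (pot lam 0)) j i` for `j < f`.
`int_0^1 (-EE s)^j ds = sum_k int_{k/f}^{(k+1)/f} = sum_k (1/(pi f)) int_0^pi (- root k phi)^j dphi`
(`s = theta k / (pi f)`), so it equals `(1/f) sum_i mom ...`, which converges by `mean_mom`.
(`EE` is monotone and bounded by 3 on (0,1), so everything is integrable.)
-/

namespace SF

open MeasureTheory

theorem EE_integrableOn (lam : ℝ) (h0 : 0 ≤ lam) (h1 : lam ≤ 1 / 100) (n : ℕ) (hn : 1 ≤ n)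
    {F : Type*} [NormedAddCommGroup F] [SecondCountableTopology F] [MeasurableSpace F] [BorelSpace F]
    (g : ℝ → F) (hg : Continuous g) :
    IntegrableOn (fun s => g (EE lam n s)) (Set.Ioo 0 1) volume := by
  have hmeas : AEMeasurable (EE lam n) (volume.restrict (Set.Ioo (0:ℝ) 1)) :=
    aemeasurable_restrict_of_monotoneOn measurableSet_Ioo (EE_mono lam h0 h1 n hn)
  obtain ⟨C, hC⟩ := (isCompact_Icc (a := (-3:ℝ)) (b := 3)).exists_bound_of_continuousOn hg.continuousOn
  refine Integrable.of_bound (C := C) ?_ ?_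
  · exact (hg.measurable.comp_aemeasurable hmeas).aestronglyMeasurable
  · refine (ae_restrict_iff' measurableSet_Ioo).2 (Filter.Eventually.of_forall ?_)
    intro s hs
    exact hC _ (abs_le.1 (EE_spec lam h0 h1 n hn s hs.1 hs.2).2)

theorem EE_integrable (lam : ℝ) (h0 : 0 ≤ lam) (h1 : lam ≤ 1 / 100) (n : ℕ) (hn : 1 ≤ n)
    (g : ℝ → ℂ) (hg : Continuous g) :
    IntervalIntegrable (fun s => g (EE lam n s)) volume 0 1 := by
  rw [intervalIntegrable_iff_integrableOn_Ioo_of_le zero_le_one]
  exact EE_integrableOn lam h0 h1 n hn g hg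

/-- The `k`-th angle. -/
noncomputable def thk (k : ℕ) (phi : ℝ) : ℝ :=
  (k : ℝ) * Real.pi + (if k % 2 = 0 then phi else Real.pi - phi)

theorem thk_bounds (k : ℕ) (phi : ℝ) (hp : 0 < phi) (hp2 : phi < Real.pi) :
    (k : ℝ) * Real.pi < thk k phi ∧ thk k phi < ((k : ℝ) + 1) * Real.pi := by
  unfold thk
  split_ifs <;> constructor <;> linarith

theorem cos_thk (k : ℕ) (phi : ℝ) : Real.cos (thk k phi) = Real.cos phi := by
  unfold thk
  split_ifs with h
  · obtain ⟨m, rfl⟩ := Nat.even_iff.2 h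
    have : (((m + m : ℕ) : ℝ) * Real.pi + phi) = phi + (m : ℝ) * (2 * Real.pi) := by
      push_cast; ring
    rw [this, Real.cos_add_nat_mul_two_pi]
  · have h' : k % 2 = 1 := by omega
    obtain ⟨m, rfl⟩ := Nat.odd_iff.2 h'
    have : (((2 * m + 1 : ℕ) : ℝ) * Real.pi + (Real.pi - phi)) = -phi + ((m + 1 : ℕ) : ℝ) * (2 * Real.pi) := by
      push_cast; ring
    rw [this, Real.cos_add_nat_mul_two_pi, Real.cos_neg]

theorem sin_thk (k : ℕ) (phi : ℝ) (hs : Real.sin phi ≠ 0) : Real.sin (thk k phi) ≠ 0 := by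
  intro h
  have h1 := Real.sin_sq_add_cos_sq (thk k phi)
  have h2 := Real.sin_sq_add_cos_sq phi
  rw [h, cos_thk] at h1
  apply hs
  have : Real.sin phi ^ 2 = 0 := by nlinarith
  exact pow_eq_zero_iff (two_ne_zero) |>.1 this

theorem root_spec (lam : ℝ) (h0 : 0 ≤ lam) (h1 : lam ≤ 1 / 100) (n : ℕ) (hn : 1 ≤ n) (k : ℕ)
    (hk : k < Nat.fib n) (phi : ℝ) (hp : 0 < phi) (hp2 : phi < Real.pi) :
    TE lam (root lam n k phi) n = thk k phi := by
  have hf : 0 < (Nat.fib n : ℝ) := by exact_mod_cast Nat.fib_pos.2 hn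
  have hpf : 0 < Real.pi * (Nat.fib n : ℝ) := mul_pos Real.pi_pos hf
  obtain ⟨hb1, hb2⟩ := thk_bounds k phi hp hp2
  have hk1 : ((k : ℝ) + 1) ≤ (Nat.fib n : ℝ) := by exact_mod_cast hk
  have hpos : 0 < thk k phi / (Real.pi * (Nat.fib n : ℝ)) := by
    apply div_pos _ hpf
    have : 0 ≤ (k : ℝ) * Real.pi := by positivity
    linarith
  have hlt : thk k phi / (Real.pi * (Nat.fib n : ℝ)) < 1 := by
    rw [div_lt_one hpf]
    calc thk k phi < ((k : ℝ) + 1) * Real.pi := hb2
      _ ≤ (Nat.fib n : ℝ) * Real.pi := by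
          apply mul_le_mul_of_nonneg_right hk1 Real.pi_pos.le
      _ = Real.pi * (Nat.fib n : ℝ) := mul_comm _ _
  have h := (EE_spec lam h0 h1 n hn _ hpos hlt).1
  rw [mul_div_cancel₀ _ hpf.ne'] at h
  exact h

theorem sum_root (lam : ℝ) (h0 : 0 ≤ lam) (h1 : lam ≤ 1 / 100) (n : ℕ) (hn : 3 ≤ n) (j : ℕ)
    (hj : j < Nat.fib n) (phi : ℝ) (hp : 0 < phi) (hp2 : phi < Real.pi) :
    ∑ k ∈ Finset.range (Nat.fib n), (-root lam n k phi) ^ j
      = ∑ i ∈ Finset.range (Nat.fib n), mom (per (Nat.fib n) (pot lam 0)) j ((i : ℤ) + 1) := by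
  have hs : Real.sin phi ≠ 0 := (Real.sin_pos_of_pos_of_lt_pi hp hp2).ne'
  have hTE : ∀ k, k < Nat.fib n → TE lam (root lam n k phi) n = thk k phi :=
    fun k hk => root_spec lam h0 h1 n (by omega) k hk phi hp hp2
  have h := floquet_trace (Nat.fib n) (pot lam 0) phi hs (fun i : Fin (Nat.fib n) => root lam n i phi)
    (by
      intro a b hab
      have e : thk a phi = thk b phi := by
        rw [← hTE a a.2, ← hTE b b.2]
        exact congrArg (fun t => TE lam t n) hab
      have ha := thk_bounds a phi hp hp2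
      have hb := thk_bounds b phi hp hp2
      rw [e] at ha
      have h3 : ((a : ℕ) : ℝ) * Real.pi < (((b : ℕ) : ℝ) + 1) * Real.pi := lt_trans ha.1 hb.2
      have h4 : ((b : ℕ) : ℝ) * Real.pi < (((a : ℕ) : ℝ) + 1) * Real.pi := lt_trans hb.1 ha.2
      have h5 := lt_of_mul_lt_mul_right h3 Real.pi_pos.le
      have h6 := lt_of_mul_lt_mul_right h4 Real.pi_pos.le
      have h7 : (a : ℕ) < (b : ℕ) + 1 := by exact_mod_cast h5
      have h8 : (b : ℕ) < (a : ℕ) + 1 := by exact_mod_cast h6
      apply Fin.ext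
      omega)
    (by
      intro i
      rw [tprod_fib lam _ n (by omega), trace_eM two_ne_zero]
      have ht := hTE i i.2
      have hlt : |X lam (root lam n i phi) n| < 1 := by
        rw [← sin_TE_ne lam _ h0 n, ht]
        exact sin_thk i phi hs
      have hc := cos_TE lam (root lam n i phi) h0 n
      rw [ht, cos_thk] at hc
      rw [hc]
      congr 1
      unfold clip
      rw [abs_lt] at hlt
      rw [min_eq_right hlt.2.le, max_eq_right hlt.1.le]) j hj
  rw [← h]
  exact Finset.sum_range (fun k => (-root lam n k phi) ^ j)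

theorem integral_piece (g : ℝ → ℝ) (f : ℕ) (hf : 0 < f) (k : ℕ) :
    ∫ phi in (0:ℝ)..Real.pi, g (thk k phi / (Real.pi * (f : ℝ)))
      = (Real.pi * (f : ℝ)) * ∫ s in ((k : ℝ) / f)..((k + 1 : ℕ) : ℝ) / f, g s := by
  have hf' : (f : ℝ) ≠ 0 := by exact_mod_cast hf.ne'
  have hp : Real.pi ≠ 0 := Real.pi_ne_zero
  have hc : Real.pi * (f : ℝ) ≠ 0 := mul_ne_zero hp hf'
  by_cases h : k % 2 = 0
  · have e : ∀ phi : ℝ, thk k phi / (Real.pi * (f : ℝ)) = (k : ℝ) / f + phi / (Real.pi * (f : ℝ)) := by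
      intro phi
      unfold thk
      rw [if_pos h]
      field_simp
    simp only [e]
    rw [intervalIntegral.integral_comp_add_div (f := g) hc, smul_eq_mul]
    congr 2
    · simp
    · push_cast
      field_simp
  · have e : ∀ phi : ℝ, thk k phi / (Real.pi * (f : ℝ))
        = ((k + 1 : ℕ) : ℝ) / f - phi / (Real.pi * (f : ℝ)) := by
      intro phi
      unfold thk
      rw [if_neg h]
      push_cast
      field_simp
      ring
    simp only [e]
    rw [intervalIntegral.integral_comp_sub_div (f := g) hc, smul_eq_mul]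
    congr 2
    · push_cast
      field_simp
      ring
    · simp

theorem moment_exact (lam : ℝ) (h0 : 0 ≤ lam) (h1 : lam ≤ 1 / 100) (n : ℕ) (hn : 3 ≤ n) (j : ℕ)
    (hj : j < Nat.fib n) :
    ∫ s in (0:ℝ)..1, (-EE lam n s) ^ j
      = (1 / (Nat.fib n : ℝ)) * ∑ i ∈ Finset.range (Nat.fib n),
          mom (per (Nat.fib n) (pot lam 0)) j ((i : ℤ) + 1) := by
  set f := Nat.fib n with hfdef
  have hfpos : 0 < f := Nat.fib_pos.2 (by omega)
  have hf : 0 < (f : ℝ) := by exact_mod_cast hfpos
  set g : ℝ → ℝ := fun s => (-EE lam n s) ^ j with hg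
  have hI : IntegrableOn g (Set.Ioo 0 1) volume :=
    EE_integrableOn lam h0 h1 n (by omega) (fun t : ℝ => (-t) ^ j) (by fun_prop)
  have hI01 : IntervalIntegrable g volume 0 1 := by
    rw [intervalIntegrable_iff_integrableOn_Ioo_of_le zero_le_one]
    exact hI
  have hIk : ∀ k < f, IntervalIntegrable g volume ((k : ℝ) / f) (((k + 1 : ℕ) : ℝ) / f) := by
    intro k hk
    apply hI01.mono_set
    rw [Set.uIcc_of_le (by
      apply div_le_div_of_nonneg_right _ hf.le
      push_cast; linarith), Set.uIcc_of_le zero_le_one]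
    apply Set.Icc_subset_Icc
    · positivity
    · rw [div_le_one hf]
      exact_mod_cast hk
  have hsum : ∫ s in (0:ℝ)..1, g s
      = ∑ k ∈ Finset.range f, ∫ s in ((k : ℝ) / f)..(((k + 1 : ℕ) : ℝ) / f), g s := by
    have := intervalIntegral.sum_integral_adjacent_intervals (f := g) (μ := volume)
      (a := fun k : ℕ => (k : ℝ) / f) (n := f) hIk
    rw [this]
    congr 1
    · simp
    · rw [div_self hf.ne']
  have hpc : Real.pi * (f : ℝ) ≠ 0 := mul_ne_zero Real.pi_ne_zero hf.ne'
  have hpiece : ∀ k ∈ Finset.range f, ∫ s in ((k : ℝ) / f)..(((k + 1 : ℕ) : ℝ) / f), g s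
      = (1 / (Real.pi * (f : ℝ))) * ∫ phi in (0:ℝ)..Real.pi, (-root lam n k phi) ^ j := by
    intro k hk
    have h := integral_piece g f hfpos k
    have e : ∀ phi : ℝ, g (thk k phi / (Real.pi * (f : ℝ))) = (-root lam n k phi) ^ j := fun phi => rfl
    simp only [e] at h
    rw [h]
    field_simp
  have hIr : ∀ k ∈ Finset.range f, IntervalIntegrable (fun phi => (-root lam n k phi) ^ j) volume 0 Real.pi := by
    intro k hk
    have hk' := Finset.mem_range.1 hk
    have hbase := hIk k hk'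
    have hpf : (0:ℝ) < Real.pi * f := mul_pos Real.pi_pos hf
    by_cases h : k % 2 = 0
    · have e : (fun phi : ℝ => (-root lam n k phi) ^ j)
          = fun phi => g ((k : ℝ) / f + (1 / (Real.pi * (f : ℝ))) * phi) := by
        funext phi
        have : root lam n k phi = EE lam n ((k : ℝ) / f + (1 / (Real.pi * (f : ℝ))) * phi) := by
          unfold root
          rw [if_pos h, ← hfdef]
          congr 1
          field_simp
        rw [this]
      rw [e]
      have h2 := (hbase.comp_add_left ((k : ℝ) / f)).comp_mul_left (c := 1 / (Real.pi * (f : ℝ)))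
      have e1 : ((k : ℝ) / f - (k : ℝ) / f) / (1 / (Real.pi * (f : ℝ))) = 0 := by simp
      have e2 : ((((k + 1 : ℕ) : ℝ) / f) - (k : ℝ) / f) / (1 / (Real.pi * (f : ℝ))) = Real.pi := by
        push_cast
        field_simp
        ring
      rw [e1, e2] at h2
      exact h2
    · have e : (fun phi : ℝ => (-root lam n k phi) ^ j)
          = fun phi => g (((k + 1 : ℕ) : ℝ) / f + (-(1 / (Real.pi * (f : ℝ)))) * phi) := by
        funext phi
        have : root lam n k phi
            = EE lam n (((k + 1 : ℕ) : ℝ) / f + (-(1 / (Real.pi * (f : ℝ)))) * phi) := by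
          unfold root
          rw [if_neg h, ← hfdef]
          congr 1
          push_cast
          field_simp
          ring
        rw [this]
      rw [e]
      have h2 := (hbase.comp_add_left (((k + 1 : ℕ) : ℝ) / f)).comp_mul_left
        (c := -(1 / (Real.pi * (f : ℝ))))
      have e1 : ((k : ℝ) / f - ((k + 1 : ℕ) : ℝ) / f) / (-(1 / (Real.pi * (f : ℝ)))) = Real.pi := by
        push_cast
        field_simp
        ring
      have e2 : ((((k + 1 : ℕ) : ℝ) / f) - ((k + 1 : ℕ) : ℝ) / f) / (-(1 / (Real.pi * (f : ℝ)))) = 0 := by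
        simp
      rw [e1, e2] at h2
      exact h2.symm
  rw [hsum, Finset.sum_congr rfl hpiece, ← Finset.mul_sum, ← intervalIntegral.integral_finsetSum hIr]
  have hconst : ∫ phi in (0:ℝ)..Real.pi, ∑ k ∈ Finset.range f, (-root lam n k phi) ^ j
      = ∫ phi in (0:ℝ)..Real.pi, (∑ i ∈ Finset.range f, mom (per f (pot lam 0)) j ((i : ℤ) + 1)) := by
    rw [intervalIntegral.integral_of_le Real.pi_pos.le, intervalIntegral.integral_of_le Real.pi_pos.le,
      integral_Ioc_eq_integral_Ioo, integral_Ioc_eq_integral_Ioo]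
    apply setIntegral_congr_fun measurableSet_Ioo
    intro phi hphi
    exact sum_root lam h0 h1 n hn j hj phi hphi.1 hphi.2
  rw [hconst, intervalIntegral.integral_const, smul_eq_mul]
  field_simp
  ring

theorem moment_limit (lam : ℝ) (h0 : 0 ≤ lam) (h1 : lam ≤ 1 / 100) (j : ℕ) :
    Filter.Tendsto (fun n : ℕ => ∫ s in (0:ℝ)..1, (-EE lam n s) ^ j) Filter.atTop
      (nhds (∫ om in (0:ℝ)..1, mom (pot lam om) j 0)) := by
  refine (mean_mom lam j).congr' ?_
  filter_upwards [Filter.eventually_ge_atTop (j + 6)] with n hn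
  have hlt : j < Nat.fib n := by
    have := Nat.le_fib_self (show 5 ≤ n by omega)
    omega
  exact (moment_exact lam h0 h1 n (by omega) j hlt).symm

end SF
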