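import Pool.Agent.Helper65.SF.A1
import Pool.Agent.Helper65.SF.A6

/-!
# SF-A7: characteristic function of the density of states measure

Proof in words.  Let `nu` satisfy `IsDOS lam nu`, `0 <= lam <= 1/100`.
Support: test with `g x = min 1 (max 0 (|x| - 10))`, `cfc_H2_zero`: `int g dnu = 0`, so `nu {|x| > 10} = 0`.
Moments: test with `g x = (max (-10) (min 10 x))^j`, `cfc_H2_pow`, `inner_H2_pow`, `mom2_binom`, Fubini:
`int x^j dnu = sum_i binom(j,i) m i m (j-i)`, `m i = int_0^1 mom (pot lam om) i 0 dom`.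
`int exp (i xi x) dnu = sum_j (i xi)^j / j! int x^j dnu` (compact support).
With `m n i = int_0^1 (-EE lam n s)^i ds -> m i` (`moment_limit`), `|m n i| <= 3^i`, and
`(int_0^1 exp (- i xi EE lam n s) ds)^2 = sum_j (i xi)^j / j! sum_i binom(j,i) m n i m n (j-i)`
(the double integral of `exp (i xi (x+y))`), dominated convergence for series (bound `(6|xi|)^j/j!`).
-/

namespace SF

open MeasureTheory

theorem pot_bound (lam om : ℝ) (h : 0 ≤ lam) (n : ℤ) : |pot lam om n| ≤ lam := by
  unfold pot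
  split_ifs
  · rw [abs_of_nonneg h]
  · simpa using h

/-- `nu` is the density of states measure of the square Fibonacci Hamiltonian, both couplings `lam`. -/
def IsDOS (lam : ℝ) (h : 0 ≤ lam) (nu : Measure ℝ) : Prop :=
  IsProbabilityMeasure nu ∧ ∀ g : ℝ → ℝ, Continuous g → (∃ C, ∀ x, |g x| ≤ C) →
    ∫ x, g x ∂nu = ∫ om1 in (0:ℝ)..1, ∫ om2 in (0:ℝ)..1,
      (inner ℂ del0 (cfc g (H2 (pot lam om1) (pot lam om2) lam (pot_bound lam om1 h)
        (pot_bound lam om2 h)) del0)).re

theorem DOS_support (lam : ℝ) (h0 : 0 ≤ lam) (h1 : lam ≤ 1 / 100) (nu : Measure ℝ)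
    (hnu : IsDOS lam h0 nu) : nu {x | 10 < |x|} = 0 := by
  haveI := hnu.1
  let g : ℝ → ℝ := fun x => min 1 (max 0 (|x| - 10))
  have hg : Continuous g := by fun_prop
  have hg0 : ∀ x, 0 ≤ g x := fun x => le_min zero_le_one (le_max_left _ _)
  have hg1 : ∀ x, |g x| ≤ 1 := by
    intro x
    rw [abs_of_nonneg (hg0 x)]
    exact min_le_left _ _
  have hgz : ∀ x, |x| ≤ 10 → g x = 0 := by
    intro x hx
    simp only [g]
    rw [max_eq_left (by linarith)]
    simp
  have h2 := hnu.2 g hg ⟨1, hg1⟩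
  have h3 : ∫ x, g x ∂nu = 0 := by
    rw [h2]
    have : ∀ om1 om2 : ℝ, (inner ℂ del0 (cfc g (H2 (pot lam om1) (pot lam om2) lam
        (pot_bound lam om1 h0) (pot_bound lam om2 h0)) del0)).re = 0 := by
      intro om1 om2
      rw [cfc_H2_zero _ _ _ _ _ (by linarith) g hg hgz]
      simp
    simp only [this]
    simp
  have hint : Integrable g nu := by
    refine Integrable.of_bound hg.aestronglyMeasurable 1 (Filter.Eventually.of_forall fun x => ?_)
    rw [Real.norm_eq_abs]
    exact hg1 x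
  rw [integral_eq_zero_iff_of_nonneg hg0 hint] at h3
  refine measure_mono_null ?_ h3
  intro x hx
  have h4 : 0 < g x := lt_min one_pos (lt_max_of_lt_right (by
    have : 10 < |x| := hx
    linarith))
  intro h5
  have h6 : g x = 0 := h5
  linarith

theorem h53_charfun {α : Type*} [MeasurableSpace α] (μ : Measure α) [IsProbabilityMeasure μ]
    (f : α → ℝ) (hf : AEStronglyMeasurable f μ) (R : ℝ) (hR : ∀ᵐ x ∂μ, |f x| ≤ R) (xi : ℝ) :
    HasSum (fun j : ℕ => ((xi : ℂ) * Complex.I) ^ j / (j.factorial : ℂ) *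
      ((∫ x, f x ^ j ∂μ : ℝ) : ℂ)) (∫ x, Complex.exp ((xi * f x : ℝ) * Complex.I) ∂μ) := by
  have h1 := hasSum_integral_of_dominated_convergence (μ := μ)
    (F := fun (j : ℕ) (x : α) => ((xi * f x : ℝ) * Complex.I) ^ j / (j.factorial : ℂ))
    (f := fun x => Complex.exp ((xi * f x : ℝ) * Complex.I))
    (fun j _ => (|xi| * R) ^ j / (j.factorial : ℝ)) ?_ ?_ ?_ ?_ ?_
  · have e0 : (fun j : ℕ => ((xi : ℂ) * Complex.I) ^ j / (j.factorial : ℂ) *
        ((∫ x, f x ^ j ∂μ : ℝ) : ℂ)) = fun j : ℕ =>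
        ∫ x, ((xi * f x : ℝ) * Complex.I) ^ j / (j.factorial : ℂ) ∂μ := by
      funext j
      rw [← integral_complex_ofReal, ← integral_const_mul]
      refine integral_congr_ae (Filter.Eventually.of_forall fun x => ?_)
      simp only
      push_cast
      ring
    rw [e0]
    exact h1
  · intro j
    have h2 : AEStronglyMeasurable (fun x => ((xi * f x : ℝ) : ℂ)) μ :=
      Complex.continuous_ofReal.comp_aestronglyMeasurable (hf.const_mul xi)
    have h3 : AEStronglyMeasurable (fun x => ((xi * f x : ℝ) : ℂ) * Complex.I) μ :=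
      h2.mul_const Complex.I
    have h4 := (h3.pow j).mul_const ((j.factorial : ℂ)⁻¹)
    simp only [div_eq_mul_inv]
    exact h4
  · intro j
    filter_upwards [hR] with x hx
    rw [norm_div, norm_pow, norm_mul, Complex.norm_I, mul_one, Complex.norm_real, Complex.norm_natCast,
      Real.norm_eq_abs, abs_mul]
    have h2 : |xi| * |f x| ≤ |xi| * R := mul_le_mul_of_nonneg_left hx (abs_nonneg _)
    gcongr
  · exact Filter.Eventually.of_forall fun _ => Real.summable_pow_div_factorial _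
  · exact integrable_const _
  · refine Filter.Eventually.of_forall fun x => ?_
    rw [Complex.exp_eq_exp_ℂ]
    exact NormedSpace.expSeries_div_hasSum_exp _

theorem h53_moment (lam : ℝ) (h0 : 0 ≤ lam) (h1 : lam ≤ 1 / 100) (nu : Measure ℝ)
    (hnu : IsDOS lam h0 nu) (j : ℕ) :
    ∫ x, x ^ j ∂nu = ∑ i ∈ Finset.range (j + 1), (j.choose i : ℝ) *
      (∫ om in (0:ℝ)..1, mom (pot lam om) i 0) * ∫ om in (0:ℝ)..1, mom (pot lam om) (j - i) 0 := by
  haveI := hnu.1
  let g : ℝ → ℝ := fun x => (max (-10) (min 10 x)) ^ j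
  have hg : Continuous g := by fun_prop
  have hgb : ∀ x, |g x| ≤ 10 ^ j := by
    intro x
    simp only [g]
    rw [abs_pow]
    refine pow_le_pow_left₀ (abs_nonneg _) ?_ j
    rw [abs_le]
    exact ⟨le_max_left _ _, max_le (by norm_num) (min_le_left _ _)⟩
  have hgj : ∀ x, |x| ≤ 10 → g x = x ^ j := by
    intro x hx
    rw [abs_le] at hx
    simp only [g]
    rw [min_eq_right hx.2, max_eq_right hx.1]
  have hae : ∀ᵐ x ∂nu, |x| ≤ 10 := by
    rw [ae_iff]
    simpa using DOS_support lam h0 h1 nu hnu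
  have h2 : ∫ x, x ^ j ∂nu = ∫ x, g x ∂nu := by
    refine integral_congr_ae ?_
    filter_upwards [hae] with x hx
    rw [hgj x hx]
  rw [h2, hnu.2 g hg ⟨10 ^ j, hgb⟩]
  have h3 : ∀ om1 om2 : ℝ, (inner ℂ del0 (cfc g (H2 (pot lam om1) (pot lam om2) lam
      (pot_bound lam om1 h0) (pot_bound lam om2 h0)) del0)).re =
      ∑ i ∈ Finset.range (j + 1), (j.choose i : ℝ) * mom (pot lam om1) i 0 *
        mom (pot lam om2) (j - i) 0 := by
    intro om1 om2
    rw [cfc_H2_pow _ _ _ _ _ (by linarith) j g hg hgj, inner_H2_pow, mom2_binom]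
    exact Complex.ofReal_re _
  simp only [h3]
  have h4 : ∀ om1 : ℝ, ∫ om2 in (0:ℝ)..1, ∑ i ∈ Finset.range (j + 1), (j.choose i : ℝ) *
      mom (pot lam om1) i 0 * mom (pot lam om2) (j - i) 0 =
      ∑ i ∈ Finset.range (j + 1), (j.choose i : ℝ) * mom (pot lam om1) i 0 *
        ∫ om2 in (0:ℝ)..1, mom (pot lam om2) (j - i) 0 := by
    intro om1
    rw [intervalIntegral.integral_finset_sum (fun i _ => (mom_integrable lam (j - i)).const_mul _)]
    refine Finset.sum_congr rfl fun i _ => ?_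
    rw [intervalIntegral.integral_const_mul]
  simp only [h4]
  rw [intervalIntegral.integral_finset_sum (fun i _ =>
    ((mom_integrable lam i).const_mul _).mul_const _)]
  refine Finset.sum_congr rfl fun i _ => ?_
  rw [intervalIntegral.integral_mul_const, intervalIntegral.integral_const_mul]

theorem h53_mbound (lam : ℝ) (h0 : 0 ≤ lam) (h1 : lam ≤ 1 / 100) (j : ℕ) :
    |∫ om in (0:ℝ)..1, mom (pot lam om) j 0| ≤ 3 ^ j := by
  have h2 := intervalIntegral.norm_integral_le_of_norm_le_const (a := (0:ℝ)) (b := 1)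
    (f := fun om => mom (pot lam om) j 0) (C := 3 ^ j) (by
      intro om _
      rw [Real.norm_eq_abs]
      refine (mom_bound (pot lam om) lam (pot_bound lam om h0) j 0).trans ?_
      exact pow_le_pow_left₀ (by linarith) (by linarith) j)
  simpa using h2

theorem charfun_limit (lam : ℝ) (h0 : 0 ≤ lam) (h1 : lam ≤ 1 / 100) (nu : Measure ℝ)
    (hnu : IsDOS lam h0 nu) (xi : ℝ) :
    Filter.Tendsto (fun n : ℕ =>
      (∫ s in (0:ℝ)..1, Complex.exp (-(xi * EE lam n s : ℝ) * Complex.I)) ^ 2) Filter.atTop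
      (nhds (∫ x, Complex.exp ((xi * x : ℝ) * Complex.I) ∂nu)) := by
  haveI := hnu.1
  obtain ⟨m, hm⟩ : ∃ m : ℕ → ℝ, m = fun j => ∫ om in (0:ℝ)..1, mom (pot lam om) j 0 := ⟨_, rfl⟩
  have hmb : ∀ j, |m j| ≤ 3 ^ j := by
    intro j
    rw [hm]
    exact h53_mbound lam h0 h1 j
  have hae : ∀ᵐ x ∂nu, |x| ≤ 10 := by
    rw [ae_iff]
    simpa using DOS_support lam h0 h1 nu hnu
  -- the characteristic function of `nu`
  have hnuS := h53_charfun nu (fun x => x) aestronglyMeasurable_id 10 hae xi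
  -- the series of the limit
  let A : ℕ → ℂ := fun j => ((xi : ℂ) * Complex.I) ^ j / (j.factorial : ℂ) * (m j : ℂ)
  let bd : ℕ → ℝ := fun j => (|xi| * 3) ^ j / (j.factorial : ℝ)
  have hbd : Summable bd := Real.summable_pow_div_factorial _
  have hterm : ∀ (j : ℕ) (y : ℝ), |y| ≤ 3 ^ j →
      ‖((xi : ℂ) * Complex.I) ^ j / (j.factorial : ℂ) * (y : ℂ)‖ ≤ bd j := by
    intro j y hy
    rw [norm_mul, norm_div, norm_pow, norm_mul, Complex.norm_I, mul_one, Complex.norm_real,
      Complex.norm_natCast, Complex.norm_real, Real.norm_eq_abs, Real.norm_eq_abs]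
    simp only [bd]
    rw [mul_pow, mul_div_right_comm]
    exact mul_le_mul_of_nonneg_left hy (by positivity)
  have hAn : Summable fun j => ‖A j‖ :=
    Summable.of_nonneg_of_le (fun _ => norm_nonneg _) (fun j => hterm j (m j) (hmb j)) hbd
  have hprod : (∑' j, A j) * (∑' j, A j) = ∫ x, Complex.exp ((xi * x : ℝ) * Complex.I) ∂nu := by
    rw [tsum_mul_tsum_eq_tsum_sum_range_of_summable_norm hAn hAn, ← hnuS.tsum_eq]
    congr 1
    funext j
    rw [h53_moment lam h0 h1 nu hnu j]
    push_cast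
    rw [Finset.mul_sum]
    refine Finset.sum_congr rfl fun i hi => ?_
    have hij : i ≤ j := by
      have := Finset.mem_range.1 hi
      omega
    have h5 : ((j.choose i : ℕ) : ℂ) * (i.factorial : ℂ) * ((j - i).factorial : ℂ) =
        (j.factorial : ℂ) := by
      exact_mod_cast Nat.choose_mul_factorial_mul_factorial hij
    have h6 : ((xi : ℂ) * Complex.I) ^ i * ((xi : ℂ) * Complex.I) ^ (j - i) =
        ((xi : ℂ) * Complex.I) ^ j := by
      rw [← pow_add, Nat.add_sub_cancel' hij]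
    have h7 : (i.factorial : ℂ) ≠ 0 := by exact_mod_cast Nat.factorial_ne_zero i
    have h8 : ((j - i).factorial : ℂ) ≠ 0 := by exact_mod_cast Nat.factorial_ne_zero (j - i)
    have h9 : ((j.choose i : ℕ) : ℂ) ≠ 0 := by
      exact_mod_cast (Nat.choose_pos hij).ne'
    simp only [A, hm]
    rw [← h5, ← h6]
    field_simp
  -- the approximants
  have hSn : ∀ n : ℕ, 1 ≤ n →
      HasSum (fun j : ℕ => ((xi : ℂ) * Complex.I) ^ j / (j.factorial : ℂ) *
        ((∫ s in (0:ℝ)..1, (-EE lam n s) ^ j : ℝ) : ℂ))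
        (∫ s in (0:ℝ)..1, Complex.exp (-(xi * EE lam n s : ℝ) * Complex.I)) := by
    intro n hn
    haveI : IsProbabilityMeasure (volume.restrict (Set.Ioo (0:ℝ) 1)) := ⟨by simp⟩
    have h2 := h53_charfun (volume.restrict (Set.Ioo (0:ℝ) 1)) (fun s => -EE lam n s)
      ((aemeasurable_restrict_of_monotoneOn measurableSet_Ioo
        (EE_mono lam h0 h1 n hn)).neg.aestronglyMeasurable) 3 (by
        rw [ae_restrict_iff' measurableSet_Ioo]
        refine Filter.Eventually.of_forall fun s hs => ?_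
        rw [abs_neg]
        exact (EE_spec lam h0 h1 n hn s hs.1 hs.2).2) xi
    simp only [intervalIntegral.integral_of_le (zero_le_one (α := ℝ)), integral_Ioc_eq_integral_Ioo]
    have e1 : ∀ s : ℝ, Complex.exp (-((xi * EE lam n s : ℝ) : ℂ) * Complex.I) =
        Complex.exp (((xi * -EE lam n s : ℝ) : ℂ) * Complex.I) := by
      intro s
      congr 1
      push_cast
      ring
    simp only [e1]
    exact h2
  have hmn : ∀ n : ℕ, 1 ≤ n → ∀ j, |∫ s in (0:ℝ)..1, (-EE lam n s) ^ j| ≤ 3 ^ j := by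
    intro n hn j
    rw [intervalIntegral.integral_of_le (zero_le_one (α := ℝ)), integral_Ioc_eq_integral_Ioo]
    have h2 := norm_setIntegral_le_of_norm_le_const (μ := volume) (s := Set.Ioo (0:ℝ) 1)
      (f := fun s => (-EE lam n s) ^ j) (C := 3 ^ j) (by simp) (by
        intro s hs
        rw [Real.norm_eq_abs, abs_pow, abs_neg]
        exact pow_le_pow_left₀ (abs_nonneg _) (EE_spec lam h0 h1 n hn s hs.1 hs.2).2 j)
    simpa using h2
  have hlim : Filter.Tendsto (fun n : ℕ => ∑' j : ℕ, ((xi : ℂ) * Complex.I) ^ j / (j.factorial : ℂ) *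
      ((∫ s in (0:ℝ)..1, (-EE lam n s) ^ j : ℝ) : ℂ)) Filter.atTop (nhds (∑' j, A j)) := by
    refine tendsto_tsum_of_dominated_convergence hbd ?_ ?_
    · intro j
      refine Filter.Tendsto.const_mul _ ?_
      have h2 := moment_limit lam h0 h1 j
      simp only [hm]
      exact (Complex.continuous_ofReal.tendsto _).comp h2
    · filter_upwards [Filter.eventually_ge_atTop 1] with n hn j
      exact hterm j _ (hmn n hn j)
  rw [← hprod, ← sq]
  refine Filter.Tendsto.congr' ?_ (hlim.pow 2)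
  filter_upwards [Filter.eventually_ge_atTop 1] with n hn
  rw [(hSn n hn).tsum_eq]

end SF
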