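import Pool.Agent.Helper65.SF.PEX

/-!
# SF-KI: the set where the logarithmic ratio is small is contained in a short interval

Proof in words.  For `a` in `[x0,x1]` let `F(a) = log (‖T1'(a)‖/‖T0'(a)‖)`, `del(a) = p1 a - p0 a` (real) for the curves of the
hypothesis centred at a; by `curve_unique` (sines do not vanish on the balls, R0 <= 1/80) these do not depend on the choice, are given near a by the same curves, and
`F' (a) = DD(a) del(a)` (real), `|del'| <= Lst |del|`, del has no zero.  So `|F'| >= D1 |del|`, of constant sign, and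
`|del a| <= exp (Lst pi) |del a'|` on `[x0,x1]`.
For `t0, t1` as in the statement: recenter nothing, take `a = TE lam t0 m` in `[x0,x1]` and its curves; `pair_log` (from level m
to level n) gives `b1 = TE lam t1 m - j pi`, `|b1 - a| <= |del (b1)|`-like, `|log (slope ratio at level n) - log (‖T1' b1‖/‖T0' b1‖)|
<= C1 (1 + Lst) |del(b1)|`, and the left ratio is `deriv (TE n) t0/deriv (TE n) t1` because `T0m`, `T1m` are inverse functions of
`TE n` on the real axis (`Curve.re`).  `|F(b1) - F(a)| <= |b1 - a| sup |DD| sup |del| <= e S C |del a|`.  Hence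
`|F(a)| <= r + C |del a| <= C' |del a|` (as `r <= |del a|`).  For two such points a, a': `D1 exp (-Lst pi) |del a| |a - a'| <= |F a - F a'| <=
2 C' exp (Lst pi) |del a|`.  Take for y one such point (or anything if there is none).
-/

namespace SF

open Metric Filter Topology

theorem ki48_im_deriv {f : ℂ → ℂ} {b : ℝ} (hf : DifferentiableAt ℂ f b)
    (hr : ∀ᶠ x : ℝ in 𝓝 b, (f x).im = 0) : (deriv f b).im = 0 := by
  have h1 : HasDerivAt (fun x : ℝ => f x) (deriv f b) b := hf.hasDerivAt.comp_ofReal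
  have h2 : HasDerivAt (fun x : ℝ => (f x).im) ((deriv f b).im) b := by
    exact (Complex.imCLM.hasFDerivAt (x := f b)).comp_hasDerivAt b h1
  have h3 : HasDerivAt (fun x : ℝ => (f x).im) 0 b :=
    (hasDerivAt_const b (0 : ℝ)).congr_of_eventuallyEq hr
  exact h2.unique h3

theorem ki48_ball {a b R : ℝ} (h : |b - a| < R) : (b : ℂ) ∈ ball (a : ℂ) R := by
  rw [mem_ball, dist_eq_norm, ← Complex.ofReal_sub, Complex.norm_real, Real.norm_eq_abs]
  exact h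

theorem ki48_ball' {a b R : ℝ} (h : (b : ℂ) ∈ ball (a : ℂ) R) : |b - a| < R := by
  rw [mem_ball, dist_eq_norm, ← Complex.ofReal_sub, Complex.norm_real, Real.norm_eq_abs] at h
  exact h

theorem ki48_near {a b R : ℝ} (h : |b - a| < R) : ∀ᶠ x : ℝ in 𝓝 b, |x - a| < R := by
  have hc : Continuous (fun x : ℝ => |x - a|) := by fun_prop
  exact hc.continuousAt.eventually_lt continuousAt_const h

/-- derivative of the logarithm of the slope -/
theorem ki48_log {T : ℂ → ℂ} {a R : ℝ} (hT : DifferentiableOn ℂ T (ball (a : ℂ) R))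
    (hre : ∀ x : ℝ, (x : ℂ) ∈ ball (a : ℂ) R → (T x).im = 0)
    (hne : ∀ z ∈ ball (a : ℂ) R, deriv T z ≠ 0) {b : ℝ} (hb : |b - a| < R) :
    HasDerivAt (fun x : ℝ => Real.log ‖deriv T (x : ℂ)‖) (NN T b).re b ∧ (NN T b).im = 0 := by
  have hbm := ki48_ball hb
  have hD : DifferentiableOn ℂ (deriv T) (ball (a : ℂ) R) := hT.deriv isOpen_ball
  have him : ∀ x : ℝ, |x - a| < R → (deriv T (x : ℂ)).im = 0 := by
    intro x hx
    refine ki48_im_deriv (hT.differentiableAt (isOpen_ball.mem_nhds (ki48_ball hx))) ?_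
    filter_upwards [ki48_near hx] with y hy
    exact hre y (ki48_ball hy)
  have him2 : (deriv (deriv T) (b : ℂ)).im = 0 := by
    refine ki48_im_deriv (hD.differentiableAt (isOpen_ball.mem_nhds hbm)) ?_
    filter_upwards [ki48_near hb] with y hy
    exact him y hy
  have hd : HasDerivAt (fun x : ℝ => (deriv T (x : ℂ)).re) ((deriv (deriv T) (b : ℂ)).re) b :=
    (hD.differentiableAt (isOpen_ball.mem_nhds hbm)).hasDerivAt.real_of_complex
  have hre0 : (deriv T (b : ℂ)).re ≠ 0 := by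
    intro h
    exact hne b hbm (Complex.ext h (him b hb))
  have e1 : deriv T (b : ℂ) = (((deriv T (b : ℂ)).re : ℝ) : ℂ) := Complex.ext rfl (him b hb)
  have e2 : deriv (deriv T) (b : ℂ) = (((deriv (deriv T) (b : ℂ)).re : ℝ) : ℂ) := Complex.ext rfl him2
  have e3 : NN T b = (((deriv (deriv T) (b : ℂ)).re / (deriv T (b : ℂ)).re : ℝ) : ℂ) := by
    unfold NN
    rw [Complex.ofReal_div, ← e1, ← e2]
  constructor
  · rw [e3, Complex.ofReal_re]
    refine (hd.log hre0).congr_of_eventuallyEq ?_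
    filter_upwards [ki48_near hb] with y hy
    have e4 : deriv T (y : ℂ) = (((deriv T (y : ℂ)).re : ℝ) : ℂ) := Complex.ext rfl (him y hy)
    conv_lhs => rw [e4]
    rw [Complex.norm_real, Real.norm_eq_abs, Real.log_abs]
  · rw [e3, Complex.ofReal_im]

/-- mean value bound for the logarithm of a function without zeros -/
theorem ki48_gron {u u' : ℝ → ℝ} {L a b : ℝ} (hab : a < b) (hc : ContinuousOn u (Set.Icc a b))
    (hd : ∀ x ∈ Set.Ioo a b, HasDerivAt u (u' x) x) (hn : ∀ x ∈ Set.Icc a b, u x ≠ 0)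
    (hL : ∀ x ∈ Set.Ioo a b, |u' x| ≤ L * |u x|) :
    |Real.log (|u b|) - Real.log (|u a|)| ≤ L * (b - a) := by
  have hc' : ContinuousOn (fun x => Real.log (u x)) (Set.Icc a b) := hc.log hn
  have hd' : ∀ x ∈ Set.Ioo a b, HasDerivAt (fun x => Real.log (u x)) (u' x / u x) x := fun x hx =>
    (hd x hx).log (hn x (Set.Ioo_subset_Icc_self hx))
  obtain ⟨c, hc1, hc2⟩ := exists_hasDerivAt_eq_slope _ _ hab hc' hd'
  have hba : 0 < b - a := by linarith only [hab]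
  rw [Real.log_abs, Real.log_abs]
  have h1 : Real.log (u b) - Real.log (u a) = u' c / u c * (b - a) := by
    rw [hc2]; field_simp
  rw [h1, abs_mul, abs_of_pos hba]
  refine mul_le_mul_of_nonneg_right ?_ hba.le
  have hu : 0 < |u c| := abs_pos.2 (hn c (Set.Ioo_subset_Icc_self hc1))
  rw [abs_div, div_le_iff₀ hu]
  exact hL c hc1

theorem ki48_gron2 {u u' : ℝ → ℝ} {L K a b : ℝ} (hL0 : 0 ≤ L)
    (hc : ContinuousOn u (Set.uIcc a b))
    (hd : ∀ x ∈ Set.uIcc a b, x ≠ a → x ≠ b → HasDerivAt u (u' x) x) (hn : ∀ x ∈ Set.uIcc a b, u x ≠ 0)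
    (hL : ∀ x ∈ Set.uIcc a b, |u' x| ≤ L * |u x|) (hK : |b - a| ≤ K) :
    |u a| ≤ Real.exp (L * K) * |u b| := by
  have ha : 0 < |u a| := abs_pos.2 (hn a Set.left_mem_uIcc)
  have hb : 0 < |u b| := abs_pos.2 (hn b Set.right_mem_uIcc)
  have key : |Real.log (|u b|) - Real.log (|u a|)| ≤ L * |b - a| := by
    rcases lt_trichotomy a b with h | h | h
    · rw [Set.uIcc_of_le h.le] at hc hd hn hL
      rw [abs_of_pos (by linarith only [h] : (0:ℝ) < b - a)]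
      exact ki48_gron h hc (fun x hx => hd x (Set.Ioo_subset_Icc_self hx) hx.1.ne' hx.2.ne) hn
        (fun x hx => hL x (Set.Ioo_subset_Icc_self hx))
    · subst h; simp
    · rw [Set.uIcc_of_ge h.le] at hc hd hn hL
      rw [abs_sub_comm b a, abs_of_pos (by linarith only [h] : (0:ℝ) < a - b), abs_sub_comm]
      exact ki48_gron h hc (fun x hx => hd x (Set.Ioo_subset_Icc_self hx) hx.2.ne hx.1.ne') hn
        (fun x hx => hL x (Set.Ioo_subset_Icc_self hx))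
  have h2 : Real.log (|u a|) ≤ L * K + Real.log (|u b|) := by
    have := (abs_le.1 key).1
    have h3 : L * |b - a| ≤ L * K := mul_le_mul_of_nonneg_left hK hL0
    linarith only [this, h3]
  calc |u a| = Real.exp (Real.log (|u a|)) := (Real.exp_log ha).symm
    _ ≤ Real.exp (L * K + Real.log (|u b|)) := Real.exp_le_exp.2 h2
    _ = _ := by rw [Real.exp_add, Real.exp_log hb]


/-- local facts for a pair of curves -/
theorem ki48_pair {lam R L e S O a : ℝ} {m : ℕ} {i j : ℤ} {T0 p0 T1 p1 : ℂ → ℂ}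
    (h0 : Curve lam R m 0 0 a T0 p0) (h1 : Curve lam R m i j a T1 p1)
    (hP : PairB R L e S O (a : ℂ) T0 T1 p0 p1) (hR : 0 < R) {b : ℝ} (hb : |b - a| < R / 2) :
    HasDerivAt (fun x : ℝ => (p1 (x : ℂ) - p0 (x : ℂ)).re) ((deriv p1 (b : ℂ) - deriv p0 (b : ℂ)).re) b ∧
    |(deriv p1 (b : ℂ) - deriv p0 (b : ℂ)).re| ≤ L * |(p1 (b : ℂ) - p0 (b : ℂ)).re| ∧
    (p1 (b : ℂ) - p0 (b : ℂ)).re ≠ 0 ∧
    ‖p1 (b : ℂ) - p0 (b : ℂ)‖ = |(p1 (b : ℂ) - p0 (b : ℂ)).re| ∧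
    HasDerivAt (fun x : ℝ => Real.log (‖deriv T1 (x : ℂ)‖ / ‖deriv T0 (x : ℂ)‖))
      ((NN T1 b - NN T0 b).re) b ∧
    |(NN T1 b - NN T0 b).re| = ‖DD T0 T1 p0 p1 b‖ * |(p1 (b : ℂ) - p0 (b : ℂ)).re| := by
  have hbR : |b - a| < R := by linarith only [hR, hb]
  have hm2 := ki48_ball hb
  have hm := ki48_ball hbR
  have him : (p1 (b : ℂ) - p0 (b : ℂ)).im = 0 := by
    rw [Complex.sub_im, (h1.re b hm).2.1, (h0.re b hm).2.1, sub_zero]
  have e1 : p1 (b : ℂ) - p0 (b : ℂ) = (((p1 (b : ℂ) - p0 (b : ℂ)).re : ℝ) : ℂ) :=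
    Complex.ext rfl (by rw [him, Complex.ofReal_im])
  have e2 : ‖p1 (b : ℂ) - p0 (b : ℂ)‖ = |(p1 (b : ℂ) - p0 (b : ℂ)).re| := by
    conv_lhs => rw [e1]
    rw [Complex.norm_real, Real.norm_eq_abs]
  have hd : HasDerivAt (fun x : ℝ => (p1 (x : ℂ) - p0 (x : ℂ)).re)
      ((deriv p1 (b : ℂ) - deriv p0 (b : ℂ)).re) b :=
    ((h1.dp.differentiableAt (isOpen_ball.mem_nhds hm)).hasDerivAt.sub
      (h0.dp.differentiableAt (isOpen_ball.mem_nhds hm)).hasDerivAt).real_of_complex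
  have l1 := ki48_log h1.dT (fun x hx => (h1.re x hx).1) h1.Tne hbR
  have l0 := ki48_log h0.dT (fun x hx => (h0.re x hx).1) h0.Tne hbR
  refine ⟨hd, ?_, ?_, e2, ?_, ?_⟩
  · calc |(deriv p1 (b : ℂ) - deriv p0 (b : ℂ)).re| ≤ ‖deriv p1 (b : ℂ) - deriv p0 (b : ℂ)‖ :=
          Complex.abs_re_le_norm _
      _ ≤ L * ‖p1 (b : ℂ) - p0 (b : ℂ)‖ := hP.ratio _ hm2
      _ = _ := by rw [e2]
  · intro h
    have := (hP.ne _ hm).1
    rw [e1, h] at this
    exact this (by simp)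
  · rw [Complex.sub_re]
    refine (l1.1.sub l0.1).congr_of_eventuallyEq ?_
    filter_upwards [ki48_near hbR] with y hy
    have hy' := ki48_ball hy
    exact Real.log_div (norm_ne_zero_iff.2 (h1.Tne _ hy')) (norm_ne_zero_iff.2 (h0.Tne _ hy'))
  · have e3 : (NN T1 b - NN T0 b) = (((NN T1 b - NN T0 b).re : ℝ) : ℂ) :=
      Complex.ext rfl (by rw [Complex.sub_im, l1.2, l0.2, Complex.ofReal_im, sub_zero])
    have e4 : |(NN T1 b - NN T0 b).re| = ‖NN T1 b - NN T0 b‖ := by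
      conv_rhs => rw [e3]
      rw [Complex.norm_real, Real.norm_eq_abs]
    rw [e4, ← e2, ← norm_mul]
    congr 1
    unfold DD
    rw [div_mul_cancel₀ _ (hP.ne _ hm).1]

/-- the curves do not depend on the centre -/
theorem ki48_cons {lam R a a' : ℝ} {m : ℕ} {i j : ℤ} {T p T' p' : ℂ → ℂ} (h0 : 0 < lam)
    (h1 : lam ≤ 1 / 100) (hm : 1 ≤ m) (hR : 0 < R) (hR1 : R ≤ 1 / 80)
    (h : Curve lam R m i j a T p) (h' : Curve lam R m i j a' T' p') (hs : 1 / 20 ≤ |Real.sin a'|)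
    (ha : |a' - a| ≤ R / 8) :
    ∀ b ∈ ball (a' : ℂ) (R / 8), T b = T' b ∧ p b = p' b := by
  have k1 := h.recenter hR ha
  have k2 := h'.mono (R' := R / 8) (by positivity) (by linarith only [hR])
  refine curve_unique lam (R / 8) h0 h1 m hm i j a' ?_ T p T' p' k1 k2
  intro x hx hsx
  have h3 : |Real.sin a' - Real.sin x| ≤ |a' - x| := Real.abs_sin_sub_sin_le a' x
  rw [hsx, sub_zero, abs_sub_comm a' x] at h3
  linarith only [hR1, hs, hx, h3]

theorem ki48_deriv_eq {a' r : ℝ} (hr : 0 < r) {f g : ℂ → ℂ}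
    (h : ∀ b ∈ ball (a' : ℂ) r, f b = g b) : deriv f (a' : ℂ) = deriv g (a' : ℂ) := by
  refine Filter.EventuallyEq.deriv_eq ?_
  filter_upwards [ball_mem_nhds (a' : ℂ) hr] with b hb
  exact h b hb

/-- the slope is the inverse of the derivative of `TE` -/
theorem ki48_dTE {lam R a0 t : ℝ} {m : ℕ} {i j : ℤ} {T p : ℂ → ℂ} (h0 : 0 < lam)
    (h1 : lam ≤ 1 / 100) (hm : 1 ≤ m) (hR : 0 < R) (h : Curve lam R m i j a0 T p)
    (ht : T (a0 : ℂ) = (t : ℂ)) (hs : Real.sin (TE lam t m) ≠ 0) :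
    ‖deriv T (a0 : ℂ)‖ = (deriv (fun s => TE lam s m) t)⁻¹ ∧ 0 < deriv (fun s => TE lam s m) t := by
  obtain ⟨d, hd, hd1, -⟩ := TE_deriv lam t h0.le h1 m hm ((sin_TE_ne lam t h0.le m).1 hs)
  have hf : 0 < (Nat.fib m : ℝ) := by exact_mod_cast Nat.fib_pos.2 hm
  have hdp : 0 < d := by linarith only [hd, hf]
  have hmem : (a0 : ℂ) ∈ ball (a0 : ℂ) R := mem_ball_self hR
  have him : (deriv T (a0 : ℂ)).im = 0 := by
    refine ki48_im_deriv (h.dT.differentiableAt (isOpen_ball.mem_nhds hmem)) ?_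
    filter_upwards [ki48_near (a := a0) (b := a0) (R := R) (by simpa using hR)] with y hy
    exact (h.re y (ki48_ball hy)).1
  have hre : HasDerivAt (fun x : ℝ => (T (x : ℂ)).re) ((deriv T (a0 : ℂ)).re) a0 :=
    (h.dT.differentiableAt (isOpen_ball.mem_nhds hmem)).hasDerivAt.real_of_complex
  have hta : (T (a0 : ℂ)).re = t := by rw [ht, Complex.ofReal_re]
  have hcomp : HasDerivAt (fun x : ℝ => TE lam ((T (x : ℂ)).re) m) (d * (deriv T (a0 : ℂ)).re) a0 := by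
    have hd2 : HasDerivAt (fun s => TE lam s m) d ((T (a0 : ℂ)).re) := by rw [hta]; exact hd1
    exact hd2.comp a0 hre
  have hid : HasDerivAt (fun x : ℝ => TE lam ((T (x : ℂ)).re) m) 1 a0 := by
    refine ((hasDerivAt_id a0).add_const (j * Real.pi)).congr_of_eventuallyEq ?_
    filter_upwards [ki48_near (a := a0) (b := a0) (R := R) (by simpa using hR)] with y hy
    exact (h.re y (ki48_ball hy)).2.2.1
  have e1 : d * (deriv T (a0 : ℂ)).re = 1 := hcomp.unique hid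
  have e2 : (deriv T (a0 : ℂ)).re = d⁻¹ := eq_inv_of_mul_eq_one_right e1
  have e3 : deriv T (a0 : ℂ) = ((d⁻¹ : ℝ) : ℂ) := Complex.ext (by rw [e2, Complex.ofReal_re])
    (by rw [him, Complex.ofReal_im])
  rw [hd1.deriv, e3, Complex.norm_real, Real.norm_eq_abs, abs_of_pos (by positivity)]
  exact ⟨rfl, hdp⟩

/-- the real variable part -/
theorem ki48_real {x0 x1 D1 L C' : ℝ} {F u F' u' : ℝ → ℝ} (hx : x1 ≤ x0 + Real.pi) (hD1 : 0 < D1)
    (hL : 0 ≤ L) (hC : 0 ≤ C') (hFc : ContinuousOn F (Set.Icc x0 x1))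
    (huc : ContinuousOn u (Set.Icc x0 x1)) (hF : ∀ x ∈ Set.Ioo x0 x1, HasDerivAt F (F' x) x)
    (hu : ∀ x ∈ Set.Ioo x0 x1, HasDerivAt u (u' x) x) (hn : ∀ x ∈ Set.Icc x0 x1, u x ≠ 0)
    (h1 : ∀ x ∈ Set.Icc x0 x1, D1 * |u x| ≤ |F' x|) (h2 : ∀ x ∈ Set.Icc x0 x1, |u' x| ≤ L * |u x|)
    {a b : ℝ} (ha : a ∈ Set.Icc x0 x1) (hb : b ∈ Set.Icc x0 x1) (hFa : |F a| ≤ C' * |u a|)
    (hFb : |F b| ≤ C' * |u b|) : |a - b| ≤ 2 * C' * Real.exp (L * Real.pi) / D1 := by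
  have main : ∀ a b : ℝ, a ∈ Set.Icc x0 x1 → b ∈ Set.Icc x0 x1 → |F a| ≤ C' * |u a| →
      |F b| ≤ C' * |u b| → a < b → b - a ≤ 2 * C' * Real.exp (L * Real.pi) / D1 := by
    intro a b ha hb hFa hFb hab
    have hsub : Set.Icc a b ⊆ Set.Icc x0 x1 := Set.Icc_subset_Icc ha.1 hb.2
    have hsub' : Set.Ioo a b ⊆ Set.Ioo x0 x1 := Set.Ioo_subset_Ioo ha.1 hb.2
    obtain ⟨c, hc1, hc2⟩ := exists_hasDerivAt_eq_slope F F' hab (hFc.mono hsub)
      (fun x hx => hF x (hsub' hx))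
    have hba : 0 < b - a := by linarith only [hab]
    have hcI : c ∈ Set.Icc x0 x1 := hsub (Set.Ioo_subset_Icc_self hc1)
    have huc0 : 0 < |u c| := abs_pos.2 (hn c hcI)
    have gr : ∀ y ∈ Set.Icc x0 x1, |u y| ≤ Real.exp (L * Real.pi) * |u c| := by
      intro y hy
      have hsub2 : Set.uIcc y c ⊆ Set.Icc x0 x1 := Set.uIcc_subset_Icc hy hcI
      refine ki48_gron2 (u' := u') hL (huc.mono hsub2) ?_ (fun x hx => hn x (hsub2 hx))
        (fun x hx => h2 x (hsub2 hx)) ?_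
      · intro x hxI hxy hxc
        refine hu x ⟨lt_of_le_of_ne (hsub2 hxI).1 ?_, lt_of_le_of_ne (hsub2 hxI).2 ?_⟩
        · intro hh
          rcases Set.mem_uIcc.1 hxI with h | h
          · exact hxy (le_antisymm (by rw [← hh]; exact hy.1) h.1)
          · exact hxc (le_antisymm (by rw [← hh]; exact hcI.1) h.1)
        · intro hh
          rcases Set.mem_uIcc.1 hxI with h | h
          · exact hxc (le_antisymm h.2 (by rw [hh]; exact hcI.2))
          · exact hxy (le_antisymm h.2 (by rw [hh]; exact hy.2))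
      · rw [abs_le]
        constructor <;> linarith only [hx, hy.1, hy.2, hcI.1, hcI.2]
    have e1 : F b - F a = F' c * (b - a) := by rw [hc2]; field_simp
    have e2 : |F b - F a| = |F' c| * (b - a) := by rw [e1, abs_mul, abs_of_pos hba]
    have e3 : |F b - F a| ≤ C' * |u b| + C' * |u a| :=
      (abs_sub _ _).trans (add_le_add hFb hFa)
    have e4 : D1 * |u c| * (b - a) ≤ |F' c| * (b - a) := mul_le_mul_of_nonneg_right (h1 c hcI) hba.le
    have e5 := mul_le_mul_of_nonneg_left (gr a ha) hC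
    have e6 := mul_le_mul_of_nonneg_left (gr b hb) hC
    have e7 : D1 * |u c| * (b - a) ≤ 2 * C' * Real.exp (L * Real.pi) * |u c| := by nlinarith
    rw [le_div_iff₀ hD1]
    have e8 : (b - a) * D1 * |u c| ≤ 2 * C' * Real.exp (L * Real.pi) * |u c| := by nlinarith
    exact le_of_mul_le_mul_right e8 huc0
  rcases lt_trichotomy a b with h | h | h
  · rw [abs_sub_comm, abs_of_pos (by linarith only [h] : (0:ℝ) < b - a)]
    exact main a b ha hb hFa hFb h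
  · subst h
    rw [sub_self, abs_zero]
    positivity
  · rw [abs_of_pos (by linarith only [h] : (0:ℝ) < a - b)]
    exact main b a hb ha hFb hFa h

theorem kill_interval : ∃ R0 : ℝ, 0 < R0 ∧ ∀ R : ℝ, 0 < R → R ≤ R0 → ∀ Lst : ℝ, 1 ≤ Lst →
    ∃ (lam1 e0 C7 : ℝ) (n0 : ℕ), 0 < lam1 ∧ lam1 ≤ 1 / 100 ∧ 0 < e0 ∧ 1 ≤ C7 ∧ 6 ≤ n0 ∧
    ∀ lam : ℝ, 0 < lam → lam ≤ lam1 → ∀ (m n : ℕ) (i j : ℤ) (x0 x1 D1 r e S O : ℝ), 4 ≤ m → n0 ≤ n →
      x0 ≤ x1 → x1 ≤ x0 + Real.pi → 0 < D1 → 0 < r → 0 ≤ e → 0 ≤ S → 0 ≤ O → e ≤ e0 → e * S ≤ 1 →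
      (∀ a : ℝ, x0 ≤ a → a ≤ x1 → 1 / 20 ≤ |Real.sin a| ∧ ∃ T0 p0 T1 p1 : ℂ → ℂ,
        Curve lam R m 0 0 a T0 p0 ∧ Curve lam R m i j a T1 p1 ∧
        PairB R Lst e S O (a : ℂ) T0 T1 p0 p1 ∧ D1 ≤ ‖DD T0 T1 p0 p1 (a : ℂ)‖ ∧
        r ≤ ‖p1 (a : ℂ) - p0 (a : ℂ)‖) →
      ∃ y : ℝ, ∀ t0 t1 : ℝ, Good (1 / 20) (fun k => TE lam t0 k) m →
        Good (1 / 20) (fun k => TE lam t0 k) (m - 1 + n) →
        Good (1 / 20) (fun k => TE lam t1 k) (m - 1 + n) →
        TE lam t1 (m - 1 + n) = TE lam t0 (m - 1 + n) + (fibz i j n : ℝ) * Real.pi →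
        x0 ≤ TE lam t0 m → TE lam t0 m ≤ x1 →
        |Real.log (deriv (fun t => TE lam t (m - 1 + n)) t0 / deriv (fun t => TE lam t (m - 1 + n)) t1)| ≤ r →
        |TE lam t0 m - y| ≤ C7 / D1 := by
  obtain ⟨R0, lamA, hR0, hR01, hR02, hlA, hlA1, hlog⟩ := pair_log (1 / 20) (by norm_num)
  refine ⟨R0, hR0, fun R hR hRR0 Lst hLst => ?_⟩
  obtain ⟨C1, e0, n0, hC1, he0, hn0, hlog⟩ := hlog R hR hRR0
  have hE1 : 1 ≤ Real.exp Lst := Real.one_le_exp (by linarith only [hLst])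
  have hE2 : 1 ≤ Real.exp (Lst * Real.pi) := Real.one_le_exp (by positivity)
  set C' : ℝ := 1 + (1 + C1 * (1 + Lst)) * Real.exp Lst with hC'
  have hC1' : 1 ≤ C' := by
    have : 0 ≤ (1 + C1 * (1 + Lst)) * Real.exp Lst := by positivity
    linarith only [this]
  refine ⟨lamA, e0, 2 * C' * Real.exp (Lst * Real.pi), n0, hlA, hlA1, he0, by nlinarith, hn0, ?_⟩
  intro lam hlam0 hlam1 m n i j x0 x1 D1 r e S O hm hn hx01 hx1 hD1 hr he hS hO hee heS H
  have hR80 : R ≤ 1 / 80 := by linarith only [hR02, hRR0]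
  have hlam2 : lam ≤ 1 / 100 := hlam1.trans hlA1
  have hm1 : 1 ≤ m := by omega
  have H' : ∀ a : ℝ, ∃ T0 p0 T1 p1 : ℂ → ℂ, x0 ≤ a → a ≤ x1 → 1 / 20 ≤ |Real.sin a| ∧
      Curve lam R m 0 0 a T0 p0 ∧ Curve lam R m i j a T1 p1 ∧
        PairB R Lst e S O (a : ℂ) T0 T1 p0 p1 ∧ D1 ≤ ‖DD T0 T1 p0 p1 (a : ℂ)‖ ∧
        r ≤ ‖p1 (a : ℂ) - p0 (a : ℂ)‖ := by
    intro a
    by_cases h : x0 ≤ a ∧ a ≤ x1
    · obtain ⟨hs, T0, p0, T1, p1, k⟩ := H a h.1 h.2
      exact ⟨T0, p0, T1, p1, fun _ _ => ⟨hs, k⟩⟩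
    · exact ⟨0, 0, 0, 0, fun h1 h2 => absurd ⟨h1, h2⟩ h⟩
  choose T0 p0 T1 p1 hH using H'
  have hcons : ∀ a ∈ Set.Icc x0 x1, ∀ b ∈ Set.Icc x0 x1, |b - a| ≤ R / 8 →
      (T0 a (b : ℂ) = T0 b (b : ℂ) ∧ deriv (T0 a) (b : ℂ) = deriv (T0 b) (b : ℂ)) ∧
      (T1 a (b : ℂ) = T1 b (b : ℂ) ∧ deriv (T1 a) (b : ℂ) = deriv (T1 b) (b : ℂ)) ∧
      p0 a (b : ℂ) = p0 b (b : ℂ) ∧ p1 a (b : ℂ) = p1 b (b : ℂ) := by
    intro a ha b hb hab
    obtain ⟨hs, c0, c1, -⟩ := hH a ha.1 ha.2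
    obtain ⟨hs', c0', c1', -⟩ := hH b hb.1 hb.2
    have k0 := ki48_cons hlam0 hlam2 hm1 hR hR80 c0 c0' hs' hab
    have k1 := ki48_cons hlam0 hlam2 hm1 hR hR80 c1 c1' hs' hab
    have hR8 : 0 < R / 8 := by positivity
    have hmem : (b : ℂ) ∈ ball (b : ℂ) (R / 8) := mem_ball_self hR8
    exact ⟨⟨(k0 _ hmem).1, ki48_deriv_eq hR8 fun z hz => (k0 z hz).1⟩,
      ⟨(k1 _ hmem).1, ki48_deriv_eq hR8 fun z hz => (k1 z hz).1⟩, (k0 _ hmem).2, (k1 _ hmem).2⟩
  set F : ℝ → ℝ := fun a => Real.log (‖deriv (T1 a) (a : ℂ)‖ / ‖deriv (T0 a) (a : ℂ)‖) with hF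
  set u : ℝ → ℝ := fun a => (p1 a (a : ℂ) - p0 a (a : ℂ)).re with hu
  set F' : ℝ → ℝ := fun a => (NN (T1 a) (a : ℂ) - NN (T0 a) (a : ℂ)).re with hF'
  set u' : ℝ → ℝ := fun a => (deriv (p1 a) (a : ℂ) - deriv (p0 a) (a : ℂ)).re with hu'
  have hpair := fun (a : ℝ) (ha : a ∈ Set.Icc x0 x1) (b : ℝ) (hb : |b - a| < R / 2) =>
    ki48_pair (hH a ha.1 ha.2).2.1 (hH a ha.1 ha.2).2.2.1 (hH a ha.1 ha.2).2.2.2.1 hR hb
  have hFeq : ∀ a ∈ Set.Icc x0 x1, ∀ b ∈ Set.Icc x0 x1, |b - a| ≤ R / 8 →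
      F b = Real.log (‖deriv (T1 a) (b : ℂ)‖ / ‖deriv (T0 a) (b : ℂ)‖) := by
    intro a ha b hb hab
    obtain ⟨⟨-, k0⟩, ⟨-, k1⟩, -⟩ := hcons a ha b hb hab
    rw [k0, k1]
  have hueq : ∀ a ∈ Set.Icc x0 x1, ∀ b ∈ Set.Icc x0 x1, |b - a| ≤ R / 8 →
      u b = (p1 a (b : ℂ) - p0 a (b : ℂ)).re := by
    intro a ha b hb hab
    obtain ⟨-, -, k0, k1⟩ := hcons a ha b hb hab
    rw [k0, k1]
  have h00 : ∀ a : ℝ, |a - a| < R / 2 := fun a => by simpa using (by positivity : 0 < R / 2)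
  have hnear : ∀ a : ℝ, ∀ᶠ x : ℝ in 𝓝 a, |x - a| ≤ R / 8 := fun a => by
    filter_upwards [ki48_near (a := a) (b := a) (R := R / 8) (by simpa using hR)] with x hx
    exact hx.le
  have hFd : ∀ x ∈ Set.Ioo x0 x1, HasDerivAt F (F' x) x := by
    intro x hx
    have hx' := Set.Ioo_subset_Icc_self hx
    obtain ⟨-, -, -, -, k, -⟩ := hpair x hx' x (h00 x)
    refine k.congr_of_eventuallyEq ?_
    filter_upwards [hnear x, Ioo_mem_nhds hx.1 hx.2] with y hy hy2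
    exact hFeq x hx' y (Set.Ioo_subset_Icc_self hy2) hy
  have hud : ∀ x ∈ Set.Ioo x0 x1, HasDerivAt u (u' x) x := by
    intro x hx
    have hx' := Set.Ioo_subset_Icc_self hx
    obtain ⟨k, -⟩ := hpair x hx' x (h00 x)
    refine k.congr_of_eventuallyEq ?_
    filter_upwards [hnear x, Ioo_mem_nhds hx.1 hx.2] with y hy hy2
    exact hueq x hx' y (Set.Ioo_subset_Icc_self hy2) hy
  have hFc : ContinuousOn F (Set.Icc x0 x1) := by
    intro x hx
    obtain ⟨-, -, -, -, k, -⟩ := hpair x hx x (h00 x)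
    refine (k.continuousAt.continuousWithinAt (s := Set.Icc x0 x1)).congr_of_eventuallyEq ?_ ?_
    · filter_upwards [nhdsWithin_le_nhds (hnear x), self_mem_nhdsWithin] with y hy hy2
      exact hFeq x hx y hy2 hy
    · exact hFeq x hx x hx (by simpa using (by positivity : 0 ≤ R / 8))
  have huc : ContinuousOn u (Set.Icc x0 x1) := by
    intro x hx
    obtain ⟨k, -⟩ := hpair x hx x (h00 x)
    refine (k.continuousAt.continuousWithinAt (s := Set.Icc x0 x1)).congr_of_eventuallyEq ?_ ?_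
    · filter_upwards [nhdsWithin_le_nhds (hnear x), self_mem_nhdsWithin] with y hy hy2
      exact hueq x hx y hy2 hy
    · exact hueq x hx x hx (by simpa using (by positivity : 0 ≤ R / 8))
  have hun : ∀ x ∈ Set.Icc x0 x1, u x ≠ 0 := fun x hx => (hpair x hx x (h00 x)).2.2.1
  have hF1 : ∀ x ∈ Set.Icc x0 x1, D1 * |u x| ≤ |F' x| := by
    intro x hx
    obtain ⟨-, -, -, -, -, k⟩ := hpair x hx x (h00 x)
    have := (hH x hx.1 hx.2).2.2.2.2.1
    calc D1 * |u x| ≤ ‖DD (T0 x) (T1 x) (p0 x) (p1 x) (x : ℂ)‖ * |u x| :=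
          mul_le_mul_of_nonneg_right this (abs_nonneg _)
      _ = |F' x| := k.symm
  have hu2 : ∀ x ∈ Set.Icc x0 x1, |u' x| ≤ Lst * |u x| := fun x hx => (hpair x hx x (h00 x)).2.1
  -- the bound at the points of the statement
  have key : ∀ t0 t1 : ℝ, Good (1 / 20) (fun k => TE lam t0 k) m →
      Good (1 / 20) (fun k => TE lam t0 k) (m - 1 + n) →
      Good (1 / 20) (fun k => TE lam t1 k) (m - 1 + n) →
      TE lam t1 (m - 1 + n) = TE lam t0 (m - 1 + n) + (fibz i j n : ℝ) * Real.pi →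
      x0 ≤ TE lam t0 m → TE lam t0 m ≤ x1 →
      |Real.log (deriv (fun t => TE lam t (m - 1 + n)) t0 / deriv (fun t => TE lam t (m - 1 + n)) t1)| ≤ r →
      |F (TE lam t0 m)| ≤ C' * |u (TE lam t0 m)| := by
    intro t0 t1 g0 g1 g2 hte ha0 ha1 hlr
    set a : ℝ := TE lam t0 m with ha
    have haI : a ∈ Set.Icc x0 x1 := ⟨ha0, ha1⟩
    obtain ⟨hs, c0, c1, hP, hDD, hrr⟩ := hH a ha0 ha1
    obtain ⟨b1, P, U, T0m, p0m, T1m, p1m, hb1, hb2, hb3, -, -, -, cm0, cm1, ht0, ht1, hl, -⟩ :=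
      hlog lam hlam0 hlam1 m n (m - 1 + n) hn rfl i j t0 t1 Lst e S O (T0 a) (p0 a) (T1 a) (p1 a)
        g0 g1 hte g2 (by linarith only [hLst]) he hS hO hee c0 c1 hP
    have hm' : 1 ≤ m - 1 + n := by omega
    have hs0 : Real.sin (TE lam t0 (m - 1 + n)) ≠ 0 := by
      have := g1.2 (m - 1 + n) (by omega) (by omega)
      intro h
      simp only [h, abs_zero] at this
      norm_num at this
    have hs1 : Real.sin (TE lam t1 (m - 1 + n)) ≠ 0 := by
      have := g2.2 (m - 1 + n) (by omega) (by omega)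
      intro h
      simp only [h, abs_zero] at this
      norm_num at this
    have d0 := ki48_dTE hlam0 hlam2 hm' hR cm0 ht0 hs0
    have d1 := ki48_dTE hlam0 hlam2 hm' hR cm1 ht1 hs1
    rw [d0.1, d1.1] at hl
    have e1 : (deriv (fun s => TE lam s (m - 1 + n)) t1)⁻¹ / (deriv (fun s => TE lam s (m - 1 + n)) t0)⁻¹
        = deriv (fun t => TE lam t (m - 1 + n)) t0 / deriv (fun t => TE lam t (m - 1 + n)) t1 := by
      rw [inv_div_inv]
    rw [e1] at hl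
    have hb8 : |b1 - a| ≤ R / 8 := hb1
    have hseg : ∀ x ∈ Set.uIcc a b1, |x - a| < R / 2 := by
      intro x hx
      have : |x - a| ≤ |b1 - a| := Set.abs_sub_left_of_mem_uIcc hx
      linarith only [hR, hb1, this]
    have hb12 : |b1 - a| < R / 2 := by linarith only [hR, hb1]
    obtain ⟨-, -, -, hnb, -, -⟩ := hpair a haI b1 hb12
    -- Gronwall
    have gr : |(p1 a (b1 : ℂ) - p0 a (b1 : ℂ)).re| ≤ Real.exp (Lst * 1) * |u a| := by
      have hcs : Set.uIcc b1 a = Set.uIcc a b1 := Set.uIcc_comm _ _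
      refine ki48_gron2 (u := fun x : ℝ => (p1 a (x : ℂ) - p0 a (x : ℂ)).re)
        (u' := fun x : ℝ => (deriv (p1 a) (x : ℂ) - deriv (p0 a) (x : ℂ)).re) (by linarith only [hLst]) ?_ ?_ ?_ ?_ ?_
      · intro x hx
        rw [hcs] at hx
        exact (hpair a haI x (hseg x hx)).1.continuousAt.continuousWithinAt
      · intro x hx _ _
        rw [hcs] at hx
        exact (hpair a haI x (hseg x hx)).1
      · intro x hx
        rw [hcs] at hx
        exact (hpair a haI x (hseg x hx)).2.2.1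
      · intro x hx
        rw [hcs] at hx
        exact (hpair a haI x (hseg x hx)).2.1
      · rw [abs_sub_comm]; linarith only [hR01, hRR0, hb1]
    rw [mul_one] at gr
    -- variation of the logarithm
    have hvar : |Real.log (‖deriv (T1 a) (b1 : ℂ)‖ / ‖deriv (T0 a) (b1 : ℂ)‖) - F a| ≤ 1 * |b1 - a| := by
      have := (convex_uIcc a b1).norm_image_sub_le_of_norm_hasDerivWithin_le
        (f := fun x : ℝ => Real.log (‖deriv (T1 a) (x : ℂ)‖ / ‖deriv (T0 a) (x : ℂ)‖))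
        (f' := fun x : ℝ => (NN (T1 a) (x : ℂ) - NN (T0 a) (x : ℂ)).re) (C := 1)
        (fun x hx => (hpair a haI x (hseg x hx)).2.2.2.2.1.hasDerivWithinAt) ?_ Set.left_mem_uIcc
        Set.right_mem_uIcc
      · simpa only [Real.norm_eq_abs] using this
      · intro x hx
        obtain ⟨-, -, -, k1, -, k2⟩ := hpair a haI x (hseg x hx)
        rw [Real.norm_eq_abs, k2, ← k1]
        have q1 := hP.bd _ (ki48_ball (hseg x hx))
        have q2 := (hP.ne (x : ℂ) (ki48_ball ((hseg x hx).trans (by linarith only [hR])))).2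
        calc ‖DD (T0 a) (T1 a) (p0 a) (p1 a) (x : ℂ)‖ * ‖p1 a (x : ℂ) - p0 a (x : ℂ)‖ ≤ S * e :=
              mul_le_mul q1 q2 (norm_nonneg _) hS
          _ ≤ 1 := by linarith only [heS]
    rw [hnb] at hl hb2
    have hrr' : r ≤ |u a| := by
      obtain ⟨-, -, -, k1, -, -⟩ := hpair a haI a (h00 a)
      rw [k1] at hrr
      exact hrr
    set X1 : ℝ := |(p1 a (b1 : ℂ) - p0 a (b1 : ℂ)).re| with hX1
    have hu0 : 0 ≤ |u a| := abs_nonneg _
    have t1' : |F a| ≤ 1 * |b1 - a| + C1 * (1 + Lst) * X1 + r := by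
      have q : F a = -(Real.log (‖deriv (T1 a) (b1 : ℂ)‖ / ‖deriv (T0 a) (b1 : ℂ)‖) - F a)
          - (Real.log (deriv (fun t => TE lam t (m - 1 + n)) t0 / deriv (fun t => TE lam t (m - 1 + n)) t1)
            - Real.log (‖deriv (T1 a) (b1 : ℂ)‖ / ‖deriv (T0 a) (b1 : ℂ)‖))
          + Real.log (deriv (fun t => TE lam t (m - 1 + n)) t0 / deriv (fun t => TE lam t (m - 1 + n)) t1) := by
        ring
      rw [q]
      refine (abs_add_le _ _).trans (add_le_add ((abs_sub _ _).trans (add_le_add ?_ hl)) hlr)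
      rw [abs_neg]
      exact hvar
    have t2 : |b1 - a| ≤ X1 := hb2
    have t3 : (1 + C1 * (1 + Lst)) * X1 ≤ (1 + C1 * (1 + Lst)) * (Real.exp Lst * |u a|) :=
      mul_le_mul_of_nonneg_left gr (by positivity)
    rw [hC']
    nlinarith
  by_cases hex : ∃ t0 t1 : ℝ, Good (1 / 20) (fun k => TE lam t0 k) m ∧
      Good (1 / 20) (fun k => TE lam t0 k) (m - 1 + n) ∧
      Good (1 / 20) (fun k => TE lam t1 k) (m - 1 + n) ∧
      TE lam t1 (m - 1 + n) = TE lam t0 (m - 1 + n) + (fibz i j n : ℝ) * Real.pi ∧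
      x0 ≤ TE lam t0 m ∧ TE lam t0 m ≤ x1 ∧
      |Real.log (deriv (fun t => TE lam t (m - 1 + n)) t0 / deriv (fun t => TE lam t (m - 1 + n)) t1)| ≤ r
  · obtain ⟨s0, s1, q1, q2, q3, q4, q5, q6, q7⟩ := hex
    refine ⟨TE lam s0 m, fun t0 t1 g0 g1 g2 hte ha0 ha1 hlr => ?_⟩
    exact ki48_real hx1 hD1 (by linarith only [hLst]) (by linarith only [hC1']) hFc huc hFd hud hun hF1 hu2 ⟨ha0, ha1⟩ ⟨q5, q6⟩
      (key t0 t1 g0 g1 g2 hte ha0 ha1 hlr) (key s0 s1 q1 q2 q3 q4 q5 q6 q7)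
  · refine ⟨0, fun t0 t1 g0 g1 g2 hte ha0 ha1 hlr => ?_⟩
    exact absurd ⟨t0, t1, g0, g1, g2, hte, ha0, ha1, hlr⟩ hex

end SF
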