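import Pool.Agent.Helper65.SF.TREE

/-!
# SF-CH: the recursion along good levels (pure real sequences)

`P k L e S O` is an abstract state at level k.  A word of length n from the good level l to the good level `l - 1 + n`
changes the bounds as in the hypothesis `step`.  `A = 2 log 10`, `c = 1/10`.

Proof in words.  Choose `n1 >= n0` large: for `n >= n1`: `C1/fib (n-1) <= exp (-(2/5)(n-1))`, `2 C1 <= fib (n1-1)`,
`4 C1 exp (n1/10) <= fib (n1-1)`, `exp ((n1-1)/5) >= 2 (1 + C1 (1+2C1))`.  Then K, then C4, then l1 large.  Put `ks = K l0`,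
`D r = debtS g ks A c B0 r`, `B0 = C4 l0`, and prove by strong induction for good `k = ks + r <= kmax`:
  (i) `L <= 2 C1`, `e <= exp (-(2/5)(k-l0))`, (ii) `S <= C4 exp (D r + (3/10)(k-l0))`, (iii) `O <= C4 exp (D r)`.
Elementary facts on the debt: `D (r+1) >= D r - c`; it does not decrease at non-good levels; after `g'` consecutive
non-good levels it is at least `A g'`; `D >= 0`.
Case 1: there is a good level in `[ks, k + 1 - n1]`; let l be the largest one.  The levels `l+1..k+1-n1` are not good, their number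
is `g' = k + 1 - n1 - l`, the word has length `n = k - l + 1 = n1 + g'`.  `D k >= D l - c (n1-1)` and `D k >= A g' - c (n1-1)`.
 (iii): `C1 O/fib (n-1) <= (C4/4) exp (D k)`, `C1 10^n <= (C4/4) exp (A g' - c n1)` for C4 large, `C1 (1+2C1)^2 <= C4/4`,
 `C1 (1+2C1) e S <= C1 (1+2C1) C4 exp (D l - (l-l0)/10) <= (C4/4) exp (D k)` since `l - l0 >= (K-1) l0` is large.
 (ii): `S (1 + C1 (1+2C1)) <= (1/2) C4 exp (D k + (3/10)(k-l0))` because `D k >= D l - (n1-1)/10` and `k - l >= n1 - 1`; rest as (iii).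
Case 2: no good level in `[ks, k+1-n1]` (or this interval is empty): word directly from l0, `n = k - l0 + 1`.
 `L: C1 + C1 C1 l0/fib (n-1) <= 2 C1`; `e <= C1 e0/fib (n-1) <= exp (-(2/5)(k-l0))`;
 S and O are at most `C3^l0 + C1 10^(k-l0+1)` and `D k >= max (B0, A r') - c n1`, `r' = k+1-n1-ks` (or `D k >= B0 - c n1`), and
 `max (B0, A r') >= B0/2 + r' log 10`, `B0/2 >= K l0 log 10 + l0 log C3 + ...`.
`debt_le`: induction.  `debt_eq`: `anc` of `anc` is `anc` (`Nat.div_div_eq_div_mul`, monotone j), induction on r.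
-/

namespace SF

open Classical

/-- Length of the current run of non-good levels. -/
noncomputable def runS (g : ℕ → Prop) (ks : ℕ) : ℕ → ℕ
  | 0 => 0
  | (r + 1) => if g (ks + (r + 1)) then 0 else runS g ks r + 1

/-- Debt along a path. -/
noncomputable def debtS (g : ℕ → Prop) (ks : ℕ) (A c B0 : ℝ) : ℕ → ℝ
  | 0 => B0
  | (r + 1) => if g (ks + (r + 1)) then max 0 (debtS g ks A c B0 r - c)
      else max (debtS g ks A c B0 r) (A * (runS g ks (r + 1) : ℝ))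

theorem ch63_runS_congr {g g' : ℕ → Prop} {ks r : ℕ}
    (h : ∀ q, q ≤ r → (g (ks + q) ↔ g' (ks + q))) : runS g ks r = runS g' ks r := by
  induction r with
  | zero => rfl
  | succ r ih =>
    have h1 := ih fun q hq => h q (by omega)
    have h2 := h (r + 1) le_rfl
    simp only [runS]
    by_cases hg : g (ks + (r + 1))
    · rw [if_pos hg, if_pos (h2.1 hg)]
    · rw [if_neg hg, if_neg (fun h3 => hg (h2.2 h3)), h1]

theorem ch63_debtS_congr {g g' : ℕ → Prop} {ks r : ℕ} {A c B0 : ℝ}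
    (h : ∀ q, q ≤ r → (g (ks + q) ↔ g' (ks + q))) :
    debtS g ks A c B0 r = debtS g' ks A c B0 r := by
  induction r with
  | zero => rfl
  | succ r ih =>
    have h1 := ih fun q hq => h q (by omega)
    have h2 := h (r + 1) le_rfl
    have h3 := ch63_runS_congr h
    simp only [debtS]
    by_cases hg : g (ks + (r + 1))
    · rw [if_pos hg, if_pos (h2.1 hg), h1]
    · rw [if_neg hg, if_neg (fun h3 => hg (h2.2 h3)), h1, h3]

theorem ch63_anc_self (j : ℕ → ℕ) (k i : ℕ) : anc j k k i = i := by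
  unfold anc
  rw [Nat.sub_self, pow_zero, Nat.div_one]

theorem ch63_anc_anc {j : ℕ → ℕ} (hj : Monotone j) {a b c : ℕ} (hab : a ≤ b) (hbc : b ≤ c)
    (i : ℕ) : anc j a b (anc j b c i) = anc j a c i := by
  unfold anc
  rw [Nat.div_div_eq_div_mul, ← pow_add]
  congr 2
  have h1 := hj hab
  have h2 := hj hbc
  omega

theorem ch63_run_eq (j : ℕ → ℕ) (hj : Monotone j) (good : ℕ → ℕ → Prop) (ks : ℕ) (r i : ℕ) :
    runL j good ks r i = runS (fun k => good k (anc j k (ks + r) i)) ks r := by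
  induction r generalizing i with
  | zero => rfl
  | succ r ih =>
    have h1 := ih (anc j (ks + r) (ks + (r + 1)) i)
    have h2 : runS (fun k => good k (anc j k (ks + r) (anc j (ks + r) (ks + (r + 1)) i))) ks r =
        runS (fun k => good k (anc j k (ks + (r + 1)) i)) ks r := by
      refine ch63_runS_congr fun q hq => ?_
      rw [ch63_anc_anc hj (by omega) (by omega)]
    have h0 : anc j (ks + (r + 1)) (ks + (r + 1)) i = i := ch63_anc_self _ _ _
    simp only [runL, runS]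
    by_cases hg : good (ks + (r + 1)) i
    · rw [if_pos hg, if_pos (by rw [h0]; exact hg)]
    · rw [if_neg hg, if_neg (by rw [h0]; exact hg), h1, h2]

theorem debt_eq (j : ℕ → ℕ) (hj : Monotone j) (good : ℕ → ℕ → Prop) (ks : ℕ) (A c B0 : ℝ) (r i : ℕ) :
    debt j good ks A c B0 r i
      = debtS (fun k => good k (anc j k (ks + r) i)) ks A c B0 r := by
  induction r generalizing i with
  | zero => rfl
  | succ r ih =>
    have h1 := ih (anc j (ks + r) (ks + (r + 1)) i)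
    have h2 : debtS (fun k => good k (anc j k (ks + r) (anc j (ks + r) (ks + (r + 1)) i))) ks
        A c B0 r = debtS (fun k => good k (anc j k (ks + (r + 1)) i)) ks A c B0 r := by
      refine ch63_debtS_congr fun q hq => ?_
      rw [ch63_anc_anc hj (by omega) (by omega)]
    have h3 := ch63_run_eq j hj good ks (r + 1) i
    have h0 : anc j (ks + (r + 1)) (ks + (r + 1)) i = i := ch63_anc_self _ _ _
    simp only [debt, debtS]
    by_cases hg : good (ks + (r + 1)) i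
    · rw [if_pos hg, if_pos (by rw [h0]; exact hg), h1, h2]
    · rw [if_neg hg, if_neg (by rw [h0]; exact hg), h1, h2, h3]

theorem debt_le (g : ℕ → Prop) (ks : ℕ) (A c B0 : ℝ) (hA : 0 ≤ A) (hc : 0 ≤ c) (hB : 0 ≤ B0)
    (G r : ℕ) (h : ∀ q ≤ r, runS g ks q ≤ G) : 0 ≤ debtS g ks A c B0 r ∧
      debtS g ks A c B0 r ≤ max B0 (A * G) := by
  induction r with
  | zero => exact ⟨hB, le_max_left _ _⟩
  | succ r ih =>
    obtain ⟨h1, h2⟩ := ih fun q hq => h q (by omega)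
    have h3 := h (r + 1) le_rfl
    have h4 : (runS g ks (r + 1) : ℝ) ≤ G := by exact_mod_cast h3
    simp only [debtS]
    split_ifs with hg
    · refine ⟨le_max_left _ _, max_le ?_ ?_⟩
      · exact hB.trans (le_max_left _ _)
      · linarith
    · refine ⟨h1.trans (le_max_left _ _), max_le h2 ?_⟩
      exact (mul_le_mul_of_nonneg_left h4 hA).trans (le_max_right _ _)

/-! ### facts on the debt -/

section ch63

variable {g : ℕ → Prop} {ks : ℕ} {A c B0 : ℝ}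

theorem ch63_nonneg (hB : 0 ≤ B0) (r : ℕ) : 0 ≤ debtS g ks A c B0 r := by
  induction r with
  | zero => exact hB
  | succ r ih =>
    simp only [debtS]
    split_ifs with hg
    · exact le_max_left _ _
    · exact ih.trans (le_max_left _ _)

theorem ch63_step (hc : 0 ≤ c) (r : ℕ) :
    debtS g ks A c B0 r - c ≤ debtS g ks A c B0 (r + 1) := by
  simp only [debtS]
  split_ifs with hg
  · exact le_max_right _ _
  · exact le_trans (by linarith) (le_max_left _ _)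

theorem ch63_steps (hc : 0 ≤ c) (r m : ℕ) :
    debtS g ks A c B0 r - c * m ≤ debtS g ks A c B0 (r + m) := by
  induction m with
  | zero => simp
  | succ m ih =>
    have h1 := ch63_step (g := g) (ks := ks) (A := A) (B0 := B0) hc (r + m)
    have h2 : r + (m + 1) = r + m + 1 := by ring
    rw [h2]
    push_cast
    linarith

theorem ch63_up (r m : ℕ) (h : ∀ i, r < i → i ≤ r + m → ¬ g (ks + i)) :
    debtS g ks A c B0 r ≤ debtS g ks A c B0 (r + m) ∧ m ≤ runS g ks (r + m) := by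
  induction m with
  | zero => exact ⟨le_rfl, Nat.zero_le _⟩
  | succ m ih =>
    obtain ⟨h1, h2⟩ := ih fun i hi hi' => h i hi (by omega)
    have h3 := h (r + (m + 1)) (by omega) le_rfl
    have h4 : r + (m + 1) = (r + m) + 1 := by ring
    rw [h4] at h3 ⊢
    constructor
    · simp only [debtS]
      rw [if_neg h3]
      exact h1.trans (le_max_left _ _)
    · simp only [runS]
      rw [if_neg h3]
      omega

theorem ch63_run (hA : 0 ≤ A) (hB : 0 ≤ B0) (r m : ℕ)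
    (h : ∀ i, r < i → i ≤ r + m → ¬ g (ks + i)) : A * m ≤ debtS g ks A c B0 (r + m) := by
  rcases Nat.eq_zero_or_pos m with h0 | h0
  · subst h0
    simpa using ch63_nonneg (g := g) (ks := ks) (A := A) (c := c) hB r
  · obtain ⟨m', rfl⟩ : ∃ m', m = m' + 1 := ⟨m - 1, by omega⟩
    have h1 := (ch63_up (A := A) (c := c) (B0 := B0) r (m' + 1) h).2
    have h3 := h (r + (m' + 1)) (by omega) le_rfl
    have h4 : r + (m' + 1) = (r + m') + 1 := by ring
    rw [h4] at h3 h1 ⊢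
    simp only [debtS]
    rw [if_neg h3]
    refine le_trans ?_ (le_max_right _ _)
    refine mul_le_mul_of_nonneg_left ?_ hA
    exact_mod_cast h1

end ch63

/-! ### growth -/

theorem ch63_ratio (m : ℕ) : 3 * Nat.fib (m + 2) ≤ 2 * Nat.fib (m + 3) ∧
    Nat.fib (m + 3) ≤ 2 * Nat.fib (m + 2) := by
  induction m with
  | zero => decide
  | succ m ih =>
    have h1 : Nat.fib (m + 1 + 3) = Nat.fib (m + 2) + Nat.fib (m + 3) := Nat.fib_add_two
    have h2 : Nat.fib (m + 1 + 2) = Nat.fib (m + 3) := rfl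
    rw [h1, h2]
    omega

theorem ch63_fib_lower (m : ℕ) : ((3 : ℝ) / 2) ^ m ≤ (Nat.fib (m + 2) : ℝ) := by
  induction m with
  | zero => simp
  | succ m ih =>
    have h1 := (ch63_ratio m).1
    have h2 : (3 : ℝ) * Nat.fib (m + 2) ≤ 2 * Nat.fib (m + 3) := by exact_mod_cast h1
    have h3 : Nat.fib (m + 1 + 2) = Nat.fib (m + 3) := rfl
    rw [h3, pow_succ]
    linarith

theorem ch63_exp : Real.exp (2 / 5) < 3 / 2 := by
  have h1 : Real.exp (2 / 5) ^ 5 = Real.exp 1 ^ 2 := by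
    rw [← Real.exp_nat_mul, ← Real.exp_nat_mul]
    norm_num
  have h2 : Real.exp 1 < 2.7182818286 := Real.exp_one_lt_d9
  have h3 : Real.exp 1 ^ 2 < (3 / 2 : ℝ) ^ 5 := by
    have h4 := Real.exp_pos 1
    nlinarith
  rw [← h1] at h3
  exact lt_of_pow_lt_pow_left₀ 5 (by norm_num) h3

theorem ch63_growth (C : ℝ) : ∃ N : ℕ, ∀ m : ℕ, N ≤ m →
    C * Real.exp (2 / 5 * m) ≤ (Nat.fib m : ℝ) := by
  have h0 := Real.exp_pos (2 / 5)
  have h1 : 1 < 3 / 2 / Real.exp (2 / 5) := by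
    rw [lt_div_iff₀ h0]
    linarith [ch63_exp]
  obtain ⟨N, hN⟩ := Filter.eventually_atTop.1
    ((tendsto_pow_atTop_atTop_of_one_lt h1).eventually_ge_atTop (C * (Real.exp (2 / 5)) ^ 2))
  refine ⟨N + 2, fun m hm => ?_⟩
  obtain ⟨m', rfl⟩ : ∃ m', m = m' + 2 := ⟨m - 2, by omega⟩
  refine le_trans ?_ (ch63_fib_lower m')
  have h2 := hN m' (by omega)
  rw [div_pow, le_div_iff₀ (by positivity)] at h2
  refine le_trans (le_of_eq ?_) h2
  have h3 : Real.exp (2 / 5 * ((m' + 2 : ℕ) : ℝ)) = Real.exp (2 / 5) ^ m' * Real.exp (2 / 5) ^ 2 := by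
    rw [← pow_add, ← Real.exp_nat_mul]
    congr 1
    ring
  rw [h3]
  ring

/-! ### arithmetic of the two cases -/

theorem ch63_case1 {C1 C4 E w x y F L e S O : ℝ} {n n1 q : ℕ} (hC1 : 1 ≤ C1)
    (hn : n = n1 + q) (hE1 : 1 ≤ E) (hw : 0 < w) (hx : 0 ≤ x)
    (hc1 : 4 * C1 * 10 ^ n1 * w ≤ C4) (hc2 : 4 * (C1 * (1 + 2 * C1) ^ 2) ≤ C4)
    (hE2 : (100 : ℝ) ^ q ≤ E * w) (hF : 4 * C1 * w ≤ F)
    (hL : L = 2 * C1) (he : e = Real.exp (-(2 / 5) * x))
    (hO0 : 0 ≤ O) (hO : O ≤ C4 * (E * w)) (hS0 : 0 ≤ S)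
    (hS : S ≤ C4 * (E * w) * Real.exp (3 / 10 * x))
    (hx2 : 4 * (C1 * (1 + 2 * C1)) * w ≤ Real.exp (1 / 10 * x))
    (hy : w * Real.exp (3 / 10 * x) * (2 * (1 + C1 * (1 + 2 * C1))) ≤ Real.exp (3 / 10 * y))
    (hy0 : 0 ≤ y) :
    S + C1 * (e * (1 + L) * S + 10 ^ n + (1 + L) ^ 2) ≤ C4 * (E * Real.exp (3 / 10 * y)) ∧
    C1 * (O / F + 10 ^ n + (1 + L) ^ 2 + e * (1 + L) * S) ≤ C4 * E := by
  have hC0 : 0 < C1 := by linarith
  have hC4 : 0 < C4 := lt_of_lt_of_le (by positivity) hc2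
  have hE0 : 0 < E := by linarith
  have hF0 : 0 < F := lt_of_lt_of_le (by positivity) hF
  subst hL
  have hx0 : 0 < Real.exp (1 / 10 * x) := Real.exp_pos _
  have hx3 : 0 < Real.exp (3 / 10 * x) := Real.exp_pos _
  have hy1 : 1 ≤ Real.exp (3 / 10 * y) := Real.one_le_exp (by positivity)
  have he0 : 0 < e := by rw [he]; exact Real.exp_pos _
  have he1 : e ≤ 1 := by
    rw [he, Real.exp_le_one_iff]
    nlinarith
  have hex : e * Real.exp (3 / 10 * x) * Real.exp (1 / 10 * x) = 1 := by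
    rw [he, ← Real.exp_add, ← Real.exp_add]
    rw [show -(2 / 5) * x + 3 / 10 * x + 1 / 10 * x = 0 by ring, Real.exp_zero]
  -- the power of 10
  have hT2 : C1 * 10 ^ n ≤ C4 / 4 * E := by
    have h1 : (10 : ℝ) ^ q ≤ E * w := le_trans (pow_le_pow_left₀ (by norm_num) (by norm_num) q) hE2
    have h3 : (10 : ℝ) ^ n = 10 ^ n1 * 10 ^ q := by rw [hn, pow_add]
    calc C1 * 10 ^ n = C1 * 10 ^ n1 * 10 ^ q := by rw [h3]; ring
      _ ≤ C1 * 10 ^ n1 * (E * w) := by gcongr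
      _ = (C1 * 10 ^ n1 * w) * E := by ring
      _ ≤ C4 / 4 * E := by
          refine mul_le_mul_of_nonneg_right ?_ hE0.le
          linarith
  have hT3 : C1 * (1 + 2 * C1) ^ 2 ≤ C4 / 4 * E := by
    have h1 : C4 / 4 * 1 ≤ C4 / 4 * E := mul_le_mul_of_nonneg_left hE1 (by positivity)
    linarith
  have hT1 : C1 * (O / F) ≤ C4 / 4 * E := by
    rw [← mul_div_assoc, div_le_iff₀ hF0]
    calc C1 * O ≤ C1 * (C4 * (E * w)) := mul_le_mul_of_nonneg_left hO hC0.le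
      _ = C4 / 4 * E * (4 * C1 * w) := by ring
      _ ≤ C4 / 4 * E * F := mul_le_mul_of_nonneg_left hF (by positivity)
  have hT4 : C1 * (e * (1 + 2 * C1) * S) ≤ C4 / 4 * E := by
    have h1 : 4 * (C1 * (1 + 2 * C1)) * w * (e * Real.exp (3 / 10 * x)) ≤ 1 := by
      calc 4 * (C1 * (1 + 2 * C1)) * w * (e * Real.exp (3 / 10 * x))
          ≤ Real.exp (1 / 10 * x) * (e * Real.exp (3 / 10 * x)) :=
            mul_le_mul_of_nonneg_right hx2 (by positivity)
        _ = 1 := by linear_combination hex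
    calc C1 * (e * (1 + 2 * C1) * S)
        ≤ C1 * (e * (1 + 2 * C1) * (C4 * (E * w) * Real.exp (3 / 10 * x))) := by gcongr
      _ = C4 / 4 * E * (4 * (C1 * (1 + 2 * C1)) * w * (e * Real.exp (3 / 10 * x))) := by ring
      _ ≤ C4 / 4 * E * 1 := mul_le_mul_of_nonneg_left h1 (by positivity)
      _ = C4 / 4 * E := by ring
  constructor
  · have h1 : S * (1 + C1 * (1 + 2 * C1)) ≤ C4 / 2 * (E * Real.exp (3 / 10 * y)) := by
      calc S * (1 + C1 * (1 + 2 * C1))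
          ≤ C4 * (E * w) * Real.exp (3 / 10 * x) * (1 + C1 * (1 + 2 * C1)) :=
            mul_le_mul_of_nonneg_right hS (by positivity)
        _ = C4 / 2 * E * (w * Real.exp (3 / 10 * x) * (2 * (1 + C1 * (1 + 2 * C1)))) := by ring
        _ ≤ C4 / 2 * E * Real.exp (3 / 10 * y) := mul_le_mul_of_nonneg_left hy (by positivity)
        _ = _ := by ring
    have h2 : C1 * (e * (1 + 2 * C1) * S) ≤ C1 * (1 + 2 * C1) * S := by
      calc C1 * (e * (1 + 2 * C1) * S) ≤ C1 * (1 * (1 + 2 * C1) * S) := by gcongr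
        _ = _ := by ring
    have h3 : C4 / 2 * E * 1 ≤ C4 / 2 * E * Real.exp (3 / 10 * y) :=
      mul_le_mul_of_nonneg_left hy1 (by positivity)
    calc S + C1 * (e * (1 + 2 * C1) * S + 10 ^ n + (1 + 2 * C1) ^ 2)
        = S + C1 * (e * (1 + 2 * C1) * S) + C1 * 10 ^ n + C1 * (1 + 2 * C1) ^ 2 := by ring
      _ ≤ S + C1 * (1 + 2 * C1) * S + C4 / 4 * E + C4 / 4 * E := by linarith
      _ = S * (1 + C1 * (1 + 2 * C1)) + C4 / 2 * E * 1 := by ring
      _ ≤ C4 / 2 * (E * Real.exp (3 / 10 * y)) + C4 / 2 * E * Real.exp (3 / 10 * y) := by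
          linarith
      _ = _ := by ring
  · calc C1 * (O / F + 10 ^ n + (1 + 2 * C1) ^ 2 + e * (1 + 2 * C1) * S)
        = C1 * (O / F) + C1 * 10 ^ n + C1 * (1 + 2 * C1) ^ 2 + C1 * (e * (1 + 2 * C1) * S) := by
          ring
      _ ≤ C4 / 4 * E + C4 / 4 * E + C4 / 4 * E + C4 / 4 * E := by linarith
      _ = C4 * E := by ring

theorem ch63_case2 {C1 C4 E w Y F e : ℝ} {n n1 q l0 : ℕ} (hC1 : 1 ≤ C1)
    (hn : n ≤ 2 * l0 + n1 + q) (hw : 0 < w) (hY : 1 ≤ Y)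
    (hc1 : 8 * C1 * 10 ^ n1 * w ≤ C4) (hF : 1 ≤ F) (he0 : 0 ≤ e) (he1 : e ≤ 1)
    (hc3 : 200 ≤ C4) (hc4 : 2 * (1 + C1) ^ 2 ≤ C4)
    (hE : Real.exp (C4 * l0 / 2) * 10 ^ q ≤ E * w) :
    C1 ^ l0 + C1 * (e * (1 + C1 * l0) * C1 ^ l0 + 10 ^ n + (1 + C1 * l0) ^ 2) ≤ C4 * (E * Y) ∧
    C1 * (C1 ^ l0 / F + 10 ^ n + (1 + C1 * l0) ^ 2 + e * (1 + C1 * l0) * C1 ^ l0) ≤ C4 * E := by
  have hC0 : 0 < C1 := by linarith
  have hC4 : 0 < C4 := by linarith
  obtain ⟨B, hB⟩ : ∃ B : ℝ, B = (1 + C1) ^ 2 := ⟨_, rfl⟩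
  obtain ⟨H, hH⟩ : ∃ H : ℝ, H = Real.exp (C4 / 2) := ⟨_, rfl⟩
  have hHH : C4 / 2 + 1 ≤ H := by rw [hH]; exact Real.add_one_le_exp _
  have hH100 : 100 ≤ H := by linarith
  have hBH : B ≤ H := by rw [hB]; linarith
  have hB1 : 1 ≤ B := by rw [hB]; nlinarith
  have hB0 : 0 ≤ B := by linarith
  have hHl : Real.exp (C4 * l0 / 2) = H ^ l0 := by
    rw [hH, ← Real.exp_nat_mul]
    congr 1
    ring
  rw [hHl] at hE
  have hBl0 : 0 ≤ B ^ l0 := by positivity
  have hBl1 : 1 ≤ B ^ l0 := one_le_pow₀ hB1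
  have h1 : 1 + C1 * l0 ≤ (1 + C1) ^ l0 := by
    have := one_add_mul_le_pow (a := C1) (by linarith) l0
    linarith
  have h10 : 0 ≤ 1 + C1 * (l0 : ℝ) := by positivity
  have h2 : (1 + C1 * l0) ^ 2 ≤ B ^ l0 := by
    calc (1 + C1 * l0) ^ 2 ≤ ((1 + C1) ^ l0) ^ 2 := pow_le_pow_left₀ h10 h1 2
      _ = B ^ l0 := by rw [hB, ← pow_mul, ← pow_mul, mul_comm]
  have h3 : C1 ^ l0 ≤ B ^ l0 := pow_le_pow_left₀ hC0.le (by rw [hB]; nlinarith) l0
  have h4 : (1 + C1 * l0) * C1 ^ l0 ≤ B ^ l0 := by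
    calc (1 + C1 * l0) * C1 ^ l0 ≤ (1 + C1) ^ l0 * (1 + C1) ^ l0 :=
          mul_le_mul h1 (pow_le_pow_left₀ hC0.le (by linarith) l0) (by positivity) (by positivity)
      _ = B ^ l0 := by rw [hB, ← mul_pow]; congr 1; ring
  have h5 : e * (1 + C1 * l0) * C1 ^ l0 ≤ B ^ l0 := by
    calc e * (1 + C1 * l0) * C1 ^ l0 = e * ((1 + C1 * l0) * C1 ^ l0) := by ring
      _ ≤ 1 * ((1 + C1 * l0) * C1 ^ l0) := mul_le_mul_of_nonneg_right he1 (by positivity)
      _ ≤ B ^ l0 := by rw [one_mul]; exact h4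
  have h6 : C1 ^ l0 / F ≤ B ^ l0 := (div_le_self (by positivity) hF).trans h3
  -- the main term
  have hEw : 8 * C1 * 10 ^ n1 * (H ^ l0 * 10 ^ q) ≤ C4 * E := by
    have h7 : 8 * C1 * 10 ^ n1 * (H ^ l0 * 10 ^ q) ≤ 8 * C1 * 10 ^ n1 * (E * w) := by gcongr
    have hE0 : 0 < E * w := lt_of_lt_of_le (by positivity) hE
    have hE00 : 0 < E := pos_of_mul_pos_left hE0 hw.le
    calc 8 * C1 * 10 ^ n1 * (H ^ l0 * 10 ^ q) ≤ 8 * C1 * 10 ^ n1 * (E * w) := h7
      _ = (8 * C1 * 10 ^ n1 * w) * E := by ring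
      _ ≤ C4 * E := mul_le_mul_of_nonneg_right hc1 hE00.le
  have hE00 : 0 < C4 * E := lt_of_lt_of_le (by positivity) hEw
  have hq1 : (1 : ℝ) ≤ 10 ^ q := one_le_pow₀ (by norm_num)
  have hn1 : (1 : ℝ) ≤ 10 ^ n1 := one_le_pow₀ (by norm_num)
  have hBH' : B ^ l0 ≤ H ^ l0 := pow_le_pow_left₀ hB0 hBH l0
  have h8 : C1 * B ^ l0 ≤ C1 * 10 ^ n1 * (H ^ l0 * 10 ^ q) := by
    calc C1 * B ^ l0 ≤ C1 * H ^ l0 := mul_le_mul_of_nonneg_left hBH' hC0.le
      _ = C1 * 1 * (H ^ l0 * 1) := by ring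
      _ ≤ C1 * 10 ^ n1 * (H ^ l0 * 10 ^ q) := by gcongr
  have h9 : C1 * 10 ^ n ≤ C1 * 10 ^ n1 * (H ^ l0 * 10 ^ q) := by
    calc C1 * 10 ^ n ≤ C1 * 10 ^ (2 * l0 + n1 + q) := by
          refine mul_le_mul_of_nonneg_left ?_ hC0.le
          exact pow_le_pow_right₀ (by norm_num) hn
      _ = C1 * 10 ^ n1 * (100 ^ l0 * 10 ^ q) := by
          rw [pow_add, pow_add, pow_mul]; norm_num; ring
      _ ≤ C1 * 10 ^ n1 * (H ^ l0 * 10 ^ q) := by gcongr
  constructor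
  · calc C1 ^ l0 + C1 * (e * (1 + C1 * l0) * C1 ^ l0 + 10 ^ n + (1 + C1 * l0) ^ 2)
        ≤ C1 * B ^ l0 + (C1 * B ^ l0 + C1 * 10 ^ n + C1 * B ^ l0) := by
          have h11 : C1 ^ l0 ≤ C1 * B ^ l0 := by nlinarith
          have h12 : C1 * (e * (1 + C1 * l0) * C1 ^ l0) ≤ C1 * B ^ l0 :=
            mul_le_mul_of_nonneg_left h5 hC0.le
          have h13 : C1 * (1 + C1 * l0) ^ 2 ≤ C1 * B ^ l0 := mul_le_mul_of_nonneg_left h2 hC0.le
          have h14 : C1 * (e * (1 + C1 * l0) * C1 ^ l0 + 10 ^ n + (1 + C1 * l0) ^ 2) =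
            C1 * (e * (1 + C1 * l0) * C1 ^ l0) + C1 * 10 ^ n + C1 * (1 + C1 * l0) ^ 2 := by ring
          rw [h14]
          linarith
      _ ≤ C4 * E * 1 := by
          have h15 : 0 ≤ C1 * 10 ^ n1 * (H ^ l0 * 10 ^ q) := by positivity
          linarith
      _ ≤ C4 * E * Y := mul_le_mul_of_nonneg_left hY hE00.le
      _ = _ := by ring
  · calc C1 * (C1 ^ l0 / F + 10 ^ n + (1 + C1 * l0) ^ 2 + e * (1 + C1 * l0) * C1 ^ l0)
        = C1 * (C1 ^ l0 / F) + C1 * 10 ^ n + C1 * (1 + C1 * l0) ^ 2 +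
          C1 * (e * (1 + C1 * l0) * C1 ^ l0) := by ring
      _ ≤ C1 * B ^ l0 + C1 * 10 ^ n + C1 * B ^ l0 + C1 * B ^ l0 := by
          have h12 := mul_le_mul_of_nonneg_left h5 hC0.le
          have h13 := mul_le_mul_of_nonneg_left h2 hC0.le
          have h14 := mul_le_mul_of_nonneg_left h6 hC0.le
          linarith
      _ ≤ C4 * E := by
          have h15 : 0 ≤ C1 * 10 ^ n1 * (H ^ l0 * 10 ^ q) := by positivity
          linarith



theorem chain (C1 e0 : ℝ) (n0 : ℕ) (hC1 : 1 ≤ C1) (he0 : 0 < e0) (he1 : e0 ≤ 1) (hn0 : 6 ≤ n0) :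
    ∃ (K l1 : ℕ) (C4 : ℝ), 3 ≤ K ∧ 1 ≤ C4 ∧
    ∀ (g : ℕ → Prop) (P : ℕ → ℝ → ℝ → ℝ → ℝ → Prop) (l0 kmax : ℕ), l1 ≤ l0 → g l0 →
      (∀ (k : ℕ) (L e S O L' e' S' O' : ℝ), L ≤ L' → e ≤ e' → S ≤ S' → O ≤ O' →
        P k L e S O → P k L' e' S' O') →
      (∀ (l n : ℕ) (L e S O : ℝ), n0 ≤ n → l0 ≤ l → l - 1 + n ≤ kmax → g l → g (l - 1 + n) →
        0 ≤ L → 0 ≤ e → 0 ≤ S → 0 ≤ O → e ≤ e0 → P l L e S O →
        P (l - 1 + n) (C1 + C1 * L / (Nat.fib (n - 1) : ℝ)) (C1 * e / (Nat.fib (n - 1) : ℝ))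
          (S + C1 * (e * (1 + L) * S + 10 ^ n + (1 + L) ^ 2))
          (C1 * (O / (Nat.fib (n - 1) : ℝ) + 10 ^ n + (1 + L) ^ 2 + e * (1 + L) * S))) →
      P l0 (C1 * l0) e0 (C1 ^ l0) (C1 ^ l0) →
      ∀ r : ℕ, g (K * l0 + r) → K * l0 + r ≤ kmax →
        P (K * l0 + r) (2 * C1) (Real.exp (-(2 / 5) * (((K * l0 + r : ℕ) : ℝ) - l0)))
          (C4 * Real.exp (debtS g (K * l0) (2 * Real.log 10) (1 / 10) (C4 * l0) r
            + 3 / 10 * (((K * l0 + r : ℕ) : ℝ) - l0)))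
          (C4 * Real.exp (debtS g (K * l0) (2 * Real.log 10) (1 / 10) (C4 * l0) r)) := by
  have hC0 : 0 < C1 := by linarith
  obtain ⟨N, hN⟩ := ch63_growth (4 * C1)
  obtain ⟨N2, hN2⟩ : ∃ N2 : ℕ, 2 * (1 + C1 * (1 + 2 * C1)) * 5 ≤ (N2 : ℝ) := exists_nat_ge _
  obtain ⟨n1, hn1⟩ : ∃ n1 : ℕ, n1 = N + N2 + n0 + 2 := ⟨_, rfl⟩
  obtain ⟨w, hw⟩ : ∃ w : ℝ, w = Real.exp (1 / 10 * ((n1 : ℝ) - 1)) := ⟨_, rfl⟩
  obtain ⟨C4, hC4⟩ : ∃ C4 : ℝ, C4 = 8 * C1 * 10 ^ n1 * w + 4 * (C1 * (1 + 2 * C1) ^ 2) + 200 +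
    2 * (1 + C1) ^ 2 := ⟨_, rfl⟩
  obtain ⟨l1, hl1⟩ : ∃ l1 : ℕ, n1 + 5 * (4 * (C1 * (1 + 2 * C1)) * w) + 5 / 4 * (1 / e0) + 1 ≤
    (l1 : ℝ) := exists_nat_ge _
  have hw0 : 0 < w := by rw [hw]; exact Real.exp_pos _
  have hp1 : 0 < 8 * C1 * 10 ^ n1 * w := by positivity
  have hp2 : 0 < 4 * (C1 * (1 + 2 * C1) ^ 2) := by positivity
  have hp3 : 0 < 2 * (1 + C1) ^ 2 := by positivity
  have hC4a : 8 * C1 * 10 ^ n1 * w ≤ C4 := by rw [hC4]; linarith
  have hC4b : 4 * (C1 * (1 + 2 * C1) ^ 2) ≤ C4 := by rw [hC4]; linarith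
  have hC4c : 200 ≤ C4 := by rw [hC4]; linarith
  have hC4d : 2 * (1 + C1) ^ 2 ≤ C4 := by rw [hC4]; linarith
  have hC4e : 4 * C1 * 10 ^ n1 * w ≤ C4 := by linarith
  have hC40 : 0 < C4 := by linarith
  have hn1R : (1 : ℝ) ≤ n1 := by exact_mod_cast (by omega : 1 ≤ n1)
  have hw1 : 1 ≤ w := by
    rw [hw]; exact Real.one_le_exp (by nlinarith)
  refine ⟨3, l1, C4, le_rfl, by linarith, ?_⟩
  intro g P l0 kmax hl0 hgl0 hmono hstep hP0 r
  have hl0R : (l1 : ℝ) ≤ l0 := by exact_mod_cast hl0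
  have he0i : 0 < 1 / e0 := by positivity
  have hq0 : 0 ≤ 4 * (C1 * (1 + 2 * C1)) * w := by positivity
  have hl0n : (n1 : ℝ) + 1 ≤ l0 := by linarith
  have hl0n' : n1 + 1 ≤ l0 := by exact_mod_cast hl0n
  have hl0p : (0 : ℝ) < l0 := by linarith
  -- facts from the growth
  have hfib : ∀ m : ℕ, N ≤ m → 4 * C1 * Real.exp (2 / 5 * m) ≤ (Nat.fib m : ℝ) := hN
  have hlog : 0 < Real.log 10 := Real.log_pos (by norm_num)
  have hB0 : 0 ≤ C4 * (l0 : ℝ) := by positivity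
  have hA0 : (0 : ℝ) ≤ 2 * Real.log 10 := by positivity
  have hc0 : (0 : ℝ) ≤ 1 / 10 := by norm_num
  have hDnn : ∀ r, 0 ≤ debtS g (3 * l0) (2 * Real.log 10) (1 / 10) (C4 * l0) r :=
    fun r => ch63_nonneg hB0 r
  have hexp10 : ∀ q : ℕ, Real.exp ((q : ℝ) * Real.log 10) = 10 ^ q := by
    intro q
    rw [Real.exp_nat_mul, Real.exp_log (by norm_num)]
  induction r using Nat.strong_induction_on with
  | _ r ih =>
  intro hg hk
  obtain ⟨D, hD⟩ : ∃ D, D = debtS g (3 * l0) (2 * Real.log 10) (1 / 10) (C4 * l0) r := ⟨_, rfl⟩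
  rw [← hD]
  have hD0 : 0 ≤ D := by rw [hD]; exact hDnn r
  have hE1 : 1 ≤ Real.exp D := Real.one_le_exp hD0
  have hkl : (((3 * l0 + r : ℕ) : ℝ) - l0) = 2 * l0 + r := by push_cast; ring
  rw [hkl]
  by_cases hcase : ∃ q, q + n1 ≤ r + 1 ∧ g (3 * l0 + q)
  · -- case 1
    obtain ⟨q₀, hq₀, hgq₀⟩ := hcase
    obtain ⟨ρ, hρ⟩ : ∃ ρ, ρ = Nat.findGreatest (fun q => g (3 * l0 + q)) (r + 1 - n1) := ⟨_, rfl⟩
    have hρle : ρ ≤ r + 1 - n1 := by rw [hρ]; exact Nat.findGreatest_le _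
    have hρg : g (3 * l0 + ρ) := by
      rw [hρ]
      exact Nat.findGreatest_spec (P := fun q => g (3 * l0 + q)) (m := q₀) (by omega) hgq₀
    have hρm : ∀ i, ρ < i → i ≤ r + 1 - n1 → ¬ g (3 * l0 + i) := by
      intro i hi hi'
      rw [hρ] at hi
      exact Nat.findGreatest_is_greatest (P := fun q => g (3 * l0 + q)) hi hi'
    obtain ⟨q, hq⟩ : ∃ q, r + 1 - n1 = ρ + q := ⟨r + 1 - n1 - ρ, by omega⟩
    have hr : r = (ρ + q) + (n1 - 1) := by omega
    have hρr : ρ < r := by omega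
    have hPρ := ih ρ hρr hρg (by omega)
    obtain ⟨Dl, hDl⟩ : ∃ Dl, Dl = debtS g (3 * l0) (2 * Real.log 10) (1 / 10) (C4 * l0) ρ :=
      ⟨_, rfl⟩
    rw [← hDl] at hPρ
    have hkl' : (((3 * l0 + ρ : ℕ) : ℝ) - l0) = 2 * l0 + ρ := by push_cast; ring
    rw [hkl'] at hPρ
    -- debts
    have hd1 := ch63_up (g := g) (ks := 3 * l0) (A := 2 * Real.log 10) (c := 1 / 10)
      (B0 := C4 * l0) ρ q (fun i hi hi' => hρm i hi (by omega))
    have hd2 := ch63_steps (g := g) (ks := 3 * l0) (A := 2 * Real.log 10) (c := 1 / 10)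
      (B0 := C4 * l0) hc0 (ρ + q) (n1 - 1)
    have hd3 := ch63_run (g := g) (ks := 3 * l0) (A := 2 * Real.log 10) (c := 1 / 10)
      (B0 := C4 * l0) hA0 hB0 ρ q (fun i hi hi' => hρm i hi (by omega))
    rw [← hr, ← hD] at hd2
    rw [← hDl] at hd1
    have hn1c : ((n1 - 1 : ℕ) : ℝ) = (n1 : ℝ) - 1 := by
      rw [Nat.cast_sub (by omega)]; norm_num
    rw [hn1c] at hd2
    have hDl1 : Dl ≤ D + 1 / 10 * ((n1 : ℝ) - 1) := by linarith [hd1.1]
    have hDl2 : 2 * Real.log 10 * q ≤ D + 1 / 10 * ((n1 : ℝ) - 1) := by linarith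
    have hEw : Real.exp Dl ≤ Real.exp D * w := by
      rw [hw, ← Real.exp_add]
      exact Real.exp_le_exp.2 hDl1
    have hE2 : (100 : ℝ) ^ q ≤ Real.exp D * w := by
      have h1 : (100 : ℝ) ^ q = Real.exp (2 * Real.log 10 * q) := by
        have h2 : 2 * Real.log 10 * q = (q : ℝ) * Real.log 10 + (q : ℝ) * Real.log 10 := by ring
        rw [h2, Real.exp_add, hexp10, ← mul_pow]
        norm_num
      rw [h1, hw, ← Real.exp_add]
      exact Real.exp_le_exp.2 hDl2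
    -- the word
    have hnl : 3 * l0 + ρ - 1 + (n1 + q) = 3 * l0 + r := by omega
    have hF1 := hfib (n1 + q - 1) (by omega)
    have hncast : ((n1 + q - 1 : ℕ) : ℝ) = (n1 : ℝ) - 1 + q := by
      rw [Nat.cast_sub (by omega)]; push_cast; ring
    rw [hncast] at hF1
    have hrcast : (r : ℝ) = ρ + q + ((n1 : ℝ) - 1) := by
      have : (r : ℝ) = ((ρ + q + (n1 - 1) : ℕ) : ℝ) := by rw [← hr]
      rw [this]; push_cast; rw [hn1c]
    have hρ0 : (0 : ℝ) ≤ ρ := by positivity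
    have hq0' : (0 : ℝ) ≤ q := by positivity
    have hFw : 4 * C1 * w ≤ (Nat.fib (n1 + q - 1) : ℝ) := by
      refine le_trans ?_ hF1
      refine mul_le_mul_of_nonneg_left ?_ (by positivity)
      rw [hw]
      refine Real.exp_le_exp.2 ?_
      linarith
    have hFpos : (0 : ℝ) < (Nat.fib (n1 + q - 1) : ℝ) := lt_of_lt_of_le (by positivity) hFw
    have hS := hstep (3 * l0 + ρ) (n1 + q) (2 * C1) (Real.exp (-(2 / 5) * (2 * l0 + ρ)))
      (C4 * Real.exp (Dl + 3 / 10 * (2 * l0 + ρ))) (C4 * Real.exp Dl) (by omega) (by omega)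
      (by rw [hnl]; exact hk) hρg (by rw [hnl]; exact hg) (by positivity) (Real.exp_pos _).le
      (by positivity) (by positivity) (by
        -- `e ≤ e0`
        have h1 : 1 / e0 ≤ Real.exp (2 / 5 * (2 * l0 + ρ)) := by
          have h2 := Real.add_one_le_exp (2 / 5 * (2 * (l0 : ℝ) + ρ))
          have h3 : 5 / 4 * (1 / e0) ≤ l0 := by linarith
          linarith
        rw [show -(2 / 5) * (2 * (l0 : ℝ) + ρ) = -(2 / 5 * (2 * l0 + ρ)) by ring, Real.exp_neg]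
        rw [inv_le_comm₀ (Real.exp_pos _) he0, ← one_div]
        exact h1) hPρ
    rw [hnl] at hS
    have hcase1 := ch63_case1 (C1 := C1) (C4 := C4) (E := Real.exp D) (w := w)
      (x := 2 * l0 + ρ) (y := 2 * l0 + r) (F := (Nat.fib (n1 + q - 1) : ℝ)) (L := 2 * C1)
      (e := Real.exp (-(2 / 5) * (2 * l0 + ρ))) (S := C4 * Real.exp (Dl + 3 / 10 * (2 * l0 + ρ)))
      (O := C4 * Real.exp Dl) (n := n1 + q) (n1 := n1) (q := q) hC1 rfl hE1 hw0 (by positivity)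
      hC4e hC4b hE2 hFw rfl rfl (by positivity) (mul_le_mul_of_nonneg_left hEw hC40.le)
      (by positivity) (by
        rw [Real.exp_add, ← mul_assoc]
        exact mul_le_mul_of_nonneg_right (mul_le_mul_of_nonneg_left hEw hC40.le)
          (Real.exp_pos _).le) (by
        have h2 := Real.add_one_le_exp (1 / 10 * (2 * (l0 : ℝ) + ρ))
        have h3 : 5 * (4 * (C1 * (1 + 2 * C1)) * w) ≤ l0 := by linarith
        linarith) (by
        have h4 : Real.exp (3 / 10 * (2 * (l0 : ℝ) + r)) = Real.exp (3 / 10 * (2 * l0 + ρ)) *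
            Real.exp (3 / 10 * (q + ((n1 : ℝ) - 1))) := by
          rw [← Real.exp_add, hrcast]
          congr 1
          ring
        have h5 : w * (2 * (1 + C1 * (1 + 2 * C1))) ≤ Real.exp (3 / 10 * (q + ((n1 : ℝ) - 1))) := by
          have h6 : Real.exp (3 / 10 * (q + ((n1 : ℝ) - 1))) =
              w * Real.exp (1 / 5 * ((n1 : ℝ) - 1) + 3 / 10 * q) := by
            rw [hw, ← Real.exp_add]
            congr 1
            ring
          rw [h6]
          refine mul_le_mul_of_nonneg_left ?_ hw0.le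
          have h7 := Real.add_one_le_exp (1 / 5 * ((n1 : ℝ) - 1) + 3 / 10 * q)
          have h8 : (N2 : ℝ) + 2 ≤ n1 := by exact_mod_cast (by omega : N2 + 2 ≤ n1)
          linarith
        rw [h4]
        calc w * Real.exp (3 / 10 * (2 * l0 + ρ)) * (2 * (1 + C1 * (1 + 2 * C1)))
            = Real.exp (3 / 10 * (2 * l0 + ρ)) * (w * (2 * (1 + C1 * (1 + 2 * C1)))) := by ring
          _ ≤ _ := mul_le_mul_of_nonneg_left h5 (Real.exp_pos _).le) (by positivity)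
    refine hmono _ _ _ _ _ _ _ _ _ ?_ ?_ ?_ ?_ hS
    · -- `L`
      have h1 : C1 * (2 * C1) / (Nat.fib (n1 + q - 1) : ℝ) ≤ C1 := by
        rw [div_le_iff₀ hFpos]
        refine mul_le_mul_of_nonneg_left ?_ hC0.le
        have : C1 * 1 ≤ C1 * w := mul_le_mul_of_nonneg_left hw1 hC0.le
        linarith
      linarith
    · -- `e`
      rw [div_le_iff₀ hFpos]
      have h1 : C1 * Real.exp (2 / 5 * ((n1 : ℝ) - 1 + q)) ≤ (Nat.fib (n1 + q - 1) : ℝ) := by
        refine le_trans ?_ hF1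
        have := Real.exp_pos (2 / 5 * ((n1 : ℝ) - 1 + q))
        nlinarith
      have h2 : Real.exp (-(2 / 5) * (2 * (l0 : ℝ) + ρ)) =
          Real.exp (-(2 / 5) * (2 * l0 + r)) * Real.exp (2 / 5 * ((n1 : ℝ) - 1 + q)) := by
        rw [← Real.exp_add, hrcast]
        congr 1
        ring
      rw [h2]
      calc C1 * (Real.exp (-(2 / 5) * (2 * l0 + r)) * Real.exp (2 / 5 * ((n1 : ℝ) - 1 + q)))
          = Real.exp (-(2 / 5) * (2 * l0 + r)) * (C1 * Real.exp (2 / 5 * ((n1 : ℝ) - 1 + q))) := by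
            ring
        _ ≤ _ := mul_le_mul_of_nonneg_left h1 (Real.exp_pos _).le
    · have h1 := hcase1.1
      rw [← Real.exp_add D] at h1
      exact h1
    · exact hcase1.2
  · -- case 2
    push Not at hcase
    have hnl : l0 - 1 + (2 * l0 + r + 1) = 3 * l0 + r := by omega
    have hgN : g (3 * l0 + r) := hg
    have hF1 := hfib (2 * l0 + r) (by omega)
    have hncast : ((2 * l0 + r : ℕ) : ℝ) = 2 * l0 + r := by push_cast; ring
    rw [hncast] at hF1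
    have hr0 : (0 : ℝ) ≤ r := by positivity
    have hFw : 4 * C1 * (1 + 2 / 5 * (2 * l0 + r)) ≤ (Nat.fib (2 * l0 + r) : ℝ) := by
      refine le_trans ?_ hF1
      refine mul_le_mul_of_nonneg_left ?_ (by positivity)
      linarith [Real.add_one_le_exp (2 / 5 * (2 * (l0 : ℝ) + r))]
    have hF2 : C1 * l0 ≤ (Nat.fib (2 * l0 + r) : ℝ) := by
      have h1 : C1 * l0 ≤ 4 * C1 * (1 + 2 / 5 * (2 * l0 + r)) := by
        have h2 : 0 ≤ C1 * (l0 : ℝ) := by positivity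
        have h3 : 0 ≤ C1 * (r : ℝ) := by positivity
        nlinarith
      linarith
    have hF3 : 1 ≤ (Nat.fib (2 * l0 + r) : ℝ) := by
      have h1 : 1 * 1 ≤ C1 * l0 := mul_le_mul hC1 (by linarith) zero_le_one hC0.le
      linarith
    have hFpos : (0 : ℝ) < (Nat.fib (2 * l0 + r) : ℝ) := by linarith
    have hS := hstep l0 (2 * l0 + r + 1) (C1 * l0) e0 (C1 ^ l0) (C1 ^ l0) (by omega) le_rfl
      (by rw [hnl]; exact hk) hgl0 (by rw [hnl]; exact hg) (by positivity) he0.le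
      (by positivity) (by positivity) le_rfl hP0
    rw [hnl] at hS
    have hsub : 2 * l0 + r + 1 - 1 = 2 * l0 + r := by omega
    rw [hsub] at hS
    -- lower bound of the debt
    have hlow : ∃ q : ℕ, r + 1 ≤ n1 + q ∧
        C4 * l0 / 2 + q * Real.log 10 ≤ D + 1 / 10 * ((n1 : ℝ) - 1) := by
      have hn1c : ((n1 - 1 : ℕ) : ℝ) = (n1 : ℝ) - 1 := by
        rw [Nat.cast_sub (by omega)]; norm_num
      rcases Nat.lt_or_ge (r + 1) n1 with h1 | h1
      · refine ⟨0, by omega, ?_⟩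
        have hd2 := ch63_steps (g := g) (ks := 3 * l0) (A := 2 * Real.log 10) (c := 1 / 10)
          (B0 := C4 * l0) hc0 0 r
        rw [zero_add, ← hD] at hd2
        have hd0 : debtS g (3 * l0) (2 * Real.log 10) (1 / 10) (C4 * l0) 0 = C4 * l0 := rfl
        rw [hd0] at hd2
        have h2 : (r : ℝ) ≤ (n1 : ℝ) - 1 := by
          rw [← hn1c]
          exact_mod_cast (by omega : r ≤ n1 - 1)
        have h3 : ((0 : ℕ) : ℝ) * Real.log 10 = 0 := by push_cast; ring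
        rw [h3]
        linarith
      · obtain ⟨q, hq⟩ : ∃ q, r + 1 = n1 + q := ⟨r + 1 - n1, by omega⟩
        refine ⟨q, hq.le, ?_⟩
        have hr' : r = 0 + q + (n1 - 1) := by omega
        have hno : ∀ i, 0 < i → i ≤ 0 + q → ¬ g (3 * l0 + i) := fun i _ hi =>
          hcase i (by omega)
        have hd1 := ch63_up (g := g) (ks := 3 * l0) (A := 2 * Real.log 10) (c := 1 / 10)
          (B0 := C4 * l0) 0 q hno
        have hd2 := ch63_steps (g := g) (ks := 3 * l0) (A := 2 * Real.log 10) (c := 1 / 10)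
          (B0 := C4 * l0) hc0 (0 + q) (n1 - 1)
        have hd3 := ch63_run (g := g) (ks := 3 * l0) (A := 2 * Real.log 10) (c := 1 / 10)
          (B0 := C4 * l0) hA0 hB0 0 q hno
        rw [← hr', ← hD, hn1c] at hd2
        have hd0 : debtS g (3 * l0) (2 * Real.log 10) (1 / 10) (C4 * l0) 0 = C4 * l0 := rfl
        have hd1' := hd1.1
        rw [hd0] at hd1'
        linarith
    obtain ⟨q, hqr, hDq⟩ := hlow
    have hE2 : Real.exp (C4 * l0 / 2) * 10 ^ q ≤ Real.exp D * w := by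
      rw [← hexp10, hw, ← Real.exp_add, ← Real.exp_add]
      exact Real.exp_le_exp.2 hDq
    have hcase2 := ch63_case2 (C1 := C1) (C4 := C4) (E := Real.exp D) (w := w)
      (Y := Real.exp (3 / 10 * (2 * l0 + r))) (F := (Nat.fib (2 * l0 + r) : ℝ)) (e := e0)
      (n := 2 * l0 + r + 1) (n1 := n1) (q := q) (l0 := l0) hC1 (by omega) hw0
      (Real.one_le_exp (by positivity)) hC4a hF3 he0.le he1 hC4c hC4d hE2
    refine hmono _ _ _ _ _ _ _ _ _ ?_ ?_ ?_ ?_ hS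
    · have h1 : C1 * (C1 * l0) / (Nat.fib (2 * l0 + r) : ℝ) ≤ C1 := by
        rw [div_le_iff₀ hFpos]
        exact mul_le_mul_of_nonneg_left hF2 hC0.le
      linarith
    · rw [div_le_iff₀ hFpos]
      have h1 : 4 * C1 * (Real.exp (2 / 5 * (2 * l0 + r)) * Real.exp (-(2 / 5) * (2 * l0 + r))) ≤
          (Nat.fib (2 * l0 + r) : ℝ) * Real.exp (-(2 / 5) * (2 * l0 + r)) := by
        rw [← mul_assoc]
        exact mul_le_mul_of_nonneg_right hF1 (Real.exp_pos _).le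
      rw [← Real.exp_add, show 2 / 5 * (2 * (l0 : ℝ) + r) + -(2 / 5) * (2 * l0 + r) = 0 by ring,
        Real.exp_zero, mul_one] at h1
      have h2 : C1 * e0 ≤ C1 * 1 := mul_le_mul_of_nonneg_left he1 hC0.le
      linarith
    · rw [Real.exp_add]
      exact hcase2.1
    · exact hcase2.2

end SF
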