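import Pool.Agent.Helper65.SF.WML

/-!
# SF-INT: a bounded holomorphic function which is small on the real points is small nearby

Proof in words (same machinery as `ml_lemma`).  For `h < 1/2` let `x j` (j = 0..n) be the equally spaced nodes in
`[-h,h]`, `l j` the Lagrange basis polynomials, `sum_j |l j z| <= (2e)^n` for complex `|z| <= h`.  For g holomorphic
on the unit disc, `|g| <= M`, Taylor coefficients `|a m| <= M`, so for `|z| <= h`
`|g z - L n g z| <= sum_{m>n} |a m| (h^m + (2e)^n h^m) <= 4 M h^(n+1) (2e)^n`, and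
`|L n g z| <= (2e)^n max_j |g (x j)| <= (2e)^n m`.  Choose n with `h^(n+1) <= m/M < h^n`: total
`<= 5 m (2e)^n <= 5 m (M/m)^(log(2e)/log(1/h))`.  In two variables use the tensor interpolation
(`V - L^x L^y V = (V - L^x V) + L^x (V - L^y V)`), exponent `2 log(2e)/log(1/h)`; choose h with this `<= del`.
-/

namespace SF

open Metric

theorem choose_h67 (del : ℝ) (h0 : 0 < del) (h1 : del < 1) :
    ∃ h : ℝ, 0 < h ∧ h < 1 / 4 ∧ 144 * (2 * h) ^ del ≤ 1 := by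
  refine ⟨(1 / 144 : ℝ) ^ (1 / del) / 2, by positivity, ?_, ?_⟩
  · have h2 : (1 / 144 : ℝ) ^ (1 / del) ≤ (1 / 144 : ℝ) ^ (1 : ℝ) := by
      apply Real.rpow_le_rpow_of_exponent_ge (by norm_num) (by norm_num)
      rw [le_div_iff₀ h0]
      linarith
    rw [Real.rpow_one] at h2
    linarith
  · have h2 : 2 * ((1 / 144 : ℝ) ^ (1 / del) / 2) = (1 / 144 : ℝ) ^ (1 / del) := by ring
    rw [h2, ← Real.rpow_mul (by norm_num), one_div_mul_cancel h0.ne', Real.rpow_one]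
    norm_num

theorem choose_n67 {q del C t : ℝ} (hq : 0 < q) (hq1 : q < 1) (hdel : 0 < del) (hC : 0 < C)
    (hCq : C * q ^ del ≤ 1) (ht : 0 < t) (ht1 : t ≤ 1) :
    ∃ n : ℕ, q ^ (n + 1) ≤ t ∧ C ^ n ≤ t ^ (-del) := by
  obtain ⟨n, hn1, hn2⟩ := exists_nat_pow_near_of_lt_one ht ht1 hq hq1
  refine ⟨n, hn1.le, ?_⟩
  have hqd : 0 < q ^ del := Real.rpow_pos_of_pos hq _
  have h1 : C ≤ q ^ (-del) := by
    rw [Real.rpow_neg hq.le, ← one_div, le_div_iff₀ hqd]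
    exact hCq
  have h2 : (q ^ (-del)) ^ n = (q ^ n) ^ (-del) := by
    rw [← Real.rpow_natCast (q ^ (-del)), ← Real.rpow_mul hq.le, ← Real.rpow_natCast q n,
      ← Real.rpow_mul hq.le, mul_comm]
  calc C ^ n ≤ (q ^ (-del)) ^ n := pow_le_pow_left₀ hC.le h1 n
    _ = (q ^ n) ^ (-del) := h2
    _ ≤ t ^ (-del) := Real.rpow_le_rpow_of_nonpos ht hn2 (by linarith)

theorem final67 {del M m : ℝ} (hm : 0 < m) (hM : 0 < M) :
    m * (m / M) ^ (-del) = M ^ del * m ^ (1 - del) := by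
  have h1 : 0 < m ^ del := Real.rpow_pos_of_pos hm _
  have h2 : 0 < M ^ del := Real.rpow_pos_of_pos hM _
  rw [Real.rpow_neg (by positivity), Real.div_rpow hm.le hM.le, Real.rpow_sub hm, Real.rpow_one]
  field_simp

/-! ### interpolation with a general radius -/

/-- scaled basis polynomial -/
noncomputable def ll67 (h : ℝ) (n j : ℕ) (z : ℂ) : ℂ := (lg97 n j).eval (((hh97 / h : ℝ) : ℂ) * z)

/-- scaled nodes -/
noncomputable def xx67 (h : ℝ) (n j : ℕ) : ℝ := h / hh97 * nd97 n j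

theorem ll_sum67 {h : ℝ} (hh : 0 < h) (n : ℕ) (z : ℂ) (hz : ‖z‖ ≤ h) :
    ∑ j ∈ Finset.range (n + 1), ‖ll67 h n j z‖ ≤ Lam97 n := by
  apply lg_sum97
  have h1 := hh_pos97
  rw [norm_mul, Complex.norm_real, Real.norm_eq_abs, abs_of_pos (by positivity)]
  calc hh97 / h * ‖z‖ ≤ hh97 / h * h := mul_le_mul_of_nonneg_left hz (by positivity)
    _ = hh97 := by field_simp

theorem xx_abs67 {h : ℝ} (hh : 0 < h) (n j : ℕ) (hj : j ∈ Finset.range (n + 1)) :
    |xx67 h n j| ≤ h := by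
  have h1 := hh_pos97
  unfold xx67
  rw [abs_of_nonneg (mul_nonneg (by positivity) (nd_nonneg97 n j))]
  calc h / hh97 * nd97 n j ≤ h / hh97 * hh97 :=
        mul_le_mul_of_nonneg_left (nd_le97 n j hj) (by positivity)
    _ = h := by field_simp

theorem ll_repr67 {h : ℝ} (hh : 0 < h) (n : ℕ) (p : Polynomial ℂ)
    (hp : p.degree < ((n + 1 : ℕ) : WithBot ℕ)) (z : ℂ) :
    p.eval z = ∑ j ∈ Finset.range (n + 1), ll67 h n j z * p.eval ((xx67 h n j : ℝ) : ℂ) := by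
  have h1 := hh_pos97
  have hne : ((h / hh97 : ℝ) : ℂ) ≠ 0 := by
    have : h / hh97 ≠ 0 := by positivity
    exact_mod_cast this
  have hdeg : (p.comp (Polynomial.C ((h / hh97 : ℝ) : ℂ) * Polynomial.X)).degree <
      ((n + 1 : ℕ) : WithBot ℕ) := by
    rw [← Polynomial.mem_degreeLT] at hp ⊢
    rw [Polynomial.mem_degreeLT] at hp ⊢
    by_cases hp0 : p = 0
    · subst hp0
      simp
    · refine lt_of_le_of_lt Polynomial.degree_le_natDegree ?_
      rw [Polynomial.natDegree_comp, Polynomial.natDegree_C_mul_X _ hne, mul_one]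
      rwa [Polynomial.degree_eq_natDegree hp0] at hp
  have h2 := lg_repr97 n _ hdeg (((hh97 / h : ℝ) : ℂ) * z)
  have e1 : Polynomial.eval (((hh97 / h : ℝ) : ℂ) * z)
      (p.comp (Polynomial.C ((h / hh97 : ℝ) : ℂ) * Polynomial.X)) = p.eval z := by
    rw [Polynomial.eval_comp]
    congr 1
    rw [Polynomial.eval_mul, Polynomial.eval_C, Polynomial.eval_X, ← mul_assoc,
      ← Complex.ofReal_mul]
    have : h / hh97 * (hh97 / h) = 1 := by field_simp
    rw [this, Complex.ofReal_one, one_mul]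
  rw [e1] at h2
  rw [h2]
  refine Finset.sum_congr rfl fun j _ => ?_
  unfold ll67
  congr 1
  rw [Polynomial.eval_comp]
  congr 1
  rw [Polynomial.eval_mul, Polynomial.eval_C, Polynomial.eval_X]
  unfold xx67
  push_cast
  ring

theorem taylor67 {h : ℝ} (hh : 0 < h) (hh1 : h < 1 / 4) (g : ℂ → ℂ) (M : ℝ)
    (hd : DifferentiableOn ℂ g (ball 0 1))
    (hb : ∀ z ∈ ball (0 : ℂ) 1, ‖g z‖ ≤ M) (n : ℕ) :
    ∃ p : Polynomial ℂ, p.degree < ((n + 1 : ℕ) : WithBot ℕ) ∧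
      ∀ z : ℂ, ‖z‖ ≤ h → ‖g z - p.eval z‖ ≤ 2 * M * (2 * h) ^ (n + 1) := by
  have hM : 0 ≤ M := (norm_nonneg _).trans (hb 0 (by simp))
  set a : ℕ → ℂ := fun m => ((m.factorial : ℂ))⁻¹ * iteratedDeriv m g 0 with ha
  have hanorm : ∀ m, ‖a m‖ ≤ M * 2 ^ m := by
    intro m
    have hsub : closedBall (0 : ℂ) (1 / 2) ⊆ ball 0 1 := closedBall_subset_ball (by norm_num)
    have h1 : DiffContOnCl ℂ g (ball (0 : ℂ) (1 / 2)) := by
      apply DifferentiableOn.diffContOnCl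
      rw [closure_ball (0 : ℂ) (by norm_num)]
      exact hd.mono hsub
    have h2 := Complex.norm_iteratedDeriv_le_of_forall_mem_sphere_norm_le m
      (by norm_num : (0 : ℝ) < 1 / 2) h1 (C := M)
      (fun z hz => hb z (hsub (sphere_subset_closedBall hz)))
    have h3 : (m.factorial : ℝ) ≠ 0 := by positivity
    calc ‖a m‖ = (m.factorial : ℝ)⁻¹ * ‖iteratedDeriv m g 0‖ := by
          rw [ha]; simp only [norm_mul, norm_inv, Complex.norm_natCast]
      _ ≤ (m.factorial : ℝ)⁻¹ * ((m.factorial : ℝ) * M / (1 / 2) ^ m) :=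
          mul_le_mul_of_nonneg_left h2 (by positivity)
      _ = M * 2 ^ m := by
          rw [one_div, inv_pow]
          field_simp
  refine ⟨∑ m ∈ Finset.range (n + 1), Polynomial.C (a m) * Polynomial.X ^ m, ?_, ?_⟩
  · rw [← Polynomial.mem_degreeLT]
    apply Submodule.sum_mem
    intro m hm
    rw [Polynomial.mem_degreeLT]
    refine (Polynomial.degree_C_mul_X_pow_le m (a m)).trans_lt ?_
    exact_mod_cast Finset.mem_range.mp hm
  · intro z hz
    have hz1 : z ∈ ball (0 : ℂ) 1 := by rw [mem_ball_zero_iff]; linarith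
    have h1 : HasSum (fun m : ℕ => a m * z ^ m) (g z) := by
      have h := Complex.hasSum_taylorSeries_on_ball hd hz1
      refine h.congr_fun ?_ |> fun h => h
      intro m
      simp only [ha, sub_zero, smul_eq_mul]
      ring
    have h2 := (hasSum_nat_add_iff' (n + 1)).mpr h1
    have h3 : Polynomial.eval z (∑ m ∈ Finset.range (n + 1), Polynomial.C (a m) * Polynomial.X ^ m)
        = ∑ m ∈ Finset.range (n + 1), a m * z ^ m := by
      rw [Polynomial.eval_finsetSum]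
      apply Finset.sum_congr rfl
      intro m _
      simp
    rw [h3, ← h2.tsum_eq]
    have h4 : HasSum (fun m : ℕ => M * (2 * h) ^ (n + 1) * (2 * h) ^ m)
        (M * (2 * h) ^ (n + 1) * (1 - 2 * h)⁻¹) :=
      (hasSum_geometric_of_lt_one (by positivity) (by linarith)).mul_left _
    refine (tsum_of_norm_bounded h4 ?_).trans ?_
    · intro m
      rw [norm_mul, norm_pow]
      calc ‖a (m + (n + 1))‖ * ‖z‖ ^ (m + (n + 1))
          ≤ (M * 2 ^ (m + (n + 1))) * h ^ (m + (n + 1)) :=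
            mul_le_mul (hanorm _) (pow_le_pow_left₀ (norm_nonneg _) hz _) (by positivity)
              (by positivity)
        _ = M * (2 * h) ^ (n + 1) * (2 * h) ^ m := by
            rw [pow_add, pow_add, mul_pow, mul_pow]; ring
    · have h5 : (1 - 2 * h)⁻¹ ≤ 2 := by
        rw [inv_le_comm₀ (by linarith) (by norm_num)]
        linarith
      calc M * (2 * h) ^ (n + 1) * (1 - 2 * h)⁻¹ ≤ M * (2 * h) ^ (n + 1) * 2 :=
            mul_le_mul_of_nonneg_left h5 (by positivity)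
        _ = 2 * M * (2 * h) ^ (n + 1) := by ring

/-- the interpolation error -/
theorem interp67 {h : ℝ} (hh : 0 < h) (hh1 : h < 1 / 4) (g : ℂ → ℂ) (M : ℝ)
    (hd : DifferentiableOn ℂ g (ball 0 1))
    (hb : ∀ z ∈ ball (0 : ℂ) 1, ‖g z‖ ≤ M) (n : ℕ) (z : ℂ) (hz : ‖z‖ ≤ h) :
    ‖g z - ∑ j ∈ Finset.range (n + 1), ll67 h n j z * g ((xx67 h n j : ℝ) : ℂ)‖
      ≤ 2 * M * (2 * h) ^ (n + 1) * (1 + Lam97 n) := by
  obtain ⟨p, hp, hpb⟩ := taylor67 hh hh1 g M hd hb n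
  have hM : 0 ≤ M := (norm_nonneg _).trans (hb 0 (by simp))
  set E := 2 * M * (2 * h) ^ (n + 1) with hE
  have hE0 : 0 ≤ E := by positivity
  have e : g z - ∑ j ∈ Finset.range (n + 1), ll67 h n j z * g ((xx67 h n j : ℝ) : ℂ)
      = (g z - p.eval z) - ∑ j ∈ Finset.range (n + 1), ll67 h n j z
        * (g ((xx67 h n j : ℝ) : ℂ) - p.eval ((xx67 h n j : ℝ) : ℂ)) := by
    have h1 := ll_repr67 hh n p hp z
    simp only [mul_sub, Finset.sum_sub_distrib]
    rw [← h1]; ring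
  rw [e]
  calc ‖(g z - p.eval z) - ∑ j ∈ Finset.range (n + 1), ll67 h n j z
        * (g ((xx67 h n j : ℝ) : ℂ) - p.eval ((xx67 h n j : ℝ) : ℂ))‖
      ≤ ‖g z - p.eval z‖ + ‖∑ j ∈ Finset.range (n + 1), ll67 h n j z
        * (g ((xx67 h n j : ℝ) : ℂ) - p.eval ((xx67 h n j : ℝ) : ℂ))‖ := norm_sub_le _ _
    _ ≤ E + ∑ j ∈ Finset.range (n + 1), ‖ll67 h n j z‖ * E := by
        apply add_le_add (hpb z hz)
        refine (norm_sum_le _ _).trans (Finset.sum_le_sum (fun j hj => ?_))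
        rw [norm_mul]
        refine mul_le_mul_of_nonneg_left (hpb _ ?_) (norm_nonneg _)
        rw [Complex.norm_real]
        exact xx_abs67 hh n j hj
    _ = E * (1 + ∑ j ∈ Finset.range (n + 1), ‖ll67 h n j z‖) := by
        rw [← Finset.sum_mul]; ring
    _ ≤ E * (1 + Lam97 n) := mul_le_mul_of_nonneg_left (by linarith [ll_sum67 hh n z hz]) hE0

/-- bound from the nodes -/
theorem val67 {h : ℝ} (hh : 0 < h) (hh1 : h < 1 / 4) (g : ℂ → ℂ) (M B : ℝ)
    (hd : DifferentiableOn ℂ g (ball 0 1))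
    (hb : ∀ z ∈ ball (0 : ℂ) 1, ‖g z‖ ≤ M) (n : ℕ)
    (hB : ∀ j ∈ Finset.range (n + 1), ‖g ((xx67 h n j : ℝ) : ℂ)‖ ≤ B) (z : ℂ) (hz : ‖z‖ ≤ h) :
    ‖g z‖ ≤ 2 * M * (2 * h) ^ (n + 1) * (1 + Lam97 n) + Lam97 n * B := by
  have hB0 : 0 ≤ B := (norm_nonneg _).trans (hB 0 (by simp))
  have h1 := interp67 hh hh1 g M hd hb n z hz
  have h2 : ‖∑ j ∈ Finset.range (n + 1), ll67 h n j z * g ((xx67 h n j : ℝ) : ℂ)‖ ≤
      Lam97 n * B := by
    calc ‖∑ j ∈ Finset.range (n + 1), ll67 h n j z * g ((xx67 h n j : ℝ) : ℂ)‖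
        ≤ ∑ j ∈ Finset.range (n + 1), ‖ll67 h n j z‖ * B := by
          refine (norm_sum_le _ _).trans (Finset.sum_le_sum (fun j hj => ?_))
          rw [norm_mul]
          exact mul_le_mul_of_nonneg_left (hB j hj) (norm_nonneg _)
      _ = (∑ j ∈ Finset.range (n + 1), ‖ll67 h n j z‖) * B := by rw [Finset.sum_mul]
      _ ≤ Lam97 n * B := mul_le_mul_of_nonneg_right (ll_sum67 hh n z hz) hB0
  have h3 : g z = (g z - ∑ j ∈ Finset.range (n + 1), ll67 h n j z * g ((xx67 h n j : ℝ) : ℂ)) +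
      ∑ j ∈ Finset.range (n + 1), ll67 h n j z * g ((xx67 h n j : ℝ) : ℂ) := by ring
  rw [h3]
  exact (norm_add_le _ _).trans (add_le_add h1 h2)

theorem Lam_le67 (n : ℕ) : 1 + Lam97 n ≤ 4 * 12 ^ n := by
  unfold Lam97
  have : (1 : ℝ) ≤ 12 ^ n := one_le_pow₀ (by norm_num)
  linarith

/-- one variable, unit disc -/
theorem one67 {h del : ℝ} (hh : 0 < h) (hh1 : h < 1 / 4) (hdel : 0 < del)
    (hC : 144 * (2 * h) ^ del ≤ 1) (g : ℂ → ℂ) (M m : ℝ) (hm : 0 < m) (hmM : m ≤ M)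
    (hd : DifferentiableOn ℂ g (ball 0 1)) (hb : ∀ z ∈ ball (0 : ℂ) 1, ‖g z‖ ≤ M)
    (hr : ∀ x : ℝ, |x| < 1 → ‖g x‖ ≤ m) (z : ℂ) (hz : ‖z‖ ≤ h) :
    ‖g z‖ ≤ 41 * M ^ del * m ^ (1 - del) := by
  have hM : 0 < M := hm.trans_le hmM
  obtain ⟨n, hn1, hn2⟩ := choose_n67 (q := 2 * h) (C := 144) (t := m / M) (by positivity)
    (by linarith) hdel (by norm_num) hC (by positivity) ((div_le_one hM).2 hmM)
  have h1 := val67 hh hh1 g M m hd hb n (fun j hj => hr _ ((xx_abs67 hh n j hj).trans_lt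
    (by linarith))) z hz
  have h2 : M * (2 * h) ^ (n + 1) ≤ m := by
    rw [le_div_iff₀ hM] at hn1
    linarith
  have hL := Lam_le67 n
  have hL0 := Lam_pos97 n
  have h3 : (12 : ℝ) ^ n ≤ 144 ^ n := pow_le_pow_left₀ (by norm_num) (by norm_num) n
  have h12 : (0 : ℝ) < 12 ^ n := by positivity
  calc ‖g z‖ ≤ 2 * M * (2 * h) ^ (n + 1) * (1 + Lam97 n) + Lam97 n * m := h1
    _ = 2 * (M * (2 * h) ^ (n + 1)) * (1 + Lam97 n) + Lam97 n * m := by ring
    _ ≤ 2 * m * (1 + Lam97 n) + (1 + Lam97 n) * m := by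
        refine add_le_add (mul_le_mul_of_nonneg_right (by linarith) (by linarith)) ?_
        exact mul_le_mul_of_nonneg_right (by linarith) hm.le
    _ = 3 * m * (1 + Lam97 n) := by ring
    _ ≤ 3 * m * (4 * 12 ^ n) := mul_le_mul_of_nonneg_left hL (by positivity)
    _ ≤ 41 * (m * 144 ^ n) := by nlinarith [mul_pos hm h12, mul_le_mul_of_nonneg_left h3 hm.le]
    _ ≤ 41 * (m * (m / M) ^ (-del)) :=
        mul_le_mul_of_nonneg_left (mul_le_mul_of_nonneg_left hn2 hm.le) (by norm_num)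
    _ = 41 * M ^ del * m ^ (1 - del) := by rw [final67 hm hM]; ring

/-- two variables, unit discs -/
theorem two67 {h del : ℝ} (hh : 0 < h) (hh1 : h < 1 / 4) (hdel : 0 < del)
    (hC : 144 * (2 * h) ^ del ≤ 1) (V : ℂ → ℂ → ℂ) (M m : ℝ) (hm : 0 < m) (hmM : m ≤ M)
    (hd1 : ∀ b ∈ ball (0 : ℂ) 1, DifferentiableOn ℂ (fun a => V a b) (ball 0 1))
    (hd2 : ∀ a ∈ ball (0 : ℂ) 1, DifferentiableOn ℂ (fun b => V a b) (ball 0 1))
    (hb : ∀ a ∈ ball (0 : ℂ) 1, ∀ b ∈ ball (0 : ℂ) 1, ‖V a b‖ ≤ M)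
    (hr : ∀ x y : ℝ, |x| < 1 → |y| < 1 → ‖V x y‖ ≤ m) (a b : ℂ) (ha : ‖a‖ ≤ h) (hbb : ‖b‖ ≤ h) :
    ‖V a b‖ ≤ 41 * M ^ del * m ^ (1 - del) := by
  have hM : 0 < M := hm.trans_le hmM
  obtain ⟨n, hn1, hn2⟩ := choose_n67 (q := 2 * h) (C := 144) (t := m / M) (by positivity)
    (by linarith) hdel (by norm_num) hC (by positivity) ((div_le_one hM).2 hmM)
  have hx1 : ∀ j ∈ Finset.range (n + 1), |xx67 h n j| < 1 := fun j hj =>
    (xx_abs67 hh n j hj).trans_lt (by linarith)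
  have hxb : ∀ j ∈ Finset.range (n + 1), ((xx67 h n j : ℝ) : ℂ) ∈ ball (0 : ℂ) 1 := by
    intro j hj
    rw [mem_ball_zero_iff, Complex.norm_real]
    exact hx1 j hj
  have hbb1 : b ∈ ball (0 : ℂ) 1 := by rw [mem_ball_zero_iff]; linarith
  have h0 : ∀ i ∈ Finset.range (n + 1), ‖V ((xx67 h n i : ℝ) : ℂ) b‖ ≤
      2 * M * (2 * h) ^ (n + 1) * (1 + Lam97 n) + Lam97 n * m := by
    intro i hi
    exact val67 hh hh1 (fun b => V ((xx67 h n i : ℝ) : ℂ) b) M m (hd2 _ (hxb i hi))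
      (fun z hz => hb _ (hxb i hi) z hz) n (fun j hj => hr _ _ (hx1 i hi) (hx1 j hj)) b hbb
  have h1 := val67 hh hh1 (fun a => V a b) M _ (hd1 b hbb1) (fun z hz => hb z hz b hbb1) n h0 a ha
  have h2 : M * (2 * h) ^ (n + 1) ≤ m := by
    rw [le_div_iff₀ hM] at hn1
    linarith
  have hL := Lam_le67 n
  have hL0 := Lam_pos97 n
  have hP : 0 < 1 + Lam97 n := by linarith
  have h144 : (144 : ℝ) ^ n = 12 ^ n * 12 ^ n := by
    rw [← mul_pow]; norm_num
  set P := 1 + Lam97 n with hPdef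
  have hLP : Lam97 n = P - 1 := by rw [hPdef]; ring
  have hL3 : Lam97 n = 3 * 12 ^ n := rfl
  calc ‖V a b‖ ≤ 2 * M * (2 * h) ^ (n + 1) * P + Lam97 n * (2 * M * (2 * h) ^ (n + 1) * P +
        Lam97 n * m) := h1
    _ = 2 * (M * (2 * h) ^ (n + 1)) * (P * P) + Lam97 n * Lam97 n * m := by rw [hLP]; ring
    _ ≤ 2 * m * (P * P) + Lam97 n * Lam97 n * m := by
        have : 0 ≤ P * P := by positivity
        have := mul_le_mul_of_nonneg_right (mul_le_mul_of_nonneg_left h2 (by norm_num :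
          (0 : ℝ) ≤ 2)) this
        linarith
    _ ≤ 2 * m * ((4 * 12 ^ n) * (4 * 12 ^ n)) + (3 * 12 ^ n) * (3 * 12 ^ n) * m := by
        rw [hL3]
        have := mul_le_mul hL hL hP.le (by positivity)
        have := mul_le_mul_of_nonneg_left this (by positivity : (0 : ℝ) ≤ 2 * m)
        linarith
    _ = 41 * (m * 144 ^ n) := by rw [h144]; ring
    _ ≤ 41 * (m * (m / M) ^ (-del)) :=
        mul_le_mul_of_nonneg_left (mul_le_mul_of_nonneg_left hn2 hm.le) (by norm_num)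
    _ = 41 * M ^ del * m ^ (1 - del) := by rw [final67 hm hM]; ring

theorem ball67 {R : ℝ} (hR : 0 < R) (c : ℝ) (z : ℂ) (hz : z ∈ ball (0 : ℂ) 1) :
    (c : ℂ) + R * z ∈ ball (c : ℂ) R := by
  rw [mem_ball_zero_iff] at hz
  rw [mem_ball_iff_norm, add_sub_cancel_left, norm_mul, Complex.norm_real, Real.norm_eq_abs,
    abs_of_pos hR]
  nlinarith

theorem abs67 {R : ℝ} (hR : 0 < R) (c t : ℝ) (ht : |t| < 1) : |(c + R * t) - c| < R := by
  rw [add_sub_cancel_left, abs_mul, abs_of_pos hR]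
  nlinarith

theorem back67 {R h : ℝ} (hR : 0 < R) (c : ℝ) (z : ℂ) (hz : z ∈ ball (c : ℂ) (h * R)) :
    ‖(z - c) / R‖ ≤ h ∧ (c : ℂ) + R * ((z - c) / R) = z := by
  have hR' : (R : ℂ) ≠ 0 := by exact_mod_cast hR.ne'
  rw [mem_ball_iff_norm] at hz
  constructor
  · rw [norm_div, Complex.norm_real, Real.norm_eq_abs, abs_of_pos hR, div_le_iff₀ hR]
    exact hz.le
  · field_simp
    ring

theorem int_lemma1 (del : ℝ) (h0 : 0 < del) (h1 : del < 1) : ∃ h K : ℝ, 0 < h ∧ h < 1 ∧ 0 < K ∧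
    ∀ (R : ℝ) (a0 : ℝ) (V : ℂ → ℂ) (M m : ℝ), 0 < R → 0 < m → m ≤ M →
      DifferentiableOn ℂ V (ball (a0 : ℂ) R) → (∀ z ∈ ball (a0 : ℂ) R, ‖V z‖ ≤ M) →
      (∀ x : ℝ, |x - a0| < R → ‖V x‖ ≤ m) →
      ∀ z ∈ ball (a0 : ℂ) (h * R), ‖V z‖ ≤ K * M ^ del * m ^ (1 - del) := by
  obtain ⟨h, hh, hh1, hC⟩ := choose_h67 del h0 h1
  refine ⟨h, 41, hh, by linarith, by norm_num, ?_⟩
  intro R a0 V M m hR hm hmM hd hb hr z hz
  obtain ⟨hz1, hz2⟩ := back67 hR a0 z hz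
  have key := one67 hh hh1 h0 hC (fun w => V ((a0 : ℂ) + R * w)) M m hm hmM
    (hd.comp ((differentiable_const _).add (differentiable_id.const_mul _)).differentiableOn
      (fun w hw => ball67 hR a0 w hw))
    (fun w hw => hb _ (ball67 hR a0 w hw))
    (fun x hx => by
      have := hr (a0 + R * x) (abs67 hR a0 x hx)
      push_cast at this
      exact this) ((z - a0) / R) hz1
  simp only [hz2] at key
  exact key

theorem int_lemma2 (del : ℝ) (h0 : 0 < del) (h1 : del < 1) : ∃ h K : ℝ, 0 < h ∧ h < 1 ∧ 0 < K ∧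
    ∀ (R : ℝ) (a0 b0 : ℝ) (V : ℂ → ℂ → ℂ) (M m : ℝ), 0 < R → 0 < m → m ≤ M →
      DifferentiableOn ℂ (fun z : ℂ × ℂ => V z.1 z.2) (ball (a0 : ℂ) R ×ˢ ball (b0 : ℂ) R) →
      (∀ a ∈ ball (a0 : ℂ) R, ∀ b ∈ ball (b0 : ℂ) R, ‖V a b‖ ≤ M) →
      (∀ x y : ℝ, |x - a0| < R → |y - b0| < R → ‖V x y‖ ≤ m) →
      ∀ a ∈ ball (a0 : ℂ) (h * R), ∀ b ∈ ball (b0 : ℂ) (h * R),
        ‖V a b‖ ≤ K * M ^ del * m ^ (1 - del) := by
  obtain ⟨h, hh, hh1, hC⟩ := choose_h67 del h0 h1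
  refine ⟨h, 41, hh, by linarith, by norm_num, ?_⟩
  intro R a0 b0 V M m hR hm hmM hd hb hr a ha b hbb
  obtain ⟨ha1, ha2⟩ := back67 hR a0 a ha
  obtain ⟨hb1, hb2⟩ := back67 hR b0 b hbb
  have key := two67 hh hh1 h0 hC (fun v w => V ((a0 : ℂ) + R * v) ((b0 : ℂ) + R * w)) M m hm hmM
    (fun w hw => by
      have hlin : Differentiable ℂ (fun v : ℂ => ((a0 : ℂ) + R * v, (b0 : ℂ) + R * w)) :=
        ((differentiable_const _).add (differentiable_id.const_mul _)).prodMk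
          (differentiable_const _)
      exact hd.comp hlin.differentiableOn
        (fun v hv => ⟨ball67 hR a0 v hv, ball67 hR b0 w hw⟩))
    (fun v hv => by
      have hlin : Differentiable ℂ (fun w : ℂ => ((a0 : ℂ) + R * v, (b0 : ℂ) + R * w)) :=
        (differentiable_const _).prodMk
          ((differentiable_const _).add (differentiable_id.const_mul _))
      exact hd.comp hlin.differentiableOn
        (fun w hw => ⟨ball67 hR a0 v hv, ball67 hR b0 w hw⟩))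
    (fun v hv w hw => hb _ (ball67 hR a0 v hv) _ (ball67 hR b0 w hw))
    (fun x y hx hy => by
      have := hr (a0 + R * x) (b0 + R * y) (abs67 hR a0 x hx) (abs67 hR b0 y hy)
      push_cast at this
      exact this) ((a - a0) / R) ((b - b0) / R) ha1 hb1
  simp only [ha2, hb2] at key
  exact key

end SF
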