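import Pool.Agent.Helper65.SF.F0

/-!
# SF-F1: real-rootedness

Proof in words.  Hermitian form `h v = Im (v 0 * conj (v 1))`.
Real `SL2` matrices preserve `h`.

ENERGY.  `B = [[-t,-1],[1,0]]`, `(B v) = (-t v0 - v1, v0)`, `h (B v) = h v - Im t |v0|^2`.
Assume `Im t > 0` (else conjugate, or do the same with reversed signs).  Claim, for `k >= 1`, by
two-step induction on `M k`: `h (M k v) <= h v`, and if equality holds then `v 0 = 0` and
`(M k v) 1 = 0`.  k=1: clear.  k=2: `M 2 = A B`, `A = [[1,-lam],[0,1]]` real, `B v = (-v1, 0)` if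
`v 0 = 0`, and `A (-v1,0) = (-v1,0)`.  k+2, k>=1: `M (k+2) v = M k (M (k+1) v)`; equality forces
`v 0 = 0`, `(M (k+1) v) 1 = 0` and, for `w = M (k+1) v`, `w 0 = 0`, so `w = 0`, `v = 0`, and then
everything is trivial.  If `X k = y in [-1,1]`, then `trace = 2 y`, `det = 1`, the eigenvalue
`y + i sqrt (1-y^2)` has modulus 1 and an eigenvector `v ≠ 0`
(`Matrix.exists_mulVec_eq_zero_iff`); `h (M v) = h v`, so `v 0 = 0`, `(M v) 1 = 0`, so
`mu * v 1 = 0`, contradiction.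

WORD.  `rotC (x + i y) = rotC x * rotC (i y)`, `rotC (i y) = [[c, -i s],[i s, c]]` with
`c = cosh y, s = sinh y`.  `h (rotC (i y) v) = (c^2+s^2) h v - s c (|v0|^2+|v1|^2)`, so for `y > 0`
`h (rotC (i y) v) - h v = 2 s^2 h v - s c |v|^2 <= s (s - c) |v|^2 < 0` for `v ≠ 0` (`2|h v| <= |v|^2`).
The hyperbolic factor and `rot b` are real of determinant 1.  So for `k ≠ 1`, `h (M k v) < h v` for all
`v ≠ 0` (`M k` contains the factor A), `h (M 1 v) = h v`; same contradiction.  `y < 0`: same with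
reversed signs.
-/

namespace SF

open Matrix

/-- The Hermitian form. -/
noncomputable def hf16 (v : Fin 2 → ℂ) : ℝ := (v 0 * (starRingEnd ℂ) (v 1)).im

theorem hf16_eq (v : Fin 2 → ℂ) : hf16 v = (v 0).im * (v 1).re - (v 0).re * (v 1).im := by
  unfold hf16
  simp [Complex.mul_im]
  ring

theorem hf16_smul (μ : ℂ) (hμ : Complex.normSq μ = 1) (v : Fin 2 → ℂ) :
    hf16 (μ • v) = hf16 v := by
  rw [Complex.normSq_apply] at hμ
  rw [hf16_eq, hf16_eq]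
  simp only [Pi.smul_apply, smul_eq_mul, Complex.mul_im, Complex.mul_re]
  linear_combination ((v 0).im * (v 1).re - (v 0).re * (v 1).im) * hμ

theorem eig16 (M : M2 ℂ) (hdet : M.det = 1) (y : ℝ) (hy : |y| ≤ 1) (ht : M.trace = 2 * (y : ℂ)) :
    ∃ (μ : ℂ) (v : Fin 2 → ℂ), v ≠ 0 ∧ Complex.normSq μ = 1 ∧ M *ᵥ v = μ • v := by
  have hy2 : 0 ≤ 1 - y ^ 2 := by
    have h1 := sq_le_one_iff_abs_le_one y
    have := h1.2 hy
    linarith
  obtain ⟨s, hs⟩ : ∃ s : ℝ, s ^ 2 = 1 - y ^ 2 := ⟨Real.sqrt (1 - y ^ 2), Real.sq_sqrt hy2⟩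
  set μ : ℂ := (y : ℂ) + (s : ℂ) * Complex.I with hμ
  have hμ2 : μ ^ 2 - 2 * (y : ℂ) * μ + 1 = 0 := by
    have hs' : (s : ℂ) ^ 2 = 1 - (y : ℂ) ^ 2 := by exact_mod_cast hs
    rw [hμ]
    linear_combination (s : ℂ) ^ 2 * Complex.I_sq - hs'
  have hd : (M - μ • (1 : M2 ℂ)).det = 0 := by
    rw [det_fin_two] at hdet
    rw [trace_fin_two] at ht
    rw [det_fin_two]
    simp only [Matrix.sub_apply, Matrix.smul_apply, smul_eq_mul, one_apply_eq, mul_one]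
    rw [one_apply_ne (by decide : (0 : Fin 2) ≠ 1), one_apply_ne (by decide : (1 : Fin 2) ≠ 0)]
    linear_combination hdet + hμ2 - μ * ht
  obtain ⟨v, hv0, hv⟩ := exists_mulVec_eq_zero_iff.2 hd
  refine ⟨μ, v, hv0, ?_, ?_⟩
  · rw [Complex.normSq_apply, hμ]
    simp
    linarith [hs]
  · rw [sub_mulVec, smul_mulVec, one_mulVec, sub_eq_zero] at hv
    exact hv

/-- The energy property. -/
def Qe16 (s : ℝ) (M : M2 ℂ) : Prop :=
  ∀ v, s * hf16 (M *ᵥ v) ≤ s * hf16 v ∧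
    (s * hf16 (M *ᵥ v) = s * hf16 v → v 0 = 0 ∧ (M *ᵥ v) 1 = 0)

theorem Qe16_mul {s : ℝ} {M N : M2 ℂ} (hM : Qe16 s M) (hN : Qe16 s N) : Qe16 s (M * N) := by
  intro v
  have h1 := hM (N *ᵥ v)
  have h2 := hN v
  rw [mulVec_mulVec] at h1
  refine ⟨h1.1.trans h2.1, fun h => ?_⟩
  have h3 : s * hf16 (N *ᵥ v) = s * hf16 v := le_antisymm h2.1 (h ▸ h1.1)
  have h4 : s * hf16 ((M * N) *ᵥ v) = s * hf16 (N *ᵥ v) := by rw [h, h3]
  exact ⟨(h2.2 h3).1, (h1.2 h4).2⟩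

theorem Qe16_B (z : ℂ) (hz : z.im ≠ 0) : Qe16 z.im (!![-z, -1; 1, 0] : M2 ℂ) := by
  intro v
  have h0 : (!![-z, -1; 1, 0] *ᵥ v) 0 = -z * v 0 - v 1 := by
    simp [mulVec, dotProduct, Fin.sum_univ_two]
    ring
  have h1 : (!![-z, -1; 1, 0] *ᵥ v) 1 = v 0 := by
    simp [mulVec, dotProduct, Fin.sum_univ_two]
  have h2 : hf16 (!![-z, -1; 1, 0] *ᵥ v) = hf16 v - z.im * ((v 0).re ^ 2 + (v 0).im ^ 2) := by
    rw [hf16_eq, hf16_eq, h0, h1]
    simp [Complex.mul_im, Complex.mul_re]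
    ring
  have h3 : 0 < z.im ^ 2 := by positivity
  have h4 : 0 ≤ (v 0).re ^ 2 + (v 0).im ^ 2 := by positivity
  rw [h2]
  refine ⟨by nlinarith [mul_nonneg h3.le h4], fun h => ?_⟩
  have h5 : z.im ^ 2 * ((v 0).re ^ 2 + (v 0).im ^ 2) = 0 := by linarith
  have h6 : (v 0).re ^ 2 + (v 0).im ^ 2 = 0 := by
    rcases mul_eq_zero.1 h5 with h | h
    · exact absurd h h3.ne'
    · exact h
  have h7 : v 0 = 0 := by
    apply Complex.ext
    · have : (v 0).re ^ 2 = 0 := by nlinarith [sq_nonneg (v 0).re, sq_nonneg (v 0).im]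
      simpa using this
    · have : (v 0).im ^ 2 = 0 := by nlinarith [sq_nonneg (v 0).re, sq_nonneg (v 0).im]
      simpa using this
  exact ⟨h7, by rw [h1, h7]⟩

theorem Qe16_AB (lam : ℝ) (z : ℂ) (hz : z.im ≠ 0) :
    Qe16 z.im ((!![1, -(lam : ℂ); 0, 1] : M2 ℂ) * (!![-z, -1; 1, 0] : M2 ℂ)) := by
  intro v
  have hA : ∀ w : Fin 2 → ℂ, hf16 ((!![1, -(lam : ℂ); 0, 1] : M2 ℂ) *ᵥ w) = hf16 w := by
    intro w
    have h0 : ((!![1, -(lam : ℂ); 0, 1] : M2 ℂ) *ᵥ w) 0 = w 0 - lam * w 1 := by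
      simp [mulVec, dotProduct, Fin.sum_univ_two]
      ring
    have h1 : ((!![1, -(lam : ℂ); 0, 1] : M2 ℂ) *ᵥ w) 1 = w 1 := by
      simp [mulVec, dotProduct, Fin.sum_univ_two]
    rw [hf16_eq, hf16_eq, h0, h1]
    simp [Complex.mul_im, Complex.mul_re]
    ring
  have hB := Qe16_B z hz v
  rw [← mulVec_mulVec, hA]
  refine ⟨hB.1, fun h => ⟨(hB.2 h).1, ?_⟩⟩
  have h1 : ((!![1, -(lam : ℂ); 0, 1] : M2 ℂ) *ᵥ (!![-z, -1; 1, 0] *ᵥ v)) 1 =
      (!![-z, -1; 1, 0] *ᵥ v) 1 := by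
    generalize !![-z, -1; 1, 0] *ᵥ v = w
    simp [mulVec, dotProduct, Fin.sum_univ_two]
  rw [h1]
  exact (hB.2 h).2

theorem Qe16_eM (lam : ℝ) (z : ℂ) (hz : z.im ≠ 0) (k : ℕ) :
    Qe16 z.im (eM (lam : ℂ) z (k + 1)) ∧ Qe16 z.im (eM (lam : ℂ) z (k + 2)) := by
  induction k with
  | zero =>
    refine ⟨?_, ?_⟩
    · exact Qe16_B z hz
    · exact Qe16_AB lam z hz
  | succ k ih =>
    refine ⟨ih.2, ?_⟩
    have : eM (lam : ℂ) z (k + 1 + 2) = eM (lam : ℂ) z (k + 1) * eM (lam : ℂ) z (k + 2) := rfl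
    rw [this]
    exact Qe16_mul ih.1 ih.2

theorem rr_energy (lam : ℝ) (k : ℕ) (hk : 1 ≤ k) (z : ℂ) (hz : z.im ≠ 0) (y : ℝ) (hy : |y| ≤ 1) :
    X (lam : ℂ) z k ≠ (y : ℂ) := by
  intro hX
  obtain ⟨j, rfl⟩ : ∃ j, k = j + 1 := ⟨k - 1, by omega⟩
  have htr := trace_eM (K := ℂ) two_ne_zero (lam : ℂ) z (j + 1)
  rw [hX] at htr
  obtain ⟨μ, v, hv0, hμ, hv⟩ := eig16 _ (det_eM (lam : ℂ) z (j + 1)) y hy htr
  have hQ := (Qe16_eM lam z hz j).1 v
  have h1 : hf16 (eM (lam : ℂ) z (j + 1) *ᵥ v) = hf16 v := by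
    rw [hv, hf16_smul μ hμ]
  obtain ⟨h2, h3⟩ := hQ.2 (by rw [h1])
  rw [hv] at h3
  have hμ0 : μ ≠ 0 := by
    rintro rfl
    simp at hμ
  have h4 : v 1 = 0 := by
    rw [Pi.smul_apply, smul_eq_mul] at h3
    exact (mul_eq_zero.1 h3).resolve_left hμ0
  apply hv0
  funext i
  fin_cases i
  · exact h2
  · exact h4

theorem two_hf16_le (w : Fin 2 → ℂ) :
    |2 * hf16 w| ≤ (w 0).re ^ 2 + (w 0).im ^ 2 + ((w 1).re ^ 2 + (w 1).im ^ 2) := by
  rw [hf16_eq, abs_le]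
  constructor
  · nlinarith [sq_nonneg ((w 0).im + (w 1).re), sq_nonneg ((w 0).re - (w 1).im)]
  · nlinarith [sq_nonneg ((w 0).im - (w 1).re), sq_nonneg ((w 0).re + (w 1).im)]

theorem nsq16_pos (w : Fin 2 → ℂ) (hw : w ≠ 0) :
    0 < (w 0).re ^ 2 + (w 0).im ^ 2 + ((w 1).re ^ 2 + (w 1).im ^ 2) := by
  by_contra hcon
  push Not at hcon
  apply hw
  have a1 := sq_nonneg (w 0).re
  have a2 := sq_nonneg (w 0).im
  have a3 := sq_nonneg (w 1).re
  have a4 := sq_nonneg (w 1).im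
  have b1 : (w 0).re = 0 := by
    have : (w 0).re ^ 2 = 0 := by linarith
    simpa using this
  have b2 : (w 0).im = 0 := by
    have : (w 0).im ^ 2 = 0 := by linarith
    simpa using this
  have b3 : (w 1).re = 0 := by
    have : (w 1).re ^ 2 = 0 := by linarith
    simpa using this
  have b4 : (w 1).im = 0 := by
    have : (w 1).im ^ 2 = 0 := by linarith
    simpa using this
  funext i
  fin_cases i
  · exact Complex.ext b1 b2
  · exact Complex.ext b3 b4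

theorem hf16_rotC (x y : ℝ) (w : Fin 2 → ℂ) :
    hf16 (rotC ((x : ℂ) + (y : ℂ) * Complex.I) *ᵥ w) - hf16 w =
      2 * Real.sinh y ^ 2 * hf16 w - Real.sinh y * Real.cosh y *
        ((w 0).re ^ 2 + (w 0).im ^ 2 + ((w 1).re ^ 2 + (w 1).im ^ 2)) := by
  have hC : Complex.cos ((x : ℂ) + (y : ℂ) * Complex.I) =
      ((Real.cos x * Real.cosh y : ℝ) : ℂ) - ((Real.sin x * Real.sinh y : ℝ) : ℂ) * Complex.I := by
    rw [Complex.cos_add_mul_I]
    push_cast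
    ring
  have hS : Complex.sin ((x : ℂ) + (y : ℂ) * Complex.I) =
      ((Real.sin x * Real.cosh y : ℝ) : ℂ) + ((Real.cos x * Real.sinh y : ℝ) : ℂ) * Complex.I := by
    rw [Complex.sin_add_mul_I]
    push_cast
    ring
  have h0 : (rotC ((x : ℂ) + (y : ℂ) * Complex.I) *ᵥ w) 0 =
      Complex.cos ((x : ℂ) + (y : ℂ) * Complex.I) * w 0 -
        Complex.sin ((x : ℂ) + (y : ℂ) * Complex.I) * w 1 := by
    simp [rotC, mulVec, dotProduct, Fin.sum_univ_two]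
    ring
  have h1 : (rotC ((x : ℂ) + (y : ℂ) * Complex.I) *ᵥ w) 1 =
      Complex.sin ((x : ℂ) + (y : ℂ) * Complex.I) * w 0 +
        Complex.cos ((x : ℂ) + (y : ℂ) * Complex.I) * w 1 := by
    simp [rotC, mulVec, dotProduct, Fin.sum_univ_two]
  rw [hf16_eq, hf16_eq, h0, h1, hC, hS]
  have c1 := Real.sin_sq_add_cos_sq x
  have c2 := Real.cosh_sq y
  generalize Real.cos x = cx at *
  generalize Real.sin x = sx at *
  generalize Real.cosh y = cy at *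
  generalize Real.sinh y = sy at *
  generalize w 0 = a at *
  generalize w 1 = b at *
  simp only [Complex.mul_im, Complex.mul_re, Complex.sub_re, Complex.sub_im, Complex.add_re,
    Complex.add_im, Complex.ofReal_re, Complex.ofReal_im, Complex.I_re, Complex.I_im]
  obtain ⟨a1, a2⟩ := a
  obtain ⟨b1, b2⟩ := b
  simp only
  linear_combination ((a2 * b1 - a1 * b2) * (cy ^ 2 + sy ^ 2) -
    sy * cy * (a1 ^ 2 + a2 ^ 2 + (b1 ^ 2 + b2 ^ 2))) * c1 + (a2 * b1 - a1 * b2) * c2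

/-- The weak and the strong word property. -/
def Ww16 (s : ℝ) (M : M2 ℂ) : Prop := ∀ v, s * hf16 (M *ᵥ v) ≤ s * hf16 v

def Ws16 (s : ℝ) (M : M2 ℂ) : Prop := ∀ v, v ≠ 0 → s * hf16 (M *ᵥ v) < s * hf16 v

theorem Ww16_of_Ws16 {s : ℝ} {M : M2 ℂ} (h : Ws16 s M) : Ww16 s M := by
  intro v
  by_cases hv : v = 0
  · rw [hv, mulVec_zero]
  · exact (h v hv).le

theorem Ws16_rotC (z : ℂ) (hz : z.im ≠ 0) : Ws16 z.im (rotC z) := by
  intro w hw
  have hz' : z = (z.re : ℂ) + (z.im : ℂ) * Complex.I := (Complex.re_add_im z).symm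
  have h1 := hf16_rotC z.re z.im w
  rw [← hz'] at h1
  have h2 := two_hf16_le w
  have h3 := nsq16_pos w hw
  set Nw := (w 0).re ^ 2 + (w 0).im ^ 2 + ((w 1).re ^ 2 + (w 1).im ^ 2) with hN
  -- `y * sinh y > 0`
  have h4 : 0 < z.im * Real.sinh z.im := by
    rcases lt_or_gt_of_ne hz with h | h
    · exact mul_pos_of_neg_of_neg h (Real.sinh_neg_iff.2 h)
    · exact mul_pos h (Real.sinh_pos_iff.2 h)
  have h5 : |Real.sinh z.im| < Real.cosh z.im := by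
    rw [abs_lt]
    have a1 := Real.cosh_sq z.im
    have a2 := Real.cosh_pos z.im
    constructor
    · nlinarith
    · nlinarith
  have h6 : 2 * Real.sinh z.im * hf16 w - Real.cosh z.im * Nw < 0 := by
    have b1 : 2 * Real.sinh z.im * hf16 w ≤ |Real.sinh z.im| * Nw := by
      calc 2 * Real.sinh z.im * hf16 w = Real.sinh z.im * (2 * hf16 w) := by ring
        _ ≤ |Real.sinh z.im * (2 * hf16 w)| := le_abs_self _
        _ = |Real.sinh z.im| * |2 * hf16 w| := abs_mul _ _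
        _ ≤ |Real.sinh z.im| * Nw := mul_le_mul_of_nonneg_left h2 (abs_nonneg _)
    have b2 : |Real.sinh z.im| * Nw < Real.cosh z.im * Nw := mul_lt_mul_of_pos_right h5 h3
    linarith
  have h7 : z.im * hf16 (rotC z *ᵥ w) - z.im * hf16 w =
      (z.im * Real.sinh z.im) * (2 * Real.sinh z.im * hf16 w - Real.cosh z.im * Nw) := by
    linear_combination z.im * h1
  have h8 := mul_neg_of_pos_of_neg h4 h6
  linarith

/-- a real matrix of determinant one preserves the form -/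
theorem hf16_real (M : M2 ℝ) (hM : M.det = 1) (w : Fin 2 → ℂ) :
    hf16 ((M.map (fun x : ℝ => (x : ℂ))) *ᵥ w) = hf16 w := by
  have h0 : ((M.map (fun x : ℝ => (x : ℂ))) *ᵥ w) 0 = (M 0 0 : ℂ) * w 0 + (M 0 1 : ℂ) * w 1 := by
    simp [mulVec, dotProduct, Fin.sum_univ_two]
  have h1 : ((M.map (fun x : ℝ => (x : ℂ))) *ᵥ w) 1 = (M 1 0 : ℂ) * w 0 + (M 1 1 : ℂ) * w 1 := by
    simp [mulVec, dotProduct, Fin.sum_univ_two]
  rw [det_fin_two] at hM
  rw [hf16_eq, hf16_eq, h0, h1]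
  simp only [Complex.mul_im, Complex.mul_re, Complex.add_re, Complex.add_im, Complex.ofReal_re,
    Complex.ofReal_im]
  linear_combination ((w 0).im * (w 1).re - (w 0).re * (w 1).im) * hM

theorem real_ne16 (M : M2 ℝ) (hM : M.det = 1) (w : Fin 2 → ℂ) (hw : w ≠ 0) :
    (M.map (fun x : ℝ => (x : ℂ))) *ᵥ w ≠ 0 := by
  intro h
  have h1 : (M.map (fun x : ℝ => (x : ℂ))).det = 0 :=
    exists_mulVec_eq_zero_iff.1 ⟨w, hw, h⟩
  have h2 : (M.map (fun x : ℝ => (x : ℂ))).det = ((M.det : ℝ) : ℂ) := by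
    rw [det_fin_two, det_fin_two]
    simp
  rw [h2, hM] at h1
  simp at h1

theorem det_hyp16 (lam b : ℝ) : (hyp lam b).det = 1 := by
  have := rr_sq lam b
  rw [hyp, det_fin_two]
  simp
  linear_combination this

theorem det_rot16 (b : ℝ) : (rot b).det = 1 := by
  have := Real.sin_sq_add_cos_sq b
  rw [rot, det_fin_two]
  simp
  linear_combination this

theorem Ws16_zero (lam b : ℝ) (z : ℂ) (hz : z.im ≠ 0) : Ws16 z.im (wMC lam b z 0) := by
  intro v hv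
  have h0 : wMC lam b z 0 = rotC z * (hyp lam b).map (fun x : ℝ => (x : ℂ)) := rfl
  rw [h0, ← mulVec_mulVec]
  have h1 := Ws16_rotC z hz _ (real_ne16 _ (det_hyp16 lam b) v hv)
  rwa [hf16_real _ (det_hyp16 lam b)] at h1

theorem Ww16_wMC (lam b : ℝ) (z : ℂ) (hz : z.im ≠ 0) (k : ℕ) :
    Ww16 z.im (wMC lam b z k) ∧ Ww16 z.im (wMC lam b z (k + 1)) := by
  induction k with
  | zero =>
    refine ⟨Ww16_of_Ws16 (Ws16_zero lam b z hz), fun v => ?_⟩
    have h0 : wMC lam b z (0 + 1) = (rot b).map (fun x : ℝ => (x : ℂ)) := rfl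
    rw [h0, hf16_real _ (det_rot16 b)]
  | succ k ih =>
    refine ⟨ih.2, fun v => ?_⟩
    have h0 : wMC lam b z (k + 1 + 1) = wMC lam b z k * wMC lam b z (k + 1) := rfl
    rw [h0, ← mulVec_mulVec]
    exact (ih.1 _).trans (ih.2 v)

theorem Ws16_wMC (lam b : ℝ) (z : ℂ) (hz : z.im ≠ 0) (k : ℕ) :
    Ws16 z.im (wMC lam b z (k + 2)) := by
  induction k with
  | zero =>
    intro v hv
    have h0 : wMC lam b z (0 + 2) = wMC lam b z 0 * (rot b).map (fun x : ℝ => (x : ℂ)) := rfl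
    rw [h0, ← mulVec_mulVec]
    have h1 := Ws16_zero lam b z hz _ (real_ne16 _ (det_rot16 b) v hv)
    rwa [hf16_real _ (det_rot16 b)] at h1
  | succ k ih =>
    intro v hv
    have h0 : wMC lam b z (k + 1 + 2) = wMC lam b z (k + 1) * wMC lam b z (k + 2) := rfl
    rw [h0, ← mulVec_mulVec]
    exact ((Ww16_wMC lam b z hz (k + 1)).1 _).trans_lt (ih v hv)

theorem rr_word (lam b : ℝ) (hb : Real.sin b ≠ 0) (k : ℕ) (hk : k ≠ 1) (z : ℂ) (hz : z.im ≠ 0)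
    (y : ℝ) (hy : |y| ≤ 1) : WC lam b z k ≠ (y : ℂ) := by
  intro hX
  have htr := trace_wMC lam b z k
  rw [hX] at htr
  obtain ⟨μ, v, hv0, hμ, hv⟩ := eig16 _ (det_wMC lam b z k) y hy htr
  have h1 : hf16 (wMC lam b z k *ᵥ v) = hf16 v := by
    rw [hv, hf16_smul μ hμ]
  have hS : Ws16 z.im (wMC lam b z k) := by
    rcases k with _ | _ | k
    · exact Ws16_zero lam b z hz
    · exact absurd rfl hk
    · exact Ws16_wMC lam b z hz k
  have h2 := hS v hv0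
  rw [h1] at h2
  exact lt_irrefl _ h2

end SF
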