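import Pool.Agent.Helper65.SF.F0

/-!
# SF-F0b: orientation relations, state sequences

Proofs in words.
* `ell_pair`: write `A = x + A0`, `B = y + B0` with traceless `A0 = [[a,b],[c,-a]]`,
  `B0 = [[a',b'],[c',-a']]`; `trace (A B)/2 - x y = trace (A0 B0)/2 = a a' + (b c' + c b')/2`,
  `det A0 = -a^2 - b c = 1 - x^2 > 0`.  If `c c' > 0` then `b c' < -a^2 c'/c` and
  `c b' < -a'^2 c/c'` (signs according to c), sum `< -2 |a a'|`.  If `c c' < 0` reverse.
* `ori_ne`: if `M 1 0 = 0` then the eigenvalues are `M 0 0` and its inverse, `|trace| >= 2`.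
* `St_mseq`: rec3 and inv from `trace_mseq`, `tr_inv`; rel1: `ell_pair` for `M k, M (k+1)`
  (`sign (M 1 0) = orient`, nonzero by `ori_ne`); rel2: `M (k+1) = (M k)⁻¹ M (k+2)`, the lower left entry
  of `(M k)⁻¹` (adjugate) is minus that of `M k`: `ell_pair` for `(M k)⁻¹, M (k+2)`.
* `St_energy`: `St_mseq`, third alternative `|x 2 - x 1| = lam/2`.  `St_word`: `|cos b| < 1`.
-/

namespace SF

open Matrix

theorem ell_pair (A B : M2 ℝ) (hA : A.det = 1) (hB : B.det = 1) (h1 : |A.trace| < 2)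
    (h2 : |B.trace| < 2) :
    ((A * B).trace / 2 - A.trace / 2 * (B.trace / 2)) * (A 1 0 * B 1 0) < 0 := by
  rw [Matrix.det_fin_two] at hA hB
  rw [Matrix.trace_fin_two] at h1 h2
  have e : (A * B).trace = A 0 0 * B 0 0 + A 0 1 * B 1 0 + (A 1 0 * B 0 1 + A 1 1 * B 1 1) := by
    rw [Matrix.trace_fin_two, Matrix.mul_apply, Matrix.mul_apply, Fin.sum_univ_two, Fin.sum_univ_two]
  rw [e, Matrix.trace_fin_two, Matrix.trace_fin_two]
  generalize A 0 0 = p at *
  generalize A 0 1 = b at *
  generalize A 1 0 = c at *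
  generalize A 1 1 = q at *
  generalize B 0 0 = p' at *
  generalize B 0 1 = b' at *
  generalize B 1 0 = c' at *
  generalize B 1 1 = q' at *
  have s1 : 0 < 4 - (p + q) ^ 2 := by
    have := abs_lt.mp h1
    nlinarith
  have s2 : 0 < 4 - (p' + q') ^ 2 := by
    have := abs_lt.mp h2
    nlinarith
  have hc : c ≠ 0 := by
    rintro rfl
    have : (p - q) ^ 2 < 0 := by nlinarith
    nlinarith [sq_nonneg (p - q)]
  have hc2 : 0 < c ^ 2 := by positivity
  have key : ((p * p' + b * c' + (c * b' + q * q')) / 2 - (p + q) / 2 * ((p' + q') / 2)) * (c * c')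
      = - (((p - q) / 2 * c' - (p' - q') / 2 * c) ^ 2 + (4 - (p + q) ^ 2) / 4 * c' ^ 2
        + (4 - (p' + q') ^ 2) / 4 * c ^ 2) / 2 := by
    have f1 : b * c = p * q - 1 := by linarith
    have f2 : b' * c' = p' * q' - 1 := by linarith
    linear_combination (c' ^ 2 / 2) * f1 + (c ^ 2 / 2) * f2
  rw [key]
  have : 0 < (4 - (p' + q') ^ 2) / 4 * c ^ 2 := by positivity
  have : 0 ≤ (4 - (p + q) ^ 2) / 4 * c' ^ 2 := by positivity
  nlinarith [sq_nonneg ((p - q) / 2 * c' - (p' - q') / 2 * c)]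

theorem ori_ne (A : M2 ℝ) (hA : A.det = 1) (h1 : |A.trace| < 2) : A 1 0 ≠ 0 := by
  intro h
  rw [Matrix.det_fin_two, h] at hA
  rw [Matrix.trace_fin_two] at h1
  have := abs_lt.mp h1
  nlinarith [sq_nonneg (A 0 0 - A 1 1)]

namespace F0bAux

theorem orient_cases (M : M2 ℝ) : orient M = 1 ∨ orient M = -1 := by
  unfold orient
  split_ifs
  · exact Or.inl rfl
  · exact Or.inr rfl

theorem orient_mul_pos (M : M2 ℝ) (h : M 1 0 ≠ 0) : 0 < orient M * M 1 0 := by
  unfold orient
  split_ifs with h1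
  · have : 0 < M 1 0 := lt_of_le_of_ne h1 (Ne.symm h)
    linarith
  · push Not at h1
    linarith

theorem neg_of_orient (q : ℝ) (M N : M2 ℝ) (hM : M 1 0 ≠ 0) (hN : N 1 0 ≠ 0)
    (h : q * (M 1 0 * N 1 0) < 0) : q * (orient M * orient N) < 0 := by
  have h1 := orient_mul_pos M hM
  have h2 := orient_mul_pos N hN
  have h3 : 0 < (orient M * M 1 0) * (orient N * N 1 0) := mul_pos h1 h2
  rcases orient_cases M with e1 | e1 <;> rcases orient_cases N with e2 | e2 <;>
    rw [e1, e2] at h3 ⊢ <;> nlinarith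

theorem pos_of_orient (q : ℝ) (M N : M2 ℝ) (hM : M 1 0 ≠ 0) (hN : N 1 0 ≠ 0)
    (h : 0 < q * (M 1 0 * N 1 0)) : 0 < q * (orient M * orient N) := by
  have := neg_of_orient (-q) M N hM hN (by linarith)
  linarith

theorem adj_det (M : M2 ℝ) (h : M.det = 1) : M.adjugate.det = 1 := by
  rw [Matrix.det_adjugate, h]
  simp

theorem adj_trace (M : M2 ℝ) : M.adjugate.trace = M.trace := by
  rw [Matrix.adjugate_fin_two, Matrix.trace_fin_two, Matrix.trace_fin_two]
  simp [add_comm]

theorem adj_low (M : M2 ℝ) : M.adjugate 1 0 = -M 1 0 := by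
  rw [Matrix.adjugate_fin_two]
  simp

end F0bAux

open F0bAux

/-- A sequence of half traces of `mseq A B` with `A, B` in `SL2(ℝ)` is a state sequence. -/
theorem St_mseq (lam : ℝ) (A B : M2 ℝ) (hA : A.det = 1) (hB : B.det = 1)
    (hinv : ((A * B).trace / 2) ^ 2 + (B.trace / 2) ^ 2 + (A.trace / 2) ^ 2
      - 2 * ((A * B).trace / 2) * (B.trace / 2) * (A.trace / 2) = 1 + lam ^ 2 / 4)
    (hst : |B.trace / 2| < 1 ∨ (A.trace / 2 = 1 ∧ |(A * B).trace / 2 - B.trace / 2| ≤ lam)) :
    St lam (fun k => (mseq A B k).trace / 2) (fun k => orient (mseq A B k)) := by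
  have h2 : (2 : ℝ) ≠ 0 := two_ne_zero
  have hx : ∀ k, (mseq A B k).trace / 2 = tr (A.trace / 2) (B.trace / 2) ((A * B).trace / 2) k := by
    intro k
    rw [trace_mseq h2 A B hA hB k]
    ring
  have hel : ∀ k, |(mseq A B k).trace / 2| < 1 → |(mseq A B k).trace| < 2 := by
    intro k hk
    rw [abs_div, abs_two] at hk
    linarith
  have hstep : ∀ k, mseq A B (k + 2) = mseq A B k * mseq A B (k + 1) := fun k => rfl
  refine ⟨?_, ?_, ?_, ?_, ?_, ?_⟩
  · intro k
    simp only [hx]
    rfl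
  · intro k
    simp only [hx]
    exact tr_inv _ _ _ _ hinv k
  · intro k
    exact orient_cases _
  · intro k h0 h1
    have e0 := hel k h0
    have e1 := hel (k + 1) h1
    have d0 := det_mseq A B hA hB k
    have d1 := det_mseq A B hA hB (k + 1)
    have := ell_pair (mseq A B k) (mseq A B (k + 1)) d0 d1 e0 e1
    have := neg_of_orient _ _ _ (ori_ne _ d0 e0) (ori_ne _ d1 e1) this
    simp only [hstep k]
    rw [mul_comm ((mseq A B (k + 1)).trace / 2)]
    exact this
  · intro k h0 h1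
    have e0 := hel k h0
    have e1 := hel (k + 2) h1
    have d0 := det_mseq A B hA hB k
    have d1 := det_mseq A B hA hB (k + 2)
    have e0' : |(mseq A B k).adjugate.trace| < 2 := by rw [adj_trace]; exact e0
    have := ell_pair (mseq A B k).adjugate (mseq A B (k + 2)) (adj_det _ d0) d1 e0' e1
    rw [adj_trace, adj_low] at this
    have hm : (mseq A B k).adjugate * mseq A B (k + 2) = mseq A B (k + 1) := by
      rw [hstep k, ← Matrix.mul_assoc, Matrix.adjugate_mul, d0, one_smul, Matrix.one_mul]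
    rw [hm] at this
    exact pos_of_orient _ _ _ (ori_ne _ d0 e0) (ori_ne _ d1 e1) (by linarith)
  · exact hst

theorem St_energy (lam t : ℝ) (h : 0 ≤ lam) :
    St lam (fun k => X lam t k) (fun k => oE lam t k) := by
  have hA : (!![1, -lam; 0, 1] : M2 ℝ).det = 1 := by
    rw [Matrix.det_fin_two]; simp
  have hB : (!![-t, -1; 1, 0] : M2 ℝ).det = 1 := by
    rw [Matrix.det_fin_two]; simp
  have tA : (!![1, -lam; 0, 1] : M2 ℝ).trace / 2 = 1 := by
    rw [Matrix.trace_fin_two]; simp
  have tB : (!![-t, -1; 1, 0] : M2 ℝ).trace / 2 = -t / 2 := by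
    rw [Matrix.trace_fin_two]; simp
  have tAB : ((!![1, -lam; 0, 1] : M2 ℝ) * (!![-t, -1; 1, 0] : M2 ℝ)).trace / 2 = -(t + lam) / 2 := by
    rw [Matrix.trace_fin_two, Matrix.mul_apply, Matrix.mul_apply, Fin.sum_univ_two, Fin.sum_univ_two]
    simp
    ring
  have key := St_mseq lam (!![1, -lam; 0, 1] : M2 ℝ) (!![-t, -1; 1, 0] : M2 ℝ) hA hB
    (by rw [tA, tB, tAB]; ring)
    (Or.inr ⟨tA, by
      rw [tB, tAB]
      have : -(t + lam) / 2 - -t / 2 = -(lam / 2) := by ring
      rw [this, abs_neg, abs_of_nonneg (by linarith)]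
      linarith⟩)
  have e : (fun k => X lam t k) = fun k =>
      (mseq (!![1, -lam; 0, 1] : M2 ℝ) (!![-t, -1; 1, 0] : M2 ℝ) k).trace / 2 := by
    funext k
    have := trace_eM (K := ℝ) two_ne_zero lam t k
    unfold eM at this
    rw [this]
    ring
  rw [e]
  exact key

theorem St_word (lam b psi : ℝ) (hb : Real.sin b ≠ 0) :
    St lam (fun k => W lam b psi k) (fun k => oW lam b psi k) := by
  have hr : (rr lam b) ^ 2 = 1 + qq lam b ^ 2 := rr_sq lam b
  have hq : qq lam b ^ 2 * Real.sin b ^ 2 = lam ^ 2 / 4 := by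
    unfold qq
    rw [div_pow, mul_pow, sq_abs]
    field_simp
    ring
  have hA : (rot psi * hyp lam b).det = 1 := by
    rw [Matrix.det_mul]
    unfold rot hyp
    rw [Matrix.det_fin_two, Matrix.det_fin_two]
    simp only [Matrix.of_apply, Matrix.cons_val', Matrix.cons_val_zero, Matrix.cons_val_one,
      Matrix.cons_val_fin_one]
    have := Real.sin_sq_add_cos_sq psi
    nlinarith
  have hB : (rot b).det = 1 := by
    unfold rot
    rw [Matrix.det_fin_two]
    simp only [Matrix.of_apply, Matrix.cons_val', Matrix.cons_val_zero, Matrix.cons_val_one,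
      Matrix.cons_val_fin_one]
    have := Real.sin_sq_add_cos_sq b
    nlinarith
  have hk : ∀ k, (mseq (rot psi * hyp lam b) (rot b) k).trace / 2 = W lam b psi k := by
    intro k
    have := trace_wM lam b psi k
    unfold wM at this
    rw [this]
    ring
  have tA : (rot psi * hyp lam b).trace / 2 = rr lam b * Real.cos psi := hk 0
  have tB : (rot b).trace / 2 = Real.cos b := hk 1
  have tAB : ((rot psi * hyp lam b) * rot b).trace / 2 = rr lam b * Real.cos (psi + b) := hk 2
  have hcos : |Real.cos b| < 1 := by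
    rw [abs_lt]
    have h1 := Real.sin_sq_add_cos_sq b
    have h2 : 0 < Real.sin b ^ 2 := by positivity
    constructor <;> nlinarith
  have key := St_mseq lam (rot psi * hyp lam b) (rot b) hA hB
    (by
      rw [tA, tB, tAB, Real.cos_add]
      have h1 := Real.sin_sq_add_cos_sq b
      have h2 := Real.sin_sq_add_cos_sq psi
      have e1 : (rr lam b * (Real.cos psi * Real.cos b - Real.sin psi * Real.sin b)) ^ 2
          + Real.cos b ^ 2 + (rr lam b * Real.cos psi) ^ 2
          - 2 * (rr lam b * (Real.cos psi * Real.cos b - Real.sin psi * Real.sin b)) * Real.cos b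
            * (rr lam b * Real.cos psi)
          = rr lam b ^ 2 * (Real.sin b ^ 2 * (Real.sin psi ^ 2) + Real.cos psi ^ 2 *
            (1 - Real.cos b ^ 2)) + Real.cos b ^ 2 := by ring
      rw [e1]
      have e2 : 1 - Real.cos b ^ 2 = Real.sin b ^ 2 := by linarith
      rw [e2, hr]
      have e3 : Real.cos b ^ 2 = 1 - Real.sin b ^ 2 := by linarith
      have e4 : Real.cos psi ^ 2 = 1 - Real.sin psi ^ 2 := by linarith
      rw [e3, e4, ← hq]
      ring)
    (Or.inl (by rw [tB]; exact hcos))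
  have e : (fun k => W lam b psi k) = fun k =>
      (mseq (rot psi * hyp lam b) (rot b) k).trace / 2 := by
    funext k
    exact (hk k).symm
  rw [e]
  exact key

end SF
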