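import Pool.Agent.Helper65.SF.F3
import Pool.Agent.Helper65.SF.F0b

/-!
# SF-F3b: coordinates of state sequences, shifts

Proof in words.
* `T0_near`: `Re (cpt (W 0) (oW 0) * exp (-i psi)) = clip (r cos psi) cos psi + |sin psi| sqrt (1-clip^2) > 0`
  (`oW 0 = sign (sin psi)` when `|W 0| < 1`: the lower left entry of `rot psi * hyp` is `sin psi (r + q)`).
* `exp_T1`: `wM 1 = rot b`, `orient = sign (sin b)`.
* `coord_spec`: put `b = th m`, `y = (x (m-1) x m - x (m+1)) / sin b`; `inv` gives
  `x (m-1)^2 + y^2 = r(b)^2`, so `r exp (i psi) = x (m-1) + i y`, i.e. `W 0 = x (m-1)`, `W 1 = x m`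
  (`cos b = x m`), `W 2 = r cos (psi + b) = x (m-1) x m - y sin b = x (m+1)`; rec3 gives the rest.
  `oW 0 = sign (sin psi) = sign y = o (m-1)` if `|x (m-1)| < 1` by rel1 (or rel3), `oW 1 = sign (sin b)`.
  So both sequences `(W, oW)` and `(x (m-1+i), o (m-1+i))` are state sequences with equal circle points
  at 0,1 and by `cc_unique` everywhere; `T0 = th (m-1)` because `|th (m-1) - psi| < pi/2`
  (real part of `(x + i y) (clip x - i sign y sqrt (1 - clip x ^2))` is positive).
* `TW_shift`: `W` and `wM` are multiplied by `(-1) ^ fibz i j k`, the circle points also, the defect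
  angles do not change.
-/

namespace SF

open Complex

variable {lam : ℝ} {x o : ℕ → ℝ}

namespace F3bAux

theorem clip_neg (y : ℝ) : clip (-y) = - clip y := by
  unfold clip
  rcases le_total y (-1) with h | h
  · rw [min_eq_left (by linarith : (1 : ℝ) ≤ -y), min_eq_right (by linarith : y ≤ 1),
      max_eq_left h, max_eq_right (by norm_num : (-1 : ℝ) ≤ 1)]
    norm_num
  · rcases le_total y 1 with h' | h'
    · rw [min_eq_right (by linarith : -y ≤ 1), min_eq_right h', max_eq_right h,
        max_eq_right (by linarith : (-1 : ℝ) ≤ -y)]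
    · rw [min_eq_right (by linarith : -y ≤ 1), min_eq_left h',
        max_eq_left (by linarith : -y ≤ -1), max_eq_right (by norm_num : (-1 : ℝ) ≤ 1)]

theorem clip_ge {y : ℝ} (h : 1 ≤ |y|) : clip y * y = |y| ∧ clip y ^ 2 = 1 := by
  unfold clip
  rcases le_abs.mp h with h | h
  · rw [min_eq_left h, max_eq_right (by norm_num : (-1 : ℝ) ≤ 1), abs_of_nonneg (by linarith)]
    norm_num
  · rw [min_eq_right (by linarith : y ≤ 1), max_eq_left (by linarith : y ≤ -1),
      abs_of_nonpos (by linarith)]
    norm_num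

theorem cpt_ge {y o o' : ℝ} (h : 1 ≤ |y|) : cpt y o = cpt y o' := by
  unfold cpt
  rw [(clip_ge h).2]
  simp

theorem low_wM0 (lam b psi : ℝ) :
    wM lam b psi 0 1 0 = Real.sin psi * (rr lam b + qq lam b) := by
  show (rot psi * hyp lam b) 1 0 = _
  rw [Matrix.mul_apply, Fin.sum_univ_two]
  simp [rot, hyp]

theorem rq_pos (lam b : ℝ) : 0 < rr lam b + qq lam b := by
  have h1 := rr_sq lam b
  have h2 := one_le_rr lam b
  by_contra h
  push Not at h
  nlinarith

theorem oW0_mul (lam b psi : ℝ) : oW lam b psi 0 * Real.sin psi = |Real.sin psi| := by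
  unfold oW orient
  rw [low_wM0]
  have := rq_pos lam b
  split_ifs with h
  · rw [one_mul, abs_of_nonneg (nonneg_of_mul_nonneg_left h this)]
  · push Not at h
    have : Real.sin psi < 0 := by
      by_contra h'
      push Not at h'
      have := mul_nonneg h' this.le
      linarith
    rw [abs_of_neg this]
    ring

theorem oW1_mul (lam b psi : ℝ) : oW lam b psi 1 * |Real.sin b| = Real.sin b := by
  have e : wM lam b psi 1 1 0 = Real.sin b := by
    show (rot b) 1 0 = _
    simp [rot]
  unfold oW orient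
  rw [e]
  split_ifs with h
  · rw [one_mul, abs_of_nonneg h]
  · push Not at h
    rw [abs_of_neg h]
    ring

theorem W_zero (lam b psi : ℝ) : W lam b psi 0 = rr lam b * Real.cos psi := rfl
theorem W_one (lam b psi : ℝ) : W lam b psi 1 = Real.cos b := rfl
theorem W_two (lam b psi : ℝ) : W lam b psi 2 = rr lam b * Real.cos (psi + b) := rfl
theorem W_rec (lam b psi : ℝ) (k : ℕ) :
    W lam b psi (k + 3) = 2 * W lam b psi (k + 2) * W lam b psi (k + 1) - W lam b psi k := rfl

theorem exp_neg_I (t : ℝ) : Complex.exp (-(t : ℂ) * I) = ⟨Real.cos t, -Real.sin t⟩ := by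
  apply Complex.ext
  · rw [← Complex.ofReal_neg, Complex.exp_ofReal_mul_I_re, Real.cos_neg]
  · rw [← Complex.ofReal_neg, Complex.exp_ofReal_mul_I_im, Real.sin_neg]

theorem exp_I (t : ℝ) : Complex.exp ((t : ℂ) * I) = ⟨Real.cos t, Real.sin t⟩ := by
  apply Complex.ext
  · rw [Complex.exp_ofReal_mul_I_re]
  · rw [Complex.exp_ofReal_mul_I_im]

theorem re_pos (b psi : ℝ) :
    0 < (cpt (W lam b psi 0) (oW lam b psi 0) * Complex.exp (-(psi : ℂ) * I)).re := by
  rw [exp_neg_I, Complex.mul_re]
  unfold cpt
  simp only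
  have hr := one_le_rr lam b
  have hr0 : 0 < rr lam b := by linarith
  have key : clip (W lam b psi 0) * Real.cos psi -
      oW lam b psi 0 * Real.sqrt (1 - clip (W lam b psi 0) ^ 2) * -Real.sin psi
      = clip (W lam b psi 0) * Real.cos psi
        + (oW lam b psi 0 * Real.sin psi) * Real.sqrt (1 - clip (W lam b psi 0) ^ 2) := by ring
  rw [key, oW0_mul]
  by_cases h : |W lam b psi 0| < 1
  · rw [clip_of_lt h]
    rw [W_zero] at h ⊢
    have h1 := abs_lt.mp h
    have h2 : 0 < 1 - (rr lam b * Real.cos psi) ^ 2 := by nlinarith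
    have h3 := Real.sqrt_pos.mpr h2
    have h4 := Real.sin_sq_add_cos_sq psi
    have h5 : rr lam b * Real.cos psi * Real.cos psi = rr lam b * Real.cos psi ^ 2 := by ring
    rw [h5]
    by_cases hc : Real.cos psi = 0
    · rw [hc] at h4 ⊢
      have : 0 < |Real.sin psi| := by
        rw [abs_pos]
        intro h0
        rw [h0] at h4
        norm_num at h4
      have := mul_pos this (by rw [hc] at h3; exact h3 :
        0 < Real.sqrt (1 - (rr lam b * 0) ^ 2))
      linarith
    · have : 0 < rr lam b * Real.cos psi ^ 2 := by positivity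
      have := mul_nonneg (abs_nonneg (Real.sin psi)) h3.le
      linarith
  · push Not at h
    obtain ⟨h1, h2⟩ := clip_ge h
    rw [h2]
    have h3 : 0 < clip (W lam b psi 0) * Real.cos psi := by
      have h4 : clip (W lam b psi 0) * Real.cos psi = |W lam b psi 0| / rr lam b := by
        rw [← h1]
        rw [eq_div_iff hr0.ne']
        rw [W_zero]
        ring
      rw [h4]
      positivity
    simp
    exact h3

end F3bAux

open F3bAux

theorem T0_near (b psi : ℝ) (hb : Real.sin b ≠ 0) : |T0 lam b psi - psi| < Real.pi / 2 := by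
  unfold T0
  rw [add_sub_cancel_left]
  rw [Complex.abs_arg_lt_pi_div_two_iff]
  exact Or.inl (re_pos b psi)

theorem exp_T0 (b psi : ℝ) (hb : Real.sin b ≠ 0) :
    Complex.exp ((T0 lam b psi : ℂ) * I) = cc (fun j => W lam b psi j) (fun j => oW lam b psi j) 0 := by
  have hn : ‖cpt (W lam b psi 0) (oW lam b psi 0) * Complex.exp (-(psi : ℂ) * I)‖ = 1 := by
    rw [norm_mul, norm_cpt (W lam b psi 0) (oW lam b psi 0)
      (F0bAux.orient_cases (wM lam b psi 0)), ← Complex.ofReal_neg,
      Complex.norm_exp_ofReal_mul_I, one_mul]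
  have h := Complex.norm_mul_exp_arg_mul_I
    (cpt (W lam b psi 0) (oW lam b psi 0) * Complex.exp (-(psi : ℂ) * I))
  rw [hn, Complex.ofReal_one, one_mul] at h
  unfold T0
  rw [Complex.ofReal_add, add_mul, Complex.exp_add, h]
  unfold cc
  rw [mul_comm (cpt _ _), ← mul_assoc, ← Complex.exp_add]
  have : (psi : ℂ) * I + -(psi : ℂ) * I = 0 := by ring
  rw [this, Complex.exp_zero, one_mul]

theorem exp_T1 (b psi : ℝ) (hb : Real.sin b ≠ 0) :
    Complex.exp ((b : ℂ) * I) = cc (fun j => W lam b psi j) (fun j => oW lam b psi j) 1 := by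
  have hcos : |Real.cos b| < 1 := by
    rw [abs_lt]
    have h1 := Real.sin_sq_add_cos_sq b
    have h2 : 0 < Real.sin b ^ 2 := by positivity
    constructor <;> nlinarith
  rw [exp_I]
  unfold cc cpt
  simp only
  rw [W_one, clip_of_lt hcos]
  have : (1 : ℝ) - Real.cos b ^ 2 = Real.sin b ^ 2 := by
    have := Real.sin_sq_add_cos_sq b
    linarith
  rw [this, Real.sqrt_sq_eq_abs, oW1_mul]

theorem coord_spec (h : St lam x o) (h0 : 0 ≤ lam) (h1 : lam ≤ 1 / 100) (a0 a1 : ℝ)
    (e0 : Complex.exp ((a0 : ℂ) * I) = cc x o 0) (e1 : Complex.exp ((a1 : ℂ) * I) = cc x o 1)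
    (m : ℕ) (hm : 1 ≤ m) (hx : |x m| < 1) (i : ℕ) :
    W lam (lift x o a0 a1 m) (coord x (lift x o a0 a1) m) i = x (m - 1 + i) ∧
    TW lam (lift x o a0 a1 m) (coord x (lift x o a0 a1) m) i = lift x o a0 a1 (m - 1 + i) := by
  obtain ⟨n, rfl⟩ : ∃ n, m = n + 1 := ⟨m - 1, by omega⟩
  simp only [Nat.add_sub_cancel]
  set th := lift x o a0 a1 with hth
  set b := th (n + 1) with hb
  set a := th n with ha
  set psi := coord x th (n + 1) with hpsi
  have hcosb : Real.cos b = x (n + 1) := by
    rw [hb, hth, cos_lift h a0 a1 e0 e1, clip_of_lt hx]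
  have hsb : Real.sin b = o (n + 1) * Real.sqrt (1 - x (n + 1) ^ 2) := by
    rw [hb, hth, sin_lift h a0 a1 e0 e1, clip_of_lt hx]
  have hsbne : Real.sin b ≠ 0 := (sin_lift_ne h a0 a1 e0 e1 (n + 1)).mpr hx
  have hcosa : Real.cos a = clip (x n) := by rw [ha, hth, cos_lift h a0 a1 e0 e1]
  have hsa : Real.sin a = o n * Real.sqrt (1 - clip (x n) ^ 2) := by
    rw [ha, hth, sin_lift h a0 a1 e0 e1]
  set y := (x n * x (n + 1) - x (n + 2)) / Real.sin b with hy
  have hys : y * Real.sin b = x n * x (n + 1) - x (n + 2) := by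
    rw [hy]
    field_simp
  have hinv := h.inv n
  have hsc := Real.sin_sq_add_cos_sq b
  have hr0 : 0 < rr lam b := by have := one_le_rr lam b; linarith
  have hrsq : x n ^ 2 + y ^ 2 = rr lam b ^ 2 := by
    rw [rr_sq]
    have hq : qq lam b ^ 2 * Real.sin b ^ 2 = lam ^ 2 / 4 := by
      unfold qq
      rw [div_pow, mul_pow, sq_abs]
      field_simp
      ring
    have h2 : (x n ^ 2 + y ^ 2) * Real.sin b ^ 2 = (1 + qq lam b ^ 2) * Real.sin b ^ 2 := by
      have h3 : (x n ^ 2 + y ^ 2) * Real.sin b ^ 2 = x n ^ 2 * Real.sin b ^ 2 + (y * Real.sin b) ^ 2 := by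
        ring
      rw [h3, hys, add_mul, hq]
      rw [hcosb] at hsc
      have h4 : Real.sin b ^ 2 = 1 - x (n + 1) ^ 2 := by linarith
      rw [h4]
      linear_combination hinv
    exact mul_right_cancel₀ (pow_ne_zero 2 hsbne) h2
  -- the sign of y
  have hsgn : |x n| < 1 → 0 < y * o n := by
    intro hn
    have hr := h.rel1 n hn hx
    have h3 : x (n + 2) - x (n + 1) * x n = - (y * Real.sin b) := by rw [hys]; ring
    rw [h3, hsb] at hr
    have h4 : 0 < Real.sqrt (1 - x (n + 1) ^ 2) := by
      apply Real.sqrt_pos.mpr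
      have := abs_lt.mp hx
      nlinarith
    have h5 : o (n + 1) * o (n + 1) = 1 := by
      rcases h.ori (n + 1) with e | e <;> rw [e] <;> norm_num
    have h6 : -(y * (o (n + 1) * Real.sqrt (1 - x (n + 1) ^ 2))) * (o n * o (n + 1))
      = - ((y * o n) * Real.sqrt (1 - x (n + 1) ^ 2)) := by
      linear_combination (- y * o n * Real.sqrt (1 - x (n + 1) ^ 2)) * h5
    rw [h6] at hr
    have h7 : 0 < (y * o n) * Real.sqrt (1 - x (n + 1) ^ 2) := by linarith
    exact pos_of_mul_pos_left h7 h4.le
  -- the point z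
  set z : ℂ := ⟨x n, y⟩ with hz
  have hzn : ‖z‖ = rr lam b := by
    rw [Complex.norm_def, Complex.normSq_apply]
    rw [← Real.sqrt_sq hr0.le, ← hrsq]
    congr 1
    simp [hz]
    ring
  have hpsi' : psi = a + Complex.arg (z * Complex.exp (-(a : ℂ) * I)) := by
    rw [hpsi]
    unfold coord
    simp only [Nat.add_sub_cancel]
    rfl
  have hwn : ‖z * Complex.exp (-(a : ℂ) * I)‖ = rr lam b := by
    rw [norm_mul, hzn, ← Complex.ofReal_neg, Complex.norm_exp_ofReal_mul_I, mul_one]
  have hw := Complex.norm_mul_exp_arg_mul_I (z * Complex.exp (-(a : ℂ) * I))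
  rw [hwn] at hw
  have hez : (rr lam b : ℂ) * Complex.exp ((psi : ℂ) * I) = z := by
    rw [hpsi', Complex.ofReal_add, add_mul, Complex.exp_add, mul_left_comm, hw,
      mul_comm z, ← mul_assoc, ← Complex.exp_add]
    have : (a : ℂ) * I + -(a : ℂ) * I = 0 := by ring
    rw [this, Complex.exp_zero, one_mul]
  have hrc : rr lam b * Real.cos psi = x n := by
    have := congrArg Complex.re hez
    rw [exp_I, Complex.re_ofReal_mul] at this
    exact this
  have hrs : rr lam b * Real.sin psi = y := by
    have := congrArg Complex.im hez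
    rw [exp_I, Complex.im_ofReal_mul] at this
    exact this
  -- W
  have hW : ∀ i, W lam b psi i = x (n + i) := by
    have key : ∀ i, W lam b psi i = x (n + i) ∧ W lam b psi (i + 1) = x (n + i + 1) ∧
        W lam b psi (i + 2) = x (n + i + 2) := by
      intro i
      induction i with
      | zero =>
        refine ⟨?_, ?_, ?_⟩
        · rw [W_zero, hrc, Nat.add_zero]
        · rw [W_one, hcosb]
        · rw [W_two, Real.cos_add]
          have : rr lam b * (Real.cos psi * Real.cos b - Real.sin psi * Real.sin b)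
            = (rr lam b * Real.cos psi) * Real.cos b - (rr lam b * Real.sin psi) * Real.sin b := by
            ring
          rw [this, hrc, hrs, hcosb, hys]
          show _ = x (n + 2)
          ring
      | succ i ih =>
        obtain ⟨i0, i1, i2⟩ := ih
        refine ⟨i1, i2, ?_⟩
        show W lam b psi (i + 3) = x (n + i + 3)
        rw [W_rec, i0, i1, i2, h.rec3 (n + i)]
    exact fun i => (key i).1
  refine ⟨hW i, ?_⟩
  have hWx : (fun j => W lam b psi j) = fun j => x (n + j) := funext hW
  -- state sequences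
  have s1 := St_word lam b psi hsbne
  have s2 := St_tail h n hx
  have hc0 : cc (fun j => W lam b psi j) (fun j => oW lam b psi j) 0
      = cc (fun j => x (n + j)) (fun j => o (n + j)) 0 := by
    rw [hWx]
    unfold cc
    simp only [Nat.add_zero]
    by_cases hn : |x n| < 1
    · have h2 := hsgn hn
      have h3 := oW0_mul lam b psi
      have h4 : oW lam b psi 0 = o n := by
        have h5 : Real.sin psi * o n > 0 := by
          have : (rr lam b * Real.sin psi) * o n > 0 := by rw [hrs]; exact h2
          have : 0 < rr lam b * (Real.sin psi * o n) := by linarith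
          exact pos_of_mul_pos_right this hr0.le
        have h6 : Real.sin psi ≠ 0 := by
          intro h7
          rw [h7] at h5
          simp at h5
        have h7 : 0 < oW lam b psi 0 * Real.sin psi := by
          rw [h3]
          exact abs_pos.mpr h6
        rcases h.ori n with e | e <;> rcases F0bAux.orient_cases (wM lam b psi 0) with e' | e' <;>
          (have e'' : oW lam b psi 0 = _ := e'
           rw [e''] at h7
           rw [e] at h5
           rw [e, e''])
        · exfalso; linarith
        · exfalso; linarith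
      rw [h4]
    · push Not at hn
      exact cpt_ge hn
  have hc1 : cc (fun j => W lam b psi j) (fun j => oW lam b psi j) 1
      = cc (fun j => x (n + j)) (fun j => o (n + j)) 1 := by
    rw [← exp_T1 b psi hsbne]
    have := exp_lift h a0 a1 e0 e1 (n + 1)
    rw [hb, hth, this]
    rfl
  have hcc : ∀ k, cc (fun j => W lam b psi j) (fun j => oW lam b psi j) k = cc x o (n + k) := by
    intro k
    rw [hWx] at s1 hc0 hc1 ⊢
    exact cc_unique' s1 s2 hx hc0 hc1 k
  have heta : ∀ k, eta (fun j => W lam b psi j) (fun j => oW lam b psi j) k = eta x o (n + k) := by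
    intro k
    unfold eta
    rw [hcc, hcc, hcc]
    rfl
  have hT0 : T0 lam b psi = a := by
    unfold T0
    have hca : cpt (W lam b psi 0) (oW lam b psi 0) = Complex.exp ((a : ℂ) * I) := by
      have := hcc 0
      rw [ha, hth, exp_lift h a0 a1 e0 e1 n]
      exact this
    have hd : psi - a = Complex.arg (z * Complex.exp (-(a : ℂ) * I)) := by rw [hpsi']; ring
    have hre : 0 < (z * Complex.exp (-(a : ℂ) * I)).re := by
      rw [exp_neg_I, Complex.mul_re]
      simp only [hz]
      rw [hcosa, hsa]
      by_cases hn : |x n| < 1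
      · rw [clip_of_lt hn]
        have h2 := hsgn hn
        have h4 : 0 < Real.sqrt (1 - x n ^ 2) := by
          apply Real.sqrt_pos.mpr
          have := abs_lt.mp hn
          nlinarith
        have := mul_pos h2 h4
        nlinarith [mul_self_nonneg (x n)]
      · push Not at hn
        obtain ⟨h3, h4⟩ := clip_ge hn
        rw [h4]
        simp
        rw [mul_comm, h3]
        linarith
    have hlt : |psi - a| < Real.pi / 2 := by
      rw [hd, Complex.abs_arg_lt_pi_div_two_iff]
      exact Or.inl hre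
    have hab := abs_lt.mp hlt
    rw [hca, ← Complex.exp_add]
    have h5 : (a : ℂ) * I + -(psi : ℂ) * I = ((a - psi : ℝ) : ℂ) * I := by
      push_cast
      ring
    rw [h5, Complex.arg_exp_mul_I]
    have h6 : toIocMod (mul_pos two_pos Real.pi_pos) (-Real.pi) (a - psi) = a - psi := by
      rw [toIocMod_eq_self]
      have := Real.pi_pos
      constructor
      · linarith
      · linarith
    rw [h6]
    ring
  have key : ∀ i, TW lam b psi i = th (n + i) ∧ TW lam b psi (i + 1) = th (n + i + 1) := by
    intro i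
    induction i with
    | zero => exact ⟨hT0, rfl⟩
    | succ i ih =>
      refine ⟨ih.2, ?_⟩
      have e3 : TW lam b psi (i + 1 + 1) = TW lam b psi (i + 1) + TW lam b psi i
        + eta (fun j => W lam b psi j) (fun j => oW lam b psi j) i := rfl
      have e4 : th (n + i + 1 + 1) = th (n + i + 1) + th (n + i) + eta x o (n + i) := rfl
      rw [e3, ih.1, ih.2, heta i]
      exact e4.symm
  exact (key i).1

namespace F3bAux

theorem neg_one_fib (i j : ℤ) (k : ℕ) :
    ((-1 : ℝ) ^ (fibz i j (k + 2))) = (-1) ^ (fibz i j k) * (-1) ^ (fibz i j (k + 1)) := by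
  have : fibz i j (k + 2) = fibz i j k + fibz i j (k + 1) := by
    rw [add_comm (fibz i j k)]
    rfl
  rw [this, zpow_add₀ (by norm_num)]

theorem neg_one_slf (n : ℤ) : ((-1 : ℝ) ^ n) * (-1) ^ n = 1 := by
  rw [← mul_zpow]
  norm_num

theorem neg_one_cases (n : ℤ) : ((-1 : ℝ) ^ n) = 1 ∨ ((-1 : ℝ) ^ n) = -1 := by
  have h := neg_one_slf n
  have : ((-1 : ℝ) ^ n - 1) * ((-1 : ℝ) ^ n + 1) = 0 := by ring_nf; nlinarith
  rcases mul_eq_zero.mp this with h | h
  · left; linarith
  · right; linarith

theorem abs_sin_shift (b : ℝ) (j : ℤ) : |Real.sin (b + j * Real.pi)| = |Real.sin b| := by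
  rw [Real.sin_add_int_mul_pi, abs_mul]
  rcases neg_one_cases j with h | h <;> rw [h] <;> simp

theorem qq_shift (b : ℝ) (j : ℤ) : qq lam (b + j * Real.pi) = qq lam b := by
  unfold qq
  rw [abs_sin_shift]

theorem rr_shift (b : ℝ) (j : ℤ) : rr lam (b + j * Real.pi) = rr lam b := by
  unfold rr
  rw [qq_shift]

theorem hyp_shift (b : ℝ) (j : ℤ) : hyp lam (b + j * Real.pi) = hyp lam b := by
  unfold hyp
  rw [qq_shift, rr_shift]

theorem rot_shift (z : ℝ) (j : ℤ) : rot (z + j * Real.pi) = ((-1 : ℝ) ^ j) • rot z := by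
  unfold rot
  rw [Real.sin_add_int_mul_pi, Real.cos_add_int_mul_pi]
  ext p q
  fin_cases p <;> fin_cases q <;> simp

theorem wM_shift (b psi : ℝ) (i j : ℤ) (k : ℕ) :
    wM lam (b + j * Real.pi) (psi + i * Real.pi) k = ((-1 : ℝ) ^ (fibz i j k)) • wM lam b psi k := by
  have key : ∀ k, wM lam (b + j * Real.pi) (psi + i * Real.pi) k
      = ((-1 : ℝ) ^ (fibz i j k)) • wM lam b psi k ∧
      wM lam (b + j * Real.pi) (psi + i * Real.pi) (k + 1)
      = ((-1 : ℝ) ^ (fibz i j (k + 1))) • wM lam b psi (k + 1) := by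
    intro k
    induction k with
    | zero =>
      constructor
      · show rot (psi + i * Real.pi) * hyp lam (b + j * Real.pi) = ((-1 : ℝ) ^ i) • (rot psi * hyp lam b)
        rw [rot_shift, hyp_shift, Matrix.smul_mul]
      · exact rot_shift b j
    | succ k ih =>
      refine ⟨ih.2, ?_⟩
      have e3 : wM lam (b + j * Real.pi) (psi + i * Real.pi) (k + 1 + 1)
        = wM lam (b + j * Real.pi) (psi + i * Real.pi) k
          * wM lam (b + j * Real.pi) (psi + i * Real.pi) (k + 1) := rfl
      have e4 : wM lam b psi (k + 1 + 1) = wM lam b psi k * wM lam b psi (k + 1) := rfl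
      rw [e3, e4, ih.1, ih.2, neg_one_fib, Matrix.smul_mul, Matrix.mul_smul, smul_smul]
  exact (key k).1

end F3bAux

theorem W_shift (b psi : ℝ) (i j : ℤ) (k : ℕ) :
    W lam (b + j * Real.pi) (psi + i * Real.pi) k = (-1) ^ (fibz i j k) * W lam b psi k := by
  have h1 := trace_wM lam (b + j * Real.pi) (psi + i * Real.pi) k
  have h2 := trace_wM lam b psi k
  rw [wM_shift, Matrix.trace_smul, smul_eq_mul, h2] at h1
  linarith

theorem TW_shift (b psi : ℝ) (hb : Real.sin b ≠ 0) (i j : ℤ) (k : ℕ) :
    TW lam (b + j * Real.pi) (psi + i * Real.pi) k = TW lam b psi k + (fibz i j k : ℝ) * Real.pi := by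
  set b' := b + j * Real.pi with hb'
  set psi' := psi + i * Real.pi with hpsi'
  have hc : ∀ k, cpt (W lam b' psi' k) (oW lam b' psi' k)
      = (((-1 : ℝ) ^ (fibz i j k) : ℝ) : ℂ) * cpt (W lam b psi k) (oW lam b psi k) := by
    intro k
    have hW := W_shift (lam := lam) b psi i j k
    have hM := wM_shift (lam := lam) b psi i j k
    rw [← hb', ← hpsi'] at hW hM
    rcases neg_one_cases (fibz i j k) with e | e
    · rw [e] at hW hM ⊢
      unfold oW
      rw [hW, hM]
      simp
    · rw [e] at hW hM ⊢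
      have hW2 : W lam b' psi' k = - W lam b psi k := by linarith
      rw [hW2]
      by_cases hx : |W lam b psi k| < 1
      · have hne : wM lam b psi k 1 0 ≠ 0 := by
          apply ori_ne _ (det_wM lam b psi k)
          rw [trace_wM, abs_mul, abs_two]
          linarith
        have ho : oW lam b' psi' k = - oW lam b psi k := by
          unfold oW orient
          rw [hM]
          simp only [Matrix.smul_apply, smul_eq_mul]
          rcases lt_or_gt_of_ne hne with h | h
          · rw [if_pos (by linarith), if_neg (by linarith)]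
            norm_num
          · rw [if_neg (by linarith), if_pos (by linarith)]
        rw [ho]
        unfold cpt
        rw [clip_neg]
        apply Complex.ext
        · simp
        · simp
      · push Not at hx
        have hx' : 1 ≤ |(- W lam b psi k)| := by rw [abs_neg]; exact hx
        rw [cpt_ge (o' := - oW lam b psi k) hx']
        unfold cpt
        rw [clip_neg]
        apply Complex.ext
        · simp
        · simp
  have heta : ∀ k, eta (fun j => W lam b' psi' j) (fun j => oW lam b' psi' j) k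
      = eta (fun j => W lam b psi j) (fun j => oW lam b psi j) k := by
    intro k
    unfold eta cc
    simp only
    rw [hc, hc, hc, neg_one_fib]
    congr 1
    rw [map_mul, map_mul, map_mul, map_mul, Complex.conj_ofReal, Complex.conj_ofReal]
    have s0 : ((((-1 : ℝ) ^ (fibz i j k) : ℝ) : ℂ)) * (((-1 : ℝ) ^ (fibz i j k) : ℝ) : ℂ) = 1 := by
      rw [← Complex.ofReal_mul, neg_one_slf]
      simp
    have s1 : ((((-1 : ℝ) ^ (fibz i j (k + 1)) : ℝ) : ℂ)) * (((-1 : ℝ) ^ (fibz i j (k + 1)) : ℝ) : ℂ)
        = 1 := by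
      rw [← Complex.ofReal_mul, neg_one_slf]
      simp
    rw [Complex.ofReal_mul]
    generalize (((-1 : ℝ) ^ (fibz i j k) : ℝ) : ℂ) = s at *
    generalize (((-1 : ℝ) ^ (fibz i j (k + 1)) : ℝ) : ℂ) = t at *
    generalize cpt (W lam b psi (k + 2)) (oW lam b psi (k + 2)) = u
    generalize (starRingEnd ℂ) (cpt (W lam b psi (k + 1)) (oW lam b psi (k + 1))) = v
    generalize (starRingEnd ℂ) (cpt (W lam b psi k) (oW lam b psi k)) = w
    linear_combination (u * v * w * t * t) * s0 + (u * v * w) * s1
  have hT0 : T0 lam b' psi' = T0 lam b psi + (i : ℝ) * Real.pi := by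
    unfold T0
    rw [hc 0]
    have e1 : Complex.exp (-(psi' : ℂ) * I)
        = (((-1 : ℝ) ^ i : ℝ) : ℂ) * Complex.exp (-(psi : ℂ) * I) := by
      rw [exp_neg_I, exp_neg_I, hpsi', Real.cos_add_int_mul_pi, Real.sin_add_int_mul_pi]
      apply Complex.ext
      · rw [Complex.re_ofReal_mul]
      · rw [Complex.im_ofReal_mul]
        simp
    rw [e1]
    have e2 : (((-1 : ℝ) ^ (fibz i j 0) : ℝ) : ℂ) * (((-1 : ℝ) ^ i : ℝ) : ℂ) = 1 := by
      rw [← Complex.ofReal_mul]
      have : fibz i j 0 = i := rfl
      rw [this, neg_one_slf]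
      simp
    have e3 : ∀ c e : ℂ, (((-1 : ℝ) ^ (fibz i j 0) : ℝ) : ℂ) * c * ((((-1 : ℝ) ^ i : ℝ) : ℂ) * e)
        = c * e := by
      intro c e
      linear_combination (c * e) * e2
    rw [e3, hpsi']
    ring
  have key : ∀ k, TW lam b' psi' k = TW lam b psi k + (fibz i j k : ℝ) * Real.pi ∧
      TW lam b' psi' (k + 1) = TW lam b psi (k + 1) + (fibz i j (k + 1) : ℝ) * Real.pi := by
    intro k
    induction k with
    | zero => exact ⟨hT0, rfl⟩
    | succ k ih =>
      refine ⟨ih.2, ?_⟩
      have e3 : TW lam b' psi' (k + 1 + 1) = TW lam b' psi' (k + 1) + TW lam b' psi' k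
        + eta (fun j => W lam b' psi' j) (fun j => oW lam b' psi' j) k := rfl
      have e4 : TW lam b psi (k + 1 + 1) = TW lam b psi (k + 1) + TW lam b psi k
        + eta (fun j => W lam b psi j) (fun j => oW lam b psi j) k := rfl
      have e5 : fibz i j (k + 1 + 1) = fibz i j (k + 1) + fibz i j k := rfl
      rw [e3, e4, e5, ih.1, ih.2, heta k]
      push_cast
      ring
  exact (key k).1

end SF
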