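import Pool.Agent.Helper65.SF.F4d
import Pool.Agent.Helper65.SF.F3b

/-!
# SF-F5: lifted angles of the word family

Proof in words.  `fibz 1 0 k = 1,0,1,1,2,3,...` is the number of factors `rot psi` in `wM k`.
* `TW_exp`, `TW_defect`: F3 with `St_word`.
* `TW_continuous`: as `TE_continuous`, jointly in `(b, psi)` on `sin b ≠ 0` (`T0` is `psi` + arg of a
  number with positive real part).
* `TW_deriv`: as `TE_deriv`; `M k' = Om k M k`, `Om 0 = J = [[0,-1],[1,0]]` has mass 1, `Om 1 = 0`,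
  `Om (k+2) = Om k + M k Om (k+1) (M k)⁻¹`, so the mass of `Om k` is `>= fibz 1 0 k`.
* `TW_mono`: `mono_of_lift` (k = 1 is constant).
* `TW_surj`: `TW (psi + pi) = TW psi + pi fibz 1 0 k` (`TW_shift`), continuity.
-/

namespace SF

open Complex

theorem W_differentiable (lam b : ℝ) (k : ℕ) : Differentiable ℝ (fun psi => W lam b psi k) := by
  unfold W
  refine (h94_tr_diff (fun psi => rr lam b * Real.cos psi) (fun _ => Real.cos b)
    (fun psi => rr lam b * Real.cos (psi + b)) ?_ ?_ ?_ k).1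
  · exact (differentiable_const _).mul Real.differentiable_cos
  · exact differentiable_const _
  · exact (differentiable_const _).mul
      (Real.differentiable_cos.comp (differentiable_id.add (differentiable_const b)))

theorem TW_one (lam b psi : ℝ) : TW lam b psi 1 = b := rfl

theorem TW_exp (lam b psi : ℝ) (hb : Real.sin b ≠ 0) (k : ℕ) :
    Complex.exp ((TW lam b psi k : ℂ) * I)
      = cc (fun j => W lam b psi j) (fun j => oW lam b psi j) k :=
  exp_lift (St_word lam b psi hb) (T0 lam b psi) b (exp_T0 b psi hb) (exp_T1 b psi hb) k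

theorem cos_TW (lam b psi : ℝ) (hb : Real.sin b ≠ 0) (k : ℕ) :
    Real.cos (TW lam b psi k) = clip (W lam b psi k) :=
  cos_lift (St_word lam b psi hb) (T0 lam b psi) b (exp_T0 b psi hb) (exp_T1 b psi hb) k

theorem sin_TW_ne (lam b psi : ℝ) (hb : Real.sin b ≠ 0) (k : ℕ) :
    Real.sin (TW lam b psi k) ≠ 0 ↔ |W lam b psi k| < 1 :=
  sin_lift_ne (St_word lam b psi hb) (T0 lam b psi) b (exp_T0 b psi hb) (exp_T1 b psi hb) k

theorem h7_TW_add (lam b psi : ℝ) (k : ℕ) : TW lam b psi (k + 2) = TW lam b psi (k + 1) +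
    TW lam b psi k + eta (fun j => W lam b psi j) (fun j => oW lam b psi j) k := rfl

theorem TW_defect (lam b psi : ℝ) (h0 : 0 ≤ lam) (h1 : lam ≤ 1 / 100) (hb : Real.sin b ≠ 0) (k : ℕ) :
    |TW lam b psi (k + 2) - TW lam b psi (k + 1) - TW lam b psi k| ≤ 7 * Real.sqrt lam := by
  have h := eta_le (St_word lam b psi hb) h0 h1 k
  rw [h7_TW_add]
  have : TW lam b psi (k + 1) + TW lam b psi k +
      eta (fun j => W lam b psi j) (fun j => oW lam b psi j) k -
      TW lam b psi (k + 1) - TW lam b psi k =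
      eta (fun j => W lam b psi j) (fun j => oW lam b psi j) k := by ring
  rw [this]
  exact h

/-! ### Continuity (helper7) -/

theorem h7_qq (lam : ℝ) (p0 : ℝ × ℝ) (hp : Real.sin p0.1 ≠ 0) :
    ContinuousAt (fun p : ℝ × ℝ => qq lam p.1) p0 := by
  unfold qq
  refine ContinuousAt.div continuousAt_const ?_ ?_
  · exact (continuous_const.mul (Real.continuous_sin.comp continuous_fst).abs).continuousAt
  · exact mul_ne_zero two_ne_zero (abs_ne_zero.2 hp)

theorem h7_rr (lam : ℝ) (p0 : ℝ × ℝ) (hp : Real.sin p0.1 ≠ 0) :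
    ContinuousAt (fun p : ℝ × ℝ => rr lam p.1) p0 := by
  unfold rr
  exact (continuousAt_const.add ((h7_qq lam p0 hp).pow 2)).sqrt

theorem h7_W (lam : ℝ) (p0 : ℝ × ℝ) (hp : Real.sin p0.1 ≠ 0) (k : ℕ) :
    ContinuousAt (fun p : ℝ × ℝ => W lam p.1 p.2 k) p0 := by
  have hr := h7_rr lam p0 hp
  have key : ∀ k, ContinuousAt (fun p : ℝ × ℝ => W lam p.1 p.2 k) p0 ∧
      ContinuousAt (fun p : ℝ × ℝ => W lam p.1 p.2 (k + 1)) p0 ∧
      ContinuousAt (fun p : ℝ × ℝ => W lam p.1 p.2 (k + 2)) p0 := by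
    intro k
    induction k with
    | zero =>
      refine ⟨?_, ?_, ?_⟩
      · change ContinuousAt (fun p : ℝ × ℝ => rr lam p.1 * Real.cos p.2) p0
        exact hr.mul (Real.continuous_cos.comp continuous_snd).continuousAt
      · change ContinuousAt (fun p : ℝ × ℝ => Real.cos p.1) p0
        exact (Real.continuous_cos.comp continuous_fst).continuousAt
      · change ContinuousAt (fun p : ℝ × ℝ => rr lam p.1 * Real.cos (p.2 + p.1)) p0
        exact hr.mul (Real.continuous_cos.comp (continuous_snd.add continuous_fst)).continuousAt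
    | succ k ih =>
      refine ⟨ih.2.1, ih.2.2, ?_⟩
      change ContinuousAt (fun p : ℝ × ℝ => 2 * W lam p.1 p.2 (k + 2) * W lam p.1 p.2 (k + 1) -
        W lam p.1 p.2 k) p0
      exact ((continuousAt_const.mul ih.2.2).mul ih.2.1).sub ih.1
  exact (key k).1

theorem h7_wM (lam : ℝ) (p0 : ℝ × ℝ) (hp : Real.sin p0.1 ≠ 0) (k : ℕ) (i j : Fin 2) :
    ContinuousAt (fun p : ℝ × ℝ => wM lam p.1 p.2 k i j) p0 := by
  have hr := h7_rr lam p0 hp
  have hq := h7_qq lam p0 hp
  have c1 : ContinuousAt (fun p : ℝ × ℝ => Real.cos p.1) p0 :=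
    (Real.continuous_cos.comp continuous_fst).continuousAt
  have s1 : ContinuousAt (fun p : ℝ × ℝ => Real.sin p.1) p0 :=
    (Real.continuous_sin.comp continuous_fst).continuousAt
  have c2 : ContinuousAt (fun p : ℝ × ℝ => Real.cos p.2) p0 :=
    (Real.continuous_cos.comp continuous_snd).continuousAt
  have s2 : ContinuousAt (fun p : ℝ × ℝ => Real.sin p.2) p0 :=
    (Real.continuous_sin.comp continuous_snd).continuousAt
  have key : ∀ k, (∀ i j, ContinuousAt (fun p : ℝ × ℝ => wM lam p.1 p.2 k i j) p0) ∧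
      (∀ i j, ContinuousAt (fun p : ℝ × ℝ => wM lam p.1 p.2 (k + 1) i j) p0) := by
    intro k
    induction k with
    | zero =>
      constructor
      · intro i j
        have hfun : (fun p : ℝ × ℝ => wM lam p.1 p.2 0 i j) =
            fun p : ℝ × ℝ => (rot p.2) i 0 * (hyp lam p.1) 0 j + (rot p.2) i 1 * (hyp lam p.1) 1 j := by
          funext p
          change (rot p.2 * hyp lam p.1) i j = _
          rw [Matrix.mul_apply, Fin.sum_univ_two]
        rw [hfun]
        have hrot : ∀ i j, ContinuousAt (fun p : ℝ × ℝ => (rot p.2) i j) p0 := by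
          intro i j
          fin_cases i <;> fin_cases j
          · exact c2
          · exact s2.neg
          · exact s2
          · exact c2
        have hhyp : ∀ i j, ContinuousAt (fun p : ℝ × ℝ => (hyp lam p.1) i j) p0 := by
          intro i j
          fin_cases i <;> fin_cases j
          · exact hr.add hq
          · exact continuousAt_const
          · exact continuousAt_const
          · exact hr.sub hq
        exact ((hrot i 0).mul (hhyp 0 j)).add ((hrot i 1).mul (hhyp 1 j))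
      · intro i j
        change ContinuousAt (fun p : ℝ × ℝ => (rot p.1) i j) p0
        fin_cases i <;> fin_cases j
        · exact c1
        · exact s1.neg
        · exact s1
        · exact c1
    | succ k ih =>
      refine ⟨ih.2, ?_⟩
      intro i j
      have hfun : (fun p : ℝ × ℝ => wM lam p.1 p.2 (k + 1 + 1) i j) =
          fun p : ℝ × ℝ => wM lam p.1 p.2 k i 0 * wM lam p.1 p.2 (k + 1) 0 j +
            wM lam p.1 p.2 k i 1 * wM lam p.1 p.2 (k + 1) 1 j := by
        funext p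
        change (wM lam p.1 p.2 k * wM lam p.1 p.2 (k + 1)) i j = _
        rw [Matrix.mul_apply, Fin.sum_univ_two]
      rw [hfun]
      exact ((ih.1 i 0).mul (ih.2 0 j)).add ((ih.1 i 1).mul (ih.2 1 j))
  exact (key k).1 i j

theorem h7_im (lam : ℝ) (p0 : ℝ × ℝ) (hp : Real.sin p0.1 ≠ 0) (k : ℕ) :
    ContinuousAt (fun p : ℝ × ℝ =>
      oW lam p.1 p.2 k * Real.sqrt (1 - clip (W lam p.1 p.2 k) ^ 2)) p0 := by
  have hW := h7_W lam p0 hp k
  have hs : ContinuousAt (fun p : ℝ × ℝ => Real.sqrt (1 - clip (W lam p.1 p.2 k) ^ 2)) p0 := by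
    have h := ContinuousAt.comp (f := fun p : ℝ × ℝ => W lam p.1 p.2 k) (g := clip) (x := p0)
      h94_clip_cont.continuousAt hW
    exact (continuousAt_const.sub (h.pow 2)).sqrt
  rcases lt_or_ge (|W lam p0.1 p0.2 k|) 1 with h | h
  · have hne : wM lam p0.1 p0.2 k 1 0 ≠ 0 := by
      apply ori_ne _ (det_wM lam p0.1 p0.2 k)
      rw [trace_wM, abs_mul, abs_two]
      linarith
    have hc := h7_wM lam p0 hp k 1 0
    have hloc : ∀ᶠ p in nhds p0, oW lam p.1 p.2 k = oW lam p0.1 p0.2 k := by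
      rcases lt_or_gt_of_ne hne with h1 | h1
      · have := hc.eventually (gt_mem_nhds h1)
        filter_upwards [this] with p ht
        unfold oW orient
        rw [if_neg (not_le.2 ht), if_neg (not_le.2 h1)]
      · have := hc.eventually (lt_mem_nhds h1)
        filter_upwards [this] with p ht
        unfold oW orient
        rw [if_pos ht.le, if_pos h1.le]
    have h2 : ContinuousAt (fun p : ℝ × ℝ =>
        oW lam p0.1 p0.2 k * Real.sqrt (1 - clip (W lam p.1 p.2 k) ^ 2)) p0 :=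
      continuousAt_const.mul hs
    refine h2.congr ?_
    filter_upwards [hloc] with p ht
    rw [ht]
  · have hz : Real.sqrt (1 - clip (W lam p0.1 p0.2 k) ^ 2) = 0 := by
      rcases le_abs'.1 h with h1 | h1
      · rw [h94_clip_of_le h1]; norm_num
      · rw [h94_clip_of_ge h1]; norm_num
    change Filter.Tendsto (fun p : ℝ × ℝ =>
      oW lam p.1 p.2 k * Real.sqrt (1 - clip (W lam p.1 p.2 k) ^ 2))
      (nhds p0) (nhds (oW lam p0.1 p0.2 k * Real.sqrt (1 - clip (W lam p0.1 p0.2 k) ^ 2)))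
    rw [hz, mul_zero]
    rw [tendsto_zero_iff_abs_tendsto_zero]
    have h3 : Filter.Tendsto (fun p : ℝ × ℝ => Real.sqrt (1 - clip (W lam p.1 p.2 k) ^ 2)) (nhds p0)
        (nhds 0) := by
      rw [← hz]
      exact hs
    refine h3.congr ?_
    intro p
    simp only [Function.comp_apply]
    rw [abs_mul]
    unfold oW
    rw [h94_orient_abs, one_mul, abs_of_nonneg (Real.sqrt_nonneg _)]

theorem h7_cc (lam : ℝ) (p0 : ℝ × ℝ) (hp : Real.sin p0.1 ≠ 0) (k : ℕ) :
    ContinuousAt (fun p : ℝ × ℝ =>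
      cc (fun j => W lam p.1 p.2 j) (fun j => oW lam p.1 p.2 j) k) p0 := by
  have hW := h7_W lam p0 hp k
  have h1 : ContinuousAt (fun p : ℝ × ℝ => clip (W lam p.1 p.2 k)) p0 :=
    ContinuousAt.comp (f := fun p : ℝ × ℝ => W lam p.1 p.2 k) (g := clip) (x := p0)
      h94_clip_cont.continuousAt hW
  have h2 := h7_im lam p0 hp k
  have h3 : (fun p : ℝ × ℝ => cc (fun j => W lam p.1 p.2 j) (fun j => oW lam p.1 p.2 j) k) =
      fun p : ℝ × ℝ => ((clip (W lam p.1 p.2 k) : ℝ) : ℂ) +
        ((oW lam p.1 p.2 k * Real.sqrt (1 - clip (W lam p.1 p.2 k) ^ 2) : ℝ) : ℂ) * I := by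
    funext p
    unfold cc cpt
    apply Complex.ext <;> simp
  rw [h3]
  exact (Complex.continuous_ofReal.continuousAt.comp' h1).add
    ((Complex.continuous_ofReal.continuousAt.comp' h2).mul continuousAt_const)

theorem h7_eta (lam : ℝ) (h0 : 0 ≤ lam) (h1 : lam ≤ 1 / 100) (p0 : ℝ × ℝ)
    (hp : Real.sin p0.1 ≠ 0) (k : ℕ) :
    ContinuousAt (fun p : ℝ × ℝ =>
      eta (fun j => W lam p.1 p.2 j) (fun j => oW lam p.1 p.2 j) k) p0 := by
  unfold eta
  have hu : ContinuousAt (fun p : ℝ × ℝ =>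
      cc (fun j => W lam p.1 p.2 j) (fun j => oW lam p.1 p.2 j) (k + 2) *
      (starRingEnd ℂ) (cc (fun j => W lam p.1 p.2 j) (fun j => oW lam p.1 p.2 j) (k + 1) *
        cc (fun j => W lam p.1 p.2 j) (fun j => oW lam p.1 p.2 j) k)) p0 :=
    (h7_cc lam p0 hp (k + 2)).mul
      (Complex.continuous_conj.continuousAt.comp' ((h7_cc lam p0 hp (k + 1)).mul (h7_cc lam p0 hp k)))
  have hS := St_word lam p0.1 p0.2 hp
  have hn : ∀ j, ‖cc (fun j => W lam p0.1 p0.2 j) (fun j => oW lam p0.1 p0.2 j) j‖ = 1 := by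
    intro j
    exact norm_cpt _ _ (hS.ori j)
  have hst := step hS h0 h1 k
  set a := cc (fun j => W lam p0.1 p0.2 j) (fun j => oW lam p0.1 p0.2 j) (k + 2) with ha
  set b := cc (fun j => W lam p0.1 p0.2 j) (fun j => oW lam p0.1 p0.2 j) (k + 1) *
    cc (fun j => W lam p0.1 p0.2 j) (fun j => oW lam p0.1 p0.2 j) k with hb
  have hbn : ‖b‖ = 1 := by
    rw [hb, norm_mul, hn, hn, one_mul]
  have hbb : b * (starRingEnd ℂ) b = 1 := by
    rw [Complex.mul_conj, Complex.normSq_eq_norm_sq, hbn]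
    norm_num
  have hsq : Real.sqrt lam ≤ 1 / 10 := by
    rw [Real.sqrt_le_left (by norm_num)]
    linarith
  have hlt : ‖a * (starRingEnd ℂ) b - 1‖ < 1 := by
    have e : a * (starRingEnd ℂ) b - 1 = (a - b) * (starRingEnd ℂ) b := by
      rw [sub_mul, hbb]
    rw [e, norm_mul, Complex.norm_conj, hbn, mul_one]
    linarith
  have hslit := h94_slit _ hlt
  exact (Complex.continuousAt_arg hslit).comp (f := fun p : ℝ × ℝ =>
    cc (fun j => W lam p.1 p.2 j) (fun j => oW lam p.1 p.2 j) (k + 2) *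
      (starRingEnd ℂ) (cc (fun j => W lam p.1 p.2 j) (fun j => oW lam p.1 p.2 j) (k + 1) *
        cc (fun j => W lam p.1 p.2 j) (fun j => oW lam p.1 p.2 j) k)) (x := p0) hu

theorem h7_T0 (lam : ℝ) (p0 : ℝ × ℝ) (hp : Real.sin p0.1 ≠ 0) :
    ContinuousAt (fun p : ℝ × ℝ => T0 lam p.1 p.2) p0 := by
  unfold T0
  have hc := h7_cc lam p0 hp 0
  have he : ContinuousAt (fun p : ℝ × ℝ => Complex.exp (-(p.2 : ℂ) * Complex.I)) p0 := by
    have : Continuous (fun p : ℝ × ℝ => Complex.exp (-(p.2 : ℂ) * Complex.I)) :=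
      Complex.continuous_exp.comp
        (((Complex.continuous_ofReal.comp continuous_snd).neg).mul continuous_const)
    exact this.continuousAt
  have hu := hc.mul he
  have hslit : cc (fun j => W lam p0.1 p0.2 j) (fun j => oW lam p0.1 p0.2 j) 0 *
      Complex.exp (-(p0.2 : ℂ) * Complex.I) ∈ Complex.slitPlane := by
    rw [Complex.mem_slitPlane_iff]
    left
    exact F3bAux.re_pos p0.1 p0.2
  have harg := (Complex.continuousAt_arg hslit).comp (f := fun p : ℝ × ℝ =>
    cc (fun j => W lam p.1 p.2 j) (fun j => oW lam p.1 p.2 j) 0 *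
      Complex.exp (-(p.2 : ℂ) * Complex.I)) (x := p0) hu
  exact continuous_snd.continuousAt.add harg

theorem h7_TW_cont (lam : ℝ) (h0 : 0 ≤ lam) (h1 : lam ≤ 1 / 100) (k : ℕ) (p0 : ℝ × ℝ)
    (hp : Real.sin p0.1 ≠ 0) : ContinuousAt (fun p : ℝ × ℝ => TW lam p.1 p.2 k) p0 := by
  have key : ∀ k, ContinuousAt (fun p : ℝ × ℝ => TW lam p.1 p.2 k) p0 ∧
      ContinuousAt (fun p : ℝ × ℝ => TW lam p.1 p.2 (k + 1)) p0 := by
    intro k
    induction k with
    | zero =>
      constructor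
      · change ContinuousAt (fun p : ℝ × ℝ => T0 lam p.1 p.2) p0
        exact h7_T0 lam p0 hp
      · change ContinuousAt (fun p : ℝ × ℝ => p.1) p0
        exact continuous_fst.continuousAt
    | succ k ih =>
      refine ⟨ih.2, ?_⟩
      change ContinuousAt (fun p : ℝ × ℝ => TW lam p.1 p.2 (k + 1) + TW lam p.1 p.2 k +
        eta (fun j => W lam p.1 p.2 j) (fun j => oW lam p.1 p.2 j) k) p0
      exact (ih.2.add ih.1).add (h7_eta lam h0 h1 p0 hp k)
  exact (key k).1

theorem TW_continuous (lam : ℝ) (h0 : 0 ≤ lam) (h1 : lam ≤ 1 / 100) (k : ℕ) :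
    ContinuousOn (fun p : ℝ × ℝ => TW lam p.1 p.2 k) {p | Real.sin p.1 ≠ 0} :=
  fun p hp => (h7_TW_cont lam h0 h1 k p hp).continuousWithinAt

theorem h7_TW_cont1 (lam b : ℝ) (h0 : 0 ≤ lam) (h1 : lam ≤ 1 / 100) (hb : Real.sin b ≠ 0) (k : ℕ) :
    Continuous (fun psi => TW lam b psi k) := by
  rw [continuous_iff_continuousAt]
  intro psi
  have h := h7_TW_cont lam h0 h1 k (b, psi) hb
  have h2 : ContinuousAt (fun s : ℝ => ((b, s) : ℝ × ℝ)) psi :=
    (continuous_const.prodMk continuous_id).continuousAt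
  exact ContinuousAt.comp (f := fun s : ℝ => ((b, s) : ℝ × ℝ)) (x := psi) h h2

/-- The sine of the lifted angle. -/
theorem h7_sin_TW (lam b psi : ℝ) (hb : Real.sin b ≠ 0) (k : ℕ) :
    Real.sin (TW lam b psi k) = oW lam b psi k * Real.sqrt (1 - clip (W lam b psi k) ^ 2) := by
  have h := congrArg Complex.im (TW_exp lam b psi hb k)
  rw [Complex.exp_ofReal_mul_I_im] at h
  exact h

theorem h7_fibz_nonneg (k : ℕ) : 0 ≤ fibz 1 0 k ∧ 0 ≤ fibz 1 0 (k + 1) := by
  induction k with
  | zero => constructor <;> simp [fibz]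
  | succ k ih =>
    refine ⟨ih.2, ?_⟩
    change 0 ≤ fibz 1 0 (k + 1) + fibz 1 0 k
    linarith [ih.1, ih.2]

theorem h7_fibz_pos2 (k : ℕ) : 1 ≤ fibz 1 0 (k + 2) := by
  induction k with
  | zero => simp [fibz]
  | succ k ih =>
    change 1 ≤ fibz 1 0 (k + 2) + fibz 1 0 (k + 1)
    have := (h7_fibz_nonneg (k + 1)).1
    linarith

theorem h7_fibz_pos (k : ℕ) (hk : k ≠ 1) : 1 ≤ fibz 1 0 k := by
  rcases (by omega : k = 0 ∨ 2 ≤ k) with h | h
  · subst h; simp [fibz]
  · obtain ⟨j, rfl⟩ := Nat.exists_eq_add_of_le' h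
    exact h7_fibz_pos2 j

theorem TW_deriv (lam b psi : ℝ) (h0 : 0 ≤ lam) (h1 : lam ≤ 1 / 100) (hb : Real.sin b ≠ 0) (k : ℕ)
    (hk : k ≠ 1) (hx : |W lam b psi k| < 1) :
    ∃ d : ℝ, 0 < d ∧ (fibz 1 0 k : ℝ) ≤ d ∧ HasDerivAt (fun s => TW lam b s k) d psi ∧
      HasDerivAt (fun s => W lam b s k) (-Real.sin (TW lam b psi k) * d) psi := by
  classical
  have hA0 : ((rot psi * hyp lam b : M2 ℝ)).det = 1 := by
    rw [Matrix.det_mul, det_rot46, det_hyp46, one_mul]
  have hml := mseq_logderiv (fun s => (rot s * hyp lam b : M2 ℝ)) (fun _ => (rot b : M2 ℝ))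
    !![0, -1; 1, 0] 0 psi hA0 (det_rot46 b)
    (by
      intro i j
      have hfun : (fun s => (rot s * hyp lam b : M2 ℝ) i j) =
          fun s => (rot s) i 0 * (hyp lam b) 0 j + (rot s) i 1 * (hyp lam b) 1 j := by
        funext s
        rw [Matrix.mul_apply, Fin.sum_univ_two]
      have hrot : ∀ i j, HasDerivAt (fun s => (rot s) i j)
          ((!![0, -1; 1, 0] * rot psi : M2 ℝ) i j) psi := by
        intro i j
        fin_cases i <;> fin_cases j
        · simpa [Matrix.mul_apply, Fin.sum_univ_two, rot] using Real.hasDerivAt_cos psi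
        · have h9 : HasDerivAt (fun s => -Real.sin s) (-Real.cos psi) psi :=
            (Real.hasDerivAt_sin psi).neg
          simpa [Matrix.mul_apply, Fin.sum_univ_two, rot] using h9
        · simpa [Matrix.mul_apply, Fin.sum_univ_two, rot] using Real.hasDerivAt_sin psi
        · simpa [Matrix.mul_apply, Fin.sum_univ_two, rot] using Real.hasDerivAt_cos psi
      rw [hfun, ← Matrix.mul_assoc, Matrix.mul_apply, Fin.sum_univ_two]
      exact ((hrot i 0).mul_const _).add ((hrot i 1).mul_const _))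
    (by
      intro i j
      simp only [Matrix.zero_mul, Matrix.zero_apply]
      exact hasDerivAt_const _ _) k
  obtain ⟨-, hD⟩ := hml
  set D : ℝ := ((logd (rot psi * hyp lam b) (rot b) !![0, -1; 1, 0] 0 k : M2 ℝ) *
    mseq (rot psi * hyp lam b : M2 ℝ) (rot b) k).trace / 2 with hDdef
  have hXe : ∀ s : ℝ, (mseq (rot s * hyp lam b : M2 ℝ) (rot b) k).trace / 2 = W lam b s k := by
    intro s
    have := trace_wM lam b s k
    unfold wM at this
    rw [this]; ring
  have hXD : HasDerivAt (fun s => W lam b s k) D psi := by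
    have e : (fun s => W lam b s k) = fun s => (mseq (rot s * hyp lam b : M2 ℝ) (rot b) k).trace / 2 := by
      funext s; rw [hXe]
    rw [e]; exact hD
  have hcos : ∀ᶠ s in nhds psi, Real.cos (TW lam b s k) = W lam b s k := by
    have hopen : ∀ᶠ s in nhds psi, |W lam b s k| < 1 := by
      have hcX : ContinuousAt (fun s => |W lam b s k|) psi :=
        ((W_differentiable lam b k).continuous.abs).continuousAt
      exact hcX.eventually (gt_mem_nhds hx)
    filter_upwards [hopen] with s hs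
    rw [cos_TW lam b s hb k, clip_of_lt hs]
  have hsin : Real.sin (TW lam b psi k) ≠ 0 := (sin_TW_ne lam b psi hb k).2 hx
  have hTE : HasDerivAt (fun s => TW lam b s k) (-D / Real.sin (TW lam b psi k)) psi :=
    hasDerivAt_of_cos (fun s => TW lam b s k) (fun s => W lam b s k) psi D
      (h7_TW_cont1 lam b h0 h1 hb k).continuousAt hXD hcos hsin
  have hbound : (fibz 1 0 k : ℝ) ≤ -D / Real.sin (TW lam b psi k) := by
    have hsinv := h7_sin_TW lam b psi hb k
    rw [clip_of_lt hx] at hsinv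
    have hdet : (wM lam b psi k).det = 1 := det_wM lam b psi k
    have htr : (wM lam b psi k).trace = 2 * W lam b psi k := trace_wM lam b psi k
    have htr2 : |(wM lam b psi k).trace| < 2 := by
      rw [htr, abs_mul, abs_two]; linarith
    have hPT := Pos_trace _ (wM lam b psi k) _ (logd_word lam b psi k) hdet htr2
    have hhalf : (wM lam b psi k).trace / 2 = W lam b psi k := by rw [htr]; ring
    rw [hhalf] at hPT
    have hDe : ((logd (rot psi * hyp lam b) (rot b) !![0, -1; 1, 0] 0 k : M2 ℝ) *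
      wM lam b psi k).trace / 2 = D := rfl
    rw [hDe] at hPT
    have ho : oW lam b psi k = orient (wM lam b psi k) := rfl
    have hsq : Real.sqrt (1 - W lam b psi k ^ 2) ≠ 0 := by
      intro h
      rw [h, mul_zero] at hsinv
      exact hsin hsinv
    have hsqpos : 0 < Real.sqrt (1 - W lam b psi k ^ 2) :=
      lt_of_le_of_ne (Real.sqrt_nonneg _) (Ne.symm hsq)
    have hor : orient (wM lam b psi k) = 1 ∨ orient (wM lam b psi k) = -1 := by
      unfold orient
      split_ifs
      · left; rfl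
      · right; rfl
    rcases hor with h | h
    · rw [ho, h, one_mul] at hsinv
      rw [h] at hPT
      rw [hsinv, le_div_iff₀ hsqpos]
      linarith
    · rw [ho, h] at hsinv
      rw [h] at hPT
      rw [hsinv]
      have e : -D / (-1 * Real.sqrt (1 - W lam b psi k ^ 2)) = D / Real.sqrt (1 - W lam b psi k ^ 2) := by
        rw [neg_one_mul, neg_div_neg_eq]
      rw [e, le_div_iff₀ hsqpos]
      linarith
  have h1k : (1 : ℝ) ≤ (fibz 1 0 k : ℝ) := by exact_mod_cast h7_fibz_pos k hk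
  refine ⟨-D / Real.sin (TW lam b psi k), by linarith, hbound, hTE, ?_⟩
  have e : -Real.sin (TW lam b psi k) * (-D / Real.sin (TW lam b psi k)) = D := by
    field_simp
  rw [e]; exact hXD

theorem TW_mono (lam b : ℝ) (h0 : 0 ≤ lam) (h1 : lam ≤ 1 / 100) (hb : Real.sin b ≠ 0) (k : ℕ) :
    Monotone (fun psi => TW lam b psi k) := by
  by_cases hk : k = 1
  · subst hk
    intro x y _
    exact le_refl b
  · apply mono_of_lift _ (h7_TW_cont1 lam b h0 h1 hb k)
    intro psi hs
    obtain ⟨d, hd, -, hd1, -⟩ := TW_deriv lam b psi h0 h1 hb k hk ((sin_TW_ne lam b psi hb k).1 hs)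
    exact ⟨d, hd, hd1⟩

theorem h7_fibz_mul (i : ℤ) (k : ℕ) :
    fibz i 0 k = i * fibz 1 0 k ∧ fibz i 0 (k + 1) = i * fibz 1 0 (k + 1) := by
  induction k with
  | zero => constructor <;> simp [fibz]
  | succ k ih =>
    refine ⟨ih.2, ?_⟩
    change fibz i 0 (k + 1) + fibz i 0 k = i * (fibz 1 0 (k + 1) + fibz 1 0 k)
    rw [ih.1, ih.2]
    ring

theorem h7_TW_int (lam b : ℝ) (hb : Real.sin b ≠ 0) (i : ℤ) (k : ℕ) :
    TW lam b ((i : ℝ) * Real.pi) k = TW lam b 0 k + (i : ℝ) * (fibz 1 0 k : ℝ) * Real.pi := by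
  have h := TW_shift (lam := lam) b 0 hb i 0 k
  rw [Int.cast_zero, zero_mul, add_zero, zero_add, (h7_fibz_mul i k).1] at h
  rw [h]
  push_cast
  ring

theorem TW_surj (lam b : ℝ) (h0 : 0 ≤ lam) (h1 : lam ≤ 1 / 100) (hb : Real.sin b ≠ 0) (k : ℕ)
    (hk : k ≠ 1) (a : ℝ) : ∃ psi, TW lam b psi k = a := by
  have hc := h7_TW_cont1 lam b h0 h1 hb k
  have h1k : (1 : ℝ) ≤ (fibz 1 0 k : ℝ) := by exact_mod_cast h7_fibz_pos k hk
  have hpi := Real.pi_gt_three
  obtain ⟨n, hn⟩ := exists_nat_ge |a - TW lam b 0 k|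
  have hn0 : (0 : ℝ) ≤ (n : ℝ) := Nat.cast_nonneg n
  have hbig : (n : ℝ) ≤ (n : ℝ) * (fibz 1 0 k : ℝ) * Real.pi := by
    have e1 : (n : ℝ) ≤ (n : ℝ) * (fibz 1 0 k : ℝ) := le_mul_of_one_le_right hn0 h1k
    have e2 : (n : ℝ) * (fibz 1 0 k : ℝ) ≤ (n : ℝ) * (fibz 1 0 k : ℝ) * Real.pi :=
      le_mul_of_one_le_right (by positivity) (by linarith)
    linarith
  have hab := abs_le.1 hn
  have hlo : TW lam b (((-(n : ℤ) : ℤ) : ℝ) * Real.pi) k ≤ a := by
    rw [h7_TW_int lam b hb]
    push_cast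
    nlinarith [hab.1]
  have hhi : a ≤ TW lam b (((n : ℤ) : ℝ) * Real.pi) k := by
    rw [h7_TW_int lam b hb]
    push_cast
    nlinarith [hab.2]
  exact mem_range_of_exists_le_of_exists_ge hc ⟨_, hlo⟩ ⟨_, hhi⟩

end SF
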