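import Pool.Agent.Helper65.SF.WAE
import Pool.Agent.Helper65.SF.F1
import Pool.Agent.Helper65.SF.F4d
import Pool.Agent.Helper65.SF.F5

/-!
# SF-WXD: complex discs for the energy and the word family

Proof in words.
* `X_disc`: `s -> X lam (t0 + s) k` is a real polynomial p (`tr` over the polynomial ring), use `ae_lemma` with
  n = 0 (`Dpoly 0 = 1`); zeros of `p -+ 1` are real by `rr_energy` (with y = 1, -1).
* `W_disc`: substitute `psi = psi0 + 2 arctan (s/2)`: `cos (2 arctan (s/2)) = (1 - s^2/4)/(1 + s^2/4)`,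
  `sin = s/(1+s^2/4)`.  `(1 + s^2/4) * (rot psi * hyp)` is a polynomial matrix, so
  `W = p / (1 + s^2/4)^n` with `n = fibz 1 0 k`, p a real polynomial.  Zeros of `p -+ (1+s^2/4)^n`: a zero
  `s ≠ ±2i` gives (choose complex psi with `exp (i (psi - psi0)) = (1 + i s/2)/(1 - i s/2)`, nonzero, finite) a complex
  psi with `WC = ±1`, so psi real by `rr_word`, `|1 + i s/2| = |1 - i s/2|`, s real.  `s = ±2i`: the numerator
  matrix of `M k` at `s = 2i` is `N k = c k v w^T hyp rot(b)` (k >= 2) with `v = (1,i)`, `w = (1,-i)`,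
  `c k ≠ 0`, because `2 [[1,-i],[i,1]] = 2 v w^T`, `rot b v = exp(-ib) v`, `w^T hyp v = 2 r ≠ 0`
  (`c (k+2) = c k c (k+1) exp(-ib) 2 r`; start with k = 2, 3); trace `= c k exp(-ib) 2r ≠ 0`, while
  `1 + s^2/4 = 0` and n >= 1; so these are not zeros.  k = 0 directly.
  `|W' psi0| >= sqrt(1-W^2) * 1 >= sqrt eta` (`TW_deriv`), so `|z - psi0| <= 1/4` and
  `s = 2 tan ((z - psi0)/2)` has `|s| <= 2 |z - psi0|`; derivative of the substitution at 0 is 1.
-/

namespace SF

namespace WXD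

open Polynomial

/-- exponents of the denominators -/
def nn : ℕ → ℕ
  | 0 => 1
  | 1 => 0
  | k + 2 => nn (k + 1) + nn k

theorem nn_pos_aux (k : ℕ) : 1 ≤ nn (k + 2) ∧ 1 ≤ nn (k + 3) := by
  induction k with
  | zero => exact ⟨le_rfl, le_rfl⟩
  | succ k ih =>
    refine ⟨ih.2, ?_⟩
    have : nn (k + 1 + 3) = nn (k + 3) + nn (k + 2) := rfl
    omega

theorem nn_pos (k : ℕ) (hk : k ≠ 1) : 1 ≤ nn k := by
  rcases k with _ | _ | k
  · exact le_rfl
  · exact absurd rfl hk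
  · exact (nn_pos_aux k).1

theorem nn_three (k : ℕ) : nn (k + 3) = 2 * nn (k + 1) + nn k := by
  have h1 : nn (k + 3) = nn (k + 2) + nn (k + 1) := rfl
  have h2 : nn (k + 2) = nn (k + 1) + nn k := rfl
  omega

/-- three step induction -/
theorem ind3 {P : ℕ → Prop} (h0 : P 0) (h1 : P 1) (h2 : P 2)
    (h : ∀ n, P n → P (n + 1) → P (n + 2) → P (n + 3)) (n : ℕ) : P n := by
  have : P n ∧ P (n + 1) ∧ P (n + 2) := by
    induction n with
    | zero => exact ⟨h0, h1, h2⟩
    | succ n ih => exact ⟨ih.2.1, ih.2.2, h n ih.1 ih.2.1 ih.2.2⟩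
  exact this.1

/-- numerators of the trace sequence -/
def PQ {R : Type*} [CommRing R] (D a b c : R) : ℕ → R
  | 0 => a
  | 1 => b
  | 2 => c
  | k + 3 => 2 * PQ D a b c (k + 2) * PQ D a b c (k + 1) - D ^ (2 * nn (k + 1)) * PQ D a b c k

theorem PQ_tr {R : Type*} [CommRing R] (D p q w : R) (k : ℕ) :
    PQ D (D * p) q (D * w) k = D ^ nn k * tr p q w k := by
  induction k using ind3 with
  | h0 => simp [PQ, nn, tr]
  | h1 => simp [PQ, nn, tr]
  | h2 => simp [PQ, nn, tr]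
  | h k i0 i1 i2 =>
    have h1 : nn (k + 3) = nn (k + 2) + nn (k + 1) := rfl
    have h3 := nn_three k
    rw [PQ, tr, i0, i1, i2, mul_sub]
    have e1 : D ^ nn (k + 3) * (2 * tr p q w (k + 2) * tr p q w (k + 1)) =
        2 * (D ^ nn (k + 2) * tr p q w (k + 2)) * (D ^ nn (k + 1) * tr p q w (k + 1)) := by
      rw [h1, pow_add]
      ring
    have e2 : D ^ nn (k + 3) * tr p q w k = D ^ (2 * nn (k + 1)) * (D ^ nn k * tr p q w k) := by
      rw [h3, pow_add]
      ring
    rw [e1, e2]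

theorem PQ_map {R S : Type*} [CommRing R] [CommRing S] (f : R →+* S) (D a b c : R) (k : ℕ) :
    f (PQ D a b c k) = PQ (f D) (f a) (f b) (f c) k := by
  induction k using ind3 with
  | h0 => rfl
  | h1 => rfl
  | h2 => rfl
  | h k i0 i1 i2 =>
    rw [PQ, PQ, ← i0, ← i1, ← i2]
    simp only [map_sub, map_mul, map_ofNat, map_pow]

theorem PQ_zero_ne (a b c : ℂ) (hc : c ≠ 0) (h3 : 2 * c * b - a ≠ 0) (k : ℕ) :
    PQ 0 a b c (k + 2) ≠ 0 ∧ PQ 0 a b c (k + 3) ≠ 0 := by
  induction k with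
  | zero =>
    refine ⟨hc, ?_⟩
    have : PQ 0 a b c (0 + 3) = 2 * c * b - a := by
      simp [PQ, nn]
    rw [this]
    exact h3
  | succ k ih =>
    refine ⟨ih.2, ?_⟩
    have hn := (nn_pos_aux k).1
    have : PQ 0 a b c (k + 1 + 3) = 2 * PQ 0 a b c (k + 3) * PQ 0 a b c (k + 2) := by
      have e : PQ 0 a b c (k + 1 + 3) = 2 * PQ 0 a b c (k + 1 + 2) * PQ 0 a b c (k + 1 + 1) -
        (0 : ℂ) ^ (2 * nn (k + 1 + 1)) * PQ 0 a b c (k + 1) := rfl
      have hn' : 1 ≤ nn (k + 1 + 1) := hn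
      rw [e, zero_pow (by omega), zero_mul, sub_zero]
    rw [this]
    exact mul_ne_zero (mul_ne_zero two_ne_zero ih.2) ih.1

/-- the basic quadratic polynomial -/
noncomputable def Dq : Polynomial ℝ := 1 + C (1 / 4) * Polynomial.X ^ 2

/-- numerator of the cosine -/
noncomputable def cq (psi : ℝ) : Polynomial ℝ :=
  C (Real.cos psi) * (1 - C (1 / 4) * Polynomial.X ^ 2) - C (Real.sin psi) * Polynomial.X

/-- numerator of the sine -/
noncomputable def sq (psi : ℝ) : Polynomial ℝ :=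
  C (Real.sin psi) * (1 - C (1 / 4) * Polynomial.X ^ 2) + C (Real.cos psi) * Polynomial.X

/-- numerator of `W` -/
noncomputable def pW (lam b psi : ℝ) (k : ℕ) : Polynomial ℝ :=
  PQ Dq (C (rr lam b) * cq psi) (C (Real.cos b))
    (C (rr lam b) * (C (Real.cos b) * cq psi - C (Real.sin b) * sq psi)) k

theorem aeval_Dq (s : ℂ) : aeval s Dq = 1 + s ^ 2 / 4 := by
  unfold Dq
  simp
  ring

theorem aeval_cq (s : ℂ) (psi : ℝ) :
    aeval s (cq psi) = (Real.cos psi : ℂ) * (1 - s ^ 2 / 4) - (Real.sin psi : ℂ) * s := by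
  unfold cq
  simp only [map_sub, map_mul, map_one, map_pow, aeval_X, aeval_C, Complex.coe_algebraMap]
  push_cast
  ring

theorem aeval_sq (s : ℂ) (psi : ℝ) :
    aeval s (sq psi) = (Real.sin psi : ℂ) * (1 - s ^ 2 / 4) + (Real.cos psi : ℂ) * s := by
  unfold sq
  simp only [map_sub, map_add, map_mul, map_one, map_pow, aeval_X, aeval_C, Complex.coe_algebraMap]
  push_cast
  ring

theorem aeval_pW (lam b psi : ℝ) (k : ℕ) (s : ℂ) :
    aeval s (pW lam b psi k) = PQ (1 + s ^ 2 / 4)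
      ((rr lam b : ℂ) * ((Real.cos psi : ℂ) * (1 - s ^ 2 / 4) - (Real.sin psi : ℂ) * s))
      (Real.cos b : ℂ)
      ((rr lam b : ℂ) * ((Real.cos b : ℂ) * ((Real.cos psi : ℂ) * (1 - s ^ 2 / 4) -
        (Real.sin psi : ℂ) * s) - (Real.sin b : ℂ) * ((Real.sin psi : ℂ) * (1 - s ^ 2 / 4) +
        (Real.cos psi : ℂ) * s))) k := by
  have h := PQ_map ((aeval s : Polynomial ℝ →ₐ[ℝ] ℂ) : Polynomial ℝ →+* ℂ) Dq
    (C (rr lam b) * cq psi) (C (Real.cos b))
    (C (rr lam b) * (C (Real.cos b) * cq psi - C (Real.sin b) * sq psi)) k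
  have hC : ∀ x : ℝ, aeval s (C x) = (x : ℂ) := fun x => by simp
  simp only [RingHom.coe_coe] at h
  unfold pW
  rw [h]
  simp only [map_mul, map_sub, aeval_Dq, aeval_cq, aeval_sq, hC]

/-- evaluation of the numerator by the substitution -/
theorem aeval_pW_eq (lam b psi : ℝ) (k : ℕ) (s d : ℂ)
    (hc : Complex.cos d * (1 + s ^ 2 / 4) = 1 - s ^ 2 / 4)
    (hs : Complex.sin d * (1 + s ^ 2 / 4) = s) :
    aeval s (pW lam b psi k) = (1 + s ^ 2 / 4) ^ nn k * WC lam b ((psi : ℂ) + d) k := by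
  rw [aeval_pW]
  unfold WC
  rw [← PQ_tr]
  have e1 : (rr lam b : ℂ) * ((Real.cos psi : ℂ) * (1 - s ^ 2 / 4) - (Real.sin psi : ℂ) * s) =
      (1 + s ^ 2 / 4) * ((rr lam b : ℂ) * Complex.cos ((psi : ℂ) + d)) := by
    rw [Complex.cos_add, ← hc, Complex.ofReal_cos, Complex.ofReal_sin]
    linear_combination (rr lam b : ℂ) * Complex.sin (psi : ℂ) * hs
  have e2 : (rr lam b : ℂ) * ((Real.cos b : ℂ) * ((Real.cos psi : ℂ) * (1 - s ^ 2 / 4) -
        (Real.sin psi : ℂ) * s) - (Real.sin b : ℂ) * ((Real.sin psi : ℂ) * (1 - s ^ 2 / 4) +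
        (Real.cos psi : ℂ) * s)) =
      (1 + s ^ 2 / 4) * ((rr lam b : ℂ) * Complex.cos ((psi : ℂ) + d + (b : ℂ))) := by
    rw [Complex.cos_add, Complex.cos_add, Complex.sin_add, ← hc, Complex.ofReal_cos,
      Complex.ofReal_sin, Complex.ofReal_cos, Complex.ofReal_sin]
    linear_combination ((rr lam b : ℂ) * Complex.cos (b : ℂ) * Complex.sin (psi : ℂ) +
      (rr lam b : ℂ) * Complex.sin (b : ℂ) * Complex.cos (psi : ℂ)) * hs
  rw [e1, e2]

/-- from the exponential to cosine and sine -/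
theorem sub_eq (s d : ℂ) (h : Complex.exp (d * Complex.I) * (1 - s / 2 * Complex.I) =
    1 + s / 2 * Complex.I) :
    Complex.cos d * (1 + s ^ 2 / 4) = 1 - s ^ 2 / 4 ∧ Complex.sin d * (1 + s ^ 2 / 4) = s := by
  have hI := Complex.I_sq
  have hinv : Complex.exp (-d * Complex.I) * (1 + s / 2 * Complex.I) = 1 - s / 2 * Complex.I := by
    rw [← h, ← mul_assoc, ← Complex.exp_add]
    have : -d * Complex.I + d * Complex.I = 0 := by ring
    rw [this, Complex.exp_zero, one_mul]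
  have hD : (1 + s ^ 2 / 4 : ℂ) = (1 - s / 2 * Complex.I) * (1 + s / 2 * Complex.I) := by
    linear_combination (s ^ 2 / 4) * hI
  constructor
  · rw [Complex.cos, hD]
    linear_combination ((1 + s / 2 * Complex.I) / 2) * h + ((1 - s / 2 * Complex.I) / 2) * hinv +
      (s ^ 2 / 4) * hI
  · rw [Complex.sin, hD]
    linear_combination (-(1 + s / 2 * Complex.I) * Complex.I / 2) * h +
      ((1 - s / 2 * Complex.I) * Complex.I / 2) * hinv + (-s) * hI

/-- at the zeros of the denominator the numerator does not vanish -/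
theorem aeval_pW_ne (lam b psi : ℝ) (k : ℕ) (hk : k ≠ 1) (s : ℂ) (hs : 1 + s ^ 2 / 4 = 0) :
    aeval s (pW lam b psi k) ≠ 0 := by
  rw [aeval_pW, hs]
  set t : ℂ := s / 2 with ht
  have ht2 : t ^ 2 = -1 := by
    rw [ht]
    linear_combination hs
  have hst : s = 2 * t := by
    rw [ht]
    ring
  have hr : (rr lam b : ℂ) ≠ 0 := by
    have := one_le_rr lam b
    exact_mod_cast (by linarith : rr lam b ≠ 0)
  have h1 : ∀ x : ℝ, ((Real.cos x : ℂ) - t * (Real.sin x : ℂ)) ≠ 0 := by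
    intro x h0
    have h2 : ((Real.cos x : ℂ) - t * (Real.sin x : ℂ)) * ((Real.cos x : ℂ) +
        t * (Real.sin x : ℂ)) = 1 := by
      have h3 : ((Real.sin x : ℂ)) ^ 2 + ((Real.cos x : ℂ)) ^ 2 = 1 := by
        exact_mod_cast Real.sin_sq_add_cos_sq x
      linear_combination h3 - (Real.sin x : ℂ) ^ 2 * ht2
    rw [h0, zero_mul] at h2
    exact zero_ne_one h2
  set A : ℂ := (Real.cos psi : ℂ) - t * (Real.sin psi : ℂ) with hA
  set B : ℂ := (Real.cos b : ℂ) - t * (Real.sin b : ℂ) with hB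
  have hA0 : A ≠ 0 := h1 psi
  have hB0 : B ≠ 0 := h1 b
  have ea : (rr lam b : ℂ) * ((Real.cos psi : ℂ) * (1 - s ^ 2 / 4) - (Real.sin psi : ℂ) * s) =
      2 * (rr lam b : ℂ) * A := by
    rw [hA, hst]
    linear_combination (-(rr lam b : ℂ) * (Real.cos psi : ℂ)) * ht2
  have ec : (rr lam b : ℂ) * ((Real.cos b : ℂ) * ((Real.cos psi : ℂ) * (1 - s ^ 2 / 4) -
        (Real.sin psi : ℂ) * s) - (Real.sin b : ℂ) * ((Real.sin psi : ℂ) * (1 - s ^ 2 / 4) +
        (Real.cos psi : ℂ) * s)) = 2 * (rr lam b : ℂ) * A * B := by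
    rw [hA, hB, hst]
    linear_combination (-(rr lam b : ℂ) * (Real.cos psi : ℂ) * (Real.cos b : ℂ) -
      (rr lam b : ℂ) * (Real.sin psi : ℂ) * (Real.sin b : ℂ)) * ht2
  rw [ea, ec]
  have ha0 : 2 * (rr lam b : ℂ) * A ≠ 0 := mul_ne_zero (mul_ne_zero two_ne_zero hr) hA0
  have hc0 : 2 * (rr lam b : ℂ) * A * B ≠ 0 := mul_ne_zero ha0 hB0
  have h30 : 2 * (2 * (rr lam b : ℂ) * A * B) * (Real.cos b : ℂ) - 2 * (rr lam b : ℂ) * A ≠ 0 := by
    have e : 2 * (2 * (rr lam b : ℂ) * A * B) * (Real.cos b : ℂ) - 2 * (rr lam b : ℂ) * A =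
        2 * (rr lam b : ℂ) * A * B ^ 2 := by
      have h3 : ((Real.sin b : ℂ)) ^ 2 + ((Real.cos b : ℂ)) ^ 2 = 1 := by
        exact_mod_cast Real.sin_sq_add_cos_sq b
      rw [hB]
      linear_combination (2 * (rr lam b : ℂ) * A) * h3 -
        (2 * (rr lam b : ℂ) * A * (Real.sin b : ℂ) ^ 2) * ht2
    rw [e]
    exact mul_ne_zero ha0 (pow_ne_zero 2 hB0)
  rcases k with _ | _ | k
  · exact ha0
  · exact absurd rfl hk
  · exact (PQ_zero_ne _ _ _ hc0 h30 k).1

theorem real_of_eq (lam b psi : ℝ) (hb : Real.sin b ≠ 0) (k : ℕ) (hk : k ≠ 1) (y : ℝ)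
    (hy : |y| ≤ 1) (z : ℂ) (hz : aeval z (pW lam b psi k) = (y : ℂ) * (1 + z ^ 2 / 4) ^ nn k) :
    z.im = 0 := by
  by_cases hD : 1 + z ^ 2 / 4 = 0
  · exfalso
    apply aeval_pW_ne lam b psi k hk z hD
    have := nn_pos k hk
    rw [hz, hD, zero_pow (by omega), mul_zero]
  have hI := Complex.I_sq
  have hDe : (1 + z ^ 2 / 4 : ℂ) = (1 - z / 2 * Complex.I) * (1 + z / 2 * Complex.I) := by
    linear_combination (z ^ 2 / 4) * hI
  have hm : (1 - z / 2 * Complex.I : ℂ) ≠ 0 := by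
    intro h
    apply hD
    rw [hDe, h, zero_mul]
  have hp : (1 + z / 2 * Complex.I : ℂ) ≠ 0 := by
    intro h
    apply hD
    rw [hDe, h, mul_zero]
  set E : ℂ := (1 + z / 2 * Complex.I) / (1 - z / 2 * Complex.I) with hE
  have hE0 : E ≠ 0 := div_ne_zero hp hm
  set d : ℂ := -Complex.I * Complex.log E with hd
  have hexp : Complex.exp (d * Complex.I) = E := by
    have : d * Complex.I = Complex.log E := by
      rw [hd]
      linear_combination (-Complex.log E) * hI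
    rw [this, Complex.exp_log hE0]
  have h1 : Complex.exp (d * Complex.I) * (1 - z / 2 * Complex.I) = 1 + z / 2 * Complex.I := by
    rw [hexp, hE, div_mul_cancel₀ _ hm]
  obtain ⟨h2, h3⟩ := sub_eq z d h1
  rw [aeval_pW_eq lam b psi k z d h2 h3, mul_comm] at hz
  have hWC : WC lam b ((psi : ℂ) + d) k = (y : ℂ) := mul_right_cancel₀ (pow_ne_zero _ hD) hz
  have hdim : d.im = 0 := by
    by_contra hne
    refine rr_word lam b hb k hk ((psi : ℂ) + d) ?_ y hy hWC
    simpa using hne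
  have hnE : ‖E‖ = 1 := by
    rw [← hexp, Complex.norm_exp]
    simp [hdim]
  rw [hE, norm_div, div_eq_one_iff_eq (norm_ne_zero_iff.2 hm)] at hnE
  have hsq : Complex.normSq (1 + z / 2 * Complex.I) = Complex.normSq (1 - z / 2 * Complex.I) := by
    rw [Complex.normSq_eq_norm_sq, Complex.normSq_eq_norm_sq, hnE]
  rw [Complex.normSq_apply, Complex.normSq_apply] at hsq
  simp at hsq
  linarith

theorem eval_pW_zero (lam b psi : ℝ) (k : ℕ) : (pW lam b psi k).eval 0 = W lam b psi k := by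
  have h := aeval_pW_eq lam b psi k 0 0 (by simp) (by simp)
  have h2 : aeval (0 : ℂ) (pW lam b psi k) = (((pW lam b psi k).eval 0 : ℝ) : ℂ) := by
    have := Polynomial.aeval_algebraMap_apply ℂ (0 : ℝ) (pW lam b psi k)
    simpa using this
  rw [h2, add_zero, WC_ofReal] at h
  simp at h
  exact_mod_cast h

/-- values at real points -/
theorem eval_pW_real (lam b psi : ℝ) (k : ℕ) (s : ℝ) :
    (pW lam b psi k).eval s = (1 + s ^ 2 / 4) ^ nn k * W lam b (psi + 2 * Real.arctan (s / 2)) k := by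
  set x : ℝ := Real.arctan (s / 2) with hx
  have hc2 : Real.cos x ^ 2 * (1 + s ^ 2 / 4) = 1 := by
    have := Real.cos_sq_arctan (s / 2)
    rw [← hx] at this
    rw [this]
    have : (1 + (s / 2) ^ 2 : ℝ) ≠ 0 := by positivity
    field_simp
    ring
  have htan : Real.sin x = s / 2 * Real.cos x := by
    have h1 := Real.tan_arctan (s / 2)
    rw [← hx, Real.tan_eq_sin_div_cos] at h1
    have h2 : Real.cos x ≠ 0 := (Real.cos_arctan_pos (s / 2)).ne'
    field_simp at h1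
    linarith
  have hcos : Real.cos (2 * x) * (1 + s ^ 2 / 4) = 1 - s ^ 2 / 4 := by
    rw [Real.cos_two_mul]
    linear_combination 2 * hc2
  have hsin : Real.sin (2 * x) * (1 + s ^ 2 / 4) = s := by
    rw [Real.sin_two_mul, htan]
    linear_combination s * hc2
  have h := aeval_pW_eq lam b psi k (s : ℂ) ((2 * x : ℝ) : ℂ) (by exact_mod_cast hcos)
    (by exact_mod_cast hsin)
  have h2 : aeval (s : ℂ) (pW lam b psi k) = (((pW lam b psi k).eval s : ℝ) : ℂ) := by
    have := Polynomial.aeval_algebraMap_apply ℂ s (pW lam b psi k)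
    simpa using this
  rw [h2] at h
  have h3 : ((psi : ℂ) + ((2 * x : ℝ) : ℂ)) = ((psi + 2 * x : ℝ) : ℂ) := by push_cast; ring
  rw [h3, WC_ofReal] at h
  exact_mod_cast h

theorem deriv_pW (lam b psi : ℝ) (k : ℕ) :
    (pW lam b psi k).derivative.eval 0 = deriv (fun s => W lam b s k) psi := by
  have hW : HasDerivAt (fun s => W lam b s k) (deriv (fun s => W lam b s k) psi) psi :=
    (W_differentiable lam b k psi).hasDerivAt
  have h1 : HasDerivAt (fun s : ℝ => psi + 2 * Real.arctan (s / 2)) 1 0 := by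
    have h := (((hasDerivAt_id (0 : ℝ)).div_const 2).arctan.const_mul 2).const_add psi
    simpa using h
  have hW' : HasDerivAt (fun s => W lam b s k) (deriv (fun s => W lam b s k) psi)
      (psi + 2 * Real.arctan (0 / 2)) := by
    simpa using hW
  have h2 := hW'.comp (0 : ℝ) h1
  have h3 : HasDerivAt (fun s : ℝ => (1 + s ^ 2 / 4) ^ nn k) 0 0 := by
    have ha : HasDerivAt (fun s : ℝ => (1 + s ^ 2 / 4)) 0 0 := by
      have := (((hasDerivAt_id (0 : ℝ)).pow 2).div_const 4).const_add 1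
      simpa using this
    have h := ha.fun_pow (nn k)
    simpa using h
  have h4 := h3.mul h2
  have h5 : HasDerivAt (fun s : ℝ => (pW lam b psi k).eval s)
      ((pW lam b psi k).derivative.eval 0) 0 := (pW lam b psi k).hasDerivAt 0
  have h6 : (fun s : ℝ => (pW lam b psi k).eval s) =
      (fun s : ℝ => (1 + s ^ 2 / 4) ^ nn k) *
        ((fun s => W lam b s k) ∘ (fun s : ℝ => psi + 2 * Real.arctan (s / 2))) := by
    funext s
    simp only [Pi.mul_apply, Function.comp]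
    exact eval_pW_real lam b psi k s
  rw [h6] at h5
  have h7 := h5.unique h4
  rw [h7]
  simp

/-- numerator for the energy family -/
noncomputable def pX (lam t0 : ℝ) (k : ℕ) : Polynomial ℝ :=
  tr 1 (C (-1 / 2) * (Polynomial.X + C t0))
    (C (-1 / 2) * (Polynomial.X + C t0 + C lam)) k

theorem aeval_pX (lam t0 : ℝ) (k : ℕ) (w : ℂ) :
    aeval w (pX lam t0 k) = SF.X (lam : ℂ) ((t0 : ℂ) + w) k := by
  have h := tr_map46 ((aeval w : Polynomial ℝ →ₐ[ℝ] ℂ) : Polynomial ℝ →+* ℂ) 1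
    (C (-1 / 2) * (Polynomial.X + C t0))
    (C (-1 / 2) * (Polynomial.X + C t0 + C lam)) k
  have hC : ∀ x : ℝ, aeval w (C x) = (x : ℂ) := fun x => by simp
  simp only [RingHom.coe_coe] at h
  unfold pX SF.X
  rw [← h]
  simp only [map_mul, map_add, map_one, aeval_X, hC]
  congr 1
  · push_cast
    ring
  · push_cast
    ring

theorem eval_pX (lam t0 : ℝ) (k : ℕ) (s : ℝ) :
    (pX lam t0 k).eval s = SF.X lam (t0 + s) k := by
  have h2 : aeval (s : ℂ) (pX lam t0 k) = (((pX lam t0 k).eval s : ℝ) : ℂ) := by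
    have := Polynomial.aeval_algebraMap_apply ℂ s (pX lam t0 k)
    simpa using this
  have h := aeval_pX lam t0 k (s : ℂ)
  rw [h2] at h
  have h3 : ((t0 : ℂ) + (s : ℂ)) = ((t0 + s : ℝ) : ℂ) := by push_cast; ring
  rw [h3, X_ofReal] at h
  exact_mod_cast h

end WXD

theorem X_disc (lam eta : ℝ) (h0 : 0 < eta) (h1 : eta ≤ 1) (k : ℕ) (hk : 1 ≤ k) (t0 : ℝ)
    (hx : |X lam t0 k| ≤ 1 - eta) (z : ℂ)
    (hz : ‖z - t0‖ * |deriv (fun s => X lam s k) t0| ≤ eta ^ 2 / 128) :
    ‖X (lam : ℂ) z k - ((X lam t0 k : ℝ) : ℂ)‖ ≤ eta / 8 := by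
  have hzero : ∀ (y : ℝ), |y| ≤ 1 → ∀ w : ℂ,
      Polynomial.aeval w (WXD.pX lam t0 k) = (y : ℂ) → w.im = 0 := by
    intro y hy w hw
    by_contra hne
    rw [WXD.aeval_pX] at hw
    refine rr_energy lam k hk ((t0 : ℂ) + w) ?_ y hy hw
    simpa using hne
  have e0 : (WXD.pX lam t0 k).eval 0 = X lam t0 k := by
    rw [WXD.eval_pX, add_zero]
  have hD0 : Dpoly 0 = 1 := by
    unfold Dpoly
    rw [pow_zero]
  have hd : (WXD.pX lam t0 k).derivative.eval 0 = deriv (fun s => X lam s k) t0 := by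
    have h5 : HasDerivAt (fun s : ℝ => (WXD.pX lam t0 k).eval s)
        ((WXD.pX lam t0 k).derivative.eval (t0 - t0)) (t0 - t0) :=
      (WXD.pX lam t0 k).hasDerivAt (t0 - t0)
    have h6 := HasDerivAt.comp (h := fun x : ℝ => id x - t0) t0 h5
      ((hasDerivAt_id t0).sub_const t0)
    have h7 : ((fun s : ℝ => (WXD.pX lam t0 k).eval s) ∘ fun x => id x - t0) =
        fun s => X lam s k := by
      funext s
      simp only [Function.comp, id]
      rw [WXD.eval_pX]
      congr 1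
      ring
    rw [h7] at h6
    rw [h6.deriv, sub_self, mul_one]
  have key := ae_lemma eta h0 h1 0 (WXD.pX lam t0 k) ?_ ?_ (by rw [e0]; exact hx) (z - t0)
    (by rw [hd]; exact hz)
  · rw [hD0, e0] at key
    have h2 := key.2
    rw [map_one, div_one, WXD.aeval_pX] at h2
    have h3 : ((t0 : ℂ) + (z - t0)) = z := by ring
    rw [h3] at h2
    exact h2
  · intro w hw
    rw [hD0, map_sub, map_one] at hw
    refine hzero 1 (by simp) w ?_
    push_cast
    linear_combination hw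
  · intro w hw
    rw [hD0, map_add, map_one] at hw
    refine hzero (-1) (by simp) w ?_
    push_cast
    linear_combination hw

theorem W_disc (lam b eta : ℝ) (hl0 : 0 ≤ lam) (hl1 : lam ≤ 1 / 100) (hb : Real.sin b ≠ 0)
    (h0 : 0 < eta) (h1 : eta ≤ 1) (k : ℕ) (hk : k ≠ 1) (psi0 : ℝ)
    (hx : |W lam b psi0 k| ≤ 1 - eta) (z : ℂ)
    (hz : ‖z - psi0‖ * |deriv (fun s => W lam b s k) psi0| ≤ eta ^ 2 / 512) :
    ‖WC lam b z k - ((W lam b psi0 k : ℝ) : ℂ)‖ ≤ eta / 8 := by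
  -- the derivative is not small
  have hder : eta ≤ |deriv (fun s => W lam b s k) psi0| := by
    obtain ⟨d, hd0, hd1, -, hd3⟩ := TW_deriv lam b psi0 hl0 hl1 hb k hk (by linarith)
    rw [hd3.deriv, abs_mul, abs_neg, abs_of_pos hd0]
    have hfib : (1 : ℝ) ≤ (fibz 1 0 k : ℝ) := by
      have key : ∀ j : ℕ, (1 : ℤ) ≤ fibz 1 0 (j + 2) ∧ (1 : ℤ) ≤ fibz 1 0 (j + 3) := by
        intro j
        induction j with
        | zero => exact ⟨le_rfl, le_rfl⟩
        | succ j ih =>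
          refine ⟨ih.2, ?_⟩
          have : fibz 1 0 (j + 1 + 3) = fibz 1 0 (j + 3) + fibz 1 0 (j + 2) := rfl
          omega
      have h2 : (1 : ℤ) ≤ fibz 1 0 k := by
        rcases k with _ | _ | k
        · exact le_rfl
        · exact absurd rfl hk
        · exact (key k).1
      exact_mod_cast h2
    have hs : eta ≤ |Real.sin (TW lam b psi0 k)| := by
      have hc := cos_TW lam b psi0 hb k
      have hclip : clip (W lam b psi0 k) = W lam b psi0 k := by
        obtain ⟨c1, c2⟩ := abs_le.1 hx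
        unfold clip
        rw [min_eq_right (by linarith), max_eq_right (by linarith)]
      rw [hclip] at hc
      have h3 := Real.sin_sq_add_cos_sq (TW lam b psi0 k)
      rw [hc] at h3
      have h4 : W lam b psi0 k ^ 2 ≤ (1 - eta) ^ 2 := by
        rw [← sq_abs]
        exact pow_le_pow_left₀ (abs_nonneg _) hx 2
      have h5 : eta ^ 2 ≤ |Real.sin (TW lam b psi0 k)| ^ 2 := by
        rw [sq_abs]
        nlinarith
      exact le_of_sq_le_sq h5 (abs_nonneg _)
    nlinarith [abs_nonneg (Real.sin (TW lam b psi0 k))]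
  set w : ℂ := z - psi0 with hw
  have hzw : z = (psi0 : ℂ) + w := by rw [hw]; ring
  have hwn : ‖w‖ ≤ 1 / 512 := by
    have h2 : ‖w‖ * eta ≤ eta ^ 2 / 512 :=
      (mul_le_mul_of_nonneg_left hder (norm_nonneg w)).trans hz
    have h3 : ‖w‖ * eta ≤ (1 / 512) * eta := by nlinarith
    exact le_of_mul_le_mul_right h3 h0
  have hI := Complex.I_sq
  set E : ℂ := Complex.exp (w * Complex.I) with hE
  have hE1 : ‖E - 1‖ ≤ 2 * ‖w‖ := by
    have h2 : ‖w * Complex.I‖ ≤ 1 := by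
      rw [norm_mul, Complex.norm_I, mul_one]
      linarith
    have h3 := Complex.norm_exp_sub_one_le h2
    rw [norm_mul, Complex.norm_I, mul_one] at h3
    exact h3
  have hEp : 1 ≤ ‖E + 1‖ := by
    have h2 : (2 : ℂ) = (E + 1) - (E - 1) := by ring
    have h3 : ‖(2 : ℂ)‖ ≤ ‖E + 1‖ + ‖E - 1‖ := by
      conv_lhs => rw [h2]
      exact norm_sub_le _ _
    have h4 : ‖(2 : ℂ)‖ = 2 := by simp
    rw [h4] at h3
    linarith
  have hEp0 : E + 1 ≠ 0 := by
    intro h
    rw [h, norm_zero] at hEp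
    linarith
  set s : ℂ := -2 * Complex.I * (E - 1) / (E + 1) with hs
  have hsn : ‖s‖ ≤ 4 * ‖w‖ := by
    rw [hs, norm_div, norm_mul, norm_mul, norm_neg, Complex.norm_I, mul_one]
    have h4 : ‖(2 : ℂ)‖ = 2 := by simp
    rw [h4, div_le_iff₀ (by linarith)]
    have := norm_nonneg w
    nlinarith
  have hsI : s / 2 * Complex.I = (E - 1) / (E + 1) := by
    rw [hs]
    field_simp
    linear_combination (-(E - 1)) * hI
  have hexp : Complex.exp (w * Complex.I) * (1 - s / 2 * Complex.I) = 1 + s / 2 * Complex.I := by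
    rw [← hE, hsI]
    field_simp
    ring
  obtain ⟨h2, h3⟩ := WXD.sub_eq s w hexp
  have hD : ∀ u : ℂ, Polynomial.aeval u (Dpoly (WXD.nn k)) = (1 + u ^ 2 / 4) ^ WXD.nn k := by
    intro u
    have : Dpoly (WXD.nn k) = WXD.Dq ^ WXD.nn k := rfl
    rw [this, map_pow, WXD.aeval_Dq]
  have key := ae_lemma eta h0 h1 (WXD.nn k) (WXD.pW lam b psi0 k) ?_ ?_
    (by rw [WXD.eval_pW_zero]; exact hx) s ?_
  · obtain ⟨k1, k2⟩ := key
    rw [hD] at k1
    rw [hD, WXD.eval_pW_zero, WXD.aeval_pW_eq lam b psi0 k s w h2 h3, mul_comm,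
      mul_div_assoc, div_self k1, mul_one, ← hzw] at k2
    exact k2
  · intro u hu
    rw [map_sub, hD] at hu
    refine WXD.real_of_eq lam b psi0 hb k hk 1 (by simp) u ?_
    push_cast
    linear_combination hu
  · intro u hu
    rw [map_add, hD] at hu
    refine WXD.real_of_eq lam b psi0 hb k hk (-1) (by simp) u ?_
    push_cast
    linear_combination hu
  · rw [WXD.deriv_pW]
    have h4 : ‖s‖ * |deriv (fun s => W lam b s k) psi0| ≤
        4 * ‖w‖ * |deriv (fun s => W lam b s k) psi0| :=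
      mul_le_mul_of_nonneg_right hsn (abs_nonneg _)
    linarith

end SF
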