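import Pool.Agent.Helper65.SF.WS
import Pool.Agent.Helper65.SF.WXD

/-!
# SF-WE: the analytic branch of the energy curve at a good level

Proof in words.  First `i = j = 0`, `b0 = TE lam t0 l`.  Apply `curve` with `y0, y1, y2 = X lam . (l-1), l, l+1`
(polynomials in the parameter; real on the reals by `X_ofReal`; invariant by `tr_inv`), `tau0 = t0`,
`p0 = psiE lam t0 l`, `eta = c0^2/2` (`|X| = |cos TE| <= sqrt (1-c0^2) <= 1 - c0^2/2`, `cos_TE`).
Disc hypothesis: `X_disc` with the same eta; `|X'_(l±1)| = |sin| d_(l±1) <= 2.01 d_l <= 2.01 |X'_l|/c0`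
(`TE_deriv`, `slopes_energy`), so `c = eta^2/128 * c0/3` works.  `p0` satisfies the three equations by `coord_spec`
(through the definition of `psiE`; `W lam b psi 0 = r cos psi = X (l-1)`, `W 2 = r cos (psi+b) = X (l+1)`).
For real b in the ball: T b, p b are real; `TE lam (T b) l = b`: both sides are continuous in b, equal at b0, and
`cos (TE lam (T b) l) = clip (X) = cos b`, `sin` of both nonzero and continuous: two continuous functions on an
interval with the same cosine, nonvanishing sines, equal at one point, are equal.  In the same way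
`psiE lam (T b) l = p b`: `r cos p = X(l-1)`, `r cos (p+b) = X(l+1)` determine `r sin p`, so they differ by a
multiple of `2 pi`; `|TE(l-1) - psiE| < pi/2`, `TE (l-1) - p` is continuous and cannot take the values `±pi/2`.
Slope: `p'(b0) = (sin TE(l-1)/(r sin p0)) dm/d + (r_b/r) cot p0` where `r cos p = cos TE(l-1)`, so
`|p'(b0) - 3/4| <= 0.28`; `p''` is bounded by Cauchy (`|p - p0| <= 1` on the ball of radius rho), so
`|p' - 3/4| <= 3/10` on a smaller ball.  General `(i,j)`: compose with the translation `b -> b + j pi` and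
subtract `i pi` (`rC` has period pi, `cos (b + j pi)`).
-/

namespace SF

open Metric

theorem we_tr_diff (p q w : ℂ → ℂ) (hp : Differentiable ℂ p) (hq : Differentiable ℂ q)
    (hw : Differentiable ℂ w) (k : ℕ) :
    Differentiable ℂ (fun t => tr (p t) (q t) (w t) k) ∧
    Differentiable ℂ (fun t => tr (p t) (q t) (w t) (k + 1)) ∧
    Differentiable ℂ (fun t => tr (p t) (q t) (w t) (k + 2)) := by
  induction k with
  | zero => exact ⟨hp, hq, hw⟩
  | succ k ih =>
    obtain ⟨a, b, c⟩ := ih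
    refine ⟨b, c, ?_⟩
    change Differentiable ℂ (fun t => 2 * tr (p t) (q t) (w t) (k + 2) *
      tr (p t) (q t) (w t) (k + 1) - tr (p t) (q t) (w t) k)
    exact (((differentiable_const 2).mul c).mul b).sub a

theorem we_X_diff (lam : ℂ) (k : ℕ) : Differentiable ℂ (fun t => X lam t k) := by
  unfold X
  exact (we_tr_diff (fun _ => 1) (fun t => -t / 2) (fun t => -(t + lam) / 2)
    (differentiable_const _) (by fun_prop) (by fun_prop) k).1

theorem we_X_inv (lam z : ℂ) (k : ℕ) :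
    X lam z (k + 2) ^ 2 + X lam z (k + 1) ^ 2 + X lam z k ^ 2
      - 2 * X lam z (k + 2) * X lam z (k + 1) * X lam z k = 1 + lam ^ 2 / 4 := by
  unfold X
  exact tr_inv 1 (-z / 2) (-(z + lam) / 2) _ (by ring) k

/-- the complex derivative of `X` at a real point -/
theorem we_deriv (lam t d : ℝ) (k : ℕ) (h : HasDerivAt (fun s => X lam s k) d t) :
    HasDerivAt (fun z : ℂ => X (lam : ℂ) z k) (d : ℂ) (t : ℂ) := by
  have h1 : HasDerivAt (fun z : ℂ => X (lam : ℂ) z k)
      (deriv (fun z : ℂ => X (lam : ℂ) z k) (t : ℂ)) (t : ℂ) :=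
    ((we_X_diff (lam : ℂ) k) (t : ℂ)).hasDerivAt
  have h2 := h1.comp_ofReal
  have h3 : HasDerivAt (fun s : ℝ => ((X lam s k : ℝ) : ℂ)) (d : ℂ) t := h.ofReal_comp
  have h4 : (fun s : ℝ => X (lam : ℂ) (s : ℂ) k) = (fun s : ℝ => ((X lam s k : ℝ) : ℂ)) := by
    funext s
    exact X_ofReal lam s k
  rw [h4] at h2
  rw [h3.unique h2]
  exact h1

/-- two continuous lifts with the same cosine -/
theorem we_cont (u v : ℝ → ℝ) (a b : ℝ) (hu : ContinuousOn u (Set.uIcc a b))
    (hv : ContinuousOn v (Set.uIcc a b))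
    (hcos : ∀ x ∈ Set.uIcc a b, Real.cos (u x) = Real.cos (v x))
    (hs : ∀ x ∈ Set.uIcc a b, Real.sin (v x) ≠ 0) (h0 : u a = v a) : u b = v b := by
  have hsin : ∀ x ∈ Set.uIcc a b, Real.sin (u x) = Real.sin (v x) := by
    intro x hx
    have hsq : ∀ y ∈ Set.uIcc a b, Real.sin (u y) ^ 2 = Real.sin (v y) ^ 2 := by
      intro y hy
      have e1 := Real.sin_sq_add_cos_sq (u y)
      have e2 := Real.sin_sq_add_cos_sq (v y)
      rw [hcos y hy] at e1
      linarith
    rcases sq_eq_sq_iff_eq_or_eq_neg.mp (hsq x hx) with h | h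
    · exact h
    · exfalso
      have hsub : Set.uIcc a x ⊆ Set.uIcc a b := Set.uIcc_subset_uIcc_left hx
      have hf : ContinuousOn (fun y => Real.sin (u y) * Real.sin (v y)) (Set.uIcc a x) :=
        (Real.continuous_sin.comp_continuousOn (hu.mono hsub)).mul
          (Real.continuous_sin.comp_continuousOn (hv.mono hsub))
      have hiv := intermediate_value_uIcc hf
      have hpos : 0 < Real.sin (u a) * Real.sin (v a) := by
        rw [h0]
        exact mul_self_pos.mpr (hs a Set.left_mem_uIcc)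
      have hneg : Real.sin (u x) * Real.sin (v x) < 0 := by
        rw [h]
        have : 0 < Real.sin (v x) ^ 2 := by
          have := hs x hx
          positivity
        linarith only [this]
      obtain ⟨y, hy, hy0⟩ := hiv (show (0 : ℝ) ∈ Set.uIcc (Real.sin (u a) * Real.sin (v a))
        (Real.sin (u x) * Real.sin (v x)) from by
          rw [Set.mem_uIcc]
          right
          exact ⟨hneg.le, hpos.le⟩)
      have hy' := hsub hy
      have e := hsq y hy'
      have e0 := hs y hy'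
      simp only [mul_eq_zero] at hy0
      rcases hy0 with h1 | h1
      · rw [h1] at e
        apply e0
        have : Real.sin (v y) ^ 2 = 0 := by rw [← e]; ring
        exact pow_eq_zero_iff (two_ne_zero) |>.1 this
      · exact e0 h1
  have hexp : ∀ x ∈ Set.uIcc a b, |u x - v x| < 2 * Real.pi → u x = v x := by
    intro x hx hlt
    apply f6_eq_of_exp _ _ _ hlt
    rw [Complex.exp_mul_I, Complex.exp_mul_I, ← Complex.ofReal_cos, ← Complex.ofReal_sin,
      ← Complex.ofReal_cos, ← Complex.ofReal_sin, hcos x hx, hsin x hx]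
  by_contra hne
  have hb : 2 * Real.pi ≤ |u b - v b| := by
    by_contra hlt
    exact hne (hexp b Set.right_mem_uIcc (not_le.1 hlt))
  have hw : ContinuousOn (fun x => |u x - v x|) (Set.uIcc a b) := (hu.sub hv).abs
  obtain ⟨y, hy, hy0⟩ := intermediate_value_uIcc hw (show Real.pi ∈ Set.uIcc |u a - v a| |u b - v b|
    from by
      rw [Set.mem_uIcc, h0, sub_self, abs_zero]
      left
      exact ⟨Real.pi_pos.le, by linarith [Real.pi_pos]⟩)
  have hy1 : |u y - v y| = Real.pi := hy0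
  have := hexp y hy (by rw [hy1]; linarith [Real.pi_pos])
  rw [this, sub_self, abs_zero] at hy1
  exact Real.pi_pos.ne hy1

/-- the coordinate of the energy family -/
theorem we_psi (lam t : ℝ) (h0 : 0 ≤ lam) (h1 : lam ≤ 1 / 100) (m : ℕ)
    (hx : |X lam t (m + 1)| < 1) :
    rr lam (TE lam t (m + 1)) * Real.cos (psiE lam t (m + 1)) = X lam t m ∧
    rr lam (TE lam t (m + 1)) * Real.cos (psiE lam t (m + 1) + TE lam t (m + 1)) = X lam t (m + 2) ∧
    |TE lam t m - psiE lam t (m + 1)| < Real.pi / 2 ∧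
    0 ≤ Real.sin (TE lam t m) * Real.sin (psiE lam t (m + 1)) := by
  have hspec := fun i => coord_spec (St_energy lam t h0) h0 h1 0 (Real.arccos (-t / 2))
    (h94_e0 lam t) (h94_e1 lam t) (m + 1) (by omega) hx i
  have hsb : Real.sin (TE lam t (m + 1)) ≠ 0 := (sin_TE_ne lam t h0 (m + 1)).2 hx
  have c0 := hspec 0
  have c2 := hspec 2
  have e0 : W lam (TE lam t (m + 1)) (psiE lam t (m + 1)) 0 = X lam t m := c0.1
  have e2 : W lam (TE lam t (m + 1)) (psiE lam t (m + 1)) 2 = X lam t (m + 2) := c2.1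
  have e1 : T0 lam (TE lam t (m + 1)) (psiE lam t (m + 1)) = TE lam t m := c0.2
  refine ⟨e0, e2, ?_, ?_⟩
  · rw [← e1]
    exact T0_near _ _ hsb
  · have h2 := congrArg Complex.im (exp_T0 (lam := lam) (TE lam t (m + 1)) (psiE lam t (m + 1)) hsb)
    rw [e1, Complex.exp_mul_I, ← Complex.ofReal_cos, ← Complex.ofReal_sin] at h2
    have h3 : Real.sin (TE lam t m) = oW lam (TE lam t (m + 1)) (psiE lam t (m + 1)) 0 *
        Real.sqrt (1 - clip (W lam (TE lam t (m + 1)) (psiE lam t (m + 1)) 0) ^ 2) := by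
      have h4 : (((Real.cos (TE lam t m) : ℝ) : ℂ) + ((Real.sin (TE lam t m) : ℝ) : ℂ) *
          Complex.I).im = Real.sin (TE lam t m) := by
        simp [-Complex.ofReal_sin, -Complex.ofReal_cos]
      rw [← h4, h2]
      rfl
    have h5 := F3bAux.oW0_mul lam (TE lam t (m + 1)) (psiE lam t (m + 1))
    have h6 : Real.sin (TE lam t m) * Real.sin (psiE lam t (m + 1)) =
        |Real.sin (psiE lam t (m + 1))| *
        Real.sqrt (1 - clip (W lam (TE lam t (m + 1)) (psiE lam t (m + 1)) 0) ^ 2) := by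
      rw [h3, ← h5]
      ring
    rw [h6]
    positivity

/-- the coordinate along a curve of parameters -/
theorem we_psi_cont (lam : ℝ) (h0 : 0 ≤ lam) (h1 : lam ≤ 1 / 100) (m : ℕ) (a b : ℝ)
    (T p : ℝ → ℝ) (hT : ContinuousOn T (Set.uIcc a b)) (hp : ContinuousOn p (Set.uIcc a b))
    (hx : ∀ x ∈ Set.uIcc a b, |X lam (T x) (m + 1)| < 1)
    (hTE : ∀ x ∈ Set.uIcc a b, TE lam (T x) (m + 1) = x)
    (e0 : ∀ x ∈ Set.uIcc a b, X lam (T x) m = rr lam x * Real.cos (p x))
    (e2 : ∀ x ∈ Set.uIcc a b, X lam (T x) (m + 2) = rr lam x * Real.cos (p x + x))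
    (hpa : psiE lam (T a) (m + 1) = p a) : psiE lam (T b) (m + 1) = p b := by
  have hsin : ∀ x ∈ Set.uIcc a b, Real.sin x ≠ 0 := by
    intro x hxx
    have := (sin_TE_ne lam (T x) h0 (m + 1)).2 (hx x hxx)
    rwa [hTE x hxx] at this
  have hexp : ∀ x ∈ Set.uIcc a b, |psiE lam (T x) (m + 1) - p x| < 2 * Real.pi →
      psiE lam (T x) (m + 1) = p x := by
    intro x hxx hlt
    obtain ⟨g0, g2, -, -⟩ := we_psi lam (T x) h0 h1 m (hx x hxx)
    rw [hTE x hxx] at g0 g2
    have hr : rr lam x ≠ 0 := by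
      have := one_le_rr lam x
      linarith
    have c0 : Real.cos (psiE lam (T x) (m + 1)) = Real.cos (p x) := by
      apply mul_left_cancel₀ hr
      rw [g0, e0 x hxx]
    have c2 : Real.cos (psiE lam (T x) (m + 1) + x) = Real.cos (p x + x) := by
      apply mul_left_cancel₀ hr
      rw [g2, e2 x hxx]
    have s0 : Real.sin (psiE lam (T x) (m + 1)) = Real.sin (p x) := by
      rw [Real.cos_add, Real.cos_add, c0] at c2
      apply mul_right_cancel₀ (hsin x hxx)
      linarith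
    apply f6_eq_of_exp _ _ _ hlt
    rw [Complex.exp_mul_I, Complex.exp_mul_I, ← Complex.ofReal_cos, ← Complex.ofReal_sin,
      ← Complex.ofReal_cos, ← Complex.ofReal_sin, c0, s0]
  have hnear : ∀ x ∈ Set.uIcc a b, |TE lam (T x) m - psiE lam (T x) (m + 1)| < Real.pi / 2 :=
    fun x hxx => (we_psi lam (T x) h0 h1 m (hx x hxx)).2.2.1
  have hcont : ContinuousOn (fun x => |TE lam (T x) m - p x|) (Set.uIcc a b) :=
    (((TE_continuous lam h0 h1 m).comp_continuousOn hT).sub hp).abs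
  have hpi := Real.pi_pos
  have hD : |TE lam (T b) m - p b| < Real.pi / 2 := by
    by_contra hcon
    rw [not_lt] at hcon
    have ha : |TE lam (T a) m - p a| < Real.pi / 2 := by
      rw [← hpa]
      exact hnear a Set.left_mem_uIcc
    obtain ⟨y, hy, hy0⟩ := intermediate_value_uIcc hcont
      (show Real.pi / 2 ∈ Set.uIcc |TE lam (T a) m - p a| |TE lam (T b) m - p b| from by
        rw [Set.mem_uIcc]
        left
        exact ⟨ha.le, hcon⟩)
    have hy1 : |TE lam (T y) m - p y| = Real.pi / 2 := hy0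
    have hn := hnear y hy
    have hlt : |psiE lam (T y) (m + 1) - p y| < 2 * Real.pi := by
      have : psiE lam (T y) (m + 1) - p y =
          (TE lam (T y) m - p y) - (TE lam (T y) m - psiE lam (T y) (m + 1)) := by ring
      rw [this]
      have := abs_sub (TE lam (T y) m - p y) (TE lam (T y) m - psiE lam (T y) (m + 1))
      linarith
    rw [hexp y hy hlt, hy1] at hn
    exact lt_irrefl _ hn
  apply hexp b Set.right_mem_uIcc
  have hn := hnear b Set.right_mem_uIcc
  have : psiE lam (T b) (m + 1) - p b =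
      (TE lam (T b) m - p b) - (TE lam (T b) m - psiE lam (T b) (m + 1)) := by ring
  rw [this]
  have := abs_sub (TE lam (T b) m - p b) (TE lam (T b) m - psiE lam (T b) (m + 1))
  linarith

/-- the slope at the centre: real algebra -/
theorem we_slope (s q r S Z w : ℝ) (hs : 0 < s) (hq : q ^ 2 ≤ s ^ 2 / 6400)
    (hS : s ≤ |S|) (hZ : Z ^ 2 = S ^ 2 + q ^ 2) (hSZ : 0 ≤ S * Z) (hw0 : 49 / 100 ≤ w)
    (hw1 : w ≤ 101 / 100) (hr : r = S / Z * w) : 48 / 100 ≤ r ∧ r ≤ 101 / 100 ∧ s ≤ |Z| := by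
  have hS2 : s ^ 2 ≤ S ^ 2 := by
    rw [← sq_abs S]
    exact pow_le_pow_left₀ hs.le hS 2
  have hS0 : 0 < S ^ 2 := lt_of_lt_of_le (by positivity) hS2
  have hZ0 : 0 < Z ^ 2 := by linarith only [hZ, hS0, sq_nonneg q]
  have hZs : s ≤ |Z| := by
    apply le_of_sq_le_sq _ (abs_nonneg _)
    rw [sq_abs]
    linarith only [hS2, hZ, sq_nonneg q]
  have hZne : Z ≠ 0 := by
    rintro rfl
    simp at hZ0
  have hSne : S ≠ 0 := by
    rintro rfl
    simp at hS0
  have hpos : 0 < S * Z := lt_of_le_of_ne hSZ (Ne.symm (mul_ne_zero hSne hZne))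
  set c := S / Z with hc
  have hc0 : 0 < c := by
    have : c = S * Z / Z ^ 2 := by rw [hc]; field_simp
    rw [this]
    positivity
  have hc2 : c ^ 2 = S ^ 2 / Z ^ 2 := by rw [hc, div_pow]
  have hc1 : c ^ 2 ≤ 1 := by
    rw [hc2, div_le_one hZ0]
    linarith only [hZ, sq_nonneg q]
  have hc1' : c ≤ 1 := (sq_le_one_iff₀ hc0.le).mp hc1
  have hcl : 99 / 100 ≤ c ^ 2 := by
    rw [hc2, le_div_iff₀ hZ0]
    linarith only [hZ, hq, hS2, hS0]
  have hcl' : 99 / 100 ≤ c := by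
    have h := mul_le_mul_of_nonneg_left hc1' hc0.le
    linarith only [h, hcl]
  refine ⟨?_, ?_, hZs⟩
  · rw [hr]
    have h : 99 / 100 * (49 / 100) ≤ c * w := mul_le_mul hcl' hw0 (by norm_num) hc0.le
    linarith only [h]
  · rw [hr]
    have h : c * w ≤ 1 * (101 / 100) :=
      mul_le_mul hc1' hw1 (by linarith only [hw0]) zero_le_one
    linarith only [h]

/-- the derivative of `rC` at the centre -/
theorem we_rC_deriv (lam b0 s : ℝ) (hs : 0 < s) (hb : s ≤ |Real.sin b0|) (hl0 : 0 ≤ lam)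
    (hl : lam ≤ s / 10) :
    ∃ D : ℂ, HasDerivAt (rC lam) D (b0 : ℂ) ∧ ‖D‖ ≤ 8 * lam ^ 2 / s ^ 3 := by
  obtain ⟨hd, hb2⟩ := rC_holo lam b0 s hs hb hl0 hl
  have hball : (b0 : ℂ) ∈ ball (b0 : ℂ) (s / 4) := mem_ball_self (by positivity)
  refine ⟨deriv (rC lam) b0,
    ((hd _ hball).differentiableAt (isOpen_ball.mem_nhds hball)).hasDerivAt, ?_⟩
  have hsub : closedBall (b0 : ℂ) (s / 8) ⊆ ball (b0 : ℂ) (s / 4) :=
    closedBall_subset_ball (by linarith)
  have hdc : DiffContOnCl ℂ (fun y => rC lam y - 1) (ball (b0 : ℂ) (s / 8)) := by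
    apply DifferentiableOn.diffContOnCl
    apply DifferentiableOn.mono _ closure_ball_subset_closedBall
    exact (hd.mono hsub).sub_const _
  have := Complex.norm_deriv_le_of_forall_mem_sphere_norm_le (c := (b0 : ℂ)) (R := s / 8)
    (C := lam ^ 2 / s ^ 2) (by positivity) hdc
    (fun y hy => (hb2 y (hsub (sphere_subset_closedBall hy))).2.1)
  rw [deriv_sub_const] at this
  refine this.trans (le_of_eq ?_)
  field_simp

/-- Cauchy estimate for the variation of the derivative -/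
theorem we_cauchy (p : ℂ → ℂ) (b0 : ℂ) (rho : ℝ) (hrho : 0 < rho)
    (hp : DifferentiableOn ℂ p (ball b0 rho)) (hb : ∀ b ∈ ball b0 rho, ‖p b - p b0‖ ≤ 1)
    (b : ℂ) (hbb : ‖b - b0‖ < rho / 4) :
    ‖deriv p b - deriv p b0‖ ≤ 32 / rho ^ 2 * ‖b - b0‖ := by
  have h1 : ∀ z : ℂ, ‖z - b0‖ < rho / 2 → ‖deriv p z‖ ≤ 4 / rho := by
    intro z hz
    have hsub : closedBall z (rho / 4) ⊆ ball b0 rho := by
      intro y hy
      rw [mem_closedBall, dist_eq_norm] at hy
      rw [mem_ball, dist_eq_norm]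
      calc ‖y - b0‖ = ‖(y - z) + (z - b0)‖ := by ring_nf
        _ ≤ ‖y - z‖ + ‖z - b0‖ := norm_add_le _ _
        _ < rho := by linarith
    have hd : DiffContOnCl ℂ (fun y => p y - p b0) (ball z (rho / 4)) := by
      apply DifferentiableOn.diffContOnCl
      apply DifferentiableOn.mono _ closure_ball_subset_closedBall
      exact (hp.mono hsub).sub_const _
    have := Complex.norm_deriv_le_of_forall_mem_sphere_norm_le (c := z) (R := rho / 4) (C := 1)
      (by positivity) hd (fun y hy => hb y (hsub (sphere_subset_closedBall hy)))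
    rw [deriv_sub_const] at this
    refine this.trans (le_of_eq ?_)
    field_simp
  have hp' : DifferentiableOn ℂ (deriv p) (ball b0 rho) := hp.deriv isOpen_ball
  have h2 : ∀ z : ℂ, ‖z - b0‖ < rho / 4 → ‖deriv (deriv p) z‖ ≤ 32 / rho ^ 2 := by
    intro z hz
    have hsub : closedBall z (rho / 8) ⊆ ball b0 (rho / 2) := by
      intro y hy
      rw [mem_closedBall, dist_eq_norm] at hy
      rw [mem_ball, dist_eq_norm]
      calc ‖y - b0‖ = ‖(y - z) + (z - b0)‖ := by ring_nf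
        _ ≤ ‖y - z‖ + ‖z - b0‖ := norm_add_le _ _
        _ < rho / 2 := by linarith
    have hd : DiffContOnCl ℂ (deriv p) (ball z (rho / 8)) := by
      apply DifferentiableOn.diffContOnCl
      apply DifferentiableOn.mono _ closure_ball_subset_closedBall
      exact hp'.mono (hsub.trans (ball_subset_ball (by linarith)))
    have := Complex.norm_deriv_le_of_forall_mem_sphere_norm_le (c := z) (R := rho / 8)
      (C := 4 / rho) (by positivity) hd (fun y hy => h1 y (by
        have := hsub (sphere_subset_closedBall hy)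
        rwa [mem_ball, dist_eq_norm] at this))
    refine this.trans (le_of_eq ?_)
    field_simp
    norm_num
  have hcv : Convex ℝ (ball b0 (rho / 4)) := convex_ball _ _
  exact hcv.norm_image_sub_le_of_norm_deriv_le (f := deriv p) (C := 32 / rho ^ 2)
    (x := b0) (y := b)
    (fun y hy => by
      have hy' : y ∈ ball b0 rho := ball_subset_ball (by linarith) hy
      exact (hp' y hy').differentiableAt (isOpen_ball.mem_nhds hy'))
    (fun y hy => h2 y (by rwa [mem_ball, dist_eq_norm] at hy))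
    (mem_ball_self (by positivity)) (by rwa [mem_ball, dist_eq_norm])

/-- the branch for `i = j = 0` -/
theorem we_base (s : ℝ) (hs : 0 < s) (hs1 : s ≤ 1) : ∃ R0 lam1 : ℝ, 0 < R0 ∧ 0 < lam1 ∧
    lam1 ≤ 1 / 100 ∧ ∀ lam : ℝ, 0 < lam → lam ≤ lam1 → ∀ (t0 : ℝ) (m : ℕ),
      Good s (fun k => TE lam t0 k) (m + 1) → ∃ T p : ℂ → ℂ,
        DifferentiableOn ℂ T (ball ((TE lam t0 (m + 1) : ℝ) : ℂ) R0) ∧
        DifferentiableOn ℂ p (ball ((TE lam t0 (m + 1) : ℝ) : ℂ) R0) ∧
        T ((TE lam t0 (m + 1) : ℝ) : ℂ) = t0 ∧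
        (∀ b ∈ ball ((TE lam t0 (m + 1) : ℝ) : ℂ) R0, deriv T b ≠ 0 ∧
          ‖deriv T b / deriv T ((TE lam t0 (m + 1) : ℝ) : ℂ) - 1‖ ≤ 1 / 2 ∧
          ‖deriv p b - 3 / 4‖ ≤ 3 / 10 ∧ X (lam : ℂ) (T b) (m + 1) = Complex.cos b ∧
          X (lam : ℂ) (T b) m = rC lam b * Complex.cos (p b) ∧
          X (lam : ℂ) (T b) (m + 2) = rC lam b * Complex.cos (p b + b)) ∧
        (∀ b : ℝ, (b : ℂ) ∈ ball ((TE lam t0 (m + 1) : ℝ) : ℂ) R0 →
          (T b).im = 0 ∧ (p b).im = 0 ∧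
          TE lam (T b).re (m + 1) = b ∧ psiE lam (T b).re (m + 1) = (p b).re) := by
  obtain ⟨lams, hlams, hlams1, hslope⟩ := slopes_energy s hs
  set eta := s ^ 2 / 2 with heta
  have he0 : 0 < eta := by positivity
  have hssq : s ^ 2 ≤ s := by
    have h := mul_le_mul_of_nonneg_right hs1 hs.le
    linarith only [h]
  have he1 : eta ≤ 1 / 2 := by
    linarith only [heta, hssq, hs1]
  set c := eta ^ 2 / 128 * (s / 3) with hc
  have hc0 : 0 < c := by positivity
  obtain ⟨rho, hrho, hcurve⟩ := curve eta c he0 he1 hc0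
  set R0 := min (min (rho / 4) (s / 8)) (rho ^ 2 / 1600) with hR0
  have hR0pos : 0 < R0 := by positivity
  have hR1 : R0 ≤ rho / 4 := (min_le_left _ _).trans (min_le_left _ _)
  have hR2 : R0 ≤ s / 8 := (min_le_left _ _).trans (min_le_right _ _)
  have hR3 : R0 ≤ rho ^ 2 / 1600 := min_le_right _ _
  refine ⟨R0, min lams (eta / 20), hR0pos, by positivity, (min_le_left _ _).trans hlams1, ?_⟩
  intro lam hl0 hl t0 m hgood
  have hls : lam ≤ lams := hl.trans (min_le_left _ _)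
  have hle : lam ≤ eta / 20 := hl.trans (min_le_right _ _)
  have hl1 : lam ≤ 1 / 100 := hls.trans hlams1
  have hgood' := hgood
  obtain ⟨hm4, hsn⟩ := hgood
  set b0 := TE lam t0 (m + 1) with hb0
  have hs0 : s ≤ |Real.sin (TE lam t0 m)| := hsn m (by omega) (by omega)
  have hs1' : s ≤ |Real.sin b0| := hsn (m + 1) (by omega) (by omega)
  have hs2 : s ≤ |Real.sin (TE lam t0 (m + 2))| := hsn (m + 2) (by omega) (by omega)
  have key : ∀ k, s ≤ |Real.sin (TE lam t0 k)| → |X lam t0 k| < 1 ∧ |X lam t0 k| ≤ 1 - eta ∧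
      Real.cos (TE lam t0 k) = X lam t0 k := by
    intro k hk
    have hne : Real.sin (TE lam t0 k) ≠ 0 := by
      intro h
      rw [h, abs_zero] at hk
      linarith
    have hx := (sin_TE_ne lam t0 hl0.le k).1 hne
    have hcos := cos_TE lam t0 hl0.le k
    rw [clip_of_lt hx] at hcos
    refine ⟨hx, ?_, hcos⟩
    rw [← hcos]
    apply abs_le_of_sq_le_sq _ (by linarith)
    have h1 := Real.sin_sq_add_cos_sq (TE lam t0 k)
    have h2 : s ^ 2 ≤ Real.sin (TE lam t0 k) ^ 2 := by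
      rw [← sq_abs (Real.sin _)]
      exact pow_le_pow_left₀ hs.le hk 2
    have h3 : (1 - eta) ^ 2 = 1 - s ^ 2 + eta ^ 2 := by
      rw [heta]
      ring
    linarith only [h1, h2, h3, sq_nonneg eta]
  obtain ⟨hx0, hxe0, hcos0⟩ := key m hs0
  obtain ⟨hx1, hxe1, hcos1⟩ := key (m + 1) hs1'
  obtain ⟨hx2, hxe2, hcos2⟩ := key (m + 2) hs2
  obtain ⟨dm, -, hTm, hXm⟩ := TE_deriv lam t0 hl0.le hl1 m (by omega) hx0
  obtain ⟨d, -, hT1, hX1⟩ := TE_deriv lam t0 hl0.le hl1 (m + 1) (by omega) hx1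
  obtain ⟨dp, -, hTp, hXp⟩ := TE_deriv lam t0 hl0.le hl1 (m + 2) (by omega) hx2
  obtain ⟨hd0, hdm1, hdm2, hdp1, hdp2⟩ := hslope lam t0 hl0.le hls (m + 1) hgood' dm d dp hTm hT1 hTp
  have hcX0 := we_deriv lam t0 _ m hXm
  have hcX1 := we_deriv lam t0 _ (m + 1) hX1
  have hder1 : deriv (fun z : ℂ => X (lam : ℂ) z (m + 1)) (t0 : ℂ) =
      ((-Real.sin b0 * d : ℝ) : ℂ) := hcX1.deriv
  have hnder : ‖deriv (fun z : ℂ => X (lam : ℂ) z (m + 1)) (t0 : ℂ)‖ = |Real.sin b0| * d := by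
    rw [hder1, Complex.norm_real, Real.norm_eq_abs, abs_mul, abs_neg, abs_of_pos hd0]
  have hsinpos : 0 < |Real.sin b0| := lt_of_lt_of_le hs hs1'
  have h3d : 3 * d ≤ 3 / s * (|Real.sin b0| * d) := by
    rw [div_mul_eq_mul_div, le_div_iff₀ hs]
    linarith only [mul_le_mul_of_nonneg_right hs1' hd0.le]
  have hdisc : ∀ k, |X lam t0 k| ≤ 1 - eta → 1 ≤ k → ∀ e : ℝ,
      HasDerivAt (fun s => X lam s k) e t0 → |e| ≤ 3 * d →
      ∀ z : ℂ, ‖z - t0‖ * (|Real.sin b0| * d) ≤ c →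
      ‖X (lam : ℂ) z k - X (lam : ℂ) (t0 : ℂ) k‖ ≤ eta / 8 := by
    intro k hxk hk e he hle' z hz
    rw [X_ofReal]
    apply X_disc lam eta he0 (by linarith) k hk t0 hxk z
    rw [he.deriv]
    calc ‖z - t0‖ * |e| ≤ ‖z - t0‖ * (3 / s * (|Real.sin b0| * d)) :=
          mul_le_mul_of_nonneg_left (hle'.trans h3d) (norm_nonneg _)
      _ = 3 / s * (‖z - t0‖ * (|Real.sin b0| * d)) := by ring
      _ ≤ 3 / s * c := mul_le_mul_of_nonneg_left hz (by positivity)
      _ = eta ^ 2 / 128 := by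
        rw [hc]
        field_simp
  have hbd : ∀ k (e : ℝ), 0 ≤ e → e ≤ 3 * d → |(-Real.sin (TE lam t0 k) * e)| ≤ 3 * d := by
    intro k e h0 h1
    rw [abs_mul, abs_neg, abs_of_nonneg h0]
    have := mul_le_mul_of_nonneg_right (Real.abs_sin_le_one (TE lam t0 k)) h0
    linarith only [this, h1]
  obtain ⟨hp0, hp2, hpn, hps⟩ := we_psi lam t0 hl0.le hl1 m hx1
  obtain ⟨T, p, hTd, hpd, hT0, hpp0, hball, hreal⟩ := hcurve lam hl0.le hle
    (fun z => X (lam : ℂ) z m) (fun z => X (lam : ℂ) z (m + 1)) (fun z => X (lam : ℂ) z (m + 2))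
    t0 b0 (psiE lam t0 (m + 1)) (we_X_diff _ _) (we_X_diff _ _) (we_X_diff _ _)
    (fun t => ⟨by simp only [X_ofReal, Complex.ofReal_im], by simp only [X_ofReal, Complex.ofReal_im],
      by simp only [X_ofReal, Complex.ofReal_im]⟩)
    (fun z => we_X_inv _ _ _)
    (by
      show ‖X (lam : ℂ) (t0 : ℂ) m‖ ≤ 1 - eta
      rw [X_ofReal, Complex.norm_real]
      exact hxe0)
    (by
      show ‖X (lam : ℂ) (t0 : ℂ) (m + 1)‖ ≤ 1 - eta
      rw [X_ofReal, Complex.norm_real]
      exact hxe1)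
    (by
      show ‖X (lam : ℂ) (t0 : ℂ) (m + 2)‖ ≤ 1 - eta
      rw [X_ofReal, Complex.norm_real]
      exact hxe2)
    (by
      rw [hnder]
      positivity)
    (fun z hz => by
      rw [hnder] at hz
      exact ⟨hdisc m hxe0 (by omega) _ hXm (hbd m dm (by linarith) (by linarith)) z hz,
        hdisc (m + 1) hxe1 (by omega) _ hX1 (hbd (m + 1) d (by linarith) (by linarith)) z hz,
        hdisc (m + 2) hxe2 (by omega) _ hXp (hbd (m + 2) dp (by linarith) (by linarith)) z hz⟩)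
    (by
      show X (lam : ℂ) (t0 : ℂ) (m + 1) = _
      rw [X_ofReal, hcos1])
    (by
      show X (lam : ℂ) (t0 : ℂ) m = _
      rw [X_ofReal, hp0])
    (by
      show X (lam : ℂ) (t0 : ℂ) (m + 2) = _
      rw [X_ofReal, hp2])
  have hsubR : ball (b0 : ℂ) R0 ⊆ ball (b0 : ℂ) rho := ball_subset_ball (by linarith)
  have hb0mem : (b0 : ℂ) ∈ ball (b0 : ℂ) rho := mem_ball_self hrho
  have hnhds : ball (b0 : ℂ) rho ∈ nhds (b0 : ℂ) := isOpen_ball.mem_nhds hb0mem
  -- derivatives at the centre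
  have hTder : HasDerivAt T (deriv T (b0 : ℂ)) (b0 : ℂ) :=
    ((hTd _ hb0mem).differentiableAt hnhds).hasDerivAt
  have hpder : HasDerivAt p (deriv p (b0 : ℂ)) (b0 : ℂ) :=
    ((hpd _ hb0mem).differentiableAt hnhds).hasDerivAt
  have hsb0 : Real.sin b0 ≠ 0 := abs_pos.mp hsinpos
  have eT : deriv T (b0 : ℂ) = ((1 / d : ℝ) : ℂ) := by
    have h1 : HasDerivAt (fun b => X (lam : ℂ) (T b) (m + 1))
        (((-Real.sin b0 * d : ℝ) : ℂ) * deriv T (b0 : ℂ)) (b0 : ℂ) := by
      have h0 : HasDerivAt (fun z : ℂ => X (lam : ℂ) z (m + 1)) ((-Real.sin b0 * d : ℝ) : ℂ)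
          (T (b0 : ℂ)) := by
        rw [hT0]
        exact hcX1
      exact h0.comp (b0 : ℂ) hTder
    have h2 : HasDerivAt (fun b : ℂ => X (lam : ℂ) (T b) (m + 1)) (-Complex.sin (b0 : ℂ))
        (b0 : ℂ) := by
      refine (Complex.hasDerivAt_cos (b0 : ℂ)).congr_of_eventuallyEq ?_
      filter_upwards [hnhds] with b hb
      exact (hball b hb).2.1
    have h3 := h1.unique h2
    rw [← Complex.ofReal_sin] at h3
    have hsc : ((Real.sin b0 : ℝ) : ℂ) ≠ 0 := Complex.ofReal_ne_zero.mpr hsb0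
    have hdc : ((d : ℝ) : ℂ) ≠ 0 := Complex.ofReal_ne_zero.mpr hd0.ne'
    push_cast at h3 ⊢
    rw [← Complex.ofReal_sin] at h3
    rw [eq_div_iff hdc]
    apply mul_left_cancel₀ hsc
    linear_combination -h3
  have hl40 : lam ≤ s ^ 2 / 40 := by linarith only [hle, heta]
  have hl10 : lam ≤ s / 10 := by linarith only [hl40, hssq, hs]
  obtain ⟨D, hD, hDn⟩ := we_rC_deriv lam b0 s hs hs1' hl0.le hl10
  have hrC0 : rC lam (b0 : ℂ) = ((rr lam b0 : ℝ) : ℂ) := rC_ofReal lam b0 hsb0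
  have eP : ((rr lam b0 * Real.sin (psiE lam t0 (m + 1)) : ℝ) : ℂ) * deriv p (b0 : ℂ) =
      D * ((Real.cos (psiE lam t0 (m + 1)) : ℝ) : ℂ) +
        ((Real.sin (TE lam t0 m) * (dm / d) : ℝ) : ℂ) := by
    have h1 : HasDerivAt (fun b => X (lam : ℂ) (T b) m)
        (((-Real.sin (TE lam t0 m) * dm : ℝ) : ℂ) * deriv T (b0 : ℂ)) (b0 : ℂ) := by
      have h0 : HasDerivAt (fun z : ℂ => X (lam : ℂ) z m) ((-Real.sin (TE lam t0 m) * dm : ℝ) : ℂ)
          (T (b0 : ℂ)) := by
        rw [hT0]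
        exact hcX0
      exact h0.comp (b0 : ℂ) hTder
    have h2 : HasDerivAt (fun b : ℂ => X (lam : ℂ) (T b) m)
        (D * Complex.cos (p (b0 : ℂ)) + rC lam (b0 : ℂ) *
          (-Complex.sin (p (b0 : ℂ)) * deriv p (b0 : ℂ))) (b0 : ℂ) := by
      refine (hD.mul ((Complex.hasDerivAt_cos _).comp (b0 : ℂ) hpder)).congr_of_eventuallyEq ?_
      filter_upwards [hnhds] with b hb
      exact (hball b hb).2.2.1
    have h3 := h1.unique h2
    rw [eT, hpp0, hrC0] at h3
    have hh : ((-Real.sin (TE lam t0 m) * dm : ℝ) : ℂ) * ((1 / d : ℝ) : ℂ) =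
        -((Real.sin (TE lam t0 m) * (dm / d) : ℝ) : ℂ) := by
      rw [← Complex.ofReal_mul, ← Complex.ofReal_neg]
      congr 1
      ring
    rw [hh, ← Complex.ofReal_cos, ← Complex.ofReal_sin] at h3
    rw [Complex.ofReal_mul (rr lam b0) (Real.sin (psiE lam t0 (m + 1)))]
    linear_combination h3
  -- the slope
  have hq : (qq lam b0) ^ 2 ≤ s ^ 2 / 6400 := by
    unfold qq
    have h1 : lam / (2 * |Real.sin b0|) ≤ s / 80 := by
      rw [div_le_iff₀ (by positivity)]
      have := mul_le_mul_of_nonneg_left hs1' hs.le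
      linarith only [this, hl40]
    have h2 : 0 ≤ lam / (2 * |Real.sin b0|) := by positivity
    calc (lam / (2 * |Real.sin b0|)) ^ 2 ≤ (s / 80) ^ 2 := pow_le_pow_left₀ h2 h1 2
      _ = s ^ 2 / 6400 := by ring
  have hZ : (rr lam b0 * Real.sin (psiE lam t0 (m + 1))) ^ 2 =
      Real.sin (TE lam t0 m) ^ 2 + (qq lam b0) ^ 2 := by
    have h1 := rr_sq lam b0
    have h2 := Real.sin_sq_add_cos_sq (psiE lam t0 (m + 1))
    have h3 := Real.sin_sq_add_cos_sq (TE lam t0 m)
    have h4 : rr lam b0 * Real.cos (psiE lam t0 (m + 1)) = Real.cos (TE lam t0 m) := by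
      rw [hcos0, hp0]
    have h5 : (rr lam b0 * Real.cos (psiE lam t0 (m + 1))) ^ 2 = Real.cos (TE lam t0 m) ^ 2 := by
      rw [h4]
    linear_combination (rr lam b0) ^ 2 * h2 - h5 + h1 - h3
  have hSZ : 0 ≤ Real.sin (TE lam t0 m) * (rr lam b0 * Real.sin (psiE lam t0 (m + 1))) := by
    have h1 := one_le_rr lam b0
    have : Real.sin (TE lam t0 m) * (rr lam b0 * Real.sin (psiE lam t0 (m + 1))) =
        rr lam b0 * (Real.sin (TE lam t0 m) * Real.sin (psiE lam t0 (m + 1))) := by ring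
    rw [this]
    exact mul_nonneg (by linarith) hps
  obtain ⟨hr1, hr2, hZs⟩ := we_slope s (qq lam b0) _ (Real.sin (TE lam t0 m))
    (rr lam b0 * Real.sin (psiE lam t0 (m + 1))) (dm / d) hs hq hs0 hZ hSZ
    (by rw [le_div_iff₀ hd0]; exact hdm1) (by rw [div_le_iff₀ hd0]; exact hdm2) rfl
  set Z := rr lam b0 * Real.sin (psiE lam t0 (m + 1)) with hZdef
  set S := Real.sin (TE lam t0 m) with hSdef
  have hZne : Z ≠ 0 := by
    intro h
    rw [h, abs_zero] at hZs
    linarith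
  have hcen : ‖deriv p (b0 : ℂ) - 3 / 4‖ ≤ 28 / 100 := by
    have h1 : deriv p (b0 : ℂ) - ((S / Z * (dm / d) : ℝ) : ℂ) =
        D * ((Real.cos (psiE lam t0 (m + 1)) : ℝ) : ℂ) / ((Z : ℝ) : ℂ) := by
      have hZc : ((Z : ℝ) : ℂ) ≠ 0 := Complex.ofReal_ne_zero.mpr hZne
      rw [eq_div_iff hZc]
      have : ((S / Z * (dm / d) : ℝ) : ℂ) * ((Z : ℝ) : ℂ) = ((S * (dm / d) : ℝ) : ℂ) := by
        rw [← Complex.ofReal_mul]
        congr 1
        field_simp
      rw [sub_mul, this]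
      linear_combination eP
    have h2 : ‖deriv p (b0 : ℂ) - ((S / Z * (dm / d) : ℝ) : ℂ)‖ ≤ 1 / 200 := by
      rw [h1, norm_div, norm_mul, Complex.norm_real, Complex.norm_real, Real.norm_eq_abs,
        Real.norm_eq_abs, div_le_iff₀ (by linarith)]
      have h3 := Real.abs_cos_le_one (psiE lam t0 (m + 1))
      have h4 : ‖D‖ ≤ 1 / 200 * s := by
        refine hDn.trans ?_
        rw [div_le_iff₀ (by positivity)]
        have h6 : lam ^ 2 ≤ (s ^ 2 / 40) ^ 2 := pow_le_pow_left₀ hl0.le hl40 2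
        linarith only [h6]
      calc ‖D‖ * |Real.cos (psiE lam t0 (m + 1))| ≤ ‖D‖ * 1 :=
            mul_le_mul_of_nonneg_left h3 (norm_nonneg _)
        _ ≤ 1 / 200 * s := by linarith
        _ ≤ 1 / 200 * |Z| := by linarith
    have h3 : deriv p (b0 : ℂ) - 3 / 4 = (deriv p (b0 : ℂ) - ((S / Z * (dm / d) : ℝ) : ℂ)) +
        ((S / Z * (dm / d) - 3 / 4 : ℝ) : ℂ) := by
      push_cast
      ring
    have h4 : ‖((S / Z * (dm / d) - 3 / 4 : ℝ) : ℂ)‖ ≤ 27 / 100 := by
      rw [Complex.norm_real, Real.norm_eq_abs, abs_le]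
      constructor <;> linarith
    rw [h3]
    exact (norm_add_le _ _).trans (by linarith)
  have hslopeb : ∀ b ∈ ball (b0 : ℂ) R0, ‖deriv p b - 3 / 4‖ ≤ 3 / 10 := by
    intro b hb
    rw [mem_ball, dist_eq_norm] at hb
    have h1 := we_cauchy p (b0 : ℂ) rho hrho hpd (fun b hb => by
      have := (hball b hb).2.2.2.2.2.2
      rw [hpp0]
      exact this) b (by linarith)
    have h2 : 32 / rho ^ 2 * ‖b - (b0 : ℂ)‖ ≤ 1 / 50 := by
      calc 32 / rho ^ 2 * ‖b - (b0 : ℂ)‖ ≤ 32 / rho ^ 2 * (rho ^ 2 / 1600) :=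
            mul_le_mul_of_nonneg_left (by linarith) (by positivity)
        _ = 1 / 50 := by
          field_simp
          norm_num
    have h3 : deriv p b - 3 / 4 = (deriv p b - deriv p (b0 : ℂ)) + (deriv p (b0 : ℂ) - 3 / 4) := by
      ring
    rw [h3]
    exact (norm_add_le _ _).trans (by linarith)
  -- real points
  have hrmem : ∀ b : ℝ, (b : ℂ) ∈ ball (b0 : ℂ) R0 → ∀ x ∈ Set.uIcc b0 b,
      (x : ℂ) ∈ ball (b0 : ℂ) R0 := by
    intro b hb x hx
    rw [mem_ball, dist_eq_norm, ← Complex.ofReal_sub, Complex.norm_real, Real.norm_eq_abs] at hb ⊢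
    exact lt_of_le_of_lt (Set.abs_sub_left_of_mem_uIcc hx) hb
  have hsinx : ∀ x : ℝ, (x : ℂ) ∈ ball (b0 : ℂ) R0 → Real.sin x ≠ 0 := by
    intro x hx
    have h1 := (rC_holo lam b0 s hs hs1' hl0.le hl10).2 x
      (ball_subset_ball (by linarith) hx)
    intro h
    apply h1.1
    rw [← Complex.ofReal_sin, h, Complex.ofReal_zero]
  have hTre : ∀ x : ℝ, (x : ℂ) ∈ ball (b0 : ℂ) R0 → (((T x).re : ℝ) : ℂ) = T x := by
    intro x hx
    apply Complex.ext
    · simp
    · simp [(hreal x (hsubR hx)).1]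
  have hpre : ∀ x : ℝ, (x : ℂ) ∈ ball (b0 : ℂ) R0 → (((p x).re : ℝ) : ℂ) = p x := by
    intro x hx
    apply Complex.ext
    · simp
    · simp [(hreal x (hsubR hx)).2]
  have hXx1 : ∀ x : ℝ, (x : ℂ) ∈ ball (b0 : ℂ) R0 → X lam (T x).re (m + 1) = Real.cos x := by
    intro x hx
    apply Complex.ofReal_injective
    rw [← X_ofReal, hTre x hx, (hball x (hsubR hx)).2.1, Complex.ofReal_cos]
  have hXx0 : ∀ x : ℝ, (x : ℂ) ∈ ball (b0 : ℂ) R0 →
      X lam (T x).re m = rr lam x * Real.cos (p x).re := by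
    intro x hx
    apply Complex.ofReal_injective
    rw [← X_ofReal, hTre x hx, (hball x (hsubR hx)).2.2.1, Complex.ofReal_mul, Complex.ofReal_cos,
      hpre x hx, rC_ofReal lam x (hsinx x hx)]
  have hXx2 : ∀ x : ℝ, (x : ℂ) ∈ ball (b0 : ℂ) R0 →
      X lam (T x).re (m + 2) = rr lam x * Real.cos ((p x).re + x) := by
    intro x hx
    apply Complex.ofReal_injective
    rw [← X_ofReal, hTre x hx, (hball x (hsubR hx)).2.2.2.1, Complex.ofReal_mul,
      Complex.ofReal_cos, Complex.ofReal_add, hpre x hx, rC_ofReal lam x (hsinx x hx)]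
  have hlt1 : ∀ x : ℝ, (x : ℂ) ∈ ball (b0 : ℂ) R0 → |X lam (T x).re (m + 1)| < 1 := by
    intro x hx
    rw [hXx1 x hx]
    exact f6_cos_lt x (hsinx x hx)
  have hcT : ∀ b : ℝ, (b : ℂ) ∈ ball (b0 : ℂ) R0 →
      ContinuousOn (fun x : ℝ => (T x).re) (Set.uIcc b0 b) := by
    intro b hb
    exact Complex.continuous_re.comp_continuousOn
      ((hTd.mono hsubR).continuousOn.comp Complex.continuous_ofReal.continuousOn
        (fun x hx => hrmem b hb x hx))
  have hcp : ∀ b : ℝ, (b : ℂ) ∈ ball (b0 : ℂ) R0 →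
      ContinuousOn (fun x : ℝ => (p x).re) (Set.uIcc b0 b) := by
    intro b hb
    exact Complex.continuous_re.comp_continuousOn
      ((hpd.mono hsubR).continuousOn.comp Complex.continuous_ofReal.continuousOn
        (fun x hx => hrmem b hb x hx))
  have hTE : ∀ b : ℝ, (b : ℂ) ∈ ball (b0 : ℂ) R0 → TE lam (T b).re (m + 1) = b := by
    intro b hb
    refine we_cont (fun x => TE lam (T x).re (m + 1)) (fun x => x) b0 b
      ((TE_continuous lam hl0.le hl1 (m + 1)).comp_continuousOn (hcT b hb)) continuousOn_id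
      ?_ (fun x hx => hsinx x (hrmem b hb x hx)) ?_
    · intro x hx
      have hx' := hrmem b hb x hx
      show Real.cos (TE lam (T x).re (m + 1)) = Real.cos x
      rw [cos_TE lam _ hl0.le, clip_of_lt (hlt1 x hx'), hXx1 x hx']
    · show TE lam (T (b0 : ℂ)).re (m + 1) = b0
      rw [hT0, Complex.ofReal_re]
  refine ⟨T, p, hTd.mono hsubR, hpd.mono hsubR, hT0, ?_, ?_⟩
  · intro b hb
    obtain ⟨g1, g2, g3, g4, g5, g6, g7⟩ := hball b (hsubR hb)
    exact ⟨g5, g6, hslopeb b hb, g2, g3, g4⟩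
  · intro b hb
    refine ⟨(hreal b (hsubR hb)).1, (hreal b (hsubR hb)).2, hTE b hb, ?_⟩
    refine we_psi_cont lam hl0.le hl1 m b0 b (fun x : ℝ => (T x).re) (fun x : ℝ => (p x).re)
      (hcT b hb) (hcp b hb) (fun x hx => hlt1 x (hrmem b hb x hx))
      (fun x hx => hTE x (hrmem b hb x hx)) (fun x hx => hXx0 x (hrmem b hb x hx))
      (fun x hx => hXx2 x (hrmem b hb x hx)) ?_
    show psiE lam (T (b0 : ℂ)).re (m + 1) = (p (b0 : ℂ)).re
    rw [hT0, hpp0, Complex.ofReal_re, Complex.ofReal_re]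

theorem we_rC_shift (lam : ℝ) (b : ℂ) (j : ℤ) : rC lam (b + j * Real.pi) = rC lam b := by
  unfold rC
  have h : Complex.sin (b + j * Real.pi) ^ 2 = Complex.sin b ^ 2 := by
    have hcj : Complex.cos ((j : ℂ) * Real.pi) = ((((-1 : ℝ)) ^ j : ℝ) : ℂ) := by
      rw [← Real.cos_int_mul_pi j, Complex.ofReal_cos]
      push_cast
      rfl
    have hsq : ((((-1 : ℝ)) ^ j : ℝ) : ℂ) ^ 2 = 1 := by
      rw [← Complex.ofReal_pow, sq, F3bAux.neg_one_slf, Complex.ofReal_one]
    rw [Complex.sin_add, Complex.sin_int_mul_pi, hcj, mul_zero, add_zero, mul_pow, hsq, mul_one]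
  rw [h]

theorem E_curve (c0 : ℝ) (hc : 0 < c0) : ∃ R0 lam1 : ℝ, 0 < R0 ∧ 0 < lam1 ∧ lam1 ≤ 1 / 100 ∧
    ∀ lam R : ℝ, 0 < lam → lam ≤ lam1 → 0 < R → R ≤ R0 → ∀ (t0 : ℝ) (l : ℕ),
      Good c0 (fun k => TE lam t0 k) l → ∀ i j : ℤ, ∃ T p : ℂ → ℂ,
        Curve lam R l i j (TE lam t0 l - j * Real.pi) T p ∧
          T ((TE lam t0 l - j * Real.pi : ℝ) : ℂ) = t0 := by
  obtain ⟨R0, lam1, hR0, hlam1, hlam2, hbase⟩ := we_base (min c0 1) (by positivity)
    (min_le_right _ _)
  refine ⟨R0, lam1, hR0, hlam1, hlam2, ?_⟩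
  intro lam R hl0 hl hR hRR t0 l hgood i j
  obtain ⟨m, rfl⟩ : ∃ m, l = m + 1 := ⟨l - 1, by have := hgood.1; omega⟩
  obtain ⟨T, p, hTd, hpd, hT0, hball, hreal⟩ := hbase lam hl0 hl t0 m
    ⟨hgood.1, fun k hk1 hk2 => (min_le_left _ _).trans (hgood.2 k hk1 hk2)⟩
  set b0 := TE lam t0 (m + 1) with hb0
  have hcast : (((b0 - j * Real.pi : ℝ) : ℂ)) + j * Real.pi = (b0 : ℂ) := by
    push_cast
    ring
  have hmem : ∀ b : ℂ, b ∈ ball (((b0 - j * Real.pi : ℝ) : ℂ)) R →
      b + j * Real.pi ∈ ball (b0 : ℂ) R0 := by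
    intro b hb
    rw [mem_ball, dist_eq_norm] at hb ⊢
    have : b + j * Real.pi - (b0 : ℂ) = b - (((b0 - j * Real.pi : ℝ) : ℂ)) := by
      push_cast
      ring
    rw [this]
    linarith
  have hdT : ∀ b : ℂ, deriv (fun b : ℂ => T (b + j * Real.pi)) b = deriv T (b + j * Real.pi) := by
    intro b
    exact deriv_comp_add_const _ _ _
  have hdp : ∀ b : ℂ, deriv (fun b : ℂ => p (b + j * Real.pi) - i * Real.pi) b =
      deriv p (b + j * Real.pi) := by
    intro b
    rw [deriv_sub_const]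
    exact deriv_comp_add_const _ _ _
  have hshift : DifferentiableOn ℂ (fun b : ℂ => b + j * Real.pi)
      (ball (((b0 - j * Real.pi : ℝ) : ℂ)) R) := by
    fun_prop
  refine ⟨fun b => T (b + j * Real.pi), fun b => p (b + j * Real.pi) - i * Real.pi, ?_, ?_⟩
  · constructor
    · exact hTd.comp hshift hmem
    · exact (hpd.comp hshift hmem).sub_const _
    · intro b hb
      rw [hdT]
      exact (hball _ (hmem b hb)).1
    · intro b hb
      rw [hdT, hdT, hcast]
      exact (hball _ (hmem b hb)).2.1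
    · intro b hb
      rw [hdp]
      exact (hball _ (hmem b hb)).2.2.1
    · intro b hb
      exact (hball _ (hmem b hb)).2.2.2.1
    · intro b hb
      show X (lam : ℂ) (T (b + j * Real.pi)) m = _
      rw [(hball _ (hmem b hb)).2.2.2.2.1, we_rC_shift, sub_add_cancel]
    · intro b hb
      show X (lam : ℂ) (T (b + j * Real.pi)) (m + 2) = _
      rw [(hball _ (hmem b hb)).2.2.2.2.2, we_rC_shift]
      congr 2
      ring
    · intro b hb
      have hb' := hmem b hb
      have e : (b : ℂ) + j * Real.pi = ((b + j * Real.pi : ℝ) : ℂ) := by push_cast; ring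
      rw [e] at hb'
      obtain ⟨k1, k2, k3, k4⟩ := hreal _ hb'
      rw [e]
      refine ⟨k1, ?_, k3, ?_⟩
      · have : ((p ((b + j * Real.pi : ℝ) : ℂ)) - (i : ℂ) * (Real.pi : ℂ)).im =
            (p ((b + j * Real.pi : ℝ) : ℂ)).im := by
          simp
        rw [this]
        exact k2
      · rw [k4]
        simp
  · show T ((((b0 - j * Real.pi : ℝ) : ℂ)) + j * Real.pi) = t0
    rw [hcast, hT0]

end SF
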