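import Pool.Agent.Helper65.SF.P4
import Pool.Agent.Helper65.SF.INT
import Pool.Agent.Helper65.SF.WE

/-!
# SF-B1: two different branches at the same level: base estimates

Proof in words.
* `inv_state`: going backwards, `X k = 2 X (k+2) X (k+1) - X (k+3)`, the signs satisfy `sg k = sg (k+1) sg (k+2)` (also
  `sg (k+3) = sg (k+2) sg (k+1)`), so `X lam w k = sg k * X lam z k` for all `k <= l + 2`.  `k = 0`: `1 = sg 0`.
  So `sg 2 = sg 1`; if `sg 1 = 1` then `w = z` (k = 1); if `sg 1 = -1` then `w = -z`, `w + lam = -(z + lam)`, so `lam = 0`.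
* `inv_quant`: same with errors: for `k <= l + 1`, `|X k| <= 1 + lam/2` at z and w (`St_energy`, `escape_all`, `mid_bound`), so one
  step backwards multiplies the maximum of three consecutive errors by at most `2 (1 + lam/2) 2 + 1 <= 5.1`.
* `far_apart`: let t'' be the first point between t and t' with `|X lam t'' l| = 1` (exists because the lift `TE` crosses a
  multiple of pi).  On `[t, t'']`, `|X l| <= 1`, all `|X k| <= 1 + lam/2` for `k <= l`, so by the differentiated recursion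
  `|X' l| <= 8^l`, and `|X l (t'') - X l (t)| >= 1 - |cos| >= c0^2/2`.
* `curve_unique`: real points by `TE_inj`, then `p4_ident`.
* `curve_ne`: `T0 b = T1 b = z` gives `cos b = (-1)^j cos b`.  If `cos b = 0` then b is real and the lifts give `j = 0`.  Otherwise
  j is even, `X l (T0 b') = cos b' = X l (T1 b')` on the ball, `(d/dz X l)(z) * T0' b = - sin b /= 0`, so `X l` is injective near
  z, `T0 = T1` near b, by the identity theorem on the ball, then on real points the lifts give `j = 0`.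
* `base`: on real b: `|T(l-1) - psi| <= C lam` or `C sqrt lam` (`we_psi`: same sign of sines, distance < pi/2, `rr cos psi = X`),
  `|TE (l-1) - fib(l-1)/fib l * TE l| <= 70 sqrt lam` (`TE_lin`) for both branches, so `|p1 - p0| <= C sqrt lam + pi e1` on
  the reals; slopes are at most 1.05, so `|p1 - p0| <= 4` on the ball; `int_lemma1` with `del = 1/2` gives `<= e` on the ball of
  radius `R' = h R`.  Zero free: `p1 b = p0 b` gives the hypotheses of `inv_state`, so `T1 b = T0 b`, contradiction to `curve_ne`.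
  Lower bound at the centre: `inv_quant` with `eps = 2 |p1 b0 - p0 b0|` and `far_apart`:
  `|p1 b0 - p0 b0| >= lam c0^2/C^l`.  Harnack inequality for the nonnegative harmonic function `- log |p1 - p0|`
  (or Borel-Caratheodory for a holomorphic logarithm): on the ball of radius R'/2 it is at most 3 times its value at
  b0, and the logarithmic derivative is at most `(C/R') (l + log (1/lam))`.
  `DD`: `|NN T| <= 12/R` on the half ball by Cauchy (`|T'/T'(b0) - 1| <= 1/2`), divided by `|p1 - p0|`.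
-/

namespace SF

open Metric

theorem b1_X_rec {K : Type*} [Field K] (lam z : K) (k : ℕ) :
    X lam z (k + 3) = 2 * X lam z (k + 2) * X lam z (k + 1) - X lam z k := rfl

theorem b1_X0 {K : Type*} [Field K] (lam z : K) : X lam z 0 = 1 := rfl
theorem b1_X1 {K : Type*} [Field K] (lam z : K) : X lam z 1 = -z / 2 := rfl
theorem b1_X2 {K : Type*} [Field K] (lam z : K) : X lam z 2 = -(z + lam) / 2 := rfl

theorem b1_inv (lam z w : ℂ) (hl : lam ≠ 0) (l : ℕ) : ∀ u v : ℂ, u * u = 1 → v * v = 1 →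
    X lam w l = u * X lam z l → X lam w (l + 1) = v * X lam z (l + 1) →
    X lam w (l + 2) = u * v * X lam z (l + 2) → w = z := by
  induction l with
  | zero =>
    intro u v hu hv h0 h1 h2
    rw [b1_X0, b1_X0, mul_one] at h0
    rw [zero_add, b1_X1, b1_X1] at h1
    rw [zero_add, b1_X2, b1_X2, ← h0, one_mul] at h2
    have h3 : lam = v * lam := by linear_combination (-2) * h2 + 2 * h1
    have h4 : v = 1 := by
      have h5 : (v - 1) * lam = 0 := by linear_combination -h3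
      rcases mul_eq_zero.1 h5 with h6 | h6
      · exact sub_eq_zero.1 h6
      · exact absurd h6 hl
    rw [h4, one_mul] at h1
    linear_combination (-2) * h1
  | succ l ih =>
    intro u v hu hv h0 h1 h2
    have e1 : X lam w (l + 3) = u * v * X lam z (l + 3) := h2
    have e2 := b1_X_rec lam w l
    have e3 := b1_X_rec lam z l
    have h0' : X lam w (l + 1) = u * X lam z (l + 1) := h0
    have h1' : X lam w (l + 2) = v * X lam z (l + 2) := h1
    refine ih (u * v) u ?_ hu ?_ h0' ?_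
    · linear_combination u * u * hv + hu
    · rw [h0', h1'] at e2
      linear_combination e2 - e1 - u * v * e3
    · linear_combination h1' - v * X lam z (l + 2) * hu

theorem b1_sq {K : Type*} [Field K] (i : ℤ) : ((-1 : K) ^ i) * (-1) ^ i = 1 := by
  rw [← zpow_add₀ (by norm_num : (-1 : K) ≠ 0), ← two_mul, zpow_mul]
  norm_num

theorem inv_state (lam z w : ℂ) (hl : lam ≠ 0) (l : ℕ) (i j : ℤ)
    (h0 : X lam w l = (-1) ^ i * X lam z l) (h1 : X lam w (l + 1) = (-1) ^ j * X lam z (l + 1))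
    (h2 : X lam w (l + 2) = (-1) ^ (i + j) * X lam z (l + 2)) : w = z := by
  refine b1_inv lam z w hl l _ _ (b1_sq i) (b1_sq j) h0 h1 ?_
  rw [h2, zpow_add₀ (by norm_num : (-1 : ℂ) ≠ 0)]

/-- All half traces up to the level of an elliptic one are bounded. -/
theorem b1_bd (lam t : ℝ) (h0 : 0 ≤ lam) (n : ℕ) (hn : |X lam t n| < 1) (k : ℕ) (hk : k ≤ n) :
    |X lam t k| ≤ 1 + lam / 2 := by
  have hS := St_energy lam t h0
  rcases lt_or_ge (|X lam t k|) 1 with h1 | h1
  · linarith only [h0, h1]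
  rcases Nat.eq_zero_or_pos k with rfl | hk0
  · rw [b1_X0, abs_one]; linarith only [h0]
  obtain ⟨k, rfl⟩ : ∃ k', k = k' + 1 := ⟨k - 1, by omega⟩
  have hkn : k + 1 < n := by
    rcases lt_or_eq_of_le hk with h | h
    · exact h
    · rw [h] at h1; linarith only [hn, h1]
  have hup : |X lam t (k + 2)| < 1 := by
    by_contra hc
    exact absurd (escape_all hS k h1 (not_lt.1 hc) n (by omega)) (not_le.2 hn)
  rcases Nat.eq_zero_or_pos k with rfl | hk1
  · have e1 : X lam t (0 + 1) = X lam t (0 + 2) + lam / 2 := by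
      rw [zero_add, zero_add, b1_X1, b1_X2]; ring
    rw [e1]
    calc |X lam t (0 + 2) + lam / 2| ≤ |X lam t (0 + 2)| + |lam / 2| := abs_add_le _ _
      _ ≤ 1 + lam / 2 := by
        rw [abs_of_nonneg (by linarith only [h0] : 0 ≤ lam / 2)]
        linarith only [hup]
  · obtain ⟨k, rfl⟩ : ∃ k', k = k' + 1 := ⟨k - 1, by omega⟩
    have hdown : |X lam t (k + 1)| < 1 := by
      by_contra hc
      exact absurd (escape_all hS k (not_lt.1 hc) h1 n (by omega)) (not_le.2 hn)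
    exact mid_bound hS h0 (k + 1) hdown hup

theorem b1_prod (a b a' b' B e : ℝ) (hB : |a| ≤ B) (hB' : |b'| ≤ B) (ha : |a - a'| ≤ e)
    (hb : |b - b'| ≤ e) : |a * b - a' * b'| ≤ B * e + B * e := by
  have e1 : a * b - a' * b' = a * (b - b') + (a - a') * b' := by ring
  rw [e1]
  refine (abs_add_le _ _).trans ?_
  rw [abs_mul, abs_mul]
  have he : 0 ≤ e := (abs_nonneg _).trans ha
  have hB0 : 0 ≤ B := (abs_nonneg _).trans hB
  refine add_le_add (mul_le_mul hB hb (abs_nonneg _) hB0) ?_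
  rw [mul_comm B e]
  exact mul_le_mul ha hB' (abs_nonneg _) he

theorem b1_quant (lam z w : ℝ) (hl : 0 < lam) (hl1 : lam ≤ 1 / 100) (l : ℕ) :
    ∀ (u v e : ℝ), (u = 1 ∨ u = -1) → (v = 1 ∨ v = -1) → 0 ≤ e →
    (∀ k ≤ l + 1, |X lam z k| ≤ 1 + lam / 2 ∧ |X lam w k| ≤ 1 + lam / 2) →
    |X lam w l - u * X lam z l| ≤ e → |X lam w (l + 1) - v * X lam z (l + 1)| ≤ e →
    |X lam w (l + 2) - u * v * X lam z (l + 2)| ≤ e → 8 ^ (l + 3) * e ≤ lam →
    |w - z| ≤ 8 ^ (l + 3) * e := by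
  induction l with
  | zero =>
    intro u v e hu hv he _ h0 h1 h2 h3
    rw [b1_X0, b1_X0, mul_one] at h0
    rw [zero_add, b1_X1, b1_X1] at h1
    rw [zero_add, b1_X2, b1_X2] at h2
    norm_num at h3 ⊢
    have hu1 : u = 1 := by
      rcases hu with h | h
      · exact h
      · rw [h, abs_le] at h0
        linarith only [hl1, h3, h0.2]
    rw [hu1, one_mul] at h2
    have hv1 : v = 1 := by
      rcases hv with h | h
      · exact h
      · rw [h, abs_le] at h1 h2
        linarith only [hl, h3, h1.1, h1.2, h2.1, h2.2]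
    rw [hv1, abs_le] at h1
    rw [abs_le]
    constructor <;> linarith only [h1.1, h1.2]
  | succ l ih =>
    intro u v e hu hv he hb h0 h1 h2 h3
    have h0' : |X lam w (l + 1) - u * X lam z (l + 1)| ≤ e := h0
    have h1' : |X lam w (l + 2) - v * X lam z (l + 2)| ≤ e := h1
    have e1 : |X lam w (l + 3) - u * v * X lam z (l + 3)| ≤ e := h2
    have e2 := b1_X_rec lam w l
    have e3 := b1_X_rec lam z l
    have huu : u * u = 1 := by rcases hu with h | h <;> rw [h] <;> norm_num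
    have hau : |u| = 1 := by rcases hu with h | h <;> rw [h] <;> norm_num
    have key : |X lam w l - u * v * X lam z l| ≤ 8 * e := by
      have e4 : X lam w l - u * v * X lam z l = 2 * (X lam w (l + 2) * X lam w (l + 1)
          - (v * X lam z (l + 2)) * (u * X lam z (l + 1)))
          - (X lam w (l + 3) - u * v * X lam z (l + 3)) := by
        rw [e2, e3]; ring
      rw [e4]
      have e5 := b1_prod (X lam w (l + 2)) (X lam w (l + 1)) (v * X lam z (l + 2))
        (u * X lam z (l + 1)) (1 + lam / 2) e (hb (l + 2) (by omega)).2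
        (by rw [abs_mul, hau, one_mul]; exact (hb (l + 1) (by omega)).1) h1' h0'
      refine (abs_sub _ _).trans ?_
      rw [abs_mul, abs_two]
      nlinarith only [hl1, he, h2, e5]
    have h4 : (8 : ℝ) ^ (l + 3) * (8 * e) = 8 ^ (l + 1 + 3) * e := by ring
    rw [← h4]
    refine ih (u * v) u (8 * e) ?_ hu (by linarith only [he]) (fun k hk => hb k (by omega)) key
      (h0'.trans (by linarith only [he])) ?_ (by rw [h4]; exact h3)
    · rcases hu with h | h <;> rcases hv with h' | h' <;> rw [h, h'] <;> norm_num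
    · have e6 : u * v * u = v := by linear_combination v * huu
      rw [e6]
      exact h1'.trans (by linarith only [he])

theorem b1_cases (i : ℤ) : ((-1 : ℝ) ^ i) = 1 ∨ ((-1 : ℝ) ^ i) = -1 := F3bAux.neg_one_cases i

theorem inv_quant (lam z w eps : ℝ) (hl : 0 < lam) (hl1 : lam ≤ 1 / 100) (l : ℕ) (i j : ℤ)
    (hz : |X lam z (l + 1)| < 1) (hw : |X lam w (l + 1)| < 1)
    (h0 : |X lam w l - (-1) ^ i * X lam z l| ≤ eps)
    (h1 : |X lam w (l + 1) - (-1) ^ j * X lam z (l + 1)| ≤ eps)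
    (h2 : |X lam w (l + 2) - (-1) ^ (i + j) * X lam z (l + 2)| ≤ eps)
    (he : 8 ^ (l + 3) * eps ≤ lam) : |w - z| ≤ 8 ^ (l + 3) * eps := by
  rw [zpow_add₀ (by norm_num : (-1 : ℝ) ≠ 0)] at h2
  exact b1_quant lam z w hl hl1 l _ _ eps (b1_cases i) (b1_cases j) ((abs_nonneg _).trans h0)
    (fun k hk => ⟨b1_bd lam z hl.le (l + 1) hz k hk, b1_bd lam w hl.le (l + 1) hw k hk⟩) h0 h1 h2 he

/-- Bounds of the derivatives. -/
theorem b1_deriv (lam s : ℝ) (h0 : 0 ≤ lam) (h1 : lam ≤ 1 / 100) (l : ℕ)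
    (hb : ∀ k ≤ l, |X lam s k| ≤ 1 + lam / 2) :
    ∀ k ≤ l, ∃ d : ℝ, HasDerivAt (fun t => X lam t k) d s ∧ |d| ≤ 8 ^ k := by
  intro k
  induction k using Nat.strong_induction_on with
  | _ k ih =>
    intro hk
    rcases Nat.lt_or_ge k 3 with h3 | h3
    · interval_cases k
      · exact ⟨0, hasDerivAt_const _ _, by norm_num⟩
      · refine ⟨-1 / 2, ?_, by norm_num [abs_of_neg]⟩
        have : HasDerivAt (fun t : ℝ => -t / 2) (-1 / 2) s := by
          simpa using ((hasDerivAt_id s).neg).div_const 2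
        exact this
      · refine ⟨-1 / 2, ?_, by norm_num [abs_of_neg]⟩
        have : HasDerivAt (fun t : ℝ => -(t + lam) / 2) (-1 / 2) s := by
          simpa using (((hasDerivAt_id s).add_const lam).neg).div_const 2
        exact this
    · obtain ⟨k, rfl⟩ : ∃ k', k = k' + 3 := ⟨k - 3, by omega⟩
      obtain ⟨d2, g2, b2⟩ := ih (k + 2) (by omega) (by omega)
      obtain ⟨d1, g1, b1⟩ := ih (k + 1) (by omega) (by omega)
      obtain ⟨d0, g0, b0⟩ := ih k (by omega) (by omega)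
      refine ⟨2 * (d2 * X lam s (k + 1) + X lam s (k + 2) * d1) - d0, ?_, ?_⟩
      · have h4 := ((g2.mul g1).const_mul 2).sub g0
        refine h4.congr_of_eventuallyEq (Filter.Eventually.of_forall fun t => ?_)
        change X lam t (k + 3) = _
        rw [b1_X_rec]
        simp only [Pi.mul_apply, Pi.sub_apply]
        ring
      · have c1 := hb (k + 1) (by omega)
        have c2 := hb (k + 2) (by omega)
        have e1 : |2 * (d2 * X lam s (k + 1) + X lam s (k + 2) * d1) - d0|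
            ≤ 2 * (|d2| * |X lam s (k + 1)| + |X lam s (k + 2)| * |d1|) + |d0| := by
          refine (abs_sub _ _).trans ?_
          rw [abs_mul, abs_two, ← abs_mul, ← abs_mul]
          have := abs_add_le (d2 * X lam s (k + 1)) (X lam s (k + 2) * d1)
          linarith only [this]
        refine e1.trans ?_
        have e2 : |d2| * |X lam s (k + 1)| ≤ 8 ^ (k + 2) * (1 + lam / 2) :=
          mul_le_mul b2 c1 (abs_nonneg _) (by positivity)
        have e3 : |X lam s (k + 2)| * |d1| ≤ (1 + lam / 2) * 8 ^ (k + 1) :=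
          mul_le_mul c2 b1 (abs_nonneg _) (by linarith only [h0])
        have e4 : (0 : ℝ) < 8 ^ k := by positivity
        have e5 : (8 : ℝ) ^ (k + 2) = 64 * 8 ^ k := by ring
        have e6 : (8 : ℝ) ^ (k + 1) = 8 * 8 ^ k := by ring
        have e7 : (8 : ℝ) ^ (k + 3) = 512 * 8 ^ k := by ring
        rw [e5] at e2
        rw [e6] at e3
        rw [e7]
        nlinarith only [h1, b0, e2, e3, e4]

theorem b1_far (lam c0 t t' : ℝ) (hl : 0 < lam) (hl1 : lam ≤ 1 / 100) (hc : 0 < c0) (l : ℕ)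
    (_hl2 : 1 ≤ l) (j : ℤ) (hj : 0 < j) (hs : c0 ≤ |Real.sin (TE lam t l)|)
    (h : TE lam t' l = TE lam t l + j * Real.pi) : c0 ^ 2 / 8 ^ (l + 2) ≤ |t' - t| := by
  have hpi := Real.pi_pos
  have hsin : Real.sin (TE lam t l) ≠ 0 := by
    intro h0
    rw [h0, abs_zero] at hs
    linarith only [hc, hs]
  have hj1 : (1 : ℝ) ≤ (j : ℝ) := by exact_mod_cast hj
  have htt : t < t' := by
    by_contra hcon
    have := TE_mono lam hl.le hl1 l (not_lt.1 hcon)
    simp only at this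
    rw [h] at this
    nlinarith only [hpi, hj1, this]
  -- the first multiple of pi
  set th := TE lam t l with hth
  obtain ⟨m, hm⟩ : ∃ m : ℤ, m = ⌊th / Real.pi⌋ + 1 := ⟨_, rfl⟩
  have hm1 : th < m * Real.pi := by
    rw [hm]
    push_cast
    have := Int.lt_floor_add_one (th / Real.pi)
    rwa [div_lt_iff₀ hpi] at this
  have hm2 : m * Real.pi ≤ th + Real.pi := by
    rw [hm]
    push_cast
    have := Int.floor_le (th / Real.pi)
    rw [le_div_iff₀ hpi] at this
    linarith only [this]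
  have hm3 : ((m : ℝ) - 1) * Real.pi < th := by
    have h1 : ((m : ℝ) - 1) * Real.pi ≤ th := by linarith only [hm2]
    rcases lt_or_eq_of_le h1 with h2 | h2
    · exact h2
    · exfalso
      apply hsin
      rw [← h2]
      have := Real.sin_int_mul_pi (m - 1)
      push_cast at this
      exact this
  have hm4 : m * Real.pi ≤ TE lam t' l := by
    rw [h]; nlinarith only [hpi, hj1, hm2]
  have hcont := TE_continuous lam hl.le hl1 l
  obtain ⟨t1, ht1, ht1'⟩ : ∃ t1 ∈ Set.Icc t t', TE lam t1 l = m * Real.pi :=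
    intermediate_value_Icc htt.le hcont.continuousOn ⟨hm1.le, hm4⟩
  set S := {s : ℝ | m * Real.pi ≤ TE lam s l} with hS
  have hSne : S.Nonempty := ⟨t1, by rw [hS, Set.mem_ofPred_eq, ht1']⟩
  have hSbd : BddBelow S := by
    refine ⟨t, fun s hsS => ?_⟩
    by_contra hcon
    have := TE_mono lam hl.le hl1 l (not_le.1 hcon).le
    simp only at this
    have h2 : m * Real.pi ≤ TE lam s l := hsS
    linarith only [hm1, this, h2]
  have hSc : IsClosed S := isClosed_le continuous_const hcont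
  have hinf := hSc.csInf_mem hSne hSbd
  set t2 := sInf S with ht2
  have hlo : ∀ s, s < t2 → TE lam s l < m * Real.pi := by
    intro s hs2
    by_contra hcon
    exact absurd (csInf_le hSbd (not_lt.1 hcon : s ∈ S)) (not_le.2 hs2)
  have ht2t1 : t2 ≤ t1 := csInf_le hSbd (by rw [hS, Set.mem_ofPred_eq, ht1'])
  have ht2v : TE lam t2 l = m * Real.pi := by
    apply le_antisymm
    · rw [← ht1']
      exact TE_mono lam hl.le hl1 l ht2t1
    · exact hinf
  have htt2 : t ≤ t2 := by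
    by_contra hcon
    have := TE_mono lam hl.le hl1 l (not_le.1 hcon).le
    simp only at this
    rw [ht2v] at this
    linarith only [hm1, this]
  -- the value at t2
  have hX2 : 1 ≤ |X lam t2 l| := by
    by_contra hcon
    have := (sin_TE_ne lam t2 hl.le l).2 (not_le.1 hcon)
    apply this
    rw [ht2v, Real.sin_int_mul_pi]
  have hXt : X lam t l = Real.cos th := by
    have h1 := cos_TE lam t hl.le l
    rw [clip_of_lt ((sin_TE_ne lam t hl.le l).1 hsin)] at h1
    exact h1.symm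
  -- derivative bound
  have hdb : ∀ s ∈ Set.Ico t t2, ∃ d : ℝ, HasDerivAt (fun t => X lam t l) d s ∧ |d| ≤ 8 ^ l := by
    intro s hs2
    have hXs : |X lam s l| < 1 := by
      rw [← sin_TE_ne lam s hl.le l]
      have h1 : th ≤ TE lam s l := TE_mono lam hl.le hl1 l hs2.1
      have h2 := hlo s hs2.2
      have h3 : 0 < Real.sin (TE lam s l - ((m : ℝ) - 1) * Real.pi) := by
        apply Real.sin_pos_of_pos_of_lt_pi
        · linarith only [hm3, h1]
        · linarith only [h2]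
      intro h4
      have h5 : Real.sin (TE lam s l - ((m - 1 : ℤ) : ℝ) * Real.pi)
          = (-1) ^ (m - 1) * Real.sin (TE lam s l) := by
        rw [Real.sin_sub_int_mul_pi]
      push_cast at h5
      rw [h5, h4, mul_zero] at h3
      exact lt_irrefl _ h3
    exact b1_deriv lam s hl.le hl1 l (fun k hk => b1_bd lam s hl.le l hXs k hk) l le_rfl
  have hmv : ‖X lam t2 l - X lam t l‖ ≤ 8 ^ l * (t2 - t) := by
    have hdiff := X_differentiable lam l
    refine norm_image_sub_le_of_norm_deriv_le_segment' (f := fun t => X lam t l)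
      (f' := deriv (fun t => X lam t l)) (C := 8 ^ l) (a := t) (b := t2)
      (fun x _ => (hdiff x).hasDerivAt.hasDerivWithinAt) ?_ t2 ⟨htt2, le_rfl⟩
    intro x hx
    obtain ⟨d, hd, hd1⟩ := hdb x hx
    rw [hd.deriv]
    exact hd1
  rw [Real.norm_eq_abs] at hmv
  have hfin : 1 - |Real.cos th| ≤ 8 ^ l * (t2 - t) := by
    rw [hXt] at hmv
    have := abs_sub_abs_le_abs_sub (X lam t2 l) (Real.cos th)
    linarith only [hX2, hmv, this]
  have hcos : c0 ^ 2 / 2 ≤ 1 - |Real.cos th| := by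
    have h1 : c0 ^ 2 ≤ Real.sin th ^ 2 := by
      rw [← sq_abs (Real.sin th)]
      exact pow_le_pow_left₀ hc.le hs 2
    have h2 := Real.sin_sq_add_cos_sq th
    have h3 : |Real.cos th| ≤ 1 := Real.abs_cos_le_one th
    have h4 : Real.cos th ^ 2 = |Real.cos th| ^ 2 := (sq_abs _).symm
    nlinarith only [h1, h2, h4, abs_nonneg (Real.cos th)]
  have ht2t' : t2 ≤ t' := ht2t1.trans ht1.2
  rw [abs_of_pos (by linarith only [htt] : 0 < t' - t)]
  have h8 : (0 : ℝ) < 8 ^ l := by positivity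
  rw [div_le_iff₀ (by positivity)]
  have e1 : (8 : ℝ) ^ (l + 2) = 64 * 8 ^ l := by ring
  rw [e1]
  have : 8 ^ l * (t2 - t) ≤ 8 ^ l * (t' - t) := mul_le_mul_of_nonneg_left (by linarith only [ht2t']) h8.le
  nlinarith only [hfin, hcos, ht2t', h8, sq_nonneg c0]

theorem far_apart (lam c0 t t' : ℝ) (hl : 0 < lam) (hl1 : lam ≤ 1 / 100) (hc : 0 < c0) (l : ℕ)
    (hl2 : 1 ≤ l) (j : ℤ) (hj : j ≠ 0) (hs : c0 ≤ |Real.sin (TE lam t l)|)
    (h : TE lam t' l = TE lam t l + j * Real.pi) : c0 ^ 2 / 8 ^ (l + 2) ≤ |t' - t| := by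
  rcases lt_or_gt_of_ne hj with h1 | h1
  · rw [abs_sub_comm]
    refine b1_far lam c0 t' t hl hl1 hc l hl2 (-j) (by omega) ?_ ?_
    · rw [h, F3bAux.abs_sin_shift]
      exact hs
    · rw [h]
      push_cast
      ring
  · exact b1_far lam c0 t t' hl hl1 hc l hl2 j h1 hs h


theorem b1_mem (b0 x R : ℝ) : (x : ℂ) ∈ ball (b0 : ℂ) R ↔ |x - b0| < R := by
  rw [mem_ball, dist_eq_norm, ← Complex.ofReal_sub, Complex.norm_real, Real.norm_eq_abs]

theorem curve_unique (lam R : ℝ) (h0 : 0 < lam) (h1 : lam ≤ 1 / 100) (l : ℕ) (hl : 1 ≤ l) (i j : ℤ)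
    (b0 : ℝ) (hs : ∀ x : ℝ, |x - b0| < R → Real.sin x ≠ 0) (T p T' p' : ℂ → ℂ)
    (h : Curve lam R l i j b0 T p) (h' : Curve lam R l i j b0 T' p') :
    ∀ b ∈ ball (b0 : ℂ) R, T b = T' b ∧ p b = p' b := by
  have key : ∀ x : ℝ, (x : ℂ) ∈ ball (b0 : ℂ) R → T x = T' x ∧ p x = p' x := by
    intro x hx
    obtain ⟨a1, a2, a3, a4⟩ := h.re x hx
    obtain ⟨b1, b2, b3, b4⟩ := h'.re x hx
    have hsx : Real.sin (TE lam (T x).re l) ≠ 0 := by
      rw [a3]
      exact sin_shift_ne x j (hs x ((b1_mem b0 x R).1 hx))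
    have e1 := TE_inj lam h0.le h1 l hl _ _ (a3.trans b3.symm) hsx
    refine ⟨Complex.ext e1 (a1.trans b1.symm), Complex.ext ?_ (a2.trans b2.symm)⟩
    rw [e1, b4] at a4
    linarith only [a4]
  intro b hb
  exact ⟨p4_ident b0 R T T' h.dT h'.dT (fun x hx => (key x hx).1) b hb,
    p4_ident b0 R p p' h.dp h'.dp (fun x hx => (key x hx).2) b hb⟩

theorem b1_cos_shift (z : ℂ) (j : ℤ) :
    Complex.cos (z + j * Real.pi) = (-1) ^ j * Complex.cos z := by
  exact j.cast_negOnePow ℂ ▸ Complex.cos_antiperiodic.add_int_mul_eq j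

theorem b1_sin_ball (b0 c0 R : ℝ) (hc : 0 < c0) (hs : c0 ≤ |Real.sin b0|)
    (hR1 : R ≤ c0 / 4) (b : ℂ) (hb : b ∈ ball (b0 : ℂ) R) : c0 / 2 ≤ ‖Complex.sin b‖ := by
  have hc1 : c0 ≤ 1 := hs.trans (Real.abs_sin_le_one b0)
  rw [mem_ball, dist_eq_norm] at hb
  have h1 := wcu_sin b b0 (by linarith only [hR1, hb, hc1])
  have h2 : ‖Complex.sin (b0 : ℂ)‖ = |Real.sin b0| := by
    rw [← Complex.ofReal_sin, Complex.norm_real, Real.norm_eq_abs]
  have h3 : ‖Complex.sin (b0 : ℂ)‖ - ‖Complex.sin b‖ ≤ ‖Complex.sin b - Complex.sin b0‖ := by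
    rw [← norm_neg (Complex.sin b - Complex.sin b0), neg_sub]
    exact norm_sub_norm_le _ _
  rw [h2] at h3
  linarith only [hc, hs, hR1, hb, h1, h3]

theorem b1_real_eq (lam R : ℝ) (l : ℕ) (i j : ℤ)
    (hj : j ≠ 0) (b0 : ℝ) (T0 p0 T1 p1 : ℂ → ℂ) (h : Curve lam R l 0 0 b0 T0 p0)
    (h' : Curve lam R l i j b0 T1 p1) (x : ℝ) (hx : (x : ℂ) ∈ ball (b0 : ℂ) R) : T0 x ≠ T1 x := by
  intro he
  have a3 := (h.re x hx).2.2.1
  have b3 := (h'.re x hx).2.2.1
  rw [he, b3] at a3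
  have : (j : ℝ) * Real.pi = 0 := by
    have := a3
    push_cast at this
    linarith only [this]
  rcases mul_eq_zero.1 this with h1 | h1
  · exact hj (by exact_mod_cast h1)
  · exact Real.pi_ne_zero h1

theorem curve_ne (lam R : ℝ) (h0 : 0 < lam) (h1 : lam ≤ 1 / 100) (l : ℕ) (hl : 1 ≤ l) (i j : ℤ)
    (hj : j ≠ 0) (b0 c0 : ℝ) (hc : 0 < c0) (hs : c0 ≤ |Real.sin b0|) (hR : 0 < R) (hR1 : R ≤ c0 / 4)
    (T0 p0 T1 p1 : ℂ → ℂ) (h : Curve lam R l 0 0 b0 T0 p0) (h' : Curve lam R l i j b0 T1 p1) :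
    ∀ b ∈ ball (b0 : ℂ) R, T0 b ≠ T1 b := by
  intro b hb he
  have hreal := b1_real_eq lam R l i j hj b0 T0 p0 T1 p1 h h'
  have ha := h.eqX b hb
  have hb1 := h'.eqX b hb
  rw [b1_cos_shift] at hb1
  have ha' : X (lam : ℂ) (T0 b) l = Complex.cos b := by
    rw [ha]; simp
  rw [← he, ha'] at hb1
  by_cases hcb : Complex.cos b = 0
  · obtain ⟨k, hk⟩ := Complex.cos_eq_zero_iff.1 hcb
    have hbr : b = (((2 * k + 1) * Real.pi / 2 : ℝ) : ℂ) := by
      rw [hk]; push_cast; ring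
    rw [hbr] at he hb
    exact hreal _ hb he
  · have hj1 : ((-1 : ℂ) ^ j) = 1 := by
      have : ((-1 : ℂ) ^ j - 1) * Complex.cos b = 0 := by linear_combination -hb1
      rcases mul_eq_zero.1 this with h2 | h2
      · linear_combination h2
      · exact absurd h2 hcb
    have hopen := (isOpen_ball (x := (b0 : ℂ)) (ε := R)).mem_nhds hb
    have hT0 : HasDerivAt T0 (deriv T0 b) b := ((h.dT b hb).differentiableAt hopen).hasDerivAt
    have hT1c : ContinuousAt T1 b := ((h'.dT b hb).differentiableAt hopen).continuousAt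
    have hXd := we_X_diff (lam : ℂ) l
    set z := T0 b with hz
    have hXz : HasDerivAt (fun t => X (lam : ℂ) t l) (deriv (fun t => X (lam : ℂ) t l) z) z :=
      (hXd z).hasDerivAt
    have hev : ∀ᶠ x in nhds b, x ∈ ball (b0 : ℂ) R := hopen
    have hcomp : HasDerivAt (fun x => X (lam : ℂ) (T0 x) l)
        (deriv (fun t => X (lam : ℂ) t l) z * deriv T0 b) b := hXz.comp b hT0
    have hcos : HasDerivAt (fun x => X (lam : ℂ) (T0 x) l) (-Complex.sin b) b := by
      refine (Complex.hasDerivAt_cos b).congr_of_eventuallyEq ?_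
      filter_upwards [hev] with x hx
      rw [h.eqX x hx]; simp
    have hprod := hcomp.unique hcos
    have hsin : Complex.sin b ≠ 0 := by
      intro h2
      have := b1_sin_ball b0 c0 R hc hs hR1 b hb
      rw [h2, norm_zero] at this
      linarith only [hc, this]
    have hd : deriv (fun t => X (lam : ℂ) t l) z ≠ 0 := by
      intro h2
      rw [h2, zero_mul] at hprod
      exact hsin (neg_eq_zero.1 hprod.symm)
    have hstr : HasStrictDerivAt (fun t => X (lam : ℂ) t l)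
        (deriv (fun t => X (lam : ℂ) t l) z) z :=
      (hXd.analyticAt z).hasStrictDerivAt
    have hlo := hstr.isLittleO.def (c := ‖deriv (fun t => X (lam : ℂ) t l) z‖ / 2)
      (by have := norm_pos_iff.2 hd; positivity)
    have htend : Filter.Tendsto (fun x => (T0 x, T1 x)) (nhds b) (nhds (z, z)) := by
      have h3 : Filter.Tendsto T1 (nhds b) (nhds z) := by
        rw [he]; exact hT1c
      exact hT0.continuousAt.prodMk_nhds h3
    have hev2 : ∀ᶠ x in nhds b, T0 x = T1 x := by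
      filter_upwards [htend.eventually hlo, hev] with x hx1 hx2
      have e1 : X (lam : ℂ) (T0 x) l = X (lam : ℂ) (T1 x) l := by
        rw [h.eqX x hx2, h'.eqX x hx2, b1_cos_shift, b1_cos_shift, hj1, zpow_zero]
      rw [e1, sub_self, zero_sub, norm_neg] at hx1
      by_contra hne
      have h4 : 0 < ‖T0 x - T1 x‖ := norm_pos_iff.2 (sub_ne_zero.2 hne)
      have h5 : 0 < ‖deriv (fun t => X (lam : ℂ) t l) z‖ := norm_pos_iff.2 hd
      have h6 : ‖(ContinuousLinearMap.toSpanSingleton ℂ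
          (deriv (fun t => X (lam : ℂ) t l) z)) (T0 x - T1 x)‖
          = ‖T0 x - T1 x‖ * ‖deriv (fun t => X (lam : ℂ) t l) z‖ := by
        rw [ContinuousLinearMap.toSpanSingleton_apply, norm_smul]
      rw [h6] at hx1
      nlinarith only [hx1, h4, h5]
    have hall : ∀ x ∈ ball (b0 : ℂ) R, T0 x = T1 x := by
      intro x hx
      exact (h.dT.analyticOnNhd isOpen_ball).eqOn_of_preconnected_of_eventuallyEq
        (h'.dT.analyticOnNhd isOpen_ball) (convex_ball _ _).isPreconnected hb hev2 hx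
    exact hreal b0 (mem_ball_self hR) (hall _ (mem_ball_self hR))

/-- Lower bound and logarithmic derivative of a zero-free holomorphic function bounded by 1. -/
theorem b1_harnack {g : ℂ → ℂ} {c : ℂ} {R d : ℝ} (hR : 0 < R) (hg : DifferentiableOn ℂ g (ball c R))
    (hne : ∀ z ∈ ball c R, g z ≠ 0) (hb : ∀ z ∈ ball c R, ‖g z‖ ≤ 1) (hd : 0 < d) (hd1 : d < 1)
    (hc : d ≤ ‖g c‖) : ∀ z ∈ ball c (R / 2), d ^ 3 ≤ ‖g z‖ ∧
      ‖deriv g z‖ ≤ 24 * Real.log (1 / d) / R * ‖g z‖ := by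
  obtain ⟨M, hM⟩ : ∃ M, M = Real.log (1 / d) := ⟨_, rfl⟩
  have hM0 : 0 < M := by
    rw [hM]
    exact Real.log_pos (by rw [lt_div_iff₀ hd]; linarith only [hd1])
  have hexpM : Real.exp (-M) = d := by
    rw [hM, one_div, Real.log_inv, neg_neg, Real.exp_log hd]
  have hgd : ∀ z ∈ ball c R, DifferentiableAt ℂ g z := fun z hz =>
    (hg z hz).differentiableAt (isOpen_ball.mem_nhds hz)
  have hφ : DifferentiableOn ℂ (fun z => deriv g z / g z) (ball c R) :=
    (hg.deriv isOpen_ball).div hg hne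
  obtain ⟨G, hGc, hG⟩ := (hφ.isExactOn_ball).with_val_at c 0
  have hcR : c ∈ ball c R := mem_ball_self hR
  have hconst : ∀ z ∈ ball c R, g z * Complex.exp (-(G z)) = g c := by
    intro z hz
    have hd : ∀ w ∈ ball c R, HasDerivAt (fun w => g w * Complex.exp (-(G w))) 0 w := by
      intro w hw
      have h1 := ((hgd w hw).hasDerivAt).mul ((hG w hw).fun_neg.cexp)
      have e : deriv g w * Complex.exp (-(G w)) + g w * (Complex.exp (-(G w)) *
          -(deriv g w / g w)) = 0 := by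
        have := hne w hw
        field_simp
        ring
      rw [e] at h1
      exact h1
    have := (isOpen_ball (x := c) (ε := R)).is_const_of_deriv_eq_zero (convex_ball c R).isPreconnected
      (f := fun w => g w * Complex.exp (-(G w)))
      (fun w hw => (hd w hw).differentiableAt.differentiableWithinAt)
      (fun w hw => (hd w hw).deriv) hz hcR
    simp only [hGc, neg_zero, Complex.exp_zero, mul_one] at this
    exact this
  have hnorm : ∀ z ∈ ball c R, ‖g z‖ = ‖g c‖ * Real.exp (G z).re := by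
    intro z hz
    have h1 := congrArg norm (hconst z hz)
    rw [norm_mul, Complex.norm_exp, Complex.neg_re, Real.exp_neg] at h1
    rw [← h1]
    have := Real.exp_pos (G z).re
    field_simp
  have hre : ∀ z ∈ ball c R, (G z).re ≤ M := by
    intro z hz
    have h1 := hnorm z hz
    have h2 := hb z hz
    have h3 : d * Real.exp (G z).re ≤ 1 := by
      calc d * Real.exp (G z).re ≤ ‖g c‖ * Real.exp (G z).re :=
            mul_le_mul_of_nonneg_right hc (Real.exp_pos _).le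
        _ ≤ 1 := by rw [← h1]; exact h2
    rw [← hexpM, ← Real.exp_add] at h3
    have := Real.exp_le_one_iff.1 h3
    linarith only [this]
  have hsub : ∀ w ∈ ball (0 : ℂ) R, c + w ∈ ball c R := by
    intro w hw
    rw [mem_ball, dist_eq_norm, add_sub_cancel_left]
    rwa [mem_ball, dist_zero_right] at hw
  have hBC : ∀ z ∈ ball c R, ‖G z‖ ≤ 2 * M * ‖z - c‖ / (R - ‖z - c‖) := by
    intro z hz
    rw [mem_ball, dist_eq_norm] at hz
    have := Complex.borelCaratheodory_zero (f := fun w => G (c + w)) (M := M) (R := R)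
      (z := z - c) hM0 (by
        intro w hw
        have h1 := (hG (c + w) (hsub w hw)).differentiableAt
        exact (DifferentiableAt.comp w h1 (by fun_prop)).differentiableWithinAt)
      (fun w hw => hre _ (hsub w hw)) hR (by rw [mem_ball, dist_zero_right]; linarith only [hz])
      (by simpa using hGc)
    simp only [add_sub_cancel] at this
    exact this
  intro z hz
  have hz' : ‖z - c‖ < R / 2 := by rwa [mem_ball, dist_eq_norm] at hz
  have hzR : z ∈ ball c R := ball_subset_ball (by linarith only [hR]) hz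
  have hn0 := norm_nonneg (z - c)
  have hgz : g z ≠ 0 := hne z hzR
  refine ⟨?_, ?_⟩
  · have h1 : ‖G z‖ ≤ 2 * M := by
      refine (hBC z hzR).trans ?_
      rw [div_le_iff₀ (by linarith only [hR, hz'])]
      nlinarith only [hM0, hz']
    have h2 : -(2 * M) ≤ (G z).re := by
      have := (abs_le.1 (Complex.abs_re_le_norm (G z))).1
      linarith only [h1, this]
    rw [hnorm z hzR]
    calc d ^ 3 = d * (Real.exp (-M) * Real.exp (-M)) := by rw [hexpM]; ring
      _ = d * Real.exp (-(2 * M)) := by rw [← Real.exp_add]; ring_nf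
      _ ≤ ‖g c‖ * Real.exp (G z).re := mul_le_mul hc (Real.exp_le_exp.2 h2)
          (Real.exp_pos _).le (norm_nonneg _)
  · have hsub2 : closedBall z (R / 4) ⊆ ball c R := by
      intro w hw
      rw [mem_closedBall] at hw
      rw [mem_ball]
      calc dist w c ≤ dist w z + dist z c := dist_triangle _ _ _
        _ < R := by
          rw [dist_eq_norm z c]; linarith only [hR, hz', hw]
    have h1 : DiffContOnCl ℂ G (ball z (R / 4)) := by
      apply DifferentiableOn.diffContOnCl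
      rw [closure_ball z (by positivity : R / 4 ≠ 0)]
      exact fun w hw => (hG w (hsub2 hw)).differentiableAt.differentiableWithinAt
    have h2 := Complex.norm_deriv_le_of_forall_mem_sphere_norm_le (by positivity : 0 < R / 4) h1
      (C := 6 * M) (fun w hw => by
        have hwR := hsub2 (sphere_subset_closedBall hw)
        refine (hBC w hwR).trans ?_
        have h5 : ‖w - c‖ ≤ 3 * R / 4 := by
          rw [mem_sphere] at hw
          have := dist_triangle w z c
          rw [hw, dist_eq_norm w c, dist_eq_norm z c] at this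
          linarith only [hz', this]
        rw [div_le_iff₀ (by linarith only [hR, h5])]
        nlinarith only [hM0, h5])
    rw [(hG z hzR).deriv, norm_div, div_le_iff₀ (norm_pos_iff.2 hgz)] at h2
    refine h2.trans (le_of_eq ?_)
    rw [← hM]
    field_simp
    ring

/-- The pre-Schwarzian of a curve. -/
theorem b1_NN {T : ℂ → ℂ} {c : ℂ} {R : ℝ} (hR : 0 < R) (hT : DifferentiableOn ℂ T (ball c R))
    (h0 : deriv T c ≠ 0) (h : ∀ b ∈ ball c R, ‖deriv T b / deriv T c - 1‖ ≤ 1 / 2) :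
    ∀ b ∈ ball c (R / 2), ‖NN T b‖ ≤ 2 / R := by
  intro b hb
  have hT' := hT.deriv isOpen_ball
  have hsub : closedBall b (R / 2) ⊆ closedBall c R := by
    intro w hw
    rw [mem_closedBall] at hw ⊢
    rw [mem_ball] at hb
    linarith only [hb, hw, dist_triangle w b c]
  have hbR : b ∈ ball c R := ball_subset_ball (by linarith only [hR]) hb
  rw [mem_ball] at hb
  have key : ∀ r : ℝ, 0 < r → r < R / 2 → ‖deriv (deriv T) b‖ ≤ 1 / 2 / r * ‖deriv T c‖ := by
    intro r hr hr2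
    have hs : closedBall b r ⊆ ball c R := by
      intro w hw
      rw [mem_closedBall] at hw
      rw [mem_ball]
      linarith only [hb, hr2, hw, dist_triangle w b c]
    have h1 : DiffContOnCl ℂ (fun w => deriv T w / deriv T c - 1) (ball b r) := by
      apply DifferentiableOn.diffContOnCl
      rw [closure_ball b hr.ne']
      exact ((hT'.mono hs).div_const _).sub_const _
    have h2 := Complex.norm_deriv_le_of_forall_mem_sphere_norm_le hr h1
      (C := 1 / 2) (fun w hw => h w (hs (sphere_subset_closedBall hw)))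
    have h3 : deriv (fun w => deriv T w / deriv T c - 1) b = deriv (deriv T) b / deriv T c := by
      rw [deriv_sub_const, deriv_div_const]
    rw [h3, norm_div, div_le_iff₀ (norm_pos_iff.2 h0)] at h2
    exact h2
  have key2 : ‖deriv (deriv T) b‖ ≤ 1 / R * ‖deriv T c‖ := by
    by_contra hcon
    have hcon := not_le.1 hcon
    have hpos : 0 < ‖deriv (deriv T) b‖ := lt_of_le_of_lt (by positivity) hcon
    -- choose r close to R / 2
    have hTc : 0 < ‖deriv T c‖ := norm_pos_iff.2 h0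
    obtain ⟨q, hq⟩ : ∃ q, q = ‖deriv T c‖ / (2 * ‖deriv (deriv T) b‖) := ⟨_, rfl⟩
    have hq1 : q < R / 2 := by
      rw [hq, div_lt_div_iff₀ (by positivity) (by norm_num)]
      have : ‖deriv T c‖ < R * ‖deriv (deriv T) b‖ := by
        have h5 := mul_lt_mul_of_pos_left hcon hR
        have h6 : R * (1 / R * ‖deriv T c‖) = ‖deriv T c‖ := by field_simp
        linarith only [h5, h6]
      linarith only [this]
    have hq0 : 0 < q := by rw [hq]; positivity
    have h7 := key ((q + R / 2) / 2) (by linarith only [hR, hq0]) (by linarith only [hq1])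
    have h8 : 1 / 2 / ((q + R / 2) / 2) * ‖deriv T c‖ < 1 / 2 / q * ‖deriv T c‖ := by
      apply mul_lt_mul_of_pos_right _ hTc
      apply div_lt_div_of_pos_left (by norm_num) hq0
      linarith only [hq1]
    have h9 : 1 / 2 / q * ‖deriv T c‖ = ‖deriv (deriv T) b‖ := by
      rw [hq]; field_simp
    linarith only [h7, h8, h9]
  have h4 := h b hbR
  have h5 : ‖deriv T c‖ ≤ 2 * ‖deriv T b‖ := by
    have h6 : 1 / 2 ≤ ‖deriv T b / deriv T c‖ := by
      have := norm_sub_norm_le (1 : ℂ) (1 - deriv T b / deriv T c)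
      rw [norm_one, sub_sub_cancel, norm_sub_rev] at this
      linarith only [h4, this]
    rw [norm_div, le_div_iff₀ (norm_pos_iff.2 h0)] at h6
    linarith only [h6]
  have hTb : 0 < ‖deriv T b‖ := by
    have := norm_pos_iff.2 h0
    linarith only [h5, this]
  unfold NN
  rw [norm_div, div_le_iff₀ hTb]
  refine key2.trans ?_
  calc 1 / R * ‖deriv T c‖ ≤ 1 / R * (2 * ‖deriv T b‖) :=
        mul_le_mul_of_nonneg_left h5 (by positivity)
    _ = 2 / R * ‖deriv T b‖ := by ring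

/-- The coordinate and the angle of the lower level are close. -/
theorem b1_angle (lam t : ℝ) (h0 : 0 ≤ lam) (h1 : lam ≤ 1 / 100) (m : ℕ)
    (hx : |X lam t (m + 1)| < 1) :
    |TE lam t m - psiE lam t (m + 1)| ≤ 2 * qq lam (TE lam t (m + 1)) := by
  obtain ⟨e1, _, e3, e4⟩ := we_psi lam t h0 h1 m hx
  obtain ⟨u, hu⟩ : ∃ u, u = TE lam t m := ⟨_, rfl⟩
  obtain ⟨v, hv⟩ : ∃ v, v = psiE lam t (m + 1) := ⟨_, rfl⟩
  obtain ⟨b, hb⟩ : ∃ b, b = TE lam t (m + 1) := ⟨_, rfl⟩
  have e5 := cos_TE lam t h0 m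
  rw [← e1, ← hu, ← hv, ← hb] at e5
  rw [← hu, ← hv] at e3 e4 ⊢
  rw [← hb]
  have hr := rr_sq lam b
  have hr1 := one_le_rr lam b
  have hq0 : 0 ≤ qq lam b := by unfold qq; positivity
  have hc1 : |Real.cos u - Real.cos v| ≤ qq lam b ^ 2 / 2 := by
    have h2 : Real.cos v = clip (Real.cos v) := (clip_of_le14 (Real.abs_cos_le_one v)).symm
    rw [e5]
    nth_rewrite 2 [h2]
    refine (clip_lip14 _ _).trans ?_
    have h3 : rr lam b * Real.cos v - Real.cos v = (rr lam b - 1) * Real.cos v := by ring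
    rw [h3, abs_mul, abs_of_nonneg (by linarith only [hr1] : 0 ≤ rr lam b - 1)]
    have h4 := Real.abs_cos_le_one v
    have h5 : (rr lam b - 1) * |Real.cos v| ≤ rr lam b - 1 := by
      nlinarith only [hr1, h4]
    nlinarith only [hr, hr1, h4]
  set A := Real.sin ((u + v) / 2) with hA
  set B := Real.sin ((u - v) / 2) with hB
  have hcos : Real.cos u - Real.cos v = -2 * A * B := Real.cos_sub_cos u v
  have hsin : Real.sin u * Real.sin v = A ^ 2 - B ^ 2 := by
    have e6 : u = (u + v) / 2 + (u - v) / 2 := by ring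
    have e7 : v = (u + v) / 2 - (u - v) / 2 := by ring
    have e8 : Real.sin u = A * Real.cos ((u - v) / 2) + Real.cos ((u + v) / 2) * B := by
      rw [hA, hB, ← Real.sin_add, ← e6]
    have e9 : Real.sin v = A * Real.cos ((u - v) / 2) - Real.cos ((u + v) / 2) * B := by
      rw [hA, hB, ← Real.sin_sub, ← e7]
    have c1 := Real.sin_sq_add_cos_sq ((u + v) / 2)
    have c2 := Real.sin_sq_add_cos_sq ((u - v) / 2)
    rw [e8, e9]
    linear_combination A ^ 2 * c2 - B ^ 2 * c1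
  have hAB : |B| ≤ |A| := by
    apply sq_le_sq.1
    linarith only [e4, hsin]
  have h6 : 2 * (|A| * |B|) ≤ qq lam b ^ 2 / 2 := by
    rw [hcos] at hc1
    rw [show -2 * A * B = -(2 * (A * B)) by ring, abs_neg, abs_mul, abs_two, abs_mul] at hc1
    exact hc1
  have h7 : |B| ≤ qq lam b / 2 := by
    have h8 : |B| ^ 2 ≤ (qq lam b / 2) ^ 2 := by nlinarith only [hAB, h6, abs_nonneg B]
    exact (abs_le_of_sq_le_sq h8 (by positivity)) |>.trans' (le_abs_self _)
  have h9 : |u - v| / 2 * (2 / Real.pi) ≤ |B| := by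
    have h10 : |B| = Real.sin (|u - v| / 2) := by
      rcases le_total 0 (u - v) with h | h
      · rw [abs_of_nonneg h, hB, abs_of_nonneg]
        apply Real.sin_nonneg_of_nonneg_of_le_pi (by linarith only [h])
        rw [abs_of_nonneg h] at e3
        linarith only [e3, Real.pi_pos]
      · rw [abs_of_nonpos h, hB, abs_of_nonpos]
        · rw [← Real.sin_neg]; ring_nf
        · apply Real.sin_nonpos_of_nonpos_of_neg_pi_le (by linarith only [h])
          rw [abs_of_nonpos h] at e3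
          linarith only [e3, Real.pi_pos]
    rw [h10, mul_comm]
    apply Real.mul_le_sin
    · positivity
    · linarith only [e3, Real.pi_pos]
  have hpi := Real.pi_pos
  have hpi4 := Real.pi_le_four
  have h11 : |u - v| = |u - v| / 2 * (2 / Real.pi) * Real.pi := by field_simp
  rw [h11]
  calc |u - v| / 2 * (2 / Real.pi) * Real.pi ≤ qq lam b / 2 * Real.pi :=
        mul_le_mul_of_nonneg_right (h9.trans h7) hpi.le
    _ ≤ 2 * qq lam b := by nlinarith only [hq0, hpi4]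

theorem b1_sin_real (b0 c0 R x : ℝ) (hc : 0 < c0) (hs : c0 ≤ |Real.sin b0|)
    (hR1 : R ≤ c0 / 4) (hx : |x - b0| < R) : c0 / 2 ≤ |Real.sin x| := by
  have := b1_sin_ball b0 c0 R hc hs hR1 x ((b1_mem b0 x R).2 hx)
  rwa [← Complex.ofReal_sin, Complex.norm_real, Real.norm_eq_abs] at this

theorem b1_qq (lam b0 c0 : ℝ) (h0 : 0 ≤ lam) (hc : 0 < c0) (hs : c0 / 2 ≤ |Real.sin b0|) :
    qq lam b0 ≤ lam / c0 := by
  unfold qq
  apply div_le_div_of_nonneg_left h0 hc
  linarith only [hs]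

theorem b1_qq_shift (lam b : ℝ) (j : ℤ) : qq lam (b + j * Real.pi) = qq lam b :=
  F3bAux.qq_shift b j

/-- The two coordinates on the real points. -/
theorem b1_close (lam R c0 : ℝ) (h0 : 0 ≤ lam) (h1 : lam ≤ 1 / 100) (l : ℕ) (hl : 1 ≤ l)
    (i j : ℤ) (b0 : ℝ) (hc : 0 < c0) (hs : c0 ≤ |Real.sin b0|) (hR1 : R ≤ c0 / 4)
    (T0 p0 T1 p1 : ℂ → ℂ) (h : Curve lam R l 0 0 b0 T0 p0) (h' : Curve lam R l i j b0 T1 p1)
    (x : ℝ) (hx : |x - b0| < R) :
    ‖p1 x - p0 x‖ ≤ Real.pi * |(Nat.fib (l - 1) : ℝ) / (Nat.fib l : ℝ) * j - i| + 4 * lam / c0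
      + 140 * Real.sqrt lam := by
  have hxm := (b1_mem b0 x R).2 hx
  obtain ⟨a1, a2, a3, a4⟩ := h.re x hxm
  obtain ⟨c1, c2, c3, c4⟩ := h'.re x hxm
  have hsx := b1_sin_real b0 c0 R x hc hs hR1 hx
  have hsx0 : Real.sin x ≠ 0 := by
    intro hz
    rw [hz, abs_zero] at hsx
    linarith only [hc, hsx]
  obtain ⟨m, rfl⟩ : ∃ m, l = m + 1 := ⟨l - 1, by omega⟩
  have hX0 : |X lam (T0 x).re (m + 1)| < 1 := by
    rw [← sin_TE_ne lam _ h0, a3]
    exact sin_shift_ne x 0 hsx0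
  have hX1 : |X lam (T1 x).re (m + 1)| < 1 := by
    rw [← sin_TE_ne lam _ h0, c3]
    exact sin_shift_ne x j hsx0
  have q0 := b1_angle lam (T0 x).re h0 h1 m hX0
  have q1 := b1_angle lam (T1 x).re h0 h1 m hX1
  rw [a3, a4, b1_qq_shift] at q0
  rw [c3, c4, b1_qq_shift] at q1
  have hq := b1_qq lam x c0 h0 hc hsx
  have l0 := TE_lin lam (T0 x).re h0 h1 (m + 1) (by omega) m (by omega)
  have l1 := TE_lin lam (T1 x).re h0 h1 (m + 1) (by omega) m (by omega)
  rw [a3] at l0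
  rw [c3] at l1
  rw [show m + 1 - 1 = m by omega]
  set f := (Nat.fib m : ℝ) / (Nat.fib (m + 1) : ℝ) with hf
  have e1 : p1 x - p0 x = (((p1 x).re - (p0 x).re : ℝ) : ℂ) := by
    apply Complex.ext
    · simp
    · simp [a2, c2]
  rw [e1, Complex.norm_real, Real.norm_eq_abs]
  push_cast at q0 l0
  rw [abs_le] at q0 q1 l0 l1
  have hpi := Real.pi_pos
  have e2 : 4 * lam / c0 = 4 * (lam / c0) := by ring
  rw [e2]
  have e3 : |(f * j - i)| * Real.pi = |(f * j - i) * Real.pi| := by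
    rw [abs_mul, abs_of_pos hpi]
  have e4 := abs_le.1 (le_of_eq e3.symm)
  rw [abs_le]
  constructor <;> nlinarith only [hq, q0.1, q0.2, q1.1, q1.2, l0.1, l0.2, l1.1, l1.2, e4.1, e4.2]

/-- The two coordinates do not meet. -/
theorem b1_free (lam R : ℝ) (h0 : 0 < lam) (h1 : lam ≤ 1 / 100) (l : ℕ) (hl : 1 ≤ l) (i j : ℤ)
    (hj : j ≠ 0) (b0 c0 : ℝ) (hc : 0 < c0) (hs : c0 ≤ |Real.sin b0|) (hR : 0 < R) (hR1 : R ≤ c0 / 4)
    (T0 p0 T1 p1 : ℂ → ℂ) (h : Curve lam R l 0 0 b0 T0 p0) (h' : Curve lam R l i j b0 T1 p1) :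
    ∀ b ∈ ball (b0 : ℂ) R, p1 b - p0 b ≠ 0 := by
  intro b hb he
  have he' : p1 b = p0 b := sub_eq_zero.1 he
  have hne := curve_ne lam R h0 h1 l hl i j hj b0 c0 hc hs hR hR1 T0 p0 T1 p1 h h' b hb
  obtain ⟨m, rfl⟩ : ∃ m, l = m + 1 := ⟨l - 1, by omega⟩
  have a1 := h.eqX b hb
  have a2 := h.eqXm b hb
  have a3 := h.eqXp b hb
  have c1 := h'.eqX b hb
  have c2 := h'.eqXm b hb
  have c3 := h'.eqXp b hb
  rw [show m + 1 - 1 = m by omega] at a2 c2
  have e1 : Complex.cos (p1 b + b + (i + j) * Real.pi)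
      = (-1) ^ (i + j) * Complex.cos (p1 b + b) := by
    have := b1_cos_shift (p1 b + b) (i + j)
    push_cast at this
    exact this
  simp only [Int.cast_zero, zero_mul, add_zero] at a1 a2 a3
  rw [b1_cos_shift] at c1 c2
  rw [e1] at c3
  apply hne
  symm
  refine inv_state (lam : ℂ) (T0 b) (T1 b) (by exact_mod_cast h0.ne') m i j ?_ ?_ ?_
  · rw [c2, a2, he']; ring
  · rw [c1, a1]
  · change X (lam : ℂ) (T1 b) (m + 1 + 1) = _ * X (lam : ℂ) (T0 b) (m + 1 + 1)
    rw [c3, a3, he']; ring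

theorem b1_arith1 (lam c d e : ℝ) (h0 : 0 < lam) (h1 : lam ≤ 1 / 100) (hc : 0 < c) (he : 1 ≤ e)
    (h : c / (512 * e) ≤ 512 * e * (2 * d)) : lam * (c / 8192) ≤ d * (64 * (e * e)) := by
  rw [div_le_iff₀ (by positivity)] at h
  have q5 : lam * (c / 8192) ≤ c / 8192 := by
    have : 0 < c / 8192 := by positivity
    nlinarith only [h1, hc]
  nlinarith only [h1, hc, h]

theorem b1_arith3 (A L x y : ℝ) (hA : 0 ≤ A) (hL : 0 ≤ L) (hx : 2 ≤ x) (hy : y ≤ 5) :
    L + A + x * y ≤ (5 + A) * (x + L) := by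
  have h1 : x * y ≤ x * 5 := mul_le_mul_of_nonneg_left hy (by linarith only [hx])
  have h2 : 0 ≤ A * L := mul_nonneg hA hL
  have h3 : A * 2 ≤ A * x := mul_le_mul_of_nonneg_left hx hA
  have h4 : (5 + A) * (x + L) = 5 * x + 5 * L + A * x + A * L := by ring
  rw [h4]
  linarith only [hA, hL, h1, h2, h3]

theorem b1_arith2 (lam c d e : ℝ) (h0 : 0 < lam) (hc : c ≤ 1) (he : 1 ≤ e) (hd : 0 ≤ d)
    (h : lam < 512 * e * (2 * d)) : lam * (c / 8192) ≤ d * (64 * (e * e)) := by
  have g1 : lam * (c / 8192) ≤ lam / 8192 := by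
    have := mul_le_mul_of_nonneg_left hc h0.le
    linarith only [this]
  have g0 : 0 ≤ e * d := by positivity
  have g2 : e * d ≤ e * (e * d) := by nlinarith only [h0, he, h]
  have g3 : d * (64 * (e * e)) = 64 * (e * (e * d)) := by ring
  have g4 : 512 * e * (2 * d) = 1024 * (e * d) := by ring
  rw [g3]
  rw [g4] at h
  linarith only [h0, h, g1, g2]

/-- Lower bound at the centre. -/
theorem b1_centre (lam R : ℝ) (h0 : 0 < lam) (h1 : lam ≤ 1 / 100) (l : ℕ) (hl : 1 ≤ l) (i j : ℤ)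
    (hj : j ≠ 0) (b0 c0 : ℝ) (hc : 0 < c0) (hlc : lam ≤ c0) (hs : c0 ≤ |Real.sin b0|) (hR : 0 < R)
    (T0 p0 T1 p1 : ℂ → ℂ) (h : Curve lam R l 0 0 b0 T0 p0) (h' : Curve lam R l i j b0 T1 p1) :
    lam * (c0 ^ 2 / 8192) / 64 ^ l ≤ ‖p1 b0 - p0 b0‖ := by
  have hxm : (b0 : ℂ) ∈ ball (b0 : ℂ) R := mem_ball_self hR
  obtain ⟨a1, a2, a3, a4⟩ := h.re b0 hxm
  obtain ⟨c1, c2, c3, c4⟩ := h'.re b0 hxm
  have hc1 : c0 ≤ 1 := hs.trans (Real.abs_sin_le_one b0)
  have hsx0 : Real.sin b0 ≠ 0 := by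
    intro hz
    rw [hz, abs_zero] at hs
    linarith only [hc, hs]
  obtain ⟨m, rfl⟩ : ∃ m, l = m + 1 := ⟨l - 1, by omega⟩
  have hX0 : |X lam (T0 b0).re (m + 1)| < 1 := by
    rw [← sin_TE_ne lam _ h0.le, a3]
    exact sin_shift_ne b0 0 hsx0
  have hX1 : |X lam (T1 b0).re (m + 1)| < 1 := by
    rw [← sin_TE_ne lam _ h0.le, c3]
    exact sin_shift_ne b0 j hsx0
  obtain ⟨t0, ht0⟩ : ∃ t, t = (T0 b0).re := ⟨_, rfl⟩
  obtain ⟨t1, ht1⟩ : ∃ t, t = (T1 b0).re := ⟨_, rfl⟩
  obtain ⟨r0, hr0⟩ : ∃ t, t = (p0 b0).re := ⟨_, rfl⟩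
  obtain ⟨r1, hr1⟩ : ∃ t, t = (p1 b0).re := ⟨_, rfl⟩
  rw [← ht0] at a3 a4 hX0
  rw [← ht1] at c3 c4 hX1
  rw [← hr0] at a4
  rw [← hr1] at c4
  have e1 : p1 b0 - p0 b0 = ((r1 - r0 : ℝ) : ℂ) := by
    apply Complex.ext
    · simp [hr0, hr1]
    · simp [a2, c2]
  rw [e1, Complex.norm_real, Real.norm_eq_abs]
  obtain ⟨d, hd⟩ : ∃ d, d = |r1 - r0| := ⟨_, rfl⟩
  rw [← hd]
  have hd0 : 0 ≤ d := by rw [hd]; positivity
  -- the radius
  obtain ⟨r, hr⟩ : ∃ r, r = rr lam b0 := ⟨_, rfl⟩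
  have hrr : 1 ≤ r ∧ r ≤ 2 := by
    have g1 := rr_sq lam b0
    have g2 := one_le_rr lam b0
    rw [← hr] at g1 g2
    have g3 : qq lam b0 ≤ 1 := by
      unfold qq
      rw [div_le_one (by linarith only [hc, hs])]
      linarith only [h0, hlc, hs]
    have g4 : 0 ≤ qq lam b0 := by unfold qq; positivity
    refine ⟨g2, ?_⟩
    nlinarith only [g1, g3, g4]
  obtain ⟨k1, k2, _, _⟩ := we_psi lam t0 h0.le h1 m hX0
  obtain ⟨n1, n2, _, _⟩ := we_psi lam t1 h0.le h1 m hX1
  rw [a3, a4, F3bAux.rr_shift, ← hr] at k1 k2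
  rw [c3, c4, F3bAux.rr_shift, ← hr] at n1 n2
  have f1 : Real.cos (r1 + i * Real.pi) = (-1) ^ i * Real.cos r1 := Real.cos_add_int_mul_pi _ _
  have f2 : Real.cos (r1 + i * Real.pi + (b0 + j * Real.pi))
      = (-1) ^ (i + j) * Real.cos (r1 + b0) := by
    rw [← Real.cos_add_int_mul_pi]
    push_cast
    ring_nf
  rw [f1] at n1
  rw [f2] at n2
  simp only [Int.cast_zero, zero_mul, add_zero] at k1 k2 a3
  have hXl0 : X lam t0 (m + 1) = Real.cos b0 := by
    have := cos_TE lam t0 h0.le (m + 1)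
    rw [clip_of_lt hX0, a3] at this
    exact this.symm
  have hXl1 : X lam t1 (m + 1) = (-1) ^ j * Real.cos b0 := by
    have := cos_TE lam t1 h0.le (m + 1)
    rw [clip_of_lt hX1, c3, Real.cos_add_int_mul_pi] at this
    exact this.symm
  have hsg : ∀ n : ℤ, |((-1 : ℝ) ^ n)| = 1 := by
    intro n
    rcases b1_cases n with g | g <;> rw [g] <;> norm_num
  have E0 : |X lam t1 m - (-1) ^ i * X lam t0 m| ≤ 2 * d := by
    rw [← n1, ← k1]
    have g1 : r * ((-1) ^ i * Real.cos r1) - (-1) ^ i * (r * Real.cos r0)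
        = (-1) ^ i * (r * (Real.cos r1 - Real.cos r0)) := by ring
    rw [g1, abs_mul, hsg, one_mul, abs_mul, abs_of_nonneg (by linarith only [hrr] : 0 ≤ r)]
    have g2 := Real.abs_cos_sub_cos_le r1 r0
    rw [← hd] at g2
    exact mul_le_mul hrr.2 g2 (abs_nonneg _) (by norm_num)
  have E1 : |X lam t1 (m + 1) - (-1) ^ j * X lam t0 (m + 1)| ≤ 2 * d := by
    rw [hXl0, hXl1, sub_self, abs_zero]
    linarith only [hd0]
  have E2 : |X lam t1 (m + 2) - (-1) ^ (i + j) * X lam t0 (m + 2)| ≤ 2 * d := by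
    rw [← n2, ← k2]
    have g1 : r * ((-1) ^ (i + j) * Real.cos (r1 + b0)) - (-1) ^ (i + j) * (r * Real.cos (r0 + b0))
        = (-1) ^ (i + j) * (r * (Real.cos (r1 + b0) - Real.cos (r0 + b0))) := by ring
    rw [g1, abs_mul, hsg, one_mul, abs_mul, abs_of_nonneg (by linarith only [hrr] : 0 ≤ r)]
    have g2 := Real.abs_cos_sub_cos_le (r1 + b0) (r0 + b0)
    rw [show r1 + b0 - (r0 + b0) = r1 - r0 by ring, ← hd] at g2
    exact mul_le_mul hrr.2 g2 (abs_nonneg _) (by norm_num)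
  have h8 : (1 : ℝ) ≤ 8 ^ m := one_le_pow₀ (by norm_num)
  have h64 : (64 : ℝ) ^ (m + 1) = 64 * (8 ^ m * 8 ^ m) := by
    rw [pow_succ, ← mul_pow]; norm_num; ring
  have hc2 : c0 ^ 2 ≤ 1 := by nlinarith only [hc, hc1]
  have hc20 : 0 < c0 ^ 2 := by positivity
  rw [h64, div_le_iff₀ (by positivity)]
  by_cases hcase : (8 : ℝ) ^ (m + 3) * (2 * d) ≤ lam
  · have q1 := inv_quant lam t0 t1 (2 * d) h0 h1 m i j hX0 hX1 E0 E1 E2 hcase
    have q2 := far_apart lam c0 t0 t1 h0 h1 hc (m + 1) (by omega) j hj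
      (by rw [a3]; exact hs) (by rw [a3, c3])
    have q3 := q2.trans q1
    have e8 : (8 : ℝ) ^ (m + 1 + 2) = 512 * 8 ^ m := by ring
    have e9 : (8 : ℝ) ^ (m + 3) = 512 * 8 ^ m := by ring
    have q4 : c0 ^ 2 / 8 ^ (m + 1 + 2) ≤ 8 ^ (m + 3) * (2 * d) := q3
    have q5 : c0 ^ 2 / (512 * 8 ^ m) ≤ 512 * 8 ^ m * (2 * d) := by
      calc c0 ^ 2 / (512 * 8 ^ m) = c0 ^ 2 / 8 ^ (m + 1 + 2) := by rw [e8]
        _ ≤ 8 ^ (m + 3) * (2 * d) := q4
        _ = 512 * 8 ^ m * (2 * d) := by rw [e9]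
    exact b1_arith1 lam (c0 ^ 2) d (8 ^ m) h0 h1 hc20 h8 q5
  · have hcase := not_le.1 hcase
    have e9 : (8 : ℝ) ^ (m + 3) = 512 * 8 ^ m := by ring
    rw [e9] at hcase
    exact b1_arith2 lam (c0 ^ 2) d (8 ^ m) h0 hc2 h8 hd0 hcase

theorem b1_rpow (m : ℝ) : (4 : ℝ) ^ (1 / 2 : ℝ) * m ^ (1 - 1 / 2 : ℝ) = 2 * Real.sqrt m := by
  rw [show (1 - 1 / 2 : ℝ) = 1 / 2 by norm_num, ← Real.sqrt_eq_rpow, ← Real.sqrt_eq_rpow]
  rw [show (4 : ℝ) = 2 ^ 2 by norm_num, Real.sqrt_sq (by norm_num)]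

theorem base (c0 R : ℝ) (hc : 0 < c0) (hR : 0 < R) (hR1 : R ≤ c0 / 4) :
    ∃ R' : ℝ, 0 < R' ∧ R' ≤ R ∧ ∀ e : ℝ, 0 < e → e ≤ 1 →
    ∃ lam1 e1 C : ℝ, 0 < lam1 ∧ lam1 ≤ 1 / 100 ∧ 0 < e1 ∧ 1 ≤ C ∧
    ∀ lam : ℝ, 0 < lam → lam ≤ lam1 → ∀ (l : ℕ), 2 ≤ l → ∀ (i j : ℤ) (b0 : ℝ)
      (T0 p0 T1 p1 : ℂ → ℂ), j ≠ 0 → c0 ≤ |Real.sin b0| →
      |(Nat.fib (l - 1) : ℝ) / (Nat.fib l : ℝ) * j - i| ≤ e1 →
      Curve lam R l 0 0 b0 T0 p0 → Curve lam R l i j b0 T1 p1 →
      (∀ b ∈ ball (b0 : ℂ) R', p1 b - p0 b ≠ 0 ∧ ‖p1 b - p0 b‖ ≤ e) ∧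
      (∀ b ∈ ball (b0 : ℂ) (R' / 2), lam ^ 3 / C ^ l ≤ ‖p1 b - p0 b‖ ∧
        ‖deriv p1 b - deriv p0 b‖ ≤ C * (l + Real.log (1 / lam)) * ‖p1 b - p0 b‖ ∧
        ‖DD T0 T1 p0 p1 b‖ ≤ C ^ l / lam ^ 3) := by
  obtain ⟨hh, K, hh0, hh1, hK, hint⟩ := int_lemma1 (1 / 2) (by norm_num) (by norm_num)
  have hR'0 : 0 < hh * R := by positivity
  have hR'R : hh * R ≤ R := by nlinarith only [hR, hh1]
  refine ⟨hh * R, hR'0, hR'R, ?_⟩
  obtain ⟨R', hR'⟩ : ∃ R', R' = hh * R := ⟨_, rfl⟩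
  rw [← hR'] at hR'0 hR'R ⊢
  intro e he he1
  obtain ⟨mu, hmu⟩ : ∃ mu, mu = min ((e / (2 * K)) ^ 2) 1 := ⟨_, rfl⟩
  have hmu0 : 0 < mu := by rw [hmu]; positivity
  have hmu1 : mu ≤ 1 := by rw [hmu]; exact min_le_right _ _
  have hmu2 : mu ≤ (e / (2 * K)) ^ 2 := by rw [hmu]; exact min_le_left _ _
  obtain ⟨lam1, hlam1⟩ : ∃ lam1, lam1 = min (min (1 / 100) c0) (min (c0 * mu / 12)
    ((mu / 420) ^ 2)) := ⟨_, rfl⟩
  have hl0 : 0 < lam1 := by rw [hlam1]; positivity
  have hl1 : lam1 ≤ 1 / 100 := by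
    rw [hlam1]; exact (min_le_left _ _).trans (min_le_left _ _)
  have hl2 : lam1 ≤ c0 := by
    rw [hlam1]; exact (min_le_left _ _).trans (min_le_right _ _)
  have hl3 : lam1 ≤ c0 * mu / 12 := by
    rw [hlam1]; exact (min_le_right _ _).trans (min_le_left _ _)
  have hl4 : lam1 ≤ (mu / 420) ^ 2 := by
    rw [hlam1]; exact (min_le_right _ _).trans (min_le_right _ _)
  obtain ⟨ka, hka⟩ : ∃ ka, ka = c0 ^ 2 / 8192 := ⟨_, rfl⟩
  have hka0 : 0 < ka := by rw [hka]; positivity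
  obtain ⟨kb, hkb⟩ : ∃ kb, kb = min ka (1 / 2) := ⟨_, rfl⟩
  have hkb0 : 0 < kb := by rw [hkb]; positivity
  have hkb1 : kb ≤ 1 / 2 := by rw [hkb]; exact min_le_right _ _
  have hkb2 : kb ≤ ka := by rw [hkb]; exact min_le_left _ _
  obtain ⟨A, hA⟩ : ∃ A, A = Real.log (1 / kb) := ⟨_, rfl⟩
  have hA0 : 0 ≤ A := by
    rw [hA]
    apply Real.log_nonneg
    rw [le_div_iff₀ hkb0]
    linarith only [hkb1]
  obtain ⟨C1, hC1⟩ : ∃ C1, C1 = (4 / R + 1) * (64 ^ 3 * (1 / kb) ^ 3) := ⟨_, rfl⟩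
  obtain ⟨C2, hC2⟩ : ∃ C2, C2 = 24 * (5 + A) / R' := ⟨_, rfl⟩
  have hC20 : 0 ≤ C2 := by rw [hC2]; positivity
  have hkb3 : 1 ≤ (1 / kb) ^ 3 := by
    apply one_le_pow₀
    rw [le_div_iff₀ hkb0]
    linarith only [hkb1]
  have hR4 : 1 ≤ 4 / R + 1 := by
    have : 0 ≤ 4 / R := by positivity
    linarith only [this]
  have hC11 : 1 ≤ C1 := by
    rw [hC1]
    have : (1 : ℝ) ≤ 64 ^ 3 * (1 / kb) ^ 3 := by
      norm_num
      norm_num at hkb3
      linarith only [hkb3]
    nlinarith only [hkb3, hR4]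
  refine ⟨lam1, mu / 12, C1 + C2, hl0, hl1, by positivity, by linarith only [hC20, hC11], ?_⟩
  intro lam hlam hlam' l hl i j b0 T0 p0 T1 p1 hj hs hfib hcu0 hcu1
  have hlam100 : lam ≤ 1 / 100 := hlam'.trans hl1
  have hc1 : c0 ≤ 1 := hs.trans (Real.abs_sin_le_one b0)
  have hfree := b1_free lam R hlam hlam100 l (by omega) i j hj b0 c0 hc hs hR hR1 T0 p0 T1 p1 hcu0 hcu1
  have hpi := Real.pi_pos
  have hpi4 := Real.pi_le_four
  -- real points
  have hreal : ∀ x : ℝ, |x - b0| < R → ‖p1 x - p0 x‖ ≤ mu := by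
    intro x hx
    refine (b1_close lam R c0 hlam.le hlam100 l (by omega) i j b0 hc hs hR1 T0 p0 T1 p1 hcu0 hcu1
      x hx).trans ?_
    have g1 : Real.pi * |(Nat.fib (l - 1) : ℝ) / (Nat.fib l : ℝ) * j - i| ≤ mu / 3 := by
      calc Real.pi * |(Nat.fib (l - 1) : ℝ) / (Nat.fib l : ℝ) * j - i| ≤ 4 * (mu / 12) :=
            mul_le_mul hpi4 hfib (abs_nonneg _) (by norm_num)
        _ = mu / 3 := by ring
    have g2 : 4 * lam / c0 ≤ mu / 3 := by
      rw [div_le_iff₀ hc]
      nlinarith only [hl3, hlam']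
    have g3 : Real.sqrt lam ≤ mu / 420 := by
      rw [Real.sqrt_le_left (by positivity)]
      linarith only [hl4, hlam']
    linarith only [g1, g2, g3]
  have hdV : DifferentiableOn ℂ (fun b => p1 b - p0 b) (ball (b0 : ℂ) R) := hcu1.dp.sub hcu0.dp
  have hdat : ∀ b ∈ ball (b0 : ℂ) R, DifferentiableAt ℂ p1 b ∧ DifferentiableAt ℂ p0 b :=
    fun b hb => ⟨(hcu1.dp b hb).differentiableAt (isOpen_ball.mem_nhds hb),
      (hcu0.dp b hb).differentiableAt (isOpen_ball.mem_nhds hb)⟩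
  have hdd : ∀ b ∈ ball (b0 : ℂ) R, deriv (fun b => p1 b - p0 b) b = deriv p1 b - deriv p0 b :=
    fun b hb => deriv_fun_sub (hdat b hb).1 (hdat b hb).2
  have hbig : ∀ z ∈ ball (b0 : ℂ) R, ‖p1 z - p0 z‖ ≤ 4 := by
    intro z hz
    have g1 : ∀ b ∈ ball (b0 : ℂ) R, ‖deriv (fun b => p1 b - p0 b) b‖ ≤ 3 / 5 := by
      intro b hb
      rw [hdd b hb]
      have g2 := hcu1.slope b hb
      have g3 := hcu0.slope b hb
      have g4 : deriv p1 b - deriv p0 b = (deriv p1 b - 3 / 4) - (deriv p0 b - 3 / 4) := by ring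
      rw [g4]
      refine (norm_sub_le _ _).trans ?_
      linarith only [g2, g3]
    have g5 := (convex_ball (b0 : ℂ) R).norm_image_sub_le_of_norm_deriv_le
      (f := fun b => p1 b - p0 b) (fun b hb => (hdat b hb).1.sub (hdat b hb).2) g1
      (mem_ball_self hR) hz
    have g6 := hreal b0 (by simpa using hR)
    rw [mem_ball, dist_eq_norm] at hz
    have g7 : ‖p1 z - p0 z‖ ≤ ‖(p1 z - p0 z) - (p1 b0 - p0 b0)‖ + ‖p1 b0 - p0 b0‖ := by
      have := norm_add_le ((p1 z - p0 z) - (p1 b0 - p0 b0)) (p1 b0 - p0 b0)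
      rwa [sub_add_cancel] at this
    linarith only [hR1, hmu1, hc1, hz, g5, g6, g7]
  have hsmall : ∀ z ∈ ball (b0 : ℂ) R', ‖p1 z - p0 z‖ ≤ e := by
    intro z hz
    rw [hR'] at hz
    have g1 := hint R b0 (fun b => p1 b - p0 b) 4 mu hR hmu0 (by linarith only [hmu1]) hdV hbig
      (fun x hx => hreal x hx) z hz
    refine g1.trans ?_
    rw [mul_assoc, b1_rpow]
    have g2 : Real.sqrt mu ≤ e / (2 * K) := by
      rw [Real.sqrt_le_left (by positivity)]
      exact hmu2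
    calc K * (2 * Real.sqrt mu) ≤ K * (2 * (e / (2 * K))) := by gcongr
      _ = e := by field_simp
  have hfree' : ∀ z ∈ ball (b0 : ℂ) R', p1 z - p0 z ≠ 0 := fun z hz =>
    hfree z (ball_subset_ball hR'R hz)
  refine ⟨fun b hb => ⟨hfree' b hb, hsmall b hb⟩, ?_⟩
  -- centre
  obtain ⟨de, hde⟩ : ∃ de, de = lam * kb / 64 ^ l := ⟨_, rfl⟩
  have h64 : (1 : ℝ) ≤ 64 ^ l := one_le_pow₀ (by norm_num)
  have hde0 : 0 < de := by rw [hde]; positivity
  have hde1 : de < 1 := by
    rw [hde, div_lt_one (by positivity)]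
    nlinarith only [hl1, hkb0, hkb1, hlam', h64]
  have hcen : de ≤ ‖p1 b0 - p0 b0‖ := by
    refine le_trans ?_ (b1_centre lam R hlam hlam100 l (by omega) i j hj b0 c0 hc
      (hlam'.trans hl2) hs hR T0 p0 T1 p1 hcu0 hcu1)
    rw [hde, ← hka]
    gcongr
  have hhar := b1_harnack (g := fun b => p1 b - p0 b) (c := (b0 : ℂ)) (R := R') (d := de) hR'0
    (hdV.mono (ball_subset_ball hR'R)) hfree' (fun z hz => (hsmall z hz).trans he1) hde0 hde1 hcen
  -- powers
  have hCl : (4 / R + 1) * (1 / kb) ^ 3 * (64 ^ 3) ^ l ≤ (C1 + C2) ^ l := by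
    have g0 : C1 ^ l ≤ (C1 + C2) ^ l :=
      pow_le_pow_left₀ (zero_le_one.trans hC11) (le_add_of_nonneg_right hC20) l
    refine le_trans ?_ g0
    have g1 : C1 = ((4 / R + 1) * (1 / kb) ^ 3) * 64 ^ 3 := by rw [hC1]; ring
    rw [g1, mul_pow]
    apply mul_le_mul_of_nonneg_right _ (by positivity)
    apply le_self_pow₀ _ (by omega)
    exact one_le_mul_of_one_le_of_one_le hR4 hkb3
  have hkb3' : (1 / kb) ^ 3 * kb ^ 3 = 1 := by
    rw [← mul_pow, one_div_mul_cancel hkb0.ne', one_pow]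
  have hde3 : de ^ 3 = lam ^ 3 * kb ^ 3 / (64 ^ 3) ^ l := by
    rw [hde, div_pow, mul_pow, ← pow_mul, ← pow_mul, mul_comm l 3]
  have hCde : (4 / R + 1) * lam ^ 3 ≤ (C1 + C2) ^ l * de ^ 3 := by
    have g1 := mul_le_mul_of_nonneg_right hCl (by positivity : 0 ≤ de ^ 3)
    refine le_trans (le_of_eq ?_) g1
    rw [hde3]
    have g2 : (0 : ℝ) < (64 ^ 3) ^ l := by positivity
    field_simp
  have hCpos : 0 < (C1 + C2) ^ l := by
    apply pow_pos
    linarith only [hC20, hC11]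
  intro b hb
  obtain ⟨k1, k2⟩ := hhar b hb
  have hbR' : b ∈ ball (b0 : ℂ) R' := ball_subset_ball (by linarith only [hR'0]) hb
  have hbR : b ∈ ball (b0 : ℂ) R := ball_subset_ball hR'R hbR'
  have hlam3 : 0 < lam ^ 3 := by positivity
  refine ⟨?_, ?_, ?_⟩
  · refine le_trans ?_ k1
    rw [div_le_iff₀ hCpos, mul_comm]
    refine le_trans ?_ hCde
    exact le_mul_of_one_le_left hlam3.le hR4
  · rw [← hdd b hbR]
    refine k2.trans ?_
    apply mul_le_mul_of_nonneg_right _ (norm_nonneg _)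
    have hlog : Real.log (1 / de) = Real.log (1 / lam) + A + l * Real.log 64 := by
      rw [hde, hA, one_div, one_div, one_div, Real.log_inv, Real.log_inv, Real.log_inv,
        Real.log_div (by positivity) (by positivity), Real.log_mul hlam.ne' hkb0.ne', Real.log_pow]
      ring
    have hlog64 : Real.log 64 ≤ 5 := by
      have g1 : Real.log 64 = 6 * Real.log 2 := by
        rw [show (64 : ℝ) = 2 ^ 6 by norm_num, Real.log_pow]; norm_num
      rw [g1]
      have := Real.log_two_lt_d9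
      linarith only [this]
    have hll : 0 ≤ Real.log (1 / lam) := by
      apply Real.log_nonneg
      rw [le_div_iff₀ hlam]
      linarith only [hl1, hlam']
    have hl1' : (2 : ℝ) ≤ (l : ℝ) := by exact_mod_cast hl
    have g3 : Real.log (1 / de) ≤ (5 + A) * (l + Real.log (1 / lam)) := by
      rw [hlog]
      exact b1_arith3 A _ l _ hA0 hll hl1' hlog64
    have g5 : 24 * Real.log (1 / de) / R' ≤ C2 * (l + Real.log (1 / lam)) := by
      rw [hC2, div_mul_eq_mul_div]
      apply div_le_div_of_nonneg_right _ hR'0.le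
      rw [mul_assoc]
      exact mul_le_mul_of_nonneg_left g3 (by norm_num)
    refine g5.trans ?_
    apply mul_le_mul_of_nonneg_right _ (by positivity)
    linarith only [hC11]
  · have n0 := b1_NN hR hcu0.dT (hcu0.Tne _ (mem_ball_self hR)) hcu0.Trat b
      (ball_subset_ball (by linarith only [hR'R]) hb)
    have n1 := b1_NN hR hcu1.dT (hcu1.Tne _ (mem_ball_self hR)) hcu1.Trat b
      (ball_subset_ball (by linarith only [hR'R]) hb)
    unfold DD
    have hgpos : 0 < ‖p1 b - p0 b‖ := norm_pos_iff.2 (hfree' b hbR')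
    rw [norm_div, div_le_div_iff₀ hgpos hlam3]
    have g1 : ‖NN T1 b - NN T0 b‖ ≤ 4 / R := by
      refine (norm_sub_le _ _).trans ?_
      calc ‖NN T1 b‖ + ‖NN T0 b‖ ≤ 2 / R + 2 / R := add_le_add n1 n0
        _ = 4 / R := by ring
    calc ‖NN T1 b - NN T0 b‖ * lam ^ 3 ≤ 4 / R * lam ^ 3 :=
          mul_le_mul_of_nonneg_right g1 hlam3.le
      _ ≤ (4 / R + 1) * lam ^ 3 :=
          mul_le_mul_of_nonneg_right (le_add_of_nonneg_right zero_le_one) hlam3.le
      _ ≤ (C1 + C2) ^ l * de ^ 3 := hCde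
      _ ≤ (C1 + C2) ^ l * ‖p1 b - p0 b‖ := mul_le_mul_of_nonneg_left k1 hCpos.le

end SF
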