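import Pool.Agent.Helper65.SF.PDefs

/-!
# SF-P2: first order estimates for one step of the pair recursion

Constants: given `R <= 1` and `C` there are `C1`, `k0`, `e0` (independent of `L`).
Notation: `kap0 = ‖exp (U a0 b0)‖`, `del = p1 - p0`, `H_i(a,b) = p_i' b - P_b(a,b)`, `|H_i - 5/2| <= 3/5`.

Proof in words.  Implicit differentiation of `p_i (be_i a) = P a (be_i a)`: `be_i' = exp (U(a,be_i))/H_i(a,be_i)`, so
`|be_i'| <= e^C kap0/1.9`, which gives (3) (path inside the ball).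
`p0(be1) - P(a,be1) - (p0(be0) - P(a,be0)) = - del(be1)`; the left side is `Ht (be1 - be0)` with
`Ht` = mean of `H_0(a,.)` over the segment, `|Ht - 5/2| <= 3/5`, so `be1 - be0 = - del(be1)/Ht`,
`|del(be1)|/3.1 <= |be1 - be0| <= |del(be1)|/1.9`, in particular `be1 ≠ be0`.
Mean `m` of `exp U` over the segment: `be1, be0` are at distance `<= e`; by the Cauchy estimate `|U_b| <= 8C/R` there, so
the mean is `exp (U(a,be0)) (1 + O(e))`, so its modulus is between `kap0 e^{-C}/2` and `2 kap0 e^C` if `e <= e0`.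
This gives (1).  (2): `dm = - sg del(be1) m / Ht`, logarithmic derivative: `del'(be1) be1'/del(be1)` is
`<= L e^C kap0/1.9` (be1 in `ball b0 (R/8)`), `m'/m` and `Ht'/Ht` are bounded: `m`, `Ht` are holomorphic in a on
`ball a0 R`, `m/ exp(U a0 b0)` and `Ht` are bounded above and below there; Cauchy on `ball a0 (R/2)`.
(4): `T_im' = T_i'(be_i) be_i'`, so `T1m'/T0m' (a) = (T1'/T0')(be1) * (T0'(be1)/T0'(be0)) *
exp (U(a,be1)-U(a,be0)) * H_0(a,be0)/H_1(a,be1)`; each of the last three factors is `exp (O((1+L)|del(be1)|))`: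
`|T0''/T0'|` is bounded by Cauchy (`T0'/T0'(b0)` lies in the disc of centre 1 and radius 1/2), `|U_b|` bounded,
`H_1(a,be1) - H_0(a,be0) = del'(be1) + (H_0(a,be1) - H_0(a,be0))`, `|del'(be1)| <= L |del(be1)|`
(log of the ratio of two numbers of the disc of centre 5/2, radius 3/5, at distance h is `<= h/1.9`).
-/

namespace SF

open Metric

namespace P2h16

/-- Lipschitz bound from a bound on a larger disc -/
theorem lip {c : ℂ} {R : ℝ} (hR : 0 < R) {f : ℂ → ℂ} (hf : DifferentiableOn ℂ f (ball c R))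
    (w : ℂ) (M : ℝ) (hM : ∀ z ∈ ball c R, ‖f z - w‖ ≤ M) :
    ∀ z ∈ ball c (R / 2), ∀ z' ∈ ball c (R / 2), ‖f z - f z'‖ ≤ 4 * M / R * ‖z - z'‖ := by
  have hd : ∀ z ∈ ball c (R / 2), ‖deriv f z‖ ≤ 4 * M / R := by
    intro z hz
    have hsub : closedBall z (R / 4) ⊆ ball c R := by
      intro x hx
      rw [mem_closedBall] at hx
      rw [mem_ball] at hz ⊢
      calc dist x c ≤ dist x z + dist z c := dist_triangle _ _ _
        _ < R := by linarith
    have hg : DifferentiableOn ℂ (fun x => f x - w) (ball c R) := hf.sub_const w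
    have h1 : DiffContOnCl ℂ (fun x => f x - w) (ball z (R / 4)) := by
      apply DifferentiableOn.diffContOnCl
      rw [closure_ball z (by positivity : R / 4 ≠ 0)]
      exact hg.mono hsub
    have h2 := Complex.norm_deriv_le_of_forall_mem_sphere_norm_le (by positivity : 0 < R / 4) h1
      (C := M) (fun x hx => hM x (hsub (sphere_subset_closedBall hx)))
    have h3 : deriv (fun x => f x - w) z = deriv f z := by
      rw [deriv_sub_const]
    rw [h3] at h2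
    refine h2.trans (le_of_eq ?_)
    field_simp
  have hdiff : ∀ z ∈ ball c (R / 2), DifferentiableAt ℂ f z := by
    intro z hz
    exact (hf z (ball_subset_ball (by linarith) hz)).differentiableAt
      (isOpen_ball.mem_nhds (ball_subset_ball (by linarith) hz))
  intro z hz z' hz'
  exact (convex_ball c (R / 2)).norm_image_sub_le_of_norm_deriv_le hdiff hd hz' hz

theorem log_lip {x y c : ℝ} (hc : 0 < c) (hx : c ≤ x) (hy : c ≤ y) :
    |Real.log x - Real.log y| ≤ |x - y| / c := by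
  have key : ∀ x y : ℝ, c ≤ x → c ≤ y → Real.log x - Real.log y ≤ |x - y| / c := by
    intro x y hx hy
    have hx0 : 0 < x := by linarith
    have hy0 : 0 < y := by linarith
    rw [← Real.log_div hx0.ne' hy0.ne']
    have h1 := Real.log_le_sub_one_of_pos (div_pos hx0 hy0)
    have h2 : x / y - 1 = (x - y) / y := by field_simp
    rw [h2] at h1
    refine h1.trans ?_
    calc (x - y) / y ≤ |x - y| / y := div_le_div_of_nonneg_right (le_abs_self _) hy0.le
      _ ≤ |x - y| / c := div_le_div_of_nonneg_left (abs_nonneg _) hc hy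
  rw [abs_le]
  have h1 := key x y hx hy
  have h2 := key y x hy hx
  rw [abs_sub_comm] at h2
  constructor <;> linarith

theorem exp_lip {u v : ℂ} (h : ‖u - v‖ ≤ 1) :
    ‖Complex.exp u - Complex.exp v‖ ≤ ‖Complex.exp v‖ * (2 * ‖u - v‖) := by
  have h1 : Complex.exp u - Complex.exp v = Complex.exp v * (Complex.exp (u - v) - 1) := by
    rw [mul_sub, ← Complex.exp_add]
    congr 2
    · ring
    · ring
  rw [h1, norm_mul]
  exact mul_le_mul_of_nonneg_left (Complex.norm_exp_sub_one_le h) (norm_nonneg _)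

section

variable {R C L e : ℝ} {a0 b0 sg : ℂ} {P U : ℂ → ℂ → ℂ}
  {T0 T1 p0 p1 T0m T1m be0 be1 dm : ℂ → ℂ}

theorem slice_b {F : ℂ → ℂ → ℂ} (hF : DifferentiableOn ℂ (fun z : ℂ × ℂ => F z.1 z.2)
    (ball a0 R ×ˢ ball b0 R)) {a : ℂ} (ha : a ∈ ball a0 R) :
    DifferentiableOn ℂ (F a) (ball b0 R) := by
  have h1 : DifferentiableOn ℂ (fun b : ℂ => ((a, b) : ℂ × ℂ)) (ball b0 R) :=
    (differentiable_const a).differentiableOn.prodMk differentiableOn_id
  exact hF.comp h1 fun b hb => ⟨ha, hb⟩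

theorem slice_a {F : ℂ → ℂ → ℂ} (hF : DifferentiableOn ℂ (fun z : ℂ × ℂ => F z.1 z.2)
    (ball a0 R ×ˢ ball b0 R)) {b : ℂ} (hb : b ∈ ball b0 R) :
    DifferentiableOn ℂ (fun a => F a b) (ball a0 R) := by
  have h1 : DifferentiableOn ℂ (fun a : ℂ => ((a, b) : ℂ × ℂ)) (ball a0 R) :=
    differentiableOn_id.prodMk (differentiable_const b).differentiableOn
  exact hF.comp h1 fun a ha => ⟨ha, hb⟩

/-- implicit differentiation -/
theorem implicit (hP : DifferentiableOn ℂ (fun z : ℂ × ℂ => P z.1 z.2) (ball a0 R ×ˢ ball b0 R))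
    (hPa : ∀ a ∈ ball a0 R, ∀ b ∈ ball b0 R,
      HasDerivAt (fun a' => P a' b) (Complex.exp (U a b)) a)
    {p be : ℂ → ℂ} (hp : DifferentiableOn ℂ p (ball b0 R)) (hbe : DifferentiableOn ℂ be (ball a0 R))
    (hmem : ∀ a ∈ ball a0 R, be a ∈ ball b0 R) (heq : ∀ a ∈ ball a0 R, p (be a) = P a (be a))
    {a : ℂ} (ha : a ∈ ball a0 R) :
    deriv be a * (deriv p (be a) - deriv (P a) (be a)) = Complex.exp (U a (be a)) := by
  have hbm := hmem a ha
  have hopen : IsOpen (ball a0 R ×ˢ ball b0 R : Set (ℂ × ℂ)) := isOpen_ball.prod isOpen_ball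
  have hFd := ((hP (a, be a) ⟨ha, hbm⟩).differentiableAt (hopen.mem_nhds ⟨ha, hbm⟩)).hasFDerivAt
  set D := fderiv ℂ (fun z : ℂ × ℂ => P z.1 z.2) (a, be a) with hD
  have hbd : HasDerivAt be (deriv be a) a :=
    ((hbe a ha).differentiableAt (isOpen_ball.mem_nhds ha)).hasDerivAt
  have hpd : HasDerivAt p (deriv p (be a)) (be a) :=
    ((hp _ hbm).differentiableAt (isOpen_ball.mem_nhds hbm)).hasDerivAt
  have e1 : D (1, 0) = Complex.exp (U a (be a)) := by
    have h1 : HasDerivAt (fun a' : ℂ => ((a', be a) : ℂ × ℂ)) (1, 0) a :=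
      (hasDerivAt_id a).prodMk (hasDerivAt_const a (be a))
    have h2 := hFd.comp_hasDerivAt a h1
    exact h2.unique (hPa a ha _ hbm)
  have e2 : D (0, 1) = deriv (P a) (be a) := by
    have h1 : HasDerivAt (fun b' : ℂ => ((a, b') : ℂ × ℂ)) (0, 1) (be a) :=
      (hasDerivAt_const (be a) a).prodMk (hasDerivAt_id (be a))
    have h2 := hFd.comp_hasDerivAt (be a) h1
    exact h2.deriv.symm
  have h3 : HasDerivAt (fun a' => P a' (be a')) (D (1, deriv be a)) a := by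
    have h1 : HasDerivAt (fun a' : ℂ => ((a', be a') : ℂ × ℂ)) (1, deriv be a) a :=
      (hasDerivAt_id a).prodMk hbd
    exact hFd.comp_hasDerivAt a h1
  have h4 : HasDerivAt (fun a' => p (be a')) (deriv p (be a) * deriv be a) a := hpd.comp a hbd
  have h5 : (fun a' => p (be a')) =ᶠ[nhds a] fun a' => P a' (be a') := by
    filter_upwards [isOpen_ball.mem_nhds ha] with x hx
    exact heq x hx
  have h6 := (h3.congr_of_eventuallyEq h5).unique h4
  have h7 : ((1 : ℂ), deriv be a) = (1, 0) + deriv be a • ((0 : ℂ), (1 : ℂ)) := by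
    ext <;> simp
  rw [h7, map_add, map_smul, e1, e2, smul_eq_mul] at h6
  linear_combination -h6

theorem disc_bounds {z : ℂ} (h : ‖z - 5 / 2‖ ≤ 3 / 5) : 19 / 10 ≤ ‖z‖ ∧ ‖z‖ ≤ 31 / 10 := by
  have h1 : ‖(5 / 2 : ℂ)‖ = 5 / 2 := by
    rw [norm_div]; simp
  have h2 : ‖(5 / 2 : ℂ)‖ ≤ ‖z‖ + ‖z - 5 / 2‖ := by
    have := norm_sub_le z (z - 5 / 2)
    have e : z - (z - 5 / 2) = 5 / 2 := by ring
    rwa [e] at this
  have h3 : ‖z‖ ≤ ‖(5 / 2 : ℂ)‖ + ‖z - 5 / 2‖ := by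
    have := norm_add_le (5 / 2 : ℂ) (z - 5 / 2)
    have e : (5 / 2 : ℂ) + (z - 5 / 2) = z := by ring
    rwa [e] at this
  rw [h1] at h2 h3
  constructor <;> linarith

/-- `H = p' - P_b` lies in the disc -/
theorem H_disc {x y : ℂ} (hx : ‖x - 3 / 4‖ ≤ 3 / 10) (hy : ‖y + 7 / 4‖ ≤ 3 / 10) :
    ‖x - y - 5 / 2‖ ≤ 3 / 5 := by
  have e : x - y - 5 / 2 = (x - 3 / 4) - (y + 7 / 4) := by ring
  rw [e]
  have := norm_sub_le (x - 3 / 4) (y + 7 / 4)
  linarith

end

section main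

variable {R C L e : ℝ} {a0 b0 sg : ℂ} {P U : ℂ → ℂ → ℂ}
  {T0 T1 p0 p1 T0m T1m be0 be1 dm : ℂ → ℂ}

theorem expU_bounds (hUb : ∀ a ∈ ball a0 R, ∀ b ∈ ball b0 R, ‖U a b - U a0 b0‖ ≤ C)
    {a b : ℂ} (ha : a ∈ ball a0 R) (hb : b ∈ ball b0 R) :
    ‖Complex.exp (U a0 b0)‖ ≤ Real.exp C * ‖Complex.exp (U a b)‖ ∧
    ‖Complex.exp (U a b)‖ ≤ ‖Complex.exp (U a0 b0)‖ * Real.exp C := by
  have h1 := hUb a ha b hb
  have h2 : |(U a b).re - (U a0 b0).re| ≤ C := by
    rw [← Complex.sub_re]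
    exact (Complex.abs_re_le_norm _).trans h1
  rw [abs_le] at h2
  rw [Complex.norm_exp, Complex.norm_exp, ← Real.exp_add, ← Real.exp_add]
  constructor
  · apply Real.exp_le_exp.2; linarith
  · apply Real.exp_le_exp.2; linarith

theorem U_lip_b (hR : 0 < R)
    (hU : DifferentiableOn ℂ (fun z : ℂ × ℂ => U z.1 z.2) (ball a0 R ×ˢ ball b0 R))
    (hUb : ∀ a ∈ ball a0 R, ∀ b ∈ ball b0 R, ‖U a b - U a0 b0‖ ≤ C)
    {a b b' : ℂ} (ha : a ∈ ball a0 R) (hb : b ∈ ball b0 (R / 2)) (hb' : b' ∈ ball b0 (R / 2)) :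
    ‖U a b - U a b'‖ ≤ 4 * C / R * ‖b - b'‖ :=
  lip hR (slice_b hU ha) (U a0 b0) C (fun z hz => hUb a ha z hz) b hb b' hb'

theorem U_lip_a (hR : 0 < R)
    (hU : DifferentiableOn ℂ (fun z : ℂ × ℂ => U z.1 z.2) (ball a0 R ×ˢ ball b0 R))
    (hUb : ∀ a ∈ ball a0 R, ∀ b ∈ ball b0 R, ‖U a b - U a0 b0‖ ≤ C)
    {a a' b : ℂ} (ha : a ∈ ball a0 (R / 2)) (ha' : a' ∈ ball a0 (R / 2)) (hb : b ∈ ball b0 R) :
    ‖U a b - U a' b‖ ≤ 4 * C / R * ‖a - a'‖ :=
  lip hR (f := fun z => U z b) (slice_a hU hb) (U a0 b0) C (fun z hz => hUb z hz b hb) a ha a' ha'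

theorem H_lip (hR : 0 < R)
    (hP : DifferentiableOn ℂ (fun z : ℂ × ℂ => P z.1 z.2) (ball a0 R ×ˢ ball b0 R))
    (hPb : ∀ a ∈ ball a0 R, ∀ b ∈ ball b0 R, ‖deriv (fun b' => P a b') b + 7 / 4‖ ≤ 3 / 10)
    {p : ℂ → ℂ} (hp : DifferentiableOn ℂ p (ball b0 R))
    (hs : ∀ b ∈ ball b0 R, ‖deriv p b - 3 / 4‖ ≤ 3 / 10)
    {a b b' : ℂ} (ha : a ∈ ball a0 R) (hb : b ∈ ball b0 (R / 2)) (hb' : b' ∈ ball b0 (R / 2)) :
    ‖(deriv p b - deriv (P a) b) - (deriv p b' - deriv (P a) b')‖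
      ≤ 4 * (3 / 5) / R * ‖b - b'‖ := by
  refine lip hR (f := fun b => deriv p b - deriv (P a) b) ?_ (5 / 2) (3 / 5) ?_ b hb b' hb'
  · exact (hp.deriv isOpen_ball).sub ((slice_b hP ha).deriv isOpen_ball)
  · intro z hz
    exact H_disc (hs z hz) (hPb a ha z hz)

theorem w_bounds (hR : 0 < R)
    (h : PairHyp R C L e a0 b0 sg P U T0 T1 p0 p1 T0m T1m be0 be1 dm) {a : ℂ}
    (ha : a ∈ ball a0 R) :
    19 / 10 * ‖be1 a - be0 a‖ ≤ ‖p1 (be1 a) - p0 (be1 a)‖ ∧
      ‖p1 (be1 a) - p0 (be1 a)‖ ≤ 31 / 10 * ‖be1 a - be0 a‖ := by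
  obtain ⟨m0, m1, e0, e1⟩ := h.be a ha
  have hsub : ball b0 (R / 8) ⊆ ball b0 R := ball_subset_ball (by linarith)
  have hg : ∀ b ∈ ball b0 R, HasDerivWithinAt (fun b => p0 b - P a b - 5 / 2 * b)
      (deriv p0 b - deriv (P a) b - 5 / 2) (ball b0 R) b := by
    intro b hb
    have h1 : HasDerivAt p0 (deriv p0 b) b :=
      ((h.dp0 b hb).differentiableAt (isOpen_ball.mem_nhds hb)).hasDerivAt
    have h2 : HasDerivAt (P a) (deriv (P a) b) b :=
      ((slice_b h.dP ha b hb).differentiableAt (isOpen_ball.mem_nhds hb)).hasDerivAt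
    have h3 : HasDerivAt (fun b : ℂ => 5 / 2 * b) (5 / 2 : ℂ) b := by
      simpa using (hasDerivAt_id b).const_mul (5 / 2 : ℂ)
    exact ((h1.sub h2).sub h3).hasDerivWithinAt
  have hb : ∀ b ∈ ball b0 R, ‖deriv p0 b - deriv (P a) b - 5 / 2‖ ≤ 3 / 5 := fun b hb =>
    H_disc (h.slope b hb).1 (h.Pb a ha b hb)
  have h1 := (convex_ball b0 R).norm_image_sub_le_of_norm_hasDerivWithin_le hg hb
    (hsub m0) (hsub m1)
  have h2 : p0 (be1 a) - P a (be1 a) - 5 / 2 * be1 a - (p0 (be0 a) - P a (be0 a) - 5 / 2 * be0 a)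
      = -((p1 (be1 a) - p0 (be1 a)) + 5 / 2 * (be1 a - be0 a)) := by
    rw [e0, e1]; ring
  rw [h2, norm_neg] at h1
  have h3 : ‖(5 / 2 : ℂ) * (be1 a - be0 a)‖ = 5 / 2 * ‖be1 a - be0 a‖ := by
    rw [norm_mul, norm_div]; simp
  set x := p1 (be1 a) - p0 (be1 a)
  set y := (5 / 2 : ℂ) * (be1 a - be0 a)
  have h4 : ‖y‖ ≤ ‖x + y‖ + ‖x‖ := by
    have := norm_sub_le (x + y) x
    rwa [add_sub_cancel_left] at this
  have h5 : ‖x‖ ≤ ‖x + y‖ + ‖y‖ := by
    have := norm_sub_le (x + y) y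
    rwa [add_sub_cancel_right] at this
  rw [h3] at h4 h5
  constructor <;> linarith

/-- the two implicit equations and the sizes of the factors -/
theorem impl0 (h : PairHyp R C L e a0 b0 sg P U T0 T1 p0 p1 T0m T1m be0 be1 dm) (hR : 0 < R)
    {a : ℂ} (ha : a ∈ ball a0 R) :
    deriv be0 a * (deriv p0 (be0 a) - deriv (P a) (be0 a)) = Complex.exp (U a (be0 a)) ∧
    deriv be1 a * (deriv p1 (be1 a) - deriv (P a) (be1 a)) = Complex.exp (U a (be1 a)) ∧
    19 / 10 ≤ ‖deriv p0 (be0 a) - deriv (P a) (be0 a)‖ ∧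
    19 / 10 ≤ ‖deriv p1 (be1 a) - deriv (P a) (be1 a)‖ := by
  have hsub : ball b0 (R / 8) ⊆ ball b0 R := ball_subset_ball (by linarith)
  refine ⟨implicit h.dP h.Pa h.dp0 h.dbe0 (fun a ha => hsub (h.be a ha).1)
    (fun a ha => (h.be a ha).2.2.1) ha, implicit h.dP h.Pa h.dp1 h.dbe1
    (fun a ha => hsub (h.be a ha).2.1) (fun a ha => (h.be a ha).2.2.2) ha, ?_, ?_⟩
  · exact (disc_bounds (H_disc (h.slope _ (hsub (h.be a ha).1)).1 (h.Pb a ha _
      (hsub (h.be a ha).1)))).1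
  · exact (disc_bounds (H_disc (h.slope _ (hsub (h.be a ha).2.1)).2 (h.Pb a ha _
      (hsub (h.be a ha).2.1)))).1

theorem be_deriv (h : PairHyp R C L e a0 b0 sg P U T0 T1 p0 p1 T0m T1m be0 be1 dm) (hR : 0 < R)
    {a : ℂ} (ha : a ∈ ball a0 R) :
    ‖deriv be0 a‖ ≤ ‖Complex.exp (U a0 b0)‖ * Real.exp C ∧
    ‖deriv be1 a‖ ≤ ‖Complex.exp (U a0 b0)‖ * Real.exp C := by
  have hsub : ball b0 (R / 8) ⊆ ball b0 R := ball_subset_ball (by linarith)
  obtain ⟨i0, i1, l0, l1⟩ := impl0 h hR ha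
  have x0 := (expU_bounds h.Ub ha (hsub (h.be a ha).1)).2
  have x1 := (expU_bounds h.Ub ha (hsub (h.be a ha).2.1)).2
  rw [← i0, norm_mul] at x0
  rw [← i1, norm_mul] at x1
  constructor
  · nlinarith [norm_nonneg (deriv be0 a)]
  · nlinarith [norm_nonneg (deriv be1 a)]

/-- difference of the two denominators -/
theorem H_diff (h : PairHyp R C L e a0 b0 sg P U T0 T1 p0 p1 T0m T1m be0 be1 dm) (hR : 0 < R)
    {a : ℂ} (ha : a ∈ ball a0 R) :
    ‖(deriv p1 (be1 a) - deriv (P a) (be1 a)) - (deriv p0 (be0 a) - deriv (P a) (be0 a))‖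
      ≤ L * ‖p1 (be1 a) - p0 (be1 a)‖ + 12 / 5 / R * ‖be1 a - be0 a‖ := by
  have hsub : ball b0 (R / 8) ⊆ ball b0 (R / 2) := ball_subset_ball (by linarith)
  have h1 := h.ratio _ (hsub (h.be a ha).2.1)
  have h2 := H_lip hR h.dP h.Pb h.dp0 (fun b hb => (h.slope b hb).1) ha
    (hsub (h.be a ha).2.1) (hsub (h.be a ha).1)
  have h3 : (deriv p1 (be1 a) - deriv (P a) (be1 a)) - (deriv p0 (be0 a) - deriv (P a) (be0 a))
      = (deriv p1 (be1 a) - deriv p0 (be1 a)) + ((deriv p0 (be1 a) - deriv (P a) (be1 a))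
        - (deriv p0 (be0 a) - deriv (P a) (be0 a))) := by ring
  rw [h3]
  refine (norm_add_le _ _).trans ?_
  have h4 : (4 * (3 / 5) / R : ℝ) = 12 / 5 / R := by ring
  rw [h4] at h2
  exact add_le_add h1 h2

theorem w_deriv (h : PairHyp R C L e a0 b0 sg P U T0 T1 p0 p1 T0m T1m be0 be1 dm) (hR : 0 < R)
    (hL : 0 ≤ L) {a : ℂ} (ha : a ∈ ball a0 R) (hs : 4 * C / R * ‖be1 a - be0 a‖ ≤ 1)
    (hC : 0 ≤ C) :
    ‖deriv be1 a - deriv be0 a‖ ≤ ‖Complex.exp (U a0 b0)‖ *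
      (Real.exp C * (2 * (4 * C / R) + 1 / R + L)) * ‖be1 a - be0 a‖ := by
  have hsub : ball b0 (R / 8) ⊆ ball b0 (R / 2) := ball_subset_ball (by linarith)
  have hsub' : ball b0 (R / 8) ⊆ ball b0 R := ball_subset_ball (by linarith)
  obtain ⟨i0, i1, l0, l1⟩ := impl0 h hR ha
  obtain ⟨d0, d1⟩ := be_deriv h hR ha
  have hH := H_diff h hR ha
  obtain ⟨w0, w1⟩ := w_bounds hR h ha
  have hU := U_lip_b hR h.dU h.Ub ha (hsub (h.be a ha).2.1) (hsub (h.be a ha).1)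
  have hX := exp_lip (hU.trans hs)
  have x0 := (expU_bounds h.Ub ha (hsub' (h.be a ha).1)).2
  set X0 := Complex.exp (U a (be0 a)) with hX0
  set X1 := Complex.exp (U a (be1 a)) with hX1
  set H0 := deriv p0 (be0 a) - deriv (P a) (be0 a) with hH0
  set H1 := deriv p1 (be1 a) - deriv (P a) (be1 a) with hH1
  set kap := ‖Complex.exp (U a0 b0)‖ with hkap
  set w := be1 a - be0 a with hw
  have hkap0 : 0 ≤ kap := norm_nonneg _
  have hE0 : 0 < Real.exp C := Real.exp_pos _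
  -- (be1' - be0') H1 = (X1 - X0) - be0' (H1 - H0)
  have key : (deriv be1 a - deriv be0 a) * H1 = (X1 - X0) - deriv be0 a * (H1 - H0) := by
    linear_combination i1 - i0
  have hn : ‖deriv be1 a - deriv be0 a‖ * ‖H1‖ ≤ ‖X1 - X0‖ + ‖deriv be0 a‖ * ‖H1 - H0‖ := by
    rw [← norm_mul, key]
    refine (norm_sub_le _ _).trans ?_
    rw [norm_mul]
  -- sizes
  have b1 : ‖X1 - X0‖ ≤ kap * Real.exp C * (2 * (4 * C / R * ‖w‖)) := by
    refine hX.trans ?_
    refine mul_le_mul x0 ?_ (by positivity) (by positivity)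
    linarith
  have b0' : ‖deriv be0 a‖ * (19 / 10) ≤ kap * Real.exp C := by
    have : ‖deriv be0 a‖ * ‖H0‖ = ‖X0‖ := by rw [← norm_mul, i0]
    nlinarith [norm_nonneg (deriv be0 a)]
  have b2 : ‖H1 - H0‖ ≤ (31 / 10 * L + 12 / 5 / R) * ‖w‖ := by
    have : L * ‖p1 (be1 a) - p0 (be1 a)‖ ≤ L * (31 / 10 * ‖w‖) :=
      mul_le_mul_of_nonneg_left w1 hL
    linarith
  have b3 : ‖deriv be0 a‖ * ‖H1 - H0‖ ≤ (kap * Real.exp C) * (10 / 19) *
      ((31 / 10 * L + 12 / 5 / R) * ‖w‖) := by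
    refine mul_le_mul ?_ b2 (norm_nonneg _) (by positivity)
    linarith
  have hD : ‖deriv be1 a - deriv be0 a‖ * (19 / 10) ≤ ‖deriv be1 a - deriv be0 a‖ * ‖H1‖ :=
    mul_le_mul_of_nonneg_left l1 (norm_nonneg _)
  have hfin : ‖deriv be1 a - deriv be0 a‖ * (19 / 10) ≤ kap * Real.exp C * ‖w‖ *
      (2 * (4 * C / R) + (10 / 19) * (31 / 10 * L + 12 / 5 / R)) := by
    calc ‖deriv be1 a - deriv be0 a‖ * (19 / 10) ≤ ‖X1 - X0‖ + ‖deriv be0 a‖ * ‖H1 - H0‖ :=
          hD.trans hn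
      _ ≤ kap * Real.exp C * (2 * (4 * C / R * ‖w‖)) + (kap * Real.exp C) * (10 / 19) *
          ((31 / 10 * L + 12 / 5 / R) * ‖w‖) := add_le_add b1 b3
      _ = _ := by ring
  have hq : kap * Real.exp C * ‖w‖ *
      (2 * (4 * C / R) + (10 / 19) * (31 / 10 * L + 12 / 5 / R)) ≤
      kap * Real.exp C * ‖w‖ * ((19 / 10) * (2 * (4 * C / R) + 1 / R + L)) := by
    refine mul_le_mul_of_nonneg_left ?_ (by positivity)
    have h1 : 0 ≤ 4 * C / R := by positivity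
    have h2 : 0 ≤ 1 / R := by positivity
    have h3 : 12 / 5 / R = 12 / 5 * (1 / R) := by ring
    rw [h3]
    nlinarith
  nlinarith

/-- points of the segment -/
theorem seg_mem (h : PairHyp R C L e a0 b0 sg P U T0 T1 p0 p1 T0m T1m be0 be1 dm)
    {a : ℂ} (ha : a ∈ ball a0 R) {t : ℝ} (ht : t ∈ Set.Icc (0 : ℝ) 1) :
    be0 a + t * (be1 a - be0 a) ∈ ball b0 (R / 8) := by
  have := (convex_ball b0 (R / 8)).add_smul_sub_mem (h.be a ha).1 (h.be a ha).2.1 ht
  rwa [Complex.real_smul] at this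

theorem seg_int (h : PairHyp R C L e a0 b0 sg P U T0 T1 p0 p1 T0m T1m be0 be1 dm) (hR : 0 < R)
    {a : ℂ} (ha : a ∈ ball a0 R) :
    IntervalIntegrable (fun t : ℝ => Complex.exp (U a (be0 a + t * (be1 a - be0 a))))
      MeasureTheory.volume 0 1 := by
  have hsub : ball b0 (R / 8) ⊆ ball b0 R := ball_subset_ball (by linarith)
  apply ContinuousOn.intervalIntegrable
  rw [Set.uIcc_of_le zero_le_one]
  have h1 : ContinuousOn (U a) (ball b0 R) := (slice_b h.dU ha).continuousOn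
  have h2 : ContinuousOn (fun t : ℝ => be0 a + t * (be1 a - be0 a)) (Set.Icc 0 1) := by
    fun_prop
  exact Complex.continuous_exp.comp_continuousOn
    (h1.comp h2 fun t ht => hsub (seg_mem h ha ht))

theorem m_bounds (h : PairHyp R C L e a0 b0 sg P U T0 T1 p0 p1 T0m T1m be0 be1 dm) (hR : 0 < R)
    (hC : 0 ≤ C) {a : ℂ} (ha : a ∈ ball a0 R) (hs : 4 * C / R * ‖be1 a - be0 a‖ ≤ 1 / 4) :
    ‖∫ t in (0:ℝ)..1, Complex.exp (U a (be0 a + t * (be1 a - be0 a)))‖
      ≤ 3 / 2 * ‖Complex.exp (U a (be0 a))‖ ∧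
    1 / 2 * ‖Complex.exp (U a (be0 a))‖ ≤
      ‖∫ t in (0:ℝ)..1, Complex.exp (U a (be0 a + t * (be1 a - be0 a)))‖ := by
  have hsub : ball b0 (R / 8) ⊆ ball b0 (R / 2) := ball_subset_ball (by linarith)
  have h1 : ‖(∫ t in (0:ℝ)..1, Complex.exp (U a (be0 a + t * (be1 a - be0 a))))
      - Complex.exp (U a (be0 a))‖ ≤ 1 / 2 * ‖Complex.exp (U a (be0 a))‖ := by
    have h2 : Complex.exp (U a (be0 a)) = ∫ _ in (0:ℝ)..1, Complex.exp (U a (be0 a)) := by
      simp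
    conv_lhs => rw [h2]
    rw [← intervalIntegral.integral_sub (seg_int h hR ha) (by simp)]
    have h3 := intervalIntegral.norm_integral_le_of_norm_le_const (a := (0 : ℝ)) (b := 1)
      (f := fun t : ℝ => Complex.exp (U a (be0 a + t * (be1 a - be0 a)))
        - Complex.exp (U a (be0 a))) (C := 1 / 2 * ‖Complex.exp (U a (be0 a))‖) ?_
    · simpa using h3
    · intro t ht
      rw [Set.uIoc_of_le zero_le_one] at ht
      have ht' : t ∈ Set.Icc (0 : ℝ) 1 := ⟨ht.1.le, ht.2⟩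
      have h4 := U_lip_b hR h.dU h.Ub ha (hsub (seg_mem h ha ht')) (hsub (h.be a ha).1)
      have h5 : ‖be0 a + t * (be1 a - be0 a) - be0 a‖ ≤ ‖be1 a - be0 a‖ := by
        rw [add_sub_cancel_left, norm_mul, Complex.norm_real, Real.norm_of_nonneg ht'.1]
        exact mul_le_of_le_one_left (norm_nonneg _) ht'.2
      have h6 : ‖U a (be0 a + t * (be1 a - be0 a)) - U a (be0 a)‖ ≤ 1 / 4 := by
        refine h4.trans (le_trans ?_ hs)
        exact mul_le_mul_of_nonneg_left h5 (by positivity)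
      refine (exp_lip (h6.trans (by norm_num))).trans ?_
      have := norm_nonneg (Complex.exp (U a (be0 a)))
      nlinarith
  set m := ∫ t in (0:ℝ)..1, Complex.exp (U a (be0 a + t * (be1 a - be0 a)))
  set X := Complex.exp (U a (be0 a))
  constructor
  · have := norm_add_le (m - X) X
    rw [sub_add_cancel] at this
    linarith
  · have := norm_sub_le m (m - X)
    rw [sub_sub_cancel] at this
    linarith

theorem be_lip (h : PairHyp R C L e a0 b0 sg P U T0 T1 p0 p1 T0m T1m be0 be1 dm) (hR : 0 < R)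
    {a a' : ℂ} (ha : a ∈ ball a0 R) (ha' : a' ∈ ball a0 R) :
    ‖be0 a - be0 a'‖ ≤ ‖Complex.exp (U a0 b0)‖ * Real.exp C * ‖a - a'‖ ∧
    ‖be1 a - be1 a'‖ ≤ ‖Complex.exp (U a0 b0)‖ * Real.exp C * ‖a - a'‖ := by
  constructor
  · exact (convex_ball a0 R).norm_image_sub_le_of_norm_deriv_le
      (fun z hz => (h.dbe0 z hz).differentiableAt (isOpen_ball.mem_nhds hz))
      (fun z hz => (be_deriv h hR hz).1) ha' ha
  · exact (convex_ball a0 R).norm_image_sub_le_of_norm_deriv_le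
      (fun z hz => (h.dbe1 z hz).differentiableAt (isOpen_ball.mem_nhds hz))
      (fun z hz => (be_deriv h hR hz).2) ha' ha

theorem m_lip (h : PairHyp R C L e a0 b0 sg P U T0 T1 p0 p1 T0m T1m be0 be1 dm) (hR : 0 < R)
    (hC : 0 ≤ C) (hk : ‖Complex.exp (U a0 b0)‖ ≤ 1)
    {a a' : ℂ} (ha : a ∈ ball a0 (R / 2)) (ha' : a' ∈ ball a0 (R / 2))
    (hs : 4 * C / R * (1 + Real.exp C) * ‖a' - a‖ ≤ 1) :
    ‖(∫ t in (0:ℝ)..1, Complex.exp (U a' (be0 a' + t * (be1 a' - be0 a'))))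
      - ∫ t in (0:ℝ)..1, Complex.exp (U a (be0 a + t * (be1 a - be0 a)))‖
      ≤ ‖Complex.exp (U a0 b0)‖ * Real.exp C *
        (2 * (4 * C / R * (1 + Real.exp C) * ‖a' - a‖)) := by
  have hsub : ball b0 (R / 8) ⊆ ball b0 (R / 2) := ball_subset_ball (by linarith)
  have hsub' : ball b0 (R / 8) ⊆ ball b0 R := ball_subset_ball (by linarith)
  have hsuba : ball a0 (R / 2) ⊆ ball a0 R := ball_subset_ball (by linarith)
  have hA := hsuba ha
  have hA' := hsuba ha'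
  rw [← intervalIntegral.integral_sub (seg_int h hR hA') (seg_int h hR hA)]
  have h3 := intervalIntegral.norm_integral_le_of_norm_le_const (a := (0 : ℝ)) (b := 1)
    (f := fun t : ℝ => Complex.exp (U a' (be0 a' + t * (be1 a' - be0 a')))
      - Complex.exp (U a (be0 a + t * (be1 a - be0 a))))
    (C := ‖Complex.exp (U a0 b0)‖ * Real.exp C *
        (2 * (4 * C / R * (1 + Real.exp C) * ‖a' - a‖))) ?_
  · simpa using h3
  · intro t ht
    rw [Set.uIoc_of_le zero_le_one] at ht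
    have ht' : t ∈ Set.Icc (0 : ℝ) 1 := ⟨ht.1.le, ht.2⟩
    have hm := seg_mem h hA ht'
    have hm' := seg_mem h hA' ht'
    have h4 := U_lip_b hR h.dU h.Ub hA (hsub hm') (hsub hm)
    have h5 := U_lip_a hR h.dU h.Ub ha' ha (hsub' hm')
    obtain ⟨l0, l1⟩ := be_lip h hR hA' hA
    have hE0 : 0 < Real.exp C := Real.exp_pos _
    have h6 : ‖be0 a' + t * (be1 a' - be0 a') - (be0 a + t * (be1 a - be0 a))‖
        ≤ Real.exp C * ‖a' - a‖ := by
      have e1 : be0 a' + t * (be1 a' - be0 a') - (be0 a + t * (be1 a - be0 a))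
          = ((1 - t : ℝ) : ℂ) * (be0 a' - be0 a) + (t : ℂ) * (be1 a' - be1 a) := by
        push_cast; ring
      rw [e1]
      refine (norm_add_le _ _).trans ?_
      rw [norm_mul, norm_mul, Complex.norm_real, Complex.norm_real,
        Real.norm_of_nonneg ht'.1, Real.norm_of_nonneg (by linarith [ht'.2] : (0:ℝ) ≤ 1 - t)]
      have e2 : ‖Complex.exp (U a0 b0)‖ * Real.exp C * ‖a' - a‖ ≤ Real.exp C * ‖a' - a‖ := by
        refine mul_le_mul_of_nonneg_right ?_ (norm_nonneg _)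
        exact mul_le_of_le_one_left hE0.le hk
      have e3 := l0.trans e2
      have e4 := l1.trans e2
      have e5 : 0 ≤ 1 - t := by linarith [ht'.2]
      nlinarith [ht'.1, mul_le_mul_of_nonneg_left e3 e5, mul_le_mul_of_nonneg_left e4 ht'.1]
    have hK : 0 ≤ 4 * C / R := by positivity
    have h7 : ‖U a' (be0 a' + t * (be1 a' - be0 a')) - U a (be0 a + t * (be1 a - be0 a))‖
        ≤ 4 * C / R * (1 + Real.exp C) * ‖a' - a‖ := by
      have e1 : U a' (be0 a' + t * (be1 a' - be0 a')) - U a (be0 a + t * (be1 a - be0 a))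
          = (U a' (be0 a' + t * (be1 a' - be0 a')) - U a (be0 a' + t * (be1 a' - be0 a')))
          + (U a (be0 a' + t * (be1 a' - be0 a')) - U a (be0 a + t * (be1 a - be0 a))) := by
        ring
      rw [e1]
      refine (norm_add_le _ _).trans ?_
      have := mul_le_mul_of_nonneg_left h6 hK
      calc _ ≤ 4 * C / R * ‖a' - a‖ + 4 * C / R * (Real.exp C * ‖a' - a‖) :=
            add_le_add h5 (h4.trans this)
        _ = _ := by ring
    refine (exp_lip (h7.trans hs)).trans ?_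
    refine mul_le_mul (expU_bounds h.Ub hA (hsub' hm)).2 ?_ (by positivity) (by positivity)
    linarith

theorem dm_deriv (h : PairHyp R C L e a0 b0 sg P U T0 T1 p0 p1 T0m T1m be0 be1 dm) (hR : 0 < R)
    (hL : 0 ≤ L) (hC : 0 ≤ C) (hk : ‖Complex.exp (U a0 b0)‖ ≤ 1)
    {a : ℂ} (ha : a ∈ ball a0 (R / 2)) (hw : be1 a ≠ be0 a)
    (hs : 4 * C / R * ‖be1 a - be0 a‖ ≤ 1 / 4) :
    ‖deriv dm a‖ ≤ (4 * Real.exp C ^ 2 * (4 * C / R * (1 + Real.exp C)) +
      2 * ‖Complex.exp (U a0 b0)‖ *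
        (Real.exp C * (2 * (4 * C / R) + 1 / R + L) + 1)) * ‖dm a‖ := by
  have hsub : ball b0 (R / 8) ⊆ ball b0 (R / 2) := ball_subset_ball (by linarith)
  have hsub' : ball b0 (R / 8) ⊆ ball b0 R := ball_subset_ball (by linarith)
  have hsuba : ball a0 (R / 2) ⊆ ball a0 R := ball_subset_ball (by linarith)
  have hA := hsuba ha
  have hE0 : 0 < Real.exp C := Real.exp_pos _
  have hK : 0 ≤ 4 * C / R := by positivity
  have hR1 : 0 ≤ 1 / R := by positivity
  have hkap : 0 < ‖Complex.exp (U a0 b0)‖ := norm_pos_iff.2 (Complex.exp_ne_zero _)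
  have hwp : 0 < ‖be1 a - be0 a‖ := norm_pos_iff.2 (sub_ne_zero.2 hw)
  have hmb := (m_bounds h hR hC hA hs).2
  have hml : ∀ a' ∈ ball a0 (R / 2), 4 * C / R * (1 + Real.exp C) * ‖a' - a‖ ≤ 1 → _ :=
    fun a' ha' hs' => m_lip h hR hC hk ha ha' hs'
  have hwd := w_deriv h hR hL hA (hs.trans (by norm_num)) hC
  have hXl := (expU_bounds h.Ub hA (hsub' (h.be a hA).1)).1
  have hdm := h.hdm
  set kap := ‖Complex.exp (U a0 b0)‖ with hkapd
  set m : ℂ → ℂ := fun a => ∫ t in (0:ℝ)..1, Complex.exp (U a (be0 a + t * (be1 a - be0 a)))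
    with hm
  set w : ℂ → ℂ := fun a => be1 a - be0 a with hwdef
  have hmb' : 1 / 2 * ‖Complex.exp (U a (be0 a))‖ ≤ ‖m a‖ := hmb
  have hml' : ∀ a' ∈ ball a0 (R / 2), 4 * C / R * (1 + Real.exp C) * ‖a' - a‖ ≤ 1 →
      ‖m a' - m a‖ ≤ kap * Real.exp C * (2 * (4 * C / R * (1 + Real.exp C) * ‖a' - a‖)) := hml
  have hwd' : ‖deriv be1 a - deriv be0 a‖ ≤ kap *
      (Real.exp C * (2 * (4 * C / R) + 1 / R + L)) * ‖w a‖ := hwd
  have hdm' : ∀ a ∈ ball a0 R, dm a = sg * w a * m a := hdm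
  have hwp' : 0 < ‖w a‖ := hwp
  have hsg : ‖sg‖ = 1 := by
    rcases h.hsg with h1 | h1 <;> rw [h1] <;> simp
  -- lower bound of m
  have hmE : kap * Real.exp C ≤ 2 * Real.exp C ^ 2 * ‖m a‖ := by
    have h1 : kap ≤ Real.exp C * (2 * ‖m a‖) :=
      hXl.trans (mul_le_mul_of_nonneg_left (by linarith) hE0.le)
    nlinarith
  have hmp : 0 < ‖m a‖ := by
    by_contra hcon
    have h0 : ‖m a‖ = 0 := le_antisymm (not_lt.1 hcon) (norm_nonneg _)
    rw [h0, mul_zero] at hmE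
    have := mul_pos hkap hE0
    linarith
  -- derivative of w
  have hwda : HasDerivAt w (deriv be1 a - deriv be0 a) a := by
    have h1 : HasDerivAt be1 (deriv be1 a) a :=
      ((h.dbe1 a hA).differentiableAt (isOpen_ball.mem_nhds hA)).hasDerivAt
    have h2 : HasDerivAt be0 (deriv be0 a) a :=
      ((h.dbe0 a hA).differentiableAt (isOpen_ball.mem_nhds hA)).hasDerivAt
    exact h1.sub h2
  set A : ℝ := Real.exp C * (2 * (4 * C / R) + 1 / R + L) with hAdef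
  have hA0 : 0 ≤ A := by positivity
  set B : ℝ := 4 * C / R * (1 + Real.exp C) with hBdef
  have hB0 : 0 ≤ B := by positivity
  have ev1 : ∀ᶠ a' in nhds a, ‖w a' - w a‖ ≤ kap * (A + 1) * ‖w a‖ * ‖a' - a‖ := by
    have h1 := (hasDerivAt_iff_isLittleO.1 hwda).def (mul_pos hkap hwp')
    filter_upwards [h1] with a' h2
    have h3 : w a' - w a = (w a' - w a - (a' - a) • (deriv be1 a - deriv be0 a))
        + (a' - a) • (deriv be1 a - deriv be0 a) := by ring
    rw [h3]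
    refine (norm_add_le _ _).trans ?_
    have h4 : ‖(a' - a) • (deriv be1 a - deriv be0 a)‖ ≤ ‖a' - a‖ * (kap * A * ‖w a‖) := by
      rw [norm_smul]
      exact mul_le_mul_of_nonneg_left hwd' (norm_nonneg _)
    calc _ ≤ kap * ‖w a‖ * ‖a' - a‖ + ‖a' - a‖ * (kap * A * ‖w a‖) := add_le_add h2 h4
      _ = _ := by ring
  have ev2 : ∀ᶠ a' in nhds a, ‖m a' - m a‖ ≤ 4 * Real.exp C ^ 2 * B * ‖m a‖ * ‖a' - a‖ ∧
      ‖m a'‖ ≤ 2 * ‖m a‖ := by
    have hlim : Filter.Tendsto (fun a' => 4 * Real.exp C ^ 2 * B * ‖a' - a‖) (nhds a)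
        (nhds 0) := by
      have : Continuous fun a' : ℂ => 4 * Real.exp C ^ 2 * B * ‖a' - a‖ := by fun_prop
      have h2 := this.tendsto a
      simpa using h2
    have hlim2 : Filter.Tendsto (fun a' => B * ‖a' - a‖) (nhds a)
        (nhds 0) := by
      have : Continuous fun a' : ℂ => B * ‖a' - a‖ := by fun_prop
      have h2 := this.tendsto a
      simpa using h2
    filter_upwards [isOpen_ball.mem_nhds ha, hlim.eventually (gt_mem_nhds zero_lt_one),
      hlim2.eventually (gt_mem_nhds zero_lt_one)] with a' ha' h1 h2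
    have h3 := hml' a' ha' h2.le
    have h4 : kap * Real.exp C * (2 * (B * ‖a' - a‖)) ≤
        4 * Real.exp C ^ 2 * B * ‖m a‖ * ‖a' - a‖ := by
      calc kap * Real.exp C * (2 * (B * ‖a' - a‖)) ≤
          (2 * Real.exp C ^ 2 * ‖m a‖) * (2 * (B * ‖a' - a‖)) :=
            mul_le_mul_of_nonneg_right hmE (by positivity)
        _ = _ := by ring
    refine ⟨h3.trans h4, ?_⟩
    have h5 : ‖m a' - m a‖ ≤ ‖m a‖ := by
      refine (h3.trans h4).trans ?_
      have : 4 * Real.exp C ^ 2 * B * ‖m a‖ * ‖a' - a‖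
          = (4 * Real.exp C ^ 2 * B * ‖a' - a‖) * ‖m a‖ := by ring
      rw [this]
      exact mul_le_of_le_one_left (norm_nonneg _) h1.le
    have h6 := norm_add_le (m a' - m a) (m a)
    rw [sub_add_cancel] at h6
    linarith
  apply norm_deriv_le_of_lip' (by positivity)
  filter_upwards [isOpen_ball.mem_nhds ha, ev1, ev2] with a' ha' h1 h2
  rw [hdm' a hA, hdm' a' (hsuba ha')]
  have e1 : sg * w a' * m a' - sg * w a * m a = sg * ((w a' - w a) * m a' + w a * (m a' - m a)) := by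
    ring
  rw [e1, norm_mul, hsg, one_mul, norm_mul, norm_mul, hsg, one_mul]
  refine (norm_add_le _ _).trans ?_
  rw [norm_mul, norm_mul]
  have b1 : ‖w a' - w a‖ * ‖m a'‖ ≤ (kap * (A + 1) * ‖w a‖ * ‖a' - a‖) * (2 * ‖m a‖) :=
    mul_le_mul h1 h2.2 (norm_nonneg _) (by positivity)
  have b2 : ‖w a‖ * ‖m a' - m a‖ ≤ ‖w a‖ * (4 * Real.exp C ^ 2 * B * ‖m a‖ * ‖a' - a‖) :=
    mul_le_mul_of_nonneg_left h2.1 (norm_nonneg _)
  calc _ ≤ (kap * (A + 1) * ‖w a‖ * ‖a' - a‖) * (2 * ‖m a‖) +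
        ‖w a‖ * (4 * Real.exp C ^ 2 * B * ‖m a‖ * ‖a' - a‖) := add_le_add b1 b2
    _ = _ := by ring

theorem log_part (h : PairHyp R C L e a0 b0 sg P U T0 T1 p0 p1 T0m T1m be0 be1 dm) (hR : 0 < R)
    (hL : 0 ≤ L) (hC : 0 ≤ C) {a : ℂ} (ha : a ∈ ball a0 R) :
    deriv T0m a ≠ 0 ∧ deriv T1m a ≠ 0 ∧
        |Real.log (‖deriv T1m a‖ / ‖deriv T0m a‖)
          - Real.log (‖deriv T1 (be1 a)‖ / ‖deriv T0 (be1 a)‖)|
          ≤ (7 / R + 4 * C / R + 1) * (1 + L) * ‖p1 (be1 a) - p0 (be1 a)‖ := by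
  have hsub : ball b0 (R / 8) ⊆ ball b0 (R / 2) := ball_subset_ball (by linarith)
  have hsub' : ball b0 (R / 8) ⊆ ball b0 R := ball_subset_ball (by linarith)
  obtain ⟨i0, i1, l0, l1⟩ := impl0 h hR ha
  obtain ⟨w0, w1⟩ := w_bounds hR h ha
  have hH := H_diff h hR ha
  have hm0 := hsub' (h.be a ha).1
  have hm1 := hsub' (h.be a ha).2.1
  have hU := U_lip_b hR h.dU h.Ub ha (hsub (h.be a ha).2.1) (hsub (h.be a ha).1)
  have hK : 0 ≤ 4 * C / R := by positivity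
  -- derivatives of T_im
  have c0 : deriv T0m a = deriv T0 (be0 a) * deriv be0 a := by
    have h1 : HasDerivAt be0 (deriv be0 a) a :=
      ((h.dbe0 a ha).differentiableAt (isOpen_ball.mem_nhds ha)).hasDerivAt
    have h2 : HasDerivAt T0 (deriv T0 (be0 a)) (be0 a) :=
      ((h.dT0 _ hm0).differentiableAt (isOpen_ball.mem_nhds hm0)).hasDerivAt
    have h3 : T0m =ᶠ[nhds a] fun a => T0 (be0 a) := by
      filter_upwards [isOpen_ball.mem_nhds ha] with x hx
      exact (h.Tm x hx).1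
    rw [h3.deriv_eq]
    exact (h2.comp a h1).deriv
  have c1 : deriv T1m a = deriv T1 (be1 a) * deriv be1 a := by
    have h1 : HasDerivAt be1 (deriv be1 a) a :=
      ((h.dbe1 a ha).differentiableAt (isOpen_ball.mem_nhds ha)).hasDerivAt
    have h2 : HasDerivAt T1 (deriv T1 (be1 a)) (be1 a) :=
      ((h.dT1 _ hm1).differentiableAt (isOpen_ball.mem_nhds hm1)).hasDerivAt
    have h3 : T1m =ᶠ[nhds a] fun a => T1 (be1 a) := by
      filter_upwards [isOpen_ball.mem_nhds ha] with x hx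
      exact (h.Tm x hx).2
    rw [h3.deriv_eq]
    exact (h2.comp a h1).deriv
  have X0 : Complex.exp (U a (be0 a)) ≠ 0 := Complex.exp_ne_zero _
  have X1 : Complex.exp (U a (be1 a)) ≠ 0 := Complex.exp_ne_zero _
  have n0 : deriv be0 a ≠ 0 := fun hz => X0 (by rw [← i0, hz, zero_mul])
  have n1 : deriv be1 a ≠ 0 := fun hz => X1 (by rw [← i1, hz, zero_mul])
  have t00 := (h.Tne _ hm0).1
  have t01 := (h.Tne _ hm1).1
  have t11 := (h.Tne _ hm1).2
  refine ⟨by rw [c0]; exact mul_ne_zero t00 n0, by rw [c1]; exact mul_ne_zero t11 n1, ?_⟩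
  -- logs
  have pT00 := norm_pos_iff.2 t00
  have pT01 := norm_pos_iff.2 t01
  have pT11 := norm_pos_iff.2 t11
  have pn0 := norm_pos_iff.2 n0
  have pn1 := norm_pos_iff.2 n1
  have q0 : Real.log ‖deriv be0 a‖ = (U a (be0 a)).re
      - Real.log ‖deriv p0 (be0 a) - deriv (P a) (be0 a)‖ := by
    have h1 : ‖deriv be0 a‖ * ‖deriv p0 (be0 a) - deriv (P a) (be0 a)‖
        = Real.exp (U a (be0 a)).re := by
      rw [← norm_mul, i0, Complex.norm_exp]
    have h2 := congrArg Real.log h1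
    rw [Real.log_mul pn0.ne' (by linarith : (0:ℝ) < _).ne', Real.log_exp] at h2
    linarith
  have q1 : Real.log ‖deriv be1 a‖ = (U a (be1 a)).re
      - Real.log ‖deriv p1 (be1 a) - deriv (P a) (be1 a)‖ := by
    have h1 : ‖deriv be1 a‖ * ‖deriv p1 (be1 a) - deriv (P a) (be1 a)‖
        = Real.exp (U a (be1 a)).re := by
      rw [← norm_mul, i1, Complex.norm_exp]
    have h2 := congrArg Real.log h1
    rw [Real.log_mul pn1.ne' (by linarith : (0:ℝ) < _).ne', Real.log_exp] at h2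
    linarith
  have s1 : |Real.log ‖deriv T0 (be1 a)‖ - Real.log ‖deriv T0 (be0 a)‖|
      ≤ 4 / R * ‖be1 a - be0 a‖ := by
    have hb0 : b0 ∈ ball b0 R := mem_ball_self hR
    have tb := (h.Tne b0 hb0).1
    have ptb := norm_pos_iff.2 tb
    have hlow : ∀ b ∈ ball b0 R, 1 / 2 ≤ ‖deriv T0 b / deriv T0 b0‖ := by
      intro b hb
      have h1 := (h.Trat b hb).1
      have h2 := norm_sub_le (deriv T0 b / deriv T0 b0) (deriv T0 b / deriv T0 b0 - 1)
      rw [sub_sub_cancel, norm_one] at h2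
      linarith
    have hl := lip hR (f := fun b => deriv T0 b / deriv T0 b0)
      ((h.dT0.deriv isOpen_ball).div_const _) 1 (1 / 2) (fun z hz => (h.Trat z hz).1)
      _ (hsub (h.be a ha).2.1) _ (hsub (h.be a ha).1)
    have h3 := log_lip (by norm_num : (0:ℝ) < 1 / 2) (hlow _ hm1) (hlow _ hm0)
    have e1 : ∀ b, deriv T0 b ≠ 0 → Real.log ‖deriv T0 b / deriv T0 b0‖
        = Real.log ‖deriv T0 b‖ - Real.log ‖deriv T0 b0‖ := by
      intro b hb
      rw [norm_div, Real.log_div (norm_pos_iff.2 hb).ne' ptb.ne']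
    rw [e1 _ t01, e1 _ t00, sub_sub_sub_cancel_right] at h3
    refine h3.trans ?_
    have h4 := abs_norm_sub_norm_le (deriv T0 (be1 a) / deriv T0 b0)
      (deriv T0 (be0 a) / deriv T0 b0)
    have h5 := h4.trans hl
    have h6 : 4 * (1 / 2) / R * ‖be1 a - be0 a‖ / (1 / 2) = 4 / R * ‖be1 a - be0 a‖ := by ring
    rw [← h6]
    exact div_le_div_of_nonneg_right h5 (by norm_num)
  have s2 : |(U a (be1 a)).re - (U a (be0 a)).re| ≤ 4 * C / R * ‖be1 a - be0 a‖ := by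
    rw [← Complex.sub_re]
    exact (Complex.abs_re_le_norm _).trans hU
  have s3 : |Real.log ‖deriv p0 (be0 a) - deriv (P a) (be0 a)‖
      - Real.log ‖deriv p1 (be1 a) - deriv (P a) (be1 a)‖| ≤
      L * ‖p1 (be1 a) - p0 (be1 a)‖ + 12 / 5 / R * ‖be1 a - be0 a‖ := by
    have h1 := log_lip (by norm_num : (0:ℝ) < 19 / 10) l0 l1
    refine h1.trans ?_
    have h2 := abs_norm_sub_norm_le (deriv p0 (be0 a) - deriv (P a) (be0 a))
      (deriv p1 (be1 a) - deriv (P a) (be1 a))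
    rw [norm_sub_rev (deriv p0 (be0 a) - deriv (P a) (be0 a))] at h2
    have h3 := h2.trans hH
    have h4 : 0 ≤ L * ‖p1 (be1 a) - p0 (be1 a)‖ + 12 / 5 / R * ‖be1 a - be0 a‖ := by positivity
    rw [div_le_iff₀ (by norm_num)]
    linarith
  have e1 : Real.log (‖deriv T1m a‖ / ‖deriv T0m a‖)
      - Real.log (‖deriv T1 (be1 a)‖ / ‖deriv T0 (be1 a)‖)
      = (Real.log ‖deriv T0 (be1 a)‖ - Real.log ‖deriv T0 (be0 a)‖)
        + ((U a (be1 a)).re - (U a (be0 a)).re)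
        + (Real.log ‖deriv p0 (be0 a) - deriv (P a) (be0 a)‖
          - Real.log ‖deriv p1 (be1 a) - deriv (P a) (be1 a)‖) := by
    rw [c0, c1, norm_mul, norm_mul, Real.log_div (by positivity) (by positivity),
      Real.log_div (by positivity) (by positivity), Real.log_mul pT11.ne' pn1.ne',
      Real.log_mul pT00.ne' pn0.ne', q0, q1]
    ring
  rw [e1]
  refine (abs_add_three _ _ _).trans ?_
  have hw : ‖be1 a - be0 a‖ ≤ ‖p1 (be1 a) - p0 (be1 a)‖ := by
    linarith [norm_nonneg (be1 a - be0 a)]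
  set d := ‖p1 (be1 a) - p0 (be1 a)‖ with hd
  have hd0 : 0 ≤ d := norm_nonneg _
  have hRi : 0 ≤ 1 / R := by positivity
  have f1 : 4 / R * ‖be1 a - be0 a‖ ≤ 4 / R * d := mul_le_mul_of_nonneg_left hw (by positivity)
  have f2 : 4 * C / R * ‖be1 a - be0 a‖ ≤ 4 * C / R * d := mul_le_mul_of_nonneg_left hw hK
  have f3 : 12 / 5 / R * ‖be1 a - be0 a‖ ≤ 12 / 5 / R * d :=
    mul_le_mul_of_nonneg_left hw (by positivity)
  calc _ ≤ 4 / R * d + 4 * C / R * d + (L * d + 12 / 5 / R * d) := by linarith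
    _ = (32 / 5 * (1 / R) + 4 * C / R + L) * d := by ring
    _ ≤ (7 / R + 4 * C / R + 1) * (1 + L) * d := by
        refine mul_le_mul_of_nonneg_right ?_ hd0
        have h7 : (7 / R : ℝ) = 7 * (1 / R) := by ring
        rw [h7]
        have : 0 ≤ (7 * (1 / R) + 4 * C / R) * L := by positivity
        nlinarith

end main

end P2h16

open P2h16 in
theorem pair_first (R C : ℝ) (hR : 0 < R) (hR1 : R ≤ 1) (hC : 1 ≤ C) :
    ∃ C1 k0 e0 : ℝ, 1 ≤ C1 ∧ 0 < k0 ∧ 0 < e0 ∧ ∀ (L e : ℝ) (a0 b0 sg : ℂ) (P U : ℂ → ℂ → ℂ)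
      (T0 T1 p0 p1 T0m T1m be0 be1 dm : ℂ → ℂ), 0 ≤ L →
      PairHyp R C L e a0 b0 sg P U T0 T1 p0 p1 T0m T1m be0 be1 dm → e ≤ e0 →
      ‖Complex.exp (U a0 b0)‖ ≤ k0 →
      (∀ a ∈ ball a0 R, dm a ≠ 0 ∧ be1 a ≠ be0 a ∧
        ‖dm a‖ ≤ C1 * ‖Complex.exp (U a0 b0)‖ * ‖p1 (be1 a) - p0 (be1 a)‖ ∧
        ‖Complex.exp (U a0 b0)‖ * ‖p1 (be1 a) - p0 (be1 a)‖ ≤ C1 * ‖dm a‖) ∧
      (∀ a ∈ ball a0 (R / 2),
        ‖deriv dm a‖ ≤ (C1 + C1 * ‖Complex.exp (U a0 b0)‖ * L) * ‖dm a‖) ∧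
      (∀ a ∈ ball a0 R, ∀ a' ∈ ball a0 R,
        ‖be1 a - be1 a'‖ ≤ C1 * ‖Complex.exp (U a0 b0)‖ * ‖a - a'‖) ∧
      (∀ a ∈ ball a0 R, deriv T0m a ≠ 0 ∧ deriv T1m a ≠ 0 ∧
        |Real.log (‖deriv T1m a‖ / ‖deriv T0m a‖)
          - Real.log (‖deriv T1 (be1 a)‖ / ‖deriv T0 (be1 a)‖)|
          ≤ C1 * (1 + L) * ‖p1 (be1 a) - p0 (be1 a)‖) := by
  have hC0 : 0 ≤ C := by linarith
  have hE0 : 0 < Real.exp C := Real.exp_pos _
  have hK : 0 < 4 * C / R := by positivity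
  have hRi : 0 < 1 / R := by positivity
  have hEge : 1 ≤ Real.exp C := by
    have := Real.add_one_le_exp C
    linarith
  set K := 4 * C / R with hKd
  set E := Real.exp C with hEd
  set A2 := 4 * E ^ 2 * (K * (1 + E)) with hA2
  have hA20 : 0 ≤ A2 := by positivity
  set A1 := E * (2 * K + 1 / R) with hA1
  have hA10 : 0 ≤ A1 := by positivity
  refine ⟨10 * (A2 + A1 + E + 1 / R + K + 1), 1, 1 / (4 * K), ?_, one_pos, by positivity, ?_⟩
  · linarith
  intro L e a0 b0 sg P U T0 T1 p0 p1 T0m T1m be0 be1 dm hL h he hk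
  have hsub : ball b0 (R / 8) ⊆ ball b0 (R / 2) := ball_subset_ball (by linarith)
  have hsub' : ball b0 (R / 8) ⊆ ball b0 R := ball_subset_ball (by linarith)
  have hsuba : ball a0 (R / 2) ⊆ ball a0 R := ball_subset_ball (by linarith)
  have hkap : 0 < ‖Complex.exp (U a0 b0)‖ := norm_pos_iff.2 (Complex.exp_ne_zero _)
  have hsm : ∀ a ∈ ball a0 R, K * ‖be1 a - be0 a‖ ≤ 1 / 4 := by
    intro a ha
    have h1 := (w_bounds hR h ha).1
    have h2 := (h.del _ (hsub' (h.be a ha).2.1)).2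
    have h3 : ‖be1 a - be0 a‖ ≤ 1 / (4 * K) := by
      linarith [norm_nonneg (be1 a - be0 a)]
    calc K * ‖be1 a - be0 a‖ ≤ K * (1 / (4 * K)) := mul_le_mul_of_nonneg_left h3 hK.le
      _ = 1 / 4 := by field_simp
  have hwne : ∀ a ∈ ball a0 R, be1 a ≠ be0 a := by
    intro a ha hc
    have h1 := (w_bounds hR h ha).2
    rw [hc, sub_self, norm_zero, mul_zero] at h1
    have h2 := (h.del _ (hsub' (h.be a ha).1)).1
    have h3 := norm_pos_iff.2 h2
    linarith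
  have hsg : ‖sg‖ = 1 := by
    rcases h.hsg with h1 | h1 <;> rw [h1] <;> simp
  refine ⟨?_, ?_, ?_, ?_⟩
  · intro a ha
    obtain ⟨mb1, mb2⟩ := m_bounds h hR hC0 ha (hsm a ha)
    obtain ⟨w1, w2⟩ := w_bounds hR h ha
    obtain ⟨x1, x2⟩ := expU_bounds h.Ub ha (hsub' (h.be a ha).1)
    have hdm := h.hdm a ha
    set m := ∫ t in (0:ℝ)..1, Complex.exp (U a (be0 a + t * (be1 a - be0 a))) with hm
    have hn : ‖dm a‖ = ‖be1 a - be0 a‖ * ‖m‖ := by
      rw [hdm, norm_mul, norm_mul, hsg, one_mul]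
    have hXp : 0 < ‖Complex.exp (U a (be0 a))‖ := norm_pos_iff.2 (Complex.exp_ne_zero _)
    have hwp : 0 < ‖be1 a - be0 a‖ := norm_pos_iff.2 (sub_ne_zero.2 (hwne a ha))
    have hmp : 0 < ‖m‖ := by linarith
    set d := ‖p1 (be1 a) - p0 (be1 a)‖ with hd
    have hd0 : 0 ≤ d := norm_nonneg _
    set w := ‖be1 a - be0 a‖ with hw
    set kap := ‖Complex.exp (U a0 b0)‖ with hkd
    refine ⟨?_, hwne a ha, ?_, ?_⟩
    · rw [← norm_pos_iff, hn]
      positivity
    · rw [hn]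
      calc w * ‖m‖ ≤ w * (3 / 2 * (kap * E)) := by
            refine mul_le_mul_of_nonneg_left ?_ hwp.le
            linarith
        _ ≤ (d * (10 / 19)) * (3 / 2 * (kap * E)) := by
            refine mul_le_mul_of_nonneg_right ?_ (by positivity)
            linarith
        _ = (15 / 19 * E) * kap * d := by ring
        _ ≤ 10 * (A2 + A1 + E + 1 / R + K + 1) * kap * d := by
            refine mul_le_mul_of_nonneg_right (mul_le_mul_of_nonneg_right ?_ hkap.le) hd0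
            linarith
    · rw [hn]
      have h1 : kap ≤ E * (2 * ‖m‖) := x1.trans (mul_le_mul_of_nonneg_left (by linarith) hE0.le)
      calc kap * d ≤ (E * (2 * ‖m‖)) * (31 / 10 * w) :=
            mul_le_mul h1 w2 hd0 (by positivity)
        _ = (31 / 5 * E) * (w * ‖m‖) := by ring
        _ ≤ 10 * (A2 + A1 + E + 1 / R + K + 1) * (w * ‖m‖) := by
            refine mul_le_mul_of_nonneg_right ?_ (by positivity)
            linarith
  · intro a ha
    have h1 := dm_deriv h hR hL hC0 hk ha (hwne a (hsuba ha)) (hsm a (hsuba ha))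
    refine h1.trans (mul_le_mul_of_nonneg_right ?_ (norm_nonneg _))
    set kap := ‖Complex.exp (U a0 b0)‖ with hkd
    have e1 : 4 * E ^ 2 * (K * (1 + E)) + 2 * kap * (E * (2 * K + 1 / R + L) + 1)
        = A2 + 2 * (kap * (A1 + 1)) + 2 * E * (kap * L) := by
      rw [hA2, hA1]; ring
    rw [e1]
    have e2 : kap * (A1 + 1) ≤ A1 + 1 := mul_le_of_le_one_left (by positivity) hk
    have e3 : 2 * E * (kap * L) ≤ 10 * (A2 + A1 + E + 1 / R + K + 1) * (kap * L) := by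
      refine mul_le_mul_of_nonneg_right ?_ (by positivity)
      linarith
    have e4 : 10 * (A2 + A1 + E + 1 / R + K + 1) * kap * L
        = 10 * (A2 + A1 + E + 1 / R + K + 1) * (kap * L) := by ring
    rw [e4]
    linarith
  · intro a ha a' ha'
    refine (be_lip h hR ha ha').2.trans ?_
    refine mul_le_mul_of_nonneg_right ?_ (norm_nonneg _)
    rw [mul_comm]
    refine mul_le_mul_of_nonneg_right ?_ hkap.le
    linarith
  · intro a ha
    obtain ⟨n0, n1, hl⟩ := log_part h hR hL hC0 ha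
    refine ⟨n0, n1, hl.trans ?_⟩
    refine mul_le_mul_of_nonneg_right (mul_le_mul_of_nonneg_right ?_ (by linarith))
      (norm_nonneg _)
    have e1 : (7 / R : ℝ) = 7 * (1 / R) := by ring
    rw [e1]
    linarith

end SF
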