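import Pool.Agent.Helper65.SF.P2
import Pool.Agent.Helper51.TwoVar

/-!
# SF-P3: the recursion for `D`

`Dm = (N_1m - N_0m)/dm`, `D = (N_1 - N_0)/(p1 - p0)`; on `ball a0 (R/2)`:
`Dm a = - sg D(be1 a) + sg KK a + O((1+L)^2) + O(e (1+L) |D|)`.

Proof in words.  (`kap = exp U`, `H_i = p_i' - P_b`, all at `(a, be_i a)`, `del = p1 - p0`.)
`T_im = T_i ∘ be_i`, `be_i' = kap/H_i`.  Pre-Schwarzian chain rule: `N_im = N_i(be_i) be_i' + be_i''/be_i'`, and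
`be_i''/be_i' = d/da log (kap(a,be_i)/H_i(a,be_i)) = U_a + U_b be_i' - (H_i)_a/H_i - (H_i)_b be_i'/H_i`,
`(H_i)_a = - P_ab = - kap U_b`, `(H_i)_b = p_i'' - P_bb`.  Hence the exact formula
`N_im = U_a + (kap/H_i) [ N_i(be_i) + 2 U_b - (p_i'' - P_bb)/H_i ]` at `(a, be_i)`.
Put `Phi_i(a,b) = (kap/H_i)[N_0(b) + 2 U_b - (p_i''(b) - P_bb)/H_i]` (N_0 in both).  Then
`N_1m - N_0m = [U_a(a,be1) - U_a(a,be0)] + (kap/H_1)(a,be1) (N_1 - N_0)(be1) + [Phi_1(a,be1) - Phi_0(a,be0)]`,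
and the last bracket is `<= C' (1+L)^2 kap0 |del(be1)|`: all functions involved are holomorphic and bounded on the balls
(Cauchy estimates on smaller balls: `|U_b|, |U_bb|, |P_bb|, |P_bbb|, |p''|, |p'''|, |N_0|, |N_0'| <= C'`),
`|del'(be1)| <= L |del(be1)|`, `|del''(be1)| <= C'(1+L)^2 |del(be1)|` (`del'/del` is holomorphic, bounded by L on
`ball b0 (R/2)`, so its derivative is `<= 4L/R` on `ball b0 (R/8)`; `del'' = ((del'/del)' + (del'/del)^2) del`),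
`|be1 - be0| <= |del(be1)|`.
Divide by `dm a = sg (be1 - be0) m`, `m` = mean of `kap` over the segment, `be1 - be0 = - del(be1)/Ht`:
second term: `D(be1) del(be1) (kap/H_1)/(- sg m del(be1)/Ht) = - sg D(be1) (kap(a,be1)/m) (Ht/H_1)
= - sg D(be1)(1 + O(e(1+L)))`; first term: `sg KK a` (as `1/sg = sg`); third: `O((1+L)^2)`.
(4): `|U_a(a,be1) - U_a(a,be0)| <= C' |be1 - be0|` and `|m| >= kap0/(2 e^C)`.
-/

namespace SF

open Metric
open Pool.Agent.Helper51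

private lemma cauchyD {f : ℂ → ℂ} {z0 z : ℂ} {ρ ρ' M : ℝ} (h : ρ' < ρ)
    (hd : DifferentiableOn ℂ f (ball z0 ρ)) (hM : ∀ w ∈ ball z0 ρ, ‖f w‖ ≤ M) (hz : z ∈ ball z0 ρ') :
    ‖deriv f z‖ ≤ M / (ρ - ρ') := by
  have hsub : closedBall z (ρ - ρ') ⊆ ball z0 ρ := by
    intro w hw
    rw [mem_closedBall] at hw
    rw [mem_ball] at hz ⊢
    have := dist_triangle w z z0
    linarith
  exact Complex.norm_deriv_le_of_forall_mem_sphere_norm_le (by linarith)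
    (hd.diffContOnCl_ball hsub) fun w hw => hM w (hsub (sphere_subset_closedBall hw))

private lemma lipD {f : ℂ → ℂ} {z0 : ℂ} {ρ M : ℝ} (hd : DifferentiableOn ℂ f (ball z0 ρ))
    (hM : ∀ w ∈ ball z0 ρ, ‖deriv f w‖ ≤ M) {x y : ℂ} (hx : x ∈ ball z0 ρ) (hy : y ∈ ball z0 ρ) :
    ‖f y - f x‖ ≤ M * ‖y - x‖ :=
  (convex_ball z0 ρ).norm_image_sub_le_of_norm_deriv_le
    (fun _ hw => hd.differentiableAt (isOpen_ball.mem_nhds hw)) hM hx hy

section one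

variable {R : ℝ} {a0 b0 : ℂ} {P U : ℂ → ℂ → ℂ} {T p Tm be : ℂ → ℂ}

private lemma be_deriv
    (dP : DifferentiableOn ℂ (fun z : ℂ × ℂ => P z.1 z.2) (ball a0 R ×ˢ ball b0 R))
    (Pa : ∀ a ∈ ball a0 R, ∀ b ∈ ball b0 R, HasDerivAt (fun a' => P a' b) (Complex.exp (U a b)) a)
    (dp : DifferentiableOn ℂ p (ball b0 R))
    (Hne : ∀ a ∈ ball a0 R, ∀ b ∈ ball b0 R, deriv p b - deriv (P a) b ≠ 0)
    (dbe : DifferentiableOn ℂ be (ball a0 R))
    (hbe : ∀ a ∈ ball a0 R, be a ∈ ball b0 R ∧ p (be a) = P a (be a)) {a : ℂ} (ha : a ∈ ball a0 R) :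
    HasDerivAt be (Complex.exp (U a (be a)) / (deriv p (be a) - deriv (P a) (be a))) a := by
  have h1 : HasDerivAt be (deriv be a) a :=
    (dbe.differentiableAt (isOpen_ball.mem_nhds ha)).hasDerivAt
  have hb := (hbe a ha).1
  have h2 := TwoVar.chain isOpen_ball isOpen_ball dP ha hb h1
  have h3 : HasDerivAt (fun x => p (be x)) (deriv p (be a) * deriv be a) a :=
    ((dp.differentiableAt (isOpen_ball.mem_nhds hb)).hasDerivAt).comp a h1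
  have h4 : (fun x => p (be x)) =ᶠ[nhds a] fun x => P x (be x) := by
    filter_upwards [isOpen_ball.mem_nhds ha] with x hx
    exact (hbe x hx).2
  have h5 := h3.unique (h2.congr_of_eventuallyEq h4)
  rw [(Pa a ha (be a) hb).deriv] at h5
  have h6 := Hne a ha (be a) hb
  have h7 : deriv be a = Complex.exp (U a (be a)) / (deriv p (be a) - deriv (P a) (be a)) := by
    rw [eq_div_iff h6]
    linear_combination h5
  rw [← h7]
  exact h1

private lemma N_formula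
    (dP : DifferentiableOn ℂ (fun z : ℂ × ℂ => P z.1 z.2) (ball a0 R ×ˢ ball b0 R))
    (dU : DifferentiableOn ℂ (fun z : ℂ × ℂ => U z.1 z.2) (ball a0 R ×ˢ ball b0 R))
    (Pa : ∀ a ∈ ball a0 R, ∀ b ∈ ball b0 R, HasDerivAt (fun a' => P a' b) (Complex.exp (U a b)) a)
    (dT : DifferentiableOn ℂ T (ball b0 R)) (dp : DifferentiableOn ℂ p (ball b0 R))
    (Tne : ∀ b ∈ ball b0 R, deriv T b ≠ 0)
    (Hne : ∀ a ∈ ball a0 R, ∀ b ∈ ball b0 R, deriv p b - deriv (P a) b ≠ 0)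
    (dbe : DifferentiableOn ℂ be (ball a0 R))
    (hbe : ∀ a ∈ ball a0 R, be a ∈ ball b0 R ∧ p (be a) = P a (be a))
    (hTm : ∀ a ∈ ball a0 R, Tm a = T (be a)) {a : ℂ} (ha : a ∈ ball a0 R) :
    NN Tm a = deriv (fun x => U x (be a)) a +
      Complex.exp (U a (be a)) / (deriv p (be a) - deriv (P a) (be a)) *
      (NN T (be a) + 2 * deriv (U a) (be a) -
        (deriv (deriv p) (be a) - deriv (deriv (P a)) (be a)) /
          (deriv p (be a) - deriv (P a) (be a))) := by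
  have hb := (hbe a ha).1
  have hder : ∀ x ∈ ball a0 R, deriv Tm x = deriv T (be x) *
      (Complex.exp (U x (be x)) / (deriv p (be x) - deriv (P x) (be x))) := by
    intro x hx
    have h1 := be_deriv dP Pa dp Hne dbe hbe hx
    have h2 : HasDerivAt (fun y => T (be y)) (deriv T (be x) *
        (Complex.exp (U x (be x)) / (deriv p (be x) - deriv (P x) (be x)))) x :=
      ((dT.differentiableAt (isOpen_ball.mem_nhds (hbe x hx).1)).hasDerivAt).comp x h1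
    have h3 : Tm =ᶠ[nhds x] fun y => T (be y) := by
      filter_upwards [isOpen_ball.mem_nhds hx] with y hy
      exact hTm y hy
    rw [h3.deriv_eq, h2.deriv]
  have hbe' := be_deriv dP Pa dp Hne dbe hbe ha
  set κ := Complex.exp (U a (be a)) with hκ
  set H := deriv p (be a) - deriv (P a) (be a) with hH
  have hH0 : H ≠ 0 := Hne a ha (be a) hb
  have hκ0 : κ ≠ 0 := Complex.exp_ne_zero _
  have hT0 : deriv T (be a) ≠ 0 := Tne _ hb
  -- derivative of `T' ∘ be`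
  have d1 : HasDerivAt (fun x => deriv T (be x)) (deriv (deriv T) (be a) * (κ / H)) a :=
    (((dT.deriv isOpen_ball).differentiableAt (isOpen_ball.mem_nhds hb)).hasDerivAt).comp a hbe'
  have d2 : HasDerivAt (fun x => Complex.exp (U x (be x)))
      (κ * (deriv (fun x => U x (be a)) a + deriv (U a) (be a) * (κ / H))) a :=
    (TwoVar.chain isOpen_ball isOpen_ball dU ha hb hbe').cexp
  have d3 : HasDerivAt (fun x => deriv p (be x)) (deriv (deriv p) (be a) * (κ / H)) a :=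
    (((dp.deriv isOpen_ball).differentiableAt (isOpen_ball.mem_nhds hb)).hasDerivAt).comp a hbe'
  have hmix : deriv (fun x => deriv (P x) (be a)) a = κ * deriv (U a) (be a) := by
    rw [(TwoVar.mixed isOpen_ball isOpen_ball dP ha hb).deriv]
    have h1 : (fun y => deriv (fun x => P x y) a) =ᶠ[nhds (be a)] fun y => Complex.exp (U a y) := by
      filter_upwards [isOpen_ball.mem_nhds hb] with y hy
      exact (Pa a ha y hy).deriv
    rw [h1.deriv_eq]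
    have h2 : HasDerivAt (U a) (deriv (U a) (be a)) (be a) :=
      ((TwoVar.diff_snd dU ha).differentiableAt (isOpen_ball.mem_nhds hb)).hasDerivAt
    exact h2.cexp.deriv
  have d4 : HasDerivAt (fun x => deriv (P x) (be x))
      (κ * deriv (U a) (be a) + deriv (deriv (P a)) (be a) * (κ / H)) a := by
    have h1 := TwoVar.chain (F := fun a b => deriv (P a) b) isOpen_ball isOpen_ball
      (TwoVar.diffOn_deriv_snd isOpen_ball isOpen_ball dP) ha hb hbe'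
    rw [hmix] at h1
    exact h1
  have d5 := d1.mul (d2.div (d3.sub d4) hH0)
  have h6 : deriv Tm =ᶠ[nhds a] fun x => deriv T (be x) *
      (Complex.exp (U x (be x)) / (deriv p (be x) - deriv (P x) (be x))) := by
    filter_upwards [isOpen_ball.mem_nhds ha] with x hx
    exact hder x hx
  have h7 : deriv (deriv Tm) a = deriv (deriv T) (be a) * (κ / H) * (κ / H) + deriv T (be a) *
      ((κ * (deriv (fun x => U x (be a)) a + deriv (U a) (be a) * (κ / H)) * H -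
        κ * (deriv (deriv p) (be a) * (κ / H) -
          (κ * deriv (U a) (be a) + deriv (deriv (P a)) (be a) * (κ / H)))) / H ^ 2) :=
    (h6.deriv_eq).trans d5.deriv
  unfold NN
  rw [h7, hder a ha]
  simp only [← hκ, ← hH]
  field_simp
  ring

end one

private lemma cauchyC {f : ℂ → ℂ} {z0 z c : ℂ} {ρ ρ' M : ℝ} (h : ρ' < ρ)
    (hd : DifferentiableOn ℂ f (ball z0 ρ)) (hM : ∀ w ∈ ball z0 ρ, ‖f w - c‖ ≤ M)
    (hz : z ∈ ball z0 ρ') : ‖deriv f z‖ ≤ M / (ρ - ρ') := by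
  have h1 := cauchyD h (hd.sub_const c) hM hz
  rwa [deriv_sub_const] at h1

private lemma H_bound {z : ℂ} (h : ‖z - 5 / 2‖ ≤ 3 / 5) : 19 / 10 ≤ ‖z‖ ∧ ‖z‖ ≤ 31 / 10 := by
  have h1 : ‖(5 / 2 : ℂ)‖ = 5 / 2 := by norm_num
  have h2 := norm_sub_norm_le (5 / 2 : ℂ) (5 / 2 - z)
  have h3 : (5 / 2 : ℂ) - (5 / 2 - z) = z := by ring
  have h4 : ‖(5 / 2 : ℂ) - z‖ = ‖z - 5 / 2‖ := norm_sub_rev _ _
  have h5 := norm_add_le (z - 5 / 2) (5 / 2 : ℂ)
  have h6 : z - 5 / 2 + 5 / 2 = z := by ring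
  rw [h3, h1, h4] at h2
  rw [h6, h1] at h5
  constructor <;> linarith

private lemma inv_le_of {z : ℂ} (h : 19 / 10 ≤ ‖z‖) : ‖z⁻¹‖ ≤ 10 / 19 := by
  rw [norm_inv, inv_le_comm₀ (by linarith) (by norm_num)]
  norm_num
  linarith

private lemma phi_bound {κ N V w H : ℂ} {K r C : ℝ} (hK : 0 ≤ K) (hr : 0 ≤ r) (hC : 1 ≤ C) (h1 : ‖κ‖ ≤ K)
    (h2 : ‖N‖ ≤ 2 * r) (h3 : ‖V‖ ≤ 2 * C * r) (h4 : ‖w‖ ≤ 6 / 5 * r) (h5 : 19 / 10 ≤ ‖H‖) :
    ‖κ / H * (N + 2 * V - w / H)‖ ≤ 4 * C * r * K := by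
  have hy := inv_le_of h5
  rw [div_eq_mul_inv, div_eq_mul_inv, norm_mul, norm_mul]
  have a1 : ‖N + 2 * V - w * H⁻¹‖ ≤ 7 * C * r := by
    have b1 := norm_sub_le (N + 2 * V) (w * H⁻¹)
    have b2 := norm_add_le N (2 * V)
    have b3 : ‖2 * V‖ = 2 * ‖V‖ := by rw [norm_mul]; norm_num
    have b4 : ‖w * H⁻¹‖ ≤ 6 / 5 * r * (10 / 19) := by
      rw [norm_mul]
      exact mul_le_mul h4 hy (norm_nonneg _) (by positivity)
    nlinarith [mul_nonneg hr (by linarith : 0 ≤ C - 1)]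
  have a2 : ‖κ‖ * ‖H⁻¹‖ ≤ K * (10 / 19) := mul_le_mul h1 hy (norm_nonneg _) hK
  have hCr : 0 ≤ C * r := mul_nonneg (by linarith) hr
  calc ‖κ‖ * ‖H⁻¹‖ * ‖N + 2 * V - w * H⁻¹‖ ≤ K * (10 / 19) * (7 * C * r) :=
        mul_le_mul a2 a1 (norm_nonneg _) (by positivity)
    _ ≤ 4 * C * r * K := by nlinarith [mul_nonneg hCr hK]

private lemma phi_diff {κ N V w0 w1 H0 H1 : ℂ} {K r C L d : ℝ} (hK : 0 ≤ K) (hr : 0 ≤ r) (hC : 1 ≤ C)
    (hL : 0 ≤ L) (hd : 0 ≤ d) (h1 : ‖κ‖ ≤ K)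
    (h2 : ‖N‖ ≤ 2 * r) (h3 : ‖V‖ ≤ 2 * C * r) (h4 : ‖w0‖ ≤ 6 / 5 * r)
    (hw : ‖w1 - w0‖ ≤ 3 * r * (1 + L) ^ 2 * d) (hH : ‖H1 - H0‖ ≤ L * d)
    (h5 : 19 / 10 ≤ ‖H0‖) (h6 : 19 / 10 ≤ ‖H1‖) :
    ‖κ / H1 * (N + 2 * V - w1 / H1) - κ / H0 * (N + 2 * V - w0 / H0)‖ ≤
      3 * C * r * K * (1 + L) ^ 2 * d := by
  have hy0 := inv_le_of h5
  have hy1 := inv_le_of h6
  have hH0 : H0 ≠ 0 := by intro h; rw [h] at h5; norm_num at h5
  have hH1 : H1 ≠ 0 := by intro h; rw [h] at h6; norm_num at h6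
  have hdiff : H1⁻¹ - H0⁻¹ = -(H1 - H0) * (H0⁻¹ * H1⁻¹) := by field_simp; ring
  have e1 : ‖H1⁻¹ - H0⁻¹‖ ≤ L * d * (100 / 361) := by
    rw [hdiff, norm_mul, norm_neg, norm_mul]
    have : ‖H0⁻¹‖ * ‖H1⁻¹‖ ≤ 10 / 19 * (10 / 19) :=
      mul_le_mul hy0 hy1 (norm_nonneg _) (by norm_num)
    calc ‖H1 - H0‖ * (‖H0⁻¹‖ * ‖H1⁻¹‖) ≤ L * d * (10 / 19 * (10 / 19)) :=
          mul_le_mul hH this (by positivity) (by positivity)
      _ = L * d * (100 / 361) := by ring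
  have hid : κ / H1 * (N + 2 * V - w1 / H1) - κ / H0 * (N + 2 * V - w0 / H0) =
      κ * ((N + 2 * V) * (H1⁻¹ - H0⁻¹) - (w1 - w0) * (H1⁻¹ * H1⁻¹) -
        w0 * ((H1⁻¹ - H0⁻¹) * (H1⁻¹ + H0⁻¹))) := by
    simp only [div_eq_mul_inv]; ring
  rw [hid, norm_mul]
  have f1 : ‖(N + 2 * V) * (H1⁻¹ - H0⁻¹)‖ ≤ 6 * C * r * (L * d * (100 / 361)) := by
    rw [norm_mul]
    have b2 := norm_add_le N (2 * V)
    have b3 : ‖2 * V‖ = 2 * ‖V‖ := by rw [norm_mul]; norm_num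
    have b4 : ‖N + 2 * V‖ ≤ 6 * C * r := by nlinarith [mul_nonneg hr (by linarith : 0 ≤ C - 1)]
    exact mul_le_mul b4 e1 (norm_nonneg _) (by positivity)
  have f2 : ‖(w1 - w0) * (H1⁻¹ * H1⁻¹)‖ ≤ 3 * r * (1 + L) ^ 2 * d * (100 / 361) := by
    rw [norm_mul, norm_mul]
    have : ‖H1⁻¹‖ * ‖H1⁻¹‖ ≤ 10 / 19 * (10 / 19) :=
      mul_le_mul hy1 hy1 (norm_nonneg _) (by norm_num)
    calc ‖w1 - w0‖ * (‖H1⁻¹‖ * ‖H1⁻¹‖) ≤ 3 * r * (1 + L) ^ 2 * d * (10 / 19 * (10 / 19)) :=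
          mul_le_mul hw this (by positivity) (by positivity)
      _ = 3 * r * (1 + L) ^ 2 * d * (100 / 361) := by ring
  have f3 : ‖w0 * ((H1⁻¹ - H0⁻¹) * (H1⁻¹ + H0⁻¹))‖ ≤ 6 / 5 * r * (L * d * (100 / 361) * (20 / 19)) := by
    rw [norm_mul, norm_mul]
    have b1 : ‖H1⁻¹ + H0⁻¹‖ ≤ 20 / 19 := by
      have := norm_add_le H1⁻¹ H0⁻¹
      linarith
    have b2 : ‖H1⁻¹ - H0⁻¹‖ * ‖H1⁻¹ + H0⁻¹‖ ≤ L * d * (100 / 361) * (20 / 19) :=
      mul_le_mul e1 b1 (norm_nonneg _) (by positivity)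
    exact mul_le_mul h4 b2 (by positivity) (by positivity)
  have g1 := norm_sub_le ((N + 2 * V) * (H1⁻¹ - H0⁻¹) - (w1 - w0) * (H1⁻¹ * H1⁻¹))
    (w0 * ((H1⁻¹ - H0⁻¹) * (H1⁻¹ + H0⁻¹)))
  have g2 := norm_sub_le ((N + 2 * V) * (H1⁻¹ - H0⁻¹)) ((w1 - w0) * (H1⁻¹ * H1⁻¹))
  have hrd : 0 ≤ r * d := mul_nonneg hr hd
  have hCrd : r * d ≤ C * (r * d) := by nlinarith
  have hLL : L ≤ (1 + L) ^ 2 := by nlinarith
  have hCrd0 : 0 ≤ C * (r * d) := by nlinarith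
  have s1 : C * (r * d) * L ≤ C * (r * d) * (1 + L) ^ 2 := mul_le_mul_of_nonneg_left hLL hCrd0
  have s2 : r * d * (1 + L) ^ 2 ≤ C * (r * d) * (1 + L) ^ 2 :=
    mul_le_mul_of_nonneg_right hCrd (by positivity)
  have s3 : r * d * L ≤ C * (r * d) * (1 + L) ^ 2 :=
    (mul_le_mul_of_nonneg_right hCrd hL).trans s1
  have g3 : ‖(N + 2 * V) * (H1⁻¹ - H0⁻¹) - (w1 - w0) * (H1⁻¹ * H1⁻¹) -
      w0 * ((H1⁻¹ - H0⁻¹) * (H1⁻¹ + H0⁻¹))‖ ≤ 3 * (C * (r * d) * (1 + L) ^ 2) := by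
    nlinarith
  calc ‖κ‖ * ‖(N + 2 * V) * (H1⁻¹ - H0⁻¹) - (w1 - w0) * (H1⁻¹ * H1⁻¹) -
        w0 * ((H1⁻¹ - H0⁻¹) * (H1⁻¹ + H0⁻¹))‖ ≤ K * (3 * (C * (r * d) * (1 + L) ^ 2)) :=
        mul_le_mul h1 g3 (norm_nonneg _) hK
    _ = 3 * C * r * K * (1 + L) ^ 2 * d := by ring

private lemma assemble {N1m N0m dm sg Δ m δ κ H1 u' dN Ψ : ℂ} (hsg : sg = 1 ∨ sg = -1)
    (hdm : dm = sg * Δ * m) (hΔ : Δ ≠ 0) (hm : m ≠ 0) (hH1 : H1 ≠ 0) (hδ : δ ≠ 0)
    (hN : N1m - N0m = u' + κ / H1 * dN + Ψ) :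
    (N1m - N0m) / dm + sg * (dN / δ) - sg * (u' / (Δ * m)) =
      sg * (dN / δ) * ((H1 - -δ / Δ) / H1 + -δ / Δ * (m - κ) / (H1 * m)) + Ψ / dm := by
  rw [hN, hdm]
  rcases hsg with rfl | rfl
  · field_simp
    ring
  · field_simp
    ring

private lemma factor_bound {H1 Ht m κ Δ : ℂ} {L r d E0 K c : ℝ} (hL : 0 ≤ L) (hr : 1 ≤ r) (hd : 0 ≤ d)
    (hE0 : 0 < E0) (hK : 1 ≤ K) (hc : 1 ≤ c) (hH1 : 19 / 10 ≤ ‖H1‖)
    (h1 : ‖H1 - Ht‖ ≤ L * d + 6 / 5 * r * ‖Δ‖) (hHt : ‖Ht‖ ≤ 31 / 10)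
    (h2 : ‖m - κ‖ ≤ 2 * r * (E0 * K) * ‖Δ‖) (hm : 19 / 10 * E0 ≤ c * ‖m‖)
    (hΔ : 19 / 10 * ‖Δ‖ ≤ d) :
    ‖(H1 - Ht) / H1 + Ht * (m - κ) / (H1 * m)‖ ≤ 2 * r * K * c * (1 + L) * d := by
  have hmpos : 0 < ‖m‖ := by
    by_contra h
    have h3 : ‖m‖ = 0 := le_antisymm (not_lt.1 h) (norm_nonneg _)
    rw [h3] at hm
    linarith
  have hy := inv_le_of hH1
  have hminv : ‖m⁻¹‖ ≤ 10 / 19 * c / E0 := by
    rw [norm_inv, le_div_iff₀ hE0, inv_mul_le_iff₀ hmpos]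
    linarith
  have hΔ' : ‖Δ‖ ≤ 10 / 19 * d := by linarith
  have b1 : ‖(H1 - Ht) / H1‖ ≤ (L * d + 6 / 5 * r * (10 / 19 * d)) * (10 / 19) := by
    rw [div_eq_mul_inv, norm_mul]
    refine mul_le_mul (h1.trans ?_) hy (norm_nonneg _) (by positivity)
    have : 6 / 5 * r * ‖Δ‖ ≤ 6 / 5 * r * (10 / 19 * d) := by gcongr
    linarith
  have b2 : ‖Ht * (m - κ) / (H1 * m)‖ ≤
      31 / 10 * (2 * r * (E0 * K) * (10 / 19 * d)) * (10 / 19 * (10 / 19 * c / E0)) := by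
    rw [div_eq_mul_inv, mul_inv, norm_mul, norm_mul, norm_mul]
    refine mul_le_mul (mul_le_mul hHt (h2.trans ?_) (norm_nonneg _) (by norm_num))
      (mul_le_mul hy hminv (norm_nonneg _) (by norm_num)) (by positivity) (by positivity)
    gcongr
  have b3 : 31 / 10 * (2 * r * (E0 * K) * (10 / 19 * d)) * (10 / 19 * (10 / 19 * c / E0)) =
      6200 / 6859 * (r * K * c * d) := by
    field_simp
    ring
  rw [b3] at b2
  have b4 := norm_add_le ((H1 - Ht) / H1) (Ht * (m - κ) / (H1 * m))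
  have hrK : r ≤ r * K * c := by
    have : 1 ≤ K * c := by nlinarith
    nlinarith
  have c1 : r * d ≤ r * K * c * d := mul_le_mul_of_nonneg_right hrK hd
  have c2 : L * d ≤ r * K * c * d * L := by
    have : L * d ≤ r * (L * d) := by nlinarith [mul_nonneg hL hd]
    have h3 : r * d * L ≤ r * K * c * d * L := mul_le_mul_of_nonneg_right c1 hL
    nlinarith
  have c3 : 0 ≤ r * K * c * d := by positivity
  have c4 : 0 ≤ r * K * c * d * L := by positivity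
  nlinarith

private lemma ar1 {C r K c : ℝ} (hC : 1 ≤ C) (hr : 1 ≤ r) (hK : 1 ≤ K) (hc : 1 ≤ c) :
    1 ≤ 14 * C * r ^ 2 * K * c := by
  have h1 : 1 ≤ r ^ 2 := one_le_pow₀ hr
  have h2 : 1 ≤ C * r ^ 2 := by nlinarith
  have h3 : 1 ≤ C * r ^ 2 * K := by nlinarith
  have h4 : 1 ≤ C * r ^ 2 * K * c := by nlinarith
  nlinarith

private lemma ar2 {x y : ℝ} (hx : 0 ≤ x) (hy : 1 ≤ y) : x ≤ x * y := le_mul_of_one_le_right hx hy

private lemma ar3 {u x y : ℝ} (h1 : u ≤ 40 / 19 * x) (h2 : x ≤ y) (h0 : 0 ≤ x) : u ≤ 14 * y := by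
  linarith

private lemma ar4 {x y r L d : ℝ} (h1 : x ≤ 8 / 3 * L * r * d) (h2 : y ≤ L * (L * d)) (hr : 1 ≤ r)
    (hL : 0 ≤ L) (hd : 0 ≤ d) : x + y ≤ 3 * r * (1 + L) ^ 2 * d := by
  have h14 : L * (L * d) ≤ r * (L ^ 2 * d) := by
    have : 0 ≤ L ^ 2 * d := by positivity
    nlinarith
  have h15 : 0 ≤ r * d := by positivity
  have h16 : 0 ≤ r * d * L := by positivity
  have h17 : 0 ≤ r * d * L ^ 2 := by positivity
  nlinarith

private lemma ar5 {x y C r E L d Δ : ℝ} (h1 : x ≤ 3 * C * r * E * (1 + L) ^ 2 * d)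
    (h2 : y ≤ 8 / 3 * (4 * C * r * E) * r * Δ) (hC : 0 ≤ C) (hr : 1 ≤ r) (hE : 0 ≤ E) (hL : 0 ≤ L)
    (hd : 0 ≤ d) (hΔ : 19 / 10 * Δ ≤ d) : x + y ≤ 9 * C * r ^ 2 * E * (1 + L) ^ 2 * d := by
  have h4 : 0 ≤ C * r ^ 2 * E := by positivity
  have h5 : 8 / 3 * (4 * C * r * E) * r * Δ ≤ 6 * (C * r ^ 2 * E) * d := by
    have h6 : Δ ≤ 10 / 19 * d := by linarith
    calc 8 / 3 * (4 * C * r * E) * r * Δ = 32 / 3 * (C * r ^ 2 * E) * Δ := by ring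
      _ ≤ 32 / 3 * (C * r ^ 2 * E) * (10 / 19 * d) := mul_le_mul_of_nonneg_left h6 (by positivity)
      _ ≤ 6 * (C * r ^ 2 * E) * d := by nlinarith [mul_nonneg h4 hd]
  have h7 : C * r * E ≤ C * r ^ 2 * E := by
    have : 0 ≤ C * r * E := by positivity
    nlinarith
  have h8 : 3 * C * r * E * (1 + L) ^ 2 * d ≤ 3 * (C * r ^ 2 * E) * ((1 + L) ^ 2 * d) := by
    have h9 : 0 ≤ (1 + L) ^ 2 * d := by positivity
    nlinarith [mul_le_mul_of_nonneg_right h7 h9]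
  have h10 : d ≤ (1 + L) ^ 2 * d := by
    have : 1 ≤ (1 + L) ^ 2 := by nlinarith
    nlinarith
  have h11 : 6 * (C * r ^ 2 * E) * d ≤ 6 * (C * r ^ 2 * E) * ((1 + L) ^ 2 * d) :=
    mul_le_mul_of_nonneg_left h10 (by positivity)
  linarith

private lemma ar6 {D C r K c L e : ℝ} (hC : 1 ≤ C) (hr : 1 ≤ r) (hK : 0 ≤ K) (hc : 0 ≤ c)
    (hL : 0 ≤ L) (he : 0 ≤ e) (hD : 0 ≤ D) :
    D * (2 * r * K * c * (1 + L) * e) ≤ 14 * C * r ^ 2 * K * c * e * (1 + L) * D := by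
  have h1 : r ≤ C * r ^ 2 := by nlinarith
  have h2 : 0 ≤ D * (K * c * (1 + L) * e) := by positivity
  nlinarith [mul_le_mul_of_nonneg_right h1 h2]

private lemma ar7 {C r K c L : ℝ} (hC : 0 ≤ C) (hK : 0 ≤ K) (hc : 0 ≤ c) :
    9 * C * r ^ 2 * K * c * (1 + L) ^ 2 ≤ 14 * C * r ^ 2 * K * c * (1 + L) ^ 2 := by
  have : 0 ≤ C * r ^ 2 * K * c * (1 + L) ^ 2 := by positivity
  linarith

theorem pair_second (R C : ℝ) (hR : 0 < R) (hR1 : R ≤ 1) (hC : 1 ≤ C) :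
    ∃ C1 k0 e0 : ℝ, 1 ≤ C1 ∧ 0 < k0 ∧ 0 < e0 ∧ ∀ (L e : ℝ) (a0 b0 sg : ℂ) (P U : ℂ → ℂ → ℂ)
      (T0 T1 p0 p1 T0m T1m be0 be1 dm p0m p1m : ℂ → ℂ), 0 ≤ L →
      PairHyp R C L e a0 b0 sg P U T0 T1 p0 p1 T0m T1m be0 be1 dm → e ≤ e0 →
      ‖Complex.exp (U a0 b0)‖ ≤ k0 → (∀ a ∈ ball a0 R, p1m a - p0m a = dm a) →
      ∀ a ∈ ball a0 (R / 2),
        ‖DD T0m T1m p0m p1m a + sg * DD T0 T1 p0 p1 (be1 a) - sg * KK U be0 be1 a‖
          ≤ C1 * (1 + L) ^ 2 + C1 * e * (1 + L) * ‖DD T0 T1 p0 p1 (be1 a)‖ ∧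
        ‖KK U be0 be1 a‖ * ‖Complex.exp (U a0 b0)‖ ≤ C1 := by
  obtain ⟨c, k0, e0, hc, hk0, he0, HP⟩ := pair_first R C hR hR1 hC
  obtain ⟨K, hKdef⟩ : ∃ K, K = Real.exp C := ⟨_, rfl⟩
  have hK : 1 ≤ K := by rw [hKdef]; exact Real.one_le_exp (by linarith)
  obtain ⟨r, hrdef⟩ : ∃ r, r = 1 / R := ⟨_, rfl⟩
  have hr1 : 1 ≤ r := by rw [hrdef, le_div_iff₀ hR]; linarith
  have hrR : r * R = 1 := by rw [hrdef]; field_simp
  have hhalf : ∀ M : ℝ, M / (R - R / 2) = 2 * M * r := by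
    intro M; rw [hrdef]; field_simp; ring
  have h38 : ∀ M : ℝ, M / (R / 2 - R / 8) = 8 / 3 * M * r := by
    intro M; rw [hrdef]; field_simp; ring
  refine ⟨14 * C * r ^ 2 * K * c, k0, e0, ?_, hk0, he0, ?_⟩
  · exact ar1 hC hr1 hK hc
  intro L e a0 b0 sg P U T0 T1 p0 p1 T0m T1m be0 be1 dm p0m p1m hL hyp he hk hdm a ha
  obtain ⟨F1, -, -, -⟩ := HP L e a0 b0 sg P U T0 T1 p0 p1 T0m T1m be0 be1 dm hL hyp he hk
  have haR : a ∈ ball a0 R := ball_subset_ball (by linarith) ha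
  obtain ⟨hdm0, hbne, -, hdmlow⟩ := F1 a haR
  obtain ⟨hB0, hB1, hP0, hP1⟩ := hyp.be a haR
  have hs8 : ball b0 (R / 8) ⊆ ball b0 (R / 2) := ball_subset_ball (by linarith)
  have hs2 : ball b0 (R / 2) ⊆ ball b0 R := ball_subset_ball (by linarith)
  have hB0R := hs2 (hs8 hB0)
  have hB1R := hs2 (hs8 hB1)
  obtain ⟨E0, hE0def⟩ : ∃ E, E = ‖Complex.exp (U a0 b0)‖ := ⟨_, rfl⟩
  have hE0 : 0 < E0 := by rw [hE0def]; exact norm_pos_iff.2 (Complex.exp_ne_zero _)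
  rw [← hE0def] at hdmlow ⊢
  -- elementary bounds
  have hH0 : ∀ x ∈ ball a0 R, ∀ b ∈ ball b0 R, ‖(deriv p0 b - deriv (P x) b) - 5 / 2‖ ≤ 3 / 5 := by
    intro x hx b hb
    have h1 := (hyp.slope b hb).1
    have h2 : ‖deriv (P x) b + 7 / 4‖ ≤ 3 / 10 := hyp.Pb x hx b hb
    have h3 : deriv p0 b - deriv (P x) b - 5 / 2 = (deriv p0 b - 3 / 4) - (deriv (P x) b + 7 / 4) := by
      ring
    rw [h3]
    exact (norm_sub_le _ _).trans (by linarith)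
  have hH1 : ∀ x ∈ ball a0 R, ∀ b ∈ ball b0 R, ‖(deriv p1 b - deriv (P x) b) - 5 / 2‖ ≤ 3 / 5 := by
    intro x hx b hb
    have h1 := (hyp.slope b hb).2
    have h2 : ‖deriv (P x) b + 7 / 4‖ ≤ 3 / 10 := hyp.Pb x hx b hb
    have h3 : deriv p1 b - deriv (P x) b - 5 / 2 = (deriv p1 b - 3 / 4) - (deriv (P x) b + 7 / 4) := by
      ring
    rw [h3]
    exact (norm_sub_le _ _).trans (by linarith)
  have hne0 : ∀ x ∈ ball a0 R, ∀ b ∈ ball b0 R, deriv p0 b - deriv (P x) b ≠ 0 := by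
    intro x hx b hb h
    have := (H_bound (hH0 x hx b hb)).1
    rw [h, norm_zero] at this
    linarith
  have hne1 : ∀ x ∈ ball a0 R, ∀ b ∈ ball b0 R, deriv p1 b - deriv (P x) b ≠ 0 := by
    intro x hx b hb h
    have := (H_bound (hH1 x hx b hb)).1
    rw [h, norm_zero] at this
    linarith
  have hexp : ∀ x ∈ ball a0 R, ∀ b ∈ ball b0 R, ‖Complex.exp (U x b)‖ ≤ E0 * K := by
    intro x hx b hb
    rw [hE0def, hKdef, Complex.norm_exp, Complex.norm_exp, ← Real.exp_add, Real.exp_le_exp]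
    have h1 := hyp.Ub x hx b hb
    have h2 := (Complex.abs_re_le_norm (U x b - U a0 b0)).trans h1
    rw [Complex.sub_re] at h2
    have h3 := (abs_le.1 h2).2
    linarith
  have hUb : ∀ x ∈ ball a0 R, ∀ b ∈ ball b0 (R / 2), ‖deriv (U x) b‖ ≤ 2 * C * r := by
    intro x hx b hb
    have h1 := cauchyC (ρ' := R / 2) (by linarith) (TwoVar.diff_snd hyp.dU hx)
      (fun w hw => hyp.Ub x hx w hw) hb
    rwa [hhalf] at h1
  have hNN : ∀ b ∈ ball b0 (R / 2), ‖NN T0 b‖ ≤ 2 * r := by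
    intro b hb
    have ht0 : 0 < ‖deriv T0 b0‖ :=
      norm_pos_iff.2 (hyp.Tne b0 (mem_ball_self hR)).1
    have h0 : ∀ w ∈ ball b0 R, ‖deriv T0 w - deriv T0 b0‖ ≤ 1 / 2 * ‖deriv T0 b0‖ := by
      intro w hw
      have h1 := (hyp.Trat w hw).1
      have h2 : deriv T0 w - deriv T0 b0 = (deriv T0 w / deriv T0 b0 - 1) * deriv T0 b0 := by
        have := norm_pos_iff.1 ht0
        field_simp
      rw [h2, norm_mul]
      exact mul_le_mul_of_nonneg_right h1 ht0.le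
    have h1 := cauchyC (ρ' := R / 2) (by linarith) (hyp.dT0.deriv isOpen_ball) h0 hb
    rw [hhalf] at h1
    have h2 : 1 / 2 * ‖deriv T0 b0‖ ≤ ‖deriv T0 b‖ := by
      have h3 := h0 b (hs2 hb)
      have h4 := norm_sub_norm_le (deriv T0 b0) (deriv T0 b)
      rw [norm_sub_rev] at h4
      linarith
    unfold NN
    rw [norm_div, div_le_iff₀ (by linarith)]
    calc ‖deriv (deriv T0) b‖ ≤ 2 * (1 / 2 * ‖deriv T0 b0‖) * r := h1
      _ = 2 * r * (1 / 2 * ‖deriv T0 b0‖) := by ring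
      _ ≤ 2 * r * ‖deriv T0 b‖ := mul_le_mul_of_nonneg_left h2 (by linarith)
  have hw0 : ∀ b ∈ ball b0 (R / 2),
      ‖deriv (deriv p0) b - deriv (deriv (P a)) b‖ ≤ 6 / 5 * r := by
    intro b hb
    have hd1 : DifferentiableOn ℂ (deriv p0) (ball b0 R) := hyp.dp0.deriv isOpen_ball
    have hd2 : DifferentiableOn ℂ (deriv (P a)) (ball b0 R) :=
      (TwoVar.diff_snd hyp.dP haR).deriv isOpen_ball
    have h1 := cauchyC (ρ' := R / 2) (by linarith) (hd1.sub hd2) (fun w hw => hH0 a haR w hw) hb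
    rw [hhalf] at h1
    have h2 : deriv (fun w => deriv p0 w - deriv (P a) w) b =
        deriv (deriv p0) b - deriv (deriv (P a)) b :=
      deriv_fun_sub (hd1.differentiableAt (isOpen_ball.mem_nhds (hs2 hb)))
        (hd2.differentiableAt (isOpen_ball.mem_nhds (hs2 hb)))
    have h3 : ‖deriv (fun w => deriv p0 w - deriv (P a) w) b‖ ≤ 2 * (3 / 5) * r := h1
    rw [h2] at h3
    linarith
  obtain ⟨B0, hB0def⟩ : ∃ z, z = be0 a := ⟨_, rfl⟩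
  obtain ⟨B1, hB1def⟩ : ∃ z, z = be1 a := ⟨_, rfl⟩
  have hbe0 : ∀ x ∈ ball a0 R, be0 x ∈ ball b0 R ∧ p0 (be0 x) = P x (be0 x) := fun x hx =>
    ⟨hs2 (hs8 (hyp.be x hx).1), (hyp.be x hx).2.2.1⟩
  have hbe1 : ∀ x ∈ ball a0 R, be1 x ∈ ball b0 R ∧ p1 (be1 x) = P x (be1 x) := fun x hx =>
    ⟨hs2 (hs8 (hyp.be x hx).2.1), (hyp.be x hx).2.2.2⟩
  have hN0 := N_formula hyp.dP hyp.dU hyp.Pa hyp.dT0 hyp.dp0 (fun b hb => (hyp.Tne b hb).1) hne0
    hyp.dbe0 hbe0 (fun x hx => (hyp.Tm x hx).1) haR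
  have hN1 := N_formula hyp.dP hyp.dU hyp.Pa hyp.dT1 hyp.dp1 (fun b hb => (hyp.Tne b hb).2) hne1
    hyp.dbe1 hbe1 (fun x hx => (hyp.Tm x hx).2) haR
  have hdmeq := hyp.hdm a haR
  rw [← hB0def] at hB0 hB0R hP0 hN0 hdmeq hbne
  rw [← hB1def] at hB1 hB1R hP1 hN1 hdmeq hbne hdmlow
  unfold DD KK
  rw [hdm a haR, ← hB0def, ← hB1def]
  obtain ⟨m, hmdef⟩ : ∃ z, z = ∫ t in (0:ℝ)..1, Complex.exp (U a (B0 + t * (B1 - B0))) := ⟨_, rfl⟩
  rw [← hmdef] at hdmeq ⊢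
  obtain ⟨Δ, hΔdef⟩ : ∃ z, z = B1 - B0 := ⟨_, rfl⟩
  have hΔ0 : Δ ≠ 0 := by rw [hΔdef]; exact sub_ne_zero.2 hbne
  obtain ⟨δ, hδdef⟩ : ∃ z, z = p1 B1 - p0 B1 := ⟨_, rfl⟩
  have hδ0 : δ ≠ 0 := by rw [hδdef]; exact (hyp.del B1 hB1R).1
  have hδe : ‖δ‖ ≤ e := by rw [hδdef]; exact (hyp.del B1 hB1R).2
  have hd0 : 0 < ‖δ‖ := norm_pos_iff.2 hδ0
  rw [← hδdef] at hdmlow ⊢
  rw [← hΔdef] at hdmeq ⊢
  have hsgn : ‖sg‖ = 1 := by rcases hyp.hsg with h | h <;> rw [h] <;> simp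
  -- the function `g`
  have hgd : ∀ b ∈ ball b0 R, HasDerivAt (fun b => p0 b - P a b) (deriv p0 b - deriv (P a) b) b := by
    intro b hb
    exact ((hyp.dp0.differentiableAt (isOpen_ball.mem_nhds hb)).hasDerivAt).sub
      (((TwoVar.diff_snd hyp.dP haR).differentiableAt (isOpen_ball.mem_nhds hb)).hasDerivAt)
  have hg0 : p0 B0 - P a B0 = 0 := by rw [hP0, sub_self]
  have hg1 : p0 B1 - P a B1 = -δ := by rw [hδdef, ← hP1]; ring
  have hmv : ∀ (q : ℂ) (M : ℝ) (S : Set ℂ), Convex ℝ S → S ⊆ ball b0 R → B0 ∈ S → B1 ∈ S →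
      (∀ b ∈ S, ‖(deriv p0 b - deriv (P a) b) - q‖ ≤ M) → ‖-δ - q * Δ‖ ≤ M * ‖Δ‖ := by
    intro q M S hS hSR h0 h1 hM
    have h2 := hS.norm_image_sub_le_of_norm_hasDerivWithin_le
      (f := fun b => (p0 b - P a b) - q * b)
      (f' := fun b => (deriv p0 b - deriv (P a) b) - q * 1) (C := M) (x := B0) (y := B1)
      (fun b hb => ((hgd b (hSR hb)).sub ((hasDerivAt_id b).const_mul q)).hasDerivWithinAt)
      (fun b hb => by rw [mul_one]; exact hM b hb) h0 h1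
    simp only [hg0, hg1] at h2
    have h3 : -δ - q * B1 - (0 - q * B0) = -δ - q * Δ := by rw [hΔdef]; ring
    rw [h3, ← hΔdef] at h2
    exact h2
  have hmv1 := hmv (5 / 2) (3 / 5) (ball b0 R) (convex_ball _ _) subset_rfl hB0R hB1R
    (fun b hb => hH0 a haR b hb)
  have hΔpos : 0 < ‖Δ‖ := norm_pos_iff.2 hΔ0
  have hHt1 : ‖-δ / Δ - 5 / 2‖ ≤ 3 / 5 := by
    have h1 : -δ / Δ - 5 / 2 = (-δ - 5 / 2 * Δ) / Δ := by field_simp
    rw [h1, norm_div, div_le_iff₀ hΔpos]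
    exact hmv1
  have hHt := H_bound hHt1
  have hΔδ : 19 / 10 * ‖Δ‖ ≤ ‖δ‖ := by
    have h1 := hHt.1
    rw [norm_div, norm_neg, le_div_iff₀ hΔpos] at h1
    exact h1
  have hlipH : ∀ b ∈ ball b0 (R / 2), ‖(deriv p0 b - deriv (P a) b) -
      (deriv p0 B1 - deriv (P a) B1)‖ ≤ 6 / 5 * r * ‖b - B1‖ := by
    intro b hb
    have hd1 : DifferentiableOn ℂ (deriv p0) (ball b0 R) := hyp.dp0.deriv isOpen_ball
    have hd2 : DifferentiableOn ℂ (deriv (P a)) (ball b0 R) :=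
      (TwoVar.diff_snd hyp.dP haR).deriv isOpen_ball
    refine lipD (f := fun w => deriv p0 w - deriv (P a) w) (z0 := b0) (ρ := R / 2)
      ((hd1.sub hd2).mono hs2) ?_ (hs8 hB1) hb
    intro w hw
    have h2 : deriv (fun w => deriv p0 w - deriv (P a) w) w =
        deriv (deriv p0) w - deriv (deriv (P a)) w :=
      deriv_fun_sub (hd1.differentiableAt (isOpen_ball.mem_nhds (hs2 hw)))
        (hd2.differentiableAt (isOpen_ball.mem_nhds (hs2 hw)))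
    rw [h2]
    exact hw0 w hw
  have hmv2 := hmv (deriv p0 B1 - deriv (P a) B1) (6 / 5 * r * ‖Δ‖)
    (ball b0 (R / 2) ∩ closedBall B1 ‖Δ‖) ((convex_ball _ _).inter (convex_closedBall _ _))
    (Set.inter_subset_left.trans hs2)
    ⟨hs8 hB0, by rw [mem_closedBall, dist_eq_norm, norm_sub_rev, hΔdef]⟩
    ⟨hs8 hB1, mem_closedBall_self (norm_nonneg _)⟩ (fun b hb => by
      refine (hlipH b hb.1).trans ?_
      have h1 := hb.2
      rw [mem_closedBall, dist_eq_norm] at h1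
      exact mul_le_mul_of_nonneg_left h1 (by positivity))
  have hH1Ht : ‖(deriv p1 B1 - deriv (P a) B1) - -δ / Δ‖ ≤ L * ‖δ‖ + 6 / 5 * r * ‖Δ‖ := by
    have h1 : (deriv p1 B1 - deriv (P a) B1) - -δ / Δ = (deriv p1 B1 - deriv p0 B1) -
        (-δ - (deriv p0 B1 - deriv (P a) B1) * Δ) / Δ := by field_simp; ring
    have h2 : ‖(-δ - (deriv p0 B1 - deriv (P a) B1) * Δ) / Δ‖ ≤ 6 / 5 * r * ‖Δ‖ := by
      rw [norm_div, div_le_iff₀ hΔpos]
      exact hmv2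
    have h3 := hyp.ratio B1 (hs8 hB1)
    rw [← hδdef] at h3
    rw [h1]
    exact (norm_sub_le _ _).trans (add_le_add h3 h2)
  -- the mean of the exponential
  have hlipκ : ∀ b ∈ ball b0 (R / 2), ‖Complex.exp (U a b) - Complex.exp (U a B1)‖ ≤
      2 * r * (E0 * K) * ‖b - B1‖ := by
    intro b hb
    have hd1 : DifferentiableOn ℂ (fun b => Complex.exp (U a b)) (ball b0 R) :=
      (TwoVar.diff_snd hyp.dU haR).cexp
    refine lipD (f := fun b => Complex.exp (U a b)) (z0 := b0) (ρ := R / 2) (hd1.mono hs2) ?_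
      (hs8 hB1) hb
    intro w hw
    have h1 := cauchyD (ρ' := R / 2) (by linarith) hd1 (fun w hw => hexp a haR w hw) hw
    rw [hhalf] at h1
    linarith
  have hseg : ∀ t : ℝ, 0 ≤ t → t ≤ 1 → B0 + (t : ℂ) * (B1 - B0) ∈ ball b0 (R / 8) := by
    intro t ht0 ht1
    have h1 := (convex_ball b0 (R / 8)).add_smul_sub_mem hB0 hB1 ⟨ht0, ht1⟩
    rwa [Complex.real_smul] at h1
  have hmκ : ‖m - Complex.exp (U a B1)‖ ≤ 2 * r * (E0 * K) * ‖Δ‖ := by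
    have hcont : ContinuousOn (fun t : ℝ => Complex.exp (U a (B0 + (t : ℂ) * (B1 - B0))))
        (Set.uIcc 0 1) := by
      have h1 : ContinuousOn (fun b => Complex.exp (U a b)) (ball b0 R) :=
        ((TwoVar.diff_snd hyp.dU haR).cexp).continuousOn
      refine h1.comp (t := ball b0 R) (f := fun t : ℝ => B0 + (t : ℂ) * (B1 - B0)) (by fun_prop) ?_
      intro t ht
      rw [Set.uIcc_of_le zero_le_one] at ht
      exact hs2 (hs8 (hseg t ht.1 ht.2))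
    have h2 : m - Complex.exp (U a B1) =
        ∫ t in (0:ℝ)..1, (Complex.exp (U a (B0 + (t : ℂ) * (B1 - B0))) - Complex.exp (U a B1)) := by
      rw [intervalIntegral.integral_sub hcont.intervalIntegrable (by simp), hmdef]
      simp
    rw [h2]
    have h3 := intervalIntegral.norm_integral_le_of_norm_le_const (a := (0 : ℝ)) (b := 1)
      (f := fun t : ℝ => Complex.exp (U a (B0 + (t : ℂ) * (B1 - B0))) - Complex.exp (U a B1))
      (C := 2 * r * (E0 * K) * ‖Δ‖) ?_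
    · simpa using h3
    · intro t ht
      rw [Set.uIoc_of_le zero_le_one] at ht
      refine (hlipκ _ (hs8 (hseg t ht.1.le ht.2))).trans ?_
      refine mul_le_mul_of_nonneg_left ?_ (by positivity)
      have h4 : B0 + (t : ℂ) * (B1 - B0) - B1 = ((t - 1 : ℝ) : ℂ) * Δ := by
        rw [hΔdef]; push_cast; ring
      rw [h4, norm_mul, Complex.norm_real, Real.norm_eq_abs]
      have h5 : |t - 1| ≤ 1 := by rw [abs_le]; constructor <;> linarith [ht.1, ht.2]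
      exact mul_le_of_le_one_left (norm_nonneg Δ) h5
  have hnormdm : ‖dm a‖ = ‖Δ‖ * ‖m‖ := by rw [hdmeq, norm_mul, norm_mul, hsgn, one_mul]
  have hm0 : m ≠ 0 := by
    intro h
    rw [h, mul_zero] at hdmeq
    exact hdm0 hdmeq
  have hmlow : 19 / 10 * E0 ≤ c * ‖m‖ := by
    rw [hnormdm] at hdmlow
    have h1 : E0 * ‖δ‖ ≤ c * ‖m‖ * (10 / 19) * ‖δ‖ := by
      have h2 : c * (‖Δ‖ * ‖m‖) ≤ c * (10 / 19 * ‖δ‖ * ‖m‖) := by
        refine mul_le_mul_of_nonneg_left (mul_le_mul_of_nonneg_right (by linarith)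
          (norm_nonneg _)) (by linarith)
      calc E0 * ‖δ‖ ≤ c * (‖Δ‖ * ‖m‖) := hdmlow
        _ ≤ c * (10 / 19 * ‖δ‖ * ‖m‖) := h2
        _ = c * ‖m‖ * (10 / 19) * ‖δ‖ := by ring
    have h3 := le_of_mul_le_mul_right h1 hd0
    linarith
  have hmpos : 0 < ‖m‖ := norm_pos_iff.2 hm0
  -- the difference of the `U_a`
  obtain ⟨u', hu'⟩ : ∃ z, z = deriv (fun x => U x B1) a - deriv (fun x => U x B0) a := ⟨_, rfl⟩
  have hu'b : ‖u'‖ ≤ 4 * C * r ^ 2 * ‖Δ‖ := by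
    have hdu1 := TwoVar.diff_fst hyp.dU hB1R
    have hdu0 := TwoVar.diff_fst hyp.dU hB0R
    have h1 : ∀ x ∈ ball a0 R, ‖U x B1 - U x B0‖ ≤ 2 * C * r * ‖Δ‖ := by
      intro x hx
      rw [hΔdef]
      exact lipD (f := U x) (z0 := b0) (ρ := R / 2) ((TwoVar.diff_snd hyp.dU hx).mono hs2)
        (fun w hw => hUb x hx w hw) (hs8 hB0) (hs8 hB1)
    have h2 := cauchyD (ρ' := R / 2) (by linarith) (hdu1.sub hdu0) h1 ha
    rw [hhalf] at h2
    have h3 : deriv (fun x => U x B1 - U x B0) a = u' := by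
      rw [hu']
      exact deriv_fun_sub (hdu1.differentiableAt (isOpen_ball.mem_nhds haR))
        (hdu0.differentiableAt (isOpen_ball.mem_nhds haR))
    have h4 : ‖deriv (fun x => U x B1 - U x B0) a‖ ≤ 2 * (2 * C * r * ‖Δ‖) * r := h2
    rw [h3] at h4
    calc ‖u'‖ ≤ 2 * (2 * C * r * ‖Δ‖) * r := h4
      _ = 4 * C * r ^ 2 * ‖Δ‖ := by ring
  rw [← hu']
  refine ⟨?_, ?_⟩
  swap
  · -- bound for `KK`
    rw [norm_div, norm_mul, div_mul_eq_mul_div, div_le_iff₀ (by positivity)]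
    have h1 : ‖u'‖ * E0 ≤ 4 * C * r ^ 2 * ‖Δ‖ * (10 / 19 * (c * ‖m‖)) :=
      mul_le_mul hu'b (by linarith) hE0.le (by positivity)
    have h2 : 0 ≤ C * r ^ 2 * c * (‖Δ‖ * ‖m‖) := by positivity
    have h3 : C * r ^ 2 * c * (‖Δ‖ * ‖m‖) ≤ C * r ^ 2 * c * (‖Δ‖ * ‖m‖) * K := ar2 h2 hK
    have h4 : 4 * C * r ^ 2 * ‖Δ‖ * (10 / 19 * (c * ‖m‖)) =
        40 / 19 * (C * r ^ 2 * c * (‖Δ‖ * ‖m‖)) := by ring
    rw [h4] at h1
    have h5 := ar3 h1 h3 h2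
    have h6 : 14 * C * r ^ 2 * K * c * (‖Δ‖ * ‖m‖) =
        14 * (C * r ^ 2 * c * (‖Δ‖ * ‖m‖) * K) := by ring
    rw [h6]
    exact h5
  · -- second derivative of `p1 - p0`
    have hdel2 : ‖(deriv (deriv p1) B1 - deriv (deriv (P a)) B1) -
        (deriv (deriv p0) B1 - deriv (deriv (P a)) B1)‖ ≤ 3 * r * (1 + L) ^ 2 * ‖δ‖ := by
      have hq1 : DifferentiableOn ℂ (fun b => deriv p1 b - deriv p0 b) (ball b0 R) :=
        (hyp.dp1.deriv isOpen_ball).sub (hyp.dp0.deriv isOpen_ball)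
      have hq2 : DifferentiableOn ℂ (fun b => p1 b - p0 b) (ball b0 R) := hyp.dp1.sub hyp.dp0
      have hℓ : DifferentiableOn ℂ (fun b => (deriv p1 b - deriv p0 b) / (p1 b - p0 b))
          (ball b0 (R / 2)) :=
        (hq1.mono hs2).div (hq2.mono hs2) fun b hb => (hyp.del b (hs2 hb)).1
      have h1 := cauchyD (ρ' := R / 8) (by linarith) hℓ (M := L) (fun b hb => by
        rw [norm_div, div_le_iff₀ (norm_pos_iff.2 (hyp.del b (hs2 hb)).1)]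
        exact hyp.ratio b hb) hB1
      rw [h38] at h1
      obtain ⟨ℓ', hℓ'⟩ : ∃ z, z = deriv (fun b => (deriv p1 b - deriv p0 b) / (p1 b - p0 b)) B1 :=
        ⟨_, rfl⟩
      rw [← hℓ'] at h1
      have h2 : HasDerivAt (fun b => (deriv p1 b - deriv p0 b) / (p1 b - p0 b)) ℓ' B1 := by
        rw [hℓ']
        exact (hℓ.differentiableAt (isOpen_ball.mem_nhds (hs8 hB1))).hasDerivAt
      have h3 : HasDerivAt (fun b => p1 b - p0 b) (deriv p1 B1 - deriv p0 B1) B1 :=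
        ((hyp.dp1.differentiableAt (isOpen_ball.mem_nhds hB1R)).hasDerivAt).sub
          ((hyp.dp0.differentiableAt (isOpen_ball.mem_nhds hB1R)).hasDerivAt)
      have h4 := h2.mul h3
      have h5 : HasDerivAt (fun b => deriv p1 b - deriv p0 b)
          (deriv (deriv p1) B1 - deriv (deriv p0) B1) B1 :=
        (((hyp.dp1.deriv isOpen_ball).differentiableAt (isOpen_ball.mem_nhds hB1R)).hasDerivAt).sub
          (((hyp.dp0.deriv isOpen_ball).differentiableAt (isOpen_ball.mem_nhds hB1R)).hasDerivAt)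
      have h6 : (fun b => deriv p1 b - deriv p0 b) =ᶠ[nhds B1]
          ((fun b => (deriv p1 b - deriv p0 b) / (p1 b - p0 b)) * fun b => p1 b - p0 b) := by
        filter_upwards [isOpen_ball.mem_nhds hB1R] with b hb
        have := (hyp.del b hb).1
        show deriv p1 b - deriv p0 b = (deriv p1 b - deriv p0 b) / (p1 b - p0 b) * (p1 b - p0 b)
        field_simp
      have h7 := h5.unique (h4.congr_of_eventuallyEq h6)
      have h8 : (deriv (deriv p1) B1 - deriv (deriv (P a)) B1) -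
          (deriv (deriv p0) B1 - deriv (deriv (P a)) B1) =
          ℓ' * δ + (deriv p1 B1 - deriv p0 B1) / δ * (deriv p1 B1 - deriv p0 B1) := by
        rw [hδdef]
        linear_combination h7
      rw [h8]
      have h9 := hyp.ratio B1 (hs8 hB1)
      rw [← hδdef] at h9
      have h10 : ‖(deriv p1 B1 - deriv p0 B1) / δ‖ ≤ L := by
        rw [norm_div, div_le_iff₀ hd0]; exact h9
      have h11 := norm_add_le (ℓ' * δ) ((deriv p1 B1 - deriv p0 B1) / δ * (deriv p1 B1 - deriv p0 B1))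
      have h12 : ‖ℓ' * δ‖ ≤ 8 / 3 * L * r * ‖δ‖ := by
        rw [norm_mul]; exact mul_le_mul_of_nonneg_right h1 (norm_nonneg _)
      have h13 : ‖(deriv p1 B1 - deriv p0 B1) / δ * (deriv p1 B1 - deriv p0 B1)‖ ≤ L * (L * ‖δ‖) := by
        rw [norm_mul]; exact mul_le_mul h10 h9 (norm_nonneg _) hL
      exact h11.trans (ar4 h12 h13 hr1 hL (norm_nonneg _))
    have hH1n := (H_bound (hH1 a haR B1 hB1R)).1
    have hH0n := (H_bound (hH0 a haR B1 hB1R)).1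
    have hHdiff : ‖(deriv p1 B1 - deriv (P a) B1) - (deriv p0 B1 - deriv (P a) B1)‖ ≤ L * ‖δ‖ := by
      have h1 := hyp.ratio B1 (hs8 hB1)
      rw [← hδdef] at h1
      rwa [show (deriv p1 B1 - deriv (P a) B1) - (deriv p0 B1 - deriv (P a) B1) =
        deriv p1 B1 - deriv p0 B1 by ring]
    have hr0 : 0 ≤ r := by linarith
    have hEK : 0 ≤ E0 * K := by positivity
    have hΨ1 := phi_diff (K := E0 * K) (r := r) (C := C) (L := L) (d := ‖δ‖) hEK hr0 hC hL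
      (norm_nonneg _) (hexp a haR B1 hB1R) (hNN B1 (hs8 hB1)) (hUb a haR B1 (hs8 hB1))
      (hw0 B1 (hs8 hB1)) hdel2 hHdiff hH0n hH1n
    -- the function `Φ₀`
    obtain ⟨Φ, hΦ⟩ : ∃ Φ : ℂ → ℂ, Φ = fun b => Complex.exp (U a b) / (deriv p0 b - deriv (P a) b) *
      (NN T0 b + 2 * deriv (U a) b - (deriv (deriv p0) b - deriv (deriv (P a)) b) /
        (deriv p0 b - deriv (P a) b)) := ⟨_, rfl⟩
    have hΦd : DifferentiableOn ℂ Φ (ball b0 (R / 2)) := by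
      refine DifferentiableOn.mono ?_ hs2
      have e1 : DifferentiableOn ℂ (deriv p0) (ball b0 R) := hyp.dp0.deriv isOpen_ball
      have e2 : DifferentiableOn ℂ (P a) (ball b0 R) := TwoVar.diff_snd hyp.dP haR
      have e3 : DifferentiableOn ℂ (U a) (ball b0 R) := TwoVar.diff_snd hyp.dU haR
      have e4 : DifferentiableOn ℂ (fun b => deriv p0 b - deriv (P a) b) (ball b0 R) :=
        e1.sub (e2.deriv isOpen_ball)
      have e5 : DifferentiableOn ℂ (NN T0) (ball b0 R) :=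
        ((hyp.dT0.deriv isOpen_ball).deriv isOpen_ball).div (hyp.dT0.deriv isOpen_ball)
          fun b hb => (hyp.Tne b hb).1
      have e6 : DifferentiableOn ℂ (fun b => deriv (deriv p0) b - deriv (deriv (P a)) b)
          (ball b0 R) :=
        (e1.deriv isOpen_ball).sub ((e2.deriv isOpen_ball).deriv isOpen_ball)
      rw [hΦ]
      exact (e3.cexp.div e4 (hne0 a haR)).mul
        ((e5.add ((e3.deriv isOpen_ball).const_mul 2)).sub (e6.div e4 (hne0 a haR)))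
    have hΦb : ∀ b ∈ ball b0 (R / 2), ‖Φ b‖ ≤ 4 * C * r * (E0 * K) := by
      intro b hb
      rw [hΦ]
      exact phi_bound hEK hr0 hC (hexp a haR b (hs2 hb)) (hNN b hb) (hUb a haR b hb) (hw0 b hb)
        (H_bound (hH0 a haR b (hs2 hb))).1
    have hΨ2 : ‖Φ B1 - Φ B0‖ ≤ 8 / 3 * (4 * C * r * (E0 * K)) * r * ‖Δ‖ := by
      rw [hΔdef]
      refine lipD (z0 := b0) (ρ := R / 8) (hΦd.mono hs8) (fun w hw => ?_) hB0 hB1
      have h1 := cauchyD (ρ' := R / 8) (by linarith) hΦd hΦb hw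
      rwa [h38] at h1
    obtain ⟨Ψ, hΨ⟩ : ∃ z, z = Complex.exp (U a B1) / (deriv p1 B1 - deriv (P a) B1) *
      (NN T0 B1 + 2 * deriv (U a) B1 - (deriv (deriv p1) B1 - deriv (deriv (P a)) B1) /
        (deriv p1 B1 - deriv (P a) B1)) - Φ B0 := ⟨_, rfl⟩
    have hΨb : ‖Ψ‖ ≤ 9 * C * r ^ 2 * (E0 * K) * (1 + L) ^ 2 * ‖δ‖ := by
      have h1 : Ψ = (Complex.exp (U a B1) / (deriv p1 B1 - deriv (P a) B1) *
        (NN T0 B1 + 2 * deriv (U a) B1 - (deriv (deriv p1) B1 - deriv (deriv (P a)) B1) /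
        (deriv p1 B1 - deriv (P a) B1)) - Φ B1) + (Φ B1 - Φ B0) := by rw [hΨ]; ring
      have h2 : Φ B1 = Complex.exp (U a B1) / (deriv p0 B1 - deriv (P a) B1) *
        (NN T0 B1 + 2 * deriv (U a) B1 - (deriv (deriv p0) B1 - deriv (deriv (P a)) B1) /
        (deriv p0 B1 - deriv (P a) B1)) := by rw [hΦ]
      rw [← h2] at hΨ1
      have h3 := norm_add_le (Complex.exp (U a B1) / (deriv p1 B1 - deriv (P a) B1) *
        (NN T0 B1 + 2 * deriv (U a) B1 - (deriv (deriv p1) B1 - deriv (deriv (P a)) B1) /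
        (deriv p1 B1 - deriv (P a) B1)) - Φ B1) (Φ B1 - Φ B0)
      rw [← h1] at h3
      exact h3.trans (ar5 hΨ1 hΨ2 (by linarith) hr1 hEK hL (norm_nonneg _) hΔδ)
    have hNdiff : NN T1m a - NN T0m a = u' +
        Complex.exp (U a B1) / (deriv p1 B1 - deriv (P a) B1) * (NN T1 B1 - NN T0 B1) + Ψ := by
      rw [hN1, hN0, hu', hΨ, hΦ]
      ring
    have hasm := assemble hyp.hsg hdmeq hΔ0 hm0 (hne1 a haR B1 hB1R) hδ0 hNdiff
    rw [hasm]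
    have hfb := factor_bound (L := L) (r := r) (d := ‖δ‖) (E0 := E0) (K := K) (c := c) hL hr1
      (norm_nonneg _) hE0 hK hc hH1n hH1Ht hHt.2 hmκ hmlow hΔδ
    have hA : ‖sg * ((NN T1 B1 - NN T0 B1) / δ) * ((deriv p1 B1 - deriv (P a) B1 - -δ / Δ) /
        (deriv p1 B1 - deriv (P a) B1) + -δ / Δ * (m - Complex.exp (U a B1)) /
        ((deriv p1 B1 - deriv (P a) B1) * m))‖ ≤
        ‖(NN T1 B1 - NN T0 B1) / δ‖ * (2 * r * K * c * (1 + L) * e) := by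
      rw [norm_mul, norm_mul, hsgn, one_mul]
      refine mul_le_mul_of_nonneg_left (hfb.trans ?_) (norm_nonneg _)
      exact mul_le_mul_of_nonneg_left hδe (by positivity)
    have hB : ‖Ψ / dm a‖ ≤ 9 * C * r ^ 2 * K * c * (1 + L) ^ 2 := by
      rw [norm_div, div_le_iff₀ (norm_pos_iff.2 hdm0)]
      have h1 : 9 * C * r ^ 2 * (E0 * K) * (1 + L) ^ 2 * ‖δ‖ =
          9 * C * r ^ 2 * K * (1 + L) ^ 2 * (E0 * ‖δ‖) := by ring
      rw [h1] at hΨb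
      calc ‖Ψ‖ ≤ 9 * C * r ^ 2 * K * (1 + L) ^ 2 * (E0 * ‖δ‖) := hΨb
        _ ≤ 9 * C * r ^ 2 * K * (1 + L) ^ 2 * (c * ‖dm a‖) :=
            mul_le_mul_of_nonneg_left hdmlow (by positivity)
        _ = 9 * C * r ^ 2 * K * c * (1 + L) ^ 2 * ‖dm a‖ := by ring
    refine (norm_add_le _ _).trans ?_
    have he' : 0 ≤ e := hd0.le.trans hδe
    have hfin1 : ‖(NN T1 B1 - NN T0 B1) / δ‖ * (2 * r * K * c * (1 + L) * e) ≤
        14 * C * r ^ 2 * K * c * e * (1 + L) * ‖(NN T1 B1 - NN T0 B1) / δ‖ :=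
      ar6 hC hr1 (by linarith) (by linarith) hL he' (norm_nonneg _)
    have hfin2 : 9 * C * r ^ 2 * K * c * (1 + L) ^ 2 ≤ 14 * C * r ^ 2 * K * c * (1 + L) ^ 2 :=
      ar7 (by linarith) (by linarith) (by linarith)
    linarith

end SF
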