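import Pool.Agent.Helper65.SF.F5b

/-!
# SF-F7: linear approximation and the exact derivative relation

Proof in words.
* `lin_bvp` (with the hypothesis `0 <= eps`): `e (k+2) = e (k+1) + e k + u k`, `|u| <= eps`.  Then `e (k+4) + e k = 3 e (k+2) + (error
  <= 4 eps)`: `e (k+4) = e (k+3) + e (k+2) + u (k+2)`, `e (k+3) = e (k+2) + e (k+1) + u (k+1)`,
  `e k = e (k+2) - e (k+1) - u k`; sum `= 3 e (k+2) + u (k+2) + u (k+1) - u k`.  Let M be the maximum of
  `|e k|` over `0 <= k <= n`.  If it is attained at `2 <= k <= n-2` then `3 M <= 2 M + 3 eps`.  If attained at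
  `k = 1`: `|e 1| <= |e 2| + |e 0| + eps` so `|e 1| <= |e 2| + eps` with index 2 (treat n small separately);
  similarly `k = n-1`: `e (n-1) = e n - e (n-2) - u`.  So `M <= 10 eps` in all cases.
* `TE_lin`: apply it to `e k = TE k - (fib k / fib n) TE n`.
* `deriv_rel`: differentiate the invariant: with `xi = cos thi`,
  `(x0 - x1 x2) x0' + (x1 - x0 x2) x1' + (x2 - x0 x1) x2' = 0`, `xi' = - sin thi * di`, and
  `(x0 - x1 x2)^2 = sin^2 th1 sin^2 th2 + lam^2/4`, so with the sign hypotheses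
  `x0 - x1 x2 = q12 sin th1 sin th2`, `x1 - x0 x2 = q02 sin th0 sin th2`, `x2 - x0 x1 = - q01 sin th0 sin th1`.
  Divide by `sin th0 sin th1 sin th2`.
-/

namespace SF

/-- `q a b = sqrt (1 + lam^2 / (4 sin^2 a sin^2 b))`. -/
noncomputable def qf (lam a b : ℝ) : ℝ :=
  Real.sqrt (1 + lam ^ 2 / (4 * Real.sin a ^ 2 * Real.sin b ^ 2))

theorem lin_bvp (e : ℕ → ℝ) (eps : ℝ) (heps : 0 ≤ eps) (n : ℕ) (hn : 1 ≤ n)
    (h : ∀ k, k + 2 ≤ n → |e (k + 2) - e (k + 1) - e k| ≤ eps) (h0 : e 0 = 0) (hen : e n = 0)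
    (k : ℕ) (hk : k ≤ n) : |e k| ≤ 10 * eps := by
  obtain ⟨m, hm, hmax⟩ : ∃ m ∈ Finset.range (n + 1), ∀ j ∈ Finset.range (n + 1), |e j| ≤ |e m| :=
    Finset.exists_max_image (Finset.range (n + 1)) (fun j => |e j|) ⟨0, by simp⟩
  have hmn : m ≤ n := by simpa [Nat.lt_succ_iff] using hm
  have hmax' : ∀ j, j ≤ n → |e j| ≤ |e m| := fun j hj => hmax j (by simpa [Nat.lt_succ_iff] using hj)
  have hu : ∀ k, k + 2 ≤ n → -eps ≤ e (k + 2) - e (k + 1) - e k ∧ e (k + 2) - e (k + 1) - e k ≤ eps :=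
    fun k hk => abs_le.mp (h k hk)
  have hmid : ∀ j, j + 4 ≤ n → 3 * |e (j + 2)| ≤ |e (j + 4)| + |e j| + 3 * eps := by
    intro j hj
    have h1 := hu j (by omega)
    have h2 := hu (j + 1) (by omega)
    have h3 := hu (j + 2) (by omega)
    have e1 : j + 1 + 2 = j + 3 := by ring
    have e2 : j + 1 + 1 = j + 2 := by ring
    have e3 : j + 2 + 2 = j + 4 := by ring
    have e4 : j + 2 + 1 = j + 3 := by ring
    rw [e1, e2] at h2
    rw [e3, e4] at h3
    have a1 := neg_abs_le (e (j + 4))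
    have a2 := le_abs_self (e (j + 4))
    have a3 := neg_abs_le (e j)
    have a4 := le_abs_self (e j)
    rcases abs_cases (e (j + 2)) with ⟨hh, _⟩ | ⟨hh, _⟩ <;> rw [hh] <;> linarith [h1.1, h1.2, h2.1, h2.2, h3.1, h3.2]
  have hM : |e m| ≤ 10 * eps := by
    have hM0 := abs_nonneg (e m)
    rcases Nat.lt_or_ge n 4 with hn4 | hn4
    · interval_cases n
      · interval_cases m
        · rw [h0]; simp; linarith
        · rw [hen]; simp; linarith
      · have h1 := hu 0 (by omega)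
        simp only [Nat.zero_add] at h1
        interval_cases m
        · rw [h0]; simp; linarith
        · rw [hen, h0] at h1
          rw [abs_le]; constructor <;> linarith [h1.1, h1.2]
        · rw [hen]; simp; linarith
      · have h1 := hu 0 (by omega)
        have h2 := hu 1 (by omega)
        simp only [Nat.zero_add] at h1
        norm_num at h2
        rw [h0] at h1
        rw [hen] at h2
        interval_cases m
        · rw [h0]; simp; linarith
        · rw [abs_le]; constructor <;> linarith [h1.1, h1.2, h2.1, h2.2]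
        · rw [abs_le]; constructor <;> linarith [h1.1, h1.2, h2.1, h2.2]
        · rw [hen]; simp; linarith
    · by_cases c0 : m = 0
      · rw [c0, h0]; simp; linarith
      by_cases c1 : m = n
      · rw [c1, hen]; simp; linarith
      by_cases c2 : m = 1
      · have h1 := hu 0 (by omega)
        simp only [Nat.zero_add] at h1
        rw [h0] at h1
        have h2 := hmid 0 (by omega)
        simp only [Nat.zero_add] at h2
        rw [h0, abs_zero] at h2
        have h3 := hmax' 4 (by omega)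
        rw [c2] at h3 ⊢
        have a1 := neg_abs_le (e 2)
        have a2 := le_abs_self (e 2)
        rcases abs_cases (e 1) with ⟨hh, _⟩ | ⟨hh, _⟩ <;> rw [hh] at h3 ⊢ <;> linarith [h1.1, h1.2]
      by_cases c3 : m = n - 1
      · obtain ⟨p, rfl⟩ : ∃ p, n = p + 4 := ⟨n - 4, by omega⟩
        have h1 := hu (p + 2) (by omega)
        have e3 : p + 2 + 2 = p + 4 := by ring
        have e4 : p + 2 + 1 = p + 3 := by ring
        rw [e3, e4, hen] at h1
        have h2 := hmid p (by omega)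
        rw [hen, abs_zero] at h2
        have h3 := hmax' p (by omega)
        have e5 : p + 4 - 1 = p + 3 := by omega
        rw [e5] at c3
        rw [c3] at h3 ⊢
        have a1 := neg_abs_le (e (p + 2))
        have a2 := le_abs_self (e (p + 2))
        rcases abs_cases (e (p + 3)) with ⟨hh, _⟩ | ⟨hh, _⟩ <;> rw [hh] at h3 ⊢ <;> linarith [h1.1, h1.2]
      · obtain ⟨p, rfl⟩ : ∃ p, m = p + 2 := ⟨m - 2, by omega⟩
        have h2 := hmid p (by omega)
        have h3 := hmax' p (by omega)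
        have h4 := hmax' (p + 4) (by omega)
        linarith
  exact (hmax' k hk).trans hM

theorem TE_lin (lam t : ℝ) (h0 : 0 ≤ lam) (h1 : lam ≤ 1 / 100) (n : ℕ) (hn : 1 ≤ n) (k : ℕ)
    (hk : k ≤ n) :
    |TE lam t k - (Nat.fib k : ℝ) / (Nat.fib n : ℝ) * TE lam t n| ≤ 70 * Real.sqrt lam := by
  have hf : (Nat.fib n : ℝ) ≠ 0 := by
    have := Nat.fib_pos.mpr (by omega : 0 < n)
    positivity
  have := lin_bvp (fun k => TE lam t k - (Nat.fib k : ℝ) / (Nat.fib n : ℝ) * TE lam t n)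
    (7 * Real.sqrt lam) (by positivity) n hn ?_ ?_ ?_ k hk
  · calc _ ≤ _ := this
      _ = _ := by ring
  · intro j hj
    have hd := TE_defect lam t h0 h1 j
    have hfib : (Nat.fib (j + 2) : ℝ) = Nat.fib j + Nat.fib (j + 1) := by
      rw [Nat.fib_add_two]; push_cast; ring
    change |TE lam t (j + 2) - (Nat.fib (j + 2) : ℝ) / (Nat.fib n : ℝ) * TE lam t n
        - (TE lam t (j + 1) - (Nat.fib (j + 1) : ℝ) / (Nat.fib n : ℝ) * TE lam t n)
        - (TE lam t j - (Nat.fib j : ℝ) / (Nat.fib n : ℝ) * TE lam t n)| ≤ 7 * Real.sqrt lam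
    rw [hfib]
    have : TE lam t (j + 2) - ((Nat.fib j : ℝ) + (Nat.fib (j + 1) : ℝ)) / (Nat.fib n : ℝ) * TE lam t n
        - (TE lam t (j + 1) - (Nat.fib (j + 1) : ℝ) / (Nat.fib n : ℝ) * TE lam t n)
        - (TE lam t j - (Nat.fib j : ℝ) / (Nat.fib n : ℝ) * TE lam t n)
        = TE lam t (j + 2) - TE lam t (j + 1) - TE lam t j := by ring
    rw [this]
    exact hd
  · simp [TE_zero]
  · change TE lam t n - (Nat.fib n : ℝ) / (Nat.fib n : ℝ) * TE lam t n = 0
    rw [div_self hf]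
    ring

theorem deriv_rel (lam : ℝ) (h0 : 0 ≤ lam) (th0 th1 th2 : ℝ → ℝ) (t d0 d1 d2 : ℝ)
    (hd0 : HasDerivAt th0 d0 t) (hd1 : HasDerivAt th1 d1 t) (hd2 : HasDerivAt th2 d2 t)
    (hinv : ∀ᶠ s in nhds t, Real.cos (th2 s) ^ 2 + Real.cos (th1 s) ^ 2 + Real.cos (th0 s) ^ 2
      - 2 * Real.cos (th2 s) * Real.cos (th1 s) * Real.cos (th0 s) = 1 + lam ^ 2 / 4)
    (hs0 : Real.sin (th0 t) ≠ 0) (hs1 : Real.sin (th1 t) ≠ 0) (hs2 : Real.sin (th2 t) ≠ 0)
    (r01 : (Real.cos (th2 t) - Real.cos (th1 t) * Real.cos (th0 t))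
      * (Real.sin (th0 t) * Real.sin (th1 t)) < 0)
    (r02 : 0 < (Real.cos (th1 t) - Real.cos (th0 t) * Real.cos (th2 t))
      * (Real.sin (th0 t) * Real.sin (th2 t)))
    (r12 : 0 < (Real.cos (th0 t) - Real.cos (th1 t) * Real.cos (th2 t))
      * (Real.sin (th1 t) * Real.sin (th2 t))) :
    qf lam (th0 t) (th1 t) * d2 = qf lam (th0 t) (th2 t) * d1 + qf lam (th1 t) (th2 t) * d0 := by
  have key : ∀ (a b y : ℝ), Real.sin a ≠ 0 → Real.sin b ≠ 0 →
      y ^ 2 = Real.sin a ^ 2 * Real.sin b ^ 2 + lam ^ 2 / 4 → 0 < y * (Real.sin a * Real.sin b) →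
      y = qf lam a b * (Real.sin a * Real.sin b) := by
    intro a b y ha hb hy hpos
    have hq0 : 0 < qf lam a b := by
      unfold qf
      apply Real.sqrt_pos.mpr
      positivity
    have hq2 : qf lam a b ^ 2 = 1 + lam ^ 2 / (4 * Real.sin a ^ 2 * Real.sin b ^ 2) := by
      unfold qf
      rw [Real.sq_sqrt (by positivity)]
    have hsq : y ^ 2 = (qf lam a b * (Real.sin a * Real.sin b)) ^ 2 := by
      rw [hy, mul_pow, hq2]
      field_simp
    rcases sq_eq_sq_iff_eq_or_eq_neg.mp hsq with h | h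
    · exact h
    · exfalso
      rw [h] at hpos
      have : 0 < qf lam a b * (Real.sin a * Real.sin b) ^ 2 := by positivity
      nlinarith
  have hinvt := hinv.self_of_nhds
  have c0 : HasDerivAt (fun s => Real.cos (th0 s)) (-Real.sin (th0 t) * d0) t := hd0.cos
  have c1 : HasDerivAt (fun s => Real.cos (th1 s)) (-Real.sin (th1 t) * d1) t := hd1.cos
  have c2 : HasDerivAt (fun s => Real.cos (th2 s)) (-Real.sin (th2 t) * d2) t := hd2.cos
  have hD := (((c2.pow 2).add (c1.pow 2)).add (c0.pow 2)).sub (((c2.const_mul 2).mul c1).mul c0)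
  have hD0 : HasDerivAt (fun s => Real.cos (th2 s) ^ 2 + Real.cos (th1 s) ^ 2 + Real.cos (th0 s) ^ 2
      - 2 * Real.cos (th2 s) * Real.cos (th1 s) * Real.cos (th0 s)) 0 t :=
    (hasDerivAt_const t (1 + lam ^ 2 / 4)).congr_of_eventuallyEq hinv
  have hE := hD.unique hD0
  have p0 := Real.sin_sq_add_cos_sq (th0 t)
  have p1 := Real.sin_sq_add_cos_sq (th1 t)
  have p2 := Real.sin_sq_add_cos_sq (th2 t)
  have k12 := key (th1 t) (th2 t) (Real.cos (th0 t) - Real.cos (th1 t) * Real.cos (th2 t)) hs1 hs2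
    (by
      have e1 : Real.sin (th1 t) ^ 2 = 1 - Real.cos (th1 t) ^ 2 := by linarith
      have e2 : Real.sin (th2 t) ^ 2 = 1 - Real.cos (th2 t) ^ 2 := by linarith
      rw [e1, e2]; linear_combination hinvt) r12
  have k02 := key (th0 t) (th2 t) (Real.cos (th1 t) - Real.cos (th0 t) * Real.cos (th2 t)) hs0 hs2
    (by
      have e1 : Real.sin (th0 t) ^ 2 = 1 - Real.cos (th0 t) ^ 2 := by linarith
      have e2 : Real.sin (th2 t) ^ 2 = 1 - Real.cos (th2 t) ^ 2 := by linarith
      rw [e1, e2]; linear_combination hinvt) r02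
  have k01 := key (th0 t) (th1 t) (-(Real.cos (th2 t) - Real.cos (th1 t) * Real.cos (th0 t))) hs0 hs1
    (by
      have e1 : Real.sin (th0 t) ^ 2 = 1 - Real.cos (th0 t) ^ 2 := by linarith
      have e2 : Real.sin (th1 t) ^ 2 = 1 - Real.cos (th1 t) ^ 2 := by linarith
      rw [e1, e2]; linear_combination hinvt) (by linarith)
  have hfin : (Real.sin (th0 t) * Real.sin (th1 t) * Real.sin (th2 t)) *
      (qf lam (th0 t) (th1 t) * d2) = (Real.sin (th0 t) * Real.sin (th1 t) * Real.sin (th2 t)) *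
      (qf lam (th0 t) (th2 t) * d1 + qf lam (th1 t) (th2 t) * d0) := by
    have hE' : (Real.cos (th0 t) - Real.cos (th1 t) * Real.cos (th2 t)) * Real.sin (th0 t) * d0
      + (Real.cos (th1 t) - Real.cos (th0 t) * Real.cos (th2 t)) * Real.sin (th1 t) * d1
      - (-(Real.cos (th2 t) - Real.cos (th1 t) * Real.cos (th0 t))) * Real.sin (th2 t) * d2 = 0 := by
      simp only [Nat.cast_ofNat, Nat.add_one_sub_one, pow_one, Pi.mul_apply] at hE
      linear_combination (-1 / 2 : ℝ) * hE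
    rw [k12, k02, k01] at hE'
    linear_combination -hE'
  exact mul_left_cancel₀ (by positivity) hfin

/-- General form of the relation for families of state sequences. -/
theorem rel_gen (lam : ℝ) (h0 : 0 ≤ lam) (x o th : ℝ → ℕ → ℝ) (t : ℝ)
    (hSt : ∀ s, St lam (x s) (o s)) (hcos : ∀ s j, Real.cos (th s j) = clip (x s j))
    (hsin : ∀ j, Real.sin (th t j) = o t j * Real.sqrt (1 - clip (x t j) ^ 2))
    (hcont : ∀ j, ContinuousAt (fun s => x s j) t) (k : ℕ) (d0 d1 d2 : ℝ)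
    (hx0 : |x t k| < 1) (hx1 : |x t (k + 1)| < 1) (hx2 : |x t (k + 2)| < 1)
    (hd0 : HasDerivAt (fun s => th s k) d0 t) (hd1 : HasDerivAt (fun s => th s (k + 1)) d1 t)
    (hd2 : HasDerivAt (fun s => th s (k + 2)) d2 t) :
    qf lam (th t k) (th t (k + 1)) * d2
      = qf lam (th t k) (th t (k + 2)) * d1 + qf lam (th t (k + 1)) (th t (k + 2)) * d0 := by
  have hlt : ∀ j, |x t j| < 1 → ∀ᶠ s in nhds t, |x s j| < 1 := fun j hj =>
    (hcont j).abs.eventually_lt continuousAt_const hj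
  have hpos : ∀ j, |x t j| < 1 → 0 < Real.sqrt (1 - clip (x t j) ^ 2) := by
    intro j hj
    rw [clip_of_lt hj]
    apply Real.sqrt_pos.mpr
    nlinarith [abs_lt.mp hj]
  have ho : ∀ j, o t j * o t j = 1 := by
    intro j
    rcases (hSt t).ori j with h | h <;> rw [h] <;> norm_num
  have hone : ∀ j, o t j ≠ 0 := by
    intro j hj
    have := ho j
    rw [hj] at this
    norm_num at this
  have hct : ∀ j, |x t j| < 1 → Real.cos (th t j) = x t j := fun j hj => by
    rw [hcos, clip_of_lt hj]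
  refine deriv_rel lam h0 (fun s => th s k) (fun s => th s (k + 1)) (fun s => th s (k + 2)) t
    d0 d1 d2 hd0 hd1 hd2 ?_ ?_ ?_ ?_ ?_ ?_ ?_
  · filter_upwards [hlt k hx0, hlt (k + 1) hx1, hlt (k + 2) hx2] with s s0 s1 s2
    rw [hcos, hcos, hcos, clip_of_lt s0, clip_of_lt s1, clip_of_lt s2]
    exact (hSt s).inv k
  · change Real.sin (th t k) ≠ 0
    rw [hsin]
    exact mul_ne_zero (hone k) (hpos k hx0).ne'
  · change Real.sin (th t (k + 1)) ≠ 0
    rw [hsin]
    exact mul_ne_zero (hone (k + 1)) (hpos (k + 1) hx1).ne'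
  · change Real.sin (th t (k + 2)) ≠ 0
    rw [hsin]
    exact mul_ne_zero (hone (k + 2)) (hpos (k + 2) hx2).ne'
  · change (Real.cos (th t (k + 2)) - Real.cos (th t (k + 1)) * Real.cos (th t k))
      * (Real.sin (th t k) * Real.sin (th t (k + 1))) < 0
    rw [hct k hx0, hct (k + 1) hx1, hct (k + 2) hx2, hsin, hsin]
    have r := (hSt t).rel1 k hx0 hx1
    have e : (x t (k + 2) - x t (k + 1) * x t k) * (o t k * Real.sqrt (1 - clip (x t k) ^ 2)
        * (o t (k + 1) * Real.sqrt (1 - clip (x t (k + 1)) ^ 2)))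
        = ((x t (k + 2) - x t (k + 1) * x t k) * (o t k * o t (k + 1)))
          * (Real.sqrt (1 - clip (x t k) ^ 2) * Real.sqrt (1 - clip (x t (k + 1)) ^ 2)) := by ring
    rw [e]
    exact mul_neg_of_neg_of_pos r (mul_pos (hpos k hx0) (hpos (k + 1) hx1))
  · change 0 < (Real.cos (th t (k + 1)) - Real.cos (th t k) * Real.cos (th t (k + 2)))
      * (Real.sin (th t k) * Real.sin (th t (k + 2)))
    rw [hct k hx0, hct (k + 1) hx1, hct (k + 2) hx2, hsin, hsin]
    have r := (hSt t).rel2 k hx0 hx2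
    have e : (x t (k + 1) - x t k * x t (k + 2)) * (o t k * Real.sqrt (1 - clip (x t k) ^ 2)
        * (o t (k + 2) * Real.sqrt (1 - clip (x t (k + 2)) ^ 2)))
        = ((x t (k + 1) - x t k * x t (k + 2)) * (o t k * o t (k + 2)))
          * (Real.sqrt (1 - clip (x t k) ^ 2) * Real.sqrt (1 - clip (x t (k + 2)) ^ 2)) := by ring
    rw [e]
    exact mul_pos r (mul_pos (hpos k hx0) (hpos (k + 2) hx2))
  · change 0 < (Real.cos (th t k) - Real.cos (th t (k + 1)) * Real.cos (th t (k + 2)))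
      * (Real.sin (th t (k + 1)) * Real.sin (th t (k + 2)))
    rw [hct k hx0, hct (k + 1) hx1, hct (k + 2) hx2, hsin, hsin]
    have r := rel3 (hSt t) k hx1 hx2
    have e : (x t k - x t (k + 1) * x t (k + 2)) * (o t (k + 1) * Real.sqrt (1 - clip (x t (k + 1)) ^ 2)
        * (o t (k + 2) * Real.sqrt (1 - clip (x t (k + 2)) ^ 2)))
        = ((x t k - x t (k + 1) * x t (k + 2)) * (o t (k + 1) * o t (k + 2)))
          * (Real.sqrt (1 - clip (x t (k + 1)) ^ 2) * Real.sqrt (1 - clip (x t (k + 2)) ^ 2)) := by ring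
    rw [e]
    exact mul_pos r (mul_pos (hpos (k + 1) hx1) (hpos (k + 2) hx2))

/-- The sign relations hold for the energy family. -/
theorem TE_rel (lam t : ℝ) (h0 : 0 ≤ lam) (h1 : lam ≤ 1 / 100) (k : ℕ) (d0 d1 d2 : ℝ)
    (hx0 : |X lam t k| < 1) (hx1 : |X lam t (k + 1)| < 1) (hx2 : |X lam t (k + 2)| < 1)
    (hd0 : HasDerivAt (fun s => TE lam s k) d0 t) (hd1 : HasDerivAt (fun s => TE lam s (k + 1)) d1 t)
    (hd2 : HasDerivAt (fun s => TE lam s (k + 2)) d2 t) :
    qf lam (TE lam t k) (TE lam t (k + 1)) * d2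
      = qf lam (TE lam t k) (TE lam t (k + 2)) * d1
        + qf lam (TE lam t (k + 1)) (TE lam t (k + 2)) * d0 :=
  rel_gen lam h0 (fun s j => X lam s j) (fun s j => oE lam s j) (fun s j => TE lam s j) t
    (fun s => St_energy lam s h0) (fun s j => cos_TE lam s h0 j)
    (fun j => sin_lift (St_energy lam t h0) 0 (Real.arccos (-t / 2)) (TE_exp lam t h0 0)
      (TE_exp lam t h0 1) j)
    (fun j => (X_differentiable lam j).continuous.continuousAt) k d0 d1 d2 hx0 hx1 hx2 hd0 hd1 hd2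

/-- The sign relations hold for the word family. -/
theorem TW_rel (lam b psi : ℝ) (h0 : 0 ≤ lam) (h1 : lam ≤ 1 / 100) (hb : Real.sin b ≠ 0)
    (k : ℕ) (d0 d1 d2 : ℝ)
    (hx0 : |W lam b psi k| < 1) (hx1 : |W lam b psi (k + 1)| < 1) (hx2 : |W lam b psi (k + 2)| < 1)
    (hd0 : HasDerivAt (fun s => TW lam b s k) d0 psi)
    (hd1 : HasDerivAt (fun s => TW lam b s (k + 1)) d1 psi)
    (hd2 : HasDerivAt (fun s => TW lam b s (k + 2)) d2 psi) :
    qf lam (TW lam b psi k) (TW lam b psi (k + 1)) * d2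
      = qf lam (TW lam b psi k) (TW lam b psi (k + 2)) * d1
        + qf lam (TW lam b psi (k + 1)) (TW lam b psi (k + 2)) * d0 :=
  rel_gen lam h0 (fun s j => W lam b s j) (fun s j => oW lam b s j) (fun s j => TW lam b s j) psi
    (fun s => St_word lam b s hb) (fun s j => cos_TW lam b s hb j)
    (fun j => sin_lift (St_word lam b psi hb) (T0 lam b psi) b (TW_exp lam b psi hb 0)
      (TW_exp lam b psi hb 1) j)
    (fun j => (W_differentiable lam b j).continuous.continuousAt) k d0 d1 d2 hx0 hx1 hx2 hd0 hd1 hd2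

end SF
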