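import Pool.Agent.Helper65.SF.F6
import Pool.Agent.Helper65.SF.F7

/-!
# SF-P4a: injectivity of the angle, shifts of coordinates, states of the energy family

Proof in words.
* `TE_inj`: `TE lam t l = TE lam t' l` with nonzero sine implies `t = t'` (`TE_mono`, `TE_deriv`).
* `coord_shift`: `x k -> (-1)^(u k) x k`, `th k -> th k + u k pi`, `u (m+1) = u m + u (m-1)`: `coord` at m is
  increased by `u (m-1) pi`.
* `state_E`: for real t with `|X lam t l| < 1` (`l >= 1`): with `b = TE lam t l - j pi`, `psi = psiE lam t l - i pi`: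
  `W lam b psi k = (-1)^(fibz i j k) X lam t (l-1+k)`, `TW lam b psi k = TE lam t (l-1+k) - fibz i j k pi`
  (`coord_spec` and `W_shift`, `TW_shift`).
-/

namespace SF

theorem p4a_strict (lam : ℝ) (h0 : 0 ≤ lam) (h1 : lam ≤ 1 / 100) (l : ℕ) (hl : 1 ≤ l) (t t' : ℝ)
    (hs : Real.sin (TE lam t l) ≠ 0) (htt : t < t') : TE lam t l < TE lam t' l := by
  have hmono := TE_mono lam h0 h1 l
  obtain ⟨d, hd, hd1, -⟩ := TE_deriv lam t h0 h1 l hl ((sin_TE_ne lam t h0 l).1 hs)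
  have hf : 0 < (Nat.fib l : ℝ) := by exact_mod_cast Nat.fib_pos.2 hl
  obtain ⟨w, hw1, hw2, hw3⟩ := right_larger (fun s => TE lam s l) t d t' hd1 (by linarith) htt
  have h2 : TE lam w l ≤ TE lam t' l := hmono hw2.le
  exact lt_of_lt_of_le hw3 h2

theorem TE_inj (lam : ℝ) (h0 : 0 ≤ lam) (h1 : lam ≤ 1 / 100) (l : ℕ) (hl : 1 ≤ l) (t t' : ℝ)
    (h : TE lam t l = TE lam t' l) (hs : Real.sin (TE lam t l) ≠ 0) : t = t' := by
  rcases lt_trichotomy t t' with h3 | h3 | h3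
  · exact absurd h (p4a_strict lam h0 h1 l hl t t' hs h3).ne
  · exact h3
  · rw [h] at hs
    exact absurd h.symm (p4a_strict lam h0 h1 l hl t' t hs h3).ne

theorem p4a_slf (n : ℤ) : ((-1 : ℝ) ^ n) * (-1) ^ n = 1 := by
  rw [← mul_zpow]
  norm_num

theorem p4a_coord {a b c s0 s1 sn : ℝ} (h0 : s0 * s0 = 1) (h1 : s1 * s1 = 1) (C S : ℝ) :
    ((⟨s0 * a, (s0 * a * (s1 * b) - s1 * s0 * c) / (s1 * sn)⟩ : ℂ) * ⟨s0 * C, -(s0 * S)⟩ : ℂ)
      = (⟨a, (a * b - c) / sn⟩ : ℂ) * ⟨C, -S⟩ := by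
  have hs1 : s1 ≠ 0 := by
    intro h
    rw [h] at h1
    norm_num at h1
  have e : (s0 * a * (s1 * b) - s1 * s0 * c) / (s1 * sn) = s0 * ((a * b - c) / sn) := by
    rw [show s0 * a * (s1 * b) - s1 * s0 * c = s1 * (s0 * (a * b - c)) by ring,
      mul_div_mul_left _ _ hs1, mul_div_assoc]
  rw [e]
  apply Complex.ext
  · simp only [Complex.mul_re]
    linear_combination (a * C + ((a * b - c) / sn) * S) * h0
  · simp only [Complex.mul_im]
    linear_combination (-a * S + ((a * b - c) / sn) * C) * h0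

theorem coord_shift (x th x' th' : ℕ → ℝ) (u : ℕ → ℤ) (m : ℕ) (hm : 1 ≤ m)
    (hu : u (m + 1) = u m + u (m - 1))
    (hx : ∀ k, m - 1 ≤ k → k ≤ m + 1 → x' k = (-1) ^ (u k) * x k)
    (hth : ∀ k, m - 1 ≤ k → k ≤ m + 1 → th' k = th k + (u k : ℝ) * Real.pi) :
    coord x' th' m = coord x th m + (u (m - 1) : ℝ) * Real.pi := by
  have x0 := hx (m - 1) le_rfl (by omega)
  have x1 := hx m (by omega) (by omega)
  have x2 := hx (m + 1) (by omega) le_rfl
  have t0 := hth (m - 1) le_rfl (by omega)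
  have t1 := hth m (by omega) (by omega)
  have hs2 : ((-1 : ℝ)) ^ (u (m + 1)) = (-1) ^ (u m) * (-1) ^ (u (m - 1)) := by
    rw [hu, zpow_add₀ (by norm_num)]
  have h00 := p4a_slf (u (m - 1))
  have h11 := p4a_slf (u m)
  rw [hs2] at x2
  have c0 : Real.cos (th' (m - 1)) = (-1) ^ (u (m - 1)) * Real.cos (th (m - 1)) := by
    rw [t0, Real.cos_add_int_mul_pi]
  have n0 : Real.sin (th' (m - 1)) = (-1) ^ (u (m - 1)) * Real.sin (th (m - 1)) := by
    rw [t0, Real.sin_add_int_mul_pi]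
  have n1 : Real.sin (th' m) = (-1) ^ (u m) * Real.sin (th m) := by
    rw [t1, Real.sin_add_int_mul_pi]
  unfold coord
  rw [F3bAux.exp_neg_I, F3bAux.exp_neg_I, c0, n0, n1, x0, x1, x2, p4a_coord h00 h11, t0]
  ring

theorem p4a_fibz_neg (i j : ℤ) (k : ℕ) :
    fibz (-i) (-j) k = -fibz i j k ∧ fibz (-i) (-j) (k + 1) = -fibz i j (k + 1) := by
  induction k with
  | zero => exact ⟨rfl, rfl⟩
  | succ k ih =>
    refine ⟨ih.2, ?_⟩
    show fibz (-i) (-j) (k + 1) + fibz (-i) (-j) k = -(fibz i j (k + 1) + fibz i j k)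
    rw [ih.1, ih.2]
    ring

theorem p4a_neg_pow (n : ℤ) : ((-1 : ℝ)) ^ (-n) = (-1) ^ n := by
  have h := p4a_slf n
  rw [zpow_neg]
  exact inv_eq_of_mul_eq_one_left h

theorem state_E (lam t : ℝ) (h0 : 0 ≤ lam) (h1 : lam ≤ 1 / 100) (l : ℕ) (hl : 1 ≤ l)
    (hx : |X lam t l| < 1) (i j : ℤ) (k : ℕ) :
    W lam (TE lam t l - j * Real.pi) (psiE lam t l - i * Real.pi) k
      = (-1) ^ (fibz i j k) * X lam t (l - 1 + k) ∧
    TW lam (TE lam t l - j * Real.pi) (psiE lam t l - i * Real.pi) k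
      = TE lam t (l - 1 + k) - (fibz i j k : ℝ) * Real.pi := by
  have hsin : Real.sin (TE lam t l) ≠ 0 := (sin_TE_ne lam t h0 l).2 hx
  have c : W lam (TE lam t l) (psiE lam t l) k = X lam t (l - 1 + k) ∧
      TW lam (TE lam t l) (psiE lam t l) k = TE lam t (l - 1 + k) :=
    coord_spec (St_energy lam t h0) h0 h1 0 (Real.arccos (-t / 2)) (h94_e0 lam t)
      (h94_e1 lam t) l hl hx k
  have e1 : TE lam t l - j * Real.pi = TE lam t l + ((-j : ℤ) : ℝ) * Real.pi := by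
    push_cast; ring
  have e2 : psiE lam t l - i * Real.pi = psiE lam t l + ((-i : ℤ) : ℝ) * Real.pi := by
    push_cast; ring
  rw [e1, e2, W_shift, TW_shift _ _ hsin, c.1, c.2, (p4a_fibz_neg i j k).1, p4a_neg_pow]
  refine ⟨rfl, ?_⟩
  push_cast
  ring

end SF
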