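import Pool.Agent.Helper65.SF.WPa

/-!
# SF-WP: joint analytic extension of the word function

Proof in words.
* `word_Pb`: `n >= 6`, `psi0 = PP lam n a0 b0`, state `(b0, psi0)` with all `|sin TW j| >= c0`, `j <= 4`.
  Let `Q = QQ lam n a0 b0`, and consider the reversed family `W lam a0 rho k` (a0 fixed, variable rho), at
  `rho0 = -Q - a0`; by `W_reverse/TW_reverse` its angles at the indices `n+1-j` are `± TW j`.  Apply
  `curve` with `y0, y1, y2 = WC lam a0 . (n-1), n, n+1`, middle angle `(-1)^(n+1) b0`,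
  coordinate `p0 = (-1)^n (psi0 + b0)` (`QQ_reverse`); `eta = c0^2/2`, disc hypothesis from `W_disc`
  and `slopes_word` at `m = n` (indices n-3..n+1 correspond to TW 4..TW 0).  It gives a holomorphic p on a ball
  around `(-1)^(n+1) b0`; put `G b = (-1)^n p((-1)^(n+1) b) - b`.  For real b, `G b = PP lam n a0 b` (continuity
  argument as in `E_curve`: T b is the rho of the state with `W n`-angle `(-1)^(n+1) b`).
  Slope at the centre: along the family the coordinate satisfies `dTW(n+1)/dTW(n) in [1.49, 2.01]`; in terms of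
  the original word: `d(TW 0)/d b in [-2.01, -1.49]` and `r cos psi = cos TW 0`, so `G'(b0)` in `[-2.02, -1.48]`
  for small lam; Cauchy estimate for `p''` gives `|G' + 7/4| <= 28/100` on a smaller ball.
* `word_joint`: take `U` from `word_U`, `P a b = G b + int_{a0}^a exp (U s b) ds` (integral over the segment, or the
  primitive in a of a function holomorphic in (a,b)); `exp U` bounded by `C/fib (n-1) <= C`, so the b-derivative
  of the integral is at most `C R`, small for small R.  `small`: `PP_deriv`; `large`: `kappa_lower`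
  (`|sin a0| >= c0`, choose `C >= 1/c0`).
-/

namespace SF

open Metric Set Filter Topology

theorem PP_sgn40 (lam : ℝ) (h0 : 0 ≤ lam) (h1 : lam ≤ 1 / 100) (n : ℕ) (hn : 2 ≤ n) (a b e : ℝ)
    (he : e = 1 ∨ e = -1) (hb : Real.sin b ≠ 0) (ha : Real.sin a ≠ 0) :
    PP lam n (e * a) (e * b) = e * PP lam n a b := by
  rcases he with rfl | rfl
  · simp
  · rw [neg_one_mul, neg_one_mul, neg_one_mul]
    exact f6_PP_neg lam h0 h1 n hn a b hb ha

theorem rr_ge40 (lam b : ℝ) : 1 ≤ rr lam b := by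
  unfold rr
  rw [Real.le_sqrt' one_pos]
  nlinarith [sq_nonneg (qq lam b)]

theorem wp_real40 (lam : ℝ) (h0 : 0 ≤ lam) (h1 : lam ≤ 1 / 100) (n : ℕ) (hn : 2 ≤ n) (a0 e : ℝ)
    (ha : Real.sin a0 ≠ 0) (he : e = (-1) ^ (n + 1)) (c R : ℝ) (hR : 0 < R) (T p : ℝ → ℝ)
    (hT : ContinuousOn T (Ioo (c - R) (c + R))) (hp : ContinuousOn p (Ioo (c - R) (c + R)))
    (hs : ∀ s ∈ Ioo (c - R) (c + R), Real.sin s ≠ 0)
    (e1 : ∀ s ∈ Ioo (c - R) (c + R), W lam a0 (T s) n = Real.cos s)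
    (e0 : ∀ s ∈ Ioo (c - R) (c + R), W lam a0 (T s) (n - 1) = rr lam s * Real.cos (p s))
    (e2 : ∀ s ∈ Ioo (c - R) (c + R), W lam a0 (T s) (n + 1) = rr lam s * Real.cos (p s + s))
    (hTc : TW lam a0 (T c) n = c) (hpc : p c = -PP lam n (e * a0) c - c) :
    ∀ s ∈ Ioo (c - R) (c + R), p s = -PP lam n (e * a0) s - s := by
  have he' : e = 1 ∨ e = -1 := by
    rw [he]; exact neg_one_pow_eq_or ℝ (n + 1)
  have hea : Real.sin (e * a0) ≠ 0 := by
    rcases he' with h | h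
    · rw [h, one_mul]; exact ha
    · rw [h, neg_one_mul, Real.sin_neg]; exact neg_ne_zero.mpr ha
  -- the lifted middle angle
  have hu : ∀ s ∈ Ioo (c - R) (c + R), TW lam a0 (T s) n = s := by
    apply lift_eq_cos40 c R (fun s => TW lam a0 (T s) n) (fun s => s) ?_ continuousOn_id ?_ hs hTc hR
    · exact (TW_continuous_psi lam h0 h1 n a0 ha).comp_continuousOn hT
    · intro s hs'
      rw [cos_TW lam a0 _ ha n, e1 s hs']
      exact clip_of_lt (f6_cos_lt s (hs s hs'))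
  -- the reversed states
  have hrev : ∀ s ∈ Ioo (c - R) (c + R), ∀ k ≤ n + 1,
      W lam s (PP lam n (e * a0) s) k = W lam a0 (T s) (n + 1 - k) := by
    intro s hs' k hk
    have hx : |W lam a0 (T s) n| < 1 := by
      rw [e1 s hs']; exact f6_cos_lt s (hs s hs')
    have h2 := TW_reverse lam a0 (T s) h0 h1 ha n (by omega) hx s _ (hu s hs').symm rfl n (by omega)
    have h3 : n + 1 - n = 1 := by omega
    rw [h3, TW_one, ← he] at h2
    have h4 := PP_unique lam h0 h1 n (by omega) (e * a0) s _ (hs s hs') hea h2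
    rw [h4]
    exact W_reverse lam a0 (T s) h0 h1 ha n (by omega) hx s _ (hu s hs').symm rfl k hk
  have hcont : ContinuousOn (fun s => -PP lam n (e * a0) s - s) (Ioo (c - R) (c + R)) := by
    intro s hs'
    have h2 : ContinuousAt (fun s => PP lam n (e * a0) s) s :=
      ContinuousAt.comp (g := fun p : ℝ × ℝ => PP lam n p.1 p.2) (f := fun s => (e * a0, s))
        (PP_continuousAt lam h0 h1 n (by omega) (e * a0) s hea (hs s hs')) (by fun_prop)
    exact (h2.neg.sub continuousAt_id).continuousWithinAt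
  apply lift_eq40 c R p (fun s => -PP lam n (e * a0) s - s) hp hcont ?_ hpc hR
  intro s hs'
  set π' : ℝ := PP lam n (e * a0) s with hπ
  have hr : rr lam s ≠ 0 := by have := rr_ge40 lam s; linarith
  have c1 : Real.cos π' = Real.cos (p s + s) := by
    have h2 := hrev s hs' 0 (by omega)
    rw [← hπ, f6_W_zero, Nat.sub_zero, e2 s hs'] at h2
    exact mul_left_cancel₀ hr h2
  have c2 : Real.cos (π' + s) = Real.cos (p s) := by
    have h2 := hrev s hs' 2 (by omega)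
    have h3 : n + 1 - 2 = n - 1 := by omega
    rw [← hπ, f6_W_two, h3, e0 s hs'] at h2
    exact mul_left_cancel₀ hr h2
  -- sines
  have hq1 : Real.cos (-π' - s) = Real.cos (p s) := by
    rw [← c2, ← Real.cos_neg (π' + s)]; congr 1; ring
  have hq2 : Real.cos ((-π' - s) + s) = Real.cos (p s + s) := by
    rw [← c1, ← Real.cos_neg π']; congr 1; ring
  rw [Real.cos_add, Real.cos_add, hq1] at hq2
  have hss : Real.sin (-π' - s) = Real.sin (p s) := by
    have h2 : (Real.sin (-π' - s) - Real.sin (p s)) * Real.sin s = 0 := by linarith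
    rcases mul_eq_zero.mp h2 with h | h
    · linarith
    · exact absurd h (hs s hs')
  rw [Real.cos_sub, hq1, hss]
  have := Real.sin_sq_add_cos_sq (p s)
  nlinarith

theorem rr_sgn40 (lam b e : ℝ) (he : e = 1 ∨ e = -1) : rr lam (e * b) = rr lam b := by
  rcases he with rfl | rfl
  · rw [one_mul]
  · rw [neg_one_mul]
    unfold rr qq
    rw [Real.sin_neg, abs_neg]

theorem sin_sgn40 (x e : ℝ) (he : e = 1 ∨ e = -1) : Real.sin (e * x) = e * Real.sin x := by
  rcases he with rfl | rfl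
  · simp
  · rw [neg_one_mul, Real.sin_neg, neg_one_mul]

theorem cos_sgn40 (x e : ℝ) (he : e = 1 ∨ e = -1) : Real.cos (e * x) = Real.cos x := by
  rcases he with rfl | rfl
  · simp
  · rw [neg_one_mul, Real.cos_neg]

theorem abs_sgn40 (x e : ℝ) (he : e = 1 ∨ e = -1) : |e * x| = |x| := by
  rcases he with rfl | rfl
  · simp
  · rw [neg_one_mul, abs_neg]

theorem deriv_rC40 (lam b0 c0 : ℝ) (hc : 0 < c0) (hb : c0 ≤ |Real.sin b0|) (h0 : 0 ≤ lam)
    (hl : lam ≤ c0 / 10) : ‖deriv (rC lam) (b0 : ℂ)‖ ≤ 8 * lam ^ 2 / c0 ^ 3 := by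
  obtain ⟨h1, h2⟩ := rC_holo lam b0 c0 hc hb h0 hl
  have hsub : closedBall (b0 : ℂ) (c0 / 8) ⊆ ball (b0 : ℂ) (c0 / 4) :=
    closedBall_subset_ball (by linarith)
  have h3 : deriv (fun w => rC lam w - 1) (b0 : ℂ) = deriv (rC lam) (b0 : ℂ) := by simp
  rw [← h3]
  have h4 := Complex.norm_deriv_le_of_forall_mem_sphere_norm_le (c := (b0 : ℂ)) (R := c0 / 8)
    (C := lam ^ 2 / c0 ^ 2) (f := fun w => rC lam w - 1) (by linarith)
    (by
      apply DifferentiableOn.diffContOnCl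
      rw [closure_ball _ (by linarith : c0 / 8 ≠ 0)]
      exact (h1.mono hsub).sub_const _)
    (fun w hw => (h2 w (hsub (sphere_subset_closedBall hw))).2.1)
  refine h4.trans (le_of_eq ?_)
  field_simp

theorem word_Pb (c0 : ℝ) (hc : 0 < c0) : ∃ R0 lam1 : ℝ, 0 < R0 ∧ R0 ≤ 1 ∧ 0 < lam1 ∧
    lam1 ≤ 1 / 100 ∧
    ∀ lam : ℝ, 0 < lam → lam ≤ lam1 → ∀ (n : ℕ), 6 ≤ n → ∀ a0 b0 : ℝ, c0 ≤ |Real.sin a0| →
      (∀ j ≤ 4, c0 ≤ |Real.sin (TW lam b0 (PP lam n a0 b0) j)|) →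
      ∃ G : ℂ → ℂ, DifferentiableOn ℂ G (ball (b0 : ℂ) R0) ∧
        (∀ b ∈ ball (b0 : ℂ) R0, ‖deriv G b + 7 / 4‖ ≤ 28 / 100) ∧
        ∀ b : ℝ, (b : ℂ) ∈ ball (b0 : ℂ) R0 → G b = ((PP lam n a0 b : ℝ) : ℂ) := by
  rcases lt_or_ge 1 c0 with hbig | hc1
  · refine ⟨1, 1 / 100, one_pos, le_rfl, by norm_num, le_rfl, ?_⟩
    intro lam _ _ n _ a0 b0 ha _
    exact absurd (ha.trans (Real.abs_sin_le_one a0)) (not_le.mpr hbig)
  set η : ℝ := c0 ^ 2 / 2 with hη
  have hη0 : 0 < η := by positivity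
  have hη1 : η ≤ 1 / 2 := by rw [hη]; nlinarith
  set c : ℝ := η ^ 2 / 512 * (c0 / 3) with hcd
  have hcpos : 0 < c := by positivity
  obtain ⟨rho, hrho, hcurve⟩ := curve η c hη0 hη1 hcpos
  obtain ⟨lamS, hlamS, hlamS1, hslopes⟩ := slopes_word c0 hc
  set lam1 : ℝ := min lamS (c0 ^ 2 / 40) with hlam1
  have hlam1a : lam1 ≤ lamS := min_le_left _ _
  have hlam1b : lam1 ≤ c0 ^ 2 / 40 := min_le_right _ _
  set R1 : ℝ := min rho (c0 / 4) with hR1
  have hR1a : R1 ≤ rho := min_le_left _ _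
  have hR1b : R1 ≤ c0 / 4 := min_le_right _ _
  have hR10 : 0 < R1 := lt_min hrho (by linarith)
  have hR11 : R1 ≤ 1 := by linarith
  have hR00 : R1 ^ 2 / 3200 ≤ R1 := by nlinarith
  refine ⟨R1 ^ 2 / 3200, lam1, by positivity, by linarith, lt_min hlamS (by positivity),
    hlam1a.trans hlamS1, ?_⟩
  intro lam hlam hl n hn a0 b0 ha hb
  have h0 : 0 ≤ lam := hlam.le
  have h1 : lam ≤ 1 / 100 := hl.trans (hlam1a.trans hlamS1)
  have hl2 : lam ≤ c0 ^ 2 / 40 := hl.trans hlam1b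
  have hl3 : lam ≤ η / 20 := by rw [hη]; linarith
  have hl4 : lam ≤ c0 / 10 := by nlinarith
  set ψ0 : ℝ := PP lam n a0 b0 with hψ0
  have hsb0 : c0 ≤ |Real.sin b0| := by
    have := hb 1 (by norm_num)
    rwa [TW_one] at this
  have hsb : Real.sin b0 ≠ 0 := by
    intro h; rw [h, abs_zero] at hsb0; linarith
  have hsa : Real.sin a0 ≠ 0 := by
    intro h; rw [h, abs_zero] at ha; linarith
  have hspec : TW lam b0 ψ0 n = a0 := PP_spec lam h0 h1 n (by omega) a0 b0 hsb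
  have hxn : |W lam b0 ψ0 n| < 1 := (sin_TW_ne lam b0 ψ0 hsb n).mp (by rw [hspec]; exact hsa)
  obtain ⟨e, he⟩ : ∃ e : ℝ, e = (-1) ^ (n + 1) := ⟨_, rfl⟩
  have he' : e = 1 ∨ e = -1 := by rw [he]; exact neg_one_pow_eq_or ℝ (n + 1)
  have hee : e * e = 1 := by rcases he' with h | h <;> rw [h] <;> norm_num
  have hen : (-1 : ℝ) ^ n = -e := by rw [he, pow_succ]; ring
  obtain ⟨Q, hQ⟩ : ∃ Q : ℝ, Q = coord (fun j => W lam b0 ψ0 j) (fun j => TW lam b0 ψ0 j) n := ⟨_, rfl⟩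
  obtain ⟨ρ0, hρ0⟩ : ∃ ρ : ℝ, ρ = -Q - a0 := ⟨_, rfl⟩
  have hWr : ∀ k ≤ n + 1, W lam a0 ρ0 k = W lam b0 ψ0 (n + 1 - k) := by
    intro k hk
    rw [hρ0]
    exact W_reverse lam b0 ψ0 h0 h1 hsb n (by omega) hxn a0 Q hspec.symm hQ k hk
  have hTr : ∀ k ≤ n + 1, TW lam a0 ρ0 k = (-1) ^ (k + 1) * TW lam b0 ψ0 (n + 1 - k) := by
    intro k hk
    rw [hρ0]
    exact TW_reverse lam b0 ψ0 h0 h1 hsb n (by omega) hxn a0 Q hspec.symm hQ k hk
  set b1 : ℝ := e * b0 with hb1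
  set p0 : ℝ := -(e * (ψ0 + b0)) with hp0
  -- the three indices
  have i2 : n + 1 - (n - 1) = 2 := by omega
  have i1 : n + 1 - n = 1 := by omega
  have i0 : n + 1 - (n + 1) = 0 := by omega
  have hW2 : W lam a0 ρ0 (n - 1) = W lam b0 ψ0 2 := by rw [hWr (n - 1) (by omega), i2]
  have hW1 : W lam a0 ρ0 n = W lam b0 ψ0 1 := by rw [hWr n (by omega), i1]
  have hW0 : W lam a0 ρ0 (n + 1) = W lam b0 ψ0 0 := by rw [hWr (n + 1) (by omega), i0]
  have hT1 : TW lam a0 ρ0 n = b1 := by rw [hTr n (by omega), i1, TW_one, ← he]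
  have hT2 : TW lam a0 ρ0 (n - 1) = -e * TW lam b0 ψ0 2 := by
    rw [hTr (n - 1) (by omega), i2]
    congr 1
    have : n - 1 + 1 = n := by omega
    rw [this, hen]
  have hgood : ∀ j, n ≤ j + 3 → j ≤ n + 1 → c0 ≤ |Real.sin (TW lam a0 ρ0 j)| := by
    intro j hj1 hj2
    rw [hTr j hj2, sin_sgn40 _ _ (neg_one_pow_eq_or ℝ (j + 1)),
      abs_sgn40 _ _ (neg_one_pow_eq_or ℝ (j + 1))]
    exact hb (n + 1 - j) (by omega)
  have hg1 := hgood (n - 1) (by omega) (by omega)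
  have hg2 := hgood n (by omega) (by omega)
  have hg3 := hgood (n + 1) (by omega) le_rfl
  have hne : ∀ x : ℝ, c0 ≤ |Real.sin x| → Real.sin x ≠ 0 := by
    intro x hx h; rw [h, abs_zero] at hx; linarith
  have hx1 : |W lam a0 ρ0 (n - 1)| < 1 := (sin_TW_ne lam a0 ρ0 hsa (n - 1)).mp (hne _ hg1)
  have hx2 : |W lam a0 ρ0 n| < 1 := (sin_TW_ne lam a0 ρ0 hsa n).mp (hne _ hg2)
  have hx3 : |W lam a0 ρ0 (n + 1)| < 1 := (sin_TW_ne lam a0 ρ0 hsa (n + 1)).mp (hne _ hg3)
  obtain ⟨dm, hdm0, -, hdm, hdWm⟩ := TW_deriv lam a0 ρ0 h0 h1 hsa (n - 1) (by omega) hx1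
  obtain ⟨d, hd0, -, hd, hdW⟩ := TW_deriv lam a0 ρ0 h0 h1 hsa n (by omega) hx2
  obtain ⟨dp, hdp0, -, hdp, hdWp⟩ := TW_deriv lam a0 ρ0 h0 h1 hsa (n + 1) (by omega) hx3
  obtain ⟨-, hs1, hs2, hs3, hs4⟩ := hslopes lam a0 ρ0 h0 (hl.trans hlam1a) hsa n (by omega) hgood
    dm d dp hdm hd hdp
  have hDm := deriv_WC40 lam a0 ρ0 _ (n - 1) hdWm
  have hD := deriv_WC40 lam a0 ρ0 _ n hdW
  have hDp := deriv_WC40 lam a0 ρ0 _ (n + 1) hdWp
  have hnormD : ‖deriv (fun z => WC lam a0 z n) (ρ0 : ℂ)‖ = |Real.sin b1| * d := by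
    rw [hD.deriv, Complex.norm_real, Real.norm_eq_abs, abs_mul, abs_neg, hT1, abs_of_pos hd0]
  have hsb1 : c0 ≤ |Real.sin b1| := by
    rw [hT1] at hg2; exact hg2
  have hsb1' : Real.sin b1 ≠ 0 := hne _ hsb1
  have hnormD0 : 0 < ‖deriv (fun z => WC lam a0 z n) (ρ0 : ℂ)‖ := by
    rw [hnormD]
    have : 0 < |Real.sin b1| := by linarith
    positivity
  -- the disc hypothesis
  have hdisc1 : ∀ (k : ℕ) (hk1 : k ≠ 1) (dk : ℝ), 0 < dk → dk ≤ 201 / 100 * d →
      HasDerivAt (fun s => W lam a0 s k) (-Real.sin (TW lam a0 ρ0 k) * dk) ρ0 →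
      c0 ≤ |Real.sin (TW lam a0 ρ0 k)| → ∀ z : ℂ,
      ‖z - ρ0‖ * ‖deriv (fun z => WC lam a0 z n) (ρ0 : ℂ)‖ ≤ c →
      ‖WC lam a0 z k - WC lam a0 ρ0 k‖ ≤ η / 8 := by
    intro k hk1 dk hdk0 hdk hder hsk z hz
    rw [WC_ofReal]
    apply W_disc lam a0 η h0 h1 hsa hη0 (by linarith) k hk1 ρ0
    · exact absW40 lam a0 ρ0 c0 hsa k hc hsk
    · rw [hder.deriv, abs_mul, abs_neg, abs_of_pos hdk0]
      rw [hnormD] at hz
      have h2 : |Real.sin (TW lam a0 ρ0 k)| ≤ 1 := Real.abs_sin_le_one _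
      have h3 : ‖z - ρ0‖ * (c0 * d) ≤ c := by
        refine le_trans ?_ hz
        gcongr
      have h4 : ‖z - ρ0‖ * d ≤ η ^ 2 / 512 / 3 := by
        have h5 : c0 * (‖z - ρ0‖ * d) ≤ c0 * (η ^ 2 / 512 / 3) := by
          calc c0 * (‖z - ρ0‖ * d) = ‖z - ρ0‖ * (c0 * d) := by ring
            _ ≤ c := h3
            _ = c0 * (η ^ 2 / 512 / 3) := by rw [hcd]; ring
        exact le_of_mul_le_mul_left h5 hc
      calc ‖z - ρ0‖ * (|Real.sin (TW lam a0 ρ0 k)| * dk) ≤ ‖z - ρ0‖ * (1 * (201 / 100 * d)) := by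
            gcongr
        _ = 201 / 100 * (‖z - ρ0‖ * d) := by ring
        _ ≤ η ^ 2 / 512 := by
            have : 0 < η ^ 2 / 512 := by positivity
            linarith
  have hreal : ∀ t : ℝ, (WC lam a0 (t : ℂ) (n - 1)).im = 0 ∧ (WC lam a0 (t : ℂ) n).im = 0 ∧
      (WC lam a0 (t : ℂ) (n + 1)).im = 0 := by
    intro t
    simp only [WC_ofReal, Complex.ofReal_im, and_self]
  have hinv : ∀ z : ℂ, WC lam a0 z (n + 1) ^ 2 + WC lam a0 z n ^ 2 + WC lam a0 z (n - 1) ^ 2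
      - 2 * WC lam a0 z (n + 1) * WC lam a0 z n * WC lam a0 z (n - 1) = 1 + (lam : ℂ) ^ 2 / 4 := by
    intro z
    have h2 := WC_inv40 lam a0 hsa z (n - 1)
    have h3 : n - 1 + 2 = n + 1 := by omega
    have h4 : n - 1 + 1 = n := by omega
    rw [h3, h4] at h2
    exact h2
  have hrb : rr lam b1 = rr lam b0 := by rw [hb1]; exact rr_sgn40 lam b0 e he'
  have hcb1 : Real.cos b1 = Real.cos b0 := by rw [hb1]; exact cos_sgn40 b0 e he'
  have hcp0 : Real.cos p0 = Real.cos (ψ0 + b0) := by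
    rw [hp0, Real.cos_neg]; exact cos_sgn40 _ e he'
  have hcp1 : Real.cos (p0 + b1) = Real.cos ψ0 := by
    have : p0 + b1 = -(e * ψ0) := by rw [hp0, hb1]; ring
    rw [this, Real.cos_neg]; exact cos_sgn40 _ e he'
  have hnW : ∀ k : ℕ, c0 ≤ |Real.sin (TW lam a0 ρ0 k)| → ‖WC lam a0 (ρ0 : ℂ) k‖ ≤ 1 - η := by
    intro k hk
    rw [WC_ofReal, Complex.norm_real, Real.norm_eq_abs]
    exact absW40 lam a0 ρ0 c0 hsa k hc hk
  obtain ⟨T, p, hTd, hpd, hTc, hpc, hcv, hre⟩ := hcurve lam h0 hl3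
    (fun z => WC lam a0 z (n - 1)) (fun z => WC lam a0 z n) (fun z => WC lam a0 z (n + 1))
    ρ0 b1 p0 (WC_diff40 lam a0 _) (WC_diff40 lam a0 _) (WC_diff40 lam a0 _) hreal hinv
    (hnW _ hg1) (hnW _ hg2) (hnW _ hg3) hnormD0
    (fun z hz => ⟨hdisc1 (n - 1) (by omega) dm hdm0 (by linarith) hdWm hg1 z hz,
      hdisc1 n (by omega) d hd0 (by linarith) hdW hg2 z hz,
      hdisc1 (n + 1) (by omega) dp hdp0 (by linarith) hdWp hg3 z hz⟩)
    (by simp only [WC_ofReal, hW1, f6_W_one, hcb1])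
    (by simp only [WC_ofReal, hW2, f6_W_two, hrb, hcp0])
    (by simp only [WC_ofReal, hW0, f6_W_zero, hrb, hcp1])
  have hsubR : ball (b1 : ℂ) R1 ⊆ ball (b1 : ℂ) rho := ball_subset_ball hR1a
  obtain ⟨hrCd, hrC⟩ := rC_holo lam b1 c0 hc hsb1 h0 hl4
  have hsubC : ball (b1 : ℂ) R1 ⊆ ball (b1 : ℂ) (c0 / 4) := ball_subset_ball hR1b
  -- real points
  have hballR : ∀ s ∈ Ioo (b1 - R1) (b1 + R1), (s : ℂ) ∈ ball (b1 : ℂ) R1 := by
    intro s hs
    rw [mem_ball, Complex.dist_eq, ← Complex.ofReal_sub, Complex.norm_real, Real.norm_eq_abs, abs_lt]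
    constructor <;> linarith [hs.1, hs.2]
  have hsinR : ∀ s ∈ Ioo (b1 - R1) (b1 + R1), Real.sin s ≠ 0 := by
    intro s hs h
    have h2 := (hrC s (hsubC (hballR s hs))).1
    apply h2
    rw [← Complex.ofReal_sin, h, Complex.ofReal_zero]
  have hTre : ∀ s : ℝ, s ∈ Ioo (b1 - R1) (b1 + R1) → T s = (((T s).re : ℝ) : ℂ) := by
    intro s hs
    apply Complex.ext
    · simp
    · simp [(hre s (hsubR (hballR s hs))).1]
  have hpre : ∀ s : ℝ, s ∈ Ioo (b1 - R1) (b1 + R1) → p s = (((p s).re : ℝ) : ℂ) := by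
    intro s hs
    apply Complex.ext
    · simp
    · simp [(hre s (hsubR (hballR s hs))).2]
  have hcoR : ContinuousOn (fun s : ℝ => (s : ℂ)) (Ioo (b1 - R1) (b1 + R1)) :=
    Complex.continuous_ofReal.continuousOn
  have hTcont : ContinuousOn (fun s : ℝ => (T s).re) (Ioo (b1 - R1) (b1 + R1)) :=
    Complex.continuous_re.comp_continuousOn
      (hTd.continuousOn.comp hcoR (fun s hs => hsubR (hballR s hs)))
  have hpcont : ContinuousOn (fun s : ℝ => (p s).re) (Ioo (b1 - R1) (b1 + R1)) :=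
    Complex.continuous_re.comp_continuousOn
      (hpd.continuousOn.comp hcoR (fun s hs => hsubR (hballR s hs)))
  have hqreal := wp_real40 lam h0 h1 n (by omega) a0 e hsa he b1 R1 hR10
    (fun s => (T s).re) (fun s => (p s).re) hTcont hpcont hsinR
    (by
      intro s hs
      have h2 := (hcv s (hsubR (hballR s hs))).2.1
      rw [hTre s hs, WC_ofReal, ← Complex.ofReal_cos] at h2
      exact_mod_cast h2)
    (by
      intro s hs
      have h2 := (hcv s (hsubR (hballR s hs))).2.2.1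
      rw [hTre s hs, WC_ofReal, hpre s hs, rC_ofReal lam s (hsinR s hs), ← Complex.ofReal_cos] at h2
      exact_mod_cast h2)
    (by
      intro s hs
      have h2 := (hcv s (hsubR (hballR s hs))).2.2.2.1
      rw [hTre s hs, WC_ofReal, hpre s hs, rC_ofReal lam s (hsinR s hs), ← Complex.ofReal_add,
        ← Complex.ofReal_cos] at h2
      exact_mod_cast h2)
    (by rw [hTc, Complex.ofReal_re, hT1])
    (by
      rw [hpc, Complex.ofReal_re, hp0, hb1, PP_sgn40 lam h0 h1 n (by omega) a0 b0 e he' hsb hsa,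
        ← hψ0]
      ring)
  -- the slope at the centre
  have hmc : (b1 : ℂ) ∈ ball (b1 : ℂ) R1 := mem_ball_self hR10
  have hTder : HasDerivAt T (deriv T b1) (b1 : ℂ) :=
    (hTd.differentiableAt (isOpen_ball.mem_nhds (hsubR hmc))).hasDerivAt
  have hpder : HasDerivAt p (deriv p b1) (b1 : ℂ) :=
    (hpd.differentiableAt (isOpen_ball.mem_nhds (hsubR hmc))).hasDerivAt
  have hrder : HasDerivAt (rC lam) (deriv (rC lam) b1) (b1 : ℂ) :=
    (hrCd.differentiableAt (isOpen_ball.mem_nhds (hsubC hmc))).hasDerivAt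
  have hcenter : ‖deriv p (b1 : ℂ) - 3 / 4‖ ≤ 27 / 100 := by
    -- derivative of y1 (T b) = cos b
    have k1 : HasDerivAt (fun b => WC lam a0 (T b) n)
        (((-Real.sin (TW lam a0 ρ0 n) * d : ℝ) : ℂ) * deriv T b1) (b1 : ℂ) :=
      HasDerivAt.comp_of_eq (h₂ := fun z => WC lam a0 z n) (b1 : ℂ) hD hTder hTc.symm
    have k2 : HasDerivAt (fun b : ℂ => Complex.cos b) (-Complex.sin b1) (b1 : ℂ) :=
      Complex.hasDerivAt_cos _
    have k3 : ((-Real.sin (TW lam a0 ρ0 n) * d : ℝ) : ℂ) * deriv T b1 = -Complex.sin b1 := by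
      apply (k1.congr_of_eventuallyEq ?_).unique k2
      filter_upwards [isOpen_ball.mem_nhds (hsubR hmc)] with b hb'
      exact ((hcv b hb').2.1).symm
    have k4 : HasDerivAt (fun b => WC lam a0 (T b) (n - 1))
        (((-Real.sin (TW lam a0 ρ0 (n - 1)) * dm : ℝ) : ℂ) * deriv T b1) (b1 : ℂ) :=
      HasDerivAt.comp_of_eq (h₂ := fun z => WC lam a0 z (n - 1)) (b1 : ℂ) hDm hTder hTc.symm
    have k5 : HasDerivAt (fun b : ℂ => rC lam b * Complex.cos (p b))
        (deriv (rC lam) b1 * Complex.cos (p b1)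
          + rC lam b1 * (-Complex.sin (p b1) * deriv p b1)) (b1 : ℂ) :=
      hrder.mul hpder.ccos
    have k6 : ((-Real.sin (TW lam a0 ρ0 (n - 1)) * dm : ℝ) : ℂ) * deriv T b1
        = deriv (rC lam) b1 * Complex.cos (p b1)
          + rC lam b1 * (-Complex.sin (p b1) * deriv p b1) := by
      apply (k4.congr_of_eventuallyEq ?_).unique k5
      filter_upwards [isOpen_ball.mem_nhds (hsubR hmc)] with b hb'
      exact ((hcv b hb').2.2.1).symm
    have hTval : deriv T (b1 : ℂ) = ((1 / d : ℝ) : ℂ) := by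
      rw [hT1, ← Complex.ofReal_sin] at k3
      have h2 : ((-Real.sin b1 * d : ℝ) : ℂ) ≠ 0 := by
        rw [Complex.ofReal_ne_zero]
        exact mul_ne_zero (neg_ne_zero.mpr hsb1') hd0.ne'
      apply mul_left_cancel₀ h2
      rw [k3, ← Complex.ofReal_mul, ← Complex.ofReal_neg]
      congr 1
      field_simp
    rw [hTval, hpc, rC_ofReal lam b1 hsb1', ← Complex.ofReal_cos, ← Complex.ofReal_sin] at k6
    refine slope40 c0 lam (rr lam b1) (Real.cos p0) (Real.sin p0)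
      (Real.sin (TW lam a0 ρ0 (n - 1))) (dm / d) (deriv (rC lam) b1) (deriv p b1) hc hc1 hlam hl2
      (rr_ge40 lam b1) ?_ (Real.sin_sq_add_cos_sq p0) ?_ hg1 ?_ ?_ ?_
      (deriv_rC40 lam b1 c0 hc hsb1 h0 hl4) ?_
    · rw [rr_sq, qq, add_sub_cancel_left, div_pow, mul_pow]
      have h2 : c0 ^ 2 ≤ |Real.sin b1| ^ 2 := pow_le_pow_left₀ hc.le hsb1 2
      have h3 : (2 : ℝ) ^ 2 = 4 := by norm_num
      rw [h3]
      gcongr
    · have h2 := W_cos40 lam a0 ρ0 hsa (n - 1) (hne _ hg1)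
      rw [hW2, f6_W_two, ← hcp0, ← hrb] at h2
      rw [h2]
      exact Real.sin_sq_add_cos_sq _
    · rw [hT2, hp0]
      have h2 := sin_TW2_40 lam b0 ψ0 h0 h1 hsb
      rw [neg_mul, Real.sin_neg, Real.sin_neg, sin_sgn40 _ e he', sin_sgn40 _ e he']
      have h3 : -(e * Real.sin (TW lam b0 ψ0 2)) * -(e * Real.sin (ψ0 + b0))
          = (e * e) * (Real.sin (TW lam b0 ψ0 2) * Real.sin (ψ0 + b0)) := by ring
      rw [h3, hee, one_mul]
      exact h2
    · rw [le_div_iff₀ hd0]; exact hs1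
    · rw [div_le_iff₀ hd0]; exact hs2
    · have hdC : (d : ℂ) ≠ 0 := by exact_mod_cast hd0.ne'
      push_cast at k6 ⊢
      linear_combination k6
  have hG1 : ∀ z ∈ ball (b1 : ℂ) (R1 ^ 2 / 3200), ‖deriv p z - 3 / 4‖ ≤ 28 / 100 := by
    intro z hz
    have h2 := cauchy2_40 (b1 : ℂ) R1 hR10 hR11 p (hpd.mono hsubR)
      (fun b hb' => by rw [hpc]; exact (hcv b (hsubR hb')).2.2.2.2.2.2) z hz
    have h3 : deriv p z - 3 / 4 = (deriv p z - deriv p b1) + (deriv p b1 - 3 / 4) := by ring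
    rw [h3]
    refine (norm_add_le _ _).trans ?_
    linarith
  -- the answer
  have heC : (e : ℂ) * e = 1 := by exact_mod_cast hee
  have hne' : ‖(e : ℂ)‖ = 1 := by
    rw [Complex.norm_real, Real.norm_eq_abs]
    rcases he' with h | h <;> rw [h] <;> norm_num
  have hball : ∀ r : ℝ, ∀ b ∈ ball (b0 : ℂ) r, (e : ℂ) * b ∈ ball (b1 : ℂ) r := by
    intro r b hb'
    rw [mem_ball, dist_eq_norm] at hb' ⊢
    rw [hb1, Complex.ofReal_mul, ← mul_sub, norm_mul, hne', one_mul]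
    exact hb'
  refine ⟨fun b => -(e : ℂ) * p ((e : ℂ) * b) - b, ?_, ?_, ?_⟩
  · intro b hb'
    have h2 := hpd.differentiableAt (isOpen_ball.mem_nhds
      (hsubR (ball_subset_ball hR00 (hball _ b hb'))))
    have h3 : DifferentiableAt ℂ (fun b : ℂ => (e : ℂ) * b) b := by fun_prop
    have h4 : DifferentiableAt ℂ (fun b : ℂ => p ((e : ℂ) * b)) b :=
      DifferentiableAt.comp (g := p) b h2 h3
    exact ((h4.const_mul _).sub differentiableAt_id).differentiableWithinAt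
  · intro b hb'
    have h2 := (hpd.differentiableAt (isOpen_ball.mem_nhds
      (hsubR (ball_subset_ball hR00 (hball _ b hb'))))).hasDerivAt
    have h3 : HasDerivAt (fun b : ℂ => (e : ℂ) * b) (e : ℂ) b := by
      simpa using (hasDerivAt_id b).const_mul (e : ℂ)
    have h4 : HasDerivAt (fun b : ℂ => p ((e : ℂ) * b)) (deriv p ((e : ℂ) * b) * e) b :=
      HasDerivAt.comp (h₂ := p) b h2 h3
    have h5 : HasDerivAt (fun b : ℂ => -(e : ℂ) * p ((e : ℂ) * b) - b)
        (-(e : ℂ) * (deriv p ((e : ℂ) * b) * e) - 1) b :=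
      (h4.const_mul _).sub (hasDerivAt_id b)
    rw [h5.deriv]
    have h6 : -(e : ℂ) * (deriv p ((e : ℂ) * b) * e) - 1 + 7 / 4 = -(deriv p ((e : ℂ) * b) - 3 / 4) := by
      linear_combination (-deriv p ((e : ℂ) * b)) * heC
    rw [h6, norm_neg]
    exact hG1 _ (hball _ b hb')
  · intro b hb'
    have h2 := hball _ b hb'
    have h3 : e * b ∈ Ioo (b1 - R1) (b1 + R1) := by
      rw [mem_ball, Complex.dist_eq, ← Complex.ofReal_mul, ← Complex.ofReal_sub, Complex.norm_real,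
        Real.norm_eq_abs] at h2
      have h4 := abs_lt.mp (h2.trans_le hR00)
      exact ⟨by linarith [h4.1], by linarith [h4.2]⟩
    have h4 := hqreal (e * b) h3
    have h5 := hpre (e * b) h3
    have hsbb : Real.sin b ≠ 0 := by
      have := hsinR _ h3
      rw [sin_sgn40 _ e he'] at this
      exact right_ne_zero_of_mul this
    rw [PP_sgn40 lam h0 h1 n (by omega) a0 b e he' hsbb hsa] at h4
    rw [h4] at h5
    simp only
    rw [← Complex.ofReal_mul, h5]
    push_cast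
    linear_combination ((PP lam n a0 b : ℝ) + (b : ℂ)) * heC

theorem word_joint (c0 : ℝ) (hc : 0 < c0) : ∃ R0 lam1 C : ℝ, 0 < R0 ∧ R0 ≤ 1 ∧ 0 < lam1 ∧
    lam1 ≤ 1 / 100 ∧ 0 < C ∧
    ∀ lam R : ℝ, 0 < lam → lam ≤ lam1 → 0 < R → R ≤ R0 → ∀ (n : ℕ), 6 ≤ n → ∀ a0 b0 : ℝ,
      c0 ≤ |Real.sin a0| → (∀ j ≤ 4, c0 ≤ |Real.sin (TW lam b0 (PP lam n a0 b0) j)|) →
      ∃ P U : ℂ → ℂ → ℂ, WordJ lam R C n a0 b0 P U := by
  obtain ⟨Rg, lamg, hRg, hRg1, hlamg, hlamg1, hPb⟩ := word_Pb c0 hc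
  obtain ⟨Ru, Cu, hRu, hRu1, hCu, hU⟩ := word_U c0 hc
  set R2 : ℝ := min Rg Ru with hR2
  have hR2a : R2 ≤ Rg := min_le_left _ _
  have hR2b : R2 ≤ Ru := min_le_right _ _
  have hR20 : 0 < R2 := lt_min hRg hRu
  set M : ℝ := Real.exp Cu with hM
  have hM1 : 1 ≤ M := Real.one_le_exp hCu.le
  have hM0 : 0 < M := by linarith
  set R0 : ℝ := R2 / (100 * M) with hR0
  have hR00 : 0 < R0 := by positivity
  have hR0M : R0 * M = R2 / 100 := by rw [hR0]; field_simp
  have hR0a : R0 ≤ R2 / 100 := by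
    rw [← hR0M]; nlinarith
  refine ⟨R0, min lamg c0, Cu + 1 / c0, hR00, by linarith, lt_min hlamg hc,
    (min_le_left _ _).trans hlamg1, by positivity, ?_⟩
  intro lam R hlam hl hR hRR0 n hn a0 b0 ha hb
  have h0 : 0 ≤ lam := hlam.le
  have h1 : lam ≤ 1 / 100 := hl.trans ((min_le_left _ _).trans hlamg1)
  have hsb0 : c0 ≤ |Real.sin b0| := by
    have := hb 1 (by norm_num)
    rwa [TW_one] at this
  have hsb : Real.sin b0 ≠ 0 := by
    intro h; rw [h, abs_zero] at hsb0; linarith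
  have hsa : Real.sin a0 ≠ 0 := by
    intro h; rw [h, abs_zero] at ha; linarith
  obtain ⟨G, hGd, hGb, hGr⟩ := hPb lam hlam (hl.trans (min_le_left _ _)) n hn a0 b0 ha hb
  obtain ⟨U, hUd, hUb, hUr⟩ := hU lam h0 h1 n (by omega) a0 b0 ha hsb0
  obtain ⟨-, -, hUim, hUder⟩ := hUr a0 b0 (mem_ball_self hRu) (mem_ball_self hRu)
  obtain ⟨kap, hkap0, hkap1, hkapd⟩ := PP_deriv lam h0 h1 n (by omega) a0 b0 hsb hsa
  have hke : Real.exp (U a0 b0).re = kap := hUder.unique hkapd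
  have hnorm : ‖Complex.exp (U a0 b0)‖ = kap := by
    rw [Complex.norm_exp, hke]
  have hfib1 : (1 : ℝ) ≤ (Nat.fib (n - 1) : ℝ) := by
    exact_mod_cast Nat.fib_pos.mpr (by omega)
  have hkap2 : kap ≤ 1 := hkap1.trans (by rw [div_le_one (by linarith)]; exact hfib1)
  have hprod : ball (a0 : ℂ) R2 ×ˢ ball (b0 : ℂ) R2 ⊆ ball (a0 : ℂ) Ru ×ˢ ball (b0 : ℂ) Ru :=
    Set.prod_mono (ball_subset_ball hR2b) (ball_subset_ball hR2b)
  have hgM : ∀ a ∈ ball (a0 : ℂ) R2, ∀ b ∈ ball (b0 : ℂ) R2, ‖Complex.exp (U a b)‖ ≤ M := by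
    intro a ha' b hb'
    have h2 := hUb a (ball_subset_ball hR2b ha') b (ball_subset_ball hR2b hb')
    have h3 : U a b = U a0 b0 + (U a b - U a0 b0) := by ring
    rw [h3, Complex.exp_add, norm_mul, hnorm]
    have h4 : ‖Complex.exp (U a b - U a0 b0)‖ ≤ M := by
      rw [Complex.norm_exp, hM]
      exact Real.exp_le_exp.mpr ((Complex.re_le_norm _).trans h2)
    calc kap * ‖Complex.exp (U a b - U a0 b0)‖ ≤ 1 * M := by gcongr
      _ = M := one_mul M
  obtain ⟨I, hId, hI0, hIder, hIn⟩ := jp40 (a0 : ℂ) (b0 : ℂ) R2 M hR20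
    (fun a b => Complex.exp (U a b)) ((hUd.mono hprod).cexp) hgM
  have hRR2 : R ≤ R2 := by linarith
  have hprod2 : ball (a0 : ℂ) R ×ˢ ball (b0 : ℂ) R ⊆ ball (a0 : ℂ) R2 ×ˢ ball (b0 : ℂ) R2 :=
    Set.prod_mono (ball_subset_ball hRR2) (ball_subset_ball hRR2)
  have hIb : ∀ a ∈ ball (a0 : ℂ) R2, DifferentiableOn ℂ (fun b => I a b) (ball (b0 : ℂ) R2) := by
    intro a ha' b hb'
    have h2 : DifferentiableAt ℂ (fun z : ℂ × ℂ => I z.1 z.2) (a, b) :=
      hId.differentiableAt ((isOpen_ball.prod isOpen_ball).mem_nhds ⟨ha', hb'⟩)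
    have h3 : DifferentiableAt ℂ (fun b : ℂ => (a, b)) b := by fun_prop
    exact (DifferentiableAt.comp (f := fun b : ℂ => (a, b)) (g := fun z : ℂ × ℂ => I z.1 z.2)
      b h2 h3).differentiableWithinAt
  refine ⟨fun a b => G b + I a b, U, ?_, ?_, ?_, ?_, ?_, ?_, ?_, ?_⟩
  · have h2 : DifferentiableOn ℂ (fun z : ℂ × ℂ => G z.2) (ball (a0 : ℂ) R ×ˢ ball (b0 : ℂ) R) := by
      intro z hz
      have h3 : DifferentiableAt ℂ G z.2 :=
        hGd.differentiableAt (isOpen_ball.mem_nhds (ball_subset_ball (hRR2.trans hR2a) hz.2))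
      exact (DifferentiableAt.comp (g := G) (f := fun z : ℂ × ℂ => z.2) z h3
        differentiableAt_snd).differentiableWithinAt
    exact h2.add (hId.mono hprod2)
  · exact hUd.mono (hprod2.trans hprod)
  · intro a ha' b hb'
    refine (hUb a (ball_subset_ball (hRR2.trans hR2b) ha') b
      (ball_subset_ball (hRR2.trans hR2b) hb')).trans ?_
    have : 0 < 1 / c0 := by positivity
    linarith
  · intro a ha' b hb'
    exact (hIder a (ball_subset_ball hRR2 ha') b (ball_subset_ball hRR2 hb')).const_add (G b)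
  · intro a ha' b hb'
    have h2 : DifferentiableAt ℂ G b :=
      hGd.differentiableAt (isOpen_ball.mem_nhds (ball_subset_ball (hRR2.trans hR2a) hb'))
    have h3 : DifferentiableAt ℂ (fun b => I a b) b :=
      (hIb a (ball_subset_ball hRR2 ha')).differentiableAt
        (isOpen_ball.mem_nhds (ball_subset_ball hRR2 hb'))
    have h4 : deriv (fun b' => G b' + I a b') b = deriv G b + deriv (fun b' => I a b') b :=
      deriv_fun_add h2 h3
    have hbb : dist b (b0 : ℂ) < R := hb'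
    have hsub : closedBall b (R2 / 2) ⊆ ball (b0 : ℂ) R2 := by
      intro w hw
      have h5 : dist w b ≤ R2 / 2 := hw
      rw [mem_ball]
      linarith [dist_triangle w b (b0 : ℂ)]
    have h5 := Complex.norm_deriv_le_of_forall_mem_sphere_norm_le (c := b) (R := R2 / 2)
      (C := R0 * M) (f := fun b' => I a b') (by linarith)
      (by
        apply DifferentiableOn.diffContOnCl
        rw [closure_ball _ (by linarith : R2 / 2 ≠ 0)]
        exact (hIb a (ball_subset_ball hRR2 ha')).mono hsub)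
      (fun w hw => by
        refine (hIn a (ball_subset_ball hRR2 ha') w (hsub (sphere_subset_closedBall hw))).trans ?_
        have h6 : dist a (a0 : ℂ) ≤ R0 := (mem_ball.mp ha').le.trans hRR0
        gcongr)
    rw [hR0M] at h5
    have h6 : R2 / 100 / (R2 / 2) = 2 / 100 := by field_simp
    rw [h6] at h5
    show ‖deriv (fun b' => G b' + I a b') b + 7 / 4‖ ≤ 3 / 10
    rw [h4]
    have h7 : deriv G b + deriv (fun b' => I a b') b + 7 / 4
        = (deriv G b + 7 / 4) + deriv (fun b' => I a b') b := by ring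
    rw [h7]
    refine (norm_add_le _ _).trans ?_
    have h8 := hGb b (ball_subset_ball (hRR2.trans hR2a) hb')
    linarith
  · intro a b ha' hb'
    have hbU : (b : ℂ) ∈ ball (b0 : ℂ) Ru := ball_subset_ball (hRR2.trans hR2b) hb'
    have haU : (a : ℂ) ∈ ball (a0 : ℂ) Ru := ball_subset_ball (hRR2.trans hR2b) ha'
    refine ⟨?_, (hUr a b haU hbU).2.2.1⟩
    -- constancy along the real interval
    have hmem : ∀ x : ℝ, x ∈ Ioo (a0 - R2) (a0 + R2) ↔ (x : ℂ) ∈ ball (a0 : ℂ) R2 := by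
      intro x
      rw [mem_ball, Complex.dist_eq, ← Complex.ofReal_sub, Complex.norm_real, Real.norm_eq_abs,
        abs_lt, Set.mem_Ioo]
      constructor
      · rintro ⟨h2, h3⟩; constructor <;> linarith
      · rintro ⟨h2, h3⟩; constructor <;> linarith
    have hD : ∀ x ∈ Ioo (a0 - R2) (a0 + R2),
        HasDerivAt (fun x : ℝ => I (x : ℂ) b - ((PP lam n x b : ℝ) : ℂ)) 0 x := by
      intro x hx
      have hx' := (hmem x).mp hx
      have h2 : HasDerivAt (fun x : ℝ => I (x : ℂ) b) (Complex.exp (U x b)) x :=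
        (hIder (x : ℂ) hx' b (ball_subset_ball hRR2 hb')).comp_ofReal
      obtain ⟨-, -, h3, h4⟩ := hUr x b (ball_subset_ball hR2b hx') hbU
      have h5 := h4.ofReal_comp
      have h6 : Complex.exp (U x b) = ((Real.exp (U x b).re : ℝ) : ℂ) := by
        rw [Complex.ofReal_exp]
        congr 1
        apply Complex.ext
        · simp
        · simp [h3]
      have h7 := h2.sub h5
      rw [h6, sub_self] at h7
      exact h7
    have hc1 := isOpen_Ioo.is_const_of_deriv_eq_zero (𝕜 := ℝ) isPreconnected_Ioo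
      (f := fun x : ℝ => I (x : ℂ) b - ((PP lam n x b : ℝ) : ℂ))
      (fun x hx => (hD x hx).differentiableAt.differentiableWithinAt)
      (fun x hx => (hD x hx).deriv) ((hmem a).mpr (ball_subset_ball hRR2 ha'))
      ((hmem a0).mpr (mem_ball_self hR20))
    simp only [hI0] at hc1
    have h8 := hGr b (ball_subset_ball (hRR2.trans hR2a) hb')
    rw [h8]
    linear_combination hc1
  · rw [hnorm]; exact hkap1
  · rw [hnorm]
    have h2 := kappa_lower lam h0 h1 n (by omega) a0 b0 hsa hsb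
      ((hl.trans (min_le_right _ _)).trans hsb0) kap hkapd
    have h3 : c0 * (1 / 10 : ℝ) ^ n ≤ kap := by
      refine le_trans ?_ h2
      gcongr
    have h4 : (1 / 10 : ℝ) ^ n ≤ 1 / c0 * kap := by
      rw [div_mul_eq_mul_div, one_mul, le_div_iff₀ hc]
      linarith
    have h5 : 0 ≤ Cu * kap := by positivity
    nlinarith

end SF
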