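import Pool.Agent.Helper65.SF.P1
import Pool.Agent.Helper65.SF.P4a
import Pool.Agent.Helper65.SF.WP

/-!
# SF-P4: real curves and words satisfy the hypotheses of the pair recursion

Setting: a word of final index `n >= 6` from level `l` to level `m = l - 1 + n`; two curves at level `l` over
`b0` (unshifted, and shifted by `(i,j)`), two curves at level m over `a0` (unshifted, shifted by
`(fibz i j (n-1), fibz i j n)`).

Proof in words.
* `link`: `P a0 b0 = PP lam n a0 b0 = p0 b0` because the state of `t0 = T0 b0 = T0m a0` has angle `b0` at level l and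
  `a0` at level m (`state_E`, `PP_unique`).  `beta_exists` for `p0` and for `p1`
  (`|p1 b0 - P a0 b0| = |p1 b0 - p0 b0| <= e <= R/20`; `k1 = e^C k0 <= 1/20`).  Reality: for real a the number
  `be a` is real: `g b = p b - P a b` is real on the reals (so `conj (be a)` is also a zero, uniqueness; conj symmetry of
  holomorphic functions which are real on the real line), or solve over the reals directly (g real with
  derivative `>= 1.9`) and use uniqueness.  For real a: `t = T0 (be0 a)` has `TE lam t l = be0 a`,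
  `psiE = p0 (be0 a) = PP lam n a (be0 a)`, so `TE lam t m = TW .. n = a = TE lam (T0m a) m`, so `t = T0m a`
  (`TE_inj`).  In the same way with shifts for T1.  Identity theorem on the ball (both sides are holomorphic).
  `hdm`: for real a, `p0m a = psiE lam (T0m a) m = QQ lam n a (be0 a)` and
  `p1m a = psiE lam (T1m a) m - fibz i j (n-1) pi = QQ lam n a (be1 a)` (`coord_shift`), and
  `QQ lam n a be1 - QQ lam n a be0 = (-1)^n (be1 - be0) int_0^1 exp (U a (be0 + t (be1 - be0))) dt` by `QQ_deriv`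
  (kappa = exp (U a b), `WordJ.Pa`, `WordJ.re`); identity theorem again.
-/

namespace SF

open Metric

/-- Identity theorem: two holomorphic functions on a ball with real centre which agree at the real
points agree. -/
theorem p4_ident (c R : ℝ) (f g : ℂ → ℂ) (hf : DifferentiableOn ℂ f (ball (c : ℂ) R))
    (hg : DifferentiableOn ℂ g (ball (c : ℂ) R))
    (h : ∀ x : ℝ, (x : ℂ) ∈ ball (c : ℂ) R → f x = g x) : ∀ z ∈ ball (c : ℂ) R, f z = g z := by
  intro z hz
  have hR : 0 < R := lt_of_le_of_lt dist_nonneg hz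
  have h1 := hf.analyticOnNhd isOpen_ball
  have h2 := hg.analyticOnNhd isOpen_ball
  refine h1.eqOn_of_preconnected_of_frequently_eq h2 (convex_ball _ _).isPreconnected
    (mem_ball_self hR) ?_ hz
  rw [Filter.frequently_iff]
  intro V hV
  obtain ⟨e, he, hball⟩ := Metric.mem_nhdsWithin_iff.1 hV
  have hm : 0 < min (e / 2) (R / 2) := by positivity
  have hd : dist ((c + min (e / 2) (R / 2) : ℝ) : ℂ) (c : ℂ) = min (e / 2) (R / 2) := by
    rw [dist_eq_norm, ← Complex.ofReal_sub, Complex.norm_real, Real.norm_eq_abs]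
    rw [show c + min (e / 2) (R / 2) - c = min (e / 2) (R / 2) by ring, abs_of_pos hm]
  refine ⟨((c + min (e / 2) (R / 2) : ℝ) : ℂ), hball ⟨?_, ?_⟩, h _ ?_⟩
  · rw [mem_ball, hd]
    exact lt_of_le_of_lt (min_le_left _ _) (by linarith)
  · simp only [Set.mem_compl_iff, Set.mem_singleton_iff]
    intro hc
    have := Complex.ofReal_inj.1 hc
    linarith
  · rw [mem_ball, hd]
    exact lt_of_le_of_lt (min_le_right _ _) (by linarith)

theorem p4_conj_mem (c R : ℝ) (z : ℂ) (hz : z ∈ ball (c : ℂ) R) :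
    (starRingEnd ℂ) z ∈ ball (c : ℂ) R := by
  rw [mem_ball, dist_eq_norm] at hz ⊢
  rwa [← Complex.conj_ofReal c, ← map_sub, Complex.norm_conj]

/-- A holomorphic function on a ball with real centre, real at the real points, commutes with
conjugation. -/
theorem p4_conj (c R : ℝ) (f : ℂ → ℂ) (hf : DifferentiableOn ℂ f (ball (c : ℂ) R))
    (hr : ∀ x : ℝ, (x : ℂ) ∈ ball (c : ℂ) R → (f x).im = 0) :
    ∀ z ∈ ball (c : ℂ) R, f (starRingEnd ℂ z) = starRingEnd ℂ (f z) := by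
  intro z hz
  have hg : DifferentiableOn ℂ (starRingEnd ℂ ∘ f ∘ starRingEnd ℂ) (ball (c : ℂ) R) := by
    intro x hx
    apply DifferentiableAt.differentiableWithinAt
    rw [differentiableAt_conj_conj_iff]
    exact hf.differentiableAt (isOpen_ball.mem_nhds (p4_conj_mem c R x hx))
  have h4 : ∀ t : ℝ, (t : ℂ) ∈ ball (c : ℂ) R → f t = (starRingEnd ℂ ∘ f ∘ starRingEnd ℂ) t := by
    intro t ht
    simp only [Function.comp_apply, Complex.conj_ofReal]
    exact (Complex.conj_eq_iff_im.2 (hr t ht)).symm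
  have h5 := p4_ident c R f _ hf hg h4 _ (p4_conj_mem c R z hz)
  simpa using h5

/-- A parametric integral of a bounded family of holomorphic functions is holomorphic. -/
theorem p4_param (a0 : ℂ) (R M : ℝ) (f : ℂ → ℝ → ℂ)
    (hd : ∀ t ∈ Set.Icc (0 : ℝ) 1, DifferentiableOn ℂ (fun a => f a t) (ball a0 R))
    (hc : ∀ a ∈ ball a0 R, ContinuousOn (fun t => f a t) (Set.Icc 0 1))
    (hM : ∀ a ∈ ball a0 R, ∀ t ∈ Set.Icc (0 : ℝ) 1, ‖f a t‖ ≤ M) :
    DifferentiableOn ℂ (fun a => ∫ t in (0 : ℝ)..1, f a t) (ball a0 R) := by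
  intro a1 ha1
  obtain ⟨r, hr, hrb⟩ := Metric.isOpen_iff.1 isOpen_ball a1 ha1
  have hsub : ∀ x ∈ ball a1 (r / 2), ∀ y ∈ ball x (r / 2), y ∈ ball a0 R := by
    intro x hx y hy
    apply hrb
    rw [mem_ball] at *
    calc dist y a1 ≤ dist y x + dist x a1 := dist_triangle _ _ _
      _ < r := by linarith
  have hsub1 : ball a1 (r / 2) ⊆ ball a0 R := fun x hx =>
    hsub x hx x (mem_ball_self (by positivity))
  have hint : Set.uIoc (0 : ℝ) 1 = Set.Ioc 0 1 := Set.uIoc_of_le zero_le_one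
  have hmeas : ∀ x ∈ ball a0 R, MeasureTheory.AEStronglyMeasurable (f x)
      (MeasureTheory.volume.restrict (Set.uIoc (0 : ℝ) 1)) := by
    intro x hx
    rw [hint]
    exact ((hc x hx).mono Set.Ioc_subset_Icc_self).aestronglyMeasurable measurableSet_Ioc
  apply DifferentiableAt.differentiableWithinAt
  have key := intervalIntegral.hasDerivAt_integral_of_dominated_loc_of_deriv_le
    (μ := MeasureTheory.volume) (a := (0 : ℝ)) (b := 1) (x₀ := a1) (s := ball a1 (r / 2))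
    (F := f) (F' := fun a t => deriv (fun a' => f a' t) a) (bound := fun _ => M / (r / 4))
    (ball_mem_nhds a1 (by positivity)) ?_ ?_ ?_ ?_ ?_ ?_
  · exact key.2.differentiableAt
  · filter_upwards [isOpen_ball.mem_nhds ha1] with x hx
    exact hmeas x hx
  · apply ContinuousOn.intervalIntegrable
    rw [Set.uIcc_of_le zero_le_one]
    exact hc a1 ha1
  · have hh : ∀ n : ℕ, a1 + ((r / 4 / (n + 1) : ℝ) : ℂ) ∈ ball a0 R := by
      intro n
      apply hsub1
      rw [mem_ball, dist_eq_norm, add_sub_cancel_left, Complex.norm_real, Real.norm_eq_abs,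
        abs_of_pos (by positivity)]
      calc r / 4 / (n + 1) ≤ r / 4 := div_le_self (by positivity) (by
            have : (0 : ℝ) ≤ n := Nat.cast_nonneg n
            linarith)
        _ < r / 2 := by linarith
    apply aestronglyMeasurable_of_tendsto_ae Filter.atTop
      (f := fun (n : ℕ) t => (((r / 4 / (n + 1) : ℝ) : ℂ))⁻¹ *
        (f (a1 + ((r / 4 / (n + 1) : ℝ) : ℂ)) t - f a1 t))
    · intro n
      exact ((hmeas _ (hh n)).sub (hmeas _ ha1)).const_mul _
    · rw [hint]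
      refine (MeasureTheory.ae_restrict_iff' measurableSet_Ioc).2 (Filter.Eventually.of_forall ?_)
      intro t ht
      have hda := ((hd t (Set.Ioc_subset_Icc_self ht)).differentiableAt
        (isOpen_ball.mem_nhds ha1)).hasDerivAt
      rw [hasDerivAt_iff_tendsto_slope_zero] at hda
      have ht0 : Filter.Tendsto (fun n : ℕ => ((r / 4 / (n + 1) : ℝ) : ℂ)) Filter.atTop
          (nhdsWithin 0 {0}ᶜ) := by
        rw [tendsto_nhdsWithin_iff]
        constructor
        · have h1 : Filter.Tendsto (fun n : ℕ => (r / 4 / (n + 1) : ℝ)) Filter.atTop (nhds 0) := by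
            have h2 := (tendsto_one_div_add_atTop_nhds_zero_nat (𝕜 := ℝ)).const_mul (r / 4)
            rw [mul_zero] at h2
            refine h2.congr (fun n => ?_)
            ring
          exact_mod_cast (Complex.continuous_ofReal.tendsto 0).comp h1
        · refine Filter.Eventually.of_forall (fun n => ?_)
          simp only [Set.mem_compl_iff, Set.mem_singleton_iff, Complex.ofReal_eq_zero]
          positivity
      exact hda.comp ht0
  · refine Filter.Eventually.of_forall (fun t ht x hx => ?_)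
    rw [hint] at ht
    have ht' := Set.Ioc_subset_Icc_self ht
    apply Complex.norm_deriv_le_of_forall_mem_sphere_norm_le (by positivity)
    · apply DifferentiableOn.diffContOnCl
      apply (hd t ht').mono
      intro y hy
      have hy' := closure_ball_subset_closedBall hy
      apply hsub x hx y
      rw [mem_closedBall] at hy'
      rw [mem_ball]
      linarith
    · intro y hy
      apply hM y _ t ht'
      apply hsub x hx y
      rw [mem_sphere] at hy
      rw [mem_ball, hy]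
      linarith
  · exact intervalIntegrable_const
  · refine Filter.Eventually.of_forall (fun t ht x hx => ?_)
    rw [hint] at ht
    exact ((hd t (Set.Ioc_subset_Icc_self ht)).differentiableAt
      (isOpen_ball.mem_nhds (hsub1 hx))).hasDerivAt

theorem p4_signinv (z : ℤ) (x y : ℝ) (h : x = (-1) ^ z * y) : y = (-1) ^ z * x := by
  rw [h, ← mul_assoc, F3bAux.neg_one_slf, one_mul]

/-- The state of a curve with shift `(i, j)` over a real point: angle at level `m` and coordinate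
at level `m`. -/
theorem p4_state (lam : ℝ) (h0 : 0 ≤ lam) (h1 : lam ≤ 1 / 100) (l n m : ℕ) (hl : 1 ≤ l)
    (hn : 6 ≤ n) (hm : m = l - 1 + n) (i j : ℤ) (t b p a : ℝ) (hb : Real.sin b ≠ 0)
    (ht : TE lam t l = b + j * Real.pi) (hp : psiE lam t l = p + i * Real.pi)
    (hP : PP lam n a b = p) :
    TE lam t m = a + (fibz i j n : ℝ) * Real.pi ∧
      psiE lam t m = QQ lam n a b + (fibz i j (n - 1) : ℝ) * Real.pi := by
  have hx : |X lam t l| < 1 := by
    rw [← sin_TE_ne lam t h0 l, ht]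
    exact sin_shift_ne b j hb
  have hs := state_E lam t h0 h1 l hl hx i j
  rw [ht, hp] at hs
  simp only [add_sub_cancel_right] at hs
  have hspec := PP_spec lam h0 h1 n (by omega) a b hb
  have e1 : TE lam t m = a + (fibz i j n : ℝ) * Real.pi := by
    have := (hs n).2
    rw [hP] at hspec
    rw [hspec, ← hm] at this
    linarith
  refine ⟨e1, ?_⟩
  obtain ⟨n', rfl⟩ : ∃ n', n = n' + 1 := ⟨n - 1, by omega⟩
  have hcs := coord_shift (fun k => W lam b p k) (fun k => TW lam b p k)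
    (fun k => X lam t (l - 1 + k)) (fun k => TE lam t (l - 1 + k)) (fibz i j) (n' + 1) (by omega)
    (by simp [fibz]) (fun k _ _ => p4_signinv _ _ _ (hs k).1)
    (fun k _ _ => by
      have := (hs k).2
      linarith)
  unfold QQ
  rw [hP, ← hcs]
  unfold psiE coord
  rw [hm]
  have e2 : l - 1 + (n' + 1) - 1 = l - 1 + (n' + 1 - 1) := by omega
  simp only [e2]
  rfl

/-- Converse: the coordinate of a state with given angle at level `m`. -/
theorem p4_PP (lam : ℝ) (h0 : 0 ≤ lam) (h1 : lam ≤ 1 / 100) (l n m : ℕ) (hl : 1 ≤ l)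
    (hn : 6 ≤ n) (hm : m = l - 1 + n) (i j : ℤ) (t b p a : ℝ) (hb : Real.sin b ≠ 0)
    (ha : Real.sin a ≠ 0)
    (ht : TE lam t l = b + j * Real.pi) (hp : psiE lam t l = p + i * Real.pi)
    (hT : TE lam t m = a + (fibz i j n : ℝ) * Real.pi) : PP lam n a b = p := by
  have hx : |X lam t l| < 1 := by
    rw [← sin_TE_ne lam t h0 l, ht]
    exact sin_shift_ne b j hb
  have hs := (state_E lam t h0 h1 l hl hx i j n).2
  rw [ht, hp] at hs
  simp only [add_sub_cancel_right] at hs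
  apply PP_unique lam h0 h1 n (by omega) a b p hb ha
  rw [hs, ← hm, hT]
  ring

/-- Reality of the intersection point. -/
theorem p4_real (R a0 b0 : ℝ) (p : ℂ → ℂ) (P : ℂ → ℂ → ℂ) (be : ℂ → ℂ)
    (hp : DifferentiableOn ℂ p (ball (b0 : ℂ) R))
    (hpr : ∀ x : ℝ, (x : ℂ) ∈ ball (b0 : ℂ) R → (p x).im = 0)
    (hP : DifferentiableOn ℂ (fun z : ℂ × ℂ => P z.1 z.2) (ball (a0 : ℂ) R ×ˢ ball (b0 : ℂ) R))
    (hPr : ∀ a b : ℝ, (a : ℂ) ∈ ball (a0 : ℂ) R → (b : ℂ) ∈ ball (b0 : ℂ) R → (P a b).im = 0)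
    (hbe : ∀ a ∈ ball (a0 : ℂ) R, be a ∈ ball (b0 : ℂ) R ∧ p (be a) = P a (be a))
    (hu : ∀ a ∈ ball (a0 : ℂ) R, ∀ b ∈ ball (b0 : ℂ) R, p b = P a b → b = be a)
    (a : ℝ) (ha : (a : ℂ) ∈ ball (a0 : ℂ) R) : (be a).im = 0 := by
  have hPa : DifferentiableOn ℂ (fun b => P a b) (ball (b0 : ℂ) R) := by
    intro b hb
    have h1 := hP ((a : ℂ), b) ⟨ha, hb⟩
    exact h1.comp b (t := ball (a0 : ℂ) R ×ˢ ball (b0 : ℂ) R) (f := fun b => ((a : ℂ), b))
      (by fun_prop) (fun x hx => ⟨ha, hx⟩)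
  have h2 := p4_conj b0 R p hp hpr (be a) (hbe a ha).1
  have h3 := p4_conj b0 R (fun b => P a b) hPa (fun x hx => hPr a x ha hx) (be a) (hbe a ha).1
  have h4 := hu a ha _ (p4_conj_mem b0 R _ (hbe a ha).1) (by rw [h2, h3, (hbe a ha).2])
  exact Complex.conj_eq_iff_im.1 h4

theorem p4_seg (c : ℂ) (R : ℝ) (x y : ℂ) (hx : x ∈ ball c R) (hy : y ∈ ball c R) (t : ℝ)
    (ht : t ∈ Set.Icc (0 : ℝ) 1) : x + t * (y - x) ∈ ball c R := by
  have h := (convex_ball c R) hx hy (a := 1 - t) (b := t) (by linarith [ht.2]) ht.1 (by ring)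
  have e : x + t * (y - x) = (1 - t) • x + t • y := by
    simp only [Complex.real_smul]
    push_cast
    ring
  rw [e]
  exact h

theorem p4_expcont (a0 b0 : ℂ) (R : ℝ) (U : ℂ → ℂ → ℂ)
    (hU : DifferentiableOn ℂ (fun z : ℂ × ℂ => U z.1 z.2) (ball a0 R ×ˢ ball b0 R))
    (a x y : ℂ) (ha : a ∈ ball a0 R) (hx : x ∈ ball b0 R) (hy : y ∈ ball b0 R) :
    ContinuousOn (fun t : ℝ => U a (x + t * (y - x))) (Set.Icc (0 : ℝ) 1) := by
  have h1 := hU.continuousOn
  exact h1.comp (t := ball a0 R ×ˢ ball b0 R) (f := fun t : ℝ => (a, x + t * (y - x)))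
    (by fun_prop) (fun t ht => ⟨ha, p4_seg b0 R x y hx hy t ht⟩)

theorem p4_QQ (lam R C : ℝ) (h0 : 0 ≤ lam) (h1 : lam ≤ 1 / 100) (n : ℕ) (hn : 6 ≤ n) (a0 b0 : ℝ)
    (P U : ℂ → ℂ → ℂ) (hW : WordJ lam R C n a0 b0 P U)
    (hsa : ∀ x : ℝ, |x - a0| < R → Real.sin x ≠ 0) (hsb : ∀ x : ℝ, |x - b0| < R → Real.sin x ≠ 0)
    (a x y : ℝ) (ha : (a : ℂ) ∈ ball (a0 : ℂ) R) (hx : (x : ℂ) ∈ ball (b0 : ℂ) R)
    (hy : (y : ℂ) ∈ ball (b0 : ℂ) R) :
    ((QQ lam n a y - QQ lam n a x : ℝ) : ℂ) = (-1) ^ n * ((y : ℂ) - x) *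
      ∫ t in (0 : ℝ)..1, Complex.exp (U a (x + t * (y - x))) := by
  have hmem : ∀ c z : ℝ, (z : ℂ) ∈ ball (c : ℂ) R ↔ |z - c| < R := by
    intro c z
    rw [mem_ball, dist_eq_norm, ← Complex.ofReal_sub, Complex.norm_real, Real.norm_eq_abs]
  have key : ∀ b : ℝ, (b : ℂ) ∈ ball (b0 : ℂ) R →
      HasDerivAt (fun b' => QQ lam n a b') ((-1) ^ n * Real.exp (U a b).re) b := by
    intro b hb
    apply QQ_deriv lam h0 h1 n (by omega) a b (hsa a ((hmem a0 a).1 ha)) (hsb b ((hmem b0 b).1 hb))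
    have h2 := (hW.Pa a ha b hb).real_of_complex
    have h3 : (Complex.exp (U a b)).re = Real.exp (U a b).re := by
      rw [Complex.exp_re, (hW.re a b ha hb).2, Real.cos_zero, mul_one]
    rw [h3] at h2
    apply h2.congr_of_eventuallyEq
    have h4 : ∀ᶠ z : ℝ in nhds a, (z : ℂ) ∈ ball (a0 : ℂ) R :=
      Complex.continuous_ofReal.continuousAt.eventually (isOpen_ball.mem_nhds ha)
    filter_upwards [h4] with z hz
    rw [(hW.re z b hz hb).1, Complex.ofReal_re]
  have hseg : ∀ t ∈ Set.Icc (0 : ℝ) 1, ((x + t * (y - x) : ℝ) : ℂ) ∈ ball (b0 : ℂ) R := by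
    intro t ht
    have := p4_seg b0 R x y hx hy t ht
    push_cast
    exact this
  have hcont := p4_expcont a0 b0 R U hW.dU a x y ha hx hy
  have hG : ∀ t ∈ Set.uIcc (0 : ℝ) 1, HasDerivAt (fun t : ℝ => QQ lam n a (x + t * (y - x)))
      ((-1) ^ n * Real.exp (U a ((x + t * (y - x) : ℝ) : ℂ)).re * (y - x)) t := by
    intro t ht
    rw [Set.uIcc_of_le zero_le_one] at ht
    have h5 := key _ (hseg t ht)
    have h6 : HasDerivAt (fun t : ℝ => x + t * (y - x)) (y - x) t := by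
      have := ((hasDerivAt_id t).mul_const (y - x)).const_add x
      simpa using this
    exact h5.comp t h6
  have hint := intervalIntegral.integral_eq_sub_of_hasDerivAt hG (by
    apply ContinuousOn.intervalIntegrable
    rw [Set.uIcc_of_le zero_le_one]
    refine (ContinuousOn.mul continuousOn_const ?_).mul continuousOn_const
    apply Real.continuous_exp.comp_continuousOn
    apply Complex.continuous_re.comp_continuousOn
    push_cast
    exact hcont)
  simp only [one_mul, zero_mul, add_zero, add_sub_cancel] at hint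
  rw [← hint]
  have e1 : (∫ t in (0 : ℝ)..1, Complex.exp (U a (x + t * (y - x))))
      = ∫ t in (0 : ℝ)..1, ((Real.exp (U a ((x + t * (y - x) : ℝ) : ℂ)).re : ℝ) : ℂ) := by
    apply intervalIntegral.integral_congr
    intro t ht
    rw [Set.uIcc_of_le zero_le_one] at ht
    have h7 := (hW.re a _ ha (hseg t ht)).2
    have h8 : U a ((x + t * (y - x) : ℝ) : ℂ) = (((U a ((x + t * (y - x) : ℝ) : ℂ)).re : ℝ) : ℂ) := by
      apply Complex.ext
      · simp
      · rw [h7, Complex.ofReal_im]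
    simp only
    rw [Complex.ofReal_exp, ← h8]
    push_cast
    rfl
  rw [e1, intervalIntegral.integral_ofReal, intervalIntegral.integral_mul_const,
    intervalIntegral.integral_const_mul]
  push_cast
  ring

theorem link (R C : ℝ) (hR : 0 < R) (hR1 : R ≤ 1) (hC : 1 ≤ C) :
    ∃ k0 e0 : ℝ, 0 < k0 ∧ 0 < e0 ∧ ∀ (lam L e : ℝ), 0 < lam → lam ≤ 1 / 100 → 0 ≤ L → e ≤ e0 →
      ∀ (l n m : ℕ), 1 ≤ l → 6 ≤ n → m = l - 1 + n → ∀ (i j : ℤ) (a0 b0 : ℝ),
      (∀ x : ℝ, |x - a0| < R → Real.sin x ≠ 0) → (∀ x : ℝ, |x - b0| < R → Real.sin x ≠ 0) →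
      ∀ (T0 p0 T1 p1 T0m p0m T1m p1m : ℂ → ℂ) (P U : ℂ → ℂ → ℂ),
      Curve lam R l 0 0 b0 T0 p0 → Curve lam R l i j b0 T1 p1 →
      Curve lam R m 0 0 a0 T0m p0m →
      Curve lam R m (fibz i j (n - 1)) (fibz i j n) a0 T1m p1m →
      WordJ lam R C n a0 b0 P U → T0m a0 = T0 b0 → ‖Complex.exp (U a0 b0)‖ ≤ k0 →
      (∀ b ∈ ball (b0 : ℂ) R, p1 b - p0 b ≠ 0 ∧ ‖p1 b - p0 b‖ ≤ e) →
      (∀ b ∈ ball (b0 : ℂ) (R / 2), ‖deriv p1 b - deriv p0 b‖ ≤ L * ‖p1 b - p0 b‖) →
      ∃ be0 be1 : ℂ → ℂ, PairHyp R C L e a0 b0 ((-1) ^ n) P U T0 T1 p0 p1 T0m T1m be0 be1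
          (fun a => p1m a - p0m a) ∧ be0 a0 = b0 ∧
        ∀ a : ℝ, (a : ℂ) ∈ ball (a0 : ℂ) R → (be0 a).im = 0 ∧ (be1 a).im = 0 := by
  refine ⟨1 / (20 * Real.exp C), R / 20, by positivity, by positivity, ?_⟩
  intro lam L e hlam hlam1 hL he l n m hl hn hm i j a0 b0 hsa hsb T0 p0 T1 p1 T0m p0m T1m p1m P U
    C0 C1 D0 D1 W hT hk hdel hrat
  have h0 : 0 ≤ lam := hlam.le
  have ha0 : (a0 : ℂ) ∈ ball (a0 : ℂ) R := mem_ball_self hR
  have hb0 : (b0 : ℂ) ∈ ball (b0 : ℂ) R := mem_ball_self hR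
  have hmem : ∀ c z : ℝ, (z : ℂ) ∈ ball (c : ℂ) R ↔ |z - c| < R := by
    intro c z
    rw [mem_ball, dist_eq_norm, ← Complex.ofReal_sub, Complex.norm_real, Real.norm_eq_abs]
  have hofre : ∀ z : ℂ, z.im = 0 → ((z.re : ℝ) : ℂ) = z := fun z hz => by
    apply Complex.ext <;> simp [hz]
  have hfib : ∀ k : ℕ, fibz 0 0 k = 0 := by
    intro k
    have : fibz 0 0 k = 0 ∧ fibz 0 0 (k + 1) = 0 := by
      induction k with
      | zero => exact ⟨rfl, rfl⟩
      | succ k ih => exact ⟨ih.2, by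
          change fibz 0 0 (k + 1) + fibz 0 0 k = 0
          rw [ih.1, ih.2]
          rfl⟩
    exact this.1
  have hk1 : ∀ a ∈ ball (a0 : ℂ) R, ∀ b ∈ ball (b0 : ℂ) R, ‖Complex.exp (U a b)‖ ≤ 1 / 20 := by
    intro a ha b hb
    rw [Complex.norm_exp] at hk ⊢
    have h1 : (U a b).re ≤ (U a0 b0).re + C := by
      have h2 := W.Ub a ha b hb
      have h3 := (Complex.re_le_norm (U a b - U a0 b0)).trans h2
      rw [Complex.sub_re] at h3
      linarith
    calc Real.exp (U a b).re ≤ Real.exp ((U a0 b0).re + C) := Real.exp_le_exp.2 h1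
      _ = Real.exp (U a0 b0).re * Real.exp C := Real.exp_add _ _
      _ ≤ 1 / (20 * Real.exp C) * Real.exp C := by gcongr
      _ = 1 / 20 := by
        field_simp
  -- the base point
  have hb : p0 b0 = P a0 b0 := by
    obtain ⟨r1, r2, r3, r4⟩ := C0.re b0 hb0
    obtain ⟨s1, s2, s3, s4⟩ := D0.re a0 ha0
    rw [hT] at s3
    have h1 := p4_PP lam h0 hlam1 l n m hl hn hm 0 0 (T0 b0).re b0 (p0 b0).re a0
      (hsb b0 (by simpa using hR)) (hsa a0 (by simpa using hR)) r3 r4 (by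
        rw [s3, hfib])
    rw [(W.re a0 b0 ha0 hb0).1, h1, hofre _ r2]
  have hPa : ∀ a ∈ ball (a0 : ℂ) R, ∀ b ∈ ball (b0 : ℂ) R,
      ‖deriv (fun a' => P a' b) a‖ ≤ 1 / 20 := by
    intro a ha b hb
    rw [(W.Pa a ha b hb).deriv]
    exact hk1 a ha b hb
  obtain ⟨be0, B0d, B0, B0u⟩ := beta_exists R hR a0 b0 p0 P (1 / 20) le_rfl C0.dp C0.slope W.dP
    W.Pb hPa (by rw [hb, sub_self, norm_zero]; positivity)
  obtain ⟨be1, B1d, B1, B1u⟩ := beta_exists R hR a0 b0 p1 P (1 / 20) le_rfl C1.dp C1.slope W.dP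
    W.Pb hPa (by rw [← hb]; exact ((hdel b0 hb0).2).trans he)
  have hsub : ball (b0 : ℂ) (R / 8) ⊆ ball (b0 : ℂ) R := ball_subset_ball (by linarith)
  have hPr : ∀ a b : ℝ, (a : ℂ) ∈ ball (a0 : ℂ) R → (b : ℂ) ∈ ball (b0 : ℂ) R →
      (P a b).im = 0 := by
    intro a b ha hb
    rw [(W.re a b ha hb).1, Complex.ofReal_im]
  have hr0 : ∀ a : ℝ, (a : ℂ) ∈ ball (a0 : ℂ) R → (be0 a).im = 0 := fun a ha =>
    p4_real R a0 b0 p0 P be0 C0.dp (fun x hx => (C0.re x hx).2.1) W.dP hPr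
      (fun a ha => ⟨hsub (B0 a ha).1, (B0 a ha).2.1⟩) B0u a ha
  have hr1 : ∀ a : ℝ, (a : ℂ) ∈ ball (a0 : ℂ) R → (be1 a).im = 0 := fun a ha =>
    p4_real R a0 b0 p1 P be1 C1.dp (fun x hx => (C1.re x hx).2.1) W.dP hPr
      (fun a ha => ⟨hsub (B1 a ha).1, (B1 a ha).2.1⟩) B1u a ha
  -- the state over a real point
  have hst : ∀ (i j : ℤ) (T p Tm pm be : ℂ → ℂ), Curve lam R l i j b0 T p →
      Curve lam R m (fibz i j (n - 1)) (fibz i j n) a0 Tm pm →
      (∀ a ∈ ball (a0 : ℂ) R, be a ∈ ball (b0 : ℂ) (R / 8) ∧ p (be a) = P a (be a)) →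
      (∀ a : ℝ, (a : ℂ) ∈ ball (a0 : ℂ) R → (be a).im = 0) →
      ∀ a : ℝ, (a : ℂ) ∈ ball (a0 : ℂ) R →
        Tm a = T (be a) ∧ pm a = ((QQ lam n a (be a).re : ℝ) : ℂ) := by
    intro i j T p Tm pm be C' D' B' hr' a ha
    obtain ⟨s1, s2, s3, s4⟩ := D'.re a ha
    have hbe := hofre _ (hr' a ha)
    have hbm : (((be a).re : ℝ) : ℂ) ∈ ball (b0 : ℂ) R := by
      rw [hbe]
      exact hsub (B' a ha).1
    obtain ⟨r1, r2, r3, r4⟩ := C'.re _ hbm
    have hPP : PP lam n a (be a).re = (p ((be a).re : ℝ)).re := by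
      rw [hbe, (B' a ha).2]
      have := (W.re a (be a).re ha hbm).1
      rw [hbe] at this
      rw [this, Complex.ofReal_re]
    have hsa' := hsa a ((hmem a0 a).1 ha)
    have hst' := p4_state lam h0 hlam1 l n m hl hn hm i j _ _ _ a (hsb _ ((hmem b0 _).1 hbm)) r3 r4
      hPP
    have ht : (T ((be a).re : ℝ)).re = (Tm a).re := by
      apply TE_inj lam h0 hlam1 m (by omega)
      · rw [hst'.1, s3]
      · rw [hst'.1]
        exact sin_shift_ne _ _ hsa'
    have hTT : T (be a) = Tm a := by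
      rw [← hofre _ s1, ← ht, hofre _ r1, hbe]
    refine ⟨hTT.symm, ?_⟩
    rw [← hofre _ s2]
    congr 1
    have h5 := hst'.2
    rw [ht, s4] at h5
    linarith
  have E0 := hst 0 0 T0 p0 T0m p0m be0 C0 (by rw [hfib, hfib]; exact D0)
    (fun a ha => ⟨(B0 a ha).1, (B0 a ha).2.1⟩) hr0
  have E1 := hst i j T1 p1 T1m p1m be1 C1 D1 (fun a ha => ⟨(B1 a ha).1, (B1 a ha).2.1⟩) hr1
  have hTm0 := p4_ident a0 R T0m (fun a => T0 (be0 a)) D0.dT
    (C0.dT.comp B0d (fun a ha => hsub (B0 a ha).1)) (fun a ha => (E0 a ha).1)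
  have hTm1 := p4_ident a0 R T1m (fun a => T1 (be1 a)) D1.dT
    (C1.dT.comp B1d (fun a ha => hsub (B1 a ha).1)) (fun a ha => (E1 a ha).1)
  -- the difference of the coordinates
  have hUd : DifferentiableOn ℂ (fun a => ∫ t in (0 : ℝ)..1,
      Complex.exp (U a (be0 a + t * (be1 a - be0 a)))) (ball (a0 : ℂ) R) := by
    apply p4_param a0 R (1 / 20) (fun a t => Complex.exp (U a (be0 a + t * (be1 a - be0 a))))
    · intro t ht
      apply DifferentiableOn.cexp
      exact W.dU.comp (t := ball (a0 : ℂ) R ×ˢ ball (b0 : ℂ) R)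
        (f := fun a => (a, be0 a + t * (be1 a - be0 a)))
        (by fun_prop)
        (fun a ha => ⟨ha, p4_seg b0 R _ _ (hsub (B0 a ha).1) (hsub (B1 a ha).1) t ht⟩)
    · intro a ha
      apply Complex.continuous_exp.comp_continuousOn
      exact p4_expcont a0 b0 R U W.dU a _ _ ha (hsub (B0 a ha).1) (hsub (B1 a ha).1)
    · intro a ha t ht
      exact hk1 a ha _ (p4_seg b0 R _ _ (hsub (B0 a ha).1) (hsub (B1 a ha).1) t ht)
  have hdm := p4_ident a0 R (fun a => p1m a - p0m a)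
    (fun a => (-1) ^ n * (be1 a - be0 a) * ∫ t in (0 : ℝ)..1,
      Complex.exp (U a (be0 a + t * (be1 a - be0 a)))) (D1.dp.sub D0.dp)
    (((B1d.sub B0d).const_mul _).mul hUd) (fun a ha => by
      have e0 := hofre _ (hr0 a ha)
      have e1 := hofre _ (hr1 a ha)
      have h6 := p4_QQ lam R C h0 hlam1 n hn a0 b0 P U W hsa hsb a (be0 a).re (be1 a).re ha
        (by rw [e0]; exact hsub (B0 a ha).1) (by rw [e1]; exact hsub (B1 a ha).1)
      rw [e0, e1] at h6
      rw [(E0 a ha).2, (E1 a ha).2, ← h6]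
      push_cast
      rfl)
  refine ⟨be0, be1, ?_, (B0u a0 ha0 b0 hb0 hb).symm, fun a ha => ⟨hr0 a ha, hr1 a ha⟩⟩
  exact {
    dP := W.dP
    dU := W.dU
    Ub := W.Ub
    Pa := W.Pa
    Pb := W.Pb
    dT0 := C0.dT
    dT1 := C1.dT
    dp0 := C0.dp
    dp1 := C1.dp
    Tne := fun b hb => ⟨C0.Tne b hb, C1.Tne b hb⟩
    Trat := fun b hb => ⟨C0.Trat b hb, C1.Trat b hb⟩
    slope := fun b hb => ⟨C0.slope b hb, C1.slope b hb⟩
    del := hdel
    ratio := hrat
    dbe0 := B0d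
    dbe1 := B1d
    be := fun a ha => ⟨(B0 a ha).1, (B1 a ha).1, (B0 a ha).2.1, (B1 a ha).2.1⟩
    Tm := fun a ha => ⟨hTm0 a ha, hTm1 a ha⟩
    hdm := hdm
    hsg := neg_one_pow_eq_or ℂ n }

end SF
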