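import Pool.Agent.Helper65.SF.PWDefs
import Pool.Agent.Helper65.SF.P2
import Pool.Agent.Helper65.SF.P3
import Pool.Agent.Helper65.SF.P4
import Pool.Agent.Helper65.SF.B1
import Pool.Agent.Helper65.SF.WE

/-!
# SF-PW: one word of the pair recursion

Proof in words.
* `Curve.mono`: restriction to a smaller ball (all fields are restricted).
* `word_at`: the state of the energy family at level l is `(b0, psi0) = (TE l, psiE l)`; `state_E` with `i = j = 0` gives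
  `TW lam b0 psi0 k = TE lam t0 (l-1+k)`, so `PP lam n a0 b0 = psi0` (`PP_unique`) with `a0 = TE lam t0 m`, and the hypothesis
  of `word_joint` (`j <= 4`) is part of `Good c0 _ l`.
* `pair_word`: constants: `E_curve`, `word_joint` for c0 give R0, lam1 (take R0 <= c0/4 so that sines do not vanish on
  the balls; shrink so that all theorems apply), then for fixed R: `link`, `pair_first`, `pair_second` for `(R, C)`.
  `n0` so large that `1/fib (n0-1) <= k0`.  `T0 b0 = t0` by `TE_inj` (field `re` of `Curve` at b0) .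
  At level m use `E_curve` at t0 with shifts (0,0) and at t1 with shifts `(fibz i j (n-1), fibz i j n)`; the centre is
  `TE lam t0 m` in both cases.  `link` gives `PairHyp`; `pair_first` gives `ne`, `ratio`; `pair_second` gives
  `‖DDm a + sg DD (be1 a)‖ <= ‖KK‖ + C1 (1+L)^2 + C1 e (1+L) S`, `‖KK‖ <= C1/‖exp U(a0,b0)‖ <= C 10^n` (field `large`), so
  `bd` and `osc`; for `osc`: `‖DD (be1 a) - DD (be1 a')‖ <= (8/(3R)) O ‖be1 a - be1 a'‖`-like Cauchy estimate on the ball of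
  radius R/8 inside the ball of radius R/2, and `‖be1 a - be1 a'‖ <= C1 ‖exp U(a0,b0)‖ R <= C/fib (n-1)` (`pair_first`).
* `pair_log`: the fourth conclusion of `pair_first` at the centre `a0`; `b1 = be1 a0` is real (`link`),
  `|b1 - b0| <= ‖p1 (be1 a0) - p0 (be1 a0)‖/1.9` (`w_bounds`, `be0 a0 = b0`).  `T1 b1 = T1m a0 = t1`.
-/

namespace SF

open Metric

theorem Curve.mono {lam R R' : ℝ} {l : ℕ} {i j : ℤ} {b0 : ℝ} {T p : ℂ → ℂ}
    (h : Curve lam R l i j b0 T p) (hR' : 0 < R') (hR : R' ≤ R) : Curve lam R' l i j b0 T p := by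
  have _ := hR'
  have hs : ball (b0 : ℂ) R' ⊆ ball (b0 : ℂ) R := ball_subset_ball hR
  exact ⟨h.dT.mono hs, h.dp.mono hs, fun b hb => h.Tne b (hs hb), fun b hb => h.Trat b (hs hb),
    fun b hb => h.slope b (hs hb), fun b hb => h.eqX b (hs hb), fun b hb => h.eqXm b (hs hb),
    fun b hb => h.eqXp b (hs hb), fun b hb => h.re b (hs hb)⟩

theorem pw_fibz_zero (k : ℕ) : fibz 0 0 k = 0 := by
  have : fibz 0 0 k = 0 ∧ fibz 0 0 (k + 1) = 0 := by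
    induction k with
    | zero => exact ⟨rfl, rfl⟩
    | succ k ih => exact ⟨ih.2, by
        change fibz 0 0 (k + 1) + fibz 0 0 k = 0
        rw [ih.1, ih.2]
        rfl⟩
  exact this.1

theorem word_at (lam : ℝ) (h0 : 0 < lam) (h1 : lam ≤ 1 / 100) (l n m : ℕ) (hn : 6 ≤ n)
    (hm : m = l - 1 + n) (c0 : ℝ) (hc : 0 < c0) (t0 : ℝ) (hg : Good c0 (fun k => TE lam t0 k) l)
    (ha : c0 ≤ |Real.sin (TE lam t0 m)|) :
    PP lam n (TE lam t0 m) (TE lam t0 l) = psiE lam t0 l ∧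
      ∀ j ≤ 4, c0 ≤ |Real.sin (TW lam (TE lam t0 l) (PP lam n (TE lam t0 m) (TE lam t0 l)) j)| := by
  have hl4 : 4 ≤ l := hg.1
  have hl : 1 ≤ l := by omega
  have hsl : c0 ≤ |Real.sin (TE lam t0 l)| := hg.2 l (by omega) (by omega)
  have hsl' : Real.sin (TE lam t0 l) ≠ 0 := by
    intro h; rw [h, abs_zero] at hsl; linarith only [hc, hsl]
  have hx : |X lam t0 l| < 1 := (sin_TE_ne lam t0 h0.le l).1 hsl'
  have hT : ∀ k, TW lam (TE lam t0 l) (psiE lam t0 l) k = TE lam t0 (l - 1 + k) := by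
    intro k
    have := (state_E lam t0 h0.le h1 l hl hx 0 0 k).2
    simpa [pw_fibz_zero] using this
  have hsa : Real.sin (TE lam t0 m) ≠ 0 := by
    intro h; rw [h, abs_zero] at ha; linarith only [hc, ha]
  have hPP : PP lam n (TE lam t0 m) (TE lam t0 l) = psiE lam t0 l :=
    PP_unique lam h0.le h1 n (by omega) _ _ _ hsl' hsa (by rw [hT, hm])
  refine ⟨hPP, fun j hj => ?_⟩
  rw [hPP, hT]
  exact hg.2 _ (by omega) (by omega)

theorem WordJ.mono_C {lam R C C' : ℝ} {n : ℕ} {a0 b0 : ℝ} {P U : ℂ → ℂ → ℂ}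
    (h : WordJ lam R C n a0 b0 P U) (hC : C ≤ C') : WordJ lam R C' n a0 b0 P U :=
  ⟨h.dP, h.dU, fun a ha b hb => (h.Ub a ha b hb).trans hC, h.Pa, h.Pb, h.re, h.small,
    h.large.trans (mul_le_mul_of_nonneg_right hC (norm_nonneg _))⟩

theorem pw_sin_ne {c0 R b : ℝ} (hR : R ≤ c0 / 4) (hb : c0 ≤ |Real.sin b|) (hR0 : 0 < R) :
    ∀ x : ℝ, |x - b| < R → Real.sin x ≠ 0 := by
  intro x hx h
  have h1 : |Real.sin x - Real.sin b| ≤ |x - b| := Real.abs_sin_sub_sin_le x b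
  rw [h, zero_sub, abs_neg] at h1
  linarith only [hR, hb, hR0, hx, h1]

theorem pw_core (c0 : ℝ) (hc : 0 < c0) : ∃ R0 lam1 : ℝ, 0 < R0 ∧ R0 ≤ 1 ∧ R0 ≤ c0 / 4 ∧
    0 < lam1 ∧ lam1 ≤ 1 / 100 ∧ ∀ R : ℝ, 0 < R → R ≤ R0 → ∃ (C C1 e0 : ℝ) (n0 : ℕ), 1 ≤ C ∧
    1 ≤ C1 ∧ 0 < e0 ∧ 6 ≤ n0 ∧ ∀ lam : ℝ, 0 < lam → lam ≤ lam1 → ∀ (l n m : ℕ), n0 ≤ n →
      m = l - 1 + n → ∀ (i j : ℤ) (t0 t1 L e : ℝ) (T0 p0 T1 p1 : ℂ → ℂ),
      Good c0 (fun k => TE lam t0 k) l → Good c0 (fun k => TE lam t0 k) m →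
      TE lam t1 m = TE lam t0 m + (fibz i j n : ℝ) * Real.pi → Good c0 (fun k => TE lam t1 k) m →
      0 ≤ L → e ≤ e0 →
      Curve lam R l 0 0 (TE lam t0 l) T0 p0 → Curve lam R l i j (TE lam t0 l) T1 p1 →
      (∀ b ∈ ball ((TE lam t0 l : ℝ) : ℂ) R, p1 b - p0 b ≠ 0 ∧ ‖p1 b - p0 b‖ ≤ e) →
      (∀ b ∈ ball ((TE lam t0 l : ℝ) : ℂ) (R / 2),
        ‖deriv p1 b - deriv p0 b‖ ≤ L * ‖p1 b - p0 b‖) →
      ∃ (P U : ℂ → ℂ → ℂ) (T0m p0m T1m p1m be0 be1 : ℂ → ℂ),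
        WordJ lam R C n (TE lam t0 m) (TE lam t0 l) P U ∧
        Curve lam R m 0 0 (TE lam t0 m) T0m p0m ∧
        Curve lam R m (fibz i j (n - 1)) (fibz i j n) (TE lam t0 m) T1m p1m ∧
        T0m (TE lam t0 m : ℝ) = t0 ∧ T1m (TE lam t0 m : ℝ) = t1 ∧
        PairHyp R C L e (TE lam t0 m : ℝ) (TE lam t0 l : ℝ) ((-1) ^ n) P U T0 T1 p0 p1
          T0m T1m be0 be1 (fun a => p1m a - p0m a) ∧
        be0 (TE lam t0 m : ℝ) = (TE lam t0 l : ℝ) ∧ (be1 (TE lam t0 m : ℝ)).im = 0 ∧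
        (∀ a ∈ ball ((TE lam t0 m : ℝ) : ℂ) R, p1m a - p0m a ≠ 0 ∧ be1 a ≠ be0 a ∧
          ‖p1m a - p0m a‖ ≤ C1 * ‖Complex.exp (U (TE lam t0 m : ℝ) (TE lam t0 l : ℝ))‖ *
            ‖p1 (be1 a) - p0 (be1 a)‖) ∧
        (∀ a ∈ ball ((TE lam t0 m : ℝ) : ℂ) (R / 2), ‖deriv p1m a - deriv p0m a‖ ≤
          (C1 + C1 * ‖Complex.exp (U (TE lam t0 m : ℝ) (TE lam t0 l : ℝ))‖ * L) *
            ‖p1m a - p0m a‖) ∧
        (∀ a ∈ ball ((TE lam t0 m : ℝ) : ℂ) R, ∀ a' ∈ ball ((TE lam t0 m : ℝ) : ℂ) R,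
          ‖be1 a - be1 a'‖ ≤
            C1 * ‖Complex.exp (U (TE lam t0 m : ℝ) (TE lam t0 l : ℝ))‖ * ‖a - a'‖) ∧
        (∀ a ∈ ball ((TE lam t0 m : ℝ) : ℂ) R,
          |Real.log (‖deriv T1m a‖ / ‖deriv T0m a‖)
            - Real.log (‖deriv T1 (be1 a)‖ / ‖deriv T0 (be1 a)‖)|
            ≤ C1 * (1 + L) * ‖p1 (be1 a) - p0 (be1 a)‖) ∧
        (∀ a ∈ ball ((TE lam t0 m : ℝ) : ℂ) (R / 2),
          ‖DD T0m T1m p0m p1m a + (-1) ^ n * DD T0 T1 p0 p1 (be1 a)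
              - (-1) ^ n * KK U be0 be1 a‖
            ≤ C1 * (1 + L) ^ 2 + C1 * e * (1 + L) * ‖DD T0 T1 p0 p1 (be1 a)‖ ∧
          ‖KK U be0 be1 a‖ * ‖Complex.exp (U (TE lam t0 m : ℝ) (TE lam t0 l : ℝ))‖ ≤ C1) := by
  obtain ⟨Re, lame, hRe, hlame, hlame1, hE⟩ := E_curve c0 hc
  obtain ⟨Rw, lamw, Cw, hRw, hRw1, hlamw, hlamw1, hCw, hW⟩ := word_joint c0 hc
  refine ⟨min (min Re Rw) (c0 / 4), min lame lamw, lt_min (lt_min hRe hRw) (by linarith only [hc]),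
    (min_le_left _ _).trans ((min_le_right _ _).trans hRw1), min_le_right _ _,
    lt_min hlame hlamw, (min_le_left _ _).trans hlame1, ?_⟩
  intro R hR hRR
  have hRRe : R ≤ Re := hRR.trans ((min_le_left _ _).trans (min_le_left _ _))
  have hRRw : R ≤ Rw := hRR.trans ((min_le_left _ _).trans (min_le_right _ _))
  have hRc : R ≤ c0 / 4 := hRR.trans (min_le_right _ _)
  have hR1 : R ≤ 1 := hRRw.trans hRw1
  have hC : (1 : ℝ) ≤ max Cw 1 := le_max_right _ _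
  obtain ⟨k1, e1, hk1, he1, hlink⟩ := link R (max Cw 1) hR hR1 hC
  obtain ⟨Cf, k2, e2, hCf, hk2, he2, hfirst⟩ := pair_first R (max Cw 1) hR hR1 hC
  obtain ⟨Cs, k3, e3, hCs, hk3, he3, hsecond⟩ := pair_second R (max Cw 1) hR hR1 hC
  obtain ⟨k, hk, hkk1, hkk2, hkk3⟩ : ∃ k : ℝ, 0 < k ∧ k ≤ k1 ∧ k ≤ k2 ∧ k ≤ k3 :=
    ⟨min k1 (min k2 k3), lt_min hk1 (lt_min hk2 hk3), min_le_left _ _,
      (min_le_right _ _).trans (min_le_left _ _), (min_le_right _ _).trans (min_le_right _ _)⟩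
  obtain ⟨N, hN⟩ := exists_nat_gt (1 / k)
  have hn0 : ∀ n : ℕ, N + 6 ≤ n → 1 / (Nat.fib (n - 1) : ℝ) ≤ k := by
    intro n hn
    have h5 : 5 ≤ n - 1 := by omega
    have h6 : n - 1 ≤ Nat.fib (n - 1) := Nat.le_fib_self h5
    have h7 : (N : ℝ) ≤ (Nat.fib (n - 1) : ℝ) := by
      exact_mod_cast (by omega : N ≤ n - 1).trans h6
    have h8 : (0 : ℝ) < (Nat.fib (n - 1) : ℝ) := by
      exact_mod_cast (by omega : 0 < n - 1).trans_le h6
    rw [div_le_iff₀ h8]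
    rw [div_lt_iff₀ hk] at hN
    nlinarith
  refine ⟨max Cw 1, max Cf Cs, min e1 (min e2 e3), N + 6, hC, hCf.trans (le_max_left _ _),
    lt_min he1 (lt_min he2 he3), by omega, ?_⟩
  intro lam hlam hlam1 l n m hn hm i j t0 t1 L e T0 p0 T1 p1 hgl hgm ht1 hgm1 hL he C0 C1 hne hrat
  have hle : lam ≤ lame := hlam1.trans (min_le_left _ _)
  have hlw : lam ≤ lamw := hlam1.trans (min_le_right _ _)
  have hl100 : lam ≤ 1 / 100 := hle.trans hlame1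
  have hn6 : 6 ≤ n := by omega
  have hl4 : 4 ≤ l := hgl.1
  have hl1 : 1 ≤ l := by omega
  have hsl : c0 ≤ |Real.sin (TE lam t0 l)| := hgl.2 l (by omega) (by omega)
  have hsm : c0 ≤ |Real.sin (TE lam t0 m)| := hgm.2 m (by omega) (by omega)
  have hsl' : Real.sin (TE lam t0 l) ≠ 0 := by
    intro h; rw [h, abs_zero] at hsl; linarith only [hc, hsl]
  have ha0 : ((TE lam t0 m : ℝ) : ℂ) ∈ ball ((TE lam t0 m : ℝ) : ℂ) R := mem_ball_self hR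
  have hb0 : ((TE lam t0 l : ℝ) : ℂ) ∈ ball ((TE lam t0 l : ℝ) : ℂ) R := mem_ball_self hR
  have he0 : 0 ≤ e := (norm_nonneg _).trans (hne _ hb0).2
  -- the curves at level m
  obtain ⟨T0m, p0m, D0, hD0⟩ := hE lam R hlam hle hR hRRe t0 m hgm 0 0
  obtain ⟨T1m, p1m, D1, hD1⟩ := hE lam R hlam hle hR hRRe t1 m hgm1 (fibz i j (n - 1)) (fibz i j n)
  have e00 : TE lam t0 m - ((0 : ℤ) : ℝ) * Real.pi = TE lam t0 m := by simp
  have e11 : TE lam t1 m - ((fibz i j n : ℤ) : ℝ) * Real.pi = TE lam t0 m := by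
    rw [ht1]; ring
  rw [e00] at D0 hD0
  rw [e11] at D1 hD1
  -- the word
  obtain ⟨P, U, W⟩ := hW lam R hlam hlw hR hRRw n hn6 (TE lam t0 m) (TE lam t0 l) hsm
    (word_at lam hlam hl100 l n m hn6 hm c0 hc t0 hgl hsm).2
  have W' : WordJ lam R (max Cw 1) n (TE lam t0 m) (TE lam t0 l) P U := W.mono_C (le_max_left _ _)
  have hsmall : ‖Complex.exp (U (TE lam t0 m : ℝ) (TE lam t0 l : ℝ))‖ ≤ k :=
    W.small.trans (hn0 n hn)
  -- the base point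
  have hT0 : T0 (TE lam t0 l : ℝ) = t0 := by
    obtain ⟨r1, r2, r3, r4⟩ := C0.re (TE lam t0 l) hb0
    have h3 : TE lam (T0 (TE lam t0 l : ℝ)).re l = TE lam t0 l := by
      rw [r3]; simp
    have h4 := TE_inj lam hlam.le hl100 l hl1 _ _ h3 (by rw [h3]; exact hsl')
    apply Complex.ext
    · rw [h4, Complex.ofReal_re]
    · rw [r1, Complex.ofReal_im]
  obtain ⟨be0, be1, HH, hbe0, hbre⟩ := hlink lam L e hlam hl100 hL (he.trans (min_le_left _ _)) l n m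
    hl1 hn6 hm i j (TE lam t0 m) (TE lam t0 l) (pw_sin_ne hRc hsm hR) (pw_sin_ne hRc hsl hR)
    T0 p0 T1 p1 T0m p0m T1m p1m P U C0 C1 D0 D1 W' (by rw [hD0, hT0]) (hsmall.trans hkk1) hne hrat
  obtain ⟨f1, f2, f3, f4⟩ := hfirst L e _ _ _ P U T0 T1 p0 p1 T0m T1m be0 be1 _ hL HH
    (he.trans ((min_le_right _ _).trans (min_le_left _ _))) (hsmall.trans hkk2)
  have s1 := hsecond L e _ _ _ P U T0 T1 p0 p1 T0m T1m be0 be1 _ p0m p1m hL HH
    (he.trans ((min_le_right _ _).trans (min_le_right _ _))) (hsmall.trans hkk3) (fun a _ => rfl)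
  have hCfm : Cf ≤ max Cf Cs := le_max_left _ _
  have hCsm : Cs ≤ max Cf Cs := le_max_right _ _
  refine ⟨P, U, T0m, p0m, T1m, p1m, be0, be1, W', D0, D1, hD0, hD1, HH, hbe0, (hbre _ ha0).2,
    ?_, ?_, ?_, ?_, ?_⟩
  · intro a ha
    obtain ⟨g1, g2, g3, -⟩ := f1 a ha
    refine ⟨g1, g2, g3.trans ?_⟩
    gcongr
  · intro a ha
    have g := f2 a ha
    have haR : a ∈ ball ((TE lam t0 m : ℝ) : ℂ) R := ball_subset_ball (by linarith only [hR]) ha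
    have hd1 : DifferentiableAt ℂ p1m a := D1.dp.differentiableAt (isOpen_ball.mem_nhds haR)
    have hd0 : DifferentiableAt ℂ p0m a := D0.dp.differentiableAt (isOpen_ball.mem_nhds haR)
    have hdd : deriv (fun a => p1m a - p0m a) a = deriv p1m a - deriv p0m a :=
      (hd1.hasDerivAt.sub hd0.hasDerivAt).deriv
    rw [hdd] at g
    refine g.trans ?_
    gcongr
  · intro a ha a' ha'
    refine (f3 a ha a' ha').trans ?_
    gcongr
  · intro a ha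
    refine (f4 a ha).2.2.trans ?_
    gcongr
  · intro a ha
    obtain ⟨g1, g2⟩ := s1 a ha
    refine ⟨g1.trans ?_, g2.trans hCsm⟩
    gcongr

theorem pw_DD_diff {R : ℝ} {b0 : ℂ} {T0 T1 p0 p1 : ℂ → ℂ}
    (h0 : DifferentiableOn ℂ T0 (ball b0 R)) (h1 : DifferentiableOn ℂ T1 (ball b0 R))
    (n0 : ∀ b ∈ ball b0 R, deriv T0 b ≠ 0) (n1 : ∀ b ∈ ball b0 R, deriv T1 b ≠ 0)
    (q0 : DifferentiableOn ℂ p0 (ball b0 R)) (q1 : DifferentiableOn ℂ p1 (ball b0 R))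
    (hne : ∀ b ∈ ball b0 R, p1 b - p0 b ≠ 0) :
    DifferentiableOn ℂ (DD T0 T1 p0 p1) (ball b0 R) := by
  have a0 := h0.deriv isOpen_ball
  have a1 := h1.deriv isOpen_ball
  exact (((a1.deriv isOpen_ball).div a1 n1).sub ((a0.deriv isOpen_ball).div a0 n0)).div
    (q1.sub q0) hne

theorem pw_sg_norm (n : ℕ) (z : ℂ) : ‖(-1 : ℂ) ^ n * z‖ = ‖z‖ := by
  rw [norm_mul, norm_pow, norm_neg, norm_one, one_pow, one_mul]

theorem pair_word (c0 : ℝ) (hc : 0 < c0) : ∃ R0 lam1 : ℝ, 0 < R0 ∧ R0 ≤ 1 ∧ R0 ≤ c0 / 4 ∧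
    0 < lam1 ∧ lam1 ≤ 1 / 100 ∧ ∀ R : ℝ, 0 < R → R ≤ R0 → ∃ (C1 e0 : ℝ) (n0 : ℕ), 1 ≤ C1 ∧ 0 < e0 ∧
    6 ≤ n0 ∧ ∀ lam : ℝ, 0 < lam → lam ≤ lam1 → ∀ (l n m : ℕ), n0 ≤ n → m = l - 1 + n →
      ∀ (i j : ℤ) (t0 t1 L e S O : ℝ),
      Good c0 (fun k => TE lam t0 k) l → Good c0 (fun k => TE lam t0 k) m →
      TE lam t1 m = TE lam t0 m + (fibz i j n : ℝ) * Real.pi → Good c0 (fun k => TE lam t1 k) m →
      0 ≤ L → 0 ≤ e → 0 ≤ S → 0 ≤ O → e ≤ e0 →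
      PairAt lam R l i j (TE lam t0 l) L e S O →
      PairAt lam R m (fibz i j (n - 1)) (fibz i j n) (TE lam t0 m)
        (C1 + C1 * L / (Nat.fib (n - 1) : ℝ)) (C1 * e / (Nat.fib (n - 1) : ℝ))
        (S + C1 * (e * (1 + L) * S + 10 ^ n + (1 + L) ^ 2))
        (C1 * (O / (Nat.fib (n - 1) : ℝ) + 10 ^ n + (1 + L) ^ 2 + e * (1 + L) * S)) := by
  obtain ⟨R0, lam1, hR0, hR01, hR0c, hlam1, hlam1', hcore⟩ := pw_core c0 hc
  refine ⟨R0, lam1, hR0, hR01, hR0c, hlam1, hlam1', fun R hR hRR => ?_⟩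
  obtain ⟨C, C1, e0, n0, hC, hC1, he0, hn0, hc'⟩ := hcore R hR hRR
  have hCC : C1 ≤ C1 * C := le_mul_of_one_le_right (by linarith only [hC1]) hC
  refine ⟨8 * (C1 * C), e0, n0, by linarith only [hC1, hCC], he0, hn0, ?_⟩
  intro lam hlam hlam1 l n m hn hm i j t0 t1 L e S O hgl hgm ht1 hgm1 hL he hS hO hee hP
  obtain ⟨T0, p0, T1, p1, A0, A1, B⟩ := hP
  obtain ⟨P, U, T0m, p0m, T1m, p1m, be0, be1, W, D0, D1, hD0, hD1, HH, hbe0, hbre, g1, g2, g3, g4,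
    g5⟩ := hc' lam hlam hlam1 l n m hn hm i j t0 t1 L e T0 p0 T1 p1 hgl hgm ht1 hgm1 hL hee A0 A1
      B.ne B.ratio
  obtain ⟨E, hEd⟩ : ∃ E : ℝ, E = ‖Complex.exp (U (TE lam t0 m : ℝ) (TE lam t0 l : ℝ))‖ := ⟨_, rfl⟩
  obtain ⟨F, hFd⟩ : ∃ F : ℝ, F = (Nat.fib (n - 1) : ℝ) := ⟨_, rfl⟩
  have hsmall := W.small
  have hlarge := W.large
  rw [← hEd, ← hFd] at hsmall
  rw [← hEd] at hlarge
  simp only [← hEd] at g1 g2 g3 g5
  rw [← hFd]
  have hF : 0 < F := by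
    rw [hFd]
    exact_mod_cast Nat.fib_pos.2 (by omega)
  have hE0 : 0 < E := by
    rw [hEd]
    exact norm_pos_iff.2 (Complex.exp_ne_zero _)
  have hC0 : 0 < C := by linarith only [hC]
  have hC10 : 0 < C1 := by linarith only [hC1]
  have hCC0 : 0 < C1 * C := by positivity
  have h10 : (0 : ℝ) < 10 ^ n := by positivity
  have hKK : ∀ a ∈ ball ((TE lam t0 m : ℝ) : ℂ) (R / 2), ‖KK U be0 be1 a‖ ≤ C1 * C * 10 ^ n := by
    intro a ha
    have h1 := (g5 a ha).2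
    have h2 : 1 ≤ C * E * 10 ^ n := by
      have h3 : ((1 : ℝ) / 10) ^ n * 10 ^ n = 1 := by
        rw [← mul_pow]; norm_num
      rw [← h3]
      exact mul_le_mul_of_nonneg_right hlarge h10.le
    calc ‖KK U be0 be1 a‖ ≤ ‖KK U be0 be1 a‖ * (C * E * 10 ^ n) :=
          le_mul_of_one_le_right (norm_nonneg _) h2
      _ = (‖KK U be0 be1 a‖ * E) * (C * 10 ^ n) := by ring
      _ ≤ C1 * (C * 10 ^ n) := mul_le_mul_of_nonneg_right h1 (by positivity)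
      _ = C1 * C * 10 ^ n := by ring
  have hbe : ∀ a ∈ ball ((TE lam t0 m : ℝ) : ℂ) R, be1 a ∈ ball ((TE lam t0 l : ℝ) : ℂ) (R / 8) :=
    fun a ha => (HH.be a ha).2.1
  have hDD : ∀ a ∈ ball ((TE lam t0 m : ℝ) : ℂ) R, ‖DD T0 T1 p0 p1 (be1 a)‖ ≤ S :=
    fun a ha => B.bd _ (ball_subset_ball (by linarith only [hR]) (hbe a ha))
  have hsub : ball ((TE lam t0 m : ℝ) : ℂ) (R / 2) ⊆ ball ((TE lam t0 m : ℝ) : ℂ) R :=
    ball_subset_ball (by linarith only [hR])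
  have hXX : ∀ a ∈ ball ((TE lam t0 m : ℝ) : ℂ) (R / 2),
      ‖DD T0m T1m p0m p1m a + (-1) ^ n * DD T0 T1 p0 p1 (be1 a) - (-1) ^ n * KK U be0 be1 a‖
        ≤ C1 * C * (1 + L) ^ 2 + C1 * C * (e * (1 + L) * S) := by
    intro a ha
    refine (g5 a ha).1.trans ?_
    have h1 : C1 * (1 + L) ^ 2 ≤ C1 * C * (1 + L) ^ 2 :=
      mul_le_mul_of_nonneg_right hCC (by positivity)
    have h2 : C1 * e * (1 + L) * ‖DD T0 T1 p0 p1 (be1 a)‖ ≤ C1 * e * (1 + L) * S :=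
      mul_le_mul_of_nonneg_left (hDD a (hsub ha)) (by positivity)
    have h3 : C1 * (e * (1 + L) * S) ≤ C1 * C * (e * (1 + L) * S) :=
      mul_le_mul_of_nonneg_right hCC (by positivity)
    nlinarith
  refine ⟨T0m, p0m, T1m, p1m, D0, D1, ⟨?_, ?_, ?_, ?_⟩⟩
  · intro a ha
    obtain ⟨h1, -, h2⟩ := g1 a ha
    refine ⟨h1, h2.trans ?_⟩
    have h3 : ‖p1 (be1 a) - p0 (be1 a)‖ ≤ e :=
      (B.ne _ (ball_subset_ball (by linarith only [hR]) (hbe a ha))).2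
    calc C1 * E * ‖p1 (be1 a) - p0 (be1 a)‖ ≤ C1 * (1 / F) * e := by gcongr
      _ = C1 * e / F := by ring
      _ ≤ 8 * (C1 * C) * e / F := by
          gcongr
          linarith only [hC1, hCC]
  · intro a ha
    refine (g2 a ha).trans (mul_le_mul_of_nonneg_right ?_ (norm_nonneg _))
    have h1 : C1 * E * L ≤ C1 * (1 / F) * L := by gcongr
    have h2 : C1 * (1 / F) * L = C1 * L / F := by ring
    have h3 : C1 * L / F ≤ 8 * (C1 * C) * L / F := by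
      gcongr
      linarith only [hC1, hCC]
    linarith only [hC1, hCC, h1, h2, h3]
  · intro a ha
    have h1 := hXX a ha
    have h2 := hKK a ha
    have h3 := hDD a (hsub ha)
    have h4 : DD T0m T1m p0m p1m a =
        (DD T0m T1m p0m p1m a + (-1) ^ n * DD T0 T1 p0 p1 (be1 a) - (-1) ^ n * KK U be0 be1 a)
          - (-1) ^ n * DD T0 T1 p0 p1 (be1 a) + (-1) ^ n * KK U be0 be1 a := by ring
    rw [h4]
    refine (norm_add_le _ _).trans ?_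
    have h5 := norm_sub_le
      (DD T0m T1m p0m p1m a + (-1) ^ n * DD T0 T1 p0 p1 (be1 a) - (-1) ^ n * KK U be0 be1 a)
      ((-1) ^ n * DD T0 T1 p0 p1 (be1 a))
    rw [pw_sg_norm] at h5 ⊢
    have h6 : (0 : ℝ) ≤ C1 * C * (e * (1 + L) * S) := by positivity
    have h7 : (0 : ℝ) ≤ C1 * C * 10 ^ n := by positivity
    have h8 : (0 : ℝ) ≤ C1 * C * (1 + L) ^ 2 := by positivity
    nlinarith
  · intro a ha a' ha'
    have h1 := hXX a ha
    have h1' := hXX a' ha'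
    have h2 := hKK a ha
    have h2' := hKK a' ha'
    have hd : DifferentiableOn ℂ (DD T0 T1 p0 p1) (ball ((TE lam t0 l : ℝ) : ℂ) (R / 2)) :=
      (pw_DD_diff A0.dT A1.dT A0.Tne A1.Tne A0.dp A1.dp (fun b hb => (B.ne b hb).1)).mono
        (ball_subset_ball (by linarith only [hR]))
    have hl := P2h16.lip (by linarith only [hR] : 0 < R / 2) hd (DD T0 T1 p0 p1 ((TE lam t0 l : ℝ) : ℂ)) O
      (fun z hz => B.osc z hz _ (mem_ball_self (by linarith only [hR]))) (be1 a)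
      (ball_subset_ball (by linarith only [hR]) (hbe a (hsub ha))) (be1 a')
      (ball_subset_ball (by linarith only [hR]) (hbe a' (hsub ha')))
    have hg3 := g3 a (hsub ha) a' (hsub ha')
    have haa : ‖a - a'‖ ≤ R := by
      rw [mem_ball, dist_eq_norm] at ha ha'
      calc ‖a - a'‖ = ‖(a - ((TE lam t0 m : ℝ) : ℂ)) - (a' - ((TE lam t0 m : ℝ) : ℂ))‖ := by
            congr 1; ring
        _ ≤ ‖a - ((TE lam t0 m : ℝ) : ℂ)‖ + ‖a' - ((TE lam t0 m : ℝ) : ℂ)‖ := norm_sub_le _ _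
        _ ≤ R := by linarith only [ha, ha']
    have h3 : ‖DD T0 T1 p0 p1 (be1 a) - DD T0 T1 p0 p1 (be1 a')‖ ≤ 8 * (C1 * C) * (O / F) := by
      refine hl.trans ?_
      calc 4 * O / (R / 2) * ‖be1 a - be1 a'‖ ≤ 4 * O / (R / 2) * (C1 * (1 / F) * R) := by
            refine mul_le_mul_of_nonneg_left (hg3.trans ?_) (by positivity)
            gcongr
        _ = 8 * C1 * (O / F) := by
            field_simp
            ring
        _ ≤ 8 * (C1 * C) * (O / F) := by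
            have : 0 ≤ O / F := by positivity
            nlinarith
    have h4 : DD T0m T1m p0m p1m a - DD T0m T1m p0m p1m a' =
        ((DD T0m T1m p0m p1m a + (-1) ^ n * DD T0 T1 p0 p1 (be1 a) - (-1) ^ n * KK U be0 be1 a)
          - (DD T0m T1m p0m p1m a' + (-1) ^ n * DD T0 T1 p0 p1 (be1 a')
            - (-1) ^ n * KK U be0 be1 a'))
          - (-1) ^ n * (DD T0 T1 p0 p1 (be1 a) - DD T0 T1 p0 p1 (be1 a'))
          + ((-1) ^ n * KK U be0 be1 a - (-1) ^ n * KK U be0 be1 a') := by ring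
    rw [h4]
    refine (norm_add_le _ _).trans ?_
    have h5 := norm_sub_le
      ((DD T0m T1m p0m p1m a + (-1) ^ n * DD T0 T1 p0 p1 (be1 a) - (-1) ^ n * KK U be0 be1 a)
          - (DD T0m T1m p0m p1m a' + (-1) ^ n * DD T0 T1 p0 p1 (be1 a')
            - (-1) ^ n * KK U be0 be1 a'))
      ((-1) ^ n * (DD T0 T1 p0 p1 (be1 a) - DD T0 T1 p0 p1 (be1 a')))
    have h6 := norm_sub_le
      (DD T0m T1m p0m p1m a + (-1) ^ n * DD T0 T1 p0 p1 (be1 a) - (-1) ^ n * KK U be0 be1 a)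
      (DD T0m T1m p0m p1m a' + (-1) ^ n * DD T0 T1 p0 p1 (be1 a') - (-1) ^ n * KK U be0 be1 a')
    have h7 := norm_sub_le ((-1) ^ n * KK U be0 be1 a) ((-1) ^ n * KK U be0 be1 a')
    rw [pw_sg_norm] at h5
    rw [pw_sg_norm, pw_sg_norm] at h7
    have k6 : (0 : ℝ) ≤ C1 * C * (e * (1 + L) * S) := by positivity
    have k7 : (0 : ℝ) ≤ C1 * C * 10 ^ n := by positivity
    have k8 : (0 : ℝ) ≤ C1 * C * (1 + L) ^ 2 := by positivity
    nlinarith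

/-- The more precise form of the second order part, and the logarithmic slopes, at the centre. -/
theorem pair_log (c0 : ℝ) (hc : 0 < c0) : ∃ R0 lam1 : ℝ, 0 < R0 ∧ R0 ≤ 1 ∧ R0 ≤ c0 / 4 ∧
    0 < lam1 ∧ lam1 ≤ 1 / 100 ∧ ∀ R : ℝ, 0 < R → R ≤ R0 → ∃ (C1 e0 : ℝ) (n0 : ℕ), 1 ≤ C1 ∧ 0 < e0 ∧
    6 ≤ n0 ∧ ∀ lam : ℝ, 0 < lam → lam ≤ lam1 → ∀ (l n m : ℕ), n0 ≤ n → m = l - 1 + n →
      ∀ (i j : ℤ) (t0 t1 L e S O : ℝ) (T0 p0 T1 p1 : ℂ → ℂ),
      Good c0 (fun k => TE lam t0 k) l → Good c0 (fun k => TE lam t0 k) m →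
      TE lam t1 m = TE lam t0 m + (fibz i j n : ℝ) * Real.pi → Good c0 (fun k => TE lam t1 k) m →
      0 ≤ L → 0 ≤ e → 0 ≤ S → 0 ≤ O → e ≤ e0 →
      Curve lam R l 0 0 (TE lam t0 l) T0 p0 → Curve lam R l i j (TE lam t0 l) T1 p1 →
      PairB R L e S O ((TE lam t0 l : ℝ) : ℂ) T0 T1 p0 p1 →
      ∃ (b1 : ℝ) (P U : ℂ → ℂ → ℂ) (T0m p0m T1m p1m : ℂ → ℂ),
        |b1 - TE lam t0 l| ≤ R / 8 ∧ |b1 - TE lam t0 l| ≤ ‖p1 b1 - p0 b1‖ ∧
        T1 b1 = t1 ∧ b1 ≠ TE lam t0 l ∧ TE lam t1 l = b1 + j * Real.pi ∧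
        WordJ lam R C1 n (TE lam t0 m) (TE lam t0 l) P U ∧
        Curve lam R m 0 0 (TE lam t0 m) T0m p0m ∧
        Curve lam R m (fibz i j (n - 1)) (fibz i j n) (TE lam t0 m) T1m p1m ∧
        T0m (TE lam t0 m : ℝ) = t0 ∧ T1m (TE lam t0 m : ℝ) = t1 ∧
        |Real.log (‖deriv T1m (TE lam t0 m : ℝ)‖ / ‖deriv T0m (TE lam t0 m : ℝ)‖)
          - Real.log (‖deriv T1 b1‖ / ‖deriv T0 b1‖)| ≤ C1 * (1 + L) * ‖p1 b1 - p0 b1‖ ∧
        ‖DD T0m T1m p0m p1m (TE lam t0 m : ℝ) + (-1) ^ n * DD T0 T1 p0 p1 b1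
            - (-1) ^ n * KK U (fun _ => ((TE lam t0 l : ℝ) : ℂ)) (fun _ => (b1 : ℂ)) (TE lam t0 m : ℝ)‖
          ≤ C1 * (1 + L) ^ 2 + C1 * e * (1 + L) * S := by
  obtain ⟨R0, lam1, hR0, hR01, hR0c, hlam1, hlam1', hcore⟩ := pw_core c0 hc
  refine ⟨R0, lam1, hR0, hR01, hR0c, hlam1, hlam1', fun R hR hRR => ?_⟩
  obtain ⟨C, C1, e0, n0, hC, hC1, he0, hn0, hc'⟩ := hcore R hR hRR
  refine ⟨max C C1, e0, n0, hC.trans (le_max_left _ _), he0, hn0, ?_⟩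
  intro lam hlam hlam1 l n m hn hm i j t0 t1 L e S O T0 p0 T1 p1 hgl hgm ht1 hgm1 hL he hS hO hee
    A0 A1 B
  obtain ⟨P, U, T0m, p0m, T1m, p1m, be0, be1, W, D0, D1, hD0, hD1, HH, hbe0, hbre, g1, g2, g3, g4,
    g5⟩ := hc' lam hlam hlam1 l n m hn hm i j t0 t1 L e T0 p0 T1 p1 hgl hgm ht1 hgm1 hL hee A0 A1
      B.ne B.ratio
  have ha0 : ((TE lam t0 m : ℝ) : ℂ) ∈ ball ((TE lam t0 m : ℝ) : ℂ) R := mem_ball_self hR
  have ha2 : ((TE lam t0 m : ℝ) : ℂ) ∈ ball ((TE lam t0 m : ℝ) : ℂ) (R / 2) :=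
    mem_ball_self (by linarith only [hR])
  have hb1 : (((be1 (TE lam t0 m : ℝ)).re : ℝ) : ℂ) = be1 (TE lam t0 m : ℝ) := by
    apply Complex.ext
    · rw [Complex.ofReal_re]
    · rw [Complex.ofReal_im, hbre]
  have hbe := (HH.be _ ha0).2.1
  have hbeR : be1 (TE lam t0 m : ℝ) ∈ ball ((TE lam t0 l : ℝ) : ℂ) R :=
    ball_subset_ball (by linarith only [hR]) hbe
  have hnorm : |(be1 (TE lam t0 m : ℝ)).re - TE lam t0 l| =
      ‖be1 (TE lam t0 m : ℝ) - ((TE lam t0 l : ℝ) : ℂ)‖ := by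
    rw [← Real.norm_eq_abs, ← Complex.norm_real, Complex.ofReal_sub, hb1]
  have hT1 : T1 (be1 (TE lam t0 m : ℝ)) = t1 := by
    rw [← (HH.Tm _ ha0).2, hD1]
  have hw := (P2h16.w_bounds hR HH ha0).1
  rw [hbe0] at hw
  refine ⟨(be1 (TE lam t0 m : ℝ)).re, P, U, T0m, p0m, T1m, p1m, ?_, ?_, ?_, ?_, ?_,
    W.mono_C (le_max_left _ _), D0, D1, hD0, hD1, ?_, ?_⟩
  · rw [hnorm]
    rw [mem_ball, dist_eq_norm] at hbe
    exact hbe.le
  · rw [hnorm, hb1]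
    have := norm_nonneg (be1 (TE lam t0 m : ℝ) - ((TE lam t0 l : ℝ) : ℂ))
    linarith only [hw, this]
  · rw [hb1, hT1]
  · intro h
    apply (g1 _ ha0).2.1
    rw [hbe0, ← hb1, h]
  · have h1 := (A1.re (be1 (TE lam t0 m : ℝ)).re (by rw [hb1]; exact hbeR)).2.2.1
    rw [hb1, hT1, Complex.ofReal_re] at h1
    exact h1
  · rw [hb1]
    refine (g4 _ ha0).trans ?_
    have h2 : C1 ≤ max C C1 := le_max_right _ _
    gcongr
  · have hKK : KK U (fun _ => ((TE lam t0 l : ℝ) : ℂ))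
        (fun _ => (((be1 (TE lam t0 m : ℝ)).re : ℝ) : ℂ)) (TE lam t0 m : ℝ) =
        KK U be0 be1 (TE lam t0 m : ℝ) := by
      simp only [KK, hbe0, hb1]
    rw [hKK, hb1]
    refine (g5 _ ha2).1.trans ?_
    have h2 : C1 ≤ max C C1 := le_max_right _ _
    have h3 : ‖DD T0 T1 p0 p1 (be1 (TE lam t0 m : ℝ))‖ ≤ S :=
      B.bd _ (ball_subset_ball (by linarith only [hR]) hbe)
    gcongr

end SF
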