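import Pool.Agent.Helper65.SF.LR
import Pool.Agent.Helper65.SF.PW
import Pool.Agent.Helper65.SF.CH
import Pool.Agent.Helper65.SF.WE

/-!
# SF-PEX: existence of the pair states along the good levels (assembly)

Proof in words.  `c0 = 1/20`.  `pair_word`, `pair_log`, `E_curve` for c0 give R0; let Rc be the minimum of the three radii and
c0/4.  `base c0 Rc` gives R' (this is the R of the theorem).  `pair_word` at R' gives `C1p, e0p, n0`.  `base` with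
`e = min e0p 1` gives `lam1, e1, Cb`.  `chain` with `C1 = max C1p (4 Cb)`-like, `e0 = min e0p 1`, n0 gives K, l1, C4.
`P k L e S O = PairAt lam R' k (JJ d w (k-1)) (JJ d w k) (TE lam (EE lam n s) k) L e S O`; it is monotone.
`step`: `pair_word` with `t0 = EE lam n s`, t1 from `second_point` at level m, `fibz_comp` (`JJ d w (l-1+n') = fibz (JJ (l-1)) (JJ l) n'`);
`good_first`.
`base`: at l0 two curves from `E_curve` at t0 and at the t1 of `second_point`, restricted to the ball of radius R'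
(`Curve.mono`); `JJ_det` gives the hypothesis of `base` (`d/fib l0 <= e1`); `L <= Cb (l0 + log (1/lam)) <= 2 Cb l0` and
`S <= Cb^l0/lam^3 <= (C1)^l0` if `l0 >= l1(lam)`; `O <= 2 S`.
`del_lower`: `base` at level k (`e = 1`), restricted to the centre: for the given curves (they agree with the curves of
`E_curve` by `curve_unique`).
-/

namespace SF

open Metric

theorem PairAt.mono {lam R : ℝ} {l : ℕ} {i j : ℤ} {b0 L e S O L' e' S' O' : ℝ}
    (h : PairAt lam R l i j b0 L e S O) (hL : L ≤ L') (he : e ≤ e') (hS : S ≤ S') (hO : O ≤ O') :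
    PairAt lam R l i j b0 L' e' S' O' := by
  obtain ⟨T0, p0, T1, p1, h0, h1, h2⟩ := h
  exact ⟨T0, p0, T1, p1, h0, h1, ⟨fun b hb => ⟨(h2.ne b hb).1, (h2.ne b hb).2.trans he⟩,
    fun b hb => (h2.ratio b hb).trans (mul_le_mul_of_nonneg_right hL (norm_nonneg _)),
    fun b hb => (h2.bd b hb).trans hS, fun b hb b' hb' => (h2.osc b hb b' hb').trans hO⟩⟩

private theorem pex_sub {r r' b0 b0' : ℝ} (h : r + |b0' - b0| ≤ r') :
    ball (b0' : ℂ) r ⊆ ball (b0 : ℂ) r' := by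
  refine ball_subset_ball' ?_
  rw [dist_eq_norm, ← Complex.ofReal_sub, Complex.norm_real, Real.norm_eq_abs]
  exact h

/-- Recentering. -/
theorem PairB.recenter {R L e S O b0 b0' : ℝ} {T0 T1 p0 p1 : ℂ → ℂ} (hR : 0 < R)
    (h : PairB R L e S O (b0 : ℂ) T0 T1 p0 p1) (hb : |b0' - b0| ≤ R / 8) :
    PairB (R / 8) L e S O (b0' : ℂ) T0 T1 p0 p1 := by
  have h1 : ball (b0' : ℂ) (R / 8) ⊆ ball (b0 : ℂ) R := pex_sub (by linarith)
  have h2 : ball (b0' : ℂ) (R / 8 / 2) ⊆ ball (b0 : ℂ) (R / 2) := pex_sub (by linarith)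
  exact ⟨fun b hb => h.ne b (h1 hb), fun b hb => h.ratio b (h2 hb), fun b hb => h.bd b (h2 hb),
    fun b hb b' hb' => h.osc b (h2 hb) b' (h2 hb')⟩

/-- Recentering (`Trat` by the Cauchy estimate for the derivative of `deriv T b / deriv T b0`). -/
theorem Curve.recenter {lam R b0 b0' : ℝ} {l : ℕ} {i j : ℤ} {T p : ℂ → ℂ} (hR : 0 < R)
    (h : Curve lam R l i j b0 T p) (hb : |b0' - b0| ≤ R / 8) :
    Curve lam (R / 8) l i j b0' T p := by
  have h1 : ball (b0' : ℂ) (R / 8) ⊆ ball (b0 : ℂ) R := pex_sub (by linarith)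
  have h2 : ball (b0' : ℂ) (R / 8) ⊆ ball (b0 : ℂ) (R / 2) := pex_sub (by linarith)
  have hb0 : (b0 : ℂ) ∈ ball (b0 : ℂ) R := mem_ball_self hR
  have hb0' : (b0' : ℂ) ∈ ball (b0' : ℂ) (R / 8) := mem_ball_self (by positivity)
  have hdf : DifferentiableOn ℂ (fun b => deriv T b / deriv T b0) (ball (b0 : ℂ) R) :=
    (h.dT.deriv isOpen_ball).div_const _
  have hlip := P2h16.lip hR hdf 1 (1 / 2) h.Trat
  have hT0 := h.Tne b0 hb0
  refine ⟨h.dT.mono h1, h.dp.mono h1, fun b hb => h.Tne b (h1 hb), fun b hb => ?_,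
    fun b hb => h.slope b (h1 hb), fun b hb => h.eqX b (h1 hb), fun b hb => h.eqXm b (h1 hb),
    fun b hb => h.eqXp b (h1 hb), fun b hb => h.re b (h1 hb)⟩
  have hT0' := h.Tne b0' (h1 hb0')
  have e1 := hlip b (h2 hb) b0' (h2 hb0')
  have e2 := h.Trat b0' (h1 hb0')
  have e3 : ‖b - (b0' : ℂ)‖ ≤ R / 8 := by
    rw [mem_ball, dist_eq_norm] at hb
    exact hb.le
  have e4 : ‖deriv T b / deriv T b0 - deriv T b0' / deriv T b0‖ ≤ 1 / 4 := by
    refine e1.trans ?_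
    calc 4 * (1 / 2) / R * ‖b - (b0' : ℂ)‖ ≤ 4 * (1 / 2) / R * (R / 8) := by gcongr
      _ = 1 / 4 := by field_simp; norm_num
  have e5 : 1 / 2 ≤ ‖deriv T b0' / deriv T b0‖ := by
    have := norm_sub_norm_le (1 : ℂ) (1 - deriv T b0' / deriv T b0)
    rw [norm_one, sub_sub_cancel, norm_sub_rev] at this
    linarith
  have e6 : deriv T b / deriv T b0' - 1 =
      (deriv T b / deriv T b0 - deriv T b0' / deriv T b0) / (deriv T b0' / deriv T b0) := by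
    field_simp
  rw [e6, norm_div, div_le_iff₀ (by linarith)]
  linarith

theorem pair_exists (R00 : ℝ) (hR00 : 0 < R00) : ∃ (R lam1 e1 Lst C4 : ℝ) (K : ℕ), 0 < R ∧ R ≤ R00 ∧
    0 < lam1 ∧ lam1 ≤ 1 / 100 ∧ 0 < e1 ∧ e1 < 1 ∧ 1 ≤ Lst ∧ 1 ≤ C4 ∧ 3 ≤ K ∧
    ∀ lam : ℝ, 0 < lam → lam ≤ lam1 → ∃ l1 : ℕ, 4 ≤ l1 ∧
    ∀ (n l0 : ℕ) (s : ℝ) (d w : ℤ) (g : ℕ → Prop), l1 ≤ l0 → 0 < s → s < 1 → 1 ≤ d →
      0 < sh n d w s → sh n d w s < 1 → (d : ℝ) ≤ e1 * (Nat.fib l0 : ℝ) →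
      (∀ k, l0 ≤ k → k ≤ n → g k → LG (1 / 11) k s) → g l0 →
      ∀ r : ℕ, K * l0 + r ≤ n → g (K * l0 + r) →
        PairAt lam R (K * l0 + r) (JJ d w (K * l0 + r - 1)) (JJ d w (K * l0 + r))
          (TE lam (EE lam n s) (K * l0 + r)) Lst
          (Real.exp (-(2 / 5) * (((K * l0 + r : ℕ) : ℝ) - l0)))
          (C4 * Real.exp (debtS g (K * l0) (2 * Real.log 10) (1 / 10) (C4 * l0) r
            + 3 / 10 * (((K * l0 + r : ℕ) : ℝ) - l0)))
          (C4 * Real.exp (debtS g (K * l0) (2 * Real.log 10) (1 / 10) (C4 * l0) r)) := by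
  obtain ⟨Rw, lamW, hRw0, -, -, hlW0, hlW1, hword⟩ := pair_word (1 / 20) (by norm_num)
  obtain ⟨RE, lamE, hRE0, hlE0, hlE1, hE⟩ := E_curve (1 / 20) (by norm_num)
  obtain ⟨Rc, hRc⟩ : ∃ Rc, Rc = min (min Rw RE) (min (1 / 20 / 4) R00) := ⟨_, rfl⟩
  have hRc0 : 0 < Rc := by
    rw [hRc]; exact lt_min (lt_min hRw0 hRE0) (lt_min (by norm_num) hR00)
  have hRcw : Rc ≤ Rw := by
    rw [hRc]; exact (min_le_left _ _).trans (min_le_left _ _)
  have hRcE : Rc ≤ RE := by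
    rw [hRc]; exact (min_le_left _ _).trans (min_le_right _ _)
  have hRcc : Rc ≤ 1 / 20 / 4 := by
    rw [hRc]; exact (min_le_right _ _).trans (min_le_left _ _)
  have hRc00 : Rc ≤ R00 := by
    rw [hRc]; exact (min_le_right _ _).trans (min_le_right _ _)
  obtain ⟨R, hR0, hRRc, hbase⟩ := base (1 / 20) Rc (by norm_num) hRc0 hRcc
  obtain ⟨Cp, ep, n0, hCp1, hep0, hn0, hword⟩ := hword R hR0 (hRRc.trans hRcw)
  obtain ⟨e0, he0⟩ : ∃ e0, e0 = min ep 1 := ⟨_, rfl⟩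
  have he00 : 0 < e0 := by rw [he0]; exact lt_min hep0 one_pos
  have he01 : e0 ≤ 1 := by rw [he0]; exact min_le_right _ _
  have he0p : e0 ≤ ep := by rw [he0]; exact min_le_left _ _
  obtain ⟨lamB, eB, Cb, hlB0, hlB1, heB0, hCb1, hbase⟩ := hbase e0 he00 he01
  obtain ⟨C1, hC1⟩ : ∃ C1, C1 = max Cp (2 * Cb) := ⟨_, rfl⟩
  have hC1p : Cp ≤ C1 := by rw [hC1]; exact le_max_left _ _
  have hC1b : 2 * Cb ≤ C1 := by rw [hC1]; exact le_max_right _ _
  have hC11 : 1 ≤ C1 := hCp1.trans hC1p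
  obtain ⟨K, lc, C4, hK, hC4, hchain⟩ := chain C1 e0 n0 hC11 he00 he01 hn0
  obtain ⟨lamG, hlG0, hlG1, hgood⟩ := good_first
  obtain ⟨lamS, eS, hlS0, hlS1, heS0, heS1, hsecond⟩ := second_point
  refine ⟨R, min (min lamW lamE) (min lamB (min lamG lamS)), min eB eS, 2 * C1, C4, K, hR0,
    hRRc.trans hRc00, lt_min (lt_min hlW0 hlE0) (lt_min hlB0 (lt_min hlG0 hlS0)),
    ((min_le_left _ _).trans (min_le_left _ _)).trans hlW1, lt_min heB0 heS0,
    (min_le_right _ _).trans_lt heS1, by linarith, hC4, hK, ?_⟩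
  intro lam hlam hlam1
  have hlW : lam ≤ lamW := hlam1.trans ((min_le_left _ _).trans (min_le_left _ _))
  have hlE : lam ≤ lamE := hlam1.trans ((min_le_left _ _).trans (min_le_right _ _))
  have hlB : lam ≤ lamB := hlam1.trans ((min_le_right _ _).trans (min_le_left _ _))
  have hlG : lam ≤ lamG :=
    hlam1.trans ((min_le_right _ _).trans ((min_le_right _ _).trans (min_le_left _ _)))
  have hlS : lam ≤ lamS :=
    hlam1.trans ((min_le_right _ _).trans ((min_le_right _ _).trans (min_le_right _ _)))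
  obtain ⟨N, hN⟩ := pow_unbounded_of_one_lt (2 / lam ^ 3) (one_lt_two (α := ℝ))
  obtain ⟨N', hN'⟩ := exists_nat_ge (Real.log (1 / lam))
  refine ⟨max (max lc 4) (max N N'), (le_max_right _ _).trans (le_max_left _ _), ?_⟩
  intro n l0 s d w g hl0 hs0 hs1 hd hsh0 hsh1 hde hLG hgl0 r hrn hgr
  have hl0lc : lc ≤ l0 := ((le_max_left _ _).trans (le_max_left _ _)).trans hl0
  have hl04 : 4 ≤ l0 := ((le_max_right _ _).trans (le_max_left _ _)).trans hl0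
  have hl0N : N ≤ l0 := ((le_max_left _ _).trans (le_max_right _ _)).trans hl0
  have hl0N' : N' ≤ l0 := ((le_max_right _ _).trans (le_max_right _ _)).trans hl0
  have hl0n : l0 ≤ n := by
    have : l0 ≤ K * l0 := Nat.le_mul_of_pos_left l0 (by omega)
    omega
  have hfib : ∀ m, l0 ≤ m → (d : ℝ) ≤ eS * (Nat.fib m : ℝ) := by
    intro m hm
    have h1 : (Nat.fib l0 : ℝ) ≤ (Nat.fib m : ℝ) := by exact_mod_cast Nat.fib_mono hm
    calc (d : ℝ) ≤ min eB eS * (Nat.fib l0 : ℝ) := hde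
      _ ≤ eS * (Nat.fib l0 : ℝ) := mul_le_mul_of_nonneg_right (min_le_right _ _) (Nat.cast_nonneg _)
      _ ≤ eS * (Nat.fib m : ℝ) := mul_le_mul_of_nonneg_left h1 heS0.le
  refine hchain g (fun k L e S O => PairAt lam R k (JJ d w (k - 1)) (JJ d w k)
    (TE lam (EE lam n s) k) L e S O) l0 n hl0lc hgl0 ?_ ?_ ?_ r hgr hrn
  · intro k L e S O L' e' S' O' h1 h2 h3 h4 h5
    exact h5.mono h1 h2 h3 h4
  · intro l m L e S O hm hl hkm hgl hgm hL he hS hO hee hP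
    have hl1 : 1 ≤ l := by omega
    have hln : l ≤ n := by omega
    have hlm : l0 ≤ l - 1 + m := by omega
    have hLGm := hLG _ hlm hkm hgm
    obtain ⟨t1, ht1, hg1, -⟩ := hsecond lam hlam hlS n (l - 1 + m) d w s hs0 hs1 hsh0 hsh1 hkm hd
      (hfib _ hlm) hLGm
    have hGl := hgood lam hlam hlG n l s hs0 hs1 hln (hLG l hl hln hgl)
    have hGm := hgood lam hlam hlG n (l - 1 + m) s hs0 hs1 hkm hLGm
    have hfz : fibz (JJ d w (l - 1)) (JJ d w l) m = JJ d w (l - 1 + m) := by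
      have h1 := fibz_comp d (-w) (l - 1) m
      rw [Nat.sub_add_cancel hl1] at h1
      exact h1
    have hfz' : fibz (JJ d w (l - 1)) (JJ d w l) (m - 1) = JJ d w (l - 1 + m - 1) := by
      have h1 := fibz_comp d (-w) (l - 1) (m - 1)
      rw [Nat.sub_add_cancel hl1] at h1
      rw [show l - 1 + m - 1 = l - 1 + (m - 1) by omega]
      exact h1
    have hres := hword lam hlam hlW l m (l - 1 + m) hm rfl (JJ d w (l - 1)) (JJ d w l)
      (EE lam n s) t1 L e S O hGl hGm (by rw [hfz]; exact ht1) hg1 hL he hS hO (hee.trans he0p) hP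
    rw [hfz, hfz'] at hres
    have hF : (0 : ℝ) ≤ (Nat.fib (m - 1) : ℝ) := Nat.cast_nonneg _
    refine hres.mono ?_ ?_ ?_ ?_
    · gcongr
    · gcongr
    · gcongr
    · gcongr
  · have hLG0 := hLG l0 le_rfl hl0n hgl0
    obtain ⟨t1, ht1, hg1, hJ0⟩ := hsecond lam hlam hlS n l0 d w s hs0 hs1 hsh0 hsh1 hl0n hd
      (hfib l0 le_rfl) hLG0
    have hG0 := hgood lam hlam hlG n l0 s hs0 hs1 hl0n hLG0
    obtain ⟨T0, p0, hc0, -⟩ := hE lam Rc hlam hlE hRc0 hRcE (EE lam n s) l0 hG0 0 0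
    obtain ⟨T1, p1, hc1, -⟩ := hE lam Rc hlam hlE hRc0 hRcE t1 l0 hg1 (JJ d w (l0 - 1))
      (JJ d w l0)
    have q0 : TE lam (EE lam n s) l0 - ((0 : ℤ) : ℝ) * Real.pi = TE lam (EE lam n s) l0 := by
      simp
    have q1 : TE lam t1 l0 - (JJ d w l0 : ℝ) * Real.pi = TE lam (EE lam n s) l0 := by
      rw [ht1]; ring
    rw [q0] at hc0
    rw [q1] at hc1
    have hFl : (0 : ℝ) < (Nat.fib l0 : ℝ) := by
      exact_mod_cast Nat.fib_pos.2 (by omega)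
    have hd0 : (0 : ℝ) ≤ (d : ℝ) := by exact_mod_cast (by omega : (0 : ℤ) ≤ d)
    have hdet : |(Nat.fib (l0 - 1) : ℝ) / (Nat.fib l0 : ℝ) * (JJ d w l0 : ℝ) -
        (JJ d w (l0 - 1) : ℝ)| ≤ eB := by
      rw [JJ_det d w l0 (by omega), abs_of_nonneg hd0, div_le_iff₀ hFl]
      exact hde.trans (mul_le_mul_of_nonneg_right (min_le_left _ _) hFl.le)
    obtain ⟨hb1, hb2⟩ := hbase lam hlam hlB l0 (by omega) (JJ d w (l0 - 1)) (JJ d w l0)
      (TE lam (EE lam n s) l0) T0 p0 T1 p1 hJ0 (hG0.2 l0 (by omega) (by omega)) hdet hc0 hc1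
    have hlam3 : 0 < lam ^ 3 := by positivity
    have hkey : 2 * (Cb ^ l0 / lam ^ 3) ≤ C1 ^ l0 := by
      have h1 : 2 / lam ^ 3 ≤ 2 ^ l0 :=
        hN.le.trans (pow_le_pow_right₀ one_le_two hl0N)
      have hCb0 : 0 ≤ Cb ^ l0 := by positivity
      calc 2 * (Cb ^ l0 / lam ^ 3) = 2 / lam ^ 3 * Cb ^ l0 := by ring
        _ ≤ 2 ^ l0 * Cb ^ l0 := mul_le_mul_of_nonneg_right h1 hCb0
        _ = (2 * Cb) ^ l0 := by rw [mul_pow]
        _ ≤ C1 ^ l0 := pow_le_pow_left₀ (by positivity) hC1b l0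
    have hpos : 0 ≤ Cb ^ l0 / lam ^ 3 := by positivity
    refine ⟨T0, p0, T1, p1, hc0.mono hR0 hRRc, hc1.mono hR0 hRRc, ⟨hb1, ?_, ?_, ?_⟩⟩
    · intro b hb
      refine (hb2 b hb).2.1.trans (mul_le_mul_of_nonneg_right ?_ (norm_nonneg _))
      have h1 : Real.log (1 / lam) ≤ l0 := hN'.trans (by exact_mod_cast hl0N')
      calc Cb * ((l0 : ℝ) + Real.log (1 / lam)) ≤ Cb * ((l0 : ℝ) + l0) := by gcongr
        _ = 2 * Cb * l0 := by ring
        _ ≤ C1 * l0 := mul_le_mul_of_nonneg_right hC1b (Nat.cast_nonneg _)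
    · intro b hb
      exact (hb2 b hb).2.2.trans (by linarith)
    · intro b hb b' hb'
      have h1 := (hb2 b hb).2.2
      have h2 := (hb2 b' hb').2.2
      exact (norm_sub_le _ _).trans (by linarith)

/-- Lower bound for the difference of the coordinates. -/
theorem del_lower : ∃ lam1 e1 C : ℝ, 0 < lam1 ∧ lam1 ≤ 1 / 100 ∧ 0 < e1 ∧ e1 < 1 ∧ 1 ≤ C ∧
    ∀ lam : ℝ, 0 < lam → lam ≤ lam1 → ∀ (n k : ℕ) (s R : ℝ) (d w : ℤ) (T0 p0 T1 p1 : ℂ → ℂ),
      0 < s → s < 1 → 1 ≤ d → 0 < sh n d w s → sh n d w s < 1 → (d : ℝ) ≤ e1 * (Nat.fib k : ℝ) →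
      k ≤ n → LG (1 / 11) k s → 0 < R →
      Curve lam R k 0 0 (TE lam (EE lam n s) k) T0 p0 →
      Curve lam R k (JJ d w (k - 1)) (JJ d w k) (TE lam (EE lam n s) k) T1 p1 →
      lam ^ 3 / C ^ k ≤ ‖p1 (TE lam (EE lam n s) k : ℝ) - p0 (TE lam (EE lam n s) k : ℝ)‖ := by
  obtain ⟨RE, lamE, hRE0, hlE0, hlE1, hE⟩ := E_curve (1 / 20) (by norm_num)
  obtain ⟨Rc, hRc⟩ : ∃ Rc, Rc = min RE (1 / 20 / 4) := ⟨_, rfl⟩
  have hRc0 : 0 < Rc := by rw [hRc]; exact lt_min hRE0 (by norm_num)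
  have hRcE : Rc ≤ RE := by rw [hRc]; exact min_le_left _ _
  have hRcc : Rc ≤ 1 / 20 / 4 := by rw [hRc]; exact min_le_right _ _
  obtain ⟨R', hR0, hRRc, hbase⟩ := base (1 / 20) Rc (by norm_num) hRc0 hRcc
  obtain ⟨lamB, eB, Cb, hlB0, hlB1, heB0, hCb1, hbase⟩ := hbase 1 one_pos le_rfl
  obtain ⟨lamG, hlG0, hlG1, hgood⟩ := good_first
  obtain ⟨lamS, eS, hlS0, hlS1, heS0, heS1, hsecond⟩ := second_point
  refine ⟨min lamE (min lamB (min lamG lamS)), min eB eS, Cb,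
    lt_min hlE0 (lt_min hlB0 (lt_min hlG0 hlS0)), (min_le_left _ _).trans hlE1,
    lt_min heB0 heS0, (min_le_right _ _).trans_lt heS1, hCb1, ?_⟩
  intro lam hlam hlam1 n k s R d w T0 p0 T1 p1 hs0 hs1 hd hsh0 hsh1 hde hkn hLG hR hc0 hc1
  have hlE : lam ≤ lamE := hlam1.trans (min_le_left _ _)
  have hlB : lam ≤ lamB := hlam1.trans ((min_le_right _ _).trans (min_le_left _ _))
  have hlG : lam ≤ lamG :=
    hlam1.trans ((min_le_right _ _).trans ((min_le_right _ _).trans (min_le_left _ _)))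
  have hlS : lam ≤ lamS :=
    hlam1.trans ((min_le_right _ _).trans ((min_le_right _ _).trans (min_le_right _ _)))
  have hk4 : 4 ≤ k := hLG.1
  have hF : (0 : ℝ) < (Nat.fib k : ℝ) := by exact_mod_cast Nat.fib_pos.2 (by omega)
  have hdS : (d : ℝ) ≤ eS * (Nat.fib k : ℝ) :=
    hde.trans (mul_le_mul_of_nonneg_right (min_le_right _ _) hF.le)
  obtain ⟨t1, ht1, hg1, hJ0⟩ := hsecond lam hlam hlS n k d w s hs0 hs1 hsh0 hsh1 hkn hd hdS hLG
  have hG0 := hgood lam hlam hlG n k s hs0 hs1 hkn hLG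
  obtain ⟨T0', p0', hc0', -⟩ := hE lam Rc hlam hlE hRc0 hRcE (EE lam n s) k hG0 0 0
  obtain ⟨T1', p1', hc1', -⟩ := hE lam Rc hlam hlE hRc0 hRcE t1 k hg1 (JJ d w (k - 1)) (JJ d w k)
  have q0 : TE lam (EE lam n s) k - ((0 : ℤ) : ℝ) * Real.pi = TE lam (EE lam n s) k := by
    simp
  have q1 : TE lam t1 k - (JJ d w k : ℝ) * Real.pi = TE lam (EE lam n s) k := by
    rw [ht1]; ring
  rw [q0] at hc0'
  rw [q1] at hc1'
  have hd0 : (0 : ℝ) ≤ (d : ℝ) := by exact_mod_cast (by omega : (0 : ℤ) ≤ d)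
  have hdet : |(Nat.fib (k - 1) : ℝ) / (Nat.fib k : ℝ) * (JJ d w k : ℝ) -
      (JJ d w (k - 1) : ℝ)| ≤ eB := by
    rw [JJ_det d w k (by omega), abs_of_nonneg hd0, div_le_iff₀ hF]
    exact hde.trans (mul_le_mul_of_nonneg_right (min_le_left _ _) hF.le)
  have hsin : (1 / 20 : ℝ) ≤ |Real.sin (TE lam (EE lam n s) k)| := hG0.2 k (by omega) (by omega)
  obtain ⟨-, hb2⟩ := hbase lam hlam hlB k (by omega) (JJ d w (k - 1)) (JJ d w k)
    (TE lam (EE lam n s) k) T0' p0' T1' p1' hJ0 hsin hdet hc0' hc1'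
  have h1 := (hb2 ((TE lam (EE lam n s) k : ℝ) : ℂ) (mem_ball_self (by positivity))).1
  obtain ⟨Rm, hRm⟩ : ∃ Rm, Rm = min R Rc := ⟨_, rfl⟩
  have hRm0 : 0 < Rm := by rw [hRm]; exact lt_min hR hRc0
  have hRmR : Rm ≤ R := by rw [hRm]; exact min_le_left _ _
  have hRmc : Rm ≤ Rc := by rw [hRm]; exact min_le_right _ _
  have hs : ∀ x : ℝ, |x - TE lam (EE lam n s) k| < Rm → Real.sin x ≠ 0 := by
    intro x hx h0
    have h2 : |Real.sin x - Real.sin (TE lam (EE lam n s) k)| ≤ |x - TE lam (EE lam n s) k| :=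
      Real.abs_sin_sub_sin_le x (TE lam (EE lam n s) k)
    rw [h0, zero_sub, abs_neg] at h2
    linarith
  have hl1 : lam ≤ 1 / 100 := hlE.trans hlE1
  have u0 := curve_unique lam Rm hlam hl1 k (by omega) 0 0 (TE lam (EE lam n s) k) hs T0 p0 T0' p0'
    (hc0.mono hRm0 hRmR) (hc0'.mono hRm0 hRmc) _ (mem_ball_self hRm0)
  have u1 := curve_unique lam Rm hlam hl1 k (by omega) (JJ d w (k - 1)) (JJ d w k)
    (TE lam (EE lam n s) k) hs T1 p1 T1' p1' (hc1.mono hRm0 hRmR) (hc1'.mono hRm0 hRmc) _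
    (mem_ball_self hRm0)
  rw [u0.2, u1.2]
  exact h1

end SF
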