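import Pool.Agent.Helper65.SF.XDefs
import Pool.Agent.Helper65.SF.PEX
import Pool.Agent.Helper65.SF.KI

/-!
# SF-AF: affine similarity of the rotated pieces (assembly)

Proof in words (`AffP` is defined in XDefs).  `c0 = 1/20`; `pair_exists` with R00 = minimum of the radii of `pair_log`, `word_Pb_ne` and 1/80 gives R etc.;
C9 large compared to 1/R; the angles `pi fib q s`, `q <= m + 3`, `|s - s0| <= 1/(C9 fib m)`, differ from those at s0 by at most
`pi fib (m+3)/(C9 fib m)`, so `LG (1/11) q s` for good q.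
(1) w: as in SF-BK (3): `fib m (s + d fib (n-1)/fib n)` is `fib m s + d fib (m-1)` up to e1 (`sh_level`), so it is not near an
  integer multiple of `fib m`, hence `s + d fib (n-1)/fib n` is not an integer for `|s - s0| <= 1/(C9 fib m)` and its floor is
  constant, equal to w; `0 < sh n d w s < 1`; also `0 < sh m d w s0 < 1` (`fib m sh m = fib m s0 + JJ m`, not near an integer).
(2) `pair_exists` with `n := m, s := s0`: curves T0, p0, T1, p1 centred at `a0 = TE lam (EE lam m s0) m = pi fib m s0` (`EE_spec`), bounds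
  `Lst, e, S`.  On the real interval `|x - a0| < R`: `TE m (T0 x) = x`, `TE m (T1 x) = x + JJ m pi`; `T0 a0 = EE lam m s0`,
  `T1 a0 = EE lam m (sh m d w s0)` (`TE_inj`, `sh_self`); `0 < T0' x = 1/deriv (TE m) (T0 x) <= 4/fib m` (`TE_deriv`), same for T1;
  `F x = log (T1' x/T0' x)`, `F' = DD (p1 - p0)`, so `|F x - F a0| <= S e |x - a0|`; `F a0 = GG lam m s0 (sh m d w s0)`.
(3) `t = EE lam n s`, `t' = EE lam n (sh n d w s)`, `b = TE lam t m`, `b' = TE lam t' m - JJ m pi`: `|b - a0|, |b' - a0| <= 500 sqrt lam + 4 e1 + pi/C9 <= R/8`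
  (`TE_near`, `sh_level`), `T0 b = t`, `T1 b' = t'` (`TE_inj`).  With `n' = n - m + 1`, `a = TE lam t n = pi fib n s`, `sin a /= 0`:
  `p0 b = PP lam n' a b`, `p1 b' = PP lam n' a b'` (`state_E`, `PP_unique`, `PP_shift`, `sh_self`, `fibz_comp`).  `word_Pb_ne` at `(a, b)`: the real function
  `PP lam n' a` has slope at most -7/5 between b and b', `p0` has slope at least 2/5: so `|b - b'| <= |p1 b' - p0 b'| <= e`.
(4) `|t' - T1 b| <= (4/fib m) e`; `T1 b - T1 a0 = int_{a0}^b exp (F x) T0' x dx`, so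
  `|T1 b - T1 a0 - exp (F a0) (T0 b - T0 a0)| <= exp (F a0) 3 e S |T0 b - T0 a0|`, `|T0 b - T0 a0| <= 4/fib m`.
(5) If `LG (1/11) n s`: `pair_exists` with n, s and `pair_log` from level m to level n: `GG lam n s s' = log (|T1n'|/|T0n'|)` is within `C (1+Lst) e` of
  `log (T1~'(b1)/T0~'(b1))`, b1 = b' and the curves T~ centred at b are again inverse to `TE m` on the reals, so this is `F b'`,
  within `S e` of `F a0`.
-/

namespace SF

open Metric Filter Topology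

theorem af_fib {m k : ℕ} (hm : 1 ≤ m) (hk : k ≤ m + 3) : (Nat.fib k : ℝ) ≤ 5 * (Nat.fib m : ℝ) := by
  have h1 : Nat.fib k ≤ Nat.fib (m + 3) := Nat.fib_mono hk
  have h2 : Nat.fib (m + 3) = Nat.fib (m + 1) + Nat.fib (m + 2) := Nat.fib_add_two
  have h3 : Nat.fib (m + 2) = Nat.fib m + Nat.fib (m + 1) := Nat.fib_add_two
  obtain ⟨q, rfl⟩ : ∃ q, m = q + 1 := ⟨m - 1, by omega⟩
  have h4 : Nat.fib (q + 1 + 1) = Nat.fib q + Nat.fib (q + 1) := Nat.fib_add_two
  have h5 : Nat.fib q ≤ Nat.fib (q + 1) := Nat.fib_le_fib_succ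
  have h6 : Nat.fib k ≤ 5 * Nat.fib (q + 1) := by omega
  exact_mod_cast h6

theorem af_fibpos {m : ℕ} (hm : 1 ≤ m) : (1 : ℝ) ≤ (Nat.fib m : ℝ) := by
  exact_mod_cast Nat.fib_pos.2 (by omega : 0 < m)

/-- transfer of linear goodness to nearby points -/
theorem af_LG {c c' C9 : ℝ} {m k : ℕ} {s s0 : ℝ} (hm : 1 ≤ m) (hkm : k ≤ m) (hC : 0 < C9)
    (hc : c' + 16 / C9 ≤ c) (h : LG c k s0) (hs : |s - s0| ≤ 1 / (C9 * (Nat.fib m : ℝ))) :
    LG c' k s := by
  refine ⟨h.1, fun j hj1 hj2 => ?_⟩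
  have h1 := h.2 j hj1 hj2
  have hF := af_fibpos hm
  have hfj := af_fib hm (by omega : j ≤ m + 3)
  have hfj0 : (0 : ℝ) ≤ (Nat.fib j : ℝ) := Nat.cast_nonneg _
  have hpi := Real.pi_pos
  have hpi4 : Real.pi < 3.2 := by linarith only [Real.pi_lt_d2]
  have h2 : |Real.sin (Real.pi * (Nat.fib j : ℝ) * s) - Real.sin (Real.pi * (Nat.fib j : ℝ) * s0)|
      ≤ |Real.pi * (Nat.fib j : ℝ) * s - Real.pi * (Nat.fib j : ℝ) * s0| :=
    Real.abs_sin_sub_sin_le _ _
  have h3 : |Real.pi * (Nat.fib j : ℝ) * s - Real.pi * (Nat.fib j : ℝ) * s0| ≤ 16 / C9 := by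
    rw [← mul_sub, abs_mul, abs_of_nonneg (by positivity)]
    calc Real.pi * (Nat.fib j : ℝ) * |s - s0|
        ≤ 3.2 * (5 * (Nat.fib m : ℝ)) * (1 / (C9 * (Nat.fib m : ℝ))) := by gcongr
      _ = 16 / C9 := by
        have : (Nat.fib m : ℝ) ≠ 0 := by linarith only [hF]
        field_simp
        norm_num
  have h4 := abs_sub_abs_le_abs_sub (Real.sin (Real.pi * (Nat.fib j : ℝ) * s0))
    (Real.sin (Real.pi * (Nat.fib j : ℝ) * s))
  rw [abs_sub_comm] at h4
  linarith only [hc, h1, h2, h3, h4]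

/-- a point with large sine is not near an integer -/
theorem af_int {c y : ℝ} (h : c ≤ |Real.sin (Real.pi * y)|) (k : ℤ) : c / 4 ≤ |y - k| := by
  have h1 : |Real.sin (Real.pi * y)| = |Real.sin (Real.pi * (y - k))| := by
    have : Real.pi * y = Real.pi * (y - k) + k * Real.pi := by ring
    rw [this, Real.sin_add_int_mul_pi, abs_mul, abs_zpow, abs_neg, abs_one, one_zpow, one_mul]
  have h2 : |Real.sin (Real.pi * (y - k))| ≤ |Real.pi * (y - k)| := by
    simpa using Real.abs_sin_sub_sin_le (Real.pi * (y - k)) 0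
  rw [abs_mul, abs_of_pos Real.pi_pos] at h2
  have h3 : Real.pi * |y - k| ≤ 4 * |y - k| := by
    gcongr
    linarith only [Real.pi_lt_d2]
  linarith only [h, h1, h2, h3]

/-- localisation in `[0, f]` -/
theorem af_loc {δ y : ℝ} {f : ℕ} (h : ∀ k : ℤ, δ ≤ |y - k|) (h0 : 0 ≤ y) (h1 : y ≤ f) :
    δ ≤ y ∧ y ≤ f - δ := by
  have a := h 0
  have b := h f
  rw [Int.cast_zero, sub_zero, abs_of_nonneg h0] at a
  rw [Int.cast_natCast, abs_of_nonpos (by linarith only [h1])] at b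
  exact ⟨a, by linarith only [b]⟩

/-- the slope of a curve at real points -/
theorem af_curve {lam R b0 x : ℝ} {m : ℕ} {i j : ℤ} {T p : ℂ → ℂ} (h0 : 0 ≤ lam)
    (h1 : lam ≤ 1 / 100) (hm : 1 ≤ m) (h : Curve lam R m i j b0 T p) (hx : |x - b0| < R)
    (hs : Real.sin x ≠ 0) :
    ∃ D : ℝ, (Nat.fib m : ℝ) / 4 ≤ D ∧ HasDerivAt (fun t => TE lam t m) D (T x).re ∧
      deriv T x = ((D⁻¹ : ℝ) : ℂ) ∧ HasDerivAt (fun y : ℝ => (T y).re) D⁻¹ x := by
  have hmem := ki48_ball hx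
  obtain ⟨q1, q2, q3, q4⟩ := h.re x hmem
  have hsx : Real.sin (TE lam (T x).re m) ≠ 0 := by
    rw [q3]
    exact sin_shift_ne x j hs
  obtain ⟨d, hd, hd1, -⟩ := TE_deriv lam (T x).re h0 h1 m hm ((sin_TE_ne lam _ h0 m).1 hsx)
  have hf := af_fibpos hm
  have hdp : 0 < d := by linarith only [hd, hf]
  have him : (deriv T (x : ℂ)).im = 0 := by
    refine ki48_im_deriv (h.dT.differentiableAt (isOpen_ball.mem_nhds hmem)) ?_
    filter_upwards [ki48_near hx] with y hy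
    exact (h.re y (ki48_ball hy)).1
  have hre : HasDerivAt (fun y : ℝ => (T (y : ℂ)).re) ((deriv T (x : ℂ)).re) x :=
    (h.dT.differentiableAt (isOpen_ball.mem_nhds hmem)).hasDerivAt.real_of_complex
  have hcomp : HasDerivAt (fun y : ℝ => TE lam ((T (y : ℂ)).re) m) (d * (deriv T (x : ℂ)).re) x :=
    HasDerivAt.comp (h₂ := fun t => TE lam t m) x hd1 hre
  have hid : HasDerivAt (fun y : ℝ => TE lam ((T (y : ℂ)).re) m) 1 x := by
    refine ((hasDerivAt_id x).add_const (j * Real.pi)).congr_of_eventuallyEq ?_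
    filter_upwards [ki48_near hx] with y hy
    exact (h.re y (ki48_ball hy)).2.2.1
  have e1 : d * (deriv T (x : ℂ)).re = 1 := hcomp.unique hid
  have e2 : (deriv T (x : ℂ)).re = d⁻¹ := eq_inv_of_mul_eq_one_right e1
  refine ⟨d, hd, hd1, Complex.ext (by rw [e2, Complex.ofReal_re]) (by rw [him, Complex.ofReal_im]),
    ?_⟩
  rw [← e2]
  exact hre

/-- the value of a curve at a real point -/
theorem af_val {lam R b0 x t : ℝ} {m : ℕ} {i j : ℤ} {T p : ℂ → ℂ} (h0 : 0 ≤ lam)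
    (h1 : lam ≤ 1 / 100) (hm : 1 ≤ m) (h : Curve lam R m i j b0 T p) (hx : |x - b0| < R)
    (hs : Real.sin x ≠ 0) (ht : TE lam t m = x + j * Real.pi) : (T x).re = t ∧ T x = (t : ℂ) := by
  obtain ⟨q1, -, q3, -⟩ := h.re x (ki48_ball hx)
  have e : (T x).re = t := by
    refine TE_inj lam h0 h1 m hm _ _ (q3.trans ht.symm) ?_
    rw [q3]
    exact sin_shift_ne x j hs
  exact ⟨e, Complex.ext (by rw [e, Complex.ofReal_re]) (by rw [q1, Complex.ofReal_im])⟩

/-- the logarithmic ratio is Lipschitz -/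
theorem af_F {lam R L e S O a0 : ℝ} {m : ℕ} {i j : ℤ} {T0 T1 p0 p1 : ℂ → ℂ} (hR : 0 < R)
    (hS : 0 ≤ S) (h0 : Curve lam R m 0 0 a0 T0 p0) (h1 : Curve lam R m i j a0 T1 p1)
    (hb : PairB R L e S O (a0 : ℂ) T0 T1 p0 p1) {x y : ℝ} (hx : |x - a0| < R / 2)
    (hy : |y - a0| < R / 2) :
    |(Real.log ‖deriv T1 x‖ - Real.log ‖deriv T0 x‖) - (Real.log ‖deriv T1 y‖ - Real.log ‖deriv T0 y‖)|
      ≤ S * e * |x - y| := by
  have hd : ∀ z ∈ Metric.ball a0 (R / 2), HasDerivWithinAt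
      (fun x : ℝ => Real.log ‖deriv T1 (x : ℂ)‖ - Real.log ‖deriv T0 (x : ℂ)‖)
      ((NN T1 z).re - (NN T0 z).re) (Metric.ball a0 (R / 2)) z := by
    intro z hz
    rw [Metric.mem_ball, Real.dist_eq] at hz
    have hz' : |z - a0| < R := by linarith only [hR, hz]
    have k1 := (ki48_log h1.dT (fun x hx => (h1.re x hx).1) h1.Tne hz').1
    have k0 := (ki48_log h0.dT (fun x hx => (h0.re x hx).1) h0.Tne hz').1
    exact (k1.sub k0).hasDerivWithinAt
  have hbd : ∀ z ∈ Metric.ball a0 (R / 2), ‖(NN T1 z).re - (NN T0 z).re‖ ≤ S * e := by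
    intro z hz
    rw [Metric.mem_ball, Real.dist_eq] at hz
    have hz' : |z - a0| < R := by linarith only [hR, hz]
    have hne := hb.ne z (ki48_ball hz')
    have hDD := hb.bd z (ki48_ball hz)
    have e1 : NN T1 z - NN T0 z = DD T0 T1 p0 p1 z * (p1 z - p0 z) := by
      unfold DD
      rw [div_mul_cancel₀ _ hne.1]
    rw [← Complex.sub_re, e1, Real.norm_eq_abs]
    refine (Complex.abs_re_le_norm _).trans ?_
    rw [norm_mul]
    exact mul_le_mul hDD hne.2 (norm_nonneg _) hS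
  have := (convex_ball a0 (R / 2)).norm_image_sub_le_of_norm_hasDerivWithin_le hd hbd
    (by rw [Metric.mem_ball, Real.dist_eq]; exact hy) (by rw [Metric.mem_ball, Real.dist_eq]; exact hx)
  rw [Real.norm_eq_abs, Real.norm_eq_abs] at this
  exact this

theorem af_mv {φ φ' : ℝ → ℝ} {x y : ℝ} (h : ∀ z ∈ Set.uIcc x y, HasDerivAt φ (φ' z) z)
    (h' : ∀ z ∈ Set.uIcc x y, φ' z ≤ -1) : |x - y| ≤ |φ x - φ y| := by
  have key : ∀ x y : ℝ, x < y → (∀ z ∈ Set.uIcc x y, HasDerivAt φ (φ' z) z) →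
      (∀ z ∈ Set.uIcc x y, φ' z ≤ -1) → |x - y| ≤ |φ x - φ y| := by
    intro x y hxy h h'
    rw [Set.uIcc_of_le hxy.le] at h h'
    obtain ⟨c, hc, hc2⟩ := exists_hasDerivAt_eq_slope φ φ' hxy
      (fun z hz => (h z hz).continuousAt.continuousWithinAt)
      (fun z hz => h z (Set.Ioo_subset_Icc_self hz))
    have h3 := h' c (Set.Ioo_subset_Icc_self hc)
    have hyx : 0 < y - x := by linarith only [hxy]
    have h4 : φ y - φ x = φ' c * (y - x) := by rw [hc2]; field_simp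
    have h5 : φ y - φ x ≤ -1 * (y - x) := by
      rw [h4]
      exact mul_le_mul_of_nonneg_right h3 hyx.le
    rw [abs_of_neg (by linarith only [hxy]), le_abs]
    left
    linarith only [h5]
  rcases lt_trichotomy x y with hxy | hxy | hxy
  · exact key x y hxy h h'
  · rw [hxy]; simp
  · rw [abs_sub_comm x y, abs_sub_comm (φ x)]
    rw [Set.uIcc_comm] at h h'
    exact key y x hxy h h'

theorem af_word {R RW a0 b b' : ℝ} {G p0 : ℂ → ℂ} (hp : DifferentiableOn ℂ p0 (ball (a0 : ℂ) R))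
    (hsl : ∀ z ∈ ball (a0 : ℂ) R, ‖deriv p0 z - 3 / 4‖ ≤ 3 / 10)
    (hG : DifferentiableOn ℂ G (ball (b : ℂ) RW))
    (hGs : ∀ z ∈ ball (b : ℂ) RW, ‖deriv G z + 7 / 4‖ ≤ 28 / 100)
    (hb : |b - a0| < R) (hb' : |b' - a0| < R) (hbb : |b' - b| < RW) (h : (G b).re = (p0 b).re) :
    |b - b'| ≤ |(G b').re - (p0 b').re| := by
  have hz : ∀ z ∈ Set.uIcc b b', (z : ℂ) ∈ ball (a0 : ℂ) R ∧ (z : ℂ) ∈ ball (b : ℂ) RW := by
    intro z hz
    have hRW : 0 < RW := (abs_nonneg _).trans_lt hbb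
    constructor
    · refine ki48_ball ?_
      have : z ∈ Metric.ball a0 R := by
        refine (convex_ball a0 R).ordConnected.uIcc_subset ?_ ?_ hz
        · rw [Metric.mem_ball, Real.dist_eq]; exact hb
        · rw [Metric.mem_ball, Real.dist_eq]; exact hb'
      rwa [Metric.mem_ball, Real.dist_eq] at this
    · refine ki48_ball ?_
      have : z ∈ Metric.ball b RW := by
        refine (convex_ball b RW).ordConnected.uIcc_subset ?_ ?_ hz
        · exact Metric.mem_ball_self hRW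
        · rw [Metric.mem_ball, Real.dist_eq]; exact hbb
      rwa [Metric.mem_ball, Real.dist_eq] at this
  have h1 := af_mv (φ := fun x : ℝ => (G (x : ℂ)).re - (p0 (x : ℂ)).re)
    (φ' := fun x : ℝ => (deriv G (x : ℂ)).re - (deriv p0 (x : ℂ)).re) (x := b) (y := b') ?_ ?_
  · refine h1.trans (le_of_eq ?_)
    simp only [h, sub_self, zero_sub, abs_neg]
  · intro z hz'
    obtain ⟨m1, m2⟩ := hz z hz'
    exact ((hG.differentiableAt (isOpen_ball.mem_nhds m2)).hasDerivAt.real_of_complex).sub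
      ((hp.differentiableAt (isOpen_ball.mem_nhds m1)).hasDerivAt.real_of_complex)
  · intro z hz'
    obtain ⟨m1, m2⟩ := hz z hz'
    have a1 := (Complex.abs_re_le_norm _).trans (hGs z m2)
    have a2 := (Complex.abs_re_le_norm _).trans (hsl z m1)
    have e1 : (deriv G (z : ℂ) + 7 / 4).re = (deriv G (z : ℂ)).re + 7 / 4 := by
      rw [Complex.add_re]; norm_num
    have e2 : (deriv p0 (z : ℂ) - 3 / 4).re = (deriv p0 (z : ℂ)).re - 3 / 4 := by
      rw [Complex.sub_re]; norm_num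
    rw [e1, abs_le] at a1
    rw [e2, abs_le] at a2
    show (deriv G (z : ℂ)).re - (deriv p0 (z : ℂ)).re ≤ -1
    linarith only [a1.2, a2.1, a1, a2]

/-- states of two points at the same level -/
theorem af_state (lam t : ℝ) (h0 : 0 ≤ lam) (h1 : lam ≤ 1 / 100) (m n n' : ℕ) (hm : 1 ≤ m)
    (hn : n = m - 1 + n') (hn' : n' ≠ 1) (hs : Real.sin (TE lam t m) ≠ 0)
    (hsn : Real.sin (TE lam t n) ≠ 0) (i j : ℤ) :
    PP lam n' (TE lam t n - (fibz i j n' : ℝ) * Real.pi) (TE lam t m - j * Real.pi)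
      = psiE lam t m - i * Real.pi := by
  have hx : |X lam t m| < 1 := (sin_TE_ne lam t h0 m).1 hs
  have h := (state_E lam t h0 h1 m hm hx i j n').2
  have q : ∀ (x : ℝ) (k : ℤ), Real.sin x ≠ 0 → Real.sin (x - k * Real.pi) ≠ 0 := by
    intro x k hx
    have := sin_shift_ne x (-k) hx
    rwa [Int.cast_neg, neg_mul, ← sub_eq_add_neg] at this
  refine PP_unique lam h0 h1 n' hn' _ _ _ (q _ _ hs) (q _ _ hsn) ?_
  rw [h, hn]


theorem af_good {lam : ℝ} (h0 : 0 ≤ lam) (h1 : lam ≤ 1 / 100) (hl : 200 * Real.sqrt lam ≤ 1 / 30)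
    {m : ℕ} {s : ℝ} (hs0 : 0 < s) (hs1 : s < 1) (h : LG (1 / 12) m s) :
    Good (1 / 20) (fun q => TE lam (EE lam m s) q) m := by
  refine ⟨h.1, fun j hj1 hj2 => ?_⟩
  have h2 := h.2 j hj1 hj2
  have h3 := TE_near lam h0 h1 m (by have := h.1; omega) s hs0 hs1 j hj2
  have h4 : |Real.sin (TE lam (EE lam m s) j) - Real.sin (Real.pi * (Nat.fib j : ℝ) * s)|
      ≤ |TE lam (EE lam m s) j - Real.pi * (Nat.fib j : ℝ) * s| := Real.abs_sin_sub_sin_le _ _
  have h5 := abs_sub_abs_le_abs_sub (Real.sin (Real.pi * (Nat.fib j : ℝ) * s))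
    (Real.sin (TE lam (EE lam m s) j))
  rw [abs_sub_comm] at h5
  show (1 / 20 : ℝ) ≤ |Real.sin (TE lam (EE lam m s) j)|
  linarith only [hl, h2, h3, h4, h5]

/-- localisation of points near a good point -/
theorem af_mem {c C9 : ℝ} {m : ℕ} {s s' : ℝ} (hm : 1 ≤ m) (hC : 0 < C9) (hc : 4 / C9 < c)
    (hs0 : 0 < s) (hs1 : s < 1) (h : c ≤ |Real.sin (Real.pi * (Nat.fib m : ℝ) * s)|)
    (hs : |s' - s| ≤ 1 / (C9 * (Nat.fib m : ℝ))) :
    0 < s' ∧ s' < 1 ∧ |Real.pi * (Nat.fib m : ℝ) * s' - Real.pi * (Nat.fib m : ℝ) * s| ≤ 4 / C9 ∧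
      |(Nat.fib m : ℝ) * s' - (Nat.fib m : ℝ) * s| ≤ 1 / C9 := by
  have hF := af_fibpos hm
  have hF0 : (0 : ℝ) < (Nat.fib m : ℝ) := by linarith only [hs0, hs1, hF]
  have e1 : |(Nat.fib m : ℝ) * s' - (Nat.fib m : ℝ) * s| ≤ 1 / C9 := by
    rw [← mul_sub, abs_mul, abs_of_pos hF0]
    calc (Nat.fib m : ℝ) * |s' - s| ≤ (Nat.fib m : ℝ) * (1 / (C9 * (Nat.fib m : ℝ))) := by gcongr
      _ = 1 / C9 := by field_simp
  have e2 : |Real.pi * (Nat.fib m : ℝ) * s' - Real.pi * (Nat.fib m : ℝ) * s| ≤ 4 / C9 := by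
    have : Real.pi * (Nat.fib m : ℝ) * s' - Real.pi * (Nat.fib m : ℝ) * s =
        Real.pi * ((Nat.fib m : ℝ) * s' - (Nat.fib m : ℝ) * s) := by ring
    rw [this, abs_mul, abs_of_pos Real.pi_pos]
    calc Real.pi * |(Nat.fib m : ℝ) * s' - (Nat.fib m : ℝ) * s| ≤ 4 * (1 / C9) := by
          gcongr
          linarith only [Real.pi_lt_d2, hs0, hs1]
      _ = 4 / C9 := by ring
  have e3 : 1 / C9 < c / 4 := by
    have : 4 / C9 = 4 * (1 / C9) := by ring
    linarith only [hc, this]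
  obtain ⟨k1, k2⟩ := af_loc (δ := c / 4) (y := (Nat.fib m : ℝ) * s) (f := Nat.fib m)
    (fun k => af_int (by rw [← mul_assoc]; exact h) k) (by positivity) (by nlinarith only [hs1])
  rw [abs_le] at e1
  refine ⟨?_, ?_, e2, abs_le.2 e1⟩
  · have : 0 < (Nat.fib m : ℝ) * s' := by linarith only [e1.1, e1, e3, k1]
    exact (mul_pos_iff_of_pos_left hF0).1 this
  · have : (Nat.fib m : ℝ) * s' < (Nat.fib m : ℝ) * 1 := by linarith only [e1.2, e1, e3, k2]
    exact lt_of_mul_lt_mul_left this hF0.le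

/-- Slopes at nearby points of a good level are comparable (from `E_curve`, field `Trat`). -/
theorem slope_comp : ∃ (lam1 C9 : ℝ), 0 < lam1 ∧ lam1 ≤ 1 / 100 ∧ 1 ≤ C9 ∧
    ∀ lam : ℝ, 0 < lam → lam ≤ lam1 → ∀ (m : ℕ) (s s' : ℝ), 0 < s → s < 1 → LG (1 / 12) m s →
      |s' - s| ≤ 1 / (C9 * (Nat.fib m : ℝ)) →
      0 < s' ∧ s' < 1 ∧ 0 < deriv (fun t => TE lam t m) (EE lam m s) ∧
      (Nat.fib m : ℝ) / 4 ≤ deriv (fun t => TE lam t m) (EE lam m s) ∧
      deriv (fun t => TE lam t m) (EE lam m s') ≤ 3 * deriv (fun t => TE lam t m) (EE lam m s) ∧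
      deriv (fun t => TE lam t m) (EE lam m s) ≤ 3 * deriv (fun t => TE lam t m) (EE lam m s') ∧
      deriv (fun t => TE lam t m) (EE lam m s') ≤ 20 * |deriv (fun t => X lam t m) (EE lam m s')| := by
  obtain ⟨R, lamE, hR, hlE0, hlE1, hE⟩ := E_curve (1 / 20) (by norm_num)
  refine ⟨min lamE (1 / 36000000), 1000 + 4 / R, lt_min hlE0 (by norm_num),
    (min_le_left _ _).trans hlE1, by have : 0 < 4 / R := by positivity
                                     linarith only [hlE0, hlE1, this], ?_⟩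
  intro lam hlam hlam1 m s s' hs0 hs1 hLG hss
  have hlE : lam ≤ lamE := hlam1.trans (min_le_left _ _)
  have hl1 : lam ≤ 1 / 100 := hlE.trans hlE1
  have hsq : Real.sqrt lam ≤ 1 / 6000 := by
    rw [Real.sqrt_le_left (by norm_num)]
    refine (hlam1.trans (min_le_right _ _)).trans (by norm_num)
  have hm : 1 ≤ m := by have := hLG.1; omega
  have hF := af_fibpos hm
  set C9 : ℝ := 1000 + 4 / R with hC9
  have h4R : 0 < 4 / R := by positivity
  have hC90 : 0 < C9 := by linarith only [hlE0, hlE1, h4R]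
  have hC91 : 4 / C9 ≤ 4 / 1000 := by gcongr; linarith only [h4R]
  have hC92 : 4 / C9 < R := by
    rw [div_lt_iff₀ hC90, hC9, mul_add, mul_div_cancel₀ _ hR.ne']
    nlinarith only [hR]
  have hsm := hLG.2 m (by omega) (by omega)
  obtain ⟨m1, m2, m3, -⟩ := af_mem (s' := s') hm hC90 (by linarith only [hlE0, hlE1, hC91]) hs0 hs1 hsm hss
  have hgood := af_good hlam.le hl1 (by linarith only [hsq]) hs0 hs1 hLG
  obtain ⟨T, p, hc, hT⟩ := hE lam R hlam hlE hR le_rfl (EE lam m s) m hgood 0 0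
  have hEE := (EE_spec lam hlam.le hl1 m hm s hs0 hs1).1
  have hEE' := (EE_spec lam hlam.le hl1 m hm s' m1 m2).1
  have q0 : TE lam (EE lam m s) m - ((0 : ℤ) : ℝ) * Real.pi = Real.pi * (Nat.fib m : ℝ) * s := by
    rw [hEE]; simp
  rw [q0] at hc hT
  have hsin' : (1 / 20 : ℝ) ≤ |Real.sin (Real.pi * (Nat.fib m : ℝ) * s')| := by
    have h4 : |Real.sin (Real.pi * (Nat.fib m : ℝ) * s') - Real.sin (Real.pi * (Nat.fib m : ℝ) * s)|
      ≤ |Real.pi * (Nat.fib m : ℝ) * s' - Real.pi * (Nat.fib m : ℝ) * s| :=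
        Real.abs_sin_sub_sin_le _ _
    have h5 := abs_sub_abs_le_abs_sub (Real.sin (Real.pi * (Nat.fib m : ℝ) * s))
      (Real.sin (Real.pi * (Nat.fib m : ℝ) * s'))
    rw [abs_sub_comm] at h5
    linarith only [hlE0, hlE1, hC91, hsm, m3, h4, h5]
  have ne : ∀ y : ℝ, (1 / 20 : ℝ) ≤ |y| → y ≠ 0 := by
    intro y hy h
    rw [h, abs_zero] at hy
    norm_num at hy
  have hx' : |Real.pi * (Nat.fib m : ℝ) * s' - Real.pi * (Nat.fib m : ℝ) * s| < R := by linarith only [hC92, m3]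
  have hx : |Real.pi * (Nat.fib m : ℝ) * s - Real.pi * (Nat.fib m : ℝ) * s| < R := by simpa using hR
  obtain ⟨D, hD, hD1, hD2, -⟩ := af_curve hlam.le hl1 hm hc hx (ne _ (by linarith only [hlE0, hlE1, hsm]))
  obtain ⟨D', hD', hD1', hD2', -⟩ := af_curve hlam.le hl1 hm hc hx' (ne _ hsin')
  have v := (af_val hlam.le hl1 hm hc hx (ne _ (by linarith only [hlE0, hlE1, hsm]))
    (t := EE lam m s) (by rw [hEE]; simp)).1
  have v' := (af_val hlam.le hl1 hm hc hx' (ne _ hsin')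
    (t := EE lam m s') (by rw [hEE']; simp)).1
  rw [v] at hD1
  rw [v'] at hD1'
  have hDp : 0 < D := by linarith only [hlE0, hlE1, hF, hD]
  have hDp' : 0 < D' := by linarith only [hlE0, hlE1, hF, hD']
  have hr := hc.Trat _ (ki48_ball hx')
  rw [hD2, hD2', ← Complex.ofReal_div, ← Complex.ofReal_one, ← Complex.ofReal_sub,
    Complex.norm_real, Real.norm_eq_abs] at hr
  have e1 : D'⁻¹ / D⁻¹ = D / D' := by field_simp
  rw [e1, abs_le] at hr
  have r1 : 1 / 2 ≤ D / D' := by linarith only [hr.1, hr]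
  have r2 : D / D' ≤ 3 / 2 := by linarith only [hr.2, hr]
  rw [le_div_iff₀ hDp'] at r1
  rw [div_le_iff₀ hDp'] at r2
  obtain ⟨d, hd, hd1, hd2⟩ := TE_deriv lam (EE lam m s') hlam.le hl1 m hm
    ((sin_TE_ne lam _ hlam.le m).1 (by rw [hEE']; exact ne _ hsin'))
  have hdD : d = D' := hd1.unique hD1'
  rw [hD1.deriv, hD1'.deriv, hd2.deriv, hEE', hdD, abs_mul, abs_neg, abs_of_pos hDp']
  refine ⟨m1, m2, hDp, hD, by linarith only [hlE0, hlE1, hF, hD, r1], by linarith only [hlE0, hlE1, hF, hD', r2], ?_⟩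
  have hfin := mul_le_mul_of_nonneg_left hsin' hDp'.le
  linarith only [hfin]


theorem af_lip1 {lam R b0 x y : ℝ} {m : ℕ} {i j : ℤ} {T p : ℂ → ℂ} (h0 : 0 ≤ lam)
    (h1 : lam ≤ 1 / 100) (hm : 1 ≤ m) (h : Curve lam R m i j b0 T p)
    (hs : ∀ z : ℝ, |z - b0| < R → Real.sin z ≠ 0) (hx : |x - b0| < R) (hy : |y - b0| < R) :
    |(T x).re - (T y).re| ≤ 4 / (Nat.fib m : ℝ) * |x - y| := by
  have hF := af_fibpos hm
  have hd : ∀ z ∈ Metric.ball b0 R, HasDerivWithinAt (fun x : ℝ => (T (x : ℂ)).re)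
      ((deriv T (z : ℂ)).re) (Metric.ball b0 R) z := by
    intro z hz
    rw [Metric.mem_ball, Real.dist_eq] at hz
    obtain ⟨D, hD, -, hD2, hD3⟩ := af_curve h0 h1 hm h hz (hs z hz)
    rw [hD2, Complex.ofReal_re]
    exact hD3.hasDerivWithinAt
  have hbd : ∀ z ∈ Metric.ball b0 R, ‖(deriv T (z : ℂ)).re‖ ≤ 4 / (Nat.fib m : ℝ) := by
    intro z hz
    rw [Metric.mem_ball, Real.dist_eq] at hz
    obtain ⟨D, hD, -, hD2, hD3⟩ := af_curve h0 h1 hm h hz (hs z hz)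
    have hDp : 0 < D := by linarith only [hF, hD]
    rw [hD2, Complex.ofReal_re, Real.norm_eq_abs, abs_of_pos (by positivity)]
    rw [inv_eq_one_div, div_le_div_iff₀ hDp (by linarith only [hF])]
    linarith only [hD]
  have := (convex_ball b0 R).norm_image_sub_le_of_norm_hasDerivWithin_le hd hbd
    (by rw [Metric.mem_ball, Real.dist_eq]; exact hy) (by rw [Metric.mem_ball, Real.dist_eq]; exact hx)
  rw [Real.norm_eq_abs, Real.norm_eq_abs] at this
  exact this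

/-- the second curve is nearly affine in the first -/
theorem af_lip2 {lam R L e S O a0 b : ℝ} {m : ℕ} {i j : ℤ} {T0 T1 p0 p1 : ℂ → ℂ} (hlam : 0 ≤ lam)
    (hlam1 : lam ≤ 1 / 100) (hm : 1 ≤ m) (hR : 0 < R) (hR1 : R ≤ 1)
    (hS : 0 ≤ S) (he : 0 ≤ e) (heS : e * S ≤ 1) (h0 : Curve lam R m 0 0 a0 T0 p0)
    (h1 : Curve lam R m i j a0 T1 p1) (hb : PairB R L e S O (a0 : ℂ) T0 T1 p0 p1)
    (hs : ∀ z : ℝ, |z - a0| < R → Real.sin z ≠ 0) (hx : |b - a0| < R / 2) {D0 D1 : ℝ}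
    (hD0 : 0 < D0) (hD1 : 0 < D1) (hd0 : deriv T0 a0 = ((D0⁻¹ : ℝ) : ℂ))
    (hd1 : deriv T1 a0 = ((D1⁻¹ : ℝ) : ℂ)) :
    |((T1 b).re - (T1 a0).re) - D0 / D1 * ((T0 b).re - (T0 a0).re)|
      ≤ 8 * (D0 / D1) * (e * S) / (Nat.fib m : ℝ) := by
  have hF := af_fibpos hm
  have ha : |a0 - a0| < R := by simpa using hR
  have ha2 : |a0 - a0| < R / 2 := by simpa using hR
  have hρ : 0 < D0 / D1 := by positivity
  have hd : ∀ z ∈ Metric.ball a0 (R / 2), HasDerivWithinAt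
      (fun x : ℝ => (T1 (x : ℂ)).re - D0 / D1 * (T0 (x : ℂ)).re)
      ((deriv T1 (z : ℂ)).re - D0 / D1 * (deriv T0 (z : ℂ)).re) (Metric.ball a0 (R / 2)) z := by
    intro z hz
    rw [Metric.mem_ball, Real.dist_eq] at hz
    have hz' : |z - a0| < R := by linarith only [hR, hz]
    obtain ⟨D, hD, -, hD2, hD3⟩ := af_curve hlam hlam1 hm h0 hz' (hs z hz')
    obtain ⟨D', hD', -, hD2', hD3'⟩ := af_curve hlam hlam1 hm h1 hz' (hs z hz')
    rw [hD2, hD2', Complex.ofReal_re, Complex.ofReal_re]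
    exact (hD3'.sub (hD3.const_mul _)).hasDerivWithinAt
  have hbd : ∀ z ∈ Metric.ball a0 (R / 2),
      ‖(deriv T1 (z : ℂ)).re - D0 / D1 * (deriv T0 (z : ℂ)).re‖
        ≤ 8 * (D0 / D1) * (e * S) / (Nat.fib m : ℝ) := by
    intro z hz
    rw [Metric.mem_ball, Real.dist_eq] at hz
    have hz' : |z - a0| < R := by linarith only [hR, hz]
    obtain ⟨D, hD, -, hD2, -⟩ := af_curve hlam hlam1 hm h0 hz' (hs z hz')
    obtain ⟨D', hD', -, hD2', -⟩ := af_curve hlam hlam1 hm h1 hz' (hs z hz')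
    have hDp : 0 < D := by linarith only [hF, hD]
    have hDp' : 0 < D' := by linarith only [hF, hD']
    have hFF := af_F hR hS h0 h1 hb hz ha2
    rw [hD2, hD2', hd0, hd1] at hFF
    simp only [Complex.norm_real, Real.norm_eq_abs] at hFF
    rw [abs_of_pos (inv_pos.2 hDp), abs_of_pos (inv_pos.2 hDp'), abs_of_pos (inv_pos.2 hD0),
      abs_of_pos (inv_pos.2 hD1), Real.log_inv, Real.log_inv, Real.log_inv, Real.log_inv] at hFF
    have hu : S * e * |z - a0| ≤ e * S := by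
      have : |z - a0| ≤ 1 := by linarith only [hR1, hz]
      calc S * e * |z - a0| ≤ S * e * 1 := by gcongr
        _ = e * S := by ring
    set u : ℝ := -Real.log D' - -Real.log D - (-Real.log D1 - -Real.log D0) with hu0
    have hexp : Real.exp u = (D / D') / (D0 / D1) := by
      rw [hu0, show -Real.log D' - -Real.log D - (-Real.log D1 - -Real.log D0) =
        (Real.log D - Real.log D') - (Real.log D0 - Real.log D1) by ring, Real.exp_sub, Real.exp_sub,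
        Real.exp_sub, Real.exp_log hDp, Real.exp_log hDp', Real.exp_log hD0, Real.exp_log hD1]
    have h3 := Real.abs_exp_sub_one_le (x := u) (by linarith only [heS, hu, hFF])
    have e1 : D'⁻¹ - D0 / D1 * D⁻¹ = D0 / D1 * D⁻¹ * (Real.exp u - 1) := by
      rw [hexp]
      field_simp
    rw [hD2, hD2', Complex.ofReal_re, Complex.ofReal_re, Real.norm_eq_abs, e1, abs_mul,
      abs_of_pos (by positivity)]
    have h4 : D⁻¹ ≤ 4 / (Nat.fib m : ℝ) := by
      rw [inv_eq_one_div, div_le_div_iff₀ hDp (by linarith only [hF])]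
      linarith only [hD]
    calc D0 / D1 * D⁻¹ * |Real.exp u - 1| ≤ D0 / D1 * (4 / (Nat.fib m : ℝ)) * (2 * (e * S)) := by
          gcongr
          linarith only [hu, hFF, h3]
      _ = 8 * (D0 / D1) * (e * S) / (Nat.fib m : ℝ) := by ring
  have := (convex_ball a0 (R / 2)).norm_image_sub_le_of_norm_hasDerivWithin_le hd hbd
    (by rw [Metric.mem_ball, Real.dist_eq]; exact ha2)
    (by rw [Metric.mem_ball, Real.dist_eq]; exact hx)
  rw [Real.norm_eq_abs, Real.norm_eq_abs] at this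
  have e2 : (T1 b).re - (T1 a0).re - D0 / D1 * ((T0 b).re - (T0 a0).re) =
      (T1 b).re - D0 / D1 * (T0 b).re - ((T1 a0).re - D0 / D1 * (T0 a0).re) := by ring
  rw [e2]
  refine this.trans ?_
  have : |b - a0| ≤ 1 := by linarith only [hR1, hx]
  have h9 : 0 ≤ 8 * (D0 / D1) * (e * S) / (Nat.fib m : ℝ) := by positivity
  exact mul_le_of_le_one_right h9 this

theorem af_fib_mul {m n : ℕ} (hm : 1 ≤ m) (hmn : m ≤ n) :
    (Nat.fib (n - m) : ℝ) * (Nat.fib m : ℝ) ≤ (Nat.fib n : ℝ) := by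
  obtain ⟨q, rfl⟩ : ∃ q, n = m + q := ⟨n - m, by omega⟩
  obtain ⟨p, rfl⟩ : ∃ p, m = p + 1 := ⟨m - 1, by omega⟩
  have h1 : Nat.fib (p + q + 1) = Nat.fib p * Nat.fib q + Nat.fib (p + 1) * Nat.fib (q + 1) :=
    Nat.fib_add p q
  have h2 : Nat.fib q ≤ Nat.fib (q + 1) := Nat.fib_le_fib_succ
  have h3 : Nat.fib q * Nat.fib (p + 1) ≤ Nat.fib (p + 1 + q) := by
    rw [show p + 1 + q = p + q + 1 by ring, h1]
    nlinarith only [h2]
  rw [Nat.add_sub_cancel_left]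
  exact_mod_cast h3


theorem affine : ∃ (lam1 e1 C4 C9 : ℝ) (K : ℕ), 0 < lam1 ∧ lam1 ≤ 1 / 100 ∧ 0 < e1 ∧ e1 < 1 ∧
    1 ≤ C4 ∧ 1 ≤ C9 ∧ 3 ≤ K ∧
    ∀ lam : ℝ, 0 < lam → lam ≤ lam1 → ∃ l1 n0 : ℕ, 5 ≤ l1 ∧ AffP lam e1 C4 C9 K l1 n0 := by
  obtain ⟨RL, lamL, hRL0, -, -, hlL0, hlL1, hlog⟩ := pair_log (1 / 20) (by norm_num)
  obtain ⟨RW, lamW, hRW0, -, hlW0, hlW1, hword⟩ := word_Pb_ne (1 / 20) (by norm_num)
  obtain ⟨R00, hR00⟩ : ∃ R00, R00 = min RL (min RW (1 / 80)) := ⟨_, rfl⟩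
  have hR000 : 0 < R00 := by
    rw [hR00]; exact lt_min hRL0 (lt_min hRW0 (by norm_num))
  have hR00L : R00 ≤ RL := by rw [hR00]; exact min_le_left _ _
  have hR00W : R00 ≤ RW := by rw [hR00]; exact (min_le_right _ _).trans (min_le_left _ _)
  have hR00c : R00 ≤ 1 / 80 := by rw [hR00]; exact (min_le_right _ _).trans (min_le_right _ _)
  obtain ⟨R, lamP, eP, Lst, C4, K, hR0, hRR, hlP0, hlP1, heP0, heP1, hLst, hC4, hK, hpair⟩ :=
    pair_exists R00 hR000
  obtain ⟨C1, e0, n0, hC1, he00, hn0, hlog⟩ := hlog (R / 8) (by positivity) (by linarith only [hRL0, hR00L, hRR])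
  obtain ⟨lamG, hlG0, hlG1, hgood⟩ := good_first
  obtain ⟨lamS, eS, hlS0, hlS1, heS0, heS1, hsecond⟩ := second_point
  obtain ⟨C9, hC9⟩ : ∃ C9, C9 = 3000 + 256 / R + C1 * (1 + Lst) := ⟨_, rfl⟩
  have h256 : 0 < 256 / R := by positivity
  have hCL : 1 ≤ C1 * (1 + Lst) := by nlinarith only [hlL0, hlL1, hLst, hC1]
  have hC91 : 3000 ≤ C9 := by rw [hC9]; linarith only [hlL0, hlL1, h256, hCL]
  have hC92 : 256 / R ≤ C9 := by rw [hC9]; linarith only [hlL0, hlL1, hCL]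
  have hC93 : C1 * (1 + Lst) + 1 ≤ C9 := by rw [hC9]; linarith only [hlL0, hlL1, h256]
  have hC90 : 0 < C9 := by linarith only [hlL0, hlL1, hC9, h256, hCL]
  have h4C : 4 / C9 ≤ R / 64 := by
    rw [div_le_iff₀ hR0] at hC92
    rw [div_le_div_iff₀ hC90 (by norm_num)]
    linarith only [hC92]
  have h4C' : 4 / C9 ≤ 4 / 3000 := by gcongr
  have h16C : 16 / C9 ≤ 16 / 3000 := by gcongr
  refine ⟨min (min lamL lamW) (min lamP (min (min lamG lamS) ((R / 12800) ^ 2))),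
    min (min eP eS) (R / 256), C4, C9, K,
    lt_min (lt_min hlL0 hlW0) (lt_min hlP0 (lt_min (lt_min hlG0 hlS0) (by positivity))),
    ((min_le_left _ _).trans (min_le_left _ _)).trans hlL1,
    lt_min (lt_min heP0 heS0) (by positivity),
    ((min_le_left _ _).trans (min_le_left _ _)).trans_lt heP1, hC4, by linarith only [hlL0, hlL1, hC9, h256, hCL], hK, ?_⟩
  intro lam hlam hlam1
  have hlL : lam ≤ lamL := hlam1.trans ((min_le_left _ _).trans (min_le_left _ _))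
  have hlW : lam ≤ lamW := hlam1.trans ((min_le_left _ _).trans (min_le_right _ _))
  have hlP : lam ≤ lamP := hlam1.trans ((min_le_right _ _).trans (min_le_left _ _))
  have hlGS := hlam1.trans ((min_le_right _ _).trans ((min_le_right _ _).trans (min_le_left _ _)))
  have hlG : lam ≤ lamG := hlGS.trans (min_le_left _ _)
  have hlS : lam ≤ lamS := hlGS.trans (min_le_right _ _)
  have hlQ : lam ≤ (R / 12800) ^ 2 :=
    hlam1.trans ((min_le_right _ _).trans ((min_le_right _ _).trans (min_le_right _ _)))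
  have hl1 : lam ≤ 1 / 100 := hlL.trans hlL1
  have hl0 : 0 ≤ lam := hlam.le
  have hsq : 200 * Real.sqrt lam ≤ R / 64 := by
    have : Real.sqrt lam ≤ R / 12800 := by
      rw [Real.sqrt_le_left (by positivity)]
      exact hlQ
    linarith only [this]
  obtain ⟨lP, hlP4, hpair⟩ := hpair lam hlam hlP
  obtain ⟨N, hN⟩ := exists_nat_ge (-(5 / 2) * Real.log e0)
  refine ⟨max (max lP 5) N, n0, (le_max_right _ _).trans (le_max_left _ _), ?_⟩
  intro l0 m n d s0 B e S w g hl0' hd hde hKm hmn0 hgl0 hgm hs00 hs01 hLG hdebt hw he hS heS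
  have hl0P : lP ≤ l0 := ((le_max_left _ _).trans (le_max_left _ _)).trans hl0'
  have hl05 : 5 ≤ l0 := ((le_max_right _ _).trans (le_max_left _ _)).trans hl0'
  have hl0N : N ≤ l0 := (le_max_right _ _).trans hl0'
  have h3l : 3 * l0 ≤ K * l0 := Nat.mul_le_mul_right l0 hK
  have hm1 : 1 ≤ m := by omega
  have hl0m : l0 ≤ m := by omega
  have hmn : m ≤ n := by omega
  have hn1 : 1 ≤ n := by omega
  have hFm := af_fibpos hm1
  have hFn := af_fibpos hn1
  have hFm0 : (0 : ℝ) < (Nat.fib m : ℝ) := by linarith only [hlL0, hlL1, hFm]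
  have hFn0 : (0 : ℝ) < (Nat.fib n : ℝ) := by linarith only [hlL0, hlL1, hFn]
  have hF0m : (Nat.fib l0 : ℝ) ≤ (Nat.fib m : ℝ) := by exact_mod_cast Nat.fib_mono hl0m
  have hFmn : (Nat.fib m : ℝ) ≤ (Nat.fib n : ℝ) := by exact_mod_cast Nat.fib_mono hmn
  have hpi := Real.pi_pos
  have hpi4 : Real.pi < 4 := by linarith only [Real.pi_lt_d2, hlL0, hlL1]
  have hd0 : (0 : ℝ) ≤ (d : ℝ) := Nat.cast_nonneg _
  have hde1 : (d : ℝ) ≤ R / 256 * (Nat.fib m : ℝ) := by
    calc (d : ℝ) ≤ min (min eP eS) (R / 256) * (Nat.fib l0 : ℝ) := hde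
      _ ≤ R / 256 * (Nat.fib m : ℝ) := by
        gcongr
        exact min_le_right _ _
  have hdeP : (d : ℝ) ≤ eP * (Nat.fib l0 : ℝ) := by
    refine hde.trans ?_
    gcongr
    exact (min_le_left _ _).trans (min_le_left _ _)
  have hdeS : (d : ℝ) ≤ eS * (Nat.fib n : ℝ) := by
    calc (d : ℝ) ≤ min (min eP eS) (R / 256) * (Nat.fib l0 : ℝ) := hde
      _ ≤ eS * (Nat.fib n : ℝ) := mul_le_mul ((min_le_left _ _).trans (min_le_right _ _))
        (hF0m.trans hFmn) (Nat.cast_nonneg _) heS0.le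
  have hR80 : R ≤ 1 / 80 := hRR.trans hR00c
  -- distances at level m
  have hlev : ∀ s : ℝ, |(Nat.fib m : ℝ) * sh n d w s - (Nat.fib m : ℝ) * s - (JJ d w m : ℝ)|
      ≤ R / 256 := by
    intro s
    rw [sh_level n m hm1 hmn d w s, Int.cast_natCast, abs_of_nonneg hd0, div_le_iff₀ hFn0]
    calc (d : ℝ) * (Nat.fib (n - m) : ℝ)
        ≤ R / 256 * (Nat.fib m : ℝ) * (Nat.fib (n - m) : ℝ) := by gcongr
      _ = R / 256 * ((Nat.fib (n - m) : ℝ) * (Nat.fib m : ℝ)) := by ring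
      _ ≤ R / 256 * (Nat.fib n : ℝ) := by
        gcongr
        exact af_fib_mul hm1 hmn
  have hLGm := hLG m hl0m le_rfl hgm
  have hsm := hLGm.2 m (by omega) (by omega)
  have hint : ∀ k : ℤ, (98 / 1000 / 4 : ℝ) ≤ |(Nat.fib m : ℝ) * s0 - k| := fun k =>
    af_int (by rw [← mul_assoc]; exact hsm) k
  have hfl0 : 0 ≤ sh n d w s0 := by
    have h1 := Int.floor_le (s0 + d * (Nat.fib (n - 1) : ℝ) / (Nat.fib n : ℝ))
    rw [← hw] at h1
    unfold sh
    rw [Int.cast_natCast]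
    linarith only [h1]
  have hfl1 : sh n d w s0 < 1 := by
    have h1 := Int.lt_floor_add_one (s0 + d * (Nat.fib (n - 1) : ℝ) / (Nat.fib n : ℝ))
    rw [← hw] at h1
    unfold sh
    rw [Int.cast_natCast]
    linarith only [h1]
  have hshint : ∀ k : ℤ, (1 / 50 : ℝ) ≤ |(Nat.fib m : ℝ) * sh n d w s0 - k| := by
    intro k
    have h1 := hint (k - JJ d w m)
    have h2 := hlev s0
    rw [Int.cast_sub] at h1
    have h3 : |(Nat.fib m : ℝ) * s0 - (k - (JJ d w m : ℝ))| ≤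
        |(Nat.fib m : ℝ) * sh n d w s0 - (Nat.fib m : ℝ) * s0 - (JJ d w m : ℝ)| +
        |(Nat.fib m : ℝ) * sh n d w s0 - k| := by
      have e1 : (Nat.fib m : ℝ) * s0 - (k - (JJ d w m : ℝ)) =
          -((Nat.fib m : ℝ) * sh n d w s0 - (Nat.fib m : ℝ) * s0 - (JJ d w m : ℝ)) +
          ((Nat.fib m : ℝ) * sh n d w s0 - k) := by ring
      rw [e1]
      refine (abs_add_le _ _).trans ?_
      rw [abs_neg]
    linarith only [hlL0, hlL1, hR00c, hRR, h1, h2, h3]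
  obtain ⟨hshl, hshu⟩ := af_loc (f := Nat.fib m) hshint (by positivity)
    (by nlinarith only [hfl1] : (Nat.fib m : ℝ) * sh n d w s0 ≤ (Nat.fib m : ℝ))
  have hself : (Nat.fib m : ℝ) * sh m d w s0 = (Nat.fib m : ℝ) * s0 + (JJ d w m : ℝ) := by
    have h1 := sh_self m hm1 d w s0
    have h2 : Real.pi * ((Nat.fib m : ℝ) * sh m d w s0) =
        Real.pi * ((Nat.fib m : ℝ) * s0 + (JJ d w m : ℝ)) := by linarith only [h1]
    exact mul_left_cancel₀ hpi.ne' h2
  have hlev0 := hlev s0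
  rw [abs_le] at hlev0
  have hshm0 : 0 < sh m d w s0 := by
    have : 0 < (Nat.fib m : ℝ) * sh m d w s0 := by rw [hself]; linarith only [hlev0.2, hlL0, hlL1, hR00c, hRR, hshl, hlev0]
    exact (mul_pos_iff_of_pos_left hFm0).1 this
  have hshm1 : sh m d w s0 < 1 := by
    have : (Nat.fib m : ℝ) * sh m d w s0 < (Nat.fib m : ℝ) * 1 := by rw [hself]; linarith only [hlev0.1, hlL0, hlL1, hR00c, hRR, hshu, hlev0]
    exact lt_of_mul_lt_mul_left this hFm0.le
  refine ⟨hshm0, hshm1, ?_⟩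
  -- the pair of curves
  obtain ⟨r, hr⟩ : ∃ r, r = m - K * l0 := ⟨_, rfl⟩
  have hKr : K * l0 + r = m := by omega
  have hmono : ∀ k, l0 ≤ k → k ≤ m → g k → LG (1 / 11) k s0 := by
    intro k hk1 hk2 hk3
    have h1 := hLG k hk1 hk2 hk3
    exact ⟨h1.1, fun j hj1 hj2 => le_trans (by norm_num) (h1.2 j hj1 hj2)⟩
  have hP := hpair m l0 s0 d w g hl0P hs00 hs01 (by exact_mod_cast hd) hshm0 hshm1
    (by rw [Int.cast_natCast]; exact hdeP) hmono hgl0 r hKr.le (by rw [hKr]; exact hgm)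
  rw [hKr, (EE_spec lam hl0 hl1 m hm1 s0 hs00 hs01).1] at hP
  have hSle : C4 * Real.exp (debtS g (K * l0) (2 * Real.log 10) (1 / 10) (C4 * l0) r
      + 3 / 10 * ((m : ℝ) - l0)) ≤ S := by
    rw [hS]
    have : debtS g (K * l0) (2 * Real.log 10) (1 / 10) (C4 * l0) r ≤ B := by rw [hr]; exact hdebt
    gcongr
  obtain ⟨T0, p0, T1, p1, hc0, hc1, hb⟩ := hP.mono le_rfl (le_of_eq he.symm) hSle le_rfl
  obtain ⟨O, hO⟩ : ∃ O, O = C4 * Real.exp (debtS g (K * l0) (2 * Real.log 10) (1 / 10) (C4 * l0) r) :=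
    ⟨_, rfl⟩
  rw [← hO] at hb
  have hO0 : 0 ≤ O := by rw [hO]; positivity
  have he0 : 0 < e := by rw [he]; positivity
  have hS0 : 0 < S := by rw [hS]; positivity
  have hee : e ≤ e0 := by
    rw [he, ← Real.le_log_iff_exp_le he00]
    have h1 : (N : ℝ) ≤ l0 := by exact_mod_cast hl0N
    have h2 : (3 : ℝ) * l0 ≤ m := by exact_mod_cast h3l.trans hKm
    have h3 : (0 : ℝ) ≤ l0 := Nat.cast_nonneg _
    linarith only [hN, h1, h2]
  obtain ⟨a0, ha0⟩ : ∃ a0, a0 = Real.pi * (Nat.fib m : ℝ) * s0 := ⟨_, rfl⟩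
  rw [← ha0] at hc0 hc1 hb hsm
  have hsin : ∀ z : ℝ, |z - a0| < R → Real.sin z ≠ 0 := by
    intro z hz h
    have h1 : |Real.sin z - Real.sin a0| ≤ |z - a0| := Real.abs_sin_sub_sin_le _ _
    rw [h, zero_sub, abs_neg] at h1
    linarith only [hlL0, hlL1, hR00c, hRR, hsm, hz, h1]
  have haR : |a0 - a0| < R := by simpa using hR0
  have hE0 : TE lam (EE lam m s0) m = a0 + ((0 : ℤ) : ℝ) * Real.pi := by
    rw [(EE_spec lam hl0 hl1 m hm1 s0 hs00 hs01).1, ha0]; simp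
  have hE1 : TE lam (EE lam m (sh m d w s0)) m = a0 + (JJ d w m : ℝ) * Real.pi := by
    rw [(EE_spec lam hl0 hl1 m hm1 _ hshm0 hshm1).1, sh_self m hm1 d w s0, ha0]
  have v0 := (af_val hl0 hl1 hm1 hc0 haR (hsin _ haR) hE0).1
  have v1 := (af_val hl0 hl1 hm1 hc1 haR (hsin _ haR) hE1).1
  obtain ⟨D0, hD0, hD0', hD0d, -⟩ := af_curve hl0 hl1 hm1 hc0 haR (hsin _ haR)
  obtain ⟨D1, hD1, hD1', hD1d, -⟩ := af_curve hl0 hl1 hm1 hc1 haR (hsin _ haR)
  rw [v0] at hD0'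
  rw [v1] at hD1'
  have hD0p : 0 < D0 := by linarith only [hlL0, hlL1, hFm, hD0]
  have hD1p : 0 < D1 := by linarith only [hlL0, hlL1, hFm, hD1]
  have hGG : GG lam m s0 (sh m d w s0) = Real.log (D0 / D1) := by
    unfold GG
    rw [hD0'.deriv, hD1'.deriv]
  have hρ : Real.exp (GG lam m s0 (sh m d w s0)) = D0 / D1 := by
    rw [hGG, Real.exp_log (by positivity)]
  have hρ0 : 0 < D0 / D1 := by positivity
  rw [hρ]
  intro s hs hsn
  obtain ⟨hs0, hs1, hsd, hsd'⟩ := af_mem (c := 98 / 1000) (C9 := C9) hm1 hC90 (by linarith only [hlL0, hlL1, hR00c, hRR, h4C]) hs00 hs01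
    (by rw [← ha0]; exact hsm) hs
  have h1C : 1 / C9 ≤ 1 / 3000 := by gcongr
  have hshs : (Nat.fib m : ℝ) * sh n d w s = (Nat.fib m : ℝ) * sh n d w s0 +
      ((Nat.fib m : ℝ) * s - (Nat.fib m : ℝ) * s0) := by
    unfold sh
    ring
  rw [abs_le] at hsd'
  have hsh0 : 0 < sh n d w s := by
    have : 0 < (Nat.fib m : ℝ) * sh n d w s := by rw [hshs]; linarith only [hsd'.1, hlL0, hlL1, hshl, hsd', h1C]
    exact (mul_pos_iff_of_pos_left hFm0).1 this
  have hsh1 : sh n d w s < 1 := by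
    have : (Nat.fib m : ℝ) * sh n d w s < (Nat.fib m : ℝ) * 1 := by rw [hshs]; linarith only [hsd'.2, hlL0, hlL1, hshu, hsd', h1C]
    exact lt_of_mul_lt_mul_left this hFm0.le
  have hfract : Int.fract (s + d * (Nat.fib (n - 1) : ℝ) / (Nat.fib n : ℝ)) = sh n d w s := by
    have e1 : s + d * (Nat.fib (n - 1) : ℝ) / (Nat.fib n : ℝ) = sh n d w s + (w : ℝ) := by
      unfold sh
      rw [Int.cast_natCast]
      ring
    rw [e1, Int.fract_add_intCast, Int.fract_eq_self.2 ⟨hsh0.le, hsh1⟩]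
  refine ⟨hs0, hs1, hfract, hsh0, ?_⟩
  -- points at level n
  obtain ⟨t, ht⟩ : ∃ t, t = EE lam n s := ⟨_, rfl⟩
  obtain ⟨t', ht'⟩ : ∃ t', t' = EE lam n (sh n d w s) := ⟨_, rfl⟩
  rw [← ht, ← ht']
  have htn : TE lam t n = Real.pi * (Nat.fib n : ℝ) * s := by
    rw [ht]; exact (EE_spec lam hl0 hl1 n hn1 s hs0 hs1).1
  have htn' : TE lam t' n = Real.pi * (Nat.fib n : ℝ) * s + (JJ d w n : ℝ) * Real.pi := by
    rw [ht', (EE_spec lam hl0 hl1 n hn1 _ hsh0 hsh1).1, sh_self n hn1 d w s]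
  have htm : |TE lam t m - Real.pi * (Nat.fib m : ℝ) * s| ≤ 200 * Real.sqrt lam := by
    rw [ht]; exact TE_near lam hl0 hl1 n hn1 s hs0 hs1 m (by omega)
  have htm' : |TE lam t' m - Real.pi * (Nat.fib m : ℝ) * sh n d w s| ≤ 200 * Real.sqrt lam := by
    rw [ht']; exact TE_near lam hl0 hl1 n hn1 _ hsh0 hsh1 m (by omega)
  obtain ⟨b, hbd⟩ : ∃ b, b = TE lam t m := ⟨_, rfl⟩
  obtain ⟨b', hbd'⟩ : ∃ b', b' = TE lam t' m - (JJ d w m : ℝ) * Real.pi := ⟨_, rfl⟩
  have hba : |b - a0| ≤ R / 32 := by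
    have e1 : b - a0 = (TE lam t m - Real.pi * (Nat.fib m : ℝ) * s) +
        (Real.pi * (Nat.fib m : ℝ) * s - Real.pi * (Nat.fib m : ℝ) * s0) := by
      rw [hbd, ha0]; ring
    rw [e1]
    refine (abs_add_le _ _).trans ?_
    linarith only [h4C, hsq, hsd, htm]
  have hba' : |b' - a0| ≤ 3 * R / 64 := by
    have e1 : b' - a0 = (TE lam t' m - Real.pi * (Nat.fib m : ℝ) * sh n d w s) +
        Real.pi * ((Nat.fib m : ℝ) * sh n d w s - (Nat.fib m : ℝ) * s - (JJ d w m : ℝ)) +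
        (Real.pi * (Nat.fib m : ℝ) * s - Real.pi * (Nat.fib m : ℝ) * s0) := by
      rw [hbd', ha0]; ring
    have h2 : |Real.pi * ((Nat.fib m : ℝ) * sh n d w s - (Nat.fib m : ℝ) * s - (JJ d w m : ℝ))|
        ≤ 4 * (R / 256) := by
      rw [abs_mul, abs_of_pos hpi]
      exact mul_le_mul hpi4.le (hlev s) (abs_nonneg _) (by norm_num)
    rw [e1]
    refine (abs_add_le _ _).trans ?_
    have h3 := abs_add_le (TE lam t' m - Real.pi * (Nat.fib m : ℝ) * sh n d w s)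
      (Real.pi * ((Nat.fib m : ℝ) * sh n d w s - (Nat.fib m : ℝ) * s - (JJ d w m : ℝ)))
    linarith only [h4C, hsq, hsd, htm', h2, h3]
  have hbR : |b - a0| < R := by linarith only [hR0, hba]
  have hbR' : |b' - a0| < R := by linarith only [hR0, hba']
  have w0 := af_val hl0 hl1 hm1 hc0 hbR (hsin _ hbR) (t := t) (by rw [hbd]; simp)
  have w1 := af_val hl0 hl1 hm1 hc1 hbR' (hsin _ hbR') (t := t') (by rw [hbd']; ring)
  have hbb : |b' - b| < RW := by
    have e1 : b' - b = (b' - a0) - (b - a0) := by ring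
    rw [e1]
    refine (abs_sub _ _).trans_lt ?_
    linarith only [hR00W, hRR, hba, hba', hbR']
  -- good levels
  have hLGs : LG (1 / 11) m s := af_LG (c := 98 / 1000) hm1 le_rfl hC90 (by linarith only [hlL0, hlL1, h16C]) hLGm hs
  have hGm := hgood lam hlam hlG n m s hs0 hs1 hmn hLGs
  rw [← ht] at hGm
  -- the word
  obtain ⟨n', hn'⟩ : ∃ n', n' = n - m + 1 := ⟨_, rfl⟩
  have hnn : n = m - 1 + n' := by omega
  have hn'6 : 6 ≤ n' := by omega
  have hfz : fibz (JJ d w (m - 1)) (JJ d w m) n' = JJ d w n := by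
    have h1 := fibz_comp d (-w) (m - 1) n'
    rw [Nat.sub_add_cancel hm1, ← hnn] at h1
    exact h1
  have hfz' : fibz (JJ d w (m - 1)) (JJ d w m) (n' - 1) = JJ d w (n - 1) := by
    have h1 := fibz_comp d (-w) (m - 1) (n' - 1)
    rw [Nat.sub_add_cancel hm1, show m - 1 + (n' - 1) = n - 1 by omega] at h1
    exact h1
  have hsb : Real.sin (TE lam t m) ≠ 0 := by rw [← hbd]; exact hsin _ hbR
  have hsb' : Real.sin (TE lam t' m) ≠ 0 := by
    have e1 : TE lam t' m = b' + (JJ d w m : ℝ) * Real.pi := by rw [hbd']; ring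
    rw [e1]
    exact sin_shift_ne _ _ (hsin _ hbR')
  have hsa : Real.sin (TE lam t n) ≠ 0 := by rw [htn]; exact hsn
  have hsa' : Real.sin (TE lam t' n) ≠ 0 := by rw [htn']; exact sin_shift_ne _ _ hsn
  have hPP := af_state lam t hl0 hl1 m n n' hm1 hnn (by omega) hsb hsa 0 0
  have hPP' := af_state lam t' hl0 hl1 m n n' hm1 hnn (by omega) hsb' hsa' (JJ d w (m - 1)) (JJ d w m)
  rw [pw_fibz_zero, Int.cast_zero, zero_mul, sub_zero, sub_zero, sub_zero, htn, ← hbd] at hPP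
  rw [hfz, htn', add_sub_cancel_right, ← hbd'] at hPP'
  have hq0 : (p0 b).re = psiE lam t m := by
    have h1 := (hc0.re b (ki48_ball hbR)).2.2.2
    rw [w0.1] at h1
    simpa using h1.symm
  have hq1 : (p1 b').re = psiE lam t' m - (JJ d w (m - 1) : ℝ) * Real.pi := by
    have h1 := (hc1.re b' (ki48_ball hbR')).2.2.2
    rw [w1.1] at h1
    linarith only [h1]
  have hTW : ∀ j ≤ 4, (1 / 20 : ℝ) ≤ |Real.sin (TW lam b
      (PP lam n' (Real.pi * (Nat.fib n : ℝ) * s) b) j)| := by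
    intro j hj
    have hx : |X lam t m| < 1 := (sin_TE_ne lam t hl0 m).1 hsb
    have h1 := (state_E lam t hl0 hl1 m hm1 hx 0 0 j).2
    rw [pw_fibz_zero, Int.cast_zero, zero_mul, sub_zero, sub_zero, sub_zero, ← hbd] at h1
    rw [hPP, h1]
    exact hGm.2 (m - 1 + j) (by omega) (by omega)
  obtain ⟨G, hGd, hGs, hGr⟩ := hword lam hlam hlW n' hn'6 (Real.pi * (Nat.fib n : ℝ) * s) b hsn hTW
  have hGb := hGr b (mem_ball_self hRW0)
  have hGb' := hGr b' (ki48_ball hbb)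
  have hbe0 : |b - b'| ≤ ‖p1 b' - p0 b'‖ := by
    have h1 := af_word hc0.dp hc0.slope hGd hGs hbR hbR' hbb
      (by rw [hGb, hPP, Complex.ofReal_re, hq0])
    rw [hGb', hPP', Complex.ofReal_re, ← hq1, ← Complex.sub_re] at h1
    exact h1.trans (Complex.abs_re_le_norm _)
  have hbe : |b' - b| ≤ e := by
    rw [abs_sub_comm]
    exact hbe0.trans (hb.ne b' (ki48_ball hbR')).2
  -- the affine estimate
  have hlip := af_lip1 hl0 hl1 hm1 hc1 hsin hbR' hbR
  have hlip0 := af_lip1 hl0 hl1 hm1 hc0 hsin hbR haR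
  have hlip2 := af_lip2 hl0 hl1 hm1 hR0 (by linarith only [hlL0, hlL1, hR00c, hRR]) hS0.le he0.le heS hc0 hc1 hb hsin
    (by linarith only [hba, hbR] : |b - a0| < R / 2) hD0p hD1p hD0d hD1d
  rw [w1.1] at hlip
  rw [w0.1, v0] at hlip0 hlip2
  rw [v1] at hlip2
  have heS0 : 0 ≤ e * S := by positivity
  refine ⟨?_, ?_, ?_⟩
  · have e1 : t' - EE lam m (sh m d w s0) - D0 / D1 * (t - EE lam m s0) =
        (t' - (T1 b).re) + ((T1 b).re - EE lam m (sh m d w s0) - D0 / D1 * (t - EE lam m s0)) := by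
      ring
    rw [e1]
    refine (abs_add_le _ _).trans ?_
    have h1 : |t' - (T1 b).re| ≤ 4 / (Nat.fib m : ℝ) * e :=
      hlip.trans (by gcongr)
    calc |t' - (T1 b).re| + |(T1 b).re - EE lam m (sh m d w s0) - D0 / D1 * (t - EE lam m s0)|
        ≤ 4 / (Nat.fib m : ℝ) * e + 8 * (D0 / D1) * (e * S) / (Nat.fib m : ℝ) := add_le_add h1 hlip2
      _ = (4 * e + 8 * (D0 / D1) * (e * S)) / (Nat.fib m : ℝ) := by ring
      _ ≤ C9 * (1 + D0 / D1) * (e + e * S) / (Nat.fib m : ℝ) := by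
        gcongr
        have k1 : 4 * e ≤ C9 * e := by gcongr; linarith only [hlL0, hlL1, hC9, h256, hCL]
        have k2 : 8 * ((D0 / D1) * (e * S)) ≤ C9 * ((D0 / D1) * (e * S)) := by gcongr; linarith only [hlL0, hlL1, hC9, h256, hCL]
        have k3 : 0 ≤ C9 * (e * S) := by positivity
        have k4 : 0 ≤ C9 * ((D0 / D1) * e) := by positivity
        linarith only [k1, k2, k3, k4]
  · refine hlip0.trans ?_
    have h1 : |b - a0| ≤ 1 := by linarith only [hlL0, hlL1, hR00c, hRR, hba]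
    calc 4 / (Nat.fib m : ℝ) * |b - a0| ≤ 4 / (Nat.fib m : ℝ) * 1 := by gcongr
      _ = 4 / (Nat.fib m : ℝ) := mul_one _
      _ ≤ C9 / (Nat.fib m : ℝ) := by gcongr; linarith only [hlL0, hlL1, hC9, h256, hCL]
  · intro hLGn
    have hGn := hgood lam hlam hlG n n s hs0 hs1 le_rfl hLGn
    rw [← ht] at hGn
    obtain ⟨t1, ht1, hg1, -⟩ := hsecond lam hlam hlS n n d w s hs0 hs1 hsh0 hsh1 le_rfl
      (by exact_mod_cast hd) (by rw [Int.cast_natCast]; exact hdeS) hLGn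
    rw [← ht, htn] at ht1
    have htt : t1 = t' := TE_inj lam hl0 hl1 n hn1 _ _ (ht1.trans htn'.symm)
      (by rw [ht1, ← htn']; exact hsa')
    rw [htt] at hg1
    have hba8 : |b - a0| ≤ R / 8 := by linarith only [hba, hbR]
    obtain ⟨b1, P, U, T0m, p0m, T1m, p1m, -, -, hT1b, -, hb1, -, hcm0, hcm1, hT0m, hT1m, hmain, -⟩ :=
      hlog lam hlam hlL m n' n (by omega) hnn (JJ d w (m - 1)) (JJ d w m) t t' Lst e S O T0 p0 T1 p1
        hGm hGn (by rw [hfz, htn', htn]) hg1 (by linarith only [hlL0, hlL1, hLst]) he0.le hS0.le hO0 hee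
        (by rw [← hbd]; exact hc0.recenter hR0 hba8) (by rw [← hbd]; exact hc1.recenter hR0 hba8)
        (by rw [← hbd]; exact hb.recenter hR0 hba8)
    have hbb1 : b1 = b' := by rw [hbd', hb1]; ring
    rw [hbb1] at hmain
    have hR8 : 0 < R / 8 := by positivity
    have u0 := ki48_dTE hlam hl1 hn1 hR8 hcm0 hT0m hsa
    have u1 := ki48_dTE hlam hl1 hn1 hR8 hcm1 hT1m hsa'
    have hGGn : GG lam n s (sh n d w s) =
        Real.log (‖deriv T1m (TE lam t n : ℝ)‖ / ‖deriv T0m (TE lam t n : ℝ)‖) := by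
      rw [u0.1, u1.1]
      unfold GG
      rw [← ht, ← ht']
      congr 1
      have := u0.2
      have := u1.2
      field_simp
    have hN0 : deriv T0 (b' : ℂ) ≠ 0 := hc0.Tne _ (ki48_ball hbR')
    have hN1 : deriv T1 (b' : ℂ) ≠ 0 := hc1.Tne _ (ki48_ball hbR')
    have hF := af_F hR0 hS0.le hc0 hc1 hb (x := b') (y := a0) (by linarith only [hba', hbR']) (by simpa using hR0)
    have hGG0 : Real.log ‖deriv T1 (a0 : ℂ)‖ - Real.log ‖deriv T0 (a0 : ℂ)‖ =
        GG lam m s0 (sh m d w s0) := by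
      rw [hD0d, hD1d, hGG, Complex.norm_real, Complex.norm_real, Real.norm_eq_abs, Real.norm_eq_abs,
        abs_of_pos (inv_pos.2 hD0p), abs_of_pos (inv_pos.2 hD1p), Real.log_inv, Real.log_inv,
        Real.log_div hD0p.ne' hD1p.ne']
      ring
    rw [hGG0, ← Real.log_div (norm_ne_zero_iff.2 hN1) (norm_ne_zero_iff.2 hN0)] at hF
    rw [← hGGn] at hmain
    have hpe : ‖p1 b' - p0 b'‖ ≤ e := (hb.ne b' (ki48_ball hbR')).2
    have k1 : C1 * (1 + Lst) * ‖p1 b' - p0 b'‖ ≤ C1 * (1 + Lst) * e := by gcongr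
    have k2 : S * e * |b' - a0| ≤ S * e * 1 := by
      gcongr
      linarith only [hlL0, hlL1, hR00c, hRR, hbR']
    have e2 : GG lam n s (sh n d w s) - GG lam m s0 (sh m d w s0) =
        (GG lam n s (sh n d w s) - Real.log (‖deriv T1 (b' : ℂ)‖ / ‖deriv T0 (b' : ℂ)‖)) +
        (Real.log (‖deriv T1 (b' : ℂ)‖ / ‖deriv T0 (b' : ℂ)‖) - GG lam m s0 (sh m d w s0)) := by ring
    rw [e2]
    refine (abs_add_le _ _).trans ?_
    have k3 : C1 * (1 + Lst) * e ≤ C9 * e := by gcongr; linarith only [hlL0, hlL1, hC9, h256]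
    have k4 : S * e * 1 ≤ C9 * (e * S) := by
      have : 1 * (e * S) ≤ C9 * (e * S) := by gcongr; linarith only [hlL0, hlL1, hC9, h256, hCL]
      linarith only [this]
    linarith only [hmain, hF, k1, k2, k3, k4]

end SF
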