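import Pool.Agent.Helper65.SF.LR

/-!
# SF-BG: geometry of a gain interval inside a node (elementary)

Proof in words.  `mu = (1+sqrt 5)/2`.  Apply `steer` with `eps' = eps/10` to the middle half of the node (length at least
`2^(-13)/fib (k+4) >= 2^(-16)/fib k`): `l = k + G`, `s*` with `fib l s* = 3/10 + a + e1`, `fib (l-1) s* = -3 mu/10 + b + e2`, `|e1|,|e2| <= eps'`.
`Z = fibz b a (N+1) = fib N b + fib (N+1) a`, `fib (l+N) = fib (N+1) fib l + fib N fib (l-1)` (`Nat.fib_add`), so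
`fib (l+N) s* = Z + (3/10)(fib (N+1) - mu fib N) + fib (N+1) e1 + fib N e2`, `|fib (N+1) - mu fib N| <= 1`.
For `x` in `[25/100, 35/100]`, `s = (Z + x)/fib (l+N)`: `|fib (l+N)(s - s*)| <= 1 + 3 fib N eps'`, `fib (l+N) >= fib N fib l`, so
`fib l |s - s*| <= 1/fib N + 3 eps'`, so `fib l s`, `fib (l-1) s` are within `5 eps'` of the star (N large), and s is in the node.
Goodness at level l: `star_good`.  Goodness at level `m = l + N`: `fib (m-1) s, fib m s` are close to `x/mu`, `x` modulo integers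
(`fib (m-1) s = fib N (fib l s) + fib (N-1) (fib (l-1) s)`; more precisely with `beta = fib l s - a`, `gam = fib (l-1) s - b`:
`fib (N+1) beta + fib N gam = x`, so `fib N beta + fib (N-1) gam = x fib N/fib (N+1) ± beta/fib (N+1)`-like),
so `fib (m+q) s` mod 1 is close to `x mu^q`, q = -3..3, i.e. for x in [.25,.35]: [.059,.083], [.095,.134], [.154,.217], x, [.404,.567], [.654,.917],
[1.059,1.483]: all sines at least 1/6.
-/

namespace SF

open Real in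
private theorem h89_sin_lb {t : ℝ} (h1 : 5 / 100 ≤ t) (h2 : t ≤ 95 / 100) :
    1 / 7 ≤ |Real.sin (Real.pi * t)| := by
  have hpi := Real.pi_gt_d2
  have hpi' := Real.pi_lt_d2
  have h3 : (1:ℝ) / 7 ≤ Real.sin (Real.pi / 20) := by
    have h4 := Real.sin_gt_sub_cube (x := Real.pi / 20) (by positivity)
    have h5 : Real.pi / 20 ≤ 0.158 := by linarith
    have h6 : 0.157 ≤ Real.pi / 20 := by linarith
    have h7 : (Real.pi / 20) ^ 3 ≤ 0.158 ^ 3 := pow_le_pow_left₀ (by positivity) h5 3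
    norm_num at h7 ⊢
    linarith
  have hle : Real.sin (Real.pi / 20) ≤ Real.sin (Real.pi * t) := by
    rcases le_total t (1 / 2) with h | h
    · apply Real.sin_le_sin_of_le_of_le_pi_div_two
      · linarith
      · nlinarith
      · nlinarith
    · rw [← Real.sin_pi_sub (Real.pi * t)]
      apply Real.sin_le_sin_of_le_of_le_pi_div_two
      · linarith
      · nlinarith
      · nlinarith
  exact (h3.trans hle).trans (le_abs_self _)

private theorem h89_sin_shift (z : ℤ) (t : ℝ) :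
    |Real.sin (Real.pi * ((z : ℝ) + t))| = |Real.sin (Real.pi * t)| := by
  have h1 : Real.pi * ((z : ℝ) + t) = Real.pi * t + z * Real.pi := by ring
  rw [h1, Real.sin_add_int_mul_pi, abs_mul]
  have h2 : |((-1:ℝ)) ^ z| = 1 := by
    rw [abs_zpow, abs_neg, abs_one, one_zpow]
  rw [h2, one_mul]

private theorem h89_sin_mod {A t : ℝ} (z : ℤ) (hA : A = z + t) (h1 : 5 / 100 ≤ t)
    (h2 : t ≤ 95 / 100) : 1 / 7 ≤ |Real.sin (Real.pi * A)| := by
  rw [hA, h89_sin_shift]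
  exact h89_sin_lb h1 h2

private theorem h89_LG (m : ℕ) (hm : 4 ≤ m) (s : ℝ) (Z Z' : ℤ) (x x' : ℝ)
    (hA : (Nat.fib m : ℝ) * s = Z + x) (hB : (Nat.fib (m - 1) : ℝ) * s = Z' + x')
    (hx1 : 25 / 100 ≤ x) (hx2 : x ≤ 35 / 100)
    (hx' : |x' - x * ((Real.sqrt 5 - 1) / 2)| ≤ 1 / 1000) : LG (1 / 7) m s := by
  refine ⟨hm, ?_⟩
  intro j hj1 hj2
  obtain ⟨n, rfl⟩ : ∃ n, m = n + 4 := ⟨m - 4, by omega⟩
  rw [show n + 4 - 1 = n + 3 by omega] at hB
  have hs5l : (2.236 : ℝ) ≤ Real.sqrt 5 := Real.le_sqrt_of_sq_le (by norm_num)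
  have hs5u : Real.sqrt 5 ≤ (2.237 : ℝ) := Real.sqrt_le_iff.2 (by norm_num)
  rw [abs_le] at hx'
  obtain ⟨g1, g2⟩ := hx'
  have hlo : x * 0.618 ≤ x * ((Real.sqrt 5 - 1) / 2) :=
    mul_le_mul_of_nonneg_left (by linarith) (by linarith)
  have hhi : x * ((Real.sqrt 5 - 1) / 2) ≤ x * 0.6185 :=
    mul_le_mul_of_nonneg_left (by linarith) (by linarith)
  have r : ∀ q, (Nat.fib (q + 2) : ℝ) = Nat.fib q + Nat.fib (q + 1) := by
    intro q
    rw [Nat.fib_add_two]; push_cast; ring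
  have f5 : (Nat.fib (n + 5) : ℝ) = Nat.fib (n + 3) + Nat.fib (n + 4) := r (n + 3)
  have f6 : (Nat.fib (n + 6) : ℝ) = Nat.fib (n + 4) + Nat.fib (n + 5) := r (n + 4)
  have f7 : (Nat.fib (n + 7) : ℝ) = Nat.fib (n + 5) + Nat.fib (n + 6) := r (n + 5)
  have f2 : (Nat.fib (n + 4) : ℝ) = Nat.fib (n + 2) + Nat.fib (n + 3) := r (n + 2)
  have f1 : (Nat.fib (n + 3) : ℝ) = Nat.fib (n + 1) + Nat.fib (n + 2) := r (n + 1)
  have hcase : j = n + 1 ∨ j = n + 2 ∨ j = n + 3 ∨ j = n + 4 ∨ j = n + 5 ∨ j = n + 6 ∨ j = n + 7 := by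
    omega
  have hre : Real.pi * (Nat.fib j : ℝ) * s = Real.pi * ((Nat.fib j : ℝ) * s) := by ring
  rw [hre]
  rcases hcase with rfl | rfl | rfl | rfl | rfl | rfl | rfl
  · refine h89_sin_mod (t := 2 * x' - x) (2 * Z' - Z) ?_ (by linarith) (by linarith)
    have e : (Nat.fib (n + 1) : ℝ) * s = 2 * ((Nat.fib (n + 3) : ℝ) * s) -
      (Nat.fib (n + 4) : ℝ) * s := by
      have : (Nat.fib (n + 1) : ℝ) = 2 * Nat.fib (n + 3) - Nat.fib (n + 4) := by linarith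
      rw [this]; ring
    rw [e, hA, hB]; push_cast; ring
  · refine h89_sin_mod (t := x - x') (Z - Z') ?_ (by linarith) (by linarith)
    have e : (Nat.fib (n + 2) : ℝ) * s = (Nat.fib (n + 4) : ℝ) * s -
      (Nat.fib (n + 3) : ℝ) * s := by
      have : (Nat.fib (n + 2) : ℝ) = Nat.fib (n + 4) - Nat.fib (n + 3) := by linarith
      rw [this]; ring
    rw [e, hA, hB]; push_cast; ring
  · exact h89_sin_mod (t := x') Z' hB (by linarith) (by linarith)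
  · exact h89_sin_mod (t := x) Z hA (by linarith) (by linarith)
  · refine h89_sin_mod (t := x + x') (Z + Z') ?_ (by linarith) (by linarith)
    have e : (Nat.fib (n + 5) : ℝ) * s = (Nat.fib (n + 4) : ℝ) * s +
      (Nat.fib (n + 3) : ℝ) * s := by
      rw [f5]; ring
    rw [e, hA, hB]; push_cast; ring
  · refine h89_sin_mod (t := 2 * x + x') (2 * Z + Z') ?_ (by linarith) (by linarith)
    have e : (Nat.fib (n + 6) : ℝ) * s = 2 * ((Nat.fib (n + 4) : ℝ) * s) +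
      (Nat.fib (n + 3) : ℝ) * s := by
      rw [f6, f5]; ring
    rw [e, hA, hB]; push_cast; ring
  · refine h89_sin_mod (t := 3 * x + 2 * x' - 1) (3 * Z + 2 * Z' + 1) ?_ (by linarith) (by linarith)
    have e : (Nat.fib (n + 7) : ℝ) * s = 3 * ((Nat.fib (n + 4) : ℝ) * s) +
      2 * ((Nat.fib (n + 3) : ℝ) * s) := by
      rw [f7, f6, f5]; ring
    rw [e, hA, hB]; push_cast; ring

private theorem h89_fibz (b a : ℤ) (n : ℕ) :
    fibz b a (n + 1) = (Nat.fib n : ℤ) * b + (Nat.fib (n + 1) : ℤ) * a := by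
  induction n using Nat.twoStepInduction with
  | zero => simp [fibz]
  | one => simp [fibz]; ring
  | more n ih1 ih2 =>
    rw [show n + 2 + 1 = (n + 1) + 2 by ring, fibz, show n + 1 + 1 = (n + 1) + 1 from rfl, ih2, ih1]
    have e1 : (Nat.fib (n + 2) : ℤ) = Nat.fib n + Nat.fib (n + 1) := by
      rw [Nat.fib_add_two]; push_cast; ring
    have e2 : (Nat.fib (n + 1 + 2) : ℤ) = Nat.fib (n + 1) + Nat.fib (n + 1 + 1) := by
      rw [Nat.fib_add_two]; push_cast; ring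
    rw [e2, show n + 1 + 1 = n + 2 from rfl, e1]
    ring

private theorem h89_add (l N : ℕ) (hl : 1 ≤ l) : (Nat.fib (l + N) : ℝ) =
    (Nat.fib (N + 1) : ℝ) * Nat.fib l + (Nat.fib N : ℝ) * Nat.fib (l - 1) := by
  obtain ⟨p, rfl⟩ : ∃ p, l = p + 1 := ⟨l - 1, by omega⟩
  have := Nat.fib_add p N
  rw [show p + 1 + N = p + N + 1 by ring, this, show p + 1 - 1 = p by omega]
  push_cast
  ring

private theorem h89_LG_star (l : ℕ) (hl : 4 ≤ l) (s : ℝ) (a b : ℤ) (e : ℝ) (he : e ≤ 1 / 1000)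
    (h1 : |(Nat.fib l : ℝ) * s - 3 / 10 - a| ≤ e)
    (h2 : |(Nat.fib (l - 1) : ℝ) * s + 3 / 10 * ((1 + Real.sqrt 5) / 2) - b| ≤ e) :
    LG (1 / 6) l s := by
  refine ⟨hl, fun j hj1 hj2 => ?_⟩
  have := star_good l hl s a b e he h1 h2 j hj1 hj2
  linarith


private theorem h89_core (e fl fl1 fN fN1 flN φ p s sc a b : ℝ) (he0 : 0 < e) (hl : 0 < fl)
    (hl1 : 0 < fl1) (hl1le : fl1 ≤ fl) (hNfib : 1 / e ≤ fN) (hN1 : fN1 ≤ 2 * fN) (hN1' : fN ≤ fN1)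
    (hadd : flN = fN1 * fl + fN * fl1) (hp : fN1 - φ * fN = p) (hp1 : |p| ≤ 1)
    (ha : |fl * sc - 3 / 10 - a| ≤ e) (hb : |fl1 * sc + 3 / 10 * φ - b| ≤ e)
    (hs1 : 25 / 100 ≤ flN * s - (fN * b + fN1 * a))
    (hs2 : flN * s - (fN * b + fN1 * a) ≤ 35 / 100) : fl * |s - sc| ≤ 4 * e := by
  have hNpos : 0 < fN := lt_of_lt_of_le (one_div_pos.mpr he0) hNfib
  have hx0 : |fN1 * (fl * sc - a) + fN * (fl1 * sc - b)| ≤ 3 / 10 + 3 * fN * e := by
    have e1 : fN1 * (fl * sc - a) + fN * (fl1 * sc - b) =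
        3 / 10 * p + fN1 * (fl * sc - 3 / 10 - a) +
          fN * (fl1 * sc + 3 / 10 * φ - b) := by
      rw [← hp]; ring
    rw [e1]
    have e2 : |3 / 10 * p| ≤ 3 / 10 := by
      rw [abs_mul, abs_of_pos (by norm_num : (0:ℝ) < 3 / 10)]
      linarith
    have e3 : |fN1 * (fl * sc - 3 / 10 - a)| ≤ 2 * fN * e := by
      rw [abs_mul, abs_of_nonneg (by linarith : 0 ≤ fN1)]
      exact mul_le_mul hN1 ha (abs_nonneg _) (by linarith)
    have e4 : |fN * (fl1 * sc + 3 / 10 * φ - b)| ≤ fN * e := by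
      rw [abs_mul, abs_of_pos hNpos]
      exact mul_le_mul_of_nonneg_left hb hNpos.le
    refine (abs_add_le _ _).trans ?_
    have e5 := abs_add_le (3 / 10 * p) (fN1 * (fl * sc - 3 / 10 - a))
    linarith
  have hge : fN * fl ≤ flN := by
    rw [hadd]
    have := mul_le_mul_of_nonneg_right hN1' hl.le
    have := mul_nonneg hNpos.le hl1.le
    linarith
  have hflN : 0 ≤ flN := le_trans (mul_nonneg hNpos.le hl.le) hge
  have hdiff : flN * (s - sc) = (flN * s - (fN * b + fN1 * a)) -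
      (fN1 * (fl * sc - a) + fN * (fl1 * sc - b)) := by
    rw [hadd]; ring
  have hd1 : flN * |s - sc| ≤ 1 + 3 * fN * e := by
    rw [← abs_of_nonneg hflN, ← abs_mul, hdiff]
    refine (abs_sub _ _).trans ?_
    rw [abs_of_pos (show 0 < flN * s - (fN * b + fN1 * a) by linarith)]
    linarith
  have e1 : fN * (fl * |s - sc|) ≤ 1 + 3 * fN * e := by
    refine le_trans ?_ hd1
    rw [← mul_assoc]
    exact mul_le_mul_of_nonneg_right hge (abs_nonneg _)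
  have e2 : 1 ≤ fN * e := by
    rw [div_le_iff₀ he0] at hNfib
    exact hNfib
  have e3 : fN * (fl * |s - sc|) ≤ fN * (4 * e) := by linarith
  exact le_of_mul_le_mul_left e3 hNpos

private theorem h89_near (e fl s sc c : ℝ) (hl : 0 < fl) (h : fl * |s - sc| ≤ 4 * e)
    (h0 : |fl * sc + c| ≤ e) : |fl * s + c| ≤ 5 * e ∧ |fl * s - fl * sc| ≤ 4 * e := by
  have h1 : |fl * s - fl * sc| ≤ 4 * e := by
    rw [← mul_sub, abs_mul, abs_of_pos hl]; exact h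
  refine ⟨?_, h1⟩
  have : fl * s + c = (fl * s - fl * sc) + (fl * sc + c) := by ring
  rw [this]
  refine (abs_add_le _ _).trans ?_
  linarith

private theorem h89_x' (e fl fl1 fN fN1 fN0 ψ P s a b : ℝ) (he : 5 * e ≤ 1 / 1000)
    (g1 : ψ * fN1 + fN = P * ψ) (g2 : ψ * fN + fN0 = P) (hP : |P| ≤ 1 / 2000) (hψ : |ψ| < 1)
    (hψe : ψ = (1 - Real.sqrt 5) / 2)
    (ha : |fl * s - 3 / 10 - a| ≤ 5 * e)
    (hb : |fl1 * s + 3 / 10 * ((1 + Real.sqrt 5) / 2) - b| ≤ 5 * e) :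
    |(fN * (fl * s - a) + fN0 * (fl1 * s - b)) -
      (fN1 * (fl * s - a) + fN * (fl1 * s - b)) * ((Real.sqrt 5 - 1) / 2)| ≤ 1 / 1000 := by
  have e1 : (fN * (fl * s - a) + fN0 * (fl1 * s - b)) -
      (fN1 * (fl * s - a) + fN * (fl1 * s - b)) * ((Real.sqrt 5 - 1) / 2) =
        P * (ψ * (fl * s - a) + (fl1 * s - b)) := by
    have e2 : (Real.sqrt 5 - 1) / 2 = - ψ := by
      rw [hψe]; ring
    rw [e2]
    have e3 : P * (ψ * (fl * s - a) + (fl1 * s - b)) =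
        (P * ψ) * (fl * s - a) + P * (fl1 * s - b) := by ring
    rw [e3, ← g1, ← g2]
    ring
  have hs5u : Real.sqrt 5 ≤ (2.237 : ℝ) := Real.sqrt_le_iff.2 (by norm_num)
  have hs5l : (2.236 : ℝ) ≤ Real.sqrt 5 := Real.le_sqrt_of_sq_le (by norm_num)
  have hgb : |fl * s - a| ≤ 1 / 2 := by
    have : fl * s - a = (fl * s - 3 / 10 - a) + 3 / 10 := by ring
    rw [this]
    refine (abs_add_le _ _).trans ?_
    rw [abs_of_pos (by norm_num : (0:ℝ) < 3 / 10)]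
    linarith
  have hgg : |fl1 * s - b| ≤ 1 := by
    have : fl1 * s - b = (fl1 * s + 3 / 10 * ((1 + Real.sqrt 5) / 2) - b) +
      -(3 / 10 * ((1 + Real.sqrt 5) / 2)) := by ring
    rw [this]
    refine (abs_add_le _ _).trans ?_
    have h3 : (0:ℝ) < 3 / 10 * ((1 + Real.sqrt 5) / 2) := by linarith
    rw [abs_neg, abs_of_pos h3]
    linarith
  have e3 : |ψ * (fl * s - a) + (fl1 * s - b)| ≤ 2 := by
    refine (abs_add_le _ _).trans ?_
    rw [abs_mul]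
    have := mul_le_mul hψ.le hgb (abs_nonneg _) (by norm_num)
    linarith
  rw [e1, abs_mul]
  calc |P| * |ψ * (fl * s - a) + (fl1 * s - b)| ≤ 1 / 2000 * 2 :=
        mul_le_mul hP e3 (abs_nonneg _) (by norm_num)
    _ = 1 / 1000 := by norm_num

private theorem h89_node (k : ℕ) (hk : 5 ≤ k) :
    1 / 2 ^ 15 ≤ 1 / (2:ℝ) ^ jL k * (Nat.fib k : ℝ) := by
  have hnl := (node_length k).1
  have hkr : (0:ℝ) < (Nat.fib k : ℝ) := by
    exact_mod_cast Nat.fib_pos.2 (show 0 < k by omega)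
  have h8 : Nat.fib (k + 4) ≤ 8 * Nat.fib k := by
    have e1 : Nat.fib (k + 2) = Nat.fib k + Nat.fib (k + 1) := Nat.fib_add_two
    have e2 : Nat.fib (k + 3) = Nat.fib (k + 1) + Nat.fib (k + 2) := Nat.fib_add_two
    have e3 : Nat.fib (k + 4) = Nat.fib (k + 2) + Nat.fib (k + 3) := Nat.fib_add_two
    obtain ⟨p, rfl⟩ : ∃ p, k = p + 1 := ⟨k - 1, by omega⟩
    have e4 : Nat.fib (p + 1 + 1) = Nat.fib p + Nat.fib (p + 1) := Nat.fib_add_two
    have e5 : Nat.fib p ≤ Nat.fib (p + 1) := Nat.fib_le_fib_succ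
    omega
  have h8r : (Nat.fib (k + 4) : ℝ) ≤ 8 * Nat.fib k := by exact_mod_cast h8
  have hk4 : (0:ℝ) < (Nat.fib (k + 4) : ℝ) := by
    exact_mod_cast Nat.fib_pos.2 (show 0 < k + 4 by omega)
  have e1 : 1 / (2 ^ 12 * (8 * (Nat.fib k : ℝ))) ≤ 1 / (2:ℝ) ^ jL k := by
    refine le_trans ?_ hnl
    apply one_div_le_one_div_of_le (by positivity)
    linarith
  calc (1:ℝ) / 2 ^ 15 = 1 / (2 ^ 12 * (8 * (Nat.fib k : ℝ))) * (Nat.fib k : ℝ) := by
        have e2 : (2:ℝ) ^ 12 * (8 * (Nat.fib k : ℝ)) = 2 ^ 15 * (Nat.fib k : ℝ) := by ring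
        have e3 : (1:ℝ) / (2 ^ 15 * (Nat.fib k : ℝ)) * (Nat.fib k : ℝ) = 1 / 2 ^ 15 := by
          rw [one_div, mul_inv, mul_assoc, inv_mul_cancel₀ hkr.ne', mul_one, one_div]
        rw [e2, e3]
    _ ≤ _ := mul_le_mul_of_nonneg_right e1 hkr.le

/-- everything at one node, for given `N`, `s` -/
private theorem h89_all (e eps w u : ℝ) (k l N : ℕ) (s sc : ℝ) (a b : ℤ) (he0 : 0 < e)
    (heps : e = eps / 100000) (h1 : eps ≤ 1 / 1000) (hl6 : 6 ≤ l) (hkl : k ≤ l)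
    (hkr : 0 < (Nat.fib k : ℝ)) (hw : 1 / 2 ^ 15 ≤ w * (Nat.fib k : ℝ))
    (hN8 : 8 ≤ N) (hNfib : 1 / e ≤ (Nat.fib N : ℝ)) (hP : |Real.goldenConj| ^ N ≤ 1 / 2000)
    (hsc1 : u + w / 4 ≤ sc) (hsc2 : sc ≤ u + w / 4 + w / 2)
    (ha : |(Nat.fib l : ℝ) * sc - 3 / 10 - a| ≤ e)
    (hb : |(Nat.fib (l - 1) : ℝ) * sc + 3 / 10 * ((1 + Real.sqrt 5) / 2) - b| ≤ e)
    (hs1 : 25 / 100 ≤ (Nat.fib (l + N) : ℝ) * s - (fibz b a (N + 1) : ℝ))
    (hs2 : (Nat.fib (l + N) : ℝ) * s - (fibz b a (N + 1) : ℝ) ≤ 35 / 100) :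
    u < s ∧ s < u + w ∧ |(Nat.fib l : ℝ) * s - 3 / 10 - a| ≤ eps ∧
        |(Nat.fib l : ℝ) * s - (Nat.fib l : ℝ) * sc| ≤ eps ∧
        LG (1 / 6) l s ∧ LG (1 / 7) (l + N) s := by
  have hpsi : |Real.goldenConj| < 1 := by
    rw [abs_lt]
    exact ⟨Real.neg_one_lt_goldenConj, by have := Real.goldenConj_neg; linarith⟩
  have hlpos : (0:ℝ) < (Nat.fib l : ℝ) := by exact_mod_cast Nat.fib_pos.2 (show 0 < l by omega)
  have hl1pos : (0:ℝ) < (Nat.fib (l - 1) : ℝ) := by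
    exact_mod_cast Nat.fib_pos.2 (show 0 < l - 1 by omega)
  have hl1le : (Nat.fib (l - 1) : ℝ) ≤ Nat.fib l := by
    exact_mod_cast Nat.fib_mono (show l - 1 ≤ l by omega)
  have hN1 : (Nat.fib (N + 1) : ℝ) ≤ 2 * Nat.fib N := by
    obtain ⟨p, rfl⟩ : ∃ p, N = p + 1 := ⟨N - 1, by omega⟩
    have e1 : Nat.fib (p + 1 + 1) = Nat.fib p + Nat.fib (p + 1) := Nat.fib_add_two
    have e2 : Nat.fib p ≤ Nat.fib (p + 1) := Nat.fib_le_fib_succ
    exact_mod_cast (show Nat.fib (p + 1 + 1) ≤ 2 * Nat.fib (p + 1) by omega)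
  have hN1' : (Nat.fib N : ℝ) ≤ Nat.fib (N + 1) := by exact_mod_cast Nat.fib_le_fib_succ
  have hadd := h89_add l N (by omega)
  have hZ : (fibz b a (N + 1) : ℝ) = (Nat.fib N : ℝ) * b + (Nat.fib (N + 1) : ℝ) * a := by
    rw [h89_fibz]; push_cast; ring
  rw [hZ] at hs1 hs2
  have hg : (Nat.fib (N + 1) : ℝ) - (1 + Real.sqrt 5) / 2 * (Nat.fib N : ℝ) =
      Real.goldenConj ^ N := Real.fib_succ_sub_goldenRatio_mul_fib N
  have hp1 : |Real.goldenConj ^ N| ≤ 1 := by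
    rw [abs_pow]; exact pow_le_one₀ (abs_nonneg _) hpsi.le
  have hd2 := h89_core e (Nat.fib l) (Nat.fib (l - 1)) (Nat.fib N) (Nat.fib (N + 1))
    (Nat.fib (l + N)) _ _ s sc a b he0 hlpos hl1pos hl1le hNfib hN1 hN1' hadd hg hp1 ha hb hs1 hs2
  have hd3 : (Nat.fib (l - 1) : ℝ) * |s - sc| ≤ 4 * e :=
    (mul_le_mul_of_nonneg_right hl1le (abs_nonneg _)).trans hd2
  obtain ⟨hs3, hd4⟩ := h89_near e (Nat.fib l) s sc (-3 / 10 - a) hlpos hd2 (by
    have : (Nat.fib l : ℝ) * sc + (-3 / 10 - a) = (Nat.fib l : ℝ) * sc - 3 / 10 - a := by ring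
    rw [this]; exact ha)
  obtain ⟨hs4, _⟩ := h89_near e (Nat.fib (l - 1)) s sc (3 / 10 * ((1 + Real.sqrt 5) / 2) - b)
    hl1pos hd3 (by
    have : (Nat.fib (l - 1) : ℝ) * sc + (3 / 10 * ((1 + Real.sqrt 5) / 2) - b) =
      (Nat.fib (l - 1) : ℝ) * sc + 3 / 10 * ((1 + Real.sqrt 5) / 2) - b := by ring
    rw [this]; exact hb)
  have hs3' : |(Nat.fib l : ℝ) * s - 3 / 10 - a| ≤ 5 * e := by
    have : (Nat.fib l : ℝ) * s - 3 / 10 - a = (Nat.fib l : ℝ) * s + (-3 / 10 - a) := by ring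
    rw [this]; exact hs3
  have hs4' : |(Nat.fib (l - 1) : ℝ) * s + 3 / 10 * ((1 + Real.sqrt 5) / 2) - b| ≤ 5 * e := by
    have : (Nat.fib (l - 1) : ℝ) * s + 3 / 10 * ((1 + Real.sqrt 5) / 2) - b =
      (Nat.fib (l - 1) : ℝ) * s + (3 / 10 * ((1 + Real.sqrt 5) / 2) - b) := by ring
    rw [this]; exact hs4
  have hsw : |s - sc| < w / 4 := by
    have e1 : (Nat.fib k : ℝ) ≤ Nat.fib l := by exact_mod_cast Nat.fib_mono hkl
    have e2 : (Nat.fib k : ℝ) * |s - sc| ≤ 4 * e :=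
      (mul_le_mul_of_nonneg_right e1 (abs_nonneg _)).trans hd2
    have e3 : 4 * e < w * Nat.fib k / 4 := by
      have : 4 * e ≤ 4 / 100000000 := by rw [heps]; linarith
      have e4 : (4:ℝ) / 100000000 < 1 / 2 ^ 15 / 4 := by norm_num
      linarith
    have e4 : (Nat.fib k : ℝ) * |s - sc| < (Nat.fib k : ℝ) * (w / 4) := by linarith
    exact lt_of_mul_lt_mul_left e4 hkr.le
  rw [abs_lt] at hsw
  have h5e : 5 * e ≤ 1 / 1000 := by rw [heps]; linarith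
  have h5eps : 5 * e ≤ eps := by
    have : 0 < eps := by
      have : eps = 100000 * e := by rw [heps]; ring
      rw [this]; linarith
    rw [heps]; linarith
  refine ⟨by linarith [hsw.1], by linarith [hsw.2], hs3'.trans h5eps,
    hd4.trans (by linarith), h89_LG_star l (by omega) s a b (5 * e) h5e hs3' hs4', ?_⟩
  -- level `l + N`
  have hadd' : (Nat.fib (l + N - 1) : ℝ) = (Nat.fib N : ℝ) * Nat.fib l +
      (Nat.fib (N - 1) : ℝ) * Nat.fib (l - 1) := by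
    have := h89_add l (N - 1) (by omega)
    rw [show l + (N - 1) = l + N - 1 by omega, show N - 1 + 1 = N by omega] at this
    exact this
  have g1 := Real.goldenConj_mul_fib_succ_add_fib N
  have g2 := Real.goldenConj_mul_fib_succ_add_fib (N - 1)
  rw [show N - 1 + 1 = N by omega] at g2
  rw [pow_succ] at g1
  have hx' := h89_x' e (Nat.fib l) (Nat.fib (l - 1)) (Nat.fib N) (Nat.fib (N + 1))
    (Nat.fib (N - 1)) Real.goldenConj (Real.goldenConj ^ N) s a b h5e g1 g2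
    (by rw [abs_pow]; exact hP) hpsi rfl hs3' hs4'
  have hxe : (Nat.fib (l + N) : ℝ) * s - ((Nat.fib N : ℝ) * b + (Nat.fib (N + 1) : ℝ) * a) =
      (Nat.fib (N + 1) : ℝ) * ((Nat.fib l : ℝ) * s - a) +
        (Nat.fib N : ℝ) * ((Nat.fib (l - 1) : ℝ) * s - b) := by
    rw [hadd]; ring
  refine h89_LG (l + N) (by omega) s ((Nat.fib N : ℤ) * b + (Nat.fib (N + 1) : ℤ) * a)
    ((Nat.fib (N - 1) : ℤ) * b + (Nat.fib N : ℤ) * a)
    ((Nat.fib (N + 1) : ℝ) * ((Nat.fib l : ℝ) * s - a) +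
        (Nat.fib N : ℝ) * ((Nat.fib (l - 1) : ℝ) * s - b))
    ((Nat.fib N : ℝ) * ((Nat.fib l : ℝ) * s - a) +
        (Nat.fib (N - 1) : ℝ) * ((Nat.fib (l - 1) : ℝ) * s - b)) ?_ ?_
    (by rw [← hxe]; exact hs1) (by rw [← hxe]; exact hs2) hx'
  · rw [hadd]; push_cast; ring
  · rw [hadd']; push_cast; ring

theorem star_geo (eps : ℝ) (h : 0 < eps) (h1 : eps ≤ 1 / 1000) : ∃ G N1 : ℕ, 1 ≤ G ∧ 8 ≤ N1 ∧
    ∀ k : ℕ, 5 ≤ k → ∀ i : ℕ, i < 2 ^ jL k → ∃ (a b : ℤ) (sc : ℝ),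
      (i : ℝ) / 2 ^ jL k < sc ∧ sc < ((i : ℝ) + 1) / 2 ^ jL k ∧
      |(Nat.fib (k + G) : ℝ) * sc - 3 / 10 - a| ≤ eps ∧ LG (1 / 6) (k + G) sc ∧
      ∀ N : ℕ, N1 ≤ N → N % 2 = 0 → ∀ s : ℝ,
        25 / 100 ≤ (Nat.fib (k + G + N) : ℝ) * s - (fibz b a (N + 1) : ℝ) →
        (Nat.fib (k + G + N) : ℝ) * s - (fibz b a (N + 1) : ℝ) ≤ 35 / 100 →
        (i : ℝ) / 2 ^ jL k < s ∧ s < ((i : ℝ) + 1) / 2 ^ jL k ∧
        |(Nat.fib (k + G) : ℝ) * s - 3 / 10 - a| ≤ eps ∧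
        |(Nat.fib (k + G) : ℝ) * s - (Nat.fib (k + G) : ℝ) * sc| ≤ eps ∧
        LG (1 / 6) (k + G) s ∧ LG (1 / 7) (k + G + N) s := by
  obtain ⟨e, he⟩ : ∃ e : ℝ, e = eps / 100000 := ⟨_, rfl⟩
  have he0 : 0 < e := by rw [he]; linarith
  obtain ⟨G, hG1, hG⟩ := steer e he0
  have hpsi : |Real.goldenConj| < 1 := by
    rw [abs_lt]
    exact ⟨Real.neg_one_lt_goldenConj, by have := Real.goldenConj_neg; linarith⟩
  obtain ⟨N0, hN0⟩ := exists_pow_lt_of_lt_one (show (0:ℝ) < 1 / 2000 by norm_num) hpsi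
  obtain ⟨N2, hN2⟩ := exists_nat_gt (1 / e)
  refine ⟨G, N0 + N2 + 8, hG1, by omega, ?_⟩
  intro k hk i _
  have hkr : (0:ℝ) < (Nat.fib k : ℝ) := by
    exact_mod_cast Nat.fib_pos.2 (show 0 < k by omega)
  have hwk := h89_node k hk
  obtain ⟨w, hw⟩ : ∃ w : ℝ, w = 1 / (2:ℝ) ^ jL k := ⟨_, rfl⟩
  have hw0 : 0 < w := by rw [hw]; exact one_div_pos.mpr (pow_pos (by norm_num) _)
  rw [← hw] at hwk
  have hi1 : ((i : ℝ) + 1) / 2 ^ jL k = (i : ℝ) / 2 ^ jL k + w := by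
    rw [hw]; ring
  rw [hi1]
  generalize (i : ℝ) / 2 ^ jL k = u
  obtain ⟨sc, hsc1, hsc2, a, b, ha, hb⟩ := hG k hk (u + w / 4) (w / 2) (3 / 10)
    (-(3 / 10 * ((1 + Real.sqrt 5) / 2))) (by
      calc (1:ℝ) / 2 ^ 16 = 1 / 2 ^ 15 / 2 := by norm_num
        _ ≤ w * (Nat.fib k : ℝ) / 2 := by linarith
        _ = _ := by ring)
  have hb' : |(Nat.fib (k + G - 1) : ℝ) * sc + 3 / 10 * ((1 + Real.sqrt 5) / 2) - b| ≤ e := by
    have : (Nat.fib (k + G - 1) : ℝ) * sc + 3 / 10 * ((1 + Real.sqrt 5) / 2) - b =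
      (Nat.fib (k + G - 1) : ℝ) * sc - -(3 / 10 * ((1 + Real.sqrt 5) / 2)) - b := by ring
    rw [this]
    exact hb
  have hee : e ≤ 1 / 1000 := by rw [he]; linarith
  have heeps : e ≤ eps := by rw [he]; linarith
  refine ⟨a, b, sc, by linarith, by linarith, ha.trans heeps,
    h89_LG_star (k + G) (by omega) sc a b e hee ha hb', ?_⟩
  intro N hN _ s hs1 hs2
  have hNfib : 1 / e ≤ (Nat.fib N : ℝ) := by
    have e1 : N ≤ Nat.fib N + 1 := by
      have := Nat.le_fib_add_one N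
      omega
    have e2 : (N2 : ℝ) ≤ (Nat.fib N : ℝ) := by exact_mod_cast (show N2 ≤ Nat.fib N by omega)
    linarith
  have hP : |Real.goldenConj| ^ N ≤ 1 / 2000 :=
    (pow_le_pow_of_le_one (abs_nonneg _) hpsi.le (show N0 ≤ N by omega)).trans hN0.le
  exact h89_all e eps w u k (k + G) N s sc a b he0 he h1 (by omega) (by omega) hkr hwk
    (by omega) hNfib hP hsc1 (by linarith) ha hb' hs1 hs2

end SF
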