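import Pool.Agent.Helper65.SF.WP

/-!
# SF-WPn: `word_Pb` without a lower bound for `|sin a0|`
-/

namespace SF

open Metric Set Filter Topology

theorem word_Pb_ne (c0 : ℝ) (hc : 0 < c0) : ∃ R0 lam1 : ℝ, 0 < R0 ∧ R0 ≤ 1 ∧ 0 < lam1 ∧
    lam1 ≤ 1 / 100 ∧
    ∀ lam : ℝ, 0 < lam → lam ≤ lam1 → ∀ (n : ℕ), 6 ≤ n → ∀ a0 b0 : ℝ, Real.sin a0 ≠ 0 →
      (∀ j ≤ 4, c0 ≤ |Real.sin (TW lam b0 (PP lam n a0 b0) j)|) →
      ∃ G : ℂ → ℂ, DifferentiableOn ℂ G (ball (b0 : ℂ) R0) ∧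
        (∀ b ∈ ball (b0 : ℂ) R0, ‖deriv G b + 7 / 4‖ ≤ 28 / 100) ∧
        ∀ b : ℝ, (b : ℂ) ∈ ball (b0 : ℂ) R0 → G b = ((PP lam n a0 b : ℝ) : ℂ) := by
  rcases lt_or_ge 1 c0 with hbig | hc1
  · refine ⟨1, 1 / 100, one_pos, le_rfl, by norm_num, le_rfl, ?_⟩
    intro lam _ _ n _ a0 b0 _ hb
    have h1 := hb 1 (by norm_num)
    rw [TW_one] at h1
    exact absurd (h1.trans (Real.abs_sin_le_one b0)) (not_le.mpr hbig)
  set η : ℝ := c0 ^ 2 / 2 with hη
  have hη0 : 0 < η := by positivity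
  have hη1 : η ≤ 1 / 2 := by rw [hη]; nlinarith
  set c : ℝ := η ^ 2 / 512 * (c0 / 3) with hcd
  have hcpos : 0 < c := by positivity
  obtain ⟨rho, hrho, hcurve⟩ := curve η c hη0 hη1 hcpos
  obtain ⟨lamS, hlamS, hlamS1, hslopes⟩ := slopes_word c0 hc
  set lam1 : ℝ := min lamS (c0 ^ 2 / 40) with hlam1
  have hlam1a : lam1 ≤ lamS := min_le_left _ _
  have hlam1b : lam1 ≤ c0 ^ 2 / 40 := min_le_right _ _
  set R1 : ℝ := min rho (c0 / 4) with hR1
  have hR1a : R1 ≤ rho := min_le_left _ _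
  have hR1b : R1 ≤ c0 / 4 := min_le_right _ _
  have hR10 : 0 < R1 := lt_min hrho (by linarith)
  have hR11 : R1 ≤ 1 := by linarith
  have hR00 : R1 ^ 2 / 3200 ≤ R1 := by nlinarith
  refine ⟨R1 ^ 2 / 3200, lam1, by positivity, by linarith, lt_min hlamS (by positivity),
    hlam1a.trans hlamS1, ?_⟩
  intro lam hlam hl n hn a0 b0 ha hb
  have h0 : 0 ≤ lam := hlam.le
  have h1 : lam ≤ 1 / 100 := hl.trans (hlam1a.trans hlamS1)
  have hl2 : lam ≤ c0 ^ 2 / 40 := hl.trans hlam1b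
  have hl3 : lam ≤ η / 20 := by rw [hη]; linarith
  have hl4 : lam ≤ c0 / 10 := by nlinarith
  set ψ0 : ℝ := PP lam n a0 b0 with hψ0
  have hsb0 : c0 ≤ |Real.sin b0| := by
    have := hb 1 (by norm_num)
    rwa [TW_one] at this
  have hsb : Real.sin b0 ≠ 0 := by
    intro h; rw [h, abs_zero] at hsb0; linarith
  have hsa : Real.sin a0 ≠ 0 := ha
  have hspec : TW lam b0 ψ0 n = a0 := PP_spec lam h0 h1 n (by omega) a0 b0 hsb
  have hxn : |W lam b0 ψ0 n| < 1 := (sin_TW_ne lam b0 ψ0 hsb n).mp (by rw [hspec]; exact hsa)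
  obtain ⟨e, he⟩ : ∃ e : ℝ, e = (-1) ^ (n + 1) := ⟨_, rfl⟩
  have he' : e = 1 ∨ e = -1 := by rw [he]; exact neg_one_pow_eq_or ℝ (n + 1)
  have hee : e * e = 1 := by rcases he' with h | h <;> rw [h] <;> norm_num
  have hen : (-1 : ℝ) ^ n = -e := by rw [he, pow_succ]; ring
  obtain ⟨Q, hQ⟩ : ∃ Q : ℝ, Q = coord (fun j => W lam b0 ψ0 j) (fun j => TW lam b0 ψ0 j) n := ⟨_, rfl⟩
  obtain ⟨ρ0, hρ0⟩ : ∃ ρ : ℝ, ρ = -Q - a0 := ⟨_, rfl⟩
  have hWr : ∀ k ≤ n + 1, W lam a0 ρ0 k = W lam b0 ψ0 (n + 1 - k) := by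
    intro k hk
    rw [hρ0]
    exact W_reverse lam b0 ψ0 h0 h1 hsb n (by omega) hxn a0 Q hspec.symm hQ k hk
  have hTr : ∀ k ≤ n + 1, TW lam a0 ρ0 k = (-1) ^ (k + 1) * TW lam b0 ψ0 (n + 1 - k) := by
    intro k hk
    rw [hρ0]
    exact TW_reverse lam b0 ψ0 h0 h1 hsb n (by omega) hxn a0 Q hspec.symm hQ k hk
  set b1 : ℝ := e * b0 with hb1
  set p0 : ℝ := -(e * (ψ0 + b0)) with hp0
  -- the three indices
  have i2 : n + 1 - (n - 1) = 2 := by omega
  have i1 : n + 1 - n = 1 := by omega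
  have i0 : n + 1 - (n + 1) = 0 := by omega
  have hW2 : W lam a0 ρ0 (n - 1) = W lam b0 ψ0 2 := by rw [hWr (n - 1) (by omega), i2]
  have hW1 : W lam a0 ρ0 n = W lam b0 ψ0 1 := by rw [hWr n (by omega), i1]
  have hW0 : W lam a0 ρ0 (n + 1) = W lam b0 ψ0 0 := by rw [hWr (n + 1) (by omega), i0]
  have hT1 : TW lam a0 ρ0 n = b1 := by rw [hTr n (by omega), i1, TW_one, ← he]
  have hT2 : TW lam a0 ρ0 (n - 1) = -e * TW lam b0 ψ0 2 := by
    rw [hTr (n - 1) (by omega), i2]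
    congr 1
    have : n - 1 + 1 = n := by omega
    rw [this, hen]
  have hgood : ∀ j, n ≤ j + 3 → j ≤ n + 1 → c0 ≤ |Real.sin (TW lam a0 ρ0 j)| := by
    intro j hj1 hj2
    rw [hTr j hj2, sin_sgn40 _ _ (neg_one_pow_eq_or ℝ (j + 1)),
      abs_sgn40 _ _ (neg_one_pow_eq_or ℝ (j + 1))]
    exact hb (n + 1 - j) (by omega)
  have hg1 := hgood (n - 1) (by omega) (by omega)
  have hg2 := hgood n (by omega) (by omega)
  have hg3 := hgood (n + 1) (by omega) le_rfl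
  have hne : ∀ x : ℝ, c0 ≤ |Real.sin x| → Real.sin x ≠ 0 := by
    intro x hx h; rw [h, abs_zero] at hx; linarith
  have hx1 : |W lam a0 ρ0 (n - 1)| < 1 := (sin_TW_ne lam a0 ρ0 hsa (n - 1)).mp (hne _ hg1)
  have hx2 : |W lam a0 ρ0 n| < 1 := (sin_TW_ne lam a0 ρ0 hsa n).mp (hne _ hg2)
  have hx3 : |W lam a0 ρ0 (n + 1)| < 1 := (sin_TW_ne lam a0 ρ0 hsa (n + 1)).mp (hne _ hg3)
  obtain ⟨dm, hdm0, -, hdm, hdWm⟩ := TW_deriv lam a0 ρ0 h0 h1 hsa (n - 1) (by omega) hx1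
  obtain ⟨d, hd0, -, hd, hdW⟩ := TW_deriv lam a0 ρ0 h0 h1 hsa n (by omega) hx2
  obtain ⟨dp, hdp0, -, hdp, hdWp⟩ := TW_deriv lam a0 ρ0 h0 h1 hsa (n + 1) (by omega) hx3
  obtain ⟨-, hs1, hs2, hs3, hs4⟩ := hslopes lam a0 ρ0 h0 (hl.trans hlam1a) hsa n (by omega) hgood
    dm d dp hdm hd hdp
  have hDm := deriv_WC40 lam a0 ρ0 _ (n - 1) hdWm
  have hD := deriv_WC40 lam a0 ρ0 _ n hdW
  have hDp := deriv_WC40 lam a0 ρ0 _ (n + 1) hdWp
  have hnormD : ‖deriv (fun z => WC lam a0 z n) (ρ0 : ℂ)‖ = |Real.sin b1| * d := by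
    rw [hD.deriv, Complex.norm_real, Real.norm_eq_abs, abs_mul, abs_neg, hT1, abs_of_pos hd0]
  have hsb1 : c0 ≤ |Real.sin b1| := by
    rw [hT1] at hg2; exact hg2
  have hsb1' : Real.sin b1 ≠ 0 := hne _ hsb1
  have hnormD0 : 0 < ‖deriv (fun z => WC lam a0 z n) (ρ0 : ℂ)‖ := by
    rw [hnormD]
    have : 0 < |Real.sin b1| := by linarith
    positivity
  -- the disc hypothesis
  have hdisc1 : ∀ (k : ℕ) (hk1 : k ≠ 1) (dk : ℝ), 0 < dk → dk ≤ 201 / 100 * d →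
      HasDerivAt (fun s => W lam a0 s k) (-Real.sin (TW lam a0 ρ0 k) * dk) ρ0 →
      c0 ≤ |Real.sin (TW lam a0 ρ0 k)| → ∀ z : ℂ,
      ‖z - ρ0‖ * ‖deriv (fun z => WC lam a0 z n) (ρ0 : ℂ)‖ ≤ c →
      ‖WC lam a0 z k - WC lam a0 ρ0 k‖ ≤ η / 8 := by
    intro k hk1 dk hdk0 hdk hder hsk z hz
    rw [WC_ofReal]
    apply W_disc lam a0 η h0 h1 hsa hη0 (by linarith) k hk1 ρ0
    · exact absW40 lam a0 ρ0 c0 hsa k hc hsk
    · rw [hder.deriv, abs_mul, abs_neg, abs_of_pos hdk0]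
      rw [hnormD] at hz
      have h2 : |Real.sin (TW lam a0 ρ0 k)| ≤ 1 := Real.abs_sin_le_one _
      have h3 : ‖z - ρ0‖ * (c0 * d) ≤ c := by
        refine le_trans ?_ hz
        gcongr
      have h4 : ‖z - ρ0‖ * d ≤ η ^ 2 / 512 / 3 := by
        have h5 : c0 * (‖z - ρ0‖ * d) ≤ c0 * (η ^ 2 / 512 / 3) := by
          calc c0 * (‖z - ρ0‖ * d) = ‖z - ρ0‖ * (c0 * d) := by ring
            _ ≤ c := h3
            _ = c0 * (η ^ 2 / 512 / 3) := by rw [hcd]; ring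
        exact le_of_mul_le_mul_left h5 hc
      calc ‖z - ρ0‖ * (|Real.sin (TW lam a0 ρ0 k)| * dk) ≤ ‖z - ρ0‖ * (1 * (201 / 100 * d)) := by
            gcongr
        _ = 201 / 100 * (‖z - ρ0‖ * d) := by ring
        _ ≤ η ^ 2 / 512 := by
            have : 0 < η ^ 2 / 512 := by positivity
            linarith
  have hreal : ∀ t : ℝ, (WC lam a0 (t : ℂ) (n - 1)).im = 0 ∧ (WC lam a0 (t : ℂ) n).im = 0 ∧
      (WC lam a0 (t : ℂ) (n + 1)).im = 0 := by
    intro t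
    simp only [WC_ofReal, Complex.ofReal_im, and_self]
  have hinv : ∀ z : ℂ, WC lam a0 z (n + 1) ^ 2 + WC lam a0 z n ^ 2 + WC lam a0 z (n - 1) ^ 2
      - 2 * WC lam a0 z (n + 1) * WC lam a0 z n * WC lam a0 z (n - 1) = 1 + (lam : ℂ) ^ 2 / 4 := by
    intro z
    have h2 := WC_inv40 lam a0 hsa z (n - 1)
    have h3 : n - 1 + 2 = n + 1 := by omega
    have h4 : n - 1 + 1 = n := by omega
    rw [h3, h4] at h2
    exact h2
  have hrb : rr lam b1 = rr lam b0 := by rw [hb1]; exact rr_sgn40 lam b0 e he'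
  have hcb1 : Real.cos b1 = Real.cos b0 := by rw [hb1]; exact cos_sgn40 b0 e he'
  have hcp0 : Real.cos p0 = Real.cos (ψ0 + b0) := by
    rw [hp0, Real.cos_neg]; exact cos_sgn40 _ e he'
  have hcp1 : Real.cos (p0 + b1) = Real.cos ψ0 := by
    have : p0 + b1 = -(e * ψ0) := by rw [hp0, hb1]; ring
    rw [this, Real.cos_neg]; exact cos_sgn40 _ e he'
  have hnW : ∀ k : ℕ, c0 ≤ |Real.sin (TW lam a0 ρ0 k)| → ‖WC lam a0 (ρ0 : ℂ) k‖ ≤ 1 - η := by
    intro k hk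
    rw [WC_ofReal, Complex.norm_real, Real.norm_eq_abs]
    exact absW40 lam a0 ρ0 c0 hsa k hc hk
  obtain ⟨T, p, hTd, hpd, hTc, hpc, hcv, hre⟩ := hcurve lam h0 hl3
    (fun z => WC lam a0 z (n - 1)) (fun z => WC lam a0 z n) (fun z => WC lam a0 z (n + 1))
    ρ0 b1 p0 (WC_diff40 lam a0 _) (WC_diff40 lam a0 _) (WC_diff40 lam a0 _) hreal hinv
    (hnW _ hg1) (hnW _ hg2) (hnW _ hg3) hnormD0
    (fun z hz => ⟨hdisc1 (n - 1) (by omega) dm hdm0 (by linarith) hdWm hg1 z hz,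
      hdisc1 n (by omega) d hd0 (by linarith) hdW hg2 z hz,
      hdisc1 (n + 1) (by omega) dp hdp0 (by linarith) hdWp hg3 z hz⟩)
    (by simp only [WC_ofReal, hW1, f6_W_one, hcb1])
    (by simp only [WC_ofReal, hW2, f6_W_two, hrb, hcp0])
    (by simp only [WC_ofReal, hW0, f6_W_zero, hrb, hcp1])
  have hsubR : ball (b1 : ℂ) R1 ⊆ ball (b1 : ℂ) rho := ball_subset_ball hR1a
  obtain ⟨hrCd, hrC⟩ := rC_holo lam b1 c0 hc hsb1 h0 hl4
  have hsubC : ball (b1 : ℂ) R1 ⊆ ball (b1 : ℂ) (c0 / 4) := ball_subset_ball hR1b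
  -- real points
  have hballR : ∀ s ∈ Ioo (b1 - R1) (b1 + R1), (s : ℂ) ∈ ball (b1 : ℂ) R1 := by
    intro s hs
    rw [mem_ball, Complex.dist_eq, ← Complex.ofReal_sub, Complex.norm_real, Real.norm_eq_abs, abs_lt]
    constructor <;> linarith [hs.1, hs.2]
  have hsinR : ∀ s ∈ Ioo (b1 - R1) (b1 + R1), Real.sin s ≠ 0 := by
    intro s hs h
    have h2 := (hrC s (hsubC (hballR s hs))).1
    apply h2
    rw [← Complex.ofReal_sin, h, Complex.ofReal_zero]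
  have hTre : ∀ s : ℝ, s ∈ Ioo (b1 - R1) (b1 + R1) → T s = (((T s).re : ℝ) : ℂ) := by
    intro s hs
    apply Complex.ext
    · simp
    · simp [(hre s (hsubR (hballR s hs))).1]
  have hpre : ∀ s : ℝ, s ∈ Ioo (b1 - R1) (b1 + R1) → p s = (((p s).re : ℝ) : ℂ) := by
    intro s hs
    apply Complex.ext
    · simp
    · simp [(hre s (hsubR (hballR s hs))).2]
  have hcoR : ContinuousOn (fun s : ℝ => (s : ℂ)) (Ioo (b1 - R1) (b1 + R1)) :=
    Complex.continuous_ofReal.continuousOn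
  have hTcont : ContinuousOn (fun s : ℝ => (T s).re) (Ioo (b1 - R1) (b1 + R1)) :=
    Complex.continuous_re.comp_continuousOn
      (hTd.continuousOn.comp hcoR (fun s hs => hsubR (hballR s hs)))
  have hpcont : ContinuousOn (fun s : ℝ => (p s).re) (Ioo (b1 - R1) (b1 + R1)) :=
    Complex.continuous_re.comp_continuousOn
      (hpd.continuousOn.comp hcoR (fun s hs => hsubR (hballR s hs)))
  have hqreal := wp_real40 lam h0 h1 n (by omega) a0 e hsa he b1 R1 hR10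
    (fun s => (T s).re) (fun s => (p s).re) hTcont hpcont hsinR
    (by
      intro s hs
      have h2 := (hcv s (hsubR (hballR s hs))).2.1
      rw [hTre s hs, WC_ofReal, ← Complex.ofReal_cos] at h2
      exact_mod_cast h2)
    (by
      intro s hs
      have h2 := (hcv s (hsubR (hballR s hs))).2.2.1
      rw [hTre s hs, WC_ofReal, hpre s hs, rC_ofReal lam s (hsinR s hs), ← Complex.ofReal_cos] at h2
      exact_mod_cast h2)
    (by
      intro s hs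
      have h2 := (hcv s (hsubR (hballR s hs))).2.2.2.1
      rw [hTre s hs, WC_ofReal, hpre s hs, rC_ofReal lam s (hsinR s hs), ← Complex.ofReal_add,
        ← Complex.ofReal_cos] at h2
      exact_mod_cast h2)
    (by rw [hTc, Complex.ofReal_re, hT1])
    (by
      rw [hpc, Complex.ofReal_re, hp0, hb1, PP_sgn40 lam h0 h1 n (by omega) a0 b0 e he' hsb hsa,
        ← hψ0]
      ring)
  -- the slope at the centre
  have hmc : (b1 : ℂ) ∈ ball (b1 : ℂ) R1 := mem_ball_self hR10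
  have hTder : HasDerivAt T (deriv T b1) (b1 : ℂ) :=
    (hTd.differentiableAt (isOpen_ball.mem_nhds (hsubR hmc))).hasDerivAt
  have hpder : HasDerivAt p (deriv p b1) (b1 : ℂ) :=
    (hpd.differentiableAt (isOpen_ball.mem_nhds (hsubR hmc))).hasDerivAt
  have hrder : HasDerivAt (rC lam) (deriv (rC lam) b1) (b1 : ℂ) :=
    (hrCd.differentiableAt (isOpen_ball.mem_nhds (hsubC hmc))).hasDerivAt
  have hcenter : ‖deriv p (b1 : ℂ) - 3 / 4‖ ≤ 27 / 100 := by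
    -- derivative of y1 (T b) = cos b
    have k1 : HasDerivAt (fun b => WC lam a0 (T b) n)
        (((-Real.sin (TW lam a0 ρ0 n) * d : ℝ) : ℂ) * deriv T b1) (b1 : ℂ) :=
      HasDerivAt.comp_of_eq (h₂ := fun z => WC lam a0 z n) (b1 : ℂ) hD hTder hTc.symm
    have k2 : HasDerivAt (fun b : ℂ => Complex.cos b) (-Complex.sin b1) (b1 : ℂ) :=
      Complex.hasDerivAt_cos _
    have k3 : ((-Real.sin (TW lam a0 ρ0 n) * d : ℝ) : ℂ) * deriv T b1 = -Complex.sin b1 := by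
      apply (k1.congr_of_eventuallyEq ?_).unique k2
      filter_upwards [isOpen_ball.mem_nhds (hsubR hmc)] with b hb'
      exact ((hcv b hb').2.1).symm
    have k4 : HasDerivAt (fun b => WC lam a0 (T b) (n - 1))
        (((-Real.sin (TW lam a0 ρ0 (n - 1)) * dm : ℝ) : ℂ) * deriv T b1) (b1 : ℂ) :=
      HasDerivAt.comp_of_eq (h₂ := fun z => WC lam a0 z (n - 1)) (b1 : ℂ) hDm hTder hTc.symm
    have k5 : HasDerivAt (fun b : ℂ => rC lam b * Complex.cos (p b))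
        (deriv (rC lam) b1 * Complex.cos (p b1)
          + rC lam b1 * (-Complex.sin (p b1) * deriv p b1)) (b1 : ℂ) :=
      hrder.mul hpder.ccos
    have k6 : ((-Real.sin (TW lam a0 ρ0 (n - 1)) * dm : ℝ) : ℂ) * deriv T b1
        = deriv (rC lam) b1 * Complex.cos (p b1)
          + rC lam b1 * (-Complex.sin (p b1) * deriv p b1) := by
      apply (k4.congr_of_eventuallyEq ?_).unique k5
      filter_upwards [isOpen_ball.mem_nhds (hsubR hmc)] with b hb'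
      exact ((hcv b hb').2.2.1).symm
    have hTval : deriv T (b1 : ℂ) = ((1 / d : ℝ) : ℂ) := by
      rw [hT1, ← Complex.ofReal_sin] at k3
      have h2 : ((-Real.sin b1 * d : ℝ) : ℂ) ≠ 0 := by
        rw [Complex.ofReal_ne_zero]
        exact mul_ne_zero (neg_ne_zero.mpr hsb1') hd0.ne'
      apply mul_left_cancel₀ h2
      rw [k3, ← Complex.ofReal_mul, ← Complex.ofReal_neg]
      congr 1
      field_simp
    rw [hTval, hpc, rC_ofReal lam b1 hsb1', ← Complex.ofReal_cos, ← Complex.ofReal_sin] at k6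
    refine slope40 c0 lam (rr lam b1) (Real.cos p0) (Real.sin p0)
      (Real.sin (TW lam a0 ρ0 (n - 1))) (dm / d) (deriv (rC lam) b1) (deriv p b1) hc hc1 hlam hl2
      (rr_ge40 lam b1) ?_ (Real.sin_sq_add_cos_sq p0) ?_ hg1 ?_ ?_ ?_
      (deriv_rC40 lam b1 c0 hc hsb1 h0 hl4) ?_
    · rw [rr_sq, qq, add_sub_cancel_left, div_pow, mul_pow]
      have h2 : c0 ^ 2 ≤ |Real.sin b1| ^ 2 := pow_le_pow_left₀ hc.le hsb1 2
      have h3 : (2 : ℝ) ^ 2 = 4 := by norm_num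
      rw [h3]
      gcongr
    · have h2 := W_cos40 lam a0 ρ0 hsa (n - 1) (hne _ hg1)
      rw [hW2, f6_W_two, ← hcp0, ← hrb] at h2
      rw [h2]
      exact Real.sin_sq_add_cos_sq _
    · rw [hT2, hp0]
      have h2 := sin_TW2_40 lam b0 ψ0 h0 h1 hsb
      rw [neg_mul, Real.sin_neg, Real.sin_neg, sin_sgn40 _ e he', sin_sgn40 _ e he']
      have h3 : -(e * Real.sin (TW lam b0 ψ0 2)) * -(e * Real.sin (ψ0 + b0))
          = (e * e) * (Real.sin (TW lam b0 ψ0 2) * Real.sin (ψ0 + b0)) := by ring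
      rw [h3, hee, one_mul]
      exact h2
    · rw [le_div_iff₀ hd0]; exact hs1
    · rw [div_le_iff₀ hd0]; exact hs2
    · have hdC : (d : ℂ) ≠ 0 := by exact_mod_cast hd0.ne'
      push_cast at k6 ⊢
      linear_combination k6
  have hG1 : ∀ z ∈ ball (b1 : ℂ) (R1 ^ 2 / 3200), ‖deriv p z - 3 / 4‖ ≤ 28 / 100 := by
    intro z hz
    have h2 := cauchy2_40 (b1 : ℂ) R1 hR10 hR11 p (hpd.mono hsubR)
      (fun b hb' => by rw [hpc]; exact (hcv b (hsubR hb')).2.2.2.2.2.2) z hz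
    have h3 : deriv p z - 3 / 4 = (deriv p z - deriv p b1) + (deriv p b1 - 3 / 4) := by ring
    rw [h3]
    refine (norm_add_le _ _).trans ?_
    linarith
  -- the answer
  have heC : (e : ℂ) * e = 1 := by exact_mod_cast hee
  have hne' : ‖(e : ℂ)‖ = 1 := by
    rw [Complex.norm_real, Real.norm_eq_abs]
    rcases he' with h | h <;> rw [h] <;> norm_num
  have hball : ∀ r : ℝ, ∀ b ∈ ball (b0 : ℂ) r, (e : ℂ) * b ∈ ball (b1 : ℂ) r := by
    intro r b hb'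
    rw [mem_ball, dist_eq_norm] at hb' ⊢
    rw [hb1, Complex.ofReal_mul, ← mul_sub, norm_mul, hne', one_mul]
    exact hb'
  refine ⟨fun b => -(e : ℂ) * p ((e : ℂ) * b) - b, ?_, ?_, ?_⟩
  · intro b hb'
    have h2 := hpd.differentiableAt (isOpen_ball.mem_nhds
      (hsubR (ball_subset_ball hR00 (hball _ b hb'))))
    have h3 : DifferentiableAt ℂ (fun b : ℂ => (e : ℂ) * b) b := by fun_prop
    have h4 : DifferentiableAt ℂ (fun b : ℂ => p ((e : ℂ) * b)) b :=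
      DifferentiableAt.comp (g := p) b h2 h3
    exact ((h4.const_mul _).sub differentiableAt_id).differentiableWithinAt
  · intro b hb'
    have h2 := (hpd.differentiableAt (isOpen_ball.mem_nhds
      (hsubR (ball_subset_ball hR00 (hball _ b hb'))))).hasDerivAt
    have h3 : HasDerivAt (fun b : ℂ => (e : ℂ) * b) (e : ℂ) b := by
      simpa using (hasDerivAt_id b).const_mul (e : ℂ)
    have h4 : HasDerivAt (fun b : ℂ => p ((e : ℂ) * b)) (deriv p ((e : ℂ) * b) * e) b :=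
      HasDerivAt.comp (h₂ := p) b h2 h3
    have h5 : HasDerivAt (fun b : ℂ => -(e : ℂ) * p ((e : ℂ) * b) - b)
        (-(e : ℂ) * (deriv p ((e : ℂ) * b) * e) - 1) b :=
      (h4.const_mul _).sub (hasDerivAt_id b)
    rw [h5.deriv]
    have h6 : -(e : ℂ) * (deriv p ((e : ℂ) * b) * e) - 1 + 7 / 4 = -(deriv p ((e : ℂ) * b) - 3 / 4) := by
      linear_combination (-deriv p ((e : ℂ) * b)) * heC
    rw [h6, norm_neg]
    exact hG1 _ (hball _ b hb')
  · intro b hb'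
    have h2 := hball _ b hb'
    have h3 : e * b ∈ Ioo (b1 - R1) (b1 + R1) := by
      rw [mem_ball, Complex.dist_eq, ← Complex.ofReal_mul, ← Complex.ofReal_sub, Complex.norm_real,
        Real.norm_eq_abs] at h2
      have h4 := abs_lt.mp (h2.trans_le hR00)
      exact ⟨by linarith [h4.1], by linarith [h4.2]⟩
    have h4 := hqreal (e * b) h3
    have h5 := hpre (e * b) h3
    have hsbb : Real.sin b ≠ 0 := by
      have := hsinR _ h3
      rw [sin_sgn40 _ e he'] at this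
      exact right_ne_zero_of_mul this
    rw [PP_sgn40 lam h0 h1 n (by omega) a0 b e he' hsbb hsa] at h4
    rw [h4] at h5
    simp only
    rw [← Complex.ofReal_mul, h5]
    push_cast
    linear_combination ((PP lam n a0 b : ℝ) + (b : ℂ)) * heC

end SF
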