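import Pool.Agent.Helper65.SF.PDefs
import Pool.Agent.Helper65.SF.WPn

/-!
# SF-PW: pair states, definitions
-/

namespace SF

open Metric

/-- Bounds for a pair of curves on the ball of radius `R` around `b0`: `e` bounds `p1 - p0`, `L` its
logarithmic derivative, `S` and `O` the size and the oscillation of the quotient `DD`. -/
structure PairB (R L e S O : ℝ) (b0 : ℂ) (T0 T1 p0 p1 : ℂ → ℂ) : Prop where
  ne : ∀ b ∈ ball b0 R, p1 b - p0 b ≠ 0 ∧ ‖p1 b - p0 b‖ ≤ e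
  ratio : ∀ b ∈ ball b0 (R / 2), ‖deriv p1 b - deriv p0 b‖ ≤ L * ‖p1 b - p0 b‖
  bd : ∀ b ∈ ball b0 (R / 2), ‖DD T0 T1 p0 p1 b‖ ≤ S
  osc : ∀ b ∈ ball b0 (R / 2), ∀ b' ∈ ball b0 (R / 2),
    ‖DD T0 T1 p0 p1 b - DD T0 T1 p0 p1 b'‖ ≤ O

/-- Pair state at level `l` over the real point `b0` (shifts `i`, `j` of the second branch). -/
def PairAt (lam R : ℝ) (l : ℕ) (i j : ℤ) (b0 L e S O : ℝ) : Prop :=
  ∃ T0 p0 T1 p1 : ℂ → ℂ, Curve lam R l 0 0 b0 T0 p0 ∧ Curve lam R l i j b0 T1 p1 ∧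
    PairB R L e S O (b0 : ℂ) T0 T1 p0 p1

end SF
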