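import Pool.Agent.Helper65.SF.GW3
import Pool.Agent.Helper65.SF.INT
import Pool.Agent.Helper65.SF.PWDefs

/-!
# SF-GW4: size of the term `KK` for the gain words

Proof in words.  `n = N + 1`, `f = fib N`, reduced variables: `a' = a - fibz i j n pi`, `b' = b - j pi`.  By `PP_shift` and
`PP_asym`, for real points of the polydisc
`V(a,b) = f (P a b - P a0 b) - (a - a0) - lam^2 f^2/(8 b'^2) (1/a' - 1/a0')` is at most `m = 2 C lam^2 f^2 lam^(39/100)`.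
`V` is holomorphic and bounded by a constant on the polydisc (`P a b - P a0 b = int exp U`, `‖exp U‖ <= C/f` by `small`, `Ub`;
`lam^2 f^2 <= lam^(2/5)`).  `int_lemma2` with `del = 1/4`: `|V| <= C m^(3/4) <= C (lam^2 f^2) (lam^2 f^2)^(-1/4) lam^(29/100)`
`<= C lam^2 f^2 lam^(1/10)` on a smaller polydisc, as `lam^2 f^2 >= lam^(1/2)`.  Cauchy in a:
`f exp (U a b) = 1 - x + O (lam^2 f^2 lam^(1/10))`, `x = lam^2 f^2/(8 a'^2 b'^2)`.  So `exp U f` is within 1/10 of 1 and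
`U a b + log f + x` is (modulo 2 pi i, constant) `O (x^2) + O (lam^2 f^2 lam^(1/10)) = O (lam^2 f^2 lam^(1/10))`, holomorphic; Cauchy twice:
`(d/db)(d/da) U = - lam^2 f^2/(2 a'^3 b'^3) + O (lam^2 f^2 lam^(1/10))`.  `KK` at a0 with real x, y near b0 is the average of
`(d/db)(d/da) U` over the segment divided by the average of `exp U`: within 3/10 relative (R' small, lam small).
-/

namespace SF

open Metric

theorem gw4_lo {c : ℝ} {r l : ℝ} (hr : r ≤ 1 / 50) (hc : l ≤ c) {z : ℂ} (hz : z ∈ ball (c : ℂ) r) :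
    l - 1 / 50 ≤ ‖z‖ := by
  rw [mem_ball_iff_norm] at hz
  have h1 : ‖(c : ℂ)‖ ≤ ‖z‖ + ‖z - c‖ := by
    calc ‖(c : ℂ)‖ = ‖z - (z - c)‖ := by ring_nf
      _ ≤ _ := norm_sub_le _ _
  have h2 : c ≤ ‖(c : ℂ)‖ := by
    rw [Complex.norm_real]
    exact le_abs_self c
  linarith only [hr, hc, hz, h1, h2]

theorem gw4_xh {a0 b0 R1 q : ℝ} (hR1 : R1 ≤ 1 / 50) (ha : 3 / 4 ≤ a0) (hb : 17 / 20 ≤ b0)
    (hq : 0 < q) {z w : ℂ} (hz : z ∈ ball (a0 : ℂ) R1) (hw : w ∈ ball (b0 : ℂ) R1) :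
    ‖(q : ℂ) / (8 * z ^ 2 * w ^ 2)‖ ≤ q / 2 := by
  have h1 := gw4_lo hR1 ha hz
  have h2 := gw4_lo hR1 hb hw
  rw [norm_div, norm_mul, norm_mul, norm_pow, norm_pow, Complex.norm_real, Real.norm_eq_abs,
    abs_of_pos hq]
  have h3 : (73 / 100 : ℝ) ^ 2 ≤ ‖z‖ ^ 2 := by
    apply pow_le_pow_left₀ (by norm_num)
    linarith only [h1]
  have h4 : (83 / 100 : ℝ) ^ 2 ≤ ‖w‖ ^ 2 := by
    apply pow_le_pow_left₀ (by norm_num)
    linarith only [h2]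
  have h5 : ‖(8 : ℂ)‖ = 8 := by simp
  rw [h5]
  apply div_le_div_of_nonneg_left hq.le (by norm_num)
  calc (2 : ℝ) ≤ 8 * (73 / 100 : ℝ) ^ 2 * (83 / 100 : ℝ) ^ 2 := by norm_num
    _ ≤ 8 * ‖z‖ ^ 2 * ‖w‖ ^ 2 := by
      apply mul_le_mul _ h4 (by positivity) (by positivity)
      linarith only [h3]

theorem gw4_ne {a0 R1 l : ℝ} (hR1 : R1 ≤ 1 / 50) (hl : 1 / 50 < l) (ha : l ≤ a0) {z : ℂ}
    (hz : z ∈ ball (a0 : ℂ) R1) : z ≠ 0 := by
  have h1 := gw4_lo hR1 ha hz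
  intro h0
  rw [h0, norm_zero] at h1
  linarith only [hl, h1]

/-- Step 1: the first derivative. -/
theorem gw4_S1 (a0 b0 R1 q mu F : ℝ) (U P : ℂ → ℂ → ℂ) (hR1 : 0 < R1) (hR1' : R1 ≤ 1 / 50)
    (ha : 3 / 4 ≤ a0)
    (hP : ∀ a ∈ ball (a0 : ℂ) R1, ∀ b ∈ ball (b0 : ℂ) R1,
      HasDerivAt (fun a' => P a' b) (Complex.exp (U a b)) a)
    (hV : ∀ a ∈ ball (a0 : ℂ) R1, ∀ b ∈ ball (b0 : ℂ) R1,
      ‖F * (P a b - P a0 b) - (a - a0) - q / (8 * b ^ 2) * (1 / a - 1 / a0)‖ ≤ mu)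
    {z w : ℂ} (hz : z ∈ ball (a0 : ℂ) (R1 / 2)) (hw : w ∈ ball (b0 : ℂ) R1) :
    ‖F * Complex.exp (U z w) - 1 + q / (8 * z ^ 2 * w ^ 2)‖ ≤ 2 * mu / R1 := by
  have hzz : ∀ a ∈ closedBall z (R1 / 2), a ∈ ball (a0 : ℂ) R1 := by
    intro a haa
    rw [mem_closedBall] at haa
    rw [mem_ball] at hz ⊢
    calc dist a a0 ≤ dist a z + dist z a0 := dist_triangle _ _ _
      _ < R1 := by linarith only [hz, haa]
  have hder : ∀ a ∈ ball (a0 : ℂ) R1, HasDerivAt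
      (fun a' => (F : ℂ) * (P a' w - P a0 w) - (a' - a0) - q / (8 * w ^ 2) * (1 / a' - 1 / a0))
      (F * Complex.exp (U a w) - 1 + q / (8 * a ^ 2 * w ^ 2)) a := by
    intro a haa
    have ha0 : a ≠ 0 := gw4_ne hR1' (by norm_num) ha haa
    have h1 : HasDerivAt (fun a' => (F : ℂ) * (P a' w - P a0 w)) (F * Complex.exp (U a w)) a :=
      ((hP a haa w hw).sub_const _).const_mul _
    have h2 : HasDerivAt (fun a' : ℂ => a' - (a0 : ℂ)) 1 a := (hasDerivAt_id a).sub_const _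
    have h3 : HasDerivAt (fun a' : ℂ => 1 / a' - 1 / (a0 : ℂ)) (-(a ^ 2)⁻¹) a := by
      have h4 := (hasDerivAt_inv ha0).sub_const (1 / (a0 : ℂ))
      refine h4.congr_of_eventuallyEq (Filter.Eventually.of_forall fun x => ?_)
      simp only [one_div]
    have h5 := (h1.sub h2).sub (h3.const_mul ((q : ℂ) / (8 * w ^ 2)))
    refine h5.congr_deriv ?_
    by_cases hw0 : w = 0
    · subst hw0
      simp
    · field_simp
      ring
  have h1 : DiffContOnCl ℂ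
      (fun a' => (F : ℂ) * (P a' w - P a0 w) - (a' - a0) - q / (8 * w ^ 2) * (1 / a' - 1 / a0))
      (ball z (R1 / 2)) := by
    apply DifferentiableOn.diffContOnCl
    rw [closure_ball z (by positivity)]
    exact fun a haa => (hder a (hzz a haa)).differentiableAt.differentiableWithinAt
  have h2 := Complex.norm_deriv_le_of_forall_mem_sphere_norm_le (C := mu) (half_pos hR1) h1
    (fun a haa => hV a (hzz a (sphere_subset_closedBall haa)) w hw)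
  rw [(hder z (hzz z (mem_closedBall_self (by positivity)))).deriv] at h2
  calc _ ≤ mu / (R1 / 2) := h2
    _ = 2 * mu / R1 := by
      field_simp

/-- Step 3: the function `L`. -/
theorem gw4_S3 (a0 b0 R1 q mu F : ℝ) (U : ℂ → ℂ → ℂ) (hR1' : R1 ≤ 1 / 50) (hR1 : 0 < R1)
    (ha : 3 / 4 ≤ a0) (hb : 17 / 20 ≤ b0) (hq : 0 < q) (hq1 : q ≤ 1) (hmu : 0 ≤ mu)
    {z w : ℂ} (hz : z ∈ ball (a0 : ℂ) R1) (hw : w ∈ ball (b0 : ℂ) R1)
    (h : ‖F * Complex.exp (U z w) - 1 + q / (8 * z ^ 2 * w ^ 2)‖ ≤ 2 * mu / R1) :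
    ‖F * Complex.exp (U z w + q / (8 * z ^ 2 * w ^ 2)) - 1‖ ≤ q ^ 2 + 6 * mu / R1 := by
  have hx := gw4_xh hR1' ha hb hq hz hw
  set x : ℂ := (q : ℂ) / (8 * z ^ 2 * w ^ 2) with hxdef
  set E : ℂ := F * Complex.exp (U z w) - 1 + x with hE
  have hx1 : ‖x‖ ≤ 1 := by linarith only [hR1', hR1, hq1, hx]
  have h1 := Complex.norm_exp_sub_one_sub_id_le hx1
  have h2 : (F : ℂ) * Complex.exp (U z w + x) - 1 =
      -x ^ 2 + (1 - x) * (Complex.exp x - 1 - x) + E * Complex.exp x := by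
    rw [Complex.exp_add, hE]
    ring
  rw [h2]
  have h3 : ‖Complex.exp x‖ ≤ 3 := by
    calc ‖Complex.exp x‖ ≤ Real.exp ‖x‖ := Complex.norm_exp_le_exp_norm x
      _ ≤ Real.exp 1 := Real.exp_le_exp.2 hx1
      _ ≤ 3 := by linarith only [Real.exp_one_lt_d9, hR1', hR1]
  have h4 : ‖(1 : ℂ) - x‖ ≤ 2 := by
    calc ‖(1 : ℂ) - x‖ ≤ ‖(1 : ℂ)‖ + ‖x‖ := norm_sub_le _ _
      _ ≤ 2 := by
        rw [norm_one]
        linarith only [hR1', hR1, hq1, hx]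
  have h5 : ‖x‖ ^ 2 ≤ q ^ 2 / 4 := by
    have := pow_le_pow_left₀ (norm_nonneg x) hx 2
    linarith only [this, (by ring : (q / 2) ^ 2 = q ^ 2 / 4), this]
  have h6 : 0 ≤ 2 * mu / R1 := by positivity
  calc ‖-x ^ 2 + (1 - x) * (Complex.exp x - 1 - x) + E * Complex.exp x‖
      ≤ ‖-x ^ 2‖ + ‖(1 - x) * (Complex.exp x - 1 - x)‖ + ‖E * Complex.exp x‖ := norm_add₃_le
    _ = ‖x‖ ^ 2 + ‖1 - x‖ * ‖Complex.exp x - 1 - x‖ + ‖E‖ * ‖Complex.exp x‖ := by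
      rw [norm_mul, norm_mul, norm_neg, norm_pow]
    _ ≤ q ^ 2 / 4 + 2 * (q ^ 2 / 4) + (2 * mu / R1) * 3 := by
      gcongr
      exact h1.trans h5
    _ ≤ q ^ 2 + 6 * mu / R1 := by
      have h7 : (2 * mu / R1) * 3 = 6 * mu / R1 := by ring
      rw [h7]
      nlinarith only [sq_nonneg q]

/-- Steps 4, 5. -/
theorem gw4_S5 (a0 b0 R1 q eta F : ℝ) (U : ℂ → ℂ → ℂ) (hR1' : R1 ≤ 1 / 50) (hR1 : 0 < R1)
    (ha : 3 / 4 ≤ a0) (hb : 17 / 20 ≤ b0) (heta1 : eta ≤ 1 / 2)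
    (hUw : ∀ z ∈ ball (a0 : ℂ) R1, DifferentiableOn ℂ (fun w => U z w) (ball (b0 : ℂ) R1))
    {z : ℂ} (hz : z ∈ ball (a0 : ℂ) (R1 / 2))
    (h : ∀ w ∈ ball (b0 : ℂ) R1,
      ‖F * Complex.exp (U z w + q / (8 * z ^ 2 * w ^ 2)) - 1‖ ≤ eta)
    {x y : ℂ} (hx : x ∈ ball (b0 : ℂ) (R1 / 2)) (hy : y ∈ ball (b0 : ℂ) (R1 / 2)) :
    ‖(U z y + q / (8 * z ^ 2 * y ^ 2)) - (U z x + q / (8 * z ^ 2 * x ^ 2))‖
      ≤ 4 * eta / R1 * ‖y - x‖ := by
  have hzR : z ∈ ball (a0 : ℂ) R1 := ball_subset_ball (by linarith only [hR1]) hz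
  have hz0 : z ≠ 0 := gw4_ne hR1' (by norm_num) ha hzR
  have hsub : ∀ w ∈ ball (b0 : ℂ) (R1 / 2), ∀ v ∈ closedBall w (R1 / 2), v ∈ ball (b0 : ℂ) R1 := by
    intro w hw v hv
    rw [mem_closedBall] at hv
    rw [mem_ball] at hw ⊢
    calc dist v b0 ≤ dist v w + dist w b0 := dist_triangle _ _ _
      _ < R1 := by linarith only [hw, hv]
  have hH : ∀ v ∈ ball (b0 : ℂ) R1,
      DifferentiableAt ℂ (fun w => U z w + q / (8 * z ^ 2 * w ^ 2)) v := by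
    intro v hv
    have hv0 : v ≠ 0 := gw4_ne hR1' (by norm_num) hb hv
    have h1 : DifferentiableAt ℂ (fun w => U z w) v :=
      (hUw z hzR).differentiableAt (isOpen_ball.mem_nhds hv)
    refine h1.add ?_
    refine (differentiableAt_const _).div ?_ ?_
    · exact ((differentiableAt_const _).mul (differentiableAt_id.pow 2))
    · exact mul_ne_zero (mul_ne_zero (by norm_num) (pow_ne_zero _ hz0)) (pow_ne_zero _ hv0)
  refine Convex.norm_image_sub_le_of_norm_deriv_le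
    (f := fun w => U z w + q / (8 * z ^ 2 * w ^ 2)) (s := ball (b0 : ℂ) (R1 / 2))
    (fun v hv => hH v (ball_subset_ball (by linarith only [hR1]) hv)) ?_ (convex_ball _ _) hx hy
  intro w hw
  have hwR : w ∈ ball (b0 : ℂ) R1 := ball_subset_ball (by linarith only [hR1]) hw
  -- the derivative of `L`
  have hL : ∀ v ∈ ball (b0 : ℂ) R1, HasDerivAt
      (fun w => (F : ℂ) * Complex.exp (U z w + q / (8 * z ^ 2 * w ^ 2)) - 1)
      (F * (Complex.exp (U z v + q / (8 * z ^ 2 * v ^ 2)) *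
        deriv (fun w => U z w + q / (8 * z ^ 2 * w ^ 2)) v)) v := by
    intro v hv
    exact (((hH v hv).hasDerivAt.cexp).const_mul _).sub_const _
  have h1 : DiffContOnCl ℂ
      (fun w => (F : ℂ) * Complex.exp (U z w + q / (8 * z ^ 2 * w ^ 2)) - 1)
      (ball w (R1 / 2)) := by
    apply DifferentiableOn.diffContOnCl
    rw [closure_ball w (by positivity)]
    exact fun a haa => (hL a (hsub w hw a haa)).differentiableAt.differentiableWithinAt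
  have h2 := Complex.norm_deriv_le_of_forall_mem_sphere_norm_le (C := eta) (half_pos hR1) h1
    (fun a haa => h a (hsub w hw a (sphere_subset_closedBall haa)))
  rw [(hL w hwR).deriv] at h2
  have h3 := h w hwR
  have h4 : 1 / 2 ≤ ‖(F : ℂ) * Complex.exp (U z w + q / (8 * z ^ 2 * w ^ 2))‖ := by
    have h5 : ‖(1 : ℂ)‖ ≤ ‖(F : ℂ) * Complex.exp (U z w + q / (8 * z ^ 2 * w ^ 2))‖ +
        ‖(F : ℂ) * Complex.exp (U z w + q / (8 * z ^ 2 * w ^ 2)) - 1‖ := by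
      calc ‖(1 : ℂ)‖ = ‖(F : ℂ) * Complex.exp (U z w + q / (8 * z ^ 2 * w ^ 2)) -
          ((F : ℂ) * Complex.exp (U z w + q / (8 * z ^ 2 * w ^ 2)) - 1)‖ := by ring_nf
        _ ≤ _ := norm_sub_le _ _
    rw [norm_one] at h5
    linarith only [heta1, h3, h5]
  rw [← mul_assoc, norm_mul] at h2
  have h6 : 1 / 2 * ‖deriv (fun w => U z w + q / (8 * z ^ 2 * w ^ 2)) w‖ ≤ eta / (R1 / 2) :=
    (mul_le_mul_of_nonneg_right h4 (norm_nonneg _)).trans h2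
  have h7 : eta / (R1 / 2) = 2 * eta / R1 := by field_simp
  rw [h7] at h6
  have h8 : 4 * eta / R1 = 2 * (2 * eta / R1) := by ring
  rw [h8]
  linarith only [h6]

/-- Steps 6, 7. -/
theorem gw4_S7 (a0 b0 R1 q B : ℝ) (U : ℂ → ℂ → ℂ) (hR1' : R1 ≤ 1 / 50) (hR1 : 0 < R1)
    (ha : 3 / 4 ≤ a0) (hb : 17 / 20 ≤ b0)
    (hUz : ∀ w ∈ ball (b0 : ℂ) R1, DifferentiableOn ℂ (fun z => U z w) (ball (a0 : ℂ) R1))
    {x y : ℂ} (hx : x ∈ ball (b0 : ℂ) R1) (hy : y ∈ ball (b0 : ℂ) R1)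
    (h : ∀ z ∈ ball (a0 : ℂ) (R1 / 2),
      ‖(U z y + q / (8 * z ^ 2 * y ^ 2)) - (U z x + q / (8 * z ^ 2 * x ^ 2))‖ ≤ B) :
    ‖deriv (fun z => U z y) a0 - deriv (fun z => U z x) a0
      - q / (4 * a0 ^ 3) * (1 / y ^ 2 - 1 / x ^ 2)‖ ≤ 4 * B / R1 := by
  have haR : (a0 : ℂ) ∈ ball (a0 : ℂ) R1 := mem_ball_self hR1
  have hx0 : x ≠ 0 := gw4_ne hR1' (by norm_num) hb hx
  have hy0 : y ≠ 0 := gw4_ne hR1' (by norm_num) hb hy
  have hU : ∀ w ∈ ball (b0 : ℂ) R1, ∀ z ∈ ball (a0 : ℂ) R1,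
      HasDerivAt (fun z => U z w + q / (8 * z ^ 2 * w ^ 2))
        (deriv (fun z => U z w) z - q / (4 * z ^ 3) * (1 / w ^ 2)) z := by
    intro w hw z hz
    have hz0 : z ≠ 0 := gw4_ne hR1' (by norm_num) ha hz
    have hw0 : w ≠ 0 := gw4_ne hR1' (by norm_num) hb hw
    have h1 : HasDerivAt (fun z => U z w) (deriv (fun z => U z w) z) z :=
      ((hUz w hw).differentiableAt (isOpen_ball.mem_nhds hz)).hasDerivAt
    have h2 : HasDerivAt (fun z : ℂ => 8 * z ^ 2 * w ^ 2) (8 * (2 * z) * w ^ 2) z := by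
      have h3 := ((hasDerivAt_pow 2 z).const_mul 8).mul_const (w ^ 2)
      refine h3.congr_deriv ?_
      norm_num
    have h4 : HasDerivAt (fun z : ℂ => (q : ℂ) / (8 * z ^ 2 * w ^ 2))
        (-(q / (4 * z ^ 3) * (1 / w ^ 2))) z := by
      have h5 := (hasDerivAt_const z (q : ℂ)).div h2
        (mul_ne_zero (mul_ne_zero (by norm_num) (pow_ne_zero _ hz0)) (pow_ne_zero _ hw0))
      refine h5.congr_deriv ?_
      field_simp
      ring
    exact (h1.add h4).congr_deriv (by ring)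
  have hD : ∀ z ∈ ball (a0 : ℂ) R1,
      HasDerivAt (fun z => (U z y + q / (8 * z ^ 2 * y ^ 2)) - (U z x + q / (8 * z ^ 2 * x ^ 2)))
        ((deriv (fun z => U z y) z - q / (4 * z ^ 3) * (1 / y ^ 2)) -
          (deriv (fun z => U z x) z - q / (4 * z ^ 3) * (1 / x ^ 2))) z :=
    fun z hz => (hU y hy z hz).sub (hU x hx z hz)
  have hsub : closedBall (a0 : ℂ) (R1 / 4) ⊆ ball (a0 : ℂ) (R1 / 2) :=
    closedBall_subset_ball (by linarith only [hR1])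
  have h1 : DiffContOnCl ℂ
      (fun z => (U z y + q / (8 * z ^ 2 * y ^ 2)) - (U z x + q / (8 * z ^ 2 * x ^ 2)))
      (ball (a0 : ℂ) (R1 / 4)) := by
    apply DifferentiableOn.diffContOnCl
    rw [closure_ball _ (by positivity)]
    exact fun a haa => (hD a (ball_subset_ball (by linarith only [hR1]) (hsub haa))).differentiableAt.differentiableWithinAt
  have h2 := Complex.norm_deriv_le_of_forall_mem_sphere_norm_le (C := B)
    (by positivity : 0 < R1 / 4) h1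
    (fun a haa => h a (hsub (sphere_subset_closedBall haa)))
  rw [(hD a0 haR).deriv] at h2
  have h3 : (deriv (fun z => U z y) (a0 : ℂ) - deriv (fun z => U z x) (a0 : ℂ)
      - q / (4 * a0 ^ 3) * (1 / y ^ 2 - 1 / x ^ 2)) =
      ((deriv (fun z => U z y) (a0 : ℂ) - q / (4 * a0 ^ 3) * (1 / y ^ 2)) -
          (deriv (fun z => U z x) (a0 : ℂ) - q / (4 * a0 ^ 3) * (1 / x ^ 2))) := by ring
  rw [h3]
  calc _ ≤ B / (R1 / 4) := h2
    _ = 4 * B / R1 := by field_simp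

/-- Step 8: the denominator. -/
theorem gw4_S8 (a0 b0 R1 del F : ℝ) (U : ℂ → ℂ → ℂ) (hR1 : 0 < R1)
    (hUw : ∀ z ∈ ball (a0 : ℂ) R1, DifferentiableOn ℂ (fun w => U z w) (ball (b0 : ℂ) R1))
    (h : ∀ w ∈ ball (b0 : ℂ) R1, ‖F * Complex.exp (U a0 w) - 1‖ ≤ del)
    {x y : ℂ} (hx : x ∈ ball (b0 : ℂ) R1) (hy : y ∈ ball (b0 : ℂ) R1) :
    ‖F * (∫ t in (0:ℝ)..1, Complex.exp (U a0 (x + t * (y - x)))) - 1‖ ≤ del := by
  have hmem : ∀ t ∈ Set.Icc (0 : ℝ) 1, x + t * (y - x) ∈ ball (b0 : ℂ) R1 := by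
    intro t ht
    have h1 : x + t * (y - x) = (1 - t) • x + t • y := by
      rw [Complex.real_smul, Complex.real_smul]
      push_cast
      ring
    rw [h1]
    exact convex_ball _ _ hx hy (by linarith [ht.2]) ht.1 (by ring)
  have hcont : ContinuousOn (fun t : ℝ => Complex.exp (U a0 (x + t * (y - x)))) (Set.Icc 0 1) := by
    have h1 : ContinuousOn (fun w => U a0 w) (ball (b0 : ℂ) R1) :=
      (hUw a0 (mem_ball_self hR1)).continuousOn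
    have h2 : ContinuousOn (fun t : ℝ => x + t * (y - x)) (Set.Icc 0 1) := by fun_prop
    exact (h1.comp h2 hmem).cexp
  have hint : IntervalIntegrable (fun t : ℝ => Complex.exp (U a0 (x + t * (y - x))))
      MeasureTheory.volume 0 1 := by
    apply ContinuousOn.intervalIntegrable
    rw [Set.uIcc_of_le zero_le_one]
    exact hcont
  have h1 : (F : ℂ) * (∫ t in (0:ℝ)..1, Complex.exp (U a0 (x + t * (y - x)))) - 1 =
      ∫ t in (0:ℝ)..1, ((F : ℂ) * Complex.exp (U a0 (x + t * (y - x))) - 1) := by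
    rw [intervalIntegral.integral_sub (hint.const_mul _) intervalIntegrable_const,
      intervalIntegral.integral_const_mul, intervalIntegral.integral_const]
    simp
  rw [h1]
  have h2 := intervalIntegral.norm_integral_le_of_norm_le_const
    (a := (0 : ℝ)) (b := 1) (C := del)
    (f := fun t : ℝ => (F : ℂ) * Complex.exp (U a0 (x + t * (y - x))) - 1) (fun t ht => by
      rw [Set.uIoc_of_le zero_le_one] at ht
      exact h _ (hmem t ⟨ht.1.le, ht.2⟩))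
  simpa using h2

/-- The variation of the main term. -/
theorem gw4_S9 (b0 x y : ℝ) (hb : 17 / 20 ≤ b0) (hx : |x - b0| < 1 / 200)
    (hy : |y - b0| < 1 / 200) :
    |b0 ^ 3 * (x + y) / (2 * x ^ 2 * y ^ 2) - 1| ≤ 1 / 20 := by
  rw [abs_lt] at hx hy
  have hx1 : 994 / 1000 * b0 ≤ x := by linarith only [hb, hx]
  have hx2 : x ≤ 1006 / 1000 * b0 := by linarith only [hb, hx]
  have hy1 : 994 / 1000 * b0 ≤ y := by linarith only [hb, hy]
  have hy2 : y ≤ 1006 / 1000 * b0 := by linarith only [hb, hy]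
  have hb0 : 0 < b0 := by linarith only [hb]
  have hx0 : 0 < x := by linarith only [hb, hx, hb0]
  have hy0 : 0 < y := by linarith only [hb, hy, hb0]
  have hl : (994 / 1000 * b0) ^ 2 * (994 / 1000 * b0) ^ 2 ≤ x ^ 2 * y ^ 2 := by
    apply mul_le_mul (pow_le_pow_left₀ (by positivity) hx1 2)
      (pow_le_pow_left₀ (by positivity) hy1 2) (by positivity) (by positivity)
  have hu : x ^ 2 * y ^ 2 ≤ (1006 / 1000 * b0) ^ 2 * (1006 / 1000 * b0) ^ 2 := by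
    apply mul_le_mul (pow_le_pow_left₀ hx0.le hx2 2)
      (pow_le_pow_left₀ hy0.le hy2 2) (by positivity) (by positivity)
  have hb4 : 0 < b0 ^ 4 := by positivity
  have hb3 : 0 < b0 ^ 3 := by positivity
  have hxy0 : 0 < 2 * x ^ 2 * y ^ 2 := by positivity
  rw [abs_le]
  constructor
  · rw [le_sub_iff_add_le, le_div_iff₀ hxy0]
    have h1 : b0 ^ 3 * (2 * (994 / 1000 * b0)) ≤ b0 ^ 3 * (x + y) :=
      mul_le_mul_of_nonneg_left (by linarith only [hb, hx, hy, hx0]) hb3.le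
    nlinarith only [hu, hb4, h1]
  · rw [sub_le_iff_le_add, div_le_iff₀ hxy0]
    have h1 : b0 ^ 3 * (x + y) ≤ b0 ^ 3 * (2 * (1006 / 1000 * b0)) :=
      mul_le_mul_of_nonneg_left (by linarith only [hb, hx, hy, hb0]) hb3.le
    nlinarith only [hl, hb4, h1]

theorem gw4_core (a0 b0 R1 q mu F : ℝ) (U P : ℂ → ℂ → ℂ) (hR1 : 0 < R1) (hR1' : R1 ≤ 1 / 50)
    (ha : 3 / 4 ≤ a0) (ha' : a0 ≤ 11 / 10) (hb : 17 / 20 ≤ b0) (hb' : b0 ≤ 102 / 100)
    (hq : 0 < q) (hq1 : q ≤ 1) (hmu : 0 ≤ mu) (hF : 0 < F)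
    (hUz : ∀ w ∈ ball (b0 : ℂ) R1, DifferentiableOn ℂ (fun z => U z w) (ball (a0 : ℂ) R1))
    (hUw : ∀ z ∈ ball (a0 : ℂ) R1, DifferentiableOn ℂ (fun w => U z w) (ball (b0 : ℂ) R1))
    (hP : ∀ a ∈ ball (a0 : ℂ) R1, ∀ b ∈ ball (b0 : ℂ) R1,
      HasDerivAt (fun a' => P a' b) (Complex.exp (U a b)) a)
    (hV : ∀ a ∈ ball (a0 : ℂ) R1, ∀ b ∈ ball (b0 : ℂ) R1,
      ‖F * (P a b - P a0 b) - (a - a0) - q / (8 * b ^ 2) * (1 / a - 1 / a0)‖ ≤ mu)
    (h1 : q / 2 + 2 * mu / R1 ≤ 1 / 20)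
    (h2 : 16 * (q ^ 2 + 6 * mu / R1) / R1 ^ 2 ≤ q / 100)
    (x y : ℝ) (hxy : x ≠ y) (hx : |x - b0| < R1 / 2) (hy : |y - b0| < R1 / 2)
    (hx' : |x - b0| < 1 / 200) (hy' : |y - b0| < 1 / 200) :
    ‖KK U (fun _ => (x : ℂ)) (fun _ => (y : ℂ)) (a0 : ℂ) + ((F * q / (2 * a0 ^ 3 * b0 ^ 3) : ℝ) : ℂ)‖
      ≤ 3 / 10 * (F * q / (2 * a0 ^ 3 * b0 ^ 3)) := by
  have hxb : (x : ℂ) ∈ ball (b0 : ℂ) (R1 / 2) := by
    rw [mem_ball_iff_norm, ← Complex.ofReal_sub, Complex.norm_real]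
    exact hx
  have hyb : (y : ℂ) ∈ ball (b0 : ℂ) (R1 / 2) := by
    rw [mem_ball_iff_norm, ← Complex.ofReal_sub, Complex.norm_real]
    exact hy
  have hsub : ball (b0 : ℂ) (R1 / 2) ⊆ ball (b0 : ℂ) R1 := ball_subset_ball (by linarith only [hR1])
  have hsuba : ball (a0 : ℂ) (R1 / 2) ⊆ ball (a0 : ℂ) R1 := ball_subset_ball (by linarith only [hR1])
  set eta : ℝ := q ^ 2 + 6 * mu / R1 with heta
  have heta0 : 0 ≤ eta := by positivity
  have hR2 : R1 ^ 2 ≤ 1 := by nlinarith only [hR1, hR1']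
  have heta1 : eta ≤ 1 / 2 := by
    rw [div_le_iff₀ (by positivity)] at h2
    nlinarith only [hR1, hR1', hq1, h2, hR2]
  have hS1 : ∀ z ∈ ball (a0 : ℂ) (R1 / 2), ∀ w ∈ ball (b0 : ℂ) R1,
      ‖F * Complex.exp (U z w) - 1 + q / (8 * z ^ 2 * w ^ 2)‖ ≤ 2 * mu / R1 :=
    fun z hz w hw => gw4_S1 a0 b0 R1 q mu F U P hR1 hR1' ha hP hV hz hw
  have hS3 : ∀ z ∈ ball (a0 : ℂ) (R1 / 2), ∀ w ∈ ball (b0 : ℂ) R1,
      ‖F * Complex.exp (U z w + q / (8 * z ^ 2 * w ^ 2)) - 1‖ ≤ eta :=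
    fun z hz w hw => gw4_S3 a0 b0 R1 q mu F U hR1' hR1 ha hb hq hq1 hmu (hsuba hz) hw
      (hS1 z hz w hw)
  have hS5 : ∀ z ∈ ball (a0 : ℂ) (R1 / 2),
      ‖(U z y + q / (8 * z ^ 2 * (y : ℂ) ^ 2)) - (U z x + q / (8 * z ^ 2 * (x : ℂ) ^ 2))‖
        ≤ 4 * eta / R1 * ‖(y : ℂ) - x‖ :=
    fun z hz => gw4_S5 a0 b0 R1 q eta F U hR1' hR1 ha hb heta1 hUw hz
      (hS3 z hz) hxb hyb
  have hS7 := gw4_S7 a0 b0 R1 q _ U hR1' hR1 ha hb hUz (hsub hxb) (hsub hyb) hS5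
  have ha0m : (a0 : ℂ) ∈ ball (a0 : ℂ) (R1 / 2) := mem_ball_self (by positivity)
  have hS8 := gw4_S8 a0 b0 R1 (1 / 20) F U hR1 hUw (fun w hw => by
    have h3 := hS1 a0 ha0m w hw
    have h4 := gw4_xh hR1' ha hb hq (hsuba ha0m) hw
    have h5 : (F : ℂ) * Complex.exp (U a0 w) - 1 =
        (F * Complex.exp (U a0 w) - 1 + q / (8 * (a0 : ℂ) ^ 2 * w ^ 2)) -
          q / (8 * (a0 : ℂ) ^ 2 * w ^ 2) := by ring
    rw [h5]
    calc _ ≤ ‖F * Complex.exp (U a0 w) - 1 + q / (8 * (a0 : ℂ) ^ 2 * w ^ 2)‖ +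
          ‖(q : ℂ) / (8 * (a0 : ℂ) ^ 2 * w ^ 2)‖ := norm_sub_le _ _
      _ ≤ 1 / 20 := by linarith only [h1, h3, h4]) (hsub hxb) (hsub hyb)
  have hS9 := gw4_S9 b0 x y hb hx' hy'
  -- notation
  set Phi : ℂ := deriv (fun z => U z y) a0 - deriv (fun z => U z x) a0 with hPhi
  set I : ℂ := ∫ t in (0:ℝ)..1, Complex.exp (U a0 ((x : ℂ) + t * ((y : ℂ) - x))) with hI
  have hyx : (y : ℂ) - x ≠ 0 := by
    rw [← Complex.ofReal_sub, Complex.ofReal_ne_zero]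
    exact sub_ne_zero.2 (Ne.symm hxy)
  have hx0 : 0 < x := by
    rw [abs_lt] at hx'
    linarith only [hR1, hR1', hb, hx']
  have hy0 : 0 < y := by
    rw [abs_lt] at hy'
    linarith only [hR1, hR1', hb, hy']
  have ha0 : 0 < a0 := by linarith only [hR1, hR1', ha]
  have hb0 : 0 < b0 := by linarith only [hR1, hR1', hb]
  have hxc : (x : ℂ) ≠ 0 := Complex.ofReal_ne_zero.2 hx0.ne'
  have hyc : (y : ℂ) ≠ 0 := Complex.ofReal_ne_zero.2 hy0.ne'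
  have hac : (a0 : ℂ) ≠ 0 := Complex.ofReal_ne_zero.2 ha0.ne'
  have hbc : (b0 : ℂ) ≠ 0 := Complex.ofReal_ne_zero.2 hb0.ne'
  have hFc : (F : ℂ) ≠ 0 := Complex.ofReal_ne_zero.2 hF.ne'
  set Q : ℝ := q / (2 * a0 ^ 3 * b0 ^ 3) with hQ
  have hQ0 : 0 < Q := by positivity
  have hQq : q / 100 ≤ Q / 20 := by
    have h3 : 2 * a0 ^ 3 * b0 ^ 3 ≤ 5 := by
      have h4 : a0 ^ 3 ≤ (11 / 10) ^ 3 := pow_le_pow_left₀ ha0.le ha' 3
      have h5 : b0 ^ 3 ≤ (102 / 100) ^ 3 := pow_le_pow_left₀ hb0.le hb' 3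
      calc 2 * a0 ^ 3 * b0 ^ 3 ≤ 2 * (11 / 10) ^ 3 * (102 / 100) ^ 3 := by gcongr
        _ ≤ 5 := by norm_num
    have h6 : q / 5 ≤ Q := by
      rw [hQ]
      exact div_le_div_of_nonneg_left hq.le (by positivity) h3
    linarith only [h6]
  -- the numerator
  have hnum : ‖Phi / ((y : ℂ) - x) + Q‖ ≤ q / 100 + Q / 20 := by
    have e1 : Phi / ((y : ℂ) - x) + Q =
        (Phi - q / (4 * (a0 : ℂ) ^ 3) * (1 / (y : ℂ) ^ 2 - 1 / (x : ℂ) ^ 2)) / ((y : ℂ) - x) +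
          -((Q * (b0 ^ 3 * (x + y) / (2 * x ^ 2 * y ^ 2) - 1) : ℝ) : ℂ) := by
      rw [hQ]
      push_cast
      field_simp
      ring
    rw [e1]
    refine (norm_add_le _ _).trans (add_le_add ?_ ?_)
    · rw [norm_div, div_le_iff₀ (norm_pos_iff.2 hyx)]
      refine hS7.trans ?_
      have e2 : 4 * (4 * eta / R1 * ‖(y : ℂ) - x‖) / R1 = (16 * eta / R1 ^ 2) * ‖(y : ℂ) - x‖ := by
        field_simp
        ring
      rw [e2]
      exact mul_le_mul_of_nonneg_right h2 (norm_nonneg _)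
    · rw [norm_neg, Complex.norm_real, Real.norm_eq_abs, abs_mul, abs_of_pos hQ0]
      calc Q * |b0 ^ 3 * (x + y) / (2 * x ^ 2 * y ^ 2) - 1| ≤ Q * (1 / 20) :=
            mul_le_mul_of_nonneg_left hS9 hQ0.le
        _ = Q / 20 := by ring
  have hJ : 19 / 20 ≤ ‖(F : ℂ) * I‖ := by
    have h5 : ‖(1 : ℂ)‖ ≤ ‖(F : ℂ) * I‖ + ‖(F : ℂ) * I - 1‖ := by
      calc ‖(1 : ℂ)‖ = ‖(F : ℂ) * I - ((F : ℂ) * I - 1)‖ := by ring_nf
        _ ≤ _ := norm_sub_le _ _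
    rw [norm_one] at h5
    linarith only [hS8, h5]
  have hJ0 : (F : ℂ) * I ≠ 0 := by
    intro h0
    rw [h0, norm_zero] at hJ
    linarith only [hR1, hR1', hJ]
  have hI0 : I ≠ 0 := fun h0 => hJ0 (by rw [h0, mul_zero])
  have hKK : KK U (fun _ => (x : ℂ)) (fun _ => (y : ℂ)) (a0 : ℂ) = Phi / (((y : ℂ) - x) * I) := rfl
  have e3 : KK U (fun _ => (x : ℂ)) (fun _ => (y : ℂ)) (a0 : ℂ) +
      ((F * q / (2 * a0 ^ 3 * b0 ^ 3) : ℝ) : ℂ) =
      F * ((Phi / ((y : ℂ) - x) + Q) + Q * (F * I - 1)) / (F * I) := by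
    rw [hKK]
    have e4 : ((F * q / (2 * a0 ^ 3 * b0 ^ 3) : ℝ) : ℂ) = F * Q := by
      rw [hQ]
      push_cast
      ring
    rw [e4]
    field_simp
    ring
  rw [e3, norm_div, norm_mul, Complex.norm_real, Real.norm_eq_abs, abs_of_pos hF,
    div_le_iff₀ (by linarith only [hR1, hR1', hJ] : 0 < ‖(F : ℂ) * I‖)]
  have hQJ : ‖(Phi / ((y : ℂ) - x) + Q) + Q * (F * I - 1)‖ ≤ 3 / 20 * Q := by
    calc _ ≤ ‖Phi / ((y : ℂ) - x) + Q‖ + ‖(Q : ℂ) * (F * I - 1)‖ := norm_add_le _ _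
      _ ≤ (q / 100 + Q / 20) + Q * (1 / 20) := by
        refine add_le_add hnum ?_
        rw [norm_mul, Complex.norm_real, Real.norm_eq_abs, abs_of_pos hQ0]
        exact mul_le_mul_of_nonneg_left hS8 hQ0.le
      _ ≤ 3 / 20 * Q := by linarith only [hQq]
  have e5 : 3 / 10 * (F * q / (2 * a0 ^ 3 * b0 ^ 3)) = 3 / 10 * (F * Q) := by
    rw [hQ]
    ring
  rw [e5]
  calc F * ‖(Phi / ((y : ℂ) - x) + Q) + Q * (F * I - 1)‖ ≤ F * (3 / 20 * Q) :=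
        mul_le_mul_of_nonneg_left hQJ hF.le
    _ ≤ 3 / 10 * (F * Q) * (19 / 20) := by nlinarith only [mul_pos hF hQ0, hF, hQ0]
    _ ≤ 3 / 10 * (F * Q) * ‖(F : ℂ) * I‖ :=
        mul_le_mul_of_nonneg_left hJ (by positivity)

theorem gw4_KK_shift (U : ℂ → ℂ → ℂ) (s t x y a : ℝ) :
    KK U (fun _ => ((x + t : ℝ) : ℂ)) (fun _ => ((y + t : ℝ) : ℂ)) ((a + s : ℝ) : ℂ) =
      KK (fun z w => U (z + s) (w + t)) (fun _ => (x : ℂ)) (fun _ => (y : ℂ)) (a : ℂ) := by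
  unfold KK
  have h1 : ∀ w : ℝ, deriv (fun a' => U a' ((w + t : ℝ) : ℂ)) ((a + s : ℝ) : ℂ) =
      deriv (fun z => U (z + s) ((w : ℂ) + t)) (a : ℂ) := by
    intro w
    have h2 := deriv_comp_add_const (fun a' => U a' ((w + t : ℝ) : ℂ)) (s : ℂ) (a : ℂ)
    have h3 : (((a + s : ℝ) : ℂ)) = (a : ℂ) + s := by push_cast; ring
    rw [h3, ← h2]
    push_cast
    rfl
  rw [h1, h1]
  have h4 : ∀ τ : ℝ, U ((a + s : ℝ) : ℂ) (((x + t : ℝ) : ℂ) + τ * (((y + t : ℝ) : ℂ) - ((x + t : ℝ) : ℂ))) =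
      U ((a : ℂ) + s) ((x : ℂ) + τ * ((y : ℂ) - x) + t) := by
    intro τ
    have h5 : (((a + s : ℝ) : ℂ)) = (a : ℂ) + s := by push_cast; ring
    have h6 : (((x + t : ℝ) : ℂ) + τ * (((y + t : ℝ) : ℂ) - ((x + t : ℝ) : ℂ))) =
        (x : ℂ) + τ * ((y : ℂ) - x) + t := by push_cast; ring
    rw [h5, h6]
  simp only [h4]
  have h7 : (((y + t : ℝ) : ℂ) - ((x + t : ℝ) : ℂ)) = (y : ℂ) - x := by push_cast; ring
  rw [h7]

theorem gw4_mem_shift {c s r : ℝ} {z : ℂ} (hz : z ∈ ball (c : ℂ) r) :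
    z + s ∈ ball ((c + s : ℝ) : ℂ) r := by
  rw [mem_ball_iff_norm] at hz ⊢
  have h : z + s - ((c + s : ℝ) : ℂ) = z - c := by push_cast; ring
  rw [h]
  exact hz

/-- The bound on real points. -/
theorem gw4_real {F f1 q lam e z w a0 X1 X0 : ℝ} (hF : 0 < F) (hq : q = lam ^ 2 * F ^ 2)
    (hz : z ≠ 0) (hw : w ≠ 0) (ha : a0 ≠ 0)
    (h1 : |X1 - ((z - f1 * w) / F + lam ^ 2 * F / (8 * z * w ^ 2))| ≤ e)
    (h0 : |X0 - ((a0 - f1 * w) / F + lam ^ 2 * F / (8 * a0 * w ^ 2))| ≤ e) :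
    |F * (X1 - X0) - (z - a0) - q / (8 * w ^ 2) * (1 / z - 1 / a0)| ≤ 2 * F * e := by
  have h2 : F * (X1 - X0) - (z - a0) - q / (8 * w ^ 2) * (1 / z - 1 / a0) =
      F * ((X1 - ((z - f1 * w) / F + lam ^ 2 * F / (8 * z * w ^ 2))) -
        (X0 - ((a0 - f1 * w) / F + lam ^ 2 * F / (8 * a0 * w ^ 2)))) := by
    rw [hq]
    field_simp
    ring
  rw [h2, abs_mul, abs_of_pos hF]
  calc _ ≤ F * (e + e) := by
        apply mul_le_mul_of_nonneg_left _ hF.le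
        exact (abs_sub _ _).trans (add_le_add h1 h0)
    _ = 2 * F * e := by ring

theorem gw4_pow {lam F : ℝ} (hl : 0 < lam) (hF1 : lam ^ (-(3 / 4) : ℝ) ≤ F)
    (hF2 : F ≤ lam ^ (-(4 / 5) : ℝ)) :
    lam ^ (1 / 2 : ℝ) ≤ lam ^ 2 * F ^ 2 ∧ lam ^ 2 * F ^ 2 ≤ lam ^ (2 / 5 : ℝ) := by
  have hF : 0 < F := (Real.rpow_pos_of_pos hl _).trans_le hF1
  have h2 : ∀ r : ℝ, lam ^ 2 * (lam ^ r) ^ 2 = lam ^ (2 + 2 * r) := by
    intro r
    rw [Real.rpow_add hl, ← Real.rpow_natCast (lam ^ r) 2, ← Real.rpow_mul hl.le,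
      ← Real.rpow_natCast lam 2]
    congr 2
    push_cast
    ring
  constructor
  · calc lam ^ (1 / 2 : ℝ) = lam ^ 2 * (lam ^ (-(3 / 4) : ℝ)) ^ 2 := by
          rw [h2]
          norm_num
      _ ≤ lam ^ 2 * F ^ 2 := by
          apply mul_le_mul_of_nonneg_left _ (by positivity)
          exact pow_le_pow_left₀ (Real.rpow_nonneg hl.le _) hF1 2
  · calc lam ^ 2 * F ^ 2 ≤ lam ^ 2 * (lam ^ (-(4 / 5) : ℝ)) ^ 2 := by
          apply mul_le_mul_of_nonneg_left _ (by positivity)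
          exact pow_le_pow_left₀ hF.le hF2 2
      _ = lam ^ (2 / 5 : ℝ) := by
          rw [h2]
          norm_num

/-- The interpolated bound. -/
theorem gw4_mu {K M C0 q lam : ℝ} (hK : 0 < K) (hM : 0 < M) (hC0 : 1 ≤ C0) (hl : 0 < lam)
    (hl1 : lam ≤ 1) (hq : 0 < q) (hq1 : lam ^ (1 / 2 : ℝ) ≤ q) :
    K * M ^ (1 / 4 : ℝ) * (2 * C0 * q * lam ^ (39 / 100 : ℝ)) ^ (1 - 1 / 4 : ℝ) ≤
      K * M ^ (1 / 4 : ℝ) * (2 * C0) ^ (3 / 4 : ℝ) * q * lam ^ (1 / 10 : ℝ) := by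
  have e1 : (1 - 1 / 4 : ℝ) = 3 / 4 := by norm_num
  rw [e1, Real.mul_rpow (by positivity) (by positivity), Real.mul_rpow (by positivity) hq.le,
    ← Real.rpow_mul hl.le]
  have h1 : q ^ (3 / 4 : ℝ) * lam ^ (1 / 8 : ℝ) ≤ q := by
    have h2 : lam ^ (1 / 8 : ℝ) ≤ q ^ (1 / 4 : ℝ) := by
      have h3 := Real.rpow_le_rpow (by positivity) hq1 (by norm_num : (0 : ℝ) ≤ 1 / 4)
      rw [← Real.rpow_mul hl.le] at h3
      have h4 : (1 / 2 * (1 / 4) : ℝ) = 1 / 8 := by norm_num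
      rw [h4] at h3
      exact h3
    calc q ^ (3 / 4 : ℝ) * lam ^ (1 / 8 : ℝ) ≤ q ^ (3 / 4 : ℝ) * q ^ (1 / 4 : ℝ) :=
          mul_le_mul_of_nonneg_left h2 (by positivity)
      _ = q := by
          rw [← Real.rpow_add hq]
          norm_num
  have h2 : lam ^ (39 / 100 * (3 / 4) : ℝ) ≤ lam ^ (1 / 8 : ℝ) * lam ^ (1 / 10 : ℝ) := by
    rw [← Real.rpow_add hl]
    apply Real.rpow_le_rpow_of_exponent_ge hl hl1
    norm_num
  have h3 : q ^ (3 / 4 : ℝ) * lam ^ (39 / 100 * (3 / 4) : ℝ) ≤ q * lam ^ (1 / 10 : ℝ) := by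
    calc q ^ (3 / 4 : ℝ) * lam ^ (39 / 100 * (3 / 4) : ℝ)
        ≤ q ^ (3 / 4 : ℝ) * (lam ^ (1 / 8 : ℝ) * lam ^ (1 / 10 : ℝ)) :=
          mul_le_mul_of_nonneg_left h2 (by positivity)
      _ = (q ^ (3 / 4 : ℝ) * lam ^ (1 / 8 : ℝ)) * lam ^ (1 / 10 : ℝ) := by ring
      _ ≤ q * lam ^ (1 / 10 : ℝ) := mul_le_mul_of_nonneg_right h1 (by positivity)
  have h4 : 0 ≤ K * M ^ (1 / 4 : ℝ) * (2 * C0) ^ (3 / 4 : ℝ) := by positivity
  calc K * M ^ (1 / 4 : ℝ) * ((2 * C0) ^ (3 / 4 : ℝ) * q ^ (3 / 4 : ℝ) *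
        lam ^ (39 / 100 * (3 / 4) : ℝ))
      = K * M ^ (1 / 4 : ℝ) * (2 * C0) ^ (3 / 4 : ℝ) *
          (q ^ (3 / 4 : ℝ) * lam ^ (39 / 100 * (3 / 4) : ℝ)) := by ring
    _ ≤ K * M ^ (1 / 4 : ℝ) * (2 * C0) ^ (3 / 4 : ℝ) * (q * lam ^ (1 / 10 : ℝ)) :=
        mul_le_mul_of_nonneg_left h3 h4
    _ = _ := by ring

/-- The bound on complex points. -/
theorem gw4_cplx (a0 b0 R q F C : ℝ) (U P : ℂ → ℂ → ℂ) (hR : 0 < R) (hR' : R ≤ 1 / 50)
    (ha : 3 / 4 ≤ a0) (hb : 17 / 20 ≤ b0) (hq : 0 < q) (hq1 : q ≤ 1) (hF : 0 < F)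
    (hP : ∀ a ∈ ball (a0 : ℂ) R, ∀ b ∈ ball (b0 : ℂ) R,
      HasDerivAt (fun a' => P a' b) (Complex.exp (U a b)) a)
    (hU : ∀ a ∈ ball (a0 : ℂ) R, ∀ b ∈ ball (b0 : ℂ) R, ‖U a b - U a0 b0‖ ≤ C)
    (hs : ‖Complex.exp (U a0 b0)‖ ≤ 1 / F)
    {a b : ℂ} (haa : a ∈ ball (a0 : ℂ) R) (hbb : b ∈ ball (b0 : ℂ) R) :
    ‖F * (P a b - P a0 b) - (a - a0) - q / (8 * b ^ 2) * (1 / a - 1 / a0)‖ ≤ Real.exp C + 2 := by
  have hexp : ∀ a ∈ ball (a0 : ℂ) R, ‖Complex.exp (U a b)‖ ≤ Real.exp C / F := by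
    intro a haa
    have h1 : Complex.exp (U a b) = Complex.exp (U a0 b0) * Complex.exp (U a b - U a0 b0) := by
      rw [← Complex.exp_add]
      congr 1
      ring
    rw [h1, norm_mul]
    have h2 : ‖Complex.exp (U a b - U a0 b0)‖ ≤ Real.exp C :=
      (Complex.norm_exp_le_exp_norm _).trans (Real.exp_le_exp.2 (hU a haa b hbb))
    calc _ ≤ 1 / F * Real.exp C :=
          mul_le_mul hs h2 (norm_nonneg _) (by positivity)
      _ = Real.exp C / F := by ring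
  have hda : ‖a - a0‖ < R := mem_ball_iff_norm.1 haa
  have h1 : ‖P a b - P a0 b‖ ≤ Real.exp C / F * ‖a - a0‖ := by
    refine Convex.norm_image_sub_le_of_norm_deriv_le (f := fun a' => P a' b)
      (s := ball (a0 : ℂ) R) (fun v hv => (hP v hv b hbb).differentiableAt) ?_ (convex_ball _ _)
      (mem_ball_self hR) haa
    intro v hv
    rw [(hP v hv b hbb).deriv]
    exact hexp v hv
  have h2 : ‖(F : ℂ) * (P a b - P a0 b)‖ ≤ Real.exp C := by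
    rw [norm_mul, Complex.norm_real, Real.norm_eq_abs, abs_of_pos hF]
    calc F * ‖P a b - P a0 b‖ ≤ F * (Real.exp C / F * ‖a - a0‖) :=
          mul_le_mul_of_nonneg_left h1 hF.le
      _ = Real.exp C * ‖a - a0‖ := by field_simp
      _ ≤ Real.exp C * 1 := by
          apply mul_le_mul_of_nonneg_left _ (Real.exp_pos _).le
          linarith only [hR, hR', hda]
      _ = Real.exp C := mul_one _
  have h3 := gw4_lo hR' ha haa
  have h4 := gw4_lo hR' hb hbb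
  have h5 : ‖(q : ℂ) / (8 * b ^ 2) * (1 / a - 1 / a0)‖ ≤ 1 := by
    rw [norm_mul, norm_div, norm_mul, norm_pow, Complex.norm_real, Real.norm_eq_abs, abs_of_pos hq]
    have h6 : ‖(8 : ℂ)‖ = 8 := by simp
    rw [h6]
    have h7 : ‖1 / a - 1 / (a0 : ℂ)‖ ≤ 3 := by
      calc ‖1 / a - 1 / (a0 : ℂ)‖ ≤ ‖1 / a‖ + ‖1 / (a0 : ℂ)‖ := norm_sub_le _ _
        _ ≤ 3 / 2 + 3 / 2 := by
          have h8 : 2 / 3 ≤ ‖a‖ := by linarith only [hR, hR', h3]
          have h9 : 2 / 3 ≤ ‖(a0 : ℂ)‖ := by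
            rw [Complex.norm_real, Real.norm_eq_abs, abs_of_pos (by linarith only [hR, hR', ha])]
            linarith only [hR, hR', ha]
          have h10 : ∀ c : ℂ, 2 / 3 ≤ ‖c‖ → ‖1 / c‖ ≤ 3 / 2 := by
            intro c hc
            rw [norm_div, norm_one, div_le_iff₀ (by linarith only [hR, hR', hc])]
            linarith only [hc]
          exact add_le_add (h10 _ h8) (h10 _ h9)
        _ = 3 := by norm_num
    have h8 : q / (8 * ‖b‖ ^ 2) ≤ 1 / 4 := by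
      have h9 : (4 : ℝ) ≤ 8 * ‖b‖ ^ 2 := by
        have h10 : (3 / 4 : ℝ) ^ 2 ≤ ‖b‖ ^ 2 := pow_le_pow_left₀ (by norm_num) (by linarith only [hR, hR', h4]) 2
        linarith only [hR, hR', h10]
      rw [div_le_iff₀ (by linarith only [hR, hR', h9])]
      linarith only [hq1, h9]
    calc q / (8 * ‖b‖ ^ 2) * ‖1 / a - 1 / (a0 : ℂ)‖ ≤ 1 / 4 * 3 :=
          mul_le_mul h8 h7 (norm_nonneg _) (by norm_num)
      _ ≤ 1 := by norm_num
  calc _ ≤ ‖(F : ℂ) * (P a b - P a0 b)‖ + ‖a - a0‖ + ‖(q : ℂ) / (8 * b ^ 2) * (1 / a - 1 / a0)‖ := by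
        refine (norm_sub_le _ _).trans (add_le_add ?_ le_rfl)
        exact norm_sub_le _ _
    _ ≤ Real.exp C + 2 := by linarith only [hR, hR', hda, h2, h5]

theorem gain_KK (R C : ℝ) (hR : 0 < R) (hR1 : R ≤ 1 / 50) (hC : 1 ≤ C) : ∃ R' lam1 : ℝ, 0 < R' ∧
    R' ≤ R ∧ 0 < lam1 ∧ lam1 ≤ 1 / 100 ∧ ∀ lam : ℝ, 0 < lam → lam ≤ lam1 → ∀ N : ℕ, N % 4 = 0 →
      lam ^ (-(3 / 4) : ℝ) ≤ (Nat.fib N : ℝ) → (Nat.fib N : ℝ) ≤ lam ^ (-(4 / 5) : ℝ) →
      ∀ (i j : ℤ) (a0 b0 : ℝ) (P U : ℂ → ℂ → ℂ), 25 / 100 * Real.pi ≤ a0 → a0 ≤ 35 / 100 * Real.pi →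
        28 / 100 * Real.pi ≤ b0 → b0 ≤ 32 / 100 * Real.pi →
        WordJ lam R C (N + 1) (a0 + (fibz i j (N + 1) : ℝ) * Real.pi) (b0 + j * Real.pi) P U →
        (∀ x y : ℝ, x ≠ y → |x - b0| < R' → |y - b0| < R' →
          ‖KK U (fun _ => ((x + j * Real.pi : ℝ) : ℂ)) (fun _ => ((y + j * Real.pi : ℝ) : ℂ))
              ((a0 + (fibz i j (N + 1) : ℝ) * Real.pi : ℝ) : ℂ)
            + ((lam ^ 2 * (Nat.fib N : ℝ) ^ 3 / (2 * a0 ^ 3 * b0 ^ 3) : ℝ) : ℂ)‖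
            ≤ 3 / 10 * (lam ^ 2 * (Nat.fib N : ℝ) ^ 3 / (2 * a0 ^ 3 * b0 ^ 3))) ∧
        ‖Complex.exp (U ((a0 + (fibz i j (N + 1) : ℝ) * Real.pi : ℝ) : ℂ) ((b0 + j * Real.pi : ℝ) : ℂ))‖
          ≤ 2 / (Nat.fib N : ℝ) := by
  obtain ⟨C0, l0, hC0, hl0, hl0', hasym⟩ := PP_asym
  obtain ⟨h, K, hh, hh1, hK, hint⟩ := int_lemma2 (1 / 4) (by norm_num) (by norm_num)
  have hM : 0 < Real.exp C + 2 := by positivity
  set M : ℝ := Real.exp C + 2 with hMdef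
  have hC1 : 0 < K * M ^ (1 / 4 : ℝ) * (2 * C0) ^ (3 / 4 : ℝ) := by positivity
  set C1 : ℝ := K * M ^ (1 / 4 : ℝ) * (2 * C0) ^ (3 / 4 : ℝ) with hC1def
  have hR10 : 0 < h * R := by positivity
  have hR1R : h * R ≤ R := by nlinarith only [hR, hh1]
  set R1 : ℝ := h * R with hR1def
  set del : ℝ := min (1 / 20) (min (1 / (2 * C0)) (min (R1 / (80 * C1)) (min (R1 ^ 2 / 3200)
    (R1 ^ 3 / (19200 * C1))))) with hdel
  have hdel0 : 0 < del := by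
    rw [hdel]
    refine lt_min (by norm_num) (lt_min (by positivity) (lt_min (by positivity)
      (lt_min (by positivity) (by positivity))))
  have d1 : del ≤ 1 / 20 := min_le_left _ _
  have d2 : del ≤ 1 / (2 * C0) := (min_le_right _ _).trans (min_le_left _ _)
  have d3 : del ≤ R1 / (80 * C1) :=
    (min_le_right _ _).trans ((min_le_right _ _).trans (min_le_left _ _))
  have d4 : del ≤ R1 ^ 2 / 3200 := (min_le_right _ _).trans ((min_le_right _ _).trans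
    ((min_le_right _ _).trans (min_le_left _ _)))
  have d5 : del ≤ R1 ^ 3 / (19200 * C1) := (min_le_right _ _).trans ((min_le_right _ _).trans
    ((min_le_right _ _).trans (min_le_right _ _)))
  refine ⟨min (R1 / 2) (1 / 200), min l0 (del ^ 10), lt_min (by positivity) (by norm_num),
    (min_le_left _ _).trans (by linarith only [hR, hR1R]), lt_min hl0 (by positivity),
    (min_le_left _ _).trans hl0', ?_⟩
  intro lam hlam hlam1 N hN4 hF1 hF2 i j a0 b0 P U ha1 ha2 hb1 hb2 hW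
  have hpi1 := Real.pi_gt_d4
  have hpi2 := Real.pi_lt_d4
  have hF : 0 < (Nat.fib N : ℝ) := (Real.rpow_pos_of_pos hlam _).trans_le hF1
  set F : ℝ := (Nat.fib N : ℝ) with hFdef
  have hN0 : N + 1 ≠ 1 := by
    intro h0
    have h1 : N = 0 := by omega
    rw [hFdef, h1] at hF
    simp at hF
  have hlaml0 : lam ≤ l0 := hlam1.trans (min_le_left _ _)
  have hlam100 : lam ≤ 1 / 100 := hlaml0.trans hl0'
  have hlamd : lam ^ (1 / 10 : ℝ) ≤ del := by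
    have h1 : lam ≤ del ^ 10 := hlam1.trans (min_le_right _ _)
    calc lam ^ (1 / 10 : ℝ) ≤ (del ^ 10) ^ (1 / 10 : ℝ) :=
          Real.rpow_le_rpow hlam.le h1 (by norm_num)
      _ = del := by
          rw [← Real.rpow_natCast, ← Real.rpow_mul hdel0.le]
          norm_num
  obtain ⟨hqlo, hqhi⟩ := gw4_pow hlam hF1 hF2
  have hq0 : 0 < lam ^ 2 * F ^ 2 := by positivity
  set q : ℝ := lam ^ 2 * F ^ 2 with hqdef
  have hqd : q ≤ del := by
    refine hqhi.trans (le_trans ?_ hlamd)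
    exact Real.rpow_le_rpow_of_exponent_ge hlam (by linarith only [hl0, hl0', hlaml0]) (by norm_num)
  have hq1 : q ≤ 1 := by linarith only [hl0, hl0', d1, hqd]
  have ha : 3 / 4 ≤ a0 := by linarith only [hl0, hl0', ha1, hpi1]
  have ha' : a0 ≤ 11 / 10 := by linarith only [hl0, hl0', ha2, hpi2]
  have hb : 17 / 20 ≤ b0 := by linarith only [hl0, hl0', hb1, hpi1]
  have hb' : b0 ≤ 102 / 100 := by linarith only [hl0, hl0', hb2, hpi2]
  set s : ℝ := (fibz i j (N + 1) : ℝ) * Real.pi with hs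
  set t : ℝ := (j : ℝ) * Real.pi with ht
  have hsmall : ‖Complex.exp (U ((a0 + s : ℝ) : ℂ) ((b0 + t : ℝ) : ℂ))‖ ≤ 1 / F := by
    have h1 := hW.small
    rw [Nat.add_sub_cancel] at h1
    exact h1
  refine ⟨?_, hsmall.trans (by gcongr; norm_num)⟩
  intro x y hxy hx hy
  -- the reduced functions
  set U' : ℂ → ℂ → ℂ := fun z w => U (z + s) (w + t) with hU'
  set P' : ℂ → ℂ → ℂ := fun z w => P (z + s) (w + t) with hP'
  have hPa' : ∀ a ∈ ball (a0 : ℂ) R, ∀ b ∈ ball (b0 : ℂ) R,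
      HasDerivAt (fun a' => P' a' b) (Complex.exp (U' a b)) a := by
    intro a haa b hbb
    exact (hW.Pa (a + s) (gw4_mem_shift haa) (b + t) (gw4_mem_shift hbb)).comp_add_const a _
  have hcast : ∀ c d : ℝ, ((c + d : ℝ) : ℂ) = (c : ℂ) + d := fun c d => by push_cast; ring
  have hUb' : ∀ a ∈ ball (a0 : ℂ) R, ∀ b ∈ ball (b0 : ℂ) R, ‖U' a b - U' a0 b0‖ ≤ C := by
    intro a haa b hbb
    have h1 := hW.Ub (a + s) (gw4_mem_shift haa) (b + t) (gw4_mem_shift hbb)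
    rw [hcast, hcast] at h1
    exact h1
  have hs' : ‖Complex.exp (U' a0 b0)‖ ≤ 1 / F := by
    rw [hcast, hcast] at hsmall
    exact hsmall
  have hmaps : ∀ z ∈ ball (a0 : ℂ) R ×ˢ ball (b0 : ℂ) R,
      ((z.1 + s, z.2 + t) : ℂ × ℂ) ∈
        ball ((a0 + s : ℝ) : ℂ) R ×ˢ ball ((b0 + t : ℝ) : ℂ) R := fun z hz =>
    ⟨gw4_mem_shift hz.1, gw4_mem_shift hz.2⟩
  have hdP' : DifferentiableOn ℂ (fun z : ℂ × ℂ => P' z.1 z.2)
      (ball (a0 : ℂ) R ×ˢ ball (b0 : ℂ) R) := by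
    have h1 : DifferentiableOn ℂ (fun z : ℂ × ℂ => ((z.1 + s, z.2 + t) : ℂ × ℂ))
        (ball (a0 : ℂ) R ×ˢ ball (b0 : ℂ) R) := by fun_prop
    exact hW.dP.comp h1 hmaps
  have hdP0 : DifferentiableOn ℂ (fun z : ℂ × ℂ => P' a0 z.2)
      (ball (a0 : ℂ) R ×ˢ ball (b0 : ℂ) R) := by
    have h1 : DifferentiableOn ℂ (fun z : ℂ × ℂ => (((a0 : ℂ), z.2) : ℂ × ℂ))
        (ball (a0 : ℂ) R ×ˢ ball (b0 : ℂ) R) := by fun_prop
    exact hdP'.comp h1 fun z hz => ⟨mem_ball_self hR, hz.2⟩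
  have hdU' : DifferentiableOn ℂ (fun z : ℂ × ℂ => U' z.1 z.2)
      (ball (a0 : ℂ) R ×ˢ ball (b0 : ℂ) R) := by
    have h1 : DifferentiableOn ℂ (fun z : ℂ × ℂ => ((z.1 + s, z.2 + t) : ℂ × ℂ))
        (ball (a0 : ℂ) R ×ˢ ball (b0 : ℂ) R) := by fun_prop
    exact hW.dU.comp h1 hmaps
  -- the function `V`
  have hVdiff : DifferentiableOn ℂ (fun z : ℂ × ℂ => F * (P' z.1 z.2 - P' a0 z.2) - (z.1 - a0)
      - q / (8 * z.2 ^ 2) * (1 / z.1 - 1 / a0)) (ball (a0 : ℂ) R ×ˢ ball (b0 : ℂ) R) := by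
    have h1 : DifferentiableOn ℂ (fun z : ℂ × ℂ => (q : ℂ) / (8 * z.2 ^ 2))
        (ball (a0 : ℂ) R ×ˢ ball (b0 : ℂ) R) := by
      have hc : Differentiable ℂ (fun z : ℂ × ℂ => (8 : ℂ) * z.2 ^ 2) := by fun_prop
      simp only [div_eq_mul_inv]
      refine DifferentiableOn.const_mul (hc.differentiableOn.inv fun z hz => ?_) _
      exact mul_ne_zero (by norm_num) (pow_ne_zero _ (gw4_ne hR1 (by norm_num) hb hz.2))
    have h2 : DifferentiableOn ℂ (fun z : ℂ × ℂ => 1 / z.1 - 1 / (a0 : ℂ))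
        (ball (a0 : ℂ) R ×ˢ ball (b0 : ℂ) R) := by
      have hc : Differentiable ℂ (fun z : ℂ × ℂ => z.1) := by fun_prop
      simp only [one_div]
      refine (hc.differentiableOn.inv fun z hz => ?_).sub (differentiableOn_const _)
      exact gw4_ne hR1 (by norm_num) ha hz.1
    have h3 : DifferentiableOn ℂ (fun z : ℂ × ℂ => z.1 - (a0 : ℂ))
        (ball (a0 : ℂ) R ×ˢ ball (b0 : ℂ) R) := by fun_prop
    exact (((hdP'.sub hdP0).const_mul _).sub h3).sub (h1.mul h2)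
  have hVreal : ∀ z w : ℝ, |z - a0| < R → |w - b0| < R →
      ‖(F : ℂ) * (P' z w - P' a0 w) - (z - a0) - q / (8 * (w : ℂ) ^ 2) * (1 / z - 1 / a0)‖
        ≤ 2 * C0 * q * lam ^ (39 / 100 : ℝ) := by
    intro z w hz hw
    rw [abs_lt] at hz hw
    have hpp : ∀ v : ℝ, 24 / 100 * Real.pi ≤ v → v ≤ 36 / 100 * Real.pi → |v - a0| < R →
        P' v w = ((PP lam (N + 1) v w + i * Real.pi : ℝ) : ℂ) := by
      intro v hv1 hv2 hv3
      have hv4 : (v : ℂ) ∈ ball (a0 : ℂ) R := by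
        rw [mem_ball_iff_norm, ← Complex.ofReal_sub, Complex.norm_real]
        exact hv3
      have hw4 : (w : ℂ) ∈ ball (b0 : ℂ) R := by
        rw [mem_ball_iff_norm, ← Complex.ofReal_sub, Complex.norm_real, Real.norm_eq_abs, abs_lt]
        exact hw
      have h1 := (hW.re (v + s) (w + t) (by
        rw [hcast v s]
        exact gw4_mem_shift hv4) (by
        rw [hcast w t]
        exact gw4_mem_shift hw4)).1
      rw [PP_shift lam hlam.le hlam100 (N + 1) hN0 v w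
        (Real.sin_pos_of_pos_of_lt_pi (by linarith only [hR1, hl0, hl0', hb1, hpi1, hw]) (by linarith only [hR1, hl0, hl0', hb2, hpi1, hw])).ne'
        (Real.sin_pos_of_pos_of_lt_pi (by linarith only [hl0, hl0', hpi1, hv1]) (by linarith only [hl0, hl0', hpi1, hv2])).ne' i j] at h1
      rw [← h1, hcast, hcast]
    have hz1 : 24 / 100 * Real.pi ≤ z := by linarith only [hR1, hl0, hl0', ha1, hpi1, hz]
    have hz2 : z ≤ 36 / 100 * Real.pi := by linarith only [hR1, hl0, hl0', ha2, hpi1, hz]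
    have hw1 : 27 / 100 * Real.pi ≤ w := by linarith only [hR1, hl0, hl0', hb1, hpi1, hw]
    have hw2 : w ≤ 33 / 100 * Real.pi := by linarith only [hR1, hl0, hl0', hb2, hpi1, hw]
    have h1 := (hasym lam hlam hlaml0 N hN4 hF1 hF2 z w hz1 hz2 hw1 hw2).1
    have h0 := (hasym lam hlam hlaml0 N hN4 hF1 hF2 a0 w (by linarith only [hl0, hl0', ha1, hpi1]) (by linarith only [hl0, hl0', ha2, hpi1]) hw1 hw2).1
    have h2 := gw4_real hF hqdef (by linarith only [hR1, hl0, hl0', ha1, hpi1, hz] : z ≠ 0) (by linarith only [hR1, hl0, hl0', hb1, hpi1, hw] : w ≠ 0)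
      (by linarith only [hl0, hl0', ha1, hpi1] : a0 ≠ 0) h1 h0
    have h3 : (F : ℂ) * (P' z w - P' a0 w) - (z - a0) - q / (8 * (w : ℂ) ^ 2) * (1 / z - 1 / a0) =
        ((F * (PP lam (N + 1) z w - PP lam (N + 1) a0 w) - (z - a0)
          - q / (8 * w ^ 2) * (1 / z - 1 / a0) : ℝ) : ℂ) := by
      rw [hpp z hz1 hz2 (abs_lt.2 hz), hpp a0 (by linarith only [hl0, hl0', ha1, hpi1]) (by linarith only [hl0, hl0', ha2, hpi1]) (by simpa using hR)]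
      push_cast
      ring
    rw [h3, Complex.norm_real, Real.norm_eq_abs]
    refine h2.trans (le_of_eq ?_)
    rw [hqdef]
    ring
  have hm0 : 0 < 2 * C0 * q * lam ^ (39 / 100 : ℝ) := by positivity
  have hmM : 2 * C0 * q * lam ^ (39 / 100 : ℝ) ≤ M := by
    have h1 : lam ^ (39 / 100 : ℝ) ≤ del := by
      refine le_trans ?_ hlamd
      exact Real.rpow_le_rpow_of_exponent_ge hlam (by linarith only [hl0, hl0', hlaml0]) (by norm_num)
    have h2 : 2 * C0 * lam ^ (39 / 100 : ℝ) ≤ 1 := by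
      have h3 := h1.trans d2
      rw [le_div_iff₀ (by positivity)] at h3
      linarith only [h3]
    have h4 : 2 * C0 * q * lam ^ (39 / 100 : ℝ) = q * (2 * C0 * lam ^ (39 / 100 : ℝ)) := by ring
    rw [h4]
    calc q * (2 * C0 * lam ^ (39 / 100 : ℝ)) ≤ 1 * 1 :=
          mul_le_mul hq1 h2 (by positivity) (by norm_num)
      _ ≤ M := by
          rw [hMdef]
          linarith only [Real.exp_pos C, hl0, hl0']
  have hV := hint R a0 b0 (fun z w => F * (P' z w - P' a0 w) - (z - a0)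
      - q / (8 * w ^ 2) * (1 / z - 1 / a0)) M _ hR hm0 hmM hVdiff
    (fun a haa b hbb => gw4_cplx a0 b0 R q F C U' P' hR hR1 ha hb hq0 hq1 hF hPa' hUb' hs' haa hbb)
    hVreal
  have hmu := gw4_mu hK hM hC0 hlam (by linarith only [hl0, hl0', hlaml0]) hq0 hqlo
  rw [← hC1def] at hmu
  have hmud : C1 * q * lam ^ (1 / 10 : ℝ) ≤ C1 * q * del :=
    mul_le_mul_of_nonneg_left hlamd (by positivity)
  have hxm : |x - b0| < R1 / 2 := hx.trans_le (min_le_left _ _)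
  have hym : |y - b0| < R1 / 2 := hy.trans_le (min_le_left _ _)
  have hx2 : |x - b0| < 1 / 200 := hx.trans_le (min_le_right _ _)
  have hy2 : |y - b0| < 1 / 200 := hy.trans_le (min_le_right _ _)
  have hsa : ball (a0 : ℂ) R1 ⊆ ball (a0 : ℂ) R := ball_subset_ball hR1R
  have hsb : ball (b0 : ℂ) R1 ⊆ ball (b0 : ℂ) R := ball_subset_ball hR1R
  have hd3 : C1 * del / R1 ≤ 1 / 80 := by
    rw [le_div_iff₀ (by positivity)] at d3
    rw [div_le_iff₀ hR10]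
    linarith only [d3]
  have hd5 : C1 * del / R1 ^ 3 ≤ 1 / 19200 := by
    rw [le_div_iff₀ (by positivity)] at d5
    rw [div_le_iff₀ (by positivity)]
    linarith only [d5]
  have hcore := gw4_core a0 b0 R1 q (C1 * q * del) F U' P' hR10 (hR1R.trans hR1) ha ha' hb hb' hq0
    hq1 (by positivity) hF
    (fun w hw => by
      have h1 : DifferentiableOn ℂ (fun z : ℂ => ((z, w) : ℂ × ℂ)) (ball (a0 : ℂ) R1) := by fun_prop
      exact hdU'.comp h1 fun z hz => ⟨hsa hz, hsb hw⟩)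
    (fun z hz => by
      have h1 : DifferentiableOn ℂ (fun w : ℂ => ((z, w) : ℂ × ℂ)) (ball (b0 : ℂ) R1) := by fun_prop
      exact hdU'.comp h1 fun w hw => ⟨hsa hz, hsb hw⟩)
    (fun a haa b hbb => hPa' a (hsa haa) b (hsb hbb))
    (fun a haa b hbb => ((hV a haa b hbb).trans hmu).trans hmud)
    (by
      have h1 : 2 * (C1 * q * del) / R1 = 2 * q * (C1 * del / R1) := by ring
      rw [h1]
      have h2 : 2 * q * (C1 * del / R1) ≤ 2 * 1 * (1 / 80) :=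
        mul_le_mul (by linarith only [hl0, hl0', d1, hqd]) hd3 (by positivity) (by norm_num)
      linarith only [d1, hqd, h2])
    (by
      have h1 : 16 * (q ^ 2 + 6 * (C1 * q * del) / R1) / R1 ^ 2 =
          q * (16 * q / R1 ^ 2 + 96 * (C1 * del / R1 ^ 3)) := by
        field_simp
        ring
      rw [h1]
      have h2 : 16 * q / R1 ^ 2 ≤ 1 / 200 := by
        rw [div_le_iff₀ (by positivity)]
        have h3 := hqd.trans d4
        linarith only [d4, hqd]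
      have h3 : 96 * (C1 * del / R1 ^ 3) ≤ 1 / 200 := by linarith only [hd5]
      have h4 : q * (16 * q / R1 ^ 2 + 96 * (C1 * del / R1 ^ 3)) ≤ q * (1 / 100) :=
        mul_le_mul_of_nonneg_left (by linarith only [hd5, h2]) hq0.le
      linarith only [h4])
    x y hxy hxm hym hx2 hy2
  rw [gw4_KK_shift U s t x y a0]
  have hT : lam ^ 2 * F ^ 3 / (2 * a0 ^ 3 * b0 ^ 3) = F * q / (2 * a0 ^ 3 * b0 ^ 3) := by
    rw [hqdef]
    ring
  rw [hT]
  exact hcore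

end SF
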