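import Pool.Agent.Helper65.SF.PEX
import Pool.Agent.Helper65.SF.GW4

/-!
# SF-GAIN: one of the two gain words produces a large quotient

Proof in words.  Assume the contrary: there are `(t0, t1, ...)` failing for N0 and `(u0, u1, ...)` failing for N0 + 4.
Write `f = fib N`, `fi = (1+sqrt 5)/2`.
(a) `p0 (TE t0 l) = psiE lam t0 l = PP lam (N+1) (TE t0 m) (TE t0 l)` (`Curve.re`, `word_at`); `PP_shift` and `PP_asym` give
  `p0 b - i0 pi + fi (b - j0 pi) = O(1/f)` at `b = TE t0 l` (as `|fib (N+1)/fib N - fi| <= 1/f^2`, `lam^2 f <= 1/f`), the same at `TE u0 l`;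
  the function `p0 b + fi b` has real slope at least 2, so `|TE t0 l - TE u0 l| <= C/fib N0`.
(b) Recenter the curves at `TE t0 l` (radius R/8) and use `pair_log`: with `D(b) = DD T0 T1 p0 p1 b`,
  `‖DDm‖ >= ‖KK - D (b1)‖ - C1 (1+Lst)^2 - C1 (1+Lst) e S`, `e S <= 1`, `|b1 - TE t0 l| <= e`.
(c) D is holomorphic on the ball of radius R around bc (`T'` and `p1 - p0` do not vanish) with oscillation at most O on the
  half ball, so by Cauchy `|D (b1) - D (b1~)| <= (C/R) O |b1 - b1~| <= C O (1/fib N0 + e) <= C lam^(-91/100 + 3/4)`, which is much smaller than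
  `lam^(-1/4)`.
(d) `gain_KK`: `KK = - kap (1 + 3/10 *)`, `kap = lam^2 f^3/(2 a^3 b^3)`, a, b the reduced angles, at least `lam^(-1/4)/3`.
  Failing for N0: `‖D - KK‖ <= lam^(-1/4)/50`, so `|D| <= 1.4 kap(N0)`; failing for N0+4: `|D~| >= 0.6 kap(N0+4)`; but
  `kap(N0+4)/kap(N0) >= (6.8)^3 (25/35)^3 (28/32)^3 >= 60`, contradiction.
-/

namespace SF

open Metric

theorem g61_small (e0 R' K K' : ℝ) (he : 0 < e0) (hR' : 0 < R') (M : ℕ) :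
    ∃ lam1 : ℝ, 0 < lam1 ∧ ∀ lam : ℝ, 0 < lam → lam ≤ lam1 →
      lam ^ 2 ≤ e0 ∧ lam ^ 2 < R' ∧ (M : ℝ) < lam ^ (-(3 / 4) : ℝ) ∧ K ≤ lam ^ (-(1 / 4) : ℝ) ∧
        K' ≤ lam ^ (-(9 / 100) : ℝ) := by
  have t1 : Filter.Tendsto (fun x : ℝ => x ^ (-(3 / 4) : ℝ)) (nhdsWithin 0 (Set.Ioi 0)) Filter.atTop :=
    tendsto_rpow_neg_nhdsGT_zero (by norm_num)
  have t2 : Filter.Tendsto (fun x : ℝ => x ^ (-(1 / 4) : ℝ)) (nhdsWithin 0 (Set.Ioi 0)) Filter.atTop :=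
    tendsto_rpow_neg_nhdsGT_zero (by norm_num)
  have t3 : Filter.Tendsto (fun x : ℝ => x ^ (-(9 / 100) : ℝ)) (nhdsWithin 0 (Set.Ioi 0))
      Filter.atTop := tendsto_rpow_neg_nhdsGT_zero (by norm_num)
  have t0 : Filter.Tendsto (fun x : ℝ => x ^ 2) (nhdsWithin 0 (Set.Ioi 0)) (nhds 0) := by
    have h : Continuous (fun x : ℝ => x ^ 2) := by fun_prop
    have h2 := h.tendsto 0
    simp only [ne_eq, OfNat.ofNat_ne_zero, not_false_eq_true, zero_pow] at h2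
    exact h2.mono_left nhdsWithin_le_nhds
  have hall := ((t0.eventually (gt_mem_nhds he)).and (t0.eventually (gt_mem_nhds hR'))).and
    ((t1.eventually (Filter.eventually_gt_atTop (M : ℝ))).and
      ((t2.eventually (Filter.eventually_ge_atTop K)).and
        (t3.eventually (Filter.eventually_ge_atTop K'))))
  obtain ⟨u, hu, hsub⟩ := (mem_nhdsGT_iff_exists_Ioo_subset).1 hall
  have hu' : 0 < u := hu
  refine ⟨u / 2, by linarith, fun lam h0 h1 => ?_⟩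
  have h := hsub (show lam ∈ Set.Ioo 0 u from ⟨h0, by linarith⟩)
  obtain ⟨⟨a1, a2⟩, a3, a4, a5⟩ := h
  exact ⟨le_of_lt a1, a2, a3, a4, a5⟩

theorem g61_deriv_congr {T T' : ℂ → ℂ} {c : ℂ} {r : ℝ} (hr : 0 < r)
    (h : ∀ b ∈ ball c r, T b = T' b) : NN T c = NN T' c := by
  have h0 : T =ᶠ[nhds c] T' := by
    filter_upwards [ball_mem_nhds c hr] with b hb using h b hb
  have h1 : deriv T =ᶠ[nhds c] deriv T' := h0.deriv
  unfold NN
  rw [h1.deriv_eq, h0.deriv_eq]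

theorem g61_DD_congr {T0 T1 p0 p1 T0' T1' p0' p1' : ℂ → ℂ} {c : ℂ} {r : ℝ} (hr : 0 < r)
    (h0 : ∀ b ∈ ball c r, T0 b = T0' b ∧ p0 b = p0' b)
    (h1 : ∀ b ∈ ball c r, T1 b = T1' b ∧ p1 b = p1' b) :
    DD T0 T1 p0 p1 c = DD T0' T1' p0' p1' c := by
  unfold DD
  rw [g61_deriv_congr hr fun b hb => (h0 b hb).1, g61_deriv_congr hr fun b hb => (h1 b hb).1,
    (h0 c (mem_ball_self hr)).2, (h1 c (mem_ball_self hr)).2]

theorem g61_DD_diff {T0 T1 p0 p1 : ℂ → ℂ} {c : ℂ} {r : ℝ}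
    (dT0 : DifferentiableOn ℂ T0 (ball c r)) (dT1 : DifferentiableOn ℂ T1 (ball c r))
    (dp0 : DifferentiableOn ℂ p0 (ball c r)) (dp1 : DifferentiableOn ℂ p1 (ball c r))
    (n0 : ∀ b ∈ ball c r, deriv T0 b ≠ 0) (n1 : ∀ b ∈ ball c r, deriv T1 b ≠ 0)
    (hd : ∀ b ∈ ball c r, p1 b - p0 b ≠ 0) :
    DifferentiableOn ℂ (fun b => DD T0 T1 p0 p1 b) (ball c r) := by
  unfold DD NN
  have e0 := dT0.deriv isOpen_ball
  have e1 := dT1.deriv isOpen_ball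
  exact (((e1.deriv isOpen_ball).div e1 n1).sub ((e0.deriv isOpen_ball).div e0 n0)).div
    (dp1.sub dp0) hd

theorem g61_low {p : ℂ → ℂ} {c : ℂ} {r : ℝ} (dp : DifferentiableOn ℂ p (ball c r))
    (hs : ∀ b ∈ ball c r, ‖deriv p b - 3 / 4‖ ≤ 3 / 10) (rho : ℝ) (hrho : 1 ≤ rho) (x y : ℂ)
    (hx : x ∈ ball c r) (hy : y ∈ ball c r) : ‖x - y‖ ≤ ‖(p x - p y) + rho * (x - y)‖ := by
  have hda : ∀ z ∈ ball c r, DifferentiableAt ℂ p z := fun z hz =>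
    (dp z hz).differentiableAt (isOpen_ball.mem_nhds hz)
  have h1 := (convex_ball c r).norm_image_sub_le_of_norm_deriv_le
    (f := fun z => p z - 3 / 4 * z) (C := 3 / 10) (x := y) (y := x)
    (fun z hz => (hda z hz).sub (by fun_prop)) ?_ hy hx
  · have h2 : (p x - p y) + rho * (x - y) = ((p x - 3 / 4 * x) - (p y - 3 / 4 * y))
        + ((rho + 3 / 4 : ℝ) : ℂ) * (x - y) := by
      push_cast
      ring
    have h3 : ‖((rho + 3 / 4 : ℝ) : ℂ) * (x - y)‖ = (rho + 3 / 4) * ‖x - y‖ := by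
      rw [norm_mul, Complex.norm_real, Real.norm_of_nonneg (by linarith)]
    have h4 : ‖((rho + 3 / 4 : ℝ) : ℂ) * (x - y)‖ ≤ ‖(p x - p y) + rho * (x - y)‖
        + ‖(p x - 3 / 4 * x) - (p y - 3 / 4 * y)‖ := by
      have : ((rho + 3 / 4 : ℝ) : ℂ) * (x - y) = ((p x - p y) + rho * (x - y))
        - ((p x - 3 / 4 * x) - (p y - 3 / 4 * y)) := by rw [h2]; ring
      rw [this]
      exact norm_sub_le _ _
    rw [h3] at h4
    nlinarith [norm_nonneg (x - y)]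
  · intro z hz
    have h5 : deriv (fun z => p z - 3 / 4 * z) z = deriv p z - 3 / 4 := by
      rw [deriv_fun_sub (hda z hz) (by fun_prop), deriv_const_mul _ (by fun_prop), deriv_id'']
      ring
    rw [h5]
    exact hs z hz

theorem g61_sin_ne {x a r : ℝ} (ha : 1 / 20 ≤ |Real.sin a|) (hr : r ≤ 1 / 40) (h : |x - a| < r) :
    Real.sin x ≠ 0 := by
  intro h0
  have h1 : |Real.sin x - Real.sin a| ≤ |x - a| := Real.abs_sin_sub_sin_le x a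
  rw [h0, zero_sub, abs_neg] at h1
  linarith

/-- The size of the large term. -/
noncomputable def kap61 (lam : ℝ) (N : ℕ) (a b : ℝ) : ℝ :=
  lam ^ 2 * (Nat.fib N : ℝ) ^ 3 / (2 * a ^ 3 * b ^ 3)

theorem g61_real1 (lam f g a b q Ca : ℝ) (h0 : 0 < lam) (hl1 : lam ≤ 1 / 100) (hf : 0 < f)
    (hf2 : f ≤ lam ^ (-(4 / 5) : ℝ)) (hCa : 1 ≤ Ca)
    (ha1 : 25 / 100 * Real.pi ≤ a) (ha2 : a ≤ 35 / 100 * Real.pi)
    (hb1 : 28 / 100 * Real.pi ≤ b)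
    (w3 : |q - ((a - g * b) / f + lam ^ 2 * f / (8 * a * b ^ 2))|
      ≤ Ca * lam ^ 2 * f * lam ^ (39 / 100 : ℝ)) :
    |q + g / f * b| ≤ (3 + Ca) / f := by
  have hpi := Real.pi_gt_three
  have hpi4 : Real.pi < 3.15 := Real.pi_lt_d2
  have hapos : 0 < a := by linarith
  have hbpos : 0 < b := by linarith
  have w5 : q + g / f * b = (q - ((a - g * b) / f
            + lam ^ 2 * f / (8 * a * b ^ 2))) + a / f + lam ^ 2 * f / (8 * a * b ^ 2) := by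
    field_simp
    ring
  rw [w5]
  have hlf : lam * f ≤ 1 := by
    have h3 : f ≤ lam ^ (-1 : ℝ) := hf2.trans
      (Real.rpow_le_rpow_of_exponent_ge h0 (by linarith) (by norm_num))
    rw [Real.rpow_neg_one] at h3
    calc lam * f ≤ lam * lam⁻¹ := mul_le_mul_of_nonneg_left h3 h0.le
      _ = 1 := mul_inv_cancel₀ h0.ne'
  have hlf2 : lam ^ 2 * f ≤ 1 / f := by
    rw [le_div_iff₀ hf]
    have : lam ^ 2 * f * f = (lam * f) ^ 2 := by ring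
    rw [this]
    exact pow_le_one₀ (by positivity) hlf
  have hab : 1 ≤ 8 * a * b ^ 2 := by
    have ha3 : 3 / 4 ≤ a := by linarith
    have hb3 : 4 / 5 ≤ b := by linarith
    have hb4 : (4 / 5) ^ 2 ≤ b ^ 2 := by gcongr
    nlinarith
  have k1 : lam ^ 2 * f / (8 * a * b ^ 2) ≤ 1 / f :=
    (div_le_self (by positivity) hab).trans hlf2
  have k2 : a / f ≤ 2 / f := by
    gcongr
    linarith
  have k3 : Ca * lam ^ 2 * f * lam ^ (39 / 100 : ℝ) ≤ Ca / f := by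
    have h5 : lam ^ (39 / 100 : ℝ) ≤ 1 := Real.rpow_le_one h0.le (by linarith) (by norm_num)
    calc Ca * lam ^ 2 * f * lam ^ (39 / 100 : ℝ)
        ≤ Ca * lam ^ 2 * f * 1 := by gcongr
      _ = Ca * (lam ^ 2 * f) := by ring
      _ ≤ Ca * (1 / f) := by gcongr
      _ = Ca / f := by ring
  have k4 : 0 ≤ lam ^ 2 * f / (8 * a * b ^ 2) := by positivity
  have k5 : 0 ≤ a / f := by positivity
  have k6 : (3 + Ca) / f = Ca / f + 2 / f + 1 / f := by ring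
  rw [k6]
  refine (abs_add_le _ _).trans (add_le_add ((abs_add_le _ _).trans (add_le_add
    (w3.trans k3) ?_)) ?_)
  · rwa [abs_of_nonneg k5]
  · rwa [abs_of_nonneg k4]

theorem g61_real2 (d1 dm kk ka : ℂ) (x C1 Lst e S A : ℝ) (hC1 : 1 ≤ C1) (hL : 1 ≤ Lst)
    (heS : e * S ≤ 1) (s4 : 100 * (C1 * (1 + Lst) ^ 2 + C1 * (1 + Lst)) ≤ A)
    (x2 : ‖kk + ka‖ ≤ x)
    (q9 : ‖dm + -1 * d1 - -1 * kk‖ ≤ C1 * (1 + Lst) ^ 2 + C1 * e * (1 + Lst) * S) :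
    ‖d1 + ka‖ ≤ x + ‖dm‖ + A / 100 := by
  have y1 : d1 + ka = dm + (kk + ka) - (dm + -1 * d1 - -1 * kk) := by ring
  have y2 : ‖d1 + ka‖ ≤ ‖dm‖ + ‖kk + ka‖ + ‖dm + -1 * d1 - -1 * kk‖ := by
    rw [y1]
    exact (norm_sub_le _ _).trans (by gcongr; exact norm_add_le _ _)
  have y3 : C1 * e * (1 + Lst) * S ≤ C1 * (1 + Lst) := by
    have : C1 * e * (1 + Lst) * S = C1 * (1 + Lst) * (e * S) := by ring
    rw [this]
    have h6 : 0 ≤ C1 * (1 + Lst) := by positivity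
    nlinarith
  linarith

/-- Value of the coordinate at a point of the curve. -/
theorem g61_p0 (lam : ℝ) (h0 : 0 < lam) (hl1 : lam ≤ 1 / 100) (l N : ℕ) (hl : 4 ≤ l) (hN : 5 ≤ N)
    (i0 j0 : ℤ) (r t0 : ℝ) (hr : 0 < r) (T0 p0 : ℂ → ℂ) (rc0 : Curve lam r l 0 0 (TE lam t0 l) T0 p0)
    (hg : Good (1 / 20) (fun k => TE lam t0 k) l) (hsb : 1 / 20 ≤ |Real.sin (TE lam t0 l)|)
    (hsa : 1 / 20 ≤ |Real.sin (TE lam t0 (l + N))|)
    (hb0 : Real.sin (TE lam t0 l - j0 * Real.pi) ≠ 0)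
    (ha0 : Real.sin (TE lam t0 (l + N) - (fibz i0 j0 (N + 1) : ℝ) * Real.pi) ≠ 0) :
    p0 ((TE lam t0 l : ℝ) : ℂ) = ((PP lam (N + 1)
      (TE lam t0 (l + N) - (fibz i0 j0 (N + 1) : ℝ) * Real.pi) (TE lam t0 l - j0 * Real.pi)
        + i0 * Real.pi : ℝ) : ℂ) := by
  obtain ⟨r1, r2, r3, r4⟩ := rc0.re (TE lam t0 l) (mem_ball_self hr)
  simp only [Int.cast_zero, zero_mul, add_zero] at r3 r4
  have hT : (T0 ((TE lam t0 l : ℝ) : ℂ)).re = t0 := by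
    refine TE_inj lam h0.le hl1 l (by omega) _ _ r3 ?_
    rw [r3]
    intro h
    rw [h, abs_zero] at hsb
    linarith
  rw [hT] at r4
  obtain ⟨w1, -⟩ := word_at lam h0 hl1 l (N + 1) (l + N) (by omega) (by omega) (1 / 20)
    (by norm_num) t0 hg hsa
  have w2 := PP_shift lam h0.le hl1 (N + 1) (by omega)
    (TE lam t0 (l + N) - (fibz i0 j0 (N + 1) : ℝ) * Real.pi) (TE lam t0 l - j0 * Real.pi)
    hb0 ha0 i0 j0
  rw [sub_add_cancel, sub_add_cancel, w1, r4] at w2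
  rw [← w2]
  exact Complex.ext (by simp) (by simpa using r2)

theorem g61_one : ∃ R0 : ℝ, 0 < R0 ∧ R0 ≤ 1 / 80 ∧ ∀ R : ℝ, 0 < R → R ≤ R0 → ∀ Lst : ℝ, 1 ≤ Lst →
    ∃ C lam1 : ℝ, 1 ≤ C ∧ 0 < lam1 ∧ lam1 ≤ 1 / 100 ∧ ∀ lam : ℝ, 0 < lam → lam ≤ lam1 →
    ∀ N : ℕ, N % 4 = 0 →
      lam ^ (-(3 / 4) : ℝ) ≤ (Nat.fib N : ℝ) → (Nat.fib N : ℝ) ≤ lam ^ (-(4 / 5) : ℝ) →
    ∀ (l : ℕ) (i j i0 j0 : ℤ) (bc e S O : ℝ) (T0 p0 T1 p1 : ℂ → ℂ), 4 ≤ l →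
      Curve lam R l 0 0 bc T0 p0 → Curve lam R l i j bc T1 p1 →
      PairB R Lst e S O (bc : ℂ) T0 T1 p0 p1 →
      0 ≤ e → 0 ≤ S → 0 ≤ O → e ≤ lam ^ 2 → e * S ≤ 1 →
      ∀ (t0 t1 R2 : ℝ) (T0m p0m T1m p1m : ℂ → ℂ),
        |TE lam t0 l - bc| ≤ R / 8 →
        Good (1 / 20) (fun k => TE lam t0 k) l → Good (1 / 20) (fun k => TE lam t0 k) (l + N) →
        Good (1 / 20) (fun k => TE lam t1 k) (l + N) →
        28 / 100 * Real.pi ≤ TE lam t0 l - j0 * Real.pi →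
        TE lam t0 l - j0 * Real.pi ≤ 32 / 100 * Real.pi →
        25 / 100 * Real.pi ≤ TE lam t0 (l + N) - (fibz i0 j0 (N + 1) : ℝ) * Real.pi →
        TE lam t0 (l + N) - (fibz i0 j0 (N + 1) : ℝ) * Real.pi ≤ 35 / 100 * Real.pi →
        TE lam t1 (l + N) = TE lam t0 (l + N) + (fibz i j (N + 1) : ℝ) * Real.pi →
        0 < R2 → Curve lam R2 (l + N) 0 0 (TE lam t0 (l + N)) T0m p0m →
        Curve lam R2 (l + N) (fibz i j N) (fibz i j (N + 1)) (TE lam t0 (l + N)) T1m p1m →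
        ∃ b1 : ℝ, |b1 - TE lam t0 l| ≤ R / 64 ∧ |b1 - TE lam t0 l| ≤ lam ^ 2 ∧
          ‖p0 (TE lam t0 l : ℝ) + (((Nat.fib (N + 1) : ℝ) / (Nat.fib N : ℝ) : ℝ) : ℂ) *
            ((TE lam t0 l - j0 * Real.pi : ℝ) : ℂ) - ((i0 * Real.pi : ℝ) : ℂ)‖
            ≤ C / (Nat.fib N : ℝ) ∧
          ‖DD T0 T1 p0 p1 b1 + ((kap61 lam N
              (TE lam t0 (l + N) - (fibz i0 j0 (N + 1) : ℝ) * Real.pi)
              (TE lam t0 l - j0 * Real.pi) : ℝ) : ℂ)‖ ≤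
            3 / 10 * kap61 lam N (TE lam t0 (l + N) - (fibz i0 j0 (N + 1) : ℝ) * Real.pi)
              (TE lam t0 l - j0 * Real.pi)
            + ‖DD T0m T1m p0m p1m (TE lam t0 (l + N) : ℝ)‖ + lam ^ (-(1 / 4) : ℝ) / 100 := by
  obtain ⟨R0, lamp, hR0, hR01, hR0c, hlp, hlp1, hplog⟩ := pair_log (1 / 20) (by norm_num)
  refine ⟨R0, hR0, by linarith, fun R hR hRR Lst hL => ?_⟩
  obtain ⟨C1, e0, n0, hC1, he0, hn0, hpl⟩ := hplog (R / 8) (by positivity) (by linarith)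
  obtain ⟨Rk, lamk, hRk, hRk1, hlk, hlk1, hkk⟩ :=
    gain_KK (R / 8) C1 (by positivity) (by linarith) hC1
  obtain ⟨Ca, lama, hCa, hla, hla1, hasym⟩ := PP_asym
  obtain ⟨lams, hls, hsmall⟩ := g61_small e0 Rk (100 * (C1 * (1 + Lst) ^ 2 + C1 * (1 + Lst))) 0
    he0 hRk (Nat.fib n0)
  refine ⟨3 + Ca, min (min lamp lamk) (min lama lams), by linarith,
    lt_min (lt_min hlp hlk) (lt_min hla hls),
    ((min_le_left _ _).trans (min_le_left _ _)).trans hlp1, ?_⟩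
  intro lam h0 h1 N hN hf1 hf2 l i j i0 j0 bc e S O T0 p0 T1 p1 hl hc0 hc1 hB he hS hO he2 heS
    t0 t1 R2 T0m p0m T1m p1m hbc hg hgm hg1 hb1 hb2 ha1 ha2 ht1 hR2 hc0m hc1m
  have h1p : lam ≤ lamp := h1.trans ((min_le_left _ _).trans (min_le_left _ _))
  have h1k : lam ≤ lamk := h1.trans ((min_le_left _ _).trans (min_le_right _ _))
  have h1a : lam ≤ lama := h1.trans ((min_le_right _ _).trans (min_le_left _ _))
  have h1s : lam ≤ lams := h1.trans ((min_le_right _ _).trans (min_le_right _ _))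
  clear h1
  have hl1 : lam ≤ 1 / 100 := h1p.trans hlp1
  obtain ⟨s1, s2, s3, s4, -⟩ := hsmall lam h0 h1s
  have hNn : n0 ≤ N + 1 := by
    by_contra hcon
    push Not at hcon
    have h2 : Nat.fib N ≤ Nat.fib n0 := Nat.fib_mono (by omega)
    have h3 : (Nat.fib N : ℝ) ≤ Nat.fib n0 := by exact_mod_cast h2
    linarith only [h3, s3, hf1]
  have hsb : 1 / 20 ≤ |Real.sin (TE lam t0 l)| := hg.2 l (by omega) (by omega)
  have hsa : 1 / 20 ≤ |Real.sin (TE lam t0 (l + N))| := hgm.2 (l + N) (by omega) (by omega)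
  have hR8 : 0 < R / 8 := by positivity
  have rc0 := hc0.recenter hR hbc
  have rc1 := hc1.recenter hR hbc
  have rB := hB.recenter hR hbc
  obtain ⟨b1, P, U, T0x, p0x, T1x, p1x, q1, q2, q3, q4, q5, qW, qc0, qc1, q6, q7, q8, q9⟩ :=
    hpl lam h0 h1p l (N + 1) (l + N) hNn (by omega) i j t0 t1 Lst e S O T0 p0 T1 p1 hg hgm ht1 hg1
      (by linarith only [hL]) he hS hO (he2.trans s1) rc0 rc1 rB
  clear hpl
  rw [Nat.add_sub_cancel] at qc1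
  have hb1mem : (b1 : ℂ) ∈ ball ((TE lam t0 l : ℝ) : ℂ) (R / 8) := by
    rw [mem_ball, dist_eq_norm, ← Complex.ofReal_sub, Complex.norm_real, Real.norm_eq_abs]
    linarith only [q1, hR8]
  have hbe : |b1 - TE lam t0 l| ≤ lam ^ 2 := q2.trans (((rB.ne b1 hb1mem).2).trans he2)
  have hpi := Real.pi_gt_three
  have hpi4 : Real.pi < 3.15 := Real.pi_lt_d2
  refine ⟨b1, by linarith only [q1], hbe, ?_, ?_⟩
  · have hb0 : Real.sin (TE lam t0 l - j0 * Real.pi) ≠ 0 :=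
      (Real.sin_pos_of_pos_of_lt_pi (by linarith only [hb1, hpi]) (by linarith only [hb2, hpi])).ne'
    have ha0 : Real.sin (TE lam t0 (l + N) - (fibz i0 j0 (N + 1) : ℝ) * Real.pi) ≠ 0 :=
      (Real.sin_pos_of_pos_of_lt_pi (by linarith only [ha1, hpi]) (by linarith only [ha2, hpi])).ne'
    have hfp : 0 < (Nat.fib N : ℝ) := lt_of_lt_of_le (Real.rpow_pos_of_pos h0 _) hf1
    rw [g61_p0 lam h0 hl1 l N hl (by omega) i0 j0 (R / 8) t0 hR8 T0 p0 rc0 hg hsb hsa hb0 ha0,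
      ← Complex.ofReal_mul, ← Complex.ofReal_add, ← Complex.ofReal_sub, Complex.norm_real,
      Real.norm_eq_abs]
    obtain ⟨w3, -⟩ := hasym lam h0 h1a N hN hf1 hf2
      (TE lam t0 (l + N) - (fibz i0 j0 (N + 1) : ℝ) * Real.pi) (TE lam t0 l - j0 * Real.pi)
      (by linarith only [ha1, hpi]) (by linarith only [ha2, hpi]) (by linarith only [hb1, hpi])
      (by linarith only [hb2, hpi])
    have w4 := g61_real1 lam (Nat.fib N) (Nat.fib (N + 1)) _ _ _ Ca h0 hl1 hfp hf2 hCa ha1 ha2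
      hb1 w3
    refine le_trans (le_of_eq ?_) w4
    congr 1
    ring
  · have hmin : 0 < min R2 (R / 8) := lt_min hR2 (by positivity)
    have hs : ∀ x : ℝ, |x - TE lam t0 (l + N)| < min R2 (R / 8) → Real.sin x ≠ 0 := fun x hx =>
      g61_sin_ne hsa (by linarith only [hRR, hR0c, hR8] : R / 8 ≤ 1 / 40)
        (lt_of_lt_of_le hx (min_le_right _ _))
    have u0 := curve_unique lam (min R2 (R / 8)) h0 hl1 (l + N) (by omega) 0 0
      (TE lam t0 (l + N)) hs T0m p0m T0x p0x (hc0m.mono hmin (min_le_left _ _))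
      (qc0.mono hmin (min_le_right _ _))
    have u1 := curve_unique lam (min R2 (R / 8)) h0 hl1 (l + N) (by omega) _ _
      (TE lam t0 (l + N)) hs T1m p1m T1x p1x (hc1m.mono hmin (min_le_left _ _))
      (qc1.mono hmin (min_le_right _ _))
    have u2 := g61_DD_congr hmin u0 u1
    have hodd : ((-1 : ℂ)) ^ (N + 1) = -1 := Odd.neg_one_pow (by
      rw [Nat.odd_iff]; omega)
    rw [← u2, hodd] at q9
    obtain ⟨x1, -⟩ := hkk lam h0 h1k N hN hf1 hf2 i0 j0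
      (TE lam t0 (l + N) - (fibz i0 j0 (N + 1) : ℝ) * Real.pi) (TE lam t0 l - j0 * Real.pi) P U
      ha1 ha2 hb1 hb2 (by rw [sub_add_cancel, sub_add_cancel]; exact qW)
    have x2 := x1 (TE lam t0 l - j0 * Real.pi) (b1 - j0 * Real.pi)
      (fun h => q4 (by linarith only [h])) (by rw [sub_self, abs_zero]; exact hRk)
      (by
        have : b1 - j0 * Real.pi - (TE lam t0 l - j0 * Real.pi) = b1 - TE lam t0 l := by ring
        rw [this]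
        linarith only [hbe, s2])
    rw [sub_add_cancel, sub_add_cancel, sub_add_cancel] at x2
    exact g61_real2 _ _ _ _ _ C1 Lst e S _ hC1 hL heS s4 x2 q9

theorem g61_fib (N : ℕ) (hN : N % 4 = 0) (h : 0 < Nat.fib N) :
    5 * (Nat.fib N : ℝ) ≤ (Nat.fib (N + 4) : ℝ) ∧
    |(Nat.fib (N + 1) : ℝ) / (Nat.fib N : ℝ) - (Nat.fib (N + 4 + 1) : ℝ) / (Nat.fib (N + 4) : ℝ)|
      ≤ 3 / (Nat.fib N : ℝ) ∧ (1 : ℝ) ≤ (Nat.fib (N + 1) : ℝ) / (Nat.fib N : ℝ) := by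
  have e2 : Nat.fib (N + 2) = Nat.fib N + Nat.fib (N + 1) := Nat.fib_add_two
  have e3 : Nat.fib (N + 3) = Nat.fib (N + 1) + Nat.fib (N + 2) := Nat.fib_add_two
  have e4 : Nat.fib (N + 4) = Nat.fib (N + 2) + Nat.fib (N + 3) := Nat.fib_add_two
  have e5 : Nat.fib (N + 4 + 1) = Nat.fib (N + 3) + Nat.fib (N + 4) := Nat.fib_add_two
  have hm : Nat.fib N ≤ Nat.fib (N + 1) := Nat.fib_le_fib_succ
  have hdet : (Nat.fib (N + 1) : ℤ) ^ 2 - Nat.fib N * Nat.fib (N + 1) - (Nat.fib N : ℤ) ^ 2 = 1 := by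
    have key : ∀ n : ℕ, (Nat.fib (2 * n + 1) : ℤ) ^ 2 - Nat.fib (2 * n) * Nat.fib (2 * n + 1)
        - (Nat.fib (2 * n) : ℤ) ^ 2 = 1 := by
      intro n
      induction n with
      | zero => simp
      | succ n ih =>
        have a1 : Nat.fib (2 * (n + 1)) = Nat.fib (2 * n) + Nat.fib (2 * n + 1) := by
          rw [show 2 * (n + 1) = 2 * n + 2 by ring]; exact Nat.fib_add_two
        have a2 : Nat.fib (2 * (n + 1) + 1) = Nat.fib (2 * n + 1) + Nat.fib (2 * (n + 1)) := by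
          rw [show 2 * (n + 1) + 1 = (2 * n + 1) + 2 by ring,
            show 2 * (n + 1) = 2 * n + 1 + 1 by ring]
          exact Nat.fib_add_two
        rw [a2, a1]
        push_cast
        linear_combination ih
    obtain ⟨n, rfl⟩ : ∃ n, N = 2 * n := ⟨N / 2, by omega⟩
    exact key n
  have c2 : (Nat.fib (N + 2) : ℝ) = Nat.fib N + Nat.fib (N + 1) := by exact_mod_cast e2
  have c3 : (Nat.fib (N + 3) : ℝ) = Nat.fib (N + 1) + Nat.fib (N + 2) := by exact_mod_cast e3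
  have c4 : (Nat.fib (N + 4) : ℝ) = Nat.fib (N + 2) + Nat.fib (N + 3) := by exact_mod_cast e4
  have c5 : (Nat.fib (N + 4 + 1) : ℝ) = Nat.fib (N + 3) + Nat.fib (N + 4) := by exact_mod_cast e5
  have cm : (Nat.fib N : ℝ) ≤ Nat.fib (N + 1) := by exact_mod_cast hm
  have cd : (Nat.fib (N + 1) : ℝ) ^ 2 - Nat.fib N * Nat.fib (N + 1) - (Nat.fib N : ℝ) ^ 2 = 1 := by
    exact_mod_cast hdet
  have cp : (1 : ℝ) ≤ Nat.fib N := by exact_mod_cast h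
  set x := (Nat.fib N : ℝ)
  set y := (Nat.fib (N + 1) : ℝ)
  have hx : 0 < x := by linarith
  have h4 : 5 * x ≤ (Nat.fib (N + 4) : ℝ) := by rw [c4, c3, c2]; linarith
  refine ⟨h4, ?_, ?_⟩
  · have h4p : 0 < (Nat.fib (N + 4) : ℝ) := by linarith
    have e : y / x - (Nat.fib (N + 4 + 1) : ℝ) / (Nat.fib (N + 4) : ℝ) =
        3 / (x * (Nat.fib (N + 4) : ℝ)) := by
      rw [div_sub_div _ _ hx.ne' h4p.ne']
      congr 1
      rw [c5, c4, c3, c2]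
      linear_combination 3 * cd
    rw [e, abs_of_nonneg (by positivity)]
    gcongr
    nlinarith
  · rw [le_div_iff₀ hx]
    linarith

theorem g61_kap (lam f f' a b a' b' : ℝ) (h0 : 0 < lam) (hf1 : lam ^ (-(3 / 4) : ℝ) ≤ f)
    (hff : 5 * f ≤ f') (ha1 : 25 / 100 * Real.pi ≤ a) (ha2 : a ≤ 35 / 100 * Real.pi)
    (hb1 : 28 / 100 * Real.pi ≤ b) (hb2 : b ≤ 32 / 100 * Real.pi)
    (ha1' : 25 / 100 * Real.pi ≤ a') (ha2' : a' ≤ 35 / 100 * Real.pi)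
    (hb1' : 28 / 100 * Real.pi ≤ b') (hb2' : b' ≤ 32 / 100 * Real.pi) :
    lam ^ (-(1 / 4) : ℝ) / 3 ≤ lam ^ 2 * f ^ 3 / (2 * a ^ 3 * b ^ 3) ∧
    30 * (lam ^ 2 * f ^ 3 / (2 * a ^ 3 * b ^ 3)) ≤ lam ^ 2 * f' ^ 3 / (2 * a' ^ 3 * b' ^ 3) := by
  have hpi := Real.pi_gt_three
  have hpi4 : Real.pi < 3.15 := Real.pi_lt_d2
  have ha : 0 < a := by linarith
  have hb : 0 < b := by linarith
  have ha' : 0 < a' := by linarith
  have hb' : 0 < b' := by linarith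
  have hfp : 0 < f := lt_of_lt_of_le (Real.rpow_pos_of_pos h0 _) hf1
  constructor
  · have k1 : lam ^ 2 * (lam ^ (-(3 / 4) : ℝ)) ^ 3 = lam ^ (-(1 / 4) : ℝ) := by
      rw [← Real.rpow_natCast (lam ^ (-(3 / 4) : ℝ)) 3, ← Real.rpow_mul h0.le,
        ← Real.rpow_natCast lam 2, ← Real.rpow_add h0]
      norm_num
    have k2 : lam ^ (-(1 / 4) : ℝ) ≤ lam ^ 2 * f ^ 3 := by
      rw [← k1]
      have : 0 ≤ lam ^ (-(3 / 4) : ℝ) := Real.rpow_nonneg h0.le _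
      gcongr
    have k3 : 2 * a ^ 3 * b ^ 3 ≤ 3 := by
      have e : 2 * a ^ 3 * b ^ 3 = 2 * (a * b) ^ 3 := by ring
      have hab : a * b ≤ 1.112 := by
        have : a * b ≤ 1.1025 * 1.008 := by
          apply mul_le_mul _ _ hb.le (by norm_num)
          · linarith
          · linarith
        linarith
      rw [e]
      have hab0 : 0 ≤ a * b := by positivity
      have : (a * b) ^ 3 ≤ 1.112 ^ 3 := by gcongr
      linarith
    rw [div_le_div_iff₀ (by norm_num) (by positivity)]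
    have hA : 0 ≤ lam ^ (-(1 / 4) : ℝ) := Real.rpow_nonneg h0.le _
    calc lam ^ (-(1 / 4) : ℝ) * (2 * a ^ 3 * b ^ 3) ≤ lam ^ (-(1 / 4) : ℝ) * 3 := by gcongr
      _ ≤ lam ^ 2 * f ^ 3 * 3 := by gcongr
  · have k1 : (a' * b') ^ 3 ≤ (8 / 5 * (a * b)) ^ 3 := by
      have e1 : a' ≤ 7 / 5 * a := by linarith
      have e2 : b' ≤ 8 / 7 * b := by linarith
      have e3 : a' * b' ≤ (7 / 5 * a) * (8 / 7 * b) := by gcongr
      have e4 : (7 / 5 * a) * (8 / 7 * b) = 8 / 5 * (a * b) := by ring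
      rw [e4] at e3
      gcongr
    have k2 : (5 * f) ^ 3 ≤ f' ^ 3 := by gcongr
    have e5 : 30 * (lam ^ 2 * f ^ 3 / (2 * a ^ 3 * b ^ 3)) = 30 * (lam ^ 2 * f ^ 3)
        / (2 * (a * b) ^ 3) := by
      rw [← mul_div_assoc]
      congr 1
      ring
    have e6 : lam ^ 2 * f' ^ 3 / (2 * a' ^ 3 * b' ^ 3) = lam ^ 2 * f' ^ 3 / (2 * (a' * b') ^ 3) := by
      congr 1
      ring
    rw [e5, e6, div_le_div_iff₀ (by positivity) (by positivity)]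
    have k3 : 30 * (lam ^ 2 * f ^ 3) * (2 * (a' * b') ^ 3) ≤
        30 * (lam ^ 2 * f ^ 3) * (2 * (8 / 5 * (a * b)) ^ 3) := by gcongr
    have k4 : lam ^ 2 * (5 * f) ^ 3 * (2 * (a * b) ^ 3) ≤ lam ^ 2 * f' ^ 3 * (2 * (a * b) ^ 3) := by
      gcongr
    refine k3.trans (le_trans ?_ k4)
    have hpos : 0 ≤ lam ^ 2 * f ^ 3 * (a * b) ^ 3 := by positivity
    have e7 : 30 * (lam ^ 2 * f ^ 3) * (2 * (8 / 5 * (a * b)) ^ 3)
        = 245.76 * (lam ^ 2 * f ^ 3 * (a * b) ^ 3) := by ring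
    have e8 : lam ^ 2 * (5 * f) ^ 3 * (2 * (a * b) ^ 3)
        = 250 * (lam ^ 2 * f ^ 3 * (a * b) ^ 3) := by ring
    rw [e7, e8]
    gcongr
    norm_num

/-- Distance of the two base points. -/
theorem g61_dist {p : ℂ → ℂ} {c : ℂ} {r : ℝ} (dp : DifferentiableOn ℂ p (ball c r))
    (hs : ∀ b ∈ ball c r, ‖deriv p b - 3 / 4‖ ≤ 3 / 10) (rho rho' f f' C : ℝ) (hrho : 1 ≤ rho)
    (hf : 0 < f) (hff : f ≤ f') (hC : 0 ≤ C) (hr : |rho - rho'| ≤ 3 / f) (x y s : ℝ) (ii : ℂ)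
    (hx : (x : ℂ) ∈ ball c r) (hy : (y : ℂ) ∈ ball c r) (hys : |y - s| ≤ 2)
    (h1 : ‖p x + (rho : ℂ) * ((x - s : ℝ) : ℂ) - ii‖ ≤ C / f)
    (h2 : ‖p y + (rho' : ℂ) * ((y - s : ℝ) : ℂ) - ii‖ ≤ C / f') :
    |x - y| ≤ (2 * C + 6) / f := by
  have h3 := g61_low dp hs rho hrho x y hx hy
  have h4 : (p x - p y) + rho * ((x : ℂ) - y) = (p x + (rho : ℂ) * ((x - s : ℝ) : ℂ) - ii)
      - (p y + (rho' : ℂ) * ((y - s : ℝ) : ℂ) - ii)
      - ((rho - rho' : ℝ) : ℂ) * ((y - s : ℝ) : ℂ) := by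
    push_cast
    ring
  have h5 : ‖((rho - rho' : ℝ) : ℂ) * ((y - s : ℝ) : ℂ)‖ ≤ 3 / f * 2 := by
    rw [norm_mul, Complex.norm_real, Complex.norm_real, Real.norm_eq_abs, Real.norm_eq_abs]
    exact mul_le_mul hr hys (abs_nonneg _) (by positivity)
  have h6 : C / f' ≤ C / f := by gcongr
  have h7 : ‖(x : ℂ) - y‖ = |x - y| := by
    rw [← Complex.ofReal_sub, Complex.norm_real, Real.norm_eq_abs]
  rw [h7, h4] at h3
  have h8 : (2 * C + 6) / f = C / f + C / f + 3 / f * 2 := by ring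
  rw [h8]
  refine h3.trans ((norm_sub_le _ _).trans (add_le_add ((norm_sub_le _ _).trans
    (add_le_add h1 (h2.trans h6))) h5))

theorem g61_final (D1 D2 : ℂ) (k1 k2 A : ℝ) (hA : 0 < A) (h1 : A / 3 ≤ k1) (h2 : 30 * k1 ≤ k2)
    (x1 : ‖D1 + (k1 : ℂ)‖ ≤ 3 / 10 * k1 + A / 100 + A / 100)
    (x2 : ‖D2 + (k2 : ℂ)‖ ≤ 3 / 10 * k2 + A / 100 + A / 100)
    (x3 : ‖D1 - D2‖ ≤ A / 100) : False := by
  have h3 : ((k2 - k1 : ℝ) : ℂ) = (D2 + (k2 : ℂ)) - (D1 + (k1 : ℂ)) + (D1 - D2) := by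
    push_cast
    ring
  have h4 : k2 - k1 ≤ ‖((k2 - k1 : ℝ) : ℂ)‖ := by
    rw [Complex.norm_real]
    exact le_abs_self _
  rw [h3] at h4
  have h5 : ‖(D2 + (k2 : ℂ)) - (D1 + (k1 : ℂ)) + (D1 - D2)‖ ≤
      ‖D2 + (k2 : ℂ)‖ + ‖D1 + (k1 : ℂ)‖ + ‖D1 - D2‖ :=
    (norm_add_le _ _).trans (by gcongr; exact norm_sub_le _ _)
  linarith

theorem gain : ∃ R0 : ℝ, 0 < R0 ∧ ∀ R : ℝ, 0 < R → R ≤ R0 → ∀ Lst : ℝ, 1 ≤ Lst →
    ∃ lam1 : ℝ, 0 < lam1 ∧ lam1 ≤ 1 / 100 ∧ ∀ lam : ℝ, 0 < lam → lam ≤ lam1 → ∀ N0 : ℕ, N0 % 4 = 0 →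
      lam ^ (-(3 / 4) : ℝ) ≤ (Nat.fib N0 : ℝ) → (Nat.fib (N0 + 4) : ℝ) ≤ lam ^ (-(4 / 5) : ℝ) →
    ∀ (l : ℕ) (i j i0 j0 : ℤ) (bc e S O : ℝ) (T0 p0 T1 p1 : ℂ → ℂ), 4 ≤ l →
      Curve lam R l 0 0 bc T0 p0 → Curve lam R l i j bc T1 p1 →
      PairB R Lst e S O (bc : ℂ) T0 T1 p0 p1 →
      0 ≤ e → 0 ≤ S → 0 ≤ O → O ≤ lam ^ (-(91 / 100) : ℝ) → e ≤ lam ^ 2 → e * S ≤ 1 →
      ∃ N : ℕ, (N = N0 ∨ N = N0 + 4) ∧ ∀ (t0 t1 R2 : ℝ) (T0m p0m T1m p1m : ℂ → ℂ),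
        |TE lam t0 l - bc| ≤ R / 8 →
        Good (1 / 20) (fun k => TE lam t0 k) l → Good (1 / 20) (fun k => TE lam t0 k) (l + N) →
        Good (1 / 20) (fun k => TE lam t1 k) (l + N) →
        28 / 100 * Real.pi ≤ TE lam t0 l - j0 * Real.pi →
        TE lam t0 l - j0 * Real.pi ≤ 32 / 100 * Real.pi →
        25 / 100 * Real.pi ≤ TE lam t0 (l + N) - (fibz i0 j0 (N + 1) : ℝ) * Real.pi →
        TE lam t0 (l + N) - (fibz i0 j0 (N + 1) : ℝ) * Real.pi ≤ 35 / 100 * Real.pi →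
        TE lam t1 (l + N) = TE lam t0 (l + N) + (fibz i j (N + 1) : ℝ) * Real.pi →
        0 < R2 → Curve lam R2 (l + N) 0 0 (TE lam t0 (l + N)) T0m p0m →
        Curve lam R2 (l + N) (fibz i j N) (fibz i j (N + 1)) (TE lam t0 (l + N)) T1m p1m →
        lam ^ (-(1 / 4) : ℝ) / 100 ≤ ‖DD T0m T1m p0m p1m (TE lam t0 (l + N) : ℝ)‖ := by
  obtain ⟨R0, hR0, hR01, hone⟩ := g61_one
  refine ⟨R0, hR0, fun R hR hRR Lst hL => ?_⟩
  obtain ⟨C, lam0, hC, hl0, hl01, hone'⟩ := hone R hR hRR Lst hL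
  obtain ⟨lams, hls, hsmall⟩ := g61_small 1 1 0 (800 * (2 * C + 8) / R) one_pos one_pos 0
  refine ⟨min lam0 lams, lt_min hl0 hls, (min_le_left _ _).trans hl01, ?_⟩
  intro lam h0 h1 N0 hN hf1 hf2 l i j i0 j0 bc e S O T0 p0 T1 p1 hl hc0 hc1 hB he hS hO hO2 he2 heS
  by_contra hcon
  push Not at hcon
  obtain ⟨t0, t1, R2, T0m, p0m, T1m, p1m, a1, a2, a3, a4, a5, a6, a7, a8, a9, a10, a11, a12, a13⟩ :=
    hcon N0 (Or.inl rfl)
  obtain ⟨u0, u1, R3, T0n, p0n, T1n, p1n, c1, c2, c3, c4, c5, c6, c7, c8, c9, c10, c11, c12,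
    c13⟩ := hcon (N0 + 4) (Or.inr rfl)
  clear hcon
  have hl0' : lam ≤ lam0 := h1.trans (min_le_left _ _)
  have hl1' : lam ≤ 1 / 100 := hl0'.trans hl01
  obtain ⟨-, -, -, -, s5⟩ := hsmall lam h0 (h1.trans (min_le_right _ _))
  clear hsmall
  have hfp : 0 < (Nat.fib N0 : ℝ) := lt_of_lt_of_le (Real.rpow_pos_of_pos h0 _) hf1
  have hfN : 0 < Nat.fib N0 := by exact_mod_cast hfp
  obtain ⟨f1, f2, f3⟩ := g61_fib N0 hN hfN
  obtain ⟨b1, x1, x2, x3, x4⟩ := hone' lam h0 hl0' N0 hN hf1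
    (by linarith only [f1, hf2, hfp]) l i j i0 j0 bc e S O T0 p0 T1 p1 hl hc0
    hc1 hB he hS hO he2 heS t0 t1 R2 T0m p0m T1m p1m a1 a2 a3 a4 a5 a6 a7 a8 a9 a10 a11 a12
  obtain ⟨b2, y1, y2, y3, y4⟩ := hone' lam h0 hl0' (N0 + 4) (by omega)
    (by linarith only [f1, hf1, hfp]) hf2 l i j i0 j0 bc e S O T0 p0 T1 p1 hl hc0
    hc1 hB he hS hO he2 heS u0 u1 R3 T0n p0n T1n p1n c1 c2 c3 c4 c5 c6 c7 c8 c9 c10 c11 c12
  clear hone'
  have hmem : ∀ x r : ℝ, |x - bc| < r → (x : ℂ) ∈ ball (bc : ℂ) r := by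
    intro x r h
    rw [mem_ball, dist_eq_norm, ← Complex.ofReal_sub, Complex.norm_real, Real.norm_eq_abs]
    exact h
  have hpi := Real.pi_gt_three
  have hpi4 : Real.pi < 3.15 := Real.pi_lt_d2
  have d1 : |TE lam t0 l - TE lam u0 l| ≤ (2 * C + 6) / (Nat.fib N0 : ℝ) :=
    g61_dist hc0.dp hc0.slope _ _ (Nat.fib N0) (Nat.fib (N0 + 4)) C f3 hfp
      (by linarith only [f1, hfp]) (by linarith only [hC]) f2 (TE lam t0 l) (TE lam u0 l)
      (j0 * Real.pi) ((i0 * Real.pi : ℝ) : ℂ)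
      (hmem _ _ (by linarith only [a1, hR])) (hmem _ _ (by linarith only [c1, hR]))
      (by rw [abs_le]; constructor <;> linarith only [c5, c6, hpi, hpi4]) x3 y3
  have hinv : 1 / (Nat.fib N0 : ℝ) ≤ lam ^ (3 / 4 : ℝ) := by
    have h3 : lam ^ (3 / 4 : ℝ) = 1 / lam ^ (-(3 / 4) : ℝ) := by
      rw [Real.rpow_neg h0.le, one_div, inv_inv]
    rw [h3]
    have := Real.rpow_pos_of_pos h0 (-(3 / 4) : ℝ)
    gcongr
  have hlam2 : lam ^ 2 ≤ lam ^ (3 / 4 : ℝ) := by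
    rw [← Real.rpow_natCast]
    exact Real.rpow_le_rpow_of_exponent_ge h0 (by linarith only [hl1']) (by norm_num)
  have d2 : |b1 - b2| ≤ (2 * C + 8) * lam ^ (3 / 4 : ℝ) := by
    have e1 : b1 - b2 = (b1 - TE lam t0 l) + (TE lam t0 l - TE lam u0 l)
        - (b2 - TE lam u0 l) := by ring
    have e2 : (2 * C + 6) / (Nat.fib N0 : ℝ) ≤ (2 * C + 6) * lam ^ (3 / 4 : ℝ) := by
      rw [div_eq_mul_one_div]
      gcongr
    rw [e1]
    have e3 := abs_sub ((b1 - TE lam t0 l) + (TE lam t0 l - TE lam u0 l)) (b2 - TE lam u0 l)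
    have e4 := abs_add_le (b1 - TE lam t0 l) (TE lam t0 l - TE lam u0 l)
    linarith only [e3, e4, e2, x2, y2, d1, hlam2]
  have hd : DifferentiableOn ℂ (fun b => DD T0 T1 p0 p1 b) (ball (bc : ℂ) (R / 2)) := by
    have hsub : ball (bc : ℂ) (R / 2) ⊆ ball (bc : ℂ) R := ball_subset_ball (by linarith only [hR])
    exact g61_DD_diff (hc0.dT.mono hsub) (hc1.dT.mono hsub) (hc0.dp.mono hsub) (hc1.dp.mono hsub)
      (fun b hb => hc0.Tne b (hsub hb)) (fun b hb => hc1.Tne b (hsub hb))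
      (fun b hb => (hB.ne b (hsub hb)).1)
  have hR2' : 0 < R / 2 := by positivity
  have hb1c : |b1 - bc| < R / 2 / 2 := by
    have e1 : b1 - bc = (b1 - TE lam t0 l) + (TE lam t0 l - bc) := by ring
    rw [e1]
    refine lt_of_le_of_lt (abs_add_le _ _) ?_
    linarith only [x1, a1, hR]
  have hb2c : |b2 - bc| < R / 2 / 2 := by
    have e1 : b2 - bc = (b2 - TE lam u0 l) + (TE lam u0 l - bc) := by ring
    rw [e1]
    refine lt_of_le_of_lt (abs_add_le _ _) ?_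
    linarith only [y1, c1, hR]
  have d3 := P2h16.lip hR2' hd (DD T0 T1 p0 p1 bc) O
    (fun z hz => hB.osc z hz bc (mem_ball_self hR2')) b1 (hmem _ _ hb1c) b2 (hmem _ _ hb2c)
  rw [← Complex.ofReal_sub, Complex.norm_real, Real.norm_eq_abs] at d3
  have d4 : ‖DD T0 T1 p0 p1 b1 - DD T0 T1 p0 p1 b2‖ ≤ lam ^ (-(1 / 4) : ℝ) / 100 := by
    refine d3.trans ?_
    have e1 : 4 * O / (R / 2) * |b1 - b2| ≤ 8 * lam ^ (-(91 / 100) : ℝ) / R *
        ((2 * C + 8) * lam ^ (3 / 4 : ℝ)) := by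
      have e2 : 4 * O / (R / 2) = 8 * O / R := by
        field_simp
        ring
      rw [e2]
      have := Real.rpow_nonneg h0.le (-(91 / 100) : ℝ)
      gcongr
    refine e1.trans ?_
    have e3 : lam ^ (-(91 / 100) : ℝ) * lam ^ (3 / 4 : ℝ) = lam ^ (-(4 / 25) : ℝ) := by
      rw [← Real.rpow_add h0]
      norm_num
    have e4 : lam ^ (-(1 / 4) : ℝ) = lam ^ (-(9 / 100) : ℝ) * lam ^ (-(4 / 25) : ℝ) := by
      rw [← Real.rpow_add h0]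
      norm_num
    have e5 : 8 * lam ^ (-(91 / 100) : ℝ) / R * ((2 * C + 8) * lam ^ (3 / 4 : ℝ)) =
        (800 * (2 * C + 8) / R) * (lam ^ (-(91 / 100) : ℝ) * lam ^ (3 / 4 : ℝ)) / 100 := by ring
    rw [e5, e3, e4]
    have := Real.rpow_nonneg h0.le (-(4 / 25) : ℝ)
    gcongr
  obtain ⟨k1, k2⟩ := g61_kap lam (Nat.fib N0) (Nat.fib (N0 + 4)) _ _ _ _ h0 hf1 f1 a7 a8 a5 a6
    c7 c8 c5 c6
  exact g61_final _ _ _ _ (lam ^ (-(1 / 4) : ℝ)) (Real.rpow_pos_of_pos h0 _) k1 k2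
    (x4.trans (by unfold kap61; linarith only [a13])) (y4.trans (by unfold kap61; linarith only [c13])) d4

end SF
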