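import Pool.Agent.Helper65.SF.BKDefs
import Pool.Agent.Helper65.SF.GAIN
import Pool.Agent.Helper65.SF.KI
import Pool.Agent.Helper65.SF.BG

/-!
# SF-BK: every controlled node contains a dead interval (assembly)

Proof in words.  `A = 2 log 10`, `c = 1/10`.  R00 = minimum of the radii of `gain`, `kill_interval` (and 1/80); `pair_exists R00` gives
`R, lam1, e1, Lst, C4, K`.  `gain` and `kill_interval` with this R, Lst.  `star_geo` with `eps` small compared to R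
(`pi eps <= R/20`) and `eps <= 1/1000` gives G, N1.  For lam small let N0 be the least multiple of 4 with `lam^(-3/4) <= fib N0`; then
`fib N0 <= 7 lam^(-3/4)`, `fib (N0+4) <= 49 lam^(-3/4)`.  `T1 = G + N0 + 4`.  l1 large depending on lam.
Let k, i be as in the theorem, `l = k + G`, a, b, sc from `star_geo`.
(1) Path predicate `g q = (q <= k and goodN q (anc jL q k i)) or q = l or q = m`, `m = l + N`; for all s in the node i with
  `LG (1/6) l s`, `LG (1/7) m s` we have `g q -> LG (1/11) q s` (`LG_of_goodN`).  The debt of g at l is at most `debt at k + A (G+1)`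
  (`A runS <= debtS`), so `O <= C4 exp (A (G+1)) lam^(-9/10) <= lam^(-91/100)`; at m it is at most `A (N + G + 2) + 0.9 log (1/lam)`.
  `e = exp (-(2/5)(l-l0))` with `l - l0 >= 2 l0`, l0 >= l1(lam), is at most `lam^2`, and `e S <= 1` at l and at m.
(2) `pair_exists` with `n := l`, `s := sc`: centre `bc = TE lam (EE lam l sc) l = pi fib l sc`; `gain` with `i = JJ (l-1)`, `j = JJ l`,
  `i0 = b`, `j0 = a` gives N.
(3) `pair_exists` with `n := m`, for every s with `fib m s - Z in [25/100, 35/100]` (`Z = fibz b a (N+1)`): the centre is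
  `pi fib m s`; `gain` applies to `t0 = EE lam m s` (`TE_near`, `good_first`, `second_point` for t1, `|TE t0 l - bc| <= pi eps + 400 sqrt lam`),
  so `‖DD‖ >= lam^(-1/4)/100` at the centre; `del_lower` gives `r <= ‖p1 - p0‖` at the centre.
  The number w: for s in this interval `s + d fib (n-1)/fib n` is not an integer (otherwise `fib m s` would be within e1 of an
  integer by `sh_level`), so `w = floor` is constant on the interval and `0 < sh n d w s < 1`; also `0 < sh m d w s < 1` since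
  `fib m sh m = fib m s + JJ m` is not near an integer and within e1 of `fib m sh n` in `(0, fib m)`.
(4) `kill_interval` from level m to level n (`n := n - m + 1 >= n0`) on `[x0,x1] = [pi (Z + 255/1000), pi (Z + 345/1000)]`, `D1 = lam^(-1/4)/100`: y.
  For s with `fib m s - Z in [26/100, 34/100]`, `LG (1/11) n s` and `|Gr| <= r`: `t0 = EE lam n s`, `t1 = EE lam n s'`: hypotheses by
  `good_first`, `second_point` at level n and `TE_inj`, `sh_self`; so `|TE t0 m - y| <= C7/D1` and `|pi fib m s - y| <= C7/D1 + 200 sqrt lam`, at most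
  1/100.  So one of the two components of the interval `[26/100,34/100]` minus an interval of length `2/(100 pi)` has length
  at least `3/100`: this is `[u,v]` (divided by `fib m`, `m <= k + T1`).
-/

namespace SF

/-! ### Debt -/

theorem bk_run_le (g : ℕ → Prop) (ks : ℕ) (A c B0 : ℝ) (hB : 0 ≤ B0) :
    ∀ r, A * (runS g ks r : ℝ) ≤ debtS g ks A c B0 r := by
  intro r
  induction r with
  | zero => simpa [runS, debtS] using hB
  | succ r ih =>
    by_cases h : g (ks + (r + 1))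
    · simp only [runS, debtS, if_pos h]
      simp
    · simp only [runS, debtS, if_neg h]
      exact le_max_right _ _

theorem bk_debt_nonneg (g : ℕ → Prop) (ks : ℕ) (A c B0 : ℝ) (hB : 0 ≤ B0) :
    ∀ r, 0 ≤ debtS g ks A c B0 r := by
  intro r
  induction r with
  | zero => simpa [debtS] using hB
  | succ r ih =>
    by_cases h : g (ks + (r + 1))
    · simp only [debtS, if_pos h]
      exact le_max_left _ _
    · simp only [debtS, if_neg h]
      exact ih.trans (le_max_left _ _)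

theorem bk_debt_up (g : ℕ → Prop) (ks : ℕ) (A c B0 : ℝ) (hA : 0 ≤ A) (hB : 0 ≤ B0) (r : ℕ) :
    ∀ m, (∀ q, r < q → q ≤ r + m → ¬ g (ks + q)) →
      runS g ks (r + m) = runS g ks r + m ∧
      debtS g ks A c B0 (r + m) ≤ debtS g ks A c B0 r + A * m := by
  intro m
  induction m with
  | zero => intro _; simp
  | succ m ih =>
    intro h
    obtain ⟨h1, h2⟩ := ih fun q hq1 hq2 => h q hq1 (by omega)
    have h3 : ¬ g (ks + (r + m + 1)) := h (r + m + 1) (by omega) (by omega)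
    have e1 : runS g ks (r + (m + 1)) = runS g ks r + (m + 1) := by
      change runS g ks (r + m + 1) = _
      simp only [runS, if_neg h3]
      rw [h1]
      omega
    refine ⟨e1, ?_⟩
    change debtS g ks A c B0 (r + m + 1) ≤ _
    simp only [debtS, if_neg h3]
    have h4 := bk_run_le g ks A c B0 hB r
    have e2 : runS g ks (r + m + 1) = runS g ks r + (m + 1) := e1
    rw [e2]
    push_cast
    apply max_le
    · nlinarith
    · nlinarith

/-- Next good level. -/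
theorem bk_debt_next (g : ℕ → Prop) (ks : ℕ) (A c B0 : ℝ) (hA : 0 ≤ A) (hc : 0 ≤ c) (hB : 0 ≤ B0)
    (r r' : ℕ) (hr : r < r') (h : ∀ q, r < q → q < r' → ¬ g (ks + q)) (hg : g (ks + r')) :
    debtS g ks A c B0 r' ≤ debtS g ks A c B0 r + A * ((r' - r : ℕ) : ℝ) := by
  obtain ⟨m, rfl⟩ : ∃ m, r' = r + m + 1 := ⟨r' - r - 1, by omega⟩
  obtain ⟨_, h2⟩ := bk_debt_up g ks A c B0 hA hB r m fun q hq1 hq2 => h q hq1 (by omega)
  simp only [debtS, if_pos (show g (ks + (r + m + 1)) from hg)]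
  have h3 := bk_debt_nonneg g ks A c B0 hB r
  have e1 : r + m + 1 - r = m + 1 := by omega
  rw [e1]
  push_cast
  apply max_le
  · positivity
  · nlinarith

/-! ### Fibonacci numbers -/

theorem bk_fib_mul (l q : ℕ) (hlq : l ≤ q) :
    (Nat.fib l : ℝ) * (Nat.fib (q - l) : ℝ) ≤ (Nat.fib q : ℝ) := by
  have h : Nat.fib l * Nat.fib (q - l) ≤ Nat.fib q := by
    obtain ⟨j, rfl⟩ := Nat.exists_eq_add_of_le hlq
    rw [Nat.add_sub_cancel_left]
    rcases Nat.eq_zero_or_pos j with rfl | hj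
    · simp
    · obtain ⟨j, rfl⟩ : ∃ j', j = j' + 1 := ⟨j - 1, by omega⟩
      have e := Nat.fib_add l j
      rw [show l + (j + 1) = l + j + 1 by ring, e]
      have h1 : Nat.fib l ≤ Nat.fib (l + 1) := Nat.fib_mono (by omega)
      have h2 : Nat.fib l * Nat.fib (j + 1) ≤ Nat.fib (l + 1) * Nat.fib (j + 1) :=
        Nat.mul_le_mul_right _ h1
      omega
  exact_mod_cast h

theorem bk_fib4 (x : ℕ) (hx : 1 ≤ x) : Nat.fib (x + 4) ≤ 8 * Nat.fib x := by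
  obtain ⟨y, rfl⟩ : ∃ y, x = y + 1 := ⟨x - 1, by omega⟩
  have h1 : Nat.fib (y + 2) = Nat.fib y + Nat.fib (y + 1) := Nat.fib_add_two
  have h2 : Nat.fib (y + 3) = Nat.fib (y + 1) + Nat.fib (y + 2) := Nat.fib_add_two
  have h3 : Nat.fib (y + 4) = Nat.fib (y + 2) + Nat.fib (y + 3) := Nat.fib_add_two
  have h4 : Nat.fib (y + 5) = Nat.fib (y + 3) + Nat.fib (y + 4) := Nat.fib_add_two
  have h5 : Nat.fib y ≤ Nat.fib (y + 1) := Nat.fib_mono (by omega)
  rw [show y + 1 + 4 = y + 5 by ring]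
  omega

theorem bk_fib_two (x : ℕ) (hx : 1 ≤ x) (G : ℕ) : Nat.fib (x + G) ≤ 2 ^ G * Nat.fib x := by
  induction G with
  | zero => simp
  | succ G ih =>
    have h1 : Nat.fib (x + G + 1) ≤ 2 * Nat.fib (x + G) := by
      obtain ⟨y, hy⟩ : ∃ y, x + G = y + 1 := ⟨x + G - 1, by omega⟩
      rw [hy]
      have h1 : Nat.fib (y + 2) = Nat.fib y + Nat.fib (y + 1) := Nat.fib_add_two
      have h5 : Nat.fib y ≤ Nat.fib (y + 1) := Nat.fib_mono (by omega)
      rw [show y + 1 + 1 = y + 2 by ring]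
      omega
    rw [show x + (G + 1) = x + G + 1 by ring, pow_succ]
    calc Nat.fib (x + G + 1) ≤ 2 * Nat.fib (x + G) := h1
      _ ≤ 2 * (2 ^ G * Nat.fib x) := Nat.mul_le_mul_left _ ih
      _ = 2 ^ G * 2 * Nat.fib x := by ring

/-! ### The second point -/

theorem bk_x (l q : ℕ) (hl : 1 ≤ l) (hlq : l ≤ q) (d w : ℤ) (s e1 : ℝ) (hd : 0 ≤ d)
    (hde : (d : ℝ) ≤ e1 * (Nat.fib l : ℝ)) :
    |(Nat.fib l : ℝ) * sh q d w s - (Nat.fib l : ℝ) * s - (JJ d w l : ℝ)| ≤ e1 := by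
  rw [sh_level q l hl hlq]
  have hq : (0 : ℝ) < (Nat.fib q : ℝ) := by exact_mod_cast Nat.fib_pos.2 (by omega)
  have hd' : (0 : ℝ) ≤ (d : ℝ) := by exact_mod_cast hd
  have hfl : (0 : ℝ) < (Nat.fib l : ℝ) := by exact_mod_cast Nat.fib_pos.2 (by omega)
  have he1 : 0 ≤ e1 := by
    by_contra hcon
    have := mul_neg_of_neg_of_pos (not_le.1 hcon) hfl
    linarith only [hde, hd', this]
  rw [abs_of_nonneg hd', div_le_iff₀ hq]
  calc (d : ℝ) * (Nat.fib (q - l) : ℝ) ≤ e1 * (Nat.fib l : ℝ) * (Nat.fib (q - l) : ℝ) :=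
        mul_le_mul_of_nonneg_right hde (by positivity)
    _ = e1 * ((Nat.fib l : ℝ) * (Nat.fib (q - l) : ℝ)) := by ring
    _ ≤ e1 * (Nat.fib q : ℝ) := mul_le_mul_of_nonneg_left (bk_fib_mul l q hlq) he1

theorem bk_w (l n : ℕ) (hl : 1 ≤ l) (hln : l ≤ n) (d a : ℤ) (sc eps e1 : ℝ) (hd : 0 ≤ d)
    (hde : (d : ℝ) ≤ e1 * (Nat.fib l : ℝ)) (he1 : e1 ≤ 1 / 1000) (heps : eps ≤ 1 / 1000)
    (hsc : |(Nat.fib l : ℝ) * sc - 3 / 10 - a| ≤ eps) :
    ∃ w : ℤ, ∀ (s : ℝ) (q : ℕ), l ≤ q → |(Nat.fib l : ℝ) * s - (Nat.fib l : ℝ) * sc| ≤ eps →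
      0 < sh q d w s ∧ sh q d w s < 1 := by
  have hfl : (0 : ℝ) < (Nat.fib l : ℝ) := by exact_mod_cast Nat.fib_pos.2 (by omega)
  obtain ⟨w, hw⟩ : ∃ w : ℤ, w = ⌊sc + d * (Nat.fib (n - 1) : ℝ) / (Nat.fib n : ℝ)⌋ := ⟨_, rfl⟩
  have h0 : 0 ≤ sh n d w sc := by
    unfold sh
    rw [hw]
    have := Int.floor_le (sc + d * (Nat.fib (n - 1) : ℝ) / (Nat.fib n : ℝ))
    linarith only [this]
  have h1 : sh n d w sc < 1 := by
    unfold sh
    rw [hw]
    have := Int.lt_floor_add_one (sc + d * (Nat.fib (n - 1) : ℝ) / (Nat.fib n : ℝ))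
    linarith only [this]
  refine ⟨w, ?_⟩
  intro s q hlq hs
  have x1 := bk_x l n hl hln d w sc e1 hd hde
  have x2 := bk_x l q hl hlq d w s e1 hd hde
  obtain ⟨z, hz⟩ : ∃ z : ℤ, z = a + JJ d w l := ⟨_, rfl⟩
  have hz' : (z : ℝ) = (a : ℝ) + (JJ d w l : ℝ) := by rw [hz]; push_cast; ring
  rw [abs_le] at x1 x2 hs hsc
  have y0 : 0 ≤ (Nat.fib l : ℝ) * sh n d w sc := by positivity
  have y1 : (Nat.fib l : ℝ) * sh n d w sc < (Nat.fib l : ℝ) := by
    calc (Nat.fib l : ℝ) * sh n d w sc < (Nat.fib l : ℝ) * 1 := mul_lt_mul_of_pos_left h1 hfl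
      _ = (Nat.fib l : ℝ) := mul_one _
  have z0 : 0 ≤ z := by
    have : (-1 : ℝ) < (z : ℝ) := by linarith only [he1, heps, hz', y0, x1.1, x1.2, hsc.1, hsc.2]
    have : -1 < z := by exact_mod_cast this
    omega
  have z1 : z ≤ (Nat.fib l : ℤ) - 1 := by
    have : (z : ℝ) < (Nat.fib l : ℝ) := by linarith only [he1, heps, hz', y1, x1.1, x1.2, hsc.1, hsc.2]
    have : z < (Nat.fib l : ℤ) := by exact_mod_cast this
    omega
  have z0' : (0 : ℝ) ≤ (z : ℝ) := by exact_mod_cast z0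
  have z1' : (z : ℝ) ≤ (Nat.fib l : ℝ) - 1 := by exact_mod_cast z1
  constructor
  · have : 0 < (Nat.fib l : ℝ) * sh q d w s := by linarith only [he1, heps, hz', z0', x2.1, hs.1, hsc.1]
    exact pos_of_mul_pos_right this hfl.le
  · have : (Nat.fib l : ℝ) * sh q d w s < (Nat.fib l : ℝ) * 1 := by
      linarith only [he1, heps, hz', z1', x2.2, hs.2, hsc.2]
    exact lt_of_mul_lt_mul_left this hfl.le

theorem bk_fract (n d : ℕ) (w : ℤ) (s : ℝ) (h0 : 0 < sh n (d : ℤ) w s) (h1 : sh n (d : ℤ) w s < 1) :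
    Int.fract (s + d * (Nat.fib (n - 1) : ℝ) / (Nat.fib n : ℝ)) = sh n (d : ℤ) w s := by
  rw [Int.fract_eq_iff]
  refine ⟨h0.le, h1, w, ?_⟩
  unfold sh
  push_cast
  ring

theorem LG_mono {c c' : ℝ} {k : ℕ} {s : ℝ} (h : LG c k s) (hc : c' ≤ c) : LG c' k s :=
  ⟨h.1, fun j h1 h2 => hc.trans (h.2 j h1 h2)⟩

/-! ### Nodes -/

theorem bk_anc (q k i : ℕ) (hqk : q ≤ k) (s : ℝ) (h1 : (i : ℝ) / 2 ^ jL k ≤ s)
    (h2 : s ≤ ((i : ℝ) + 1) / 2 ^ jL k) :
    ((anc jL q k i : ℕ) : ℝ) / 2 ^ jL q ≤ s ∧ s ≤ (((anc jL q k i : ℕ) : ℝ) + 1) / 2 ^ jL q := by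
  have hj := jL_mono hqk
  obtain ⟨D, hD⟩ := Nat.exists_eq_add_of_le hj
  have e : anc jL q k i = i / 2 ^ D := by
    unfold anc
    rw [hD, Nat.add_sub_cancel_left]
  have hP : (0 : ℝ) < 2 ^ D := by positivity
  have hQ : (0 : ℝ) < 2 ^ jL q := by positivity
  have h3 : (i / 2 ^ D) * 2 ^ D ≤ i := Nat.div_mul_le_self i (2 ^ D)
  have h4 : i + 1 ≤ (i / 2 ^ D + 1) * 2 ^ D := by
    have h5 := Nat.div_add_mod i (2 ^ D)
    have h6 : i % 2 ^ D < 2 ^ D := Nat.mod_lt _ (by positivity)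
    have h7 : (i / 2 ^ D + 1) * 2 ^ D = 2 ^ D * (i / 2 ^ D) + 2 ^ D := by ring
    omega
  have h3' : (((i / 2 ^ D : ℕ)) : ℝ) * 2 ^ D ≤ (i : ℝ) := by exact_mod_cast h3
  have h4' : (i : ℝ) + 1 ≤ ((((i / 2 ^ D : ℕ)) : ℝ) + 1) * 2 ^ D := by exact_mod_cast h4
  rw [e]
  rw [hD, pow_add] at h1 h2
  constructor
  · refine le_trans ?_ h1
    rw [div_le_div_iff₀ hQ (by positivity)]
    nlinarith
  · refine h2.trans ?_
    rw [div_le_div_iff₀ (by positivity) hQ]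
    nlinarith

/-- The path predicate. -/
def bkG (k i l m : ℕ) (q : ℕ) : Prop := (q ≤ k ∧ goodN q (anc jL q k i)) ∨ q = l ∨ q = m

theorem bk_LG (k i l m : ℕ) (s : ℝ) (h1 : (i : ℝ) / 2 ^ jL k ≤ s)
    (h2 : s ≤ ((i : ℝ) + 1) / 2 ^ jL k) (hl : LG (1 / 11) l s) (hm : LG (1 / 11) m s) (q : ℕ)
    (hg : bkG k i l m q) : LG (1 / 11) q s := by
  rcases hg with hg | hg | hg
  · have h3 := bk_anc q k i hg.1 s h1 h2
    exact LG_of_goodN q _ s hg.2 h3.1 h3.2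
  · rw [hg]; exact hl
  · rw [hg]; exact hm

/-- The debt at `l` and at `m`. -/
theorem bk_debt (k i l m ks : ℕ) (A c B0 B : ℝ) (hA : 0 ≤ A) (hc : 0 ≤ c) (hB0 : 0 ≤ B0)
    (hks : ks ≤ k) (hkl : k < l) (hlm : l ≤ m)
    (hB : debtS (fun q => goodN q (anc jL q k i)) ks A c B0 (k - ks) ≤ B) :
    debtS (bkG k i l m) ks A c B0 (l - ks) ≤ B + A * ((l - k : ℕ) : ℝ) ∧
    debtS (bkG k i l m) ks A c B0 (m - ks) ≤ B + A * ((m - k : ℕ) : ℝ) := by
  have e1 : debtS (bkG k i l m) ks A c B0 (k - ks)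
      = debtS (fun q => goodN q (anc jL q k i)) ks A c B0 (k - ks) := by
    apply ch63_debtS_congr
    intro q hq
    unfold bkG
    constructor
    · rintro (h | h | h)
      · exact h.2
      · omega
      · omega
    · intro h
      exact Or.inl ⟨by omega, h⟩
  have h1 : debtS (bkG k i l m) ks A c B0 (l - ks) ≤ B + A * ((l - k : ℕ) : ℝ) := by
    have h2 := bk_debt_next (bkG k i l m) ks A c B0 hA hc hB0 (k - ks) (l - ks) (by omega)
      (fun q hq1 hq2 hg => by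
        unfold bkG at hg
        omega) (by
        unfold bkG
        exact Or.inr (Or.inl (by omega)))
    have e2 : l - ks - (k - ks) = l - k := by omega
    rw [e2, e1] at h2
    linarith only [hB, h2]
  refine ⟨h1, ?_⟩
  rcases Nat.eq_or_lt_of_le hlm with h | h
  · rw [← h] at h1 ⊢
    exact h1
  · have h2 := bk_debt_next (bkG k i l m) ks A c B0 hA hc hB0 (l - ks) (m - ks) (by omega)
      (fun q hq1 hq2 hg => by
        unfold bkG at hg
        omega) (by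
        unfold bkG
        exact Or.inr (Or.inr (by omega)))
    have e2 : m - ks - (l - ks) = m - l := by omega
    rw [e2] at h2
    have e3 : ((m - k : ℕ) : ℝ) = ((m - l : ℕ) : ℝ) + ((l - k : ℕ) : ℝ) := by
      have : m - k = (m - l) + (l - k) := by omega
      rw [this]; push_cast; ring
    rw [e3]
    nlinarith

/-! ### Small lam -/

theorem bk_small (C a : ℝ) (ha : 0 < a) : ∃ lam0 : ℝ, 0 < lam0 ∧ lam0 ≤ 1 / 100 ∧
    ∀ lam : ℝ, 0 < lam → lam ≤ lam0 → C ≤ lam ^ (-a) := by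
  have hC : 0 < max C 1 := lt_of_lt_of_le one_pos (le_max_right _ _)
  refine ⟨min (1 / 100) (max C 1 ^ (-1 / a)), lt_min (by norm_num) (Real.rpow_pos_of_pos hC _),
    min_le_left _ _, ?_⟩
  intro lam h0 h1
  have h2 : lam ≤ max C 1 ^ (-1 / a) := h1.trans (min_le_right _ _)
  have h3 := Real.rpow_le_rpow_of_nonpos h0 h2 (by linarith only [ha] : -a ≤ 0)
  rw [← Real.rpow_mul hC.le, show -1 / a * -a = 1 by field_simp, Real.rpow_one] at h3
  exact (le_max_left _ _).trans h3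

theorem bk_sqrt (x : ℝ) (hx : 0 < x) : ∃ lam0 : ℝ, 0 < lam0 ∧ lam0 ≤ 1 / 100 ∧
    ∀ lam : ℝ, 0 < lam → lam ≤ lam0 → 200 * Real.sqrt lam ≤ x := by
  refine ⟨min (1 / 100) ((x / 200) ^ 2), lt_min (by norm_num) (by positivity),
    min_le_left _ _, ?_⟩
  intro lam h0 h1
  have h2 : Real.sqrt lam ≤ x / 200 := by
    rw [Real.sqrt_le_left (by positivity)]
    exact h1.trans (min_le_right _ _)
  linarith only [h2]

theorem bk_log (lam : ℝ) (h0 : 0 < lam) (h1 : lam ≤ 1 / 100) : 2 ≤ Real.log (1 / lam) := by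
  have h2 : (100 : ℝ) ≤ 1 / lam := by
    rw [le_div_iff₀ h0]; linarith only [h1]
  have h3 : Real.exp 2 ≤ 100 := by
    have := Real.exp_one_lt_d9
    have e : Real.exp 2 = Real.exp 1 * Real.exp 1 := by rw [← Real.exp_add]; norm_num
    rw [e]
    nlinarith [Real.exp_pos 1]
  rw [Real.le_log_iff_exp_le (by positivity)]
  linarith only [h2, h3]

theorem bk_rpow_log (lam a : ℝ) (h0 : 0 < lam) : lam ^ (-a) = Real.exp (a * Real.log (1 / lam)) := by
  rw [Real.rpow_def_of_pos h0, one_div, Real.log_inv]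
  ring_nf

theorem bk_N0 (N1 G : ℕ) : ∃ lam0 : ℝ, 0 < lam0 ∧ lam0 ≤ 1 / 100 ∧
    ∀ lam : ℝ, 0 < lam → lam ≤ lam0 → ∃ N0 : ℕ, N0 % 4 = 0 ∧ N1 ≤ N0 ∧
      lam ^ (-(3 / 4) : ℝ) ≤ (Nat.fib N0 : ℝ) ∧ (Nat.fib (N0 + 4) : ℝ) ≤ lam ^ (-(4 / 5) : ℝ) ∧
      (Nat.fib (G + N0 + 4) : ℝ) ≤ lam ^ (-(77 / 100) : ℝ) ∧
      ((G + N0 + 4 : ℕ) : ℝ) ≤ 3 * Real.log (1 / lam) := by
  obtain ⟨x1, hx10, hx11, hx1⟩ := bk_small ((Nat.fib (N1 + 8) : ℝ) + 1) (3 / 4) (by norm_num)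
  obtain ⟨x2, hx20, hx21, hx2⟩ := bk_small 64 (1 / 20) (by norm_num)
  obtain ⟨x3, hx30, hx31, hx3⟩ := bk_small (64 * 2 ^ G) (1 / 50) (by norm_num)
  refine ⟨min x1 (min x2 x3), lt_min hx10 (lt_min hx20 hx30), (min_le_left _ _).trans hx11, ?_⟩
  intro lam h0 h1
  simp only [le_min_iff] at h1
  obtain ⟨g1, g2, g3⟩ := h1
  have y1 := hx1 lam h0 g1
  have y2 := hx2 lam h0 g2
  have y3 := hx3 lam h0 g3
  obtain ⟨X, hX⟩ : ∃ X, X = lam ^ (-(3 / 4) : ℝ) := ⟨_, rfl⟩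
  rw [← hX] at y1 ⊢
  have hX0 : 0 < X := by rw [hX]; exact Real.rpow_pos_of_pos h0 _
  have hex : ∃ p : ℕ, X ≤ (Nat.fib (4 * p) : ℝ) := by
    obtain ⟨p, hp⟩ := exists_nat_ge (X + 1)
    refine ⟨p, ?_⟩
    have e1 : p ≤ Nat.fib p + 1 := Nat.le_fib_add_one p
    have e2 : Nat.fib p ≤ Nat.fib (4 * p) := Nat.fib_mono (by omega)
    have e3 : (p : ℝ) ≤ (Nat.fib (4 * p) : ℝ) + 1 := by exact_mod_cast (by omega : p ≤ Nat.fib (4 * p) + 1)
    linarith only [hp, e3]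
  classical
  obtain ⟨p, hp⟩ : ∃ p, p = Nat.find hex := ⟨_, rfl⟩
  have hp1 : X ≤ (Nat.fib (4 * p) : ℝ) := by rw [hp]; exact Nat.find_spec hex
  have hN1 : N1 + 8 < 4 * p := by
    by_contra hcon
    have e1 : Nat.fib (4 * p) ≤ Nat.fib (N1 + 8) := Nat.fib_mono (by omega)
    have e2 : (Nat.fib (4 * p) : ℝ) ≤ (Nat.fib (N1 + 8) : ℝ) := by exact_mod_cast e1
    linarith only [y1, hp1, e2]
  have hp2 : (Nat.fib (4 * (p - 1)) : ℝ) < X := by
    have := Nat.find_min hex (m := p - 1) (by omega)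
    exact not_le.1 this
  have e4 : Nat.fib (4 * p) ≤ 8 * Nat.fib (4 * (p - 1)) := by
    have := bk_fib4 (4 * (p - 1)) (by omega)
    rwa [show 4 * (p - 1) + 4 = 4 * p by omega] at this
  have e5 : Nat.fib (4 * p + 4) ≤ 8 * Nat.fib (4 * p) := bk_fib4 (4 * p) (by omega)
  have e6 : Nat.fib (4 * p + 4 + G) ≤ 2 ^ G * Nat.fib (4 * p + 4) :=
    bk_fib_two (4 * p + 4) (by omega) G
  have e4' : (Nat.fib (4 * p) : ℝ) ≤ 8 * (Nat.fib (4 * (p - 1)) : ℝ) := by exact_mod_cast e4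
  have e5' : (Nat.fib (4 * p + 4) : ℝ) ≤ 8 * (Nat.fib (4 * p) : ℝ) := by exact_mod_cast e5
  have e6' : (Nat.fib (4 * p + 4 + G) : ℝ) ≤ 2 ^ G * (Nat.fib (4 * p + 4) : ℝ) := by
    exact_mod_cast e6
  have f1 : (Nat.fib (4 * p + 4) : ℝ) ≤ 64 * X := by linarith only [hp2, e4', e5']
  have f2 : lam ^ (-(4 / 5) : ℝ) = lam ^ (-(1 / 20) : ℝ) * X := by
    rw [hX, ← Real.rpow_add h0]; norm_num
  have f3 : lam ^ (-(77 / 100) : ℝ) = lam ^ (-(1 / 50) : ℝ) * X := by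
    rw [hX, ← Real.rpow_add h0]; norm_num
  have f4 : (Nat.fib (G + 4 * p + 4) : ℝ) ≤ lam ^ (-(77 / 100) : ℝ) := by
    rw [f3, show G + 4 * p + 4 = 4 * p + 4 + G by ring]
    calc (Nat.fib (4 * p + 4 + G) : ℝ) ≤ 2 ^ G * (Nat.fib (4 * p + 4) : ℝ) := e6'
      _ ≤ 2 ^ G * (64 * X) := mul_le_mul_of_nonneg_left f1 (by positivity)
      _ = (64 * 2 ^ G) * X := by ring
      _ ≤ lam ^ (-(1 / 50) : ℝ) * X := mul_le_mul_of_nonneg_right y3 hX0.le
  refine ⟨4 * p, by omega, by omega, hp1, ?_, f4, ?_⟩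
  · rw [f2]
    exact f1.trans (mul_le_mul_of_nonneg_right y2 hX0.le)
  · obtain ⟨q, hq⟩ : ∃ q, G + 4 * p + 4 = q + 2 := ⟨G + 4 * p + 2, by ring⟩
    rw [hq] at f4 ⊢
    have h3 := (ch63_fib_lower q).trans f4
    have h4 : Real.exp (2 / 5 * q) ≤ ((3 : ℝ) / 2) ^ q := by
      rw [show (2 / 5 * (q : ℝ)) = (q : ℝ) * (2 / 5) by ring, Real.exp_nat_mul]
      exact pow_le_pow_left₀ (Real.exp_pos _).le ch63_exp.le q
    have h5 := h4.trans h3
    rw [bk_rpow_log lam _ h0] at h5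
    have h6 := Real.exp_le_exp.1 h5
    have h7 := bk_log lam h0 (g1.trans hx11)
    push_cast
    linarith only [h6, h7]

theorem bk_ES (C4 D x : ℝ) (hC : 1 ≤ C4) (h : Real.log C4 + D ≤ x / 10) :
    Real.exp (-(2 / 5) * x) * (C4 * Real.exp (D + 3 / 10 * x)) ≤ 1 := by
  have e1 : Real.exp (-(2 / 5) * x) * Real.exp (D + 3 / 10 * x) = Real.exp (D - x / 10) := by
    rw [← Real.exp_add]; congr 1; ring
  have e2 : Real.exp (Real.log C4 + D - x / 10) = C4 * Real.exp (D - x / 10) := by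
    rw [show Real.log C4 + D - x / 10 = Real.log C4 + (D - x / 10) by ring, Real.exp_add,
      Real.exp_log (by linarith only [hC])]
  have e : Real.exp (-(2 / 5) * x) * (C4 * Real.exp (D + 3 / 10 * x))
      = Real.exp (Real.log C4 + D - x / 10) := by
    rw [e2, ← e1]; ring
  rw [e, Real.exp_le_one_iff]
  linarith only [h]

theorem bk_E (lam x : ℝ) (h0 : 0 < lam) (h : 5 * Real.log (1 / lam) ≤ x) :
    Real.exp (-(2 / 5) * x) ≤ lam ^ 2 := by
  have e : lam ^ 2 = Real.exp (-(2 * Real.log (1 / lam))) := by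
    rw [one_div, Real.log_inv, mul_neg, neg_neg, two_mul, Real.exp_add, Real.exp_log h0]
    ring
  rw [e, Real.exp_le_exp]
  linarith only [h]

theorem bk_O (lam C4 A D B : ℝ) (h0 : 0 < lam) (hC : 1 ≤ C4)
    (hA : C4 * Real.exp A ≤ lam ^ (-(1 / 100) : ℝ)) (hB : B ≤ 9 / 10 * Real.log (1 / lam))
    (hD : D ≤ B + A) : C4 * Real.exp D ≤ lam ^ (-(91 / 100) : ℝ) := by
  have e : lam ^ (-(91 / 100) : ℝ) = lam ^ (-(1 / 100) : ℝ) * lam ^ (-(9 / 10) : ℝ) := by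
    rw [← Real.rpow_add h0]; norm_num
  rw [e]
  calc C4 * Real.exp D ≤ C4 * Real.exp (A + 9 / 10 * Real.log (1 / lam)) := by
        apply mul_le_mul_of_nonneg_left _ (by linarith only [hC])
        apply Real.exp_le_exp.2
        linarith only [hB, hD]
    _ = C4 * Real.exp A * lam ^ (-(9 / 10) : ℝ) := by
        rw [Real.exp_add, bk_rpow_log lam _ h0]; ring
    _ ≤ lam ^ (-(1 / 100) : ℝ) * lam ^ (-(9 / 10) : ℝ) :=
        mul_le_mul_of_nonneg_right hA (Real.rpow_pos_of_pos h0 _).le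

/-- The choice of the component. -/
theorem bk_choose (x y : ℝ) : ∃ u : ℝ, 26 / 100 ≤ u ∧ u + 3 / 100 ≤ 34 / 100 ∧
    ∀ z, u ≤ z → z ≤ u + 3 / 100 → ¬ |Real.pi * (x + z) - y| ≤ 1 / 100 := by
  have hpi := Real.pi_gt_three
  have hpi0 := Real.pi_pos
  obtain ⟨c, hc⟩ : ∃ c, c = y / Real.pi - x := ⟨_, rfl⟩
  have hy : y = Real.pi * (x + c) := by rw [hc]; field_simp; ring
  rcases le_total c (30 / 100) with h | h
  · refine ⟨31 / 100, by norm_num, by norm_num, ?_⟩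
    intro z h1 h2 h3
    rw [hy, show Real.pi * (x + z) - Real.pi * (x + c) = Real.pi * (z - c) by ring] at h3
    have h4 := (abs_le.1 h3).2
    have h5 : (1 : ℝ) / 100 ≤ z - c := by linarith only [h, h1]
    nlinarith
  · refine ⟨26 / 100, by norm_num, by norm_num, ?_⟩
    intro z h1 h2 h3
    rw [hy, show Real.pi * (x + z) - Real.pi * (x + c) = Real.pi * (z - c) by ring] at h3
    have h4 := (abs_le.1 h3).1
    have h5 : (1 : ℝ) / 100 ≤ c - z := by linarith only [h, h2]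
    nlinarith

theorem block_kill : ∃ (lam1 e1 C4 C8 : ℝ) (K : ℕ), 0 < lam1 ∧ lam1 ≤ 1 / 100 ∧ 0 < e1 ∧ e1 < 1 ∧
    1 ≤ C4 ∧ 1 < C8 ∧ 3 ≤ K ∧
    ∀ lam : ℝ, 0 < lam → lam ≤ lam1 → ∃ l1 T1 n0 : ℕ, 5 ≤ l1 ∧ (T1 : ℝ) ≤ C8 * Real.log (1 / lam) ∧
      (Nat.fib T1 : ℝ) ≤ lam ^ (-(77 / 100) : ℝ) ∧
    ∀ (n l0 k i d : ℕ) (r : ℝ), l1 ≤ l0 → 1 ≤ d → (d : ℝ) ≤ e1 * (Nat.fib l0 : ℝ) → K * l0 ≤ k →
      k + T1 + n0 ≤ n → 0 < r → r ≤ lam ^ 3 / C8 ^ (k + T1) → i < 2 ^ jL k →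
      goodN l0 (anc jL l0 k i) →
      debtS (fun q => goodN q (anc jL q k i)) (K * l0) (2 * Real.log 10) (1 / 10) (C4 * l0) (k - K * l0)
        ≤ 9 / 10 * Real.log (1 / lam) →
      ∃ u v : ℝ, (i : ℝ) / 2 ^ jL k ≤ u ∧ v ≤ ((i : ℝ) + 1) / 2 ^ jL k ∧
        1 / (C8 * (Nat.fib (k + T1) : ℝ)) ≤ v - u ∧
        ∀ s : ℝ, u ≤ s → s ≤ v → LG (1 / 11) n s → r < |Gr lam n d s| := by
  obtain ⟨Rg, hRg0, hgain⟩ := gain
  obtain ⟨Rk, hRk0, hkill⟩ := kill_interval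
  obtain ⟨R, lamP, eP, Lst, C4, K, hR0, hR00, hlP0, hlP1, heP0, heP1, hLst, hC4, hK, hpe⟩ :=
    pair_exists (min (min Rg Rk) (1 / 80)) (lt_min (lt_min hRg0 hRk0) (by norm_num))
  simp only [le_min_iff] at hR00
  obtain ⟨⟨hRg, hRk⟩, hR80⟩ := hR00
  obtain ⟨lamg, hlg0, hlg1, hgain⟩ := hgain R hR0 hRg Lst hLst
  obtain ⟨lamk, ek, C7, nk, hlk0, hlk1, hek0, hC7, hnk, hkill⟩ := hkill R hR0 hRk Lst hLst
  obtain ⟨eps, heps⟩ : ∃ eps, eps = min (R / 100) (1 / 1000) := ⟨_, rfl⟩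
  have heps0 : 0 < eps := by rw [heps]; exact lt_min (div_pos hR0 (by norm_num)) (by norm_num)
  have heps1 : eps ≤ 1 / 1000 := by rw [heps]; exact min_le_right _ _
  have hepsR : eps ≤ R / 100 := by rw [heps]; exact min_le_left _ _
  clear heps
  obtain ⟨G, N1, hG, hN1, hstar⟩ := star_geo eps heps0 heps1
  obtain ⟨lamG, hlG0, hlG1, hgood⟩ := good_first
  obtain ⟨lamS, eS, hlS0, hlS1, heS0, heS1, hsecond⟩ := second_point
  obtain ⟨lamd, ed, Cd, hld0, hld1, hed0, hed1, hCd, hdel⟩ := del_lower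
  obtain ⟨lamN, hlN0, hlN1, hN0⟩ := bk_N0 N1 G
  obtain ⟨A, hA⟩ : ∃ A, A = 2 * Real.log 10 := ⟨_, rfl⟩
  have hA0 : 0 ≤ A := by
    rw [hA]
    have := Real.log_nonneg (by norm_num : (1 : ℝ) ≤ 10)
    linarith only [this]
  obtain ⟨lamA, hlA0, hlA1, hlA⟩ := bk_small (C4 * Real.exp (A * G)) (1 / 100) (by norm_num)
  obtain ⟨lamB, hlB0, hlB1, hlB⟩ := bk_small (20000 * C7) (1 / 4) (by norm_num)
  obtain ⟨lamC, hlC0, hlC1, hlC⟩ := bk_sqrt (R / 100) (div_pos hR0 (by norm_num))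
  rw [← hA]
  refine ⟨min (min (min lamP lamg) (min lamk lamG)) (min (min (min lamS lamd) (min lamN lamA))
    (min (min lamB lamC) ek)), min (min eP eS) (min ed (1 / 1000)), C4, Cd + 40, K,
    lt_min (lt_min (lt_min hlP0 hlg0) (lt_min hlk0 hlG0)) (lt_min (lt_min (lt_min hlS0 hld0)
      (lt_min hlN0 hlA0)) (lt_min (lt_min hlB0 hlC0) hek0)),
    (min_le_left _ _).trans ((min_le_left _ _).trans ((min_le_left _ _).trans hlP1)),
    lt_min (lt_min heP0 heS0) (lt_min hed0 (by norm_num)),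
    (min_le_left _ _).trans_lt ((min_le_left _ _).trans_lt heP1), hC4, by linarith only [hCd], hK, ?_⟩
  intro lam hlam hlam1
  simp only [le_min_iff] at hlam1
  obtain ⟨⟨⟨gP, gg⟩, ⟨gk, gG⟩⟩, ⟨⟨⟨gS, gd⟩, ⟨gN, gA⟩⟩, ⟨⟨gB, gC⟩, ge⟩⟩⟩ := hlam1
  have hl100 : lam ≤ 1 / 100 := gP.trans hlP1
  obtain ⟨N0, hN04, hN01, hN0a, hN0b, hN0c, hN0d⟩ := hN0 lam hlam gN
  obtain ⟨l1P, hl1P4, hpe⟩ := hpe lam hlam gP
  have hgain := hgain lam hlam gg N0 hN04 hN0a hN0b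
  have hkill := hkill lam hlam gk
  have hgood := hgood lam hlam gG
  have hsecond := hsecond lam hlam gS
  have hdel := hdel lam hlam gd
  have hlA := hlA lam hlam gA
  have hlB := hlB lam hlam gB
  have hlC := hlC lam hlam gC
  have hlog2 := bk_log lam hlam hl100
  obtain ⟨Lg, hLg⟩ : ∃ Lg, Lg = Real.log (1 / lam) := ⟨_, rfl⟩
  have hLg2 : 2 ≤ Lg := by rw [hLg]; exact hlog2
  obtain ⟨B, hB⟩ : ∃ B, B = Real.log C4 + (9 / 10 * Lg + A * ((G + N0 + 4 : ℕ) : ℝ)) := ⟨_, rfl⟩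
  have hB0 : 0 ≤ B := by
    rw [hB]
    have h1 := Real.log_nonneg hC4
    have h2 : 0 ≤ 9 / 10 * Lg := mul_nonneg (by norm_num) (by linarith only [hLg2])
    exact add_nonneg h1 (add_nonneg h2 (mul_nonneg hA0 (Nat.cast_nonneg _)))
  obtain ⟨l1, hl1⟩ := exists_nat_ge (5 * B + 5 * Lg)
  refine ⟨max (max l1P 5) l1, G + N0 + 4, nk, (le_max_right _ _).trans (le_max_left _ _), ?_,
    hN0c, ?_⟩
  · refine hN0d.trans ?_
    rw [← hLg]
    exact mul_le_mul_of_nonneg_right (by linarith only [hCd]) (by linarith only [hN0d, hLg])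
  clear hN0 hN0a hN0b hN0c hN0d hlog2
  intro n l0 k i d r hl0 hd hde hKk hkn hr0 hr hi hgl0 hdebt
  rw [← hLg] at hdebt
  simp only [max_le_iff] at hl0
  obtain ⟨⟨hl0P, hl05⟩, hl0l⟩ := hl0
  have hfl0 : (0 : ℝ) ≤ (Nat.fib l0 : ℝ) := Nat.cast_nonneg _
  have hdz : ((d : ℤ) : ℝ) = (d : ℝ) := Int.cast_natCast d
  have hd1 : (1 : ℤ) ≤ (d : ℤ) := by exact_mod_cast hd
  have hdP : ((d : ℤ) : ℝ) ≤ eP * (Nat.fib l0 : ℝ) := by
    rw [hdz]
    exact hde.trans (mul_le_mul_of_nonneg_right ((min_le_left _ _).trans (min_le_left _ _)) hfl0)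
  have hfibm : ∀ q, l0 ≤ q → (Nat.fib l0 : ℝ) ≤ (Nat.fib q : ℝ) := fun q hq => by
    exact_mod_cast Nat.fib_mono hq
  have hdS : ∀ q, l0 ≤ q → ((d : ℤ) : ℝ) ≤ eS * (Nat.fib q : ℝ) := by
    intro q hq
    rw [hdz]
    refine hde.trans ?_
    exact mul_le_mul ((min_le_left _ _).trans (min_le_right _ _)) (hfibm q hq) hfl0 heS0.le
  have hdd : ∀ q, l0 ≤ q → ((d : ℤ) : ℝ) ≤ ed * (Nat.fib q : ℝ) := by
    intro q hq
    rw [hdz]
    refine hde.trans ?_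
    exact mul_le_mul ((min_le_right _ _).trans (min_le_left _ _)) (hfibm q hq) hfl0 hed0.le
  have hd1000 : ∀ q, l0 ≤ q → ((d : ℤ) : ℝ) ≤ 1 / 1000 * (Nat.fib q : ℝ) := by
    intro q hq
    rw [hdz]
    refine hde.trans ?_
    exact mul_le_mul ((min_le_right _ _).trans (min_le_right _ _)) (hfibm q hq) hfl0 (by norm_num)
  clear hde
  have h3l0 : 3 * l0 ≤ K * l0 := Nat.mul_le_mul_right _ hK
  obtain ⟨a, b, sc, hsc1, hsc2, hsc3, hscLG, hst⟩ := hstar k (by omega) i hi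
  obtain ⟨l, hl⟩ : ∃ l, l = k + G := ⟨_, rfl⟩
  rw [← hl] at hsc3 hscLG hst
  obtain ⟨w, hw⟩ := bk_w l n (by omega) (by omega) (d : ℤ) a sc eps (1 / 1000) (Int.natCast_nonneg d)
    (hd1000 l (by omega)) le_rfl heps1 hsc3
  have hpw : (0 : ℝ) < 2 ^ jL k := pow_pos two_pos _
  have hi' : (i : ℝ) + 1 ≤ 2 ^ jL k := by exact_mod_cast hi
  have hnode : ∀ s : ℝ, (i : ℝ) / 2 ^ jL k < s → s < ((i : ℝ) + 1) / 2 ^ jL k → 0 < s ∧ s < 1 := by
    intro s h1 h2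
    constructor
    · exact lt_of_le_of_lt (div_nonneg (Nat.cast_nonneg _) hpw.le) h1
    · refine h2.trans_le ?_
      rw [div_le_one hpw]
      exact hi'
  have hTEq : ∀ (q : ℕ) (s : ℝ), 1 ≤ q → 0 < s → s < 1 →
      TE lam (EE lam q s) q = Real.pi * (Nat.fib q : ℝ) * s := fun q s hq h0 h1 =>
    (EE_spec lam hlam.le hl100 q hq s h0 h1).1
  -- pair states
  have hpair : ∀ (m q : ℕ) (s : ℝ), l ≤ m → m ≤ n → (q = l ∨ q = m) → (i : ℝ) / 2 ^ jL k < s →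
      s < ((i : ℝ) + 1) / 2 ^ jL k → LG (1 / 11) l s → LG (1 / 11) m s → 0 < sh q (d : ℤ) w s →
      sh q (d : ℤ) w s < 1 →
      PairAt lam R q (JJ (d : ℤ) w (q - 1)) (JJ (d : ℤ) w q) (Real.pi * (Nat.fib q : ℝ) * s) Lst
        (Real.exp (-(2 / 5) * ((q : ℝ) - l0)))
        (C4 * Real.exp (debtS (bkG k i l m) (K * l0) A (1 / 10) (C4 * l0) (q - K * l0)
          + 3 / 10 * ((q : ℝ) - l0)))
        (C4 * Real.exp (debtS (bkG k i l m) (K * l0) A (1 / 10) (C4 * l0) (q - K * l0))) := by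
    intro m q s hlm hmn hq hs1 hs2 hL1 hL2 hw1 hw2
    have hqk : K * l0 ≤ q := by omega
    obtain ⟨r', hr'⟩ := Nat.exists_eq_add_of_le hqk
    have hs0 := hnode s hs1 hs2
    have h := hpe q l0 s (d : ℤ) w (bkG k i l m) hl0P hs0.1 hs0.2 hd1 hw1 hw2 hdP
      (fun q' _ _ hg => bk_LG k i l m s hs1.le hs2.le hL1 hL2 q' hg)
      (Or.inl ⟨by omega, hgl0⟩) r' (le_of_eq hr'.symm) (by
        rw [← hr']
        exact Or.inr hq)
    rw [← hr', ← hA] at h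
    rw [show q - K * l0 = r' by omega, ← hTEq q s (by omega) hs0.1 hs0.2]
    exact h
  clear hpe
  -- debts
  have hdb : ∀ m, l ≤ m → m ≤ k + (G + N0 + 4) →
      debtS (bkG k i l m) (K * l0) A (1 / 10) (C4 * l0) (l - K * l0) ≤ 9 / 10 * Lg + A * G ∧
      debtS (bkG k i l m) (K * l0) A (1 / 10) (C4 * l0) (m - K * l0)
        ≤ 9 / 10 * Lg + A * ((G + N0 + 4 : ℕ) : ℝ) := by
    intro m hlm hmk
    have h := bk_debt k i l m (K * l0) A (1 / 10) (C4 * l0) (9 / 10 * Lg) hA0 (by norm_num)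
      (mul_nonneg (by linarith only [hC4]) (Nat.cast_nonneg _)) hKk (by omega) hlm hdebt
    constructor
    · refine h.1.trans ?_
      rw [show l - k = G by omega]
    · refine h.2.trans ?_
      have : ((m - k : ℕ) : ℝ) ≤ ((G + N0 + 4 : ℕ) : ℝ) := by
        exact_mod_cast (by omega : m - k ≤ G + N0 + 4)
      have := mul_le_mul_of_nonneg_left this hA0
      linarith only [this]
  -- distances
  have hll0 : ∀ q, l ≤ q → 5 * Lg ≤ (q : ℝ) - l0 ∧ B ≤ ((q : ℝ) - l0) / 10 := by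
    intro q hq
    have h1 : 3 * l0 ≤ q := by omega
    have h2 : 3 * (l0 : ℝ) ≤ (q : ℝ) := by exact_mod_cast h1
    have h3 : (l1 : ℝ) ≤ (l0 : ℝ) := by exact_mod_cast hl0l
    constructor <;> linarith only [hLg2, hl1, h2, h3, hB0]
  have hEl : ∀ q, l ≤ q → Real.exp (-(2 / 5) * ((q : ℝ) - l0)) ≤ lam ^ 2 := fun q hq =>
    bk_E lam _ hlam (by rw [← hLg]; exact (hll0 q hq).1)
  have hESl : ∀ m q, l ≤ m → m ≤ k + (G + N0 + 4) → (q = l ∨ q = m) →
      Real.exp (-(2 / 5) * ((q : ℝ) - l0)) *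
      (C4 * Real.exp (debtS (bkG k i l m) (K * l0) A (1 / 10) (C4 * l0) (q - K * l0)
          + 3 / 10 * ((q : ℝ) - l0))) ≤ 1 := by
    intro m q hlm hmk hq
    apply bk_ES _ _ _ hC4
    have h1 : l ≤ q := by omega
    have h2 := (hll0 q h1).2
    have h3 := hdb m hlm hmk
    have h4 : debtS (bkG k i l m) (K * l0) A (1 / 10) (C4 * l0) (q - K * l0)
        ≤ 9 / 10 * Lg + A * ((G + N0 + 4 : ℕ) : ℝ) := by
      rcases hq with hq | hq
      · rw [hq]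
        refine h3.1.trans ?_
        have : (G : ℝ) ≤ ((G + N0 + 4 : ℕ) : ℝ) := by exact_mod_cast (by omega : G ≤ G + N0 + 4)
        have := mul_le_mul_of_nonneg_left this hA0
        linarith only [this]
      · rw [hq]
        exact h3.2
    rw [hB] at h2
    linarith only [h2, h4]
  -- the level l
  have hlT : l ≤ k + (G + N0 + 4) := by omega
  have hLl : LG (1 / 11) l sc := LG_mono hscLG (by norm_num)
  have hwl := hw sc l le_rfl (by rw [sub_self, abs_zero]; exact heps0.le)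
  obtain ⟨T0, p0, T1, p1, hC0, hC1, hPB⟩ := hpair l l sc le_rfl (by omega) (Or.inl rfl) hsc1 hsc2
    hLl hLl hwl.1 hwl.2
  obtain ⟨bc, hbc⟩ : ∃ bc, bc = Real.pi * (Nat.fib l : ℝ) * sc := ⟨_, rfl⟩
  rw [← hbc] at hC0 hC1 hPB
  have hC40 : 0 < C4 := by linarith only [hC4]
  obtain ⟨N, hN, hgain⟩ := hgain l (JJ (d : ℤ) w (l - 1)) (JJ (d : ℤ) w l) b a bc _ _ _ T0 p0 T1 p1
    (by omega) hC0 hC1 hPB (Real.exp_pos _).le (mul_nonneg hC40.le (Real.exp_pos _).le)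
    (mul_nonneg hC40.le (Real.exp_pos _).le)
    (bk_O lam C4 (A * G) _ (9 / 10 * Lg) hlam hC4 hlA (by rw [hLg]) (hdb l le_rfl hlT).1)
    (hEl l le_rfl) (hESl l l le_rfl hlT (Or.inl rfl))
  clear hC0 hC1 hPB T0 p0 T1 p1
  have hNN1 : N1 ≤ N := by omega
  have hN2 : N % 2 = 0 := by omega
  have hst := hst N hNN1 hN2
  obtain ⟨m, hm⟩ : ∃ m, m = l + N := ⟨_, rfl⟩
  obtain ⟨Z, hZ⟩ : ∃ Z : ℤ, Z = fibz b a (N + 1) := ⟨_, rfl⟩
  rw [← hm, ← hZ] at hst hgain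
  have hmT : m ≤ k + (G + N0 + 4) := by omega
  have hlm : l ≤ m := by omega
  have hmn : m ≤ n := by omega
  have hJ1 : fibz (JJ (d : ℤ) w (l - 1)) (JJ (d : ℤ) w l) N = JJ (d : ℤ) w (m - 1) := by
    have := fibz_comp (d : ℤ) (-w) (l - 1) N
    unfold JJ
    rw [show l - 1 + 1 = l by omega, show l - 1 + N = m - 1 by omega] at this
    exact this
  have hJ2 : fibz (JJ (d : ℤ) w (l - 1)) (JJ (d : ℤ) w l) (N + 1) = JJ (d : ℤ) w m := by
    have := fibz_comp (d : ℤ) (-w) (l - 1) (N + 1)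
    unfold JJ
    rw [show l - 1 + 1 = l by omega, show l - 1 + (N + 1) = m by omega] at this
    exact this
  rw [hJ1, hJ2] at hgain
  have hpi := Real.pi_pos
  have hpi3 := Real.pi_gt_three
  have hpi4 := Real.pi_le_four
  have hfm : (0 : ℝ) < (Nat.fib m : ℝ) := by exact_mod_cast Nat.fib_pos.2 (by omega)
  obtain ⟨D1, hD1⟩ : ∃ D1, D1 = lam ^ (-(1 / 4) : ℝ) / 100 := ⟨_, rfl⟩
  have hD10 : 0 < D1 := by
    rw [hD1]
    exact div_pos (Real.rpow_pos_of_pos hlam (-(1 / 4) : ℝ)) (by norm_num)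
  rw [← hD1] at hgain
  -- the level m
  have key : ∀ s : ℝ, 25 / 100 ≤ (Nat.fib m : ℝ) * s - (Z : ℝ) →
      (Nat.fib m : ℝ) * s - (Z : ℝ) ≤ 35 / 100 → ∃ T0 p0 T1 p1 : ℂ → ℂ,
      Curve lam R m 0 0 (Real.pi * (Nat.fib m : ℝ) * s) T0 p0 ∧
      Curve lam R m (JJ (d : ℤ) w (m - 1)) (JJ (d : ℤ) w m) (Real.pi * (Nat.fib m : ℝ) * s) T1 p1 ∧
      PairB R Lst (Real.exp (-(2 / 5) * ((m : ℝ) - l0)))
        (C4 * Real.exp (debtS (bkG k i l m) (K * l0) A (1 / 10) (C4 * l0) (m - K * l0)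
          + 3 / 10 * ((m : ℝ) - l0)))
        (C4 * Real.exp (debtS (bkG k i l m) (K * l0) A (1 / 10) (C4 * l0) (m - K * l0)))
        ((Real.pi * (Nat.fib m : ℝ) * s : ℝ) : ℂ) T0 T1 p0 p1 ∧
      D1 ≤ ‖DD T0 T1 p0 p1 ((Real.pi * (Nat.fib m : ℝ) * s : ℝ) : ℂ)‖ ∧
      r ≤ ‖p1 ((Real.pi * (Nat.fib m : ℝ) * s : ℝ) : ℂ) - p0 ((Real.pi * (Nat.fib m : ℝ) * s : ℝ) : ℂ)‖ := by
    intro s h1 h2
    obtain ⟨s1, s2, s3, s4, s5, s6⟩ := hst s h1 h2
    have hs0 := hnode s s1 s2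
    have hwm := hw s m hlm s4
    have hLs : LG (1 / 11) l s := LG_mono s5 (by norm_num)
    have hLm : LG (1 / 11) m s := LG_mono s6 (by norm_num)
    obtain ⟨T0, p0, T1, p1, hC0, hC1, hPB⟩ := hpair m m s hlm hmn (Or.inr rfl) s1 s2 hLs hLm
      hwm.1 hwm.2
    obtain ⟨t1, ht1, ht1g, _⟩ := hsecond m m (d : ℤ) w s hs0.1 hs0.2 hwm.1 hwm.2 le_rfl hd1
      (hdS m (by omega)) hLm
    have hTm := hTEq m s (by omega) hs0.1 hs0.2
    have hnear := TE_near lam hlam.le hl100 m (by omega) s hs0.1 hs0.2 l (by omega)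
    have hTl : |TE lam (EE lam m s) l - Real.pi * (Nat.fib l : ℝ) * s| ≤ R / 100 := hnear.trans hlC
    have hd1' : |Real.pi * (Nat.fib l : ℝ) * s - bc| ≤ 4 * (R / 100) := by
      rw [hbc, show Real.pi * (Nat.fib l : ℝ) * s - Real.pi * (Nat.fib l : ℝ) * sc
        = Real.pi * ((Nat.fib l : ℝ) * s - (Nat.fib l : ℝ) * sc) by ring, abs_mul, abs_of_pos hpi]
      exact mul_le_mul hpi4 (s4.trans hepsR) (abs_nonneg _) (by norm_num)
    have hd2' : |Real.pi * (Nat.fib l : ℝ) * s - 3 / 10 * Real.pi - a * Real.pi|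
        ≤ 4 * (1 / 1000) := by
      rw [show Real.pi * (Nat.fib l : ℝ) * s - 3 / 10 * Real.pi - a * Real.pi
        = Real.pi * ((Nat.fib l : ℝ) * s - 3 / 10 - a) by ring, abs_mul, abs_of_pos hpi]
      exact mul_le_mul hpi4 (s3.trans heps1) (abs_nonneg _) (by norm_num)
    rw [abs_le] at hTl hd1' hd2'
    have hp1 : 25 / 100 * Real.pi ≤ Real.pi * (Nat.fib m : ℝ) * s - (Z : ℝ) * Real.pi := by
      have h3 := mul_le_mul_of_nonneg_left h1 hpi.le
      have h4 : Real.pi * (Nat.fib m : ℝ) * s - (Z : ℝ) * Real.pi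
        = Real.pi * ((Nat.fib m : ℝ) * s - (Z : ℝ)) := by ring
      rw [h4, mul_comm]
      exact h3
    have hp2 : Real.pi * (Nat.fib m : ℝ) * s - (Z : ℝ) * Real.pi ≤ 35 / 100 * Real.pi := by
      have h3 := mul_le_mul_of_nonneg_left h2 hpi.le
      have h4 : Real.pi * (Nat.fib m : ℝ) * s - (Z : ℝ) * Real.pi
        = Real.pi * ((Nat.fib m : ℝ) * s - (Z : ℝ)) := by ring
      rw [h4, mul_comm (35 / 100 : ℝ)]
      exact h3
    rw [← hTm] at hC0 hC1 hPB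
    have hg := hgain (EE lam m s) t1 R T0 p0 T1 p1
      (by rw [abs_le]; constructor <;> linarith only [hTl.1, hTl.2, hd1'.1, hd1'.2])
      (hgood m l s hs0.1 hs0.2 hlm hLs) (hgood m m s hs0.1 hs0.2 le_rfl hLm) ht1g
      (by linarith only [hR80, hpi3, hTl.1, hTl.2, hd2'.1, hd2'.2]) (by linarith only [hR80, hpi3, hTl.1, hTl.2, hd2'.1, hd2'.2])
      (by rw [hTm]; exact hp1) (by rw [hTm]; exact hp2) ht1 hR0 hC0 hC1
    have hdl := hdel m m s R (d : ℤ) w T0 p0 T1 p1 hs0.1 hs0.2 hd1 hwm.1 hwm.2 (hdd m (by omega))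
      le_rfl hLm hR0 hC0 hC1
    rw [hTm] at hC0 hC1 hPB hg hdl
    refine ⟨T0, p0, T1, p1, hC0, hC1, hPB, hg, ?_⟩
    refine le_trans (hr.trans ?_) hdl
    have hl3 : (0 : ℝ) ≤ lam ^ 3 := pow_nonneg hlam.le 3
    apply div_le_div_of_nonneg_left hl3 (pow_pos (by linarith only [hCd]) m)
    calc Cd ^ m ≤ (Cd + 40) ^ m := pow_le_pow_left₀ (by linarith only [hCd]) (by linarith only) m
      _ ≤ (Cd + 40) ^ (k + (G + N0 + 4)) := pow_le_pow_right₀ (by linarith only [hCd]) hmT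
  clear hgain hpair
  -- the dead interval
  have hkn' : nk ≤ n - m + 1 := by omega
  have hmm : m - 1 + (n - m + 1) = n := by omega
  have hJ3 : fibz (JJ (d : ℤ) w (m - 1)) (JJ (d : ℤ) w m) (n - m + 1) = JJ (d : ℤ) w n := by
    have := fibz_comp (d : ℤ) (-w) (m - 1) (n - m + 1)
    unfold JJ
    rw [show m - 1 + 1 = m by omega, hmm] at this
    exact this
  obtain ⟨x0, hx0⟩ : ∃ x0, x0 = Real.pi * ((Z : ℝ) + 255 / 1000) := ⟨_, rfl⟩
  obtain ⟨x1, hx1⟩ : ∃ x1, x1 = Real.pi * ((Z : ℝ) + 345 / 1000) := ⟨_, rfl⟩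
  have hx01 : x0 ≤ x1 := by
    rw [hx0, hx1]
    exact mul_le_mul_of_nonneg_left (by linarith only) hpi.le
  have hx10 : x1 ≤ x0 + Real.pi := by
    have : x1 - x0 = Real.pi * (90 / 1000) := by rw [hx0, hx1]; ring
    linarith only [hpi, hx0, hx1]
  have hEm : Real.exp (-(2 / 5) * ((m : ℝ) - l0)) ≤ ek := by
    refine (hEl m hlm).trans (le_trans ?_ ge)
    calc lam ^ 2 = lam * lam := sq lam
      _ ≤ 1 * lam := mul_le_mul_of_nonneg_right (by linarith only [hlP1, gP]) hlam.le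
      _ = lam := one_mul _
  obtain ⟨y, hy⟩ := hkill m (n - m + 1) (JJ (d : ℤ) w (m - 1)) (JJ (d : ℤ) w m) x0 x1 D1 r
    (Real.exp (-(2 / 5) * ((m : ℝ) - l0)))
    (C4 * Real.exp (debtS (bkG k i l m) (K * l0) A (1 / 10) (C4 * l0) (m - K * l0)
      + 3 / 10 * ((m : ℝ) - l0)))
    (C4 * Real.exp (debtS (bkG k i l m) (K * l0) A (1 / 10) (C4 * l0) (m - K * l0)))
    (by omega) hkn' hx01 hx10 hD10 hr0 (Real.exp_pos _).le (mul_nonneg hC40.le (Real.exp_pos _).le)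
    (mul_nonneg hC40.le (Real.exp_pos _).le) hEm
    (hESl m m hlm hmT (Or.inr rfl)) (fun a' ha0 ha1 => by
      obtain ⟨s, hs⟩ : ∃ s, s = a' / (Real.pi * (Nat.fib m : ℝ)) := ⟨_, rfl⟩
      have e1 : Real.pi * (Nat.fib m : ℝ) * s = a' := by rw [hs]; field_simp
      have e2 : (Nat.fib m : ℝ) * s - (Z : ℝ) = (a' - Real.pi * (Z : ℝ)) / Real.pi := by
        rw [← e1]; field_simp
      have h1 : 25 / 100 ≤ (Nat.fib m : ℝ) * s - (Z : ℝ) := by
        rw [e2, le_div_iff₀ hpi]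
        rw [hx0, mul_add] at ha0
        linarith only [hpi, ha0]
      have h2 : (Nat.fib m : ℝ) * s - (Z : ℝ) ≤ 35 / 100 := by
        rw [e2, div_le_iff₀ hpi]
        rw [hx1, mul_add] at ha1
        linarith only [hpi, ha1]
      obtain ⟨T0, p0, T1, p1, k1, k2, k3, k4, k5⟩ := key s h1 h2
      rw [e1] at k1 k2 k3 k4 k5
      have h6 := (hst s h1 h2).2.2.2.2.2.2 m (by omega) (by omega)
      rw [e1] at h6
      exact ⟨le_trans (by norm_num) h6, T0, p0, T1, p1, k1, k2, k3, k4, k5⟩)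
  clear key hkill hdel
  rw [hmm, hJ3] at hy
  have hCD : C7 / D1 ≤ 1 / 200 := by
    rw [div_le_div_iff₀ hD10 (by norm_num), hD1]
    linarith only [hlB]
  obtain ⟨u', hu1, hu2, hu3⟩ := bk_choose (Z : ℝ) y
  obtain ⟨u, hu⟩ : ∃ u, u = ((Z : ℝ) + u') / (Nat.fib m : ℝ) := ⟨_, rfl⟩
  obtain ⟨v, hv⟩ : ∃ v, v = ((Z : ℝ) + (u' + 3 / 100)) / (Nat.fib m : ℝ) := ⟨_, rfl⟩
  have hfu : (Nat.fib m : ℝ) * u = (Z : ℝ) + u' := by rw [hu]; field_simp
  have hfv : (Nat.fib m : ℝ) * v = (Z : ℝ) + (u' + 3 / 100) := by rw [hv]; field_simp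
  refine ⟨u, v, (hst u (by linarith only [hu1, hfu]) (by linarith only [hu2, hfu])).1.le, (hst v (by linarith only [hu1, hfv]) (by linarith only [hu2, hfv])).2.1.le,
    ?_, ?_⟩
  · have e1 : v - u = (3 / 100) / (Nat.fib m : ℝ) := by rw [hu, hv]; ring
    rw [e1]
    have hF : (Nat.fib m : ℝ) ≤ (Nat.fib (k + (G + N0 + 4)) : ℝ) := by
      exact_mod_cast Nat.fib_mono hmT
    rw [div_le_div_iff₀ (mul_pos (by linarith only [hCd]) (hfm.trans_le hF)) hfm, one_mul]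
    calc (Nat.fib m : ℝ) ≤ (Nat.fib (k + (G + N0 + 4)) : ℝ) := hF
      _ = 3 / 100 * (100 / 3 * (Nat.fib (k + (G + N0 + 4)) : ℝ)) := by ring
      _ ≤ 3 / 100 * ((Cd + 40) * (Nat.fib (k + (G + N0 + 4)) : ℝ)) := by
          apply mul_le_mul_of_nonneg_left _ (by norm_num)
          apply mul_le_mul_of_nonneg_right _ (Nat.cast_nonneg _)
          linarith only [hCd]
  · intro s hs1 hs2 hLn
    by_contra hcon
    have hGr := not_lt.1 hcon
    have z1 : (Z : ℝ) + u' ≤ (Nat.fib m : ℝ) * s := by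
      rw [← hfu]; exact mul_le_mul_of_nonneg_left hs1 hfm.le
    have z2 : (Nat.fib m : ℝ) * s ≤ (Z : ℝ) + (u' + 3 / 100) := by
      rw [← hfv]; exact mul_le_mul_of_nonneg_left hs2 hfm.le
    obtain ⟨s1, s2, s3, s4, s5, s6⟩ := hst s (by linarith only [hu1, z1]) (by linarith only [hu2, z2])
    have hs0 := hnode s s1 s2
    have hwn := hw s n (by omega) s4
    have hLm : LG (1 / 11) m s := LG_mono s6 (by norm_num)
    obtain ⟨t1, ht1, ht1g, _⟩ := hsecond n n (d : ℤ) w s hs0.1 hs0.2 hwn.1 hwn.2 le_rfl hd1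
      (hdS n (by omega)) hLn
    have hTn := hTEq n s (by omega) hs0.1 hs0.2
    have hTn' := hTEq n (sh n (d : ℤ) w s) (by omega) hwn.1 hwn.2
    have hse := sh_self n (by omega) (d : ℤ) w s
    have hsin : Real.sin (TE lam t1 n) ≠ 0 := by
      intro h0
      have := ht1g.2 n (by omega) (by omega)
      simp only at this
      rw [h0, abs_zero] at this
      norm_num at this
    have ht1e : t1 = EE lam n (sh n (d : ℤ) w s) := by
      apply TE_inj lam hlam.le hl100 n (by omega) t1 _ _ hsin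
      rw [ht1, hTn, hTn', hse]
    have hnear := TE_near lam hlam.le hl100 n (by omega) s hs0.1 hs0.2 m (by omega)
    have hTm : |TE lam (EE lam n s) m - Real.pi * (Nat.fib m : ℝ) * s| ≤ 1 / 8000 :=
      hnear.trans (hlC.trans (by linarith only [hR80]))
    rw [abs_le] at hTm
    have z3 : Real.pi * ((Z : ℝ) + u') ≤ Real.pi * (Nat.fib m : ℝ) * s := by
      rw [mul_assoc]; exact mul_le_mul_of_nonneg_left z1 hpi.le
    have z4 : Real.pi * (Nat.fib m : ℝ) * s ≤ Real.pi * ((Z : ℝ) + (u' + 3 / 100)) := by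
      rw [mul_assoc]; exact mul_le_mul_of_nonneg_left z2 hpi.le
    have z5 : x0 + 15 / 1000 ≤ Real.pi * ((Z : ℝ) + u') := by
      have : Real.pi * ((Z : ℝ) + u') - x0 = Real.pi * (u' - 255 / 1000) := by rw [hx0]; ring
      have h7 : 3 * (5 / 1000) ≤ Real.pi * (u' - 255 / 1000) :=
        mul_le_mul hpi3.le (by linarith only [hu1]) (by norm_num) hpi.le
      linarith only [hx0, h7]
    have z6 : Real.pi * ((Z : ℝ) + (u' + 3 / 100)) ≤ x1 - 15 / 1000 := by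
      have : x1 - Real.pi * ((Z : ℝ) + (u' + 3 / 100)) = Real.pi * (345 / 1000 - (u' + 3 / 100)) := by
        rw [hx1]; ring
      have h7 : 3 * (5 / 1000) ≤ Real.pi * (345 / 1000 - (u' + 3 / 100)) :=
        mul_le_mul hpi3.le (by linarith only [hu2]) (by norm_num) hpi.le
      linarith only [hx1, h7]
    have hfin := hy (EE lam n s) (EE lam n (sh n (d : ℤ) w s))
      (hgood n m s hs0.1 hs0.2 hmn hLm) (hgood n n s hs0.1 hs0.2 le_rfl hLn)
      (by rw [← ht1e]; exact ht1g) (by rw [← ht1e]; exact ht1)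
      (by linarith only [z3, z5, hTm.1, hTm.2]) (by linarith only [z4, z6, hTm.1, hTm.2]) (by
        unfold Gr at hGr
        rw [bk_fract n d w s hwn.1 hwn.2] at hGr
        exact hGr)
    have h8 := abs_le.1 (hfin.trans hCD)
    apply hu3 ((Nat.fib m : ℝ) * s - (Z : ℝ)) (by linarith only [z1]) (by linarith only [z2])
    rw [show Real.pi * ((Z : ℝ) + ((Nat.fib m : ℝ) * s - (Z : ℝ))) = Real.pi * (Nat.fib m : ℝ) * s by
      ring, abs_le]
    constructor <;> linarith only [h8.1, h8.2, hTm.1, hTm.2]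

end SF
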