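import Pool.Agent.Helper65.SF.LRDefs
import Pool.Agent.Helper65.SF.CH

/-!
# SF-BK: definitions
-/

namespace SF

/-- Logarithm of the quotient of the slopes at level `n` at the points `s` and `s'`. -/
noncomputable def GG (lam : ℝ) (n : ℕ) (s s' : ℝ) : ℝ :=
  Real.log (deriv (fun t => TE lam t n) (EE lam n s) / deriv (fun t => TE lam t n) (EE lam n s'))

/-- `GG` for the rotated point. -/
noncomputable def Gr (lam : ℝ) (n d : ℕ) (s : ℝ) : ℝ :=
  GG lam n s (Int.fract (s + d * (Nat.fib (n - 1) : ℝ) / (Nat.fib n : ℝ)))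

end SF
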