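import Mathlib

/-!
# SF: the Fibonacci trace map, definitions

All objects for the square Fibonacci Hamiltonian project (MP_d7d3f3_mp).  The energy is replaced
by `t = -E`, so that all angle functions increase with the parameter.
-/

namespace SF

open Matrix

/-- The trace recursion `x (k+3) = 2 x (k+2) x (k+1) - x k` with given first three values. -/
def tr {R : Type*} [CommRing R] (p q w : R) : ℕ → R
  | 0 => p
  | 1 => q
  | 2 => w
  | (k + 3) => 2 * tr p q w (k + 2) * tr p q w (k + 1) - tr p q w k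

/-- The matrix recursion `M (k+2) = M k * M (k+1)`. -/
def mseq {G : Type*} [Mul G] (A B : G) : ℕ → G
  | 0 => A
  | 1 => B
  | (k + 2) => mseq A B k * mseq A B (k + 1)

/-- Two by two matrices. -/
abbrev M2 (K : Type*) := Matrix (Fin 2) (Fin 2) K

/-! ### The energy family -/

/-- Transfer matrices of the energy family, `t = -E`. -/
def eM {K : Type*} [CommRing K] (lam t : K) (k : ℕ) : M2 K :=
  mseq (!![1, -lam; 0, 1] : M2 K) (!![-t, -1; 1, 0] : M2 K) k

/-- Half traces of the energy family, `t = -E`. -/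
def X {K : Type*} [Field K] (lam t : K) (k : ℕ) : K := tr 1 (-t / 2) (-(t + lam) / 2) k

/-! ### The word family -/

/-- Rotation matrix. -/
noncomputable def rot (z : ℝ) : M2 ℝ := !![Real.cos z, -Real.sin z; Real.sin z, Real.cos z]

/-- Rotation matrix with complex angle. -/
noncomputable def rotC (z : ℂ) : M2 ℂ := !![Complex.cos z, -Complex.sin z; Complex.sin z, Complex.cos z]

/-- `qq lam b = lam / (2 |sin b|)`. -/
noncomputable def qq (lam b : ℝ) : ℝ := lam / (2 * |Real.sin b|)

/-- The radius `r(b)`, `r ^ 2 = 1 + lam ^ 2 / (4 sin ^ 2 b)`. -/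
noncomputable def rr (lam b : ℝ) : ℝ := Real.sqrt (1 + qq lam b ^ 2)

/-- The hyperbolic factor `diag (r + q, r - q)`. -/
noncomputable def hyp (lam b : ℝ) : M2 ℝ := !![rr lam b + qq lam b, 0; 0, rr lam b - qq lam b]

/-- Transfer matrices of the word family. -/
noncomputable def wM (lam b psi : ℝ) (k : ℕ) : M2 ℝ := mseq (rot psi * hyp lam b) (rot b) k

/-- Transfer matrices of the word family for complex `psi`. -/
noncomputable def wMC (lam b : ℝ) (z : ℂ) (k : ℕ) : M2 ℂ :=
  mseq (rotC z * (hyp lam b).map (fun x : ℝ => (x : ℂ))) ((rot b).map (fun x : ℝ => (x : ℂ))) k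

/-- Half traces of the word family: a state has middle angle `b` and coordinate `psi`. -/
noncomputable def W (lam b psi : ℝ) (k : ℕ) : ℝ :=
  tr (rr lam b * Real.cos psi) (Real.cos b) (rr lam b * Real.cos (psi + b)) k

/-- Half traces of the word family for complex `psi`. -/
noncomputable def WC (lam b : ℝ) (z : ℂ) (k : ℕ) : ℂ :=
  tr ((rr lam b : ℂ) * Complex.cos z) ((Real.cos b : ℝ) : ℂ)
    ((rr lam b : ℂ) * Complex.cos (z + (b : ℂ))) k

/-! ### Orientation, clipped circle points, lifts -/

/-- Orientation of an elliptic matrix: sign of the lower left entry. -/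
noncomputable def orient (M : M2 ℝ) : ℝ := if 0 ≤ M 1 0 then 1 else -1

/-- Clip to `[-1,1]`. -/
noncomputable def clip (x : ℝ) : ℝ := max (-1) (min 1 x)

/-- The circle point with real part `clip x` and imaginary part of sign `o`. -/
noncomputable def cpt (x o : ℝ) : ℂ := ⟨clip x, o * Real.sqrt (1 - clip x ^ 2)⟩

/-- A state sequence: half traces `x k` and orientations `o k`. -/
structure St (lam : ℝ) (x o : ℕ → ℝ) : Prop where
  rec3 : ∀ k, x (k + 3) = 2 * x (k + 2) * x (k + 1) - x k
  inv : ∀ k, x (k + 2) ^ 2 + x (k + 1) ^ 2 + x k ^ 2 - 2 * x (k + 2) * x (k + 1) * x k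
    = 1 + lam ^ 2 / 4
  ori : ∀ k, o k = 1 ∨ o k = -1
  rel1 : ∀ k, |x k| < 1 → |x (k + 1)| < 1 → (x (k + 2) - x (k + 1) * x k) * (o k * o (k + 1)) < 0
  rel2 : ∀ k, |x k| < 1 → |x (k + 2)| < 1 → 0 < (x (k + 1) - x k * x (k + 2)) * (o k * o (k + 2))
  start : |x 1| < 1 ∨ (x 0 = 1 ∧ |x 2 - x 1| ≤ lam)

/-- The circle points of a state sequence. -/
noncomputable def cc (x o : ℕ → ℝ) (k : ℕ) : ℂ := cpt (x k) (o k)

/-- The defect angle `arg (c (k+2) / (c (k+1) c k))`. -/
noncomputable def eta (x o : ℕ → ℝ) (k : ℕ) : ℝ :=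
  Complex.arg (cc x o (k + 2) * (starRingEnd ℂ) (cc x o (k + 1) * cc x o k))

/-- The lifted angles with given first two values. -/
noncomputable def lift (x o : ℕ → ℝ) (a0 a1 : ℝ) : ℕ → ℝ
  | 0 => a0
  | 1 => a1
  | (k + 2) => lift x o a0 a1 (k + 1) + lift x o a0 a1 k + eta x o k

/-- Orientation of the energy family. -/
noncomputable def oE (lam t : ℝ) (k : ℕ) : ℝ := orient (eM lam t k)

/-- Orientation of the word family. -/
noncomputable def oW (lam b psi : ℝ) (k : ℕ) : ℝ := orient (wM lam b psi k)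

/-- Lifted angles of the energy family (nondecreasing in `t`, from `0` to `pi * fib k`). -/
noncomputable def TE (lam t : ℝ) (k : ℕ) : ℝ :=
  lift (fun j => X lam t j) (fun j => oE lam t j) 0 (Real.arccos (-t / 2)) k

/-- The first lift of the word family: the angle of `r cos psi` near `psi`. -/
noncomputable def T0 (lam b psi : ℝ) : ℝ :=
  psi + Complex.arg (cpt (W lam b psi 0) (oW lam b psi 0) * Complex.exp (-(psi : ℂ) * Complex.I))

/-- Lifted angles of the word family. -/
noncomputable def TW (lam b psi : ℝ) (k : ℕ) : ℝ :=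
  lift (fun j => W lam b psi j) (fun j => oW lam b psi j) (T0 lam b psi) b k

/-- Coordinate `psi` of a state sequence at index `m >= 1` with lifted angles `th`:
`r exp (i psi) = x (m-1) + i (x (m-1) x m - x (m+1)) / sin (th m)`, near `th (m-1)`. -/
noncomputable def coord (x th : ℕ → ℝ) (m : ℕ) : ℝ :=
  th (m - 1) + Complex.arg ((⟨x (m - 1), (x (m - 1) * x m - x (m + 1)) / Real.sin (th m)⟩ : ℂ)
    * Complex.exp (-(th (m - 1) : ℂ) * Complex.I))

/-- `PP lam n a b` = the coordinate `psi` with `TW lam b psi n = a`. -/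
noncomputable def PP (lam : ℝ) (n : ℕ) (a b : ℝ) : ℝ := sInf {psi | a ≤ TW lam b psi n}

/-- The coordinate at index `n` of the state `(b, PP lam n a b)`. -/
noncomputable def QQ (lam : ℝ) (n : ℕ) (a b : ℝ) : ℝ :=
  coord (fun j => W lam b (PP lam n a b) j) (fun j => TW lam b (PP lam n a b) j) n

/-- Coordinate of the energy family at level `l >= 1`. -/
noncomputable def psiE (lam t : ℝ) (l : ℕ) : ℝ := coord (fun j => X lam t j) (fun j => TE lam t j) l

/-- `EE lam n s`: the parameter `t` with `TE lam t n = pi * fib n * s`. -/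
noncomputable def EE (lam : ℝ) (n : ℕ) (s : ℝ) : ℝ :=
  sInf {t | Real.pi * (Nat.fib n : ℝ) * s ≤ TE lam t n}

/-- Integer Fibonacci sequences. -/
def fibz (i j : ℤ) : ℕ → ℤ
  | 0 => i
  | 1 => j
  | (k + 2) => fibz i j (k + 1) + fibz i j k

end SF
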