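import Mathlib

/-!
# SF-ENDL: absolute continuity from Fourier decay and local mass (abstract)

Proof in words.  Work with 8 pi - periodic functions, frequencies `k/4`, `k` integer; all measures live in `[-6,6]`
(resp. nu in `[-10,10]`), inside one period.  Fejer kernel `F_R(x) = sum_{|k| < R} (1 - |k|/R) exp (i k x/4) >= 0`, mean value 1.
For a finite measure m put `(F_R m)(x) = int F_R(x - y) dm(y)` (trigonometric polynomial with coefficients
`(1-|k|/R)^+ m^(k/4)`), `P_R m = F_2R m - F_R m`, multiplier `m_R(k) <= min (1, |k|/R)`, zero for `|k| >= 2R`.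
Let `nu_n` = law of `-E n s` (s uniform in (0,1)), `nun2 = nu_n * nu_n`; by hypothesis the Fourier coefficients of nun2 at every
frequency converge to those of nu, so `P_R nun2 -> P_R nu` uniformly and `||P_R nu||_1 = lim ||P_R nun2||_1`.
For `n >= n0(4R)`: split `nu_n = typ + atyp` (s in T or not).  `||P_R(atyp * nu_n)||_1 <= 2 * 8pi * C R^(-bet)` (kernel norms).
`||P_R(typ * nu_n)||_1 <= sqrt(8 pi) ||.||_2 <= C sup_k (m_R(k) |nu_n^(k/4)|) (sum_{|k|<=2R} |typ^(k/4)|^2)^(1/2)`; the sup is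
`<= C R^(-gam)` (for `|k| >= 4` use the decay and `|k|/R <= (|k|/R)^gam` for `|k| <= R`; for `|k| < 4`, `m_R <= 4/R`);
`sum_{|k|<=2R} |typ^|^2 <= 2 sum (1-|k|/4R)|typ^|^2 = 2 int int F_4R(E s - E s')` over T x T
`<= C R sum_a 4^(-a) sup_x vol{s in T: |E s - x| <= 2^a/R}... <= C R^(eps1)`.
So `||P_R nu||_1 <= C (R^(-bet) + R^(-gam + eps1/2))`, summable over `R = 2^a`.  So `F_(2^a) nu` is Cauchy in L^1 of a period; let
p be the limit; for continuous periodic h, `int h (F_(2^a) nu) dx -> 8 pi int h dnu` (Fejer), so `nu` has density `p/(8 pi)`.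
-/

namespace SF

open MeasureTheory

namespace ENDL

noncomputable def ek (k : ℤ) (x : ℝ) : ℂ := Complex.exp (((k : ℝ) / 4 * x : ℝ) * Complex.I)

lemma ek_add_left (k l : ℤ) (x : ℝ) : ek (k + l) x = ek k x * ek l x := by
  unfold ek
  rw [← Complex.exp_add]
  congr 1
  push_cast
  ring

lemma ek_add_right (k : ℤ) (x y : ℝ) : ek k (x + y) = ek k x * ek k y := by
  unfold ek
  rw [← Complex.exp_add]
  congr 1
  push_cast
  ring

lemma ek_zero (x : ℝ) : ek 0 x = 1 := by
  simp [ek]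

lemma ek_at_zero (k : ℤ) : ek k 0 = 1 := by
  simp [ek]

lemma norm_ek (k : ℤ) (x : ℝ) : ‖ek k x‖ = 1 := by
  unfold ek
  exact Complex.norm_exp_ofReal_mul_I _

lemma ek_neg_neg (k : ℤ) (x : ℝ) : ek (-k) (-x) = ek k x := by
  unfold ek
  congr 2
  push_cast
  ring

lemma ek_neg_left (k : ℤ) (x : ℝ) : ek (-k) x = ek k (-x) := by
  unfold ek
  congr 2
  push_cast
  ring

lemma conj_ek (k : ℤ) (x : ℝ) : (starRingEnd ℂ) (ek k x) = ek (-k) x := by
  unfold ek
  rw [← Complex.exp_conj, map_mul, Complex.conj_I, Complex.conj_ofReal]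
  congr 1
  push_cast
  ring

lemma continuous_ek (k : ℤ) : Continuous (ek k) := by
  unfold ek
  fun_prop

lemma measurable_ek (k : ℤ) : Measurable (ek k) := (continuous_ek k).measurable

lemma integral_ek (k : ℤ) :
    ∫ x in (-(4 * Real.pi))..(4 * Real.pi), ek k x = if k = 0 then ((8 * Real.pi : ℝ) : ℂ) else 0 := by
  split_ifs with h
  · subst h
    simp only [ek_zero]
    rw [intervalIntegral.integral_const]
    simp
    ring
  · unfold ek
    have hk : ((k : ℂ) / 4 * Complex.I) ≠ 0 := by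
      apply mul_ne_zero _ Complex.I_ne_zero
      apply div_ne_zero _ (by norm_num)
      exact_mod_cast h
    have h1 : ∀ x : ℝ, Complex.exp (((k : ℝ) / 4 * x : ℝ) * Complex.I) = Complex.exp ((k : ℂ) / 4 * Complex.I * x) := by
      intro x
      congr 1
      push_cast
      ring
    simp only [h1]
    rw [integral_exp_mul_complex hk]
    have h2 : Complex.exp ((k : ℂ) / 4 * Complex.I * ((4 * Real.pi : ℝ) : ℂ)) =
        Complex.exp ((k : ℂ) / 4 * Complex.I * ((-(4 * Real.pi) : ℝ) : ℂ)) := by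
      rw [Complex.exp_eq_exp_iff_exists_int]
      refine ⟨k, ?_⟩
      push_cast
      ring
    rw [h2]
    simp

/-- triangular weights -/
noncomputable def w (N : ℕ) (k : ℤ) : ℝ := max 0 (1 - |(k : ℝ)| / N)

lemma w_nonneg (N : ℕ) (k : ℤ) : 0 ≤ w N k := le_max_left _ _

lemma sum_Icc_sym (g : ℤ → ℂ) (N : ℕ) :
    ∑ k ∈ Finset.Icc (-(N : ℤ)) N, g k =
      ∑ j ∈ Finset.range N, g ((j : ℤ) - N) + ∑ l ∈ Finset.range (N + 1), g ((N : ℤ) - l) := by
  induction N with
  | zero => simp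
  | succ N ih =>
    have h1 : Finset.Icc (-((N + 1 : ℕ) : ℤ)) ((N + 1 : ℕ) : ℤ) =
        insert (-((N + 1 : ℕ) : ℤ)) (insert (((N + 1 : ℕ) : ℤ)) (Finset.Icc (-(N : ℤ)) N)) := by
      ext k
      simp only [Finset.mem_Icc, Finset.mem_insert]
      push_cast
      omega
    rw [h1, Finset.sum_insert, Finset.sum_insert, ih]
    · rw [Finset.sum_range_succ' (fun j => g ((j : ℤ) - ((N + 1 : ℕ) : ℤ))) N,
        Finset.sum_range_succ' (fun l => g (((N + 1 : ℕ) : ℤ) - (l : ℤ))) (N + 1)]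
      push_cast
      have h2 : ∀ j : ℕ, ((j : ℤ) + 1 - ((N : ℤ) + 1)) = (j : ℤ) - N := fun j => by ring
      have h3 : ∀ l : ℕ, ((N : ℤ) + 1 - ((l : ℤ) + 1)) = (N : ℤ) - l := fun j => by ring
      simp only [h2, h3, sub_zero, zero_sub]
      ring
    · simp only [Finset.mem_Icc]
      push_cast
      omega
    · simp only [Finset.mem_Icc, Finset.mem_insert]
      push_cast
      omega

lemma double_sum (g : ℤ → ℂ) (M N : ℕ) (hNM : N ≤ M) :
    ∑ j ∈ Finset.range N, ∑ l ∈ Finset.range N, g ((j : ℤ) - l) =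
      ∑ k ∈ Finset.Ioo (-(M : ℤ)) M, ((max 0 ((N : ℝ) - |(k : ℝ)|) : ℝ) : ℂ) * g k := by
  induction N with
  | zero =>
    simp only [Finset.range_zero, Finset.sum_empty]
    symm
    apply Finset.sum_eq_zero
    intro k hk
    have : max 0 (((0 : ℕ) : ℝ) - |(k : ℝ)|) = 0 := by
      apply max_eq_left
      simp
    rw [this]
    simp
  | succ N ih =>
    have ih' := ih (by omega)
    have h1 : ∑ j ∈ Finset.range (N + 1), ∑ l ∈ Finset.range (N + 1), g ((j : ℤ) - l) =
        ∑ j ∈ Finset.range N, ∑ l ∈ Finset.range N, g ((j : ℤ) - l) +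
          (∑ j ∈ Finset.range N, g ((j : ℤ) - N) + ∑ l ∈ Finset.range (N + 1), g ((N : ℤ) - l)) := by
      rw [Finset.sum_range_succ]
      have : ∀ j : ℕ, ∑ l ∈ Finset.range (N + 1), g ((j : ℤ) - l) =
          ∑ l ∈ Finset.range N, g ((j : ℤ) - l) + g ((j : ℤ) - N) := fun j => by
        rw [Finset.sum_range_succ]
      rw [Finset.sum_congr rfl (fun j _ => this j), Finset.sum_add_distrib]
      ring
    rw [h1, ← sum_Icc_sym, ih']
    have h2 : ∑ k ∈ Finset.Icc (-(N : ℤ)) N, g k =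
        ∑ k ∈ Finset.Ioo (-(M : ℤ)) M, (if k ∈ Finset.Icc (-(N : ℤ)) N then (1 : ℂ) else 0) * g k := by
      rw [← Finset.sum_subset (s₁ := Finset.Icc (-(N : ℤ)) N) (s₂ := Finset.Ioo (-(M : ℤ)) M)]
      · apply Finset.sum_congr rfl
        intro k hk
        rw [if_pos hk]
        simp
      · intro k hk
        simp only [Finset.mem_Icc, Finset.mem_Ioo] at hk ⊢
        omega
      · intro k _ hk
        rw [if_neg hk]
        simp
    rw [h2, ← Finset.sum_add_distrib]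
    apply Finset.sum_congr rfl
    intro k _
    rw [← add_mul]
    congr 1
    split_ifs with hk
    · rw [Finset.mem_Icc] at hk
      have hk' : |(k : ℝ)| ≤ N := by
        rw [abs_le]
        constructor
        · exact_mod_cast hk.1
        · exact_mod_cast hk.2
      rw [max_eq_right (by linarith), max_eq_right (by push_cast; linarith)]
      push_cast
      ring
    · rw [Finset.mem_Icc] at hk
      have hk' : ((N : ℝ) + 1) ≤ |(k : ℝ)| := by
        have h3 : (N : ℤ) + 1 ≤ |k| := by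
          by_contra hcon
          apply hk
          have : |k| ≤ N := by omega
          exact abs_le.mp this
        have : (((N : ℤ) + 1 : ℤ) : ℝ) ≤ ((|k| : ℤ) : ℝ) := by exact_mod_cast h3
        push_cast at this
        exact this
      rw [max_eq_left (by linarith), max_eq_left (by push_cast; linarith)]
      simp

lemma fejer_sum (g : ℤ → ℂ) (M N : ℕ) (hN : 1 ≤ N) (hNM : N ≤ M) :
    ∑ k ∈ Finset.Ioo (-(M : ℤ)) M, (w N k : ℂ) * g k =
      (1 / (N : ℂ)) * ∑ j ∈ Finset.range N, ∑ l ∈ Finset.range N, g ((j : ℤ) - l) := by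
  rw [double_sum g M N hNM, Finset.mul_sum]
  apply Finset.sum_congr rfl
  intro k _
  rw [← mul_assoc]
  congr 1
  unfold w
  have hN' : (0:ℝ) < N := by exact_mod_cast hN
  have h1 : max 0 (1 - |(k : ℝ)| / N) = (1 / (N : ℝ)) * max 0 ((N : ℝ) - |(k : ℝ)|) := by
    rw [mul_max_of_nonneg _ _ (by positivity)]
    congr 1
    · simp
    · field_simp
  rw [h1]
  push_cast
  ring

/-- the Fejer kernel is nonnegative -/
lemma fejer_nonneg (M N : ℕ) (hN : 1 ≤ N) (hNM : N ≤ M) (z : ℝ) :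
    ∑ k ∈ Finset.Ioo (-(M : ℤ)) M, (w N k : ℂ) * ek k z =
      (((1 / (N : ℝ)) * ‖∑ j ∈ Finset.range N, ek (j : ℤ) z‖ ^ 2 : ℝ) : ℂ) := by
  rw [fejer_sum (fun k => ek k z) M N hN hNM]
  push_cast
  congr 1
  rw [← Complex.mul_conj' (∑ j ∈ Finset.range N, ek (j : ℤ) z), map_sum, Finset.sum_mul]
  apply Finset.sum_congr rfl
  intro j _
  rw [Finset.mul_sum]
  apply Finset.sum_congr rfl
  intro l _
  rw [conj_ek, sub_eq_add_neg, ek_add_left]

lemma ek_mul_ek_neg (k : ℤ) (x y : ℝ) : ek k y * ek (-k) x = ek k (y - x) := by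
  rw [sub_eq_add_neg, ek_add_right, ek_neg_left]

lemma integrable_ek (eta : Measure ℝ) [IsFiniteMeasure eta] (k : ℤ) (c : ℝ) :
    Integrable (fun y => ek k (y - c)) eta := by
  apply Integrable.of_bound (C := 1)
  · exact ((continuous_ek k).comp (continuous_id.sub continuous_const)).aestronglyMeasurable
  · exact Filter.Eventually.of_forall fun y => by rw [norm_ek]

lemma L1_fejer (eta : Measure ℝ) [IsFiniteMeasure eta] (M N : ℕ) (hN : 1 ≤ N) (hNM : N ≤ M) :
    ∫ x in (-(4 * Real.pi))..(4 * Real.pi),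
      ‖∑ k ∈ Finset.Ioo (-(M : ℤ)) M, (w N k : ℂ) * (∫ y, ek k y ∂eta) * ek (-k) x‖ =
      8 * Real.pi * eta.real Set.univ := by
  have hG : ∀ x : ℝ, ∑ k ∈ Finset.Ioo (-(M : ℤ)) M, (w N k : ℂ) * (∫ y, ek k y ∂eta) * ek (-k) x =
      ((∫ y, (1 / (N : ℝ)) * ‖∑ j ∈ Finset.range N, ek (j : ℤ) (y - x)‖ ^ 2 ∂eta : ℝ) : ℂ) := by
    intro x
    rw [← integral_complex_ofReal]
    have h1 : ∀ y : ℝ, (((1 / (N : ℝ)) * ‖∑ j ∈ Finset.range N, ek (j : ℤ) (y - x)‖ ^ 2 : ℝ) : ℂ) =
        ∑ k ∈ Finset.Ioo (-(M : ℤ)) M, (w N k : ℂ) * ek k (y - x) := fun y =>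
      (fejer_nonneg M N hN hNM (y - x)).symm
    simp only [h1]
    rw [integral_finsetSum]
    · apply Finset.sum_congr rfl
      intro k _
      rw [integral_const_mul, mul_assoc]
      congr 1
      rw [← integral_mul_const]
      congr 1
      ext y
      rw [ek_mul_ek_neg]
    · intro k _
      exact (integrable_ek eta k x).const_mul _
  have hnn : ∀ x : ℝ, 0 ≤ ∫ y, (1 / (N : ℝ)) * ‖∑ j ∈ Finset.range N, ek (j : ℤ) (y - x)‖ ^ 2 ∂eta := by
    intro x
    apply integral_nonneg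
    intro y
    simp only [Pi.zero_apply]
    positivity
  have hn : ∀ x : ℝ, ‖∑ k ∈ Finset.Ioo (-(M : ℤ)) M, (w N k : ℂ) * (∫ y, ek k y ∂eta) * ek (-k) x‖ =
      ∫ y, (1 / (N : ℝ)) * ‖∑ j ∈ Finset.range N, ek (j : ℤ) (y - x)‖ ^ 2 ∂eta := by
    intro x
    rw [hG x, Complex.norm_real, Real.norm_of_nonneg (hnn x)]
  have hC : ((∫ x in (-(4 * Real.pi))..(4 * Real.pi),
      ‖∑ k ∈ Finset.Ioo (-(M : ℤ)) M, (w N k : ℂ) * (∫ y, ek k y ∂eta) * ek (-k) x‖ : ℝ) : ℂ) =
      ((8 * Real.pi * eta.real Set.univ : ℝ) : ℂ) := by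
    rw [← intervalIntegral.integral_ofReal]
    have h2 : ∀ x : ℝ, ((‖∑ k ∈ Finset.Ioo (-(M : ℤ)) M, (w N k : ℂ) * (∫ y, ek k y ∂eta) * ek (-k) x‖ : ℝ) : ℂ) =
        ∑ k ∈ Finset.Ioo (-(M : ℤ)) M, (w N k : ℂ) * (∫ y, ek k y ∂eta) * ek (-k) x := by
      intro x
      rw [hn x, hG x]
    simp only [h2]
    rw [intervalIntegral.integral_finsetSum]
    · rw [Finset.sum_eq_single (0 : ℤ)]
      · rw [intervalIntegral.integral_const_mul, integral_ek]
        simp only [neg_zero, if_true, ek_zero]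
        simp [w, Measure.real]
        ring
      · intro k _ hk
        rw [intervalIntegral.integral_const_mul, integral_ek, if_neg (by simpa using hk), mul_zero]
      · intro h0
        exfalso
        apply h0
        rw [Finset.mem_Ioo]
        omega
    · intro k _
      exact ((continuous_ek (-k)).const_mul _).intervalIntegrable _ _
  exact_mod_cast hC

lemma parseval (A : Finset ℤ) (b : ℤ → ℂ) :
    ∫ x in (-(4 * Real.pi))..(4 * Real.pi), ‖∑ k ∈ A, b k * ek (-k) x‖ ^ 2 =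
      8 * Real.pi * ∑ k ∈ A, ‖b k‖ ^ 2 := by
  have hC : ((∫ x in (-(4 * Real.pi))..(4 * Real.pi), ‖∑ k ∈ A, b k * ek (-k) x‖ ^ 2 : ℝ) : ℂ) =
      ((8 * Real.pi * ∑ k ∈ A, ‖b k‖ ^ 2 : ℝ) : ℂ) := by
    rw [← intervalIntegral.integral_ofReal]
    have h2 : ∀ x : ℝ, ((‖∑ k ∈ A, b k * ek (-k) x‖ ^ 2 : ℝ) : ℂ) =
        ∑ k ∈ A, ∑ l ∈ A, b k * (starRingEnd ℂ) (b l) * ek (l - k) x := by
      intro x
      push_cast
      rw [← Complex.mul_conj', map_sum, Finset.sum_mul]
      apply Finset.sum_congr rfl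
      intro k _
      rw [Finset.mul_sum]
      apply Finset.sum_congr rfl
      intro l _
      rw [map_mul, conj_ek, neg_neg, sub_eq_add_neg, ek_add_left]
      ring
    simp only [h2]
    rw [intervalIntegral.integral_finsetSum]
    · push_cast
      rw [Finset.mul_sum]
      apply Finset.sum_congr rfl
      intro k hk
      rw [intervalIntegral.integral_finsetSum]
      · rw [Finset.sum_eq_single k]
        · rw [intervalIntegral.integral_const_mul, integral_ek, if_pos (by ring), ← Complex.mul_conj']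
          push_cast
          ring
        · intro l _ hl
          rw [intervalIntegral.integral_const_mul, integral_ek, if_neg (sub_ne_zero.mpr hl), mul_zero]
        · intro h
          exact absurd hk h
      · intro l _
        exact ((continuous_ek (l - k)).const_mul _).intervalIntegrable _ _
    · intro k _
      apply Continuous.intervalIntegrable
      apply continuous_finsetSum
      intro l _
      exact (continuous_ek (l - k)).const_mul _
  exact_mod_cast hC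

lemma bessel (A : Finset ℤ) (u : ℝ → ℝ) (hu : IntervalIntegrable u volume (-(4 * Real.pi)) (4 * Real.pi))
    (hu2 : IntervalIntegrable (fun x => u x ^ 2) volume (-(4 * Real.pi)) (4 * Real.pi)) :
    ∑ k ∈ A, ‖∫ x in (-(4 * Real.pi))..(4 * Real.pi), ek k x * (u x : ℂ)‖ ^ 2 ≤
      8 * Real.pi * ∫ x in (-(4 * Real.pi))..(4 * Real.pi), u x ^ 2 := by
  set c : ℤ → ℂ := fun k => ∫ x in (-(4 * Real.pi))..(4 * Real.pi), ek k x * (u x : ℂ) with hc
  have hpi := Real.pi_pos
  have hle : (-(4 * Real.pi)) ≤ 4 * Real.pi := by linarith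
  have huC : IntervalIntegrable (fun x => (u x : ℂ)) volume (-(4 * Real.pi)) (4 * Real.pi) := ⟨hu.1.ofReal, hu.2.ofReal⟩
  have hii : ∀ k : ℤ, IntervalIntegrable (fun x => ek k x * (u x : ℂ)) volume (-(4 * Real.pi)) (4 * Real.pi) := by
    intro k
    exact huC.continuousOn_mul (continuous_ek k).continuousOn
  have h1 : ((∑ k ∈ A, ‖c k‖ ^ 2 : ℝ) : ℂ) =
      ∫ x in (-(4 * Real.pi))..(4 * Real.pi), (∑ k ∈ A, (starRingEnd ℂ) (c k) * ek k x) * (u x : ℂ) := by
    have h2 : ∀ x : ℝ, (∑ k ∈ A, (starRingEnd ℂ) (c k) * ek k x) * (u x : ℂ) =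
        ∑ k ∈ A, (starRingEnd ℂ) (c k) * (ek k x * (u x : ℂ)) := by
      intro x
      rw [Finset.sum_mul]
      apply Finset.sum_congr rfl
      intro k _
      ring
    simp only [h2]
    rw [intervalIntegral.integral_finsetSum]
    · push_cast
      apply Finset.sum_congr rfl
      intro k _
      rw [intervalIntegral.integral_const_mul, ← Complex.mul_conj' (c k), mul_comm]
    · intro k _
      exact (hii k).const_mul _
  have hq : ∀ x : ℝ, ‖∑ k ∈ A, (starRingEnd ℂ) (c k) * ek k x‖ = ‖∑ k ∈ A, c k * ek (-k) x‖ := by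
    intro x
    rw [← RCLike.norm_conj (∑ k ∈ A, (starRingEnd ℂ) (c k) * ek k x), map_sum]
    congr 1
    apply Finset.sum_congr rfl
    intro k _
    rw [map_mul, conj_ek, Complex.conj_conj]
  have hqc : Continuous (fun x : ℝ => ‖∑ k ∈ A, c k * ek (-k) x‖ ^ 2) := by
    apply Continuous.pow
    apply Continuous.norm
    apply continuous_finsetSum
    intro l _
    exact (continuous_ek (-l)).const_mul _
  have h3 : ∑ k ∈ A, ‖c k‖ ^ 2 ≤ ∫ x in (-(4 * Real.pi))..(4 * Real.pi),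
      ((4 * Real.pi) * u x ^ 2 + (1 / (16 * Real.pi)) * ‖∑ k ∈ A, c k * ek (-k) x‖ ^ 2) := by
    have h4 : ∑ k ∈ A, ‖c k‖ ^ 2 = ‖((∑ k ∈ A, ‖c k‖ ^ 2 : ℝ) : ℂ)‖ := by
      rw [Complex.norm_real, Real.norm_of_nonneg (Finset.sum_nonneg fun k _ => by positivity)]
    rw [h4, h1]
    refine (intervalIntegral.norm_integral_le_integral_norm hle).trans ?_
    apply intervalIntegral.integral_mono_on hle
    · apply IntervalIntegrable.norm
      apply huC.continuousOn_mul
      apply Continuous.continuousOn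
      apply continuous_finsetSum
      intro l _
      exact (continuous_ek l).const_mul _
    · exact (hu2.const_mul _).add ((hqc.const_mul _).intervalIntegrable _ _)
    · intro x _
      rw [norm_mul, hq x, Complex.norm_real]
      have h5 : ‖u x‖ ^ 2 = u x ^ 2 := by rw [Real.norm_eq_abs, sq_abs]
      rw [← h5]
      set p := ‖∑ k ∈ A, c k * ek (-k) x‖
      set v := ‖u x‖
      have h6 : (4 * Real.pi) * v ^ 2 + (1 / (16 * Real.pi)) * p ^ 2 - p * v =
          (1 / (16 * Real.pi)) * (p - 8 * Real.pi * v) ^ 2 := by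
        field_simp
        ring
      have h7 : 0 ≤ (1 / (16 * Real.pi)) * (p - 8 * Real.pi * v) ^ 2 := by positivity
      linarith
  rw [intervalIntegral.integral_add (hu2.const_mul _) ((hqc.const_mul _).intervalIntegrable _ _),
    intervalIntegral.integral_const_mul, intervalIntegral.integral_const_mul, parseval] at h3
  have h8 : (1 / (16 * Real.pi)) * (8 * Real.pi * ∑ k ∈ A, ‖c k‖ ^ 2) = (1 / 2) * ∑ k ∈ A, ‖c k‖ ^ 2 := by
    field_simp
    ring
  rw [h8] at h3
  linarith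

lemma W_bound (N : ℕ) (hN : 1 ≤ N) (k : ℤ) (hk : k ∈ Finset.Ioo (-((2 * N : ℕ) : ℤ)) ((2 * N : ℕ) : ℤ)) :
    1 / (N : ℝ) ≤ ‖∫ z in (-(1 / (N : ℝ)))..(1 / (N : ℝ)), ek k z‖ := by
  have hN' : (0:ℝ) < N := by exact_mod_cast hN
  have hle : (-(1 / (N : ℝ))) ≤ 1 / (N : ℝ) := by
    have : 0 < 1 / (N : ℝ) := by positivity
    linarith
  refine le_trans ?_ (Complex.re_le_norm _)
  have h1 : (∫ z in (-(1 / (N : ℝ)))..(1 / (N : ℝ)), ek k z).re =
      ∫ z in (-(1 / (N : ℝ)))..(1 / (N : ℝ)), (ek k z).re := by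
    rw [← Complex.reCLM_apply, ← ContinuousLinearMap.intervalIntegral_comp_comm]
    · rfl
    · exact (continuous_ek k).intervalIntegrable _ _
  rw [h1]
  have h2 : ∫ z in (-(1 / (N : ℝ)))..(1 / (N : ℝ)), (1 / 2 : ℝ) ≤
      ∫ z in (-(1 / (N : ℝ)))..(1 / (N : ℝ)), (ek k z).re := by
    apply intervalIntegral.integral_mono_on hle
    · exact intervalIntegrable_const
    · exact (Complex.continuous_re.comp (continuous_ek k)).intervalIntegrable _ _
    · intro z hz
      unfold ek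
      rw [Complex.exp_ofReal_mul_I_re]
      have h3 := Real.one_sub_sq_div_two_le_cos (x := (k : ℝ) / 4 * z)
      have h4 : |(k : ℝ) / 4 * z| ≤ 1 / 2 := by
        rw [abs_mul, abs_div]
        have h5 : |(k : ℝ)| ≤ 2 * N := by
          rw [Finset.mem_Ioo] at hk
          rw [abs_le]
          push_cast at hk
          constructor
          · have : (-(2 * (N:ℤ)) : ℤ) ≤ k := by omega
            exact_mod_cast this
          · have : k ≤ (2 * (N:ℤ) : ℤ) := by omega
            exact_mod_cast this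
        have h6 : |z| ≤ 1 / N := abs_le.mpr ⟨hz.1, hz.2⟩
        have h7 : |(4 : ℝ)| = 4 := by norm_num
        rw [h7]
        calc |(k : ℝ)| / 4 * |z| ≤ (2 * N) / 4 * (1 / N) := by gcongr
          _ = 1 / 2 := by field_simp; norm_num
      have h5 : ((k : ℝ) / 4 * z) ^ 2 ≤ 1 := by
        rw [← sq_abs]
        nlinarith [abs_nonneg ((k : ℝ) / 4 * z)]
      linarith
  rw [intervalIntegral.integral_const] at h2
  have h3 : (1 / (N : ℝ) - -(1 / (N : ℝ))) • (1 / 2 : ℝ) = 1 / N := by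
    rw [smul_eq_mul]; ring
  rw [h3] at h2
  exact h2

lemma mass_L2 (E : ℝ → ℝ) (hE : Measurable E) (hb : ∀ s, |E s| ≤ 3) (T : Set ℝ) (hT : MeasurableSet T)
    (hT1 : T ⊆ Set.Ioo 0 1) (N : ℕ) (hN : 1 ≤ N) (L : ℝ) (hL : 0 ≤ L)
    (hm : ∀ x : ℝ, volume {s | s ∈ T ∧ |E s - x| ≤ 1 / N} ≤ ENNReal.ofReal L) :
    ∑ k ∈ Finset.Ioo (-((2 * N : ℕ) : ℤ)) ((2 * N : ℕ) : ℤ), ‖∫ s in T, ek k (-E s)‖ ^ 2 ≤
      16 * Real.pi * N * L := by
  have hN' : (0:ℝ) < N := by exact_mod_cast hN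
  have hN1 : (1:ℝ) ≤ N := by exact_mod_cast hN
  set h : ℝ := 1 / (N : ℝ) with hh
  have hpos : 0 < h := by positivity
  have hh1 : h ≤ 1 := by
    rw [hh, div_le_one hN']
    exact hN1
  have hpi := Real.pi_gt_three
  have hTfin : volume T < ⊤ := lt_of_le_of_lt (measure_mono hT1) (by simp)
  have hTle : volume.real T ≤ 1 := by
    have h1 : volume.real T ≤ volume.real (Set.Ioo (0:ℝ) 1) :=
      measureReal_mono hT1 (by simp)
    have h2 : volume.real (Set.Ioo (0:ℝ) 1) = 1 := by simp [Measure.real]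
    linarith
  have hfinT : IsFiniteMeasure (volume.restrict T) := ⟨by rw [Measure.restrict_apply_univ]; exact hTfin⟩
  let ind : ℝ → ℝ → ℝ := fun x s => if |x + E s| ≤ h then 1 else 0
  have hindm : Measurable (fun p : ℝ × ℝ => ind p.1 p.2) := by
    apply Measurable.ite
    · apply measurableSet_le
      · have : Measurable (fun p : ℝ × ℝ => p.1 + E p.2) := measurable_fst.add (hE.comp measurable_snd)
        exact this.abs
      · exact measurable_const
    · exact measurable_const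
    · exact measurable_const
  have hind0 : ∀ x s, 0 ≤ ind x s := fun x s => by
    simp only [ind]; split_ifs <;> norm_num
  have hind1 : ∀ x s, ind x s ≤ 1 := fun x s => by
    simp only [ind]; split_ifs <;> norm_num
  let u : ℝ → ℝ := fun x => ∫ s in T, ind x s
  have hum : StronglyMeasurable u := by
    apply StronglyMeasurable.integral_prod_right' (f := fun p : ℝ × ℝ => ind p.1 p.2)
    exact hindm.stronglyMeasurable
  have hu0 : ∀ x, 0 ≤ u x := fun x => integral_nonneg fun s => hind0 x s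
  have huL : ∀ x, u x ≤ L := by
    intro x
    have h1 : u x = (volume {s | s ∈ T ∧ |E s - (-x)| ≤ 1 / N}).toReal := by
      have hset : MeasurableSet {s | |x + E s| ≤ h} :=
        measurableSet_le (measurable_const.add hE).abs measurable_const
      have h2 : ∀ s, ind x s = Set.indicator {s | |x + E s| ≤ h} (fun _ => (1:ℝ)) s := by
        intro s
        simp only [ind, Set.indicator, Set.mem_ofPred_eq]
      simp only [u]
      rw [integral_congr_ae (Filter.Eventually.of_forall h2), integral_indicator_const _ hset, smul_eq_mul, mul_one,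
        Measure.real, Measure.restrict_apply hset]
      congr 2
      ext s
      simp only [Set.mem_inter_iff, Set.mem_ofPred_eq]
      rw [and_comm, sub_neg_eq_add, add_comm x]
    rw [h1]
    exact ENNReal.toReal_le_of_le_ofReal hL (hm _)
  have huint : IntervalIntegrable u volume (-(4 * Real.pi)) (4 * Real.pi) := by
    rw [intervalIntegrable_iff]
    apply Measure.integrableOn_of_bounded (M := L)
    · simp [Set.uIoc]
    · exact hum.aestronglyMeasurable
    · exact Filter.Eventually.of_forall fun x => by rw [Real.norm_of_nonneg (hu0 x)]; exact huL x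
  have hu2int : IntervalIntegrable (fun x => u x ^ 2) volume (-(4 * Real.pi)) (4 * Real.pi) := by
    rw [intervalIntegrable_iff]
    have h1 : ∀ x, ‖u x ^ 2‖ ≤ L ^ 2 := fun x => by
        rw [Real.norm_of_nonneg (by positivity)]
        exact pow_le_pow_left₀ (hu0 x) (huL x) 2
    exact Measure.integrableOn_of_bounded (M := L ^ 2) (by simp [Set.uIoc]) (hum.pow 2).aestronglyMeasurable
      (Filter.Eventually.of_forall h1)
  have hcoef : ∀ k : ℤ, ∫ x in (-(4 * Real.pi))..(4 * Real.pi), ek k x * (u x : ℂ) =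
      (∫ s in T, ek k (-E s)) * ∫ z in (-h)..h, ek k z := by
    intro k
    have h1 : ∀ x : ℝ, ek k x * (u x : ℂ) = ∫ s in T, ek k x * (ind x s : ℂ) := by
      intro x
      rw [integral_const_mul]
      congr 1
      simp only [u]
      rw [integral_complex_ofReal]
    simp only [h1]
    rw [intervalIntegral.integral_of_le (by linarith)]
    rw [integral_integral_swap]
    · rw [← integral_mul_const]
      apply setIntegral_congr_fun hT
      intro s _
      simp only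
      have hs := abs_le.mp (hb s)
      have h2 : ∀ x : ℝ, ek k x * (ind x s : ℂ) = Set.indicator (Set.Icc (-E s - h) (-E s + h)) (ek k) x := by
        intro x
        simp only [ind, Set.indicator, Set.mem_Icc]
        have h3 : |x + E s| ≤ h ↔ -E s - h ≤ x ∧ x ≤ -E s + h := by
          rw [abs_le]
          constructor <;> rintro ⟨h4, h5⟩ <;> constructor <;> linarith
        by_cases h4 : |x + E s| ≤ h
        · rw [if_pos h4, if_pos (h3.mp h4)]; simp
        · rw [if_neg h4, if_neg (fun h5 => h4 (h3.mpr h5))]; simp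
      rw [integral_congr_ae (Filter.Eventually.of_forall h2), integral_indicator measurableSet_Icc,
        Measure.restrict_restrict measurableSet_Icc]
      have h3 : Set.Icc (-E s - h) (-E s + h) ∩ Set.Ioc (-(4 * Real.pi)) (4 * Real.pi) =
          Set.Icc (-E s - h) (-E s + h) := by
        apply Set.inter_eq_left.mpr
        intro x hx
        constructor
        · linarith [hx.1]
        · linarith [hx.2]
      rw [h3, integral_Icc_eq_integral_Ioc, ← intervalIntegral.integral_of_le (by linarith)]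
      have h4 : ∫ x in (-E s - h)..(-E s + h), ek k x = ∫ z in (-h)..h, ek k (z + -E s) := by
        rw [intervalIntegral.integral_comp_add_right]
        congr 1 <;> ring
      rw [h4]
      simp only [ek_add_right]
      rw [intervalIntegral.integral_mul_const, mul_comm]
    · have : IsFiniteMeasure (volume.restrict (Set.Ioc (-(4 * Real.pi)) (4 * Real.pi))) :=
        ⟨by rw [Measure.restrict_apply_univ]; simp⟩
      apply Integrable.of_bound (C := 1)
      · apply Measurable.aestronglyMeasurable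
        apply Measurable.mul
        · exact (measurable_ek k).comp measurable_fst
        · exact Complex.measurable_ofReal.comp hindm
      · apply Filter.Eventually.of_forall
        rintro ⟨x, s⟩
        simp only [Function.uncurry]
        rw [norm_mul, norm_ek, one_mul, Complex.norm_real, Real.norm_of_nonneg (hind0 x s)]
        exact hind1 x s
  have hint : ∫ x in (-(4 * Real.pi))..(4 * Real.pi), u x ≤ 2 * h := by
    have h1 := hcoef 0
    simp only [ek_zero, one_mul] at h1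
    rw [intervalIntegral.integral_ofReal, intervalIntegral.integral_const, setIntegral_const] at h1
    have h2 : (volume.real T • (1:ℂ)) * ((h - -h) • (1:ℂ)) = ((volume.real T * (2 * h) : ℝ) : ℂ) := by
      simp only [Complex.real_smul, mul_one]
      push_cast
      ring
    rw [h2] at h1
    have h3 : ∫ x in (-(4 * Real.pi))..(4 * Real.pi), u x = volume.real T * (2 * h) := by exact_mod_cast h1
    rw [h3]
    nlinarith
  have hbes := bessel (Finset.Ioo (-((2 * N : ℕ) : ℤ)) ((2 * N : ℕ) : ℤ)) u huint hu2int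
  have hsq : ∫ x in (-(4 * Real.pi))..(4 * Real.pi), u x ^ 2 ≤ L * (2 * h) := by
    have h1 : ∫ x in (-(4 * Real.pi))..(4 * Real.pi), u x ^ 2 ≤
        ∫ x in (-(4 * Real.pi))..(4 * Real.pi), L * u x := by
      apply intervalIntegral.integral_mono_on (by linarith) hu2int (huint.const_mul _)
      intro x _
      rw [sq]
      exact mul_le_mul_of_nonneg_right (huL x) (hu0 x)
    rw [intervalIntegral.integral_const_mul] at h1
    exact h1.trans (mul_le_mul_of_nonneg_left hint hL)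
  have hlow : h ^ 2 * ∑ k ∈ Finset.Ioo (-((2 * N : ℕ) : ℤ)) ((2 * N : ℕ) : ℤ), ‖∫ s in T, ek k (-E s)‖ ^ 2 ≤
      ∑ k ∈ Finset.Ioo (-((2 * N : ℕ) : ℤ)) ((2 * N : ℕ) : ℤ),
        ‖∫ x in (-(4 * Real.pi))..(4 * Real.pi), ek k x * (u x : ℂ)‖ ^ 2 := by
    rw [Finset.mul_sum]
    apply Finset.sum_le_sum
    intro k hk
    rw [hcoef k, norm_mul, mul_pow, mul_comm]
    apply mul_le_mul_of_nonneg_left _ (by positivity)
    exact pow_le_pow_left₀ hpos.le (W_bound N hN k hk) 2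
  have hfin : h ^ 2 * ∑ k ∈ Finset.Ioo (-((2 * N : ℕ) : ℤ)) ((2 * N : ℕ) : ℤ), ‖∫ s in T, ek k (-E s)‖ ^ 2 ≤
      h ^ 2 * (16 * Real.pi * N * L) := by
    refine (hlow.trans hbes).trans ?_
    have h1 : 8 * Real.pi * ∫ x in (-(4 * Real.pi))..(4 * Real.pi), u x ^ 2 ≤ 8 * Real.pi * (L * (2 * h)) :=
      mul_le_mul_of_nonneg_left hsq (by positivity)
    refine h1.trans (le_of_eq ?_)
    rw [hh]
    field_simp
    ring
  exact le_of_mul_le_mul_left hfin (by positivity)

lemma m_bounds (N : ℕ) (hN : 1 ≤ N) (k : ℤ) (hk : k ∈ Finset.Ioo (-((2 * N : ℕ) : ℤ)) ((2 * N : ℕ) : ℤ)) :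
    0 ≤ w (2 * N) k - w N k ∧ w (2 * N) k - w N k ≤ |(k : ℝ)| / (2 * N) ∧ |(k : ℝ)| / (2 * N) ≤ 1 := by
  have hN' : (0:ℝ) < N := by exact_mod_cast hN
  have h5 : |(k : ℝ)| ≤ 2 * N := by
    rw [Finset.mem_Ioo] at hk
    rw [abs_le]
    push_cast at hk
    constructor
    · have : (-(2 * (N:ℤ)) : ℤ) ≤ k := by omega
      exact_mod_cast this
    · have : k ≤ (2 * (N:ℤ) : ℤ) := by omega
      exact_mod_cast this
  have h6 : |(k : ℝ)| / (2 * N) ≤ 1 := by
    rw [div_le_one (by positivity)]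
    exact h5
  have h7 : |(k : ℝ)| / N = 2 * (|(k : ℝ)| / (2 * N)) := by field_simp
  have h8 : 0 ≤ |(k : ℝ)| / (2 * N) := by positivity
  unfold w
  push_cast
  rw [h7]
  set t := |(k : ℝ)| / (2 * N)
  rw [max_eq_right (by linarith : (0:ℝ) ≤ 1 - t)]
  rcases le_total 0 (1 - 2 * t) with h | h
  · rw [max_eq_right h]
    refine ⟨by linarith, by linarith, h6⟩
  · rw [max_eq_left h]
    refine ⟨by linarith, by linarith, h6⟩

lemma term1 (N : ℕ) (hN : 1 ≤ N) (b : ℤ → ℂ)
    (hb : ∀ k ∈ Finset.Ioo (-((2 * N : ℕ) : ℤ)) ((2 * N : ℕ) : ℤ), ‖b k‖ ≤ 1 / (N : ℝ) ^ 2) :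
    ∫ x in (-(4 * Real.pi))..(4 * Real.pi),
      ‖∑ k ∈ Finset.Ioo (-((2 * N : ℕ) : ℤ)) ((2 * N : ℕ) : ℤ), ((w (2 * N) k - w N k : ℝ) : ℂ) * b k * ek (-k) x‖ ≤
      32 * Real.pi / N := by
  have hpi := Real.pi_gt_three
  have hN' : (0:ℝ) < N := by exact_mod_cast hN
  have h1 : ∀ x : ℝ, ‖∑ k ∈ Finset.Ioo (-((2 * N : ℕ) : ℤ)) ((2 * N : ℕ) : ℤ),
      ((w (2 * N) k - w N k : ℝ) : ℂ) * b k * ek (-k) x‖ ≤ 4 / N := by
    intro x
    refine (norm_sum_le _ _).trans ?_
    have h2 : ∀ k ∈ Finset.Ioo (-((2 * N : ℕ) : ℤ)) ((2 * N : ℕ) : ℤ),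
        ‖((w (2 * N) k - w N k : ℝ) : ℂ) * b k * ek (-k) x‖ ≤ 1 / (N : ℝ) ^ 2 := by
      intro k hk
      have hm := m_bounds N hN k hk
      rw [norm_mul, norm_mul, norm_ek, mul_one, Complex.norm_real, Real.norm_of_nonneg hm.1]
      have := hb k hk
      have h3 : w (2 * N) k - w N k ≤ 1 := by linarith
      calc (w (2 * N) k - w N k) * ‖b k‖ ≤ 1 * ‖b k‖ := by gcongr
        _ ≤ 1 / (N : ℝ) ^ 2 := by rw [one_mul]; exact this
    refine (Finset.sum_le_card_nsmul _ _ _ h2).trans ?_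
    rw [nsmul_eq_mul, Int.card_Ioo]
    have h4 : ((((2 * N : ℕ) : ℤ) - -((2 * N : ℕ) : ℤ) - 1).toNat : ℝ) ≤ 4 * N := by
      have h5 : (((2 * N : ℕ) : ℤ) - -((2 * N : ℕ) : ℤ) - 1).toNat ≤ 4 * N := by
        push_cast
        omega
      exact_mod_cast h5
    calc ((((2 * N : ℕ) : ℤ) - -((2 * N : ℕ) : ℤ) - 1).toNat : ℝ) * (1 / (N : ℝ) ^ 2) ≤
          (4 * (N : ℝ)) * (1 / (N : ℝ) ^ 2) := by gcongr
      _ = 4 / (N : ℝ) := by field_simp
  have h6 : ∫ x in (-(4 * Real.pi))..(4 * Real.pi),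
      ‖∑ k ∈ Finset.Ioo (-((2 * N : ℕ) : ℤ)) ((2 * N : ℕ) : ℤ), ((w (2 * N) k - w N k : ℝ) : ℂ) * b k * ek (-k) x‖ ≤
      ∫ x in (-(4 * Real.pi))..(4 * Real.pi), (4 / N : ℝ) := by
    apply intervalIntegral.integral_mono_on (by linarith)
    · apply Continuous.intervalIntegrable
      apply Continuous.norm
      apply continuous_finsetSum
      intro k _
      exact (continuous_ek (-k)).const_mul _
    · exact intervalIntegrable_const
    · intro x _
      exact h1 x
  rw [intervalIntegral.integral_const] at h6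
  refine h6.trans (le_of_eq ?_)
  rw [smul_eq_mul]
  field_simp
  ring

lemma cont_S (A : Finset ℤ) (b : ℤ → ℂ) : Continuous (fun x : ℝ => ∑ k ∈ A, b k * ek (-k) x) := by
  apply continuous_finsetSum
  intro k _
  exact (continuous_ek (-k)).const_mul _

lemma term2 (E : ℝ → ℝ) (hE : Measurable E) (T : Set ℝ) (hT : MeasurableSet T) (N : ℕ) (hN : 1 ≤ N)
    (B : ℝ) (hB : 0 ≤ B) (hv : volume (Set.Ioo 0 1 \ T) ≤ ENNReal.ofReal B) :
    ∫ x in (-(4 * Real.pi))..(4 * Real.pi),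
      ‖∑ k ∈ Finset.Ioo (-((2 * N : ℕ) : ℤ)) ((2 * N : ℕ) : ℤ), ((w (2 * N) k - w N k : ℝ) : ℂ) *
        ((∫ s in (Set.Ioo 0 1 \ T), ek k (-E s)) * ∫ s in (Set.Ioo (0:ℝ) 1), ek k (-E s)) * ek (-k) x‖ ≤
      16 * Real.pi * B := by
  have hpi := Real.pi_gt_three
  have hsetm : MeasurableSet (Set.Ioo (0:ℝ) 1 \ T) := measurableSet_Ioo.diff hT
  have hf1 : IsFiniteMeasure (volume.restrict (Set.Ioo (0:ℝ) 1 \ T)) :=
    ⟨by rw [Measure.restrict_apply_univ]; exact lt_of_le_of_lt hv ENNReal.ofReal_lt_top⟩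
  have hf2 : IsFiniteMeasure (volume.restrict (Set.Ioo (0:ℝ) 1)) :=
    ⟨by rw [Measure.restrict_apply_univ]; simp⟩
  set m1 := volume.restrict (Set.Ioo (0:ℝ) 1 \ T) with hm1
  set m2 := volume.restrict (Set.Ioo (0:ℝ) 1) with hm2
  let F : ℝ × ℝ → ℝ := fun p => -E p.1 + -E p.2
  have hF : Measurable F := ((hE.comp measurable_fst).neg).add ((hE.comp measurable_snd).neg)
  set eta : Measure ℝ := (m1.prod m2).map F with heta
  have hfe : IsFiniteMeasure eta := by rw [heta]; infer_instance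
  have hcoef : ∀ k : ℤ, ∫ y, ek k y ∂eta = (∫ s, ek k (-E s) ∂m1) * ∫ s, ek k (-E s) ∂m2 := by
    intro k
    rw [heta, integral_map hF.aemeasurable (continuous_ek k).aestronglyMeasurable]
    simp only [F, ek_add_right]
    exact integral_prod_mul (fun s => ek k (-E s)) (fun s => ek k (-E s))
  have hmass : eta.real Set.univ ≤ B := by
    rw [heta, Measure.real, Measure.map_apply hF MeasurableSet.univ, Set.preimage_univ, ← Set.univ_prod_univ,
      Measure.prod_prod, hm1, hm2, Measure.restrict_apply_univ, Measure.restrict_apply_univ]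
    have h1 : volume (Set.Ioo (0:ℝ) 1) = 1 := by simp
    rw [h1, mul_one]
    exact ENNReal.toReal_le_of_le_ofReal hB hv
  have e1 := L1_fejer eta (2 * N) (2 * N) (by omega) le_rfl
  have e2 := L1_fejer eta (2 * N) N hN (by omega)
  simp only [hcoef] at e1 e2
  have h3 : ∫ x in (-(4 * Real.pi))..(4 * Real.pi),
      ‖∑ k ∈ Finset.Ioo (-((2 * N : ℕ) : ℤ)) ((2 * N : ℕ) : ℤ), ((w (2 * N) k - w N k : ℝ) : ℂ) *
        ((∫ s, ek k (-E s) ∂m1) * ∫ s, ek k (-E s) ∂m2) * ek (-k) x‖ ≤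
      ∫ x in (-(4 * Real.pi))..(4 * Real.pi),
      (‖∑ k ∈ Finset.Ioo (-((2 * N : ℕ) : ℤ)) ((2 * N : ℕ) : ℤ), (w (2 * N) k : ℂ) *
        ((∫ s, ek k (-E s) ∂m1) * ∫ s, ek k (-E s) ∂m2) * ek (-k) x‖ +
      ‖∑ k ∈ Finset.Ioo (-((2 * N : ℕ) : ℤ)) ((2 * N : ℕ) : ℤ), (w N k : ℂ) *
        ((∫ s, ek k (-E s) ∂m1) * ∫ s, ek k (-E s) ∂m2) * ek (-k) x‖) := by
    apply intervalIntegral.integral_mono_on (by linarith)
    · exact (cont_S _ _).norm.intervalIntegrable _ _
    · exact ((cont_S _ _).norm.add (cont_S _ _).norm).intervalIntegrable _ _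
    · intro x _
      have h4 : ∑ k ∈ Finset.Ioo (-((2 * N : ℕ) : ℤ)) ((2 * N : ℕ) : ℤ), ((w (2 * N) k - w N k : ℝ) : ℂ) *
        ((∫ s, ek k (-E s) ∂m1) * ∫ s, ek k (-E s) ∂m2) * ek (-k) x =
        ∑ k ∈ Finset.Ioo (-((2 * N : ℕ) : ℤ)) ((2 * N : ℕ) : ℤ), (w (2 * N) k : ℂ) *
        ((∫ s, ek k (-E s) ∂m1) * ∫ s, ek k (-E s) ∂m2) * ek (-k) x -
        ∑ k ∈ Finset.Ioo (-((2 * N : ℕ) : ℤ)) ((2 * N : ℕ) : ℤ), (w N k : ℂ) *
        ((∫ s, ek k (-E s) ∂m1) * ∫ s, ek k (-E s) ∂m2) * ek (-k) x := by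
        rw [← Finset.sum_sub_distrib]
        apply Finset.sum_congr rfl
        intro k _
        push_cast
        ring
      rw [h4]
      exact norm_sub_le _ _
  rw [intervalIntegral.integral_add ((cont_S _ _).norm.intervalIntegrable _ _)
    ((cont_S _ _).norm.intervalIntegrable _ _)] at h3
  refine h3.trans ?_
  have e1' : ∫ x in (-(4 * Real.pi))..(4 * Real.pi),
      ‖∑ k ∈ Finset.Ioo (-((2 * N : ℕ) : ℤ)) ((2 * N : ℕ) : ℤ), (w (2 * N) k : ℂ) *
        ((∫ s, ek k (-E s) ∂m1) * ∫ s, ek k (-E s) ∂m2) * ek (-k) x‖ = 8 * Real.pi * eta.real Set.univ := e1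
  have e2' : ∫ x in (-(4 * Real.pi))..(4 * Real.pi),
      ‖∑ k ∈ Finset.Ioo (-((2 * N : ℕ) : ℤ)) ((2 * N : ℕ) : ℤ), (w N k : ℂ) *
        ((∫ s, ek k (-E s) ∂m1) * ∫ s, ek k (-E s) ∂m2) * ek (-k) x‖ = 8 * Real.pi * eta.real Set.univ := e2
  rw [e1', e2']
  nlinarith [mul_le_mul_of_nonneg_left hmass Real.pi_pos.le]

lemma term3 (N : ℕ) (hN : 1 ≤ N) (a t : ℤ → ℂ) (S Q lam : ℝ) (hlam : 0 < lam)
    (hS : ∀ k ∈ Finset.Ioo (-((2 * N : ℕ) : ℤ)) ((2 * N : ℕ) : ℤ), (w (2 * N) k - w N k) * ‖a k‖ ≤ S)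
    (hQ : ∑ k ∈ Finset.Ioo (-((2 * N : ℕ) : ℤ)) ((2 * N : ℕ) : ℤ), ‖t k‖ ^ 2 ≤ Q) :
    ∫ x in (-(4 * Real.pi))..(4 * Real.pi),
      ‖∑ k ∈ Finset.Ioo (-((2 * N : ℕ) : ℤ)) ((2 * N : ℕ) : ℤ),
        (((w (2 * N) k - w N k : ℝ) : ℂ) * (t k * a k)) * ek (-k) x‖ ≤
      4 * Real.pi * (lam + S ^ 2 * Q / lam) := by
  have hpi := Real.pi_gt_three
  have h1 : ∫ x in (-(4 * Real.pi))..(4 * Real.pi),
      ‖∑ k ∈ Finset.Ioo (-((2 * N : ℕ) : ℤ)) ((2 * N : ℕ) : ℤ),
        (((w (2 * N) k - w N k : ℝ) : ℂ) * (t k * a k)) * ek (-k) x‖ ≤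
      ∫ x in (-(4 * Real.pi))..(4 * Real.pi), (lam / 2 + (1 / (2 * lam)) *
      ‖∑ k ∈ Finset.Ioo (-((2 * N : ℕ) : ℤ)) ((2 * N : ℕ) : ℤ),
        (((w (2 * N) k - w N k : ℝ) : ℂ) * (t k * a k)) * ek (-k) x‖ ^ 2) := by
    apply intervalIntegral.integral_mono_on (by linarith)
    · exact (cont_S _ _).norm.intervalIntegrable _ _
    · exact (continuous_const.add (((cont_S _ _).norm.pow 2).const_mul _)).intervalIntegrable _ _
    · intro x _
      set p := ‖∑ k ∈ Finset.Ioo (-((2 * N : ℕ) : ℤ)) ((2 * N : ℕ) : ℤ),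
        (((w (2 * N) k - w N k : ℝ) : ℂ) * (t k * a k)) * ek (-k) x‖
      have h6 : lam / 2 + (1 / (2 * lam)) * p ^ 2 - p = (1 / (2 * lam)) * (p - lam) ^ 2 := by
        field_simp
        ring
      have h7 : 0 ≤ (1 / (2 * lam)) * (p - lam) ^ 2 := by positivity
      linarith
  have hii : IntervalIntegrable (fun x => (1 / (2 * lam)) *
      ‖∑ k ∈ Finset.Ioo (-((2 * N : ℕ) : ℤ)) ((2 * N : ℕ) : ℤ),
        (((w (2 * N) k - w N k : ℝ) : ℂ) * (t k * a k)) * ek (-k) x‖ ^ 2) volume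
        (-(4 * Real.pi)) (4 * Real.pi) :=
    (((cont_S _ _).norm.pow 2).const_mul _).intervalIntegrable _ _
  rw [intervalIntegral.integral_add intervalIntegrable_const hii, intervalIntegral.integral_const,
    intervalIntegral.integral_const_mul, parseval] at h1
  refine h1.trans ?_
  have h2 : ∑ k ∈ Finset.Ioo (-((2 * N : ℕ) : ℤ)) ((2 * N : ℕ) : ℤ),
      ‖((w (2 * N) k - w N k : ℝ) : ℂ) * (t k * a k)‖ ^ 2 ≤ S ^ 2 * Q := by
    have h3 : ∑ k ∈ Finset.Ioo (-((2 * N : ℕ) : ℤ)) ((2 * N : ℕ) : ℤ),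
      ‖((w (2 * N) k - w N k : ℝ) : ℂ) * (t k * a k)‖ ^ 2 ≤
      ∑ k ∈ Finset.Ioo (-((2 * N : ℕ) : ℤ)) ((2 * N : ℕ) : ℤ), S ^ 2 * ‖t k‖ ^ 2 := by
      apply Finset.sum_le_sum
      intro k hk
      have hm := m_bounds N hN k hk
      have h4 : ‖((w (2 * N) k - w N k : ℝ) : ℂ) * (t k * a k)‖ = ((w (2 * N) k - w N k) * ‖a k‖) * ‖t k‖ := by
        rw [norm_mul, norm_mul, Complex.norm_real, Real.norm_of_nonneg hm.1]
        ring
      rw [h4, mul_pow]
      apply mul_le_mul_of_nonneg_right _ (by positivity)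
      exact pow_le_pow_left₀ (mul_nonneg hm.1 (norm_nonneg _)) (hS k hk) 2
    rw [← Finset.mul_sum] at h3
    exact h3.trans (mul_le_mul_of_nonneg_left hQ (by positivity))
  have h5 : (1 / (2 * lam)) * (8 * Real.pi * ∑ k ∈ Finset.Ioo (-((2 * N : ℕ) : ℤ)) ((2 * N : ℕ) : ℤ),
      ‖((w (2 * N) k - w N k : ℝ) : ℂ) * (t k * a k)‖ ^ 2) ≤
      (1 / (2 * lam)) * (8 * Real.pi * (S ^ 2 * Q)) := by
    gcongr
  have h6 : (4 * Real.pi - -(4 * Real.pi)) • (lam / 2) = 4 * Real.pi * lam := by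
    rw [smul_eq_mul]; ring
  rw [h6]
  have h7 : (1 / (2 * lam)) * (8 * Real.pi * (S ^ 2 * Q)) = 4 * Real.pi * (S ^ 2 * Q / lam) := by
    field_simp
    ring
  rw [h7] at h5
  linarith

lemma S_bound (N : ℕ) (hN : 2 ≤ N) (a : ℤ → ℂ) (C gam : ℝ) (hC : 0 < C) (hgam1 : gam ≤ 1)
    (ha1 : ∀ k, ‖a k‖ ≤ 1)
    (ha : ∀ k : ℤ, 1 ≤ |(k : ℝ) / 4| → |(k : ℝ) / 4| ≤ N → ‖a k‖ ≤ C * |(k : ℝ) / 4| ^ (-gam)) :
    ∀ k ∈ Finset.Ioo (-((2 * N : ℕ) : ℤ)) ((2 * N : ℕ) : ℤ), (w (2 * N) k - w N k) * ‖a k‖ ≤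
      max 1 C * (2 / (N : ℝ)) ^ gam := by
  intro k hk
  have hN' : (2:ℝ) ≤ N := by exact_mod_cast hN
  have hN0 : (0:ℝ) < N := by linarith
  obtain ⟨hm0, hm1, hm2⟩ := m_bounds N (by omega) k hk
  have h2N : 2 / (N : ℝ) ≤ 1 := by
    rw [div_le_one hN0]
    exact hN'
  have hpos2 : 0 < 2 / (N : ℝ) := by positivity
  rcases lt_or_ge |(k : ℝ)| 4 with hk4 | hk4
  · have h1 : |(k : ℝ)| / (2 * N) ≤ 2 / N := by
      rw [div_le_div_iff₀ (by positivity) hN0]
      nlinarith
    calc (w (2 * N) k - w N k) * ‖a k‖ ≤ (2 / (N : ℝ)) * 1 := by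
          apply mul_le_mul (hm1.trans h1) (ha1 k) (norm_nonneg _) hpos2.le
      _ = (2 / (N : ℝ)) ^ (1:ℝ) := by rw [Real.rpow_one, mul_one]
      _ ≤ (2 / (N : ℝ)) ^ gam := Real.rpow_le_rpow_of_exponent_ge hpos2 h2N hgam1
      _ = 1 * (2 / (N : ℝ)) ^ gam := by ring
      _ ≤ max 1 C * (2 / (N : ℝ)) ^ gam := by gcongr; exact le_max_left _ _
  · have hk0 : 0 < |(k : ℝ)| := by linarith
    have h4 : |(k : ℝ) / 4| = |(k : ℝ)| / 4 := by rw [abs_div]; norm_num
    have h5 : |(k : ℝ)| ≤ 2 * N := by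
      rw [div_le_one (by positivity)] at hm2
      exact hm2
    have h6 := ha k (by rw [h4]; linarith) (by rw [h4]; linarith)
    rw [h4] at h6
    have hth : 0 < |(k : ℝ)| / (2 * N) := by positivity
    have h7 : |(k : ℝ)| / (2 * N) ≤ (|(k : ℝ)| / (2 * N)) ^ gam := by
      calc |(k : ℝ)| / (2 * N) = (|(k : ℝ)| / (2 * N)) ^ (1:ℝ) := by rw [Real.rpow_one]
        _ ≤ _ := Real.rpow_le_rpow_of_exponent_ge hth hm2 hgam1
    calc (w (2 * N) k - w N k) * ‖a k‖ ≤ ((|(k : ℝ)| / (2 * N)) ^ gam) * (C * (|(k : ℝ)| / 4) ^ (-gam)) := by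
          apply mul_le_mul (hm1.trans h7) h6 (norm_nonneg _) (by positivity)
      _ = C * (2 / (N : ℝ)) ^ gam := by
          rw [Real.rpow_neg (by positivity)]
          have h8 : (|(k : ℝ)| / (2 * N)) = (2 / (N : ℝ)) * (|(k : ℝ)| / 4) := by
            field_simp
            norm_num
          rw [h8, Real.mul_rpow hpos2.le (by positivity)]
          have h9 : (|(k : ℝ)| / 4) ^ gam ≠ 0 := by positivity
          field_simp
      _ ≤ max 1 C * (2 / (N : ℝ)) ^ gam := by gcongr; exact le_max_right _ _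

lemma step (E : ℝ → ℝ) (hE : Measurable E) (hb : ∀ s, |E s| ≤ 3) (T : Set ℝ) (hT : MeasurableSet T)
    (hT1 : T ⊆ Set.Ioo 0 1) (N : ℕ) (hN : 2 ≤ N) (c : ℤ → ℂ)
    (C gam bet eps1 : ℝ) (hC : 0 < C) (hgam1 : gam ≤ 1)
    (hc : ∀ k ∈ Finset.Ioo (-((2 * N : ℕ) : ℤ)) ((2 * N : ℕ) : ℤ),
      ‖c k - (∫ s in (Set.Ioo (0:ℝ) 1), ek k (-E s)) ^ 2‖ ≤ 1 / (N : ℝ) ^ 2)
    (ha : ∀ k : ℤ, 1 ≤ |(k : ℝ) / 4| → |(k : ℝ) / 4| ≤ N →
      ‖∫ s in (Set.Ioo (0:ℝ) 1), ek k (-E s)‖ ≤ C * |(k : ℝ) / 4| ^ (-gam))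
    (hv : volume (Set.Ioo 0 1 \ T) ≤ ENNReal.ofReal (C * (N : ℝ) ^ (-bet)))
    (hm : ∀ x : ℝ, volume {s | s ∈ T ∧ |E s - x| ≤ 1 / N} ≤ ENNReal.ofReal (C * (N : ℝ) ^ (-1 + eps1))) :
    ∫ x in (-(4 * Real.pi))..(4 * Real.pi),
      ‖∑ k ∈ Finset.Ioo (-((2 * N : ℕ) : ℤ)) ((2 * N : ℕ) : ℤ), ((w (2 * N) k - w N k : ℝ) : ℂ) * c k * ek (-k) x‖ ≤
      32 * Real.pi / N + 16 * Real.pi * (C * (N : ℝ) ^ (-bet)) +
        4 * Real.pi * (1 + 64 * Real.pi * C * (max 1 C) ^ 2) * (N : ℝ) ^ (-(gam - eps1 / 2)) := by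
  have hpi := Real.pi_gt_three
  have hN' : (2:ℝ) ≤ N := by exact_mod_cast hN
  have hN0 : (0:ℝ) < N := by linarith
  have hTfin : volume T < ⊤ := lt_of_le_of_lt (measure_mono hT1) (by simp)
  have hfT : IsFiniteMeasure (volume.restrict T) := ⟨by rw [Measure.restrict_apply_univ]; exact hTfin⟩
  have hf2 : IsFiniteMeasure (volume.restrict (Set.Ioo (0:ℝ) 1)) :=
    ⟨by rw [Measure.restrict_apply_univ]; simp⟩
  have hint : ∀ k : ℤ, IntegrableOn (fun s => ek k (-E s)) (Set.Ioo 0 1) := by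
    intro k
    apply Integrable.of_bound (C := 1)
    · exact ((measurable_ek k).comp hE.neg).aestronglyMeasurable
    · exact Filter.Eventually.of_forall fun s => by rw [norm_ek]
  set a : ℤ → ℂ := fun k => ∫ s in (Set.Ioo (0:ℝ) 1), ek k (-E s) with hadef
  set t : ℤ → ℂ := fun k => ∫ s in T, ek k (-E s) with htdef
  set r : ℤ → ℂ := fun k => ∫ s in (Set.Ioo 0 1 \ T), ek k (-E s) with hrdef
  have hatr : ∀ k, a k = t k + r k := by
    intro k
    simp only [hadef, htdef, hrdef]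
    rw [← setIntegral_union Set.disjoint_sdiff_right (measurableSet_Ioo.diff hT)
      ((hint k).mono_set hT1) ((hint k).mono_set Set.sdiff_subset)]
    rw [Set.union_sdiff_cancel hT1]
  have ha1 : ∀ k, ‖a k‖ ≤ 1 := by
    intro k
    simp only [hadef]
    refine (norm_integral_le_integral_norm _).trans ?_
    simp only [norm_ek]
    rw [integral_const]
    simp [Measure.real]
  have hQ := mass_L2 E hE hb T hT hT1 N (by omega) (C * (N : ℝ) ^ (-1 + eps1)) (by positivity) hm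
  have hSb := S_bound N hN a C gam hC hgam1 ha1 ha
  have t1 := term1 N (by omega) (fun k => c k - a k ^ 2) hc
  have t2 := term2 E hE T hT N (by omega) (C * (N : ℝ) ^ (-bet)) (by positivity) hv
  have t3 := term3 N (by omega) a t (max 1 C * (2 / (N : ℝ)) ^ gam) (16 * Real.pi * N * (C * (N : ℝ) ^ (-1 + eps1)))
    ((N : ℝ) ^ (-(gam - eps1 / 2))) (by positivity) hSb hQ
  have hsum : ∫ x in (-(4 * Real.pi))..(4 * Real.pi),
      ‖∑ k ∈ Finset.Ioo (-((2 * N : ℕ) : ℤ)) ((2 * N : ℕ) : ℤ), ((w (2 * N) k - w N k : ℝ) : ℂ) * c k * ek (-k) x‖ ≤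
      ∫ x in (-(4 * Real.pi))..(4 * Real.pi),
      ((‖∑ k ∈ Finset.Ioo (-((2 * N : ℕ) : ℤ)) ((2 * N : ℕ) : ℤ),
        ((w (2 * N) k - w N k : ℝ) : ℂ) * (c k - a k ^ 2) * ek (-k) x‖ +
      ‖∑ k ∈ Finset.Ioo (-((2 * N : ℕ) : ℤ)) ((2 * N : ℕ) : ℤ),
        ((w (2 * N) k - w N k : ℝ) : ℂ) * (r k * a k) * ek (-k) x‖) +
      ‖∑ k ∈ Finset.Ioo (-((2 * N : ℕ) : ℤ)) ((2 * N : ℕ) : ℤ),
        (((w (2 * N) k - w N k : ℝ) : ℂ) * (t k * a k)) * ek (-k) x‖) := by
    apply intervalIntegral.integral_mono_on (by linarith)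
    · exact (cont_S _ _).norm.intervalIntegrable _ _
    · exact (((cont_S _ _).norm.add (cont_S _ _).norm).add (cont_S _ _).norm).intervalIntegrable _ _
    · intro x _
      have h4 : ∑ k ∈ Finset.Ioo (-((2 * N : ℕ) : ℤ)) ((2 * N : ℕ) : ℤ),
          ((w (2 * N) k - w N k : ℝ) : ℂ) * c k * ek (-k) x =
          (∑ k ∈ Finset.Ioo (-((2 * N : ℕ) : ℤ)) ((2 * N : ℕ) : ℤ),
        ((w (2 * N) k - w N k : ℝ) : ℂ) * (c k - a k ^ 2) * ek (-k) x +
      ∑ k ∈ Finset.Ioo (-((2 * N : ℕ) : ℤ)) ((2 * N : ℕ) : ℤ),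
        ((w (2 * N) k - w N k : ℝ) : ℂ) * (r k * a k) * ek (-k) x) +
      ∑ k ∈ Finset.Ioo (-((2 * N : ℕ) : ℤ)) ((2 * N : ℕ) : ℤ),
        (((w (2 * N) k - w N k : ℝ) : ℂ) * (t k * a k)) * ek (-k) x := by
        rw [← Finset.sum_add_distrib, ← Finset.sum_add_distrib]
        apply Finset.sum_congr rfl
        intro k _
        have h5 : c k = (c k - a k ^ 2) + (r k * a k + t k * a k) := by
          have : r k * a k + t k * a k = a k ^ 2 := by
            rw [← add_mul, add_comm (r k), ← hatr k, sq]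
          rw [this]
          ring
        calc ((w (2 * N) k - w N k : ℝ) : ℂ) * c k * ek (-k) x =
            ((w (2 * N) k - w N k : ℝ) : ℂ) * ((c k - a k ^ 2) + (r k * a k + t k * a k)) * ek (-k) x := by
              rw [← h5]
          _ = _ := by ring
      rw [h4]
      exact (norm_add_le _ _).trans (add_le_add (norm_add_le _ _) le_rfl)
  have i1 : IntervalIntegrable (fun x => ‖∑ k ∈ Finset.Ioo (-((2 * N : ℕ) : ℤ)) ((2 * N : ℕ) : ℤ),
        ((w (2 * N) k - w N k : ℝ) : ℂ) * (c k - a k ^ 2) * ek (-k) x‖) volume (-(4 * Real.pi)) (4 * Real.pi) :=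
    (cont_S _ _).norm.intervalIntegrable _ _
  have i2 : IntervalIntegrable (fun x => ‖∑ k ∈ Finset.Ioo (-((2 * N : ℕ) : ℤ)) ((2 * N : ℕ) : ℤ),
        ((w (2 * N) k - w N k : ℝ) : ℂ) * (r k * a k) * ek (-k) x‖) volume (-(4 * Real.pi)) (4 * Real.pi) :=
    (cont_S _ _).norm.intervalIntegrable _ _
  have i3 : IntervalIntegrable (fun x => ‖∑ k ∈ Finset.Ioo (-((2 * N : ℕ) : ℤ)) ((2 * N : ℕ) : ℤ),
        (((w (2 * N) k - w N k : ℝ) : ℂ) * (t k * a k)) * ek (-k) x‖) volume (-(4 * Real.pi)) (4 * Real.pi) :=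
    (cont_S _ _).norm.intervalIntegrable _ _
  rw [intervalIntegral.integral_add (i1.add i2) i3, intervalIntegral.integral_add i1 i2] at hsum
  refine hsum.trans ?_
  refine add_le_add (add_le_add t1 t2) (t3.trans ?_)
  rw [mul_assoc (4 * Real.pi)]
  apply mul_le_mul_of_nonneg_left _ (by positivity)
  -- arithmetic
  have hN1 : (N : ℝ) * (N : ℝ) ^ (-1 + eps1) = (N : ℝ) ^ eps1 := by
    rw [Real.rpow_add hN0, Real.rpow_neg_one]
    field_simp
  have hP : (2 / (N : ℝ)) ^ gam * (2 / (N : ℝ)) ^ gam ≤ 4 * (N : ℝ) ^ (-(2 * gam)) := by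
    rw [← Real.mul_rpow (by positivity) (by positivity)]
    have h1 : 2 / (N : ℝ) * (2 / (N : ℝ)) = 4 * ((N : ℝ) ^ (-2 : ℝ)) := by
      rw [Real.rpow_neg hN0.le]
      norm_num
      field_simp
      norm_num
    rw [h1, Real.mul_rpow (by norm_num) (by positivity), ← Real.rpow_mul hN0.le]
    have h2 : (4:ℝ) ^ gam ≤ 4 := by
      calc (4:ℝ) ^ gam ≤ (4:ℝ) ^ (1:ℝ) := Real.rpow_le_rpow_of_exponent_le (by norm_num) hgam1
        _ = 4 := by norm_num
    have h3 : (-2 : ℝ) * gam = -(2 * gam) := by ring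
    rw [h3]
    gcongr
  have hX : (max 1 C * (2 / (N : ℝ)) ^ gam) ^ 2 * (16 * Real.pi * N * (C * (N : ℝ) ^ (-1 + eps1))) ≤
      64 * Real.pi * C * (max 1 C) ^ 2 * ((N : ℝ) ^ (-(2 * gam)) * (N : ℝ) ^ eps1) := by
    have h1 : (max 1 C * (2 / (N : ℝ)) ^ gam) ^ 2 * (16 * Real.pi * N * (C * (N : ℝ) ^ (-1 + eps1))) =
        ((max 1 C) ^ 2 * 16 * Real.pi * C * (N : ℝ) ^ eps1) * ((2 / (N : ℝ)) ^ gam * (2 / (N : ℝ)) ^ gam) := by
      rw [← hN1]
      ring
    rw [h1]
    calc ((max 1 C) ^ 2 * 16 * Real.pi * C * (N : ℝ) ^ eps1) * ((2 / (N : ℝ)) ^ gam * (2 / (N : ℝ)) ^ gam) ≤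
        ((max 1 C) ^ 2 * 16 * Real.pi * C * (N : ℝ) ^ eps1) * (4 * (N : ℝ) ^ (-(2 * gam))) :=
          mul_le_mul_of_nonneg_left hP (by positivity)
      _ = _ := by ring
  have hY : ((N : ℝ) ^ (-(2 * gam)) * (N : ℝ) ^ eps1) =
      (N : ℝ) ^ (-(gam - eps1 / 2)) * (N : ℝ) ^ (-(gam - eps1 / 2)) := by
    rw [← Real.rpow_add hN0, ← Real.rpow_add hN0]
    congr 1
    ring
  rw [hY] at hX
  have hlam : 0 < (N : ℝ) ^ (-(gam - eps1 / 2)) := by positivity
  have hZ : (max 1 C * (2 / (N : ℝ)) ^ gam) ^ 2 * (16 * Real.pi * N * (C * (N : ℝ) ^ (-1 + eps1))) /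
      (N : ℝ) ^ (-(gam - eps1 / 2)) ≤ 64 * Real.pi * C * (max 1 C) ^ 2 * (N : ℝ) ^ (-(gam - eps1 / 2)) := by
    rw [div_le_iff₀ hlam]
    refine hX.trans (le_of_eq ?_)
    ring
  linarith

/-- the Fejer means -/
noncomputable def fm (c : ℤ → ℂ) (N : ℕ) (x : ℝ) : ℂ :=
  ∑ k ∈ Finset.Ioo (-(N : ℤ)) N, (w N k : ℂ) * c k * ek (-k) x

lemma w_eq_zero (N : ℕ) (hN : 1 ≤ N) (k : ℤ) (hk : k ∉ Finset.Ioo (-(N : ℤ)) N) : w N k = 0 := by
  have hN' : (0:ℝ) < N := by exact_mod_cast hN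
  unfold w
  apply max_eq_left
  have h3 : (N : ℤ) ≤ |k| := by
    by_contra hcon
    apply hk
    rw [Finset.mem_Ioo]
    exact abs_lt.mp (by omega)
  have h4 : (N : ℝ) ≤ |(k : ℝ)| := by
    have : (((N : ℤ) : ℤ) : ℝ) ≤ ((|k| : ℤ) : ℝ) := by exact_mod_cast h3
    push_cast at this
    exact this
  have h5 : 1 ≤ |(k : ℝ)| / N := by
    rw [le_div_iff₀ hN']
    linarith
  linarith

lemma fm_diff (c : ℤ → ℂ) (N : ℕ) (hN : 1 ≤ N) (x : ℝ) :
    fm c (2 * N) x - fm c N x =
      ∑ k ∈ Finset.Ioo (-((2 * N : ℕ) : ℤ)) ((2 * N : ℕ) : ℤ), ((w (2 * N) k - w N k : ℝ) : ℂ) * c k * ek (-k) x := by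
  unfold fm
  have h1 : ∑ k ∈ Finset.Ioo (-(N : ℤ)) N, (w N k : ℂ) * c k * ek (-k) x =
      ∑ k ∈ Finset.Ioo (-((2 * N : ℕ) : ℤ)) ((2 * N : ℕ) : ℤ), (w N k : ℂ) * c k * ek (-k) x := by
    apply Finset.sum_subset
    · intro k hk
      simp only [Finset.mem_Ioo] at hk ⊢
      push_cast
      omega
    · intro k _ hk
      rw [w_eq_zero N hN k hk]
      simp
  rw [h1, ← Finset.sum_sub_distrib]
  apply Finset.sum_congr rfl
  intro k _
  push_cast
  ring

lemma fm_cont (c : ℤ → ℂ) (N : ℕ) : Continuous (fm c N) := by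
  unfold fm
  exact cont_S _ _

lemma fm_norm_le (c : ℤ → ℂ) (hc : ∀ k, ‖c k‖ ≤ 1) (N : ℕ) (x : ℝ) : ‖fm c N x‖ ≤ 2 * N := by
  unfold fm
  have h2 : ∀ k ∈ Finset.Ioo (-(N : ℤ)) N, ‖(w N k : ℂ) * c k * ek (-k) x‖ ≤ 1 := by
    intro k hk
    rw [norm_mul, norm_mul, norm_ek, mul_one, Complex.norm_real, Real.norm_of_nonneg (w_nonneg N k)]
    have h3 : w N k ≤ 1 := by
      unfold w
      apply max_le (by norm_num)
      have : 0 ≤ |(k : ℝ)| / N := by positivity
      linarith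
    calc w N k * ‖c k‖ ≤ 1 * 1 := mul_le_mul h3 (hc k) (norm_nonneg _) (by norm_num)
      _ = 1 := by norm_num
  refine (norm_sum_le _ _).trans ((Finset.sum_le_card_nsmul _ _ _ h2).trans ?_)
  rw [nsmul_eq_mul, mul_one, Int.card_Ioo]
  have h5 : ((N : ℤ) - -(N : ℤ) - 1).toNat ≤ 2 * N := by omega
  exact_mod_cast h5

lemma fm_coef (c : ℤ → ℂ) (N : ℕ) (hN : 1 ≤ N) (k : ℤ) :
    ∫ x in (-(4 * Real.pi))..(4 * Real.pi), ek k x * fm c N x = 8 * Real.pi * (w N k * c k) := by
  unfold fm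
  have h1 : ∀ x : ℝ, ek k x * ∑ l ∈ Finset.Ioo (-(N : ℤ)) N, (w N l : ℂ) * c l * ek (-l) x =
      ∑ l ∈ Finset.Ioo (-(N : ℤ)) N, (w N l : ℂ) * c l * ek (k - l) x := by
    intro x
    rw [Finset.mul_sum]
    apply Finset.sum_congr rfl
    intro l _
    rw [sub_eq_add_neg, ek_add_left]
    ring
  simp only [h1]
  rw [intervalIntegral.integral_finsetSum]
  · by_cases hk : k ∈ Finset.Ioo (-(N : ℤ)) N
    · rw [Finset.sum_eq_single k]
      · rw [intervalIntegral.integral_const_mul, integral_ek, if_pos (by ring)]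
        push_cast
        ring
      · intro l _ hl
        rw [intervalIntegral.integral_const_mul, integral_ek, if_neg (sub_ne_zero.mpr hl.symm), mul_zero]
      · intro h
        exact absurd hk h
    · rw [w_eq_zero N hN k hk, Finset.sum_eq_zero]
      · simp
      · intro l hl
        have hl' : k ≠ l := fun h => hk (h ▸ hl)
        rw [intervalIntegral.integral_const_mul, integral_ek, if_neg (sub_ne_zero.mpr hl'), mul_zero]
  · intro l _
    exact ((continuous_ek (k - l)).const_mul _).intervalIntegrable _ _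

lemma tendsto_w (k : ℤ) : Filter.Tendsto (fun a : ℕ => w (2 ^ (a + 1)) k) Filter.atTop (nhds 1) := by
  have h1 : Filter.Tendsto (fun a : ℕ => 1 - |(k : ℝ)| / ((2 ^ (a + 1) : ℕ) : ℝ)) Filter.atTop (nhds (1 - 0)) := by
    apply Filter.Tendsto.const_sub
    apply Filter.Tendsto.div_atTop tendsto_const_nhds
    push_cast
    exact (tendsto_pow_atTop_atTop_of_one_lt (by norm_num)).comp (Filter.tendsto_add_atTop_nat 1)
  have h2 := (tendsto_const_nhds (x := (0:ℝ)) (f := Filter.atTop (α := ℕ))).max h1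
  simp only [sub_zero] at h2
  have h3 : max (0:ℝ) 1 = 1 := by norm_num
  rw [h3] at h2
  exact h2

local instance fact_pos : Fact (0 < 8 * Real.pi) := ⟨by have := Real.pi_pos; positivity⟩

lemma fourier_eq_ek (k : ℤ) (x : ℝ) : (fourier k : C(AddCircle (8 * Real.pi), ℂ)) (x : AddCircle (8 * Real.pi)) = ek k x := by
  rw [fourier_coe_apply]
  unfold ek
  congr 1
  have hpi : (Real.pi : ℂ) ≠ 0 := by exact_mod_cast Real.pi_ne_zero
  push_cast
  field_simp
  ring

/-- convergence of the Fejer means tested against trigonometric polynomials -/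
lemma tendsto_span (nu : Measure ℝ) [IsProbabilityMeasure nu] (q : C(AddCircle (8 * Real.pi), ℂ))
    (hq : q ∈ Submodule.span ℂ (Set.range (@fourier (8 * Real.pi)))) :
    Filter.Tendsto (fun a : ℕ => ∫ x in (-(4 * Real.pi))..(4 * Real.pi),
      q (x : AddCircle (8 * Real.pi)) * fm (fun k => ∫ y, ek k y ∂nu) (2 ^ (a + 1)) x) Filter.atTop
      (nhds (8 * Real.pi * ∫ x, q ((x : ℝ) : AddCircle (8 * Real.pi)) ∂nu)) := by
  have hqc : ∀ q : C(AddCircle (8 * Real.pi), ℂ), Continuous (fun x : ℝ => q (x : AddCircle (8 * Real.pi))) := by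
    intro q
    exact q.continuous.comp (AddCircle.continuous_mk' _)
  have hqi : ∀ q : C(AddCircle (8 * Real.pi), ℂ), Integrable (fun x : ℝ => q (x : AddCircle (8 * Real.pi))) nu := by
    intro q
    apply Integrable.of_bound (C := ‖q‖)
    · exact (hqc q).aestronglyMeasurable
    · exact Filter.Eventually.of_forall fun x => q.norm_coe_le_norm _
  induction hq using Submodule.span_induction with
  | mem q hq =>
    obtain ⟨k, rfl⟩ := hq
    simp only [fourier_eq_ek]
    have h1 : ∀ a : ℕ, ∫ x in (-(4 * Real.pi))..(4 * Real.pi),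
        ek k x * fm (fun k => ∫ y, ek k y ∂nu) (2 ^ (a + 1)) x =
        8 * Real.pi * (w (2 ^ (a + 1)) k * ∫ y, ek k y ∂nu) := fun a =>
      fm_coef _ _ Nat.one_le_two_pow k
    simp only [h1]
    apply Filter.Tendsto.const_mul
    have h2 : Filter.Tendsto (fun a : ℕ => ((w (2 ^ (a + 1)) k : ℝ) : ℂ) * ∫ y, ek k y ∂nu) Filter.atTop
        (nhds ((1 : ℝ) * ∫ y, ek k y ∂nu)) :=
      ((Complex.continuous_ofReal.tendsto _).comp (tendsto_w k)).mul_const _
    simpa using h2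
  | zero => simp
  | add p q _ _ hp hq =>
    have h := hp.add hq
    have e1 : ∀ a : ℕ, ∫ x in (-(4 * Real.pi))..(4 * Real.pi),
        (p + q) (x : AddCircle (8 * Real.pi)) * fm (fun k => ∫ y, ek k y ∂nu) (2 ^ (a + 1)) x =
        (∫ x in (-(4 * Real.pi))..(4 * Real.pi),
        p (x : AddCircle (8 * Real.pi)) * fm (fun k => ∫ y, ek k y ∂nu) (2 ^ (a + 1)) x) +
        ∫ x in (-(4 * Real.pi))..(4 * Real.pi),
        q (x : AddCircle (8 * Real.pi)) * fm (fun k => ∫ y, ek k y ∂nu) (2 ^ (a + 1)) x := by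
      intro a
      rw [← intervalIntegral.integral_add]
      · congr 1
        ext x
        simp only [ContinuousMap.add_apply]
        ring
      · exact ((hqc p).mul (fm_cont _ _)).intervalIntegrable _ _
      · exact ((hqc q).mul (fm_cont _ _)).intervalIntegrable _ _
    simp only [e1]
    have e2 : ∫ x : ℝ, (p + q) (x : AddCircle (8 * Real.pi)) ∂nu =
        (∫ x : ℝ, p (x : AddCircle (8 * Real.pi)) ∂nu) + ∫ x : ℝ, q (x : AddCircle (8 * Real.pi)) ∂nu := by
      rw [← integral_add (hqi p) (hqi q)]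
      rfl
    rw [e2, mul_add]
    exact h
  | smul c q _ hq =>
    have h := hq.const_mul c
    have e1 : ∀ a : ℕ, ∫ x in (-(4 * Real.pi))..(4 * Real.pi),
        (c • q) (x : AddCircle (8 * Real.pi)) * fm (fun k => ∫ y, ek k y ∂nu) (2 ^ (a + 1)) x =
        c * ∫ x in (-(4 * Real.pi))..(4 * Real.pi),
        q (x : AddCircle (8 * Real.pi)) * fm (fun k => ∫ y, ek k y ∂nu) (2 ^ (a + 1)) x := by
      intro a
      rw [← intervalIntegral.integral_const_mul]
      congr 1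
      ext x
      simp only [ContinuousMap.smul_apply, smul_eq_mul]
      ring
    simp only [e1]
    have e2 : ∫ x : ℝ, (c • q) (x : AddCircle (8 * Real.pi)) ∂nu =
        c * ∫ x : ℝ, q (x : AddCircle (8 * Real.pi)) ∂nu := by
      rw [← integral_const_mul]
      rfl
    rw [e2]
    have e3 : 8 * (Real.pi : ℂ) * (c * ∫ x : ℝ, q (x : AddCircle (8 * Real.pi)) ∂nu) =
        c * (8 * (Real.pi : ℂ) * ∫ x : ℝ, q (x : AddCircle (8 * Real.pi)) ∂nu) := by ring
    rw [e3]
    exact h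

lemma fm_L1 (nu : Measure ℝ) [IsProbabilityMeasure nu] (N : ℕ) (hN : 1 ≤ N) :
    ∫ x in (-(4 * Real.pi))..(4 * Real.pi), ‖fm (fun k => ∫ y, ek k y ∂nu) N x‖ = 8 * Real.pi := by
  have h := L1_fejer nu N N hN le_rfl
  rw [show nu.real Set.univ = 1 by simp [Measure.real], mul_one] at h
  exact h

lemma tele (nu : Measure ℝ) [IsProbabilityMeasure nu] (K rho : ℝ) (hrho0 : 0 ≤ rho) (hrho1 : rho < 1) (hK : 0 ≤ K)
    (hD : ∀ a : ℕ, ∫ x in (-(4 * Real.pi))..(4 * Real.pi),
      ‖fm (fun k => ∫ y, ek k y ∂nu) (2 ^ (a + 2)) x - fm (fun k => ∫ y, ek k y ∂nu) (2 ^ (a + 1)) x‖ ≤ K * rho ^ a)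
    (a b : ℕ) :
    ∫ x in (-(4 * Real.pi))..(4 * Real.pi),
      ‖fm (fun k => ∫ y, ek k y ∂nu) (2 ^ (a + b + 1)) x - fm (fun k => ∫ y, ek k y ∂nu) (2 ^ (a + 1)) x‖ ≤
      K * rho ^ a * ((1 - rho ^ b) / (1 - rho)) := by
  have hpi := Real.pi_gt_three
  have h1r : 0 < 1 - rho := by linarith
  induction b with
  | zero => simp
  | succ b ih =>
    have h1 : ∫ x in (-(4 * Real.pi))..(4 * Real.pi),
      ‖fm (fun k => ∫ y, ek k y ∂nu) (2 ^ (a + (b + 1) + 1)) x - fm (fun k => ∫ y, ek k y ∂nu) (2 ^ (a + 1)) x‖ ≤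
      ∫ x in (-(4 * Real.pi))..(4 * Real.pi),
      (‖fm (fun k => ∫ y, ek k y ∂nu) (2 ^ ((a + b) + 2)) x - fm (fun k => ∫ y, ek k y ∂nu) (2 ^ ((a + b) + 1)) x‖ +
      ‖fm (fun k => ∫ y, ek k y ∂nu) (2 ^ (a + b + 1)) x - fm (fun k => ∫ y, ek k y ∂nu) (2 ^ (a + 1)) x‖) := by
      apply intervalIntegral.integral_mono_on (by linarith)
      · exact ((fm_cont _ _).sub (fm_cont _ _)).norm.intervalIntegrable _ _
      · exact (((fm_cont _ _).sub (fm_cont _ _)).norm.add ((fm_cont _ _).sub (fm_cont _ _)).norm).intervalIntegrable _ _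
      · intro x _
        have : a + (b + 1) + 1 = (a + b) + 2 := by ring
        rw [this]
        exact norm_sub_le_norm_sub_add_norm_sub _ _ _
    have j1 : IntervalIntegrable (fun x => ‖fm (fun k => ∫ y, ek k y ∂nu) (2 ^ ((a + b) + 2)) x -
        fm (fun k => ∫ y, ek k y ∂nu) (2 ^ ((a + b) + 1)) x‖) volume (-(4 * Real.pi)) (4 * Real.pi) :=
      ((fm_cont _ _).sub (fm_cont _ _)).norm.intervalIntegrable _ _
    have j2 : IntervalIntegrable (fun x => ‖fm (fun k => ∫ y, ek k y ∂nu) (2 ^ (a + b + 1)) x -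
        fm (fun k => ∫ y, ek k y ∂nu) (2 ^ (a + 1)) x‖) volume (-(4 * Real.pi)) (4 * Real.pi) :=
      ((fm_cont _ _).sub (fm_cont _ _)).norm.intervalIntegrable _ _
    rw [intervalIntegral.integral_add j1 j2] at h1
    refine h1.trans ((add_le_add (hD (a + b)) ih).trans (le_of_eq ?_))
    rw [pow_add, pow_succ]
    field_simp
    ring

lemma ac_core (nu : Measure ℝ) [IsProbabilityMeasure nu] (hsupp : nu {x | 10 < |x|} = 0)
    (K rho : ℝ) (hK : 0 ≤ K) (hrho0 : 0 ≤ rho) (hrho1 : rho < 1)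
    (hD : ∀ a : ℕ, ∫ x in (-(4 * Real.pi))..(4 * Real.pi),
      ‖fm (fun k => ∫ y, ek k y ∂nu) (2 ^ (a + 2)) x - fm (fun k => ∫ y, ek k y ∂nu) (2 ^ (a + 1)) x‖ ≤ K * rho ^ a) :
    nu.AbsolutelyContinuous volume := by
  have hpi := Real.pi_gt_three
  have hpi0 := Real.pi_pos
  have h1r : 0 < 1 - rho := by linarith
  set c : ℤ → ℂ := fun k => ∫ y, ek k y ∂nu with hcdef
  have hc1 : ∀ k, ‖c k‖ ≤ 1 := by
    intro k
    simp only [hcdef]
    refine (norm_integral_le_integral_norm _).trans ?_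
    simp only [norm_ek]
    simp [Measure.real]
  -- compact null sets
  have hcomp : ∀ Z : Set ℝ, IsCompact Z → volume Z = 0 → Z ⊆ Set.Icc (-10) 10 → nu Z = 0 := by
    intro Z hZ hZ0 hZ10
    have hsmall : ∀ ε : ℝ, 0 < ε → nu.real Z ≤ 3 * ε := by
      intro ε hε
      -- choose a
      obtain ⟨a, ha⟩ : ∃ a : ℕ, K * rho ^ a / (1 - rho) ≤ ε := by
        have h1 : Filter.Tendsto (fun a : ℕ => K * rho ^ a / (1 - rho)) Filter.atTop (nhds (K * 0 / (1 - rho))) :=
          ((tendsto_pow_atTop_nhds_zero_of_lt_one hrho0 hrho1).const_mul K).div_const _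
        simp only [mul_zero, zero_div] at h1
        exact ((h1.eventually (ge_mem_nhds hε))).exists
      have hB0 : (0:ℝ) < 2 * ((2 ^ (a + 1) : ℕ) : ℝ) := by positivity
      set B : ℝ := 2 * ((2 ^ (a + 1) : ℕ) : ℝ) with hB
      have hBb : ∀ x, ‖fm c (2 ^ (a + 1)) x‖ ≤ B := fun x => fm_norm_le c hc1 _ x
      -- open set
      obtain ⟨U0, hZU0, hU0o, hU0v⟩ := Z.exists_isOpen_lt_of_lt (ENNReal.ofReal (ε / B))
        (by rw [hZ0]; exact ENNReal.ofReal_pos.mpr (by positivity))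
      set U := U0 ∩ Set.Ioo (-11 : ℝ) 11 with hU
      have hUo : IsOpen U := hU0o.inter isOpen_Ioo
      have hZU : Z ⊆ U := by
        intro x hx
        refine ⟨hZU0 hx, ?_, ?_⟩
        · linarith [(hZ10 hx).1]
        · linarith [(hZ10 hx).2]
      have hUv : volume U < ENNReal.ofReal (ε / B) := lt_of_le_of_lt (measure_mono Set.inter_subset_left) hU0v
      obtain ⟨h, hh0, hh1, hh01⟩ := exists_continuous_zero_one_of_isClosed hUo.isClosed_compl hZ.isClosed
        (Set.disjoint_left.mpr fun x hx hx' => hx (hZU hx'))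
      have hout : ∀ x : ℝ, 11 ≤ |x| → h x = 0 := by
        intro x hx
        apply hh0
        intro hxU
        have := abs_lt.mpr ⟨hxU.2.1, hxU.2.2⟩
        linarith
      have hnn : ∀ x, 0 ≤ h x := fun x => (hh01 x).1
      -- lift
      have hcont : Continuous (AddCircle.liftIco (8 * Real.pi) (-(4 * Real.pi)) (fun x => (h x : ℂ))) := by
        apply AddCircle.liftIco_continuous
        · have e1 : -(4 * Real.pi) + 8 * Real.pi = 4 * Real.pi := by ring
          rw [e1, hout (-(4 * Real.pi)) (by rw [abs_neg, abs_of_pos (by positivity)]; linarith),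
            hout (4 * Real.pi) (by rw [abs_of_pos (by positivity)]; linarith)]
        · exact (Complex.continuous_ofReal.comp h.continuous).continuousOn
      let H : C(AddCircle (8 * Real.pi), ℂ) :=
        ⟨AddCircle.liftIco (8 * Real.pi) (-(4 * Real.pi)) (fun x => (h x : ℂ)), hcont⟩
      have hHx : ∀ x : ℝ, x ∈ Set.Ico (-(4 * Real.pi)) (4 * Real.pi) → H (x : AddCircle (8 * Real.pi)) = (h x : ℂ) := by
        intro x hx
        have e1 : -(4 * Real.pi) + 8 * Real.pi = 4 * Real.pi := by ring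
        exact AddCircle.liftIco_coe_apply (f := fun x => (h x : ℂ)) (by rw [e1]; exact hx)
      obtain ⟨q, hq, hqH⟩ : ∃ q ∈ Submodule.span ℂ (Set.range (@fourier (8 * Real.pi))), ‖H - q‖ < ε := by
        have h1 : H ∈ (Submodule.span ℂ (Set.range (@fourier (8 * Real.pi)))).topologicalClosure := by
          rw [span_fourier_closure_eq_top]
          trivial
        obtain ⟨q, hq, hq2⟩ := Metric.mem_closure_iff.mp h1 ε hε
        exact ⟨q, hq, by rwa [dist_eq_norm] at hq2⟩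
      have hqx : ∀ x : ℝ, ‖H (x : AddCircle (8 * Real.pi)) - q (x : AddCircle (8 * Real.pi))‖ ≤ ε := by
        intro x
        exact ((H - q).norm_coe_le_norm _).trans hqH.le
      have hqc : ∀ q : C(AddCircle (8 * Real.pi), ℂ), Continuous (fun x : ℝ => q (x : AddCircle (8 * Real.pi))) := by
        intro q
        exact q.continuous.comp (AddCircle.continuous_mk' _)
      have hqi : ∀ q : C(AddCircle (8 * Real.pi), ℂ), Integrable (fun x : ℝ => q (x : AddCircle (8 * Real.pi))) nu := by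
        intro q
        apply Integrable.of_bound (C := ‖q‖)
        · exact (hqc q).aestronglyMeasurable
        · exact Filter.Eventually.of_forall fun x => q.norm_coe_le_norm _
      -- bound of the integral of h
      have hhint : ∫ x in (-(4 * Real.pi))..(4 * Real.pi), h x ≤ ε / B := by
        rw [intervalIntegral.integral_of_le (by linarith)]
        have h1 : ∫ x in Set.Ioc (-(4 * Real.pi)) (4 * Real.pi), h x ≤
            ∫ x in Set.Ioc (-(4 * Real.pi)) (4 * Real.pi), Set.indicator U (fun _ => (1:ℝ)) x := by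
          apply integral_mono
          · exact h.continuous.integrableOn_Ioc
          · exact (integrable_const (1:ℝ)).indicator hUo.measurableSet
          · intro x
            by_cases hx : x ∈ U
            · rw [Set.indicator_of_mem hx]
              exact (hh01 x).2
            · rw [Set.indicator_of_notMem hx, hh0 hx]
              rfl
        refine h1.trans ?_
        rw [integral_indicator_const _ hUo.measurableSet, smul_eq_mul, mul_one, Measure.real,
          Measure.restrict_apply hUo.measurableSet]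
        apply ENNReal.toReal_le_of_le_ofReal (by positivity)
        exact (measure_mono Set.inter_subset_left).trans hUv.le
      -- bound for q tested against the Fejer means
      have hbd : ∀ b : ℕ, ‖∫ x in (-(4 * Real.pi))..(4 * Real.pi),
          q (x : AddCircle (8 * Real.pi)) * fm c (2 ^ (a + b + 1)) x‖ ≤ 16 * Real.pi * ε := by
        intro b
        refine (intervalIntegral.norm_integral_le_integral_norm (by linarith)).trans ?_
        have h1 : ∫ x in (-(4 * Real.pi))..(4 * Real.pi),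
            ‖q (x : AddCircle (8 * Real.pi)) * fm c (2 ^ (a + b + 1)) x‖ ≤
            ∫ x in (-(4 * Real.pi))..(4 * Real.pi),
            ((h x * B + ‖fm c (2 ^ (a + b + 1)) x - fm c (2 ^ (a + 1)) x‖) + ε * ‖fm c (2 ^ (a + b + 1)) x‖) := by
          apply intervalIntegral.integral_mono_on_of_le_Ioo (by linarith)
          · exact ((hqc q).mul (fm_cont _ _)).norm.intervalIntegrable _ _
          · exact (((h.continuous.mul continuous_const).add ((fm_cont _ _).sub (fm_cont _ _)).norm).add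
              ((fm_cont _ _).norm.const_mul _)).intervalIntegrable _ _
          · intro x hx
            rw [norm_mul]
            have h2 : ‖q (x : AddCircle (8 * Real.pi))‖ ≤ h x + ε := by
              have h3 : q (x : AddCircle (8 * Real.pi)) = H (x : AddCircle (8 * Real.pi)) -
                  (H (x : AddCircle (8 * Real.pi)) - q (x : AddCircle (8 * Real.pi))) := by ring
              rw [h3]
              refine (norm_sub_le _ _).trans (add_le_add (le_of_eq ?_) (hqx x))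
              rw [hHx x ⟨hx.1.le, hx.2⟩, Complex.norm_real, Real.norm_of_nonneg (hnn x)]
            have h4 : ‖fm c (2 ^ (a + b + 1)) x‖ ≤ ‖fm c (2 ^ (a + b + 1)) x - fm c (2 ^ (a + 1)) x‖ + B := by
              calc ‖fm c (2 ^ (a + b + 1)) x‖ = ‖(fm c (2 ^ (a + b + 1)) x - fm c (2 ^ (a + 1)) x) + fm c (2 ^ (a + 1)) x‖ := by
                    rw [sub_add_cancel]
                _ ≤ _ := (norm_add_le _ _).trans (add_le_add le_rfl (hBb x))
            calc ‖q (x : AddCircle (8 * Real.pi))‖ * ‖fm c (2 ^ (a + b + 1)) x‖ ≤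
                (h x + ε) * ‖fm c (2 ^ (a + b + 1)) x‖ := by gcongr
              _ = h x * ‖fm c (2 ^ (a + b + 1)) x‖ + ε * ‖fm c (2 ^ (a + b + 1)) x‖ := by ring
              _ ≤ h x * (‖fm c (2 ^ (a + b + 1)) x - fm c (2 ^ (a + 1)) x‖ + B) + ε * ‖fm c (2 ^ (a + b + 1)) x‖ := by
                  have := mul_le_mul_of_nonneg_left h4 (hnn x)
                  linarith
              _ ≤ (h x * B + ‖fm c (2 ^ (a + b + 1)) x - fm c (2 ^ (a + 1)) x‖) + ε * ‖fm c (2 ^ (a + b + 1)) x‖ := by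
                  have := mul_le_mul_of_nonneg_right (hh01 x).2
                    (norm_nonneg (fm c (2 ^ (a + b + 1)) x - fm c (2 ^ (a + 1)) x))
                  nlinarith
        refine h1.trans ?_
        have j1 : IntervalIntegrable (fun x => h x * B) volume (-(4 * Real.pi)) (4 * Real.pi) :=
          (h.continuous.mul continuous_const).intervalIntegrable _ _
        have j2 : IntervalIntegrable (fun x => ‖fm c (2 ^ (a + b + 1)) x - fm c (2 ^ (a + 1)) x‖) volume
            (-(4 * Real.pi)) (4 * Real.pi) := ((fm_cont _ _).sub (fm_cont _ _)).norm.intervalIntegrable _ _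
        have j3 : IntervalIntegrable (fun x => ε * ‖fm c (2 ^ (a + b + 1)) x‖) volume
            (-(4 * Real.pi)) (4 * Real.pi) := ((fm_cont _ _).norm.const_mul _).intervalIntegrable _ _
        rw [intervalIntegral.integral_add (j1.add j2) j3, intervalIntegral.integral_add j1 j2,
          intervalIntegral.integral_mul_const, intervalIntegral.integral_const_mul,
          fm_L1 nu _ Nat.one_le_two_pow]
        have k1 : (∫ x in (-(4 * Real.pi))..(4 * Real.pi), h x) * B ≤ ε := by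
          calc (∫ x in (-(4 * Real.pi))..(4 * Real.pi), h x) * B ≤ (ε / B) * B := by gcongr
            _ = ε := by field_simp
        have k2 : ∫ x in (-(4 * Real.pi))..(4 * Real.pi), ‖fm c (2 ^ (a + b + 1)) x - fm c (2 ^ (a + 1)) x‖ ≤ ε := by
          refine (tele nu K rho hrho0 hrho1 hK hD a b).trans (le_trans ?_ ha)
          rw [mul_div_assoc' (K * rho ^ a)]
          apply div_le_div_of_nonneg_right _ h1r.le
          have : 0 ≤ K * rho ^ a := by positivity
          have h5 : 0 ≤ rho ^ b := by positivity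
          nlinarith
        nlinarith
      have hlimq := tendsto_span nu q hq
      have hlimq2 : ‖(8 * Real.pi * ∫ x, q ((x : ℝ) : AddCircle (8 * Real.pi)) ∂nu : ℂ)‖ ≤ 16 * Real.pi * ε := by
        have h1 := (hlimq.comp (Filter.tendsto_add_atTop_nat a)).norm
        apply le_of_tendsto h1
        apply Filter.Eventually.of_forall
        intro b
        have h2 := hbd b
        simp only [Function.comp]
        rw [show b + a + 1 = a + b + 1 by ring]
        exact h2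
      have hq3 : ‖∫ x, q ((x : ℝ) : AddCircle (8 * Real.pi)) ∂nu‖ ≤ 2 * ε := by
        have h1 : ‖(8 * Real.pi * ∫ x, q ((x : ℝ) : AddCircle (8 * Real.pi)) ∂nu : ℂ)‖ =
            8 * Real.pi * ‖∫ x, q ((x : ℝ) : AddCircle (8 * Real.pi)) ∂nu‖ := by
          rw [norm_mul]
          congr 1
          have : (8 * (Real.pi : ℂ)) = ((8 * Real.pi : ℝ) : ℂ) := by push_cast; ring
          rw [this, Complex.norm_real, Real.norm_of_nonneg (by positivity)]
        rw [h1] at hlimq2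
        have h2 : 8 * Real.pi * ‖∫ x, q ((x : ℝ) : AddCircle (8 * Real.pi)) ∂nu‖ ≤ 8 * Real.pi * (2 * ε) := by
          linarith
        exact le_of_mul_le_mul_left h2 (by positivity)
      -- integral of h
      have hae : ∀ᵐ x ∂nu, H ((x : ℝ) : AddCircle (8 * Real.pi)) = (h x : ℂ) := by
        have h1 : ∀ᵐ x ∂nu, ¬ (10 < |x|) := by
          rw [ae_iff]
          simpa using hsupp
        filter_upwards [h1] with x hx
        have hx' := abs_le.mp (not_lt.mp hx)
        exact hHx x ⟨by linarith [hx'.1], by linarith [hx'.2]⟩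
      have hint2 : ((∫ x, h x ∂nu : ℝ) : ℂ) = ∫ x, H ((x : ℝ) : AddCircle (8 * Real.pi)) ∂nu := by
        rw [← integral_complex_ofReal]
        exact (integral_congr_ae hae).symm
      have hint3 : ∫ x, h x ∂nu ≤ 3 * ε := by
        have h1 : ∫ x, h x ∂nu ≤ ‖((∫ x, h x ∂nu : ℝ) : ℂ)‖ := by
          rw [Complex.norm_real]
          exact le_abs_self _
        refine h1.trans ?_
        rw [hint2]
        have h2 : ∫ x, H ((x : ℝ) : AddCircle (8 * Real.pi)) ∂nu =
            (∫ x, (H ((x : ℝ) : AddCircle (8 * Real.pi)) - q ((x : ℝ) : AddCircle (8 * Real.pi))) ∂nu) +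
            ∫ x, q ((x : ℝ) : AddCircle (8 * Real.pi)) ∂nu := by
          rw [integral_sub (hqi H) (hqi q)]
          ring
        rw [h2]
        have h3 : ‖∫ x, (H ((x : ℝ) : AddCircle (8 * Real.pi)) - q ((x : ℝ) : AddCircle (8 * Real.pi))) ∂nu‖ ≤ ε := by
          have h4 := norm_integral_le_of_norm_le_const (μ := nu) (C := ε)
            (f := fun x : ℝ => H ((x : ℝ) : AddCircle (8 * Real.pi)) - q ((x : ℝ) : AddCircle (8 * Real.pi)))
            (Filter.Eventually.of_forall fun x => hqx x)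
          simpa [Measure.real] using h4
        refine (norm_add_le _ _).trans ?_
        linarith
      refine le_trans ?_ hint3
      have h1 : nu.real Z = ∫ x, Set.indicator Z (fun _ => (1:ℝ)) x ∂nu := by
        rw [integral_indicator_const _ hZ.measurableSet, smul_eq_mul, mul_one]
      rw [h1]
      apply integral_mono
      · exact (integrable_const (1:ℝ)).indicator hZ.measurableSet
      · apply Integrable.of_bound (C := 1)
        · exact h.continuous.aestronglyMeasurable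
        · exact Filter.Eventually.of_forall fun x => by
            rw [Real.norm_of_nonneg (hnn x)]
            exact (hh01 x).2
      · intro x
        by_cases hx : x ∈ Z
        · rw [Set.indicator_of_mem hx, hh1 hx]
          rfl
        · rw [Set.indicator_of_notMem hx]
          exact hnn x
    have h0 : nu.real Z ≤ 0 := by
      apply le_of_forall_pos_le_add
      intro ε hε
      have := hsmall (ε / 3) (by positivity)
      linarith
    have h1 : nu.real Z = 0 := le_antisymm h0 measureReal_nonneg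
    have h2 := (measureReal_eq_zero_iff (μ := nu) (s := Z)).mp h1
    exact h2
  apply Measure.AbsolutelyContinuous.mk
  intro A hA hA0
  have hA1 : nu (A ∩ Set.Icc (-10) 10) = 0 := by
    rw [(hA.inter measurableSet_Icc).measure_eq_iSup_isCompact]
    simp only [ENNReal.iSup_eq_zero]
    intro Z hZsub hZ
    exact hcomp Z hZ (measure_mono_null (hZsub.trans Set.inter_subset_left) hA0) (hZsub.trans Set.inter_subset_right)
  have hA2 : A ⊆ (A ∩ Set.Icc (-10) 10) ∪ {x | 10 < |x|} := by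
    intro x hx
    by_cases h : 10 < |x|
    · exact Or.inr h
    · left
      exact ⟨hx, abs_le.mp (not_lt.mp h)⟩
  exact measure_mono_null hA2 (measure_union_null hA1 hsupp)

end ENDL

theorem ac_of_decay (nu : Measure ℝ) (hnu : IsProbabilityMeasure nu) (hsupp : nu {x | 10 < |x|} = 0)
    (E : ℕ → ℝ → ℝ) (hE : ∀ n, Measurable (E n)) (hb : ∀ n s, |E n s| ≤ 3)
    (hlim : ∀ xi : ℝ, Filter.Tendsto (fun n : ℕ =>
      (∫ s in (0:ℝ)..1, Complex.exp (-(xi * E n s : ℝ) * Complex.I)) ^ 2) Filter.atTop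
      (nhds (∫ x, Complex.exp ((xi * x : ℝ) * Complex.I) ∂nu)))
    (C gam bet eps1 : ℝ) (hC : 0 < C) (hgam : 0 < gam) (hgam1 : gam ≤ 1) (hbet : 0 < bet)
    (he0 : 0 ≤ eps1) (he1 : eps1 < 2 * gam)
    (H : ∀ R : ℝ, 1 ≤ R → ∃ n0 : ℕ, ∀ n ≥ n0,
      (∀ xi : ℝ, 1 ≤ |xi| → |xi| ≤ R →
        ‖∫ s in (0:ℝ)..1, Complex.exp (-(xi * E n s : ℝ) * Complex.I)‖ ≤ C * |xi| ^ (-gam)) ∧
      ∃ T : Set ℝ, MeasurableSet T ∧ T ⊆ Set.Ioo 0 1 ∧
        volume (Set.Ioo 0 1 \ T) ≤ ENNReal.ofReal (C * R ^ (-bet)) ∧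
        ∀ x : ℝ, volume {s | s ∈ T ∧ |E n s - x| ≤ 1 / R} ≤ ENNReal.ofReal (C * R ^ (-1 + eps1))) :
    nu.AbsolutelyContinuous volume := by
  have hpi := Real.pi_gt_three
  have hker : ∀ (k : ℤ) (n : ℕ), ∫ s in (0:ℝ)..1, Complex.exp (-(((k : ℝ) / 4) * E n s : ℝ) * Complex.I) =
      ∫ s in (Set.Ioo (0:ℝ) 1), ENDL.ek k (-E n s) := by
    intro k n
    rw [intervalIntegral.integral_of_le (by norm_num), integral_Ioc_eq_integral_Ioo]
    congr 1
    ext s
    unfold ENDL.ek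
    congr 1
    push_cast
    ring
  set c : ℤ → ℂ := fun k => ∫ y, ENDL.ek k y ∂nu with hcdef
  set kap : ℝ := min 1 (min bet (gam - eps1 / 2)) with hkap
  have hkap0 : 0 < kap := by
    rw [hkap]
    refine lt_min (by norm_num) (lt_min hbet (by linarith))
  have hk1 : kap ≤ 1 := min_le_left _ _
  have hk2 : kap ≤ bet := (min_le_right _ _).trans (min_le_left _ _)
  have hk3 : kap ≤ gam - eps1 / 2 := (min_le_right _ _).trans (min_le_right _ _)
  set K : ℝ := 32 * Real.pi + 16 * Real.pi * C + 4 * Real.pi * (1 + 64 * Real.pi * C * (max 1 C) ^ 2) with hK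
  have hK0 : 0 ≤ K := by
    have : 0 < max 1 C := lt_max_of_lt_left one_pos
    positivity
  have hstep : ∀ N : ℕ, 2 ≤ N → ∫ x in (-(4 * Real.pi))..(4 * Real.pi),
      ‖ENDL.fm c (2 * N) x - ENDL.fm c N x‖ ≤ K * (N : ℝ) ^ (-kap) := by
    intro N hN
    have hN' : (2:ℝ) ≤ N := by exact_mod_cast hN
    have hN0 : (0:ℝ) < N := by linarith
    have hN1 : (1:ℝ) ≤ N := by linarith
    obtain ⟨n0, hn0⟩ := H N hN1
    have hev : ∀ᶠ n : ℕ in Filter.atTop, ∀ k ∈ Finset.Ioo (-((2 * N : ℕ) : ℤ)) ((2 * N : ℕ) : ℤ),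
        ‖c k - (∫ s in (Set.Ioo (0:ℝ) 1), ENDL.ek k (-E n s)) ^ 2‖ ≤ 1 / (N : ℝ) ^ 2 := by
      rw [Filter.eventually_all_finset]
      intro k _
      have h1 := hlim ((k : ℝ) / 4)
      simp only [hker k] at h1
      have h2 : ∫ x, Complex.exp ((((k : ℝ) / 4) * x : ℝ) * Complex.I) ∂nu = c k := rfl
      rw [h2] at h1
      have h3 : (0:ℝ) < 1 / (N : ℝ) ^ 2 := by positivity
      have h4 := Metric.tendsto_atTop.mp h1 _ h3
      obtain ⟨n1, hn1⟩ := h4
      filter_upwards [Filter.eventually_ge_atTop n1] with n hn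
      have h5 := hn1 n hn
      rw [dist_eq_norm, norm_sub_rev] at h5
      exact h5.le
    obtain ⟨n, hn, hnn⟩ := (hev.and (Filter.eventually_ge_atTop n0)).exists
    obtain ⟨hdec, T, hTm, hT1, hTv, hTm2⟩ := hn0 n hnn
    have hs := ENDL.step (E n) (hE n) (hb n) T hTm hT1 N hN c C gam bet eps1 hC hgam1 hn
      (by
        intro k h1 h2
        rw [← hker k n]
        exact hdec _ h1 h2) hTv hTm2
    simp only [ENDL.fm_diff c N (by omega : 1 ≤ N)]
    refine hs.trans ?_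
    have p1 : 32 * Real.pi / N ≤ 32 * Real.pi * (N : ℝ) ^ (-kap) := by
      rw [div_eq_mul_inv]
      apply mul_le_mul_of_nonneg_left _ (by positivity)
      rw [← Real.rpow_neg_one]
      exact Real.rpow_le_rpow_of_exponent_le hN1 (by linarith)
    have p2 : (N : ℝ) ^ (-bet) ≤ (N : ℝ) ^ (-kap) := Real.rpow_le_rpow_of_exponent_le hN1 (by linarith)
    have p3 : (N : ℝ) ^ (-(gam - eps1 / 2)) ≤ (N : ℝ) ^ (-kap) :=
      Real.rpow_le_rpow_of_exponent_le hN1 (by linarith)
    have hmx : 0 < max 1 C := lt_max_of_lt_left one_pos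
    calc 32 * Real.pi / N + 16 * Real.pi * (C * (N : ℝ) ^ (-bet)) +
        4 * Real.pi * (1 + 64 * Real.pi * C * (max 1 C) ^ 2) * (N : ℝ) ^ (-(gam - eps1 / 2)) ≤
        32 * Real.pi * (N : ℝ) ^ (-kap) + 16 * Real.pi * (C * (N : ℝ) ^ (-kap)) +
        4 * Real.pi * (1 + 64 * Real.pi * C * (max 1 C) ^ 2) * (N : ℝ) ^ (-kap) := by gcongr
      _ = K * (N : ℝ) ^ (-kap) := by rw [hK]; ring
  refine ENDL.ac_core nu hsupp K ((2:ℝ) ^ (-kap)) hK0 (by positivity)
    (Real.rpow_lt_one_of_one_lt_of_neg (by norm_num) (by linarith)) ?_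
  intro a
  have h1 := hstep (2 ^ (a + 1)) (by
    calc 2 = 2 ^ 1 := by norm_num
      _ ≤ 2 ^ (a + 1) := Nat.pow_le_pow_right (by norm_num) (by omega))
  have h2 : 2 * 2 ^ (a + 1) = 2 ^ (a + 2) := by ring
  rw [h2] at h1
  refine h1.trans ?_
  apply mul_le_mul_of_nonneg_left _ hK0
  have h3 : (((2 ^ (a + 1) : ℕ) : ℝ)) ^ (-kap) = ((2:ℝ) ^ (-kap)) ^ (a + 1) := by
    push_cast
    rw [← Real.rpow_natCast ((2:ℝ) ^ (-kap)), ← Real.rpow_mul (by norm_num), ← Real.rpow_natCast 2,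
      ← Real.rpow_mul (by norm_num)]
    congr 1
    ring
  rw [h3, pow_succ]
  have h4 : (2:ℝ) ^ (-kap) ≤ 1 := Real.rpow_le_one_of_one_le_of_nonpos (by norm_num) (by linarith)
  have h5 : 0 ≤ ((2:ℝ) ^ (-kap)) ^ a := by positivity
  nlinarith

end SF
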