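import Pool.Agent.Helper65.SF.Defs

/-!
# SF-F0: algebra of the trace recursion

Proofs in words.
* `det_mseq`: induction (two step).
* `trace_mseq`: strong induction.  `M (k+3) = M (k+1) M (k+2) = M (k+1) M k M (k+1)`.  For 2x2
  matrices `Y` of determinant 1, `trace (Y Z) + trace (Y⁻¹ Z) = trace Y trace Z` with `Y⁻¹` = adjugate.
  `M (k+2) = M k M (k+1)`, and `trace (M (k+1)⁻¹ M (k+2)) = trace (M k)` (conjugation), so
  `trace M (k+3) = trace M (k+1) trace M (k+2) - trace M k`.
-/

namespace SF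

open Matrix

theorem det_mseq {K : Type*} [CommRing K] (A B : M2 K) (hA : A.det = 1) (hB : B.det = 1) (k : ℕ) :
    (mseq A B k).det = 1 := by
  induction k using Nat.twoStepInduction with
  | zero => simpa [mseq] using hA
  | one => simpa [mseq] using hB
  | more k h1 h2 => simp only [mseq, Matrix.det_mul, h1, h2, one_mul]

theorem trace_step46 {K : Type*} [CommRing K] (A Y : M2 K) (hY : Y.det = 1) :
    (Y * (A * Y)).trace = Y.trace * (A * Y).trace - A.trace := by
  have h : A.trace = Y.det * A.trace := by rw [hY, one_mul]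
  rw [h]
  simp only [Matrix.trace_fin_two, Matrix.mul_apply, Fin.sum_univ_two, Matrix.det_fin_two]
  ring

theorem trace_mseq {K : Type*} [Field K] (h2 : (2 : K) ≠ 0) (A B : M2 K) (hA : A.det = 1)
    (hB : B.det = 1) (k : ℕ) :
    (mseq A B k).trace = 2 * tr (A.trace / 2) (B.trace / 2) ((A * B).trace / 2) k := by
  have key : ∀ k, (mseq A B k).trace = 2 * tr (A.trace / 2) (B.trace / 2) ((A * B).trace / 2) k ∧
      (mseq A B (k + 1)).trace = 2 * tr (A.trace / 2) (B.trace / 2) ((A * B).trace / 2) (k + 1) ∧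
      (mseq A B (k + 2)).trace
        = 2 * tr (A.trace / 2) (B.trace / 2) ((A * B).trace / 2) (k + 2) := by
    intro k
    induction k with
    | zero =>
      refine ⟨?_, ?_, ?_⟩
      · simp only [mseq, tr]; field_simp
      · simp only [mseq, tr]; field_simp
      · simp only [mseq, tr]; field_simp
    | succ k ih =>
      obtain ⟨i0, i1, i2⟩ := ih
      refine ⟨i1, i2, ?_⟩
      have h3 : mseq A B (k + 1 + 2) = mseq A B (k + 1) * (mseq A B k * mseq A B (k + 1)) := rfl
      have h4 : mseq A B (k + 2) = mseq A B k * mseq A B (k + 1) := rfl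
      rw [h3, trace_step46 _ _ (det_mseq A B hA hB (k + 1)), ← h4, i0, i1, i2]
      have h5 : tr (A.trace / 2) (B.trace / 2) ((A * B).trace / 2) (k + 1 + 2)
        = 2 * tr (A.trace / 2) (B.trace / 2) ((A * B).trace / 2) (k + 2)
            * tr (A.trace / 2) (B.trace / 2) ((A * B).trace / 2) (k + 1)
          - tr (A.trace / 2) (B.trace / 2) ((A * B).trace / 2) k := rfl
      rw [h5]
      ring
  exact (key k).1

theorem tr_inv {K : Type*} [CommRing K] (p q w c : K)
    (h : w ^ 2 + q ^ 2 + p ^ 2 - 2 * w * q * p = c) (k : ℕ) :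
    tr p q w (k + 2) ^ 2 + tr p q w (k + 1) ^ 2 + tr p q w k ^ 2
      - 2 * tr p q w (k + 2) * tr p q w (k + 1) * tr p q w k = c := by
  induction k with
  | zero => simpa only [tr] using h
  | succ k ih =>
    have h5 : tr p q w (k + 1 + 2) = 2 * tr p q w (k + 2) * tr p q w (k + 1) - tr p q w k := rfl
    rw [h5, ← ih]
    ring

theorem det_eM {K : Type*} [CommRing K] (lam t : K) (k : ℕ) : (eM lam t k).det = 1 := by
  apply det_mseq
  · simp [Matrix.det_fin_two]
  · simp [Matrix.det_fin_two]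

theorem trace_eM {K : Type*} [Field K] (h2 : (2 : K) ≠ 0) (lam t : K) (k : ℕ) :
    (eM lam t k).trace = 2 * X lam t k := by
  have hA : (!![1, -lam; 0, 1] : M2 K).det = 1 := by simp [Matrix.det_fin_two]
  have hB : (!![-t, -1; 1, 0] : M2 K).det = 1 := by simp [Matrix.det_fin_two]
  unfold eM X
  rw [trace_mseq h2 _ _ hA hB k]
  have e1 : (!![1, -lam; 0, 1] : M2 K).trace / 2 = 1 := by
    simp [Matrix.trace_fin_two]
    field_simp
    norm_num
  have e2 : (!![-t, -1; 1, 0] : M2 K).trace / 2 = -t / 2 := by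
    simp [Matrix.trace_fin_two]
  have e3 : ((!![1, -lam; 0, 1] : M2 K) * !![-t, -1; 1, 0]).trace / 2 = -(t + lam) / 2 := by
    congr 1
    simp [Matrix.trace_fin_two]
    ring
  rw [e1, e2, e3]

theorem tr_map46 {R S : Type*} [CommRing R] [CommRing S] (f : R →+* S) (p q w : R) (k : ℕ) :
    tr (f p) (f q) (f w) k = f (tr p q w k) := by
  have key : ∀ k, tr (f p) (f q) (f w) k = f (tr p q w k) ∧
      tr (f p) (f q) (f w) (k + 1) = f (tr p q w (k + 1)) ∧
      tr (f p) (f q) (f w) (k + 2) = f (tr p q w (k + 2)) := by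
    intro k
    induction k with
    | zero => exact ⟨rfl, rfl, rfl⟩
    | succ k ih =>
      obtain ⟨i0, i1, i2⟩ := ih
      refine ⟨i1, i2, ?_⟩
      have h5 : tr p q w (k + 1 + 2) = 2 * tr p q w (k + 2) * tr p q w (k + 1) - tr p q w k := rfl
      have h6 : tr (f p) (f q) (f w) (k + 1 + 2)
        = 2 * tr (f p) (f q) (f w) (k + 2) * tr (f p) (f q) (f w) (k + 1)
          - tr (f p) (f q) (f w) k := rfl
      rw [h5, h6, i0, i1, i2]
      simp only [map_sub, map_mul, map_ofNat]
  exact (key k).1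

theorem X_ofReal (lam t : ℝ) (k : ℕ) : X (lam : ℂ) (t : ℂ) k = ((X lam t k : ℝ) : ℂ) := by
  unfold X
  have h := tr_map46 Complex.ofRealHom (1 : ℝ) (-t / 2) (-(t + lam) / 2) k
  simp only [Complex.ofRealHom_eq_coe, Complex.ofReal_one, Complex.ofReal_div, Complex.ofReal_neg,
    Complex.ofReal_add, Complex.ofReal_ofNat] at h
  exact h

theorem rr_sq (lam b : ℝ) : rr lam b ^ 2 = 1 + qq lam b ^ 2 := by
  unfold rr
  exact Real.sq_sqrt (by positivity)

theorem one_le_rr (lam b : ℝ) : 1 ≤ rr lam b := by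
  unfold rr
  rw [Real.one_le_sqrt]
  nlinarith [sq_nonneg (qq lam b)]

theorem det_rot46 (z : ℝ) : (rot z).det = 1 := by
  have h := Real.sin_sq_add_cos_sq z
  simp only [rot, Matrix.det_fin_two_of]
  nlinarith

theorem det_rotC46 (z : ℂ) : (rotC z).det = 1 := by
  have h := Complex.sin_sq_add_cos_sq z
  simp only [rotC, Matrix.det_fin_two_of]
  linear_combination h

theorem det_hyp46 (lam b : ℝ) : (hyp lam b).det = 1 := by
  have h := rr_sq lam b
  simp only [hyp, Matrix.det_fin_two_of]
  linear_combination h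

theorem det_wM (lam b psi : ℝ) (k : ℕ) : (wM lam b psi k).det = 1 := by
  apply det_mseq
  · rw [Matrix.det_mul, det_rot46, det_hyp46, one_mul]
  · exact det_rot46 b

theorem trace_wM (lam b psi : ℝ) (k : ℕ) : (wM lam b psi k).trace = 2 * W lam b psi k := by
  have hA : (rot psi * hyp lam b).det = 1 := by rw [Matrix.det_mul, det_rot46, det_hyp46, one_mul]
  unfold wM W
  rw [trace_mseq two_ne_zero _ _ hA (det_rot46 b) k]
  have e1 : (rot psi * hyp lam b).trace / 2 = rr lam b * Real.cos psi := by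
    simp [rot, hyp, Matrix.trace_fin_two]
    ring
  have e2 : (rot b).trace / 2 = Real.cos b := by
    simp [rot, Matrix.trace_fin_two]
  have e3 : (rot psi * hyp lam b * rot b).trace / 2 = rr lam b * Real.cos (psi + b) := by
    rw [Real.cos_add]
    simp [rot, hyp, Matrix.trace_fin_two]
    ring
  rw [e1, e2, e3]

theorem det_mapC46 (A : M2 ℝ) (hA : A.det = 1) : (A.map (fun x : ℝ => (x : ℂ))).det = 1 := by
  have h : ((A.det : ℝ) : ℂ) = 1 := by rw [hA]; simp
  rw [Matrix.det_fin_two] at h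
  rw [Matrix.det_fin_two]
  simpa using h

theorem det_wMC (lam b : ℝ) (z : ℂ) (k : ℕ) : (wMC lam b z k).det = 1 := by
  apply det_mseq
  · rw [Matrix.det_mul, det_rotC46, det_mapC46 _ (det_hyp46 lam b), one_mul]
  · exact det_mapC46 _ (det_rot46 b)

theorem trace_wMC (lam b : ℝ) (z : ℂ) (k : ℕ) : (wMC lam b z k).trace = 2 * WC lam b z k := by
  have hA : (rotC z * (hyp lam b).map (fun x : ℝ => (x : ℂ))).det = 1 := by
    rw [Matrix.det_mul, det_rotC46, det_mapC46 _ (det_hyp46 lam b), one_mul]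
  unfold wMC WC
  rw [trace_mseq two_ne_zero _ _ hA (det_mapC46 _ (det_rot46 b)) k]
  have e1 : (rotC z * (hyp lam b).map (fun x : ℝ => (x : ℂ))).trace / 2
      = (rr lam b : ℂ) * Complex.cos z := by
    simp only [Matrix.trace_fin_two, Matrix.mul_apply, Fin.sum_univ_two, Matrix.map_apply]
    simp [rotC, hyp]
    ring
  have e2 : ((rot b).map (fun x : ℝ => (x : ℂ))).trace / 2 = ((Real.cos b : ℝ) : ℂ) := by
    simp [rot, Matrix.trace_fin_two]
  have e3 : (rotC z * (hyp lam b).map (fun x : ℝ => (x : ℂ))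
      * (rot b).map (fun x : ℝ => (x : ℂ))).trace / 2
      = (rr lam b : ℂ) * Complex.cos (z + (b : ℂ)) := by
    rw [Complex.cos_add]
    simp only [Matrix.trace_fin_two, Matrix.mul_apply, Fin.sum_univ_two, Matrix.map_apply]
    simp [rotC, rot, hyp]
    ring
  rw [e1, e2, e3]

theorem WC_ofReal (lam b psi : ℝ) (k : ℕ) : WC lam b (psi : ℂ) k = ((W lam b psi k : ℝ) : ℂ) := by
  unfold WC W
  have h := tr_map46 Complex.ofRealHom (rr lam b * Real.cos psi) (Real.cos b)
    (rr lam b * Real.cos (psi + b)) k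
  simp only [Complex.ofRealHom_eq_coe, Complex.ofReal_mul, Complex.ofReal_cos,
    Complex.ofReal_add] at h
  simp only [Complex.ofReal_cos]
  exact h

end SF
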