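import Pool.Agent.Helper65.SF.Defs

/-!
# SF-F2: the step lemma `c (k+2) ≈ c (k+1) c k`

Proof in words (`St lam x o`).
`prod_sq`: `(x2 - x0 x1)^2 = (1-x0^2)(1-x1^2) + lam^2/4` from `inv`, for each pair of indices.
`rel3`: `|x (k+1)|, |x (k+2)| < 1` imply `0 < (x k - x (k+1) x (k+2)) o (k+1) o (k+2)`: rel1 at k+1 and
rec3.
`escape`: if `|x k| <= 1`: `|x (k+3)| >= 2 |x (k+2) x (k+1)| - 1`.  If `|x k| >= 1` and k >= 1 use
induction: `|x k x (k+1)| <= |x (k+2)|`, so `|x k| <= |x (k+2)|/|x (k+1)| <= |x (k+2) x (k+1)|`.  If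
`k = 0` then `start` gives `x 0 = 1` (as `|x 1| >= 1`).  The sign statement comes along.
`mid_bound`: `|x1 - x0 x2| <= sqrt ((1-x0^2)(1-x2^2)) + lam/2` and
`|x0 x2| + sqrt ((1-x0^2)(1-x2^2)) <= 1`.
`step`, put `c k = cpt (x k) (o k)`:
 (EE) `|x k|, |x (k+1)| < 1`, angles a, b of c k, c (k+1): `x (k+2) = cos a cos b - o o' sqrt(sin^2 a
   sin^2 b + lam^2/4)`, so `|clip (x (k+2)) - cos (a+b)| <= lam/2`, hence `v = Im c (k+2)` has
   `|v^2 - sin^2 (a+b)| <= lam`.  If v and sin (a+b) have the same sign, `|v - sin(a+b)| <= sqrt lam`.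
   If not (and `|x (k+2)| < 1`): `x (k+1) - x k x (k+2) = sin a sin (a+b) + (error <= lam/2)`, and rel2
   says that its sign is that of `sin a * v`; so `|sin a sin (a+b)| <= lam/2`; same for b with rel3;
   as `|sin (a+b)| <= |sin a| + |sin b|`, `sin^2 (a+b) <= lam`, so `|v| <= sqrt (2 lam)`.
 (HE) `|x k| >= 1 > |x (k+1)|`, `eps = sign (x k)`: `|x (k+2) - x k x (k+1)| <= lam/2` and
   `(x k^2 - 1)(1 - x (k+1)^2) <= lam^2/4`.  If `1 - x (k+1)^2 >= lam` then `|x k| - 1 <= lam/8`; else
   `|x (k+1)| >= 1 - lam` and `|x(k+2)| >= 1 - 3 lam/2` with the right sign.  So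
   `|clip (x (k+2)) - eps x (k+1)| <= 3 lam/2`.  rel3: `o (k+2) = eps o (k+1)` if `|x (k+2)| < 1`.
   `|sqrt(1-u^2) - sqrt(1-w^2)| <= sqrt |u^2-w^2| <= sqrt (3 lam)`.
 (EH) the same with rel2.  (HH) escape: exact equality; for k = 0, `x 0 = 1`, `|x 2 - x 1| <= lam`.
-/

namespace SF

variable {lam : ℝ} {x o : ℕ → ℝ}

theorem prod_sq01 (h : St lam x o) (k : ℕ) :
    (x (k + 2) - x (k + 1) * x k) ^ 2 = (1 - x (k + 1) ^ 2) * (1 - x k ^ 2) + lam ^ 2 / 4 := by
  have := h.inv k
  linear_combination this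

theorem prod_sq02 (h : St lam x o) (k : ℕ) :
    (x (k + 1) - x k * x (k + 2)) ^ 2 = (1 - x k ^ 2) * (1 - x (k + 2) ^ 2) + lam ^ 2 / 4 := by
  have := h.inv k
  linear_combination this

theorem prod_sq12 (h : St lam x o) (k : ℕ) :
    (x k - x (k + 1) * x (k + 2)) ^ 2 = (1 - x (k + 1) ^ 2) * (1 - x (k + 2) ^ 2) + lam ^ 2 / 4 := by
  have := h.inv k
  linear_combination this

theorem rel3 (h : St lam x o) (k : ℕ) (h1 : |x (k + 1)| < 1) (h2 : |x (k + 2)| < 1) :
    0 < (x k - x (k + 1) * x (k + 2)) * (o (k + 1) * o (k + 2)) := by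
  have h3 := h.rel1 (k + 1) h1 h2
  have h4 := h.rec3 k
  have h5 : x (k + 1 + 2) = 2 * x (k + 2) * x (k + 1) - x k := h4
  have h6 : x (k + 1 + 1) = x (k + 2) := rfl
  have h7 : o (k + 1 + 1) = o (k + 2) := rfl
  rw [h5, h6, h7] at h3
  linarith

theorem escape (h : St lam x o) (k : ℕ) (h1 : 1 ≤ |x (k + 1)|) (h2 : 1 ≤ |x (k + 2)|) :
    |x (k + 1) * x (k + 2)| ≤ |x (k + 3)| ∧ 0 < x (k + 1) * x (k + 2) * x (k + 3) := by
  induction k with
  | zero =>
    have h3 : |x 0| ≤ |x 1 * x 2| := by
      rcases h.start with h3 | h3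
      · exact absurd h1 (not_le.mpr h3)
      · rw [h3.1, abs_one, abs_mul]
        exact one_le_mul_of_one_le_of_one_le h1 h2
    exact aux h 0 h1 h2 h3
  | succ k ih =>
    have h3 : |x (k + 1)| ≤ |x (k + 2) * x (k + 3)| := by
      rcases le_total (|x (k + 1)|) 1 with h4 | h4
      · refine h4.trans ?_
        rw [abs_mul]
        exact one_le_mul_of_one_le_of_one_le h1 h2
      · have h5 := (ih h4 h1).1
        rw [abs_mul] at h5 ⊢
        have h6 : |x (k + 1)| * 1 ≤ |x (k + 1)| * |x (k + 2)| :=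
          mul_le_mul_of_nonneg_left h1 (abs_nonneg _)
        have h7 : 1 * |x (k + 3)| ≤ |x (k + 2)| * |x (k + 3)| :=
          mul_le_mul_of_nonneg_right h1 (abs_nonneg _)
        linarith
    exact aux h (k + 1) h1 h2 h3
where
  aux {lam : ℝ} {x o : ℕ → ℝ} (h : St lam x o) (k : ℕ) (h1 : 1 ≤ |x (k + 1)|)
      (h2 : 1 ≤ |x (k + 2)|) (h3 : |x k| ≤ |x (k + 1) * x (k + 2)|) :
      |x (k + 1) * x (k + 2)| ≤ |x (k + 3)| ∧ 0 < x (k + 1) * x (k + 2) * x (k + 3) := by
    have h4 := h.rec3 k
    set p := x (k + 1) * x (k + 2) with hp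
    have h5 : x (k + 3) = 2 * p - x k := by rw [h4, hp]; ring
    have h6 : 1 ≤ |p| := by
      rw [hp, abs_mul]
      exact one_le_mul_of_one_le_of_one_le h1 h2
    have h7 : p * x k ≤ p ^ 2 := by
      have h8 : p * x k ≤ |p| * |x k| := by
        rw [← abs_mul]; exact le_abs_self _
      have h9 : |p| * |x k| ≤ |p| * |p| := mul_le_mul_of_nonneg_left h3 (abs_nonneg _)
      have h10 : |p| * |p| = p ^ 2 := by rw [← sq, sq_abs]
      linarith
    have h8 : 0 < p ^ 2 := by
      rw [← sq_abs]; positivity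
    constructor
    · rw [h5]
      have h9 : |2 * p| ≤ |2 * p - x k| + |x k| := by
        have := abs_add_le (2 * p - x k) (x k)
        simpa using this
      rw [abs_mul, abs_two] at h9
      linarith
    · rw [h5]
      linarith [h7, h8, sq p]

theorem escape_all (h : St lam x o) (k : ℕ) (h1 : 1 ≤ |x (k + 1)|) (h2 : 1 ≤ |x (k + 2)|)
    (j : ℕ) (hj : k + 1 ≤ j) : 1 ≤ |x j| := by
  have key : ∀ m : ℕ, 1 ≤ |x (k + 1 + m)| ∧ 1 ≤ |x (k + 2 + m)| := by
    intro m
    induction m with
    | zero => exact ⟨h1, h2⟩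
    | succ m ih =>
      have h3 : 1 ≤ |x (k + m + 1)| := by
        have := ih.1
        rwa [show k + 1 + m = k + m + 1 by ring] at this
      have h4 : 1 ≤ |x (k + m + 2)| := by
        have := ih.2
        rwa [show k + 2 + m = k + m + 2 by ring] at this
      have h5 := (escape h (k + m) h3 h4).1
      rw [abs_mul] at h5
      have h6 := one_le_mul_of_one_le_of_one_le h3 h4
      refine ⟨?_, ?_⟩
      · rw [show k + 1 + (m + 1) = k + m + 2 by ring]; exact h4
      · rw [show k + 2 + (m + 1) = k + m + 3 by ring]; linarith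
  obtain ⟨m, rfl⟩ := Nat.exists_eq_add_of_le hj
  exact (key m).1

theorem mid_bound (h : St lam x o) (h0 : 0 ≤ lam) (k : ℕ) (h1 : |x k| < 1) (h2 : |x (k + 2)| < 1) :
    |x (k + 1)| ≤ 1 + lam / 2 := by
  have h3 := prod_sq02 h k
  have h4 : |x k * x (k + 2)| ≤ 1 := by
    rw [abs_mul]
    exact mul_le_one₀ h1.le (abs_nonneg _) h2.le
  have h5 : (x (k + 1) - x k * x (k + 2)) ^ 2 ≤ (1 - |x k * x (k + 2)| + lam / 2) ^ 2 := by
    rw [h3]
    have h6 : (1 - |x k * x (k + 2)|) ^ 2 - (1 - x k ^ 2) * (1 - x (k + 2) ^ 2)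
        = (|x k| - |x (k + 2)|) ^ 2 := by
      rw [abs_mul, ← sq_abs (x k), ← sq_abs (x (k + 2))]; ring
    have h7 : 0 ≤ (1 - |x k * x (k + 2)|) * lam := mul_nonneg (by linarith) h0
    nlinarith [sq_nonneg (|x k| - |x (k + 2)|)]
  have h6 : |x (k + 1) - x k * x (k + 2)| ≤ 1 - |x k * x (k + 2)| + lam / 2 :=
    abs_le_of_sq_le_sq h5 (by linarith)
  have h7 : |x (k + 1)| ≤ |x (k + 1) - x k * x (k + 2)| + |x k * x (k + 2)| := by
    have := abs_add_le (x (k + 1) - x k * x (k + 2)) (x k * x (k + 2))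
    simpa using this
  linarith

theorem clip_of_le14 {y : ℝ} (h : |y| ≤ 1) : clip y = y := by
  obtain ⟨h1, h2⟩ := abs_le.mp h
  rw [clip, min_eq_right h2, max_eq_right h1]

theorem clip_of_lt {y : ℝ} (h : |y| < 1) : clip y = y := clip_of_le14 h.le

theorem abs_clip_le (y : ℝ) : |clip y| ≤ 1 := by
  rw [abs_le]
  exact ⟨le_max_left _ _, max_le (by norm_num) (min_le_left _ _)⟩

theorem clip_of_one_le14 {y : ℝ} (h : 1 ≤ y) : clip y = 1 := by
  rw [clip, min_eq_left h, max_eq_right (by norm_num)]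

theorem clip_of_le_neg_one14 {y : ℝ} (h : y ≤ -1) : clip y = -1 := by
  rw [clip, min_eq_right (by linarith), max_eq_left h]

theorem clip_mono14 {a b : ℝ} (h : a ≤ b) : clip a ≤ clip b :=
  max_le_max le_rfl (min_le_min le_rfl h)

theorem clip_lip14 (a b : ℝ) : |clip a - clip b| ≤ |a - b| := by
  unfold clip
  calc |max (-1) (min 1 a) - max (-1) (min 1 b)| ≤ |min 1 a - min 1 b| := by
        have := abs_max_sub_max_le_abs (-1 : ℝ) (-1) 
        exact abs_max_sub_max_le_max _ _ _ _ |>.trans (by simp)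
    _ ≤ |a - b| := abs_min_sub_min_le_max _ _ _ _ |>.trans (by simp)

theorem clip_sq_of_abs14 {y : ℝ} (h : 1 ≤ |y|) : clip y ^ 2 = 1 := by
  rcases le_abs.mp h with h1 | h1
  · rw [clip_of_one_le14 h1]; norm_num
  · rw [clip_of_le_neg_one14 (by linarith)]; norm_num

theorem norm_cpt (y o : ℝ) (ho : o = 1 ∨ o = -1) : ‖cpt y o‖ = 1 := by
  have h1 : clip y ^ 2 ≤ 1 := by
    have := abs_clip_le y
    rw [← sq_abs]
    exact pow_le_one₀ (abs_nonneg _) this
  have h2 : o ^ 2 = 1 := by rcases ho with h | h <;> rw [h] <;> norm_num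
  have h3 : ‖cpt y o‖ ^ 2 = 1 := by
    rw [← Complex.normSq_eq_norm_sq, Complex.normSq_apply]
    simp only [cpt]
    have h4 : Real.sqrt (1 - clip y ^ 2) ^ 2 = 1 - clip y ^ 2 := Real.sq_sqrt (by linarith)
    calc clip y * clip y + o * √(1 - clip y ^ 2) * (o * √(1 - clip y ^ 2))
        = clip y ^ 2 + o ^ 2 * √(1 - clip y ^ 2) ^ 2 := by ring
      _ = 1 := by rw [h4, h2]; ring
  exact (pow_eq_one_iff_of_nonneg (norm_nonneg _) two_ne_zero).mp h3

/-- The estimate in the case of one hyperbolic factor. -/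
theorem he_re14 {lam a b y : ℝ} (h0 : 0 ≤ lam) (h1 : lam ≤ 1 / 100) (ha : 1 ≤ |a|) (hb : |b| < 1)
    (h : (y - b * a) ^ 2 = (1 - b ^ 2) * (1 - a ^ 2) + lam ^ 2 / 4) :
    |clip y - clip a * b| ≤ lam := by
  have hb2 : b ^ 2 < 1 := by
    rw [← sq_abs]
    exact pow_lt_one₀ (abs_nonneg _) hb two_ne_zero
  have ha2 : 1 ≤ a ^ 2 := by
    rw [← sq_abs]
    exact one_le_pow₀ ha
  have h2 : (y - b * a) ^ 2 ≤ (lam / 2) ^ 2 := by
    rw [h]
    have hq := mul_nonneg (sub_nonneg.mpr hb2.le) (sub_nonneg.mpr ha2)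
    linarith only [hq]
  have h3 : |y - b * a| ≤ lam / 2 := abs_le_of_sq_le_sq h2 (by linarith)
  have h4 : (a ^ 2 - 1) * (1 - b ^ 2) ≤ lam ^ 2 / 4 := by
    linarith only [sq_nonneg (y - b * a), h]
  -- either `|a|` is close to one or `|b|` is
  have h5 : |a| - 1 ≤ lam / 8 ∨ 1 - lam < |b| := by
    by_contra hcon
    push Not at hcon
    obtain ⟨h6, h7⟩ := hcon
    have h8 : lam ≤ 1 - b ^ 2 := by
      rw [← sq_abs]
      have hq1 : |b| * |b| ≤ 1 * (1 - lam) :=
        mul_le_mul hb.le h7 (abs_nonneg b) zero_le_one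
      linarith only [hq1]
    have h9 : lam / 4 < a ^ 2 - 1 := by
      rw [← sq_abs]
      have hq1 : 0 < (|a| - 1 - lam / 8) * (|a| + 1) := by
        apply mul_pos
        · linarith only [h6]
        · linarith only [ha]
      have hq2 : 0 ≤ lam / 8 * (|a| - 1) := by
        apply mul_nonneg
        · linarith only [h0]
        · linarith only [ha]
      linarith only [hq1, hq2]
    rcases h0.eq_or_lt with h10 | h10
    · have hq1 : 0 < (a ^ 2 - 1) * (1 - b ^ 2) := by
        apply mul_pos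
        · linarith only [h9, h0]
        · linarith only [hb2]
      rw [← h10] at h4
      linarith only [h4, hq1]
    · have hq1 : lam / 4 * lam < (a ^ 2 - 1) * (1 - b ^ 2) :=
        mul_lt_mul h9 h8 h10 (by linarith only [h9, h0])
      linarith only [h4, hq1]
  obtain ⟨h6, h7⟩ := abs_le.mp h3
  obtain ⟨hb3, hb4⟩ := abs_lt.mp hb
  -- reduce to `a ≥ 1`
  have key : ∀ a y : ℝ, 1 ≤ a → (a - 1 ≤ lam / 8 ∨ 1 - lam < |b|) → -(lam / 2) ≤ y - b * a →
      y - b * a ≤ lam / 2 → |clip y - b| ≤ lam := by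
    intro a y ha h5 h6 h7
    have hcb : clip b = b := clip_of_lt hb
    rcases h5 with h5 | h5
    · have h8 : |y - b| ≤ lam := by
        have hq1 : |b * (a - 1)| ≤ 1 * (lam / 8) := by
          rw [abs_mul]
          apply mul_le_mul hb.le _ (abs_nonneg _) zero_le_one
          rw [abs_of_nonneg (by linarith only [ha])]
          exact h5
        obtain ⟨hq2, hq3⟩ := abs_le.mp hq1
        rw [abs_le]
        constructor
        · linarith only [hq2, h6, h0]
        · linarith only [hq3, h7, h0]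
      calc |clip y - b| = |clip y - clip b| := by rw [hcb]
        _ ≤ |y - b| := clip_lip14 _ _
        _ ≤ lam := h8
    · have hc1 : clip y ≤ 1 := (abs_le.mp (abs_clip_le y)).2
      have hc2 : -1 ≤ clip y := (abs_le.mp (abs_clip_le y)).1
      rcases le_total 0 b with hb0 | hb0
      · rw [abs_of_nonneg hb0] at h5
        rw [abs_le]
        constructor
        · have h8 : b - lam / 2 ≤ y := by
            have hq1 : 0 ≤ b * (a - 1) := mul_nonneg hb0 (by linarith only [ha])
            linarith only [hq1, h6]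
          have h9 : clip (b - lam / 2) ≤ clip y := clip_mono14 h8
          rw [clip_of_le14 (y := b - lam / 2) (by rw [abs_le]; constructor <;> linarith)] at h9
          linarith
        · linarith
      · rw [abs_of_nonpos hb0] at h5
        rw [abs_le]
        constructor
        · linarith
        · have h8 : y ≤ b + lam / 2 := by
            have hq1 : b * (a - 1) ≤ 0 :=
              mul_nonpos_of_nonpos_of_nonneg hb0 (by linarith only [ha])
            linarith only [hq1, h7]
          have h9 : clip y ≤ clip (b + lam / 2) := clip_mono14 h8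
          rw [clip_of_le14 (y := b + lam / 2) (by rw [abs_le]; constructor <;> linarith)] at h9
          linarith
  rcases le_abs.mp ha with ha1 | ha1
  · rw [clip_of_one_le14 ha1, one_mul]
    rw [abs_of_nonneg (by linarith)] at h5
    exact key a y ha1 h5 h6 h7
  · rw [clip_of_le_neg_one14 (y := a) (by linarith)]
    rw [abs_of_nonpos (by linarith)] at h5
    have h8 := key (-a) (-y) ha1 h5 (by linarith) (by linarith)
    have h9 : clip (-y) = - clip y := by
      unfold clip
      rcases le_total 1 y with hy | hy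
      · rw [min_eq_left hy, min_eq_right (by linarith), max_eq_left (by linarith),
          max_eq_right (by norm_num)]
      · rcases le_total (-1) y with hy2 | hy2
        · rw [min_eq_right hy, min_eq_right (by linarith), max_eq_right hy2,
            max_eq_right (by linarith)]
        · rw [min_eq_right hy, min_eq_left (by linarith), max_eq_left hy2,
            max_eq_right (by norm_num)]
          norm_num
    rw [h9] at h8
    have h10 : clip y - -1 * b = -(-clip y - b) := by ring
    rw [h10, abs_neg]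
    exact h8

theorem norm_le14 {lam : ℝ} (z : ℂ) (h0 : 0 ≤ lam) (h : z.re ^ 2 + z.im ^ 2 ≤ 16 * lam) :
    ‖z‖ ≤ 4 * Real.sqrt lam := by
  have h1 : ‖z‖ ^ 2 ≤ (4 * Real.sqrt lam) ^ 2 := by
    rw [← Complex.normSq_eq_norm_sq, Complex.normSq_apply, mul_pow, Real.sq_sqrt h0]
    linarith only [h]
  exact le_of_sq_le_sq14 h1 (by positivity)
where
  le_of_sq_le_sq14 {a b : ℝ} (h : a ^ 2 ≤ b ^ 2) (hb : 0 ≤ b) : a ≤ b :=
    (le_abs_self a).trans (abs_le_of_sq_le_sq h hb)

theorem sq_sub_le14 {v w : ℝ} (h : 0 ≤ v * w) : (v - w) ^ 2 ≤ |v ^ 2 - w ^ 2| := by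
  have h1 : |v ^ 2 - w ^ 2| = |v - w| * |v + w| := by
    rw [← abs_mul]; congr 1; ring
  have h2 : |v - w| ≤ |v + w| := by
    apply sq_le_sq.mp
    linarith only [h]
  rw [h1, ← sq_abs, sq]
  exact mul_le_mul_of_nonneg_left h2 (abs_nonneg _)

/-- The case of one hyperbolic factor. -/
theorem he_step14 {lam a b y ob oy : ℝ} (h0 : 0 ≤ lam) (h1 : lam ≤ 1 / 100) (ha : 1 ≤ |a|)
    (hb : |b| < 1) (h : (y - b * a) ^ 2 = (1 - b ^ 2) * (1 - a ^ 2) + lam ^ 2 / 4)
    (hob : ob = 1 ∨ ob = -1) (hoy : oy = 1 ∨ oy = -1)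
    (hr : |y| < 1 → 0 < (a - b * y) * (ob * oy)) :
    (clip y - clip a * clip b) ^ 2 +
      (oy * Real.sqrt (1 - clip y ^ 2) - clip a * (ob * Real.sqrt (1 - clip b ^ 2))) ^ 2
      ≤ 3 * lam := by
  have hre := he_re14 h0 h1 ha hb h
  rw [clip_of_lt hb]
  have ha2 : clip a ^ 2 = 1 := clip_sq_of_abs14 ha
  have hy1 := abs_clip_le y
  have hob2 : ob ^ 2 = 1 := by rcases hob with h | h <;> rw [h] <;> norm_num
  have hoy2 : oy ^ 2 = 1 := by rcases hoy with h | h <;> rw [h] <;> norm_num
  have hb2 : b ^ 2 < 1 := by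
    rw [← sq_abs]
    exact pow_lt_one₀ (abs_nonneg _) hb two_ne_zero
  have hy2 : clip y ^ 2 ≤ 1 := by
    rw [← sq_abs]
    exact pow_le_one₀ (abs_nonneg _) hy1
  set sy := Real.sqrt (1 - clip y ^ 2) with hsy
  set sb := Real.sqrt (1 - b ^ 2) with hsb
  have hsy2 : sy ^ 2 = 1 - clip y ^ 2 := Real.sq_sqrt (by linarith)
  have hsb2 : sb ^ 2 = 1 - b ^ 2 := Real.sq_sqrt (by linarith)
  have hsy0 : 0 ≤ sy := Real.sqrt_nonneg _
  have hsb0 : 0 ≤ sb := Real.sqrt_nonneg _
  -- sign
  have hsign : 0 ≤ (oy * sy) * (clip a * (ob * sb)) := by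
    rcases lt_or_ge (|y|) 1 with hy | hy
    · have h2 := hr hy
      have h3 : |b * y| < 1 := by
        rw [abs_mul]
        calc |b| * |y| ≤ |b| * 1 := mul_le_mul_of_nonneg_left hy.le (abs_nonneg _)
          _ < 1 := by linarith
      obtain ⟨h4, h5⟩ := abs_lt.mp h3
      have h6 : 0 < clip a * (ob * oy) := by
        rcases le_abs.mp ha with ha1 | ha1
        · rw [clip_of_one_le14 ha1, one_mul]
          have h7 : 0 < a - b * y := by linarith
          exact (pos_iff_pos_of_mul_pos h2).mp h7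
        · rw [clip_of_le_neg_one14 (by linarith)]
          have h7 : a - b * y < 0 := by linarith
          have h8 : ob * oy < 0 := by
            by_contra hcon
            push Not at hcon
            have := mul_nonpos_of_nonpos_of_nonneg h7.le hcon
            linarith
          linarith
      have h7 : (oy * sy) * (clip a * (ob * sb)) = (clip a * (ob * oy)) * (sy * sb) := by ring
      rw [h7]
      positivity
    · have h2 : sy = 0 := by
        rw [hsy, clip_sq_of_abs14 hy]; simp
      rw [h2]; simp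
  have h3 := sq_sub_le14 hsign
  have h4 : (oy * sy) ^ 2 - (clip a * (ob * sb)) ^ 2 = b ^ 2 - clip y ^ 2 := by
    rw [mul_pow, mul_pow, mul_pow, hoy2, ha2, hob2, hsy2, hsb2]; ring
  rw [h4] at h3
  have h5 : b ^ 2 = (clip a * b) ^ 2 := by rw [mul_pow, ha2]; ring
  have h6 : |b ^ 2 - clip y ^ 2| ≤ 2 * lam := by
    rw [h5]
    have h7 : (clip a * b) ^ 2 - clip y ^ 2 = -(clip y - clip a * b) * (clip y + clip a * b) := by
      ring
    rw [h7, abs_mul, abs_neg]
    have h8 : |clip y + clip a * b| ≤ 2 := by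
      have h9 := abs_add_le (clip y) (clip a * b)
      have h10 : |clip a * b| ≤ 1 := by
        rw [abs_mul]
        exact mul_le_one₀ (abs_clip_le a) (abs_nonneg _) hb.le
      linarith
    calc |clip y - clip a * b| * |clip y + clip a * b| ≤ lam * 2 :=
          mul_le_mul hre h8 (abs_nonneg _) h0
      _ = 2 * lam := by ring
  have h7 : (clip y - clip a * b) ^ 2 ≤ lam := by
    rw [← sq_abs]
    have hq1 : |clip y - clip a * b| * |clip y - clip a * b| ≤ 1 * lam :=
      mul_le_mul (hre.trans (h1.trans (by norm_num))) hre (abs_nonneg _) zero_le_one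
    linarith only [hq1]
  linarith only [h3, h6, h7]

/-- The elliptic case. -/
theorem ee_step14 {lam a b y oa ob oy : ℝ} (h0 : 0 ≤ lam) (h1 : lam ≤ 1 / 100) (ha : |a| < 1)
    (hb : |b| < 1) (h : (y - b * a) ^ 2 = (1 - b ^ 2) * (1 - a ^ 2) + lam ^ 2 / 4)
    (hoa : oa = 1 ∨ oa = -1) (hob : ob = 1 ∨ ob = -1) (hoy : oy = 1 ∨ oy = -1)
    (hr1 : (y - b * a) * (oa * ob) < 0)
    (hr2 : |y| < 1 → 0 < (b - a * y) * (oa * oy))
    (hr3 : |y| < 1 → 0 < (a - b * y) * (ob * oy)) :
    (clip y - (b * a - (ob * Real.sqrt (1 - b ^ 2)) * (oa * Real.sqrt (1 - a ^ 2)))) ^ 2 +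
      (oy * Real.sqrt (1 - clip y ^ 2) -
        (b * (oa * Real.sqrt (1 - a ^ 2)) + (ob * Real.sqrt (1 - b ^ 2)) * a)) ^ 2
      ≤ 7 * lam := by
  have hoa2 : oa ^ 2 = 1 := by rcases hoa with h | h <;> rw [h] <;> norm_num
  have hob2 : ob ^ 2 = 1 := by rcases hob with h | h <;> rw [h] <;> norm_num
  have hoy2 : oy ^ 2 = 1 := by rcases hoy with h | h <;> rw [h] <;> norm_num
  have hb2 : b ^ 2 < 1 := by
    rw [← sq_abs]
    exact pow_lt_one₀ (abs_nonneg _) hb two_ne_zero
  have ha2 : a ^ 2 < 1 := by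
    rw [← sq_abs]
    exact pow_lt_one₀ (abs_nonneg _) ha two_ne_zero
  have hy2 : clip y ^ 2 ≤ 1 := by
    rw [← sq_abs]
    exact pow_le_one₀ (abs_nonneg _) (abs_clip_le y)
  set sa := Real.sqrt (1 - a ^ 2) with hsa
  set sb := Real.sqrt (1 - b ^ 2) with hsb
  have hsa2 : sa ^ 2 = 1 - a ^ 2 := Real.sq_sqrt (by linarith)
  have hsb2 : sb ^ 2 = 1 - b ^ 2 := Real.sq_sqrt (by linarith)
  have hsa0 : 0 < sa := Real.sqrt_pos.mpr (by linarith)
  have hsb0 : 0 < sb := Real.sqrt_pos.mpr (by linarith)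
  set va := oa * sa with hva
  set vb := ob * sb with hvb
  have hva2 : va ^ 2 = 1 - a ^ 2 := by rw [hva, mul_pow, hoa2, hsa2]; ring
  have hvb2 : vb ^ 2 = 1 - b ^ 2 := by rw [hvb, mul_pow, hob2, hsb2]; ring
  set C := b * a - vb * va with hC
  set w := b * va + vb * a with hw
  have hCw : C ^ 2 + w ^ 2 = 1 := by
    have : C ^ 2 + w ^ 2 = (b ^ 2 + vb ^ 2) * (a ^ 2 + va ^ 2) := by rw [hC, hw]; ring
    rw [this, hva2, hvb2]; ring
  -- real part
  have hD : |y - C| ≤ lam / 2 := by
    have h2 : y - C = (y - b * a) + vb * va := by rw [hC]; ring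
    -- with `t = oa * ob`, `(y - b a) t = - sqrt (...)`, `vb va = t sa sb`
    set t := oa * ob with ht
    have ht2 : t ^ 2 = 1 := by rw [ht, mul_pow, hoa2, hob2]; ring
    have h3 : vb * va = t * (sa * sb) := by rw [hva, hvb, ht]; ring
    set D := -((y - b * a) * t) with hDD
    have hDpos : 0 < D := by rw [hDD]; linarith
    have hD2 : D ^ 2 = (sa * sb) ^ 2 + lam ^ 2 / 4 := by
      have : D ^ 2 = (y - b * a) ^ 2 * t ^ 2 := by rw [hDD]; ring
      rw [this, ht2, h, mul_pow, hsa2, hsb2]; ring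
    have hP : 0 < sa * sb := mul_pos hsa0 hsb0
    have hD3 : sa * sb ≤ D := by
      apply norm_le14.le_of_sq_le_sq14 _ hDpos.le
      linarith only [sq_nonneg lam, hD2]
    have hD4 : D ≤ sa * sb + lam / 2 := by
      apply norm_le14.le_of_sq_le_sq14 _ (by linarith only [hP, h0])
      have hq1 : 0 ≤ sa * sb * lam := mul_nonneg hP.le h0
      linarith only [hq1, hD2]
    have h4 : (y - C) = -t * (D - sa * sb) := by
      rw [h2, h3, hDD]
      have : (y - b * a) = (y - b * a) * t ^ 2 := by rw [ht2]; ring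
      linear_combination this
    rw [h4, abs_mul, abs_neg]
    have h5 : |t| = 1 := by
      rw [← Real.sqrt_sq_eq_abs, ht2, Real.sqrt_one]
    rw [h5, one_mul, abs_of_nonneg (by linarith)]
    linarith
  have hC1 : |C| ≤ 1 := by
    apply abs_le_of_sq_le_sq _ (by norm_num)
    linarith only [sq_nonneg w, hCw]
  set u := clip y with hu
  have hE : |u - C| ≤ lam / 2 := by
    calc |u - C| = |clip y - clip C| := by rw [clip_of_le14 hC1]
      _ ≤ |y - C| := clip_lip14 _ _
      _ ≤ lam / 2 := hD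
  have hu1 : |u| ≤ 1 := abs_clip_le y
  set v := oy * Real.sqrt (1 - u ^ 2) with hv
  have hv2 : v ^ 2 = 1 - u ^ 2 := by
    rw [hv, mul_pow, hoy2, Real.sq_sqrt (by linarith)]; ring
  have hvw : |v ^ 2 - w ^ 2| ≤ lam := by
    have h2 : v ^ 2 - w ^ 2 = -(u - C) * (u + C) := by
      rw [hv2]
      linear_combination (-1 : ℝ) * hCw
    rw [h2, abs_mul, abs_neg]
    have h3 : |u + C| ≤ 2 := (abs_add_le u C).trans (by linarith)
    calc |u - C| * |u + C| ≤ (lam / 2) * 2 := mul_le_mul hE h3 (abs_nonneg _) (by linarith)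
      _ = lam := by ring
  have hre : (u - C) ^ 2 ≤ lam := by
    rw [← sq_abs]
    have hq1 : |u - C| * |u - C| ≤ 1 * (lam / 2) :=
      mul_le_mul (hE.trans (by linarith only [h1])) hE (abs_nonneg _) zero_le_one
    linarith only [hq1, h0]
  rcases le_or_gt 0 (v * w) with hs | hs
  · have h3 := sq_sub_le14 hs
    linarith
  · -- opposite signs
    have hv0 : v ≠ 0 := by
      intro h2; rw [h2] at hs; simp at hs
    have hylt : |y| < 1 := by
      by_contra hcon
      push Not at hcon
      apply hv0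
      rw [hv, hu, clip_sq_of_abs14 hcon]; simp
    have huy : u = y := clip_of_lt hylt
    have hsv : 0 < Real.sqrt (1 - u ^ 2) := by
      rcases (Real.sqrt_nonneg (1 - u ^ 2)).eq_or_lt with h2 | h2
      · exfalso; apply hv0; rw [hv, ← h2]; simp
      · exact h2
    have h2 := hr2 hylt
    have h3 := hr3 hylt
    rw [← huy] at h2 h3
    obtain ⟨e, he⟩ : ∃ e, e = u - C := ⟨_, rfl⟩
    have heb : |e| ≤ lam / 2 := by rw [he]; exact hE
    have huC : u = C + e := by rw [he]; ring
    have h4 : b - a * u = va * w - a * e := by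
      rw [huC, hC, hw]
      linear_combination (-b) * hva2
    have h5 : a - b * u = vb * w - b * e := by
      rw [huC, hC, hw]
      linear_combination (-a) * hvb2
    -- multiply by positive numbers
    have h6 : 0 < (va * w - a * e) * (va * v) := by
      have : (va * w - a * e) * (va * v) =
          ((b - a * u) * (oa * oy)) * (sa * Real.sqrt (1 - u ^ 2)) := by
        rw [h4, hva, hv]; ring
      rw [this]
      positivity
    have h7 : 0 < (vb * w - b * e) * (vb * v) := by
      have : (vb * w - b * e) * (vb * v) =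
          ((a - b * u) * (ob * oy)) * (sb * Real.sqrt (1 - u ^ 2)) := by
        rw [h5, hvb, hv]; ring
      rw [this]
      positivity
    have haux : ∀ c z : ℝ, |c| < 1 → z ≠ 0 → 0 < (z * w - c * e) * (z * v) →
        |z| * |w| ≤ lam / 2 := by
      intro c z hc hz hpos
      have h8 : z ^ 2 * (-(v * w)) < -(c * e) * (z * v) := by
        have hq1 : (z * w - c * e) * (z * v) = z ^ 2 * (v * w) + -(c * e) * (z * v) := by ring
        rw [hq1] at hpos
        linarith only [hpos]
      have h9 : |v * w| = -(v * w) := abs_of_neg hs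
      have h10 : -(c * e) * (z * v) ≤ |e| * |z| * |v| := by
        calc -(c * e) * (z * v) ≤ |-(c * e) * (z * v)| := le_abs_self _
          _ = |c| * (|e| * |z| * |v|) := by
              rw [abs_mul, abs_neg, abs_mul, abs_mul]; ring
          _ ≤ 1 * (|e| * |z| * |v|) :=
              mul_le_mul_of_nonneg_right hc.le (by positivity)
          _ = |e| * |z| * |v| := one_mul _
      rw [← h9, abs_mul, ← sq_abs] at h8
      have hzp : 0 < |z| := abs_pos.mpr hz
      have hvp : 0 < |v| := abs_pos.mpr hv0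
      have h11 : (|z| * |v|) * (|z| * |w|) ≤ (|z| * |v|) * |e| := by
        linarith only [h8, h10]
      have h12 := le_of_mul_le_mul_left h11 (mul_pos hzp hvp)
      linarith
    have hva0 : va ≠ 0 := by
      rw [hva]
      exact mul_ne_zero (by rcases hoa with h | h <;> rw [h] <;> norm_num) hsa0.ne'
    have hvb0 : vb ≠ 0 := by
      rw [hvb]
      exact mul_ne_zero (by rcases hob with h | h <;> rw [h] <;> norm_num) hsb0.ne'
    have h8 := haux a va ha hva0 h6
    have h9 := haux b vb hb hvb0 h7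
    have h10 : |w| ≤ |va| + |vb| := by
      calc |w| ≤ |b * va| + |vb * a| := abs_add_le _ _
        _ = |b| * |va| + |vb| * |a| := by rw [abs_mul b va, abs_mul vb a]
        _ ≤ 1 * |va| + |vb| * 1 := add_le_add
            (mul_le_mul_of_nonneg_right hb.le (abs_nonneg _))
            (mul_le_mul_of_nonneg_left ha.le (abs_nonneg _))
        _ = |va| + |vb| := by ring
    have h11 : w ^ 2 ≤ lam := by
      rw [← sq_abs, sq]
      calc |w| * |w| ≤ (|va| + |vb|) * |w| := mul_le_mul_of_nonneg_right h10 (abs_nonneg _)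
        _ ≤ lam := by linarith
    have h12 : v ^ 2 ≤ 2 * lam := by
      have := (abs_le.mp hvw).2
      linarith
    linarith only [sq_nonneg (v + w), h11, h12, hre, h0]

theorem step (h : St lam x o) (h0 : 0 ≤ lam) (h1 : lam ≤ 1 / 100) (k : ℕ) :
    ‖cc x o (k + 2) - cc x o (k + 1) * cc x o k‖ ≤ 4 * Real.sqrt lam := by
  apply norm_le14 _ h0
  simp only [cc, cpt, Complex.sub_re, Complex.mul_re, Complex.sub_im, Complex.mul_im]
  have hp := prod_sq01 h k
  rcases lt_or_ge (|x k|) 1 with ha | ha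
  · rcases lt_or_ge (|x (k + 1)|) 1 with hb | hb
    · have h2 := ee_step14 h0 h1 ha hb hp (h.ori k) (h.ori (k + 1)) (h.ori (k + 2))
        (h.rel1 k ha hb) (fun hy => h.rel2 k ha hy) (fun hy => rel3 h k hb hy)
      rw [clip_of_lt ha, clip_of_lt hb]
      linarith
    · have h2 := he_step14 (y := x (k + 2)) h0 h1 hb ha (by rw [mul_comm (x k)]; rw [hp]; ring)
        (h.ori k) (h.ori (k + 2)) (fun hy => h.rel2 k ha hy)
      have h3 : clip (x (k + 1)) ^ 2 = 1 := clip_sq_of_abs14 hb
      rw [h3]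
      simp only [sub_self, Real.sqrt_zero, mul_zero, zero_mul, sub_zero, add_zero]
      linarith
  · have ha3 : clip (x k) ^ 2 = 1 := clip_sq_of_abs14 ha
    rcases lt_or_ge (|x (k + 1)|) 1 with hb | hb
    · have h2 := he_step14 (y := x (k + 2)) h0 h1 ha hb hp (h.ori (k + 1)) (h.ori (k + 2))
        (fun hy => rel3 h k hb hy)
      rw [ha3]
      simp only [sub_self, Real.sqrt_zero, mul_zero, zero_mul, sub_zero, zero_add]
      rw [mul_comm (clip (x (k + 1))) (clip (x k)),
        mul_comm (o (k + 1) * √(1 - clip (x (k + 1)) ^ 2)) (clip (x k))]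
      linarith
    · have hb3 : clip (x (k + 1)) ^ 2 = 1 := clip_sq_of_abs14 hb
      rw [ha3, hb3]
      simp only [sub_self, Real.sqrt_zero, mul_zero, zero_mul, sub_zero, add_zero]
      cases k with
      | zero =>
        rcases h.start with h3 | ⟨h3, h4⟩
        · exact absurd hb (not_le.mpr h3)
        · have h5 : clip (x 0) = 1 := by rw [h3]; exact clip_of_one_le14 le_rfl
          have h6 : |clip (x 2) - clip (x 1)| ≤ lam := (clip_lip14 _ _).trans h4
          have ho2 : o 2 ^ 2 = 1 := by rcases h.ori 2 with h | h <;> rw [h] <;> norm_num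
          have hb4 : clip (x 1) ^ 2 = 1 := hb3
          have hy1 := abs_clip_le (x 2)
          have hy2 : clip (x 2) ^ 2 ≤ 1 := by
            rw [← sq_abs]
            exact pow_le_one₀ (abs_nonneg _) hy1
          have h7 : (o (0 + 2) * √(1 - clip (x (0 + 2)) ^ 2)) ^ 2 = 1 - clip (x 2) ^ 2 := by
            rw [mul_pow]
            change o 2 ^ 2 * √(1 - clip (x 2) ^ 2) ^ 2 = _
            rw [ho2, Real.sq_sqrt (by linarith), one_mul]
          rw [h7, h5, mul_one]
          change (clip (x 2) - clip (x 1)) ^ 2 + (1 - clip (x 2) ^ 2) ≤ 16 * lam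
          have h8 : (clip (x 2) - clip (x 1)) ^ 2 ≤ lam := by
            rw [← sq_abs]
            have hq1 : |clip (x 2) - clip (x 1)| * |clip (x 2) - clip (x 1)| ≤ 1 * lam :=
              mul_le_mul (h6.trans (h1.trans (by norm_num))) h6 (abs_nonneg _) zero_le_one
            linarith only [hq1]
          have h9 : 1 - clip (x 2) ^ 2 ≤ 2 * lam := by
            have h10 : 1 - clip (x 2) ^ 2 = -(clip (x 2) - clip (x 1)) * (clip (x 2) + clip (x 1)) := by
              linear_combination (-1 : ℝ) * hb4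
            rw [h10]
            calc -(clip (x 2) - clip (x 1)) * (clip (x 2) + clip (x 1))
                ≤ |-(clip (x 2) - clip (x 1)) * (clip (x 2) + clip (x 1))| := le_abs_self _
              _ = |clip (x 2) - clip (x 1)| * |clip (x 2) + clip (x 1)| := by
                  rw [abs_mul, abs_neg]
              _ ≤ lam * 2 := by
                  refine mul_le_mul h6 ?_ (abs_nonneg _) h0
                  exact (abs_add_le _ _).trans (by linarith [abs_clip_le (x 1)])
              _ = 2 * lam := by ring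
          linarith
      | succ j =>
        obtain ⟨h3, h4⟩ := escape h j ha hb
        have h5 : 1 ≤ |x (j + 3)| := by
          have := one_le_mul_of_one_le_of_one_le ha hb
          rw [← abs_mul] at this
          exact this.trans h3
        have h6 : clip (x (j + 3)) ^ 2 = 1 := clip_sq_of_abs14 h5
        have h7 : clip (x (j + 3)) = clip (x (j + 2)) * clip (x (j + 1)) := by
          rcases le_abs.mp ha with ha1 | ha1 <;> rcases le_abs.mp hb with hb1 | hb1
          · have hb1' : 1 ≤ x (j + 2) := hb1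
            have h8 : 0 < x (j + 1) * x (j + 2) := by positivity
            have h9 : 0 < x (j + 3) := (pos_iff_pos_of_mul_pos h4).mp h8
            rw [abs_of_pos h9] at h5
            rw [clip_of_one_le14 h5, clip_of_one_le14 ha1, clip_of_one_le14 hb1']; norm_num
          · have hb1' : 1 ≤ - x (j + 2) := hb1
            have h8 : x (j + 1) * x (j + 2) < 0 := by nlinarith
            have h9 : x (j + 3) < 0 := by
              by_contra hcon
              push Not at hcon
              have := mul_nonpos_of_nonpos_of_nonneg h8.le hcon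
              linarith
            rw [abs_of_neg h9] at h5
            rw [clip_of_le_neg_one14 (by linarith), clip_of_one_le14 ha1,
              clip_of_le_neg_one14 (by linarith)]; norm_num
          · have hb1' : 1 ≤ x (j + 2) := hb1
            have h8 : x (j + 1) * x (j + 2) < 0 := by nlinarith
            have h9 : x (j + 3) < 0 := by
              by_contra hcon
              push Not at hcon
              have := mul_nonpos_of_nonpos_of_nonneg h8.le hcon
              linarith
            rw [abs_of_neg h9] at h5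
            rw [clip_of_le_neg_one14 (by linarith), clip_of_one_le14 hb1',
              clip_of_le_neg_one14 (by linarith : x (j + 1) ≤ -1)]; norm_num
          · have hb1' : 1 ≤ - x (j + 2) := hb1
            have h8 : 0 < x (j + 1) * x (j + 2) := by nlinarith
            have h9 : 0 < x (j + 3) := (pos_iff_pos_of_mul_pos h4).mp h8
            rw [abs_of_pos h9] at h5
            rw [clip_of_one_le14 h5, clip_of_le_neg_one14 (by linarith : x (j + 1) ≤ -1),
              clip_of_le_neg_one14 (by linarith)]; norm_num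
        change (clip (x (j + 3)) - clip (x (j + 2)) * clip (x (j + 1))) ^ 2 +
          (o (j + 3) * √(1 - clip (x (j + 3)) ^ 2)) ^ 2 ≤ 16 * lam
        rw [h6, h7]
        simp only [sub_self, Real.sqrt_zero, mul_zero]
        norm_num
        exact h0

end SF
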