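import Pool.Agent.Helper65.SF.F2

/-!
# SF-F3: lifted angles of state sequences, uniqueness

Proof in words.
* `eta_le`: `eta = arg u`, `|u| = 1`, `|u - 1| = |c (k+2) - c (k+1) c k| <= 4 sqrt lam <= 0.4`, and
  `|arg u| <= (pi/2) |u - 1|` for a unit complex number (`|u - 1| = 2 |sin (arg u / 2)|`).
* `exp_lift`: induction, `u = exp (i arg u)` for `|u| = 1`.
* `cc_unique`: two orientations of the same x with the same circle points at 0, 1 have the same circle
  points.  Induction: at index k+2 only `|x (k+2)| < 1` matters.  If `|x k| < 1` use rel2 for both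
  (and `o k = o' k`, from `cc` equal and `|x k| < 1`), if `|x (k+1)| < 1` use rel3, if both are `>= 1`:
  for k >= 1 escape gives `|x (k+2)| >= 1`; for k = 0, `|x 1| >= 1`, start gives `x 0 = 1` and then
  `|x 0| >= 1` .. the conclusion at index 2 is part of the hypotheses here (`e2`).
* `lift_unique`: the difference D is in `2 pi Z` and `|D (k+2) - D (k+1) - D k| <= 2 eps < 2 pi`.
* `St_tail`: shift of indices; `start` from `|x (m+1)| < 1`.
-/

namespace SF

open Complex

variable {lam : ℝ} {x o : ℕ → ℝ}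

lemma norm_cc67 (h : St lam x o) (k : ℕ) : ‖cc x o k‖ = 1 := norm_cpt _ _ (h.ori k)

lemma norm_u67 (h : St lam x o) (k : ℕ) :
    ‖cc x o (k + 2) * (starRingEnd ℂ) (cc x o (k + 1) * cc x o k)‖ = 1 := by
  rw [norm_mul, RCLike.norm_conj, norm_mul, norm_cc67 h, norm_cc67 h, norm_cc67 h]
  norm_num

lemma mul_conj_self67 {z : ℂ} (hz : ‖z‖ = 1) : z * (starRingEnd ℂ) z = 1 := by
  rw [Complex.mul_conj, Complex.normSq_eq_norm_sq, hz]
  norm_num

theorem eta_le (h : St lam x o) (h0 : 0 ≤ lam) (h1 : lam ≤ 1 / 100) (k : ℕ) :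
    |eta x o k| ≤ 7 * Real.sqrt lam := by
  have hu := norm_u67 h k
  set u := cc x o (k + 2) * (starRingEnd ℂ) (cc x o (k + 1) * cc x o k) with hudef
  have hw : ‖cc x o (k + 1) * cc x o k‖ = 1 := by
    rw [norm_mul, norm_cc67 h, norm_cc67 h]; norm_num
  have hu0 : u ≠ 0 := by
    intro h0
    rw [h0] at hu
    norm_num at hu
  have h2 : u - 1 = (cc x o (k + 2) - cc x o (k + 1) * cc x o k) *
      (starRingEnd ℂ) (cc x o (k + 1) * cc x o k) := by
    rw [sub_mul, mul_conj_self67 hw]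
  have h3 : ‖u - 1‖ ≤ 4 * Real.sqrt lam := by
    rw [h2, norm_mul, RCLike.norm_conj, hw, mul_one]
    exact step h h0 h1 k
  have h4 := (Complex.norm_sub_mem_Icc_angle hu (norm_one : ‖(1 : ℂ)‖ = 1)).1
  have h4' : InnerProductGeometry.angle u 1 = |u.arg| := Complex.angle_one_right hu0
  rw [h4'] at h4
  have hpi := Real.pi_pos
  have hpi2 : Real.pi < 3.15 := Real.pi_lt_d2
  have h5 : |u.arg| ≤ Real.pi / 2 * ‖u - 1‖ := by
    have : |u.arg| = Real.pi / 2 * (2 / Real.pi * |u.arg|) := by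
      field_simp
    rw [this]
    exact mul_le_mul_of_nonneg_left h4 (by positivity)
  have h6 := Real.sqrt_nonneg lam
  show |u.arg| ≤ 7 * Real.sqrt lam
  calc |u.arg| ≤ Real.pi / 2 * ‖u - 1‖ := h5
    _ ≤ Real.pi / 2 * (4 * Real.sqrt lam) := mul_le_mul_of_nonneg_left h3 (by positivity)
    _ ≤ 7 * Real.sqrt lam := by nlinarith

lemma exp_arg67 {z : ℂ} (hz : ‖z‖ = 1) : Complex.exp ((z.arg : ℂ) * I) = z := by
  have := Complex.norm_mul_exp_arg_mul_I z
  rwa [hz, Complex.ofReal_one, one_mul] at this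

theorem exp_lift (h : St lam x o) (a0 a1 : ℝ)
    (e0 : Complex.exp ((a0 : ℂ) * I) = cc x o 0) (e1 : Complex.exp ((a1 : ℂ) * I) = cc x o 1)
    (k : ℕ) : Complex.exp ((lift x o a0 a1 k : ℂ) * I) = cc x o k := by
  have key : ∀ k, Complex.exp ((lift x o a0 a1 k : ℂ) * I) = cc x o k ∧
      Complex.exp ((lift x o a0 a1 (k + 1) : ℂ) * I) = cc x o (k + 1) := by
    intro k
    induction k with
    | zero => exact ⟨e0, e1⟩
    | succ k ih =>
      refine ⟨ih.2, ?_⟩
      have hl : lift x o a0 a1 (k + 1 + 1) =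
          lift x o a0 a1 (k + 1) + lift x o a0 a1 k + eta x o k := rfl
      rw [hl]
      push_cast
      rw [add_mul, add_mul, Complex.exp_add, Complex.exp_add, ih.1, ih.2]
      have hw : ‖cc x o (k + 1) * cc x o k‖ = 1 := by
        rw [norm_mul, norm_cc67 h, norm_cc67 h]; norm_num
      have h3 : Complex.exp ((eta x o k : ℂ) * I) =
          cc x o (k + 2) * (starRingEnd ℂ) (cc x o (k + 1) * cc x o k) :=
        exp_arg67 (norm_u67 h k)
      rw [h3]
      calc cc x o (k + 1) * cc x o k *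
            (cc x o (k + 2) * (starRingEnd ℂ) (cc x o (k + 1) * cc x o k))
          = cc x o (k + 2) * ((cc x o (k + 1) * cc x o k) *
            (starRingEnd ℂ) (cc x o (k + 1) * cc x o k)) := by ring
        _ = cc x o (k + 1 + 1) := by rw [mul_conj_self67 hw, mul_one]
  exact (key k).1

theorem cos_lift (h : St lam x o) (a0 a1 : ℝ)
    (e0 : Complex.exp ((a0 : ℂ) * I) = cc x o 0) (e1 : Complex.exp ((a1 : ℂ) * I) = cc x o 1)
    (k : ℕ) : Real.cos (lift x o a0 a1 k) = clip (x k) := by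
  have h2 := congrArg Complex.re (exp_lift h a0 a1 e0 e1 k)
  rw [Complex.exp_ofReal_mul_I_re] at h2
  exact h2

theorem sin_lift (h : St lam x o) (a0 a1 : ℝ)
    (e0 : Complex.exp ((a0 : ℂ) * I) = cc x o 0) (e1 : Complex.exp ((a1 : ℂ) * I) = cc x o 1)
    (k : ℕ) : Real.sin (lift x o a0 a1 k) = o k * Real.sqrt (1 - clip (x k) ^ 2) := by
  have h2 := congrArg Complex.im (exp_lift h a0 a1 e0 e1 k)
  rw [Complex.exp_ofReal_mul_I_im] at h2
  exact h2

lemma sqrt_clip_pos67 {y : ℝ} (hy : |y| < 1) : 0 < Real.sqrt (1 - clip y ^ 2) := by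
  rw [clip_of_lt hy]
  apply Real.sqrt_pos.2
  have := (sq_lt_one_iff_abs_lt_one y).2 hy
  linarith

lemma sqrt_clip_zero67 {y : ℝ} (hy : 1 ≤ |y|) : Real.sqrt (1 - clip y ^ 2) = 0 := by
  have hc : clip y = 1 ∨ clip y = -1 := by
    unfold clip
    rcases le_abs.1 hy with h | h
    · left
      rw [min_eq_left h, max_eq_right (by norm_num)]
    · right
      rw [min_eq_right (by linarith), max_eq_left (by linarith)]
  rcases hc with h | h <;> rw [h] <;> norm_num

lemma o_ne67 (h : St lam x o) (k : ℕ) : o k ≠ 0 := by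
  rcases h.ori k with e | e <;> rw [e] <;> norm_num

theorem sin_lift_ne (h : St lam x o) (a0 a1 : ℝ)
    (e0 : Complex.exp ((a0 : ℂ) * I) = cc x o 0) (e1 : Complex.exp ((a1 : ℂ) * I) = cc x o 1)
    (k : ℕ) : Real.sin (lift x o a0 a1 k) ≠ 0 ↔ |x k| < 1 := by
  rw [sin_lift h a0 a1 e0 e1 k]
  constructor
  · intro hne
    by_contra hcon
    apply hne
    rw [sqrt_clip_zero67 (not_lt.1 hcon), mul_zero]
  · intro hlt
    exact mul_ne_zero (o_ne67 h k) (sqrt_clip_pos67 hlt).ne'

lemma cc_eq_of_ge67 (x o o' : ℕ → ℝ) (k : ℕ) (hk : 1 ≤ |x k|) : cc x o k = cc x o' k := by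
  unfold cc cpt
  rw [sqrt_clip_zero67 hk, mul_zero, mul_zero]

lemma cc_eq_of_o67 (x o o' : ℕ → ℝ) (k : ℕ) (hk : o k = o' k) : cc x o k = cc x o' k := by
  unfold cc
  rw [hk]

lemma o_eq_of_cc67 {o' : ℕ → ℝ} {k : ℕ} (hk : |x k| < 1) (h : cc x o k = cc x o' k) :
    o k = o' k := by
  have h2 : o k * Real.sqrt (1 - clip (x k) ^ 2) = o' k * Real.sqrt (1 - clip (x k) ^ 2) :=
    congrArg Complex.im h
  exact mul_right_cancel₀ (sqrt_clip_pos67 hk).ne' h2

lemma sgn_unique67 {s a b b' : ℝ} (hb : b = 1 ∨ b = -1) (hb' : b' = 1 ∨ b' = -1)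
    (h : 0 < s * (a * b)) (h' : 0 < s * (a * b')) : b = b' := by
  rcases hb with rfl | rfl <;> rcases hb' with rfl | rfl
  · rfl
  · exfalso; linarith
  · exfalso; linarith
  · rfl

theorem cc_unique {o' : ℕ → ℝ} (h : St lam x o) (h' : St lam x o')
    (e0 : cc x o 0 = cc x o' 0) (e1 : cc x o 1 = cc x o' 1) (e2 : cc x o 2 = cc x o' 2) (k : ℕ) :
    cc x o k = cc x o' k := by
  have key : ∀ k, cc x o k = cc x o' k ∧ cc x o (k + 1) = cc x o' (k + 1) ∧
      cc x o (k + 2) = cc x o' (k + 2) := by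
    intro k
    induction k with
    | zero => exact ⟨e0, e1, e2⟩
    | succ k ih =>
      refine ⟨ih.2.1, ih.2.2, ?_⟩
      by_cases h3 : |x (k + 1 + 2)| < 1
      · apply cc_eq_of_o67
        by_cases ha : |x (k + 1)| < 1
        · have r := h.rel2 (k + 1) ha h3
          have r' := h'.rel2 (k + 1) ha h3
          rw [← o_eq_of_cc67 ha ih.2.1] at r'
          exact sgn_unique67 (h.ori _) (h'.ori _) r r'
        · by_cases hb : |x (k + 1 + 1)| < 1
          · have r := rel3 h (k + 1) hb h3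
            have r' := rel3 h' (k + 1) hb h3
            rw [← o_eq_of_cc67 hb ih.2.2] at r'
            exact sgn_unique67 (h.ori _) (h'.ori _) r r'
          · exfalso
            have hes := (escape h k (not_lt.1 ha) (not_lt.1 hb)).1
            rw [abs_mul] at hes
            have h5 : (1 : ℝ) ≤ |x (k + 1)| * |x (k + 2)| :=
              one_le_mul_of_one_le_of_one_le (not_lt.1 ha) (not_lt.1 hb)
            have h6 : |x (k + 3)| < 1 := h3
            linarith
      · exact cc_eq_of_ge67 _ _ _ _ (not_lt.1 h3)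
  exact (key k).1

/-- If `|x 1| < 1` then the condition at index 2 is automatic. -/
theorem cc_unique' {o' : ℕ → ℝ} (h : St lam x o) (h' : St lam x o') (hx : |x 1| < 1)
    (e0 : cc x o 0 = cc x o' 0) (e1 : cc x o 1 = cc x o' 1) (k : ℕ) :
    cc x o k = cc x o' k := by
  refine cc_unique h h' e0 e1 ?_ k
  by_cases h2 : |x 2| < 1
  · apply cc_eq_of_o67
    have r := rel3 h 0 hx h2
    have r' := rel3 h' 0 hx h2
    have ho : o 1 = o' 1 := o_eq_of_cc67 hx e1
    simp only [Nat.zero_add] at r r'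
    rw [← ho] at r'
    exact sgn_unique67 (h.ori _) (h'.ori _) r r'
  · exact cc_eq_of_ge67 _ _ _ _ (not_lt.1 h2)

theorem lift_unique (th th' : ℕ → ℝ) (eps : ℝ) (heps : eps < 3)
    (h : ∀ k, |th (k + 2) - th (k + 1) - th k| ≤ eps)
    (h' : ∀ k, |th' (k + 2) - th' (k + 1) - th' k| ≤ eps)
    (he : ∀ k, Complex.exp ((th k : ℂ) * I) = Complex.exp ((th' k : ℂ) * I))
    (e0 : th 0 = th' 0) (e1 : th 1 = th' 1) (k : ℕ) : th k = th' k := by
  have key : ∀ k, th k = th' k ∧ th (k + 1) = th' (k + 1) := by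
    intro k
    induction k with
    | zero => exact ⟨e0, e1⟩
    | succ k ih =>
      refine ⟨ih.2, ?_⟩
      obtain ⟨n, hn⟩ := Complex.exp_eq_exp_iff_exists_int.1 (he (k + 1 + 1))
      have hn2 : th (k + 1 + 1) = th' (k + 1 + 1) + n * (2 * Real.pi) := by
        have h3 : (th (k + 1 + 1) : ℂ) * I = ((th' (k + 1 + 1) + n * (2 * Real.pi) : ℝ) : ℂ) * I := by
          rw [hn]; push_cast; ring
        have h4 := mul_right_cancel₀ Complex.I_ne_zero h3
        exact_mod_cast h4
      have a1 := h k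
      have a2 := h' k
      rw [ih.1, ih.2] at a1
      have a1' := abs_le.1 a1
      have a2' := abs_le.1 a2
      have e : th (k + 2) = th (k + 1 + 1) := rfl
      have e' : th' (k + 2) = th' (k + 1 + 1) := rfl
      rw [e] at a1'
      rw [e'] at a2'
      have hpi : (3.14 : ℝ) < Real.pi := Real.pi_gt_d2
      have hn0 : n = 0 := by
        by_contra hne
        have : (1 : ℤ) ≤ |n| := Int.one_le_abs hne
        have h5 : (1 : ℝ) ≤ |(n : ℝ)| := by exact_mod_cast this
        have h6 : |(n : ℝ) * (2 * Real.pi)| ≤ 6 := by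
          rw [abs_le]
          constructor <;> linarith [a1'.1, a1'.2, a2'.1, a2'.2]
        rw [abs_mul, abs_of_pos (by positivity : (0 : ℝ) < 2 * Real.pi)] at h6
        nlinarith
      rw [hn2, hn0]
      simp
  exact (key k).1

/-- The tail of a state sequence from index `m - 1` on is a state sequence if `|x m| < 1`. -/
theorem St_tail (h : St lam x o) (m : ℕ) (hx : |x (m + 1)| < 1) :
    St lam (fun i => x (m + i)) (fun i => o (m + i)) where
  rec3 k := h.rec3 (m + k)
  inv k := h.inv (m + k)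
  ori k := h.ori (m + k)
  rel1 k := h.rel1 (m + k)
  rel2 k := h.rel2 (m + k)
  start := Or.inl hx

end SF
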