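import Pool.Agent.Helper65.SF.F3
import Pool.Agent.Helper65.SF.F0b

/-!
# SF-F4: lifted angles of the energy family (`t = -E`)

Proof in words.
* `TE_exp`: `exp_lift` with `St_energy`; index 0: `x 0 = 1`; index 1: `eM 1 = [[-t,-1],[1,0]]` has lower
  left entry 1, orientation 1, `arccos (-t/2)` has cosine `clip (-t/2)` and nonnegative sine.
* `TE_continuous`: `cc (X lam t) (oE lam t) k` is continuous in t: where `|X| < 1` the entry
  `eM 1 0` is continuous and nonzero (`ori_ne`), so `orient` is locally constant; at points with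
  `|X| >= 1` the imaginary part is `<= sqrt (1 - clip^2)` which is small nearby.  The defect `eta` is
  `arg` of a unit number within 0.4 of 1, `arg` is continuous there (`Complex.slitPlane`).
* `TE_of_le`: for `t <= -3`: `x 0 = 1`, `x 1 >= 1`, `x 2 >= 1` and inductively all `x k >= 1`
  (`x (k+3) >= 2 x (k+2) x (k+1) - x k`, keep `x (k+1) x k <= x (k+2)`..., or use `escape`), all circle
  points are 1, all `eta = 0`, `arccos (-t/2) = 0`.  `TE_of_ge`: for `t >= 3` all `|x k| >= 1` (k >= 0)
  and the signs are `(-1) ^ fib k` (escape gives the sign), all `eta = 0`, `arccos (-t/2) = pi`.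
-/

namespace SF

open Complex

/-! ### Auxiliary lemmas (helper94) -/

theorem h94_tr_diff (p q w : ℝ → ℝ) (hp : Differentiable ℝ p) (hq : Differentiable ℝ q)
    (hw : Differentiable ℝ w) (k : ℕ) :
    Differentiable ℝ (fun t => tr (p t) (q t) (w t) k) ∧
    Differentiable ℝ (fun t => tr (p t) (q t) (w t) (k + 1)) ∧
    Differentiable ℝ (fun t => tr (p t) (q t) (w t) (k + 2)) := by
  induction k with
  | zero => exact ⟨hp, hq, hw⟩
  | succ k ih =>
    refine ⟨ih.2.1, ih.2.2, ?_⟩
    change Differentiable ℝ (fun t => 2 * tr (p t) (q t) (w t) (k + 2) *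
      tr (p t) (q t) (w t) (k + 1) - tr (p t) (q t) (w t) k)
    exact (((differentiable_const 2).mul ih.2.2).mul ih.2.1).sub ih.1

theorem X_differentiable (lam : ℝ) (k : ℕ) : Differentiable ℝ (fun t => X lam t k) := by
  unfold X
  refine (h94_tr_diff (fun _ => 1) (fun t => -t / 2) (fun t => -(t + lam) / 2) ?_ ?_ ?_ k).1 <;>
    fun_prop

theorem h94_clip_of_ge {y : ℝ} (h : 1 ≤ y) : clip y = 1 := by
  unfold clip
  rw [min_eq_left h, max_eq_right (by norm_num)]

theorem h94_clip_of_le {y : ℝ} (h : y ≤ -1) : clip y = -1 := by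
  unfold clip
  rw [min_eq_right (by linarith), max_eq_left h]

theorem h94_cpt_ge {y : ℝ} (o : ℝ) (h : 1 ≤ y) : cpt y o = 1 := by
  unfold cpt
  rw [h94_clip_of_ge h]
  apply Complex.ext <;> simp

theorem h94_cpt_le {y : ℝ} (o : ℝ) (h : y ≤ -1) : cpt y o = -1 := by
  unfold cpt
  rw [h94_clip_of_le h]
  apply Complex.ext <;> simp

theorem h94_exp_arccos (y : ℝ) :
    Complex.exp ((Real.arccos y : ℂ) * I) = cpt y 1 := by
  have h1 : Real.cos (Real.arccos y) = clip y := by
    rcases le_total 1 y with h | h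
    · rw [h94_clip_of_ge h, Real.arccos_of_one_le h, Real.cos_zero]
    · rcases le_total y (-1) with h' | h'
      · rw [h94_clip_of_le h', Real.arccos_of_le_neg_one h', Real.cos_pi]
      · rw [Real.cos_arccos h' h]
        unfold clip
        rw [min_eq_right h, max_eq_right h']
  have h2 : Real.sin (Real.arccos y) = Real.sqrt (1 - clip y ^ 2) := by
    rw [← h1, ← Real.sin_sq]
    rw [Real.sqrt_sq (Real.sin_nonneg_of_nonneg_of_le_pi (Real.arccos_nonneg y)
      (Real.arccos_le_pi y))]
  unfold cpt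
  rw [Complex.exp_mul_I, ← Complex.ofReal_cos, ← Complex.ofReal_sin, h1, h2]
  apply Complex.ext <;> simp

theorem h94_e0 (lam t : ℝ) : Complex.exp (((0 : ℝ) : ℂ) * I) =
    cc (fun j => X lam t j) (fun j => oE lam t j) 0 := by
  have : cc (fun j => X lam t j) (fun j => oE lam t j) 0 = 1 := by
    unfold cc
    apply h94_cpt_ge
    change (1 : ℝ) ≤ 1
    exact le_rfl
  rw [this]
  simp

theorem h94_oE1 (lam t : ℝ) : oE lam t 1 = 1 := by
  unfold oE orient
  have : (eM lam t 1) 1 0 = 1 := by
    simp [eM, mseq]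
  rw [this]
  simp

theorem h94_e1 (lam t : ℝ) : Complex.exp ((Real.arccos (-t / 2) : ℂ) * I) =
    cc (fun j => X lam t j) (fun j => oE lam t j) 1 := by
  rw [h94_exp_arccos]
  change cpt (-t / 2) 1 = cpt (-t / 2) (oE lam t 1)
  rw [h94_oE1]

theorem TE_exp (lam t : ℝ) (h0 : 0 ≤ lam) (k : ℕ) :
    Complex.exp ((TE lam t k : ℂ) * I) = cc (fun j => X lam t j) (fun j => oE lam t j) k :=
  exp_lift (St_energy lam t h0) 0 (Real.arccos (-t / 2)) (h94_e0 lam t) (h94_e1 lam t) k

theorem cos_TE (lam t : ℝ) (h0 : 0 ≤ lam) (k : ℕ) : Real.cos (TE lam t k) = clip (X lam t k) :=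
  cos_lift (St_energy lam t h0) 0 (Real.arccos (-t / 2)) (h94_e0 lam t) (h94_e1 lam t) k

theorem sin_TE_ne (lam t : ℝ) (h0 : 0 ≤ lam) (k : ℕ) :
    Real.sin (TE lam t k) ≠ 0 ↔ |X lam t k| < 1 :=
  sin_lift_ne (St_energy lam t h0) 0 (Real.arccos (-t / 2)) (h94_e0 lam t) (h94_e1 lam t) k

theorem TE_zero (lam t : ℝ) : TE lam t 0 = 0 := rfl

theorem h94_TE_one (lam t : ℝ) : TE lam t 1 = Real.arccos (-t / 2) := rfl

theorem h94_TE_add (lam t : ℝ) (k : ℕ) : TE lam t (k + 2) = TE lam t (k + 1) + TE lam t k +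
    eta (fun j => X lam t j) (fun j => oE lam t j) k := rfl

theorem TE_defect (lam t : ℝ) (h0 : 0 ≤ lam) (h1 : lam ≤ 1 / 100) (k : ℕ) :
    |TE lam t (k + 2) - TE lam t (k + 1) - TE lam t k| ≤ 7 * Real.sqrt lam := by
  have h := eta_le (St_energy lam t h0) h0 h1 k
  rw [h94_TE_add]
  have : TE lam t (k + 1) + TE lam t k + eta (fun j => X lam t j) (fun j => oE lam t j) k -
      TE lam t (k + 1) - TE lam t k = eta (fun j => X lam t j) (fun j => oE lam t j) k := by ring
  rw [this]
  exact h

theorem h94_eM_cont (lam : ℝ) (k : ℕ) :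
    Continuous (fun t : ℝ => eM lam t k) ∧ Continuous (fun t : ℝ => eM lam t (k + 1)) := by
  induction k with
  | zero =>
    constructor
    · change Continuous (fun t : ℝ => (!![1, -lam; 0, 1] : M2 ℝ))
      exact continuous_const
    · change Continuous (fun t : ℝ => (!![-t, -1; 1, 0] : M2 ℝ))
      refine continuous_matrix ?_
      intro i j
      fin_cases i <;> fin_cases j <;> simp <;> fun_prop
  | succ k ih =>
    refine ⟨ih.2, ?_⟩
    change Continuous (fun t : ℝ => eM lam t k * eM lam t (k + 1))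
    exact ih.1.matrix_mul ih.2

theorem h94_clip_cont : Continuous clip := by
  unfold clip
  fun_prop

theorem h94_orient_abs (M : M2 ℝ) : |orient M| = 1 := by
  unfold orient
  split_ifs <;> simp

theorem h94_im_cont (lam : ℝ) (k : ℕ) :
    Continuous (fun t : ℝ => oE lam t k * Real.sqrt (1 - clip (X lam t k) ^ 2)) := by
  have hX : Continuous (fun t : ℝ => X lam t k) := (X_differentiable lam k).continuous
  have hs : Continuous (fun t : ℝ => Real.sqrt (1 - clip (X lam t k) ^ 2)) := by
    have := h94_clip_cont.comp hX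
    exact (continuous_const.sub (this.pow 2)).sqrt
  rw [continuous_iff_continuousAt]
  intro t0
  rcases lt_or_ge (|X lam t0 k|) 1 with h | h
  · have hne : eM lam t0 k 1 0 ≠ 0 := by
      apply ori_ne _ (det_eM lam t0 k)
      rw [trace_eM (by norm_num : (2 : ℝ) ≠ 0), abs_mul]
      norm_num
      linarith
    have hc : Continuous (fun t : ℝ => eM lam t k 1 0) :=
      (continuous_apply 0).comp ((continuous_apply 1).comp (h94_eM_cont lam k).1)
    have hloc : ∀ᶠ t in nhds t0, oE lam t k = oE lam t0 k := by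
      rcases lt_or_gt_of_ne hne with h1 | h1
      · have := (hc.continuousAt (x := t0)).eventually (gt_mem_nhds h1)
        filter_upwards [this] with t ht
        unfold oE orient
        rw [if_neg (not_le.2 ht), if_neg (not_le.2 h1)]
      · have := (hc.continuousAt (x := t0)).eventually (lt_mem_nhds h1)
        filter_upwards [this] with t ht
        unfold oE orient
        rw [if_pos ht.le, if_pos h1.le]
    have h2 : ContinuousAt (fun t : ℝ => oE lam t0 k * Real.sqrt (1 - clip (X lam t k) ^ 2)) t0 :=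
      (continuous_const.mul hs).continuousAt
    refine h2.congr ?_
    filter_upwards [hloc] with t ht
    rw [ht]
  · have hz : Real.sqrt (1 - clip (X lam t0 k) ^ 2) = 0 := by
      rcases le_abs'.1 h with h1 | h1
      · rw [h94_clip_of_le h1]; norm_num
      · rw [h94_clip_of_ge h1]; norm_num
    change Filter.Tendsto (fun t : ℝ => oE lam t k * Real.sqrt (1 - clip (X lam t k) ^ 2))
      (nhds t0) (nhds (oE lam t0 k * Real.sqrt (1 - clip (X lam t0 k) ^ 2)))
    rw [hz, mul_zero]
    rw [tendsto_zero_iff_abs_tendsto_zero]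
    have h3 : Filter.Tendsto (fun t : ℝ => Real.sqrt (1 - clip (X lam t k) ^ 2)) (nhds t0)
        (nhds 0) := by
      rw [← hz]
      exact hs.continuousAt
    refine h3.congr ?_
    intro t
    simp only [Function.comp_apply]
    rw [abs_mul]
    unfold oE
    rw [h94_orient_abs, one_mul, abs_of_nonneg (Real.sqrt_nonneg _)]

theorem h94_cc_cont (lam : ℝ) (k : ℕ) :
    Continuous (fun t : ℝ => cc (fun j => X lam t j) (fun j => oE lam t j) k) := by
  have hX : Continuous (fun t : ℝ => X lam t k) := (X_differentiable lam k).continuous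
  have h1 : Continuous (fun t : ℝ => clip (X lam t k)) := h94_clip_cont.comp hX
  have h2 := h94_im_cont lam k
  have h3 : (fun t : ℝ => cc (fun j => X lam t j) (fun j => oE lam t j) k) =
      fun t : ℝ => ((clip (X lam t k) : ℝ) : ℂ) +
        ((oE lam t k * Real.sqrt (1 - clip (X lam t k) ^ 2) : ℝ) : ℂ) * I := by
    funext t
    unfold cc cpt
    apply Complex.ext <;> simp
  rw [h3]
  exact (Complex.continuous_ofReal.comp h1).add
    ((Complex.continuous_ofReal.comp h2).mul continuous_const)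

theorem h94_slit (z : ℂ) (h : ‖z - 1‖ < 1) : z ∈ Complex.slitPlane := by
  rw [Complex.mem_slitPlane_iff]
  left
  have h1 := (Complex.abs_re_le_norm (z - 1))
  have h2 : |z.re - 1| < 1 := by
    have : (z - 1).re = z.re - 1 := by simp
    rw [this] at h1
    linarith
  have := (abs_lt.1 h2).1
  linarith

theorem h94_eta_cont (lam : ℝ) (h0 : 0 ≤ lam) (h1 : lam ≤ 1 / 100) (k : ℕ) :
    Continuous (fun t : ℝ => eta (fun j => X lam t j) (fun j => oE lam t j) k) := by
  unfold eta
  rw [continuous_iff_continuousAt]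
  intro t0
  have hu : Continuous (fun t : ℝ => cc (fun j => X lam t j) (fun j => oE lam t j) (k + 2) *
      (starRingEnd ℂ) (cc (fun j => X lam t j) (fun j => oE lam t j) (k + 1) *
        cc (fun j => X lam t j) (fun j => oE lam t j) k)) :=
    (h94_cc_cont lam (k + 2)).mul
      (Complex.continuous_conj.comp ((h94_cc_cont lam (k + 1)).mul (h94_cc_cont lam k)))
  have hS := St_energy lam t0 h0
  have hn : ∀ j, ‖cc (fun j => X lam t0 j) (fun j => oE lam t0 j) j‖ = 1 := by
    intro j
    exact norm_cpt _ _ (hS.ori j)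
  have hst := step hS h0 h1 k
  set a := cc (fun j => X lam t0 j) (fun j => oE lam t0 j) (k + 2) with ha
  set b := cc (fun j => X lam t0 j) (fun j => oE lam t0 j) (k + 1) *
    cc (fun j => X lam t0 j) (fun j => oE lam t0 j) k with hb
  have hbn : ‖b‖ = 1 := by
    rw [hb, norm_mul, hn, hn, one_mul]
  have hbb : b * (starRingEnd ℂ) b = 1 := by
    rw [Complex.mul_conj, Complex.normSq_eq_norm_sq, hbn]
    norm_num
  have hsq : Real.sqrt lam ≤ 1 / 10 := by
    rw [Real.sqrt_le_left (by norm_num)]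
    linarith
  have hlt : ‖a * (starRingEnd ℂ) b - 1‖ < 1 := by
    have e : a * (starRingEnd ℂ) b - 1 = (a - b) * (starRingEnd ℂ) b := by
      rw [sub_mul, hbb]
    rw [e, norm_mul, Complex.norm_conj, hbn, mul_one]
    linarith
  have hslit := h94_slit _ hlt
  exact (Complex.continuousAt_arg hslit).comp (f := fun t : ℝ =>
    cc (fun j => X lam t j) (fun j => oE lam t j) (k + 2) *
      (starRingEnd ℂ) (cc (fun j => X lam t j) (fun j => oE lam t j) (k + 1) *
        cc (fun j => X lam t j) (fun j => oE lam t j) k)) (x := t0) hu.continuousAt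

theorem TE_continuous (lam : ℝ) (h0 : 0 ≤ lam) (h1 : lam ≤ 1 / 100) (k : ℕ) :
    Continuous (fun t => TE lam t k) := by
  have key : ∀ k, Continuous (fun t => TE lam t k) ∧ Continuous (fun t => TE lam t (k + 1)) := by
    intro k
    induction k with
    | zero =>
      constructor
      · change Continuous (fun t : ℝ => (0 : ℝ))
        exact continuous_const
      · change Continuous (fun t : ℝ => Real.arccos (-t / 2))
        exact Real.continuous_arccos.comp (by fun_prop)
    | succ k ih =>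
      refine ⟨ih.2, ?_⟩
      change Continuous (fun t => TE lam t (k + 1) + TE lam t k +
        eta (fun j => X lam t j) (fun j => oE lam t j) k)
      exact (ih.2.add ih.1).add (h94_eta_cont lam h0 h1 k)
  exact (key k).1

theorem h94_X0 (lam t : ℝ) : X lam t 0 = 1 := rfl
theorem h94_X1 (lam t : ℝ) : X lam t 1 = -t / 2 := rfl
theorem h94_X2 (lam t : ℝ) : X lam t 2 = -(t + lam) / 2 := rfl

theorem TE_of_le (lam t : ℝ) (h0 : 0 ≤ lam) (h1 : lam ≤ 1 / 100) (ht : t ≤ -3) (k : ℕ) :
    TE lam t k = 0 := by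
  have hS := St_energy lam t h0
  have hx1 : 1 ≤ X lam t 1 := by rw [h94_X1]; linarith
  have hx2 : 1 ≤ X lam t 2 := by rw [h94_X2]; linarith
  have habs : ∀ j, 1 ≤ j → 1 ≤ |X lam t j| := by
    intro j hj
    exact escape_all hS 0 (le_trans hx1 (le_abs_self _)) (le_trans hx2 (le_abs_self _)) j hj
  have hpos : ∀ j, 0 < X lam t (j + 1) ∧ 0 < X lam t (j + 2) := by
    intro j
    induction j with
    | zero => exact ⟨by linarith, by linarith⟩
    | succ j ih =>
      refine ⟨ih.2, ?_⟩
      have := (escape hS j (habs _ (by omega)) (habs _ (by omega))).2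
      have h3 : 0 < X lam t (j + 1) * X lam t (j + 2) := mul_pos ih.1 ih.2
      exact (pos_iff_pos_of_mul_pos this).1 h3
  have hone : ∀ j, 1 ≤ X lam t j := by
    intro j
    rcases Nat.eq_zero_or_pos j with rfl | hj
    · rw [h94_X0]
    · obtain ⟨i, rfl⟩ : ∃ i, j = i + 1 := ⟨j - 1, by omega⟩
      have := habs (i + 1) (by omega)
      rwa [abs_of_pos (hpos i).1] at this
  have hcc : ∀ j, cc (fun j => X lam t j) (fun j => oE lam t j) j = 1 := by
    intro j
    unfold cc
    exact h94_cpt_ge _ (hone j)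
  have heta : ∀ j, eta (fun j => X lam t j) (fun j => oE lam t j) j = 0 := by
    intro j
    unfold eta
    rw [hcc, hcc, hcc]
    simp
  have key : ∀ k, TE lam t k = 0 ∧ TE lam t (k + 1) = 0 := by
    intro k
    induction k with
    | zero =>
      refine ⟨rfl, ?_⟩
      rw [zero_add, h94_TE_one]
      exact Real.arccos_of_one_le (by linarith)
    | succ k ih =>
      refine ⟨ih.2, ?_⟩
      rw [h94_TE_add, ih.1, ih.2, heta]
      norm_num
  exact (key k).1

theorem TE_of_ge (lam t : ℝ) (h0 : 0 ≤ lam) (h1 : lam ≤ 1 / 100) (ht : 3 ≤ t) (k : ℕ) :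
    TE lam t k = Real.pi * (Nat.fib k : ℝ) := by
  have hS := St_energy lam t h0
  have hx1 : X lam t 1 ≤ -1 := by rw [h94_X1]; linarith
  have hx2 : X lam t 2 ≤ -1 := by rw [h94_X2]; linarith
  have habs : ∀ j, 1 ≤ j → 1 ≤ |X lam t j| := by
    intro j hj
    exact escape_all hS 0 (le_abs'.2 (Or.inl hx1)) (le_abs'.2 (Or.inl hx2)) j hj
  have hpos : ∀ j, 0 < (-1 : ℝ) ^ Nat.fib (j + 1) * X lam t (j + 1) ∧
      0 < (-1 : ℝ) ^ Nat.fib (j + 2) * X lam t (j + 2) := by
    intro j
    induction j with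
    | zero =>
      constructor
      · norm_num
        linarith
      · norm_num
        linarith
    | succ j ih =>
      refine ⟨ih.2, ?_⟩
      have h2 := (escape hS j (habs _ (by omega)) (habs _ (by omega))).2
      have h3 := mul_pos ih.1 ih.2
      have hf : Nat.fib (j + 1 + 2) = Nat.fib (j + 1) + Nat.fib (j + 2) := Nat.fib_add_two
      rw [hf, pow_add]
      have e1 : ((-1 : ℝ) ^ Nat.fib (j + 1)) ^ 2 = 1 := by
        rw [← pow_mul, mul_comm, pow_mul]; norm_num
      have e2 : ((-1 : ℝ) ^ Nat.fib (j + 2)) ^ 2 = 1 := by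
        rw [← pow_mul, mul_comm, pow_mul]; norm_num
      have h4 : 0 < ((-1 : ℝ) ^ Nat.fib (j + 1) * X lam t (j + 1) *
          ((-1 : ℝ) ^ Nat.fib (j + 2) * X lam t (j + 2))) *
          ((-1 : ℝ) ^ Nat.fib (j + 1) * (-1 : ℝ) ^ Nat.fib (j + 2) * X lam t (j + 3)) := by
        have : ((-1 : ℝ) ^ Nat.fib (j + 1) * X lam t (j + 1) *
          ((-1 : ℝ) ^ Nat.fib (j + 2) * X lam t (j + 2))) *
          ((-1 : ℝ) ^ Nat.fib (j + 1) * (-1 : ℝ) ^ Nat.fib (j + 2) * X lam t (j + 3)) =
          ((-1 : ℝ) ^ Nat.fib (j + 1)) ^ 2 * ((-1 : ℝ) ^ Nat.fib (j + 2)) ^ 2 *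
          (X lam t (j + 1) * X lam t (j + 2) * X lam t (j + 3)) := by ring
        rw [this, e1, e2]
        simpa using h2
      exact (pos_iff_pos_of_mul_pos h4).1 h3
  have hcc : ∀ j, cc (fun j => X lam t j) (fun j => oE lam t j) j = (-1) ^ Nat.fib j := by
    intro j
    unfold cc
    rcases Nat.eq_zero_or_pos j with rfl | hj
    · rw [h94_cpt_ge _ (le_of_eq (h94_X0 lam t).symm)]
      simp
    · obtain ⟨i, rfl⟩ : ∃ i, j = i + 1 := ⟨j - 1, by omega⟩
      have h2 := habs (i + 1) (by omega)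
      have h3 := (hpos i).1
      rcases Nat.even_or_odd (Nat.fib (i + 1)) with he | ho
      · rw [he.neg_one_pow, one_mul] at h3
        rw [abs_of_pos h3] at h2
        rw [h94_cpt_ge _ h2, he.neg_one_pow]
      · rw [ho.neg_one_pow] at h3
        have h4 : X lam t (i + 1) < 0 := by linarith
        rw [abs_of_neg h4] at h2
        rw [h94_cpt_le _ (by linarith), ho.neg_one_pow]
  have heta : ∀ j, eta (fun j => X lam t j) (fun j => oE lam t j) j = 0 := by
    intro j
    unfold eta
    rw [hcc, hcc, hcc]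
    have hf : Nat.fib (j + 2) = Nat.fib j + Nat.fib (j + 1) := Nat.fib_add_two
    rw [hf]
    have e : (-1 : ℂ) ^ (Nat.fib j + Nat.fib (j + 1)) *
        (starRingEnd ℂ) ((-1) ^ Nat.fib (j + 1) * (-1) ^ Nat.fib j) = 1 := by
      rw [map_mul, map_pow, map_pow, map_neg, map_one, pow_add]
      have e1 : ((-1 : ℂ) ^ Nat.fib j) * ((-1 : ℂ) ^ Nat.fib j) = 1 := by
        rw [← pow_add, ← two_mul, pow_mul]; norm_num
      have e2 : ((-1 : ℂ) ^ Nat.fib (j + 1)) * ((-1 : ℂ) ^ Nat.fib (j + 1)) = 1 := by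
        rw [← pow_add, ← two_mul, pow_mul]; norm_num
      calc (-1 : ℂ) ^ Nat.fib j * (-1 : ℂ) ^ Nat.fib (j + 1) *
          ((-1 : ℂ) ^ Nat.fib (j + 1) * (-1 : ℂ) ^ Nat.fib j)
          = ((-1 : ℂ) ^ Nat.fib j * (-1 : ℂ) ^ Nat.fib j) *
            ((-1 : ℂ) ^ Nat.fib (j + 1) * (-1 : ℂ) ^ Nat.fib (j + 1)) := by ring
        _ = 1 := by rw [e1, e2, one_mul]
    rw [e]
    simp
  have key : ∀ k, TE lam t k = Real.pi * (Nat.fib k : ℝ) ∧
      TE lam t (k + 1) = Real.pi * (Nat.fib (k + 1) : ℝ) := by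
    intro k
    induction k with
    | zero =>
      refine ⟨by simp [TE_zero], ?_⟩
      rw [zero_add, h94_TE_one]
      rw [Real.arccos_of_le_neg_one (by linarith)]
      simp
    | succ k ih =>
      refine ⟨ih.2, ?_⟩
      rw [h94_TE_add, ih.1, ih.2, heta]
      have hf : Nat.fib (k + 1 + 1) = Nat.fib k + Nat.fib (k + 1) := Nat.fib_add_two
      rw [hf]
      push_cast
      ring
  exact (key k).1

end SF
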