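import Pool.Agent.Helper65.SF.F5

/-!
# SF-F5b: the word functions `PP`

Proof in words.
* `PP_spec`, `PP_unique`: for `n ≠ 1`; the set `{psi | a <= TW psi}` is closed, bounded below, nonempty;
  uniqueness because of strict monotonicity at values not in `pi Z`.
* `PP_deriv`: inverse function, `0 < kappa <= 1 / fibz 1 0 n`, and `fibz 1 0 n = fib (n-1)` for n >= 1.
* `PP_shift`: `TW_shift` and uniqueness.
* `PP_continuous`: from joint continuity of `TW` and strict monotonicity in psi.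
-/

namespace SF

open Complex

theorem fibz_one_zero_succ (n : ℕ) : fibz 1 0 (n + 1) = (Nat.fib n : ℤ) ∧
    fibz 1 0 (n + 2) = (Nat.fib (n + 1) : ℤ) := by
  induction n with
  | zero => exact ⟨rfl, rfl⟩
  | succ n ih =>
    refine ⟨ih.2, ?_⟩
    have h : fibz 1 0 (n + 1 + 2) = fibz 1 0 (n + 2) + fibz 1 0 (n + 1) := rfl
    rw [h, ih.1, ih.2, Nat.fib_add_two]
    push_cast
    ring

theorem fibz_one_zero (n : ℕ) (hn : 1 ≤ n) : fibz 1 0 n = (Nat.fib (n - 1) : ℤ) := by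
  obtain ⟨m, rfl⟩ := Nat.exists_eq_add_of_le' hn
  exact (fibz_one_zero_succ m).1

theorem fibz_zero_one_succ (n : ℕ) : fibz 0 1 n = (Nat.fib n : ℤ) ∧
    fibz 0 1 (n + 1) = (Nat.fib (n + 1) : ℤ) := by
  induction n with
  | zero => exact ⟨rfl, rfl⟩
  | succ n ih =>
    refine ⟨ih.2, ?_⟩
    have h : fibz 0 1 (n + 1 + 1) = fibz 0 1 (n + 1) + fibz 0 1 n := rfl
    rw [h, ih.1, ih.2, Nat.fib_add_two (n := n)]
    push_cast
    ring

theorem fibz_zero_one (n : ℕ) : fibz 0 1 n = (Nat.fib n : ℤ) := (fibz_zero_one_succ n).1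

theorem TW_continuous_psi (lam : ℝ) (h0 : 0 ≤ lam) (h1 : lam ≤ 1 / 100) (k : ℕ) (b : ℝ)
    (hb : Real.sin b ≠ 0) : Continuous (fun psi => TW lam b psi k) := by
  rw [continuous_iff_continuousAt]
  intro psi
  have hopen : IsOpen {p : ℝ × ℝ | Real.sin p.1 ≠ 0} :=
    isOpen_ne_fun (Real.continuous_sin.comp continuous_fst) continuous_const
  have h := (TW_continuous lam h0 h1 k).continuousAt (hopen.mem_nhds (show (b, psi) ∈ _ from hb))
  exact h.comp (f := fun psi => (b, psi)) (by fun_prop)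

theorem PP_bddBelow (lam : ℝ) (h0 : 0 ≤ lam) (h1 : lam ≤ 1 / 100) (n : ℕ) (hn : n ≠ 1) (a b : ℝ)
    (hb : Real.sin b ≠ 0) : BddBelow {psi | a ≤ TW lam b psi n} := by
  obtain ⟨p, hp⟩ := TW_surj lam b h0 h1 hb n hn (a - 1)
  refine ⟨p, fun psi hpsi => ?_⟩
  by_contra hcon
  push Not at hcon
  have h := TW_mono lam b h0 h1 hb n hcon.le
  have h3 : a ≤ TW lam b psi n := hpsi
  simp only at h
  linarith

theorem PP_spec (lam : ℝ) (h0 : 0 ≤ lam) (h1 : lam ≤ 1 / 100) (n : ℕ) (hn : n ≠ 1) (a b : ℝ)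
    (hb : Real.sin b ≠ 0) : TW lam b (PP lam n a b) n = a := by
  have hbdd := PP_bddBelow lam h0 h1 n hn a b hb
  obtain ⟨p, hp⟩ := TW_surj lam b h0 h1 hb n hn a
  have hpm : p ∈ {psi | a ≤ TW lam b psi n} := hp.ge
  have hcl : IsClosed {psi | a ≤ TW lam b psi n} :=
    isClosed_le continuous_const (TW_continuous_psi lam h0 h1 n b hb)
  have hmem : PP lam n a b ∈ {psi | a ≤ TW lam b psi n} := hcl.csInf_mem ⟨p, hpm⟩ hbdd
  have hle : PP lam n a b ≤ p := csInf_le hbdd hpm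
  have h := TW_mono lam b h0 h1 hb n hle
  simp only at h
  exact le_antisymm (h.trans hp.le) hmem

theorem TW_strict (lam : ℝ) (h0 : 0 ≤ lam) (h1 : lam ≤ 1 / 100) (n : ℕ) (hn : n ≠ 1) (b p q : ℝ)
    (hb : Real.sin b ≠ 0) (ha : Real.sin (TW lam b p n) ≠ 0) (hpq : p < q) :
    TW lam b p n < TW lam b q n := by
  refine lt_of_le_of_ne (TW_mono lam b h0 h1 hb n hpq.le) fun he => ?_
  obtain ⟨d, hd, -, hder, -⟩ :=
    TW_deriv lam b p h0 h1 hb n hn ((sin_TW_ne lam b p hb n).1 ha)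
  have hconst : ∀ s ∈ Set.Icc p q, TW lam b s n = TW lam b p n := by
    intro s hs
    refine le_antisymm ?_ (TW_mono lam b h0 h1 hb n hs.1)
    rw [he]
    exact TW_mono lam b h0 h1 hb n hs.2
  have hp : p ∈ Set.Icc p q := ⟨le_rfl, hpq.le⟩
  have h2 : HasDerivWithinAt (fun s => TW lam b s n) 0 (Set.Icc p q) p :=
    (hasDerivWithinAt_const p (Set.Icc p q) (TW lam b p n)).congr (fun s hs => hconst s hs) rfl
  have h3 := (uniqueDiffOn_Icc hpq p hp).eq_deriv _ hder.hasDerivWithinAt h2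
  linarith

theorem PP_unique (lam : ℝ) (h0 : 0 ≤ lam) (h1 : lam ≤ 1 / 100) (n : ℕ) (hn : n ≠ 1) (a b psi : ℝ)
    (hb : Real.sin b ≠ 0) (ha : Real.sin a ≠ 0) (h : TW lam b psi n = a) : PP lam n a b = psi := by
  have hs := PP_spec lam h0 h1 n hn a b hb
  rcases lt_trichotomy (PP lam n a b) psi with hlt | heq | hgt
  · have h2 := TW_strict lam h0 h1 n hn b _ _ hb (by rw [hs]; exact ha) hlt
    rw [hs, h] at h2
    exact absurd h2 (lt_irrefl _)
  · exact heq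
  · have h2 := TW_strict lam h0 h1 n hn b _ _ hb (by rw [h]; exact ha) hgt
    rw [hs, h] at h2
    exact absurd h2 (lt_irrefl _)

/-- The word function is continuous at good points. -/
theorem PP_continuousAt (lam : ℝ) (h0 : 0 ≤ lam) (h1 : lam ≤ 1 / 100) (n : ℕ) (hn : n ≠ 1)
    (a b : ℝ) (ha : Real.sin a ≠ 0) (hb : Real.sin b ≠ 0) :
    ContinuousAt (fun p : ℝ × ℝ => PP lam n p.1 p.2) (a, b) := by
  have hopen : IsOpen {p : ℝ × ℝ | Real.sin p.1 ≠ 0} :=
    isOpen_ne_fun (Real.continuous_sin.comp continuous_fst) continuous_const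
  have hs := PP_spec lam h0 h1 n hn a b hb
  have hTW : ∀ c : ℝ, ContinuousAt (fun p : ℝ × ℝ => TW lam p.2 c n) (a, b) := by
    intro c
    have h := (TW_continuous lam h0 h1 n).continuousAt
      (hopen.mem_nhds (show (b, c) ∈ _ from hb))
    exact ContinuousAt.comp (g := fun p : ℝ × ℝ => TW lam p.1 p.2 n)
      (f := fun p : ℝ × ℝ => (p.2, c)) h (by fun_prop)
  have hfst : ContinuousAt (fun p : ℝ × ℝ => p.1) (a, b) := continuous_fst.continuousAt
  have hsb : ∀ᶠ p : ℝ × ℝ in nhds (a, b), Real.sin p.2 ≠ 0 :=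
    (isOpen_ne_fun (Real.continuous_sin.comp continuous_snd) continuous_const).mem_nhds hb
  rw [Metric.continuousAt_iff']
  intro ε hε
  set p0 : ℝ := PP lam n a b with hp0
  have hε2 : 0 < ε / 2 := by positivity
  have hup : a < TW lam b (p0 + ε / 2) n := by
    have h2 := TW_strict lam h0 h1 n hn b p0 (p0 + ε / 2) hb (by rw [hs]; exact ha) (by linarith)
    rwa [hs] at h2
  have hlo : TW lam b (p0 - ε / 2) n < a := by
    refine lt_of_le_of_ne ?_ fun he => ?_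
    · have h2 := TW_mono lam b h0 h1 hb n (show p0 - ε / 2 ≤ p0 by linarith)
      simp only at h2
      rwa [hs] at h2
    · have h2 := PP_unique lam h0 h1 n hn a b _ hb ha he
      rw [← hp0] at h2
      linarith
  have e1 : ∀ᶠ p : ℝ × ℝ in nhds (a, b), p.1 < TW lam p.2 (p0 + ε / 2) n :=
    hfst.eventually_lt (hTW _) hup
  have e2 : ∀ᶠ p : ℝ × ℝ in nhds (a, b), TW lam p.2 (p0 - ε / 2) n < p.1 :=
    (hTW _).eventually_lt hfst hlo
  filter_upwards [e1, e2, hsb] with p h3 h4 h5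
  have hsp := PP_spec lam h0 h1 n hn p.1 p.2 h5
  have hle : PP lam n p.1 p.2 ≤ p0 + ε / 2 :=
    csInf_le (PP_bddBelow lam h0 h1 n hn p.1 p.2 h5) h3.le
  have hge : p0 - ε / 2 ≤ PP lam n p.1 p.2 := by
    by_contra hcon
    push Not at hcon
    have h6 := TW_mono lam p.2 h0 h1 h5 n hcon.le
    simp only at h6
    rw [hsp] at h6
    linarith
  rw [Real.dist_eq, abs_lt]
  constructor <;> linarith

theorem PP_deriv (lam : ℝ) (h0 : 0 ≤ lam) (h1 : lam ≤ 1 / 100) (n : ℕ) (hn : 2 ≤ n) (a b : ℝ)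
    (hb : Real.sin b ≠ 0) (ha : Real.sin a ≠ 0) :
    ∃ kappa : ℝ, 0 < kappa ∧ kappa ≤ 1 / (Nat.fib (n - 1) : ℝ) ∧
      HasDerivAt (fun a' => PP lam n a' b) kappa a := by
  have hn1 : n ≠ 1 := by omega
  have hs := PP_spec lam h0 h1 n hn1 a b hb
  have hx : |W lam b (PP lam n a b) n| < 1 :=
    (sin_TW_ne lam b _ hb n).1 (by rw [hs]; exact ha)
  obtain ⟨d, hd, hfd, hder, -⟩ := TW_deriv lam b (PP lam n a b) h0 h1 hb n hn1 hx
  rw [fibz_one_zero n (by omega)] at hfd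
  push_cast at hfd
  have hfib : (0 : ℝ) < (Nat.fib (n - 1) : ℝ) :=
    Nat.cast_pos.2 (Nat.fib_pos.2 (by omega))
  refine ⟨d⁻¹, inv_pos.2 hd, ?_, ?_⟩
  · rw [one_div]
    exact (inv_le_inv₀ hd hfib).2 hfd
  · have hc : ContinuousAt (fun a' => PP lam n a' b) a :=
      ContinuousAt.comp (g := fun p : ℝ × ℝ => PP lam n p.1 p.2) (f := fun a' => (a', b))
        (PP_continuousAt lam h0 h1 n hn1 a b ha hb) (by fun_prop)
    refine HasDerivAt.of_local_left_inverse (f := fun s => TW lam b s n) hc hder hd.ne' ?_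
    exact Filter.Eventually.of_forall fun y => PP_spec lam h0 h1 n hn1 y b hb

theorem sin_shift_ne (x : ℝ) (m : ℤ) (h : Real.sin x ≠ 0) : Real.sin (x + m * Real.pi) ≠ 0 := by
  rw [Real.sin_add_int_mul_pi]
  refine mul_ne_zero ?_ h
  exact zpow_ne_zero _ (by norm_num)

theorem PP_shift (lam : ℝ) (h0 : 0 ≤ lam) (h1 : lam ≤ 1 / 100) (n : ℕ) (hn : n ≠ 1) (a b : ℝ)
    (hb : Real.sin b ≠ 0) (ha : Real.sin a ≠ 0) (i j : ℤ) :
    PP lam n (a + (fibz i j n : ℝ) * Real.pi) (b + j * Real.pi) = PP lam n a b + i * Real.pi := by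
  refine PP_unique lam h0 h1 n hn _ _ _ (sin_shift_ne b j hb) (sin_shift_ne a _ ha) ?_
  rw [TW_shift b _ hb i j n, PP_spec lam h0 h1 n hn a b hb]

/-- The word function is jointly continuous. -/
theorem PP_continuous (lam : ℝ) (h0 : 0 ≤ lam) (h1 : lam ≤ 1 / 100) (n : ℕ) (hn : n ≠ 1) :
    ContinuousOn (fun p : ℝ × ℝ => PP lam n p.1 p.2) {p | Real.sin p.1 ≠ 0 ∧ Real.sin p.2 ≠ 0} :=
  fun p hp => (PP_continuousAt lam h0 h1 n hn p.1 p.2 hp.1 hp.2).continuousWithinAt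

end SF
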