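import Pool.Agent.Helper65.SF.F5b

/-!
# SF-F6: reversal of words

Proof in words.  Fix `b, psi`, `n >= 1`, `|W n| < 1`, `a = TW n`, `Q = coord .. n` (so
`r(a) cos Q = W (n-1)`, `r(a) cos (Q + a) = W (n+1)` by `coord_spec`).  The reversed sequence
`y i = W (n+1-i)`, `i <= n+1`, satisfies the same recursion, and `y 0 = r(a) cos (Q+a)`,
`y 1 = cos a`, `y 2 = r(a) cos Q`, so `W lam a (-Q-a) i = W lam b psi (n+1-i)` for `i <= n+1`.
Orientations: `oW lam a (-Q-a) i = (-1)^(i+1) oW lam b psi (n+1-i)` whenever `|..| < 1`, by the same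
induction as in `cc_unique'` (rel2, rel3 for the reversed family, rel2, rel1 for the original one; two
consecutive `>= 1` values before an elliptic one are impossible by `escape_all` of the original family
read from the left: if `|W (j)|, |W (j+1)| >= 1`, `j >= 1`, then all later ones, in particular `W n`, are
`>= 1`).  Base: `i = 1`: `oW 1 = sign (sin a)` on both sides.  `i = 0` : `sign (sin (-Q-a))` against
`- oW (n+1)`: `r(a) sin (Q+a) = (W (n) W (n+1) - W (n-1))/(- sin a)`..., use rel3.
So `exp (i TW lam a (-Q-a) k) = exp (i (-1)^(k+1) TW lam b psi (n+1-k))`, both sides satisfy the defect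
bound (7 sqrt lam <= 0.7), equal at k = 1 and at k = 0 (`T0 lam a (-Q-a) = -TW (n+1)` : both have the same
circle point and both are within `pi/2 + 0.7 < pi` of `-Q-a`: `TW (n+1)` is within 0.7 of
`TW n + TW (n-1)` and `TW (n-1)` within `pi/2` of `Q`; alternatively, use `coord_spec` : `TW lam a Q 2 =
TW lam b psi (n+1)` and the symmetry `T0 lam a (-Q-a) = - TW lam a Q 2`).  Conclude by the integer
recursion as in `lift_unique` (finite range).
-/

namespace SF

open Complex

/-! ### Auxiliary facts -/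

theorem f6_eq_of_exp (u v : ℝ) (h : Complex.exp ((u : ℂ) * I) = Complex.exp ((v : ℂ) * I))
    (hlt : |u - v| < 2 * Real.pi) : u = v := by
  obtain ⟨n, hn⟩ := Complex.exp_eq_exp_iff_exists_int.1 h
  have h1 : (u : ℂ) = v + n * (2 * Real.pi) := by
    have hI : (I : ℂ) ≠ 0 := Complex.I_ne_zero
    apply mul_right_cancel₀ hI
    rw [hn]
    ring
  have h2 : u = v + n * (2 * Real.pi) := by exact_mod_cast h1
  have hpi := Real.pi_pos
  have h3 : |(n : ℝ) * (2 * Real.pi)| < 2 * Real.pi := by
    have : u - v = (n : ℝ) * (2 * Real.pi) := by linarith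
    rwa [this] at hlt
  have h4 : |(n : ℝ)| < 1 := by
    rw [abs_mul, abs_of_pos (by positivity : (0 : ℝ) < 2 * Real.pi)] at h3
    by_contra hcon
    push Not at hcon
    nlinarith
  have h5 : n = 0 := by
    have : |n| < 1 := by exact_mod_cast h4
    exact Int.abs_lt_one_iff.1 this
  rw [h2, h5]
  simp

theorem f6_sqrt (lam : ℝ) (h1 : lam ≤ 1 / 100) : 7 * Real.sqrt lam ≤ 0.7 := by
  have h : Real.sqrt lam ≤ 1 / 10 := by
    rw [Real.sqrt_le_left (by norm_num)]
    linarith
  linarith

theorem f6_clip_sq (y : ℝ) (h : 1 ≤ |y|) : 1 - clip y ^ 2 = 0 := by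
  unfold clip
  rcases le_abs.1 h with h | h
  · rw [min_eq_left h, max_eq_right (by norm_num)]
    norm_num
  · rw [min_eq_right (by linarith), max_eq_left (by linarith)]
    norm_num

theorem f6_cpt_congr (y o o' : ℝ) (h : |y| < 1 → o = o') : cpt y o = cpt y o' := by
  by_cases hy : |y| < 1
  · rw [h hy]
  · push Not at hy
    unfold cpt
    rw [f6_clip_sq y hy]
    simp

theorem f6_cpt_conj (y o : ℝ) : (starRingEnd ℂ) (cpt y o) = cpt y (-o) := by
  apply Complex.ext
  · simp [cpt]
  · simp [cpt]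

theorem f6_conj_exp (u : ℝ) :
    (starRingEnd ℂ) (Complex.exp ((u : ℂ) * I)) = Complex.exp (((-u : ℝ) : ℂ) * I) := by
  rw [← Complex.exp_conj]
  congr 1
  simp

/-- The sign with value `1` at `0`. -/
noncomputable def f6sg (s : ℝ) : ℝ := if 0 ≤ s then 1 else -1

theorem f6sg_mul_pos (s c : ℝ) (hc : 0 < c) : f6sg (s * c) = f6sg s := by
  unfold f6sg
  by_cases h : 0 ≤ s
  · rw [if_pos h, if_pos (mul_nonneg h hc.le)]
  · rw [if_neg h, if_neg]
    push Not at h ⊢
    exact mul_neg_of_neg_of_pos h hc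

theorem f6sg_neg (s : ℝ) (h : s ≠ 0) : f6sg (-s) = -f6sg s := by
  unfold f6sg
  rcases lt_or_gt_of_ne h with h | h
  · rw [if_pos (by linarith), if_neg (by linarith)]
    norm_num
  · rw [if_neg (by linarith), if_pos (by linarith)]

theorem f6sg_self (s : ℝ) : s * f6sg s = |s| := by
  unfold f6sg
  by_cases h : 0 ≤ s
  · rw [if_pos h, abs_of_nonneg h, mul_one]
  · rw [if_neg h, abs_of_neg (by linarith)]
    ring

theorem f6sg_eq (s o : ℝ) (ho : o = 1 ∨ o = -1) (h : 0 < s * o) : f6sg s = o := by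
  unfold f6sg
  rcases ho with rfl | rfl
  · rw [if_pos (by linarith)]
  · rw [if_neg (by linarith)]

theorem f6_qq_nonneg (lam b : ℝ) (h0 : 0 ≤ lam) : 0 ≤ qq lam b := by
  unfold qq
  positivity

theorem f6_oW_zero (lam b psi : ℝ) (h0 : 0 ≤ lam) : oW lam b psi 0 = f6sg (Real.sin psi) := by
  have h1 := one_le_rr lam b
  have h2 := f6_qq_nonneg lam b h0
  have h3 : (wM lam b psi 0) 1 0 = Real.sin psi * (rr lam b + qq lam b) := by
    simp [wM, mseq, rot, hyp, Matrix.mul_apply, Fin.sum_univ_two]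
  unfold oW orient
  rw [h3]
  exact f6sg_mul_pos _ _ (by linarith)

theorem f6_oW_one (lam b psi : ℝ) : oW lam b psi 1 = f6sg (Real.sin b) := by
  have h3 : (wM lam b psi 1) 1 0 = Real.sin b := by
    simp [wM, mseq, rot]
  unfold oW orient
  rw [h3]
  rfl

theorem f6_W_zero (lam b psi : ℝ) : W lam b psi 0 = rr lam b * Real.cos psi := rfl

theorem f6_W_one (lam b psi : ℝ) : W lam b psi 1 = Real.cos b := rfl

theorem f6_W_two (lam b psi : ℝ) : W lam b psi 2 = rr lam b * Real.cos (psi + b) := rfl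

theorem f6_cos_lt (b : ℝ) (hb : Real.sin b ≠ 0) : |Real.cos b| < 1 := by
  rw [abs_lt]
  have h := Real.sin_sq_add_cos_sq b
  have h2 : 0 < Real.sin b ^ 2 := by positivity
  constructor <;> nlinarith

theorem f6_sin_ne (lam b psi : ℝ) (h : |rr lam b * Real.cos psi| < 1) : Real.sin psi ≠ 0 := by
  intro hs
  have h1 := one_le_rr lam b
  have h2 := Real.sin_sq_add_cos_sq psi
  rw [hs] at h2
  have h3 : |Real.cos psi| = 1 := by
    have : Real.cos psi ^ 2 = 1 := by nlinarith
    rw [← sq_abs] at this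
    nlinarith [abs_nonneg (Real.cos psi)]
  rw [abs_mul, h3, abs_of_pos (by linarith)] at h
  linarith

/-- `T0` at the reflected point is minus the second lift. -/
theorem T0_reflect (lam b psi : ℝ) (h0 : 0 ≤ lam) (h1 : lam ≤ 1 / 100) (hb : Real.sin b ≠ 0) :
    T0 lam b (-psi - b) = -TW lam b psi 2 := by
  have hst := St_word lam b psi hb
  apply f6_eq_of_exp
  · rw [exp_T0 b (-psi - b) hb, ← f6_conj_exp, TW_exp lam b psi hb 2]
    unfold cc
    rw [f6_cpt_conj]
    have e1 : W lam b (-psi - b) 0 = W lam b psi 2 := by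
      rw [f6_W_zero, f6_W_two, ← Real.cos_neg (psi + b)]
      congr 2
      ring
    simp only [e1]
    apply f6_cpt_congr
    intro hx
    rw [f6_oW_zero _ _ _ h0]
    have hx2 : |rr lam b * Real.cos (psi + b)| < 1 := hx
    have hs := f6_sin_ne lam b (psi + b) hx2
    have e2 : Real.sin (-psi - b) = -Real.sin (psi + b) := by
      rw [← Real.sin_neg]
      congr 1
      ring
    rw [e2, f6sg_neg _ hs]
    congr 1
    have h3 := rel3 hst 0 (f6_cos_lt b hb) hx
    simp only [zero_add] at h3
    rw [f6_oW_one, f6_W_zero, f6_W_one, f6_W_two] at h3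
    apply f6sg_eq _ _ (hst.ori 2)
    have hr := one_le_rr lam b
    have e3 : Real.cos psi = Real.cos (psi + b) * Real.cos b + Real.sin (psi + b) * Real.sin b := by
      rw [← Real.cos_sub]
      congr 1
      ring
    have e4 : (rr lam b * Real.cos psi - Real.cos b * (rr lam b * Real.cos (psi + b))) *
        (f6sg (Real.sin b) * oW lam b psi 2) =
        (rr lam b * |Real.sin b|) * (Real.sin (psi + b) * oW lam b psi 2) := by
      rw [← f6sg_self, e3]
      ring
    rw [e4] at h3
    have h5 : 0 < rr lam b * |Real.sin b| := mul_pos (by linarith) (abs_pos.2 hb)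
    exact (pos_iff_pos_of_mul_pos h3).1 h5
  · have h2 := T0_near (lam := lam) b (-psi - b) hb
    have h3 := T0_near (lam := lam) b psi hb
    have h4 := TW_defect lam b psi h0 h1 hb 0
    have h5 := f6_sqrt lam h1
    have h6 : TW lam b psi 0 = T0 lam b psi := rfl
    have h7 := TW_one lam b psi
    simp only [zero_add] at h4
    rw [h6, h7] at h4
    have hpi := Real.pi_gt_three
    rw [abs_lt] at h2 h3 ⊢
    have h8 := abs_le.1 (h4.trans h5)
    constructor <;> linarith [h8.1, h8.2, h2.1, h2.2, h3.1, h3.2]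

theorem f6_coord (lam b psi : ℝ) (h0 : 0 ≤ lam) (h1 : lam ≤ 1 / 100) (hb : Real.sin b ≠ 0)
    (n : ℕ) (hn : 1 ≤ n) (hx : |W lam b psi n| < 1) (a Q : ℝ) (ha : a = TW lam b psi n)
    (hQ : Q = coord (fun j => W lam b psi j) (fun j => TW lam b psi j) n) (i : ℕ) :
    W lam a Q i = W lam b psi (n - 1 + i) ∧ TW lam a Q i = TW lam b psi (n - 1 + i) := by
  have h := coord_spec (St_word lam b psi hb) h0 h1 (T0 lam b psi) b
    (exp_T0 b psi hb) (exp_T1 b psi hb) n hn hx i
  rw [hQ, ha]
  exact h

theorem W_reverse (lam b psi : ℝ) (h0 : 0 ≤ lam) (h1 : lam ≤ 1 / 100) (hb : Real.sin b ≠ 0)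
    (n : ℕ) (hn : 1 ≤ n) (hx : |W lam b psi n| < 1) (a Q : ℝ) (ha : a = TW lam b psi n)
    (hQ : Q = coord (fun j => W lam b psi j) (fun j => TW lam b psi j) n) (k : ℕ) (hk : k ≤ n + 1) :
    W lam a (-Q - a) k = W lam b psi (n + 1 - k) := by
  have hc := f6_coord lam b psi h0 h1 hb n hn hx a Q ha hQ
  have c0 := (hc 0).1
  have c1 := (hc 1).1
  have c2 := (hc 2).1
  rw [f6_W_zero] at c0
  rw [f6_W_one] at c1
  rw [f6_W_two] at c2
  have hst := St_word lam b psi hb
  have e0 : W lam a (-Q - a) 0 = W lam b psi (n + 1 - 0) := by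
    rw [f6_W_zero, show n + 1 - 0 = n - 1 + 2 by omega, ← c2, ← Real.cos_neg (Q + a)]
    congr 2
    ring
  have e1 : W lam a (-Q - a) 1 = W lam b psi (n + 1 - 1) := by
    rw [f6_W_one, show n + 1 - 1 = n - 1 + 1 by omega, ← c1]
  have e2 : W lam a (-Q - a) 2 = W lam b psi (n + 1 - 2) := by
    rw [f6_W_two, show n + 1 - 2 = n - 1 + 0 by omega, ← c0, ← Real.cos_neg Q]
    congr 2
    ring
  induction k using Nat.strong_induction_on with
  | _ k ih =>
    match k, hk, ih with
    | 0, _, _ => exact e0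
    | 1, _, _ => exact e1
    | 2, _, _ => exact e2
    | (k + 3), hk, ih =>
      have i0 := ih k (by omega) (by omega)
      have i1 := ih (k + 1) (by omega) (by omega)
      have i2 := ih (k + 2) (by omega) (by omega)
      have r1 : W lam a (-Q - a) (k + 3)
          = 2 * W lam a (-Q - a) (k + 2) * W lam a (-Q - a) (k + 1) - W lam a (-Q - a) k := rfl
      obtain ⟨m, hm⟩ : ∃ m, n + 1 = m + (k + 3) := ⟨n + 1 - (k + 3), by omega⟩
      have r2 := hst.rec3 m
      rw [r1, i0, i1, i2, show n + 1 - (k + 2) = m + 1 by omega, show n + 1 - (k + 1) = m + 2 by omega,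
        show n + 1 - k = m + 3 by omega, show n + 1 - (k + 3) = m by omega, r2]
      ring

theorem f6_neg_one_pow (k : ℕ) : ((-1 : ℝ)) ^ k = 1 ∨ ((-1 : ℝ)) ^ k = -1 := neg_one_pow_eq_or ℝ k

/-- Circle points and lifts with signs. -/
theorem f6_exp_sign (u : ℝ) (x o e : ℝ) (he : e = 1 ∨ e = -1)
    (h : Complex.exp ((u : ℂ) * I) = cpt x o) :
    Complex.exp (((e * u : ℝ) : ℂ) * I) = cpt x (e * o) := by
  rcases he with rfl | rfl
  · rw [one_mul, one_mul, h]
  · rw [neg_one_mul, neg_one_mul, ← f6_cpt_conj, ← h, f6_conj_exp]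

theorem TW_reverse (lam b psi : ℝ) (h0 : 0 ≤ lam) (h1 : lam ≤ 1 / 100) (hb : Real.sin b ≠ 0)
    (n : ℕ) (hn : 1 ≤ n) (hx : |W lam b psi n| < 1) (a Q : ℝ) (ha : a = TW lam b psi n)
    (hQ : Q = coord (fun j => W lam b psi j) (fun j => TW lam b psi j) n) (k : ℕ) (hk : k ≤ n + 1) :
    TW lam a (-Q - a) k = (-1) ^ (k + 1) * TW lam b psi (n + 1 - k) := by
  have hsa : Real.sin a ≠ 0 := by
    rw [ha]
    exact (sin_TW_ne lam b psi hb n).2 hx
  have hc := f6_coord lam b psi h0 h1 hb n hn hx a Q ha hQ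
  have hW := W_reverse lam b psi h0 h1 hb n hn hx a Q ha hQ
  have hst := St_word lam b psi hb
  have hst' := St_word lam a (-Q - a) hsa
  have hsq := f6_sqrt lam h1
  have e0 : TW lam a (-Q - a) 0 = (-1) ^ (0 + 1) * TW lam b psi (n + 1 - 0) := by
    have h2 : TW lam a (-Q - a) 0 = T0 lam a (-Q - a) := rfl
    rw [h2, T0_reflect lam a Q h0 h1 hsa, (hc 2).2, show n + 1 - 0 = n - 1 + 2 by omega]
    ring
  have e1 : TW lam a (-Q - a) 1 = (-1) ^ (1 + 1) * TW lam b psi (n + 1 - 1) := by
    rw [TW_one, show n + 1 - 1 = n by omega, ← ha]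
    ring
  -- orientations
  have hori : ∀ j, j ≤ n + 1 → TW lam a (-Q - a) j = (-1) ^ (j + 1) * TW lam b psi (n + 1 - j) →
      |W lam b psi (n + 1 - j)| < 1 →
      oW lam a (-Q - a) j = (-1) ^ (j + 1) * oW lam b psi (n + 1 - j) := by
    intro j hj hT hlt
    have h2 := TW_exp lam a (-Q - a) hsa j
    have h3 := f6_exp_sign _ _ _ _ (f6_neg_one_pow (j + 1)) (TW_exp lam b psi hb (n + 1 - j))
    unfold cc at h2
    rw [hT, h3] at h2
    simp only [hW j hj] at h2
    have h4 := congrArg Complex.im h2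
    simp only [cpt] at h4
    have h5 : 0 < Real.sqrt (1 - clip (W lam b psi (n + 1 - j)) ^ 2) := by
      rw [clip_of_lt hlt, Real.sqrt_pos]
      rw [abs_lt] at hlt
      nlinarith [hlt.1, hlt.2]
    exact (mul_right_cancel₀ h5.ne' h4).symm
  induction k using Nat.strong_induction_on with
  | _ k ih =>
    match k, hk, ih with
    | 0, _, _ => exact e0
    | 1, _, _ => exact e1
    | (k + 2), hk, ih =>
      have i0 := ih k (by omega) (by omega)
      have i1 := ih (k + 1) (by omega) (by omega)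
      obtain ⟨m, hm⟩ : ∃ m, n + 1 = m + (k + 2) := ⟨n + 1 - (k + 2), by omega⟩
      have w0 := hW k (by omega)
      have w1 := hW (k + 1) (by omega)
      have w2 := hW (k + 2) (by omega)
      have o0 := hori k (by omega) i0
      have o1 := hori (k + 1) (by omega) i1
      rw [show n + 1 - k = m + 2 by omega] at i0 w0 o0
      rw [show n + 1 - (k + 1) = m + 1 by omega] at i1 w1 o1
      rw [show n + 1 - (k + 2) = m by omega] at w2 ⊢
      apply f6_eq_of_exp
      · rw [TW_exp lam a (-Q - a) hsa (k + 2),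
          f6_exp_sign _ _ _ _ (f6_neg_one_pow (k + 2 + 1)) (TW_exp lam b psi hb m)]
        unfold cc
        simp only [w2]
        apply f6_cpt_congr
        intro hlt
        by_cases hx1 : |W lam b psi (m + 1)| < 1
        · -- rel3 for the reversed family, rel1 for the original one
          have q1 := rel3 hst' k (by simp only [w1]; exact hx1) (by simp only [w2]; exact hlt)
          have q2 := hst.rel1 m hlt hx1
          simp only [w0, w1, w2] at q1
          rw [o1 hx1] at q1
          rcases hst.ori m with hm1 | hm1 <;> rcases hst.ori (m + 1) with hm2 | hm2 <;>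
          rcases hst'.ori (k + 2) with hm3 | hm3 <;>
          rcases f6_neg_one_pow k with hm4 | hm4 <;>
          simp only [pow_succ, hm1, hm2, hm3, hm4] at q1 q2 ⊢ <;>
          first
            | (norm_num; done)
            | (exfalso; linarith)
        · by_cases hx2 : |W lam b psi (m + 2)| < 1
          · have q1 := hst'.rel2 k (by simp only [w0]; exact hx2) (by simp only [w2]; exact hlt)
            have q2 := hst.rel2 m hlt hx2
            simp only [w0, w1, w2] at q1
            rw [o0 hx2] at q1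
            rcases hst.ori m with hm1 | hm1 <;> rcases hst.ori (m + 2) with hm2 | hm2 <;>
            rcases hst'.ori (k + 2) with hm3 | hm3 <;>
            rcases f6_neg_one_pow k with hm4 | hm4 <;>
            simp only [pow_succ, hm1, hm2, hm3, hm4] at q1 q2 ⊢ <;>
            first
              | (norm_num; done)
              | (exfalso; linarith)
          · exfalso
            push Not at hx1 hx2
            have := escape_all hst m hx1 hx2 n (by omega)
            linarith
      · have d1 := TW_defect lam a (-Q - a) h0 h1 hsa k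
        have d2 := TW_defect lam b psi h0 h1 hb m
        rw [i0, i1] at d1
        have d3 := abs_le.1 (d1.trans hsq)
        have d4 := abs_le.1 (d2.trans hsq)
        have hpi := Real.pi_gt_three
        rw [abs_lt]
        rcases f6_neg_one_pow k with hm4 | hm4 <;>
        simp only [pow_succ, hm4] at d3 ⊢ <;>
        constructor <;> linarith [d3.1, d3.2, d4.1, d4.2]

/-- Reversal in terms of the word functions. -/
theorem QQ_eq (lam : ℝ) (h0 : 0 ≤ lam) (h1 : lam ≤ 1 / 100) (n : ℕ) (hn : 2 ≤ n) (a b : ℝ)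
    (hb : Real.sin b ≠ 0) (ha : Real.sin a ≠ 0) :
    QQ lam n a b = -a - PP lam n ((-1) ^ (n + 1) * b) a := by
  have hs := PP_spec lam h0 h1 n (by omega) a b hb
  have hx : |W lam b (PP lam n a b) n| < 1 := by
    apply (sin_TW_ne lam b (PP lam n a b) hb n).1
    rw [hs]
    exact ha
  have hr := TW_reverse lam b (PP lam n a b) h0 h1 hb n (by omega) hx a (QQ lam n a b) hs.symm rfl n
    (by omega)
  rw [show n + 1 - n = 1 by omega, TW_one] at hr
  have hsb : Real.sin ((-1) ^ (n + 1) * b) ≠ 0 := by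
    rcases f6_neg_one_pow (n + 1) with h | h <;> rw [h]
    · rwa [one_mul]
    · rw [neg_one_mul, Real.sin_neg]
      exact neg_ne_zero.2 hb
  have hp := PP_unique lam h0 h1 n (by omega) _ a _ ha hsb hr
  rw [hp]
  ring

theorem f6_W_neg (lam b psi : ℝ) (k : ℕ) : W lam (-b) (-psi) k = W lam b psi k := by
  unfold W
  have hr : rr lam (-b) = rr lam b := by
    unfold rr qq
    rw [Real.sin_neg, abs_neg]
  rw [hr, Real.cos_neg, Real.cos_neg, show -psi + -b = -(psi + b) by ring, Real.cos_neg]

theorem f6_TW_neg (lam b psi : ℝ) (h0 : 0 ≤ lam) (h1 : lam ≤ 1 / 100) (hb : Real.sin b ≠ 0) (k : ℕ) :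
    TW lam (-b) (-psi) k = -TW lam b psi k := by
  have hb' : Real.sin (-b) ≠ 0 := by
    rw [Real.sin_neg]
    exact neg_ne_zero.2 hb
  have hst := St_word lam b psi hb
  have hst1 := St_word lam (-b) (-psi) hb'
  have hWn : (fun j => W lam (-b) (-psi) j) = fun j => W lam b psi j := by
    funext j
    exact f6_W_neg lam b psi j
  rw [hWn] at hst1
  have hst2 : St lam (fun j => W lam b psi j) (fun j => -oW lam b psi j) := by
    refine ⟨hst.rec3, hst.inv, ?_, ?_, ?_, hst.start⟩
    · intro k
      rcases hst.ori k with h | h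
      · right
        rw [h]
      · left
        rw [h]
        norm_num
    · intro k p q
      have := hst.rel1 k p q
      rw [neg_mul_neg]
      exact this
    · intro k p q
      have := hst.rel2 k p q
      rw [neg_mul_neg]
      exact this
  have hcc : ∀ j, cc (fun j => W lam b psi j) (fun j => oW lam (-b) (-psi) j) j
      = cc (fun j => W lam b psi j) (fun j => -oW lam b psi j) j := by
    intro j
    apply cc_unique' hst1 hst2 (f6_cos_lt b hb)
    · unfold cc
      apply f6_cpt_congr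
      intro hlt
      simp only
      rw [f6_oW_zero _ _ _ h0, f6_oW_zero _ _ _ h0, Real.sin_neg, f6sg_neg]
      exact f6_sin_ne lam b psi hlt
    · unfold cc
      apply f6_cpt_congr
      intro hlt
      simp only
      rw [f6_oW_one, f6_oW_one, Real.sin_neg, f6sg_neg _ hb]
  have hexp : ∀ j, Complex.exp ((TW lam (-b) (-psi) j : ℂ) * I)
      = Complex.exp (((-TW lam b psi j : ℝ) : ℂ) * I) := by
    intro j
    rw [TW_exp lam (-b) (-psi) hb' j, hWn, hcc j, ← f6_conj_exp, TW_exp lam b psi hb j]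
    unfold cc
    rw [f6_cpt_conj]
  have hpi := Real.pi_gt_three
  have hsq := f6_sqrt lam h1
  have ht0 : TW lam (-b) (-psi) 0 = -TW lam b psi 0 := by
    apply f6_eq_of_exp _ _ (hexp 0)
    have h2 := T0_near (lam := lam) (-b) (-psi) hb'
    have h3 := T0_near (lam := lam) b psi hb
    have h4 : TW lam (-b) (-psi) 0 = T0 lam (-b) (-psi) := rfl
    have h5 : TW lam b psi 0 = T0 lam b psi := rfl
    rw [h4, h5]
    rw [abs_lt] at h2 h3 ⊢
    constructor <;> linarith [h2.1, h2.2, h3.1, h3.2]
  refine lift_unique (fun j => TW lam (-b) (-psi) j) (fun j => -TW lam b psi j) 0.7 (by norm_num)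
    ?_ ?_ ?_ ht0 ?_ k
  · intro k
    exact (TW_defect lam (-b) (-psi) h0 h1 hb' k).trans hsq
  · intro k
    have := (TW_defect lam b psi h0 h1 hb k).trans hsq
    rw [show -TW lam b psi (k + 2) - -TW lam b psi (k + 1) - -TW lam b psi k
      = -(TW lam b psi (k + 2) - TW lam b psi (k + 1) - TW lam b psi k) by ring, abs_neg]
    exact this
  · intro k
    exact hexp k
  · rfl

theorem f6_PP_neg (lam : ℝ) (h0 : 0 ≤ lam) (h1 : lam ≤ 1 / 100) (n : ℕ) (hn : 2 ≤ n) (a b : ℝ)
    (hb : Real.sin b ≠ 0) (ha : Real.sin a ≠ 0) : PP lam n (-a) (-b) = -PP lam n a b := by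
  have hs := PP_spec lam h0 h1 n (by omega) a b hb
  apply PP_unique lam h0 h1 n (by omega)
  · rw [Real.sin_neg]
    exact neg_ne_zero.2 hb
  · rw [Real.sin_neg]
    exact neg_ne_zero.2 ha
  · rw [f6_TW_neg lam b _ h0 h1 hb, hs]

/-- The coordinate at index `n` of the reversed word. -/
theorem QQ_reverse (lam : ℝ) (h0 : 0 ≤ lam) (h1 : lam ≤ 1 / 100) (n : ℕ) (hn : 2 ≤ n) (a b : ℝ)
    (hb : Real.sin b ≠ 0) (ha : Real.sin a ≠ 0) :
    QQ lam n ((-1) ^ (n + 1) * b) a = (-1) ^ n * (PP lam n a b + b) := by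
  have hsb : Real.sin ((-1) ^ (n + 1) * b) ≠ 0 := by
    rcases f6_neg_one_pow (n + 1) with h | h <;> rw [h]
    · rwa [one_mul]
    · rw [neg_one_mul, Real.sin_neg]
      exact neg_ne_zero.2 hb
  rw [QQ_eq lam h0 h1 n hn _ a ha hsb]
  rcases f6_neg_one_pow n with h | h
  · rw [pow_succ, h]
    simp only [one_mul, neg_mul, mul_neg, mul_one]
    rw [f6_PP_neg lam h0 h1 n hn a b hb ha]
    ring
  · rw [pow_succ, h]
    norm_num
    ring

end SF
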