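import Mathlib

/-!
# SF-FD: Fourier decay from affine similarity of pieces (abstract)

Proof in words.  `e(x) = exp (i x)`.  `|xi| = X`.  `E_q s = E (fract (s + q al))`.
`int_0^1 e(xi E) = (1/Q) sum_q int_0^1 e(xi E_q)` (translation mod 1 preserves Lebesgue measure).  Restrict to the
pieces (error eps0), to good pairs (error 2 eps0), to T (error eps0), replace `E_q` on the piece by
`c_iq + exp(D_iq)(E - E_i)` (error eps0): `|int| <= 5 eps0 + sum_i (1/Q) sum_{q good} |g_i(xi exp(D_iq))|`,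
`g_i(eta) = int_{J_i cap T} e(eta (E s - Ec i)) ds`, `|g_i| <= |J_i|`.
Cauchy-Schwarz twice: the sum is `<= (sum_i |J_i|^(-1) (1/Q) sum_q ph_i(D_iq))^(1/2)`, `ph_i(v) = |g_i(xi e^v)|^2 <= |J_i|^2`.
`|ph_i(v) - ph_i(v')| <= 2 |J_i|^2 X e^(Gam+1) rho |v - v'|` for `|v|,|v'| <= Gam+1`, so with averaging over `|v - D_iq| <= r`:
`(1/Q) sum_q ph_i(D_iq) <= int ph_i w_i dv + 6 |J_i|^2 eps0`, `w_i(v) = (1/Q) #{q good : |v - D_iq| <= r}/(2r)`.
`int ph_i w_i <= (int_{|v|<=Gam+1} ph_i^2)^(1/2) (int w_i^2)^(1/2)`, `ph_i^2 <= |J_i|^2 ph_i`,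
`int w_i^2 <= (1/(2r)) (1/Q^2) #{(q,q') good : |D_iq - D_iq'| <= 2r}`.
`int_{|v|<=Gam+1} ph_i dv <= (e^(Gam+1)/X) int_{|eta| <= X e^(Gam+1)} |g_i(eta)|^2 d eta <= C (e^(Gam+1)/X) |J_i| D`, because
for `Y = X e^(Gam+1)`: `1_{|eta|<=Y} <= 2 (1 - |eta|/(2Y))^+`, whose Fourier transform is the Fejer kernel
`0 <= K(x) <= C Y min(1, 1/(Y x)^2)`, and `int int K(E s - E s')` over `J_i cap T` is
`<= C Y |J_i| sum_a 4^(-a) sup_x vol{s in J_i cap T : |E s - x| <= 2^a/Y} <= C |J_i| D` (the hypothesis at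
scale `h0 = e^(-Gam-1)/X <= 1/Y`... note `1/Y = h0`; larger radii by covering).
Sum over i: `sum_i |J_i|^(-1) |J_i| (C e^Gam |J_i| D/X)^(1/2) (int w_i^2)^(1/2)
<= (C e^Gam D/X)^(1/2) (number of pieces)^(1/2) (sum_i |J_i| int w_i^2)^(1/2)`.
Total: `|int| <= C (eps0^(1/2) + (D e^Gam N kap1/(X r))^(1/4))`.
-/

namespace SF

open MeasureTheory Classical

/-- Pointwise bound of a Gaussian by a sum over shells. -/
theorem fd_shell (y : ℝ) : ENNReal.ofReal (Real.exp (-y ^ 2 / 4)) ≤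
    ∑' n : ℕ, ENNReal.ofReal (Real.exp (1 / 4)) * ENNReal.ofReal (Real.exp (-1 / 2)) ^ n *
      (Set.indicator {z : ℝ | |z - (n + 1 / 2)| ≤ 1} 1 y
        + Set.indicator {z : ℝ | |z + (n + 1 / 2)| ≤ 1} 1 y) := by
  have hf := Nat.floor_le (abs_nonneg y)
  have hf2 := Nat.lt_floor_add_one |y|
  set n := ⌊|y|⌋₊
  refine le_trans ?_ (ENNReal.le_tsum n)
  have h1 : (1 : ENNReal) ≤ Set.indicator {z : ℝ | |z - (n + 1 / 2)| ≤ 1} 1 y
        + Set.indicator {z : ℝ | |z + (n + 1 / 2)| ≤ 1} 1 y := by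
    rcases le_total 0 y with hy | hy
    · rw [abs_of_nonneg hy] at hf hf2
      have : y ∈ {z : ℝ | |z - (n + 1 / 2)| ≤ 1} := by
        rw [Set.mem_ofPred_eq, abs_le]
        constructor <;> linarith
      rw [Set.indicator_of_mem this]
      simp
    · rw [abs_of_nonpos hy] at hf hf2
      have : y ∈ {z : ℝ | |z + (n + 1 / 2)| ≤ 1} := by
        rw [Set.mem_ofPred_eq, abs_le]
        constructor <;> linarith
      rw [Set.indicator_of_mem this]
      simp
  calc ENNReal.ofReal (Real.exp (-y ^ 2 / 4))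
      ≤ ENNReal.ofReal (Real.exp (1 / 4) * Real.exp (-1 / 2) ^ n) := by
        apply ENNReal.ofReal_le_ofReal
        rw [← Real.exp_nat_mul, ← Real.exp_add]
        apply Real.exp_le_exp.2
        have hy2 : y ^ 2 = |y| ^ 2 := (sq_abs y).symm
        have hn : (0 : ℝ) ≤ n := Nat.cast_nonneg n
        have h3 : (n : ℝ) ^ 2 ≤ y ^ 2 := by
          rw [hy2]
          exact pow_le_pow_left₀ hn hf 2
        nlinarith [sq_nonneg ((n : ℝ) - 1)]
    _ = ENNReal.ofReal (Real.exp (1 / 4)) * ENNReal.ofReal (Real.exp (-1 / 2)) ^ n := by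
        rw [ENNReal.ofReal_mul (Real.exp_pos _).le, ENNReal.ofReal_pow (Real.exp_pos _).le]
    _ ≤ _ := by
        conv_lhs => rw [← mul_one (ENNReal.ofReal (Real.exp (1 / 4)) * _)]
        gcongr

/-- Gaussian averages from bounds on the measure of level strips. -/
theorem fd_gauss (mu : Measure ℝ) (f : ℝ → ℝ) (hf : Measurable f) (Y D : ℝ)
    (hY : 0 < Y) (hD : 0 ≤ D) (h : ∀ x : ℝ, mu {s | |f s - x| ≤ 1 / Y} ≤ ENNReal.ofReal (D / Y))
    (x : ℝ) : ∫ s, Real.exp (-(Y * (f s - x)) ^ 2 / 4) ∂mu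
      ≤ 2 * Real.exp (1 / 4) * (1 - Real.exp (-1 / 2))⁻¹ * (D / Y) := by
  have hr : Real.exp (-1 / 2) < 1 := by
    rw [Real.exp_lt_one_iff]
    norm_num
  have hr0 : 0 < 1 - Real.exp (-1 / 2) := by linarith
  have hm : Measurable (fun s => Y * (f s - x)) := (hf.sub_const x).const_mul Y
  have hset : ∀ c : ℝ, MeasurableSet {s | |Y * (f s - x) - c| ≤ 1} := fun c =>
    measurableSet_le (hm.sub_const c).abs measurable_const
  have hmu : ∀ c : ℝ, mu {s | |Y * (f s - x) - c| ≤ 1} ≤ ENNReal.ofReal (D / Y) := by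
    intro c
    refine le_trans (measure_mono ?_) (h (x + c / Y))
    intro s hs
    rw [Set.mem_ofPred_eq] at hs ⊢
    rw [le_div_iff₀ hY]
    have : |f s - (x + c / Y)| * Y = |Y * (f s - x) - c| := by
      rw [← abs_of_pos hY, ← abs_mul, abs_of_pos hY]
      congr 1
      field_simp
      ring
    rw [this]
    exact hs
  rw [integral_eq_lintegral_of_nonneg_ae (Filter.Eventually.of_forall fun s => (Real.exp_pos _).le)
    (Measurable.aestronglyMeasurable (by fun_prop))]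
  apply ENNReal.toReal_le_of_le_ofReal (by positivity)
  calc ∫⁻ s, ENNReal.ofReal (Real.exp (-(Y * (f s - x)) ^ 2 / 4)) ∂mu
      ≤ ∫⁻ s, ∑' n : ℕ, ENNReal.ofReal (Real.exp (1 / 4)) * ENNReal.ofReal (Real.exp (-1 / 2)) ^ n *
      (Set.indicator {z : ℝ | |z - (n + 1 / 2)| ≤ 1} 1 (Y * (f s - x))
        + Set.indicator {z : ℝ | |z + (n + 1 / 2)| ≤ 1} 1 (Y * (f s - x))) ∂mu :=
        lintegral_mono fun s => fd_shell _
    _ = ∑' n : ℕ, ∫⁻ s, ENNReal.ofReal (Real.exp (1 / 4)) *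
        ENNReal.ofReal (Real.exp (-1 / 2)) ^ n *
      (Set.indicator {z : ℝ | |z - (n + 1 / 2)| ≤ 1} 1 (Y * (f s - x))
        + Set.indicator {z : ℝ | |z + (n + 1 / 2)| ≤ 1} 1 (Y * (f s - x))) ∂mu := by
        apply lintegral_tsum
        intro n
        have h1 : MeasurableSet {z : ℝ | |z - (n + 1 / 2)| ≤ 1} :=
          measurableSet_le (measurable_id.sub_const _).abs measurable_const
        have h2 : MeasurableSet {z : ℝ | |z + (n + 1 / 2)| ≤ 1} :=
          measurableSet_le (measurable_id.add_const _).abs measurable_const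
        exact (((((measurable_const.indicator h1).comp hm).add
          ((measurable_const.indicator h2).comp hm))).const_mul _).aemeasurable
    _ ≤ ∑' n : ℕ, ENNReal.ofReal (Real.exp (1 / 4)) *
        ENNReal.ofReal (Real.exp (-1 / 2)) ^ n * (2 * ENNReal.ofReal (D / Y)) := by
        apply ENNReal.tsum_le_tsum
        intro n
        have e1 : ∀ s, (Set.indicator {z : ℝ | |z - (n + 1 / 2)| ≤ 1} (1 : ℝ → ENNReal)
            (Y * (f s - x)) + Set.indicator {z : ℝ | |z + (n + 1 / 2)| ≤ 1} 1 (Y * (f s - x)))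
            = Set.indicator {s | |Y * (f s - x) - (n + 1 / 2)| ≤ 1} 1 s
              + Set.indicator {s | |Y * (f s - x) - (-(n + 1 / 2))| ≤ 1} 1 s := by
          intro s
          simp only [Set.indicator, Set.mem_ofPred_eq, sub_neg_eq_add, Pi.one_apply]
        simp only [e1]
        rw [lintegral_const_mul' _ _ (by finiteness), lintegral_add_left
          (measurable_one.indicator (hset _)), lintegral_indicator_one (hset _),
          lintegral_indicator_one (hset _), two_mul]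
        gcongr
        · exact hmu _
        · exact hmu _
    _ = ENNReal.ofReal (2 * Real.exp (1 / 4) * (1 - Real.exp (-1 / 2))⁻¹ * (D / Y)) := by
        rw [ENNReal.tsum_mul_right, ENNReal.tsum_mul_left, ENNReal.tsum_geometric]
        rw [show (1 : ENNReal) - ENNReal.ofReal (Real.exp (-1 / 2))
          = ENNReal.ofReal (1 - Real.exp (-1 / 2)) by
            rw [ENNReal.ofReal_sub _ (Real.exp_pos _).le, ENNReal.ofReal_one],
          ← ENNReal.ofReal_inv_of_pos hr0]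
        rw [show (2 : ENNReal) = ENNReal.ofReal 2 by simp, ← ENNReal.ofReal_mul (by positivity),
          ← ENNReal.ofReal_mul (by positivity), ← ENNReal.ofReal_mul (by positivity)]
        congr 1
        ring

/-- The exponential sum of a measure along `f - c`. -/
noncomputable def fdg (mu : Measure ℝ) (f : ℝ → ℝ) (c eta : ℝ) : ℂ :=
  ∫ s, Complex.exp ((eta * (f s - c) : ℝ) * Complex.I) ∂mu

theorem fd_norm_exp (x : ℝ) : ‖Complex.exp ((x : ℂ) * Complex.I)‖ = 1 :=
  Complex.norm_exp_ofReal_mul_I x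

theorem fd_exp_sub (x y : ℝ) :
    ‖Complex.exp ((x : ℂ) * Complex.I) - Complex.exp ((y : ℂ) * Complex.I)‖ ≤ |x - y| := by
  have h : Complex.exp ((x : ℂ) * Complex.I) - Complex.exp ((y : ℂ) * Complex.I)
      = Complex.exp ((y : ℂ) * Complex.I) * (Complex.exp (Complex.I * ((x - y : ℝ) : ℂ)) - 1) := by
    rw [mul_sub, ← Complex.exp_add, mul_one]
    congr 2
    push_cast
    ring
  rw [h, norm_mul, fd_norm_exp, one_mul]
  exact Real.norm_exp_I_mul_ofReal_sub_one_le

theorem fd_meas (f : ℝ → ℝ) (hf : Measurable f) (c eta : ℝ) :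
    Measurable (fun s => Complex.exp ((eta * (f s - c) : ℝ) * Complex.I)) := by
  fun_prop

theorem fd_integrable (mu : Measure ℝ) [IsFiniteMeasure mu] (f : ℝ → ℝ) (hf : Measurable f)
    (c eta : ℝ) : Integrable (fun s => Complex.exp ((eta * (f s - c) : ℝ) * Complex.I)) mu := by
  apply Integrable.of_bound (fd_meas f hf c eta).aestronglyMeasurable 1
  exact Filter.Eventually.of_forall fun s => (fd_norm_exp _).le

theorem fdg_le (mu : Measure ℝ) [IsFiniteMeasure mu] (f : ℝ → ℝ) (c eta : ℝ) :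
    ‖fdg mu f c eta‖ ≤ mu.real Set.univ := by
  unfold fdg
  refine (norm_integral_le_of_norm_le_const (C := 1)
    (Filter.Eventually.of_forall fun s => (fd_norm_exp _).le)).trans ?_
  rw [one_mul]

theorem fdg_sq (mu : Measure ℝ) [IsFiniteMeasure mu] (f : ℝ → ℝ) (c eta : ℝ) :
    ((‖fdg mu f c eta‖ ^ 2 : ℝ) : ℂ)
      = ∫ z, Complex.exp ((eta * (f z.1 - f z.2) : ℝ) * Complex.I) ∂(mu.prod mu) := by
  have h1 : ((‖fdg mu f c eta‖ ^ 2 : ℝ) : ℂ) = fdg mu f c eta * (starRingEnd ℂ) (fdg mu f c eta) := by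
    rw [Complex.mul_conj, Complex.normSq_eq_norm_sq]
  rw [h1]
  unfold fdg
  rw [← integral_conj, ← integral_prod_mul]
  congr 1
  funext z
  rw [← Complex.exp_conj, ← Complex.exp_add]
  congr 1
  simp only [map_mul, Complex.conj_ofReal, Complex.conj_I]
  push_cast
  ring

/-- The inner Gaussian integral. -/
theorem fd_inner (Y x : ℝ) (hY : 0 < Y) :
    ‖∫ eta : ℝ, ((Real.exp (-(eta / Y) ^ 2) : ℝ) : ℂ) * Complex.exp ((eta * x : ℝ) * Complex.I)‖
      = Real.sqrt Real.pi * Y * Real.exp (-(Y * x) ^ 2 / 4) := by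
  have hb : 0 < (((1 / Y ^ 2 : ℝ) : ℂ)).re := by
    rw [Complex.ofReal_re]
    positivity
  have h := fourierIntegral_gaussian hb (x : ℂ)
  have e1 : (∫ eta : ℝ, ((Real.exp (-(eta / Y) ^ 2) : ℝ) : ℂ) *
      Complex.exp ((eta * x : ℝ) * Complex.I)) = ∫ eta : ℝ, Complex.exp (Complex.I * x * eta) *
        Complex.exp (-((1 / Y ^ 2 : ℝ) : ℂ) * eta ^ 2) := by
    congr 1
    funext eta
    rw [mul_comm]
    congr 1
    · congr 1
      push_cast
      ring
    · rw [Complex.ofReal_exp]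
      congr 1
      push_cast
      ring
  rw [e1, h, norm_mul]
  congr 1
  · have e2 : ((Real.pi : ℂ) / ((1 / Y ^ 2 : ℝ) : ℂ)) = ((Real.pi * Y ^ 2 : ℝ) : ℂ) := by
      push_cast
      field_simp
    rw [e2]
    have e3 : ((1 / 2 : ℂ)) = ((1 / 2 : ℝ) : ℂ) := by push_cast; rfl
    rw [e3, ← Complex.ofReal_cpow (by positivity), Complex.norm_real, Real.norm_eq_abs,
      abs_of_nonneg (by positivity), ← Real.sqrt_eq_rpow, Real.sqrt_mul Real.pi_pos.le,
      Real.sqrt_sq hY.le]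
  · have e4 : (-(x : ℂ) ^ 2 / (4 * ((1 / Y ^ 2 : ℝ) : ℂ))) = ((-(Y * x) ^ 2 / 4 : ℝ) : ℂ) := by
      push_cast
      field_simp
    rw [e4, ← Complex.ofReal_exp, Complex.norm_real, Real.norm_eq_abs, abs_of_pos (Real.exp_pos _)]

/-- `L^2` bound of the exponential integral. -/
theorem fd_L2 (mu : Measure ℝ) [IsFiniteMeasure mu] (f : ℝ → ℝ) (hf : Measurable f) (Y D c : ℝ)
    (hY : 0 < Y) (hD : 0 ≤ D) (h : ∀ x : ℝ, mu {s | |f s - x| ≤ 1 / Y} ≤ ENNReal.ofReal (D / Y)) :
    ∫ eta : ℝ, Real.exp (-(eta / Y) ^ 2) * ‖fdg mu f c eta‖ ^ 2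
      ≤ Real.sqrt Real.pi * (2 * Real.exp (1 / 4) * (1 - Real.exp (-1 / 2))⁻¹) * D *
        mu.real Set.univ := by
  have hgint : Integrable (fun eta : ℝ => Real.exp (-(eta / Y) ^ 2)) := by
    have h1 := integrable_exp_neg_mul_sq (b := 1 / Y ^ 2) (by positivity)
    refine h1.congr (Filter.Eventually.of_forall fun x => ?_)
    simp only
    congr 1
    field_simp
  have hI : Integrable (Function.uncurry fun (eta : ℝ) (z : ℝ × ℝ) =>
      ((Real.exp (-(eta / Y) ^ 2) : ℝ) : ℂ) *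
        Complex.exp ((eta * (f z.1 - f z.2) : ℝ) * Complex.I)) (volume.prod (mu.prod mu)) := by
    have h2 : Integrable (fun w : ℝ × (ℝ × ℝ) => Real.exp (-(w.1 / Y) ^ 2) * (1 : ℝ))
        (volume.prod (mu.prod mu)) := hgint.mul_prod (integrable_const 1)
    refine Integrable.mono' h2 ?_ (Filter.Eventually.of_forall fun w => ?_)
    · apply Measurable.aestronglyMeasurable
      unfold Function.uncurry
      fun_prop
    · simp only [Function.uncurry]
      rw [norm_mul, fd_norm_exp, Complex.norm_real, Real.norm_eq_abs, abs_of_pos (Real.exp_pos _)]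
  have hsw := integral_integral_swap hI
  have e1 : ((∫ eta : ℝ, Real.exp (-(eta / Y) ^ 2) * ‖fdg mu f c eta‖ ^ 2 : ℝ) : ℂ)
      = ∫ z, (∫ eta : ℝ, ((Real.exp (-(eta / Y) ^ 2) : ℝ) : ℂ) *
        Complex.exp ((eta * (f z.1 - f z.2) : ℝ) * Complex.I)) ∂(mu.prod mu) := by
    rw [← hsw, ← integral_complex_ofReal]
    congr 1
    funext eta
    rw [integral_const_mul, ← fdg_sq mu f c eta]
    push_cast
    rfl
  have hnn : 0 ≤ ∫ eta : ℝ, Real.exp (-(eta / Y) ^ 2) * ‖fdg mu f c eta‖ ^ 2 :=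
    integral_nonneg fun eta => by positivity
  have e2 : (∫ eta : ℝ, Real.exp (-(eta / Y) ^ 2) * ‖fdg mu f c eta‖ ^ 2)
      = ‖((∫ eta : ℝ, Real.exp (-(eta / Y) ^ 2) * ‖fdg mu f c eta‖ ^ 2 : ℝ) : ℂ)‖ := by
    rw [Complex.norm_real, Real.norm_eq_abs, abs_of_nonneg hnn]
  rw [e2, e1]
  refine (norm_integral_le_integral_norm _).trans ?_
  simp only [fd_inner Y _ hY]
  have hI2 : Integrable (fun z : ℝ × ℝ => Real.sqrt Real.pi * Y *
      Real.exp (-(Y * (f z.1 - f z.2)) ^ 2 / 4)) (mu.prod mu) := by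
    apply Integrable.of_bound (C := Real.sqrt Real.pi * Y)
      (Measurable.aestronglyMeasurable (by fun_prop))
    refine Filter.Eventually.of_forall fun z => ?_
    rw [Real.norm_eq_abs, abs_of_nonneg (by positivity)]
    conv_rhs => rw [← mul_one (Real.sqrt Real.pi * Y)]
    gcongr
    apply Real.exp_le_one_iff.2
    nlinarith [sq_nonneg (Y * (f z.1 - f z.2))]
  rw [integral_prod_symm _ hI2]
  have h3 : ∀ y : ℝ, ∫ x, Real.sqrt Real.pi * Y * Real.exp (-(Y * (f x - f y)) ^ 2 / 4) ∂mu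
      ≤ Real.sqrt Real.pi * (2 * Real.exp (1 / 4) * (1 - Real.exp (-1 / 2))⁻¹) * D := by
    intro y
    rw [integral_const_mul]
    calc Real.sqrt Real.pi * Y * ∫ x, Real.exp (-(Y * (f x - f y)) ^ 2 / 4) ∂mu
        ≤ Real.sqrt Real.pi * Y *
          (2 * Real.exp (1 / 4) * (1 - Real.exp (-1 / 2))⁻¹ * (D / Y)) := by
          gcongr
          exact fd_gauss mu f hf Y D hY hD h (f y)
      _ = _ := by field_simp
  calc ∫ y, ∫ x, Real.sqrt Real.pi * Y * Real.exp (-(Y * (f x - f y)) ^ 2 / 4) ∂mu ∂mu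
      ≤ ∫ _y, Real.sqrt Real.pi * (2 * Real.exp (1 / 4) * (1 - Real.exp (-1 / 2))⁻¹) * D ∂mu := by
        apply integral_mono hI2.integral_prod_right (integrable_const _)
        exact h3
    _ = _ := by
        rw [integral_const, smul_eq_mul]
        ring

theorem fdg_lip (mu : Measure ℝ) [IsFiniteMeasure mu] (f : ℝ → ℝ) (hf : Measurable f)
    (c rho eta eta' : ℝ) (hrho : ∀ᵐ s ∂mu, |f s - c| ≤ rho) :
    ‖fdg mu f c eta - fdg mu f c eta'‖ ≤ rho * |eta - eta'| * mu.real Set.univ := by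
  unfold fdg
  rw [← integral_sub (fd_integrable mu f hf c eta) (fd_integrable mu f hf c eta')]
  refine (norm_integral_le_of_norm_le_const (C := rho * |eta - eta'|) ?_)
  filter_upwards [hrho] with s hs
  refine (fd_exp_sub _ _).trans ?_
  rw [← sub_mul, abs_mul, mul_comm]
  gcongr

theorem fdg_cont (mu : Measure ℝ) [IsFiniteMeasure mu] (f : ℝ → ℝ) (hf : Measurable f)
    (c rho : ℝ) (hrho : ∀ᵐ s ∂mu, |f s - c| ≤ rho) : Continuous (fdg mu f c) := by
  have h : LipschitzWith (Real.toNNReal (rho * mu.real Set.univ)) (fdg mu f c) := by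
    apply LipschitzWith.of_dist_le_mul
    intro x y
    rw [dist_eq_norm, Real.dist_eq]
    refine (fdg_lip mu f hf c rho x y hrho).trans ?_
    calc rho * |x - y| * mu.real Set.univ = (rho * mu.real Set.univ) * |x - y| := by ring
      _ ≤ _ := by
        gcongr
        exact Real.le_coe_toNNReal _
  exact h.continuous

theorem fdg_neg (mu : Measure ℝ) (f : ℝ → ℝ) (c eta : ℝ) :
    ‖fdg mu f c (-eta)‖ = ‖fdg mu f c eta‖ := by
  have h : fdg mu f c (-eta) = (starRingEnd ℂ) (fdg mu f c eta) := by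
    unfold fdg
    rw [← integral_conj]
    congr 1
    funext s
    rw [← Complex.exp_conj]
    congr 1
    simp only [map_mul, Complex.conj_ofReal, Complex.conj_I]
    push_cast
    ring
  rw [h, Complex.norm_conj]

theorem fdg_abs (mu : Measure ℝ) (f : ℝ → ℝ) (c xi X y : ℝ) (hX : |xi| = X) :
    ‖fdg mu f c (xi * y)‖ = ‖fdg mu f c (X * y)‖ := by
  rcases abs_choice xi with h | h
  · rw [← hX, h]
  · rw [← hX, h, neg_mul, fdg_neg]

theorem fd_win (mu : Measure ℝ) [IsFiniteMeasure mu] (f : ℝ → ℝ) (hf : Measurable f)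
    (X Gam D rho c xi : ℝ) (hX : |xi| = X) (hX1 : 0 < X) (hD : 0 ≤ D) (hG : 0 ≤ Gam)
    (h : ∀ x : ℝ, mu {s | |f s - x| ≤ Real.exp (-Gam - 1) / X} ≤
      ENNReal.ofReal (D * (Real.exp (-Gam - 1) / X)))
    (hrho : ∀ᵐ s ∂mu, |f s - c| ≤ rho) :
    ∫ v in (-(Gam + 1))..(Gam + 1), ‖fdg mu f c (xi * Real.exp v)‖ ^ 2
      ≤ Real.exp (Gam + 1) / X * (Real.exp 1 * (Real.sqrt Real.pi *
        (2 * Real.exp (1 / 4) * (1 - Real.exp (-1 / 2))⁻¹) * D * mu.real Set.univ)) := by
  have hcont := fdg_cont mu f hf c rho hrho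
  set Y := X * Real.exp (Gam + 1) with hY
  have hYpos : 0 < Y := by positivity
  have hY1 : Real.exp (-Gam - 1) / X = 1 / Y := by
    rw [hY, show -Gam - 1 = -(Gam + 1) by ring, Real.exp_neg]
    field_simp
  have h2 := fd_L2 mu f hf Y D c hYpos hD (by
    intro x
    have := h x
    rw [hY1, mul_one_div] at this
    exact this)
  have hgint : Integrable (fun eta : ℝ => Real.exp (-(eta / Y) ^ 2) * ‖fdg mu f c eta‖ ^ 2) := by
    have h1 := integrable_exp_neg_mul_sq (b := 1 / Y ^ 2) (by positivity)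
    have h3 : Integrable (fun eta : ℝ => Real.exp (-(eta / Y) ^ 2)) := by
      refine h1.congr (Filter.Eventually.of_forall fun x => ?_)
      simp only
      congr 1
      field_simp
    refine h3.mul_bdd (c := (mu.real Set.univ) ^ 2) (hcont.norm.pow 2).aestronglyMeasurable
      (Filter.Eventually.of_forall fun x => ?_)
    rw [Real.norm_eq_abs, abs_of_nonneg (by positivity)]
    gcongr
    exact fdg_le mu f c x
  have hle : -(Gam + 1) ≤ Gam + 1 := by linarith
  have hcv := intervalIntegral.integral_comp_mul_deriv (a := -(Gam + 1)) (b := Gam + 1)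
    (f := fun v => X * Real.exp v) (f' := fun v => X * Real.exp v)
    (g := fun eta => ‖fdg mu f c eta‖ ^ 2)
    (fun x _ => (Real.hasDerivAt_exp x).const_mul X) (by fun_prop) (hcont.norm.pow 2)
  have h4 : ∫ v in (-(Gam + 1))..(Gam + 1), ‖fdg mu f c (xi * Real.exp v)‖ ^ 2
      ≤ ∫ v in (-(Gam + 1))..(Gam + 1), Real.exp (Gam + 1) / X *
        (((fun eta => ‖fdg mu f c eta‖ ^ 2) ∘ (fun v => X * Real.exp v)) v * (X * Real.exp v)) := by
    apply intervalIntegral.integral_mono_on hle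
    · apply Continuous.intervalIntegrable
      exact (hcont.comp (by fun_prop)).norm.pow 2
    · apply Continuous.intervalIntegrable
      have : Continuous fun v => ‖fdg mu f c (X * Real.exp v)‖ ^ 2 :=
        (hcont.comp (by fun_prop)).norm.pow 2
      simp only [Function.comp_apply]
      fun_prop
    · intro v hv
      rw [fdg_abs mu f c xi X _ hX]
      simp only [Function.comp_apply]
      have h5 : 1 ≤ Real.exp (Gam + 1) * Real.exp v := by
        rw [← Real.exp_add]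
        apply Real.one_le_exp
        linarith [hv.1]
      calc ‖fdg mu f c (X * Real.exp v)‖ ^ 2
          = 1 * ‖fdg mu f c (X * Real.exp v)‖ ^ 2 := by ring
        _ ≤ (Real.exp (Gam + 1) * Real.exp v) * ‖fdg mu f c (X * Real.exp v)‖ ^ 2 := by gcongr
        _ = _ := by field_simp
  refine h4.trans ?_
  rw [intervalIntegral.integral_const_mul, hcv]
  gcongr
  have hle2 : X * Real.exp (-(Gam + 1)) ≤ X * Real.exp (Gam + 1) := by gcongr
  rw [intervalIntegral.integral_of_le hle2]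
  calc ∫ eta in Set.Ioc (X * Real.exp (-(Gam + 1))) (X * Real.exp (Gam + 1)), ‖fdg mu f c eta‖ ^ 2
      ≤ ∫ eta in Set.Ioc (X * Real.exp (-(Gam + 1))) (X * Real.exp (Gam + 1)),
        Real.exp 1 * (Real.exp (-(eta / Y) ^ 2) * ‖fdg mu f c eta‖ ^ 2) := by
        apply setIntegral_mono_on _ (hgint.const_mul _).integrableOn measurableSet_Ioc
        · intro eta he
          have h6 : 1 ≤ Real.exp 1 * Real.exp (-(eta / Y) ^ 2) := by
            rw [← Real.exp_add]
            apply Real.one_le_exp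
            have h7 : 0 ≤ eta / Y := div_nonneg (le_trans (by positivity) he.1.le) hYpos.le
            have h8 : eta / Y ≤ 1 := (div_le_one hYpos).2 he.2
            have h9 : (eta / Y) ^ 2 ≤ 1 := pow_le_one₀ h7 h8
            linarith
          calc ‖fdg mu f c eta‖ ^ 2 = 1 * ‖fdg mu f c eta‖ ^ 2 := by ring
            _ ≤ (Real.exp 1 * Real.exp (-(eta / Y) ^ 2)) * ‖fdg mu f c eta‖ ^ 2 := by gcongr
            _ = _ := by ring
        · exact ((hcont.norm.pow 2).integrableOn_Icc).mono_set Set.Ioc_subset_Icc_self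
    _ ≤ ∫ eta, Real.exp 1 * (Real.exp (-(eta / Y) ^ 2) * ‖fdg mu f c eta‖ ^ 2) := by
        apply setIntegral_le_integral (hgint.const_mul _)
        exact Filter.Eventually.of_forall fun x => by
          simp only [Pi.zero_apply]
          positivity
    _ = Real.exp 1 * ∫ eta, (Real.exp (-(eta / Y) ^ 2) * ‖fdg mu f c eta‖ ^ 2) :=
        integral_const_mul _ _
    _ ≤ _ := by gcongr

theorem fd_ind_int (a x r : ℝ) (hr : 0 < r) (h1 : -a ≤ x - r) (h2 : x + r ≤ a) :
    ∫ v in (-a)..a, (Set.Icc (x - r) (x + r)).indicator (fun _ => (1 : ℝ)) v = 2 * r := by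
  rw [intervalIntegral.integral_of_le (by linarith), ← integral_Icc_eq_integral_Ioc,
    setIntegral_indicator measurableSet_Icc,
    Set.inter_eq_self_of_subset_right (Set.Icc_subset_Icc h1 h2)]
  simp only [integral_const, smul_eq_mul, mul_one, measureReal_restrict_apply_univ,
    Real.volume_real_Icc]
  rw [max_eq_left (by linarith)]
  ring

theorem fd_piece (phi : ℝ → ℝ) (hc : Continuous phi) (S : Finset ℕ)
    (Dl : ℕ → ℝ) (Q : ℕ) (hQ : 1 ≤ Q) (hS : S.card ≤ Q) (r Gam dl B t : ℝ) (hr : 0 < r)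
    (hr1 : r ≤ 1) (hG : 0 ≤ Gam) (hdl : 0 ≤ dl) (hD : ∀ q ∈ S, |Dl q| ≤ Gam)
    (hosc : ∀ v v', |v'| ≤ Gam → |v - v'| ≤ r → phi v' ≤ phi v + dl)
    (hB : ∫ v in (-(Gam + 1))..(Gam + 1), phi v ^ 2 ≤ B) (ht : 0 < t) :
    (∑ q ∈ S, phi (Dl q)) / Q ≤ (t * B + t⁻¹ *
      ((((S ×ˢ S).filter (fun z => |Dl z.1 - Dl z.2| ≤ 2 * r)).card : ℝ) /
        (2 * r * (Q : ℝ) ^ 2))) / 2 + dl := by
  have hQ0 : (0 : ℝ) < Q := by exact_mod_cast hQ
  set a := Gam + 1 with ha
  have hapos : -a ≤ a := by linarith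
  set ind : ℕ → ℝ → ℝ := fun q => (Set.Icc (Dl q - r) (Dl q + r)).indicator (fun _ => (1 : ℝ))
    with hind
  have hind0 : ∀ q v, 0 ≤ ind q v := fun q v => Set.indicator_nonneg (fun _ _ => zero_le_one) v
  have hind1 : ∀ q v, ind q v ≤ 1 := fun q v => by
    simp only [hind, Set.indicator]
    split_ifs <;> norm_num
  have hindm : ∀ q, Measurable (ind q) := fun q => measurable_const.indicator measurableSet_Icc
  have hindI : ∀ q, IntervalIntegrable (ind q) volume (-a) a := by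
    intro q
    have h1 : Integrable (ind q) := (integrable_indicator_iff measurableSet_Icc).2
      (integrableOn_const (by simp))
    exact h1.intervalIntegrable
  have hii : ∀ q ∈ S, ∫ v in (-a)..a, ind q v = 2 * r := by
    intro q hq
    have := abs_le.1 (hD q hq)
    exact fd_ind_int a (Dl q) r hr (by linarith [this.1]) (by linarith [this.2])
  have hphiI : ∀ q, IntervalIntegrable (fun v => phi v * ind q v) volume (-a) a := fun q =>
    (hindI q).continuousOn_mul hc.continuousOn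
  -- step 1
  have s1 : ∀ q ∈ S, phi (Dl q) ≤ (∫ v in (-a)..a, phi v * ind q v) / (2 * r) + dl := by
    intro q hq
    have h1 : ∫ v in (-a)..a, (phi (Dl q) - dl) * ind q v ≤ ∫ v in (-a)..a, phi v * ind q v := by
      apply intervalIntegral.integral_mono_on hapos ((hindI q).const_mul _) (hphiI q)
      intro v _
      by_cases hv : v ∈ Set.Icc (Dl q - r) (Dl q + r)
      · have e : ind q v = 1 := by
          simp only [hind]
          exact Set.indicator_of_mem hv _
        rw [e, mul_one, mul_one]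
        have := hosc v (Dl q) (hD q hq) (by
          rw [abs_le]
          constructor <;> linarith [hv.1, hv.2])
        linarith
      · have e : ind q v = 0 := by
          simp only [hind]
          exact Set.indicator_of_notMem hv _
        rw [e, mul_zero, mul_zero]
    rw [intervalIntegral.integral_const_mul, hii q hq] at h1
    have h2 : phi (Dl q) - dl ≤ (∫ v in (-a)..a, phi v * ind q v) / (2 * r) := by
      rw [le_div_iff₀ (by positivity)]
      exact h1
    linarith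
  set w : ℝ → ℝ := fun v => (∑ q ∈ S, ind q v) / (2 * r * Q) with hw
  have hwI : IntervalIntegrable w volume (-a) a := by
    simp only [hw]
    apply IntervalIntegrable.div_const
    have := IntervalIntegrable.sum S (f := ind) (fun q _ => hindI q)
    exact this.congr (fun v _ => by simp only [Finset.sum_apply])
  have hw2I : ∀ q q', IntervalIntegrable (fun v => ind q v * ind q' v) volume (-a) a := by
    intro q q'
    have h1 : Integrable (ind q) := (integrable_indicator_iff measurableSet_Icc).2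
      (integrableOn_const (by simp))
    have h2 : Integrable (fun v => ind q v * ind q' v) :=
      h1.mul_bdd (c := 1) (hindm q').aestronglyMeasurable (Filter.Eventually.of_forall fun v => by
        rw [Real.norm_eq_abs, abs_of_nonneg (hind0 q' v)]
        exact hind1 q' v)
    exact h2.intervalIntegrable
  have hwsq : ∀ v, w v ^ 2 = (∑ z ∈ S ×ˢ S, ind z.1 v * ind z.2 v) / (2 * r * Q) ^ 2 := by
    intro v
    simp only [hw]
    rw [div_pow, sq (∑ q ∈ S, ind q v), Finset.sum_mul_sum, Finset.sum_product]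
  have hwsqI : IntervalIntegrable (fun v => w v ^ 2) volume (-a) a := by
    simp only [hwsq]
    apply IntervalIntegrable.div_const
    have := IntervalIntegrable.sum (S ×ˢ S) (f := fun z v => ind z.1 v * ind z.2 v)
      (fun z _ => hw2I z.1 z.2)
    exact this.congr (fun v _ => by simp only [Finset.sum_apply])
  -- step 2
  have s2 : (∑ q ∈ S, phi (Dl q)) / Q ≤ (∫ v in (-a)..a, phi v * w v) + dl := by
    have e1 : (∫ v in (-a)..a, phi v * w v)
        = (∑ q ∈ S, ∫ v in (-a)..a, phi v * ind q v) / (2 * r * Q) := by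
      rw [← intervalIntegral.integral_finsetSum (fun q _ => hphiI q),
        ← intervalIntegral.integral_div]
      congr 1
      funext v
      simp only [hw]
      rw [← Finset.mul_sum]
      ring
    rw [e1]
    calc (∑ q ∈ S, phi (Dl q)) / Q
        ≤ (∑ q ∈ S, ((∫ v in (-a)..a, phi v * ind q v) / (2 * r) + dl)) / Q := by
          gcongr with q hq
          exact s1 q hq
      _ = (∑ q ∈ S, ∫ v in (-a)..a, phi v * ind q v) / (2 * r * Q) + (S.card : ℝ) * dl / Q := by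
          rw [Finset.sum_add_distrib, ← Finset.sum_div, Finset.sum_const, nsmul_eq_mul]
          field_simp
      _ ≤ (∑ q ∈ S, ∫ v in (-a)..a, phi v * ind q v) / (2 * r * Q) + dl := by
          gcongr
          rw [div_le_iff₀ hQ0, mul_comm dl]
          gcongr
  -- step 3
  have s3 : (∫ v in (-a)..a, phi v * w v)
      ≤ (t * (∫ v in (-a)..a, phi v ^ 2) + t⁻¹ * ∫ v in (-a)..a, w v ^ 2) / 2 := by
    have e2 : (t * (∫ v in (-a)..a, phi v ^ 2) + t⁻¹ * ∫ v in (-a)..a, w v ^ 2) / 2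
        = ∫ v in (-a)..a, (t * phi v ^ 2 + t⁻¹ * w v ^ 2) / 2 := by
      rw [intervalIntegral.integral_div, intervalIntegral.integral_add, 
        intervalIntegral.integral_const_mul, intervalIntegral.integral_const_mul]
      · exact ((hc.pow 2).intervalIntegrable _ _).const_mul _
      · exact hwsqI.const_mul _
    rw [e2]
    apply intervalIntegral.integral_mono_on hapos (hwI.continuousOn_mul hc.continuousOn)
    · apply IntervalIntegrable.div_const
      exact (((hc.pow 2).intervalIntegrable _ _).const_mul _).add (hwsqI.const_mul _)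
    · intro v _
      have h3 : 0 ≤ t⁻¹ * (t * phi v - w v) ^ 2 := by positivity
      have h4 : t⁻¹ * (t * phi v - w v) ^ 2 = t * phi v ^ 2 - 2 * (phi v * w v) + t⁻¹ * w v ^ 2 := by
        field_simp
        ring
      linarith
  -- step 4
  have s4 : (∫ v in (-a)..a, w v ^ 2)
      ≤ (((S ×ˢ S).filter (fun z => |Dl z.1 - Dl z.2| ≤ 2 * r)).card : ℝ) /
        (2 * r * (Q : ℝ) ^ 2) := by
    simp only [hwsq]
    rw [intervalIntegral.integral_div, intervalIntegral.integral_finsetSum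
      (fun z _ => hw2I z.1 z.2)]
    have h5 : ∀ z ∈ S ×ˢ S, (∫ v in (-a)..a, ind z.1 v * ind z.2 v)
        ≤ if |Dl z.1 - Dl z.2| ≤ 2 * r then 2 * r else 0 := by
      intro z hz
      split_ifs with h6
      · rw [← hii z.1 (Finset.mem_product.1 hz).1]
        apply intervalIntegral.integral_mono_on hapos (hw2I _ _) (hindI _)
        intro v _
        exact mul_le_of_le_one_right (hind0 _ _) (hind1 _ _)
      · apply le_of_eq
        rw [← intervalIntegral.integral_zero (a := -a) (b := a)]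
        congr 1
        funext v
        by_cases h7 : v ∈ Set.Icc (Dl z.1 - r) (Dl z.1 + r)
        · have h8 : v ∉ Set.Icc (Dl z.2 - r) (Dl z.2 + r) := by
            intro h8
            apply h6
            rw [abs_le]
            constructor <;> linarith [h7.1, h7.2, h8.1, h8.2]
          have e : ind z.2 v = 0 := by
            simp only [hind]
            exact Set.indicator_of_notMem h8 _
          rw [e, mul_zero]
        · have e : ind z.1 v = 0 := by
            simp only [hind]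
            exact Set.indicator_of_notMem h7 _
          rw [e, zero_mul]
    calc (∑ z ∈ S ×ˢ S, ∫ v in (-a)..a, ind z.1 v * ind z.2 v) / (2 * r * Q) ^ 2
        ≤ (∑ z ∈ S ×ˢ S, if |Dl z.1 - Dl z.2| ≤ 2 * r then 2 * r else 0) / (2 * r * Q) ^ 2 := by
          gcongr with z hz
          exact h5 z hz
      _ = _ := by
          rw [← Finset.sum_filter, Finset.sum_const, nsmul_eq_mul]
          field_simp
  calc (∑ q ∈ S, phi (Dl q)) / Q ≤ (∫ v in (-a)..a, phi v * w v) + dl := s2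
    _ ≤ (t * (∫ v in (-a)..a, phi v ^ 2) + t⁻¹ * ∫ v in (-a)..a, w v ^ 2) / 2 + dl := by gcongr
    _ ≤ _ := by gcongr

/-- The constant of the `L^2` bound. -/
noncomputable def fdC : ℝ :=
  Real.exp 1 * (Real.sqrt Real.pi * (2 * Real.exp (1 / 4) * (1 - Real.exp (-1 / 2))⁻¹))

theorem fdC_pos : 0 < fdC := by
  unfold fdC
  have hr : Real.exp (-1 / 2) < 1 := by
    rw [Real.exp_lt_one_iff]
    norm_num
  have hr0 : 0 < 1 - Real.exp (-1 / 2) := by linarith
  positivity

theorem fd_expdiff (v v' G : ℝ) (hv : v ≤ G) (hv' : v' ≤ G) :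
    |Real.exp v - Real.exp v'| ≤ Real.exp G * |v - v'| := by
  have key : ∀ x y : ℝ, x ≤ y → y ≤ G → Real.exp y - Real.exp x ≤ Real.exp G * (y - x) := by
    intro x y hxy hy
    have h1 := Real.add_one_le_exp (x - y)
    have h2 : Real.exp x = Real.exp y * Real.exp (x - y) := by
      rw [← Real.exp_add]
      congr 1
      ring
    have h3 : Real.exp y ≤ Real.exp G := Real.exp_le_exp.2 hy
    have h4 : 0 ≤ y - x := by linarith
    calc Real.exp y - Real.exp x = Real.exp y * (1 - Real.exp (x - y)) := by rw [h2]; ring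
      _ ≤ Real.exp y * (y - x) := by
        apply mul_le_mul_of_nonneg_left _ (Real.exp_pos _).le
        linarith
      _ ≤ _ := by gcongr
  rcases le_total v v' with h | h
  · rw [abs_sub_comm, abs_sub_comm v v', abs_of_nonneg (by linarith [Real.exp_le_exp.2 h]),
      abs_of_nonneg (by linarith)]
    exact key v v' h hv'
  · rw [abs_of_nonneg (by linarith [Real.exp_le_exp.2 h]), abs_of_nonneg (by linarith)]
    exact key v' v h hv

theorem fd_one (E : ℝ → ℝ) (hE : Measurable E) (xi X eps0 Gam rho D r t u v c : ℝ) (Q : ℕ)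
    (Dl : ℕ → ℝ) (S : Finset ℕ) (T : Set ℝ) (hT : MeasurableSet T) (hX : |xi| = X) (hX1 : 1 ≤ X)
    (he : 0 < eps0) (hG : 0 ≤ Gam) (hrho0 : 0 < rho) (hD : 0 < D) (hr : 0 < r) (hr1 : r ≤ 1)
    (hQ : 1 ≤ Q) (hS : S.card ≤ Q) (huv : u < v) (ht : 0 < t)
    (hDl : ∀ q ∈ S, |Dl q| ≤ Gam)
    (hrho : ∀ s ∈ Set.Ico u v, s ∈ T → |E s - c| ≤ rho)
    (hvol : ∀ x : ℝ, volume {s | s ∈ Set.Ico u v ∧ s ∈ T ∧
      |E s - x| ≤ Real.exp (-Gam - 1) / X} ≤ ENNReal.ofReal (D * (Real.exp (-Gam - 1) / X)))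
    (hsm : X * Real.exp Gam * rho * r ≤ eps0) :
    (∑ q ∈ S, ‖fdg (volume.restrict (Set.Ico u v ∩ T)) E c (xi * Real.exp (Dl q))‖ ^ 2) / Q ≤
      (t * ((v - u) ^ 3 * (Real.exp (Gam + 1) / X * (fdC * D))) + t⁻¹ *
      ((((S ×ˢ S).filter (fun z => |Dl z.1 - Dl z.2| ≤ 2 * r)).card : ℝ) /
        (2 * r * (Q : ℝ) ^ 2))) / 2 + 6 * eps0 * (v - u) ^ 2 := by
  set a := v - u with ha
  have hapos : 0 < a := by linarith
  have hA : MeasurableSet (Set.Ico u v ∩ T) := measurableSet_Ico.inter hT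
  have hfin : volume (Set.Ico u v ∩ T) ≤ ENNReal.ofReal a := by
    refine (measure_mono Set.inter_subset_left).trans ?_
    rw [Real.volume_Ico]
  have hlt : volume (Set.Ico u v ∩ T) < ⊤ := lt_of_le_of_lt hfin ENNReal.ofReal_lt_top
  set mu := volume.restrict (Set.Ico u v ∩ T) with hmu
  have : IsFiniteMeasure mu := ⟨by rw [hmu, Measure.restrict_apply_univ]; exact hlt⟩
  have hm : mu.real Set.univ ≤ a := by
    rw [hmu, measureReal_restrict_apply_univ]
    exact ENNReal.toReal_le_of_le_ofReal hapos.le hfin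
  have hm0 : 0 ≤ mu.real Set.univ := measureReal_nonneg
  have hX0 : 0 < X := by linarith
  have hae : ∀ᵐ s ∂mu, |E s - c| ≤ rho := by
    rw [hmu]
    refine (ae_restrict_iff' hA).2 (Filter.Eventually.of_forall fun s hs => hrho s hs.1 hs.2)
  have hvol' : ∀ x : ℝ, mu {s | |E s - x| ≤ Real.exp (-Gam - 1) / X} ≤
      ENNReal.ofReal (D * (Real.exp (-Gam - 1) / X)) := by
    intro x
    rw [hmu, Measure.restrict_apply (measurableSet_le (hE.sub_const x).abs measurable_const)]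
    refine le_trans (measure_mono ?_) (hvol x)
    rintro s ⟨h1, h2, h3⟩
    exact ⟨h2, h3, h1⟩
  have hcont := fdg_cont mu E hE c rho hae
  have hwin := fd_win mu E hE X Gam D rho c xi hX hX0 hD.le hG hvol' hae
  set phi : ℝ → ℝ := fun w => ‖fdg mu E c (xi * Real.exp w)‖ ^ 2 with hphi
  have hphic : Continuous phi := (hcont.comp (by fun_prop)).norm.pow 2
  have hphi0 : ∀ w, 0 ≤ phi w := fun w => by simp only [hphi]; positivity
  have hgle : ∀ eta, ‖fdg mu E c eta‖ ≤ a := fun eta => (fdg_le mu E c eta).trans hm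
  have hphi1 : ∀ w, phi w ≤ a ^ 2 := fun w => by
    simp only [hphi]
    exact pow_le_pow_left₀ (norm_nonneg _) (hgle _) 2
  have hbd : ∫ w in (-(Gam + 1))..(Gam + 1), phi w ^ 2
      ≤ a ^ 3 * (Real.exp (Gam + 1) / X * (fdC * D)) := by
    calc ∫ w in (-(Gam + 1))..(Gam + 1), phi w ^ 2
        ≤ ∫ w in (-(Gam + 1))..(Gam + 1), a ^ 2 * phi w := by
          apply intervalIntegral.integral_mono_on (by linarith) ((hphic.pow 2).intervalIntegrable _ _)
            ((hphic.const_mul _).intervalIntegrable _ _)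
          intro w _
          change phi w ^ 2 ≤ _
          rw [sq (phi w)]
          exact mul_le_mul_of_nonneg_right (hphi1 w) (hphi0 w)
      _ = a ^ 2 * ∫ w in (-(Gam + 1))..(Gam + 1), phi w := intervalIntegral.integral_const_mul _ _
      _ ≤ a ^ 2 * (Real.exp (Gam + 1) / X * (Real.exp 1 * (Real.sqrt Real.pi *
        (2 * Real.exp (1 / 4) * (1 - Real.exp (-1 / 2))⁻¹) * D * mu.real Set.univ))) := by
          gcongr
      _ = a ^ 2 * (Real.exp (Gam + 1) / X * (fdC * D * mu.real Set.univ)) := by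
          unfold fdC
          ring
      _ ≤ a ^ 2 * (Real.exp (Gam + 1) / X * (fdC * D * a)) := by
          have := fdC_pos
          gcongr
      _ = _ := by ring
  have hosc : ∀ w w', |w'| ≤ Gam → |w - w'| ≤ r → phi w' ≤ phi w + 6 * eps0 * a ^ 2 := by
    intro w w' h1 h2
    have h3 := abs_le.1 h1
    have h4 := abs_le.1 h2
    have h5 := fd_expdiff w' w (Gam + 1) (by linarith [h3.2]) (by linarith [h3.2, h4.2])
    have h6 := fdg_lip mu E hE c rho (xi * Real.exp w') (xi * Real.exp w) hae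
    have h7 : ‖fdg mu E c (xi * Real.exp w') - fdg mu E c (xi * Real.exp w)‖
        ≤ 3 * eps0 * a := by
      refine h6.trans ?_
      rw [← mul_sub, abs_mul, hX]
      calc rho * (X * |Real.exp w' - Real.exp w|) * mu.real Set.univ
          ≤ rho * (X * (Real.exp (Gam + 1) * |w' - w|)) * a := by gcongr
        _ ≤ rho * (X * (Real.exp (Gam + 1) * r)) * a := by
          rw [abs_sub_comm w' w]
          gcongr
        _ = Real.exp 1 * (X * Real.exp Gam * rho * r) * a := by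
          rw [Real.exp_add]
          ring
        _ ≤ 3 * eps0 * a := by
          have := Real.exp_one_lt_d9
          gcongr
          linarith
    have h8 : ‖fdg mu E c (xi * Real.exp w')‖ ≤ ‖fdg mu E c (xi * Real.exp w)‖ + 3 * eps0 * a := by
      have := norm_le_norm_add_norm_sub' (fdg mu E c (xi * Real.exp w'))
        (fdg mu E c (xi * Real.exp w))
      linarith
    simp only [hphi]
    have h9 := hgle (xi * Real.exp w')
    have h10 := hgle (xi * Real.exp w)
    have h11 := norm_nonneg (fdg mu E c (xi * Real.exp w'))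
    have h12 := norm_nonneg (fdg mu E c (xi * Real.exp w))
    set x := ‖fdg mu E c (xi * Real.exp w')‖
    set y := ‖fdg mu E c (xi * Real.exp w)‖
    by_cases hxy : x ≤ y
    · have : x ^ 2 ≤ y ^ 2 := pow_le_pow_left₀ h11 hxy 2
      have h13 : 0 ≤ 6 * eps0 * a ^ 2 := by positivity
      linarith
    · push Not at hxy
      have h14 : (x - y) * (x + y) ≤ (3 * eps0 * a) * (2 * a) := by
        apply mul_le_mul (by linarith) (by linarith) (by linarith) (by positivity)
      nlinarith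
  exact fd_piece phi hphic S Dl Q hQ hS r Gam (6 * eps0 * a ^ 2) _ t hr hr1 hG (by positivity)
    hDl hosc hbd ht

theorem fd_opt (S al be c : ℝ) (ha : 0 ≤ al) (hb : 0 ≤ be) (hc : 0 ≤ c)
    (h : ∀ s t : ℝ, 0 < s → 0 < t → S ≤ (s + ((t * al + t⁻¹ * be) / 2 + c) / s) / 2) :
    S ≤ Real.sqrt c + (al * be) ^ (1 / 4 : ℝ) := by
  have hab : 0 ≤ al * be := mul_nonneg ha hb
  have hr : 0 ≤ (al * be) ^ (1 / 4 : ℝ) := Real.rpow_nonneg hab _
  have hsc := Real.sqrt_nonneg c
  by_cases hS : S ≤ 0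
  · linarith
  push Not at hS
  have h1 : ∀ t : ℝ, 0 < t → S ^ 2 ≤ (t * al + t⁻¹ * be) / 2 + c := by
    intro t ht
    have h2 := h S t hS ht
    have h3 : S * 2 ≤ S + ((t * al + t⁻¹ * be) / 2 + c) / S := by linarith
    have h4 : S ≤ ((t * al + t⁻¹ * be) / 2 + c) / S := by linarith
    rw [le_div_iff₀ hS] at h4
    linarith [sq S]
  have h5 : (al * be) ^ (1 / 4 : ℝ) = Real.sqrt (Real.sqrt (al * be)) := by
    rw [Real.sqrt_eq_rpow, Real.sqrt_eq_rpow, ← Real.rpow_mul hab]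
    norm_num
  rw [h5]
  have h6 : S ^ 2 ≤ c + Real.sqrt (al * be) := by
    by_cases hm : S ^ 2 - c ≤ 0
    · have := Real.sqrt_nonneg (al * be)
      linarith
    push Not at hm
    have h7 : (S ^ 2 - c) ^ 2 ≤ al * be := by
      rcases ha.eq_or_lt with h0 | h0
      · exfalso
        have h8 := h1 ((be + 1) / (S ^ 2 - c)) (by positivity)
        rw [← h0] at h8
        have h9 : ((be + 1) / (S ^ 2 - c))⁻¹ * be ≤ S ^ 2 - c := by
          rw [inv_div, div_mul_eq_mul_div, div_le_iff₀ (by positivity)]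
          nlinarith
        linarith
      · have h8 := h1 ((S ^ 2 - c) / al) (by positivity)
        have h9 : (S ^ 2 - c) / al * al = S ^ 2 - c := by field_simp
        have h10 : ((S ^ 2 - c) / al)⁻¹ * be = al * be / (S ^ 2 - c) := by
          rw [inv_div]
          ring
        rw [h9, h10] at h8
        have h11 : S ^ 2 - c ≤ al * be / (S ^ 2 - c) := by linarith
        rw [le_div_iff₀ hm] at h11
        linarith [sq (S ^ 2 - c)]
    have := Real.le_sqrt_of_sq_le h7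
    linarith
  have h12 := Real.sqrt_nonneg (Real.sqrt (al * be))
  have h13 := Real.sq_sqrt hc
  have h14 := Real.sq_sqrt (Real.sqrt_nonneg (al * be))
  apply le_of_sq_le_sq _ (by positivity)
  nlinarith [mul_nonneg hsc h12]

theorem fd_shift (E : ℝ → ℝ) (xi d : ℝ) :
    ∫ s in (0 : ℝ)..1, Complex.exp ((xi * E s : ℝ) * Complex.I)
      = ∫ s in (0 : ℝ)..1, Complex.exp ((xi * E (Int.fract (s + d)) : ℝ) * Complex.I) := by
  set G : ℝ → ℂ := fun s => Complex.exp ((xi * E (Int.fract s) : ℝ) * Complex.I) with hG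
  have hper : Function.Periodic G 1 := by
    intro s
    simp only [hG, Int.fract_add_one]
  have h1 : (∫ s in (0 : ℝ)..1, Complex.exp ((xi * E (Int.fract (s + d)) : ℝ) * Complex.I))
      = ∫ s in (0 : ℝ)..1, G (s + d) := rfl
  rw [h1, intervalIntegral.integral_comp_add_right, add_comm 1 d, zero_add,
    hper.intervalIntegral_add_eq d 0, zero_add]
  rw [intervalIntegral.integral_of_le zero_le_one, intervalIntegral.integral_of_le zero_le_one,
    ← integral_Ico_eq_integral_Ioc, ← integral_Ico_eq_integral_Ioc]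
  apply setIntegral_congr_fun measurableSet_Ico
  intro s hs
  simp only [hG]
  rw [Int.fract_eq_self.2 hs]

theorem fd_vol (N : ℕ) (u v : ℕ → ℝ) (huv : ∀ i < N, 0 ≤ u i ∧ u i < v i ∧ v i ≤ 1)
    (hdis : ∀ i < N, ∀ i' < N, i ≠ i' → Disjoint (Set.Ico (u i) (v i)) (Set.Ico (u i') (v i'))) :
    volume.real (⋃ i ∈ Finset.range N, Set.Ico (u i) (v i)) = ∑ i ∈ Finset.range N, (v i - u i) ∧
      ∑ i ∈ Finset.range N, (v i - u i) ≤ 1 := by
  have h1 : volume.real (⋃ i ∈ Finset.range N, Set.Ico (u i) (v i))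
      = ∑ i ∈ Finset.range N, (v i - u i) := by
    rw [measureReal_biUnion_finset (h := fun b _ => measure_Ico_lt_top.ne)]
    · apply Finset.sum_congr rfl
      intro i hi
      rw [Real.volume_real_Ico, max_eq_left]
      linarith [(huv i (Finset.mem_range.1 hi)).2.1]
    · intro i hi i' hi' hne
      exact hdis i (Finset.mem_range.1 hi) i' (Finset.mem_range.1 hi') hne
    · intro i _
      exact measurableSet_Ico
  refine ⟨h1, ?_⟩
  rw [← h1]
  have h2 : (⋃ i ∈ Finset.range N, Set.Ico (u i) (v i)) ⊆ Set.Ico (0 : ℝ) 1 := by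
    intro s hs
    simp only [Set.mem_iUnion, Finset.mem_range] at hs
    obtain ⟨i, hi, hs⟩ := hs
    exact ⟨(huv i hi).1.trans hs.1, hs.2.trans_le (huv i hi).2.2⟩
  calc volume.real (⋃ i ∈ Finset.range N, Set.Ico (u i) (v i)) ≤ volume.real (Set.Ico (0 : ℝ) 1) :=
        measureReal_mono h2 (by simp)
    _ = 1 := by simp

theorem fd_split (N : ℕ) (u v : ℕ → ℝ) (huv : ∀ i < N, 0 ≤ u i ∧ u i < v i ∧ v i ≤ 1)
    (hdis : ∀ i < N, ∀ i' < N, i ≠ i' → Disjoint (Set.Ico (u i) (v i)) (Set.Ico (u i') (v i')))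
    (T : Set ℝ) (hT : MeasurableSet T) (eps0 : ℝ) (he : 0 < eps0)
    (hsum : 1 - eps0 ≤ ∑ i ∈ Finset.range N, (v i - u i))
    (hvT : volume (Set.Ico (0:ℝ) 1 \ T) ≤ ENNReal.ofReal eps0) (F : ℝ → ℂ) (hF : Measurable F)
    (hF1 : ∀ s, ‖F s‖ ≤ 1) :
    ‖∫ s in (0 : ℝ)..1, F s‖
      ≤ 2 * eps0 + ∑ i ∈ Finset.range N, ‖∫ s in Set.Ico (u i) (v i) ∩ T, F s‖ := by
  obtain ⟨hv1, hv2⟩ := fd_vol N u v huv hdis
  rw [intervalIntegral.integral_of_le zero_le_one, ← integral_Ico_eq_integral_Ioc]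
  set U := ⋃ i ∈ Finset.range N, Set.Ico (u i) (v i) ∩ T with hU
  have hUm : MeasurableSet U :=
    Finset.measurableSet_biUnion _ fun i _ => measurableSet_Ico.inter hT
  have hUs : U ⊆ Set.Ico (0 : ℝ) 1 := by
    intro s hs
    simp only [hU, Set.mem_iUnion, Finset.mem_range] at hs
    obtain ⟨i, hi, hs⟩ := hs
    exact ⟨(huv i hi).1.trans hs.1.1, hs.1.2.trans_le (huv i hi).2.2⟩
  have hint : IntegrableOn F (Set.Ico (0 : ℝ) 1) := by
    apply Integrable.of_bound hF.aestronglyMeasurable 1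
    exact Filter.Eventually.of_forall hF1
  have e1 : (∫ s in Set.Ico (0 : ℝ) 1, F s)
      = (∫ s in Set.Ico (0 : ℝ) 1 \ U, F s) + ∫ s in U, F s := by
    rw [setIntegral_sdiff hUm hint hUs, sub_add_cancel]
  have e2 : (∫ s in U, F s) = ∑ i ∈ Finset.range N, ∫ s in Set.Ico (u i) (v i) ∩ T, F s := by
    rw [hU]
    apply integral_biUnion_finset
    · intro i _
      exact measurableSet_Ico.inter hT
    · intro i hi i' hi' hne
      exact (hdis i (Finset.mem_range.1 hi) i' (Finset.mem_range.1 hi') hne).mono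
        Set.inter_subset_left Set.inter_subset_left
    · intro i hi
      have hi' := Finset.mem_range.1 hi
      exact hint.mono_set (fun s hs => ⟨(huv i hi').1.trans hs.1.1,
        hs.1.2.trans_le (huv i hi').2.2⟩)
  have hlt : volume (Set.Ico (0 : ℝ) 1 \ U) < ⊤ :=
    lt_of_le_of_lt (measure_mono Set.sdiff_subset) (by simp)
  have e3 : ‖∫ s in Set.Ico (0 : ℝ) 1 \ U, F s‖ ≤ 2 * eps0 := by
    refine (norm_setIntegral_le_of_norm_le_const (C := 1) hlt (fun s _ => hF1 s)).trans ?_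
    rw [one_mul]
    have h3 : Set.Ico (0 : ℝ) 1 \ U ⊆
        (Set.Ico (0 : ℝ) 1 \ ⋃ i ∈ Finset.range N, Set.Ico (u i) (v i)) ∪
          (Set.Ico (0 : ℝ) 1 \ T) := by
      rintro s ⟨h4, h5⟩
      by_cases h6 : s ∈ T
      · left
        refine ⟨h4, fun h7 => h5 ?_⟩
        simp only [Set.mem_iUnion, Finset.mem_range, hU] at h7 ⊢
        obtain ⟨i, hi, hs⟩ := h7
        exact ⟨i, hi, hs, h6⟩
      · right
        exact ⟨h4, h6⟩
    calc volume.real (Set.Ico (0 : ℝ) 1 \ U) ≤ volume.real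
          ((Set.Ico (0 : ℝ) 1 \ ⋃ i ∈ Finset.range N, Set.Ico (u i) (v i)) ∪
          (Set.Ico (0 : ℝ) 1 \ T)) := by
          exact measureReal_mono h3 (lt_of_le_of_lt (measure_mono
            (Set.union_subset Set.sdiff_subset Set.sdiff_subset)) measure_Ico_lt_top).ne
      _ ≤ volume.real (Set.Ico (0 : ℝ) 1 \ ⋃ i ∈ Finset.range N, Set.Ico (u i) (v i))
          + volume.real (Set.Ico (0 : ℝ) 1 \ T) := measureReal_union_le _ _
      _ ≤ eps0 + eps0 := by
          gcongr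
          · rw [measureReal_sdiff _ (Finset.measurableSet_biUnion _ fun i _ => measurableSet_Ico)
              (h₁ := measure_Ico_lt_top.ne)]
            · rw [hv1]
              simp only [Real.volume_real_Ico, sub_zero, zero_le_one, sup_of_le_left]
              linarith
            · intro s hs
              simp only [Set.mem_iUnion, Finset.mem_range] at hs
              obtain ⟨i, hi, hs⟩ := hs
              exact ⟨(huv i hi).1.trans hs.1, hs.2.trans_le (huv i hi).2.2⟩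
          · exact ENNReal.toReal_le_of_le_ofReal he.le hvT
      _ = 2 * eps0 := by ring
  rw [e1, e2]
  refine (norm_add_le _ _).trans ?_
  gcongr
  exact norm_sum_le _ _

theorem fd_filter (Q : ℕ) (Bad : ℕ → Prop) (Dl : ℕ → ℝ) (r : ℝ) :
    (((Finset.range Q).filter (fun q => ¬ Bad q)) ×ˢ ((Finset.range Q).filter
      (fun q => ¬ Bad q))).filter (fun z => |Dl z.1 - Dl z.2| ≤ 2 * r)
    = ((Finset.range Q) ×ˢ (Finset.range Q)).filter (fun z => ¬ Bad z.1 ∧ ¬ Bad z.2 ∧
        |Dl z.1 - Dl z.2| ≤ 2 * r) := by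
  ext z
  simp only [Finset.mem_filter, Finset.mem_product]
  tauto

/-- The sum over pieces. -/
theorem fd_sum (N Q : ℕ) (a K eps0 s t kap1 r : ℝ) (b G2 M : ℕ → ℝ) (G1 : ℕ → ℝ)
    (hQ : 1 ≤ Q) (hs : 0 < s) (ht : 0 < t) (hr : 0 < r) (he : 0 ≤ eps0)
    (hb : ∀ i < N, 0 < b i) (hb1 : ∑ i ∈ Finset.range N, b i ≤ 1)
    (hG : ∀ i < N, G1 i ≤ (s * b i + (s * b i)⁻¹ * G2 i) / 2)
    (hG2 : ∀ i < N, G2 i ≤ ((t * (b i ^ 2)⁻¹) * (b i ^ 3 * K) + (t * (b i ^ 2)⁻¹)⁻¹ *
      (M i / (2 * r * (Q : ℝ) ^ 2))) / 2 + 6 * eps0 * (b i) ^ 2)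
    (hM : ∑ i ∈ Finset.range N, b i * M i ≤ kap1 * Q ^ 2) (ha : a = N * K) :
    ∑ i ∈ Finset.range N, G1 i
      ≤ (s + ((t * a + t⁻¹ * (kap1 / (2 * r))) / 2 + 6 * eps0) / s) / 2 := by
  have hQ0 : (0 : ℝ) < Q := by exact_mod_cast hQ
  have h1 : ∀ i ∈ Finset.range N, G1 i ≤ (s * b i + s⁻¹ * ((t * K + t⁻¹ * (b i * M i) /
      (2 * r * (Q : ℝ) ^ 2)) / 2 + 6 * eps0 * b i)) / 2 := by
    intro i hi
    have hi' := Finset.mem_range.1 hi
    have hbi := hb i hi'
    have h4 := mul_le_mul_of_nonneg_left (hG2 i hi') (show 0 ≤ (s * b i)⁻¹ by positivity)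
    have h5 : (s * b i)⁻¹ * (((t * (b i ^ 2)⁻¹) * (b i ^ 3 * K) +
          (t * (b i ^ 2)⁻¹)⁻¹ * (M i / (2 * r * (Q : ℝ) ^ 2))) / 2 + 6 * eps0 * (b i) ^ 2)
        = s⁻¹ * ((t * K + t⁻¹ * (b i * M i) / (2 * r * (Q : ℝ) ^ 2)) / 2 + 6 * eps0 * b i) := by
      field_simp
    rw [h5] at h4
    have h3 := hG i hi'
    linarith
  calc ∑ i ∈ Finset.range N, G1 i
      ≤ ∑ i ∈ Finset.range N, (s * b i + s⁻¹ * ((t * K + t⁻¹ * (b i * M i) /
      (2 * r * (Q : ℝ) ^ 2)) / 2 + 6 * eps0 * b i)) / 2 := Finset.sum_le_sum h1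
    _ = (s * (∑ i ∈ Finset.range N, b i) + s⁻¹ * ((t * (N * K) + t⁻¹ *
        (∑ i ∈ Finset.range N, b i * M i) / (2 * r * (Q : ℝ) ^ 2)) / 2 +
        6 * eps0 * ∑ i ∈ Finset.range N, b i)) / 2 := by
        have e : ∀ i ∈ Finset.range N, (s * b i + s⁻¹ * ((t * K + t⁻¹ * (b i * M i) /
          (2 * r * (Q : ℝ) ^ 2)) / 2 + 6 * eps0 * b i)) / 2
          = (s / 2) * b i + (s⁻¹ * t * K / 4) + (s⁻¹ * t⁻¹ / (2 * r * (Q : ℝ) ^ 2) / 4) *
            (b i * M i) + (3 * s⁻¹ * eps0) * b i := by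
          intro i _
          ring
        rw [Finset.sum_congr rfl e, Finset.sum_add_distrib, Finset.sum_add_distrib,
          Finset.sum_add_distrib, ← Finset.mul_sum, ← Finset.mul_sum, ← Finset.mul_sum,
          Finset.sum_const, Finset.card_range, nsmul_eq_mul]
        ring
    _ ≤ (s * 1 + s⁻¹ * ((t * (N * K) + t⁻¹ * (kap1 * Q ^ 2) / (2 * r * (Q : ℝ) ^ 2)) / 2 +
        6 * eps0 * 1)) / 2 := by gcongr
    _ = _ := by
        rw [ha]
        field_simp

theorem fd_Sm (E : ℝ → ℝ) (xi X eps0 Gam rho D r kap1 : ℝ) (N Q : ℕ) (u v Ec : ℕ → ℝ)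
    (Dl : ℕ → ℕ → ℝ) (Sg : ℕ → Finset ℕ) (M : ℕ → ℝ) (T : Set ℝ) (hE : Measurable E)
    (hX : |xi| = X) (hX1 : 1 ≤ X) (he : 0 < eps0) (hG : 0 ≤ Gam) (hrho0 : 0 < rho) (hD : 0 < D)
    (hr : 0 < r) (hr1 : r ≤ 1) (hk : 0 ≤ kap1) (hQ : 1 ≤ Q) (hT : MeasurableSet T)
    (huv : ∀ i < N, 0 ≤ u i ∧ u i < v i ∧ v i ≤ 1)
    (hv2 : ∑ i ∈ Finset.range N, (v i - u i) ≤ 1) (hScard : ∀ i, (Sg i).card ≤ Q)
    (hDl : ∀ i < N, ∀ q ∈ Sg i, |Dl i q| ≤ Gam)
    (hrho : ∀ i < N, ∀ s ∈ Set.Ico (u i) (v i), s ∈ T → |E s - Ec i| ≤ rho)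
    (hvol : ∀ i < N, ∀ x : ℝ, volume {s | s ∈ Set.Ico (u i) (v i) ∧ s ∈ T ∧
      |E s - x| ≤ Real.exp (-Gam - 1) / X} ≤ ENNReal.ofReal (D * (Real.exp (-Gam - 1) / X)))
    (hM : ∀ i < N, ((((Sg i) ×ˢ (Sg i)).filter (fun z => |Dl i z.1 - Dl i z.2| ≤ 2 * r)).card : ℝ)
      = M i)
    (hcard : (∑ i ∈ Finset.range N, (v i - u i) * M i) ≤ kap1 * Q ^ 2)
    (hsm : X * Real.exp Gam * rho * r ≤ eps0) :
    ∑ i ∈ Finset.range N, (∑ q ∈ Sg i, ‖fdg (volume.restrict (Set.Ico (u i) (v i) ∩ T)) E (Ec i)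
      (xi * Real.exp (Dl i q))‖) / Q
    ≤ Real.sqrt (6 * eps0) + ((N * (Real.exp (Gam + 1) / X * (fdC * D))) *
      (kap1 / (2 * r))) ^ (1 / 4 : ℝ) := by
  have hCpos := fdC_pos
  have hQ0 : (0 : ℝ) < Q := by exact_mod_cast hQ
  have hX0 : 0 < X := by linarith
  obtain ⟨g, hg⟩ : ∃ g : ℕ → ℝ → ℂ, ∀ i, g i =
      fdg (volume.restrict (Set.Ico (u i) (v i) ∩ T)) E (Ec i) := ⟨_, fun i => rfl⟩
  have hG2 : ∀ t : ℝ, 0 < t → ∀ i < N, (∑ q ∈ Sg i, ‖g i (xi * Real.exp (Dl i q))‖ ^ 2) / Q ≤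
      ((t * ((v i - u i) ^ 2)⁻¹) * ((v i - u i) ^ 3 * (Real.exp (Gam + 1) / X * (fdC * D))) +
      (t * ((v i - u i) ^ 2)⁻¹)⁻¹ * (M i / (2 * r * (Q : ℝ) ^ 2))) / 2 +
      6 * eps0 * (v i - u i) ^ 2 := by
    intro t ht i hi
    have hbi : 0 < v i - u i := by linarith [(huv i hi).2.1]
    have h4 := fd_one E hE xi X eps0 Gam rho D r (t * ((v i - u i) ^ 2)⁻¹) (u i) (v i) (Ec i) Q
      (Dl i) (Sg i) T hT hX hX1 he hG hrho0 hD hr hr1 hQ (hScard i) (huv i hi).2.1
      (by positivity) (hDl i hi) (hrho i hi) (hvol i hi) hsm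
    rw [hM i hi] at h4
    rw [hg i]
    exact h4
  have hG1 : ∀ s : ℝ, 0 < s → ∀ i < N, (∑ q ∈ Sg i, ‖g i (xi * Real.exp (Dl i q))‖) / Q ≤
      (s * (v i - u i) + (s * (v i - u i))⁻¹ *
        ((∑ q ∈ Sg i, ‖g i (xi * Real.exp (Dl i q))‖ ^ 2) / Q)) / 2 := by
    intro s hs i hi
    have hbi : 0 < v i - u i := by linarith [(huv i hi).2.1]
    have h1 : ∀ q ∈ Sg i, ‖g i (xi * Real.exp (Dl i q))‖ ≤ (s * (v i - u i) +
        (s * (v i - u i))⁻¹ * ‖g i (xi * Real.exp (Dl i q))‖ ^ 2) / 2 := by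
      intro q _
      have key : ∀ x y : ℝ, 0 < x → y ≤ (x + x⁻¹ * y ^ 2) / 2 := by
        intro x y hx
        have h2 : 0 ≤ x⁻¹ * (x - y) ^ 2 := by positivity
        have h3 : x⁻¹ * (x - y) ^ 2 = x - 2 * y + x⁻¹ * y ^ 2 := by
          field_simp
          ring
        linarith
      exact key _ _ (by positivity)
    calc (∑ q ∈ Sg i, ‖g i (xi * Real.exp (Dl i q))‖) / Q
        ≤ (∑ q ∈ Sg i, (s * (v i - u i) +
        (s * (v i - u i))⁻¹ * ‖g i (xi * Real.exp (Dl i q))‖ ^ 2) / 2) / Q := by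
          gcongr with q hq
          exact h1 q hq
      _ = (s * (v i - u i) * ((Sg i).card / Q) + (s * (v i - u i))⁻¹ *
        ((∑ q ∈ Sg i, ‖g i (xi * Real.exp (Dl i q))‖ ^ 2) / Q)) / 2 := by
          rw [← Finset.sum_div, Finset.sum_add_distrib, Finset.sum_const, nsmul_eq_mul,
            ← Finset.mul_sum]
          ring
      _ ≤ (s * (v i - u i) * 1 + (s * (v i - u i))⁻¹ *
        ((∑ q ∈ Sg i, ‖g i (xi * Real.exp (Dl i q))‖ ^ 2) / Q)) / 2 := by
          gcongr
          rw [div_le_one hQ0]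
          exact_mod_cast hScard i
      _ = _ := by rw [mul_one]
  simp only [← hg]
  apply fd_opt _ _ _ _ (by positivity) (by positivity) (by positivity)
  intro s t hs ht
  exact fd_sum N Q _ (Real.exp (Gam + 1) / X * (fdC * D)) eps0 s t kap1 r (fun i => v i - u i)
    (fun i => (∑ q ∈ Sg i, ‖g i (xi * Real.exp (Dl i q))‖ ^ 2) / Q) M _ hQ hs ht hr he.le
    (fun i hi => by linarith [(huv i hi).2.1]) hv2 (hG1 s hs) (hG2 t ht) hcard rfl

theorem fd_pc (E : ℝ → ℝ) (hE : Measurable E) (al xi X eps0 u v Ec Dl cst : ℝ) (q : ℕ) (T : Set ℝ)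
    (hX : |xi| = X) (hX0 : 0 < X) (he : 0 < eps0) (huv : u < v)
    (h9 : ∀ s ∈ Set.Ico u v, s ∈ T →
      |E (Int.fract (s + q * al)) - cst - Real.exp Dl * (E s - Ec)| ≤ eps0 / X) :
    ‖∫ s in Set.Ico u v ∩ T, Complex.exp ((xi * E (Int.fract (s + q * al)) : ℝ) * Complex.I)‖
      ≤ ‖fdg (volume.restrict (Set.Ico u v ∩ T)) E Ec (xi * Real.exp Dl)‖ + eps0 * (v - u) := by
  have hbi : 0 < v - u := by linarith
  have hfin : volume (Set.Ico u v ∩ T) ≤ ENNReal.ofReal (v - u) := by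
    refine (measure_mono Set.inter_subset_left).trans ?_
    rw [Real.volume_Ico]
  have hlt : volume (Set.Ico u v ∩ T) < ⊤ := lt_of_le_of_lt hfin ENNReal.ofReal_lt_top
  have hreal : volume.real (Set.Ico u v ∩ T) ≤ v - u :=
    ENNReal.toReal_le_of_le_ofReal hbi.le hfin
  have : IsFiniteMeasure (volume.restrict (Set.Ico u v ∩ T)) :=
    ⟨by rw [Measure.restrict_apply_univ]; exact hlt⟩
  have hFm : Measurable (fun s : ℝ => Complex.exp ((xi * E (Int.fract (s + q * al)) : ℝ) *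
      Complex.I)) := by
    have h5 : Measurable (fun s : ℝ => Int.fract (s + q * al)) :=
      measurable_fract.comp (measurable_id.add_const _)
    have h6 : Measurable (fun s : ℝ => E (Int.fract (s + q * al))) := hE.comp h5
    fun_prop
  have h10 : ‖∫ s in Set.Ico u v ∩ T, Complex.exp ((xi * cst : ℝ) * Complex.I) *
      Complex.exp ((xi * Real.exp Dl * (E s - Ec) : ℝ) * Complex.I)‖
      = ‖fdg (volume.restrict (Set.Ico u v ∩ T)) E Ec (xi * Real.exp Dl)‖ := by
    rw [integral_const_mul, norm_mul, fd_norm_exp, one_mul]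
    rfl
  have hHint : Integrable (fun s => Complex.exp ((xi * cst : ℝ) * Complex.I) *
      Complex.exp ((xi * Real.exp Dl * (E s - Ec) : ℝ) * Complex.I))
      (volume.restrict (Set.Ico u v ∩ T)) :=
    (fd_integrable _ E hE Ec (xi * Real.exp Dl)).const_mul _
  have hFint : Integrable (fun s : ℝ => Complex.exp ((xi * E (Int.fract (s + q * al)) : ℝ) *
      Complex.I)) (volume.restrict (Set.Ico u v ∩ T)) := by
    apply Integrable.of_bound hFm.aestronglyMeasurable 1
    exact Filter.Eventually.of_forall fun s => (fd_norm_exp _).le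
  have h11 : ‖∫ s in Set.Ico u v ∩ T, (Complex.exp ((xi * E (Int.fract (s + q * al)) : ℝ) *
      Complex.I) - Complex.exp ((xi * cst : ℝ) * Complex.I) *
      Complex.exp ((xi * Real.exp Dl * (E s - Ec) : ℝ) * Complex.I))‖ ≤ eps0 * (v - u) := by
    refine (norm_setIntegral_le_of_norm_le_const (C := eps0) hlt (fun s hs => ?_)).trans
      (by gcongr)
    have h12 : Complex.exp ((xi * cst : ℝ) * Complex.I) *
        Complex.exp ((xi * Real.exp Dl * (E s - Ec) : ℝ) * Complex.I)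
        = Complex.exp (((xi * (cst + Real.exp Dl * (E s - Ec)) : ℝ)) * Complex.I) := by
      rw [← Complex.exp_add]
      congr 1
      push_cast
      ring
    rw [h12]
    refine (fd_exp_sub _ _).trans ?_
    rw [← mul_sub, abs_mul, hX]
    have h13 := h9 s hs.1 hs.2
    calc X * |E (Int.fract (s + q * al)) - (cst + Real.exp Dl * (E s - Ec))|
        = X * |E (Int.fract (s + q * al)) - cst - Real.exp Dl * (E s - Ec)| := by
          congr 2
          ring
      _ ≤ X * (eps0 / X) := by gcongr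
      _ = eps0 := by field_simp
  rw [integral_sub hFint hHint] at h11
  rw [← h10]
  have h14 := norm_le_norm_add_norm_sub' (∫ s in Set.Ico u v ∩ T,
    Complex.exp ((xi * E (Int.fract (s + q * al)) : ℝ) * Complex.I))
    (∫ s in Set.Ico u v ∩ T, Complex.exp ((xi * cst : ℝ) * Complex.I) *
      Complex.exp ((xi * Real.exp Dl * (E s - Ec) : ℝ) * Complex.I))
  linarith

theorem fd_red (E : ℝ → ℝ) (al xi X eps0 : ℝ) (N Q : ℕ) (u v Ec : ℕ → ℝ)
    (Dl cst : ℕ → ℕ → ℝ) (Bad : ℕ → ℕ → Prop) (T : Set ℝ) (hE : Measurable E)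
    (hX : |xi| = X) (hX1 : 1 ≤ X) (he : 0 < eps0) (hQ : 1 ≤ Q) (hT : MeasurableSet T)
    (huv : ∀ i < N, 0 ≤ u i ∧ u i < v i ∧ v i ≤ 1)
    (hdis : ∀ i < N, ∀ i' < N, i ≠ i' → Disjoint (Set.Ico (u i) (v i)) (Set.Ico (u i') (v i')))
    (hsum : 1 - eps0 ≤ ∑ i ∈ Finset.range N, (v i - u i))
    (hbad : (∑ i ∈ Finset.range N, ∑ q ∈ Finset.range Q, (if Bad i q then (v i - u i) else 0))
      ≤ eps0 * Q)
    (hgood : ∀ i < N, ∀ q < Q, ¬ Bad i q → ∀ s ∈ Set.Ico (u i) (v i), s ∈ T →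
      |E (Int.fract (s + q * al)) - cst i q - Real.exp (Dl i q) * (E s - Ec i)| ≤ eps0 / X)
    (hvT : volume (Set.Ico (0:ℝ) 1 \ T) ≤ ENNReal.ofReal eps0) :
    ‖∫ s in (0:ℝ)..1, Complex.exp ((xi * E s : ℝ) * Complex.I)‖ ≤ 4 * eps0 +
      ∑ i ∈ Finset.range N, (∑ q ∈ (Finset.range Q).filter (fun q => ¬ Bad i q),
        ‖fdg (volume.restrict (Set.Ico (u i) (v i) ∩ T)) E (Ec i)
          (xi * Real.exp (Dl i q))‖) / Q := by
  have hQ0 : (0 : ℝ) < Q := by exact_mod_cast hQ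
  have hX0 : 0 < X := by linarith
  obtain ⟨_, hv2⟩ := fd_vol N u v huv hdis
  obtain ⟨g, hg⟩ : ∃ g : ℕ → ℝ → ℂ, ∀ i, g i =
      fdg (volume.restrict (Set.Ico (u i) (v i) ∩ T)) E (Ec i) := ⟨_, fun i => rfl⟩
  have hFm : ∀ q : ℕ, Measurable (fun s : ℝ => Complex.exp
      ((xi * E (Int.fract (s + q * al)) : ℝ) * Complex.I)) := by
    intro q
    have h5 : Measurable (fun s : ℝ => Int.fract (s + q * al)) :=
      measurable_fract.comp (measurable_id.add_const _)
    have h6 : Measurable (fun s : ℝ => E (Int.fract (s + q * al))) := hE.comp h5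
    fun_prop
  have hpiece : ∀ i < N, ∀ q < Q, ‖∫ s in Set.Ico (u i) (v i) ∩ T,
      Complex.exp ((xi * E (Int.fract (s + q * al)) : ℝ) * Complex.I)‖
      ≤ (if Bad i q then (v i - u i) else 0) + (if ¬ Bad i q then
        ‖g i (xi * Real.exp (Dl i q))‖ else 0) + eps0 * (v i - u i) := by
    intro i hi q hq
    have hbi : 0 < v i - u i := by linarith [(huv i hi).2.1]
    by_cases hB : Bad i q
    · rw [if_pos hB, if_neg (not_not.2 hB)]
      have hfin : volume (Set.Ico (u i) (v i) ∩ T) ≤ ENNReal.ofReal (v i - u i) := by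
        refine (measure_mono Set.inter_subset_left).trans ?_
        rw [Real.volume_Ico]
      have hlt : volume (Set.Ico (u i) (v i) ∩ T) < ⊤ :=
        lt_of_le_of_lt hfin ENNReal.ofReal_lt_top
      have hreal : volume.real (Set.Ico (u i) (v i) ∩ T) ≤ v i - u i :=
        ENNReal.toReal_le_of_le_ofReal hbi.le hfin
      have h7 := norm_setIntegral_le_of_norm_le_const (C := 1) hlt (f := fun s : ℝ => Complex.exp
        ((xi * E (Int.fract (s + q * al)) : ℝ) * Complex.I)) (fun s _ => (fd_norm_exp _).le)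
      have h8 : 0 ≤ eps0 * (v i - u i) := by positivity
      linarith
    · rw [if_neg hB, if_pos hB, zero_add, hg i]
      exact fd_pc E hE al xi X eps0 (u i) (v i) (Ec i) (Dl i q) (cst i q) q T hX hX0 he
        (huv i hi).2.1 (hgood i hi q hq hB)
  have hq1 : ∀ q ∈ Finset.range Q, ‖∫ s in (0:ℝ)..1, Complex.exp ((xi * E s : ℝ) * Complex.I)‖
      ≤ 2 * eps0 + ∑ i ∈ Finset.range N, ((if Bad i q then (v i - u i) else 0) +
        (if ¬ Bad i q then ‖g i (xi * Real.exp (Dl i q))‖ else 0) + eps0 * (v i - u i)) := by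
    intro q hq
    rw [fd_shift E xi (q * al)]
    refine (fd_split N u v huv hdis T hT eps0 he hsum hvT _ (hFm q)
      (fun s => (fd_norm_exp _).le)).trans ?_
    gcongr with i hi
    exact hpiece i (Finset.mem_range.1 hi) q (Finset.mem_range.1 hq)
  have h15 := Finset.sum_le_sum hq1
  rw [Finset.sum_const, Finset.card_range, nsmul_eq_mul, Finset.sum_add_distrib,
    Finset.sum_const, Finset.card_range, nsmul_eq_mul, Finset.sum_comm] at h15
  have h16 : ∀ i ∈ Finset.range N, (∑ q ∈ Finset.range Q, ((if Bad i q then (v i - u i) else 0) +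
        (if ¬ Bad i q then ‖g i (xi * Real.exp (Dl i q))‖ else 0) + eps0 * (v i - u i)))
      = (∑ q ∈ Finset.range Q, (if Bad i q then (v i - u i) else 0)) +
        (∑ q ∈ (Finset.range Q).filter (fun q => ¬ Bad i q),
          ‖g i (xi * Real.exp (Dl i q))‖) + Q * eps0 * (v i - u i) := by
    intro i _
    rw [Finset.sum_add_distrib, Finset.sum_add_distrib, Finset.sum_const, Finset.card_range,
      nsmul_eq_mul, Finset.sum_filter]
    ring
  rw [Finset.sum_congr rfl h16, Finset.sum_add_distrib, Finset.sum_add_distrib,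
    ← Finset.mul_sum] at h15
  have h17 : (Q : ℝ) * eps0 * ∑ i ∈ Finset.range N, (v i - u i) ≤ Q * eps0 * 1 := by gcongr
  simp only [← hg]
  have h18 : ∑ i ∈ Finset.range N, (∑ q ∈ (Finset.range Q).filter (fun q => ¬ Bad i q),
      ‖g i (xi * Real.exp (Dl i q))‖) = Q * ∑ i ∈ Finset.range N,
      (∑ q ∈ (Finset.range Q).filter (fun q => ¬ Bad i q), ‖g i (xi * Real.exp (Dl i q))‖) / Q := by
    rw [Finset.mul_sum]
    apply Finset.sum_congr rfl
    intro i _
    field_simp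
  rw [h18] at h15
  apply le_of_mul_le_mul_left _ hQ0
  linarith

theorem fourier_decay : ∃ C : ℝ, 0 < C ∧
    ∀ (E : ℝ → ℝ) (al xi X eps0 Gam rho D r kap1 : ℝ) (N Q : ℕ) (u v Ec : ℕ → ℝ)
      (Dl cst : ℕ → ℕ → ℝ) (Bad : ℕ → ℕ → Prop) (T : Set ℝ),
    Measurable E → |xi| = X → 1 ≤ X → 0 < eps0 → eps0 ≤ 1 → 0 ≤ Gam → 0 < rho → 0 < D → 0 < r → r ≤ 1 →
    0 ≤ kap1 → 1 ≤ Q → MeasurableSet T →
    (∀ i < N, 0 ≤ u i ∧ u i < v i ∧ v i ≤ 1) →
    (∀ i < N, ∀ i' < N, i ≠ i' → Disjoint (Set.Ico (u i) (v i)) (Set.Ico (u i') (v i'))) →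
    1 - eps0 ≤ ∑ i ∈ Finset.range N, (v i - u i) →
    (∑ i ∈ Finset.range N, ∑ q ∈ Finset.range Q, (if Bad i q then (v i - u i) else 0)) ≤ eps0 * Q →
    (∀ i < N, ∀ q < Q, ¬ Bad i q → |Dl i q| ≤ Gam ∧ ∀ s ∈ Set.Ico (u i) (v i), s ∈ T →
      |E (Int.fract (s + q * al)) - cst i q - Real.exp (Dl i q) * (E s - Ec i)| ≤ eps0 / X) →
    (∀ i < N, ∀ s ∈ Set.Ico (u i) (v i), s ∈ T → |E s - Ec i| ≤ rho) →
    volume (Set.Ico (0:ℝ) 1 \ T) ≤ ENNReal.ofReal eps0 →
    (∀ i < N, ∀ x : ℝ, volume {s | s ∈ Set.Ico (u i) (v i) ∧ s ∈ T ∧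
      |E s - x| ≤ Real.exp (-Gam - 1) / X} ≤ ENNReal.ofReal (D * (Real.exp (-Gam - 1) / X))) →
    (∑ i ∈ Finset.range N, (v i - u i) *
      ((((Finset.range Q) ×ˢ (Finset.range Q)).filter (fun z => ¬ Bad i z.1 ∧ ¬ Bad i z.2 ∧
        |Dl i z.1 - Dl i z.2| ≤ 2 * r)).card : ℝ)) ≤ kap1 * Q ^ 2 →
    X * Real.exp Gam * rho * r ≤ eps0 →
    ‖∫ s in (0:ℝ)..1, Complex.exp ((xi * E s : ℝ) * Complex.I)‖
      ≤ C * (Real.sqrt eps0 + (D * Real.exp Gam * N * kap1 / (X * r)) ^ (1 / 4 : ℝ)) := by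
  have hCpos := fdC_pos
  refine ⟨7 + (fdC * Real.exp 1 / 2) ^ (1 / 4 : ℝ), by positivity, ?_⟩
  intro E al xi X eps0 Gam rho D r kap1 N Q u v Ec Dl cst Bad T hE hX hX1 he he1 hG hrho0 hD hr hr1
    hk hQ hT huv hdis hsum hbad hgood hrho hvT hvol hcard hsm
  have hX0 : 0 < X := by linarith
  obtain ⟨_, hv2⟩ := fd_vol N u v huv hdis
  have hmain := fd_red E al xi X eps0 N Q u v Ec Dl cst Bad T hE hX hX1 he hQ hT huv hdis hsum hbad
    (fun i hi q hq hB => (hgood i hi q hq hB).2) hvT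
  obtain ⟨M, hM⟩ : ∃ M : ℕ → ℝ, ∀ i, M i = ((((Finset.range Q) ×ˢ (Finset.range Q)).filter
      (fun z => ¬ Bad i z.1 ∧ ¬ Bad i z.2 ∧ |Dl i z.1 - Dl i z.2| ≤ 2 * r)).card : ℝ) :=
    ⟨_, fun i => rfl⟩
  have hcard' : (∑ i ∈ Finset.range N, (v i - u i) * M i) ≤ kap1 * Q ^ 2 := by
    simp only [hM]
    exact hcard
  have hSmle := fd_Sm E xi X eps0 Gam rho D r kap1 N Q u v Ec Dl
    (fun i => (Finset.range Q).filter (fun q => ¬ Bad i q)) M T hE hX hX1 he hG hrho0 hD hr hr1 hk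
    hQ hT huv hv2 (fun i => (Finset.card_filter_le _ _).trans (Finset.card_range Q).le)
    (fun i hi q hq => by
      have hq' := Finset.mem_filter.1 hq
      exact (hgood i hi q (Finset.mem_range.1 hq'.1) hq'.2).1) hrho hvol
    (fun i hi => by rw [hM i, ← fd_filter Q (Bad i) (Dl i) r]) hcard' hsm
  have h20 : ((N * (Real.exp (Gam + 1) / X * (fdC * D))) * (kap1 / (2 * r))) ^ (1 / 4 : ℝ)
      = (fdC * Real.exp 1 / 2) ^ (1 / 4 : ℝ) *
        (D * Real.exp Gam * N * kap1 / (X * r)) ^ (1 / 4 : ℝ) := by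
    rw [← Real.mul_rpow (by positivity) (by positivity)]
    congr 1
    rw [Real.exp_add]
    field_simp
  have h21 : Real.sqrt (6 * eps0) ≤ 3 * Real.sqrt eps0 := by
    rw [Real.sqrt_mul (by norm_num)]
    have : Real.sqrt 6 ≤ 3 := by
      rw [Real.sqrt_le_left (by norm_num)]
      norm_num
    gcongr
  have h22 : eps0 ≤ Real.sqrt eps0 := by
    apply Real.le_sqrt_of_sq_le
    nlinarith
  have h23 : 0 ≤ (D * Real.exp Gam * N * kap1 / (X * r)) ^ (1 / 4 : ℝ) := by positivity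
  have h24 : 0 ≤ (fdC * Real.exp 1 / 2) ^ (1 / 4 : ℝ) := by positivity
  have h25 := Real.sqrt_nonneg eps0
  rw [h20] at hSmle
  have h27 := hmain.trans (by gcongr)
  refine h27.trans ?_
  rw [add_mul, mul_add, mul_add]
  have h26 := mul_nonneg h24 h25
  linarith

end SF
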