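import Pool.Agent.Helper65.SF.XT
import Pool.Agent.Helper65.SF.ENDL

/-!
# SF-FIN, part 1: the final argument with the decay theorem as hypothesis
-/

namespace SF

open MeasureTheory

private lemma fin_int_eq (lam : ℝ) (n : ℕ) (xi : ℝ) :
    ∫ s in (0:ℝ)..1, Complex.exp (-(xi * EE lam n s : ℝ) * Complex.I) =
      ∫ s in (0:ℝ)..1, Complex.exp (-(xi * EEx lam n s : ℝ) * Complex.I) := by
  rw [intervalIntegral.integral_of_le (by norm_num), intervalIntegral.integral_of_le (by norm_num),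
    integral_Ioc_eq_integral_Ioo, integral_Ioc_eq_integral_Ioo]
  refine setIntegral_congr_fun measurableSet_Ioo fun s hs => ?_
  have : EEx lam n s = EE lam n s := by
    unfold EEx
    rw [if_pos hs]
  simp only [this]

private lemma fin_intervalIntegrable {f : ℝ → ℝ} (hf : Measurable f) (xi : ℝ) (a b : ℝ) :
    IntervalIntegrable (fun s => Complex.exp ((xi * f s : ℝ) * Complex.I)) volume a b := by
  have h1 : Measurable fun s => Complex.exp ((xi * f s : ℝ) * Complex.I) := by
    apply Complex.measurable_exp.comp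
    exact (Complex.measurable_ofReal.comp (hf.const_mul xi)).mul_const _
  rw [intervalIntegrable_iff]
  refine Measure.integrableOn_of_bounded (M := 1) (by simp [Set.uIoc]) h1.aestronglyMeasurable ?_
  refine Filter.Eventually.of_forall fun s => ?_
  rw [Complex.norm_exp_ofReal_mul_I]

private lemma fin_norm_le_one (f : ℝ → ℝ) (xi : ℝ) :
    ‖∫ s in (0:ℝ)..1, Complex.exp ((xi * f s : ℝ) * Complex.I)‖ ≤ 1 := by
  have h := intervalIntegral.norm_integral_le_of_norm_le_const (a := (0:ℝ)) (b := 1) (C := 1)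
    (f := fun s => Complex.exp ((xi * f s : ℝ) * Complex.I))
    (fun s _ => by rw [Complex.norm_exp_ofReal_mul_I])
  simpa using h

private lemma fin_lip {f : ℝ → ℝ} (hf : Measurable f) (hb : ∀ s, |f s| ≤ 3) (xi xi' : ℝ) :
    ‖(∫ s in (0:ℝ)..1, Complex.exp ((xi * f s : ℝ) * Complex.I)) -
      ∫ s in (0:ℝ)..1, Complex.exp ((xi' * f s : ℝ) * Complex.I)‖ ≤ 3 * |xi - xi'| := by
  rw [← intervalIntegral.integral_sub (fin_intervalIntegrable hf xi 0 1) (fin_intervalIntegrable hf xi' 0 1)]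
  have h := intervalIntegral.norm_integral_le_of_norm_le_const (a := (0:ℝ)) (b := 1) (C := 3 * |xi - xi'|)
    (f := fun s => Complex.exp ((xi * f s : ℝ) * Complex.I) - Complex.exp ((xi' * f s : ℝ) * Complex.I))
    (fun s _ => by
      have h1 : Complex.exp ((xi * f s : ℝ) * Complex.I) - Complex.exp ((xi' * f s : ℝ) * Complex.I) =
          Complex.exp ((xi' * f s : ℝ) * Complex.I) * (Complex.exp (Complex.I * (((xi - xi') * f s : ℝ) : ℂ)) - 1) := by
        rw [mul_sub, mul_one, ← Complex.exp_add]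
        congr 2
        push_cast
        ring
      rw [h1, norm_mul, Complex.norm_exp_ofReal_mul_I, one_mul]
      refine (Real.norm_exp_I_mul_ofReal_sub_one_le).trans ?_
      rw [Real.norm_eq_abs, abs_mul, mul_comm]
      exact mul_le_mul_of_nonneg_right (hb s) (abs_nonneg _))
  simpa using h

/-- `final_gen` with the decay theorem as hypothesis. -/
theorem final_gen0 (hdecay : ∃ lam1 kap : ℝ, 0 < lam1 ∧ lam1 ≤ 1 / 100 ∧ 0 < kap ∧ ∀ lam : ℝ, 0 < lam → lam ≤ lam1 →
    ∃ X0 : ℝ, 1 ≤ X0 ∧ ∀ X : ℝ, X0 ≤ X → ∃ n1 : ℕ, ∀ n ≥ n1, ∀ xi : ℝ, |xi| = X →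
      ‖∫ s in (0:ℝ)..1, Complex.exp ((xi * EEx lam n s : ℝ) * Complex.I)‖
        ≤ X ^ (-(kap * lam ^ (4 / 5 : ℝ) / Real.log (1 / lam)))) :
    ∃ lam0 : ℝ, 0 < lam0 ∧ lam0 ≤ 1 / 100 ∧ ∀ lam : ℝ, 0 < lam → lam < lam0 →
    ∀ nu : Measure ℝ, IsProbabilityMeasure nu → nu {x | 10 < |x|} = 0 →
      (∀ xi : ℝ, Filter.Tendsto (fun n : ℕ =>
        (∫ s in (0:ℝ)..1, Complex.exp (-(xi * EE lam n s : ℝ) * Complex.I)) ^ 2) Filter.atTop
        (nhds (∫ x, Complex.exp ((xi * x : ℝ) * Complex.I) ∂nu))) →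
      nu.AbsolutelyContinuous volume := by
  obtain ⟨lam1, kap, hl1, hl1', hkap, hdec⟩ := hdecay
  obtain ⟨c, C, lam2, hc, hC, hl2, hl2', htyp⟩ := typ
  have hlim1 : Filter.Tendsto (fun x : ℝ => C * (Real.log x * x ^ (1 / 10 : ℝ)) ^ 2) (nhdsWithin 0 (Set.Ioi 0))
      (nhds 0) := by
    have h := ((tendsto_log_mul_rpow_nhdsGT_zero (r := 1 / 10) (by norm_num)).pow 2).const_mul C
    simpa using h
  have hlim2 : Filter.Tendsto (fun x : ℝ => kap * x ^ (4 / 5 : ℝ)) (nhdsWithin 0 (Set.Ioi 0)) (nhds 0) := by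
    have h1 : Filter.Tendsto (fun x : ℝ => x ^ (4 / 5 : ℝ)) (nhds 0) (nhds (0 ^ (4 / 5 : ℝ))) :=
      (Real.continuousAt_rpow_const 0 (4 / 5) (Or.inr (by norm_num))).tendsto
    rw [Real.zero_rpow (by norm_num)] at h1
    have h2 : Filter.Tendsto (fun x : ℝ => x ^ (4 / 5 : ℝ)) (nhdsWithin 0 (Set.Ioi 0)) (nhds 0) :=
      h1.mono_left nhdsWithin_le_nhds
    have h := h2.const_mul kap
    simpa using h
  have hev := (hlim1.eventually_lt_const (mul_pos hc hkap)).and (hlim2.eventually_lt_const one_pos)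
  obtain ⟨u, hu, hsub⟩ := mem_nhdsGT_iff_exists_Ioo_subset.1 hev
  have hu0 : 0 < u := hu
  refine ⟨min u (min lam1 lam2), lt_min hu0 (lt_min hl1 hl2),
    (min_le_right _ _).trans ((min_le_left _ _).trans hl1'), fun lam h hlt nu hnu hsupp hchar => ?_⟩
  have hltu : lam < u := hlt.trans_le (min_le_left _ _)
  have hlt1 : lam < lam1 := hlt.trans_le ((min_le_right _ _).trans (min_le_left _ _))
  have hlt2 : lam < lam2 := hlt.trans_le ((min_le_right _ _).trans (min_le_right _ _))
  obtain ⟨hs1, hs2⟩ := hsub (show lam ∈ Set.Ioo 0 u from ⟨h, hltu⟩)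
  have hs1 : C * (Real.log lam * lam ^ (1 / 10 : ℝ)) ^ 2 < c * kap := hs1
  have hs2 : kap * lam ^ (4 / 5 : ℝ) < 1 := hs2
  have h100 : lam ≤ 1 / 100 := by linarith
  set L : ℝ := Real.log (1 / lam) with hL
  have hLlog : L = -Real.log lam := by rw [hL, one_div, Real.log_inv]
  have hL1 : 1 ≤ L := by
    rw [hL, Real.le_log_iff_exp_le (by positivity)]
    have h1 : Real.exp 1 < 3 := by linarith [Real.exp_one_lt_d9]
    have h2 : (100 : ℝ) ≤ 1 / lam := by
      rw [le_div_iff₀ h]; linarith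
    linarith
  have hL0 : 0 < L := by linarith
  set gam : ℝ := kap * lam ^ (4 / 5 : ℝ) / L with hgam
  have hp45 : 0 < lam ^ (4 / 5 : ℝ) := Real.rpow_pos_of_pos h _
  have hgam0 : 0 < gam := by positivity
  have hgam1 : gam ≤ 1 := by
    rw [hgam, div_le_one hL0]
    linarith
  set bet : ℝ := c * gam / L - C * lam with hbet
  have hbet0 : 0 < bet := by
    rw [hbet, hgam]
    have h1 : C * lam < c * (kap * lam ^ (4 / 5 : ℝ) / L) / L := by
      rw [lt_div_iff₀ hL0, mul_div_assoc', lt_div_iff₀ hL0]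
      have h2 : lam = lam ^ (4 / 5 : ℝ) * (lam ^ (1 / 10 : ℝ)) ^ 2 := by
        rw [← Real.rpow_natCast (lam ^ (1 / 10 : ℝ)) 2, ← Real.rpow_mul h.le, ← Real.rpow_add h]
        norm_num
      have h3 : C * lam * L * L = lam ^ (4 / 5 : ℝ) * (C * (Real.log lam * lam ^ (1 / 10 : ℝ)) ^ 2) := by
        conv_lhs => rw [h2]
        rw [hLlog]
        ring
      rw [h3]
      have h4 := mul_lt_mul_of_pos_left hs1 hp45
      linarith
    linarith
  obtain ⟨X0, hX0, hX⟩ := hdec lam h hlt1.le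
  obtain ⟨Cl, hCl, hT⟩ := htyp lam h hlt2.le
  have hmeas : ∀ n : ℕ, Measurable (EEx lam (n + 1)) := fun n => EEx_measurable lam h.le h100 _ (by omega)
  have hbd : ∀ (n : ℕ) (s : ℝ), |EEx lam (n + 1) s| ≤ 3 := fun n s => EEx_bound lam h.le h100 _ (by omega) s
  have hneg : ∀ (n : ℕ) (xi : ℝ), ∫ s in (0:ℝ)..1, Complex.exp (-(xi * EEx lam (n + 1) s : ℝ) * Complex.I) =
      ∫ s in (0:ℝ)..1, Complex.exp ((-xi * EEx lam (n + 1) s : ℝ) * Complex.I) := by
    intro n xi
    congr 1
    funext s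
    congr 1
    push_cast
    ring
  set Ct : ℝ := max 5 (max (X0 ^ gam) Cl) with hCt
  have hCt5 : 5 ≤ Ct := le_max_left _ _
  have hCtX : X0 ^ gam ≤ Ct := (le_max_left _ _).trans (le_max_right _ _)
  have hCtCl : Cl ≤ Ct := (le_max_right _ _).trans (le_max_right _ _)
  refine ac_of_decay nu hnu hsupp (fun n => EEx lam (n + 1)) hmeas hbd ?_
    Ct gam bet gam (by linarith) hgam0 hgam1 hbet0 hgam0.le (by linarith) ?_
  · intro xi
    have h1 := (hchar xi).comp (Filter.tendsto_add_atTop_nat 1)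
    refine h1.congr fun n => ?_
    simp only [Function.comp]
    rw [fin_int_eq]
  · intro R hR
    have hR0 : 0 < R := by linarith
    -- finitely many frequencies
    have hfin : ∀ j : ℕ, ∃ n1 : ℕ, ∀ n ≥ n1, ∀ xi : ℝ, |xi| = X0 + j / R →
        ‖∫ s in (0:ℝ)..1, Complex.exp ((xi * EEx lam n s : ℝ) * Complex.I)‖ ≤ (X0 + j / R) ^ (-gam) := by
      intro j
      exact hX (X0 + j / R) (by have : (0:ℝ) ≤ j / R := by positivity
                                linarith)
    choose nj hnj using hfin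
    obtain ⟨nT, hnT⟩ := hT R gam hR hgam0 hgam1
    set N : ℕ := ⌈R * R⌉₊ + 1 with hN
    refine ⟨max nT ((Finset.range N).sup nj), fun n hn => ⟨fun xi hxi1 hxiR => ?_, ?_⟩⟩
    · rw [hneg]
      have hxi0 : 0 < |xi| := by linarith
      rcases le_total |xi| X0 with hle | hle
      · refine (fin_norm_le_one _ _).trans ?_
        have h1 : |xi| ^ gam ≤ X0 ^ gam := Real.rpow_le_rpow hxi0.le hle hgam0.le
        have h2 : |xi| ^ gam * |xi| ^ (-gam) = 1 := by
          rw [← Real.rpow_add hxi0]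
          simp
        have h3 : 0 < |xi| ^ (-gam) := Real.rpow_pos_of_pos hxi0 _
        calc (1:ℝ) = |xi| ^ gam * |xi| ^ (-gam) := h2.symm
          _ ≤ Ct * |xi| ^ (-gam) := mul_le_mul_of_nonneg_right (h1.trans hCtX) h3.le
      · set j : ℕ := ⌊(|xi| - X0) * R⌋₊ with hj
        have hnn : 0 ≤ (|xi| - X0) * R := mul_nonneg (by linarith) hR0.le
        have hj1 : (j : ℝ) ≤ (|xi| - X0) * R := Nat.floor_le hnn
        have hj2 : (|xi| - X0) * R < j + 1 := Nat.lt_floor_add_one _
        have hjN : j < N := by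
          have h1 : (j : ℝ) ≤ R * R := by
            refine hj1.trans (mul_le_mul_of_nonneg_right (by linarith) hR0.le)
          have h2 : (j : ℝ) ≤ (⌈R * R⌉₊ : ℝ) := h1.trans (Nat.le_ceil _)
          have h3 : j ≤ ⌈R * R⌉₊ := by exact_mod_cast h2
          omega
        have hXj : X0 + j / R ≤ |xi| := by
          have : (j : ℝ) / R ≤ |xi| - X0 := by rwa [div_le_iff₀ hR0]
          linarith
        have hXj' : |xi| ≤ X0 + j / R + 1 / R := by
          have : |xi| - X0 < (j + 1) / R := by rwa [lt_div_iff₀ hR0]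
          rw [add_div] at this
          linarith
        have hjR : (0:ℝ) ≤ j / R := by positivity
        set Xj : ℝ := X0 + j / R with hXjdef
        have hXj1 : 1 ≤ Xj := by linarith
        have hnn1 : n + 1 ≥ nj j := by
          have h1 : nj j ≤ (Finset.range N).sup nj := Finset.le_sup (f := nj) (Finset.mem_range.2 hjN)
          have h2 := (le_max_right nT ((Finset.range N).sup nj)).trans hn
          omega
        obtain ⟨xi', hxi', hxx⟩ : ∃ xi' : ℝ, |xi'| = Xj ∧ |-xi - xi'| = |xi| - Xj := by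
          rcases le_total 0 xi with hs | hs
          · refine ⟨-Xj, by rw [abs_neg, abs_of_nonneg (by linarith)], ?_⟩
            rw [abs_of_nonneg hs] at hXj ⊢
            have : -xi - -Xj = -(xi - Xj) := by ring
            rw [this, abs_neg, abs_of_nonneg (by linarith)]
          · refine ⟨Xj, by rw [abs_of_nonneg (by linarith)], ?_⟩
            rw [abs_of_nonpos hs] at hXj ⊢
            rw [abs_of_nonneg (by linarith)]
        have h1 := hnj j (n + 1) hnn1 xi' hxi'
        have h2 := fin_lip (hmeas n) (hbd n) (-xi) xi'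
        rw [hxx] at h2
        have h3 : ‖∫ s in (0:ℝ)..1, Complex.exp ((-xi * EEx lam (n + 1) s : ℝ) * Complex.I)‖ ≤
            Xj ^ (-gam) + 3 * (1 / R) := by
          have h4 := norm_sub_norm_le (∫ s in (0:ℝ)..1, Complex.exp ((-xi * EEx lam (n + 1) s : ℝ) * Complex.I))
            (∫ s in (0:ℝ)..1, Complex.exp ((xi' * EEx lam (n + 1) s : ℝ) * Complex.I))
          linarith
        refine h3.trans ?_
        have hp : 0 < |xi| ^ (-gam) := Real.rpow_pos_of_pos hxi0 _
        have h5 : Xj ^ (-gam) ≤ 2 * |xi| ^ (-gam) := by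
          have h6 : |xi| / 2 ≤ Xj := by
            have : 1 / R ≤ 1 := by
              rw [div_le_one hR0]; exact hR
            linarith
          have h7 : Xj ^ (-gam) ≤ (|xi| / 2) ^ (-gam) :=
            Real.rpow_le_rpow_of_nonpos (by linarith) h6 (by linarith)
          refine h7.trans ?_
          rw [Real.div_rpow hxi0.le (by norm_num), div_le_iff₀ (by positivity)]
          have h8 : (1:ℝ) ≤ 2 * 2 ^ (-gam) := by
            have h9 : (2:ℝ) ^ (-1 : ℝ) ≤ 2 ^ (-gam) := Real.rpow_le_rpow_of_exponent_le (by norm_num) (by linarith)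
            rw [Real.rpow_neg_one] at h9
            linarith
          nlinarith
        have h10 : 3 * (1 / R) ≤ 3 * |xi| ^ (-gam) := by
          have h11 : 1 / R ≤ |xi| ^ (-1 : ℝ) := by
            rw [Real.rpow_neg_one, one_div]
            exact inv_anti₀ hxi0 hxiR
          have h12 : |xi| ^ (-1 : ℝ) ≤ |xi| ^ (-gam) := Real.rpow_le_rpow_of_exponent_le hxi1 (by linarith)
          linarith
        have h13 := mul_le_mul_of_nonneg_right hCt5 hp.le
        linarith
    · have hnn1 : n + 1 ≥ nT := by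
        have h2 := (le_max_left nT ((Finset.range N).sup nj)).trans hn
        omega
      obtain ⟨T, hTm, hTs, _, hTv, hTl⟩ := hnT (n + 1) hnn1
      refine ⟨T, hTm, hTs, hTv.trans (ENNReal.ofReal_le_ofReal ?_), fun x => (hTl x).trans (ENNReal.ofReal_le_ofReal ?_)⟩
      · exact mul_le_mul_of_nonneg_right hCtCl (Real.rpow_nonneg hR0.le _)
      · exact mul_le_mul_of_nonneg_right hCtCl (Real.rpow_nonneg hR0.le _)

end SF
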