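import Pool.Agent.Helper65.SF.XF
import Pool.Agent.Helper65.SF.FINa
import Pool.Agent.Helper65.SF.A7

/-!
# SF-FIN: absolute continuity of the density of states measure for every small coupling

Proof in words.  `E n = EEx lam (n+1)`.  `hlim`: `charfun_limit` (the integrals of `EE` and `EEx` over `0..1` agree).
`gam = kap lam^(4/5)/log (1/lam)` (at most 1 for lam small), `eps1 = gam`, `bet = c gam/log (1/lam) - C lam > 0` for lam small
(`lam^(4/5)/log(1/lam)^2 >> lam`), `typ` with `Y = R`, `del = gam`.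
Decay uniformly for `1 <= |xi| <= R`: for `|xi| <= X0` the integral is at most `1 <= X0^gam |xi|^(-gam)`; for `X0 <= |xi| <= R` use `decay` at the
finitely many `X = X0 + j/R`, and `‖int e(xi E) - int e(xi' E)‖ <= 3 |xi - xi'|` (`EEx_bound`), which is at most `3/R <= 3 |xi|^(-gam)`.
-/

namespace SF

open MeasureTheory

theorem final_gen : ∃ lam0 : ℝ, 0 < lam0 ∧ lam0 ≤ 1 / 100 ∧ ∀ lam : ℝ, 0 < lam → lam < lam0 →
    ∀ nu : Measure ℝ, IsProbabilityMeasure nu → nu {x | 10 < |x|} = 0 →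
      (∀ xi : ℝ, Filter.Tendsto (fun n : ℕ =>
        (∫ s in (0:ℝ)..1, Complex.exp (-(xi * EE lam n s : ℝ) * Complex.I)) ^ 2) Filter.atTop
        (nhds (∫ x, Complex.exp ((xi * x : ℝ) * Complex.I) ∂nu))) →
      nu.AbsolutelyContinuous volume :=
  final_gen0 decay

theorem final : ∃ lam0 : ℝ, 0 < lam0 ∧ ∀ (lam : ℝ) (h : 0 < lam), lam < lam0 →
    ∀ nu : Measure ℝ, IsDOS lam h.le nu → nu.AbsolutelyContinuous volume := by
  obtain ⟨lam0, h0, h1, hf⟩ := final_gen
  refine ⟨lam0, h0, fun lam h hlt nu hnu => ?_⟩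
  have h100 : lam ≤ 1 / 100 := by linarith
  exact hf lam h hlt nu hnu.1 (DOS_support lam h.le h100 nu hnu) (fun xi => charfun_limit lam h.le h100 nu hnu xi)

end SF
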