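import Pool.Agent.Helper65.SF.A7
import Pool.Agent.Helper41.DOS.Mom
import Pool.Agent.Helper41.DOS.Final

/-!
# SF-FQ: composition with the density of states library

`charfun_limit_of`: the characteristic function limit for any probability measure on `[-10,10]` with the moments of
the density of states measure.  `final_FIB_of`: the final statement from the general form of the main theorem.
-/

namespace SF

open MeasureTheory Set

theorem charfun_limit_of (lam : ℝ) (h0 : 0 ≤ lam) (h1 : lam ≤ 1 / 100) (nu : Measure ℝ)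
    (hp : IsProbabilityMeasure nu) (hs : nu {x | 10 < |x|} = 0)
    (hmom : ∀ j : ℕ, ∫ x, x ^ j ∂nu = ∑ i ∈ Finset.range (j + 1), (j.choose i : ℝ) *
      (∫ om in (0:ℝ)..1, mom (pot lam om) i 0) * ∫ om in (0:ℝ)..1, mom (pot lam om) (j - i) 0)
    (xi : ℝ) :
    Filter.Tendsto (fun n : ℕ =>
      (∫ s in (0:ℝ)..1, Complex.exp (-(xi * EE lam n s : ℝ) * Complex.I)) ^ 2) Filter.atTop
      (nhds (∫ x, Complex.exp ((xi * x : ℝ) * Complex.I) ∂nu)) := by
  obtain ⟨m, hm⟩ : ∃ m : ℕ → ℝ, m = fun j => ∫ om in (0:ℝ)..1, mom (pot lam om) j 0 := ⟨_, rfl⟩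
  have hmb : ∀ j, |m j| ≤ 3 ^ j := by
    intro j
    rw [hm]
    exact h53_mbound lam h0 h1 j
  have hae : ∀ᵐ x ∂nu, |x| ≤ 10 := by
    rw [ae_iff]
    simpa using hs
  -- the characteristic function of `nu`
  have hnuS := h53_charfun nu (fun x => x) aestronglyMeasurable_id 10 hae xi
  -- the series of the limit
  let A : ℕ → ℂ := fun j => ((xi : ℂ) * Complex.I) ^ j / (j.factorial : ℂ) * (m j : ℂ)
  let bd : ℕ → ℝ := fun j => (|xi| * 3) ^ j / (j.factorial : ℝ)
  have hbd : Summable bd := Real.summable_pow_div_factorial _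
  have hterm : ∀ (j : ℕ) (y : ℝ), |y| ≤ 3 ^ j →
      ‖((xi : ℂ) * Complex.I) ^ j / (j.factorial : ℂ) * (y : ℂ)‖ ≤ bd j := by
    intro j y hy
    rw [norm_mul, norm_div, norm_pow, norm_mul, Complex.norm_I, mul_one, Complex.norm_real,
      Complex.norm_natCast, Complex.norm_real, Real.norm_eq_abs, Real.norm_eq_abs]
    simp only [bd]
    rw [mul_pow, mul_div_right_comm]
    exact mul_le_mul_of_nonneg_left hy (by positivity)
  have hAn : Summable fun j => ‖A j‖ :=
    Summable.of_nonneg_of_le (fun _ => norm_nonneg _) (fun j => hterm j (m j) (hmb j)) hbd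
  have hprod : (∑' j, A j) * (∑' j, A j) = ∫ x, Complex.exp ((xi * x : ℝ) * Complex.I) ∂nu := by
    rw [tsum_mul_tsum_eq_tsum_sum_range_of_summable_norm hAn hAn, ← hnuS.tsum_eq]
    congr 1
    funext j
    rw [hmom j]
    push_cast
    rw [Finset.mul_sum]
    refine Finset.sum_congr rfl fun i hi => ?_
    have hij : i ≤ j := by
      have := Finset.mem_range.1 hi
      omega
    have h5 : ((j.choose i : ℕ) : ℂ) * (i.factorial : ℂ) * ((j - i).factorial : ℂ) =
        (j.factorial : ℂ) := by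
      exact_mod_cast Nat.choose_mul_factorial_mul_factorial hij
    have h6 : ((xi : ℂ) * Complex.I) ^ i * ((xi : ℂ) * Complex.I) ^ (j - i) =
        ((xi : ℂ) * Complex.I) ^ j := by
      rw [← pow_add, Nat.add_sub_cancel' hij]
    have h7 : (i.factorial : ℂ) ≠ 0 := by exact_mod_cast Nat.factorial_ne_zero i
    have h8 : ((j - i).factorial : ℂ) ≠ 0 := by exact_mod_cast Nat.factorial_ne_zero (j - i)
    have h9 : ((j.choose i : ℕ) : ℂ) ≠ 0 := by
      exact_mod_cast (Nat.choose_pos hij).ne'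
    simp only [A, hm]
    rw [← h5, ← h6]
    field_simp
  -- the approximants
  have hSn : ∀ n : ℕ, 1 ≤ n →
      HasSum (fun j : ℕ => ((xi : ℂ) * Complex.I) ^ j / (j.factorial : ℂ) *
        ((∫ s in (0:ℝ)..1, (-EE lam n s) ^ j : ℝ) : ℂ))
        (∫ s in (0:ℝ)..1, Complex.exp (-(xi * EE lam n s : ℝ) * Complex.I)) := by
    intro n hn
    haveI : IsProbabilityMeasure (volume.restrict (Set.Ioo (0:ℝ) 1)) := ⟨by simp⟩
    have h2 := h53_charfun (volume.restrict (Set.Ioo (0:ℝ) 1)) (fun s => -EE lam n s)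
      ((aemeasurable_restrict_of_monotoneOn measurableSet_Ioo
        (EE_mono lam h0 h1 n hn)).neg.aestronglyMeasurable) 3 (by
        rw [ae_restrict_iff' measurableSet_Ioo]
        refine Filter.Eventually.of_forall fun s hs => ?_
        rw [abs_neg]
        exact (EE_spec lam h0 h1 n hn s hs.1 hs.2).2) xi
    simp only [intervalIntegral.integral_of_le (zero_le_one (α := ℝ)), integral_Ioc_eq_integral_Ioo]
    have e1 : ∀ s : ℝ, Complex.exp (-((xi * EE lam n s : ℝ) : ℂ) * Complex.I) =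
        Complex.exp (((xi * -EE lam n s : ℝ) : ℂ) * Complex.I) := by
      intro s
      congr 1
      push_cast
      ring
    simp only [e1]
    exact h2
  have hmn : ∀ n : ℕ, 1 ≤ n → ∀ j, |∫ s in (0:ℝ)..1, (-EE lam n s) ^ j| ≤ 3 ^ j := by
    intro n hn j
    rw [intervalIntegral.integral_of_le (zero_le_one (α := ℝ)), integral_Ioc_eq_integral_Ioo]
    have h2 := norm_setIntegral_le_of_norm_le_const (μ := volume) (s := Set.Ioo (0:ℝ) 1)
      (f := fun s => (-EE lam n s) ^ j) (C := 3 ^ j) (by simp) (by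
        intro s hs
        rw [Real.norm_eq_abs, abs_pow, abs_neg]
        exact pow_le_pow_left₀ (abs_nonneg _) (EE_spec lam h0 h1 n hn s hs.1 hs.2).2 j)
    simpa using h2
  have hlim : Filter.Tendsto (fun n : ℕ => ∑' j : ℕ, ((xi : ℂ) * Complex.I) ^ j / (j.factorial : ℂ) *
      ((∫ s in (0:ℝ)..1, (-EE lam n s) ^ j : ℝ) : ℂ)) Filter.atTop (nhds (∑' j, A j)) := by
    refine tendsto_tsum_of_dominated_convergence hbd ?_ ?_
    · intro j
      refine Filter.Tendsto.const_mul _ ?_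
      have h2 := moment_limit lam h0 h1 j
      simp only [hm]
      exact (Complex.continuous_ofReal.tendsto _).comp h2
    · filter_upwards [Filter.eventually_ge_atTop 1] with n hn j
      exact hterm j _ (hmn n hn j)
  rw [← hprod, ← sq]
  refine Filter.Tendsto.congr' ?_ (hlim.pow 2)
  filter_upwards [Filter.eventually_ge_atTop 1] with n hn
  rw [(hSn n hn).tsum_eq]

/-- The general form of the main theorem. -/
def FinalGen : Prop := ∃ lam0 : ℝ, 0 < lam0 ∧ lam0 ≤ 1 / 100 ∧ ∀ lam : ℝ, 0 < lam → lam < lam0 →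
    ∀ nu : Measure ℝ, IsProbabilityMeasure nu → nu {x | 10 < |x|} = 0 →
      (∀ xi : ℝ, Filter.Tendsto (fun n : ℕ =>
        (∫ s in (0:ℝ)..1, Complex.exp (-(xi * EE lam n s : ℝ) * Complex.I)) ^ 2) Filter.atTop
        (nhds (∫ x, Complex.exp ((xi * x : ℝ) * Complex.I) ∂nu))) →
      nu.AbsolutelyContinuous volume

theorem final_FIB_of (H : FinalGen) : ∃ lam0 : ℝ, 0 < lam0 ∧ ∀ lam ∈ Set.Ioo 0 lam0,
    ∃ ν : Measure ℝ, FIB.IsDOS lam lam ν ∧ (∀ ν' : Measure ℝ, FIB.IsDOS lam lam ν' → ν' = ν) ∧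
      ν ≪ volume := by
  obtain ⟨lam0, h0, h1, H⟩ := H
  refine ⟨lam0, h0, fun lam hlam => ?_⟩
  obtain ⟨μ, p, s, m⟩ := DOS.dos1 lam
  have hD : FIB.IsDOS lam lam (μ.conv μ) := DOS.dos_conv lam lam μ μ _ _ s s m m
  refine ⟨μ.conv μ, hD, fun ν' hν' => DOS.dos_unique lam lam _ _ hν' hD, ?_⟩
  obtain ⟨hp, hs⟩ := DOS.conv_supp μ μ _ _ s s
  have hl : |lam| ≤ 1 / 100 := by
    rw [abs_of_pos hlam.1]
    linarith [hlam.2]
  have hs10 : (μ.conv μ) {x | 10 < |x|} = 0 := by
    refine measure_mono_null ?_ hs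
    intro x hx hx2
    have h3 : |x| ≤ 2 + |lam| + (2 + |lam|) := abs_le.2 hx2
    have h4 : 10 < |x| := hx
    linarith
  refine H lam hlam.1 hlam.2 (μ.conv μ) hp hs10 fun xi => ?_
  refine charfun_limit_of lam hlam.1.le (by linarith [hlam.2]) (μ.conv μ) hp hs10 ?_ xi
  intro j
  rw [DOS.conv_moments μ μ _ _ s s j]
  refine Finset.sum_congr rfl fun i _ => ?_
  rw [m, m, DOS.mom_conv, DOS.mom_conv]
  ring

end SF
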