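import Pool.Agent.Helper65.SF.F5b

/-!
# SF-GW1: the defect of the lifted angles away from the singular region

Proof in words.  Put `x, y, z = TW k, TW (k+1), TW (k+2)`, `eta = z - x - y`, `|eta| <= 7 sqrt lam` (`TW_defect`).  Since
`|sin (x+y)| >= w >= K sqrt lam`, also `sin z /= 0`, so all three half traces are in (-1,1) and equal the cosines
(`cos_TW`, `sin_TW_ne`), `sin x = o k sqrt (1 - x_k^2)` etc.  `prod_sq01` and `rel1` of `St_word`:
`cos z = cos x cos y - sin x sin y sqrt (1 + q)`, `q = lam^2/(4 sin^2 x sin^2 y) <= lam^2/(4 w^4)`.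
`|sqrt (1+q) - 1 - q/2| <= q^2/8`, so `|cos z - cos (x+y) + lam^2/(8 sin x sin y)| <= lam^4/w^6`.
`|cos (x+y+eta) - cos (x+y) + sin (x+y) eta| <= eta^2`.  First `|sin (x+y) eta| <= lam^2/(7 w^2) + eta^2`,
`eta^2 <= (7/K) w |eta|`, hence `|eta| <= lam^2/(6 w^3)`; inserting `eta^2 <= lam^4/(36 w^6)` gives the claim after division by
`sin (x+y)`.
-/

namespace SF

/-- Second order Taylor bound of the cosine. -/
theorem gw1_cos (a e : ℝ) (he : |e| ≤ 1) :
    |Real.cos (a + e) - Real.cos a + Real.sin a * e| ≤ e ^ 2 := by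
  have h1 : Real.cos (a + e) - Real.cos a + Real.sin a * e =
      Real.cos a * (Real.cos e - 1) + Real.sin a * (e - Real.sin e) := by
    rw [Real.cos_add]; ring
  have h2 : |Real.cos e - 1| ≤ e ^ 2 / 2 := by
    rw [abs_le]
    have h3 := Real.one_sub_sq_div_two_le_cos (x := e)
    have h4 := Real.cos_le_one e
    constructor
    · linarith
    · nlinarith [sq_nonneg e]
  have h3 : |e - Real.sin e| ≤ e ^ 2 / 2 := by
    have h4 := Real.sin_bound he
    have h5 : |e - Real.sin e| ≤ |Real.sin e - (e - e ^ 3 / 6)| + |e ^ 3 / 6| := by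
      have h6 : e - Real.sin e = -(Real.sin e - (e - e ^ 3 / 6)) + e ^ 3 / 6 := by ring
      rw [h6]
      refine (abs_add_le _ _).trans ?_
      rw [abs_neg]
    have h6 : |e ^ 3 / 6| ≤ e ^ 2 / 6 := by
      rw [abs_div, abs_pow, abs_of_pos (by norm_num : (0:ℝ) < 6), ← sq_abs e]
      have := abs_nonneg e
      have h7 : |e| ^ 3 ≤ |e| ^ 2 := by nlinarith [sq_nonneg |e|]
      linarith
    have h7 : |e| ^ 5 ≤ e ^ 2 := by
      rw [← sq_abs e]
      exact pow_le_pow_of_le_one (abs_nonneg e) he (by norm_num)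
    have h8 : 0 ≤ e ^ 2 := sq_nonneg e
    linarith
  rw [h1]
  refine (abs_add_le _ _).trans ?_
  rw [abs_mul, abs_mul]
  have h5 := Real.abs_cos_le_one a
  have h6 := Real.abs_sin_le_one a
  have h7 := abs_nonneg (Real.cos e - 1)
  have h8 := abs_nonneg (e - Real.sin e)
  have h9 : |Real.cos a| * |Real.cos e - 1| ≤ 1 * |Real.cos e - 1| :=
    mul_le_mul_of_nonneg_right h5 h7
  have h10 : |Real.sin a| * |e - Real.sin e| ≤ 1 * |e - Real.sin e| :=
    mul_le_mul_of_nonneg_right h6 h8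
  linarith

/-- The algebraic part: `P ^ 2 = t ^ 2 + m`, `P t < 0`. -/
theorem gw1_alg {P t m : ℝ} (hm : 0 ≤ m) (h : P ^ 2 = t ^ 2 + m) (hs : P * t < 0) :
    |P + t| ≤ m / (2 * |t|) ∧ |P + t + m / (2 * t)| ≤ m ^ 2 / (8 * |t| ^ 3) := by
  have ht : t ≠ 0 := by
    rintro rfl
    rw [mul_zero] at hs
    exact lt_irrefl _ hs
  have hta : 0 < |t| := abs_pos.2 ht
  have h1 : 2 * |t| ≤ |P - t| := by
    have h2 : (2 * |t|) ^ 2 ≤ |P - t| ^ 2 := by
      rw [mul_pow, sq_abs, sq_abs]
      nlinarith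
    exact le_of_sq_le_sq h2 (abs_nonneg _)
  have hPt : P - t ≠ 0 := abs_pos.1 (by linarith)
  have h2 : P + t = m / (P - t) := by
    rw [eq_div_iff hPt]
    linear_combination h
  have h3 : P + t + m / (2 * t) = m ^ 2 / (2 * t * (P - t) ^ 2) := by
    have h4 : m / (P - t) + m / (2 * t) = m * (P + t) / (2 * t * (P - t)) := by
      field_simp
      ring
    calc P + t + m / (2 * t) = m / (P - t) + m / (2 * t) := by rw [h2]
      _ = m * (P + t) / (2 * t * (P - t)) := h4
      _ = m * (m / (P - t)) / (2 * t * (P - t)) := by rw [h2]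
      _ = m ^ 2 / (2 * t * (P - t) ^ 2) := by field_simp
  constructor
  · rw [h2, abs_div, abs_of_nonneg hm]
    exact div_le_div_of_nonneg_left hm (by positivity) h1
  · rw [h3, abs_div, abs_of_nonneg (sq_nonneg m), abs_mul, abs_mul, abs_of_pos (by norm_num : (0:ℝ) < 2),
      abs_pow]
    refine div_le_div_of_nonneg_left (sq_nonneg m) (by positivity) ?_
    have h5 : (2 * |t|) ^ 2 ≤ |P - t| ^ 2 := pow_le_pow_left₀ (by positivity) h1 2
    nlinarith [mul_le_mul_of_nonneg_left h5 hta.le]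

theorem defect : ∃ C K : ℝ, 1 ≤ C ∧ 1 ≤ K ∧ ∀ (lam w b psi : ℝ), 0 < lam → lam ≤ 1 / 100 → 0 < w →
    w ≤ 1 → K * Real.sqrt lam ≤ w → Real.sin b ≠ 0 → ∀ k : ℕ,
    w ≤ |Real.sin (TW lam b psi k)| → w ≤ |Real.sin (TW lam b psi (k + 1))| →
    w ≤ |Real.sin (TW lam b psi k + TW lam b psi (k + 1))| →
    |TW lam b psi (k + 2) - TW lam b psi (k + 1) - TW lam b psi k
        - lam ^ 2 / (8 * Real.sin (TW lam b psi k) * Real.sin (TW lam b psi (k + 1))
          * Real.sin (TW lam b psi k + TW lam b psi (k + 1)))| ≤ C * lam ^ 4 / w ^ 7 ∧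
    |TW lam b psi (k + 2) - TW lam b psi (k + 1) - TW lam b psi k| ≤ C * lam ^ 2 / w ^ 3 := by
  refine ⟨1, 14, le_rfl, by norm_num, ?_⟩
  intro lam w b psi h0 h1 hw hw1 hK hb k hx hy hs
  have hSt := St_word lam b psi hb
  have hdef := TW_defect lam b psi h0.le h1 hb k
  have hcx := cos_TW lam b psi hb k
  have hcy := cos_TW lam b psi hb (k + 1)
  have hcz := cos_TW lam b psi hb (k + 2)
  have hWx : |W lam b psi k| < 1 := (sin_TW_ne lam b psi hb k).1 (abs_pos.1 (by linarith))
  have hWy : |W lam b psi (k + 1)| < 1 :=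
    (sin_TW_ne lam b psi hb (k + 1)).1 (abs_pos.1 (by linarith))
  have hsx : Real.sin (TW lam b psi k) =
      oW lam b psi k * Real.sqrt (1 - clip (W lam b psi k) ^ 2) :=
    sin_lift hSt (T0 lam b psi) b (exp_T0 b psi hb) (exp_T1 b psi hb) k
  have hsy : Real.sin (TW lam b psi (k + 1)) =
      oW lam b psi (k + 1) * Real.sqrt (1 - clip (W lam b psi (k + 1)) ^ 2) :=
    sin_lift hSt (T0 lam b psi) b (exp_T0 b psi hb) (exp_T1 b psi hb) (k + 1)
  have hsz := (sin_TW_ne lam b psi hb (k + 2))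
  have hrel : (W lam b psi (k + 2) - W lam b psi (k + 1) * W lam b psi k) *
      (oW lam b psi k * oW lam b psi (k + 1)) < 0 := hSt.rel1 k hWx hWy
  have hprod : (W lam b psi (k + 2) - W lam b psi (k + 1) * W lam b psi k) ^ 2 =
      (1 - W lam b psi (k + 1) ^ 2) * (1 - W lam b psi k ^ 2) + lam ^ 2 / 4 := prod_sq01 hSt k
  generalize TW lam b psi k = x at *
  generalize TW lam b psi (k + 1) = y at *
  generalize TW lam b psi (k + 2) = z at *
  generalize W lam b psi k = A at *
  generalize W lam b psi (k + 1) = B at *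
  generalize W lam b psi (k + 2) = D at *
  generalize oW lam b psi k = o0 at *
  generalize oW lam b psi (k + 1) = o1 at *
  rw [clip_of_lt hWx] at hcx hsx
  rw [clip_of_lt hWy] at hcy hsy
  -- the defect is small
  obtain ⟨e, he⟩ : ∃ e, e = z - y - x := ⟨_, rfl⟩
  have hz : z = x + y + e := by rw [he]; ring
  rw [← he] at hdef
  have he2 : |e| ≤ w / 2 := by linarith
  have he1 : |e| ≤ 1 := by linarith
  have hcosT := gw1_cos (x + y) e he1
  rw [← hz] at hcosT
  have hsinz : Real.sin z ≠ 0 := by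
    intro h
    have h3 : |Real.sin z - Real.sin (x + y)| ≤ |e| := by
      have h4 := Real.abs_sin_sub_sin_le z (x + y)
      have h5 : z - (x + y) = e := by rw [hz]; ring
      rwa [h5] at h4
    rw [h, zero_sub, abs_neg] at h3
    linarith
  have hWz : |D| < 1 := hsz.1 hsinz
  rw [clip_of_lt hWz] at hcz
  -- the algebraic relation
  have hAx : 0 < 1 - A ^ 2 := by
    have := (abs_lt.1 hWx)
    nlinarith
  have hBx : 0 < 1 - B ^ 2 := by
    have := (abs_lt.1 hWy)
    nlinarith
  have hP2 : (D - B * A) ^ 2 = (Real.sin x * Real.sin y) ^ 2 + lam ^ 2 / 4 := by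
    rw [hprod, mul_pow, Real.sin_sq, Real.sin_sq, hcx, hcy]
    ring
  have hPt : (D - B * A) * (Real.sin x * Real.sin y) < 0 := by
    have h3 : (D - B * A) * (Real.sin x * Real.sin y) =
        ((D - B * A) * (o0 * o1)) * (Real.sqrt (1 - A ^ 2) * Real.sqrt (1 - B ^ 2)) := by
      rw [hsx, hsy]; ring
    rw [h3]
    exact mul_neg_of_neg_of_pos hrel (mul_pos (Real.sqrt_pos.2 hAx) (Real.sqrt_pos.2 hBx))
  obtain ⟨h5, h6⟩ := gw1_alg (by positivity) hP2 hPt
  have hcd : D - B * A + Real.sin x * Real.sin y = Real.cos z - Real.cos (x + y) := by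
    rw [Real.cos_add, hcx, hcy, hcz]; ring
  rw [hcd] at h5 h6
  have ht : w ^ 2 ≤ |Real.sin x * Real.sin y| := by
    rw [abs_mul, pow_two]
    exact mul_le_mul hx hy hw.le (abs_nonneg _)
  have h7 : |Real.cos z - Real.cos (x + y)| ≤ lam ^ 2 / (8 * w ^ 2) := by
    refine h5.trans ?_
    rw [div_div]
    refine div_le_div_of_nonneg_left (by positivity) (by positivity) ?_
    linarith
  have h8 : |Real.cos z - Real.cos (x + y) + lam ^ 2 / 4 / (2 * (Real.sin x * Real.sin y))| ≤
      lam ^ 4 / (128 * w ^ 6) := by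
    refine h6.trans ?_
    have h9 : (w ^ 2) ^ 3 ≤ |Real.sin x * Real.sin y| ^ 3 := pow_le_pow_left₀ (by positivity) ht 3
    have h10 : (lam ^ 2 / 4) ^ 2 / (8 * |Real.sin x * Real.sin y| ^ 3) =
        lam ^ 4 / (128 * |Real.sin x * Real.sin y| ^ 3) := by
      have h11 : |Real.sin x * Real.sin y| ≠ 0 := by
        have : 0 < w ^ 2 := by positivity
        linarith
      field_simp
      ring
    rw [h10]
    refine div_le_div_of_nonneg_left (by positivity) (by positivity) ?_
    nlinarith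
  -- first bound
  have hse : |Real.sin (x + y) * e| ≤ lam ^ 2 / (8 * w ^ 2) + e ^ 2 := by
    have h9 : Real.sin (x + y) * e = (Real.cos z - Real.cos (x + y) + Real.sin (x + y) * e) -
        (Real.cos z - Real.cos (x + y)) := by ring
    rw [h9]
    refine (abs_sub _ _).trans ?_
    linarith
  have hee : e ^ 2 ≤ w / 2 * |e| := by
    rw [← sq_abs e]
    nlinarith [abs_nonneg e]
  have hb1 : |e| ≤ lam ^ 2 / (4 * w ^ 3) := by
    rw [abs_mul] at hse
    have h9 : w * |e| ≤ |Real.sin (x + y)| * |e| := mul_le_mul_of_nonneg_right hs (abs_nonneg e)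
    have h10 : w / 2 * |e| ≤ lam ^ 2 / (8 * w ^ 2) := by linarith
    have h11 : |e| = (w / 2 * |e|) * (2 / w) := by field_simp
    rw [h11]
    have h12 : lam ^ 2 / (4 * w ^ 3) = lam ^ 2 / (8 * w ^ 2) * (2 / w) := by
      field_simp
      ring
    rw [h12]
    exact mul_le_mul_of_nonneg_right h10 (by positivity)
  have he4 : e ^ 2 ≤ lam ^ 4 / (16 * w ^ 6) := by
    rw [← sq_abs e]
    have h9 := pow_le_pow_left₀ (abs_nonneg e) hb1 2
    have h10 : (lam ^ 2 / (4 * w ^ 3)) ^ 2 = lam ^ 4 / (16 * w ^ 6) := by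
      rw [div_pow]
      congr 1 <;> ring
    rwa [h10] at h9
  rw [← he]
  constructor
  · have hs0 : Real.sin (x + y) ≠ 0 := abs_pos.1 (by linarith)
    have hsx0 : Real.sin x ≠ 0 := abs_pos.1 (by linarith)
    have hsy0 : Real.sin y ≠ 0 := abs_pos.1 (by linarith)
    have h9 : e - lam ^ 2 / (8 * Real.sin x * Real.sin y * Real.sin (x + y)) =
        ((Real.cos z - Real.cos (x + y) + Real.sin (x + y) * e) -
          (Real.cos z - Real.cos (x + y) + lam ^ 2 / 4 / (2 * (Real.sin x * Real.sin y)))) /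
          Real.sin (x + y) := by
      field_simp
      ring
    rw [h9, abs_div]
    have h10 : |(Real.cos z - Real.cos (x + y) + Real.sin (x + y) * e) -
          (Real.cos z - Real.cos (x + y) + lam ^ 2 / 4 / (2 * (Real.sin x * Real.sin y)))| ≤
          lam ^ 4 / w ^ 6 := by
      refine (abs_sub _ _).trans ?_
      have h11 : lam ^ 4 / (16 * w ^ 6) = lam ^ 4 / w ^ 6 / 16 := by
        field_simp
      have h12 : lam ^ 4 / (128 * w ^ 6) = lam ^ 4 / w ^ 6 / 128 := by
        field_simp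
      have h13 : 0 ≤ lam ^ 4 / w ^ 6 := by positivity
      linarith
    have h11 : (1 : ℝ) * lam ^ 4 / w ^ 7 = lam ^ 4 / w ^ 6 / w := by
      field_simp
    rw [h11]
    exact div_le_div₀ (by positivity) h10 hw hs
  · refine hb1.trans ?_
    rw [one_mul]
    refine div_le_div_of_nonneg_left (by positivity) (by positivity) ?_
    have : 0 < w ^ 3 := by positivity
    linarith

end SF
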