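import Mathlib

/-!
# SF-GW2: the linear path past the singular point (pure Fibonacci arithmetic)

`N` divisible by 4, `LL N a b k = (fib (k-1) a + (-1)^(k-1) fib (N+1-k) b)/fib N`, `LL 1 = b`, `LL (N+1) = a`;
`ww N k = max (fib (k-1)) (fib (N+1-k))/fib N`.

Proof in words.
* `LL_rec`: `fib (k+1) = fib k + fib (k-1)`, `fib (N+1-k) = fib (N-k) + fib (N-k-1)`.
* `LL_bound`: k odd: both terms positive, clear.  k even: `fib (k-1) a - fib (N+1-k) b`; as N/2 is even and k is even, `k = N/2 + 1` is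
  impossible; for `k <= N/2`: `fib (N+1-k) >= fib (N/2+1)`, `fib (k-1) <= fib (N/2-1)` and `fib (N/2+1)/fib (N/2-1) >= 5/2`,
  so `|.| >= fib (N+1-k) (b - (2/5) a)`; for `k >= N/2+2`: `fib (k-1) >= (5/2) fib (N+1-k)`, `|.| >= fib (k-1) (a - (2/5) b)`.
* `LL_sum`: exact identity `sum_{k=1}^{N-1} fib (N-k)/(L_k L_(k+1) L_(k+2)) = fib N/(b^2 L_2) - (fib N)^2/(a b^2)`: the summand
  telescopes: with `D_k = fib (N-k+1)...`; check: put `v_k = fib (N+1-k)` (so `v_(k) = v_(k+1) + v_(k+2)`, `v_(N+1) = 0`,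
  `v_N = 1`); the Casoratian `L_k v_(k+1) + ... ` of `(-1)^k v_k` and `L_k` is constant, `v_(k+1)/(L_k L_(k+1) L_(k+2))` is a difference
  `u_(k+1) - u_k` with `u_k = const * (quotient of L's and v's)`.  (An alternative: induct on the number of terms for the
  sum from k = 1 to m, with the closed form `F(m)` found from the two boundary cases.)
* `green`: solution of `e (k+2) - e (k+1) - e k = eta k`, `e 1 = e (N+1) = 0`: with `c_j = fib j`,
  `e k = fib (k-1) e 2 + sum_{j=1}^{k-2} fib (k-1-j) eta j`, `e 2 = - sum_{j=1}^{N-1} (fib (N-j)/fib N) eta j` (this is `green2`);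
  `fib (k-1-j) fib N - fib (k-1) fib (N-j) = ± fib j fib (N+1-k)` (d'Ocagne/Vajda), so
  `|e k| <= sum_{j<=k-2} fib j fib (N+1-k)/fib N |eta j| + sum_{j>=k-1} fib (k-1) fib (N-j)/fib N |eta j|`, and with
  `|eta j| <= M/(ww j)^3`, `ww j >= max (fib (j-1), fib (N+1-j))/fib N` both sums are geometric with the maximum at `j = N/2`
  (respectively at j = k): they are at most `C M (fib N)^2 ww k`.
* `sums`: geometric sums (`fib (N-k) <= ...`), numerically the constants are 2.6, 0.44, 9.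
-/

namespace SF

noncomputable def LL (N : ℕ) (a b : ℝ) (k : ℕ) : ℝ :=
  ((Nat.fib (k - 1) : ℝ) * a + (-1) ^ (k + 1) * (Nat.fib (N + 1 - k) : ℝ) * b) / (Nat.fib N : ℝ)

noncomputable def ww (N : ℕ) (k : ℕ) : ℝ :=
  max (Nat.fib (k - 1) : ℝ) (Nat.fib (N + 1 - k) : ℝ) / (Nat.fib N : ℝ)

private lemma fibpos {N : ℕ} (hN : 1 ≤ N) : (0 : ℝ) < (Nat.fib N : ℝ) := by
  exact_mod_cast Nat.fib_pos.2 hN

private lemma fib_le_two (n : ℕ) (hn : 1 ≤ n) : (Nat.fib (n + 1) : ℝ) ≤ 2 * (Nat.fib n : ℝ) := by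
  obtain ⟨m, rfl⟩ : ∃ m, n = m + 1 := ⟨n - 1, by omega⟩
  have h1 : Nat.fib (m + 2) = Nat.fib m + Nat.fib (m + 1) := Nat.fib_add_two
  have h2 : Nat.fib m ≤ Nat.fib (m + 1) := Nat.fib_le_fib_succ
  have h3 : (Nat.fib (m + 1 + 1) : ℝ) = (Nat.fib m : ℝ) + (Nat.fib (m + 1) : ℝ) := by
    exact_mod_cast h1
  have h4 : (Nat.fib m : ℝ) ≤ (Nat.fib (m + 1) : ℝ) := by exact_mod_cast h2
  rw [h3]; linarith

private lemma fib_le_three (n : ℕ) (hn : 1 ≤ n) : (Nat.fib (n + 2) : ℝ) ≤ 3 * (Nat.fib n : ℝ) := by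
  have h1 : (Nat.fib (n + 2) : ℝ) = (Nat.fib n : ℝ) + (Nat.fib (n + 1) : ℝ) := by
    exact_mod_cast (Nat.fib_add_two (n := n))
  have h2 := fib_le_two n hn
  rw [h1]; linarith

private lemma fib_mono' {m n : ℕ} (h : m ≤ n) : (Nat.fib m : ℝ) ≤ (Nat.fib n : ℝ) := by
  exact_mod_cast Nat.fib_mono h

private lemma fib_add' (m n : ℕ) : (Nat.fib (m + n + 1) : ℝ) =
    (Nat.fib m : ℝ) * (Nat.fib n : ℝ) + (Nat.fib (m + 1) : ℝ) * (Nat.fib (n + 1) : ℝ) := by
  exact_mod_cast Nat.fib_add m n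

/-- `fib (m+n) <= fib m * fib (n+2)` for `m >= 1` -/
private lemma fib_add_le (m n : ℕ) (hm : 1 ≤ m) :
    (Nat.fib (m + n) : ℝ) ≤ (Nat.fib m : ℝ) * (Nat.fib (n + 2) : ℝ) := by
  obtain ⟨p, rfl⟩ : ∃ p, m = p + 1 := ⟨m - 1, by omega⟩
  have h := fib_add' p n
  have e : p + 1 + n = p + n + 1 := by omega
  rw [e, h]
  have h1 : (Nat.fib (n + 2) : ℝ) = (Nat.fib n : ℝ) + (Nat.fib (n + 1) : ℝ) := by
    exact_mod_cast (Nat.fib_add_two (n := n))
  rw [h1]
  have h2 : (Nat.fib p : ℝ) ≤ (Nat.fib (p + 1) : ℝ) := fib_mono' (Nat.le_succ p)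
  have h3 : (0 : ℝ) ≤ (Nat.fib n : ℝ) := Nat.cast_nonneg _
  nlinarith [mul_le_mul_of_nonneg_right h2 h3]

theorem LL_rec (N : ℕ) (hN : 4 ≤ N) (hN4 : N % 4 = 0) (a b : ℝ) :
    LL N a b 1 = b ∧ LL N a b (N + 1) = a ∧
    ∀ k, 1 ≤ k → k + 2 ≤ N + 1 → LL N a b (k + 2) = LL N a b (k + 1) + LL N a b k := by
  have hF : (0 : ℝ) < (Nat.fib N : ℝ) := fibpos (by omega)
  refine ⟨?_, ?_, ?_⟩
  · unfold LL
    have e : N + 1 - 1 = N := by omega
    simp only [Nat.sub_self, Nat.fib_zero, Nat.cast_zero, e]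
    field_simp
    ring
  · unfold LL
    have e : N + 1 - 1 = N := by omega
    simp only [e, Nat.sub_self, Nat.fib_zero, Nat.cast_zero]
    field_simp
    ring
  · intro k hk hk2
    obtain ⟨j, rfl⟩ : ∃ j, k = j + 1 := ⟨k - 1, by omega⟩
    obtain ⟨m, rfl⟩ : ∃ m, N = j + 2 + m := ⟨N - (j + 2), by omega⟩
    unfold LL
    have e1 : j + 1 + 2 - 1 = j + 2 := by omega
    have e2 : j + 1 + 1 - 1 = j + 1 := by omega
    have e3 : j + 1 - 1 = j := by omega
    have e4 : j + 2 + m + 1 - (j + 1 + 2) = m := by omega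
    have e5 : j + 2 + m + 1 - (j + 1 + 1) = m + 1 := by omega
    have e6 : j + 2 + m + 1 - (j + 1) = m + 2 := by omega
    rw [e1, e2, e3, e4, e5, e6]
    have h1 : (Nat.fib (j + 2) : ℝ) = (Nat.fib j : ℝ) + (Nat.fib (j + 1) : ℝ) := by
      exact_mod_cast (Nat.fib_add_two (n := j))
    have h2 : (Nat.fib (m + 2) : ℝ) = (Nat.fib m : ℝ) + (Nat.fib (m + 1) : ℝ) := by
      exact_mod_cast (Nat.fib_add_two (n := m))
    rw [h1, h2, ← add_div]
    congr 1
    ring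

private lemma two_fib (p q : ℕ) (hp : 2 ≤ p ∨ 4 ≤ q) (hpq : p + 2 ≤ q) :
    5 * (Nat.fib p : ℝ) ≤ 2 * (Nat.fib q : ℝ) := by
  by_cases hp2 : 2 ≤ p
  · obtain ⟨r, rfl⟩ : ∃ r, p = r + 2 := ⟨p - 2, by omega⟩
    have h1 : (Nat.fib (r + 2 + 2) : ℝ) ≤ (Nat.fib q : ℝ) := fib_mono' hpq
    have h2 : (Nat.fib (r + 2 + 2) : ℝ) = (Nat.fib (r + 2) : ℝ) + (Nat.fib (r + 3) : ℝ) := by
      exact_mod_cast (Nat.fib_add_two (n := r + 2))
    have h3 : (Nat.fib (r + 3) : ℝ) = (Nat.fib (r + 1) : ℝ) + (Nat.fib (r + 2) : ℝ) := by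
      exact_mod_cast (Nat.fib_add_two (n := r + 1))
    have h4 : (Nat.fib (r + 2) : ℝ) = (Nat.fib r : ℝ) + (Nat.fib (r + 1) : ℝ) := by
      exact_mod_cast (Nat.fib_add_two (n := r))
    have h5 : (Nat.fib r : ℝ) ≤ (Nat.fib (r + 1) : ℝ) := fib_mono' (Nat.le_succ r)
    linarith
  · have hq : 4 ≤ q := by omega
    have h1 : (Nat.fib 4 : ℝ) ≤ (Nat.fib q : ℝ) := fib_mono' hq
    have h2 : (Nat.fib p : ℝ) ≤ (Nat.fib 1 : ℝ) := fib_mono' (by omega)
    have e1 : (Nat.fib 4 : ℝ) = 3 := by norm_num [Nat.fib]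
    have e2 : (Nat.fib 1 : ℝ) = 1 := by norm_num
    linarith

private lemma fib_add_le' (p q : ℕ) (h : 8 ≤ p + q) :
    (Nat.fib p : ℝ) + (Nat.fib q : ℝ) ≤ (Nat.fib (p + q) : ℝ) := by
  wlog hpq : p ≤ q with H
  · have := H q p (by omega) (by omega)
    rw [add_comm q p] at this
    linarith
  have hq : 4 ≤ q := by omega
  rcases Nat.eq_zero_or_pos p with hp0 | hp
  · subst hp0; simp
  · have h1 : (Nat.fib p : ℝ) ≤ (Nat.fib (p + q - 2) : ℝ) := fib_mono' (by omega)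
    have h2 : (Nat.fib q : ℝ) ≤ (Nat.fib (p + q - 1) : ℝ) := fib_mono' (by omega)
    obtain ⟨r, hr⟩ : ∃ r, p + q = r + 2 := ⟨p + q - 2, by omega⟩
    have h3 : (Nat.fib (r + 2) : ℝ) = (Nat.fib r : ℝ) + (Nat.fib (r + 1) : ℝ) := by
      exact_mod_cast (Nat.fib_add_two (n := r))
    rw [hr] at h1 h2 ⊢
    have e1 : r + 2 - 2 = r := by omega
    have e2 : r + 2 - 1 = r + 1 := by omega
    rw [e1] at h1
    rw [e2] at h2
    rw [h3]
    linarith

theorem LL_bound (N : ℕ) (hN : 8 ≤ N) (hN4 : N % 4 = 0) (a b : ℝ) (ha : 24 / 100 * Real.pi ≤ a)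
    (ha' : a ≤ 36 / 100 * Real.pi) (hb : 27 / 100 * Real.pi ≤ b) (hb' : b ≤ 33 / 100 * Real.pi)
    (k : ℕ) (hk : 1 ≤ k) (hkN : k ≤ N + 1) :
    ww N k / 3 ≤ |LL N a b k| ∧ |LL N a b k| ≤ 22 / 10 * ww N k ∧ |LL N a b k| ≤ 36 / 100 * Real.pi := by
  have hF : (0 : ℝ) < (Nat.fib N : ℝ) := fibpos (by omega)
  have hpi1 : 3.1415 < Real.pi := Real.pi_gt_d4
  have hpi2 : Real.pi < 3.1416 := Real.pi_lt_d4
  obtain ⟨p, rfl⟩ : ∃ p, k = p + 1 := ⟨k - 1, by omega⟩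
  obtain ⟨q, hq⟩ : ∃ q, N + 1 - (p + 1) = q := ⟨_, rfl⟩
  have hpq : p + q = N := by omega
  have hp0 : (0 : ℝ) ≤ (Nat.fib p : ℝ) := Nat.cast_nonneg _
  have hq0 : (0 : ℝ) ≤ (Nat.fib q : ℝ) := Nat.cast_nonneg _
  have hsum : (Nat.fib p : ℝ) + (Nat.fib q : ℝ) ≤ (Nat.fib N : ℝ) := by
    rw [← hpq]; exact fib_add_le' p q (by omega)
  have e0 : p + 1 - 1 = p := by omega
  unfold ww LL
  rw [e0, hq]
  set x : ℝ := (Nat.fib p : ℝ)
  set y : ℝ := (Nat.fib q : ℝ)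
  set F : ℝ := (Nat.fib N : ℝ)
  have ha0 : 0 < a := by nlinarith
  have hb0 : 0 < b := by nlinarith
  have hm1 : x ≤ max x y := le_max_left _ _
  have hm2 : y ≤ max x y := le_max_right _ _
  rw [abs_div, abs_of_pos hF]
  -- upper bound for the numerator
  have hup : |x * a + (-1) ^ (p + 1 + 1) * y * b| ≤ x * a + y * b := by
    refine (abs_add_le _ _).trans ?_
    rw [abs_of_nonneg (mul_nonneg hp0 ha0.le)]
    rw [abs_mul, abs_mul, abs_pow, abs_neg, abs_one, one_pow, one_mul, abs_of_nonneg hq0,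
      abs_of_pos hb0]
  refine ⟨?_, ?_, ?_⟩
  · rw [div_div, mul_comm F 3, ← div_div, div_le_div_iff_of_pos_right hF]
    rcases Nat.even_or_odd p with hpe | hpo
    · -- k odd
      have hs : ((-1 : ℝ)) ^ (p + 1 + 1) = 1 := by
        rw [show p + 1 + 1 = p + 2 by omega, pow_add, hpe.neg_one_pow]; norm_num
      rw [hs, one_mul]
      refine le_trans ?_ (le_abs_self _)
      rcases le_total x y with h | h
      · rw [max_eq_right h]; nlinarith [mul_nonneg hp0 ha0.le]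
      · rw [max_eq_left h]; nlinarith [mul_nonneg hq0 hb0.le]
    · have hs : ((-1 : ℝ)) ^ (p + 1 + 1) = -1 := by
        rw [show p + 1 + 1 = p + 2 by omega, pow_add, hpo.neg_one_pow]; norm_num
      rw [hs]
      have hpo' : p % 2 = 1 := Nat.odd_iff.1 hpo
      have hne : p + 2 ≤ q ∨ q + 2 ≤ p := by omega
      rcases hne with h | h
      · have h5 : 5 * x ≤ 2 * y := two_fib p q (by omega) h
        have h6 : x ≤ y := by linarith
        rw [max_eq_right h6]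
        refine le_trans ?_ (neg_le_abs _)
        nlinarith
      · have h5 : 5 * y ≤ 2 * x := two_fib q p (by omega) h
        have h6 : y ≤ x := by linarith
        rw [max_eq_left h6]
        refine le_trans ?_ (le_abs_self _)
        nlinarith
  · rw [← mul_div_assoc, div_le_div_iff_of_pos_right hF]
    refine hup.trans ?_
    nlinarith
  · rw [div_le_iff₀ hF]
    refine hup.trans ?_
    nlinarith

theorem LL_sum (N : ℕ) (hN : 8 ≤ N) (hN4 : N % 4 = 0) (a b : ℝ) (hne : ∀ k, 1 ≤ k → k ≤ N + 1 →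
    LL N a b k ≠ 0) :
    ∑ k ∈ Finset.Icc 1 (N - 1),
      (Nat.fib (N - k) : ℝ) / (LL N a b k * LL N a b (k + 1) * LL N a b (k + 2))
      = (Nat.fib N : ℝ) / (b ^ 2 * LL N a b 2) - (Nat.fib N : ℝ) ^ 2 / (a * b ^ 2) := by
  have hF : (0 : ℝ) < (Nat.fib N : ℝ) := fibpos (by omega)
  obtain ⟨h1, hN1, hrec⟩ := LL_rec N (by omega) hN4 a b
  have ha : a ≠ 0 := by rw [← hN1]; exact hne _ (by omega) le_rfl
  have hb : b ≠ 0 := by rw [← h1]; exact hne _ le_rfl (by omega)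
  -- the first integral
  have key : ∀ j, j < N → LL N a b (N - j) * (Nat.fib j : ℝ) +
      LL N a b (N - j + 1) * (Nat.fib (j + 1) : ℝ) = a := by
    intro j
    induction j with
    | zero => intro _; simp [hN1]
    | succ j ih =>
      intro hj
      have ih' := ih (by omega)
      have e1 : N - j = N - (j + 1) + 1 := by omega
      have r := hrec (N - (j + 1)) (by omega) (by omega)
      rw [e1] at ih'
      rw [show N - (j + 1) + 1 + 1 = N - (j + 1) + 2 by omega, r] at ih'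
      have h2 : (Nat.fib (j + 1 + 1) : ℝ) = (Nat.fib j : ℝ) + (Nat.fib (j + 1) : ℝ) := by
        exact_mod_cast (Nat.fib_add_two (n := j))
      rw [h2]
      linarith
  have key' : ∀ k, 1 ≤ k → k ≤ N → LL N a b k * (Nat.fib (N - k) : ℝ) +
      LL N a b (k + 1) * (Nat.fib (N + 1 - k) : ℝ) = a := by
    intro k hk hkN
    have := key (N - k) (by omega)
    rw [show N - (N - k) = k by omega, show N - k + 1 = N + 1 - k by omega] at this
    exact this
  -- telescoping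
  have tel : ∀ m, m ≤ N - 1 → ∑ k ∈ Finset.Icc 1 m,
      (Nat.fib (N - k) : ℝ) / (LL N a b k * LL N a b (k + 1) * LL N a b (k + 2))
      = (Nat.fib N : ℝ) * (Nat.fib (N - 1) : ℝ) / (a * LL N a b 1 * LL N a b 2) -
        (Nat.fib (N - m) : ℝ) * (Nat.fib (N - (m + 1)) : ℝ) /
          (a * LL N a b (m + 1) * LL N a b (m + 2)) := by
    intro m
    induction m with
    | zero => intro _; simp
    | succ m ih =>
      intro hm
      rw [Finset.sum_Icc_succ_top (by omega), ih (by omega)]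
      have n1 := hne (m + 1) (by omega) (by omega)
      have n2 := hne (m + 2) (by omega) (by omega)
      have n3 := hne (m + 3) (by omega) (by omega)
      have kk := key' (m + 1) (by omega) (by omega)
      rw [show N + 1 - (m + 1) = N - m by omega, show m + 1 + 1 = m + 2 by omega] at kk
      have r := hrec (m + 1) (by omega) (by omega)
      rw [show m + 1 + 2 = m + 3 by omega, show m + 1 + 1 = m + 2 by omega] at r
      have f3 : (Nat.fib (N - m) : ℝ) = (Nat.fib (N - (m + 2)) : ℝ) + (Nat.fib (N - (m + 1)) : ℝ) := by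
        have : N - m = N - (m + 2) + 2 := by omega
        rw [this]
        have h2 := (Nat.fib_add_two (n := N - (m + 2)))
        rw [show N - (m + 2) + 1 = N - (m + 1) by omega] at h2
        exact_mod_cast h2
      rw [show m + 1 + 1 = m + 2 by omega, show m + 1 + 2 = m + 3 by omega]
      have kk' : (Nat.fib (N - m) : ℝ) * LL N a b (m + 3) -
          (Nat.fib (N - (m + 2)) : ℝ) * LL N a b (m + 1) = a := by
        linear_combination (Nat.fib (N - m) : ℝ) * r + LL N a b (m + 1) * f3 + kk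
      have : (Nat.fib (N - m) : ℝ) * (Nat.fib (N - (m + 1)) : ℝ) /
            (a * LL N a b (m + 1) * LL N a b (m + 2)) -
          (Nat.fib (N - (m + 1)) : ℝ) * (Nat.fib (N - (m + 2)) : ℝ) /
            (a * LL N a b (m + 2) * LL N a b (m + 3)) =
          (Nat.fib (N - (m + 1)) : ℝ) /
            (LL N a b (m + 1) * LL N a b (m + 2) * LL N a b (m + 3)) := by
        field_simp
        linear_combination (Nat.fib (N - (m + 1)) : ℝ) * kk'
      linarith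
  rw [tel (N - 1) le_rfl]
  have e1 : N - (N - 1 + 1) = 0 := by omega
  rw [e1]
  simp only [Nat.fib_zero, Nat.cast_zero, mul_zero, zero_div, sub_zero]
  rw [h1]
  have kk := key' 1 le_rfl (by omega)
  rw [h1, show (1 : ℕ) + 1 = 2 by norm_num, show N + 1 - 1 = N by omega] at kk
  have n2 := hne 2 (by omega) (by omega)
  field_simp
  linear_combination kk

theorem green2 (N : ℕ) (hN : 2 ≤ N) (e : ℕ → ℝ) (h1 : e 1 = 0) (hN1 : e (N + 1) = 0) :
    e 2 = -∑ k ∈ Finset.Icc 1 (N - 1),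
      (Nat.fib (N - k) : ℝ) / (Nat.fib N : ℝ) * (e (k + 2) - e (k + 1) - e k) := by
  have hF : (0 : ℝ) < (Nat.fib N : ℝ) := fibpos (by omega)
  have tel : ∀ m, m ≤ N - 1 → ∑ k ∈ Finset.Icc 1 m,
      (Nat.fib (N - k) : ℝ) / (Nat.fib N : ℝ) * (e (k + 2) - e (k + 1) - e k) =
      ((Nat.fib (N - m) : ℝ) * e (m + 2) + (Nat.fib (N - (m + 1)) : ℝ) * e (m + 1) -
        (Nat.fib N : ℝ) * e 2 - (Nat.fib (N - 1) : ℝ) * e 1) / (Nat.fib N : ℝ) := by
    intro m
    induction m with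
    | zero => intro _; simp
    | succ m ih =>
      intro hm
      rw [Finset.sum_Icc_succ_top (by omega), ih (by omega)]
      have f3 : (Nat.fib (N - m) : ℝ) = (Nat.fib (N - (m + 2)) : ℝ) + (Nat.fib (N - (m + 1)) : ℝ) := by
        have : N - m = N - (m + 2) + 2 := by omega
        rw [this]
        have h2 := (Nat.fib_add_two (n := N - (m + 2)))
        rw [show N - (m + 2) + 1 = N - (m + 1) by omega] at h2
        exact_mod_cast h2
      rw [show m + 1 + 1 = m + 2 by omega, show m + 1 + 2 = m + 3 by omega]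
      rw [f3]
      field_simp
      ring
  rw [tel (N - 1) le_rfl]
  rw [show N - (N - 1) = 1 by omega, show N - (N - 1 + 1) = 0 by omega,
    show N - 1 + 2 = N + 1 by omega, hN1, h1]
  simp only [Nat.fib_zero, Nat.cast_zero, mul_zero, zero_mul, zero_sub, sub_zero, add_zero]
  field_simp

private lemma ww_pos (N : ℕ) (hN : 2 ≤ N) (k : ℕ) (hk : 1 ≤ k) : 0 < ww N k := by
  have hF : (0 : ℝ) < (Nat.fib N : ℝ) := fibpos (by omega)
  unfold ww
  refine div_pos ?_ hF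
  rcases Nat.lt_or_ge k 2 with h | h
  · have : k = 1 := by omega
    subst this
    refine lt_max_of_lt_right ?_
    exact fibpos (by omega)
  · refine lt_max_of_lt_left ?_
    exact fibpos (by omega)

/-- `fib (N - k) <= F ww k`, `fib k <= 2 F ww k` -/
private lemma fib_le_ww (N : ℕ) (hN : 2 ≤ N) (k : ℕ) (hk : 1 ≤ k) :
    (Nat.fib (N - k) : ℝ) ≤ (Nat.fib N : ℝ) * ww N k ∧
    (Nat.fib (N + 1 - k) : ℝ) ≤ (Nat.fib N : ℝ) * ww N k ∧
    (Nat.fib (k - 1) : ℝ) ≤ (Nat.fib N : ℝ) * ww N k ∧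
    (Nat.fib k : ℝ) ≤ 2 * ((Nat.fib N : ℝ) * ww N k) := by
  have hF : (0 : ℝ) < (Nat.fib N : ℝ) := fibpos (by omega)
  have e : (Nat.fib N : ℝ) * ww N k = max (Nat.fib (k - 1) : ℝ) (Nat.fib (N + 1 - k) : ℝ) := by
    unfold ww; field_simp
  rw [e]
  refine ⟨le_trans (fib_mono' (by omega)) (le_max_right _ _), le_max_right _ _, le_max_left _ _, ?_⟩
  rcases Nat.lt_or_ge k 2 with h | h
  · have : k = 1 := by omega
    subst this
    have h1 : (Nat.fib 1 : ℝ) ≤ (Nat.fib (N + 1 - 1) : ℝ) := fib_mono' (by omega)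
    have h2 : (Nat.fib (N + 1 - 1) : ℝ) ≤ max (Nat.fib (1 - 1) : ℝ) (Nat.fib (N + 1 - 1) : ℝ) :=
      le_max_right _ _
    have h3 : (0 : ℝ) ≤ (Nat.fib 1 : ℝ) := Nat.cast_nonneg _
    linarith
  · have h1 := fib_le_two (k - 1) (by omega)
    rw [show k - 1 + 1 = k by omega] at h1
    have h2 : (Nat.fib (k - 1) : ℝ) ≤ max (Nat.fib (k - 1) : ℝ) (Nat.fib (N + 1 - k) : ℝ) :=
      le_max_left _ _
    linarith

/-- the inverse of `ww` is at most `fib (n+2)`, n the distance to the ends -/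
private lemma inv_ww (N : ℕ) (hN : 2 ≤ N) (k : ℕ) (hk : 1 ≤ k) (hkN : k ≤ N + 1) :
    1 / ww N k ^ 2 ≤ (if k - 1 ≤ N / 2 then (Nat.fib (k - 1 + 2) : ℝ) ^ 2 else 0) +
      (if N + 1 - k ≤ N / 2 then (Nat.fib (N + 1 - k + 2) : ℝ) ^ 2 else 0) := by
  have hF : (0 : ℝ) < (Nat.fib N : ℝ) := fibpos (by omega)
  have hw := ww_pos N hN k hk
  obtain ⟨-, h1, h2, -⟩ := fib_le_ww N hN k hk
  rw [div_le_iff₀ (by positivity)]
  rcases le_total (k - 1) (N + 1 - k) with h | h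
  · have hc : k - 1 ≤ N / 2 := by omega
    rw [if_pos hc]
    have h3 := fib_add_le (N + 1 - k) (k - 1) (by omega)
    rw [show N + 1 - k + (k - 1) = N by omega] at h3
    have h4 : (0 : ℝ) ≤ (if N + 1 - k ≤ N / 2 then (Nat.fib (N + 1 - k + 2) : ℝ) ^ 2 else 0) := by
      split_ifs <;> positivity
    have h5 : (Nat.fib N : ℝ) ≤ (Nat.fib N : ℝ) * (ww N k * (Nat.fib (k - 1 + 2) : ℝ)) := by
      calc (Nat.fib N : ℝ) ≤ (Nat.fib (N + 1 - k) : ℝ) * (Nat.fib (k - 1 + 2) : ℝ) := h3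
        _ ≤ ((Nat.fib N : ℝ) * ww N k) * (Nat.fib (k - 1 + 2) : ℝ) := by gcongr
        _ = _ := by ring
    have h6 : 1 ≤ ww N k * (Nat.fib (k - 1 + 2) : ℝ) := by
      by_contra hcon
      push Not at hcon
      nlinarith
    nlinarith [mul_nonneg h4 (sq_nonneg (ww N k))]
  · have hc : N + 1 - k ≤ N / 2 := by omega
    rw [if_pos hc]
    have h3 := fib_add_le (k - 1) (N + 1 - k) (by omega)
    rw [show k - 1 + (N + 1 - k) = N by omega] at h3
    have h4 : (0 : ℝ) ≤ (if k - 1 ≤ N / 2 then (Nat.fib (k - 1 + 2) : ℝ) ^ 2 else 0) := by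
      split_ifs <;> positivity
    have h5 : (Nat.fib N : ℝ) ≤ (Nat.fib N : ℝ) * (ww N k * (Nat.fib (N + 1 - k + 2) : ℝ)) := by
      calc (Nat.fib N : ℝ) ≤ (Nat.fib (k - 1) : ℝ) * (Nat.fib (N + 1 - k + 2) : ℝ) := h3
        _ ≤ ((Nat.fib N : ℝ) * ww N k) * (Nat.fib (N + 1 - k + 2) : ℝ) := by gcongr
        _ = _ := by ring
    have h6 : 1 ≤ ww N k * (Nat.fib (N + 1 - k + 2) : ℝ) := by
      by_contra hcon
      push Not at hcon
      nlinarith
    nlinarith [mul_nonneg h4 (sq_nonneg (ww N k))]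

private lemma sum_fib_sq (h : ℕ) : ∑ n ∈ Finset.range (h + 1), (Nat.fib (n + 2) : ℝ) ^ 2 ≤
    (Nat.fib (h + 2) : ℝ) * (Nat.fib (h + 3) : ℝ) := by
  induction h with
  | zero => norm_num [Nat.fib]
  | succ h ih =>
    rw [Finset.sum_range_succ]
    have h1 : (Nat.fib (h + 4) : ℝ) = (Nat.fib (h + 2) : ℝ) + (Nat.fib (h + 3) : ℝ) := by
      exact_mod_cast (Nat.fib_add_two (n := h + 2))
    rw [show h + 1 + 2 = h + 3 by omega, show h + 1 + 3 = h + 4 by omega, h1]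
    nlinarith

private lemma sum_fib_sq' (N : ℕ) (hN : 2 ≤ N) :
    ∑ n ∈ Finset.range (N / 2 + 1), (Nat.fib (n + 2) : ℝ) ^ 2 ≤ 9 * (Nat.fib N : ℝ) := by
  refine (sum_fib_sq (N / 2)).trans ?_
  have h1 := fib_le_three (N / 2) (by omega)
  have h2 := fib_le_three (N / 2 + 1) (by omega)
  rw [show N / 2 + 1 + 2 = N / 2 + 3 by omega] at h2
  have h3 : (Nat.fib (N / 2) : ℝ) * (Nat.fib (N / 2 + 1) : ℝ) ≤ (Nat.fib N : ℝ) := by
    have h4 := fib_add' (N / 2 - 1) (N / 2)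
    rw [show N / 2 - 1 + N / 2 + 1 = 2 * (N / 2) by omega, show N / 2 - 1 + 1 = N / 2 by omega] at h4
    have h5 : (Nat.fib (2 * (N / 2)) : ℝ) ≤ (Nat.fib N : ℝ) := fib_mono' (by omega)
    have h6 : (0 : ℝ) ≤ (Nat.fib (N / 2 - 1) : ℝ) * (Nat.fib (N / 2) : ℝ) := by positivity
    linarith
  have h7 : (0 : ℝ) ≤ (Nat.fib (N / 2) : ℝ) := Nat.cast_nonneg _
  have h8 : (0 : ℝ) ≤ (Nat.fib (N / 2 + 3) : ℝ) := Nat.cast_nonneg _
  calc (Nat.fib (N / 2 + 2) : ℝ) * (Nat.fib (N / 2 + 3) : ℝ)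
      ≤ (3 * (Nat.fib (N / 2) : ℝ)) * (3 * (Nat.fib (N / 2 + 1) : ℝ)) :=
        mul_le_mul h1 h2 h8 (by positivity)
    _ = 9 * ((Nat.fib (N / 2) : ℝ) * (Nat.fib (N / 2 + 1) : ℝ)) := by ring
    _ ≤ _ := by linarith

private lemma sum_inv (N : ℕ) (hN : 2 ≤ N) :
    ∑ k ∈ Finset.Icc 1 (N + 1), 1 / ww N k ^ 2 ≤ 18 * (Nat.fib N : ℝ) := by
  have h1 : ∑ k ∈ Finset.Icc 1 (N + 1), 1 / ww N k ^ 2 ≤
      ∑ k ∈ Finset.Icc 1 (N + 1), (if k - 1 ≤ N / 2 then (Nat.fib (k - 1 + 2) : ℝ) ^ 2 else 0) +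
      ∑ k ∈ Finset.Icc 1 (N + 1),
        (if N + 1 - k ≤ N / 2 then (Nat.fib (N + 1 - k + 2) : ℝ) ^ 2 else 0) := by
    rw [← Finset.sum_add_distrib]
    refine Finset.sum_le_sum fun k hk => ?_
    rw [Finset.mem_Icc] at hk
    exact inv_ww N hN k hk.1 hk.2
  have h2 : ∀ (φ : ℕ → ℕ), (∀ k ∈ Finset.Icc 1 (N + 1), ∀ l ∈ Finset.Icc 1 (N + 1),
      φ k = φ l → k = l) → ∑ k ∈ Finset.Icc 1 (N + 1),
      (if φ k ≤ N / 2 then (Nat.fib (φ k + 2) : ℝ) ^ 2 else 0) ≤ 9 * (Nat.fib N : ℝ) := by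
    intro φ hφ
    rw [← Finset.sum_filter]
    refine le_trans ?_ (sum_fib_sq' N hN)
    rw [← Finset.sum_image (f := fun n => (Nat.fib (n + 2) : ℝ) ^ 2) (g := φ)]
    · refine Finset.sum_le_sum_of_subset_of_nonneg ?_ fun _ _ _ => by positivity
      intro n hn
      rw [Finset.mem_image] at hn
      obtain ⟨k, hk, rfl⟩ := hn
      rw [Finset.mem_filter] at hk
      rw [Finset.mem_range]
      omega
    · intro k hk l hl hkl
      rw [Finset.mem_coe, Finset.mem_filter] at hk hl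
      exact hφ k hk.1 l hl.1 hkl
  have h3 := h2 (fun k => k - 1) (by
    intro k hk l hl h
    rw [Finset.mem_Icc] at hk hl
    omega)
  have h4 := h2 (fun k => N + 1 - k) (by
    intro k hk l hl h
    rw [Finset.mem_Icc] at hk hl
    omega)
  linarith

private lemma sum_inv' (N : ℕ) (hN : 2 ≤ N) (s : Finset ℕ) (hs : s ⊆ Finset.Icc 1 (N + 1)) :
    ∑ k ∈ s, 1 / ww N k ^ 2 ≤ 18 * (Nat.fib N : ℝ) := by
  refine le_trans (Finset.sum_le_sum_of_subset_of_nonneg hs fun k hk _ => ?_) (sum_inv N hN)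
  positivity

private lemma sum_inv3 (N : ℕ) (hN : 2 ≤ N) (s : Finset ℕ) (hs : s ⊆ Finset.Icc 1 (N + 1))
    (c : ℕ → ℝ) (hc : ∀ k ∈ s, c k ≤ 2 * ((Nat.fib N : ℝ) * ww N k)) :
    ∑ k ∈ s, c k / ww N k ^ 3 ≤ 36 * (Nat.fib N : ℝ) ^ 2 := by
  have h1 : ∑ k ∈ s, c k / ww N k ^ 3 ≤ ∑ k ∈ s, 2 * (Nat.fib N : ℝ) * (1 / ww N k ^ 2) := by
    refine Finset.sum_le_sum fun k hk => ?_
    have hk' := hs hk
    rw [Finset.mem_Icc] at hk'
    have hw := ww_pos N hN k hk'.1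
    rw [div_le_iff₀ (by positivity)]
    refine (hc k hk).trans (le_of_eq ?_)
    field_simp
  refine h1.trans ?_
  rw [← Finset.mul_sum]
  have h2 := sum_inv' N hN s hs
  have h3 : (0 : ℝ) ≤ 2 * (Nat.fib N : ℝ) := by positivity
  nlinarith [mul_le_mul_of_nonneg_left h2 h3]

theorem green : ∃ C : ℝ, 1 ≤ C ∧ ∀ (N : ℕ), 8 ≤ N → ∀ (M : ℝ) (e : ℕ → ℝ), 0 ≤ M → e 1 = 0 →
    e (N + 1) = 0 → (∀ k, 1 ≤ k → k ≤ N - 1 → |e (k + 2) - e (k + 1) - e k| ≤ M / ww N k ^ 3) →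
    ∀ k, 1 ≤ k → k ≤ N + 1 → |e k| ≤ C * M * (Nat.fib N : ℝ) ^ 2 * ww N k := by
  refine ⟨72, by norm_num, ?_⟩
  intro N hN M e hM h1 hN1 hη k hk hkN
  have hF : (0 : ℝ) < (Nat.fib N : ℝ) := fibpos (by omega)
  have hw := ww_pos N (by omega) k hk
  rcases Nat.lt_or_ge k 2 with hk2 | hk2
  · have : k = 1 := by omega
    subst this
    rw [h1, abs_zero]; positivity
  -- left sums
  have left : ∀ m, m ≤ N - 1 → ∑ j ∈ Finset.Icc 1 m,
      (-1 : ℝ) ^ j * (Nat.fib j : ℝ) * (e (j + 2) - e (j + 1) - e j) =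
      (-1) ^ (m + 1) * (Nat.fib (m + 1) : ℝ) * e (m + 1) + (-1) ^ m * (Nat.fib m : ℝ) * e (m + 2) := by
    intro m
    induction m with
    | zero => intro _; simp [h1]
    | succ m ih =>
      intro hm
      rw [Finset.sum_Icc_succ_top (by omega), ih (by omega)]
      have h2 : (Nat.fib (m + 1 + 1) : ℝ) = (Nat.fib m : ℝ) + (Nat.fib (m + 1) : ℝ) := by
        exact_mod_cast (Nat.fib_add_two (n := m))
      rw [h2, show m + 1 + 1 = m + 2 by omega, show m + 1 + 2 = m + 3 by omega]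
      ring
  -- right sums
  have right : ∀ m, m + 1 ≤ N → ∑ j ∈ Finset.Icc (N - m) (N - 1),
      (Nat.fib (N - j) : ℝ) * (e (j + 2) - e (j + 1) - e j) =
      - ((Nat.fib (m + 1) : ℝ) * e (N - m + 1) + (Nat.fib m : ℝ) * e (N - m)) := by
    intro m
    induction m with
    | zero =>
      intro _
      rw [Finset.Icc_eq_empty (by omega)]
      simp [hN1]
    | succ m ih =>
      intro hm
      have hI : Finset.Icc (N - (m + 1)) (N - 1) = insert (N - (m + 1)) (Finset.Icc (N - m) (N - 1)) := by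
        ext j
        simp only [Finset.mem_Icc, Finset.mem_insert]
        omega
      rw [hI, Finset.sum_insert (by simp only [Finset.mem_Icc]; omega), ih (by omega)]
      have h2 : (Nat.fib (m + 1 + 1) : ℝ) = (Nat.fib m : ℝ) + (Nat.fib (m + 1) : ℝ) := by
        exact_mod_cast (Nat.fib_add_two (n := m))
      rw [show N - (N - (m + 1)) = m + 1 by omega, show N - (m + 1) + 2 = N - m + 1 by omega,
        show N - (m + 1) + 1 = N - m by omega, h2]
      ring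
  have L := left (k - 2) (by omega)
  have R := right (N + 1 - k) (by omega)
  rw [show k - 2 + 1 = k - 1 by omega, show k - 2 + 2 = k by omega] at L
  rw [show N - (N + 1 - k) = k - 1 by omega, show k - 1 + 1 = k by omega,
    show N + 1 - k + 1 = N + 2 - k by omega] at R
  set S1 := ∑ j ∈ Finset.Icc 1 (k - 2),
      (-1 : ℝ) ^ j * (Nat.fib j : ℝ) * (e (j + 2) - e (j + 1) - e j) with hS1
  set S2 := ∑ j ∈ Finset.Icc (k - 1) (N - 1),
      (Nat.fib (N - j) : ℝ) * (e (j + 2) - e (j + 1) - e j) with hS2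
  have hcas : (Nat.fib (k - 1) : ℝ) * (Nat.fib (N + 2 - k) : ℝ) +
      (Nat.fib (k - 2) : ℝ) * (Nat.fib (N + 1 - k) : ℝ) = (Nat.fib N : ℝ) := by
    have := fib_add' (k - 2) (N + 1 - k)
    rw [show k - 2 + (N + 1 - k) + 1 = N by omega, show k - 2 + 1 = k - 1 by omega,
      show N + 1 - k + 1 = N + 2 - k by omega] at this
    linarith
  have hsq : ((-1 : ℝ)) ^ (k - 2) * (-1) ^ (k - 2) = 1 := by
    rw [← pow_add, ← two_mul]; simp
  have hek : (Nat.fib N : ℝ) * e k = (-1) ^ (k - 2) * (Nat.fib (N + 1 - k) : ℝ) * S1 -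
      (Nat.fib (k - 1) : ℝ) * S2 := by
    have hp : ((-1 : ℝ)) ^ (k - 1) = - (-1) ^ (k - 2) := by
      rw [show k - 1 = k - 2 + 1 by omega, pow_succ]; ring
    rw [L, R, hp, ← hcas]
    linear_combination (((Nat.fib (N + 1 - k) : ℝ)) * (Nat.fib (k - 1) : ℝ) * e (k - 1)
      - ((Nat.fib (N + 1 - k) : ℝ)) * (Nat.fib (k - 2) : ℝ) * e k) * hsq
  have b1 : |S1| ≤ M * (36 * (Nat.fib N : ℝ) ^ 2) := by
    rw [hS1]
    refine (Finset.abs_sum_le_sum_abs _ _).trans ?_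
    have : ∀ j ∈ Finset.Icc 1 (k - 2),
        |(-1 : ℝ) ^ j * (Nat.fib j : ℝ) * (e (j + 2) - e (j + 1) - e j)| ≤
        M * ((Nat.fib j : ℝ) / ww N j ^ 3) := by
      intro j hj
      rw [Finset.mem_Icc] at hj
      rw [abs_mul, abs_mul, abs_pow, abs_neg, abs_one, one_pow, one_mul,
        abs_of_nonneg (Nat.cast_nonneg _)]
      refine (mul_le_mul_of_nonneg_left (hη j hj.1 (by omega)) (Nat.cast_nonneg _)).trans
        (le_of_eq ?_)
      ring
    refine (Finset.sum_le_sum this).trans ?_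
    rw [← Finset.mul_sum]
    refine mul_le_mul_of_nonneg_left ?_ hM
    refine sum_inv3 N (by omega) _ (Finset.Icc_subset_Icc le_rfl (by omega)) _ ?_
    intro j hj
    rw [Finset.mem_Icc] at hj
    exact (fib_le_ww N (by omega) j hj.1).2.2.2
  have b2 : |S2| ≤ M * (36 * (Nat.fib N : ℝ) ^ 2) := by
    rw [hS2]
    refine (Finset.abs_sum_le_sum_abs _ _).trans ?_
    have : ∀ j ∈ Finset.Icc (k - 1) (N - 1),
        |(Nat.fib (N - j) : ℝ) * (e (j + 2) - e (j + 1) - e j)| ≤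
        M * ((Nat.fib (N - j) : ℝ) / ww N j ^ 3) := by
      intro j hj
      rw [Finset.mem_Icc] at hj
      rw [abs_mul, abs_of_nonneg (Nat.cast_nonneg _)]
      refine (mul_le_mul_of_nonneg_left (hη j (by omega) (by omega)) (Nat.cast_nonneg _)).trans
        (le_of_eq ?_)
      ring
    refine (Finset.sum_le_sum this).trans ?_
    rw [← Finset.mul_sum]
    refine mul_le_mul_of_nonneg_left ?_ hM
    refine sum_inv3 N (by omega) _ (Finset.Icc_subset_Icc (by omega) (by omega)) _ ?_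
    intro j hj
    rw [Finset.mem_Icc] at hj
    have hj1 : 1 ≤ j := by omega
    have h3 := (fib_le_ww N (by omega) j hj1).1
    have h4 := ww_pos N (by omega) j hj1
    have h5 : 0 < (Nat.fib N : ℝ) * ww N j := by positivity
    linarith
  obtain ⟨-, w1, w2, -⟩ := fib_le_ww N (by omega) k hk
  have hfin : (Nat.fib N : ℝ) * |e k| ≤ (Nat.fib N : ℝ) * (72 * M * (Nat.fib N : ℝ) ^ 2 * ww N k) := by
    rw [← abs_of_pos hF, ← abs_mul, hek, abs_of_pos hF]
    refine (abs_sub _ _).trans ?_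
    rw [abs_mul, abs_mul, abs_pow, abs_neg, abs_one, one_pow, one_mul, abs_mul, Nat.abs_cast,
      Nat.abs_cast]
    have c1 : (Nat.fib (N + 1 - k) : ℝ) * |S1| ≤
        ((Nat.fib N : ℝ) * ww N k) * (M * (36 * (Nat.fib N : ℝ) ^ 2)) :=
      mul_le_mul w1 b1 (abs_nonneg _) (by positivity)
    have c2 : (Nat.fib (k - 1) : ℝ) * |S2| ≤
        ((Nat.fib N : ℝ) * ww N k) * (M * (36 * (Nat.fib N : ℝ) ^ 2)) :=
      mul_le_mul w2 b2 (abs_nonneg _) (by positivity)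
    linarith
  exact le_of_mul_le_mul_left hfin hF

theorem sums : ∃ C : ℝ, 1 ≤ C ∧ ∀ (N : ℕ), 8 ≤ N →
    ∑ k ∈ Finset.Icc 1 (N - 1), (Nat.fib (N - k) : ℝ) / ww N k ^ 3 ≤ C * (Nat.fib N : ℝ) ^ 2 ∧
    ∑ k ∈ Finset.Icc 1 (N - 1), (Nat.fib (N - k) : ℝ) / ww N k ≤ C * N * (Nat.fib N : ℝ) ∧
    ∑ k ∈ Finset.Icc 1 (N - 1), (Nat.fib (N - k) : ℝ) / ww N k ^ 7 ≤ C * (Nat.fib N : ℝ) ^ 4 := by
  refine ⟨18 ^ 3, by norm_num, ?_⟩
  intro N hN
  have hF : (0 : ℝ) < (Nat.fib N : ℝ) := fibpos (by omega)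
  have hsub : Finset.Icc 1 (N - 1) ⊆ Finset.Icc 1 (N + 1) := Finset.Icc_subset_Icc le_rfl (by omega)
  refine ⟨?_, ?_, ?_⟩
  · refine (sum_inv3 N (by omega) _ hsub _ ?_).trans ?_
    · intro j hj
      rw [Finset.mem_Icc] at hj
      have h3 := (fib_le_ww N (by omega) j hj.1).1
      have h4 := ww_pos N (by omega) j hj.1
      have h5 : 0 < (Nat.fib N : ℝ) * ww N j := by positivity
      linarith
    · gcongr
      norm_num
  · have h1 : ∀ k ∈ Finset.Icc 1 (N - 1), (Nat.fib (N - k) : ℝ) / ww N k ≤ (Nat.fib N : ℝ) := by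
      intro k hk
      rw [Finset.mem_Icc] at hk
      have h4 := ww_pos N (by omega) k hk.1
      rw [div_le_iff₀ h4]
      exact (fib_le_ww N (by omega) k hk.1).1
    refine (Finset.sum_le_sum h1).trans ?_
    rw [Finset.sum_const, nsmul_eq_mul, Nat.card_Icc]
    have h2 : ((N - 1 + 1 - 1 : ℕ) : ℝ) ≤ (N : ℝ) := by exact_mod_cast (by omega)
    have h3 : (0 : ℝ) ≤ (N : ℝ) := Nat.cast_nonneg _
    nlinarith [mul_le_mul_of_nonneg_right h2 hF.le, mul_nonneg h3 hF.le]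
  · have h1 : ∀ k ∈ Finset.Icc 1 (N - 1), (Nat.fib (N - k) : ℝ) / ww N k ^ 7 ≤
        (Nat.fib N : ℝ) * (1 / ww N k ^ 2) ^ 3 := by
      intro k hk
      rw [Finset.mem_Icc] at hk
      have h4 := ww_pos N (by omega) k hk.1
      rw [div_le_iff₀ (by positivity)]
      refine ((fib_le_ww N (by omega) k hk.1).1).trans (le_of_eq ?_)
      field_simp
    refine (Finset.sum_le_sum h1).trans ?_
    rw [← Finset.mul_sum]
    have h2 : ∑ k ∈ Finset.Icc 1 (N - 1), (1 / ww N k ^ 2) ^ 3 ≤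
        (∑ k ∈ Finset.Icc 1 (N - 1), 1 / ww N k ^ 2) ^ 3 := by
      have h0 : ∀ k ∈ Finset.Icc 1 (N - 1), 0 ≤ 1 / ww N k ^ 2 := fun k _ => by positivity
      have h5 : ∀ k ∈ Finset.Icc 1 (N - 1), (1 / ww N k ^ 2) ^ 3 ≤
          (1 / ww N k ^ 2) * (∑ k ∈ Finset.Icc 1 (N - 1), 1 / ww N k ^ 2) ^ 2 := by
        intro k hk
        have h6 : 1 / ww N k ^ 2 ≤ ∑ k ∈ Finset.Icc 1 (N - 1), 1 / ww N k ^ 2 :=
          Finset.single_le_sum h0 hk
        have h7 := h0 k hk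
        rw [pow_succ' (1 / ww N k ^ 2) 2]
        gcongr
      refine (Finset.sum_le_sum h5).trans (le_of_eq ?_)
      rw [← Finset.sum_mul]
      ring
    have h3 := sum_inv' N (by omega) _ hsub
    have h4 : 0 ≤ ∑ k ∈ Finset.Icc 1 (N - 1), 1 / ww N k ^ 2 :=
      Finset.sum_nonneg fun k _ => by positivity
    calc (Nat.fib N : ℝ) * ∑ k ∈ Finset.Icc 1 (N - 1), (1 / ww N k ^ 2) ^ 3
        ≤ (Nat.fib N : ℝ) * (18 * (Nat.fib N : ℝ)) ^ 3 := by
          refine mul_le_mul_of_nonneg_left (h2.trans ?_) hF.le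
          gcongr
      _ = 18 ^ 3 * (Nat.fib N : ℝ) ^ 4 := by ring

theorem ww_comp (N : ℕ) (hN : 8 ≤ N) (k : ℕ) (hk : 1 ≤ k) (hkN : k ≤ N) :
    ww N k / 3 ≤ ww N (k + 1) ∧ ww N (k + 1) ≤ 3 * ww N k ∧ 0 < ww N k ∧ ww N k ≤ 1 ∧
    1 ≤ 3 * ww N k ^ 2 * (Nat.fib N : ℝ) := by
  have hF : (0 : ℝ) < (Nat.fib N : ℝ) := fibpos (by omega)
  have hw := ww_pos N (by omega) k hk
  have hw' := ww_pos N (by omega) (k + 1) (by omega)
  obtain ⟨a1, a2, a3, a4⟩ := fib_le_ww N (by omega) k hk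
  obtain ⟨b1, b2, b3, b4⟩ := fib_le_ww N (by omega) (k + 1) (by omega)
  have e : (Nat.fib N : ℝ) * ww N k = max (Nat.fib (k - 1) : ℝ) (Nat.fib (N + 1 - k) : ℝ) := by
    unfold ww; field_simp
  have e' : (Nat.fib N : ℝ) * ww N (k + 1) = max (Nat.fib k : ℝ) (Nat.fib (N - k) : ℝ) := by
    unfold ww
    rw [show k + 1 - 1 = k by omega, show N + 1 - (k + 1) = N - k by omega]
    field_simp
  have p1 : 0 < (Nat.fib N : ℝ) * ww N k := by positivity
  have p2 : 0 < (Nat.fib N : ℝ) * ww N (k + 1) := by positivity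
  refine ⟨?_, ?_, hw, ?_, ?_⟩
  · have : (Nat.fib N : ℝ) * ww N k ≤ 3 * ((Nat.fib N : ℝ) * ww N (k + 1)) := by
      rw [e]
      refine max_le ?_ ?_
      · have h1 : (Nat.fib (k - 1) : ℝ) ≤ (Nat.fib (k + 1 - 1) : ℝ) := fib_mono' (by omega)
        linarith
      · rcases Nat.lt_or_ge k N with h | h
        · have h2 := fib_le_two (N - k) (by omega)
          rw [show N - k + 1 = N + 1 - k by omega] at h2
          rw [show N + 1 - (k + 1) = N - k by omega] at b2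
          linarith
        · have h2 : (Nat.fib (N + 1 - k) : ℝ) ≤ (Nat.fib (k + 1 - 1) : ℝ) := fib_mono' (by omega)
          linarith
    have h3 : (Nat.fib N : ℝ) * (ww N k / 3) ≤ (Nat.fib N : ℝ) * ww N (k + 1) := by linarith
    exact le_of_mul_le_mul_left h3 hF
  · have : (Nat.fib N : ℝ) * ww N (k + 1) ≤ 3 * ((Nat.fib N : ℝ) * ww N k) := by
      rw [e']
      refine max_le ?_ ?_
      · linarith
      · linarith
    have h3 : (Nat.fib N : ℝ) * ww N (k + 1) ≤ (Nat.fib N : ℝ) * (3 * ww N k) := by linarith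
    exact le_of_mul_le_mul_left h3 hF
  · have : (Nat.fib N : ℝ) * ww N k ≤ (Nat.fib N : ℝ) * 1 := by
      rw [e, mul_one]
      exact max_le (fib_mono' (by omega)) (fib_mono' (by omega))
    exact le_of_mul_le_mul_left this hF
  · -- F <= 3 max^2
    have key : (Nat.fib N : ℝ) ≤ 3 * ((Nat.fib N : ℝ) * ww N k) ^ 2 := by
      rcases le_total (k - 1) (N + 1 - k) with h | h
      · have h3 := fib_add_le (N + 1 - k) (k - 1) (by omega)
        rw [show N + 1 - k + (k - 1) = N by omega] at h3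
        have h4 : (Nat.fib (k - 1 + 2) : ℝ) ≤ (Nat.fib (N + 1 - k + 2) : ℝ) := fib_mono' (by omega)
        have h5 := fib_le_three (N + 1 - k) (by omega)
        have h6 : (0 : ℝ) ≤ (Nat.fib (N + 1 - k) : ℝ) := Nat.cast_nonneg _
        calc (Nat.fib N : ℝ) ≤ (Nat.fib (N + 1 - k) : ℝ) * (Nat.fib (k - 1 + 2) : ℝ) := h3
          _ ≤ (Nat.fib (N + 1 - k) : ℝ) * (3 * (Nat.fib (N + 1 - k) : ℝ)) :=
            mul_le_mul_of_nonneg_left (h4.trans h5) h6
          _ = 3 * (Nat.fib (N + 1 - k) : ℝ) ^ 2 := by ring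
          _ ≤ _ := by gcongr
      · have h3 := fib_add_le (k - 1) (N + 1 - k) (by omega)
        rw [show k - 1 + (N + 1 - k) = N by omega] at h3
        have h4 : (Nat.fib (N + 1 - k + 2) : ℝ) ≤ (Nat.fib (k - 1 + 2) : ℝ) := fib_mono' (by omega)
        have h5 := fib_le_three (k - 1) (by omega)
        have h6 : (0 : ℝ) ≤ (Nat.fib (k - 1) : ℝ) := Nat.cast_nonneg _
        calc (Nat.fib N : ℝ) ≤ (Nat.fib (k - 1) : ℝ) * (Nat.fib (N + 1 - k + 2) : ℝ) := h3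
          _ ≤ (Nat.fib (k - 1) : ℝ) * (3 * (Nat.fib (k - 1) : ℝ)) :=
            mul_le_mul_of_nonneg_left (h4.trans h5) h6
          _ = 3 * (Nat.fib (k - 1) : ℝ) ^ 2 := by ring
          _ ≤ _ := by gcongr
    have h7 : (Nat.fib N : ℝ) * 1 ≤ (Nat.fib N : ℝ) * (3 * ww N k ^ 2 * (Nat.fib N : ℝ)) := by
      nlinarith
    exact le_of_mul_le_mul_left h7 hF

end SF
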