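import Pool.Agent.Helper65.SF.GW1
import Pool.Agent.Helper65.SF.GW2
import Pool.Agent.Helper65.SF.F7

/-!
# SF-GW3: asymptotics of the word function for a word passing the singular point at distance `(fib N)^(-1/2)`

Proof in words.  `n = N + 1`, `psi = PP lam n a b`, `th k = TW lam b psi k`, `th 1 = b`, `th n = a` (`PP_spec`),
`e k = th k - LL N a b k`, `e 1 = e (N+1) = 0`, `e (k+2) - e (k+1) - e k = eta k` for `1 <= k <= N-1`, `|eta k| <= 7 sqrt lam`.
(1) `lin_bvp` (shifted by one): `|e k| <= 70 sqrt lam`.  `ww k >= (3 fib N)^(-1/2) >= c lam^(2/5)`, much larger than `sqrt lam`.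
    So `|th k|` is between `ww k/4` and `3 ww k` and at most `37 pi/100`; all sines are at least `c ww k`.
(2) `defect` with `w = c ww k` (small c, `ww_comp`): `|eta k| <= C lam^2/(ww k)^3`; `green`: `|e k| <= C lam^2 (fib N)^2 ww k`.
(3) `eta k = lam^2/(8 L_k L_(k+1) L_(k+2)) + O (lam^2/(ww k)^3 (lam^2 (fib N)^2 + (ww k)^2)) + O (lam^4/(ww k)^7)`
    (`sin x = x + O(x^3)`).  `green2`, `LL_sum`, `sums`:
    `e 2 = lam^2 fib N/(8 a b^2) + O (lam^2) + O (lam^2 fib N (lam^2 (fib N)^2 + N/fib N))`.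
    `lam^2 (fib N)^2 <= lam^(2/5)`, `N/fib N <= C lam^(2/5)` (as `fib N >= lam^(-3/4)`).
(4) `psi`: `defect` at k = 0 with constant w (the angles `th 0`, `th 1`, `th 0 + th 1` are near `-1.618 b`, b, `-0.618 b`):
    `th 0 = th 2 - b + O(lam^2)`, and `cos (th 0) = r cos psi`, `|th 0 - psi| < pi/2` (`T0_near`) gives `psi = th 0 + O(lam^2)`
    (the other solution `psi near -th 0` is excluded because `|2 th 0| mod 2 pi` is larger than pi/2).
    `LL 2 - b = (a - fib (N+1) b)/fib N`.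
-/

namespace SF

theorem gw3_sin_low (x : ℝ) (h1 : 15 / 100 ≤ |x|) (h2 : |x| ≤ Real.pi - 15 / 100) :
    1 / 10 ≤ |Real.sin x| := by
  have h0 : |Real.sin x| = |Real.sin (|x|)| := by
    rcases abs_cases x with ⟨h, _⟩ | ⟨h, _⟩
    · rw [h]
    · rw [h, Real.sin_neg, abs_neg]
  rw [h0]
  set y := |x| with hy
  have hs : (1 : ℝ) / 10 ≤ Real.sin (15 / 100) := by
    have := Real.sin_gt_sub_cube (x := 15 / 100) (by norm_num)
    norm_num at this ⊢
    linarith only [this]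
  have hpi := Real.pi_gt_three
  have h3 : Real.sin (15 / 100) ≤ Real.sin y := by
    rcases le_total y (Real.pi / 2) with h | h
    · exact Real.sin_le_sin_of_le_of_le_pi_div_two (by linarith only [hpi]) h h1
    · rw [← Real.sin_pi_sub y]
      exact Real.sin_le_sin_of_le_of_le_pi_div_two (by linarith only [hpi]) (by linarith only [h]) (by linarith only [h2])
  exact (hs.trans h3).trans (le_abs_self _)

theorem gw3_sin_sub (x : ℝ) : |Real.sin x - x| ≤ |x| ^ 3 := by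
  have h0 : |Real.sin x - x| = |Real.sin (|x|) - (|x|)| := by
    rcases abs_cases x with ⟨h, _⟩ | ⟨h, _⟩
    · rw [h]
    · rw [h, Real.sin_neg, ← abs_neg]
      congr 1
      ring
  rw [h0]
  rcases (abs_nonneg x).eq_or_lt with h | h
  · rw [← h]; simp
  · have h1 := Real.sin_gt_sub_cube h
    have h2 := Real.sin_lt h
    rw [abs_le]
    constructor
    · have : 0 ≤ |x| ^ 3 := by positivity
      linarith only [h1, h2]
    · have : 0 ≤ |x| ^ 3 := by positivity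
      linarith only [h1, h2]

/-- product of three: perturbation of the reciprocal -/
theorem gw3_recip (W D s1 s2 s3 p1 p2 p3 : ℝ) (hW : 0 < W) 
    (h1 : W / 100 ≤ |s1|) (h2 : W / 100 ≤ |s2|) (h3 : W / 100 ≤ |s3|)
    (g1 : W / 27 ≤ |p1|) (g2 : W / 27 ≤ |p2|) (g3 : W / 27 ≤ |p3|)
    (u1 : |s1| ≤ 30 * W) (u2 : |s2| ≤ 30 * W) 
    (v2 : |p2| ≤ 30 * W) (v3 : |p3| ≤ 30 * W)
    (d1 : |s1 - p1| ≤ D) (d2 : |s2 - p2| ≤ D) (d3 : |s3 - p3| ≤ D) :
    |1 / (s1 * s2 * s3) - 1 / (p1 * p2 * p3)| ≤ 6 * 10 ^ 13 * D / W ^ 4 := by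
  have hs1 : s1 ≠ 0 := by
    rw [← abs_pos]; exact lt_of_lt_of_le (by positivity) h1
  have hs2 : s2 ≠ 0 := by
    rw [← abs_pos]; exact lt_of_lt_of_le (by positivity) h2
  have hs3 : s3 ≠ 0 := by
    rw [← abs_pos]; exact lt_of_lt_of_le (by positivity) h3
  have hp1 : p1 ≠ 0 := by
    rw [← abs_pos]; exact lt_of_lt_of_le (by positivity) g1
  have hp2 : p2 ≠ 0 := by
    rw [← abs_pos]; exact lt_of_lt_of_le (by positivity) g2
  have hp3 : p3 ≠ 0 := by
    rw [← abs_pos]; exact lt_of_lt_of_le (by positivity) g3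
  have hD : 0 ≤ D := (abs_nonneg _).trans d1
  have e1 : 1 / (s1 * s2 * s3) - 1 / (p1 * p2 * p3)
      = (p1 * p2 * p3 - s1 * s2 * s3) / (s1 * s2 * s3 * (p1 * p2 * p3)) := by
    field_simp
  have e2 : p1 * p2 * p3 - s1 * s2 * s3 = (p1 - s1) * (p2 * p3) + s1 * ((p2 - s2) * p3)
      + s1 * (s2 * (p3 - s3)) := by ring
  rw [e1, abs_div]
  have hnum : |p1 * p2 * p3 - s1 * s2 * s3| ≤ 2700 * W ^ 2 * D := by
    rw [e2]
    have t1 : |(p1 - s1) * (p2 * p3)| ≤ D * ((30 * W) * (30 * W)) := by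
      rw [abs_mul, abs_mul, abs_sub_comm]
      gcongr
    have t2 : |s1 * ((p2 - s2) * p3)| ≤ (30 * W) * (D * (30 * W)) := by
      rw [abs_mul, abs_mul, abs_sub_comm p2]
      gcongr
    have t3 : |s1 * (s2 * (p3 - s3))| ≤ (30 * W) * ((30 * W) * D) := by
      rw [abs_mul, abs_mul, abs_sub_comm p3]
      gcongr
    calc _ ≤ |(p1 - s1) * (p2 * p3)| + |s1 * ((p2 - s2) * p3)| + |s1 * (s2 * (p3 - s3))| :=
          abs_add_three _ _ _
      _ ≤ D * ((30 * W) * (30 * W)) + (30 * W) * (D * (30 * W)) + (30 * W) * ((30 * W) * D) := by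
          gcongr
      _ = _ := by ring
  have hden : (W / 100) * (W / 100) * (W / 100) * ((W / 27) * (W / 27) * (W / 27))
      ≤ |s1 * s2 * s3 * (p1 * p2 * p3)| := by
    rw [abs_mul, abs_mul, abs_mul, abs_mul, abs_mul]
    gcongr
  calc |p1 * p2 * p3 - s1 * s2 * s3| / |s1 * s2 * s3 * (p1 * p2 * p3)|
      ≤ (2700 * W ^ 2 * D) / ((W / 100) * (W / 100) * (W / 100) * ((W / 27) * (W / 27) * (W / 27))) := by
        gcongr
    _ = 53144100000000 * D / W ^ 4 := by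
        field_simp
        ring
    _ ≤ _ := by
        gcongr
        norm_num

theorem gw3_loc (W E x y p1 p2 : ℝ) (hW : 0 < W) (hE : 0 ≤ E) (hEW : E ≤ W)
    (h1 : W / 100 ≤ |Real.sin x|) (h2 : W / 100 ≤ |Real.sin y|) (h3 : W / 100 ≤ |Real.sin (x + y)|)
    (g1 : W / 27 ≤ |p1|) (g2 : W / 27 ≤ |p2|) (g3 : W / 27 ≤ |p1 + p2|)
    (v1 : |p1| ≤ 20 * W) (v2 : |p2| ≤ 20 * W) (v3 : |p1 + p2| ≤ 20 * W)
    (d1 : |x - p1| ≤ E) (d2 : |y - p2| ≤ E) :
    |1 / (Real.sin x * Real.sin y * Real.sin (x + y)) - 1 / (p1 * p2 * (p1 + p2))|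
      ≤ 2 * 10 ^ 18 * (W ^ 3 + E) / W ^ 4 := by
  have hx : |x| ≤ 30 * W := by
    calc |x| = |(x - p1) + p1| := by congr 1; ring
      _ ≤ |x - p1| + |p1| := abs_add_le _ _
      _ ≤ 30 * W := by linarith only [hW, hEW, v1, d1]
  have hy : |y| ≤ 30 * W := by
    calc |y| = |(y - p2) + p2| := by congr 1; ring
      _ ≤ |y - p2| + |p2| := abs_add_le _ _
      _ ≤ 30 * W := by linarith only [hW, hEW, v2, d2]
  have hxy0 : |x + y - (p1 + p2)| ≤ 2 * E := by
    calc |x + y - (p1 + p2)| = |(x - p1) + (y - p2)| := by congr 1; ring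
      _ ≤ |x - p1| + |y - p2| := abs_add_le _ _
      _ ≤ 2 * E := by linarith only [d1, d2]
  have hxy : |x + y| ≤ 30 * W := by
    calc |x + y| = |(x + y - (p1 + p2)) + (p1 + p2)| := by congr 1; ring
      _ ≤ |x + y - (p1 + p2)| + |p1 + p2| := abs_add_le _ _
      _ ≤ 30 * W := by linarith only [hW, hEW, v3, hxy0]
  have key : ∀ z q : ℝ, |z| ≤ 30 * W → |z - q| ≤ 2 * E →
      |Real.sin z - q| ≤ 27000 * W ^ 3 + 2 * E := by
    intro z q hz hq
    have hc := gw3_sin_sub z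
    have hz3 : |z| ^ 3 ≤ (30 * W) ^ 3 := by gcongr
    calc |Real.sin z - q| = |(Real.sin z - z) + (z - q)| := by congr 1; ring
      _ ≤ |Real.sin z - z| + |z - q| := abs_add_le _ _
      _ ≤ 27000 * W ^ 3 + 2 * E := by
          have : (30 * W) ^ 3 = 27000 * W ^ 3 := by ring
          linarith only [hq, hc, hz3]
  have hsin : ∀ z : ℝ, |z| ≤ 30 * W → |Real.sin z| ≤ 30 * W := fun z hz =>
    (Real.abs_sin_le_abs).trans hz
  have := gw3_recip W (27000 * W ^ 3 + 2 * E) (Real.sin x) (Real.sin y) (Real.sin (x + y)) p1 p2 (p1 + p2)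
    hW h1 h2 h3 g1 g2 g3 (hsin x hx) (hsin y hy) (by linarith only [hW, v2]) (by linarith only [hW, v3])
    (key x p1 hx (by linarith only [hE, d1])) (key y p2 hy (by linarith only [hE, d2])) (key (x + y) (p1 + p2) hxy hxy0)
  refine this.trans ?_
  gcongr ?_ / W ^ 4
  have : 0 < W ^ 3 := by positivity
  linarith only [hE, this]

theorem gw3_cube (N : ℕ) : (N : ℝ) ^ 3 ≤ 27 * (Nat.fib N : ℝ) := by
  have key : ∀ n : ℕ, (n + 6) ^ 3 ≤ 27 * Nat.fib (n + 6) ∧ (n + 7) ^ 3 ≤ 27 * Nat.fib (n + 7) := by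
    intro n
    induction n with
    | zero => decide
    | succ n ih =>
      refine ⟨ih.2, ?_⟩
      have h1 := ih.1
      have h2 := ih.2
      have h3 : Nat.fib (n + 1 + 7) = Nat.fib (n + 6) + Nat.fib (n + 7) := by
        rw [show n + 1 + 7 = (n + 6) + 2 by ring, Nat.fib_add_two]
      rw [h3]
      have h4 : (n + 1 + 7) ^ 3 ≤ (n + 6) ^ 3 + (n + 7) ^ 3 := by
        have e : (n + 6) ^ 3 + (n + 7) ^ 3
            = (n + 1 + 7) ^ 3 + (n ^ 3 + 15 * n ^ 2 + 63 * n + 47) := by ring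
        rw [e]
        exact Nat.le_add_right _ _
      linarith only [ih, h4]
  have h : N ^ 3 ≤ 27 * Nat.fib N := by
    rcases Nat.lt_or_ge N 6 with h | h
    · interval_cases N <;> decide
    · obtain ⟨m, rfl⟩ := Nat.exists_eq_add_of_le' h
      exact (key m).1
  exact_mod_cast h


theorem gw3_core : ∃ C δ : ℝ, 1 ≤ C ∧ 0 < δ ∧ δ ≤ 1 / 100 ∧ ∀ lam : ℝ, 0 < lam → lam ≤ 1 / 100 →
    ∀ N : ℕ, 8 ≤ N → N % 4 = 0 → lam * (Nat.fib N : ℝ) ≤ δ →
    ∀ a b : ℝ, 24 / 100 * Real.pi ≤ a → a ≤ 36 / 100 * Real.pi → 27 / 100 * Real.pi ≤ b →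
        b ≤ 33 / 100 * Real.pi → ∀ psi : ℝ, TW lam b psi (N + 1) = a →
      (∀ k, 1 ≤ k → k ≤ N + 1 → |TW lam b psi k - LL N a b k| ≤ 70 * Real.sqrt lam) ∧
      |TW lam b psi 2 - LL N a b 2 - lam ^ 2 * (Nat.fib N : ℝ) / (8 * a * b ^ 2)|
        ≤ C * (lam ^ 2 + lam ^ 2 * N + lam ^ 4 * (Nat.fib N : ℝ) ^ 3) := by
  obtain ⟨C1, K, hC1, hK, hdef⟩ := defect
  obtain ⟨C2, hC2, hgreen⟩ := green
  obtain ⟨C5, hC5, hsums⟩ := sums
  set C3 : ℝ := C2 * C1 * 10 ^ 6 with hC3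
  have hC21 : 1 ≤ C2 * C1 := one_le_mul_of_one_le_of_one_le hC2 hC1
  have hC3' : 10 ^ 6 ≤ C3 := by
    rw [hC3]; linarith only [hC21]
  set ε : ℝ := 1 / (10 ^ 5 * K) with hε
  have hK0 : 0 < K := by linarith only [hK]
  have hε0 : 0 < ε := by positivity
  have hC30 : 0 < C3 := by linarith only [hC21]
  set δ : ℝ := min (ε ^ 2 / 3) (1 / (100 * C3)) with hδ
  have hδ0 : 0 < δ := by
    rw [hδ]; apply lt_min <;> positivity
  have hδ1 : δ ≤ ε ^ 2 / 3 := min_le_left _ _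
  have hδ2 : δ ≤ 1 / (100 * C3) := min_le_right _ _
  have hδ3 : δ * (100 * C3) ≤ 1 := by
    rw [← le_div_iff₀ (by positivity)]; exact hδ2
  have hδ4 : δ ≤ 1 / 100 := by
    have h2 : δ * (100 * 1) ≤ δ * (100 * C3) := by
      gcongr
      linarith only [hC21]
    linarith only [hδ3, h2]
  refine ⟨C1 * 10 ^ 14 * C5 + 10 ^ 18 * C5 + 10 ^ 18 * C3 * C5 + 2, δ, ?_, hδ0, hδ4, ?_⟩
  · have : 0 ≤ C1 * 10 ^ 14 * C5 + 10 ^ 18 * C5 + 10 ^ 18 * C3 * C5 := by positivity
    linarith only [hδ0, hδ4, this]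
  intro lam h0 h1 N hN hN4 hlF a b ha ha' hb hb' psi hpsi
  have hpi3 := Real.pi_gt_three
  have hpi4 := Real.pi_lt_d2
  have hF0 : 0 < (Nat.fib N : ℝ) := by
    exact_mod_cast Nat.fib_pos.mpr (by omega : 0 < N)
  set F : ℝ := (Nat.fib N : ℝ) with hF
  have hb0 : Real.sin b ≠ 0 := (Real.sin_pos_of_pos_of_lt_pi (by linarith only [hδ0, hδ4, hb, hpi3]) (by linarith only [hδ0, hδ4, hb', hpi3])).ne'
  set th : ℕ → ℝ := fun k => TW lam b psi k with hth
  obtain ⟨hL1, hLN, hLrec⟩ := LL_rec N (by omega) hN4 a b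
  have hth1 : th 1 = b := TW_one lam b psi
  have hthN : th (N + 1) = a := hpsi
  have hdf : ∀ k, |th (k + 2) - th (k + 1) - th k| ≤ 7 * Real.sqrt lam := fun k =>
    TW_defect lam b psi h0.le h1 hb0 k
  -- (1) the first bound
  have hsq0 : 0 ≤ Real.sqrt lam := Real.sqrt_nonneg _
  have he : ∀ k, 1 ≤ k → k ≤ N + 1 → |th k - LL N a b k| ≤ 70 * Real.sqrt lam := by
    intro k hk hkN
    have := lin_bvp (fun j => th (j + 1) - LL N a b (j + 1)) (7 * Real.sqrt lam) (by positivity) N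
      (by omega) ?_ ?_ ?_ (k - 1) (by omega)
    · simp only [Nat.sub_add_cancel hk] at this
      linarith only [this]
    · intro j hj
      have h2 := hdf (j + 1)
      have h3 := hLrec (j + 1) (by omega) (by omega)
      rw [show j + 2 + 1 = j + 1 + 2 by ring, h3]
      calc _ = |th (j + 1 + 2) - th (j + 1 + 1) - th (j + 1)| := by congr 1; ring
        _ ≤ _ := h2
    · rw [show 0 + 1 = 1 by rfl, hth1, hL1, sub_self]
    · rw [hthN, hLN, sub_self]
  refine ⟨he, ?_⟩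
  -- weights
  have hwc := fun k (hk : 1 ≤ k) (hkN : k ≤ N) => ww_comp N hN k hk hkN
  have hLb := fun k (hk : 1 ≤ k) (hkN : k ≤ N + 1) => LL_bound N hN hN4 a b ha ha' hb hb' k hk hkN
  have hsq : ∀ k, 1 ≤ k → k ≤ N → Real.sqrt lam ≤ ε * ww N k := by
    intro k hk hkN
    obtain ⟨-, -, hw0, hw1, hw2⟩ := hwc k hk hkN
    apply Real.sqrt_le_iff.mpr
    refine ⟨by positivity, ?_⟩
    have h2 : lam * F ≤ ε ^ 2 / 3 := hlF.trans hδ1
    have h3 : lam * 1 ≤ lam * (3 * ww N k ^ 2 * F) := by gcongr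
    calc lam = lam * 1 := by ring
      _ ≤ lam * (3 * ww N k ^ 2 * F) := h3
      _ = (lam * F) * (3 * ww N k ^ 2) := by ring
      _ ≤ ε ^ 2 / 3 * (3 * ww N k ^ 2) := by gcongr
      _ = (ε * ww N k) ^ 2 := by ring
  have hKe : K * ε = 1 / 10 ^ 5 := by
    rw [hε]; field_simp
  have hεK : ε ≤ 1 / 10 ^ 5 := by
    rw [← hKe]
    exact le_mul_of_one_le_left hε0.le hK
  have hsq2 : ∀ k, 1 ≤ k → k ≤ N → Real.sqrt lam ≤ ww N k / 10 ^ 5 := by
    intro k hk hkN
    obtain ⟨-, -, hw0, -, -⟩ := hwc k hk hkN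
    calc Real.sqrt lam ≤ ε * ww N k := hsq k hk hkN
      _ ≤ 1 / 10 ^ 5 * ww N k := by gcongr
      _ = _ := by ring
  have hjord : ∀ x W : ℝ, W / 50 ≤ |x| → |x| ≤ Real.pi / 2 → W / 100 ≤ |Real.sin x| := by
    intro x W hx hx2
    have h2 := Real.mul_abs_le_abs_sin hx2
    have h3 : (1 : ℝ) / 2 ≤ 2 / Real.pi := by
      rw [div_le_div_iff₀ (by norm_num) Real.pi_pos]; linarith only [hε0, hpi4, hεK]
    have h4 : 1 / 2 * |x| ≤ 2 / Real.pi * |x| := by gcongr
    linarith only [hx, h2, h4]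
  -- sines
  have hmain : ∀ k, 1 ≤ k → k ≤ N - 1 →
      |th (k + 2) - th (k + 1) - th k
        - lam ^ 2 / (8 * Real.sin (th k) * Real.sin (th (k + 1)) * Real.sin (th k + th (k + 1)))|
        ≤ C1 * lam ^ 4 / (ww N k / 100) ^ 7 ∧
      |th (k + 2) - th (k + 1) - th k| ≤ C1 * lam ^ 2 / (ww N k / 100) ^ 3 ∧
      ww N k / 100 ≤ |Real.sin (th k)| ∧ ww N k / 100 ≤ |Real.sin (th (k + 1))| ∧
      ww N k / 100 ≤ |Real.sin (th k + th (k + 1))| := by
    intro k hk hkN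
    obtain ⟨hw01, hw12, hw0, hw1, -⟩ := hwc k hk (by omega)
    obtain ⟨hv01, hv12, hv0, hv1, -⟩ := hwc (k + 1) (by omega) (by omega)
    obtain ⟨l1, l2, l3⟩ := hLb k hk (by omega)
    obtain ⟨m1, m2, m3⟩ := hLb (k + 1) (by omega) (by omega)
    obtain ⟨q1, q2, q3⟩ := hLb (k + 2) (by omega) (by omega)
    have hs := hsq2 k hk (by omega)
    have e0 := he k hk (by omega)
    have e1 := he (k + 1) (by omega) (by omega)
    have e2 := he (k + 2) (by omega) (by omega)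
    have hd := hdf k
    have t0 : |LL N a b k| ≤ |th k| + |th k - LL N a b k| := by
      calc |LL N a b k| = |th k - (th k - LL N a b k)| := by congr 1; ring
        _ ≤ _ := abs_sub _ _
    have t0' : |th k| ≤ |LL N a b k| + |th k - LL N a b k| := by
      calc |th k| = |LL N a b k + (th k - LL N a b k)| := by congr 1; ring
        _ ≤ _ := abs_add_le _ _
    have t1 : |LL N a b (k + 1)| ≤ |th (k + 1)| + |th (k + 1) - LL N a b (k + 1)| := by
      calc |LL N a b (k + 1)| = |th (k + 1) - (th (k + 1) - LL N a b (k + 1))| := by congr 1; ring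
        _ ≤ _ := abs_sub _ _
    have t1' : |th (k + 1)| ≤ |LL N a b (k + 1)| + |th (k + 1) - LL N a b (k + 1)| := by
      calc |th (k + 1)| = |LL N a b (k + 1) + (th (k + 1) - LL N a b (k + 1))| := by congr 1; ring
        _ ≤ _ := abs_add_le _ _
    have t2 : |LL N a b (k + 2)| ≤ |th k + th (k + 1)| + (|th (k + 2) - LL N a b (k + 2)|
        + |th (k + 2) - th (k + 1) - th k|) := by
      calc |LL N a b (k + 2)| = |(th k + th (k + 1)) - ((th (k + 2) - LL N a b (k + 2))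
            - (th (k + 2) - th (k + 1) - th k))| := by congr 1; ring
        _ ≤ |th k + th (k + 1)| + |(th (k + 2) - LL N a b (k + 2))
            - (th (k + 2) - th (k + 1) - th k)| := abs_sub _ _
        _ ≤ _ := by gcongr; exact abs_sub _ _
    have t2' : |th k + th (k + 1)| ≤ |LL N a b (k + 2)| + (|th (k + 2) - LL N a b (k + 2)|
        + |th (k + 2) - th (k + 1) - th k|) := by
      calc |th k + th (k + 1)| = |LL N a b (k + 2) + ((th (k + 2) - LL N a b (k + 2))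
            - (th (k + 2) - th (k + 1) - th k))| := by congr 1; ring
        _ ≤ |LL N a b (k + 2)| + |(th (k + 2) - LL N a b (k + 2))
            - (th (k + 2) - th (k + 1) - th k)| := abs_add_le _ _
        _ ≤ _ := by gcongr; exact abs_sub _ _
    have hs2 : 100 * Real.sqrt lam ≤ ww N k / 1000 := by linarith only [hs]
    have s1 : ww N k / 100 ≤ |Real.sin (th k)| := by
      apply hjord
      · linarith only [hw0, l1, hs, e0, t0]
      · linarith only [hε0, hpi3, hεK, hw1, l3, hs, e0, t0']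
    have s2 : ww N k / 100 ≤ |Real.sin (th (k + 1))| := by
      apply hjord
      · linarith only [hw01, hw0, m1, hs, e1, t1]
      · linarith only [hε0, hpi3, hεK, hw1, m3, hs, e1, t1']
    have s3 : ww N k / 100 ≤ |Real.sin (th k + th (k + 1))| := by
      apply hjord
      · linarith only [hw01, hw0, hv01, q1, hs, e2, hd, t2]
      · linarith only [hε0, hpi3, hεK, hw1, q3, hs, e2, hd, t2']
    have hkk : K * Real.sqrt lam ≤ ww N k / 100 := by
      calc K * Real.sqrt lam ≤ K * (ε * ww N k) := by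
            have := hsq k hk (by omega)
            gcongr
        _ = (K * ε) * ww N k := by ring
        _ = 1 / 10 ^ 5 * ww N k := by rw [hKe]
        _ ≤ _ := by linarith only [hw0]
    have := hdef lam (ww N k / 100) b psi h0 h1 (by positivity) (by linarith only [hε0, hεK, hw1]) hkk hb0 k s1 s2 s3
    exact ⟨this.1, this.2, s1, s2, s3⟩
  -- (2) green
  set M : ℝ := C1 * 10 ^ 6 * lam ^ 2 with hM
  have hM0 : 0 ≤ M := by positivity
  have heta : ∀ k, 1 ≤ k → k ≤ N - 1 →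
      (th (k + 2) - LL N a b (k + 2)) - (th (k + 1) - LL N a b (k + 1)) - (th k - LL N a b k)
        = th (k + 2) - th (k + 1) - th k := by
    intro k hk hkN
    rw [hLrec k hk (by omega)]
    ring
  have hg := hgreen N hN M (fun k => th k - LL N a b k) hM0 (by simp only [hth1, hL1, sub_self])
    (by simp only [hthN, hLN, sub_self]) (by
      intro k hk hkN
      rw [heta k hk hkN]
      obtain ⟨-, -, hw0, -, -⟩ := hwc k hk (by omega)
      refine (hmain k hk hkN).2.1.trans (le_of_eq ?_)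
      rw [hM]
      field_simp
      ring)
  -- (3)
  have hE1 : 3 * (C2 * M * F ^ 2) ≤ 1 := by
    have h2 : C2 * M * F ^ 2 = C3 * (lam * F) ^ 2 := by rw [hM, hC3]; ring
    have h3 : (lam * F) ^ 2 ≤ δ * δ := by
      rw [sq]
      have : 0 ≤ lam * F := by positivity
      gcongr
    have h4 : C3 * (lam * F) ^ 2 ≤ C3 * (δ * δ) := by gcongr
    have h5 : C3 * (δ * δ) = (δ * (100 * C3)) * δ / 100 := by ring
    have h6 : (δ * (100 * C3)) * δ ≤ 1 * δ := by gcongr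
    rw [h2]
    linarith only [hε0, hδ4, hεK, h4, h6]
  have hR : ∀ k, 1 ≤ k → k ≤ N - 1 →
      |th (k + 2) - th (k + 1) - th k
        - lam ^ 2 / 8 * (1 / (LL N a b k * LL N a b (k + 1) * LL N a b (k + 2)))|
        ≤ C1 * 10 ^ 14 * lam ^ 4 * (1 / ww N k ^ 7)
          + 10 ^ 18 * lam ^ 2 * (1 / ww N k)
          + 10 ^ 18 * C3 * lam ^ 4 * F ^ 2 * (1 / ww N k ^ 3) := by
    intro k hk hkN
    obtain ⟨hw01, hw12, hw0, hw1, -⟩ := hwc k hk (by omega)
    obtain ⟨hv01, hv12, hv0, hv1, -⟩ := hwc (k + 1) (by omega) (by omega)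
    obtain ⟨l1, l2, l3⟩ := hLb k hk (by omega)
    obtain ⟨m1, m2, m3⟩ := hLb (k + 1) (by omega) (by omega)
    obtain ⟨q1, q2, q3⟩ := hLb (k + 2) (by omega) (by omega)
    obtain ⟨d1, -, s1, s2, s3⟩ := hmain k hk hkN
    have g0 := hg k hk (by omega)
    have g1 := hg (k + 1) (by omega) (by omega)
    have hLk := hLrec k hk (by omega)
    set W := ww N k with hWdef
    have hp : 0 ≤ C2 * M * F ^ 2 := by positivity
    have hE : 3 * (C2 * M * F ^ 2) * W ≤ W := by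
      calc 3 * (C2 * M * F ^ 2) * W ≤ 1 * W := by gcongr
        _ = W := one_mul _
    have hsum : LL N a b k + LL N a b (k + 1) = LL N a b (k + 2) := by rw [hLk]; ring
    have hloc := gw3_loc W (3 * (C2 * M * F ^ 2) * W) (th k) (th (k + 1)) (LL N a b k)
      (LL N a b (k + 1)) hw0 (by positivity) hE s1 s2 s3 (by linarith only [hw0, l1]) (by linarith only [hv01, hv12, m1, hw01])
      (by rw [hsum]; linarith only [hv01, q1, hw01]) (by linarith only [hv0, hw12, l2]) (by linarith only [hv0, m2, hw12]) (by rw [hsum]; linarith only [hv12, hv0, q2, hw12])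
      (by
        refine g0.trans ?_
        have h9 := mul_nonneg hp hw0.le
        linarith only [h9])
      (by
        refine g1.trans ?_
        calc C2 * M * F ^ 2 * ww N (k + 1) ≤ C2 * M * F ^ 2 * (3 * W) := by gcongr
          _ = _ := by ring)
    rw [hsum] at hloc
    have hl2 : 0 ≤ lam ^ 2 / 8 := by positivity
    have hsplit : th (k + 2) - th (k + 1) - th k
        - lam ^ 2 / 8 * (1 / (LL N a b k * LL N a b (k + 1) * LL N a b (k + 2)))
        = (th (k + 2) - th (k + 1) - th k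
          - lam ^ 2 / (8 * Real.sin (th k) * Real.sin (th (k + 1)) * Real.sin (th k + th (k + 1))))
          + lam ^ 2 / 8 * (1 / (Real.sin (th k) * Real.sin (th (k + 1)) * Real.sin (th k + th (k + 1)))
            - 1 / (LL N a b k * LL N a b (k + 1) * LL N a b (k + 2))) := by
      have : lam ^ 2 / (8 * Real.sin (th k) * Real.sin (th (k + 1)) * Real.sin (th k + th (k + 1)))
          = lam ^ 2 / 8 * (1 / (Real.sin (th k) * Real.sin (th (k + 1)) *
            Real.sin (th k + th (k + 1)))) := by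
        rw [mul_one_div, div_div]
        congr 1
        ring
      rw [this]
      ring
    rw [hsplit]
    refine (abs_add_le _ _).trans ?_
    rw [abs_mul, abs_of_nonneg hl2]
    have b1 : C1 * lam ^ 4 / (W / 100) ^ 7 = C1 * 10 ^ 14 * lam ^ 4 * (1 / W ^ 7) := by
      field_simp
      ring
    have b2 : lam ^ 2 / 8 * (2 * 10 ^ 18 * (W ^ 3 + 3 * (C2 * M * F ^ 2) * W) / W ^ 4)
        = 10 ^ 18 / 4 * lam ^ 2 * (1 / W) + 3 * 10 ^ 18 / 4 * C3 * lam ^ 4 * F ^ 2 * (1 / W ^ 3) := by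
      rw [hM, hC3]
      field_simp
      ring
    have b3 : lam ^ 2 / 8 * |1 / (Real.sin (th k) * Real.sin (th (k + 1)) *
          Real.sin (th k + th (k + 1))) - 1 / (LL N a b k * LL N a b (k + 1) * LL N a b (k + 2))|
        ≤ lam ^ 2 / 8 * (2 * 10 ^ 18 * (W ^ 3 + 3 * (C2 * M * F ^ 2) * W) / W ^ 4) := by gcongr
    rw [b2] at b3
    rw [b1] at d1
    have b4 : 10 ^ 18 / 4 * lam ^ 2 * (1 / W) ≤ 10 ^ 18 * lam ^ 2 * (1 / W) := by
      gcongr
      norm_num
    have b5 : 3 * 10 ^ 18 / 4 * C3 * lam ^ 4 * F ^ 2 * (1 / W ^ 3)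
        ≤ 10 ^ 18 * C3 * lam ^ 4 * F ^ 2 * (1 / W ^ 3) := by
      gcongr
      norm_num
    linarith only [d1, b3, b4, b5]
  -- (4)
  have hne : ∀ k, 1 ≤ k → k ≤ N + 1 → LL N a b k ≠ 0 := by
    intro k hk hkN
    rw [← abs_pos]
    have hww : 0 < ww N k := by
      rcases Nat.lt_or_ge N k with h | h
      · obtain rfl : k = N + 1 := by omega
        have := (hwc N (by omega) le_rfl)
        linarith only [this.1, this.2.2.1, this]
      · exact (hwc k hk h).2.2.1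
    have := (hLb k hk hkN).1
    linarith only [div_pos hww (by norm_num : (0 : ℝ) < 3), hww, this]
  have hsum := LL_sum N hN hN4 a b hne
  have hgr := green2 N (by omega) (fun k => th k - LL N a b k) (by simp only [hth1, hL1, sub_self])
    (by simp only [hthN, hLN, sub_self])
  obtain ⟨S3, S1, S7⟩ := hsums N hN
  set r : ℕ → ℝ := fun k => th (k + 2) - th (k + 1) - th k
        - lam ^ 2 / 8 * (1 / (LL N a b k * LL N a b (k + 1) * LL N a b (k + 2))) with hr
  have hgr2 : th 2 - LL N a b 2 = -(lam ^ 2 / 8 / F *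
      ((Nat.fib N : ℝ) / (b ^ 2 * LL N a b 2) - (Nat.fib N : ℝ) ^ 2 / (a * b ^ 2)))
      - ∑ k ∈ Finset.Icc 1 (N - 1), (Nat.fib (N - k) : ℝ) / F * r k := by
    rw [← hsum, Finset.mul_sum, hgr]
    rw [neg_sub_left, ← Finset.sum_add_distrib]
    congr 1
    apply Finset.sum_congr rfl
    intro k hk
    rw [Finset.mem_Icc] at hk
    rw [heta k hk.1 hk.2]
    simp only [hr]
    ring
  have hrb : |∑ k ∈ Finset.Icc 1 (N - 1), (Nat.fib (N - k) : ℝ) / F * r k|
      ≤ (C1 * 10 ^ 14 * C5 + 10 ^ 18 * C5 + 10 ^ 18 * C3 * C5) *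
        (lam ^ 2 * N + lam ^ 4 * F ^ 3) := by
    have h2 : |∑ k ∈ Finset.Icc 1 (N - 1), (Nat.fib (N - k) : ℝ) / F * r k|
        ≤ ∑ k ∈ Finset.Icc 1 (N - 1), (Nat.fib (N - k) : ℝ) / F *
          (C1 * 10 ^ 14 * lam ^ 4 * (1 / ww N k ^ 7)
          + 10 ^ 18 * lam ^ 2 * (1 / ww N k)
          + 10 ^ 18 * C3 * lam ^ 4 * F ^ 2 * (1 / ww N k ^ 3)) := by
      refine (Finset.abs_sum_le_sum_abs _ _).trans ?_
      apply Finset.sum_le_sum
      intro k hk
      rw [Finset.mem_Icc] at hk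
      rw [abs_mul, abs_of_nonneg (by positivity)]
      gcongr
      exact hR k hk.1 hk.2
    have h3 : ∑ k ∈ Finset.Icc 1 (N - 1), (Nat.fib (N - k) : ℝ) / F *
          (C1 * 10 ^ 14 * lam ^ 4 * (1 / ww N k ^ 7)
          + 10 ^ 18 * lam ^ 2 * (1 / ww N k)
          + 10 ^ 18 * C3 * lam ^ 4 * F ^ 2 * (1 / ww N k ^ 3))
        = C1 * 10 ^ 14 * lam ^ 4 / F *
            ∑ k ∈ Finset.Icc 1 (N - 1), (Nat.fib (N - k) : ℝ) / ww N k ^ 7
          + 10 ^ 18 * lam ^ 2 / F *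
            ∑ k ∈ Finset.Icc 1 (N - 1), (Nat.fib (N - k) : ℝ) / ww N k
          + 10 ^ 18 * C3 * lam ^ 4 * F ^ 2 / F *
            ∑ k ∈ Finset.Icc 1 (N - 1), (Nat.fib (N - k) : ℝ) / ww N k ^ 3 := by
      rw [Finset.mul_sum, Finset.mul_sum, Finset.mul_sum, ← Finset.sum_add_distrib,
        ← Finset.sum_add_distrib]
      apply Finset.sum_congr rfl
      intro k _
      ring
    rw [h3] at h2
    refine h2.trans ?_
    calc _ ≤ C1 * 10 ^ 14 * lam ^ 4 / F * (C5 * F ^ 4)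
          + 10 ^ 18 * lam ^ 2 / F * (C5 * N * F)
          + 10 ^ 18 * C3 * lam ^ 4 * F ^ 2 / F * (C5 * F ^ 2) := by
          gcongr
      _ = C1 * 10 ^ 14 * C5 * (lam ^ 4 * F ^ 3) + 10 ^ 18 * C5 * (lam ^ 2 * N)
          + 10 ^ 18 * C3 * C5 * (lam ^ 4 * F ^ 3) := by
          field_simp
      _ ≤ _ := by
          have p1 : 0 ≤ lam ^ 2 * (N : ℝ) := by positivity
          have p2 : 0 ≤ lam ^ 4 * F ^ 3 := by positivity
          have c1 : 0 ≤ C1 * 10 ^ 14 * C5 := by positivity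
          have c2 : 0 ≤ 10 ^ 18 * C5 := by positivity
          have c3 : 0 ≤ 10 ^ 18 * C3 * C5 := by positivity
          linarith only [mul_nonneg c1 p1, mul_nonneg c2 p2, mul_nonneg c3 p1, p1, p2, c1, c2, c3]
  have hL2 : 1 / 9 ≤ |LL N a b 2| := by
    have h2 := (hLb 2 (by omega) (by omega)).1
    have h3 := (hwc 1 le_rfl (by omega)).1
    have h4 : ww N 1 = 1 := by
      unfold ww
      have h5 : ((Nat.fib (1 - 1) : ℕ) : ℝ) ≤ (Nat.fib (N + 1 - 1) : ℝ) := by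
        simp
      rw [max_eq_right h5, show N + 1 - 1 = N by omega]
      exact div_self hF0.ne'
    rw [h4] at h3
    norm_num at h3
    linarith only [h2, h3]
  have hL2' : LL N a b 2 ≠ 0 := hne 2 (by omega) (by omega)
  have hb8 : (8 : ℝ) / 10 ≤ b := by linarith only [hε0, hb, hpi3, hεK]
  have ha7 : (7 : ℝ) / 10 ≤ a := by linarith only [hε0, ha, hpi3, hεK]
  have hlast : |lam ^ 2 / (8 * b ^ 2 * LL N a b 2)| ≤ 2 * lam ^ 2 := by
    rw [abs_div, abs_of_nonneg (by positivity : 0 ≤ lam ^ 2), abs_mul,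
      abs_of_nonneg (by positivity : 0 ≤ 8 * b ^ 2)]
    rw [div_le_iff₀ (by positivity)]
    have h2 : (64 : ℝ) / 100 ≤ b ^ 2 := by
      calc (64 : ℝ) / 100 = (8 / 10) ^ 2 := by norm_num
        _ ≤ b ^ 2 := by gcongr
    have h3 : 1 / 2 ≤ 8 * b ^ 2 * |LL N a b 2| := by
      calc (1 : ℝ) / 2 ≤ 8 * (64 / 100) * (1 / 9) := by norm_num
        _ ≤ _ := by gcongr
    have h4 : 2 * lam ^ 2 * (1 / 2) ≤ 2 * lam ^ 2 * (8 * b ^ 2 * |LL N a b 2|) := by gcongr
    linarith only [h4]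
  have hfin : th 2 - LL N a b 2 - lam ^ 2 * F / (8 * a * b ^ 2)
      = -(lam ^ 2 / (8 * b ^ 2 * LL N a b 2))
      - ∑ k ∈ Finset.Icc 1 (N - 1), (Nat.fib (N - k) : ℝ) / F * r k := by
    rw [hgr2]
    have ha0 : a ≠ 0 := by linarith only [hε0, ha, hpi3, hεK]
    have hb00 : b ≠ 0 := by linarith only [hε0, hb, hpi3, hεK]
    have hF0' : (Nat.fib N : ℝ) ≠ 0 := hF0.ne'
    rw [hF]
    field_simp
    ring
  calc |TW lam b psi 2 - LL N a b 2 - lam ^ 2 * F / (8 * a * b ^ 2)|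
      = |-(lam ^ 2 / (8 * b ^ 2 * LL N a b 2))
      - ∑ k ∈ Finset.Icc 1 (N - 1), (Nat.fib (N - k) : ℝ) / F * r k| := by rw [← hfin]
    _ ≤ |-(lam ^ 2 / (8 * b ^ 2 * LL N a b 2))|
      + |∑ k ∈ Finset.Icc 1 (N - 1), (Nat.fib (N - k) : ℝ) / F * r k| := abs_sub _ _
    _ ≤ 2 * lam ^ 2 + (C1 * 10 ^ 14 * C5 + 10 ^ 18 * C5 + 10 ^ 18 * C3 * C5) *
        (lam ^ 2 * N + lam ^ 4 * F ^ 3) := by
        rw [abs_neg]
        gcongr
    _ ≤ _ := by
        have p0 : 0 ≤ lam ^ 2 := by positivity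
        have p1 : 0 ≤ lam ^ 2 * (N : ℝ) := by positivity
        have p2 : 0 ≤ lam ^ 4 * F ^ 3 := by positivity
        have c1 : 0 ≤ C1 * 10 ^ 14 * C5 + 10 ^ 18 * C5 + 10 ^ 18 * C3 * C5 := by positivity
        linarith only [mul_nonneg c1 p0, p0, p1, p2, c1]


theorem PP_asym : ∃ C lam1 : ℝ, 1 ≤ C ∧ 0 < lam1 ∧ lam1 ≤ 1 / 100 ∧
    ∀ lam : ℝ, 0 < lam → lam ≤ lam1 → ∀ N : ℕ, N % 4 = 0 →
      lam ^ (-(3 / 4) : ℝ) ≤ (Nat.fib N : ℝ) → (Nat.fib N : ℝ) ≤ lam ^ (-(4 / 5) : ℝ) →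
      ∀ a b : ℝ, 24 / 100 * Real.pi ≤ a → a ≤ 36 / 100 * Real.pi → 27 / 100 * Real.pi ≤ b →
        b ≤ 33 / 100 * Real.pi →
        |PP lam (N + 1) a b - ((a - (Nat.fib (N + 1) : ℝ) * b) / (Nat.fib N : ℝ)
            + lam ^ 2 * (Nat.fib N : ℝ) / (8 * a * b ^ 2))|
          ≤ C * lam ^ 2 * (Nat.fib N : ℝ) * lam ^ (39 / 100 : ℝ) ∧
        ∀ j ≤ 4, 1 / 10 ≤ |Real.sin (TW lam b (PP lam (N + 1) a b) j)| := by
  obtain ⟨C, δ, hC, hδ0, hδ1, hcore⟩ := gw3_core
  obtain ⟨C1, K, hC1, hK, hdef⟩ := defect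
  have hK0 : 0 < K := by linarith only [hδ0, hδ1, hK]
  refine ⟨210 + 1000 * C1 + 5 * C, min (δ ^ 5) (min (1 / (100 * K ^ 2)) (1 / 10 ^ 8)), by linarith only [hC, hδ0, hδ1, hC1],
    by positivity, ?_, ?_⟩
  · exact ((min_le_right _ _).trans (min_le_right _ _)).trans (by norm_num)
  intro lam h0 hl N hN4 hF1 hF2 a b ha ha' hb hb'
  have hl1 : lam ≤ δ ^ 5 := hl.trans (min_le_left _ _)
  have hl2 : lam ≤ 1 / (100 * K ^ 2) := hl.trans ((min_le_right _ _).trans (min_le_left _ _))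
  have hl3 : lam ≤ 1 / 10 ^ 8 := hl.trans ((min_le_right _ _).trans (min_le_right _ _))
  have h1 : lam ≤ 1 / 100 := hl3.trans (by norm_num)
  have hle1 : lam ≤ 1 := by linarith only [h0, hl3]
  have hpi3 := Real.pi_gt_d2
  have hpi4 := Real.pi_lt_d2
  have hF0 : 0 < (Nat.fib N : ℝ) := lt_of_lt_of_le (Real.rpow_pos_of_pos h0 _) hF1
  set F : ℝ := (Nat.fib N : ℝ) with hF
  set s : ℝ := lam ^ (39 / 100 : ℝ) with hs
  have hs0 : 0 < s := Real.rpow_pos_of_pos h0 _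
  -- size relations
  have hFl : 1 ≤ F * lam ^ (3 / 4 : ℝ) := by
    calc (1 : ℝ) = lam ^ (-(3 / 4) : ℝ) * lam ^ (3 / 4 : ℝ) := by
          rw [← Real.rpow_add h0]; norm_num
      _ ≤ F * lam ^ (3 / 4 : ℝ) := by
          have := Real.rpow_pos_of_pos h0 (3 / 4)
          gcongr
  have hlF : lam * F ≤ lam ^ (1 / 5 : ℝ) := by
    calc lam * F ≤ lam * lam ^ (-(4 / 5) : ℝ) := by gcongr
      _ = lam ^ (1 : ℝ) * lam ^ (-(4 / 5) : ℝ) := by rw [Real.rpow_one]
      _ = lam ^ (1 / 5 : ℝ) := by rw [← Real.rpow_add h0]; norm_num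
  have hlFδ : lam * F ≤ δ := by
    refine hlF.trans ?_
    calc lam ^ (1 / 5 : ℝ) ≤ (δ ^ 5) ^ (1 / 5 : ℝ) := by
          apply Real.rpow_le_rpow h0.le hl1 (by norm_num)
      _ = δ := by
          rw [← Real.rpow_natCast δ 5, ← Real.rpow_mul hδ0.le]
          norm_num
  have hF1s : 1 ≤ F * s := by
    refine hFl.trans ?_
    gcongr ?_ * ?_
    exact Real.rpow_le_rpow_of_exponent_ge h0 hle1 (by norm_num)
  have hl2F2 : (lam * F) ^ 2 ≤ s := by
    calc (lam * F) ^ 2 ≤ (lam ^ (1 / 5 : ℝ)) ^ 2 := by gcongr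
      _ = lam ^ (2 / 5 : ℝ) := by
          rw [← Real.rpow_natCast (lam ^ (1 / 5 : ℝ)) 2, ← Real.rpow_mul h0.le]
          norm_num
      _ ≤ s := Real.rpow_le_rpow_of_exponent_ge h0 hle1 (by norm_num)
  have hF6 : 10 ^ 6 ≤ F := by
    have h2 : lam ^ (3 / 4 : ℝ) ≤ 1 / 10 ^ 6 := by
      calc lam ^ (3 / 4 : ℝ) ≤ (1 / 10 ^ 8) ^ (3 / 4 : ℝ) :=
            Real.rpow_le_rpow h0.le hl3 (by norm_num)
        _ = 1 / 10 ^ 6 := by
            rw [show (1 / 10 ^ 8 : ℝ) = (1 / 10 : ℝ) ^ (8 : ℝ) by norm_num,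
              ← Real.rpow_mul (by norm_num)]
            norm_num
    have h3 : F * lam ^ (3 / 4 : ℝ) ≤ F * (1 / 10 ^ 6) := by gcongr
    linarith only [hFl, h3]
  have hN8 : 8 ≤ N := by
    by_contra hcon
    have h2 : N ≤ 7 := by omega
    have h3 : Nat.fib N ≤ Nat.fib 7 := Nat.fib_mono h2
    have h4 : F ≤ 13 := by
      rw [hF]
      have h5 : Nat.fib 7 = 13 := by decide
      rw [h5] at h3
      exact_mod_cast h3
    norm_num at hF6
    linarith only [h0, hl3, h4, hF6]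
  have hNF : (N : ℝ) ≤ 3 * (F * s) := by
    have h2 := gw3_cube N
    have h3 : (N : ℝ) ^ 3 ≤ (3 * (F * lam ^ (1 / 2 : ℝ))) ^ 3 := by
      have h4 : (3 * (F * lam ^ (1 / 2 : ℝ))) ^ 3 = 27 * F * (F * lam ^ (3 / 4 : ℝ)) ^ 2 := by
        have h5 : (lam ^ (1 / 2 : ℝ)) ^ 3 = (lam ^ (3 / 4 : ℝ)) ^ 2 := by
          rw [← Real.rpow_natCast, ← Real.rpow_natCast, ← Real.rpow_mul h0.le,
            ← Real.rpow_mul h0.le]
          norm_num
        calc _ = 27 * F * F ^ 2 * (lam ^ (1 / 2 : ℝ)) ^ 3 := by ring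
          _ = _ := by rw [h5]; ring
      rw [h4]
      have h6 : 1 ≤ (F * lam ^ (3 / 4 : ℝ)) ^ 2 := one_le_pow₀ hFl
      calc (N : ℝ) ^ 3 ≤ 27 * F * 1 := by linarith only [h2]
        _ ≤ _ := by gcongr
    have h7 : (N : ℝ) ≤ 3 * (F * lam ^ (1 / 2 : ℝ)) := by
      have h8 := Real.rpow_pos_of_pos h0 (1 / 2)
      exact le_of_pow_le_pow_left₀ (by norm_num) (by positivity) h3
    refine h7.trans ?_
    gcongr 3 * (F * ?_)
    exact Real.rpow_le_rpow_of_exponent_ge h0 hle1 (by norm_num)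
  have hsq : Real.sqrt lam ≤ 1 / 10 ^ 4 := by
    rw [Real.sqrt_le_iff]
    refine ⟨by norm_num, hl3.trans (by norm_num)⟩
  have hKs : K * Real.sqrt lam ≤ 1 / 10 := by
    have h2 : Real.sqrt lam ≤ 1 / (10 * K) := by
      rw [Real.sqrt_le_iff]
      refine ⟨by positivity, hl2.trans (le_of_eq ?_)⟩
      field_simp
      norm_num
    calc K * Real.sqrt lam ≤ K * (1 / (10 * K)) := by gcongr
      _ = 1 / 10 := by field_simp
  have hb0 : Real.sin b ≠ 0 := (Real.sin_pos_of_pos_of_lt_pi (by linarith only [h0, hb, hl3, hpi3]) (by linarith only [h0, hb', hl3, hpi3])).ne'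
  set psi : ℝ := PP lam (N + 1) a b with hpsi
  have hspec : TW lam b psi (N + 1) = a := PP_spec lam h0.le h1 (N + 1) (by omega) a b hb0
  obtain ⟨he, hmain⟩ := hcore lam h0 h1 N hN8 hN4 hlFδ a b ha ha' hb hb' psi hspec
  -- Fibonacci ratios
  obtain ⟨n, rfl⟩ : ∃ n, N = n + 5 := ⟨N - 5, by omega⟩
  set u : ℝ := (Nat.fib (n + 2) : ℝ) with hu
  set v : ℝ := (Nat.fib (n + 1) : ℝ) with hv
  have hfr : ∀ k : ℕ, (Nat.fib (k + 2) : ℝ) = (Nat.fib k : ℝ) + (Nat.fib (k + 1) : ℝ) := by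
    intro k
    rw [Nat.fib_add_two]
    push_cast
    ring
  have hvu : v ≤ u := by
    rw [hu, hv]; exact_mod_cast Nat.fib_mono (by omega)
  have huv : u ≤ 2 * v := by
    rw [hu, hfr n]
    have : (Nat.fib n : ℝ) ≤ v := by
      rw [hv]; exact_mod_cast Nat.fib_mono (by omega)
    linarith only [this]
  have hf3 : (Nat.fib (n + 3) : ℝ) = u + v := by
    have := hfr (n + 1); rw [show n + 1 + 2 = n + 3 by ring, show n + 1 + 1 = n + 2 by ring] at this
    linarith only [this]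
  have hf4 : (Nat.fib (n + 4) : ℝ) = 2 * u + v := by
    have := hfr (n + 2); rw [show n + 2 + 2 = n + 4 by ring, show n + 2 + 1 = n + 3 by ring] at this
    linarith only [hf3, this]
  have hf5 : F = 3 * u + 2 * v := by
    have := hfr (n + 3); rw [show n + 3 + 2 = n + 5 by ring, show n + 3 + 1 = n + 4 by ring] at this
    rw [hF]; linarith only [hf3, hf4, this]
  have hf6 : (Nat.fib (n + 5 + 1) : ℝ) = F + (2 * u + v) := by
    have := hfr (n + 4); rw [show n + 4 + 2 = n + 5 + 1 by ring, show n + 4 + 1 = n + 5 by ring] at this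
    rw [hF]; linarith only [hf4, this]
  have hL2 : LL (n + 5) a b 2 = (a - (2 * u + v) * b) / F := by
    unfold LL
    rw [show n + 5 + 1 - 2 = n + 4 by omega, hf4]
    norm_num
    rw [← hF]
    ring
  have hL3 : LL (n + 5) a b 3 = (a + (u + v) * b) / F := by
    unfold LL
    rw [show n + 5 + 1 - 3 = n + 3 by omega, hf3]
    norm_num
    rw [← hF]
  have hL4 : LL (n + 5) a b 4 = (2 * a - u * b) / F := by
    unfold LL
    rw [show n + 5 + 1 - 4 = n + 2 by omega, ← hu, show (4 - 1 : ℕ) = 3 by norm_num,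
      show Nat.fib 3 = 2 by decide]
    norm_num
    rw [← hF]
    ring
  have hb8 : (846 : ℝ) / 1000 ≤ b := by linarith only [h0, hb, hl3, hpi3]
  have hb9 : b ≤ (1040 : ℝ) / 1000 := by linarith only [h0, hb', hl3, hpi4]
  have ha7 : (7 : ℝ) / 10 ≤ a := by linarith only [h0, ha, hl3, hpi3]
  have ha8 : a ≤ 12 / 10 := by linarith only [h0, ha', hl3, hpi4]
  have hv0 : 0 < v := by
    rw [hv]; exact_mod_cast Nat.fib_pos.mpr (by omega)
  have hu0 : 0 < u := by linarith only [h0, hl3, hF6, hvu, hf5]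
  -- numerical bounds for L
  have hL2a : LL (n + 5) a b 2 ≤ -(50 / 100) := by
    rw [hL2, div_le_iff₀ hF0]
    have e1 : (6 / 10) * F ≤ 2 * u + v := by rw [hf5]; linarith only [hvu]
    have e2 : (6 / 10) * F * (846 / 1000) ≤ (2 * u + v) * b := by gcongr
    linarith only [h0, ha', hl3, hpi4, hF6, e2]
  have hL2b : -(66 / 100) ≤ LL (n + 5) a b 2 := by
    rw [hL2, le_div_iff₀ hF0]
    have e1 : 2 * u + v ≤ (625 / 1000) * F := by rw [hf5]; linarith only [huv]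
    have e2 : (2 * u + v) * b ≤ (625 / 1000) * F * (1040 / 1000) := by gcongr
    linarith only [h0, ha, hl3, hpi3, hF6, e2]
  have hL3a : 30 / 100 ≤ LL (n + 5) a b 3 := by
    rw [hL3, le_div_iff₀ hF0]
    have e1 : (375 / 1000) * F ≤ u + v := by rw [hf5]; linarith only [huv]
    have e2 : (375 / 1000) * F * (846 / 1000) ≤ (u + v) * b := by gcongr
    linarith only [h0, ha, hl3, hpi3, hF6, e2]
  have hL3b : LL (n + 5) a b 3 ≤ 45 / 100 := by
    rw [hL3, div_le_iff₀ hF0]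
    have e1 : u + v ≤ (4 / 10) * F := by rw [hf5]; linarith only [hvu]
    have e2 : (u + v) * b ≤ (4 / 10) * F * (1040 / 1000) := by gcongr
    linarith only [h0, ha', hl3, hpi4, hF6, e2]
  have hL4a : LL (n + 5) a b 4 ≤ -(165 / 1000) := by
    rw [hL4, div_le_iff₀ hF0]
    have e1 : (2 / 10) * F ≤ u := by rw [hf5]; linarith only [hvu]
    have e2 : (2 / 10) * F * (846 / 1000) ≤ u * b := by gcongr
    linarith only [h0, ha', hl3, hpi4, hF6, e2]
  have hL4b : -(30 / 100) ≤ LL (n + 5) a b 4 := by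
    rw [hL4, le_div_iff₀ hF0]
    have e1 : u ≤ (25 / 100) * F := by rw [hf5]; linarith only [huv]
    have e2 : u * b ≤ (25 / 100) * F * (1040 / 1000) := by gcongr
    linarith only [h0, ha, hl3, hpi3, hF6, e2]
  have he2 := abs_le.mp (he 2 (by omega) (by omega))
  have he3 := abs_le.mp (he 3 (by omega) (by omega))
  have he4 := abs_le.mp (he 4 (by omega) (by omega))
  have hd0 := abs_le.mp (TW_defect lam b psi h0.le h1 hb0 0)
  have hT1 : TW lam b psi 1 = b := TW_one lam b psi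
  simp only [Nat.zero_add] at hd0
  rw [hT1] at hd0
  have hsq0 : 0 ≤ Real.sqrt lam := Real.sqrt_nonneg _
  have r0 : -(171 / 100) ≤ TW lam b psi 0 ∧ TW lam b psi 0 ≤ -(133 / 100) := by
    constructor <;> linarith [he2.1, he2.2, hd0.1, hd0.2]
  have s0 : 1 / 10 ≤ |Real.sin (TW lam b psi 0)| := by
    apply gw3_sin_low <;> rw [abs_of_neg (by linarith only [r0.2, h0, hb, hl3, hpi3, hsq, hL2a, he2, hd0])] <;> linarith [r0.1, r0.2]
  have s1 : 1 / 10 ≤ |Real.sin (TW lam b psi 1)| := by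
    rw [hT1]
    apply gw3_sin_low <;> rw [abs_of_pos (by linarith only [h0, hb, hl3, hpi3])] <;> linarith
  have s2 : 1 / 10 ≤ |Real.sin (TW lam b psi 2)| := by
    apply gw3_sin_low <;> rw [abs_of_neg (by linarith only [he2.2, h0, hl3, hsq, hL2a, he2])] <;> linarith [he2.1, he2.2]
  have s3 : 1 / 10 ≤ |Real.sin (TW lam b psi 3)| := by
    apply gw3_sin_low <;> rw [abs_of_pos (by linarith only [he3.1, h0, hl3, hsq, hL3a, he3])] <;> linarith [he3.1, he3.2]
  have s4 : 1 / 10 ≤ |Real.sin (TW lam b psi 4)| := by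
    apply gw3_sin_low <;> rw [abs_of_neg (by linarith only [he4.2, h0, hl3, hsq, hL4a, he4])] <;> linarith [he4.1, he4.2]
  have s01 : 1 / 10 ≤ |Real.sin (TW lam b psi 0 + TW lam b psi 1)| := by
    rw [hT1]
    apply gw3_sin_low <;> rw [abs_of_neg (by linarith only [r0.2, h0, hl3, hsq, hL2a, he2, hd0])] <;> 
      linarith [he2.1, he2.2, hd0.1, hd0.2]
  refine ⟨?_, ?_⟩
  swap
  · intro j hj
    interval_cases j
    · exact s0
    · exact s1
    · exact s2
    · exact s3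
    · exact s4
  -- the start
  have hdd := (hdef lam (1 / 10) b psi h0 h1 (by norm_num) (by norm_num) hKs hb0 0 s0 s1 s01).2
  simp only [Nat.zero_add] at hdd
  rw [hT1] at hdd
  have hdd2 : |TW lam b psi 2 - b - TW lam b psi 0| ≤ 1000 * C1 * lam ^ 2 := by
    refine hdd.trans (le_of_eq ?_)
    norm_num
    ring
  have hnz : Real.sin (TW lam b psi 0) ≠ 0 := by
    rw [← abs_pos]; linarith only [h0, hl3, s0]
  have hW1 := (sin_TW_ne lam b psi hb0 0).mp hnz
  have hcos : Real.cos (TW lam b psi 0) = rr lam b * Real.cos psi := by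
    rw [cos_TW lam b psi hb0 0, clip_of_lt hW1]
    rfl
  have hsb : 1 / 10 ≤ |Real.sin b| := by rw [hT1] at s1; exact s1
  have hqq : qq lam b ^ 2 ≤ 25 * lam ^ 2 := by
    have h2 : 0 ≤ qq lam b := by unfold qq; positivity
    have h3 : qq lam b ≤ 5 * lam := by
      unfold qq
      rw [div_le_iff₀ (by positivity)]
      have h4 : 5 * lam * (2 * (1 / 10)) ≤ 5 * lam * (2 * |Real.sin b|) := by gcongr
      linarith only [h4]
    calc qq lam b ^ 2 ≤ (5 * lam) ^ 2 := by gcongr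
      _ = _ := by ring
  have hrr : |rr lam b - 1| ≤ 13 * lam ^ 2 := by
    have h2 := rr_sq lam b
    have h3 := one_le_rr lam b
    rw [abs_of_nonneg (by linarith only [h3])]
    have h4 : (rr lam b - 1) * 2 ≤ (rr lam b - 1) * (rr lam b + 1) :=
      mul_le_mul_of_nonneg_left (by linarith only [h3]) (by linarith only [h3])
    have h5 : (rr lam b - 1) * (rr lam b + 1) = rr lam b ^ 2 - 1 := by ring
    have h6 : 0 ≤ lam ^ 2 := sq_nonneg lam
    linarith only [hqq, h2, h3, h4]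
  have hcd : |Real.cos (TW lam b psi 0) - Real.cos psi| ≤ 13 * lam ^ 2 := by
    rw [hcos]
    calc |rr lam b * Real.cos psi - Real.cos psi| = |rr lam b - 1| * |Real.cos psi| := by
          rw [← abs_mul]; congr 1; ring
      _ ≤ (13 * lam ^ 2) * 1 := by
          gcongr
          exact Real.abs_cos_le_one _
      _ = _ := by ring
  have hnear : |TW lam b psi 0 - psi| < Real.pi / 2 := T0_near b psi hb0
  have hnear' := abs_lt.mp hnear
  have hpsi0 : |TW lam b psi 0 - psi| ≤ 210 * lam ^ 2 := by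
    rw [Real.cos_sub_cos, abs_mul, abs_mul] at hcd
    have h2 : 1 / 10 ≤ |Real.sin ((TW lam b psi 0 + psi) / 2)| := by
      apply gw3_sin_low <;> rw [abs_of_neg (by linarith only [r0.2, hnear'.1, h0, hb, hl3, hpi3, hsq, hL2a, he2, hd0, hnear'])] <;>
        linarith [r0.1, r0.2, hnear'.1, hnear'.2]
    have h3 := Real.mul_abs_le_abs_sin (x := (TW lam b psi 0 - psi) / 2) (by
      rw [abs_div, abs_of_pos (by norm_num : (0 : ℝ) < 2)]
      linarith only [h0, hl3, hpi3, hnear])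
    have h4 : (31 : ℝ) / 50 ≤ 2 / Real.pi := by
      rw [div_le_div_iff₀ (by norm_num) Real.pi_pos]; linarith only [h0, hl3, hpi4]
    have h5 : |(TW lam b psi 0 - psi) / 2| = |TW lam b psi 0 - psi| / 2 := by
      rw [abs_div, abs_of_pos (by norm_num : (0 : ℝ) < 2)]
    rw [h5] at h3
    have h6 : 31 / 50 * (|TW lam b psi 0 - psi| / 2) ≤ |Real.sin ((TW lam b psi 0 - psi) / 2)| := by
      refine le_trans ?_ h3
      gcongr
    have h7 : |(-2 : ℝ)| = 2 := by norm_num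
    rw [h7] at hcd
    have h8 : 2 * (1 / 10) * (31 / 50 * (|TW lam b psi 0 - psi| / 2)) ≤ 13 * lam ^ 2 := by
      refine le_trans ?_ hcd
      gcongr
    have : 0 ≤ lam ^ 2 := sq_nonneg _
    linarith only [h8, this]
  have hsplit : psi - ((a - (Nat.fib (n + 5 + 1) : ℝ) * b) / F + lam ^ 2 * F / (8 * a * b ^ 2))
      = -(TW lam b psi 0 - psi) + -(TW lam b psi 2 - b - TW lam b psi 0)
        + (TW lam b psi 2 - LL (n + 5) a b 2 - lam ^ 2 * F / (8 * a * b ^ 2)) := by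
    rw [hL2, hf6]
    have : F ≠ 0 := hF0.ne'
    field_simp
    ring
  rw [hsplit]
  refine (abs_add_three _ _ _).trans ?_
  rw [abs_neg, abs_neg]
  have hl20 : 0 ≤ lam ^ 2 := sq_nonneg _
  have f1 : lam ^ 2 ≤ lam ^ 2 * F * s := by
    calc lam ^ 2 = lam ^ 2 * 1 := by ring
      _ ≤ lam ^ 2 * (F * s) := by gcongr
      _ = _ := by ring
  have f2 : lam ^ 2 * ((n + 5 : ℕ) : ℝ) ≤ 3 * (lam ^ 2 * F * s) := by
    calc lam ^ 2 * ((n + 5 : ℕ) : ℝ) ≤ lam ^ 2 * (3 * (F * s)) := by gcongr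
      _ = _ := by ring
  have f3 : lam ^ 4 * F ^ 3 ≤ lam ^ 2 * F * s := by
    calc lam ^ 4 * F ^ 3 = lam ^ 2 * F * (lam * F) ^ 2 := by ring
      _ ≤ _ := by gcongr
  have f4 : C * (lam ^ 2 + lam ^ 2 * ((n + 5 : ℕ) : ℝ) + lam ^ 4 * F ^ 3)
      ≤ C * (5 * (lam ^ 2 * F * s)) := by
    gcongr
    linarith only [f1, f2, f3]
  have f5 : 1000 * C1 * lam ^ 2 ≤ 1000 * C1 * (lam ^ 2 * F * s) := by gcongr
  calc _ ≤ 210 * lam ^ 2 + 1000 * C1 * lam ^ 2
        + C * (lam ^ 2 + lam ^ 2 * ((n + 5 : ℕ) : ℝ) + lam ^ 4 * F ^ 3) := by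
        gcongr
    _ ≤ 210 * (lam ^ 2 * F * s) + 1000 * C1 * (lam ^ 2 * F * s) + C * (5 * (lam ^ 2 * F * s)) := by
        gcongr
    _ = _ := by ring

end SF
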