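import Pool.Agent.Helper65.SF.LRDefs
import Pool.Agent.Helper65.SF.P4a
import Pool.Agent.Helper65.SF.F7

/-!
# SF-LR: relations between the levels (elementary)

Proof in words.
* `fibz_comp`, `JJ_eq`: induction.  `JJ_det`: Cassini.  `sh_level`: `fib k fib (n-1) - fib n fib (k-1) = ± fib (n-k)` (d'Ocagne).
* `TE_near`: `EE_spec` and `TE_lin` for `k <= n` (error 70 sqrt lam, and 0 at k = n), for `k = n+1, n+2, n+3` the recursion
  `|TE (k+2) - TE (k+1) - TE k| <= 7 sqrt lam` (`lift`, `eta_le`): errors 77, 84, 168.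
* `good_first`: `200 sqrt lam <= 1/11 - 1/20`.
* `second_point`: put `a = TE lam (EE lam n s) k + JJ d w k pi`.  `|a - pi fib k s'| <= 70 sqrt lam + pi d fib (n-k)/fib n`
  (`sh_level`), `fib (n-k)/fib n <= 1/fib k`, so this is at most `70 sqrt lam + 4 e1`; as `|sin (pi fib k s')|` is at least `1/11 - 4 e1`
  (same d'Ocagne), `pi fib k s'` is at distance at least 1/12 from 0 and from `pi fib k`, so `a` lies in `(0, pi fib k)`;
  `t1 = EE lam k (a/(pi fib k))`, `TE lam t1 k = a` (`EE_spec`).  By `TE_near` (with n = k), `|TE lam t1 q - (fib q/fib k) a| <= 200 sqrt lam`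
  for `q <= k + 3`, and `(fib q/fib k) a = pi fib q s + (fib q/fib k) pi JJ k + O(600 sqrt lam)` for `q <= k+3`, where
  `(fib q/fib k) JJ d w k - JJ d w q = O(d/fib k)` (q = k-1 is `JJ_det`, the others by the recursion, at most `3 d/fib k`).
* `LG_of_goodN`: `|s - midn k i| <= 2^(-12)/fib (k+4)` and `pi fib (k+3) 2^(-12)/fib (k+4) <= 1/1000`.
-/

namespace SF

theorem fibz_comp (i j : ℤ) (m n : ℕ) : fibz (fibz i j m) (fibz i j (m + 1)) n = fibz i j (m + n) := by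
  induction n using Nat.twoStepInduction with
  | zero => rfl
  | one => rfl
  | more n ih1 ih2 =>
    rw [fibz, ih1, ih2, show m + (n + 2) = m + n + 2 by ring, fibz, show m + (n + 1) = m + n + 1 by ring]

private theorem lr_fibz_succ (i j : ℤ) (k : ℕ) :
    fibz i j (k + 1) = i * (Nat.fib k : ℤ) + j * (Nat.fib (k + 1) : ℤ) := by
  induction k using Nat.twoStepInduction with
  | zero => simp [fibz]
  | one => simp [fibz]; ring
  | more k ih1 ih2 =>
    have f1 : (Nat.fib (k + 2) : ℤ) = Nat.fib k + Nat.fib (k + 1) := by exact_mod_cast Nat.fib_add_two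
    have f2 : (Nat.fib (k + 1 + 2) : ℤ) = Nat.fib (k + 1) + Nat.fib (k + 2) := by
      exact_mod_cast Nat.fib_add_two (n := k + 1)
    rw [show k + 2 + 1 = (k + 1) + 2 by ring, fibz, ih1, ih2, f2, show k + 1 + 1 = k + 2 by ring, f1]
    ring

theorem JJ_eq (d w : ℤ) (k : ℕ) (hk : 1 ≤ k) :
    JJ d w k = d * (Nat.fib (k - 1) : ℤ) - w * (Nat.fib k : ℤ) := by
  obtain ⟨m, rfl⟩ : ∃ m, k = m + 1 := ⟨k - 1, by omega⟩
  unfold JJ
  rw [lr_fibz_succ, Nat.add_sub_cancel]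
  ring

private theorem lr_JJ_two (d w : ℤ) (k : ℕ) : JJ d w (k + 2) = JJ d w (k + 1) + JJ d w k := rfl

private theorem lr_JJ_cassini (d w : ℤ) (m : ℕ) :
    |(Nat.fib m : ℤ) * JJ d w (m + 1) - (Nat.fib (m + 1) : ℤ) * JJ d w m| = |d| := by
  induction m with
  | zero =>
    have : JJ d w 0 = d := rfl
    simp [this]
  | succ m ih =>
    rw [← ih, ← abs_neg, lr_JJ_two, Nat.fib_add_two]
    congr 1
    push_cast
    ring

theorem JJ_det (d w : ℤ) (k : ℕ) (hk : 1 ≤ k) :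
    |(Nat.fib (k - 1) : ℝ) / (Nat.fib k : ℝ) * (JJ d w k : ℝ) - (JJ d w (k - 1) : ℝ)|
      = |(d : ℝ)| / (Nat.fib k : ℝ) := by
  obtain ⟨m, rfl⟩ : ∃ m, k = m + 1 := ⟨k - 1, by omega⟩
  rw [Nat.add_sub_cancel]
  have hf : 0 < (Nat.fib (m + 1) : ℝ) := by exact_mod_cast Nat.fib_pos.2 (by omega)
  have h1 := lr_JJ_cassini d w m
  have h2 : |(Nat.fib m : ℝ) * (JJ d w (m + 1) : ℝ) - (Nat.fib (m + 1) : ℝ) * (JJ d w m : ℝ)| = |(d : ℝ)| := by
    exact_mod_cast h1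
  have h3 : (Nat.fib m : ℝ) / (Nat.fib (m + 1) : ℝ) * (JJ d w (m + 1) : ℝ) - (JJ d w m : ℝ) =
      ((Nat.fib m : ℝ) * (JJ d w (m + 1) : ℝ) - (Nat.fib (m + 1) : ℝ) * (JJ d w m : ℝ)) /
        (Nat.fib (m + 1) : ℝ) := by
    field_simp
  rw [h3, abs_div, h2, abs_of_pos hf]

private theorem lr_cassini (q : ℕ) :
    |(Nat.fib (q + 1) : ℤ) * Nat.fib (q + 1) - Nat.fib (q + 2) * Nat.fib q| = 1 := by
  induction q with
  | zero => simp
  | succ q ih =>
    rw [← abs_neg, ← ih]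
    congr 1
    have e1 : (Nat.fib (q + 1 + 2) : ℤ) = Nat.fib (q + 1) + Nat.fib (q + 2) := by
      rw [show q + 1 + 2 = (q + 1) + 2 by ring, Nat.fib_add_two]; push_cast; ring
    have e2 : (Nat.fib (q + 2) : ℤ) = Nat.fib q + Nat.fib (q + 1) := by
      rw [Nat.fib_add_two]; push_cast; ring
    rw [show q + 1 + 1 = q + 2 by ring, e1, e2]
    ring

private theorem lr_det (q m : ℕ) :
    |(Nat.fib (q + m) : ℤ) * Nat.fib (q + 1) - Nat.fib (q + m + 1) * Nat.fib q| = Nat.fib m := by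
  have key : ∀ m : ℕ, (Nat.fib (q + m) : ℤ) * Nat.fib (q + 1) - Nat.fib (q + m + 1) * Nat.fib q
      = ((Nat.fib (q + 1) : ℤ) * Nat.fib (q + 1) - Nat.fib (q + 2) * Nat.fib q) * Nat.fib m := by
    intro m
    induction m using Nat.twoStepInduction with
    | zero => simp; ring
    | one => simp
    | more m ih1 ih2 =>
      have e1 : (Nat.fib (q + (m + 2)) : ℤ) = Nat.fib (q + m) + Nat.fib (q + (m + 1)) := by
        rw [show q + (m + 2) = (q + m) + 2 by ring, Nat.fib_add_two]; push_cast; ring_nf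
      have e2 : (Nat.fib (q + (m + 2) + 1) : ℤ) = Nat.fib (q + m + 1) + Nat.fib (q + (m + 1) + 1) := by
        rw [show q + (m + 2) + 1 = (q + m + 1) + 2 by ring, Nat.fib_add_two]; push_cast; ring_nf
      have e3 : (Nat.fib (m + 2) : ℤ) = Nat.fib m + Nat.fib (m + 1) := by
        rw [Nat.fib_add_two]; push_cast; ring
      rw [e1, e2, e3, mul_add, ← ih1, ← ih2]
      ring
  rw [key m, abs_mul, lr_cassini q, one_mul]
  simp

theorem sh_level (n k : ℕ) (hk : 1 ≤ k) (hkn : k ≤ n) (d w : ℤ) (s : ℝ) :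
    |(Nat.fib k : ℝ) * sh n d w s - (Nat.fib k : ℝ) * s - (JJ d w k : ℝ)|
      = |(d : ℝ)| * (Nat.fib (n - k) : ℝ) / (Nat.fib n : ℝ) := by
  obtain ⟨q, rfl⟩ : ∃ q, k = q + 1 := ⟨k - 1, by omega⟩
  obtain ⟨m, rfl⟩ : ∃ m, n = q + m + 1 := ⟨n - (q + 1), by omega⟩
  have hf : 0 < (Nat.fib (q + m + 1) : ℝ) := by exact_mod_cast Nat.fib_pos.2 (by omega)
  have h1 := lr_det q m
  have h2 : |(Nat.fib (q + m) : ℝ) * Nat.fib (q + 1) - Nat.fib (q + m + 1) * Nat.fib q| = (Nat.fib m : ℝ) := by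
    exact_mod_cast h1
  rw [show q + m + 1 - (q + 1) = m by omega, JJ_eq d w (q + 1) (by omega), Nat.add_sub_cancel]
  unfold sh
  rw [Nat.add_sub_cancel, ← h2]
  push_cast
  have h3 : (Nat.fib (q + 1) : ℝ) * (s + d * (Nat.fib (q + m) : ℝ) / (Nat.fib (q + m + 1) : ℝ) - w) -
      (Nat.fib (q + 1) : ℝ) * s - (d * (Nat.fib q : ℝ) - w * (Nat.fib (q + 1) : ℝ)) =
      d * ((Nat.fib (q + m) : ℝ) * Nat.fib (q + 1) - Nat.fib (q + m + 1) * Nat.fib q) /
        (Nat.fib (q + m + 1) : ℝ) := by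
    field_simp
    ring
  rw [h3, abs_div, abs_mul, abs_of_pos hf]

theorem sh_self (n : ℕ) (hn : 1 ≤ n) (d w : ℤ) (s : ℝ) :
    Real.pi * (Nat.fib n : ℝ) * sh n d w s = Real.pi * (Nat.fib n : ℝ) * s + (JJ d w n : ℝ) * Real.pi := by
  have hf : 0 < (Nat.fib n : ℝ) := by exact_mod_cast Nat.fib_pos.2 (by omega)
  rw [JJ_eq d w n hn]
  unfold sh
  push_cast
  field_simp
  ring

theorem TE_near (lam : ℝ) (h0 : 0 ≤ lam) (h1 : lam ≤ 1 / 100) (n : ℕ) (hn : 1 ≤ n) (s : ℝ)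
    (hs0 : 0 < s) (hs1 : s < 1) (k : ℕ) (hk : k ≤ n + 3) :
    |TE lam (EE lam n s) k - Real.pi * (Nat.fib k : ℝ) * s| ≤ 200 * Real.sqrt lam := by
  obtain ⟨t, ht⟩ : ∃ t, t = EE lam n s := ⟨_, rfl⟩
  have hsp := (EE_spec lam h0 h1 n hn s hs0 hs1).1
  rw [← ht] at hsp ⊢
  have hr := Real.sqrt_nonneg lam
  obtain ⟨E, hE⟩ : ∃ E : ℕ → ℝ, ∀ j, E j = TE lam t j - Real.pi * (Nat.fib j : ℝ) * s := ⟨_, fun _ => rfl⟩
  have hfn : 0 < (Nat.fib n : ℝ) := by exact_mod_cast Nat.fib_pos.2 (by omega)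
  have hle : ∀ j, j ≤ n → |E j| ≤ 70 * Real.sqrt lam := by
    intro j hj
    have h2 := TE_lin lam t h0 h1 n hn j hj
    rw [hsp] at h2
    rw [hE]
    have h3 : (Nat.fib j : ℝ) / (Nat.fib n : ℝ) * (Real.pi * (Nat.fib n : ℝ) * s) =
        Real.pi * (Nat.fib j : ℝ) * s := by
      field_simp
    rwa [h3] at h2
  have hn0 : E n = 0 := by rw [hE, hsp, sub_self]
  have hrec : ∀ j, |E (j + 2) - E (j + 1) - E j| ≤ 7 * Real.sqrt lam := by
    intro j
    have h2 := TE_defect lam t h0 h1 j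
    have h3 : E (j + 2) - E (j + 1) - E j = TE lam t (j + 2) - TE lam t (j + 1) - TE lam t j := by
      rw [hE, hE, hE, Nat.fib_add_two]
      push_cast
      ring
    rwa [h3]
  rw [← hE]
  obtain ⟨m, rfl⟩ : ∃ m, n = m + 1 := ⟨n - 1, by omega⟩
  have a0 := abs_le.1 (hle m (by omega))
  have b0 := abs_le.1 (hrec m)
  have b1 := abs_le.1 (hrec (m + 1))
  have b2 := abs_le.1 (hrec (m + 2))
  rw [show m + 1 + 2 = m + 3 by ring, show m + 1 + 1 = m + 2 by ring] at b1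
  rw [show m + 2 + 2 = m + 4 by ring, show m + 2 + 1 = m + 3 by ring] at b2
  rcases Nat.lt_or_ge k (m + 2) with h | h
  · have := hle k (by omega)
    linarith
  · have hk' : k = m + 2 ∨ k = m + 3 ∨ k = m + 4 := by omega
    rcases hk' with rfl | rfl | rfl
    · rw [abs_le]; constructor <;> linarith
    · rw [abs_le]; constructor <;> linarith
    · rw [abs_le]; constructor <;> linarith

private theorem lr_sin_lip (a b : ℝ) : |Real.sin a| - |a - b| ≤ |Real.sin b| := by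
  have h := Real.abs_sin_sub_sin_le a b
  have h2 : |Real.sin a| ≤ |Real.sin a - Real.sin b| + |Real.sin b| := by
    have := abs_add_le (Real.sin a - Real.sin b) (Real.sin b)
    simpa using this
  linarith

private theorem lr_sin_shift (a : ℝ) (j : ℤ) : |Real.sin (a + j * Real.pi)| = |Real.sin a| := by
  rw [Real.sin_add_int_mul_pi, abs_mul]
  rcases Int.even_or_odd j with h | h
  · rw [h.neg_one_zpow]; simp
  · rw [h.neg_one_zpow]; simp

theorem good_first : ∃ lam1 : ℝ, 0 < lam1 ∧ lam1 ≤ 1 / 100 ∧ ∀ lam : ℝ, 0 < lam → lam ≤ lam1 →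
    ∀ (n k : ℕ) (s : ℝ), 0 < s → s < 1 → k ≤ n → LG (1 / 11) k s →
      Good (1 / 20) (fun q => TE lam (EE lam n s) q) k := by
  refine ⟨(1 / 5000) ^ 2, by norm_num, by norm_num, ?_⟩
  intro lam hl0 hl1 n k s hs0 hs1 hkn hLG
  have hr : Real.sqrt lam ≤ 1 / 5000 := Real.sqrt_le_iff.2 ⟨by norm_num, hl1⟩
  refine ⟨hLG.1, fun j hj1 hj2 => ?_⟩
  have h1 := hLG.2 j hj1 hj2
  have h4 := hLG.1
  have h2 := TE_near lam hl0.le (hl1.trans (by norm_num)) n (by omega) s hs0 hs1 j (by omega)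
  have h3 := lr_sin_lip (Real.pi * (Nat.fib j : ℝ) * s) (TE lam (EE lam n s) j)
  rw [abs_sub_comm] at h2
  change 1 / 20 ≤ |Real.sin (TE lam (EE lam n s) j)|
  linarith

private theorem lr_supermul (m n : ℕ) (hm : 1 ≤ m) :
    Nat.fib m * Nat.fib n ≤ Nat.fib (m + n) := by
  obtain ⟨m, rfl⟩ : ∃ m', m = m' + 1 := ⟨m - 1, by omega⟩
  have := Nat.fib_add n m
  rw [show (m + 1) + n = n + m + 1 by ring, this]
  have h1 : Nat.fib n ≤ Nat.fib (n + 1) := Nat.fib_le_fib_succ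
  nlinarith [Nat.zero_le (Nat.fib n * Nat.fib m), Nat.mul_le_mul_right (Nat.fib (m + 1)) h1]

theorem second_point : ∃ lam1 e1 : ℝ, 0 < lam1 ∧ lam1 ≤ 1 / 100 ∧ 0 < e1 ∧ e1 < 1 ∧
    ∀ lam : ℝ, 0 < lam → lam ≤ lam1 → ∀ (n k : ℕ) (d w : ℤ) (s : ℝ), 0 < s → s < 1 →
      0 < sh n d w s → sh n d w s < 1 → k ≤ n → 1 ≤ d → (d : ℝ) ≤ e1 * (Nat.fib k : ℝ) →
      LG (1 / 11) k s →
      ∃ t1 : ℝ, TE lam t1 k = TE lam (EE lam n s) k + (JJ d w k : ℝ) * Real.pi ∧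
        Good (1 / 20) (fun q => TE lam t1 q) k ∧ JJ d w k ≠ 0 := by
  refine ⟨(1 / 100000) ^ 2, 1 / 400, by norm_num, by norm_num, by norm_num, by norm_num, ?_⟩
  intro lam hl0 hl1 n k d w s hs0 hs1 hsh0 hsh1 hkn hd1 hd hLG
  have hlam : lam ≤ 1 / 100 := hl1.trans (by norm_num)
  have hr : Real.sqrt lam ≤ 1 / 100000 := Real.sqrt_le_iff.2 ⟨by norm_num, hl1⟩
  have hr0 := Real.sqrt_nonneg lam
  have hk4 := hLG.1
  have hpi := Real.pi_pos
  have hpi4 : Real.pi < 4 := by linarith [Real.pi_lt_d2]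
  have hfk : 0 < (Nat.fib k : ℝ) := by exact_mod_cast Nat.fib_pos.2 (by omega)
  have hfn : 0 < (Nat.fib n : ℝ) := by exact_mod_cast Nat.fib_pos.2 (by omega)
  have hd0 : (0 : ℝ) < d := by exact_mod_cast (by omega : (0:ℤ) < d)
  have hdk : (d : ℝ) / (Nat.fib k : ℝ) ≤ 1 / 400 := by
    rw [div_le_iff₀ hfk]; linarith
  obtain ⟨a, ha⟩ : ∃ a, a = TE lam (EE lam n s) k + (JJ d w k : ℝ) * Real.pi := ⟨_, rfl⟩
  have hTk := TE_near lam hl0.le hlam n (by omega) s hs0 hs1 k (by omega)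
  have hlev := sh_level n k (by omega) hkn d w s
  have hlev2 : |(Nat.fib k : ℝ) * sh n d w s - (Nat.fib k : ℝ) * s - (JJ d w k : ℝ)| ≤ 1 / 400 := by
    rw [hlev, abs_of_pos hd0]
    refine le_trans ?_ hdk
    rw [div_le_div_iff₀ hfn hfk]
    have h1 := lr_supermul k (n - k) (by omega)
    rw [show k + (n - k) = n by omega] at h1
    have h2 : (Nat.fib k : ℝ) * (Nat.fib (n - k) : ℝ) ≤ (Nat.fib n : ℝ) := by exact_mod_cast h1
    nlinarith
  have hshk : |Real.pi * (Nat.fib k : ℝ) * sh n d w s - (Real.pi * (Nat.fib k : ℝ) * s + (JJ d w k : ℝ) * Real.pi)|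
      ≤ 1 / 100 := by
    have h1 : Real.pi * (Nat.fib k : ℝ) * sh n d w s - (Real.pi * (Nat.fib k : ℝ) * s + (JJ d w k : ℝ) * Real.pi)
        = Real.pi * ((Nat.fib k : ℝ) * sh n d w s - (Nat.fib k : ℝ) * s - (JJ d w k : ℝ)) := by ring
    rw [h1, abs_mul, abs_of_pos hpi]
    nlinarith [abs_nonneg ((Nat.fib k : ℝ) * sh n d w s - (Nat.fib k : ℝ) * s - (JJ d w k : ℝ))]
  have hak : |a - Real.pi * (Nat.fib k : ℝ) * sh n d w s| ≤ 1 / 50 := by
    have h1 := abs_le.1 hTk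
    have h2 := abs_le.1 hshk
    rw [ha, abs_le]
    constructor <;> linarith
  have hsin : 1 / 20 ≤ |Real.sin (Real.pi * (Nat.fib k : ℝ) * sh n d w s)| := by
    have h1 := lr_sin_lip (Real.pi * (Nat.fib k : ℝ) * s + (JJ d w k : ℝ) * Real.pi)
      (Real.pi * (Nat.fib k : ℝ) * sh n d w s)
    rw [lr_sin_shift, abs_sub_comm] at h1
    have h2 := hLG.2 k (by omega) (by omega)
    linarith
  -- distance from the ends
  have hlow : 1 / 20 ≤ Real.pi * (Nat.fib k : ℝ) * sh n d w s := by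
    have h1 : 0 ≤ Real.pi * (Nat.fib k : ℝ) * sh n d w s := by positivity
    have h2 := Real.abs_sin_sub_sin_le (Real.pi * (Nat.fib k : ℝ) * sh n d w s) 0
    rw [Real.sin_zero, sub_zero, sub_zero, abs_of_nonneg h1] at h2
    linarith
  have hupp : Real.pi * (Nat.fib k : ℝ) * sh n d w s ≤ Real.pi * (Nat.fib k : ℝ) - 1 / 20 := by
    have h1 : 0 ≤ Real.pi * (Nat.fib k : ℝ) - Real.pi * (Nat.fib k : ℝ) * sh n d w s := by
      have : Real.pi * (Nat.fib k : ℝ) * sh n d w s ≤ Real.pi * (Nat.fib k : ℝ) * 1 := by gcongr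
      linarith
    have h2 := Real.abs_sin_sub_sin_le (Real.pi * (Nat.fib k : ℝ) * sh n d w s) (Real.pi * (Nat.fib k : ℝ))
    have h3 : Real.sin (Real.pi * (Nat.fib k : ℝ)) = 0 := by
      rw [mul_comm]; exact Real.sin_nat_mul_pi _
    rw [h3, sub_zero, abs_sub_comm, abs_of_nonneg h1] at h2
    linarith
  have hak' := abs_le.1 hak
  have ha0 : 0 < a := by linarith
  have ha1 : a < Real.pi * (Nat.fib k : ℝ) := by linarith
  obtain ⟨s2, hs2⟩ : ∃ s2, s2 = a / (Real.pi * (Nat.fib k : ℝ)) := ⟨_, rfl⟩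
  have hpf : 0 < Real.pi * (Nat.fib k : ℝ) := by positivity
  have hs20 : 0 < s2 := by rw [hs2]; positivity
  have hs21 : s2 < 1 := by rw [hs2, div_lt_one hpf]; exact ha1
  have hsp := (EE_spec lam hl0.le hlam k (by omega) s2 hs20 hs21).1
  have hpa : Real.pi * (Nat.fib k : ℝ) * s2 = a := by rw [hs2]; field_simp
  refine ⟨EE lam k s2, ?_, ⟨hk4, fun q hq1 hq2 => ?_⟩, ?_⟩
  · rw [hsp, hpa, ha]
  · change 1 / 20 ≤ |Real.sin (TE lam (EE lam k s2) q)|
    have hT := TE_near lam hl0.le hlam k (by omega) s2 hs20 hs21 q (by omega)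
    -- r q = fib q / fib k * JJ k - JJ q
    obtain ⟨r, hrd⟩ : ∃ r : ℕ → ℝ, ∀ q, r q = (Nat.fib q : ℝ) / (Nat.fib k : ℝ) * (JJ d w k : ℝ) - (JJ d w q : ℝ) :=
      ⟨_, fun _ => rfl⟩
    have hrec : ∀ q, r (q + 2) = r (q + 1) + r q := by
      intro q
      rw [hrd, hrd, hrd, lr_JJ_two, Nat.fib_add_two]
      push_cast
      ring
    have hrk : r k = 0 := by rw [hrd, div_self hfk.ne', one_mul, sub_self]
    have hrk1 : |r (k - 1)| ≤ 1 / 400 := by
      rw [hrd, JJ_det d w k (by omega), abs_of_pos hd0]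
      exact hdk
    obtain ⟨m, rfl⟩ : ∃ m, k = m + 3 := ⟨k - 3, by omega⟩
    rw [show m + 3 - 1 = m + 2 by omega] at hrk1
    have e1 := hrec m
    have e2 := hrec (m + 1)
    have e3 := hrec (m + 2)
    have e4 := hrec (m + 3)
    have e5 := hrec (m + 4)
    rw [show m + 1 + 2 = m + 3 by ring, show m + 1 + 1 = m + 2 by ring] at e2
    rw [show m + 2 + 2 = m + 4 by ring, show m + 2 + 1 = m + 3 by ring] at e3
    rw [show m + 3 + 2 = m + 5 by ring, show m + 3 + 1 = m + 4 by ring] at e4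
    rw [show m + 4 + 2 = m + 6 by ring, show m + 4 + 1 = m + 5 by ring] at e5
    have hb := abs_le.1 hrk1
    have hq' : q = m ∨ q = m + 1 ∨ q = m + 2 ∨ q = m + 3 ∨ q = m + 4 ∨ q = m + 5 ∨ q = m + 6 := by omega
    have hrq : |r q| ≤ 1 / 200 := by
      rw [abs_le]
      rcases hq' with rfl | rfl | rfl | rfl | rfl | rfl | rfl <;> constructor <;> linarith
    -- fib q / fib k ≤ 5
    have hratio : (Nat.fib q : ℝ) / (Nat.fib (m + 3) : ℝ) ≤ 5 := by
      rw [div_le_iff₀ hfk]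
      have h1 : Nat.fib q ≤ Nat.fib (m + 6) := Nat.fib_mono (by omega)
      have h2 : Nat.fib (m + 6) = Nat.fib (m + 4) + Nat.fib (m + 5) := Nat.fib_add_two (n := m + 4)
      have h2' : Nat.fib (m + 5) = Nat.fib (m + 3) + Nat.fib (m + 4) := Nat.fib_add_two (n := m + 3)
      have h3 : Nat.fib (m + 4) = Nat.fib (m + 2) + Nat.fib (m + 3) := Nat.fib_add_two (n := m + 2)
      have h4 : Nat.fib (m + 2) ≤ Nat.fib (m + 3) := Nat.fib_le_fib_succ
      have h5 : Nat.fib q ≤ 5 * Nat.fib (m + 3) := by omega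
      exact_mod_cast h5
    have hratio0 : 0 ≤ (Nat.fib q : ℝ) / (Nat.fib (m + 3) : ℝ) := by positivity
    have hmain : |TE lam (EE lam (m + 3) s2) q - (Real.pi * (Nat.fib q : ℝ) * s + (JJ d w q : ℝ) * Real.pi)| ≤ 1 / 30 := by
      have h1 : Real.pi * (Nat.fib q : ℝ) * s2 = (Nat.fib q : ℝ) / (Nat.fib (m + 3) : ℝ) * a := by
        rw [hs2]; field_simp
      have h2 : Real.pi * (Nat.fib q : ℝ) * s2 - (Real.pi * (Nat.fib q : ℝ) * s + (JJ d w q : ℝ) * Real.pi) =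
          (Nat.fib q : ℝ) / (Nat.fib (m + 3) : ℝ) *
            (TE lam (EE lam n s) (m + 3) - Real.pi * (Nat.fib (m + 3) : ℝ) * s) + Real.pi * r q := by
        rw [h1, ha, hrd]
        field_simp
        ring
      have h3 : |(Nat.fib q : ℝ) / (Nat.fib (m + 3) : ℝ) *
            (TE lam (EE lam n s) (m + 3) - Real.pi * (Nat.fib (m + 3) : ℝ) * s)| ≤ 5 * (200 * Real.sqrt lam) := by
        rw [abs_mul, abs_of_nonneg hratio0]
        gcongr
      have h4 : |Real.pi * r q| ≤ 1 / 50 := by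
        rw [abs_mul, abs_of_pos hpi]
        nlinarith [abs_nonneg (r q)]
      have h5 := abs_le.1 h3
      have h6 := abs_le.1 h4
      have h7 := abs_le.1 hT
      rw [abs_le]
      constructor <;> linarith
    have h1 := lr_sin_lip (Real.pi * (Nat.fib q : ℝ) * s + (JJ d w q : ℝ) * Real.pi) (TE lam (EE lam (m + 3) s2) q)
    rw [lr_sin_shift, abs_sub_comm] at h1
    have h2 := hLG.2 q hq1 hq2
    linarith
  · intro h0
    have h1 := JJ_det d w k (by omega)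
    rw [h0, Int.cast_zero, mul_zero, zero_sub, abs_neg, abs_of_pos hd0] at h1
    have h2 : 0 < (d : ℝ) / (Nat.fib k : ℝ) := by positivity
    rw [← h1] at h2 hdk
    have h3 : (0 : ℤ) < |JJ d w (k - 1)| := by exact_mod_cast h2
    have h4 : (1 : ℝ) ≤ |(JJ d w (k - 1) : ℝ)| := by exact_mod_cast h3
    linarith

theorem LG_of_goodN (k i : ℕ) (s : ℝ) (h : goodN k i) (h1 : (i : ℝ) / 2 ^ jL k ≤ s)
    (h2 : s ≤ ((i : ℝ) + 1) / 2 ^ jL k) : LG (1 / 11) k s := by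
  refine ⟨h.1, fun j hj1 hj2 => ?_⟩
  have hg := h.2 j hj1 hj2
  have hlen := (node_length k).2
  have hF : 0 < (Nat.fib (k + 4) : ℝ) := by exact_mod_cast Nat.fib_pos.2 (by omega)
  have hm : |midn k i - s| ≤ 1 / 2 * (1 / (2:ℝ) ^ jL k) := by
    unfold midn
    have e1 : ((i : ℝ) + 1 / 2) / 2 ^ jL k = (i : ℝ) / 2 ^ jL k + 1 / 2 * (1 / (2:ℝ) ^ jL k) := by ring
    have e2 : ((i : ℝ) + 1) / 2 ^ jL k = (i : ℝ) / 2 ^ jL k + 1 / (2:ℝ) ^ jL k := by ring
    rw [e1, abs_le]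
    rw [e2] at h2
    constructor <;> linarith
  have hfj : (Nat.fib j : ℝ) ≤ (Nat.fib (k + 4) : ℝ) := by
    exact_mod_cast Nat.fib_mono (by omega : j ≤ k + 4)
  have hfj0 : 0 ≤ (Nat.fib j : ℝ) := Nat.cast_nonneg _
  have hpi := Real.pi_pos
  have hpi4 : Real.pi < 4 := by linarith [Real.pi_lt_d2]
  have hd : |Real.pi * (Nat.fib j : ℝ) * midn k i - Real.pi * (Nat.fib j : ℝ) * s| ≤ 1 / 1000 := by
    have e1 : Real.pi * (Nat.fib j : ℝ) * midn k i - Real.pi * (Nat.fib j : ℝ) * s =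
        Real.pi * ((Nat.fib j : ℝ) * (midn k i - s)) := by ring
    rw [e1, abs_mul, abs_mul, abs_of_pos hpi, abs_of_nonneg hfj0]
    have e3 : (Nat.fib j : ℝ) * |midn k i - s| ≤ (Nat.fib (k + 4) : ℝ) *
        (1 / 2 * (1 / (2 ^ 11 * (Nat.fib (k + 4) : ℝ)))) := by
      apply mul_le_mul hfj _ (abs_nonneg _) hF.le
      exact hm.trans (by gcongr)
    have e4 : (Nat.fib (k + 4) : ℝ) * (1 / 2 * (1 / (2 ^ 11 * (Nat.fib (k + 4) : ℝ)))) = 1 / 4096 := by
      field_simp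
      norm_num
    rw [e4] at e3
    have e5 : 0 ≤ (Nat.fib j : ℝ) * |midn k i - s| := by positivity
    nlinarith
  have h3 := lr_sin_lip (Real.pi * (Nat.fib j : ℝ) * midn k i) (Real.pi * (Nat.fib j : ℝ) * s)
  linarith

end SF
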