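import Pool.Agent.Helper65.SF.TREE

/-!
# SF-STEER: the golden rotation visits every box; frequency of good nodes

Proof in words.
* `steer`: choose q with `2/fib q <= eps` and G with `2^(-16) fib (k+G)/fib k >= fib q + 2` for all k >= 5
  (`fib (k+G) >= fib G * fib k`...).  Let `l = k + G`, `s = (x + a)/fib l` for integers a; those with s in `[u, u+w]` are at least
  `fib q` consecutive integers.  `fib (l-1) s = (x + a) fib (l-1)/fib l`.  `|fib (l-1)/fib l - fib (q-1)/fib q| <= 1/(fib q)^2`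
  (determinant identity `fib (l-1) fib q - fib l fib (q-1) = ± fib (l-q)`), and for a in a window of `fib q` consecutive
  integers `a fib (q-1) mod fib q` takes all residues, so some a in the window has `(x + a) fib (l-1)/fib l` within
  `1/(2 fib q) + 1/fib q <= eps` of `y` mod 1.
* `star_good`: with `x = 3/10`, `y = -3 mu/10` (mu = golden ratio) the seven numbers `L_r = fib(r+1) x + fib r y` (`r = -3..3`, i.e.
  2y - x, x - y, y, x, x+y, 2x+y, 3x+2y) have `|sin (pi L_r)| >= 1/5`; if `fib l s`, `fib (l-1) s` are within eps of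
  `x + a`, `y + b` then `fib (l+r) s` is within `5 eps` of `L_r` mod 1.
* `geo`: `goodN k i` = goodness at the midpoint of the node.  Node length `2^(-jL k)` is between `2^(-12)/fib (k+4)` and
  `2^(-11)/fib (k+4)`.  Given a node at level k, apply `steer` in the middle half of the node; the descendant node at
  level `k + G` containing s has its midpoint within `2^(-12)/fib (k+G+4)` of s, so it is good; it is one of
  `2^(jL (k+G) - jL k) <= 2^(2G+2)` descendants.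
-/

namespace SF

open Classical

/-- Generation of the nodes of level `k`. -/
def jL (k : ℕ) : ℕ := Nat.log 2 (Nat.fib (k + 4)) + 12

/-- Midpoint of node `i` of level `k`. -/
noncomputable def midn (k i : ℕ) : ℝ := ((i : ℝ) + 1 / 2) / 2 ^ jL k

/-- Good node: the seven sines at the midpoint are at least `1/10`. -/
def goodN (k i : ℕ) : Prop :=
  4 ≤ k ∧ ∀ j, k ≤ j + 3 → j ≤ k + 3 → 1 / 10 ≤ |Real.sin (Real.pi * (Nat.fib j : ℝ) * midn k i)|

theorem jL_mono : Monotone jL := by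
  intro a b hab
  unfold jL
  have := Nat.log_mono_right (b := 2) (Nat.fib_mono (show a + 4 ≤ b + 4 by omega))
  omega

private theorem h24_fibpos (k : ℕ) : 0 < Nat.fib (k + 4) := Nat.fib_pos.2 (by omega)

theorem node_length (k : ℕ) : 1 / (2 ^ 12 * (Nat.fib (k + 4) : ℝ)) ≤ 1 / (2:ℝ) ^ jL k ∧
    1 / (2:ℝ) ^ jL k ≤ 1 / (2 ^ 11 * (Nat.fib (k + 4) : ℝ)) := by
  have hF : 0 < Nat.fib (k + 4) := h24_fibpos k
  have h1 : 2 ^ Nat.log 2 (Nat.fib (k + 4)) ≤ Nat.fib (k + 4) := Nat.pow_log_le_self 2 hF.ne'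
  have h2 : Nat.fib (k + 4) < 2 ^ (Nat.log 2 (Nat.fib (k + 4)) + 1) :=
    Nat.lt_pow_succ_log_self (by norm_num) _
  have h1' : (2:ℝ) ^ Nat.log 2 (Nat.fib (k + 4)) ≤ (Nat.fib (k + 4) : ℝ) := by exact_mod_cast h1
  have h2' : (Nat.fib (k + 4) : ℝ) < (2:ℝ) ^ (Nat.log 2 (Nat.fib (k + 4)) + 1) := by
    exact_mod_cast h2
  have hF' : (0:ℝ) < (Nat.fib (k + 4) : ℝ) := by exact_mod_cast hF
  have e : (2:ℝ) ^ jL k = 2 ^ 12 * 2 ^ Nat.log 2 (Nat.fib (k + 4)) := by
    unfold jL; rw [pow_add]; ring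
  constructor
  · apply one_div_le_one_div_of_le (by positivity)
    rw [e]; nlinarith
  · apply one_div_le_one_div_of_le (by positivity)
    rw [e]; rw [pow_succ] at h2'; nlinarith

private theorem h24_supermul (m n : ℕ) (hn : 1 ≤ n) :
    Nat.fib m * Nat.fib n ≤ Nat.fib (m + n) := by
  obtain ⟨n, rfl⟩ : ∃ n', n = n' + 1 := ⟨n - 1, by omega⟩
  have := Nat.fib_add m n
  rw [show m + (n + 1) = m + n + 1 by ring, this]
  have h1 : Nat.fib m ≤ Nat.fib (m + 1) := Nat.fib_le_fib_succ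
  nlinarith [Nat.zero_le (Nat.fib m * Nat.fib n), Nat.mul_le_mul_right (Nat.fib (n + 1)) h1]

private theorem h24_cassini (q : ℕ) :
    |(Nat.fib (q + 1) : ℤ) * Nat.fib (q + 1) - Nat.fib (q + 2) * Nat.fib q| = 1 := by
  induction q with
  | zero => simp
  | succ q ih =>
    rw [← abs_neg, ← ih]
    congr 1
    have e1 : (Nat.fib (q + 1 + 2) : ℤ) = Nat.fib (q + 1) + Nat.fib (q + 2) := by
      rw [show q + 1 + 2 = (q + 1) + 2 by ring, Nat.fib_add_two]; push_cast; ring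
    have e2 : (Nat.fib (q + 2) : ℤ) = Nat.fib q + Nat.fib (q + 1) := by
      rw [Nat.fib_add_two]; push_cast; ring
    rw [show q + 1 + 1 = q + 2 by ring, e1, e2]
    ring

private theorem h24_det (q m : ℕ) :
    |(Nat.fib (q + m) : ℤ) * Nat.fib (q + 1) - Nat.fib (q + m + 1) * Nat.fib q| = Nat.fib m := by
  -- D (m) = D 1 * fib m
  have key : ∀ m : ℕ, (Nat.fib (q + m) : ℤ) * Nat.fib (q + 1) - Nat.fib (q + m + 1) * Nat.fib q
      = ((Nat.fib (q + 1) : ℤ) * Nat.fib (q + 1) - Nat.fib (q + 2) * Nat.fib q) * Nat.fib m := by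
    intro m
    induction m using Nat.twoStepInduction with
    | zero => simp; ring
    | one => simp
    | more m ih1 ih2 =>
      have e1 : (Nat.fib (q + (m + 2)) : ℤ) = Nat.fib (q + m) + Nat.fib (q + (m + 1)) := by
        rw [show q + (m + 2) = (q + m) + 2 by ring, Nat.fib_add_two]; push_cast; ring_nf
      have e2 : (Nat.fib (q + (m + 2) + 1) : ℤ) = Nat.fib (q + m + 1) + Nat.fib (q + (m + 1) + 1) := by
        rw [show q + (m + 2) + 1 = (q + m + 1) + 2 by ring, Nat.fib_add_two]; push_cast; ring_nf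
      have e3 : (Nat.fib (m + 2) : ℤ) = Nat.fib m + Nat.fib (m + 1) := by
        rw [Nat.fib_add_two]; push_cast; ring
      rw [e1, e2, e3, mul_add, ← ih1, ← ih2]
      ring
  rw [key m, abs_mul, h24_cassini q, one_mul]
  simp

theorem steer (eps : ℝ) (h : 0 < eps) : ∃ G : ℕ, 1 ≤ G ∧ ∀ k : ℕ, 5 ≤ k → ∀ u w x y : ℝ,
    1 / 2 ^ 16 ≤ w * (Nat.fib k : ℝ) →
    ∃ s : ℝ, u ≤ s ∧ s ≤ u + w ∧ ∃ a b : ℤ, |(Nat.fib (k + G) : ℝ) * s - x - a| ≤ eps ∧
      |(Nat.fib (k + G - 1) : ℝ) * s - y - b| ≤ eps := by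
  -- choose q
  obtain ⟨N, hN⟩ := exists_nat_gt (2 / eps)
  set q : ℕ := N + 5 with hq
  have hqfib : N ≤ Nat.fib (q + 1) := by
    have := Nat.le_fib_self (n := q) (by omega)
    have h2 : Nat.fib q ≤ Nat.fib (q + 1) := Nat.fib_le_fib_succ
    omega
  set Q : ℕ := Nat.fib (q + 1) with hQ
  set P : ℕ := Nat.fib q with hP
  have hQpos : 0 < Q := Nat.fib_pos.2 (by omega)
  have hQr : (0:ℝ) < (Q : ℝ) := by exact_mod_cast hQpos
  have hQe : 2 / (Q : ℝ) ≤ eps := by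
    rw [div_le_iff₀ hQr]
    rw [div_lt_iff₀ h] at hN
    have : (N : ℝ) ≤ (Q : ℝ) := by exact_mod_cast hqfib
    nlinarith
  have hcop : Nat.Coprime P Q := Nat.fib_coprime_fib_succ q
  set G : ℕ := 2 ^ 16 * (Q + 2) + q + 5 with hG
  have hGfib : 2 ^ 16 * (Q + 2) ≤ Nat.fib G := by
    have := Nat.le_fib_self (n := G) (by omega)
    omega
  refine ⟨G, by omega, ?_⟩
  intro k hk u w x y hw
  have hkpos : 0 < Nat.fib k := Nat.fib_pos.2 (by omega)
  set F : ℕ := Nat.fib (k + G) with hFdef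
  have hFge : Nat.fib k * Nat.fib G ≤ F := h24_supermul k G (by omega)
  have hFpos : 0 < F := Nat.fib_pos.2 (by omega)
  have hFr : (0:ℝ) < (F : ℝ) := by exact_mod_cast hFpos
  have hkr : (0:ℝ) < (Nat.fib k : ℝ) := by exact_mod_cast hkpos
  have hwpos : 0 < w := by
    by_contra hc
    push Not at hc
    have : w * (Nat.fib k : ℝ) ≤ 0 := mul_nonpos_of_nonpos_of_nonneg hc hkr.le
    have h2 : (0:ℝ) < 1 / 2 ^ 16 := by positivity
    linarith
  have hwF : (Q : ℝ) + 2 ≤ w * F := by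
    have h1 : (Nat.fib k : ℝ) * (Nat.fib G : ℝ) ≤ (F : ℝ) := by exact_mod_cast hFge
    have h2 : (2:ℝ) ^ 16 * ((Q : ℝ) + 2) ≤ (Nat.fib G : ℝ) := by exact_mod_cast hGfib
    have h3 : (1 / 2 ^ 16) * (Nat.fib G : ℝ) ≤ w * (Nat.fib k : ℝ) * (Nat.fib G : ℝ) :=
      mul_le_mul_of_nonneg_right hw (by positivity)
    have h4 : w * ((Nat.fib k : ℝ) * (Nat.fib G : ℝ)) ≤ w * F := mul_le_mul_of_nonneg_left h1 hwpos.le
    have h5 : (Q : ℝ) + 2 ≤ (1 / 2 ^ 16) * (Nat.fib G : ℝ) := by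
      rw [one_div, inv_mul_eq_div, le_div_iff₀ (by positivity)]
      linarith
    nlinarith
  -- the ratio
  set E : ℕ := Nat.fib (k + G - 1) with hE
  set rho : ℝ := (E : ℝ) / F with hrho
  have hratio : |rho - (P : ℝ) / Q| ≤ 1 / (Q : ℝ) ^ 2 := by
    obtain ⟨m, hm⟩ : ∃ m, k + G - 1 = q + m ∧ 1 ≤ m := ⟨k + G - 1 - q, by omega, by omega⟩
    have hdet := h24_det q m
    have e1 : E = Nat.fib (q + m) := by rw [hE, hm.1]
    have e2 : F = Nat.fib (q + m + 1) := by rw [hFdef]; congr 1; omega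
    have hdet' : |(E : ℝ) * Q - F * P| = Nat.fib m := by
      rw [e1, e2, hQ, hP]
      exact_mod_cast hdet
    have hsup : Nat.fib (q + 1) * Nat.fib m ≤ Nat.fib (q + 1 + m) := h24_supermul (q + 1) m hm.2
    have hsup' : (Q : ℝ) * (Nat.fib m : ℝ) ≤ F := by
      have : Q * Nat.fib m ≤ F := by
        rw [e2, hQ, show q + m + 1 = q + 1 + m by ring]; exact hsup
      exact_mod_cast this
    have e3 : rho - (P : ℝ) / Q = ((E : ℝ) * Q - F * P) / (F * Q) := by
      rw [hrho]; field_simp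
    rw [e3, abs_div, hdet', abs_of_pos (by positivity : (0:ℝ) < F * Q),
      div_le_div_iff₀ (by positivity) (by positivity)]
    nlinarith
  -- the window
  set a0 : ℤ := ⌈u * F - x⌉ with ha0
  have ha0l : u * F - x ≤ a0 := Int.le_ceil _
  have ha0u : (a0 : ℝ) < u * F - x + 1 := Int.ceil_lt_add_one _
  set z : ℝ := (y - (x + a0) * rho) * Q with hz
  set n : ℤ := round z with hn
  have hzn : |z - n| ≤ 1 / 2 := abs_sub_round z
  -- t P = n mod Q
  have hex : ∃ t : ℤ, 0 ≤ t ∧ t < Q ∧ ∃ c : ℤ, t * P = n + c * Q := by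
    have hbez : (1 : ℤ) = P * Nat.gcdA P Q + Q * Nat.gcdB P Q := by
      have := Nat.gcd_eq_gcd_ab P Q
      rw [hcop.gcd_eq_one] at this
      exact_mod_cast this
    refine ⟨(n * Nat.gcdA P Q) % Q, Int.emod_nonneg _ (by exact_mod_cast hQpos.ne'),
      Int.emod_lt_of_pos _ (by exact_mod_cast hQpos), ?_⟩
    refine ⟨-(n * Nat.gcdB P Q) - ((n * Nat.gcdA P Q) / Q) * P, ?_⟩
    have hdm := Int.emod_add_mul_ediv (n * Nat.gcdA P Q) Q
    have : (n * Nat.gcdA P Q) % Q = n * Nat.gcdA P Q - Q * ((n * Nat.gcdA P Q) / Q) := by linarith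
    rw [this]
    have h2 : n * (P * Nat.gcdA P Q + Q * Nat.gcdB P Q) = n := by rw [← hbez]; ring
    nlinarith [h2]
  obtain ⟨t, ht0, htQ, c, hc⟩ := hex
  have ht0' : (0:ℝ) ≤ t := by exact_mod_cast ht0
  have htQ' : (t:ℝ) ≤ Q - 1 := by
    have : t ≤ (Q:ℤ) - 1 := by omega
    exact_mod_cast this
  refine ⟨(x + (a0 + t)) / F, ?_, ?_, a0 + t, c, ?_, ?_⟩
  · rw [le_div_iff₀ hFr]; linarith
  · rw [div_le_iff₀ hFr, add_mul]; linarith
  · have : (F : ℝ) * ((x + (a0 + t)) / F) - x - ((a0 + t : ℤ) : ℝ) = 0 := by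
      push_cast; field_simp; ring
    rw [this]; simpa using h.le
  · have e4 : (E : ℝ) * ((x + (a0 + t)) / F) = (x + a0) * rho + t * (P / Q) + t * (rho - P / Q) := by
      rw [hrho]; ring
    have hc' : (t : ℝ) * P = n + c * Q := by exact_mod_cast hc
    have e5 : (t : ℝ) * (P / Q) = n / Q + c := by
      rw [← mul_div_assoc, hc']; field_simp
    have e6 : (E : ℝ) * ((x + (a0 + t)) / F) - y - c = (n - z) / Q + t * (rho - P / Q) := by
      rw [e4, e5, hz]; field_simp; ring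
    rw [e6]
    have b1 : |(n - z) / Q| ≤ (1 / 2) / Q := by
      rw [abs_div, abs_of_pos hQr, abs_sub_comm]
      exact div_le_div_of_nonneg_right hzn hQr.le
    have b2 : |(t:ℝ) * (rho - P / Q)| ≤ 1 / Q := by
      rw [abs_mul, abs_of_nonneg ht0']
      calc (t:ℝ) * |rho - P / Q| ≤ Q * (1 / (Q:ℝ) ^ 2) := by
            apply mul_le_mul (by linarith) hratio (abs_nonneg _) hQr.le
        _ = 1 / Q := by field_simp
    calc |(n - z) / Q + t * (rho - P / Q)| ≤ |(n - z) / Q| + |t * (rho - P / Q)| := abs_add_le _ _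
      _ ≤ (1 / 2) / Q + 1 / Q := add_le_add b1 b2
      _ ≤ 2 / Q := by rw [← add_div]; exact div_le_div_of_nonneg_right (by norm_num) hQr.le
      _ ≤ eps := hQe

private theorem h24_sin_lip (a b : ℝ) : |Real.sin a| - |a - b| ≤ |Real.sin b| := by
  have h := Real.abs_sin_sub_sin_le a b
  have h2 : |Real.sin a| ≤ |Real.sin a - Real.sin b| + |Real.sin b| := by
    have := abs_add_le (Real.sin a - Real.sin b) (Real.sin b)
    simpa using this
  linarith

private theorem h24_sin_low (d : ℝ) (h1 : 7 / 100 ≤ d) (h2 : d ≤ 1 / 2) :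
    1 / 5 ≤ Real.sin (Real.pi * d) := by
  have hpi := Real.pi_gt_three
  have hpi2 := Real.pi_lt_d2
  have hm : Real.sin (Real.pi * (7 / 100)) ≤ Real.sin (Real.pi * d) := by
    apply Real.sin_le_sin_of_le_of_le_pi_div_two
    · nlinarith
    · nlinarith
    · nlinarith
  have hs := Real.sin_gt_sub_cube (x := Real.pi * (7 / 100)) (by positivity)
  have h3 : Real.pi * (7 / 100) ≤ 0.2205 := by nlinarith
  have h4 : (0.219 : ℝ) ≤ Real.pi * (7 / 100) := by
    have := Real.pi_gt_d2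
    nlinarith
  have h5 : (Real.pi * (7 / 100)) ^ 3 ≤ 0.2205 ^ 3 := pow_le_pow_left₀ (by positivity) h3 3
  have h6 : (0.2205:ℝ) ^ 3 / 6 ≤ 0.003 := by norm_num
  linarith

/-- general lower bound: `d = e + n`, `7/100 ≤ |e| ≤ 1/2`. -/
private theorem h24_sin_abs (d e : ℝ) (n : ℤ) (hd : d = e + n) (h1 : 7 / 100 ≤ |e|) (h2 : |e| ≤ 1 / 2) :
    1 / 5 ≤ |Real.sin (Real.pi * d)| := by
  have e1 : |Real.sin (Real.pi * d)| = |Real.sin (Real.pi * e)| := by
    rw [hd, mul_add, mul_comm Real.pi (n:ℝ), Real.sin_add_int_mul_pi, abs_mul]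
    rcases Int.even_or_odd n with h | h
    · rw [h.neg_one_zpow]; simp
    · rw [h.neg_one_zpow]; simp
  have e2 : |Real.sin (Real.pi * e)| = |Real.sin (Real.pi * |e|)| := by
    rcases abs_cases e with h | h
    · rw [h.1]
    · rw [h.1, mul_neg, Real.sin_neg, abs_neg]
  rw [e1, e2]
  exact (h24_sin_low |e| h1 h2).trans (le_abs_self _)

/-- Near the star point the level is good (`mu = (1+sqrt 5)/2`). -/
theorem star_good (l : ℕ) (hl : 4 ≤ l) (s : ℝ) (a b : ℤ) (eps : ℝ) (he : eps ≤ 1 / 1000)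
    (h1 : |(Nat.fib l : ℝ) * s - 3 / 10 - a| ≤ eps)
    (h2 : |(Nat.fib (l - 1) : ℝ) * s + 3 / 10 * ((1 + Real.sqrt 5) / 2) - b| ≤ eps)
    (j : ℕ) (hj1 : l ≤ j + 3) (hj2 : j ≤ l + 3) :
    1 / 5 - 20 * eps ≤ |Real.sin (Real.pi * (Nat.fib j : ℝ) * s)| := by
  obtain ⟨l, rfl⟩ : ∃ l', l = l' + 3 := ⟨l - 3, by omega⟩
  have heps : 0 ≤ eps := (abs_nonneg _).trans h1
  have hs5l : (2.236 : ℝ) ≤ Real.sqrt 5 := Real.le_sqrt_of_sq_le (by norm_num)
  have hs5u : Real.sqrt 5 ≤ (2.237 : ℝ) := Real.sqrt_le_iff.2 (by norm_num)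
  set mu : ℝ := (1 + Real.sqrt 5) / 2 with hmu
  have hmul : (1.618 : ℝ) ≤ mu := by rw [hmu]; linarith
  have hmuu : mu ≤ (1.6185 : ℝ) := by rw [hmu]; linarith
  have hpi := Real.pi_pos
  have hpi4 := Real.pi_lt_d2
  rw [show l + 3 - 1 = l + 2 by omega] at h2
  -- the general estimate
  have gen : ∀ (c d : ℤ) (e : ℝ) (n : ℤ), (c:ℝ) * (3 / 10) + d * (-(3 / 10 * mu)) = e + n →
      7 / 100 ≤ |e| → |e| ≤ 1 / 2 → |(c:ℝ)| + |(d:ℝ)| ≤ 5 →
      (Nat.fib j : ℝ) = c * Nat.fib (l + 3) + d * Nat.fib (l + 2) →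
      1 / 5 - 20 * eps ≤ |Real.sin (Real.pi * (Nat.fib j : ℝ) * s)| := by
    intro c d e n hce h7 h5 hcd hj
    have hb := h24_sin_abs ((c:ℝ) * (3 / 10) + d * (-(3 / 10 * mu)) + ((c * a + d * b : ℤ) : ℝ)) e
      (n + (c * a + d * b)) (by rw [hce]; push_cast; ring) h7 h5
    have hlip := h24_sin_lip
      (Real.pi * ((c:ℝ) * (3 / 10) + d * (-(3 / 10 * mu)) + ((c * a + d * b : ℤ) : ℝ)))
      (Real.pi * (Nat.fib j : ℝ) * s)
    have hdiff : |Real.pi * ((c:ℝ) * (3 / 10) + d * (-(3 / 10 * mu)) + ((c * a + d * b : ℤ) : ℝ))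
        - Real.pi * (Nat.fib j : ℝ) * s| ≤ 20 * eps := by
      have e1 : Real.pi * ((c:ℝ) * (3 / 10) + d * (-(3 / 10 * mu)) + ((c * a + d * b : ℤ) : ℝ))
        - Real.pi * (Nat.fib j : ℝ) * s = -(Real.pi * (c * ((Nat.fib (l + 3) : ℝ) * s - 3 / 10 - a)
          + d * ((Nat.fib (l + 2) : ℝ) * s + 3 / 10 * mu - b))) := by
        rw [hj]; push_cast; ring
      rw [e1, abs_neg, abs_mul, abs_of_pos hpi]
      have e2 : |c * ((Nat.fib (l + 3) : ℝ) * s - 3 / 10 - a)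
          + d * ((Nat.fib (l + 2) : ℝ) * s + 3 / 10 * mu - b)| ≤ 5 * eps := by
        calc |c * ((Nat.fib (l + 3) : ℝ) * s - 3 / 10 - a)
          + d * ((Nat.fib (l + 2) : ℝ) * s + 3 / 10 * mu - b)| ≤
            |c * ((Nat.fib (l + 3) : ℝ) * s - 3 / 10 - a)| +
            |d * ((Nat.fib (l + 2) : ℝ) * s + 3 / 10 * mu - b)| := abs_add_le _ _
          _ = |(c:ℝ)| * |(Nat.fib (l + 3) : ℝ) * s - 3 / 10 - a| +
            |(d:ℝ)| * |(Nat.fib (l + 2) : ℝ) * s + 3 / 10 * mu - b| := by rw [abs_mul, abs_mul]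
          _ ≤ |(c:ℝ)| * eps + |(d:ℝ)| * eps :=
            add_le_add (mul_le_mul_of_nonneg_left h1 (abs_nonneg _))
              (mul_le_mul_of_nonneg_left h2 (abs_nonneg _))
          _ ≤ 5 * eps := by nlinarith
      have e3 : Real.pi * |c * ((Nat.fib (l + 3) : ℝ) * s - 3 / 10 - a)
          + d * ((Nat.fib (l + 2) : ℝ) * s + 3 / 10 * mu - b)| ≤ Real.pi * (5 * eps) :=
        mul_le_mul_of_nonneg_left e2 hpi.le
      nlinarith
    linarith
  have f1 : (Nat.fib (l + 3) : ℝ) = Nat.fib (l + 1) + Nat.fib (l + 2) := by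
    rw [show l + 3 = (l + 1) + 2 by ring, Nat.fib_add_two]; push_cast; ring
  have f0 : (Nat.fib (l + 2) : ℝ) = Nat.fib l + Nat.fib (l + 1) := by
    rw [Nat.fib_add_two]; push_cast; ring
  have f2 : (Nat.fib (l + 4) : ℝ) = Nat.fib (l + 2) + Nat.fib (l + 3) := by
    rw [show l + 4 = (l + 2) + 2 by ring, Nat.fib_add_two]; push_cast; ring
  have f3 : (Nat.fib (l + 5) : ℝ) = Nat.fib (l + 3) + Nat.fib (l + 4) := by
    rw [show l + 5 = (l + 3) + 2 by ring, Nat.fib_add_two]; push_cast; ring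
  have f4 : (Nat.fib (l + 6) : ℝ) = Nat.fib (l + 4) + Nat.fib (l + 5) := by
    rw [show l + 6 = (l + 4) + 2 by ring, Nat.fib_add_two]; push_cast; ring
  have hj : j = l ∨ j = l + 1 ∨ j = l + 2 ∨ j = l + 3 ∨ j = l + 4 ∨ j = l + 5 ∨ j = l + 6 := by omega
  rcases hj with rfl | rfl | rfl | rfl | rfl | rfl | rfl
  · -- 2y - x
    refine gen (-1) 2 (-(3/10) - 6/10 * mu + 1) (-1) (by push_cast; ring) ?_ ?_ (by norm_num) (by push_cast; linarith)
    · rw [le_abs]; right; linarith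
    · rw [abs_le]; constructor <;> linarith
  · -- x - y
    refine gen 1 (-1) (3/10 + 3/10 * mu - 1) 1 (by push_cast; ring) ?_ ?_ (by norm_num) (by push_cast; linarith)
    · rw [le_abs]; right; linarith
    · rw [abs_le]; constructor <;> linarith
  · -- y
    refine gen 0 1 (-(3/10 * mu)) 0 (by push_cast; ring) ?_ ?_ (by norm_num) (by push_cast; linarith)
    · rw [le_abs]; right; linarith
    · rw [abs_le]; constructor <;> linarith
  · -- x
    refine gen 1 0 (3/10) 0 (by push_cast; ring) ?_ ?_ (by norm_num) (by push_cast; linarith)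
    · rw [le_abs]; left; norm_num
    · rw [abs_le]; constructor <;> norm_num
  · -- x + y
    refine gen 1 1 (3/10 - 3/10 * mu) 0 (by push_cast; ring) ?_ ?_ (by norm_num) (by push_cast; linarith)
    · rw [le_abs]; right; linarith
    · rw [abs_le]; constructor <;> linarith
  · -- 2x + y
    refine gen 2 1 (6/10 - 3/10 * mu) 0 (by push_cast; ring) ?_ ?_ (by norm_num) (by push_cast; linarith)
    · rw [le_abs]; left; linarith
    · rw [abs_le]; constructor <;> linarith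
  · -- 3x + 2y
    refine gen 3 2 (9/10 - 6/10 * mu) 0 (by push_cast; ring) ?_ ?_ (by norm_num) (by push_cast; linarith)
    · rw [le_abs]; right; linarith
    · rw [abs_le]; constructor <;> linarith

private theorem h24_fib_two_mul (k : ℕ) (hk : 1 ≤ k) : Nat.fib (k + 1) ≤ 2 * Nat.fib k := by
  obtain ⟨k, rfl⟩ : ∃ k', k = k' + 1 := ⟨k - 1, by omega⟩
  rw [show k + 1 + 1 = k + 2 by ring, Nat.fib_add_two]
  have : Nat.fib k ≤ Nat.fib (k + 1) := Nat.fib_le_fib_succ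
  omega

private theorem h24_jL_le (k G : ℕ) : jL (k + G) ≤ jL k + G := by
  induction G with
  | zero => simp
  | succ G ih =>
    have h1 : Nat.fib (k + (G + 1) + 4) ≤ Nat.fib (k + G + 4) * 2 := by
      have := h24_fib_two_mul (k + G + 4) (by omega)
      rw [show k + (G + 1) + 4 = k + G + 4 + 1 by ring]; omega
    have h2 : Nat.log 2 (Nat.fib (k + (G + 1) + 4)) ≤ Nat.log 2 (Nat.fib (k + G + 4) * 2) :=
      Nat.log_mono_right h1
    rw [Nat.log_mul_base (by norm_num) (h24_fibpos (k + G)).ne'] at h2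
    unfold jL at ih ⊢
    omega

attribute [local irreducible] jL in
theorem geo : ∃ (G0 : ℕ) (c6 : ℝ), 1 ≤ G0 ∧ 0 < c6 ∧ c6 < 1 ∧ ∀ k : ℕ, 5 ≤ k → ∀ i : ℕ, i < 2 ^ jL k →
    c6 * (2:ℝ) ^ (jL (k + G0) - jL k) ≤
      (((Finset.range (2 ^ jL (k + G0))).filter (fun i' =>
        anc jL k (k + G0) i' = i ∧
        ∃ q, 1 ≤ q ∧ q ≤ G0 ∧ goodN (k + q) (anc jL (k + q) (k + G0) i'))).card : ℝ) := by
  obtain ⟨G, hG1, hG⟩ := steer (1 / 1000) (by norm_num)
  refine ⟨G, 1 / 2 ^ G, hG1, by positivity, ?_, ?_⟩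
  · rw [div_lt_one (by positivity)]
    exact one_lt_pow₀ (by norm_num) (by omega)
  intro k hk i hi
  have hnl := node_length k
  have hnl2 := node_length (k + G)
  have hkpos : 0 < Nat.fib k := Nat.fib_pos.2 (by omega)
  have hkr : (0:ℝ) < (Nat.fib k : ℝ) := by exact_mod_cast hkpos
  have h8 : Nat.fib (k + 4) ≤ 8 * Nat.fib k := by
    have a1 : Nat.fib (k + 2) = Nat.fib k + Nat.fib (k + 1) := Nat.fib_add_two
    have a2 : Nat.fib (k + 3) = Nat.fib (k + 1) + Nat.fib (k + 2) := Nat.fib_add_two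
    have a3 : Nat.fib (k + 4) = Nat.fib (k + 2) + Nat.fib (k + 3) := Nat.fib_add_two
    have a4 := h24_fib_two_mul k (by omega)
    omega
  have h8' : (Nat.fib (k + 4) : ℝ) ≤ 8 * (Nat.fib k : ℝ) := by exact_mod_cast h8
  have hk4 : (0:ℝ) < (Nat.fib (k + 4) : ℝ) := by exact_mod_cast h24_fibpos k
  have hJ : (0:ℝ) < (2:ℝ) ^ jL k := by positivity
  have hw : 1 / 2 ^ 16 ≤ (1 / 2) * (1 / (2:ℝ) ^ jL k) * (Nat.fib k : ℝ) := by
    have e1 : (1 / 2) * (1 / (2 ^ 12 * (Nat.fib (k + 4) : ℝ))) * (Nat.fib k : ℝ) ≤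
        (1 / 2) * (1 / (2:ℝ) ^ jL k) * (Nat.fib k : ℝ) := by
      apply mul_le_mul_of_nonneg_right _ hkr.le
      apply mul_le_mul_of_nonneg_left hnl.1 (by norm_num)
    refine le_trans ?_ e1
    have e2 : (1 / 2) * (1 / (2 ^ 12 * (Nat.fib (k + 4) : ℝ))) * (Nat.fib k : ℝ) =
      (Nat.fib k : ℝ) / (2 ^ 13 * (Nat.fib (k + 4) : ℝ)) := by field_simp
    rw [e2, div_le_div_iff₀ (by positivity) (by positivity)]
    norm_num only
    linarith
  obtain ⟨s, hs1, hs2, a, b, ha, hb⟩ := hG k hk (((i:ℝ) + 1 / 4) * (1 / (2:ℝ) ^ jL k))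
    ((1 / 2) * (1 / (2:ℝ) ^ jL k)) (3 / 10) (-(3 / 10 * ((1 + Real.sqrt 5) / 2))) hw
  have hs0 : 0 ≤ s := le_trans (by positivity) hs1
  have hsl : (i:ℝ) ≤ s * (2:ℝ) ^ jL k := by
    have := mul_le_mul_of_nonneg_right hs1 hJ.le
    have e : ((i:ℝ) + 1 / 4) * (1 / (2:ℝ) ^ jL k) * (2:ℝ) ^ jL k = (i:ℝ) + 1 / 4 := by
      field_simp
    rw [e] at this; linarith
  have hsu : s * (2:ℝ) ^ jL k < (i:ℝ) + 1 := by
    have := mul_le_mul_of_nonneg_right hs2 hJ.le
    have e : (((i:ℝ) + 1 / 4) * (1 / (2:ℝ) ^ jL k) + (1 / 2) * (1 / (2:ℝ) ^ jL k)) * (2:ℝ) ^ jL k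
        = (i:ℝ) + 3 / 4 := by
      field_simp; ring
    rw [e] at this; linarith
  have hJle : jL k ≤ jL (k + G) := jL_mono (by omega)
  set D : ℕ := jL (k + G) - jL k with hD
  have hDe : jL (k + G) = jL k + D := by omega
  have hD_le : D ≤ G := by have := h24_jL_le k G; omega
  set i' : ℕ := ⌊s * (2:ℝ) ^ jL (k + G)⌋₊ with hi'
  have hfl : i' / 2 ^ D = i := by
    have h0 : 0 ≤ s * (2:ℝ) ^ jL (k + G) := by positivity
    have e1 : i' / 2 ^ D = ⌊s * (2:ℝ) ^ jL (k + G) / ((2 ^ D : ℕ) : ℝ)⌋₊ := by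
      rw [Nat.floor_div_natCast]
    have e2 : s * (2:ℝ) ^ jL (k + G) / ((2 ^ D : ℕ) : ℝ) = s * (2:ℝ) ^ jL k := by
      rw [hDe, pow_add]; push_cast; field_simp
    rw [e1, e2, Nat.floor_eq_iff (by positivity)]
    exact ⟨hsl, hsu⟩
  have hi'lt : i' < 2 ^ jL (k + G) := by
    have h1 : i' / 2 ^ D < 2 ^ jL k := by rw [hfl]; exact hi
    rw [Nat.div_lt_iff_lt_mul (by positivity)] at h1
    rw [hDe, pow_add]; exact h1
  have hmem : i' ∈ (Finset.range (2 ^ jL (k + G))).filter (fun i' =>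
        anc jL k (k + G) i' = i ∧
        ∃ q, 1 ≤ q ∧ q ≤ G ∧ goodN (k + q) (anc jL (k + q) (k + G) i')) := by
    rw [Finset.mem_filter, Finset.mem_range]
    refine ⟨hi'lt, ?_, G, hG1, le_refl _, ?_⟩
    · unfold anc; exact hfl
    · have e0 : anc jL (k + G) (k + G) i' = i' := by unfold anc; simp
      rw [e0]
      refine ⟨by omega, ?_⟩
      intro j hj1 hj2
      have hst := star_good (k + G) (by omega) s a b (1 / 1000) le_rfl ha (by
        rw [sub_neg_eq_add] at hb; exact hb) j hj1 hj2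
      have hlip := h24_sin_lip (Real.pi * (Nat.fib j : ℝ) * s) (Real.pi * (Nat.fib j : ℝ) * midn (k + G) i')
      have hdist : |s - midn (k + G) i'| ≤ (1 / 2) * (1 / (2:ℝ) ^ jL (k + G)) := by
        have hJ2 : (0:ℝ) < (2:ℝ) ^ jL (k + G) := by positivity
        have f1 : (i' : ℝ) ≤ s * (2:ℝ) ^ jL (k + G) := Nat.floor_le (by positivity)
        have f2 : s * (2:ℝ) ^ jL (k + G) < (i' : ℝ) + 1 := Nat.lt_floor_add_one _
        have e3 : s - midn (k + G) i' = (s * (2:ℝ) ^ jL (k + G) - ((i' : ℝ) + 1 / 2)) * (1 / (2:ℝ) ^ jL (k + G)) := by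
          unfold midn; field_simp
        rw [e3, abs_mul, abs_of_pos (by positivity : (0:ℝ) < 1 / (2:ℝ) ^ jL (k + G))]
        apply mul_le_mul_of_nonneg_right _ (by positivity)
        rw [abs_le]; constructor <;> linarith
      have hfj : (Nat.fib j : ℝ) ≤ (Nat.fib (k + G + 4) : ℝ) := by
        exact_mod_cast Nat.fib_mono (show j ≤ k + G + 4 by omega)
      have hF4 : (0:ℝ) < (Nat.fib (k + G + 4) : ℝ) := by exact_mod_cast h24_fibpos (k + G)
      have hd2 : |Real.pi * (Nat.fib j : ℝ) * s - Real.pi * (Nat.fib j : ℝ) * midn (k + G) i'| ≤ 1 / 500 := by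
        rw [← mul_sub, abs_mul, abs_of_nonneg (by positivity : (0:ℝ) ≤ Real.pi * (Nat.fib j : ℝ))]
        have g1 : |s - midn (k + G) i'| ≤ (1 / 2) * (1 / (2 ^ 11 * (Nat.fib (k + G + 4) : ℝ))) :=
          hdist.trans (mul_le_mul_of_nonneg_left hnl2.2 (by norm_num))
        calc Real.pi * (Nat.fib j : ℝ) * |s - midn (k + G) i'|
            ≤ Real.pi * (Nat.fib (k + G + 4) : ℝ) * ((1 / 2) * (1 / (2 ^ 11 * (Nat.fib (k + G + 4) : ℝ)))) := by
              apply mul_le_mul (mul_le_mul_of_nonneg_left hfj Real.pi_pos.le) g1 (abs_nonneg _) (by positivity)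
          _ = Real.pi / 2 ^ 12 := by field_simp
          _ ≤ 1 / 500 := by
            rw [div_le_div_iff₀ (by positivity) (by norm_num)]
            have := Real.pi_lt_d2
            norm_num; linarith
      linarith
  have hcard : 1 ≤ ((Finset.range (2 ^ jL (k + G))).filter (fun i' =>
        anc jL k (k + G) i' = i ∧
        ∃ q, 1 ≤ q ∧ q ≤ G ∧ goodN (k + q) (anc jL (k + q) (k + G) i'))).card :=
    Finset.card_pos.2 ⟨i', hmem⟩
  have hcard' : (1:ℝ) ≤ (((Finset.range (2 ^ jL (k + G))).filter (fun i' =>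
        anc jL k (k + G) i' = i ∧
        ∃ q, 1 ≤ q ∧ q ≤ G ∧ goodN (k + q) (anc jL (k + q) (k + G) i'))).card : ℝ) := by
    exact_mod_cast hcard
  refine le_trans ?_ hcard'
  rw [one_div, inv_mul_eq_div, div_le_one (by positivity)]
  exact pow_le_pow_right₀ (by norm_num) hD_le

end SF
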