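import Pool.Agent.Helper65.SF.PWDefs
import Pool.Agent.Helper65.SF.STEER

/-!
# SF-LR: level relations, definitions
-/

namespace SF

/-- Shift of the second point at level `k` (`s' = s + d fib (n-1)/fib n - w`). -/
def JJ (d w : ℤ) (k : ℕ) : ℤ := fibz d (-w) k

/-- The second point. -/
noncomputable def sh (n : ℕ) (d w : ℤ) (s : ℝ) : ℝ :=
  s + d * (Nat.fib (n - 1) : ℝ) / (Nat.fib n : ℝ) - w

/-- Linear goodness at level `k` with threshold `c`. -/
def LG (c : ℝ) (k : ℕ) (s : ℝ) : Prop :=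
  4 ≤ k ∧ ∀ j, k ≤ j + 3 → j ≤ k + 3 → c ≤ |Real.sin (Real.pi * (Nat.fib j : ℝ) * s)|

end SF
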