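import Pool.Agent.Helper65.SF.STEER

/-!
# SF-NG: nodes without good ancestors are rare

Iterate `geo`: among the `2^(jL (k + q G0))` nodes of level `k + q G0` those without a good ancestor at the levels
`k+1, ..., k + q G0` are at most `(1-c6)^q 2^(jL (k+q G0))` (every node of level `k + (q-1) G0` loses a fraction c6).
-/

namespace SF

open MeasureTheory Classical

section h24

attribute [local irreducible] jL

theorem no_good : ∃ (G0 : ℕ) (c6 : ℝ), 1 ≤ G0 ∧ 0 < c6 ∧ c6 < 1 ∧ ∀ k q : ℕ, 5 ≤ k →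
    (((Finset.range (2 ^ jL (k + q * G0))).filter (fun i =>
      ∀ k', k < k' → k' ≤ k + q * G0 → ¬ goodN k' (anc jL k' (k + q * G0) i))).card : ℝ)
      ≤ (1 - c6) ^ q * 2 ^ jL (k + q * G0) := by
  obtain ⟨G0, c6, hG0, hc6, hc61, hgeo⟩ := geo
  refine ⟨G0, c6, hG0, hc6, hc61, fun k q hk => ?_⟩
  induction q with
  | zero =>
    rw [pow_zero, one_mul]
    refine le_trans (b := ((Finset.range (2 ^ jL (k + 0 * G0))).card : ℝ)) ?_ ?_
    · exact_mod_cast Finset.card_filter_le _ _
    · rw [Finset.card_range]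
      push_cast
      exact le_rfl
  | succ q ih =>
    obtain ⟨k1, hk1⟩ : ∃ k1, k1 = k + q * G0 := ⟨_, rfl⟩
    have hk2 : k + (q + 1) * G0 = k1 + G0 := by rw [hk1]; ring
    rw [hk2]
    rw [← hk1] at ih
    set U := (Finset.range (2 ^ jL k1)).filter
      (fun i => ∀ k', k < k' → k' ≤ k1 → ¬ goodN k' (anc jL k' k1 i)) with hU
    set V := (Finset.range (2 ^ jL (k1 + G0))).filter
      (fun i => ∀ k', k < k' → k' ≤ k1 + G0 → ¬ goodN k' (anc jL k' (k1 + G0) i)) with hV
    have hmono : jL k1 ≤ jL (k1 + G0) := jL_mono (by omega)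
    have hmap : ∀ x ∈ V, anc jL k1 (k1 + G0) x ∈ U := by
      intro x hx
      rw [hV, Finset.mem_filter, Finset.mem_range] at hx
      rw [hU, Finset.mem_filter, Finset.mem_range]
      refine ⟨TREEh16.div_lt_anc hmono hx.1, fun k' h1 h2 => ?_⟩
      rw [TREEh16.anc_anc jL_mono h2 (by omega)]
      exact hx.2 k' h1 (by omega)
    have hcard : (V.card : ℝ) = ∑ i ∈ U, ((V.filter (fun x => anc jL k1 (k1 + G0) x = i)).card : ℝ) := by
      exact_mod_cast Finset.card_eq_sum_card_fiberwise hmap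
    have hfib : ∀ i ∈ U, ((V.filter (fun x => anc jL k1 (k1 + G0) x = i)).card : ℝ) ≤
        (1 - c6) * 2 ^ (jL (k1 + G0) - jL k1) := by
      intro i hi
      have hi' : i < 2 ^ jL k1 := by
        rw [hU, Finset.mem_filter, Finset.mem_range] at hi
        exact hi.1
      have h1 := hgeo k1 (by omega) i hi'
      set Wt := (Finset.range (2 ^ jL (k1 + G0))).filter (fun i' =>
        anc jL k1 (k1 + G0) i' = i ∧
        ∃ q, 1 ≤ q ∧ q ≤ G0 ∧ goodN (k1 + q) (anc jL (k1 + q) (k1 + G0) i')) with hWt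
      have hdisj : Disjoint (V.filter (fun x => anc jL k1 (k1 + G0) x = i)) Wt := by
        rw [Finset.disjoint_left]
        intro x hx hx2
        rw [Finset.mem_filter, hV, Finset.mem_filter] at hx
        rw [hWt, Finset.mem_filter] at hx2
        obtain ⟨_, _, q', hq1, hq2, hq3⟩ := hx2
        exact hx.1.2 (k1 + q') (by omega) (by omega) hq3
      have hsub : (V.filter (fun x => anc jL k1 (k1 + G0) x = i)) ∪ Wt ⊆
          TREEh16.De (jL k1) (jL (k1 + G0)) i := by
        intro x hx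
        rw [TREEh16.mem_De]
        rw [Finset.mem_union, Finset.mem_filter, hV, Finset.mem_filter, hWt, Finset.mem_filter,
          Finset.mem_range] at hx
        rcases hx with hx | hx
        · exact ⟨hx.1.1, hx.2⟩
        · exact ⟨hx.1, hx.2.1⟩
      have h2 := Finset.card_le_card hsub
      rw [Finset.card_union_of_disjoint hdisj, TREEh16.De_card hmono hi'] at h2
      have h3 : ((V.filter (fun x => anc jL k1 (k1 + G0) x = i)).card : ℝ) + (Wt.card : ℝ) ≤
          2 ^ (jL (k1 + G0) - jL k1) := by exact_mod_cast h2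
      linarith
    have hpow : (2 : ℝ) ^ jL (k1 + G0) = 2 ^ jL k1 * 2 ^ (jL (k1 + G0) - jL k1) := by
      rw [← pow_add]; congr 1; omega
    rw [hcard]
    calc ∑ i ∈ U, ((V.filter (fun x => anc jL k1 (k1 + G0) x = i)).card : ℝ)
        ≤ ∑ i ∈ U, (1 - c6) * 2 ^ (jL (k1 + G0) - jL k1) := Finset.sum_le_sum hfib
      _ = (U.card : ℝ) * ((1 - c6) * 2 ^ (jL (k1 + G0) - jL k1)) := by
          rw [Finset.sum_const, nsmul_eq_mul]
      _ ≤ ((1 - c6) ^ q * 2 ^ jL k1) * ((1 - c6) * 2 ^ (jL (k1 + G0) - jL k1)) := by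
          refine mul_le_mul_of_nonneg_right ih ?_
          have : 0 < 1 - c6 := by linarith
          positivity
      _ = (1 - c6) ^ (q + 1) * 2 ^ jL (k1 + G0) := by rw [hpow, pow_succ]; ring

end h24

end SF
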