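import Pool.Agent.Helper65.SF.PDefs

/-!
# SF-P1: intersection of a curve with the word curves

Proof in words.  For fixed a, `g b = psi b - P a b` has derivative in the disc of centre `5/2` and radius
`3/5`, so it is injective on the (convex) ball and `|g b - g b'| >= 1.9 |b - b'|`;
`|g b0| <= R/20 + k1 R <= R/10`; the map `b -> b - g b/(5/2)` is a contraction (factor 6/25) of the closed ball of
radius `R/10` around `b0` into itself (`|g b0|/2.5 <= R/25`, `R/25/(1-0.24) < R/10`), so there is a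
zero `be a` in `ball b0 (R/8)`.  Holomorphy: implicit function theorem at each point and uniqueness (or uniform
limit of the iterates).  Derivative by implicit differentiation.
-/

namespace SF

open Metric Filter Topology Asymptotics

theorem beta_exists (R : ℝ) (hR : 0 < R) (a0 b0 : ℂ) (psi : ℂ → ℂ) (P : ℂ → ℂ → ℂ) (k1 : ℝ)
    (hk1 : k1 ≤ 1 / 20) (hpsi : DifferentiableOn ℂ psi (ball b0 R))
    (hsl : ∀ b ∈ ball b0 R, ‖deriv psi b - 3 / 4‖ ≤ 3 / 10)
    (hP : DifferentiableOn ℂ (fun z : ℂ × ℂ => P z.1 z.2) (ball a0 R ×ˢ ball b0 R))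
    (hPb : ∀ a ∈ ball a0 R, ∀ b ∈ ball b0 R, ‖deriv (fun b' => P a b') b + 7 / 4‖ ≤ 3 / 10)
    (hPa : ∀ a ∈ ball a0 R, ∀ b ∈ ball b0 R, ‖deriv (fun a' => P a' b) a‖ ≤ k1)
    (h0 : ‖psi b0 - P a0 b0‖ ≤ R / 20) :
    ∃ be : ℂ → ℂ, DifferentiableOn ℂ be (ball a0 R) ∧
      (∀ a ∈ ball a0 R, be a ∈ ball b0 (R / 8) ∧ psi (be a) = P a (be a) ∧
        HasDerivAt be (deriv (fun a' => P a' (be a)) a /
          (deriv psi (be a) - deriv (fun b' => P a b') (be a))) a) ∧
      ∀ a ∈ ball a0 R, ∀ b ∈ ball b0 R, psi b = P a b → b = be a := by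
  have hPd : ∀ a ∈ ball a0 R, ∀ b ∈ ball b0 R,
      DifferentiableAt ℂ (fun z : ℂ × ℂ => P z.1 z.2) (a, b) := by
    intro a ha b hb
    exact hP.differentiableAt ((isOpen_ball.prod isOpen_ball).mem_nhds ⟨ha, hb⟩)
  have hPdb : ∀ a ∈ ball a0 R, ∀ b ∈ ball b0 R, DifferentiableAt ℂ (fun b' => P a b') b := by
    intro a ha b hb
    exact DifferentiableAt.comp (g := fun z : ℂ × ℂ => P z.1 z.2) (f := fun b' : ℂ => (a, b')) b
      (hPd a ha b hb) ((differentiableAt_const a).prodMk differentiableAt_id)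
  have hPda : ∀ a ∈ ball a0 R, ∀ b ∈ ball b0 R, DifferentiableAt ℂ (fun a' => P a' b) a := by
    intro a ha b hb
    exact DifferentiableAt.comp (g := fun z : ℂ × ℂ => P z.1 z.2) (f := fun a' : ℂ => (a', b)) a
      (hPd a ha b hb) (differentiableAt_id.prodMk (differentiableAt_const b))
  have hpd : ∀ b ∈ ball b0 R, DifferentiableAt ℂ psi b := fun b hb =>
    hpsi.differentiableAt (isOpen_ball.mem_nhds hb)
  -- the contraction
  have hlip : ∀ a ∈ ball a0 R, ∀ b ∈ ball b0 R, ∀ b' ∈ ball b0 R,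
      ‖(b' - (psi b' - P a b') * (2 / 5)) - (b - (psi b - P a b) * (2 / 5))‖ ≤
        6 / 25 * ‖b' - b‖ := by
    intro a ha b hb b' hb'
    have hder : ∀ x ∈ ball b0 R, HasDerivAt (fun y => y - (psi y - P a y) * (2 / 5))
        (1 - (deriv psi x - deriv (fun b' => P a b') x) * (2 / 5)) x := fun x hx =>
      (hasDerivAt_id x).sub
        (((hpd x hx).hasDerivAt.sub (hPdb a ha x hx).hasDerivAt).mul_const (2 / 5))
    refine Convex.norm_image_sub_le_of_norm_deriv_le (𝕜 := ℂ) (s := ball b0 R)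
      (f := fun y => y - (psi y - P a y) * (2 / 5)) (fun x hx => (hder x hx).differentiableAt)
      ?_ (convex_ball b0 R) hb hb'
    intro x hx
    rw [(hder x hx).deriv]
    have e : 1 - (deriv psi x - deriv (fun b' => P a b') x) * (2 / 5) =
        -(2 / 5) * ((deriv psi x - 3 / 4) - (deriv (fun b' => P a b') x + 7 / 4)) := by ring
    rw [e, norm_mul]
    have h1 : ‖(deriv psi x - 3 / 4) - (deriv (fun b' => P a b') x + 7 / 4)‖ ≤ 3 / 10 + 3 / 10 :=
      (norm_sub_le _ _).trans (add_le_add (hsl x hx) (hPb a ha x hx))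
    have h2 : ‖(-(2 / 5) : ℂ)‖ = 2 / 5 := by
      rw [norm_neg]; norm_num
    rw [h2]
    linarith
  -- lower bound for the difference
  have hlow : ∀ a ∈ ball a0 R, ∀ b ∈ ball b0 R, ∀ b' ∈ ball b0 R,
      ‖b' - b‖ ≤ ‖(psi b' - P a b') - (psi b - P a b)‖ := by
    intro a ha b hb b' hb'
    have h1 := hlip a ha b hb b' hb'
    have e : b' - b = ((b' - (psi b' - P a b') * (2 / 5)) - (b - (psi b - P a b) * (2 / 5))) +
        ((psi b' - P a b') - (psi b - P a b)) * (2 / 5) := by ring
    have h2 : ‖b' - b‖ ≤ 6 / 25 * ‖b' - b‖ +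
        ‖(psi b' - P a b') - (psi b - P a b)‖ * (2 / 5) := by
      calc ‖b' - b‖ = ‖((b' - (psi b' - P a b') * (2 / 5)) -
            (b - (psi b - P a b) * (2 / 5))) +
            ((psi b' - P a b') - (psi b - P a b)) * (2 / 5)‖ := by rw [← e]
        _ ≤ _ := (norm_add_le _ _).trans (add_le_add h1 (by
            rw [norm_mul]
            norm_num))
    have h3 := norm_nonneg (b' - b)
    have h4 := norm_nonneg ((psi b' - P a b') - (psi b - P a b))
    linarith
  have hb0 : b0 ∈ ball b0 R := mem_ball_self hR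
  have ha0 : a0 ∈ ball a0 R := mem_ball_self hR
  have hPlip : ∀ b ∈ ball b0 R, ∀ a ∈ ball a0 R, ∀ a' ∈ ball a0 R,
      ‖P a' b - P a b‖ ≤ 1 / 20 * ‖a' - a‖ := by
    intro b hb a ha a' ha'
    have h1 := Convex.norm_image_sub_le_of_norm_deriv_le (𝕜 := ℂ) (s := ball a0 R)
      (f := fun y => P y b) (C := k1) (fun x hx => hPda x hx b hb) (fun x hx => hPa x hx b hb)
      (convex_ball a0 R) ha ha'
    exact h1.trans (mul_le_mul_of_nonneg_right hk1 (norm_nonneg _))
  have hsub : closedBall b0 (R / 10) ⊆ ball b0 R :=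
    closedBall_subset_ball (by linarith)
  -- existence
  have hex : ∀ a ∈ ball a0 R, ∃ b ∈ closedBall b0 (R / 10), psi b = P a b := by
    intro a ha
    let h : ℂ → ℂ := fun b => b - (psi b - P a b) * (2 / 5)
    have hg0 : ‖psi b0 - P a b0‖ ≤ R / 10 := by
      have h1 := hPlip b0 hb0 a0 ha0 a ha
      have h2 : ‖a - a0‖ < R := by rwa [← dist_eq_norm, ← mem_ball]
      have e : psi b0 - P a b0 = (psi b0 - P a0 b0) - (P a b0 - P a0 b0) := by ring
      rw [e]
      refine (norm_sub_le _ _).trans ?_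
      linarith
    have hmaps : Set.MapsTo h (closedBall b0 (R / 10)) (closedBall b0 (R / 10)) := by
      intro b hb
      have h1 := hlip a ha b0 hb0 b (hsub hb)
      rw [mem_closedBall, dist_eq_norm] at hb ⊢
      have e : h b - b0 = (h b - h b0) + (-((psi b0 - P a b0) * (2 / 5))) := by
        simp only [h]; ring
      rw [e]
      refine (norm_add_le _ _).trans ?_
      rw [norm_neg, norm_mul]
      have h2 : ‖(2 / 5 : ℂ)‖ = 2 / 5 := by norm_num
      rw [h2]
      have h3 : ‖h b - h b0‖ ≤ 6 / 25 * ‖b - b0‖ := h1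
      linarith
    have hcontr : ContractingWith (6 / 25) (hmaps.restrict h _ _) := by
      refine ⟨by rw [← NNReal.coe_lt_coe]; norm_num, ?_⟩
      refine LipschitzWith.of_dist_le_mul ?_
      rintro ⟨x, hx⟩ ⟨y, hy⟩
      have h1 := hlip a ha y (hsub hy) x (hsub hx)
      change dist (h x) (h y) ≤ ((6 / 25 : NNReal) : ℝ) * dist x y
      rw [dist_eq_norm, dist_eq_norm]
      have e : ((6 / 25 : NNReal) : ℝ) = 6 / 25 := by norm_num
      rw [e]
      exact h1
    obtain ⟨y, hy, hfix, -⟩ := hcontr.exists_fixedPoint' isClosed_closedBall.isComplete hmaps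
      (mem_closedBall_self (by positivity)) (edist_ne_top _ _)
    refine ⟨y, hy, ?_⟩
    have h1 : y - (psi y - P a y) * (2 / 5) = y := hfix
    have h2 : (psi y - P a y) * (2 / 5) = 0 := by linear_combination -h1
    have h3 := (mul_eq_zero.1 h2).resolve_right (by norm_num)
    linear_combination h3
  classical
  let be : ℂ → ℂ := fun a => if ha : a ∈ ball a0 R then (hex a ha).choose else b0
  have hbe : ∀ a ∈ ball a0 R, be a ∈ closedBall b0 (R / 10) ∧ psi (be a) = P a (be a) := by
    intro a ha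
    have e : be a = (hex a ha).choose := by
      simp only [be]
      rw [dif_pos ha]
    rw [e]
    exact (hex a ha).choose_spec
  have hbeR : ∀ a ∈ ball a0 R, be a ∈ ball b0 R := fun a ha => hsub (hbe a ha).1
  have huniq : ∀ a ∈ ball a0 R, ∀ b ∈ ball b0 R, psi b = P a b → b = be a := by
    intro a ha b hb h
    have h1 := hlow a ha (be a) (hbeR a ha) b hb
    rw [h, (hbe a ha).2, sub_self, sub_self, sub_self, norm_zero] at h1
    have h2 := norm_le_zero_iff.1 h1
    exact sub_eq_zero.1 h2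
  -- Lipschitz continuity
  have hbelip : ∀ a ∈ ball a0 R, ∀ a' ∈ ball a0 R, ‖be a' - be a‖ ≤ 1 * ‖a' - a‖ := by
    intro a ha a' ha'
    have h1 := hlow a ha (be a) (hbeR a ha) (be a') (hbeR a' ha')
    have h2 := hPlip (be a') (hbeR a' ha') a ha a' ha'
    rw [(hbe a ha).2, sub_self, sub_zero, (hbe a' ha').2] at h1
    have h3 := norm_nonneg (a' - a)
    linarith
  have hD : ∀ a ∈ ball a0 R, deriv psi (be a) - deriv (fun b' => P a b') (be a) ≠ 0 := by
    intro a ha h
    have h1 := hsl (be a) (hbeR a ha)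
    have h2 := hPb a ha (be a) (hbeR a ha)
    have h3 : (deriv psi (be a) - 3 / 4) - (deriv (fun b' => P a b') (be a) + 7 / 4) = -(5 / 2) := by
      linear_combination h
    have h4 := norm_sub_le (deriv psi (be a) - 3 / 4) (deriv (fun b' => P a b') (be a) + 7 / 4)
    rw [h3, norm_neg] at h4
    have h5 : ‖(5 / 2 : ℂ)‖ = 5 / 2 := by norm_num
    rw [h5] at h4
    linarith
  have hder : ∀ a ∈ ball a0 R, HasDerivAt be (deriv (fun a' => P a' (be a)) a /
      (deriv psi (be a) - deriv (fun b' => P a b') (be a))) a := by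
    intro a ha
    have hnhds : ball a0 R ∈ 𝓝 a := isOpen_ball.mem_nhds ha
    have hO : (fun a' => be a' - be a) =O[𝓝 a] (fun a' => a' - a) := by
      refine IsBigO.of_bound 1 ?_
      filter_upwards [hnhds] with a' ha'
      exact hbelip a ha a' ha'
    have hcont : Tendsto be (𝓝 a) (𝓝 (be a)) := by
      have h1 : Tendsto (fun a' => a' - a) (𝓝 a) (𝓝 0) := by
        have : Tendsto (fun a' => a' - a) (𝓝 a) (𝓝 (a - a)) :=
          (continuous_id.sub continuous_const).tendsto a
        rwa [sub_self] at this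
      have h2 := hO.trans_tendsto h1
      have h3 := h2.add (tendsto_const_nhds (x := be a))
      simpa using h3
    -- first order expansions
    have e1 := (hpd (be a) (hbeR a ha)).hasDerivAt.isLittleO.comp_tendsto hcont
    have e1' : (fun a' => psi (be a') - psi (be a) - (be a' - be a) • deriv psi (be a)) =o[𝓝 a]
        (fun a' => a' - a) := e1.trans_isBigO hO
    have hprod : Tendsto (fun a' => (a', be a')) (𝓝 a) (𝓝 (a, be a)) :=
      tendsto_id.prodMk_nhds hcont
    have hL := (hPd a ha (be a) (hbeR a ha)).hasFDerivAt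
    set L := fderiv ℂ (fun z : ℂ × ℂ => P z.1 z.2) (a, be a) with hLd
    have e2 := hL.isLittleO.comp_tendsto hprod
    have hO2 : (fun a' => ((a', be a') : ℂ × ℂ) - (a, be a)) =O[𝓝 a] (fun a' => a' - a) := by
      have : (fun a' => ((a', be a') : ℂ × ℂ) - (a, be a)) =
          fun a' => (a' - a, be a' - be a) := by
        funext a'; rfl
      rw [this]
      exact (isBigO_refl _ _).prod_left hO
    have e2' : (fun a' => P a' (be a') - P a (be a) - L (((a', be a') : ℂ × ℂ) - (a, be a)))
        =o[𝓝 a] (fun a' => a' - a) := e2.trans_isBigO hO2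
    have hLa : L (1, 0) = deriv (fun a' => P a' (be a)) a := by
      have h1 : HasDerivAt (fun a' => P a' (be a)) (L (1, 0)) a := by
        have h2 : HasDerivAt (fun a' : ℂ => (a', be a)) ((1 : ℂ), (0 : ℂ)) a :=
          (hasDerivAt_id a).prodMk (hasDerivAt_const a (be a))
        exact HasFDerivAt.comp_hasDerivAt (l := fun z : ℂ × ℂ => P z.1 z.2) a hL h2
      exact h1.deriv.symm
    have hLb : L (0, 1) = deriv (fun b' => P a b') (be a) := by
      have h1 : HasDerivAt (fun b' => P a b') (L (0, 1)) (be a) := by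
        have h2 : HasDerivAt (fun b' : ℂ => (a, b')) ((0 : ℂ), (1 : ℂ)) (be a) :=
          (hasDerivAt_const (be a) a).prodMk (hasDerivAt_id (be a))
        exact HasFDerivAt.comp_hasDerivAt (l := fun z : ℂ × ℂ => P z.1 z.2) (be a) hL h2
      exact h1.deriv.symm
    have hLv : ∀ a', L (((a', be a') : ℂ × ℂ) - (a, be a)) =
        (a' - a) * deriv (fun a' => P a' (be a)) a +
          (be a' - be a) * deriv (fun b' => P a b') (be a) := by
      intro a'
      have : ((a', be a') : ℂ × ℂ) - (a, be a) =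
          (a' - a) • ((1 : ℂ), (0 : ℂ)) + (be a' - be a) • ((0 : ℂ), (1 : ℂ)) := by
        ext <;> simp
      rw [this, map_add, map_smul, map_smul, hLa, hLb, smul_eq_mul, smul_eq_mul]
    set D := deriv psi (be a) - deriv (fun b' => P a b') (be a) with hDd
    have hD0 : D ≠ 0 := hD a ha
    have e3 := (e2'.sub e1').const_mul_left (D⁻¹)
    rw [hasDerivAt_iff_isLittleO]
    refine e3.congr' ?_ (EventuallyEq.refl _ _)
    filter_upwards [hnhds] with a' ha'
    rw [hLv, (hbe a' ha').2, (hbe a ha).2, smul_eq_mul, smul_eq_mul]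
    field_simp
    rw [hDd]
    ring
  refine ⟨be, fun a ha => (hder a ha).differentiableAt.differentiableWithinAt, fun a ha =>
    ⟨?_, (hbe a ha).2, hder a ha⟩, huniq⟩
  exact closedBall_subset_ball (by linarith) (hbe a ha).1

end SF
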