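import Mathlib

/-!
# SF-P: pair recursion, definitions (pure complex analysis)
-/

namespace SF

open Metric

/-- Pre-Schwarzian `T''/T'`. -/
noncomputable def NN (T : ℂ → ℂ) (b : ℂ) : ℂ := deriv (deriv T) b / deriv T b

/-- The quotient `D = (N_1 - N_0)/delta`, `delta = p1 - p0`. -/
noncomputable def DD (T0 T1 p0 p1 : ℂ → ℂ) (b : ℂ) : ℂ := (NN T1 b - NN T0 b) / (p1 b - p0 b)

/-- Hypotheses for one step of the pair recursion: a word `(P, U)` (`P_a = exp U`), two curves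
`(T_i, p_i)` over the ball around `b0`, their images `T_i m` over the ball around `a0`
(`T_i m = T_i ∘ be_i`, `p_i (be_i a) = P a (be_i a)`), and the difference `dm` of the image coordinates.
`L` bounds the logarithmic derivative of `p1 - p0`, `e` bounds `p1 - p0`. -/
structure PairHyp (R C L e : ℝ) (a0 b0 sg : ℂ) (P U : ℂ → ℂ → ℂ)
    (T0 T1 p0 p1 T0m T1m be0 be1 dm : ℂ → ℂ) : Prop where
  dP : DifferentiableOn ℂ (fun z : ℂ × ℂ => P z.1 z.2) (ball a0 R ×ˢ ball b0 R)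
  dU : DifferentiableOn ℂ (fun z : ℂ × ℂ => U z.1 z.2) (ball a0 R ×ˢ ball b0 R)
  Ub : ∀ a ∈ ball a0 R, ∀ b ∈ ball b0 R, ‖U a b - U a0 b0‖ ≤ C
  Pa : ∀ a ∈ ball a0 R, ∀ b ∈ ball b0 R, HasDerivAt (fun a' => P a' b) (Complex.exp (U a b)) a
  Pb : ∀ a ∈ ball a0 R, ∀ b ∈ ball b0 R, ‖deriv (fun b' => P a b') b + 7 / 4‖ ≤ 3 / 10
  dT0 : DifferentiableOn ℂ T0 (ball b0 R)
  dT1 : DifferentiableOn ℂ T1 (ball b0 R)
  dp0 : DifferentiableOn ℂ p0 (ball b0 R)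
  dp1 : DifferentiableOn ℂ p1 (ball b0 R)
  Tne : ∀ b ∈ ball b0 R, deriv T0 b ≠ 0 ∧ deriv T1 b ≠ 0
  Trat : ∀ b ∈ ball b0 R, ‖deriv T0 b / deriv T0 b0 - 1‖ ≤ 1 / 2 ∧
    ‖deriv T1 b / deriv T1 b0 - 1‖ ≤ 1 / 2
  slope : ∀ b ∈ ball b0 R, ‖deriv p0 b - 3 / 4‖ ≤ 3 / 10 ∧ ‖deriv p1 b - 3 / 4‖ ≤ 3 / 10
  del : ∀ b ∈ ball b0 R, p1 b - p0 b ≠ 0 ∧ ‖p1 b - p0 b‖ ≤ e
  ratio : ∀ b ∈ ball b0 (R / 2), ‖deriv p1 b - deriv p0 b‖ ≤ L * ‖p1 b - p0 b‖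
  dbe0 : DifferentiableOn ℂ be0 (ball a0 R)
  dbe1 : DifferentiableOn ℂ be1 (ball a0 R)
  be : ∀ a ∈ ball a0 R, be0 a ∈ ball b0 (R / 8) ∧ be1 a ∈ ball b0 (R / 8) ∧
    p0 (be0 a) = P a (be0 a) ∧ p1 (be1 a) = P a (be1 a)
  Tm : ∀ a ∈ ball a0 R, T0m a = T0 (be0 a) ∧ T1m a = T1 (be1 a)
  hdm : ∀ a ∈ ball a0 R, dm a = sg * (be1 a - be0 a) *
    ∫ t in (0:ℝ)..1, Complex.exp (U a (be0 a + t * (be1 a - be0 a)))
  hsg : sg = 1 ∨ sg = -1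

/-- The large term of the recursion: average of `U_ab` over average of `exp U`. -/
noncomputable def KK (U : ℂ → ℂ → ℂ) (be0 be1 : ℂ → ℂ) (a : ℂ) : ℂ :=
  (deriv (fun a' => U a' (be1 a)) a - deriv (fun a' => U a' (be0 a)) a) /
    ((be1 a - be0 a) * ∫ t in (0:ℝ)..1, Complex.exp (U a (be0 a + t * (be1 a - be0 a))))

end SF
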