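import Pool.Agent.Helper65.SF.SG2

/-!
# SF-SG3: growth of the derivative

`|X_k'(t)| <= Cl fib k exp (C sum_{j<k} phS lam j s)`, `s = TE lam t k/(pi fib k)`.
-/

namespace SF

/-! ### Derivatives at one level -/

theorem h5_rr_deriv (lam : ℝ) (B : ℝ → ℝ) (b t : ℝ) (hB : HasDerivAt B b t)
    (hs : Real.sin (B t) ≠ 0) :
    ∃ r', HasDerivAt (fun s => rr lam (B s)) r' t ∧
      |r'| * |Real.sin (B t)| ^ 3 ≤ lam ^ 2 * |b| := by
  have e : ∀ x : ℝ, rr lam x = Real.sqrt (1 + lam ^ 2 * (4 * Real.sin x ^ 2)⁻¹) := by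
    intro x
    unfold rr qq
    congr 2
    rw [div_pow, mul_pow, sq_abs, div_eq_mul_inv]; norm_num
  have h1 : HasDerivAt (fun s => Real.sin (B s)) (Real.cos (B t) * b) t := hB.sin
  have h2 : HasDerivAt (fun s => 4 * Real.sin (B s) ^ 2)
      (4 * (2 * Real.sin (B t) * (Real.cos (B t) * b))) t := by
    have := (h1.pow 2).const_mul 4
    simpa using this
  have hne : 4 * Real.sin (B t) ^ 2 ≠ 0 := by positivity
  have h3 : HasDerivAt (fun s => 1 + lam ^ 2 * (4 * Real.sin (B s) ^ 2)⁻¹)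
      (lam ^ 2 * (-(4 * (2 * Real.sin (B t) * (Real.cos (B t) * b))) /
        (4 * Real.sin (B t) ^ 2) ^ 2)) t := by
    have := ((h2.fun_inv hne).const_mul (lam ^ 2)).const_add 1
    exact this
  have hpos : 0 < 1 + lam ^ 2 * (4 * Real.sin (B t) ^ 2)⁻¹ := by positivity
  have h4 := h3.sqrt hpos.ne'
  refine ⟨lam ^ 2 * (-(4 * (2 * Real.sin (B t) * (Real.cos (B t) * b))) /
        (4 * Real.sin (B t) ^ 2) ^ 2) /
        (2 * Real.sqrt (1 + lam ^ 2 * (4 * Real.sin (B t) ^ 2)⁻¹)), ?_, ?_⟩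
  · have e2 : (fun s => rr lam (B s)) =
        fun s => Real.sqrt (1 + lam ^ 2 * (4 * Real.sin (B s) ^ 2)⁻¹) := by
      funext s; exact e _
    rw [e2]
    exact h4
  · set S := Real.sin (B t) with hS
    have hSp : 0 < |S| := abs_pos.2 hs
    set Q := Real.sqrt (1 + lam ^ 2 * (4 * S ^ 2)⁻¹) with hQ
    have hQ1 : 1 ≤ Q := by
      rw [hQ, Real.one_le_sqrt]
      have : 0 ≤ lam ^ 2 * (4 * S ^ 2)⁻¹ := by positivity
      linarith only [this]
    have e3 : lam ^ 2 * (-(4 * (2 * S * (Real.cos (B t) * b))) / (4 * S ^ 2) ^ 2) / (2 * Q) * S ^ 3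
        = -(lam ^ 2 * (Real.cos (B t) * b) / (4 * Q)) := by
      field_simp
    have e4 : |lam ^ 2 * (-(4 * (2 * S * (Real.cos (B t) * b))) / (4 * S ^ 2) ^ 2) / (2 * Q)| *
        |S| ^ 3 = |lam ^ 2 * (Real.cos (B t) * b) / (4 * Q)| := by
      rw [← abs_pow, ← abs_mul, e3, abs_neg]
    rw [e4, abs_div, abs_mul, abs_mul, abs_of_nonneg (by positivity : (0:ℝ) ≤ lam ^ 2),
      abs_of_pos (by positivity : (0:ℝ) < 4 * Q), div_le_iff₀ (by positivity)]
    have hc := Real.abs_cos_le_one (B t)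
    have hb := abs_nonneg b
    have h5 : |Real.cos (B t)| * |b| ≤ |b| := by nlinarith only [hc, hb]
    have h6 : lam ^ 2 * (|Real.cos (B t)| * |b|) ≤ lam ^ 2 * |b| :=
      mul_le_mul_of_nonneg_left h5 (by positivity)
    have h7 : 0 ≤ lam ^ 2 * |b| := by positivity
    nlinarith only [hQ1, h6, h7]

/-- The derivative of the trace. -/
noncomputable def h5V (lam t : ℝ) (j : ℕ) : ℝ := deriv (fun s => X lam s j) t

theorem h5V_has (lam t : ℝ) (j : ℕ) : HasDerivAt (fun s => X lam s j) (h5V lam t j) t :=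
  (X_differentiable lam j).differentiableAt.hasDerivAt

theorem h5_psi (lam t : ℝ) (h0 : 0 ≤ lam) (h1 : lam ≤ 1 / 100) (m : ℕ)
    (hx : |X lam t (m + 1)| < 1) :
    rr lam (TE lam t (m + 1)) * Real.cos (psiE lam t (m + 1)) = X lam t m ∧
    rr lam (TE lam t (m + 1)) * Real.cos (psiE lam t (m + 1) + TE lam t (m + 1)) =
      X lam t (m + 2) := by
  have hspec := fun i => coord_spec (St_energy lam t h0) h0 h1 0 (Real.arccos (-t / 2))
    (h94_e0 lam t) (h94_e1 lam t) (m + 1) (by omega) hx i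
  exact ⟨(hspec 0).1, (hspec 2).1⟩

theorem h5_near (lam t : ℝ) (j : ℕ) (hx : |X lam t j| < 1) :
    ∀ᶠ s in nhds t, |X lam s j| < 1 := by
  have hc : Continuous (fun s => |X lam s j|) := (X_differentiable lam j).continuous.abs
  exact hc.continuousAt.eventually (gt_mem_nhds hx)

/-- The three derivatives in terms of the angle variables. -/
theorem h5_three (lam t : ℝ) (h0 : 0 ≤ lam) (h1 : lam ≤ 1 / 100) (n : ℕ) (b p : ℝ)
    (hx : |X lam t (n + 1)| < 1)
    (hb : HasDerivAt (fun s => TE lam s (n + 1)) b t)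
    (hp : HasDerivAt (fun s => psiE lam s (n + 1)) p t) :
    ∃ r', |r'| * |Real.sin (TE lam t (n + 1))| ^ 3 ≤ lam ^ 2 * |b| ∧
      h5V lam t n = r' * Real.cos (psiE lam t (n + 1)) -
        rr lam (TE lam t (n + 1)) * Real.sin (psiE lam t (n + 1)) * p ∧
      h5V lam t (n + 1) = -Real.sin (TE lam t (n + 1)) * b ∧
      h5V lam t (n + 2) = r' * Real.cos (psiE lam t (n + 1) + TE lam t (n + 1)) -
        rr lam (TE lam t (n + 1)) * Real.sin (psiE lam t (n + 1) + TE lam t (n + 1)) * (p + b) := by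
  have hs := (sin_TE_ne lam t h0 (n + 1)).2 hx
  obtain ⟨r', hr, hr2⟩ := h5_rr_deriv lam (fun s => TE lam s (n + 1)) b t hb hs
  have hnear := h5_near lam t (n + 1) hx
  refine ⟨r', hr2, ?_, ?_, ?_⟩
  · have h2 := hr.mul (hp.cos)
    have h3 : HasDerivAt (fun s => X lam s n) _ t := h2.congr_of_eventuallyEq (by
      filter_upwards [hnear] with s hs'
      exact (h5_psi lam s h0 h1 n hs').1.symm)
    rw [(h5V_has lam t n).unique h3]
    ring
  · have h3 : HasDerivAt (fun s => X lam s (n + 1)) _ t := (hb.cos).congr_of_eventuallyEq (by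
      filter_upwards [hnear] with s hs'
      rw [cos_TE lam s h0, clip_of_lt hs'])
    rw [(h5V_has lam t (n + 1)).unique h3]
  · have h2 := hr.mul ((hp.add hb).cos)
    have h3 : HasDerivAt (fun s => X lam s (n + 2)) _ t := h2.congr_of_eventuallyEq (by
      filter_upwards [hnear] with s hs'
      exact (h5_psi lam s h0 h1 n hs').2.symm)
    rw [(h5V_has lam t (n + 2)).unique h3]
    simp only [Pi.add_apply]
    ring

/-- Size of the derivative of the state. -/
noncomputable def h5R (lam t : ℝ) (n : ℕ) : ℝ :=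
  |h5V lam t n| + |h5V lam t (n + 1)| + |h5V lam t (n + 2)|

theorem h5_sin_r (lam t : ℝ) (h0 : 0 < lam) (n : ℕ) (m : ℕ) (phi : ℝ)
    (hs : Real.sin (TE lam t (n + 1)) ≠ 0)
    (he : rr lam (TE lam t (n + 1)) * Real.cos phi = X lam t m) :
    rr lam (TE lam t (n + 1)) * |Real.sin phi| ≤
      |Real.sin (TE lam t m)| + lam / (2 * |Real.sin (TE lam t (n + 1))|) := by
  have hr := rr_sq lam (TE lam t (n + 1))
  have hr1 := one_le_rr lam (TE lam t (n + 1))
  have hq : qq lam (TE lam t (n + 1)) = lam / (2 * |Real.sin (TE lam t (n + 1))|) := rfl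
  have hq0 : 0 ≤ qq lam (TE lam t (n + 1)) := by rw [hq]; positivity
  rw [← hq]
  apply abs_le_of_sq_le_sq' _ _ |>.2
  · have h3 : Real.sin (TE lam t m) ^ 2 = 1 - clip (X lam t m) ^ 2 := by
      have := Real.sin_sq_add_cos_sq (TE lam t m)
      rw [cos_TE lam t h0.le] at this
      linarith only [this]
    have h4 : clip (X lam t m) ^ 2 ≤ X lam t m ^ 2 := by
      have : |clip (X lam t m)| ≤ |X lam t m| := by
        by_cases h : |X lam t m| ≤ 1
        · rw [clip_of_le14 h]
        · push Not at h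
          exact (abs_clip_le _).trans h.le
      exact sq_le_sq.2 this
    have h5 : (rr lam (TE lam t (n + 1)) * |Real.sin phi|) ^ 2 =
        rr lam (TE lam t (n + 1)) ^ 2 - X lam t m ^ 2 := by
      rw [mul_pow, sq_abs, ← he, mul_pow]
      have := Real.sin_sq_add_cos_sq phi
      linear_combination (rr lam (TE lam t (n + 1)) ^ 2) * this
    rw [h5, hr, add_sq, sq_abs, h3]
    have : 0 ≤ 2 * |Real.sin (TE lam t m)| * qq lam (TE lam t (n + 1)) := by positivity
    linarith only [h4, this]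
  · positivity

theorem h5_conv (lam t : ℝ) (h0 : 0 < lam) (h1 : lam ≤ 1 / 100) (n : ℕ) (Y b p : ℝ)
    (hx : |X lam t (n + 1)| < 1)
    (hb : HasDerivAt (fun s => TE lam s (n + 1)) b t)
    (hp : HasDerivAt (fun s => psiE lam s (n + 1)) p t)
    (hY : 10 ^ 6 * Real.sqrt lam ≤ Y) (hs : Y / 20 ≤ |Real.sin (TE lam t (n + 1))|)
    (hs1 : |Real.sin (TE lam t (n + 1))| ≤ 3 * Y) (hs0 : |Real.sin (TE lam t n)| ≤ 3 * Y)
    (hs2 : |Real.sin (TE lam t (n + 2))| ≤ 3 * Y) :
    (|b| + |p|) * Y ≤ 2000 * h5R lam t n ∧ h5R lam t n ≤ 12 * Y * (|b| + |p|) := by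
  obtain ⟨r', hr', e0, e1, e2⟩ := h5_three lam t h0.le h1 n b p hx hb hp
  obtain ⟨g0, g2⟩ := h5_psi lam t h0.le h1 n hx
  have hsne := (sin_TE_ne lam t h0.le (n + 1)).2 hx
  have f0 := h5_sin_r lam t h0 n n (psiE lam t (n + 1)) hsne g0
  have f2 := h5_sin_r lam t h0 n (n + 2) (psiE lam t (n + 1) + TE lam t (n + 1)) hsne g2
  have hsq : 0 < Real.sqrt lam := Real.sqrt_pos.2 h0
  have hsq2 : Real.sqrt lam ^ 2 = lam := Real.sq_sqrt h0.le
  have hYp : 0 < Y := by linarith only [mul_pos (by norm_num : (0:ℝ) < 10 ^ 6) hsq, hY, hsq]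
  set q := Real.sqrt lam with hq
  set S := |Real.sin (TE lam t (n + 1))| with hS
  have hSp : 0 < S := by linarith only [div_pos hYp (by norm_num : (0:ℝ) < 20), hY, hsq, hs]
  set r := rr lam (TE lam t (n + 1)) with hr
  have hr1 : 1 ≤ r := one_le_rr _ _
  set s0 := |Real.sin (psiE lam t (n + 1))| with hs0'
  set s2 := |Real.sin (psiE lam t (n + 1) + TE lam t (n + 1))| with hs2'
  -- lam / (2 S) is small
  have hl : lam / (2 * S) ≤ Y / 100 := by
    rw [div_le_iff₀ (by positivity)]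
    have h3 : q ≤ Y / 10 ^ 6 := by rw [le_div_iff₀ (by norm_num)]; linarith only [hY]
    have h4 : lam ≤ (Y / 10 ^ 6) ^ 2 := by rw [← hsq2]; exact pow_le_pow_left₀ hsq.le h3 2
    nlinarith only [h0, h1, hYp, hs, h4]
  -- r' is small
  have hr3 : |r'| * S ^ 3 ≤ lam ^ 2 * |b| := hr'
  have hr4 : |r'| ≤ Y * |b| := by
    have h3 : q ≤ Y / 10 ^ 6 := by rw [le_div_iff₀ (by norm_num)]; linarith only [hY]
    have h4 : lam ^ 2 ≤ (Y / 10 ^ 6) ^ 4 := by
      have : lam ^ 2 = q ^ 4 := by rw [← hsq2]; ring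
      rw [this]; exact pow_le_pow_left₀ hsq.le h3 4
    have h5 : (Y / 20) ^ 3 ≤ S ^ 3 := pow_le_pow_left₀ (by positivity) hs 3
    have h6 : |r'| * (Y / 20) ^ 3 ≤ (Y / 10 ^ 6) ^ 4 * |b| :=
      (mul_le_mul_of_nonneg_left h5 (abs_nonneg _)).trans
        (hr3.trans (mul_le_mul_of_nonneg_right h4 (abs_nonneg _)))
    have h7 : (Y / 10 ^ 6) ^ 4 * |b| ≤ (Y * |b|) * (Y / 20) ^ 3 := by
      have : (0:ℝ) ≤ Y ^ 4 * |b| := by positivity
      have e : (Y / 10 ^ 6) ^ 4 * |b| = Y ^ 4 * |b| / 10 ^ 24 := by ring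
      have e' : (Y * |b|) * (Y / 20) ^ 3 = Y ^ 4 * |b| / 8000 := by ring
      rw [e, e']
      apply div_le_div_of_nonneg_left this (by norm_num) (by norm_num)
    exact le_of_mul_le_mul_right (h6.trans h7) (by positivity)
  have hb0 := abs_nonneg b
  have hp0 := abs_nonneg p
  have c0 : |Real.cos (psiE lam t (n + 1))| ≤ 1 := Real.abs_cos_le_one _
  have c2 : |Real.cos (psiE lam t (n + 1) + TE lam t (n + 1))| ≤ 1 := Real.abs_cos_le_one _
  have hrc0 : |r' * Real.cos (psiE lam t (n + 1))| ≤ Y * |b| := by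
    rw [abs_mul]
    calc |r'| * |Real.cos (psiE lam t (n + 1))| ≤ |r'| * 1 :=
          mul_le_mul_of_nonneg_left c0 (abs_nonneg _)
      _ ≤ Y * |b| := by linarith only [hr4]
  have hrc2 : |r' * Real.cos (psiE lam t (n + 1) + TE lam t (n + 1))| ≤ Y * |b| := by
    rw [abs_mul]
    calc |r'| * |Real.cos (psiE lam t (n + 1) + TE lam t (n + 1))| ≤ |r'| * 1 :=
          mul_le_mul_of_nonneg_left c2 (abs_nonneg _)
      _ ≤ Y * |b| := by linarith only [hr4]
  have k0 : |r * Real.sin (psiE lam t (n + 1)) * p| = r * s0 * |p| := by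
    rw [abs_mul, abs_mul, abs_of_pos (by linarith only [h0, h1, hr1] : 0 < r)]
  have k2 : |r * Real.sin (psiE lam t (n + 1) + TE lam t (n + 1)) * (p + b)| =
      r * s2 * |p + b| := by
    rw [abs_mul, abs_mul, abs_of_pos (by linarith only [h0, h1, hr1] : 0 < r)]
  have k1 : |h5V lam t (n + 1)| = S * |b| := by rw [e1, abs_mul, abs_neg]
  have hpb : |p + b| ≤ |p| + |b| := abs_add_le _ _
  refine ⟨?_, ?_⟩
  · -- from R to the angles
    have hR0 : |h5V lam t n| ≤ h5R lam t n := by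
      unfold h5R; linarith only [abs_nonneg (h5V lam t (n + 1)), abs_nonneg (h5V lam t (n + 2))]
    have hR1 : S * |b| ≤ h5R lam t n := by
      rw [← k1]
      unfold h5R; linarith only [abs_nonneg (h5V lam t n), abs_nonneg (h5V lam t (n + 2))]
    have hR2 : |h5V lam t (n + 2)| ≤ h5R lam t n := by
      unfold h5R; linarith only [abs_nonneg (h5V lam t (n + 1)), abs_nonneg (h5V lam t n)]
    have hRn : 0 ≤ h5R lam t n := (abs_nonneg _).trans hR0
    have hYb : Y * |b| ≤ 20 * h5R lam t n := by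
      have := mul_le_mul_of_nonneg_right hs hb0
      linarith only [hR1, this]
    have hsum : S ≤ s0 + s2 := by
      have e : Real.sin (TE lam t (n + 1)) =
          Real.sin (psiE lam t (n + 1) + TE lam t (n + 1)) * Real.cos (psiE lam t (n + 1)) -
          Real.cos (psiE lam t (n + 1) + TE lam t (n + 1)) * Real.sin (psiE lam t (n + 1)) := by
        rw [← Real.sin_sub]; congr 1; ring
      calc S ≤ |Real.sin (psiE lam t (n + 1) + TE lam t (n + 1)) * Real.cos (psiE lam t (n + 1))| +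
            |Real.cos (psiE lam t (n + 1) + TE lam t (n + 1)) * Real.sin (psiE lam t (n + 1))| := by
            rw [hS, e]; exact abs_sub _ _
        _ ≤ s2 + s0 := by
            rw [abs_mul, abs_mul]
            have h5 := mul_le_mul_of_nonneg_left c0 (abs_nonneg (Real.sin (psiE lam t (n + 1) + TE lam t (n + 1))))
            have h6 := mul_le_mul_of_nonneg_right c2 (abs_nonneg (Real.sin (psiE lam t (n + 1))))
            linarith only [h5, h6]
        _ = s0 + s2 := by ring
    have hs00 : 0 ≤ s0 := abs_nonneg _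
    have hs20 : 0 ≤ s2 := abs_nonneg _
    rcases le_total (Y / 40) s0 with hc | hc
    · have h5 : r * s0 * |p| ≤ |h5V lam t n| + Y * |b| := by
        rw [← k0]
        have : r * Real.sin (psiE lam t (n + 1)) * p =
            r' * Real.cos (psiE lam t (n + 1)) - h5V lam t n := by rw [e0]; ring
        rw [this]
        exact (abs_sub _ _).trans (by linarith only [hrc0])
      have h6 : Y / 40 * |p| ≤ r * s0 * |p| := by
        apply mul_le_mul_of_nonneg_right _ hp0
        have := mul_le_mul_of_nonneg_right hr1 hs00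
        linarith only [hc, this]
      linarith only [hR0, hRn, hYb, h5, h6]
    · have hc2 : Y / 40 ≤ s2 := by linarith only [hs, hsum, hc]
      have h5 : r * s2 * |p + b| ≤ |h5V lam t (n + 2)| + Y * |b| := by
        rw [← k2]
        have : r * Real.sin (psiE lam t (n + 1) + TE lam t (n + 1)) * (p + b) =
            r' * Real.cos (psiE lam t (n + 1) + TE lam t (n + 1)) - h5V lam t (n + 2) := by
          linarith only [e2, e2]
        rw [this]
        refine (abs_sub _ _).trans ?_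
        linarith only [hrc2]
      have h6 : Y / 40 * |p + b| ≤ r * s2 * |p + b| := by
        apply mul_le_mul_of_nonneg_right _ (abs_nonneg _)
        have := mul_le_mul_of_nonneg_right hr1 hs20
        linarith only [hs, hsum, hc, this]
      have h7 : |p| ≤ |p + b| + |b| := by
        have := abs_sub (p + b) b
        simpa using this
      have h8 := mul_le_mul_of_nonneg_left h7 hYp.le
      linarith only [hR2, hRn, hYb, h5, h6, h8]
  · -- from the angles to R
    have hR0 : |h5V lam t n| ≤ Y * |b| + 4 * Y * |p| := by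
      rw [e0]
      refine (abs_sub _ _).trans ?_
      rw [k0]
      have : r * s0 * |p| ≤ (4 * Y) * |p| := mul_le_mul_of_nonneg_right (by linarith only [hs0, hY, hsq, f0, hl]) hp0
      linarith only [hrc0, this]
    have hR2 : |h5V lam t (n + 2)| ≤ Y * |b| + 4 * Y * (|p| + |b|) := by
      rw [e2]
      refine (abs_sub _ _).trans ?_
      rw [k2]
      have : r * s2 * |p + b| ≤ (4 * Y) * (|p| + |b|) :=
        mul_le_mul (by linarith only [hs2, hY, hsq, f2, hl]) hpb (abs_nonneg _) (by positivity)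
      linarith only [hrc2, this]
    have hR1 : |h5V lam t (n + 1)| ≤ 3 * Y * |b| := by
      rw [k1]; exact mul_le_mul_of_nonneg_right hs1 hb0
    unfold h5R
    have : 0 ≤ Y * |b| := by positivity
    have : 0 ≤ Y * |p| := by positivity
    nlinarith


/-! ### The potential -/

/-- The golden mean. -/
noncomputable def h5mu : ℝ := (1 + Real.sqrt 5) / 2

theorem h5mu_sq : h5mu ^ 2 = h5mu + 1 := by
  unfold h5mu
  have := Real.sq_sqrt (by norm_num : (0:ℝ) ≤ 5)
  nlinarith only [this]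

theorem h5mu_gt : 3 / 2 < h5mu := by
  unfold h5mu
  have : (2:ℝ) < Real.sqrt 5 := by rw [Real.lt_sqrt] <;> norm_num
  linarith only [this]

theorem h5mu_lt : h5mu < 2 := by
  unfold h5mu
  have : Real.sqrt 5 < 3 := by rw [Real.sqrt_lt'] <;> norm_num
  linarith only [this]

/-- The potential of a tangent vector. -/
noncomputable def h5Psi (b p : ℝ) : ℝ := |b + (h5mu - 1) * p| + |b - h5mu * p|

theorem h5Psi_nonneg (b p : ℝ) : 0 ≤ h5Psi b p := by unfold h5Psi; positivity

theorem h5Psi_lower (b p : ℝ) : |b| + |p| ≤ 2 * h5Psi b p := by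
  have h1 := h5mu_gt
  have h2 := h5mu_lt
  unfold h5Psi
  set u := b + (h5mu - 1) * p with hu
  set v := b - h5mu * p with hv
  have e1 : (2 * h5mu - 1) * p = u - v := by rw [hu, hv]; ring
  have h3 : 2 * |p| ≤ |u| + |v| := by
    have h4 : |(2 * h5mu - 1) * p| = (2 * h5mu - 1) * |p| := by
      rw [abs_mul, abs_of_pos (by linarith only [h1, h2])]
    have h5 : |(2 * h5mu - 1) * p| ≤ |u| + |v| := by rw [e1]; exact abs_sub _ _
    have h6 := mul_le_mul_of_nonneg_right (by linarith only [h1] : (2:ℝ) ≤ 2 * h5mu - 1) (abs_nonneg p)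
    linarith only [h4, h5, h6]
  have h7 : |b| ≤ |u| + |p| := by
    have e2 : b = u - (h5mu - 1) * p := by rw [hu]; ring
    have h8 : |b| ≤ |u| + |(h5mu - 1) * p| := by
      conv_lhs => rw [e2]
      exact abs_sub _ _
    have h9 : |(h5mu - 1) * p| ≤ 1 * |p| := by
      rw [abs_mul, abs_of_pos (by linarith only [h1, h2])]
      exact mul_le_mul_of_nonneg_right (by linarith only [h2]) (abs_nonneg p)
    linarith only [h8, h9]
  have := abs_nonneg v
  linarith only [h3, h7, this]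

theorem h5Psi_upper (b p : ℝ) : h5Psi b p ≤ 4 * (|b| + |p|) := by
  have h1 := h5mu_gt
  have h2 := h5mu_lt
  unfold h5Psi
  have h3 : |b + (h5mu - 1) * p| ≤ |b| + 1 * |p| := by
    refine (abs_add_le _ _).trans ?_
    rw [abs_mul, abs_of_pos (by linarith only [h1, h2] : 0 < h5mu - 1)]
    have := mul_le_mul_of_nonneg_right (by linarith only [h2] : h5mu - 1 ≤ 1) (abs_nonneg p)
    linarith only [this]
  have h4 : |b - h5mu * p| ≤ |b| + 2 * |p| := by
    refine (abs_sub _ _).trans ?_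
    rw [abs_mul, abs_of_pos (by linarith only [h1, h2] : 0 < h5mu)]
    have := mul_le_mul_of_nonneg_right (by linarith only [h2] : h5mu ≤ 2) (abs_nonneg p)
    linarith only [this]
  have := abs_nonneg b
  have := abs_nonneg p
  linarith

theorem h5Psi_step1 (b p b1 p1 e : ℝ) (he : 0 ≤ e) (h1 : |b1 - (b + p)| ≤ e * (|b| + |p|))
    (h2 : |p1 - b| ≤ e * (|b| + |p|)) : h5Psi b1 p1 ≤ h5mu * (1 + 10 * e) * h5Psi b p := by
  have m1 := h5mu_gt
  have m2 := h5mu_lt
  have m3 := h5mu_sq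
  have hN := h5Psi_lower b p
  have hP := h5Psi_nonneg b p
  have eu : b1 + (h5mu - 1) * p1 = h5mu * (b + (h5mu - 1) * p) + (b1 - (b + p)) +
      (h5mu - 1) * (p1 - b) := by linear_combination (-p) * m3
  have ev : b1 - h5mu * p1 = -(h5mu - 1) * (b - h5mu * p) + (b1 - (b + p)) -
      h5mu * (p1 - b) := by linear_combination (-p) * m3
  set N := |b| + |p| with hNd
  have hN0 : 0 ≤ N := by positivity
  have a1 : |b1 + (h5mu - 1) * p1| ≤ h5mu * |b + (h5mu - 1) * p| + e * N + 1 * (e * N) := by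
    rw [eu]
    refine (abs_add_le _ _).trans (add_le_add ((abs_add_le _ _).trans (add_le_add ?_ h1)) ?_)
    · rw [abs_mul, abs_of_pos (by linarith only [m1, m2] : 0 < h5mu)]
    · rw [abs_mul, abs_of_pos (by linarith only [m1, m2] : 0 < h5mu - 1)]
      exact mul_le_mul (by linarith only [m2]) h2 (abs_nonneg _) (by norm_num)
  have a2 : |b1 - h5mu * p1| ≤ h5mu * |b - h5mu * p| + e * N + 2 * (e * N) := by
    rw [ev]
    refine (abs_sub _ _).trans (add_le_add ((abs_add_le _ _).trans (add_le_add ?_ h1)) ?_)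
    · rw [abs_mul, abs_neg, abs_of_pos (by linarith only [m1, m2] : 0 < h5mu - 1)]
      exact mul_le_mul_of_nonneg_right (by linarith only [m1, m2]) (abs_nonneg _)
    · rw [abs_mul, abs_of_pos (by linarith only [m1, m2] : 0 < h5mu)]
      exact mul_le_mul (by linarith only [m2]) h2 (abs_nonneg _) (by norm_num)
  have a3 : e * N ≤ e * (2 * h5Psi b p) := mul_le_mul_of_nonneg_left hN he
  have a4 : h5Psi b1 p1 ≤ h5mu * h5Psi b p + 10 * e * h5Psi b p := by
    have : h5Psi b1 p1 = |b1 + (h5mu - 1) * p1| + |b1 - h5mu * p1| := rfl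
    have h3 : h5Psi b p = |b + (h5mu - 1) * p| + |b - h5mu * p| := rfl
    rw [this]
    nlinarith only [m1, a1, a2, a3, h3]
  have a5 : 10 * e * h5Psi b p ≤ h5mu * (10 * e * h5Psi b p) := by
    have : 0 ≤ 10 * e * h5Psi b p := by positivity
    nlinarith only [m1, this]
  linarith only [a4, a5]

theorem h5Psi_step2 (b p b1 p1 e : ℝ) (he : 0 ≤ e) (h1 : |b1 - (2 * b + p)| ≤ e * (|b| + |p|))
    (h2 : |p1 - (b + p)| ≤ e * (|b| + |p|)) :
    h5Psi b1 p1 ≤ h5mu ^ 2 * (1 + 10 * e) * h5Psi b p := by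
  have m1 := h5mu_gt
  have m2 := h5mu_lt
  have m3 := h5mu_sq
  have hN := h5Psi_lower b p
  have hP := h5Psi_nonneg b p
  have eu : b1 + (h5mu - 1) * p1 = h5mu ^ 2 * (b + (h5mu - 1) * p) + (b1 - (2 * b + p)) +
      (h5mu - 1) * (p1 - (b + p)) := by linear_combination (-b - h5mu * p) * m3
  have ev : b1 - h5mu * p1 = (h5mu - 1) ^ 2 * (b - h5mu * p) + (b1 - (2 * b + p)) -
      h5mu * (p1 - (b + p)) := by linear_combination (-b + (h5mu - 1) * p) * m3
  set N := |b| + |p| with hNd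
  have hN0 : 0 ≤ N := by positivity
  have a1 : |b1 + (h5mu - 1) * p1| ≤ h5mu ^ 2 * |b + (h5mu - 1) * p| + e * N + 1 * (e * N) := by
    rw [eu]
    refine (abs_add_le _ _).trans (add_le_add ((abs_add_le _ _).trans (add_le_add ?_ h1)) ?_)
    · rw [abs_mul, abs_of_pos (by positivity : 0 < h5mu ^ 2)]
    · rw [abs_mul, abs_of_pos (by linarith only [m1, m2] : 0 < h5mu - 1)]
      exact mul_le_mul (by linarith only [m2]) h2 (abs_nonneg _) (by norm_num)
  have a2 : |b1 - h5mu * p1| ≤ h5mu ^ 2 * |b - h5mu * p| + e * N + 2 * (e * N) := by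
    rw [ev]
    refine (abs_sub _ _).trans (add_le_add ((abs_add_le _ _).trans (add_le_add ?_ h1)) ?_)
    · rw [abs_mul, abs_of_nonneg (by positivity : 0 ≤ (h5mu - 1) ^ 2)]
      exact mul_le_mul_of_nonneg_right (pow_le_pow_left₀ (by linarith only [m1, m2]) (by linarith only [m1, m2]) 2)
        (abs_nonneg _)
    · rw [abs_mul, abs_of_pos (by linarith only [m1, m2] : 0 < h5mu)]
      exact mul_le_mul (by linarith only [m2]) h2 (abs_nonneg _) (by norm_num)
  have a3 : e * N ≤ e * (2 * h5Psi b p) := mul_le_mul_of_nonneg_left hN he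
  have a4 : h5Psi b1 p1 ≤ h5mu ^ 2 * h5Psi b p + 10 * e * h5Psi b p := by
    have : h5Psi b1 p1 = |b1 + (h5mu - 1) * p1| + |b1 - h5mu * p1| := rfl
    have h3 : h5Psi b p = |b + (h5mu - 1) * p| + |b - h5mu * p| := rfl
    rw [this]
    nlinarith only [a1, a2, a3, h3]
  have a5 : 10 * e * h5Psi b p ≤ h5mu ^ 2 * (10 * e * h5Psi b p) := by
    have : 0 ≤ 10 * e * h5Psi b p := by positivity
    nlinarith
  linarith only [a4, a5]


/-! ### The linear orbit -/

theorem h5_yS_fib (j : ℕ) (s : ℝ) : Real.pi * (Nat.fib (j + 2) : ℝ) * s =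
    Real.pi * (Nat.fib (j + 1) : ℝ) * s + Real.pi * (Nat.fib j : ℝ) * s := by
  have : (Nat.fib (j + 2) : ℝ) = Nat.fib j + Nat.fib (j + 1) := by
    exact_mod_cast Nat.fib_add_two
  rw [this]; ring

theorem h5_sin_add (a b : ℝ) : |Real.sin (a + b)| ≤ |Real.sin a| + |Real.sin b| := by
  rw [Real.sin_add]
  refine (abs_add_le _ _).trans ?_
  rw [abs_mul, abs_mul]
  have h1 := mul_le_mul_of_nonneg_left (Real.abs_cos_le_one b) (abs_nonneg (Real.sin a))
  have h2 := mul_le_mul_of_nonneg_right (Real.abs_cos_le_one a) (abs_nonneg (Real.sin b))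
  linarith only [h1, h2]

theorem h5_yS_a (j : ℕ) (s : ℝ) : yS (j + 2) s ≤ yS (j + 1) s + yS j s := by
  unfold yS
  rw [h5_yS_fib]
  exact h5_sin_add _ _

theorem h5_yS_b (j : ℕ) (s : ℝ) : yS j s ≤ yS (j + 1) s + yS (j + 2) s := by
  unfold yS
  have e : Real.pi * (Nat.fib j : ℝ) * s = Real.pi * (Nat.fib (j + 2) : ℝ) * s +
      -(Real.pi * (Nat.fib (j + 1) : ℝ) * s) := by rw [h5_yS_fib]; ring
  rw [e]
  refine (h5_sin_add _ _).trans ?_
  rw [Real.sin_neg, abs_neg]
  linarith

theorem h5_yS_c (j : ℕ) (s : ℝ) : yS (j + 1) s ≤ yS j s + yS (j + 2) s := by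
  unfold yS
  have e : Real.pi * (Nat.fib (j + 1) : ℝ) * s = Real.pi * (Nat.fib (j + 2) : ℝ) * s +
      -(Real.pi * (Nat.fib j : ℝ) * s) := by rw [h5_yS_fib]; ring
  rw [e]
  refine (h5_sin_add _ _).trans ?_
  rw [Real.sin_neg, abs_neg]
  linarith

theorem h5_yS_le (j : ℕ) (s : ℝ) : yS j s ≤ YS j s := le_max_left _ _

theorem h5_yS_le' (j : ℕ) (s : ℝ) : yS (j + 1) s ≤ YS j s := le_max_right _ _

theorem h5_yS_nonneg (j : ℕ) (s : ℝ) : 0 ≤ yS j s := abs_nonneg _

theorem h5_YS_le_one (j : ℕ) (s : ℝ) : YS j s ≤ 1 :=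
  max_le (Real.abs_sin_le_one _) (Real.abs_sin_le_one _)

theorem h5_YS_succ (j : ℕ) (s : ℝ) : YS (j + 1) s ≤ 2 * YS j s := by
  refine max_le ?_ ?_
  · linarith only [h5_yS_le' j s, h5_yS_nonneg (j + 1) s]
  · linarith only [h5_yS_a j s, h5_yS_le j s, h5_yS_le' j s]

theorem h5_YS_pred (j : ℕ) (s : ℝ) : YS j s ≤ 2 * YS (j + 1) s := by
  refine max_le ?_ ?_
  · linarith only [h5_yS_b j s, h5_yS_le (j + 1) s, h5_yS_le' (j + 1) s]
  · linarith only [h5_yS_le (j + 1) s, h5_yS_nonneg (j + 1) s]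

/-- The standing hypotheses. -/
structure h5H (lam t s : ℝ) (k : ℕ) : Prop where
  h0 : 0 < lam
  h1 : lam ≤ 1 / 100
  sig : ∀ j ≤ k, |(|Real.sin (TE lam t j)| - yS j s)| ≤ 70 * Real.sqrt lam
  X1 : ∀ j ≤ k, |X lam t j| ≤ 1 + lam / 2

section
variable {lam t s : ℝ} {k : ℕ}

theorem h5_sing (H : h5H lam t s k) (j : ℕ) (hj : j + 2 ≤ k)
    (hY : 10 ^ 6 * Real.sqrt lam ≤ YS (j + 1) s)
    (hs : |Real.sin (TE lam t (j + 1))| < YS (j + 1) s / 20) :
    9 / 10 * YS (j + 1) s ≤ |Real.sin (TE lam t j)| ∧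
      9 / 10 * YS (j + 1) s ≤ YS j s ∧ YS j s ≤ 11 / 10 * YS (j + 1) s ∧
      9 / 10 * YS (j + 1) s ≤ |Real.sin (TE lam t (j + 2))| ∧
      9 / 10 * YS (j + 1) s ≤ yS (j + 3) s ∧
      YS (j + 2) s ≤ 11 / 10 * YS (j + 1) s := by
  have a0 := abs_le.1 (H.sig j (by omega))
  have a1 := abs_le.1 (H.sig (j + 1) (by omega))
  have a2 := abs_le.1 (H.sig (j + 2) (by omega))
  set q := Real.sqrt lam
  set Y := YS (j + 1) s with hYd
  have hq : 0 < q := Real.sqrt_pos.2 H.h0
  have hYp : 0 < Y := by linarith only [hY, hq]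
  have b1 : yS (j + 1) s ≤ 51 / 1000 * Y := by linarith only [a1, hs, hY, hq]
  have b2 : yS (j + 2) s = Y := by
    have : YS (j + 1) s = max (yS (j + 1) s) (yS (j + 2) s) := rfl
    rcases max_choice (yS (j + 1) s) (yS (j + 2) s) with h | h
    · rw [hYd, this, h] at b1
      rw [hYd, this, h] at hYp
      linarith only [hYp, b1]
    · rw [hYd, this, h]
  have c1 := h5_yS_a j s
  have c2 := h5_yS_b j s
  have c3 := h5_yS_c (j + 1) s
  have c4 := h5_yS_a (j + 1) s
  have e3 : j + 1 + 2 = j + 3 := rfl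
  have e2 : j + 1 + 1 = j + 2 := rfl
  rw [e3, e2] at c3 c4
  have n1 := h5_yS_nonneg (j + 1) s
  refine ⟨?_, ?_, ?_, ?_, ?_, ?_⟩
  · linarith only [a0, a1, hs, hY, hq, b2, c1]
  · exact le_trans (by linarith only [a1, hs, hY, hq, b2, c1]) (h5_yS_le j s)
  · refine max_le (by linarith only [a1, hs, hY, hq, b2, c2]) (by linarith only [a1, hs, hY, hq])
  · linarith only [a2, hY, hq, b2]
  · linarith only [a1, hs, hY, hq, b2, c3]
  · refine max_le (by linarith only [hY, hq, b2]) ?_
    rw [show j + 2 + 1 = j + 3 from rfl]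
    linarith only [a1, hs, hY, hq, b2, c4]

theorem h5_bounds (H : h5H lam t s k) (j : ℕ) (hj : j + 2 ≤ k)
    (hY : 10 ^ 6 * Real.sqrt lam ≤ YS (j + 1) s) :
    |Real.sin (TE lam t j)| ≤ 3 * YS (j + 1) s ∧ |Real.sin (TE lam t (j + 1))| ≤ 3 * YS (j + 1) s ∧
      |Real.sin (TE lam t (j + 2))| ≤ 3 * YS (j + 1) s := by
  have a0 := abs_le.1 (H.sig j (by omega))
  have a1 := abs_le.1 (H.sig (j + 1) (by omega))
  have a2 := abs_le.1 (H.sig (j + 2) (by omega))
  have hq : 0 < Real.sqrt lam := Real.sqrt_pos.2 H.h0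
  have c1 := h5_yS_b j s
  have c2 := h5_yS_le (j + 1) s
  have c3 := h5_yS_le' (j + 1) s
  refine ⟨?_, ?_, ?_⟩ <;> linarith

/-- The potential of the state at level `n + 1`. -/
noncomputable def h5P (lam t : ℝ) (n : ℕ) : ℝ :=
  h5Psi (deriv (fun s => TE lam s (n + 1)) t) (deriv (fun s => psiE lam s (n + 1)) t)

theorem h5_der (H : h5H lam t s k) (n : ℕ) (hs : Real.sin (TE lam t (n + 1)) ≠ 0) :
    |X lam t (n + 1)| < 1 ∧
    HasDerivAt (fun s => TE lam s (n + 1)) (deriv (fun s => TE lam s (n + 1)) t) t ∧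
    HasDerivAt (fun s => psiE lam s (n + 1)) (deriv (fun s => psiE lam s (n + 1)) t) t := by
  have hx := (sin_TE_ne lam t H.h0.le (n + 1)).1 hs
  obtain ⟨d, -, hd, -⟩ := TE_deriv lam t H.h0.le H.h1 (n + 1) (by omega) hx
  obtain ⟨d', hd'⟩ := psi_deriv lam t H.h0 H.h1 (n + 1) (by omega) hx
  exact ⟨hx, hd.differentiableAt.hasDerivAt, hd'.differentiableAt.hasDerivAt⟩

theorem h5_cv (H : h5H lam t s k) (n : ℕ) (hn : n + 2 ≤ k)
    (hY : 10 ^ 6 * Real.sqrt lam ≤ YS (n + 1) s)
    (hs : YS (n + 1) s / 20 ≤ |Real.sin (TE lam t (n + 1))|) :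
    h5P lam t n * YS (n + 1) s ≤ 8000 * h5R lam t n ∧
      h5R lam t n ≤ 24 * YS (n + 1) s * h5P lam t n := by
  have hq : 0 < Real.sqrt lam := Real.sqrt_pos.2 H.h0
  have hYp : 0 < YS (n + 1) s := by linarith only [hY, hq]
  have hne : Real.sin (TE lam t (n + 1)) ≠ 0 := by
    intro h
    rw [h, abs_zero] at hs
    linarith only [hY, hs, hq]
  obtain ⟨hx, hb, hp⟩ := h5_der H n hne
  obtain ⟨g0, g1, g2⟩ := h5_bounds H n hn hY
  obtain ⟨c1, c2⟩ := h5_conv lam t H.h0 H.h1 n (YS (n + 1) s) _ _ hx hb hp hY hs g1 g0 g2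
  have l1 := h5Psi_lower (deriv (fun s => TE lam s (n + 1)) t) (deriv (fun s => psiE lam s (n + 1)) t)
  have l2 := h5Psi_upper (deriv (fun s => TE lam s (n + 1)) t) (deriv (fun s => psiE lam s (n + 1)) t)
  have m1 := mul_le_mul_of_nonneg_right l2 hYp.le
  have m2 := mul_le_mul_of_nonneg_left l1 hYp.le
  unfold h5P
  constructor
  · linarith only [c1, m1]
  · linarith only [c2, m2]

theorem h5_crude (H : h5H lam t s k) (n : ℕ) (hn : n + 2 ≤ k) :
    h5R lam t (n + 1) ≤ 5 * h5R lam t n := by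
  have x1 := H.X1 (n + 1) (by omega)
  have x2 := H.X1 (n + 2) (by omega)
  have hl := H.h1
  have e : h5V lam t (n + 3) = 2 * h5V lam t (n + 2) * X lam t (n + 1) +
      2 * X lam t (n + 2) * h5V lam t (n + 1) - h5V lam t n := by
    have h1 := h5V_has lam t n
    have h2 := h5V_has lam t (n + 1)
    have h3 := h5V_has lam t (n + 2)
    have h4 : HasDerivAt (fun s => X lam s (n + 3)) _ t :=
      (((h3.const_mul 2).mul h2).sub h1)
    rw [(h5V_has lam t (n + 3)).unique h4]
  have k1 : |h5V lam t (n + 3)| ≤ 2 * |h5V lam t (n + 2)| * (201 / 200) +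
      2 * (201 / 200) * |h5V lam t (n + 1)| + |h5V lam t n| := by
    rw [e]
    refine (abs_sub _ _).trans (add_le_add ((abs_add_le _ _).trans (add_le_add ?_ ?_)) le_rfl)
    · rw [abs_mul, abs_mul, abs_two]
      exact mul_le_mul_of_nonneg_left (by linarith only [x1, hl]) (by positivity)
    · rw [abs_mul, abs_mul, abs_two]
      exact mul_le_mul_of_nonneg_right (by linarith only [x2, hl]) (abs_nonneg _)
  have e1 : h5R lam t (n + 1) = |h5V lam t (n + 1)| + |h5V lam t (n + 2)| + |h5V lam t (n + 3)| := rfl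
  have e2 : h5R lam t n = |h5V lam t n| + |h5V lam t (n + 1)| + |h5V lam t (n + 2)| := rfl
  rw [e1, e2]
  have n0 := abs_nonneg (h5V lam t n)
  have n1 := abs_nonneg (h5V lam t (n + 1))
  have n2 := abs_nonneg (h5V lam t (n + 2))
  linarith only [k1, n0, n1, n2]


/-- The state predicate: bound `B` for the potential at level `n + 1`. -/
def h5G (lam t s Lam : ℝ) (n : ℕ) (B : ℝ) : Prop :=
  (YS (n + 1) s ≤ 4 * (Lam * Real.sqrt lam) ∧ h5R lam t n ≤ B * Real.sqrt lam) ∨
  (Lam * Real.sqrt lam < YS (n + 1) s ∧ YS (n + 1) s / 20 ≤ |Real.sin (TE lam t (n + 1))| ∧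
    h5P lam t n ≤ B) ∨
  (∃ m, n = m + 1 ∧ Lam * Real.sqrt lam < YS (n + 1) s ∧
    |Real.sin (TE lam t (n + 1))| < YS (n + 1) s / 20 ∧ h5mu * h5P lam t m ≤ B)

theorem h5P_nonneg (n : ℕ) : 0 ≤ h5P lam t n := h5Psi_nonneg _ _

theorem h5R_nonneg (n : ℕ) : 0 ≤ h5R lam t n := by unfold h5R; positivity

theorem phS_nonneg (j : ℕ) : 0 ≤ phS lam j s := by
  unfold phS
  split_ifs
  · norm_num
  · positivity

end

theorem h5_trans : ∃ C Lam : ℝ, 0 < C ∧ 10 ^ 7 ≤ Lam ∧ ∀ (lam t s : ℝ) (k : ℕ), h5H lam t s k →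
    ∀ n : ℕ, n + 3 ≤ k → ∀ B : ℝ, 0 ≤ B → h5G lam t s Lam n B →
      h5G lam t s Lam (n + 1) (h5mu * Real.exp (C * phS lam (n + 1) s) * B) := by
  obtain ⟨C1, K1, hC1, hK1, S1⟩ := step1
  obtain ⟨C2, K2, hC2, hK2, S2⟩ := step2
  set Lam : ℝ := 10 ^ 7 * (K1 + K2) with hLam
  have hL7 : 10 ^ 7 ≤ Lam := by rw [hLam]; nlinarith only [hK1, hK2]
  have hLK1 : 60 * K1 ≤ Lam := by rw [hLam]; nlinarith only [hK1, hK2]
  have hLK2 : 60 * K2 ≤ Lam := by rw [hLam]; nlinarith only [hK1, hK2]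
  have hLp : 0 < Lam := by linarith only [show (0:ℝ) < 10 ^ 7 by norm_num, hK1, hK2]
  set C : ℝ := 10 ^ 4 * Lam * (4 * Lam) ^ 4 + 10 * 60 ^ 4 * (C1 + C2) with hC
  have hCp : 0 < C := by rw [hC]; positivity
  refine ⟨C, Lam, hCp, hL7, ?_⟩
  intro lam t s k H n hn B hB hG
  have h0 := H.h0
  have h1 := H.h1
  set q := Real.sqrt lam with hq
  have hqp : 0 < q := Real.sqrt_pos.2 h0
  have hq2 : q ^ 2 = lam := Real.sq_sqrt h0.le
  set Y := YS (n + 1) s with hY
  set Y' := YS (n + 2) s with hY'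
  have m1 := h5mu_gt
  have m2 := h5mu_lt
  have yy1 : Y ≤ 2 * Y' := h5_YS_pred (n + 1) s
  have yy2 : Y' ≤ 2 * Y := h5_YS_succ (n + 1) s
  have hL6 : 10 ^ 6 * q ≤ Lam * q / 10 := by
    have := mul_le_mul_of_nonneg_right hL7 hqp.le
    linarith only [this]
  set ph := phS lam (n + 1) s with hph
  have hph0 : 0 ≤ ph := phS_nonneg _
  set E := Real.exp (C * ph) with hE
  have hE1 : 1 + C * ph ≤ E := by
    have := Real.add_one_le_exp (C * ph)
    linarith only [this]
  have hE0 : 1 ≤ E := by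
    have : 0 ≤ C * ph := by positivity
    linarith only [hE1, this]
  have hphB : Lam * q < Y → ph = lam ^ 2 / Y ^ 4 := by
    intro h
    rw [hph]
    unfold phS
    rw [if_neg]
    push Not
    have h3 : 10 ^ 6 * q < Y := by
      have : 0 < Lam * q := by positivity
      linarith only [hqp, hL6, h]
    have h4 : (10 ^ 6 * q) ^ 2 < Y ^ 2 := pow_lt_pow_left₀ h3 (by positivity) (by norm_num)
    rw [mul_pow, hq2] at h4
    have : ((10:ℝ) ^ 6) ^ 2 = 10 ^ 12 := by norm_num
    rw [this] at h4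
    exact h4
  have hphA : Y ≤ 4 * (Lam * q) → 10 ^ 4 * Lam ≤ E := by
    intro h
    have h2 : 1 / (4 * Lam) ^ 4 ≤ ph := by
      rw [hph]
      unfold phS
      split_ifs with h3
      · rw [div_le_one (by positivity)]
        exact one_le_pow₀ (by linarith only [show (1:ℝ) ≤ 10 ^ 7 by norm_num, hK1, hK2, h0, h1])
      · push Not at h3
        have hYp : 0 < YS (n + 1) s ^ 2 := lt_trans (by positivity) h3
        have hYn : 0 < YS (n + 1) s := by
          rcases lt_or_eq_of_le ((h5_yS_nonneg _ _).trans (h5_yS_le (n + 1) s)) with h5 | h5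
          · exact h5
          · rw [← h5] at hYp; norm_num at hYp
        rw [div_le_div_iff₀ (by positivity) (by positivity), one_mul]
        calc YS (n + 1) s ^ 4 ≤ (4 * (Lam * q)) ^ 4 := pow_le_pow_left₀ hYn.le h 4
          _ = lam ^ 2 * (4 * Lam) ^ 4 := by rw [← hq2]; ring
    have h3 : 10 ^ 4 * Lam ≤ C * ph := by
      have h4 : 10 ^ 4 * Lam * (4 * Lam) ^ 4 ≤ C := by
        rw [hC]
        have : 0 ≤ 10 * 60 ^ 4 * (C1 + C2) := by positivity
        linarith only [hC1, hC2, h0, h1]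
      calc 10 ^ 4 * Lam = (10 ^ 4 * Lam * (4 * Lam) ^ 4) * (1 / (4 * Lam) ^ 4) := by
            field_simp
        _ ≤ C * ph := mul_le_mul h4 h2 (by positivity) hCp.le
    linarith only [h0, h1, hE1, h3]
  have hexp : ∀ c : ℝ, 0 ≤ c → c ≤ C1 + C2 → Lam * q < Y →
      1 + 10 * (c * (lam ^ 2 / (Y / 60) ^ 4)) ≤ E := by
    intro c hc hc' hh
    have h3 : lam ^ 2 / (Y / 60) ^ 4 = 60 ^ 4 * ph := by
      rw [hphB hh]
      have : 0 < Y := lt_trans (by positivity) hh
      field_simp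
    rw [h3]
    have h4 : 10 * (c * (60 ^ 4 * ph)) ≤ C * ph := by
      have h5 : 10 * 60 ^ 4 * c ≤ C := by
        rw [hC]
        have : 0 ≤ 10 ^ 4 * Lam * (4 * Lam) ^ 4 := by positivity
        nlinarith only [hc', this]
      have := mul_le_mul_of_nonneg_right h5 hph0
      linarith only [this]
    linarith only [hE1, h4]
  set F := h5mu * E * B with hF
  have hF1 : h5mu * B ≤ F := by
    rw [hF]
    have : 0 ≤ h5mu * B := by positivity
    nlinarith only [h0, h1, hE0, this]
  have hFB : B ≤ F := by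
    have : 1 * B ≤ h5mu * B := mul_le_mul_of_nonneg_right (by linarith only [h0, h1, m1]) hB
    linarith only [hF1, this]
  have hFA : Y ≤ 4 * (Lam * q) → 10 ^ 4 * Lam * B ≤ F := by
    intro h
    have h3 := hphA h
    have h4 : 10 ^ 4 * Lam * B ≤ E * B := mul_le_mul_of_nonneg_right h3 hB
    have h5 : 0 ≤ E * B := by positivity
    rw [hF]
    nlinarith only [hB, h0, h1, m1, hFB, h4, h5]
  -- comparison with `B`
  have hdiv : ∀ (P y : ℝ), 0 ≤ P → Lam * q * 2 ≤ y → P * y ≤ 40000 * (B * q) → 2 * P ≤ B := by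
    intro P y hP hy hPy
    have h3 : P * (Lam * q * 2) ≤ P * y := mul_le_mul_of_nonneg_left hy hP
    have h4 : P * (10 ^ 7 * q * 2) ≤ P * (Lam * q * 2) := by
      apply mul_le_mul_of_nonneg_left _ hP
      have := mul_le_mul_of_nonneg_right hL7 hqp.le
      linarith only [hL6]
    have h5 : (2 * P) * q ≤ B * q := by
      have : 0 ≤ B * q := by positivity
      nlinarith only [hPy, h3, h4, this]
    exact le_of_mul_le_mul_right h5 hqp
  have hcr := h5_crude H n (by omega)
  rcases hG with ⟨hA1, hA2⟩ | ⟨hN1, hN2, hN3⟩ | ⟨m, rfl, hS1, hS2, hS3⟩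
  · -- type A
    have hF4 := hFA hA1
    have hR : h5R lam t (n + 1) ≤ 5 * (B * q) := by linarith only [hcr, hA2]
    by_cases hc : Y' ≤ 4 * (Lam * q)
    · left
      refine ⟨hc, ?_⟩
      have h3 : 10 ^ 4 * Lam * B * q ≤ F * q := mul_le_mul_of_nonneg_right hF4 hqp.le
      have h4 : 1 * (B * q) ≤ Lam * (B * q) :=
        mul_le_mul_of_nonneg_right (by linarith only [show (1:ℝ) ≤ 10 ^ 7 by norm_num, hK1, hK2, h0, h1]) (by positivity)
      have h5 : 0 ≤ B * q := by positivity
      linarith only [hcr, hA2, h3, h4, h5]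
    · push Not at hc
      have hc2 : 10 ^ 6 * q ≤ YS (n + 1 + 1) s := by
        have : 0 < Lam * q := by positivity
        have e : YS (n + 1 + 1) s = Y' := rfl
        rw [e]; linarith only [hqp, hL6, hc]
      have hLq : 0 < Lam * q := by positivity
      by_cases hns : Y' / 20 ≤ |Real.sin (TE lam t (n + 1 + 1))|
      · right; left
        refine ⟨?_, hns, ?_⟩
        · change Lam * q < Y'
          linarith only [hqp, hL6, hc]
        · obtain ⟨g1, -⟩ := h5_cv H (n + 1) (by omega) hc2 hns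
          have := hdiv (h5P lam t (n + 1)) Y' (h5P_nonneg _) (by linarith only [hqp, hL6, hc]) (by
            change h5P lam t (n + 1) * Y' ≤ _ at g1
            linarith only [hcr, hA2, g1])
          have := h5P_nonneg (lam := lam) (t := t) (n + 1)
          linarith
      · push Not at hns
        right; right
        obtain ⟨s1, s2, s3, s4, s5, s6⟩ := h5_sing H (n + 1) (by omega) hc2 hns
        change 9 / 10 * Y' ≤ _ at s1
        change 9 / 10 * Y' ≤ Y at s2
        change Y ≤ 11 / 10 * Y' at s3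
        refine ⟨n, rfl, ?_, hns, ?_⟩
        · change Lam * q < Y'
          linarith only [hqp, hL6, hc]
        · obtain ⟨g1, -⟩ := h5_cv H n (by omega) (show 10 ^ 6 * q ≤ Y by linarith only [hqp, hL6, hc, s2])
            (show Y / 20 ≤ _ by linarith only [hqp, yy1, hL6, hc, s1])
          have g2 := hdiv (h5P lam t n) Y (h5P_nonneg _) (by linarith only [hqp, hL6, hc, s2]) (by
            change h5P lam t n * Y ≤ _ at g1
            have : 0 ≤ B * q := by positivity
            linarith only [hA2, g1, this])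
          have g3 : h5mu * h5P lam t n ≤ 2 * h5P lam t n :=
            mul_le_mul_of_nonneg_right m2.le (h5P_nonneg _)
          linarith only [hFB, g2, g3]
  · -- type N
    have hLq : 0 < Lam * q := by positivity
    have hYp : 0 < Y := by linarith only [hqp, hL6, hN1]
    by_cases hc : Y' ≤ Lam * q
    · left
      refine ⟨by change Y' ≤ 4 * (Lam * q); linarith only [hqp, hL6, hc], ?_⟩
      have hF4 := hFA (by linarith only [hqp, yy1, hL6, hc])
      obtain ⟨-, g2⟩ := h5_cv H n (by omega) (show 10 ^ 6 * q ≤ Y by linarith only [hqp, hL6, hN1]) hN2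
      have g3 : 24 * Y * h5P lam t n ≤ 24 * (2 * (Lam * q)) * B := by
        apply mul_le_mul (by linarith only [yy1, hc]) hN3 (h5P_nonneg _) (by positivity)
      change h5R lam t n ≤ 24 * Y * h5P lam t n at g2
      have h3 : 10 ^ 4 * Lam * B * q ≤ F * q := mul_le_mul_of_nonneg_right hF4 hqp.le
      have : 0 ≤ Lam * q * B := by positivity
      linarith only [hcr, g3, g2, h3, this]
    · push Not at hc
      by_cases hns : Y' / 20 ≤ |Real.sin (TE lam t (n + 1 + 1))|
      · right; left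
        refine ⟨hc, hns, ?_⟩
        have hne1 : Real.sin (TE lam t (n + 1)) ≠ 0 := by
          intro h
          change Y / 20 ≤ _ at hN2
          rw [h, abs_zero] at hN2
          linarith only [hqp, hL6, hN1, hN2]
        have hne2 : Real.sin (TE lam t (n + 1 + 1)) ≠ 0 := by
          intro h
          rw [h, abs_zero] at hns
          linarith only [hqp, yy1, hL6, hN1, hns]
        obtain ⟨-, db, dp⟩ := h5_der H n hne1
        obtain ⟨-, db1, dp1⟩ := h5_der H (n + 1) hne2
        have hw1 : Y / 60 ≤ 1 := by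
          have := h5_YS_le_one (n + 1) s
          change Y ≤ 1 at this
          linarith only [hqp, hL6, hN1, this]
        have hKw : K1 * Real.sqrt lam ≤ Y / 60 := by
          have := mul_le_mul_of_nonneg_right hLK1 hqp.le
          change K1 * q ≤ Y / 60
          linarith only [hN1, this]
        obtain ⟨t1, t2⟩ := S1 lam (Y / 60) t h0 h1 (by positivity) hw1 hKw (n + 1) (by omega)
          (by change Y / 20 ≤ _ at hN2; linarith only [hqp, hL6, hN1, hN2]) (by linarith only [hqp, yy1, hL6, hN1, hns]) _ _ _ _ db dp db1 dp1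
        have t3 := h5Psi_step1 _ _ _ _ (C1 * (lam ^ 2 / (Y / 60) ^ 4)) (by positivity) t1 t2
        have t4 := hexp C1 (by linarith only [hC1, hqp, hL6, hN1, hw1]) (by linarith only [hC2, hqp, hL6, hN1, hw1]) hN1
        calc h5P lam t (n + 1) ≤ h5mu * (1 + 10 * (C1 * (lam ^ 2 / (Y / 60) ^ 4))) * h5P lam t n := t3
          _ ≤ h5mu * E * B := by
              apply mul_le_mul _ hN3 (h5P_nonneg _) (by positivity)
              exact mul_le_mul_of_nonneg_left t4 (by linarith only [hqp, m1, hL6, hN1, hw1])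
      · push Not at hns
        right; right
        refine ⟨n, rfl, hc, hns, ?_⟩
        have : h5mu * h5P lam t n ≤ h5mu * B := mul_le_mul_of_nonneg_left hN3 (by linarith only [h0, h1, m1])
        linarith only [hF1, this]
  · -- type S
    have hLq : 0 < Lam * q := by positivity
    change Lam * q < Y at hS1
    have hYp : 0 < Y := by linarith only [hqp, hL6, hS1]
    have hY6 : 10 ^ 6 * q ≤ Y := by linarith only [hqp, hL6, hS1]
    obtain ⟨s1, s2, s3, s4, s5, s6⟩ := h5_sing H (m + 1) (by omega) hY6 hS2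
    change 9 / 10 * Y ≤ _ at s1
    change 9 / 10 * Y ≤ _ at s2
    change _ ≤ 11 / 10 * Y at s3
    change 9 / 10 * Y ≤ _ at s4
    change 9 / 10 * Y ≤ _ at s5
    change Y' ≤ 11 / 10 * Y at s6
    have hPm : h5P lam t m ≤ B := by
      have : 1 * h5P lam t m ≤ h5mu * h5P lam t m :=
        mul_le_mul_of_nonneg_right (by linarith only [h0, h1, m1]) (h5P_nonneg _)
      linarith only [hS3, this]
    by_cases hc : Y' ≤ Lam * q
    · left
      refine ⟨by change Y' ≤ 4 * (Lam * q); linarith only [hqp, hL6, hc], ?_⟩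
      have hF4 := hFA (by linarith only [hqp, hL6, yy1, hc])
      obtain ⟨-, g2⟩ := h5_cv H m (by omega) (show 10 ^ 6 * q ≤ YS (m + 1) s by linarith only [hqp, hL6, hS1, s2])
        (by linarith only [hqp, hL6, hS1, s1, s3])
      have hcr2 := h5_crude H m (by omega)
      have g3 : 24 * YS (m + 1) s * h5P lam t m ≤ 24 * (11 / 10 * (2 * (Lam * q))) * B := by
        apply mul_le_mul (by linarith only [yy1, s3, hc]) hPm (h5P_nonneg _) (by positivity)
      have h3 : 10 ^ 4 * Lam * B * q ≤ F * q := mul_le_mul_of_nonneg_right hF4 hqp.le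
      have : 0 ≤ Lam * q * B := by positivity
      linarith only [hcr, g2, hcr2, g3, h3, this]
    · push Not at hc
      have s4' : 9 / 10 * Y ≤ |Real.sin (TE lam t (m + 1 + 1 + 1))| := s4
      have hns : Y' / 20 ≤ |Real.sin (TE lam t (m + 1 + 1 + 1))| := by linarith only [hqp, hL6, hS1, s4, s6]
      right; left
      refine ⟨hc, hns, ?_⟩
      have hne1 : Real.sin (TE lam t (m + 1)) ≠ 0 := by
        intro h
        rw [h, abs_zero] at s1
        linarith only [hqp, hL6, hS1, s1]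
      have hne2 : Real.sin (TE lam t (m + 1 + 1 + 1)) ≠ 0 := by
        intro h
        rw [h, abs_zero] at hns
        linarith only [hqp, hL6, yy1, hS1, hns]
      obtain ⟨-, db, dp⟩ := h5_der H m hne1
      obtain ⟨-, db1, dp1⟩ := h5_der H (m + 1 + 1) hne2
      have hw1 : Y / 60 ≤ 1 := by
        have := h5_YS_le_one (m + 1 + 1) s
        change Y ≤ 1 at this
        linarith only [hqp, hL6, hS1, this]
      have hKw : K2 * Real.sqrt lam ≤ Y / 60 := by
        have := mul_le_mul_of_nonneg_right hLK2 hqp.le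
        change K2 * q ≤ Y / 60
        linarith only [hS1, this]
      have hs4 : Y / 60 ≤ |Real.sin (TE lam t (m + 1 + 3))| := by
        have := (abs_le.1 (H.sig (m + 1 + 3) (by omega))).1
        change -(70 * q) ≤ _ at this
        have e : yS (m + 1 + 3) s = yS (m + 1 + 3) s := rfl
        linarith only [hqp, hL6, hS1, s5, this]
      obtain ⟨t1, t2⟩ := S2 lam (Y / 60) t h0 h1 (by positivity) hw1 hKw (m + 1) (by omega)
        (by linarith only [hqp, hL6, hS1, s1]) (by change Y / 60 ≤ |Real.sin (TE lam t (m + 1 + 1 + 1))|; linarith only [hqp, hL6, hS1, s4]) hs4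
        _ _ _ _ db dp db1 dp1
      have t3 := h5Psi_step2 _ _ _ _ (C2 * (lam ^ 2 / (Y / 60) ^ 4)) (by positivity) t1 t2
      have t4 := hexp C2 (by linarith only [hC2, hqp, hL6, hS1, hw1]) (by linarith only [hC1, hqp, hL6, hS1, hw1]) hS1
      calc h5P lam t (m + 1 + 1) ≤
            h5mu ^ 2 * (1 + 10 * (C2 * (lam ^ 2 / (Y / 60) ^ 4))) * h5P lam t m := t3
        _ = (h5mu * (1 + 10 * (C2 * (lam ^ 2 / (Y / 60) ^ 4)))) * (h5mu * h5P lam t m) := by ring
        _ ≤ h5mu * E * B := by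
            apply mul_le_mul _ hS3 _ (by positivity)
            · exact mul_le_mul_of_nonneg_left t4 (by linarith only [hqp, m1, hL6, hS1, hw1])
            · have := h5P_nonneg (lam := lam) (t := t) m
              positivity


theorem h5G_mono (lam t s Lam : ℝ) (n : ℕ) (B B' : ℝ) (h : h5G lam t s Lam n B) (hB : B ≤ B') :
    h5G lam t s Lam n B' := by
  rcases h with ⟨h1, h2⟩ | ⟨h1, h2, h3⟩ | ⟨m, h0, h1, h2, h3⟩
  · exact Or.inl ⟨h1, h2.trans (mul_le_mul_of_nonneg_right hB (Real.sqrt_nonneg _))⟩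
  · exact Or.inr (Or.inl ⟨h1, h2, h3.trans hB⟩)
  · exact Or.inr (Or.inr ⟨m, h0, h1, h2, h3.trans hB⟩)

theorem h5_fib (n : ℕ) : h5mu ^ n ≤ (Nat.fib (n + 2) : ℝ) ∧
    h5mu ^ (n + 1) ≤ (Nat.fib (n + 3) : ℝ) := by
  have m2 := h5mu_lt
  induction n with
  | zero =>
    constructor
    · norm_num [Nat.fib]
    · have : (Nat.fib (0 + 3) : ℝ) = 2 := by norm_num [Nat.fib]
      rw [this]; simp; linarith only [m2]
  | succ n ih =>
    refine ⟨ih.2, ?_⟩
    have e : (Nat.fib (n + 1 + 3) : ℝ) = Nat.fib (n + 2) + Nat.fib (n + 3) := by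
      exact_mod_cast Nat.fib_add_two
    have e2 : h5mu ^ (n + 1 + 1) = h5mu ^ n + h5mu ^ (n + 1) := by
      have := h5mu_sq
      have e3 : h5mu ^ (n + 1 + 1) = h5mu ^ n * h5mu ^ 2 := by ring
      rw [e3, this]; ring
    rw [e, e2]
    exact add_le_add ih.1 ih.2

theorem h5_X_le (lam t : ℝ) (h0 : 0 < lam) (k : ℕ) (hx : |X lam t k| < 1) (j : ℕ) (hj : j ≤ k) :
    |X lam t j| ≤ 1 + lam / 2 := by
  have hSt := St_energy lam t h0.le
  rcases Nat.lt_or_ge j k with hjk | hjk
  swap
  · have : j = k := le_antisymm hj hjk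
    rw [this]; linarith only [h0, hx]
  rcases j with _ | j
  · change |(1:ℝ)| ≤ _
    rw [abs_one]; linarith only [h0]
  by_contra hcon
  push Not at hcon
  have hj1 : 1 ≤ |X lam t (j + 1)| := by linarith only [h0, hcon]
  have hj2 : |X lam t (j + 2)| < 1 := by
    by_contra h
    push Not at h
    have := escape_all hSt j hj1 h k (by omega)
    linarith only [hx, this]
  rcases j with _ | j
  · have e1 : X lam t (0 + 1) = -t / 2 := rfl
    have e2 : X lam t (0 + 2) = -(t + lam) / 2 := rfl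
    rw [e1] at hcon
    rw [e2] at hj2
    have e3 : -t / 2 = -(t + lam) / 2 + lam / 2 := by ring
    have h3 := abs_add_le (-(t + lam) / 2) (lam / 2)
    rw [← e3, abs_of_pos (by linarith only [h0] : 0 < lam / 2)] at h3
    linarith only [hcon, hj2, h3]
  · have hj0 : |X lam t (j + 1)| < 1 := by
      by_contra h
      push Not at h
      have := escape_all hSt j h hj1 k (by omega)
      linarith only [hx, this]
    have := mid_bound hSt h0.le (j + 1) hj0 hj2
    linarith only [hcon, this]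

theorem h5_H (lam t : ℝ) (h0 : 0 < lam) (h1 : lam ≤ 1 / 100) (k : ℕ) (hk : 1 ≤ k)
    (hx : |X lam t k| < 1) :
    h5H lam t (TE lam t k / (Real.pi * (Nat.fib k : ℝ))) k where
  h0 := h0
  h1 := h1
  X1 := h5_X_le lam t h0 k hx
  sig := by
    intro j hj
    have h2 := TE_lin lam t h0.le h1 k hk j hj
    have hf : (Nat.fib k : ℝ) ≠ 0 := by
      have := Nat.fib_pos.mpr (by omega : 0 < k)
      positivity
    have e : Real.pi * (Nat.fib j : ℝ) * (TE lam t k / (Real.pi * (Nat.fib k : ℝ))) =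
        (Nat.fib j : ℝ) / (Nat.fib k : ℝ) * TE lam t k := by
      have := Real.pi_ne_zero
      field_simp
    unfold yS
    rw [e]
    refine (abs_abs_sub_abs_le_abs_sub _ _).trans (le_trans ?_ h2)
    exact Real.abs_sin_sub_sin_le _ _

theorem growth : ∃ C lam1 : ℝ, 0 < C ∧ 0 < lam1 ∧ lam1 ≤ 1 / 100 ∧
    ∀ lam : ℝ, 0 < lam → lam ≤ lam1 → ∃ Cl : ℝ, 0 < Cl ∧ ∀ k : ℕ, 1 ≤ k → ∀ t : ℝ,
      |X lam t k| < 1 →
      |deriv (fun s => X lam s k) t| ≤ Cl * (Nat.fib k : ℝ) *
        Real.exp (C * ∑ j ∈ Finset.range k, phS lam j (TE lam t k / (Real.pi * (Nat.fib k : ℝ)))) := by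
  obtain ⟨C, Lam, hC, hL, T⟩ := h5_trans
  refine ⟨C, 1 / 100, hC, by norm_num, le_rfl, fun lam h0 h1 => ?_⟩
  set q := Real.sqrt lam with hq
  have hqp : 0 < q := Real.sqrt_pos.2 h0
  have hq1 : q ≤ 1 := by
    rw [hq, Real.sqrt_le_iff]
    constructor <;> linarith only [h0, h1]
  refine ⟨120 / q, by positivity, fun k hk t hx => ?_⟩
  set s := TE lam t k / (Real.pi * (Nat.fib k : ℝ)) with hs
  have H : h5H lam t s k := h5_H lam t h0 h1 k hk hx
  have hLp : 0 < Lam := by linarith only [show (0:ℝ) < 10 ^ 7 by norm_num, hL, h0, h1]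
  have hm := h5mu_gt
  have hph : ∀ j, 0 ≤ phS lam j s := fun j => phS_nonneg j
  have hexp1 : 1 ≤ Real.exp (C * ∑ j ∈ Finset.range k, phS lam j s) := by
    rw [Real.one_le_exp_iff]
    exact mul_nonneg hC.le (Finset.sum_nonneg fun j _ => hph j)
  have v1 : h5V lam t 1 = -1 / 2 := by
    have : HasDerivAt (fun s => X lam s 1) (-1 / 2) t := by
      change HasDerivAt (fun s : ℝ => -s / 2) (-1 / 2) t
      simpa using ((hasDerivAt_id t).neg).div_const 2
    exact (h5V_has lam t 1).unique this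
  have v0 : h5V lam t 0 = 0 := by
    have : HasDerivAt (fun s => X lam s 0) 0 t := by
      change HasDerivAt (fun s : ℝ => (1:ℝ)) 0 t
      exact hasDerivAt_const t 1
    exact (h5V_has lam t 0).unique this
  have v2 : h5V lam t 2 = -1 / 2 := by
    have : HasDerivAt (fun s => X lam s 2) (-1 / 2) t := by
      change HasDerivAt (fun s : ℝ => -(s + lam) / 2) (-1 / 2) t
      simpa using (((hasDerivAt_id t).add_const lam).neg).div_const 2
    exact (h5V_has lam t 2).unique this
  have hq120 : 1 ≤ 1 / q := by rw [le_div_iff₀ hqp]; linarith only [hq1]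
  change |h5V lam t k| ≤ _
  rcases Nat.lt_or_ge k 2 with hk2 | hk2
  · have : k = 1 := by omega
    subst this
    rw [v1]
    have e : |(-1 / 2 : ℝ)| = 1 / 2 := by norm_num [abs_div]
    rw [e]
    have : (Nat.fib 1 : ℝ) = 1 := by norm_num [Nat.fib]
    rw [this]
    have e2 : 120 / q = 120 * (1 / q) := by ring
    rw [e2]
    nlinarith only [h0, h1, hq120, hexp1]
  -- the induction
  have base : h5G lam t s Lam 0 (1 / q) := by
    have hR : h5R lam t 0 = 1 := by
      unfold h5R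
      change |h5V lam t 0| + |h5V lam t 1| + |h5V lam t 2| = 1
      rw [v0, v1, v2]
      norm_num [abs_div]
    by_cases hc : YS (0 + 1) s ≤ 4 * (Lam * q)
    · left
      refine ⟨hc, ?_⟩
      rw [hR]
      have : 1 / q * Real.sqrt lam = 1 := by rw [← hq]; field_simp
      rw [this]
    · push Not at hc
      right; left
      have hLq : 0 < Lam * q := by positivity
      have hL7 : 10 ^ 7 * q ≤ Lam * q := mul_le_mul_of_nonneg_right hL hqp.le
      have hY6 : 10 ^ 6 * Real.sqrt lam ≤ YS (0 + 1) s := by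
        change 10 ^ 6 * q ≤ _
        linarith only [hqp, hc, hL7]
      have e1 : YS (0 + 1) s = yS 1 s := by
        have : yS (0 + 1 + 1) s = yS 1 s := by
          unfold yS
          norm_num [Nat.fib]
        unfold YS
        rw [this]
        exact max_self _
      have hns : YS (0 + 1) s / 20 ≤ |Real.sin (TE lam t (0 + 1))| := by
        have := (abs_le.1 (H.sig 1 hk)).1
        change -(70 * q) ≤ |Real.sin (TE lam t (0 + 1))| - _ at this
        rw [← e1] at this
        linarith only [hqp, hc, hL7, this]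
      refine ⟨by change Lam * q < _; linarith only [hqp, hc, hL7], hns, ?_⟩
      obtain ⟨g1, -⟩ := h5_cv H 0 (by omega) hY6 hns
      rw [hR] at g1
      rw [le_div_iff₀ hqp]
      have g2 : h5P lam t 0 * (4 * (Lam * q)) ≤ h5P lam t 0 * YS (0 + 1) s :=
        mul_le_mul_of_nonneg_left hc.le (h5P_nonneg _)
      have g3 : h5P lam t 0 * (10 ^ 7 * q) ≤ h5P lam t 0 * (Lam * q) :=
        mul_le_mul_of_nonneg_left hL7 (h5P_nonneg _)
      linarith only [h0, h1, g1, g2, g3]
  have ind : ∀ n : ℕ, n + 2 ≤ k → h5G lam t s Lam n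
      (h5mu ^ n * Real.exp (C * ∑ j ∈ Finset.range (n + 1), phS lam j s) * (1 / q)) := by
    intro n
    induction n with
    | zero =>
      intro _
      refine h5G_mono _ _ _ _ _ _ _ base ?_
      have : 1 ≤ Real.exp (C * ∑ j ∈ Finset.range (0 + 1), phS lam j s) := by
        rw [Real.one_le_exp_iff]
        exact mul_nonneg hC.le (Finset.sum_nonneg fun j _ => hph j)
      rw [pow_zero, one_mul]
      nlinarith only [h0, h1, hq120, this]
    | succ n ih =>
      intro hn
      have h3 := T lam t s k H n (by omega) _ (by positivity) (ih (by omega))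
      refine h5G_mono _ _ _ _ _ _ _ h3 (le_of_eq ?_)
      rw [Finset.sum_range_succ _ (n + 1), mul_add, Real.exp_add, pow_succ]
      ring
  obtain ⟨n, rfl⟩ : ∃ n, k = n + 2 := ⟨k - 2, by omega⟩
  have hG := ind n le_rfl
  set B := h5mu ^ n * Real.exp (C * ∑ j ∈ Finset.range (n + 1), phS lam j s) * (1 / q) with hB
  have hB0 : 0 ≤ B := by positivity
  have hVR : |h5V lam t (n + 2)| ≤ h5R lam t n := by
    unfold h5R; linarith only [abs_nonneg (h5V lam t (n + 1)), abs_nonneg (h5V lam t n)]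
  have hL7 : 10 ^ 7 * q ≤ Lam * q := mul_le_mul_of_nonneg_right hL hqp.le
  have key : |h5V lam t (n + 2)| ≤ 120 * B := by
    rcases hG with ⟨hA1, hA2⟩ | ⟨hN1, hN2, hN3⟩ | ⟨m, rfl, hS1, hS2, hS3⟩
    · have : B * Real.sqrt lam ≤ B * 1 := mul_le_mul_of_nonneg_left hq1 hB0
      linarith only [hB0, hVR, hA2, this]
    · change Lam * q < _ at hN1
      obtain ⟨-, g2⟩ := h5_cv H n (by omega) (show 10 ^ 6 * q ≤ _ by linarith only [hqp, hL7, hN1]) hN2
      have hY := h5_YS_le_one (n + 1) s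
      have g3 : 24 * YS (n + 1) s * h5P lam t n ≤ 24 * 1 * B := by
        apply mul_le_mul (by linarith only [hY]) hN3 (h5P_nonneg _) (by norm_num)
      linarith only [hB0, hVR, g2, g3]
    · change Lam * q < _ at hS1
      have hY6 : 10 ^ 6 * Real.sqrt lam ≤ YS (m + 1 + 1) s := by
        change 10 ^ 6 * q ≤ _
        linarith only [hqp, hL7, hS1]
      obtain ⟨s1, s2, s3, s4, s5, s6⟩ := h5_sing H (m + 1) (by omega) hY6 hS2
      obtain ⟨-, g2⟩ := h5_cv H m (by omega) (show 10 ^ 6 * q ≤ _ by linarith only [hqp, hL7, hS1, s2]) (by linarith only [hqp, hL7, hS1, s1, s3])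
      have hcr := h5_crude H m (by omega)
      have hY := h5_YS_le_one (m + 1) s
      have hPm : h5P lam t m ≤ B := by
        have : 1 * h5P lam t m ≤ h5mu * h5P lam t m :=
          mul_le_mul_of_nonneg_right (by linarith only [hqp, hm, hL7, hS1, s2, hY]) (h5P_nonneg _)
        linarith only [hS3, this]
      have g3 : 24 * YS (m + 1) s * h5P lam t m ≤ 24 * 1 * B := by
        apply mul_le_mul (by linarith only [hY]) hPm (h5P_nonneg _) (by norm_num)
      linarith only [hVR, g2, hcr, g3]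
  refine key.trans ?_
  have f1 := (h5_fib n).1
  have f2 : Real.exp (C * ∑ j ∈ Finset.range (n + 1), phS lam j s) ≤
      Real.exp (C * ∑ j ∈ Finset.range (n + 2), phS lam j s) := by
    apply Real.exp_le_exp.2
    apply mul_le_mul_of_nonneg_left _ hC.le
    rw [Finset.sum_range_succ _ (n + 1)]
    linarith only [hph (n + 1), hph]
  have f3 : h5mu ^ n * Real.exp (C * ∑ j ∈ Finset.range (n + 1), phS lam j s) ≤
      (Nat.fib (n + 2) : ℝ) * Real.exp (C * ∑ j ∈ Finset.range (n + 2), phS lam j s) :=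
    mul_le_mul f1 f2 (Real.exp_pos _).le (by positivity)
  have e : 120 / q * (Nat.fib (n + 2) : ℝ) *
      Real.exp (C * ∑ j ∈ Finset.range (n + 2), phS lam j s) =
      120 * ((Nat.fib (n + 2) : ℝ) * Real.exp (C * ∑ j ∈ Finset.range (n + 2), phS lam j s) *
        (1 / q)) := by ring
  rw [e, hB]
  have := mul_le_mul_of_nonneg_right f3 (by positivity : (0:ℝ) ≤ 1 / q)
  linarith only [this]

end SF
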