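import Pool.Agent.Helper65.SF.SM
import Pool.Agent.Helper65.SF.SG3

/-!
# SF-S1: lower tail of the band lengths, local mass

Proof in words.
`S1_tail`: for a.e. s in (0,1) (`sin (pi f_k s) ≠ 0`), `t = EE lam k s` has `TE lam t k = pi f_k s`, `|X| < 1`; `growth` and
Markov's inequality for the exponential moment: with the constants `C1` of `growth`, `c, C2` of `moment`, the set is
contained in `{C1 sum phS >= y - log Cl}`, so the measure is `<= exp (-(c/log(1/lam)) (y - log Cl)/C1) * Cl' exp (C2 lam k)`.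
`local_mass`: band i of level k = `s in (i/f_k, (i+1)/f_k)`, `i < f_k`.  Call it bad if its length in t,
`|EE k ((i+1)/f_k -) - EE k (i/f_k +)| = int_band (pi f_k / TE') ds`, is less than `exp (-y)/(Cl fib k)`.
`TE' = |X'|/|sin|`, so if more than a quarter of the `s` in the band have `|X_k'| < f_k e^y` then, together with
`|sin (pi f_k s)| >= 1/2` (on 2/3 of the band), the length is at least `c e^(-y)/f_k`.  So for a bad band at least 3/4 of the s
are in the set of `S1_tail`, and the number of bad bands is `<= 2 f_k vol`.  Let T be the set of s such that no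
bad band meets `[s - 4/f_k, s + 4/f_k]`; the measure of its complement is `<= 12 * (number of bad bands)/f_k`.
Let `s in T`, `n >= k`, `s' - s >= 3/f_k` (other sign symmetric), `t = EE n s`, `t' = EE n s'`.  `TE lam . k` is within
`70 sqrt lam` of `pi f_k s`, resp. `pi f_k s'` (`TE_lin` for n; note `TE lam (EE n s) n = pi f_n s`), so between t and
t' the function `TE k` passes completely through a band `[pi i, pi (i+1)]` with `|i/f_k - s| <= 3/f_k`, hence
`t' - t >=` length of that band.
-/

namespace SF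

open MeasureTheory

theorem s1_yS_cont (j : ℕ) : Continuous (yS j) := by
  unfold yS
  fun_prop

theorem s1_YS_cont (j : ℕ) : Continuous (YS j) :=
  (s1_yS_cont j).max (s1_yS_cont (j + 1))

theorem s1_phS_meas (lam : ℝ) (j : ℕ) : Measurable (phS lam j) := by
  unfold phS
  apply Measurable.ite
  · exact measurableSet_le ((s1_YS_cont j).measurable.pow_const 2) measurable_const
  · exact measurable_const
  · exact measurable_const.div ((s1_YS_cont j).measurable.pow_const 4)

theorem s1_phS_nonneg (lam : ℝ) (j : ℕ) (s : ℝ) : 0 ≤ phS lam j s := by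
  unfold phS
  split_ifs <;> positivity

theorem s1_phS_le (lam : ℝ) (h : 0 < lam) (j : ℕ) (s : ℝ) : phS lam j s ≤ 1 := by
  unfold phS
  split_ifs with h1
  · exact le_rfl
  · push Not at h1
    have h2 : lam ≤ YS j s ^ 2 := by nlinarith
    have h3 : lam ^ 2 ≤ YS j s ^ 4 := by
      have : (YS j s) ^ 4 = (YS j s ^ 2) ^ 2 := by ring
      rw [this]
      exact pow_le_pow_left₀ h.le h2 2
    have h4 : 0 < YS j s ^ 4 := lt_of_lt_of_le (by positivity) h3
    exact (div_le_one h4).mpr h3

theorem s1_integrable (lam σ : ℝ) (h : 0 < lam) (hσ : 0 ≤ σ) (k : ℕ) :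
    IntegrableOn (fun s => Real.exp (σ * ∑ j ∈ Finset.range k, phS lam j s)) (Set.Ioc 0 1) volume := by
  have hm : Measurable (fun s => Real.exp (σ * ∑ j ∈ Finset.range k, phS lam j s)) := by
    apply Real.measurable_exp.comp
    apply Measurable.const_mul
    exact Finset.measurable_sum _ (fun j _ => s1_phS_meas lam j)
  apply Measure.integrableOn_of_bounded (M := Real.exp (σ * k))
  · simp
  · exact hm.aestronglyMeasurable
  · apply Filter.Eventually.of_forall
    intro s
    rw [Real.norm_eq_abs, abs_of_pos (Real.exp_pos _)]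
    apply Real.exp_le_exp.mpr
    apply mul_le_mul_of_nonneg_left _ hσ
    calc ∑ j ∈ Finset.range k, phS lam j s ≤ ∑ j ∈ Finset.range k, (1 : ℝ) :=
          Finset.sum_le_sum (fun j _ => s1_phS_le lam h j s)
      _ = k := by simp

/-- The zero set of `sin (pi f s)` is null. -/
theorem s1_null (f : ℝ) (hf : 0 < f) : volume {s : ℝ | Real.sin (Real.pi * f * s) = 0} = 0 := by
  apply Set.Countable.measure_zero
  apply (Set.countable_range (fun n : ℤ => (n : ℝ) / f)).mono
  intro s hs
  obtain ⟨n, hn⟩ := Real.sin_eq_zero_iff.mp hs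
  refine ⟨n, ?_⟩
  have : (n : ℝ) * Real.pi = (f * s) * Real.pi := by rw [hn]; ring
  have h2 : (n : ℝ) = f * s := mul_right_cancel₀ Real.pi_ne_zero this
  simp only
  rw [h2]
  field_simp

theorem S1_tail : ∃ c C lam1 : ℝ, 0 < c ∧ 0 < C ∧ 0 < lam1 ∧ lam1 ≤ 1 / 100 ∧
    ∀ lam : ℝ, 0 < lam → lam ≤ lam1 → ∃ Cl : ℝ, 0 < Cl ∧ ∀ k : ℕ, 1 ≤ k → ∀ y : ℝ, 0 ≤ y →
      volume {s : ℝ | s ∈ Set.Ioo 0 1 ∧
        (Nat.fib k : ℝ) * Real.exp y ≤ |deriv (fun t => X lam t k) (EE lam k s)|}
      ≤ ENNReal.ofReal (Cl * Real.exp (-(c / Real.log (1 / lam)) * y + C * lam * k)) := by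
  obtain ⟨C1, lamg, hC1, hlg, hlg1, hg⟩ := growth
  obtain ⟨c2, C2, lamm, hc2, hC2, hlm, hlm1, hm⟩ := moment
  refine ⟨c2 / C1, C2, min lamg lamm, by positivity, hC2, lt_min hlg hlm,
    (min_le_left _ _).trans hlg1, ?_⟩
  intro lam h0 h1
  have hlamg : lam ≤ lamg := h1.trans (min_le_left _ _)
  have hlamm : lam ≤ lamm := h1.trans (min_le_right _ _)
  have hlam : lam ≤ 1 / 100 := hlamg.trans hlg1
  obtain ⟨Cg, hCg, hg⟩ := hg lam h0 hlamg
  obtain ⟨Cm, hCm, hm⟩ := hm lam h0 hlamm
  have hL : 0 < Real.log (1 / lam) := by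
    apply Real.log_pos
    rw [lt_div_iff₀ h0]
    linarith
  set L := Real.log (1 / lam) with hLdef
  refine ⟨Cm * Real.exp (c2 / C1 / L * Real.log Cg), by positivity, ?_⟩
  intro k hk y hy
  have hf : (0:ℝ) < (Nat.fib k : ℝ) := by exact_mod_cast Nat.fib_pos.mpr (by omega)
  set F : ℝ → ℝ := fun s => Real.exp (c2 / L * ∑ j ∈ Finset.range k, phS lam j s) with hF
  have hFi : IntegrableOn F (Set.Ioc 0 1) volume :=
    s1_integrable lam (c2 / L) h0 (by positivity) k
  set a : ℝ := Real.exp (c2 / C1 / L * (y - Real.log Cg)) with ha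
  have hapos : 0 < a := Real.exp_pos _
  have hmark : volume {s : ℝ | s ∈ Set.Ioo 0 1 ∧ a ≤ F s} ≤ ENNReal.ofReal ((∫ s in Set.Ioc (0:ℝ) 1, F s) / a) := by
    have h2 := mul_meas_ge_le_integral_of_nonneg (μ := volume.restrict (Set.Ioc (0:ℝ) 1)) (f := F)
      (Filter.Eventually.of_forall fun s => (Real.exp_pos _).le) hFi a
    have hfin : (volume.restrict (Set.Ioc (0:ℝ) 1)) {x | a ≤ F x} ≠ ⊤ := by
      apply ne_of_lt
      refine lt_of_le_of_lt (measure_mono (Set.subset_univ _)) ?_
      rw [Measure.restrict_apply MeasurableSet.univ]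
      simp
    have h3 : volume {s : ℝ | s ∈ Set.Ioo 0 1 ∧ a ≤ F s}
        ≤ (volume.restrict (Set.Ioc (0:ℝ) 1)) {x | a ≤ F x} := by
      refine le_trans ?_ (Measure.le_restrict_apply _ _)
      apply measure_mono
      intro s hs
      exact ⟨hs.2, ⟨hs.1.1, hs.1.2.le⟩⟩
    refine h3.trans ?_
    rw [← ENNReal.ofReal_toReal hfin]
    apply ENNReal.ofReal_le_ofReal
    rw [le_div_iff₀ hapos, mul_comm]
    exact h2
  have hsub : {s : ℝ | s ∈ Set.Ioo 0 1 ∧
        (Nat.fib k : ℝ) * Real.exp y ≤ |deriv (fun t => X lam t k) (EE lam k s)|}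
      ⊆ {s : ℝ | s ∈ Set.Ioo 0 1 ∧ a ≤ F s} ∪ {s : ℝ | Real.sin (Real.pi * (Nat.fib k : ℝ) * s) = 0} := by
    rintro s ⟨hs, hsy⟩
    by_cases hsin : Real.sin (Real.pi * (Nat.fib k : ℝ) * s) = 0
    · exact Or.inr hsin
    left
    refine ⟨hs, ?_⟩
    obtain ⟨hT, -⟩ := EE_spec lam h0.le hlam k hk s hs.1 hs.2
    have hx : |X lam (EE lam k s) k| < 1 := by
      rw [← sin_TE_ne lam _ h0.le k, hT]
      exact hsin
    have h4 := hg k hk (EE lam k s) hx
    rw [hT] at h4
    have h5 : Real.pi * (Nat.fib k : ℝ) * s / (Real.pi * (Nat.fib k : ℝ)) = s := by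
      field_simp
    rw [h5] at h4
    have h6 := hsy.trans h4
    have h7 : Real.exp y ≤ Cg * Real.exp (C1 * ∑ j ∈ Finset.range k, phS lam j s) := by
      have : (Nat.fib k : ℝ) * Real.exp y ≤ (Nat.fib k : ℝ) *
          (Cg * Real.exp (C1 * ∑ j ∈ Finset.range k, phS lam j s)) := by
        calc _ ≤ _ := h6
          _ = _ := by ring
      exact le_of_mul_le_mul_left this hf
    have h8 : y ≤ Real.log Cg + C1 * ∑ j ∈ Finset.range k, phS lam j s := by
      have := Real.log_le_log (Real.exp_pos _) h7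
      rwa [Real.log_exp, Real.log_mul hCg.ne' (Real.exp_pos _).ne', Real.log_exp] at this
    rw [ha, hF]
    apply Real.exp_le_exp.mpr
    have h9 : c2 / L * ∑ j ∈ Finset.range k, phS lam j s
        = c2 / C1 / L * (C1 * ∑ j ∈ Finset.range k, phS lam j s) := by
      field_simp
    rw [h9]
    apply mul_le_mul_of_nonneg_left _ (by positivity)
    linarith
  refine (measure_mono hsub).trans ((measure_union_le _ _).trans ?_)
  rw [s1_null _ hf, add_zero]
  refine hmark.trans ?_
  apply ENNReal.ofReal_le_ofReal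
  rw [div_le_iff₀ hapos]
  have h10 := hm k
  rw [intervalIntegral.integral_of_le zero_le_one] at h10
  refine h10.trans (le_of_eq ?_)
  have h11 : ∀ A B D : ℝ, Cm * Real.exp A * Real.exp B * Real.exp D = Cm * Real.exp (A + B + D) := by
    intro A B D
    rw [Real.exp_add, Real.exp_add]
    ring
  rw [ha, h11]
  congr 2
  ring

/-- Complement of the good set: for a band with small length, the set of large derivative has large
measure. -/
theorem s1_band (lam : ℝ) (h0 : 0 < lam) (h1 : lam ≤ 1 / 100) (k : ℕ) (hk : 1 ≤ k) (y : ℝ)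
    (i : ℕ) (hi : i < Nat.fib k) (u v : ℝ) (hu : TE lam u k ≤ Real.pi * i)
    (hv : Real.pi * (i + 1) ≤ TE lam v k)
    (huv : v - u < Real.exp (-y) / (4 * (Nat.fib k : ℝ))) :
    ENNReal.ofReal (1 / (2 * (Nat.fib k : ℝ))) ≤
      volume (Set.Icc ((i + 1 / 6) / (Nat.fib k : ℝ)) ((i + 5 / 6) / (Nat.fib k : ℝ)) ∩
        {s : ℝ | s ∈ Set.Ioo 0 1 ∧
        (Nat.fib k : ℝ) * Real.exp y ≤ |deriv (fun t => X lam t k) (EE lam k s)|}) := by
  set f : ℝ := (Nat.fib k : ℝ) with hfdef
  have hf : (0:ℝ) < f := by rw [hfdef]; exact_mod_cast Nat.fib_pos.mpr (by omega)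
  have hpi := Real.pi_pos
  set M : Set ℝ := Set.Icc ((i + 1 / 6) / f) ((i + 5 / 6) / f) with hM
  set S : Set ℝ := {s : ℝ | s ∈ Set.Ioo 0 1 ∧ f * Real.exp y ≤ |deriv (fun t => X lam t k) (EE lam k s)|}
    with hS
  set E : Set ℝ := {t : ℝ | t ∈ Set.Ioo u v ∧ 1 / 2 ≤ |Real.sin (TE lam t k)| ∧
    |deriv (fun t => X lam t k) t| < f * Real.exp y} with hE
  have hTc : Continuous (fun t => TE lam t k) := TE_continuous lam h0.le h1 k
  have hmono : Monotone (fun t => TE lam t k) := TE_mono lam h0.le h1 k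
  have hEm : MeasurableSet E := by
    rw [hE]
    refine MeasurableSet.inter (s₁ := Set.Ioo u v) measurableSet_Ioo (MeasurableSet.inter ?_ ?_)
    · exact measurableSet_le measurable_const (Real.continuous_sin.comp hTc).abs.measurable
    · exact measurableSet_lt (measurable_deriv (fun t => X lam t k)).abs measurable_const
  -- derivative on E
  have hder : ∀ t ∈ E, ∃ d : ℝ, 0 < d ∧ d ≤ 2 * (f * Real.exp y) ∧ HasDerivAt (fun s => TE lam s k) d t := by
    rintro t ⟨-, hs, hd⟩
    have hx : |X lam t k| < 1 := by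
      rw [← sin_TE_ne lam _ h0.le k]
      intro h
      rw [h, abs_zero] at hs
      norm_num at hs
    obtain ⟨d, hd1, hd2, hd3⟩ := TE_deriv lam t h0.le h1 k hk hx
    have hd0 : 0 < d := lt_of_lt_of_le (by positivity) hd1
    refine ⟨d, hd0, ?_, hd2⟩
    rw [hd3.deriv, abs_mul, abs_neg, abs_of_pos hd0] at hd
    nlinarith
  choose! d hd using hder
  have himg : volume ((fun t => TE lam t k / (Real.pi * f)) '' E) ≤ ENNReal.ofReal (1 / (6 * f)) := by
    have h2 := addHaar_image_le_lintegral_abs_det_fderiv (μ := volume) (s := E)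
      (f := fun t => TE lam t k / (Real.pi * f))
      (f' := fun t => ContinuousLinearMap.toSpanSingleton ℝ (d t / (Real.pi * f))) hEm
      (fun t ht => by
        have := ((hd t ht).2.2.div_const (Real.pi * f)).hasFDerivAt
        exact this.hasFDerivWithinAt)
    refine h2.trans ?_
    have h3 : ∀ t ∈ E, ENNReal.ofReal |(ContinuousLinearMap.toSpanSingleton ℝ (d t / (Real.pi * f))).det|
        ≤ ENNReal.ofReal (2 * Real.exp y / Real.pi) := by
      intro t ht
      apply ENNReal.ofReal_le_ofReal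
      have h4 : (ContinuousLinearMap.toSpanSingleton ℝ (d t / (Real.pi * f))).det = d t / (Real.pi * f) := by
        simp
      obtain ⟨hd0, hd1, -⟩ := hd t ht
      rw [h4, abs_of_pos (by positivity), div_le_div_iff₀ (by positivity) hpi]
      nlinarith
    calc ∫⁻ t in E, ENNReal.ofReal |(ContinuousLinearMap.toSpanSingleton ℝ (d t / (Real.pi * f))).det|
        ≤ ∫⁻ t in E, ENNReal.ofReal (2 * Real.exp y / Real.pi) := setLIntegral_mono' hEm h3
      _ = ENNReal.ofReal (2 * Real.exp y / Real.pi) * volume E := by rw [setLIntegral_const]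
      _ ≤ ENNReal.ofReal (2 * Real.exp y / Real.pi) * ENNReal.ofReal (v - u) := by
          gcongr
          rw [← Real.volume_Ioo]
          exact measure_mono (fun t ht => ht.1)
      _ = ENNReal.ofReal (2 * Real.exp y / Real.pi * (v - u)) := by
          rw [ENNReal.ofReal_mul (by positivity)]
      _ ≤ ENNReal.ofReal (1 / (6 * f)) := by
          apply ENNReal.ofReal_le_ofReal
          have h5 : 2 * Real.exp y / Real.pi * (v - u) ≤
              2 * Real.exp y / Real.pi * (Real.exp (-y) / (4 * f)) := by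
            apply mul_le_mul_of_nonneg_left huv.le (by positivity)
          refine h5.trans ?_
          have h6 : 2 * Real.exp y / Real.pi * (Real.exp (-y) / (4 * f)) = 1 / (2 * Real.pi * f) := by
            rw [Real.exp_neg]
            field_simp
            norm_num
          rw [h6]
          apply one_div_le_one_div_of_le (by positivity)
          nlinarith [Real.pi_gt_three]
  have hcov : M ⊆ (M ∩ S) ∪ ((fun t => TE lam t k / (Real.pi * f)) '' E) := by
    intro s hs
    by_cases hsS : s ∈ S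
    · exact Or.inl ⟨hs, hsS⟩
    right
    have hs1 : (i : ℝ) + 1 / 6 ≤ f * s := by
      have := hs.1
      rw [div_le_iff₀ hf] at this
      linarith
    have hs2 : f * s ≤ (i : ℝ) + 5 / 6 := by
      have := hs.2
      rw [le_div_iff₀ hf] at this
      linarith
    have hif : (i : ℝ) + 1 ≤ f := by
      rw [hfdef]
      exact_mod_cast hi
    have hi0 : (0 : ℝ) ≤ i := Nat.cast_nonneg i
    have hs01 : s ∈ Set.Ioo (0:ℝ) 1 := by
      constructor
      · by_contra hcon
        push Not at hcon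
        nlinarith
      · by_contra hcon
        push Not at hcon
        nlinarith
    obtain ⟨hT, -⟩ := EE_spec lam h0.le h1 k hk s hs01.1 hs01.2
    rw [← hfdef] at hT
    refine ⟨EE lam k s, ⟨⟨?_, ?_⟩, ?_, ?_⟩, ?_⟩
    · by_contra hcon
      push Not at hcon
      have := hmono hcon
      simp only [hT] at this
      nlinarith
    · by_contra hcon
      push Not at hcon
      have := hmono hcon
      simp only [hT] at this
      nlinarith
    · rw [hT]
      have h7 : Real.sin (Real.pi * f * s) = (-1) ^ i * Real.sin (Real.pi * (f * s - i)) := by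
        have : Real.pi * f * s = Real.pi * (f * s - i) + i * Real.pi := by ring
        rw [this, Real.sin_add_nat_mul_pi]
      rw [h7, abs_mul, abs_pow, abs_neg, abs_one, one_pow, one_mul]
      have h8 : 1 / 2 ≤ Real.sin (Real.pi * (f * s - i)) := by
        rcases le_total (f * s - i) (1 / 2) with h9 | h9
        · rw [← Real.sin_pi_div_six]
          apply Real.sin_le_sin_of_le_of_le_pi_div_two
          · linarith
          · nlinarith
          · nlinarith
        · rw [← Real.sin_pi_sub (Real.pi * (f * s - i)), ← Real.sin_pi_div_six]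
          apply Real.sin_le_sin_of_le_of_le_pi_div_two
          · linarith
          · nlinarith
          · nlinarith
      exact h8.trans (le_abs_self _)
    · by_contra hcon
      push Not at hcon
      exact hsS ⟨hs01, hcon⟩
    · simp only
      rw [hT]
      field_simp
  have h10 : volume M ≤ volume (M ∩ S) + ENNReal.ofReal (1 / (6 * f)) :=
    (measure_mono hcov).trans ((measure_union_le _ _).trans (by gcongr))
  have h11 : volume M = ENNReal.ofReal (1 / (2 * f)) + ENNReal.ofReal (1 / (6 * f)) := by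
    rw [hM, Real.volume_Icc, ← ENNReal.ofReal_add (by positivity) (by positivity)]
    congr 1
    field_simp
    norm_num
  rw [h11] at h10
  exact (ENNReal.add_le_add_iff_right ENNReal.ofReal_ne_top).mp h10

theorem local_mass : ∃ c C lam1 : ℝ, 0 < c ∧ 0 < C ∧ 0 < lam1 ∧ lam1 ≤ 1 / 100 ∧
    ∀ lam : ℝ, 0 < lam → lam ≤ lam1 → ∃ Cl : ℝ, 0 < Cl ∧ ∀ k : ℕ, 1 ≤ k → ∀ y : ℝ, 0 ≤ y →
      ∃ T : Set ℝ, MeasurableSet T ∧ T ⊆ Set.Ioo 0 1 ∧
        volume (Set.Ioo 0 1 \ T)
          ≤ ENNReal.ofReal (Cl * Real.exp (-(c / Real.log (1 / lam)) * y + C * lam * k)) ∧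
        ∀ n : ℕ, k ≤ n → ∀ s ∈ T, ∀ s' ∈ Set.Ioo (0:ℝ) 1, 3 / (Nat.fib k : ℝ) ≤ |s' - s| →
          Real.exp (-y) / (Cl * (Nat.fib k : ℝ)) ≤ |EE lam n s' - EE lam n s| := by
  obtain ⟨c, C, lam1, hc, hC, hl1, hl11, H⟩ := S1_tail
  refine ⟨c, C, min lam1 (1 / 10 ^ 6), hc, hC, lt_min hl1 (by norm_num), (min_le_left _ _).trans hl11, ?_⟩
  intro lam h0 h1
  have hlam1 : lam ≤ lam1 := h1.trans (min_le_left _ _)
  have hlam6 : lam ≤ 1 / 10 ^ 6 := h1.trans (min_le_right _ _)
  have hlam : lam ≤ 1 / 100 := hlam1.trans hl11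
  have hsq : Real.sqrt lam ≤ 1 / 1000 := by
    rw [show (1:ℝ) / 1000 = Real.sqrt (1 / 10 ^ 6) by
      rw [show (1:ℝ) / 10 ^ 6 = (1 / 1000) ^ 2 by norm_num, Real.sqrt_sq (by norm_num)]]
    exact Real.sqrt_le_sqrt hlam6
  obtain ⟨Cl, hCl, H⟩ := H lam h0 hlam1
  refine ⟨max (18 * Cl) 4, lt_max_of_lt_right (by norm_num), ?_⟩
  intro k hk y hy
  have H := H k hk y hy
  have hfn : 0 < Nat.fib k := Nat.fib_pos.mpr (by omega)
  set f : ℝ := (Nat.fib k : ℝ) with hfdef
  have hf : (0:ℝ) < f := by rw [hfdef]; exact_mod_cast hfn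
  have hpi := Real.pi_pos
  have hpi3 := Real.pi_gt_three
  set R : ℝ := Real.exp (-(c / Real.log (1 / lam)) * y + C * lam * k) with hR
  have hRpos : 0 < R := Real.exp_pos _
  set S : Set ℝ := {s : ℝ | s ∈ Set.Ioo 0 1 ∧ f * Real.exp y ≤ |deriv (fun t => X lam t k) (EE lam k s)|}
    with hS
  classical
  set bad : Finset ℕ := (Finset.range (Nat.fib k)).filter (fun i => ∃ u v : ℝ,
    TE lam u k ≤ Real.pi * i ∧ Real.pi * (i + 1) ≤ TE lam v k ∧ v - u < Real.exp (-y) / (4 * f)) with hbad
  set Mi : ℕ → Set ℝ := fun i => Set.Icc (((i:ℝ) + 1 / 6) / f) (((i:ℝ) + 5 / 6) / f) with hMi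
  have hcard : (bad.card : ℝ) / (2 * f) ≤ Cl * R := by
    have h2 : ∑ i ∈ bad, ENNReal.ofReal (1 / (2 * f)) ≤ ∑ i ∈ bad, (volume.restrict S) (Mi i) := by
      apply Finset.sum_le_sum
      intro i hi
      rw [hbad, Finset.mem_filter, Finset.mem_range] at hi
      obtain ⟨hi1, u, v, hu, hv, huv⟩ := hi
      rw [Measure.restrict_apply measurableSet_Icc]
      exact s1_band lam h0 hlam k hk y i hi1 u v hu hv huv
    have hdisj : Set.PairwiseDisjoint (bad : Set ℕ) Mi := by
      intro i _ j _ hij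
      rw [Function.onFun, Set.disjoint_left]
      intro s hs1 hs2
      have a1 := hs1.1
      have a2 := hs1.2
      have a3 := hs2.1
      have a4 := hs2.2
      rw [div_le_iff₀ hf] at a1 a3
      rw [le_div_iff₀ hf] at a2 a4
      rcases lt_or_gt_of_ne hij with h | h
      · have : (i:ℝ) + 1 ≤ j := by exact_mod_cast h
        linarith
      · have : (j:ℝ) + 1 ≤ i := by exact_mod_cast h
        linarith
    have h3 : ∑ i ∈ bad, (volume.restrict S) (Mi i) ≤ volume S := by
      rw [← measure_biUnion_finset hdisj (fun i _ => measurableSet_Icc)]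
      refine (measure_mono (Set.subset_univ _)).trans ?_
      rw [Measure.restrict_apply_univ]
    have h4 := (h2.trans h3).trans H
    rw [Finset.sum_const, nsmul_eq_mul, ← ENNReal.ofReal_natCast,
      ← ENNReal.ofReal_mul (Nat.cast_nonneg _)] at h4
    have h5 := (ENNReal.ofReal_le_ofReal_iff (by positivity)).mp h4
    calc (bad.card : ℝ) / (2 * f) = (bad.card : ℝ) * (1 / (2 * f)) := by ring
      _ ≤ _ := h5
  set B : Set ℝ := ⋃ i ∈ bad, Set.Icc (((i:ℝ) - 4) / f) (((i:ℝ) + 5) / f) with hB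
  have hBm : MeasurableSet B := by
    rw [hB]
    exact Finset.measurableSet_biUnion _ (fun i _ => measurableSet_Icc)
  have hBv : volume B ≤ ENNReal.ofReal (18 * Cl * R) := by
    calc volume B ≤ ∑ i ∈ bad, volume (Set.Icc (((i:ℝ) - 4) / f) (((i:ℝ) + 5) / f)) :=
          measure_biUnion_finset_le _ _
      _ = ∑ i ∈ bad, ENNReal.ofReal (9 / f) := by
          apply Finset.sum_congr rfl
          intro i _
          rw [Real.volume_Icc]
          congr 1
          field_simp
          norm_num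
      _ = ENNReal.ofReal (bad.card * (9 / f)) := by
          rw [Finset.sum_const, nsmul_eq_mul, ← ENNReal.ofReal_natCast,
            ← ENNReal.ofReal_mul (Nat.cast_nonneg _)]
      _ ≤ ENNReal.ofReal (18 * Cl * R) := by
          apply ENNReal.ofReal_le_ofReal
          have : (bad.card : ℝ) * (9 / f) = 18 * ((bad.card : ℝ) / (2 * f)) := by
            field_simp
            ring
          rw [this]
          nlinarith
  refine ⟨Set.Ioo 0 1 \ B, measurableSet_Ioo.diff hBm, fun s hs => hs.1, ?_, ?_⟩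
  · refine le_trans (measure_mono (t := B) ?_) (hBv.trans ?_)
    · intro s hs
      by_contra hcon
      exact hs.2 ⟨hs.1, hcon⟩
    · apply ENNReal.ofReal_le_ofReal
      exact mul_le_mul_of_nonneg_right (le_max_left _ _) hRpos.le
  · intro n hn s hs s' hs' hss
    have hn1 : 1 ≤ n := hk.trans hn
    have hfn0 : (0:ℝ) < (Nat.fib n : ℝ) := by exact_mod_cast Nat.fib_pos.mpr (by omega)
    -- the lower bound for a good band
    have key : ∀ (t t' : ℝ) (i : ℕ), i < Nat.fib k → i ∉ bad → TE lam t k ≤ Real.pi * i →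
        Real.pi * (i + 1) ≤ TE lam t' k → Real.exp (-y) / (max (18 * Cl) 4 * f) ≤ t' - t := by
      intro t t' i hi hib ht ht'
      have h2 : Real.exp (-y) / (4 * f) ≤ t' - t := by
        by_contra hcon
        push Not at hcon
        apply hib
        rw [hbad, Finset.mem_filter, Finset.mem_range]
        exact ⟨hi, t, t', ht, ht', hcon⟩
      refine le_trans ?_ h2
      apply div_le_div_of_nonneg_left (Real.exp_pos _).le (by positivity)
      exact mul_le_mul_of_nonneg_right (le_max_right _ _) hf.le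
    have hTE : ∀ r ∈ Set.Ioo (0:ℝ) 1, |TE lam (EE lam n r) k - Real.pi * (f * r)| ≤ 7 / 100 := by
      intro r hr
      obtain ⟨hT, -⟩ := EE_spec lam h0.le hlam n hn1 r hr.1 hr.2
      have h2 := TE_lin lam (EE lam n r) h0.le hlam n hn1 k hn
      rw [hT] at h2
      have h3 : (Nat.fib k : ℝ) / (Nat.fib n : ℝ) * (Real.pi * (Nat.fib n : ℝ) * r) = Real.pi * (f * r) := by
        rw [hfdef]
        field_simp
      rw [h3] at h2
      linarith
    have hnb : ∀ i : ℕ, (i:ℝ) ≤ f * s + 4 → f * s ≤ (i:ℝ) + 5 → i ∉ bad := by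
      intro i hi1 hi2 hib
      apply hs.2
      rw [hB]
      simp only [Set.mem_iUnion]
      refine ⟨i, hib, ?_, ?_⟩
      · rw [div_le_iff₀ hf]
        linarith
      · rw [le_div_iff₀ hf]
        linarith
    have hA1 := abs_le.mp (hTE s hs.1)
    have hA2 := abs_le.mp (hTE s' hs')
    have hfs : 0 < f * s := mul_pos hf hs.1.1
    have hfs1 : f * s < f := by nlinarith [hs.1.2]
    have hfs' : 0 < f * s' := mul_pos hf hs'.1
    have hfs1' : f * s' < f := by nlinarith [hs'.2]
    rcases le_total s s' with hle | hle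
    · rw [abs_of_nonneg (by linarith)] at hss
      have h3 : 3 ≤ f * s' - f * s := by
        rw [div_le_iff₀ hf] at hss
        linarith
      set i : ℕ := ⌈f * s + 1 / 10⌉₊ with hi
      have hi1 : f * s + 1 / 10 ≤ i := Nat.le_ceil _
      have hi2 : (i:ℝ) < f * s + 1 / 10 + 1 := Nat.ceil_lt_add_one (by linarith)
      refine le_trans (key (EE lam n s) (EE lam n s') i ?_ ?_ ?_ ?_) (le_abs_self _)
      · have : (i:ℝ) < (Nat.fib k : ℝ) := by rw [← hfdef]; linarith
        exact_mod_cast this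
      · exact hnb i (by linarith) (by linarith)
      · nlinarith [hA1.2]
      · nlinarith [hA2.1]
    · rw [abs_of_nonpos (by linarith)] at hss
      have h3 : 3 ≤ f * s - f * s' := by
        rw [div_le_iff₀ hf] at hss
        linarith
      set i : ℕ := ⌊f * s - 1 / 10 - 1⌋₊ with hi
      have hi1 : (i:ℝ) ≤ f * s - 1 / 10 - 1 := Nat.floor_le (by linarith)
      have hi2 : f * s - 1 / 10 - 1 < (i:ℝ) + 1 := Nat.lt_floor_add_one _
      rw [abs_sub_comm]
      refine le_trans (key (EE lam n s') (EE lam n s) i ?_ ?_ ?_ ?_) (le_abs_self _)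
      · have : (i:ℝ) < (Nat.fib k : ℝ) := by rw [← hfdef]; linarith
        exact_mod_cast this
      · exact hnb i (by linarith) (by linarith)
      · nlinarith [hA2.2]
      · nlinarith [hA1.1]

end SF
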