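import Mathlib

/-!
# SF-S2, part 1: real analysis for the choice of the parameters (imports only Mathlib)
-/

namespace SF

section s2h

theorem s2h_ev {a e : ℝ} (ha : 0 < a) (he : 0 < e) : ∃ l1 : ℝ, 0 < l1 ∧
    ∀ lam : ℝ, 0 < lam → lam ≤ l1 → lam ^ a * Real.log (1 / lam) ≤ e := by
  have h := tendsto_log_mul_rpow_nhdsGT_zero ha
  have h2 := (h.eventually_const_lt (show -e < 0 by linarith))
  obtain ⟨l1, hl1, hsub⟩ := mem_nhdsGT_iff_exists_Ioc_subset.1 h2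
  refine ⟨l1, hl1, fun lam h3 h4 => ?_⟩
  have h5 : -e < Real.log lam * lam ^ a := hsub ⟨h3, h4⟩
  rw [one_div, Real.log_inv]
  linarith [mul_comm (Real.log lam) (lam ^ a)]

theorem s2h_evL (C : ℝ) : ∃ l1 : ℝ, 0 < l1 ∧
    ∀ lam : ℝ, 0 < lam → lam ≤ l1 → C ≤ Real.log (1 / lam) := by
  refine ⟨Real.exp (-C), Real.exp_pos _, fun lam h3 h4 => ?_⟩
  rw [one_div, Real.log_inv]
  have := Real.log_le_log h3 h4
  rw [Real.log_exp] at this
  linarith

theorem s2h_par {A G eta Kt tau0 c14 Cp K CH l8 C4 C8 : ℝ} (heta : 0 < eta) (hKt : 0 < Kt)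
    (htau0 : 0 < tau0) (hc14 : 0 < c14) (hCp : 0 < Cp) (hK : 0 < K) (hCH : 0 < CH) (hl8 : 0 < l8)
    (hC4 : 0 < C4) (hC8 : 1 < C8) :
    ∃ lam1 : ℝ, 0 < lam1 ∧ lam1 ≤ 1 / 100 ∧ ∀ lam : ℝ, 0 < lam → lam ≤ lam1 →
      1 ≤ Real.log (1 / lam) ∧ A * G ≤ 9 / 10 * Real.log (1 / lam) ∧
      4 * K * CH * l8 * lam ^ (4 / 5 : ℝ) ≤ 1 ∧
      ∃ p tau : ℝ, p * (C8 * lam ^ (-(77 / 100) : ℝ)) ≤ 1 ∧ 0 < p ∧ p ≤ 1 ∧ 0 < tau ∧ tau ≤ tau0 ∧
        p ≤ c14 * tau ∧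
        (∀ T : ℝ, 0 ≤ T → T ≤ Cp * Real.log (1 / lam) →
          Kt * T * Real.exp (-eta * (9 / 10 * Real.log (1 / lam))) * tau ≤ p ∧
          Kt * T * Real.exp (-eta * (9 / 10 * Real.log (1 / lam))) ≤ 1) ∧
        32 * Cp * l8 * Real.log (1 / lam) * (C4 * CH * tau * lam ^ (4 / 5 : ℝ)) ≤ p ∧
        96 * Cp * l8 * Real.log (1 / lam) * lam ^ (4 / 5 : ℝ) ≤ p := by
  have hC80 : 0 < C8 := by linarith
  obtain ⟨c7, hc7⟩ : ∃ c7, c7 = min (eta / 4) (1 / 4) := ⟨_, rfl⟩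
  have hc70 : 0 < c7 := by rw [hc7]; exact lt_min (by linarith) (by norm_num)
  have hc71 : c7 ≤ eta / 4 := by rw [hc7]; exact min_le_left _ _
  have hc72 : c7 ≤ 1 / 4 := by rw [hc7]; exact min_le_right _ _
  obtain ⟨a0, ha0⟩ : ∃ a0, a0 = min c7 (3 / 100) := ⟨_, rfl⟩
  have ha00 : 0 < a0 := by rw [ha0]; exact lt_min hc70 (by norm_num)
  have ha01 : a0 ≤ c7 := by rw [ha0]; exact min_le_left _ _
  have ha02 : a0 ≤ 3 / 100 := by rw [ha0]; exact min_le_right _ _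
  obtain ⟨Ct, hCt⟩ : ∃ Ct, Ct = 1 / tau0 + 1 / c14 + 1 + Kt * Cp + 4 * K * CH * l8 +
    32 * Cp * l8 * C4 * CH + 96 * C8 * Cp * l8 := ⟨_, rfl⟩
  have q1 : 0 < 1 / tau0 := by positivity
  have q2 : 0 < 1 / c14 := by positivity
  have q3 : 0 < Kt * Cp := by positivity
  have q4 : 0 < 4 * K * CH * l8 := by positivity
  have q5 : 0 < 32 * Cp * l8 * C4 * CH := by positivity
  have q6 : 0 < 96 * C8 * Cp * l8 := by positivity
  have hCt0 : 0 < Ct := by rw [hCt]; positivity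
  obtain ⟨m1, hm1, hm2⟩ := s2h_ev ha00 (show 0 < 1 / Ct by positivity)
  obtain ⟨m3, hm3, hm4⟩ := s2h_evL (max 1 (A * G / (9 / 10)))
  refine ⟨min (1 / 100) (min m1 m3), lt_min (by norm_num) (lt_min hm1 hm3), min_le_left _ _, ?_⟩
  intro lam hl0 hl1
  have hl2 : lam ≤ 1 / 100 := hl1.trans (min_le_left _ _)
  have hl3 : lam ≤ m1 := hl1.trans ((min_le_right _ _).trans (min_le_left _ _))
  have hl4 : lam ≤ m3 := hl1.trans ((min_le_right _ _).trans (min_le_right _ _))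
  have hlam1 : lam ≤ 1 := by linarith
  obtain ⟨L, hL⟩ : ∃ L, L = Real.log (1 / lam) := ⟨_, rfl⟩
  have hY := hm2 lam hl0 hl3
  have hLL := hm4 lam hl0 hl4
  rw [← hL] at hY hLL ⊢
  have hL1 : 1 ≤ L := (le_max_left _ _).trans hLL
  have hL2 : A * G / (9 / 10) ≤ L := (le_max_right _ _).trans hLL
  obtain ⟨Y, hYd⟩ : ∃ Y, Y = lam ^ a0 * L := ⟨_, rfl⟩
  rw [← hYd] at hY
  have hla : 0 < lam ^ a0 := Real.rpow_pos_of_pos hl0 _
  have hY0 : 0 < Y := by rw [hYd]; positivity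
  have hlaY : lam ^ a0 ≤ Y := by rw [hYd]; exact le_mul_of_one_le_right hla.le hL1
  have hYc : Ct * Y ≤ 1 := by
    have := mul_le_mul_of_nonneg_left hY hCt0.le
    rwa [mul_one_div, div_self hCt0.ne'] at this
  have hc : ∀ c, c ≤ Ct → c * Y ≤ 1 := fun c hcc =>
    (mul_le_mul_of_nonneg_right hcc hY0.le).trans hYc
  have r1 := hc (1 / tau0) (by rw [hCt]; linarith)
  have r2 := hc (1 / c14) (by rw [hCt]; linarith)
  have r0 := hc 1 (by rw [hCt]; linarith)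
  have r3 := hc (Kt * Cp) (by rw [hCt]; linarith)
  have r4 := hc (4 * K * CH * l8) (by rw [hCt]; linarith)
  have r5 := hc (32 * Cp * l8 * C4 * CH) (by rw [hCt]; linarith)
  have r6 := hc (96 * C8 * Cp * l8) (by rw [hCt]; linarith)
  have r1' : Y ≤ tau0 := by
    rw [div_mul_eq_mul_div, one_mul, div_le_one htau0] at r1; exact r1
  have r2' : Y ≤ c14 := by
    rw [div_mul_eq_mul_div, one_mul, div_le_one hc14] at r2; exact r2
  have hmon : ∀ b, a0 ≤ b → lam ^ b ≤ lam ^ a0 := fun b hb =>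
    Real.rpow_le_rpow_of_exponent_ge hl0 hlam1 hb
  have hth0 : 0 < lam ^ (4 / 5 : ℝ) := Real.rpow_pos_of_pos hl0 _
  have hexp : Real.exp (-eta * (9 / 10 * L)) = lam ^ (9 / 10 * eta) := by
    rw [Real.rpow_def_of_pos hl0, hL, one_div, Real.log_inv]
    congr 1; ring
  refine ⟨hL1, ?_, ?_, lam ^ (77 / 100 : ℝ) / C8, lam ^ (77 / 100 : ℝ) / C8 * lam ^ (-c7), ?_, ?_,
    ?_, ?_, ?_, ?_, ?_, ?_, ?_⟩
  · rw [div_le_iff₀ (by norm_num)] at hL2
    linarith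
  · calc 4 * K * CH * l8 * lam ^ (4 / 5 : ℝ) ≤ 4 * K * CH * l8 * Y := by
          refine mul_le_mul_of_nonneg_left ((hmon _ (by linarith)).trans hlaY) q4.le
      _ ≤ 1 := r4
  · have h1 : lam ^ (77 / 100 : ℝ) * lam ^ (-(77 / 100) : ℝ) = 1 := by
      rw [← Real.rpow_add hl0]; norm_num
    have h2 : lam ^ (77 / 100 : ℝ) / C8 * (C8 * lam ^ (-(77 / 100) : ℝ)) =
        lam ^ (77 / 100 : ℝ) * lam ^ (-(77 / 100) : ℝ) := by
      field_simp
    rw [h2, h1]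
  · have := Real.rpow_pos_of_pos hl0 (77 / 100 : ℝ)
    positivity
  · rw [div_le_one hC80]
    have : lam ^ (77 / 100 : ℝ) ≤ lam ^ (0 : ℝ) :=
      Real.rpow_le_rpow_of_exponent_ge hl0 hlam1 (by norm_num)
    rw [Real.rpow_zero] at this
    linarith
  · have h1 := Real.rpow_pos_of_pos hl0 (77 / 100 : ℝ)
    have h2 := Real.rpow_pos_of_pos hl0 (-c7)
    positivity
  · have h1 : lam ^ (77 / 100 : ℝ) * lam ^ (-c7) = lam ^ (77 / 100 - c7) := by
      rw [← Real.rpow_add hl0]; congr 1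
    have h2 : lam ^ (77 / 100 : ℝ) / C8 * lam ^ (-c7) = lam ^ (77 / 100 - c7) / C8 := by
      rw [← h1]; ring
    rw [h2, div_le_iff₀ hC80]
    have h3 := hmon (77 / 100 - c7) (by linarith)
    exact h3.trans (hlaY.trans (r1'.trans (le_mul_of_one_le_right htau0.le hC8.le)))
  · have h1 : lam ^ c7 * lam ^ (-c7) = 1 := by
      rw [← Real.rpow_add hl0]; simp
    have h2 := Real.rpow_pos_of_pos hl0 (-c7)
    have h3 := (hmon c7 ha01).trans (hlaY.trans r2')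
    have h4 : 1 ≤ c14 * lam ^ (-c7) := by
      rw [← h1]; exact mul_le_mul_of_nonneg_right h3 h2.le
    have h5 : 0 < lam ^ (77 / 100 : ℝ) / C8 := by
      have := Real.rpow_pos_of_pos hl0 (77 / 100 : ℝ)
      positivity
    calc lam ^ (77 / 100 : ℝ) / C8 = lam ^ (77 / 100 : ℝ) / C8 * 1 := by ring
      _ ≤ lam ^ (77 / 100 : ℝ) / C8 * (c14 * lam ^ (-c7)) := mul_le_mul_of_nonneg_left h4 h5.le
      _ = _ := by ring
  · intro T hT0 hT
    have h5 : 0 < lam ^ (77 / 100 : ℝ) / C8 := by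
      have := Real.rpow_pos_of_pos hl0 (77 / 100 : ℝ)
      positivity
    rw [hexp]
    have g1 : Kt * T * lam ^ a0 ≤ 1 := by
      calc Kt * T * lam ^ a0 ≤ Kt * (Cp * L) * lam ^ a0 := by gcongr
        _ = Kt * Cp * Y := by rw [hYd]; ring
        _ ≤ 1 := r3
    constructor
    · have h1 : lam ^ (9 / 10 * eta) * lam ^ (-c7) = lam ^ (9 / 10 * eta - c7) := by
        rw [← Real.rpow_add hl0]; congr 1
      have h2 := hmon (9 / 10 * eta - c7) (by linarith)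
      have h3 : Kt * T * lam ^ (9 / 10 * eta - c7) ≤ 1 :=
        (mul_le_mul_of_nonneg_left h2 (by positivity)).trans g1
      calc Kt * T * lam ^ (9 / 10 * eta) * (lam ^ (77 / 100 : ℝ) / C8 * lam ^ (-c7))
          = lam ^ (77 / 100 : ℝ) / C8 * (Kt * T * (lam ^ (9 / 10 * eta) * lam ^ (-c7))) := by ring
        _ = lam ^ (77 / 100 : ℝ) / C8 * (Kt * T * lam ^ (9 / 10 * eta - c7)) := by rw [h1]
        _ ≤ lam ^ (77 / 100 : ℝ) / C8 * 1 := mul_le_mul_of_nonneg_left h3 h5.le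
        _ = _ := by ring
    · exact (mul_le_mul_of_nonneg_left (hmon (9 / 10 * eta) (by linarith)) (by positivity)).trans g1
  · have h5 : 0 < lam ^ (77 / 100 : ℝ) / C8 := by
      have := Real.rpow_pos_of_pos hl0 (77 / 100 : ℝ)
      positivity
    have h1 : lam ^ (4 / 5 : ℝ) * lam ^ (-c7) = lam ^ (4 / 5 - c7) := by
      rw [← Real.rpow_add hl0]; congr 1
    have h2 := hmon (4 / 5 - c7) (by linarith)
    have h3 : 32 * Cp * l8 * C4 * CH * (L * lam ^ (4 / 5 - c7)) ≤ 1 := by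
      refine le_trans ?_ r5
      refine mul_le_mul_of_nonneg_left ?_ q5.le
      rw [hYd, mul_comm]
      exact mul_le_mul_of_nonneg_right h2 (by linarith)
    calc 32 * Cp * l8 * L * (C4 * CH * (lam ^ (77 / 100 : ℝ) / C8 * lam ^ (-c7)) *
          lam ^ (4 / 5 : ℝ))
        = lam ^ (77 / 100 : ℝ) / C8 * (32 * Cp * l8 * C4 * CH *
            (L * (lam ^ (4 / 5 : ℝ) * lam ^ (-c7)))) := by ring
      _ = lam ^ (77 / 100 : ℝ) / C8 * (32 * Cp * l8 * C4 * CH * (L * lam ^ (4 / 5 - c7))) := by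
          rw [h1]
      _ ≤ lam ^ (77 / 100 : ℝ) / C8 * 1 := mul_le_mul_of_nonneg_left h3 h5.le
      _ = _ := by ring
  · have h5 := Real.rpow_pos_of_pos hl0 (77 / 100 : ℝ)
    have h1 : lam ^ (4 / 5 : ℝ) = lam ^ (77 / 100 : ℝ) * lam ^ (3 / 100 : ℝ) := by
      rw [← Real.rpow_add hl0]; norm_num
    have h2 := hmon (3 / 100) ha02
    have h3 : 96 * C8 * Cp * l8 * (L * lam ^ (3 / 100 : ℝ)) ≤ 1 := by
      refine le_trans ?_ r6
      refine mul_le_mul_of_nonneg_left ?_ q6.le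
      rw [hYd, mul_comm]
      exact mul_le_mul_of_nonneg_right h2 (by linarith)
    rw [le_div_iff₀ hC80, h1]
    calc 96 * Cp * l8 * L * (lam ^ (77 / 100 : ℝ) * lam ^ (3 / 100 : ℝ)) * C8
        = lam ^ (77 / 100 : ℝ) * (96 * C8 * Cp * l8 * (L * lam ^ (3 / 100 : ℝ))) := by ring
      _ ≤ lam ^ (77 / 100 : ℝ) * 1 := mul_le_mul_of_nonneg_left h3 h5.le
      _ = _ := by ring

theorem s2h_fin {x CH H : ℝ} (hx : 0 ≤ x) (hCH : 0 ≤ CH) (hH : H ≤ CH * x)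
    (h : 1 + 3 * CH ≤ Real.exp x) :
    Real.exp (-(2 * x)) + H * (3 * Real.exp (-(3 * x))) ≤ Real.exp (-x) := by
  obtain ⟨E, hE⟩ : ∃ E, E = Real.exp (-x) := ⟨_, rfl⟩
  have hE0 : 0 < E := by rw [hE]; exact Real.exp_pos _
  have h1 : Real.exp (-(2 * x)) = E * E := by rw [hE, ← Real.exp_add]; congr 1; ring
  have h2 : Real.exp (-(3 * x)) = E * E * E := by
    rw [hE, ← Real.exp_add, ← Real.exp_add]; congr 1; ring
  have h3 : x * E ≤ 1 := by
    have h4 : x ≤ Real.exp x := by linarith [Real.add_one_le_exp x]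
    have h5 : Real.exp x * E = 1 := by rw [hE, ← Real.exp_add]; simp
    exact (mul_le_mul_of_nonneg_right h4 hE0.le).trans_eq h5
  have h6 : (1 + 3 * CH) * E ≤ 1 := by
    have h5 : Real.exp x * E = 1 := by rw [hE, ← Real.exp_add]; simp
    exact (mul_le_mul_of_nonneg_right h hE0.le).trans_eq h5
  rw [h1, h2, ← hE]
  have h7 : H * (3 * (E * E * E)) ≤ CH * x * (3 * (E * E * E)) :=
    mul_le_mul_of_nonneg_right hH (by positivity)
  have h8 : CH * x * (3 * (E * E * E)) = 3 * CH * (E * E) * (x * E) := by ring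
  have h9 : 3 * CH * (E * E) * (x * E) ≤ 3 * CH * (E * E) * 1 :=
    mul_le_mul_of_nonneg_left h3 (by positivity)
  have h10 : (1 + 3 * CH) * E * E ≤ 1 * E := mul_le_mul_of_nonneg_right h6 hE0.le
  have h11 : (1 + 3 * CH) * E * E = E * E + 3 * CH * (E * E) * 1 := by ring
  linarith

/-- choice of the parameters for `r`. -/
theorem s2h_parR {th L l8 lp Cp CH K T T1 l1 Nf Gn e : ℝ} (hth : 0 < th) (hl8 : 0 < l8)
    (hlp : 0 < lp) (hT0 : 0 < T) (hT1 : 0 ≤ T1) (hl1 : 0 ≤ l1) (hNf : 0 ≤ Nf) (hGn : 0 ≤ Gn)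
    (hK : 0 < K) (he : 0 ≤ e) (hL : 0 ≤ L)
    (hCH : CH = 6 + 2 * Gn / lp + Gn) (h4 : 4 * K * CH * l8 * th ≤ 1) :
    ∃ R0 : ℝ, 0 < R0 ∧ ∀ R : ℝ, R0 ≤ R → ∀ x : ℝ, x = th * R →
      1 ≤ x ∧ Nf ≤ x ∧ e ≤ x ∧ l1 + 5 * x + 1 + Gn * (2 * x / lp + 1) ≤ CH * x ∧
      R / (4 * T * l8) ≤ R / (2 * T * l8) - 1 ∧
      l8 * (K * (CH * x) + R / (2 * T * l8) * T + T1) + 3 * L ≤ R := by
  refine ⟨(Nf + l1 + 2 + e) / th + 4 * (3 * L + T1 * l8) + 4 * T * l8, by positivity, ?_⟩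
  intro R hR x hx
  have hR1 : (Nf + l1 + 2 + e) / th ≤ R := by
    have : 0 ≤ 4 * (3 * L + T1 * l8) := by positivity
    have : 0 ≤ 4 * T * l8 := by positivity
    linarith
  have hR2 : 4 * (3 * L + T1 * l8) ≤ R := by
    have : 0 ≤ (Nf + l1 + 2 + e) / th := by positivity
    have : 0 ≤ 4 * T * l8 := by positivity
    linarith
  have hR3 : 4 * T * l8 ≤ R := by
    have : 0 ≤ (Nf + l1 + 2 + e) / th := by positivity
    have : 0 ≤ 4 * (3 * L + T1 * l8) := by positivity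
    linarith
  have hx1 : Nf + l1 + 2 + e ≤ x := by
    rw [div_le_iff₀ hth] at hR1
    rw [hx]; linarith
  have hR0 : 0 < R := by
    have : 0 < 4 * T * l8 := by positivity
    linarith
  have hG1 : Gn ≤ Gn * x := le_mul_of_one_le_right hGn (by linarith)
  refine ⟨by linarith, by linarith, by linarith, ?_, ?_, ?_⟩
  · rw [hCH]
    have h1 : Gn * (2 * x / lp + 1) = 2 * Gn / lp * x + Gn := by ring
    rw [h1]
    have h2 : (6 + 2 * Gn / lp + Gn) * x = 6 * x + 2 * Gn / lp * x + Gn * x := by ring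
    rw [h2]
    linarith
  · have h1 : 1 ≤ R / (4 * T * l8) := by rw [le_div_iff₀ (by positivity)]; linarith
    have h2 : R / (2 * T * l8) = 2 * (R / (4 * T * l8)) := by field_simp; ring
    linarith
  · have h1 : l8 * (K * (CH * x)) ≤ R / 4 := by
      have h2 : l8 * (K * (CH * x)) = (4 * K * CH * l8 * th) * (R / 4) := by rw [hx]; ring
      rw [h2]
      have h3 := mul_le_mul_of_nonneg_right h4 (show 0 ≤ R / 4 by linarith)
      linarith
    have h3 : l8 * (R / (2 * T * l8) * T) = R / 2 := by field_simp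
    have h5 : l8 * (K * (CH * x) + R / (2 * T * l8) * T + T1) =
        l8 * (K * (CH * x)) + l8 * (R / (2 * T * l8) * T) + T1 * l8 := by ring
    rw [h5, h3]
    linarith

/-- the size of `r`. -/
theorem s2h_rsmall {lam C8 R r x CH L : ℝ} {K lmH M T T1 k : ℕ} (hl0 : 0 < lam) (hC8 : 1 < C8)
    (hL : L = Real.log (1 / lam)) (hrR : r = Real.exp (-R))
    (hM1 : (M : ℝ) ≤ R / (2 * T * Real.log C8)) (hlmH : (lmH : ℝ) ≤ CH * x)
    (hxR : Real.log C8 * (K * (CH * x) + R / (2 * T * Real.log C8) * T + T1) + 3 * L ≤ R)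
    (hk : k ≤ K * lmH + M * T + T1) : r ≤ lam ^ 3 / C8 ^ k := by
  have hC80 : 0 < C8 := by linarith
  rw [le_div_iff₀ (by positivity)]
  have h1 : r * C8 ^ k = Real.exp (Real.log C8 * k - R) := by
    rw [hrR, sub_eq_add_neg, Real.exp_add, mul_comm]
    congr 1
    rw [Real.exp_mul, Real.exp_log hC80, Real.rpow_natCast]
  have h2 : lam ^ 3 = Real.exp (-(3 * L)) := by
    rw [hL, one_div, Real.log_inv, ← Real.rpow_natCast, Real.rpow_def_of_pos hl0]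
    congr 1; push_cast; ring
  rw [h1, h2]
  apply Real.exp_le_exp.2
  have hkr : (k : ℝ) ≤ K * (CH * x) + R / (2 * T * Real.log C8) * T + T1 := by
    have h3 : (k : ℝ) ≤ K * (lmH : ℝ) + M * T + T1 := by exact_mod_cast hk
    have h4 : (K : ℝ) * (lmH : ℝ) ≤ K * (CH * x) :=
      mul_le_mul_of_nonneg_left hlmH (Nat.cast_nonneg _)
    have h5 : (M : ℝ) * T ≤ R / (2 * T * Real.log C8) * T :=
      mul_le_mul_of_nonneg_right hM1 (Nat.cast_nonneg _)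
    linarith
  have h6 := mul_le_mul_of_nonneg_left hkr (Real.log_nonneg hC8.le)
  linarith

theorem s2h_Mp {p Cp L l8 T R M : ℝ} (hp0 : 0 < p) (hCp0 : 0 < Cp) (hL1 : 1 ≤ L) (hl8 : 0 < l8)
    (hT0 : 0 < T) (hR : 0 < R) (hTle : T ≤ Cp * L) (hM2 : R / (4 * T * l8) ≤ M) :
    p * (R / (32 * Cp * l8 * L)) ≤ p * M / 8 := by
  have hL0 : 0 < L := by linarith
  have h2 : R / (4 * (Cp * L) * l8) ≤ R / (4 * T * l8) := by
    apply div_le_div_of_nonneg_left hR.le (by positivity)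
    gcongr
  have h3 : R / (32 * Cp * l8 * L) = R / (4 * (Cp * L) * l8) / 8 := by
    field_simp; ring
  rw [h3]
  have h4 : R / (4 * (Cp * L) * l8) ≤ M := h2.trans hM2
  calc p * (R / (4 * (Cp * L) * l8) / 8) ≤ p * (M / 8) := by gcongr
    _ = _ := by ring

theorem s2h_Mp1 {p Cp L l8 T R M tau C4 CH th x : ℝ} (hp0 : 0 < p) (hCp0 : 0 < Cp) (hL1 : 1 ≤ L)
    (hl8 : 0 < l8) (hT0 : 0 < T) (hR : 0 < R) (hTle : T ≤ Cp * L) (hM2 : R / (4 * T * l8) ≤ M)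
    (hx : x = th * R) (h32 : 32 * Cp * l8 * L * (C4 * CH * tau * th) ≤ p) :
    tau * (C4 * (CH * x)) ≤ p * M / 8 := by
  refine le_trans ?_ (s2h_Mp hp0 hCp0 hL1 hl8 hT0 hR hTle hM2)
  have hL0 : 0 < L := by linarith
  have h5 : 0 < 32 * Cp * l8 * L := by positivity
  rw [← mul_div_assoc, le_div_iff₀ h5]
  have h6 := mul_le_mul_of_nonneg_right h32 hR.le
  rw [hx]
  calc tau * (C4 * (CH * (th * R))) * (32 * Cp * l8 * L)
      = 32 * Cp * l8 * L * (C4 * CH * tau * th) * R := by ring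
    _ ≤ p * R := h6

theorem s2h_Mp2 {p Cp L l8 T R M th x : ℝ} (hp0 : 0 < p) (hCp0 : 0 < Cp) (hL1 : 1 ≤ L)
    (hl8 : 0 < l8) (hT0 : 0 < T) (hR : 0 < R) (hTle : T ≤ Cp * L) (hM2 : R / (4 * T * l8) ≤ M)
    (hx : x = th * R) (h96 : 96 * Cp * l8 * L * th ≤ p) :
    3 * x ≤ p * M / 8 := by
  refine le_trans ?_ (s2h_Mp hp0 hCp0 hL1 hl8 hT0 hR hTle hM2)
  have hL0 : 0 < L := by linarith
  have h5 : 0 < 32 * Cp * l8 * L := by positivity
  rw [← mul_div_assoc, le_div_iff₀ h5]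
  have h6 := mul_le_mul_of_nonneg_right h96 hR.le
  rw [hx]
  calc 3 * (th * R) * (32 * Cp * l8 * L)
      = 96 * Cp * l8 * L * th * R := by ring
    _ ≤ p * R := h6

theorem s2h_T {C8 T1 T2 L G Cp : ℝ} (hG : 1 ≤ G) (hT2 : 0 ≤ T2) (hL1 : 1 ≤ L)
    (hT1L : T1 ≤ C8 * L) (hCp : Cp = G * (C8 + T2 + 1)) : G * (T1 + T2 + 1) ≤ Cp * L := by
  have h0 : T2 + 1 ≤ (T2 + 1) * L := le_mul_of_one_le_right (by linarith) hL1
  have h1 : T1 + T2 + 1 ≤ (C8 + T2 + 1) * L := by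
    have h2 : (C8 + T2 + 1) * L = C8 * L + (T2 + 1) * L := by ring
    linarith
  rw [hCp]
  calc G * (T1 + T2 + 1) ≤ G * ((C8 + T2 + 1) * L) := mul_le_mul_of_nonneg_left h1 (by linarith)
    _ = _ := by ring

/-- the final bound for one good level. -/
theorem s2h_exp {p tau C4 CH x l0 : ℝ} {M : ℕ} (hp1 : p ≤ 1) (ht0 : 0 < tau) (hC4 : 1 ≤ C4)
    (hl0r : l0 ≤ CH * x) (hMp1 : tau * (C4 * (CH * x)) ≤ p * M / 8) (hMp2 : 3 * x ≤ p * M / 8) :
    3 * Real.exp (tau * (C4 * l0)) * (1 - p / 4) ^ M ≤ 3 * Real.exp (-(3 * x)) := by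
  have h2 : (1 - p / 4) ^ M ≤ Real.exp (-(p * M / 4)) := by
    have h3 : 1 - p / 4 ≤ Real.exp (-(p / 4)) := by
      have := Real.add_one_le_exp (-(p / 4))
      linarith
    calc (1 - p / 4) ^ M ≤ (Real.exp (-(p / 4))) ^ M :=
          pow_le_pow_left₀ (by linarith) h3 M
      _ = Real.exp (-(p * M / 4)) := by
          rw [← Real.exp_nat_mul]; congr 1; ring
  calc 3 * Real.exp (tau * (C4 * l0)) * (1 - p / 4) ^ M
      ≤ 3 * Real.exp (tau * (C4 * l0)) * Real.exp (-(p * M / 4)) := by gcongr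
    _ = 3 * Real.exp (tau * (C4 * l0) - p * M / 4) := by
        rw [mul_assoc, ← Real.exp_add]; congr 2
    _ ≤ 3 * Real.exp (-(3 * x)) := by
        refine mul_le_mul_of_nonneg_left (Real.exp_le_exp.2 ?_) (by norm_num)
        have h4 : tau * (C4 * l0) ≤ tau * (C4 * (CH * x)) := by
          refine mul_le_mul_of_nonneg_left ?_ ht0.le
          exact mul_le_mul_of_nonneg_left hl0r (by linarith)
        linarith

end s2h

end SF
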