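import Pool.Agent.Helper65.SF.STEER
import Pool.Agent.Helper65.SF.CH

/-!
# SF-S2, part 2: the tree counting
-/

namespace SF

open MeasureTheory Classical

section s2h

attribute [local irreducible] jL

/-- The node of level `k` of a point. -/
noncomputable def s2h_nd (k : ℕ) (s : ℝ) : ℕ := ⌊s * 2 ^ jL k⌋₊

theorem s2h_nd_lt {k : ℕ} {s : ℝ} (h0 : 0 < s) (h1 : s < 1) : s2h_nd k s < 2 ^ jL k := by
  unfold s2h_nd
  rw [Nat.floor_lt (by positivity)]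
  push_cast
  have : (0 : ℝ) < 2 ^ jL k := by positivity
  exact mul_lt_of_lt_one_left this h1

theorem s2h_nd_le {k : ℕ} {s : ℝ} (h0 : 0 < s) : (s2h_nd k s : ℝ) / 2 ^ jL k ≤ s := by
  rw [div_le_iff₀ (by positivity)]
  exact Nat.floor_le (by positivity)

theorem s2h_nd_ge {k : ℕ} {s : ℝ} : s ≤ ((s2h_nd k s : ℝ) + 1) / 2 ^ jL k := by
  rw [le_div_iff₀ (by positivity)]
  exact (Nat.lt_floor_add_one _).le

theorem s2h_nd_anc {a b : ℕ} (hab : a ≤ b) (s : ℝ) : anc jL a b (s2h_nd b s) = s2h_nd a s := by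
  unfold anc s2h_nd
  rw [← Nat.floor_div_natCast]
  congr 1
  push_cast
  have h := jL_mono hab
  have h2 : (2 : ℝ) ^ jL b = 2 ^ jL a * 2 ^ (jL b - jL a) := by
    rw [← pow_add]; congr 1; omega
  rw [h2, ← mul_assoc, mul_div_assoc, div_self (by positivity), mul_one]

theorem s2h_vol {k : ℕ} {F : Finset ℕ} {S : Set ℝ} {c : ℝ}
    (hS : ∀ s ∈ S, 0 < s ∧ s2h_nd k s ∈ F) (hc : (F.card : ℝ) ≤ c * 2 ^ jL k) :
    volume S ≤ ENNReal.ofReal c := by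
  have h1 : S ⊆ ⋃ i ∈ F, Set.Icc ((i : ℝ) / 2 ^ jL k) (((i : ℝ) + 1) / 2 ^ jL k) := by
    intro s hs
    obtain ⟨h0, h2⟩ := hS s hs
    simp only [Set.mem_iUnion]
    exact ⟨_, h2, s2h_nd_le h0, s2h_nd_ge⟩
  have hpos : (0 : ℝ) < 2 ^ jL k := by positivity
  calc volume S ≤ volume (⋃ i ∈ F, Set.Icc ((i : ℝ) / 2 ^ jL k) (((i : ℝ) + 1) / 2 ^ jL k)) :=
        measure_mono h1
    _ ≤ ∑ i ∈ F, volume (Set.Icc ((i : ℝ) / 2 ^ jL k) (((i : ℝ) + 1) / 2 ^ jL k)) :=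
        measure_biUnion_finset_le _ _
    _ = ∑ i ∈ F, ENNReal.ofReal (1 / 2 ^ jL k) := by
        refine Finset.sum_congr rfl fun i _ => ?_
        rw [Real.volume_Icc]
        congr 1
        ring
    _ = (F.card : ENNReal) * ENNReal.ofReal (1 / 2 ^ jL k) := by
        rw [Finset.sum_const, nsmul_eq_mul]
    _ = ENNReal.ofReal ((F.card : ℝ) * (1 / 2 ^ jL k)) := by
        rw [ENNReal.ofReal_mul (Nat.cast_nonneg _), ENNReal.ofReal_natCast]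
    _ ≤ ENNReal.ofReal c := by
        apply ENNReal.ofReal_le_ofReal
        rw [mul_one_div, div_le_iff₀ hpos]
        exact hc

theorem s2h_count {k k2 : ℕ} (hk : k ≤ k2) {i : ℕ} (hi : i < 2 ^ jL k) {u v p : ℝ}
    (hu : (i : ℝ) / 2 ^ jL k ≤ u) (hv : v ≤ ((i : ℝ) + 1) / 2 ^ jL k)
    (huv : p * 2 ^ (jL k2 - jL k) + 2 ≤ (v - u) * 2 ^ jL k2) (dead : ℕ → Prop)
    (hd : ∀ i' : ℕ, u ≤ (i' : ℝ) / 2 ^ jL k2 → ((i' : ℝ) + 1) / 2 ^ jL k2 ≤ v → dead i') :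
    p * 2 ^ (jL k2 - jL k) ≤ (((Finset.range (2 ^ jL k2)).filter
      (fun i' => anc jL k k2 i' = i ∧ dead i')).card : ℝ) := by
  have hN1 : (0 : ℝ) < 2 ^ jL k := by positivity
  have hN2 : (0 : ℝ) < 2 ^ jL k2 := by positivity
  have hm := jL_mono hk
  have hpow : (2 : ℝ) ^ jL k2 = 2 ^ jL k * 2 ^ (jL k2 - jL k) := by
    rw [← pow_add]; congr 1; omega
  have hpown : (2 : ℕ) ^ jL k2 = 2 ^ jL k * 2 ^ (jL k2 - jL k) := by
    rw [← pow_add]; congr 1; omega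
  have hsub : Finset.Ico ⌈u * 2 ^ jL k2⌉₊ ⌊v * 2 ^ jL k2⌋₊ ⊆ (Finset.range (2 ^ jL k2)).filter
      (fun i' => anc jL k k2 i' = i ∧ dead i') := by
    intro x hx
    rw [Finset.mem_Ico] at hx
    have hx1 : u * 2 ^ jL k2 ≤ x := (Nat.le_ceil _).trans (by exact_mod_cast hx.1)
    have hx2 : (x : ℝ) + 1 ≤ v * 2 ^ jL k2 := by
      have := (Nat.le_floor_iff' (a := v * 2 ^ jL k2) (n := x + 1) (by omega)).1 (by omega)
      exact_mod_cast this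
    have hlow : i * 2 ^ (jL k2 - jL k) ≤ x := by
      have h1 : (i : ℝ) * 2 ^ (jL k2 - jL k) ≤ x := by
        refine le_trans ?_ hx1
        rw [div_le_iff₀ hN1] at hu
        rw [hpow, ← mul_assoc]
        exact mul_le_mul_of_nonneg_right hu (by positivity)
      exact_mod_cast h1
    have hupp : x + 1 ≤ (i + 1) * 2 ^ (jL k2 - jL k) := by
      have h1 : (x : ℝ) + 1 ≤ ((i : ℝ) + 1) * 2 ^ (jL k2 - jL k) := by
        refine le_trans hx2 ?_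
        rw [le_div_iff₀ hN1] at hv
        rw [hpow, ← mul_assoc]
        exact mul_le_mul_of_nonneg_right hv (by positivity)
      exact_mod_cast h1
    rw [Finset.mem_filter, Finset.mem_range]
    refine ⟨?_, ?_, ?_⟩
    · rw [hpown]
      have : (i + 1) * 2 ^ (jL k2 - jL k) ≤ 2 ^ jL k * 2 ^ (jL k2 - jL k) :=
        Nat.mul_le_mul_right _ hi
      omega
    · unfold anc
      rw [Nat.div_eq_iff (by positivity)]
      have : (i + 1) * 2 ^ (jL k2 - jL k) = i * 2 ^ (jL k2 - jL k) + 2 ^ (jL k2 - jL k) := by ring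
      constructor
      · exact hlow
      · omega
    · refine hd x ?_ ?_
      · rw [le_div_iff₀ hN2]; exact hx1
      · rw [div_le_iff₀ hN2]; exact hx2
  have h1 := Finset.card_le_card hsub
  rw [Nat.card_Ico] at h1
  have h2 : ((⌊v * 2 ^ jL k2⌋₊ : ℕ) : ℝ) - ((⌈u * 2 ^ jL k2⌉₊ : ℕ) : ℝ) ≤
      ((⌊v * 2 ^ jL k2⌋₊ - ⌈u * 2 ^ jL k2⌉₊ : ℕ) : ℝ) := by
    rw [sub_le_iff_le_add]
    exact_mod_cast le_tsub_add
  have h3 : (v * 2 ^ jL k2) - 1 < ((⌊v * 2 ^ jL k2⌋₊ : ℕ) : ℝ) := Nat.sub_one_lt_floor _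
  have hu0 : 0 ≤ u * 2 ^ jL k2 := by
    have : 0 ≤ u := le_trans (by positivity) hu
    positivity
  have h4 : ((⌈u * 2 ^ jL k2⌉₊ : ℕ) : ℝ) < u * 2 ^ jL k2 + 1 := Nat.ceil_lt_add_one hu0
  have h5 : ((⌊v * 2 ^ jL k2⌋₊ - ⌈u * 2 ^ jL k2⌉₊ : ℕ) : ℝ) ≤ (((Finset.range (2 ^ jL k2)).filter
      (fun i' => anc jL k k2 i' = i ∧ dead i')).card : ℝ) := by exact_mod_cast h1
  linarith


theorem s2h_memf {α : Type*} (s : Finset α) (p : α → Prop) (inst : DecidablePred p) (x : α)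
    (h1 : x ∈ s) (h2 : p x) : x ∈ @Finset.filter α p inst s := by
  rw [Finset.mem_filter]
  exact ⟨h1, h2⟩

theorem s2h_alld {k k2 : ℕ} (hk : k ≤ k2) {i : ℕ} (hi : i < 2 ^ jL k) {p : ℝ}
    (hp : p ≤ 1) (dead : ℕ → Prop) (hd : ∀ x : ℕ, anc jL k k2 x = i → dead x) :
    p * 2 ^ (jL k2 - jL k) ≤ (((Finset.range (2 ^ jL k2)).filter
      (fun i' => anc jL k k2 i' = i ∧ dead i')).card : ℝ) := by
  have hsub : TREEh16.De (jL k) (jL k2) i ⊆ (Finset.range (2 ^ jL k2)).filter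
      (fun i' => anc jL k k2 i' = i ∧ dead i') := by
    intro x hx
    rw [TREEh16.mem_De] at hx
    rw [Finset.mem_filter, Finset.mem_range]
    exact ⟨hx.1, hx.2, hd x hx.2⟩
  have hc1 := Finset.card_le_card hsub
  rw [TREEh16.De_card (jL_mono hk) hi] at hc1
  have hc2 : (2 : ℝ) ^ (jL k2 - jL k) ≤ (((Finset.range (2 ^ jL k2)).filter
      (fun i' => anc jL k k2 i' = i ∧ dead i')).card : ℝ) := by exact_mod_cast hc1
  have : (0 : ℝ) < 2 ^ (jL k2 - jL k) := by positivity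
  exact (mul_le_of_le_one_left this.le hp).trans hc2

theorem s2h_main1 (A c c6 : ℝ) (G0 : ℕ) (hA : 0 < A) (hc : 0 < c) (hc6 : 0 < c6)
    (hc61 : c6 < 1) (hG : 1 ≤ G0)
    (hgeo : ∀ k : ℕ, 5 ≤ k → ∀ i : ℕ, i < 2 ^ jL k →
      c6 * (2:ℝ) ^ (jL (k + G0) - jL k) ≤
        (((Finset.range (2 ^ jL (k + G0))).filter (fun i' =>
          anc jL k (k + G0) i' = i ∧
          ∃ q, 1 ≤ q ∧ q ≤ G0 ∧ goodN (k + q) (anc jL (k + q) (k + G0) i'))).card : ℝ)) :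
    ∃ eta K tau0 c14 : ℝ, 0 < eta ∧ 1 ≤ K ∧ 0 < tau0 ∧ 0 < c14 ∧
    ∀ (Bst B0 tau p : ℝ) (T0 : ℕ), A * G0 ≤ Bst → 0 ≤ B0 → 1 ≤ T0 → 0 < tau → tau ≤ tau0 → 0 < p →
    p ≤ 1 →
    p ≤ c14 * tau → K * (G0 * T0 : ℕ) * Real.exp (-eta * Bst) * tau ≤ p →
    K * (G0 * T0 : ℕ) * Real.exp (-eta * Bst) ≤ 1 →
    ∀ (ks l0 : ℕ) (P : ℝ → Prop) (M : ℕ), 5 ≤ ks → l0 ≤ ks →
    (∀ m i : ℕ, m < M → i < 2 ^ jL (ks + m * (G0 * T0)) →
      goodN l0 (anc jL l0 (ks + m * (G0 * T0)) i) →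
      debtS (fun q => goodN q (anc jL q (ks + m * (G0 * T0)) i)) ks A c B0 (m * (G0 * T0)) ≤ Bst →
      ∃ u v : ℝ, (i : ℝ) / 2 ^ jL (ks + m * (G0 * T0)) ≤ u ∧
        v ≤ ((i : ℝ) + 1) / 2 ^ jL (ks + m * (G0 * T0)) ∧
        p * 2 ^ (jL (ks + (m + 1) * (G0 * T0)) - jL (ks + m * (G0 * T0))) + 2 ≤
          (v - u) * 2 ^ jL (ks + (m + 1) * (G0 * T0)) ∧
        ∀ s : ℝ, u ≤ s → s ≤ v → ¬ P s) →
    volume {s : ℝ | s ∈ Set.Ioo 0 1 ∧ P s ∧ goodN l0 (s2h_nd l0 s)} ≤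
      ENNReal.ofReal (3 * Real.exp (tau * B0) * (1 - p / 4) ^ M) := by
  obtain ⟨eta, K, tau0, c14, heta, hK, htau0, hc14, htree⟩ := tree_kill A c c6 G0 hA hc hc6 hc61 hG
  refine ⟨eta, K, tau0, c14, heta, hK, htau0, hc14, ?_⟩
  intro Bst B0 tau p T0 h1 h2 h3 h4 h5 h6 h6' h7 h8 h9 ks l0 P M hks hl0 hint
  obtain ⟨T, hT⟩ : ∃ T, T = G0 * T0 := ⟨_, rfl⟩
  have hmain := htree jL goodN ks jL_mono (fun r i hi => hgeo (ks + r) (by omega) i hi)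
    Bst B0 tau p T0 h1 h2 h3 h4 h5 h6 h7 h8 h9
    (fun m i' => ¬ goodN l0 (anc jL l0 (ks + m * (G0 * T0)) i') ∨
      ∀ s : ℝ, (i' : ℝ) / 2 ^ jL (ks + m * (G0 * T0)) ≤ s →
        s ≤ ((i' : ℝ) + 1) / 2 ^ jL (ks + m * (G0 * T0)) → ¬ P s) M
  rw [← hT] at hint hmain
  have hmain2 := hmain (by
    intro m i hm hi hdebt
    have hle : ks + m * T ≤ ks + (m + 1) * T := by
      have : (m + 1) * T = m * T + T := by ring
      omega
    by_cases hg : goodN l0 (anc jL l0 (ks + m * T) i)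
    · rw [debt_eq jL jL_mono] at hdebt
      obtain ⟨u, v, hu, hv, huv, hP⟩ := hint m i hm hi hg hdebt
      refine s2h_count hle hi hu hv huv _ (fun i' h10 h11 => Or.inr fun s h12 h13 => ?_)
      exact hP s (h10.trans h12) (h13.trans h11)
    · refine s2h_alld hle hi h6' _ (fun x hx => Or.inl ?_)
      rw [← TREEh16.anc_anc jL_mono (show l0 ≤ ks + m * T by omega) hle, hx]
      exact hg)
  obtain ⟨F, hF, hmem⟩ : ∃ F : Finset ℕ, (F.card : ℝ) ≤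
      2 ^ jL (ks + M * T) * (3 * Real.exp (tau * B0) * (1 - p / 4) ^ M) ∧
      ∀ i, i < 2 ^ jL (ks + M * T) → (∀ m, 1 ≤ m → m ≤ M →
          ¬ (¬ goodN l0 (anc jL l0 (ks + m * T) (anc jL (ks + m * T) (ks + M * T) i)) ∨
            ∀ s : ℝ, ((anc jL (ks + m * T) (ks + M * T) i : ℕ) : ℝ) / 2 ^ jL (ks + m * T) ≤ s →
              s ≤ (((anc jL (ks + m * T) (ks + M * T) i : ℕ) : ℝ) + 1) / 2 ^ jL (ks + m * T) →
              ¬ P s)) → i ∈ F :=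
    ⟨_, hmain2, fun i hi1 hi2 => s2h_memf _ _ _ _ (Finset.mem_range.2 hi1) hi2⟩
  refine s2h_vol (k := ks + M * T) (F := F) ?_ (hF.trans (le_of_eq (mul_comm _ _)))
  rintro s ⟨⟨hs0, hs1⟩, hPs, hgs⟩
  refine ⟨hs0, hmem _ (s2h_nd_lt hs0 hs1) fun m hm1 hm2 => ?_⟩
  have hle : ks + m * T ≤ ks + M * T := by
    have := Nat.mul_le_mul_right T hm2
    omega
  rw [s2h_nd_anc hle, s2h_nd_anc (by omega)]
  rintro (h | h)
  · exact h hgs
  · exact h s (s2h_nd_le hs0) s2h_nd_ge hPs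

theorem s2h_supermul (m n : ℕ) (hm : 1 ≤ m) :
    Nat.fib m * Nat.fib n ≤ Nat.fib (m + n) := by
  obtain ⟨m, rfl⟩ : ∃ m', m = m' + 1 := ⟨m - 1, by omega⟩
  have := Nat.fib_add n m
  rw [show (m + 1) + n = n + m + 1 by ring, this]
  have h1 : Nat.fib n ≤ Nat.fib (n + 1) := Nat.fib_le_fib_succ
  have h2 := Nat.mul_le_mul_right (Nat.fib (m + 1)) h1
  calc Nat.fib (m + 1) * Nat.fib n = Nat.fib n * Nat.fib (m + 1) := Nat.mul_comm _ _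
    _ ≤ Nat.fib (n + 1) * Nat.fib (m + 1) := h2
    _ ≤ Nat.fib n * Nat.fib m + Nat.fib (n + 1) * Nat.fib (m + 1) := Nat.le_add_left _ _

theorem s2h_fibT (k T1 : ℕ) {X : ℝ} (hX : 1 ≤ X) (h : (Nat.fib T1 : ℝ) ≤ X) :
    (Nat.fib (k + T1) : ℝ) ≤ (Nat.fib (k + 4) : ℝ) * X := by
  have h0 : (0 : ℝ) ≤ (Nat.fib (k + 4) : ℝ) := Nat.cast_nonneg _
  rcases Nat.eq_zero_or_pos T1 with h1 | h1
  · subst h1
    have h2 : Nat.fib (k + 0) ≤ Nat.fib (k + 4) := Nat.fib_mono (by omega)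
    have h3 : (Nat.fib (k + 0) : ℝ) ≤ (Nat.fib (k + 4) : ℝ) := by exact_mod_cast h2
    exact h3.trans (le_mul_of_one_le_right h0 hX)
  · obtain ⟨t, rfl⟩ : ∃ t, T1 = t + 1 := ⟨T1 - 1, by omega⟩
    have h2 := Nat.fib_add k t
    have h3 : Nat.fib (k + 2) = Nat.fib k + Nat.fib (k + 1) := Nat.fib_add_two
    have h4 : Nat.fib t ≤ Nat.fib (t + 1) := Nat.fib_le_fib_succ
    have h5 : Nat.fib (k + t + 1) ≤ Nat.fib (k + 2) * Nat.fib (t + 1) := by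
      rw [h2, h3, Nat.add_mul]
      exact Nat.add_le_add_right (Nat.mul_le_mul_left (Nat.fib k) h4) _
    have h6 : Nat.fib (k + 2) ≤ Nat.fib (k + 4) := Nat.fib_mono (by omega)
    have h7 : Nat.fib (k + (t + 1)) ≤ Nat.fib (k + 4) * Nat.fib (t + 1) :=
      h5.trans (Nat.mul_le_mul_right _ h6)
    have h8 : (Nat.fib (k + (t + 1)) : ℝ) ≤ (Nat.fib (k + 4) : ℝ) * (Nat.fib (t + 1) : ℝ) := by
      exact_mod_cast h7
    exact h8.trans (mul_le_mul_of_nonneg_left h h0)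

theorem s2h_node (k : ℕ) : 2 ^ 11 * (Nat.fib (k + 4) : ℝ) ≤ (2 : ℝ) ^ jL k := by
  have h := (node_length k).2
  have hF : 0 < (Nat.fib (k + 4) : ℝ) := by exact_mod_cast Nat.fib_pos.2 (by omega)
  exact (one_div_le_one_div (by positivity) (by positivity)).1 h

theorem s2h_len {C8 X p : ℝ} {k T1 T2 T : ℕ} (hC8 : 1 < C8) (hX : 1 ≤ X)
    (hT1 : (Nat.fib T1 : ℝ) ≤ X) (hT2 : C8 ≤ (Nat.fib T2 : ℝ)) (hT : T1 + T2 ≤ T) (hk : 5 ≤ k)
    (hp : p * (C8 * X) ≤ 1) (hp0 : 0 ≤ p) {u v : ℝ}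
    (huv : 1 / (C8 * (Nat.fib (k + T1) : ℝ)) ≤ v - u) :
    p * 2 ^ (jL (k + T) - jL k) + 2 ≤ (v - u) * 2 ^ jL (k + T) := by
  obtain ⟨D, hD⟩ : ∃ D : ℝ, D = 2 ^ (jL (k + T) - jL k) := ⟨_, rfl⟩
  obtain ⟨N1, hN1⟩ : ∃ N1 : ℝ, N1 = 2 ^ jL k := ⟨_, rfl⟩
  obtain ⟨N2, hN2⟩ : ∃ N2 : ℝ, N2 = 2 ^ jL (k + T) := ⟨_, rfl⟩
  obtain ⟨F, hF⟩ : ∃ F : ℝ, F = (Nat.fib (k + T1) : ℝ) := ⟨_, rfl⟩
  have hm : jL k ≤ jL (k + T) := jL_mono (by omega)
  have hND : N2 = N1 * D := by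
    rw [hN2, hN1, hD, ← pow_add]; congr 1; omega
  have hD0 : 0 < D := by rw [hD]; positivity
  have hN10 : 0 < N1 := by rw [hN1]; positivity
  have hF0 : 0 < F := by
    rw [hF]; exact_mod_cast Nat.fib_pos.2 (by omega)
  have hC0 : 0 < C8 := by linarith
  rw [← hD, ← hN2]
  rw [← hF] at huv
  have h1 : 2 ^ 11 * (F * C8) ≤ N2 := by
    have h2 := s2h_node (k + T)
    rw [← hN2] at h2
    have h3 : Nat.fib (k + T1) * Nat.fib T2 ≤ Nat.fib (k + T + 4) :=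
      (s2h_supermul (k + T1) T2 (by omega)).trans (Nat.fib_mono (by omega))
    have h4 : F * (Nat.fib T2 : ℝ) ≤ (Nat.fib (k + T + 4) : ℝ) := by rw [hF]; exact_mod_cast h3
    have h5 : F * C8 ≤ F * (Nat.fib T2 : ℝ) := mul_le_mul_of_nonneg_left hT2 hF0.le
    linarith
  have h2 : 2 * p * (C8 * F) ≤ N1 := by
    have h3 := s2h_node k
    rw [← hN1] at h3
    have h4 := s2h_fibT k T1 hX hT1
    rw [← hF] at h4
    have h5 : (0 : ℝ) ≤ (Nat.fib (k + 4) : ℝ) := Nat.cast_nonneg _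
    calc 2 * p * (C8 * F) ≤ 2 * p * (C8 * ((Nat.fib (k + 4) : ℝ) * X)) := by gcongr
      _ = 2 * (Nat.fib (k + 4) : ℝ) * (p * (C8 * X)) := by ring
      _ ≤ 2 * (Nat.fib (k + 4) : ℝ) * 1 := mul_le_mul_of_nonneg_left hp (by positivity)
      _ ≤ N1 := by linarith
  have h3 : N2 / (C8 * F) ≤ (v - u) * N2 := by
    have h4 : 1 / (C8 * F) * N2 ≤ (v - u) * N2 :=
      mul_le_mul_of_nonneg_right huv (by rw [hND]; positivity)
    have h5 : 1 / (C8 * F) * N2 = N2 / (C8 * F) := by ring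
    linarith
  refine le_trans ?_ h3
  rw [le_div_iff₀ (by positivity)]
  have h6 : p * D * (C8 * F) ≤ N2 / 2 := by
    rw [hND]
    have h8 := mul_le_mul_of_nonneg_right h2 hD0.le
    have h9 : 2 * p * (C8 * F) * D = 2 * (p * D * (C8 * F)) := by ring
    linarith
  have h7 : 2 * (C8 * F) ≤ N2 / 2 := by
    have h8 := mul_pos hF0 hC0
    have h9 : C8 * F = F * C8 := mul_comm _ _
    rw [h9]
    linarith
  linarith [h6, h7, add_mul (p * D) 2 (C8 * F)]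

end s2h

end SF
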