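import Pool.Agent.Helper65.SF.BK
import Pool.Agent.Helper65.SF.NG
import Pool.Agent.Helper65.SF.S2p
import Pool.Agent.Helper65.SF.S2q

/-!
# SF-S2: the logarithmic ratio is rarely small

Proof in words.
* `no_good`: iterate `geo`: among the `2^(jL (k + q G0))` nodes of level `k + q G0` those without a good ancestor at the levels
  `k+1, ..., k + q G0` are at most `(1-c6)^q 2^(jL (k+q G0))` (every node of level `k + (q-1) G0` loses a fraction c6).
* `S2`: `th = lam^(4/5)`, `A = 2 log 10`, `c = 1/10`, `Bst = (9/10) log (1/lam)`; `block_kill` gives the constants, `geo` gives G0, c6,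
  `tree_kill A c c6 G0` gives `eta, Kt, tau0, c14`.  Let `c7 = min (eta/4) (1/4)`.  `T0` minimal with `T = G0 T0 >= T1 + 20 + (log C8)/(log 2)`-like,
  `p = c lam^(77/100)` (small constant c), `tau = p lam^(-c7)`.  Check the hypotheses of `tree_kill` (all for small lam):
  `A G0 <= Bst`; `tau <= tau0`; `p <= c14 tau`; `Kt T exp (-eta Bst) tau <= p`, `Kt T exp (-eta Bst) <= 1` (as `exp (-eta Bst) = lam^(9 eta/10)`,
  `T <= C log (1/lam)`).
  Given r and d: `l0min` = least number `>= l1` with `d <= e1 fib l0min`; `H = ceil (C_H th log (1/r))`, C_H with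
  `(1-c6)^(H/G0 - 1) <= r^(2 th)`; `M` = largest number with `r <= lam^3/C8^(K (l0min+H) + M T + T1)`; for `r <= r0(lam)`:
  `l0min + H <= C th log (1/r)`, `M >= c log (1/r)/log (1/lam)`, as `th log (1/lam)` is small.
  For `l0` in `[l0min, l0min+H]`: `ks = K l0`, `B0 = C4 l0`, and
  `dead m i' = (not goodN l0 (anc jL l0 (ks+mT) i')) or (for all s in the node i' of level ks + m T: LG (1/11) n s -> r < |Gr lam n d s|)`.
  Hypothesis on dead nodes: if the l0-ancestor is not good, all descendants are dead.  Otherwise `debt_eq` and `block_kill` at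
  `k = ks + m T` give an interval `[u,v]` of length `1/(C8 fib (k+T1))` in the node; all nodes of level `k + T` inside `[u,v]` are dead; their
  number is at least `(v-u) 2^(jL (k+T)) - 2 >= (v-u) 2^(jL (k+T))/2 >= p 2^(jL (k+T) - jL k)` (`node_length`, `fib (k+T1) <= 2 fib k fib T1`-like).
  `tree_kill`: the survivors at level `ks + M T` are at most the fraction `3 exp (tau C4 l0) (1-p/4)^M`.
  Each s in the set of the theorem either has no good level (`goodN` of its node) in `[l0min, l0min+H]`: measure at most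
  `r^(2 th)` (`no_good`), or for its first such level l0 its node at level `ks + M T` is a survivor.  Total measure
  `r^(2 th) + (H+1) 3 exp (tau C4 (l0min + H)) (1-p/4)^M <= r^th`, because `tau C4 (l0min+H) <= p lam^(-c7) C th log (1/r) <= M p/16` and
  `M p/16 >= c lam^(77/100) log (1/r)/log (1/lam) >= 3 th log (1/r)`.
  `n1` so large that `k + T1 + n0 <= n` for all k used.
-/

namespace SF

open MeasureTheory Classical

section s2h

attribute [local irreducible] jL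

theorem S2 : ∃ lam1 : ℝ, 0 < lam1 ∧ lam1 ≤ 1 / 100 ∧ ∀ lam : ℝ, 0 < lam → lam ≤ lam1 →
    ∃ r0 : ℝ, 0 < r0 ∧ r0 < 1 ∧ ∀ r : ℝ, 0 < r → r ≤ r0 → ∃ n1 : ℕ, ∀ n ≥ n1, ∀ d : ℕ, 1 ≤ d →
      (d : ℝ) ≤ r ^ (-lam ^ (4 / 5 : ℝ)) →
      volume {s : ℝ | s ∈ Set.Ioo 0 1 ∧ LG (1 / 11) n s ∧ |Gr lam n d s| ≤ r}
        ≤ ENNReal.ofReal (r ^ (lam ^ (4 / 5 : ℝ))) := by
  obtain ⟨lamB, e1, C4, C8, K, hlamB0, hlamB1, he10, he11, hC4, hC8, hK, hblock⟩ := block_kill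
  obtain ⟨Gn, cn, hGn, hcn0, hcn1, hnog⟩ := no_good
  obtain ⟨G0, c6, hG0, hc60, hc61, hgeo⟩ := geo
  have hlog10 : 0 < Real.log 10 := Real.log_pos (by norm_num)
  obtain ⟨eta, Kt, tau0, c14, heta, hKt, htau0, hc14, htree⟩ :=
    s2h_main1 (2 * Real.log 10) (1 / 10) c6 G0 (by positivity) (by norm_num) hc60 hc61 hG0 hgeo
  obtain ⟨Nf, hNf⟩ := ch63_growth (1 / e1)
  have hl8 : 0 < Real.log C8 := Real.log_pos hC8
  have h1cn : 0 < 1 - cn := by linarith
  have hlp0 : 0 < -Real.log (1 - cn) := by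
    have := Real.log_neg h1cn (by linarith)
    linarith
  obtain ⟨lp, hlp⟩ : ∃ lp, lp = -Real.log (1 - cn) := ⟨_, rfl⟩
  rw [← hlp] at hlp0
  obtain ⟨T2, hT2⟩ : ∃ T2 : ℕ, C8 ≤ (Nat.fib T2 : ℝ) := by
    obtain ⟨N, hN⟩ := ch63_growth C8
    refine ⟨N, le_trans ?_ (hN N le_rfl)⟩
    have : 1 ≤ Real.exp (2 / 5 * N) := Real.one_le_exp (by positivity)
    exact le_mul_of_one_le_right (zero_le_one.trans hC8.le) this
  obtain ⟨CH, hCH⟩ : ∃ CH : ℝ, CH = 6 + 2 * (Gn : ℝ) / lp + Gn := ⟨_, rfl⟩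
  have hCH0 : 0 < CH := by rw [hCH]; positivity
  obtain ⟨Cp, hCp⟩ : ∃ Cp : ℝ, Cp = (G0 : ℝ) * (C8 + T2 + 1) := ⟨_, rfl⟩
  have hG0r : (1 : ℝ) ≤ G0 := by exact_mod_cast hG0
  have hCp0 : 0 < Cp := by rw [hCp]; positivity
  have hKr : (0 : ℝ) < K := by
    have : (3 : ℝ) ≤ K := by exact_mod_cast hK
    linarith
  obtain ⟨lamP, hlamP0, hlamP1, hpar⟩ := s2h_par (A := 2 * Real.log 10) (G := (G0 : ℝ)) (eta := eta)
    (Kt := Kt) (tau0 := tau0) (c14 := c14) (Cp := Cp) (K := (K : ℝ)) (CH := CH)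
    (l8 := Real.log C8) (C4 := C4) (C8 := C8) heta (by linarith) htau0 hc14 hCp0 hKr hCH0 hl8
    (by linarith) hC8
  refine ⟨min lamB lamP, lt_min hlamB0 hlamP0, (min_le_left _ _).trans hlamB1, ?_⟩
  intro lam hl0 hl1
  obtain ⟨l1, T1, n0, hl15, hT1L, hT1f, hblk⟩ := hblock lam hl0 (hl1.trans (min_le_left _ _))
  obtain ⟨hL1, hAG, h4K, p, tau, hpX, hp0, hp1, ht0, ht1, hpt, hTs, h32, h96⟩ :=
    hpar lam hl0 (hl1.trans (min_le_right _ _))
  have hlam100 : lam ≤ 1 / 100 := (hl1.trans (min_le_left _ _)).trans hlamB1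
  obtain ⟨L, hL⟩ : ∃ L, L = Real.log (1 / lam) := ⟨_, rfl⟩
  rw [← hL] at hL1 hAG hTs h32 h96 hT1L
  obtain ⟨th, hth⟩ : ∃ th, th = lam ^ (4 / 5 : ℝ) := ⟨_, rfl⟩
  rw [← hth] at h4K h32 h96 ⊢
  have hth0 : 0 < th := by rw [hth]; exact Real.rpow_pos_of_pos hl0 _
  obtain ⟨T0, hT0⟩ : ∃ T0 : ℕ, T0 = T1 + T2 + 1 := ⟨_, rfl⟩
  obtain ⟨T, hT⟩ : ∃ T : ℕ, T = G0 * T0 := ⟨_, rfl⟩
  have hTge : T1 + T2 + 1 ≤ T := by rw [hT, hT0]; exact Nat.le_mul_of_pos_left _ hG0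
  have hTr0 : (0 : ℝ) < T := by
    have : 0 < T := by omega
    exact_mod_cast this
  have hTle : (T : ℝ) ≤ Cp * L := by
    rw [hT, hT0]
    push_cast
    exact s2h_T hG0r (Nat.cast_nonneg _) hL1 hT1L hCp
  obtain ⟨hTs1, hTs2⟩ := hTs T hTr0.le hTle
  obtain ⟨R0, hR0, hparR⟩ := s2h_parR (th := th) (L := L) (l8 := Real.log C8) (lp := lp) (Cp := Cp)
    (CH := CH) (K := (K : ℝ)) (T := (T : ℝ)) (T1 := (T1 : ℝ)) (l1 := (l1 : ℝ)) (Nf := (Nf : ℝ))
    (Gn := (Gn : ℝ)) (e := Real.log (1 + 3 * CH)) hth0 hl8 hlp0 hTr0 (Nat.cast_nonneg _)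
    (Nat.cast_nonneg _) (Nat.cast_nonneg _) (Nat.cast_nonneg _) hKr
    (Real.log_nonneg (by linarith)) (by linarith) hCH h4K
  refine ⟨Real.exp (-R0), Real.exp_pos _, Real.exp_lt_one_iff.2 (by linarith), ?_⟩
  intro r hr0 hr1
  obtain ⟨R, hR⟩ : ∃ R, R = -Real.log r := ⟨_, rfl⟩
  have hrR : r = Real.exp (-R) := by rw [hR, neg_neg, Real.exp_log hr0]
  have hRR : R0 ≤ R := by
    have := Real.log_le_log hr0 hr1
    rw [Real.log_exp] at this
    linarith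
  have hRpos : 0 < R := by linarith
  obtain ⟨x, hx⟩ : ∃ x, x = th * R := ⟨_, rfl⟩
  obtain ⟨hx1, hxN, hxe, hxH, hxM, hxR⟩ := hparR R hRR x hx
  have hpow1 : r ^ th = Real.exp (-x) := by
    rw [hrR, ← Real.exp_mul, hx]; congr 1; ring
  have hpow2 : r ^ (-th) = Real.exp x := by
    rw [hrR, ← Real.exp_mul, hx]; congr 1; ring
  rw [hpow1, hpow2]
  have hex : 1 + 3 * CH ≤ Real.exp x := by
    rw [← Real.exp_log (show 0 < 1 + 3 * CH by linarith)]
    exact Real.exp_le_exp.2 hxe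
  obtain ⟨q, hq⟩ : ∃ q, q = ⌈2 * x / lp⌉₊ := ⟨_, rfl⟩
  obtain ⟨H, hH⟩ : ∃ H, H = q * Gn := ⟨_, rfl⟩
  obtain ⟨lm, hlm⟩ : ∃ lm, lm = l1 + ⌈5 * x⌉₊ := ⟨_, rfl⟩
  obtain ⟨M, hM⟩ : ∃ M, M = ⌊R / (2 * T * Real.log C8)⌋₊ := ⟨_, rfl⟩
  have hq1 : 2 * x / lp ≤ q := by rw [hq]; exact Nat.le_ceil _
  have hq2 : (q : ℝ) ≤ 2 * x / lp + 1 := by
    rw [hq]; exact (Nat.ceil_lt_add_one (by positivity)).le
  have hlm1 : 5 * x ≤ lm := by
    rw [hlm]; push_cast
    have := Nat.le_ceil (5 * x)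
    have : (0 : ℝ) ≤ l1 := Nat.cast_nonneg _
    linarith
  have hlm2 : (lm : ℝ) ≤ l1 + 5 * x + 1 := by
    rw [hlm]; push_cast
    have := (Nat.ceil_lt_add_one (show 0 ≤ 5 * x by positivity)).le
    linarith
  have hlmH : (lm : ℝ) + H ≤ CH * x := by
    have h1 : (H : ℝ) ≤ Gn * (2 * x / lp + 1) := by
      rw [hH]; push_cast
      rw [mul_comm]
      exact mul_le_mul_of_nonneg_left hq2 (Nat.cast_nonneg _)
    linarith
  have hM1 : (M : ℝ) ≤ R / (2 * T * Real.log C8) := by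
    rw [hM]; exact Nat.floor_le (by positivity)
  have hM2 : R / (4 * T * Real.log C8) ≤ M := by
    have := Nat.sub_one_lt_floor (R / (2 * T * Real.log C8))
    rw [← hM] at this
    linarith
  refine ⟨K * (lm + H) + M * T + T1 + n0, ?_⟩
  intro n hn d hd1 hd2
  -- the size of r
  have hrsmall : ∀ k : ℕ, k ≤ K * (lm + H) + M * T + T1 → r ≤ lam ^ 3 / C8 ^ k :=
    fun k hk => s2h_rsmall hl0 hC8 hL hrR hM1 (by push_cast; exact hlmH) hxR hk
  -- the comparison of the exponents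
  have hMp1 : tau * (C4 * (CH * x)) ≤ p * M / 8 :=
    s2h_Mp1 hp0 hCp0 hL1 hl8 hTr0 hRpos hTle hM2 hx h32
  have hMp2 : 3 * x ≤ p * M / 8 := s2h_Mp2 hp0 hCp0 hL1 hl8 hTr0 hRpos hTle hM2 hx h96
  have hlm5 : 5 ≤ lm := by rw [hlm]; omega
  -- the good part
  have hB : ∀ l0 ∈ Finset.Ioc lm (lm + H), volume {s : ℝ | s ∈ Set.Ioo 0 1 ∧
      (LG (1 / 11) n s ∧ |Gr lam n d s| ≤ r) ∧ goodN l0 (s2h_nd l0 s)} ≤
      ENNReal.ofReal (3 * Real.exp (-(3 * x))) := by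
    intro l0 hl0m
    rw [Finset.mem_Ioc] at hl0m
    have hl0r : (l0 : ℝ) ≤ CH * x := by
      have : (l0 : ℝ) ≤ (lm : ℝ) + H := by exact_mod_cast hl0m.2
      linarith
    have hl0x : 5 * x ≤ l0 := by
      have : (lm : ℝ) ≤ l0 := by exact_mod_cast hl0m.1.le
      linarith
    have hde : (d : ℝ) ≤ e1 * (Nat.fib l0 : ℝ) := by
      have h1 : Nf ≤ l0 := by
        have : (Nf : ℝ) ≤ l0 := by linarith
        exact_mod_cast this
      have h2 := hNf l0 h1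
      rw [div_mul_eq_mul_div, one_mul, div_le_iff₀ he10] at h2
      have h3 : Real.exp x ≤ Real.exp (2 / 5 * l0) := Real.exp_le_exp.2 (by linarith)
      linarith
    have hKl2 : l0 ≤ K * l0 := Nat.le_mul_of_pos_left _ (lt_of_lt_of_le (by norm_num) hK)
    have hKl : 5 ≤ K * l0 := hlm5.trans (hl0m.1.le.trans hKl2)
    have h1 := htree (9 / 10 * L) (C4 * l0) tau p T0 hAG (by positivity) (by omega) ht0 ht1 hp0 hp1
      hpt (by rw [← hT]; exact hTs1) (by rw [← hT]; exact hTs2) (K * l0) l0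
      (fun s => LG (1 / 11) n s ∧ |Gr lam n d s| ≤ r) M hKl hKl2 (by
        rw [← hT]
        intro m i hm hi hgood hdebt
        have hmT : m * T + T ≤ M * T := by
          have := Nat.mul_le_mul_right T (show m + 1 ≤ M by omega)
          linarith [this, add_mul m 1 T]
        have hKlm : K * l0 ≤ K * (lm + H) := Nat.mul_le_mul_left K hl0m.2
        obtain ⟨u, v, hu, hv, huv, hP⟩ := hblk n l0 (K * l0 + m * T) i d r (by omega) hd1 hde
          (by omega) (by omega) hr0 (hrsmall _ (by omega)) hi hgood (by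
            rw [Nat.add_sub_cancel_left, ← hL]
            exact hdebt)
        refine ⟨u, v, hu, hv, ?_, fun s hs1 hs2 hPs => ?_⟩
        · have := s2h_len (C8 := C8) (X := lam ^ (-(77 / 100) : ℝ)) (p := p) (k := K * l0 + m * T)
            (T1 := T1) (T2 := T2) (T := T) hC8 (Real.one_le_rpow_of_pos_of_le_one_of_nonpos hl0
              (by linarith) (by norm_num)) hT1f hT2 (by omega) (by omega) hpX hp0.le huv
          rw [show K * l0 + (m + 1) * T = K * l0 + m * T + T by ring]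
          exact this
        · exact absurd hPs.2 (not_le.2 (hP s hs1 hs2 hPs.1)))
    exact h1.trans (ENNReal.ofReal_le_ofReal (s2h_exp hp1 ht0 hC4 hl0r hMp1 hMp2))
  -- the part without good level
  have hA : volume {s : ℝ | s ∈ Set.Ioo 0 1 ∧
      ∀ k', lm < k' → k' ≤ lm + H → ¬ goodN k' (s2h_nd k' s)} ≤
      ENNReal.ofReal (Real.exp (-(2 * x))) := by
    have h1 := hnog lm q hlm5
    rw [← hH] at h1
    refine (s2h_vol (k := lm + H) (c := (1 - cn) ^ q) ?_ h1).trans (ENNReal.ofReal_le_ofReal ?_)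
    · rintro s ⟨⟨hs0, hs1⟩, hs2⟩
      refine ⟨hs0, ?_⟩
      rw [Finset.mem_filter, Finset.mem_range]
      refine ⟨s2h_nd_lt hs0 hs1, fun k' h2 h3 => ?_⟩
      rw [s2h_nd_anc h3]
      exact hs2 k' h2 h3
    · have h2 : (1 - cn) ^ q = Real.exp (-(lp * q)) := by
        rw [hlp, neg_mul, neg_neg, Real.exp_mul, Real.exp_log h1cn, Real.rpow_natCast]
      rw [h2]
      apply Real.exp_le_exp.2
      have h3 : 2 * x ≤ lp * q := by
        rw [div_le_iff₀ hlp0] at hq1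
        linarith
      linarith
  have hsub : {s : ℝ | s ∈ Set.Ioo 0 1 ∧ LG (1 / 11) n s ∧ |Gr lam n d s| ≤ r} ⊆
      {s : ℝ | s ∈ Set.Ioo 0 1 ∧ ∀ k', lm < k' → k' ≤ lm + H → ¬ goodN k' (s2h_nd k' s)} ∪
      ⋃ l0 ∈ Finset.Ioc lm (lm + H), {s : ℝ | s ∈ Set.Ioo 0 1 ∧
        (LG (1 / 11) n s ∧ |Gr lam n d s| ≤ r) ∧ goodN l0 (s2h_nd l0 s)} := by
    rintro s ⟨hs, hP⟩
    by_cases h : ∃ k', lm < k' ∧ k' ≤ lm + H ∧ goodN k' (s2h_nd k' s)
    · obtain ⟨k', h1, h2, h3⟩ := h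
      right
      simp only [Set.mem_iUnion]
      exact ⟨k', Finset.mem_Ioc.2 ⟨h1, h2⟩, hs, hP, h3⟩
    · left
      exact ⟨hs, fun k' h1 h2 h3 => h ⟨k', h1, h2, h3⟩⟩
  calc volume {s : ℝ | s ∈ Set.Ioo 0 1 ∧ LG (1 / 11) n s ∧ |Gr lam n d s| ≤ r}
      ≤ volume {s : ℝ | s ∈ Set.Ioo 0 1 ∧
          ∀ k', lm < k' → k' ≤ lm + H → ¬ goodN k' (s2h_nd k' s)} +
        volume (⋃ l0 ∈ Finset.Ioc lm (lm + H), {s : ℝ | s ∈ Set.Ioo 0 1 ∧
          (LG (1 / 11) n s ∧ |Gr lam n d s| ≤ r) ∧ goodN l0 (s2h_nd l0 s)}) :=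
        (measure_mono hsub).trans (measure_union_le _ _)
    _ ≤ ENNReal.ofReal (Real.exp (-(2 * x))) + ∑ l0 ∈ Finset.Ioc lm (lm + H),
        ENNReal.ofReal (3 * Real.exp (-(3 * x))) :=
        add_le_add hA ((measure_biUnion_finset_le _ _).trans (Finset.sum_le_sum hB))
    _ = ENNReal.ofReal (Real.exp (-(2 * x)) + H * (3 * Real.exp (-(3 * x)))) := by
        rw [Finset.sum_const, Nat.card_Ioc, Nat.add_sub_cancel_left, nsmul_eq_mul,
          ENNReal.ofReal_add (Real.exp_pos _).le (by positivity),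
          ENNReal.ofReal_mul (p := (H : ℝ)) (Nat.cast_nonneg _), ENNReal.ofReal_natCast]
    _ ≤ ENNReal.ofReal (Real.exp (-x)) := by
        refine ENNReal.ofReal_le_ofReal (s2h_fin (CH := CH) (by linarith) hCH0.le ?_ hex)
        have : (0 : ℝ) ≤ lm := Nat.cast_nonneg _
        linarith

end s2h

end SF
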