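import Pool.Agent.Helper65.SF.P4a

/-!
# SF-S: the linear orbit, cost function
-/

namespace SF

/-- `|sin (pi f_j s)|`. -/
noncomputable def yS (j : ℕ) (s : ℝ) : ℝ := |Real.sin (Real.pi * (Nat.fib j : ℝ) * s)|

/-- Distance of the linear orbit to the singular points at level `j`. -/
noncomputable def YS (j : ℕ) (s : ℝ) : ℝ := max (yS j s) (yS (j + 1) s)

/-- Cost of level `j`: `1` in the deep region, `lam^2 / Y^4` elsewhere. -/
noncomputable def phS (lam : ℝ) (j : ℕ) (s : ℝ) : ℝ :=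
  if YS j s ^ 2 ≤ 10 ^ 12 * lam then 1 else lam ^ 2 / YS j s ^ 4

end SF
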