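import Pool.Agent.Helper65.SF.SDefs

/-!
# SF-SG1: comparison of derivatives of angles

`F cos A = G cos B + E` near t, `F, G` close to 1, `E` small, `A` close to `B`, sines at least w.

Proof in words.  `|cos A - cos B| <= 5 e1` at t; `|sin^2 A - sin^2 B| <= 10 e1`; `sin A`, `sin B` have the same sign
(`|A - B| <= w/4`, both `>= w` in modulus), so `|sin A - sin B| <= 5 e1/w`.  Differentiate:
`A' = (G sin B/(F sin A)) B' + (F' cos A - G' cos B - E')/(F sin A)`;
`|G sin B/(F sin A) - 1| <= 100 e1/w^2`, `|1/(F sin A)| <= 2/w`.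
-/

namespace SF

theorem cmp_deriv (w e1 e2 t A' B' F' G' E' : ℝ) (F G E A B : ℝ → ℝ) (hw : 0 < w) (hw1 : w ≤ 1)
    (he1 : 0 ≤ e1) (he : e1 ≤ w ^ 2 / 100) (he2 : 0 ≤ e2)
    (hA : HasDerivAt A A' t) (hB : HasDerivAt B B' t) (hF : HasDerivAt F F' t)
    (hG : HasDerivAt G G' t) (hE : HasDerivAt E E' t)
    (heq : ∀ᶠ s in nhds t, F s * Real.cos (A s) = G s * Real.cos (B s) + E s)
    (hF1 : |F t - 1| ≤ e1) (hG1 : |G t - 1| ≤ e1) (hE1 : |E t| ≤ e1)
    (hF2 : |F'| ≤ e2) (hG2 : |G'| ≤ e2) (hE2 : |E'| ≤ e2)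
    (hsA : w ≤ |Real.sin (A t)|) (hsB : w ≤ |Real.sin (B t)|) (hAB : |A t - B t| ≤ w / 4) :
    |A' - B'| ≤ 100 * (e1 / w ^ 2) * |B'| + 6 * e2 / w := by
  have h0 : F t * Real.cos (A t) = G t * Real.cos (B t) + E t := heq.self_of_nhds
  have hd1 : HasDerivAt (fun s => F s * Real.cos (A s))
      (F' * Real.cos (A t) + F t * (-Real.sin (A t) * A')) t := hF.mul hA.cos
  have hd2 : HasDerivAt (fun s => G s * Real.cos (B s) + E s)
      (G' * Real.cos (B t) + G t * (-Real.sin (B t) * B') + E') t := (hG.mul hB.cos).add hE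
  have hdd : F' * Real.cos (A t) + F t * (-Real.sin (A t) * A')
      = G' * Real.cos (B t) + G t * (-Real.sin (B t) * B') + E' := by
    have h3 : HasDerivAt (fun s => F s * Real.cos (A s))
        (G' * Real.cos (B t) + G t * (-Real.sin (B t) * B') + E') t := hd2.congr_of_eventuallyEq heq
    exact hd1.unique h3
  -- elementary bounds
  have hcA : |Real.cos (A t)| ≤ 1 := Real.abs_cos_le_one _
  have hcB : |Real.cos (B t)| ≤ 1 := Real.abs_cos_le_one _
  have hsA1 : |Real.sin (A t)| ≤ 1 := Real.abs_sin_le_one _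
  have hsB1 : |Real.sin (B t)| ≤ 1 := Real.abs_sin_le_one _
  have hww : w ^ 2 ≤ 1 := by nlinarith only [hw, hw1]
  have he1' : e1 ≤ 1 / 100 := by linarith only [he, hww]
  have hcos : |Real.cos (A t) - Real.cos (B t)| ≤ 3 * e1 := by
    have e : Real.cos (A t) - Real.cos (B t)
        = E t - (F t - 1) * Real.cos (A t) + (G t - 1) * Real.cos (B t) := by linarith only [h0]
    rw [e]
    have k1 : |(F t - 1) * Real.cos (A t)| ≤ e1 := by
      rw [abs_mul]
      nlinarith only [abs_nonneg (F t - 1), abs_nonneg (Real.cos (A t)), he1, hF1, hcA]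
    have k2 : |(G t - 1) * Real.cos (B t)| ≤ e1 := by
      rw [abs_mul]
      nlinarith only [abs_nonneg (G t - 1), abs_nonneg (Real.cos (B t)), he1, hG1, hcB]
    have k3 := abs_add_le (E t - (F t - 1) * Real.cos (A t)) ((G t - 1) * Real.cos (B t))
    have k4 := abs_sub (E t) ((F t - 1) * Real.cos (A t))
    linarith only [hE1, k1, k2, k3, k4]
  have hsq : |Real.sin (A t) ^ 2 - Real.sin (B t) ^ 2| ≤ 6 * e1 := by
    have e : Real.sin (A t) ^ 2 - Real.sin (B t) ^ 2
        = -((Real.cos (A t) - Real.cos (B t)) * (Real.cos (A t) + Real.cos (B t))) := by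
      have q1 := Real.sin_sq_add_cos_sq (A t)
      have q2 := Real.sin_sq_add_cos_sq (B t)
      nlinarith only [q1, q2]
    rw [e, abs_neg, abs_mul]
    have k3 := abs_add_le (Real.cos (A t)) (Real.cos (B t))
    nlinarith only [abs_nonneg (Real.cos (A t) - Real.cos (B t)),
      abs_nonneg (Real.cos (A t) + Real.cos (B t)), he1, hcA, hcB, hcos, k3]
  have hsd : |Real.sin (A t) - Real.sin (B t)| ≤ w / 4 :=
    le_trans (Real.abs_sin_sub_sin_le _ _) hAB
  have hsum : 2 * w ≤ |Real.sin (A t) + Real.sin (B t)| := by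
    rcases le_total 0 (Real.sin (A t)) with h1 | h1 <;> rcases le_total 0 (Real.sin (B t)) with h2 | h2
    · rw [abs_of_nonneg h1] at hsA
      rw [abs_of_nonneg h2] at hsB
      rw [abs_of_nonneg (by linarith only [hw, hsA, hsB])]
      linarith only [hsA, hsB]
    · exfalso
      rw [abs_of_nonneg h1] at hsA
      rw [abs_of_nonpos h2] at hsB
      have := (abs_le.1 hsd).2
      linarith only [hw, hsA, hsB, this]
    · exfalso
      rw [abs_of_nonpos h1] at hsA
      rw [abs_of_nonneg h2] at hsB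
      have := (abs_le.1 hsd).1
      linarith only [hw, hsA, hsB, this]
    · rw [abs_of_nonpos h1] at hsA
      rw [abs_of_nonpos h2] at hsB
      rw [abs_of_nonpos (by linarith only [hw, hsA, hsB])]
      linarith only [hsA, hsB]
  have hsin : |Real.sin (A t) - Real.sin (B t)| * w ≤ 3 * e1 := by
    have e : Real.sin (A t) ^ 2 - Real.sin (B t) ^ 2
        = (Real.sin (A t) - Real.sin (B t)) * (Real.sin (A t) + Real.sin (B t)) := by ring
    rw [e, abs_mul] at hsq
    nlinarith only [abs_nonneg (Real.sin (A t) - Real.sin (B t)), hw, he1, hsq, hsum]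
  set a := Real.sin (A t) with ha
  set b := Real.sin (B t) with hb
  have hkey : F t * a * (A' - B') = (G t * b - F t * a) * B'
      + (F' * Real.cos (A t) - G' * Real.cos (B t) - E') := by
    linarith only [hdd]
  have hFt : 99 / 100 ≤ F t := by
    have := (abs_le.1 hF1).1
    linarith only [he, hww, this]
  have hlow : 99 / 100 * w ≤ |F t * a| := by
    rw [abs_mul, abs_of_nonneg (by linarith only [hFt] : (0 : ℝ) ≤ F t)]
    nlinarith only [hw, hsA, hFt]
  have hn1 : |G t * b - F t * a| * w ≤ 5 * e1 := by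
    have e : G t * b - F t * a = (G t - 1) * b - (F t - 1) * a - (a - b) := by ring
    have k1 : |(G t - 1) * b| ≤ e1 := by
      rw [abs_mul]
      nlinarith only [abs_nonneg (G t - 1), abs_nonneg b, hw, he1, hG1, hsB, hsB1]
    have k2 : |(F t - 1) * a| ≤ e1 := by
      rw [abs_mul]
      nlinarith only [abs_nonneg (F t - 1), abs_nonneg a, hw, he1, hF1, hsA, hsA1]
    have k3 := abs_sub ((G t - 1) * b - (F t - 1) * a) (a - b)
    have k4 := abs_sub ((G t - 1) * b) ((F t - 1) * a)
    rw [← e] at k3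
    have k5 : |G t * b - F t * a| ≤ 2 * e1 + |a - b| := by linarith only [k1, k2, k3, k4]
    have k6 : |G t * b - F t * a| * w ≤ (2 * e1 + |a - b|) * w :=
      mul_le_mul_of_nonneg_right k5 hw.le
    have k7 : e1 * w ≤ e1 := by nlinarith only [hw1, he1]
    linarith only [hsin, k6, k7]
  have hn2 : |F' * Real.cos (A t) - G' * Real.cos (B t) - E'| ≤ 3 * e2 := by
    have k1 : |F' * Real.cos (A t)| ≤ e2 := by
      rw [abs_mul]
      nlinarith only [abs_nonneg F', abs_nonneg (Real.cos (A t)), he2, hF2, hcA]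
    have k2 : |G' * Real.cos (B t)| ≤ e2 := by
      rw [abs_mul]
      nlinarith only [abs_nonneg G', abs_nonneg (Real.cos (B t)), he2, hG2, hcB]
    have k3 := abs_sub (F' * Real.cos (A t) - G' * Real.cos (B t)) E'
    have k4 := abs_sub (F' * Real.cos (A t)) (G' * Real.cos (B t))
    linarith only [hE2, k1, k2, k3, k4]
  have hprod : |F t * a| * |A' - B'| ≤ |G t * b - F t * a| * |B'| + 3 * e2 := by
    rw [← abs_mul, hkey]
    have k1 := abs_add_le ((G t * b - F t * a) * B')
      (F' * Real.cos (A t) - G' * Real.cos (B t) - E')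
    rw [abs_mul] at k1
    linarith only [hn2, k1]
  have hX : 99 / 100 * w * |A' - B'| ≤ |G t * b - F t * a| * |B'| + 3 * e2 :=
    le_trans (mul_le_mul_of_nonneg_right hlow (abs_nonneg _)) hprod
  have hX2 : 99 / 100 * w ^ 2 * |A' - B'| ≤ 5 * e1 * |B'| + 3 * e2 * w := by
    have h1 := mul_le_mul_of_nonneg_right hX hw.le
    have h2 := mul_le_mul_of_nonneg_right hn1 (abs_nonneg B')
    nlinarith only [h1, h2]
  have hw2 : 0 < w ^ 2 := by positivity
  have hR : w ^ 2 * (100 * (e1 / w ^ 2) * |B'| + 6 * e2 / w) = 100 * e1 * |B'| + 6 * e2 * w := by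
    field_simp
  have hfin : w ^ 2 * |A' - B'| ≤ w ^ 2 * (100 * (e1 / w ^ 2) * |B'| + 6 * e2 / w) := by
    rw [hR]
    have p1 : 0 ≤ e1 * |B'| := mul_nonneg he1 (abs_nonneg _)
    have p2 : 0 ≤ e2 * w := mul_nonneg he2 hw.le
    nlinarith only [hX2, p1, p2]
  exact le_of_mul_le_mul_left hfin hw2

end SF
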