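import Pool.Agent.Helper65.SF.SG1

/-!
# SF-SG2: one step of the derivative cocycle away from the singular points

At a level j with `|sin TE_j| >= w` the state is `(b, psi) = (TE lam t j, psiE lam t j)`:
`X (j-1) = r cos psi`, `X j = cos b`, `X (j+1) = r cos (psi + b)`, `X (j+2) = r cos (psi + 2b)`,
`X (j+3) = r^2 cos (2 psi + 3 b) + (r^2 - 1) cos b`, `r = rr lam b`, `r^2 = 1 + lam^2/(4 sin^2 b)`
(coord_spec; last two by the trace recursion and product formulas).

Proof in words.  `psi_deriv`: `r exp (i psi) = X (j-1) + i (X (j-1) X j - X (j+1))/sin b` is differentiable and nonzero,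
psi is continuous in t (it is `TE (j-1)` + arg of a number with positive real part), so differentiable.
`e1 = lam^2/w^2`, `|d/dt rr lam (b t)| <= (lam^2/w^3) |b'|`.
`step1` (`|sin TE (j+1)| >= w`): `cos TE(j+1) = r cos (psi + b)`: `cmp_deriv` with `A = TE(j+1)`, `B = psi + b`, F = 1, G = r
(closeness `|TE(j+1) - psi - b| <= w/4`, `|sin (psi+b)| >= w/2`: from `|TE(j+1) - TE j - TE(j-1)| <= 7 sqrt lam`
and `|psi - TE(j-1)| <= 4 sqrt lam`-type bounds; `TE(j+1)` and `psi + b` have cosines within `lam^2/w^2` and the lifted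
difference is small).  `rr (TE(j+1)) cos psi' = cos b` with `psi' = psiE (j+1)`: `cmp_deriv` with `A = psi'`, `B = b`.
`step2` (`|sin TE(j+2)|, |sin TE(j+3)| >= w`): `cos TE(j+2) = r cos(psi+2b)`;
`rr(TE(j+2)) cos (psi'' + TE(j+2)) = r^2 cos (2psi+3b) + (r^2-1) cos b` with `psi'' = psiE (j+2)`.
In all cases the error is `C (lam^2/w^4)(|b'| + |psi'|)`.
-/

namespace SF

/-- the coordinate of the energy family -/
theorem sg2_psi (lam t : ℝ) (h0 : 0 ≤ lam) (h1 : lam ≤ 1 / 100) (m : ℕ)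
    (hx : |X lam t (m + 1)| < 1) :
    rr lam (TE lam t (m + 1)) * Real.cos (psiE lam t (m + 1)) = X lam t m ∧
    rr lam (TE lam t (m + 1)) * Real.cos (psiE lam t (m + 1) + TE lam t (m + 1)) = X lam t (m + 2) ∧
    |TE lam t m - psiE lam t (m + 1)| < Real.pi / 2 ∧
    0 ≤ Real.sin (TE lam t m) * Real.sin (psiE lam t (m + 1)) := by
  have hspec := fun i => coord_spec (St_energy lam t h0) h0 h1 0 (Real.arccos (-t / 2))
    (h94_e0 lam t) (h94_e1 lam t) (m + 1) (by omega) hx i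
  have hsb : Real.sin (TE lam t (m + 1)) ≠ 0 := (sin_TE_ne lam t h0 (m + 1)).2 hx
  have c0 := hspec 0
  have c2 := hspec 2
  have e0 : W lam (TE lam t (m + 1)) (psiE lam t (m + 1)) 0 = X lam t m := c0.1
  have e2 : W lam (TE lam t (m + 1)) (psiE lam t (m + 1)) 2 = X lam t (m + 2) := c2.1
  have e1 : T0 lam (TE lam t (m + 1)) (psiE lam t (m + 1)) = TE lam t m := c0.2
  refine ⟨e0, e2, ?_, ?_⟩
  · rw [← e1]
    exact T0_near _ _ hsb
  · have h2 := congrArg Complex.im (exp_T0 (lam := lam) (TE lam t (m + 1)) (psiE lam t (m + 1)) hsb)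
    rw [e1, Complex.exp_mul_I, ← Complex.ofReal_cos, ← Complex.ofReal_sin] at h2
    have h3 : Real.sin (TE lam t m) = oW lam (TE lam t (m + 1)) (psiE lam t (m + 1)) 0 *
        Real.sqrt (1 - clip (W lam (TE lam t (m + 1)) (psiE lam t (m + 1)) 0) ^ 2) := by
      have h4 : (((Real.cos (TE lam t m) : ℝ) : ℂ) + ((Real.sin (TE lam t m) : ℝ) : ℂ) *
          Complex.I).im = Real.sin (TE lam t m) := by
        simp [-Complex.ofReal_sin, -Complex.ofReal_cos]
      rw [← h4, h2]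
      rfl
    have h5 := F3bAux.oW0_mul lam (TE lam t (m + 1)) (psiE lam t (m + 1))
    have h6 : Real.sin (TE lam t m) * Real.sin (psiE lam t (m + 1)) =
        |Real.sin (psiE lam t (m + 1))| *
        Real.sqrt (1 - clip (W lam (TE lam t (m + 1)) (psiE lam t (m + 1)) 0) ^ 2) := by
      rw [h3, ← h5]
      ring
    rw [h6]
    positivity

theorem sg2_rr (lam x : ℝ) : rr lam x = Real.sqrt (1 + lam ^ 2 / (4 * Real.sin x ^ 2)) := by
  unfold rr qq
  rw [div_pow, mul_pow, sq_abs]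
  norm_num

theorem sg2_rr_sq (lam x : ℝ) : rr lam x ^ 2 = 1 + lam ^ 2 / (4 * Real.sin x ^ 2) := by
  rw [sg2_rr, Real.sq_sqrt]
  positivity

theorem sg2_rr_bd (lam w x : ℝ) (hw : 0 < w) (hx : w ≤ |Real.sin x|) :
    0 ≤ rr lam x ^ 2 - 1 ∧ rr lam x ^ 2 - 1 ≤ lam ^ 2 / (4 * w ^ 2) ∧
      |rr lam x - 1| ≤ lam ^ 2 / (4 * w ^ 2) := by
  have h1 : w ^ 2 ≤ Real.sin x ^ 2 := by
    rw [← sq_abs (Real.sin x)]
    exact pow_le_pow_left₀ hw.le hx 2
  have h2 : rr lam x ^ 2 - 1 ≤ lam ^ 2 / (4 * w ^ 2) := by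
    rw [sg2_rr_sq, add_sub_cancel_left]
    apply div_le_div_of_nonneg_left (by positivity) (by positivity) (by linarith only [h1])
  have h3 := one_le_rr lam x
  refine ⟨by nlinarith only [h3], h2, ?_⟩
  rw [abs_of_nonneg (by linarith only [h3])]
  nlinarith only [h2, h3]

theorem sg2_rr_deriv (lam w : ℝ) (b : ℝ → ℝ) (b' t : ℝ) (hw : 0 < w)
    (hx : w ≤ |Real.sin (b t)|) (hb : HasDerivAt b b' t) :
    ∃ D E : ℝ, HasDerivAt (fun s => rr lam (b s)) D t ∧
      HasDerivAt (fun s => rr lam (b s) ^ 2) E t ∧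
      |D| ≤ lam ^ 2 / (2 * w ^ 3) * |b'| ∧ |E| ≤ lam ^ 2 / (2 * w ^ 3) * |b'| := by
  have hs : Real.sin (b t) ≠ 0 := by
    intro h
    rw [h, abs_zero] at hx
    linarith only [hw, hx]
  set E : ℝ := -(lam ^ 2 * Real.cos (b t) * b' / (2 * Real.sin (b t) ^ 3)) with hE
  have h1 : HasDerivAt (fun s => 1 + lam ^ 2 / (4 * Real.sin (b s) ^ 2)) E t := by
    have h2 := ((hb.sin).pow 2).const_mul 4
    have h2n : 4 * Real.sin (b t) ^ 2 ≠ 0 := by positivity
    have h3 := ((hasDerivAt_const t (lam ^ 2)).div h2 h2n).const_add 1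
    refine h3.congr_deriv ?_
    rw [hE]
    simp only [Pi.pow_apply]
    field_simp
    ring
  have hpos : 1 + lam ^ 2 / (4 * Real.sin (b t) ^ 2) ≠ 0 := by positivity
  have h4 := h1.sqrt hpos
  have hEb : |E| ≤ lam ^ 2 / (2 * w ^ 3) * |b'| := by
    rw [hE, abs_neg, abs_div, abs_mul, abs_mul, abs_mul, abs_pow, abs_pow]
    have hc := Real.abs_cos_le_one (b t)
    have h3 : w ^ 3 ≤ |Real.sin (b t)| ^ 3 := pow_le_pow_left₀ hw.le hx 3
    have h5 : |(2 : ℝ)| = 2 := abs_of_pos two_pos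
    rw [h5, sq_abs, div_le_iff₀ (by positivity)]
    have h6 : lam ^ 2 * |Real.cos (b t)| * |b'| ≤ lam ^ 2 * |b'| := by
      have : 0 ≤ lam ^ 2 * |b'| := by positivity
      nlinarith only [hc, this]
    have h7 : lam ^ 2 / (2 * w ^ 3) * |b'| * (2 * w ^ 3) = lam ^ 2 * |b'| := by
      field_simp
    have h8 : lam ^ 2 / (2 * w ^ 3) * |b'| * (2 * w ^ 3) ≤
        lam ^ 2 / (2 * w ^ 3) * |b'| * (2 * |Real.sin (b t)| ^ 3) :=
      mul_le_mul_of_nonneg_left (by linarith only [h3]) (by positivity)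
    linarith only [h6, h7, h8]
  have hr := one_le_rr lam (b t)
  refine ⟨E / (2 * rr lam (b t)), E, ?_, ?_, ?_, hEb⟩
  · have e : (fun s => rr lam (b s)) = fun s => Real.sqrt (1 + lam ^ 2 / (4 * Real.sin (b s) ^ 2)) := by
      funext s
      exact sg2_rr lam (b s)
    rw [e, sg2_rr lam (b t)]
    exact h4
  · have e : (fun s => rr lam (b s) ^ 2) = fun s => 1 + lam ^ 2 / (4 * Real.sin (b s) ^ 2) := by
      funext s
      exact sg2_rr_sq lam (b s)
    rw [e]
    exact h1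
  · refine le_trans ?_ hEb
    rw [abs_div, abs_of_pos (by linarith only [hr] : 0 < 2 * rr lam (b t)), div_le_iff₀ (by linarith only [hr])]
    nlinarith only [abs_nonneg E, hr]

/-- closeness of the coordinate and the angle -/
theorem sg2_close (lam w t : ℝ) (h0 : 0 < lam) (h1 : lam ≤ 1 / 100) (hw : 0 < w)
    (hK : lam ≤ w ^ 2 / 160000) (m : ℕ) (hs : w ≤ |Real.sin (TE lam t (m + 1))|) :
    |psiE lam t (m + 1) - TE lam t m| ≤ Real.sqrt lam := by
  have hne : Real.sin (TE lam t (m + 1)) ≠ 0 := by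
    intro h
    rw [h, abs_zero] at hs
    linarith only [hw, hs]
  have hx : |X lam t (m + 1)| < 1 := (sin_TE_ne lam t h0.le (m + 1)).1 hne
  obtain ⟨e0, -, hn, hsg⟩ := sg2_psi lam t h0.le h1 m hx
  obtain ⟨hr0, hr1, hr2⟩ := sg2_rr_bd lam w (TE lam t (m + 1)) hw hs
  set r := rr lam (TE lam t (m + 1)) with hr
  set psi := psiE lam t (m + 1) with hpsi
  set th := TE lam t m with hth
  have hcos : Real.cos th = clip (r * Real.cos psi) := by
    rw [hth, cos_TE lam t h0.le m, e0]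
  have hr3 := one_le_rr lam (TE lam t (m + 1))
  rw [← hr] at hr3
  have hc1 : |Real.cos th - Real.cos psi| ≤ r - 1 := by
    have h2 : clip (Real.cos psi) = Real.cos psi := clip_of_le14 (Real.abs_cos_le_one psi)
    calc |Real.cos th - Real.cos psi| = |clip (r * Real.cos psi) - clip (Real.cos psi)| := by
          rw [hcos, h2]
      _ ≤ |r * Real.cos psi - Real.cos psi| := clip_lip14 _ _
      _ = |(r - 1) * Real.cos psi| := by ring_nf
      _ ≤ (r - 1) * 1 := by
        rw [abs_mul, abs_of_nonneg (by linarith only [hr3])]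
        exact mul_le_mul_of_nonneg_left (Real.abs_cos_le_one psi) (by linarith only [hr3])
      _ = r - 1 := mul_one _
  have hc2 : (Real.cos th - Real.cos psi) ^ 2 ≤ (r - 1) ^ 2 := by
    rw [← sq_abs (Real.cos th - Real.cos psi)]
    exact pow_le_pow_left₀ (abs_nonneg _) hc1 2
  have q1 := Real.sin_sq_add_cos_sq th
  have q2 := Real.sin_sq_add_cos_sq psi
  have hs1 : (Real.sin th - Real.sin psi) ^ 2 ≤ 2 * (r - 1) := by
    refine (sq_sub_le14 hsg).trans ?_
    have h2 : Real.sin th ^ 2 - Real.sin psi ^ 2 =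
        -((Real.cos th - Real.cos psi) * (Real.cos th + Real.cos psi)) := by nlinarith only [q1, q2]
    rw [h2, abs_neg, abs_mul]
    have h3 : |Real.cos th + Real.cos psi| ≤ 2 := by
      have := abs_add_le (Real.cos th) (Real.cos psi)
      linarith only [Real.abs_cos_le_one th, Real.abs_cos_le_one psi, this]
    calc |Real.cos th - Real.cos psi| * |Real.cos th + Real.cos psi| ≤ (r - 1) * 2 :=
          mul_le_mul hc1 h3 (abs_nonneg _) (by linarith only [hr3])
      _ = 2 * (r - 1) := by ring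
  have hcd : Real.cos (psi - th) = 1 - ((Real.cos th - Real.cos psi) ^ 2 +
      (Real.sin th - Real.sin psi) ^ 2) / 2 := by
    rw [Real.cos_sub]
    nlinarith only [q1, q2]
  have hq := Real.cos_le_one_sub_mul_cos_sq (x := psi - th) (by
    rw [abs_sub_comm]
    linarith only [Real.pi_pos, hn])
  rw [hcd] at hq
  have hpi : Real.pi ^ 2 ≤ 10 := by
    have := Real.pi_lt_d2
    nlinarith only [Real.pi_pos, h0, h1, this]
  have hlam2 : lam ^ 2 / (4 * w ^ 2) ≤ lam / 640000 := by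
    rw [div_le_iff₀ (by positivity)]
    nlinarith only [h0, hK]
  have hfin : (psi - th) ^ 2 ≤ lam := by
    have h2 : 2 / Real.pi ^ 2 * (psi - th) ^ 2 ≤ ((r - 1) ^ 2 + 2 * (r - 1)) / 2 := by linarith only [hc2, hs1, hq]
    have h3 : 2 / 10 * (psi - th) ^ 2 ≤ 2 / Real.pi ^ 2 * (psi - th) ^ 2 := by
      apply mul_le_mul_of_nonneg_right _ (sq_nonneg _)
      apply div_le_div_of_nonneg_left (by norm_num) (by positivity) hpi
    have h4 : r - 1 ≤ lam / 640000 := by
      rw [abs_of_nonneg (by linarith only [hr3])] at hr2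
      linarith only [hr2, hlam2]
    have h5 : (r - 1) ^ 2 ≤ r - 1 := by nlinarith only [h1, hr1, hr3, hlam2]
    linarith only [h0, hr1, hc2, hs1, hq, hlam2, h3]
  exact Real.abs_le_sqrt hfin

/-- near `t` the level stays elliptic -/
theorem sg2_ev (lam t : ℝ) (j : ℕ) (hx : |X lam t j| < 1) : ∀ᶠ s in nhds t, |X lam s j| < 1 :=
  ((X_differentiable lam j).continuous.abs.continuousAt).eventually_lt continuousAt_const hx

theorem sg2_psi_sin (lam t : ℝ) (h0 : 0 ≤ lam) (h1 : lam ≤ 1 / 100) (m : ℕ)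
    (hx : |X lam t (m + 1)| < 1) :
    Real.cos (psiE lam t (m + 1)) = X lam t m / rr lam (TE lam t (m + 1)) ∧
    Real.sin (psiE lam t (m + 1)) = (X lam t m * X lam t (m + 1) - X lam t (m + 2)) /
      (rr lam (TE lam t (m + 1)) * Real.sin (TE lam t (m + 1))) := by
  obtain ⟨e0, e2, -, -⟩ := sg2_psi lam t h0 h1 m hx
  have hr := one_le_rr lam (TE lam t (m + 1))
  have hrne : rr lam (TE lam t (m + 1)) ≠ 0 := by linarith only [hr]
  have hs : Real.sin (TE lam t (m + 1)) ≠ 0 := (sin_TE_ne lam t h0 (m + 1)).2 hx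
  have hc : Real.cos (TE lam t (m + 1)) = X lam t (m + 1) := by
    rw [cos_TE lam t h0, clip_of_lt hx]
  constructor
  · rw [eq_div_iff hrne, ← e0]
    ring
  · rw [eq_div_iff (mul_ne_zero hrne hs)]
    rw [Real.cos_add] at e2
    rw [← hc, ← e0, ← e2]
    ring

theorem sg2_psi_cont (lam t : ℝ) (h0 : 0 < lam) (h1 : lam ≤ 1 / 100) (m : ℕ)
    (hx : |X lam t (m + 1)| < 1) : ContinuousAt (fun s => psiE lam s (m + 1)) t := by
  have hs : Real.sin (TE lam t (m + 1)) ≠ 0 := (sin_TE_ne lam t h0.le (m + 1)).2 hx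
  obtain ⟨e0, e2, hn, -⟩ := sg2_psi lam t h0.le h1 m hx
  set Z : ℝ → ℂ := fun s => (⟨X lam s m, (X lam s m * X lam s (m + 1) - X lam s (m + 2)) /
    Real.sin (TE lam s (m + 1))⟩ : ℂ) * Complex.exp (-(TE lam s m : ℂ) * Complex.I) with hZ
  have hdef : (fun s => psiE lam s (m + 1)) = fun s => TE lam s m + Complex.arg (Z s) := rfl
  have hcX : ∀ k, ContinuousAt (fun s => X lam s k) t := fun k =>
    (X_differentiable lam k).continuous.continuousAt
  have hcT : ∀ k, ContinuousAt (fun s => TE lam s k) t := fun k =>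
    (TE_continuous lam h0.le h1 k).continuousAt
  have hcZ : ContinuousAt Z t := by
    have e : Z = fun s => (((X lam s m : ℝ) : ℂ) +
        (((X lam s m * X lam s (m + 1) - X lam s (m + 2)) /
          Real.sin (TE lam s (m + 1)) : ℝ) : ℂ) * Complex.I) *
        Complex.exp (-(TE lam s m : ℂ) * Complex.I) := by
      funext s
      rw [hZ]
      simp only
      rw [Complex.mk_eq_add_mul_I]
    rw [e]
    have c1 : ContinuousAt (fun s => ((X lam s m : ℝ) : ℂ)) t :=
      Complex.continuous_ofReal.continuousAt.comp (hcX m)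
    have c2 : ContinuousAt (fun s => (((X lam s m * X lam s (m + 1) - X lam s (m + 2)) /
          Real.sin (TE lam s (m + 1)) : ℝ) : ℂ)) t := by
      apply Complex.continuous_ofReal.continuousAt.comp
      exact (((hcX m).mul (hcX (m + 1))).sub (hcX (m + 2))).div
        (Real.continuous_sin.continuousAt.comp (hcT (m + 1))) hs
    have c3 : ContinuousAt (fun s => Complex.exp (-(TE lam s m : ℂ) * Complex.I)) t := by
      apply Complex.continuous_exp.continuousAt.comp
      exact ((Complex.continuous_ofReal.continuousAt.comp (hcT m)).neg).mul continuousAt_const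
    exact (c1.add (c2.mul continuousAt_const)).mul c3
  have hslit : Z t ∈ Complex.slitPlane := by
    have h2 : |Complex.arg (Z t)| < Real.pi / 2 := by
      have h3 : psiE lam t (m + 1) = TE lam t m + Complex.arg (Z t) := congrFun hdef t
      rw [h3] at hn
      have : TE lam t m - (TE lam t m + Complex.arg (Z t)) = -Complex.arg (Z t) := by ring
      rw [this, abs_neg] at hn
      exact hn
    rcases Complex.abs_arg_lt_pi_div_two_iff.1 h2 with h3 | h3
    · exact Or.inl h3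
    · exfalso
      rw [hZ] at h3
      simp only [mul_eq_zero, Complex.exp_ne_zero, or_false] at h3
      have h4 : X lam t m = 0 := by
        have := congrArg Complex.re h3
        simpa using this
      have h5 : (X lam t m * X lam t (m + 1) - X lam t (m + 2)) /
          Real.sin (TE lam t (m + 1)) = 0 := by
        have := congrArg Complex.im h3
        simpa using this
      rw [div_eq_zero_iff] at h5
      obtain ⟨g1, g2⟩ := sg2_psi_sin lam t h0.le h1 m hx
      rcases h5 with h5 | h5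
      · rw [h5, zero_div] at g2
        rw [h4, zero_div] at g1
        have := Real.sin_sq_add_cos_sq (psiE lam t (m + 1))
        rw [g1, g2] at this
        norm_num at this
      · exact hs h5
  rw [hdef]
  exact (hcT m).add ((Complex.continuousAt_arg hslit).comp hcZ)

theorem psi_deriv (lam t : ℝ) (h0 : 0 < lam) (h1 : lam ≤ 1 / 100) (j : ℕ) (hj : 1 ≤ j)
    (hx : |X lam t j| < 1) : ∃ d : ℝ, HasDerivAt (fun s => psiE lam s j) d t := by
  obtain ⟨m, rfl⟩ : ∃ m, j = m + 1 := ⟨j - 1, by omega⟩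
  obtain ⟨b', -, hb, -⟩ := TE_deriv lam t h0.le h1 (m + 1) (by omega) hx
  have hs : Real.sin (TE lam t (m + 1)) ≠ 0 := (sin_TE_ne lam t h0.le (m + 1)).2 hx
  obtain ⟨D, -, hD, -, -, -⟩ := sg2_rr_deriv lam |Real.sin (TE lam t (m + 1))|
    (fun s => TE lam s (m + 1)) b' t (abs_pos.mpr hs) le_rfl hb
  have hr := one_le_rr lam (TE lam t (m + 1))
  have hrne : rr lam (TE lam t (m + 1)) ≠ 0 := by linarith only [h0, h1, hr]
  have hXd : ∀ k, HasDerivAt (fun s => X lam s k) (deriv (fun s => X lam s k) t) t := fun k =>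
    ((X_differentiable lam k) t).hasDerivAt
  have hc := sg2_psi_cont lam t h0 h1 m hx
  have f1 := (hXd m).div hD hrne
  have f2 := (((hXd m).mul (hXd (m + 1))).sub (hXd (m + 2))).div (hD.mul hb.sin)
    (mul_ne_zero hrne hs)
  have hev := sg2_ev lam t (m + 1) hx
  by_cases hz : Real.sin (psiE lam t (m + 1)) = 0
  · have hcn : Real.cos (psiE lam t (m + 1)) ≠ 0 := by
      intro h
      have := Real.sin_sq_add_cos_sq (psiE lam t (m + 1))
      rw [hz, h] at this
      norm_num at this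
    have h3 := hasDerivAt_of_cos (fun s => psiE lam s (m + 1) - Real.pi / 2) _ t _
      (hc.sub continuousAt_const) f2 (by
        filter_upwards [hev] with s hs'
        rw [Real.cos_sub_pi_div_two]
        exact (sg2_psi_sin lam s h0.le h1 m hs').2) (by
        show Real.sin (psiE lam t (m + 1) - Real.pi / 2) ≠ 0
        rw [Real.sin_sub_pi_div_two]
        exact neg_ne_zero.mpr hcn)
    have h4 := h3.add_const (Real.pi / 2)
    refine ⟨_, h4.congr_of_eventuallyEq (Filter.Eventually.of_forall fun s => ?_)⟩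
    simp
  · exact ⟨_, hasDerivAt_of_cos (fun s => psiE lam s (m + 1)) _ t _ hc f1 (by
      filter_upwards [hev] with s hs'
      exact (sg2_psi_sin lam s h0.le h1 m hs').1) hz⟩

/-- packaged comparison -/
theorem sg2_cmp (lam w t A' B' F' G' E' M : ℝ) (F G E A B : ℝ → ℝ) (h0 : 0 < lam) (hw : 0 < w)
    (hw1 : w ≤ 1) (hK : lam ≤ w ^ 2 / 160000) (hM : 0 ≤ M)
    (hA : HasDerivAt A A' t) (hB : HasDerivAt B B' t) (hF : HasDerivAt F F' t)
    (hG : HasDerivAt G G' t) (hE : HasDerivAt E E' t)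
    (heq : ∀ᶠ s in nhds t, F s * Real.cos (A s) = G s * Real.cos (B s) + E s)
    (hF1 : |F t - 1| ≤ lam ^ 2 / (4 * w ^ 2)) (hG1 : |G t - 1| ≤ lam ^ 2 / (4 * w ^ 2))
    (hE1 : |E t| ≤ lam ^ 2 / (4 * w ^ 2)) (hF2 : |F'| ≤ lam ^ 2 / w ^ 3 * M)
    (hG2 : |G'| ≤ lam ^ 2 / w ^ 3 * M) (hE2 : |E'| ≤ lam ^ 2 / w ^ 3 * M)
    (hsA : w / 2 ≤ |Real.sin (A t)|) (hsB : w / 2 ≤ |Real.sin (B t)|)
    (hAB : |A t - B t| ≤ w / 8) :
    |A' - B'| ≤ 100 * (lam ^ 2 / w ^ 4) * |B'| + 12 * (lam ^ 2 / w ^ 4) * M := by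
  have hle : lam ^ 2 / (4 * w ^ 2) ≤ (w / 2) ^ 2 / 100 := by
    rw [div_le_iff₀ (by positivity)]
    have h2 : lam ^ 2 ≤ (w ^ 2 / 160000) ^ 2 := pow_le_pow_left₀ h0.le hK 2
    nlinarith only [pow_pos hw 4, h2]
  have h := cmp_deriv (w / 2) (lam ^ 2 / (4 * w ^ 2)) (lam ^ 2 / w ^ 3 * M) t A' B' F' G' E' F G E A B
    (by positivity) (by linarith only [hw1]) (by positivity) hle (by positivity) hA hB hF hG hE heq hF1 hG1 hE1
    hF2 hG2 hE2 hsA hsB (by linarith only [hAB])
  refine h.trans (le_of_eq ?_)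
  field_simp
  ring

theorem sg2_sq (lam w : ℝ) (h0 : 0 < lam) (hw : 0 < w) (hK : 400 * Real.sqrt lam ≤ w) :
    lam ≤ w ^ 2 / 160000 := by
  have h2 : (400 * Real.sqrt lam) ^ 2 ≤ w ^ 2 := pow_le_pow_left₀ (by positivity) hK 2
  rw [mul_pow, Real.sq_sqrt h0.le] at h2
  linarith only [h2]

theorem sg2_sin (w x y : ℝ) (hx : w ≤ |Real.sin x|) (hxy : |x - y| ≤ w / 2) :
    w / 2 ≤ |Real.sin y| := by
  have h1 := Real.abs_sin_sub_sin_le x y
  have h2 := abs_sub_abs_le_abs_sub (Real.sin x) (Real.sin y)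
  linarith only [hx, hxy, h1, h2]

/-- Step from level `j` to level `j+1`. -/
theorem step1 : ∃ C K : ℝ, 1 ≤ C ∧ 1 ≤ K ∧ ∀ (lam w t : ℝ), 0 < lam → lam ≤ 1 / 100 → 0 < w → w ≤ 1 →
    K * Real.sqrt lam ≤ w → ∀ j : ℕ, 1 ≤ j → w ≤ |Real.sin (TE lam t j)| →
      w ≤ |Real.sin (TE lam t (j + 1))| → ∀ b p b1 p1 : ℝ,
      HasDerivAt (fun s => TE lam s j) b t → HasDerivAt (fun s => psiE lam s j) p t →
      HasDerivAt (fun s => TE lam s (j + 1)) b1 t → HasDerivAt (fun s => psiE lam s (j + 1)) p1 t →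
      |b1 - (b + p)| ≤ C * (lam ^ 2 / w ^ 4) * (|b| + |p|) ∧
        |p1 - b| ≤ C * (lam ^ 2 / w ^ 4) * (|b| + |p|) := by
  refine ⟨10 ^ 4, 400, by norm_num, by norm_num, ?_⟩
  intro lam w t h0 h1 hw hw1 hK j hj hsj hsj1 b p b1 p1 hb hp hb1 hp1
  obtain ⟨m, rfl⟩ : ∃ m, j = m + 1 := ⟨j - 1, by omega⟩
  have hlw := sg2_sq lam w h0 hw hK
  have hne1 : Real.sin (TE lam t (m + 1)) ≠ 0 := by
    intro h
    rw [h, abs_zero] at hsj
    linarith only [hw, hsj]
  have hne2 : Real.sin (TE lam t (m + 2)) ≠ 0 := by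
    intro h
    have hsj1' : w ≤ |Real.sin (TE lam t (m + 2))| := hsj1
    rw [h, abs_zero] at hsj1'
    linarith only [hw, hsj1']
  have hx1 : |X lam t (m + 1)| < 1 := (sin_TE_ne lam t h0.le (m + 1)).1 hne1
  have hx2 : |X lam t (m + 2)| < 1 := (sin_TE_ne lam t h0.le (m + 2)).1 hne2
  have hev1 := sg2_ev lam t (m + 1) hx1
  have hev2 := sg2_ev lam t (m + 2) hx2
  have hc1 := sg2_close lam w t h0 h1 hw hlw m hsj
  have hc2 := sg2_close lam w t h0 h1 hw hlw (m + 1) hsj1
  have hd1 := TE_defect lam t h0.le h1 m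
  obtain ⟨q1, q2, q3⟩ := sg2_rr_bd lam w (TE lam t (m + 1)) hw hsj
  obtain ⟨q1', q2', q3'⟩ := sg2_rr_bd lam w (TE lam t (m + 2)) hw hsj1
  obtain ⟨D, E, hD, -, hDb, -⟩ := sg2_rr_deriv lam w (fun s => TE lam s (m + 1)) b t hw hsj hb
  obtain ⟨D', E', hD', -, hDb', -⟩ := sg2_rr_deriv lam w (fun s => TE lam s (m + 2)) b1 t hw hsj1 hb1
  have hsq : 0 ≤ Real.sqrt lam := Real.sqrt_nonneg _
  have hz : (0 : ℝ) ≤ lam ^ 2 / (4 * w ^ 2) := by positivity
  have hhalf : lam ^ 2 / (2 * w ^ 3) ≤ lam ^ 2 / w ^ 3 := by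
    apply div_le_div_of_nonneg_left (by positivity) (by positivity)
    have : 0 < w ^ 3 := by positivity
    linarith only [this]
  have hzero : ∀ M : ℝ, 0 ≤ M → |(0 : ℝ)| ≤ lam ^ 2 / w ^ 3 * M := by
    intro M hM
    rw [abs_zero]
    positivity
  set Q := lam ^ 2 / w ^ 4 with hQ
  have hQ0 : 0 ≤ Q := by positivity
  have hQ1 : Q ≤ 1 / 10000 := by
    rw [hQ, div_le_iff₀ (by positivity)]
    have h2 : lam ^ 2 ≤ (w ^ 2 / 160000) ^ 2 := pow_le_pow_left₀ h0.le hlw 2
    nlinarith only [pow_pos hw 4, h2]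
  -- first comparison
  have hcl : |TE lam t (m + 2) - (psiE lam t (m + 1) + TE lam t (m + 1))| ≤ 8 * Real.sqrt lam := by
    have e : TE lam t (m + 2) - (psiE lam t (m + 1) + TE lam t (m + 1)) =
        (TE lam t (m + 2) - TE lam t (m + 1) - TE lam t m) - (psiE lam t (m + 1) - TE lam t m) := by
      ring
    rw [e]
    have := abs_sub (TE lam t (m + 2) - TE lam t (m + 1) - TE lam t m)
      (psiE lam t (m + 1) - TE lam t m)
    linarith only [hc1, hd1, this]
  have g1 := sg2_cmp lam w t b1 (p + b) 0 D 0 |b| (fun _ => 1) (fun s => rr lam (TE lam s (m + 1)))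
    (fun _ => 0) (fun s => TE lam s (m + 2)) (fun s => psiE lam s (m + 1) + TE lam s (m + 1)) h0 hw hw1
    hlw (abs_nonneg _) hb1 (hp.add hb) (hasDerivAt_const _ _) hD (hasDerivAt_const _ _)
    (by
      filter_upwards [hev1, hev2] with s hs1 hs2
      rw [one_mul, add_zero, cos_TE lam s h0.le, clip_of_lt hs2]
      exact (sg2_psi lam s h0.le h1 m hs1).2.1.symm)
    (by simpa using hz) q3 (by simpa using hz) (hzero _ (abs_nonneg _))
    (hDb.trans (mul_le_mul_of_nonneg_right hhalf (abs_nonneg _))) (hzero _ (abs_nonneg _))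
    (by
      have : w ≤ |Real.sin (TE lam t (m + 2))| := hsj1
      show w / 2 ≤ |Real.sin (TE lam t (m + 2))|
      linarith only [hw, hsj1])
    (sg2_sin w _ _ hsj1 (hcl.trans (by linarith only [hw, hK]))) (hcl.trans (by linarith only [hw, hK]))
  have hb0 := abs_nonneg b
  have hp0 := abs_nonneg p
  have hpb : |p + b| ≤ |b| + |p| := by
    have := abs_add_le p b
    linarith only [this]
  have r1 : |b1 - (b + p)| ≤ 112 * Q * (|b| + |p|) := by
    rw [add_comm b p]
    refine g1.trans ?_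
    have i1 : 100 * Q * |p + b| ≤ 100 * Q * (|b| + |p|) :=
      mul_le_mul_of_nonneg_left hpb (by positivity)
    have i2 : 12 * Q * |b| ≤ 12 * Q * (|b| + |p|) :=
      mul_le_mul_of_nonneg_left (by linarith only [hp0]) (by positivity)
    linarith only [i1, i2]
  have hb1b : |b1| ≤ 2 * (|b| + |p|) := by
    have i1 : |b1| ≤ |b1 - (b + p)| + |b + p| := by
      have := abs_add_le (b1 - (b + p)) (b + p)
      rwa [sub_add_cancel] at this
    have i2 := abs_add_le b p
    have i3 : 112 * Q * (|b| + |p|) ≤ 1 * (|b| + |p|) :=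
      mul_le_mul_of_nonneg_right (by linarith only [h0, h1, hQ1]) (by positivity)
    linarith only [r1, i1, i2, i3]
  -- second comparison
  have g2 := sg2_cmp lam w t p1 b D' 0 0 |b1| (fun s => rr lam (TE lam s (m + 2))) (fun _ => 1)
    (fun _ => 0) (fun s => psiE lam s (m + 2)) (fun s => TE lam s (m + 1)) h0 hw hw1
    hlw (abs_nonneg _) hp1 hb hD' (hasDerivAt_const _ _) (hasDerivAt_const _ _)
    (by
      filter_upwards [hev1, hev2] with s hs1 hs2
      rw [one_mul, add_zero, cos_TE lam s h0.le, clip_of_lt hs1]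
      exact (sg2_psi lam s h0.le h1 (m + 1) hs2).1)
    q3' (by simpa using hz) (by simpa using hz)
    (hDb'.trans (mul_le_mul_of_nonneg_right hhalf (abs_nonneg _))) (hzero _ (abs_nonneg _))
    (hzero _ (abs_nonneg _))
    (sg2_sin w _ _ hsj (by rw [abs_sub_comm]; exact hc2.trans (by linarith only [hw, hK])))
    (by
      show w / 2 ≤ |Real.sin (TE lam t (m + 1))|
      linarith only [hw, hsj]) (hc2.trans (by linarith only [hw, hK]))
  have r2 : |p1 - b| ≤ 124 * Q * (|b| + |p|) := by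
    refine g2.trans ?_
    have i1 : 100 * Q * |b| ≤ 100 * Q * (|b| + |p|) :=
      mul_le_mul_of_nonneg_left (by linarith only [hp0]) (by positivity)
    have i2 : 12 * Q * |b1| ≤ 12 * Q * (2 * (|b| + |p|)) :=
      mul_le_mul_of_nonneg_left hb1b (by positivity)
    linarith only [i1, i2]
  have hQs : 0 ≤ Q * (|b| + |p|) := by positivity
  constructor <;> nlinarith

/-- Step from level `j` to level `j+2`. -/
theorem step2 : ∃ C K : ℝ, 1 ≤ C ∧ 1 ≤ K ∧ ∀ (lam w t : ℝ), 0 < lam → lam ≤ 1 / 100 → 0 < w → w ≤ 1 →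
    K * Real.sqrt lam ≤ w → ∀ j : ℕ, 1 ≤ j → w ≤ |Real.sin (TE lam t j)| →
      w ≤ |Real.sin (TE lam t (j + 2))| → w ≤ |Real.sin (TE lam t (j + 3))| → ∀ b p b2 p2 : ℝ,
      HasDerivAt (fun s => TE lam s j) b t → HasDerivAt (fun s => psiE lam s j) p t →
      HasDerivAt (fun s => TE lam s (j + 2)) b2 t → HasDerivAt (fun s => psiE lam s (j + 2)) p2 t →
      |b2 - (2 * b + p)| ≤ C * (lam ^ 2 / w ^ 4) * (|b| + |p|) ∧
        |p2 - (b + p)| ≤ C * (lam ^ 2 / w ^ 4) * (|b| + |p|) := by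
  refine ⟨10 ^ 4, 400, by norm_num, by norm_num, ?_⟩
  intro lam w t h0 h1 hw hw1 hK j hj hsj hsj2 hsj3 b p b2 p2 hb hp hb2 hp2
  obtain ⟨m, rfl⟩ : ∃ m, j = m + 1 := ⟨j - 1, by omega⟩
  have hlw := sg2_sq lam w h0 hw hK
  have hsj2' : w ≤ |Real.sin (TE lam t (m + 3))| := hsj2
  have hsj3' : w ≤ |Real.sin (TE lam t (m + 4))| := hsj3
  have hne1 : Real.sin (TE lam t (m + 1)) ≠ 0 := by
    intro h
    rw [h, abs_zero] at hsj
    linarith only [hw, hsj]
  have hne3 : Real.sin (TE lam t (m + 3)) ≠ 0 := by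
    intro h
    rw [h, abs_zero] at hsj2'
    linarith only [hw, hsj2']
  have hne4 : Real.sin (TE lam t (m + 4)) ≠ 0 := by
    intro h
    rw [h, abs_zero] at hsj3'
    linarith only [hw, hsj3']
  have hx1 : |X lam t (m + 1)| < 1 := (sin_TE_ne lam t h0.le (m + 1)).1 hne1
  have hx3 : |X lam t (m + 3)| < 1 := (sin_TE_ne lam t h0.le (m + 3)).1 hne3
  have hev1 := sg2_ev lam t (m + 1) hx1
  have hev3 := sg2_ev lam t (m + 3) hx3
  have hc1 := sg2_close lam w t h0 h1 hw hlw m hsj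
  have hc3 := sg2_close lam w t h0 h1 hw hlw (m + 2) hsj2'
  have hd0 := TE_defect lam t h0.le h1 m
  have hd1 := TE_defect lam t h0.le h1 (m + 1)
  have hd2 := TE_defect lam t h0.le h1 (m + 2)
  have hd1' : |TE lam t (m + 3) - TE lam t (m + 2) - TE lam t (m + 1)| ≤ 7 * Real.sqrt lam := hd1
  have hd2' : |TE lam t (m + 4) - TE lam t (m + 3) - TE lam t (m + 2)| ≤ 7 * Real.sqrt lam := hd2
  obtain ⟨q1, q2, q3⟩ := sg2_rr_bd lam w (TE lam t (m + 1)) hw hsj
  obtain ⟨q1', q2', q3'⟩ := sg2_rr_bd lam w (TE lam t (m + 3)) hw hsj2'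
  obtain ⟨D, E, hD, hE, hDb, hEb⟩ := sg2_rr_deriv lam w (fun s => TE lam s (m + 1)) b t hw hsj hb
  obtain ⟨D', -, hD', -, hDb', -⟩ := sg2_rr_deriv lam w (fun s => TE lam s (m + 3)) b2 t hw hsj2' hb2
  have hsq : 0 ≤ Real.sqrt lam := Real.sqrt_nonneg _
  have hz : (0 : ℝ) ≤ lam ^ 2 / (4 * w ^ 2) := by positivity
  have hhalf : lam ^ 2 / (2 * w ^ 3) ≤ lam ^ 2 / w ^ 3 := by
    apply div_le_div_of_nonneg_left (by positivity) (by positivity)
    have : 0 < w ^ 3 := by positivity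
    linarith only [this]
  have hzero : ∀ M : ℝ, 0 ≤ M → |(0 : ℝ)| ≤ lam ^ 2 / w ^ 3 * M := by
    intro M hM
    rw [abs_zero]
    positivity
  have hB0 := abs_nonneg b
  have hP0 := abs_nonneg p
  have hB20 := abs_nonneg b2
  set Q := lam ^ 2 / w ^ 4 with hQ
  have hQ0 : 0 ≤ Q := by positivity
  have hQ1 : Q ≤ 1 / 10000 := by
    rw [hQ, div_le_iff₀ (by positivity)]
    have h2 : lam ^ 2 ≤ (w ^ 2 / 160000) ^ 2 := pow_le_pow_left₀ h0.le hlw 2
    nlinarith only [pow_pos hw 4, h2]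
  -- first comparison
  have hcl : |TE lam t (m + 3) - (psiE lam t (m + 1) + 2 * TE lam t (m + 1))| ≤
      15 * Real.sqrt lam := by
    have e : TE lam t (m + 3) - (psiE lam t (m + 1) + 2 * TE lam t (m + 1)) =
        (TE lam t (m + 3) - TE lam t (m + 2) - TE lam t (m + 1)) +
        (TE lam t (m + 2) - TE lam t (m + 1) - TE lam t m) - (psiE lam t (m + 1) - TE lam t m) := by
      ring
    rw [e]
    have i1 := abs_sub ((TE lam t (m + 3) - TE lam t (m + 2) - TE lam t (m + 1)) +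
        (TE lam t (m + 2) - TE lam t (m + 1) - TE lam t m)) (psiE lam t (m + 1) - TE lam t m)
    have i2 := abs_add_le (TE lam t (m + 3) - TE lam t (m + 2) - TE lam t (m + 1))
        (TE lam t (m + 2) - TE lam t (m + 1) - TE lam t m)
    linarith only [hc1, hd0, hd1, i1, i2]
  have trig1 : ∀ psi x : ℝ, Real.cos (psi + 2 * x) = 2 * Real.cos (psi + x) * Real.cos x -
      Real.cos psi := by
    intro psi x
    have i1 := Real.cos_add (psi + x) x
    have i2 := Real.cos_sub (psi + x) x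
    rw [show psi + x + x = psi + 2 * x by ring] at i1
    rw [show psi + x - x = psi by ring] at i2
    linarith only [i1, i2]
  have trig2 : ∀ psi x : ℝ, Real.cos (2 * psi + 3 * x) = 2 * Real.cos (psi + 2 * x) *
      Real.cos (psi + x) - Real.cos x := by
    intro psi x
    have i1 := Real.cos_add (psi + 2 * x) (psi + x)
    have i2 := Real.cos_sub (psi + 2 * x) (psi + x)
    rw [show psi + 2 * x + (psi + x) = 2 * psi + 3 * x by ring] at i1
    rw [show psi + 2 * x - (psi + x) = x by ring] at i2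
    linarith only [i1, i2]
  have hX3 : ∀ s, |X lam s (m + 1)| < 1 → X lam s (m + 3) =
      rr lam (TE lam s (m + 1)) * Real.cos (psiE lam s (m + 1) + 2 * TE lam s (m + 1)) := by
    intro s hs
    obtain ⟨k0, k2, -, -⟩ := sg2_psi lam s h0.le h1 m hs
    have k1 : Real.cos (TE lam s (m + 1)) = X lam s (m + 1) := by
      rw [cos_TE lam s h0.le, clip_of_lt hs]
    have k3 : X lam s (m + 3) = 2 * X lam s (m + 2) * X lam s (m + 1) - X lam s m := rfl
    rw [k3, trig1, ← k0, ← k1, ← k2]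
    ring
  have hX4 : ∀ s, |X lam s (m + 1)| < 1 → X lam s (m + 4) =
      rr lam (TE lam s (m + 1)) ^ 2 * Real.cos (2 * psiE lam s (m + 1) + 3 * TE lam s (m + 1)) +
      (rr lam (TE lam s (m + 1)) ^ 2 - 1) * Real.cos (TE lam s (m + 1)) := by
    intro s hs
    obtain ⟨k0, k2, -, -⟩ := sg2_psi lam s h0.le h1 m hs
    have k1 : Real.cos (TE lam s (m + 1)) = X lam s (m + 1) := by
      rw [cos_TE lam s h0.le, clip_of_lt hs]
    have k4 : X lam s (m + 4) = 2 * X lam s (m + 3) * X lam s (m + 2) - X lam s (m + 1) := rfl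
    rw [k4, trig2, hX3 s hs, ← k2, ← k1]
    ring
  have g1 := sg2_cmp lam w t b2 (p + 2 * b) 0 D 0 |b| (fun _ => 1)
    (fun s => rr lam (TE lam s (m + 1)))
    (fun _ => 0) (fun s => TE lam s (m + 3)) (fun s => psiE lam s (m + 1) + 2 * TE lam s (m + 1))
    h0 hw hw1 hlw (abs_nonneg _) hb2 (hp.add (hb.const_mul 2)) (hasDerivAt_const _ _) hD
    (hasDerivAt_const _ _)
    (by
      filter_upwards [hev1, hev3] with s hs1 hs3
      rw [one_mul, add_zero, cos_TE lam s h0.le, clip_of_lt hs3]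
      exact hX3 s hs1)
    (by simpa using hz) q3 (by simpa using hz) (hzero _ (abs_nonneg _))
    (hDb.trans (mul_le_mul_of_nonneg_right hhalf (abs_nonneg _))) (hzero _ (abs_nonneg _))
    (by
      show w / 2 ≤ |Real.sin (TE lam t (m + 3))|
      linarith only [hw, hsj2])
    (sg2_sin w _ _ hsj2' (hcl.trans (by linarith only [hw, hK]))) (hcl.trans (by linarith only [hw, hK]))
  have hpb : |p + 2 * b| ≤ 2 * (|b| + |p|) := by
    have i1 := abs_add_le p (2 * b)
    rw [abs_mul, abs_of_pos (two_pos : (0 : ℝ) < 2)] at i1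
    linarith only [hP0, i1]
  have r1 : |b2 - (2 * b + p)| ≤ 212 * Q * (|b| + |p|) := by
    rw [add_comm (2 * b) p]
    refine g1.trans ?_
    have i1 : 100 * Q * |p + 2 * b| ≤ 100 * Q * (2 * (|b| + |p|)) :=
      mul_le_mul_of_nonneg_left hpb (by positivity)
    have i2 : 12 * Q * |b| ≤ 12 * Q * (|b| + |p|) :=
      mul_le_mul_of_nonneg_left (by linarith only [hP0]) (by positivity)
    linarith only [i1, i2]
  have hb2b : |b2| ≤ 3 * (|b| + |p|) := by
    have i1 : |b2| ≤ |b2 - (2 * b + p)| + |2 * b + p| := by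
      have := abs_add_le (b2 - (2 * b + p)) (2 * b + p)
      rwa [sub_add_cancel] at this
    have i2 : |2 * b + p| ≤ 2 * (|b| + |p|) := by
      rw [add_comm]
      exact hpb
    have i3 : 212 * Q * (|b| + |p|) ≤ 1 * (|b| + |p|) :=
      mul_le_mul_of_nonneg_right (by linarith only [h0, h1, hQ1]) (by positivity)
    linarith only [r1, i1, i2, i3]
  -- second comparison
  have hA4 : |TE lam t (m + 4) - (psiE lam t (m + 3) + TE lam t (m + 3))| ≤ 8 * Real.sqrt lam := by
    have e : TE lam t (m + 4) - (psiE lam t (m + 3) + TE lam t (m + 3)) =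
        (TE lam t (m + 4) - TE lam t (m + 3) - TE lam t (m + 2)) -
        (psiE lam t (m + 3) - TE lam t (m + 2)) := by
      ring
    rw [e]
    have i1 := abs_sub (TE lam t (m + 4) - TE lam t (m + 3) - TE lam t (m + 2))
      (psiE lam t (m + 3) - TE lam t (m + 2))
    have i2 : |psiE lam t (m + 3) - TE lam t (m + 2)| ≤ Real.sqrt lam := hc3
    linarith only [hc3, hd2, i1]
  have hB4 : |TE lam t (m + 4) - (2 * psiE lam t (m + 1) + 3 * TE lam t (m + 1))| ≤
      30 * Real.sqrt lam := by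
    have e : TE lam t (m + 4) - (2 * psiE lam t (m + 1) + 3 * TE lam t (m + 1)) =
        (TE lam t (m + 4) - TE lam t (m + 3) - TE lam t (m + 2)) +
        (TE lam t (m + 3) - TE lam t (m + 2) - TE lam t (m + 1)) +
        2 * (TE lam t (m + 2) - TE lam t (m + 1) - TE lam t m) -
        2 * (psiE lam t (m + 1) - TE lam t m) := by
      ring
    rw [e]
    rw [abs_le] at hd2' hd1' hd0 hc1 ⊢
    constructor <;> linarith only [hd2'.1, hd2'.2, hd1'.1, hd1'.2, hd0.1, hd0.2, hc1.1, hc1.2, hc1, hd0, hd1', hd2']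
  have hAB : |(psiE lam t (m + 3) + TE lam t (m + 3)) -
      (2 * psiE lam t (m + 1) + 3 * TE lam t (m + 1))| ≤ 38 * Real.sqrt lam := by
    rw [abs_le] at hA4 hB4 ⊢
    constructor <;> linarith only [hA4.1, hA4.2, hB4.1, hB4.2, hA4, hB4]
  have hE4 : HasDerivAt (fun s => (rr lam (TE lam s (m + 1)) ^ 2 - 1) * Real.cos (TE lam s (m + 1)))
      (E * Real.cos (TE lam t (m + 1)) +
        (rr lam (TE lam t (m + 1)) ^ 2 - 1) * (-Real.sin (TE lam t (m + 1)) * b)) t :=
    (hE.sub_const 1).mul hb.cos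
  have hcos1 := Real.abs_cos_le_one (TE lam t (m + 1))
  have hsin1 := Real.abs_sin_le_one (TE lam t (m + 1))
  have hquart : lam ^ 2 / (4 * w ^ 2) ≤ lam ^ 2 / (2 * w ^ 3) := by
    apply div_le_div_of_nonneg_left (by positivity) (by positivity)
    nlinarith only [pow_pos hw 2, h0, hw1, hlw]
  have hsum : lam ^ 2 / (2 * w ^ 3) + lam ^ 2 / (2 * w ^ 3) = lam ^ 2 / w ^ 3 := by
    field_simp
    ring
  have hEM : |E * Real.cos (TE lam t (m + 1)) +
        (rr lam (TE lam t (m + 1)) ^ 2 - 1) * (-Real.sin (TE lam t (m + 1)) * b)| ≤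
        lam ^ 2 / w ^ 3 * (|b| + |b2|) := by
    have i0 := abs_add_le (E * Real.cos (TE lam t (m + 1)))
      ((rr lam (TE lam t (m + 1)) ^ 2 - 1) * (-Real.sin (TE lam t (m + 1)) * b))
    have i1 : |E * Real.cos (TE lam t (m + 1))| ≤ lam ^ 2 / (2 * w ^ 3) * |b| := by
      rw [abs_mul]
      calc |E| * |Real.cos (TE lam t (m + 1))| ≤ |E| * 1 :=
            mul_le_mul_of_nonneg_left hcos1 (abs_nonneg _)
        _ ≤ _ := by rw [mul_one]; exact hEb
    have i2 : |(rr lam (TE lam t (m + 1)) ^ 2 - 1) * (-Real.sin (TE lam t (m + 1)) * b)| ≤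
        lam ^ 2 / (2 * w ^ 3) * |b| := by
      rw [abs_mul, abs_of_nonneg q1, abs_mul, abs_neg]
      calc (rr lam (TE lam t (m + 1)) ^ 2 - 1) * (|Real.sin (TE lam t (m + 1))| * |b|)
          ≤ (lam ^ 2 / (2 * w ^ 3)) * (1 * |b|) := by
            apply mul_le_mul (q2.trans hquart) _ (by positivity) (by positivity)
            exact mul_le_mul_of_nonneg_right hsin1 (abs_nonneg _)
        _ = lam ^ 2 / (2 * w ^ 3) * |b| := by ring
    have i3 : lam ^ 2 / w ^ 3 * |b| ≤ lam ^ 2 / w ^ 3 * (|b| + |b2|) :=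
      mul_le_mul_of_nonneg_left (by linarith only [hB20]) (by positivity)
    have i4 : lam ^ 2 / (2 * w ^ 3) * |b| + lam ^ 2 / (2 * w ^ 3) * |b| = lam ^ 2 / w ^ 3 * |b| := by
      rw [← add_mul, hsum]
    linarith only [i0, i1, i2, i3, i4]
  have g2 := sg2_cmp lam w t (p2 + b2) (2 * p + 3 * b) D' E _ (|b| + |b2|)
    (fun s => rr lam (TE lam s (m + 3))) (fun s => rr lam (TE lam s (m + 1)) ^ 2)
    (fun s => (rr lam (TE lam s (m + 1)) ^ 2 - 1) * Real.cos (TE lam s (m + 1)))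
    (fun s => psiE lam s (m + 3) + TE lam s (m + 3))
    (fun s => 2 * psiE lam s (m + 1) + 3 * TE lam s (m + 1)) h0 hw hw1
    hlw (by positivity) (hp2.add hb2) ((hp.const_mul 2).add (hb.const_mul 3)) hD' hE hE4
    (by
      filter_upwards [hev1, hev3] with s hs1 hs3
      rw [← hX4 s hs1]
      exact (sg2_psi lam s h0.le h1 (m + 2) hs3).2.1)
    q3' (by
      show |rr lam (TE lam t (m + 1)) ^ 2 - 1| ≤ _
      rw [abs_of_nonneg q1]
      exact q2) (by
      show |(rr lam (TE lam t (m + 1)) ^ 2 - 1) * Real.cos (TE lam t (m + 1))| ≤ _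
      rw [abs_mul, abs_of_nonneg q1]
      calc (rr lam (TE lam t (m + 1)) ^ 2 - 1) * |Real.cos (TE lam t (m + 1))|
          ≤ (rr lam (TE lam t (m + 1)) ^ 2 - 1) * 1 := mul_le_mul_of_nonneg_left hcos1 q1
        _ ≤ _ := by rw [mul_one]; exact q2)
    (hDb'.trans (mul_le_mul hhalf (by linarith only [hB0]) (abs_nonneg _) (by positivity)))
    (hEb.trans (mul_le_mul hhalf (by linarith only [hB20]) (abs_nonneg _) (by positivity))) hEM
    (sg2_sin w _ _ hsj3' (hA4.trans (by linarith only [hw, hK])))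
    (sg2_sin w _ _ hsj3' (hB4.trans (by linarith only [hw, hK]))) (hAB.trans (by linarith only [hw, hK]))
  have hpb3 : |2 * p + 3 * b| ≤ 3 * (|b| + |p|) := by
    have i1 := abs_add_le (2 * p) (3 * b)
    rw [abs_mul, abs_mul, abs_of_pos (two_pos : (0 : ℝ) < 2),
      abs_of_pos (by norm_num : (0 : ℝ) < 3)] at i1
    linarith only [hP0, i1]
  have r2 : |p2 - (b + p)| ≤ 560 * Q * (|b| + |p|) := by
    have e : p2 - (b + p) = (p2 + b2 - (2 * p + 3 * b)) - (b2 - (2 * b + p)) := by ring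
    rw [e]
    have i0 := abs_sub (p2 + b2 - (2 * p + 3 * b)) (b2 - (2 * b + p))
    have i1 : 100 * Q * |2 * p + 3 * b| ≤ 100 * Q * (3 * (|b| + |p|)) :=
      mul_le_mul_of_nonneg_left hpb3 (by positivity)
    have i2 : 12 * Q * (|b| + |b2|) ≤ 12 * Q * (4 * (|b| + |p|)) :=
      mul_le_mul_of_nonneg_left (by linarith only [hP0, hb2b]) (by positivity)
    linarith only [r1, g2, i0, i1, i2]
  have hQs : 0 ≤ Q * (|b| + |p|) := by positivity
  constructor <;> nlinarith

end SF
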