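import Pool.Agent.Helper65.SF.SDefs

/-!
# SF-SM: exponential moment of the total cost

`int_0^1 exp ((c / log (1/lam)) sum_{j<k} phS lam j s) ds <= Cl exp (C lam k)`.

Proof in words.
(1) Diophantine: for all integers `q ≠ 0` and n: with `al = fib n / fib (n+1)` (or its inverse), integers
`|q| < fib (n+1)`: `|| q al || >= c/|q|` (`||.||` = distance to Z).  [Direct proof: let `fib i <= |q| < fib (i+1)`;
`| |q fib n - p fib(n+1)| |` ... use `fib n/fib (n+1) = fib (i)/fib(i+1) + (error <= 1/(fib i fib (i+1)))`, or the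
best approximation property via the determinant `fib (i) fib (n+1) - fib (i+1) fib n = ± fib (n-i)`.]
(2) For an interval I of length w, level j with `w fib j >= lam^(-1/2)`, and `sqrt lam <= y <= 1`:
`vol {s in I : YS j s <= y} <= C w y^2`.  (`yS j s <= y` means `s` within `y/fib j` of some `q/fib j`, q integer, and then
`|| q fib (j+1)/fib j || <= 2y`; such q in an interval of length `w fib j + 1` are separated by `c/y` because of (1),
so there are at most `C (w fib j y + 1)` of them, each contributes `2 y/fib j`.)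
(3) So `int_I phS lam j <= C lam w` (dyadic decomposition of `YS`: `phS <= 1` on `YS <= 10^6 sqrt lam`, else
`lam^2/y^4` on `y < YS <= 2y`, sum over dyadic y of `lam^2 y^(-4) C w (2y)^2`).
(4) `phS lam j s' <= C phS lam j s` if `|s - s'| <= sqrt lam / fib (j+1)` (`|YS j s - YS j s'| <= pi sqrt lam`).
(5) Let `T` = least integer with `fib T >= lam^(-2)`; `T <= C log (1/lam)`.  `sigma = 1/(C' T)`.  Hoelder over
residues mod T (`exp (sigma sum_j ph_j) = prod_r exp(sigma sum_i ph_(iT+r))`, generalized AM-GM/Hoelder with T factors):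
enough to bound `int exp (sigma T sum_i ph_(iT+r))` for each r by `C (1 + C lam)^(number of terms)`.
Use partitions of [0,1] into equal intervals of length `w i` with `w i = 1/N i`, `N i` | `N (i+1)` (powers of 2),
`w i in [1/2,1] * sqrt lam/fib (iT+r+1)`: on each such interval `ph_(iT+r)` varies by a factor C, and
`(w i) fib ((i+1)T+r) >= lam^(-1/2)`.  Downward induction on i: for every interval J of the i-th partition
`int_J exp(sigma T sum_{i' > i} ph_(i'T+r)) <= (1+C lam)^(#i' > i) |J|`: split J into intervals J' of the next partition, on each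
`exp (sigma T ph) <= exp (sigma T C inf_J' ph) <= 1 + 2 sigma T C ph(s)`, average over J by (3).
The first level (i with no parent) costs a constant factor.
-/

namespace SF

open MeasureTheory

namespace SMAux

/-- A continuous majorant of the cost, as a function of the distance. -/
noncomputable def hh (δ Y : ℝ) : ℝ := 2 * δ ^ 4 / (δ ^ 4 + Y ^ 4)

theorem hh_nonneg {δ : ℝ} (hδ : 0 < δ) (Y : ℝ) : 0 ≤ hh δ Y := by
  unfold hh; positivity

theorem hh_le_two {δ : ℝ} (hδ : 0 < δ) (Y : ℝ) : hh δ Y ≤ 2 := by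
  unfold hh
  have h4 : 0 ≤ Y ^ 4 := by positivity
  rw [div_le_iff₀ (by positivity)]
  nlinarith

theorem YS_nonneg (j : ℕ) (s : ℝ) : 0 ≤ YS j s := le_max_of_le_left (abs_nonneg _)

theorem YS_le_one (j : ℕ) (s : ℝ) : YS j s ≤ 1 := max_le (Real.abs_sin_le_one _) (Real.abs_sin_le_one _)

theorem YS_cont (j : ℕ) : Continuous (YS j) := by
  unfold YS yS
  fun_prop

theorem hh_cont {δ : ℝ} (hδ : 0 < δ) (j : ℕ) : Continuous (fun s => hh δ (YS j s)) := by
  unfold hh
  have h := YS_cont j
  apply Continuous.div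
  · fun_prop
  · fun_prop
  · intro s
    positivity

theorem phS_le {lam : ℝ} (hl : 0 < lam) (j : ℕ) (s : ℝ) :
    phS lam j s ≤ hh (10 ^ 6 * Real.sqrt lam) (YS j s) := by
  have hδ : (10 ^ 6 * Real.sqrt lam) ^ 4 = 10 ^ 24 * lam ^ 2 := by
    have : Real.sqrt lam ^ 4 = lam ^ 2 := by
      have h := Real.sq_sqrt hl.le
      calc Real.sqrt lam ^ 4 = (Real.sqrt lam ^ 2) ^ 2 := by ring
        _ = lam ^ 2 := by rw [h]
    rw [mul_pow, this]
    norm_num
  unfold phS hh
  rw [hδ]
  have hY := YS_nonneg j s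
  set Y := YS j s
  split_ifs with h
  · rw [le_div_iff₀ (by positivity)]
    have : Y ^ 4 ≤ 10 ^ 24 * lam ^ 2 := by
      have h1 : (Y ^ 2) ^ 2 ≤ (10 ^ 12 * lam) ^ 2 := pow_le_pow_left₀ (by positivity) h 2
      calc Y ^ 4 = (Y ^ 2) ^ 2 := by ring
        _ ≤ (10 ^ 12 * lam) ^ 2 := h1
        _ = 10 ^ 24 * lam ^ 2 := by ring
    linarith
  · push Not at h
    have h0 : 0 < Y ^ 2 := lt_trans (by positivity) h
    have h1 : 10 ^ 24 * lam ^ 2 ≤ Y ^ 4 := by
      have h1 : (10 ^ 12 * lam) ^ 2 ≤ (Y ^ 2) ^ 2 := pow_le_pow_left₀ (by positivity) h.le 2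
      calc 10 ^ 24 * lam ^ 2 = (10 ^ 12 * lam) ^ 2 := by ring
        _ ≤ (Y ^ 2) ^ 2 := h1
        _ = Y ^ 4 := by ring
    have h4 : 0 < Y ^ 4 := by
      have : Y ^ 4 = (Y ^ 2) ^ 2 := by ring
      rw [this]
      positivity
    rw [div_le_div_iff₀ h4 (by positivity)]
    nlinarith [sq_nonneg lam, mul_pos (pow_pos hl 2) h4]

theorem hh_comp {δ Y Y' : ℝ} (hδ : 0 < δ) (hY : 0 ≤ Y) (hY' : 0 ≤ Y') (h : |Y - Y'| ≤ δ) :
    hh δ Y ≤ 9 * hh δ Y' := by
  have h1 : Y' ≤ Y + δ := by
    have := (abs_le.mp h).1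
    linarith
  have h2 : Y' ^ 4 ≤ 8 * (Y ^ 4 + δ ^ 4) := by
    have h3 : Y' ^ 4 ≤ (Y + δ) ^ 4 := pow_le_pow_left₀ hY' h1 4
    have h4 : (Y + δ) ^ 2 ≤ 2 * (Y ^ 2 + δ ^ 2) := by nlinarith [sq_nonneg (Y - δ)]
    have h5 : (Y + δ) ^ 4 ≤ (2 * (Y ^ 2 + δ ^ 2)) ^ 2 := by
      calc (Y + δ) ^ 4 = ((Y + δ) ^ 2) ^ 2 := by ring
        _ ≤ _ := pow_le_pow_left₀ (by positivity) h4 2
    have h6 : (2 * (Y ^ 2 + δ ^ 2)) ^ 2 ≤ 8 * (Y ^ 4 + δ ^ 4) := by
      nlinarith [sq_nonneg (Y ^ 2 - δ ^ 2)]
    linarith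
  unfold hh
  rw [← mul_div_assoc, div_le_div_iff₀ (by positivity) (by positivity)]
  have h4 : 0 < δ ^ 4 := by positivity
  have : δ ^ 4 + Y' ^ 4 ≤ 9 * (δ ^ 4 + Y ^ 4) := by
    have : 0 ≤ Y ^ 4 := by positivity
    linarith
  nlinarith [mul_le_mul_of_nonneg_left this h4.le]

theorem YS_lip (j : ℕ) (s s' : ℝ) :
    |YS j s - YS j s'| ≤ Real.pi * Nat.fib (j + 1) * |s - s'| := by
  have key : ∀ i : ℕ, i ≤ j + 1 → 1 ≤ j + 1 →
      |yS i s - yS i s'| ≤ Real.pi * Nat.fib (j + 1) * |s - s'| := by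
    intro i hi _
    unfold yS
    refine (abs_abs_sub_abs_le _ _).trans ((Real.abs_sin_sub_sin_le _ _).trans ?_)
    rw [← mul_sub, abs_mul, abs_of_nonneg (by positivity)]
    apply mul_le_mul_of_nonneg_right _ (abs_nonneg _)
    apply mul_le_mul_of_nonneg_left _ Real.pi_pos.le
    exact_mod_cast Nat.fib_mono hi
  unfold YS
  refine (abs_max_sub_max_le_max _ _ _ _).trans (max_le ?_ ?_)
  · exact key j (by omega) (by omega)
  · exact key (j + 1) le_rfl (by omega)

/-! ### Separation -/

theorem near (x y : ℝ) (h : |Real.sin (Real.pi * x)| ≤ y) : |x - round x| ≤ y / 2 := by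
  set u := x - round x with hu
  have h1 : |u| ≤ 1 / 2 := abs_sub_round x
  have h2 : |Real.sin (Real.pi * x)| = |Real.sin (Real.pi * u)| := by
    have e : Real.pi * x = Real.pi * u + (round x : ℤ) * Real.pi := by rw [hu]; ring
    rw [e, Real.sin_add_int_mul_pi, abs_mul, abs_zpow, abs_neg, abs_one, one_zpow, one_mul]
  have h3 := Real.mul_abs_le_abs_sin (x := Real.pi * u) (by
    rw [abs_mul, abs_of_pos Real.pi_pos]
    have := mul_le_mul_of_nonneg_left h1 Real.pi_pos.le
    linarith)
  rw [abs_mul, abs_of_pos Real.pi_pos] at h3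
  have h4 : 2 / Real.pi * (Real.pi * |u|) = 2 * |u| := by
    field_simp
  rw [h4, ← h2] at h3
  linarith

theorem norm_ne (p q : ℤ) (h : ¬ (p = 0 ∧ q = 0)) : p ^ 2 - p * q - q ^ 2 ≠ 0 := by
  intro h0
  have h5 : Irrational (Real.sqrt ((5 : ℕ) : ℝ)) := Nat.Prime.irrational_sqrt (by norm_num)
  by_cases hq : q = 0
  · subst hq
    apply h
    refine ⟨?_, rfl⟩
    have : p ^ 2 = 0 := by linarith
    exact pow_eq_zero_iff (two_ne_zero) |>.mp this
  · apply h5
    refine ⟨|((2 * p - q : ℤ) : ℚ) / q|, ?_⟩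
    have hqR : (q : ℝ) ≠ 0 := by exact_mod_cast hq
    have e : (2 * (p : ℝ) - q) ^ 2 = 5 * (q : ℝ) ^ 2 := by
      have : (2 * p - q) ^ 2 = 5 * q ^ 2 := by linarith
      exact_mod_cast this
    push_cast
    rw [← Real.sqrt_sq_eq_abs]
    congr 1
    rw [div_pow, e]
    field_simp

theorem cassini (j : ℕ) : |(Nat.fib (j + 1) : ℝ) ^ 2 - Nat.fib (j + 1) * Nat.fib j
    - (Nat.fib j : ℝ) ^ 2| = 1 := by
  induction j with
  | zero => simp
  | succ j ih =>
    have e : (Nat.fib (j + 1 + 1) : ℝ) = Nat.fib j + Nat.fib (j + 1) := by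
      rw [show j + 1 + 1 = j + 2 by ring, Nat.fib_add_two]
      push_cast
      ring
    rw [e, ← ih, ← abs_neg]
    congr 1
    ring

theorem sep (j : ℕ) (hj : 1 ≤ j) (y : ℝ) (hy0 : 0 ≤ y) (hy : y ≤ 1 / 3) (s s' : ℝ) (hs : YS j s ≤ y)
    (hs' : YS j s' ≤ y) (ht : |s - s'| ≤ 1 / 2) :
    |s - s'| ≤ y / Nat.fib j ∨ 1 / (15 * y * Nat.fib (j + 1)) ≤ |s - s'| := by
  have hf : (0 : ℝ) < Nat.fib j := by exact_mod_cast Nat.fib_pos.mpr (by omega)
  have hf1 : (0 : ℝ) < Nat.fib (j + 1) := by exact_mod_cast Nat.fib_pos.mpr (by omega)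
  have hff : (Nat.fib j : ℝ) ≤ Nat.fib (j + 1) := by exact_mod_cast Nat.fib_mono (by omega)
  have n1 := near (Nat.fib j * s) y (by
    have := (le_max_left _ _).trans hs
    unfold yS at this
    rwa [mul_assoc] at this)
  have n2 := near (Nat.fib j * s') y (by
    have := (le_max_left _ _).trans hs'
    unfold yS at this
    rwa [mul_assoc] at this)
  have n3 := near (Nat.fib (j + 1) * s) y (by
    have := (le_max_right _ _).trans hs
    unfold yS at this
    rwa [mul_assoc] at this)
  have n4 := near (Nat.fib (j + 1) * s') y (by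
    have := (le_max_right _ _).trans hs'
    unfold yS at this
    rwa [mul_assoc] at this)
  set q : ℤ := round ((Nat.fib j : ℝ) * s) - round ((Nat.fib j : ℝ) * s') with hq
  set p : ℤ := round ((Nat.fib (j + 1) : ℝ) * s) - round ((Nat.fib (j + 1) : ℝ) * s') with hp
  set a : ℝ := Nat.fib j * (s - s') with ha
  set b : ℝ := Nat.fib (j + 1) * (s - s') with hb
  set e1 : ℝ := a - q with he1
  set e2 : ℝ := b - p with he2
  have h1 : |e1| ≤ y := by
    have : e1 = (Nat.fib j * s - round ((Nat.fib j : ℝ) * s)) -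
        (Nat.fib j * s' - round ((Nat.fib j : ℝ) * s')) := by
      rw [he1, ha, hq]; push_cast; ring
    rw [this]
    refine (abs_sub _ _).trans ?_
    linarith
  have h2 : |e2| ≤ y := by
    have : e2 = (Nat.fib (j + 1) * s - round ((Nat.fib (j + 1) : ℝ) * s)) -
        (Nat.fib (j + 1) * s' - round ((Nat.fib (j + 1) : ℝ) * s')) := by
      rw [he2, hb, hp]; push_cast; ring
    rw [this]
    refine (abs_sub _ _).trans ?_
    linarith
  by_cases h0 : p = 0 ∧ q = 0
  · left
    rw [he1, h0.2] at h1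
    rw [le_div_iff₀ hf]
    have : |a - ((0 : ℤ) : ℝ)| = |s - s'| * Nat.fib j := by
      rw [Int.cast_zero, sub_zero, ha, abs_mul, abs_of_pos hf, mul_comm]
    rwa [this] at h1
  · right
    have hN := norm_ne p q h0
    have hN1 : (1 : ℝ) ≤ |((p ^ 2 - p * q - q ^ 2 : ℤ) : ℝ)| := by
      rw [← Int.cast_abs]
      exact_mod_cast Int.one_le_abs hN
    set t := |s - s'| with hT
    have ht0 : 0 ≤ t := abs_nonneg _
    set F := Nat.fib (j + 1) * t with hF
    have hF0 : 0 ≤ F := by positivity
    have hbF : |b| = F := by rw [hb, abs_mul, abs_of_pos hf1]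
    have haF : |a| ≤ F := by
      rw [ha, abs_mul, abs_of_pos hf]
      exact mul_le_mul_of_nonneg_right hff ht0
    have hab : |b ^ 2 - b * a - a ^ 2| ≤ 1 / 4 := by
      have e : b ^ 2 - b * a - a ^ 2 = ((Nat.fib (j + 1) : ℝ) ^ 2 - Nat.fib (j + 1) * Nat.fib j
          - (Nat.fib j : ℝ) ^ 2) * (s - s') ^ 2 := by rw [ha, hb]; ring
      rw [e, abs_mul, cassini, one_mul, abs_pow]
      have : |s - s'| ^ 2 ≤ (1 / 2) ^ 2 := pow_le_pow_left₀ (abs_nonneg _) ht 2
      linarith
    have hexp : ((p ^ 2 - p * q - q ^ 2 : ℤ) : ℝ) = (b ^ 2 - b * a - a ^ 2)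
        + (-2 * b * e2 + e2 ^ 2 + a * e2 + b * e1 - e1 * e2 + 2 * a * e1 - e1 ^ 2) := by
      have hpe : (p : ℝ) = b - e2 := by rw [he2]; ring
      have hqe : (q : ℝ) = a - e1 := by rw [he1]; ring
      push_cast
      rw [hpe, hqe]
      ring
    have hbd : |(-2 * b * e2 + e2 ^ 2 + a * e2 + b * e1 - e1 * e2 + 2 * a * e1 - e1 ^ 2)|
        ≤ 6 * F * y + 3 * y ^ 2 := by
      have m1 : |b * e2| ≤ F * y := by
        rw [abs_mul, hbF]; exact mul_le_mul_of_nonneg_left h2 hF0
      have m2 : |b * e1| ≤ F * y := by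
        rw [abs_mul, hbF]; exact mul_le_mul_of_nonneg_left h1 hF0
      have m3 : |a * e2| ≤ F * y := by
        rw [abs_mul]; exact mul_le_mul haF h2 (abs_nonneg _) hF0
      have m4 : |a * e1| ≤ F * y := by
        rw [abs_mul]; exact mul_le_mul haF h1 (abs_nonneg _) hF0
      have m5 : |e1 * e2| ≤ y * y := by
        rw [abs_mul]; exact mul_le_mul h1 h2 (abs_nonneg _) hy0
      have m6 : e1 ^ 2 ≤ y ^ 2 := by
        rw [← sq_abs]; exact pow_le_pow_left₀ (abs_nonneg _) h1 2
      have m7 : e2 ^ 2 ≤ y ^ 2 := by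
        rw [← sq_abs]; exact pow_le_pow_left₀ (abs_nonneg _) h2 2
      have m8 := sq_nonneg e1
      have m9 := sq_nonneg e2
      rw [abs_le] at m1 m2 m3 m4 m5 ⊢
      constructor <;> nlinarith
    have hy2 : y ^ 2 ≤ 1 / 9 := by nlinarith
    have hsum : (1 : ℝ) ≤ 1 / 4 + (6 * F * y + 3 * y ^ 2) := by
      refine hN1.trans ?_
      rw [hexp]
      exact (abs_add_le _ _).trans (add_le_add hab hbd)
    have hFy : 1 / 15 ≤ F * y := by nlinarith
    have hy1 : 0 < y := by
      rcases hy0.lt_or_eq with h | h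
      · exact h
      · rw [← h] at hFy; norm_num at hFy
    rw [div_le_iff₀ (by positivity)]
    have : t * (15 * y * Nat.fib (j + 1)) = 15 * (F * y) := by rw [hF]; ring
    rw [this]
    linarith

theorem cluster (a b α β : ℝ) (hab : a ≤ b) (hα : 0 ≤ α) (hβ : 0 < β) (A : Set ℝ) (hA : A ⊆ Set.Icc a b)
    (h : ∀ s ∈ A, ∀ s' ∈ A, |s - s'| ≤ α ∨ β ≤ |s - s'|) :
    volume A ≤ ENNReal.ofReal (2 * α * ((b - a) / β + 1)) := by
  set N : ℕ := ⌊(b - a) / β⌋₊ + 1 with hN
  have hba : 0 ≤ (b - a) / β := div_nonneg (by linarith) hβ.le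
  have hNpos : (0 : ℝ) < N := by rw [hN]; push_cast; positivity
  have hNlt : (b - a) / β < N := by rw [hN]; push_cast; exact Nat.lt_floor_add_one _
  have hNle : (N : ℝ) ≤ (b - a) / β + 1 := by
    rw [hN]; push_cast
    have := Nat.floor_le hba
    linarith
  set w := (b - a) / N with hw
  have hwβ : w < β := by
    rw [hw, div_lt_iff₀ hNpos]
    rw [div_lt_iff₀ hβ] at hNlt
    linarith
  have hw0 : 0 ≤ w := div_nonneg (by linarith) hNpos.le
  have hcov : A ⊆ ⋃ k ∈ Finset.range N, A ∩ Set.Icc (a + k * w) (a + (k + 1) * w) := by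
    intro s hs
    have hsab := hA hs
    simp only [Set.mem_iUnion]
    rcases hw0.lt_or_eq with hwp | hwz
    · -- the index
      set k := min (⌊(s - a) / w⌋₊) (N - 1) with hk
      have hsa : 0 ≤ (s - a) / w := div_nonneg (by linarith [hsab.1]) hw0
      refine ⟨k, Finset.mem_range.mpr ?_, hs, ?_, ?_⟩
      · have : k ≤ N - 1 := min_le_right _ _
        omega
      · have h1 : (k : ℝ) ≤ (s - a) / w := by
          have : (k : ℝ) ≤ (⌊(s - a) / w⌋₊ : ℝ) := by exact_mod_cast min_le_left _ _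
          exact this.trans (Nat.floor_le hsa)
        rw [le_div_iff₀ hwp] at h1
        linarith
      · rcases le_total (⌊(s - a) / w⌋₊) (N - 1) with h1 | h1
        · rw [hk, min_eq_left h1]
          have := (Nat.lt_floor_add_one ((s - a) / w)).le
          rw [div_le_iff₀ hwp] at this
          linarith
        · rw [hk, min_eq_right h1]
          have e : (((N - 1 : ℕ) : ℝ) + 1) = N := by
            have : N - 1 + 1 = N := by omega
            exact_mod_cast this
          rw [e, hw]
          have : (N : ℝ) * ((b - a) / N) = b - a := by field_simp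
          rw [this]
          linarith [hsab.2]
    · refine ⟨0, Finset.mem_range.mpr (by omega), hs, ?_, ?_⟩
      · simp only [Nat.cast_zero, zero_mul, add_zero]; exact hsab.1
      · have : b - a = 0 := by
          rw [hw] at hwz
          have := hwz.symm
          rw [div_eq_zero_iff] at this
          rcases this with h | h
          · exact h
          · exact absurd h hNpos.ne'
        rw [← hwz]
        have := hsab.2
        linarith
  have hone : ∀ k ∈ Finset.range N, volume (A ∩ Set.Icc (a + k * w) (a + (k + 1) * w))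
      ≤ ENNReal.ofReal (2 * α) := by
    intro k _
    rcases (A ∩ Set.Icc (a + k * w) (a + (k + 1) * w)).eq_empty_or_nonempty with he | ⟨s0, hs0⟩
    · rw [he]; simp
    · have hsub : A ∩ Set.Icc (a + k * w) (a + (k + 1) * w) ⊆ Set.Icc (s0 - α) (s0 + α) := by
        intro s hs
        have hlt : |s - s0| < β := by
          refine lt_of_le_of_lt ?_ hwβ
          rw [abs_le]
          have a1 := hs.2.1
          have a2 := hs.2.2
          have a3 := hs0.2.1
          have a4 := hs0.2.2
          constructor <;> linarith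
        rcases h s hs.1 s0 hs0.1 with h1 | h1
        · have := abs_le.mp h1
          exact ⟨by linarith [this.1], by linarith [this.2]⟩
        · exact absurd hlt (not_lt.mpr h1)
      refine (measure_mono hsub).trans ?_
      rw [Real.volume_Icc]
      apply ENNReal.ofReal_le_ofReal
      linarith
  calc volume A ≤ volume (⋃ k ∈ Finset.range N, A ∩ Set.Icc (a + k * w) (a + (k + 1) * w)) :=
        measure_mono hcov
    _ ≤ ∑ k ∈ Finset.range N, volume (A ∩ Set.Icc (a + k * w) (a + (k + 1) * w)) :=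
        measure_biUnion_finset_le _ _
    _ ≤ ∑ _k ∈ Finset.range N, ENNReal.ofReal (2 * α) := Finset.sum_le_sum hone
    _ = ENNReal.ofReal (2 * α * N) := by
        rw [Finset.sum_const, Finset.card_range, nsmul_eq_mul, mul_comm (2 * α) (N : ℝ),
          ENNReal.ofReal_mul hNpos.le, ENNReal.ofReal_natCast]
    _ ≤ ENNReal.ofReal (2 * α * ((b - a) / β + 1)) := by
        apply ENNReal.ofReal_le_ofReal
        exact mul_le_mul_of_nonneg_left hNle (by positivity)

theorem level_measure (j : ℕ) (hj : 1 ≤ j) (a b : ℝ) (hab : a ≤ b) (hlen : b - a ≤ 1 / 2) (y : ℝ)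
    (hy : 0 < y) (hfr : 1 / (Nat.fib j : ℝ) ≤ (b - a) * y) :
    volume.real (Set.Icc a b ∩ {s | YS j s ≤ y}) ≤ 62 * y ^ 2 * (b - a) := by
  have hf : (0 : ℝ) < Nat.fib j := by exact_mod_cast Nat.fib_pos.mpr (by omega)
  have hf1 : (0 : ℝ) < Nat.fib (j + 1) := by exact_mod_cast Nat.fib_pos.mpr (by omega)
  have hff : (Nat.fib (j + 1) : ℝ) ≤ 2 * Nat.fib j := by
    obtain ⟨i, rfl⟩ : ∃ i, j = i + 1 := ⟨j - 1, by omega⟩
    have h1 : Nat.fib (i + 1 + 1) = Nat.fib i + Nat.fib (i + 1) := Nat.fib_add_two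
    have h2 : Nat.fib i ≤ Nat.fib (i + 1) := Nat.fib_mono (by omega)
    have h3 : Nat.fib (i + 1 + 1) ≤ 2 * Nat.fib (i + 1) := by omega
    exact_mod_cast h3
  have hba : 0 ≤ b - a := by linarith
  rcases le_or_gt y (1 / 3) with h3 | h3
  · have h := cluster a b (y / Nat.fib j) (1 / (15 * y * Nat.fib (j + 1))) hab (by positivity)
      (by positivity) (Set.Icc a b ∩ {s | YS j s ≤ y}) Set.inter_subset_left (by
        intro s hs s' hs'
        apply sep j hj y hy.le h3 s s' hs.2 hs'.2
        have h1 := hs.1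
        have h2 := hs'.1
        rw [abs_le]
        constructor <;> linarith [h1.1, h1.2, h2.1, h2.2])
    have h4 : volume.real (Set.Icc a b ∩ {s | YS j s ≤ y}) ≤
        2 * (y / Nat.fib j) * ((b - a) / (1 / (15 * y * Nat.fib (j + 1))) + 1) := by
      apply ENNReal.toReal_le_of_le_ofReal _ h
      positivity
    refine h4.trans ?_
    have h5 : (b - a) / (1 / (15 * y * Nat.fib (j + 1))) = (b - a) * (15 * y * Nat.fib (j + 1)) := by
      field_simp
    rw [h5]
    have h6 : 2 * (y / Nat.fib j) * ((b - a) * (15 * y * Nat.fib (j + 1)) + 1)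
        = 30 * y ^ 2 * (b - a) * (Nat.fib (j + 1) / Nat.fib j) + 2 * y * (1 / Nat.fib j) := by
      field_simp
      ring
    rw [h6]
    have h7 : (Nat.fib (j + 1) : ℝ) / Nat.fib j ≤ 2 := by
      rw [div_le_iff₀ hf]
      exact hff
    have h8 : 30 * y ^ 2 * (b - a) * ((Nat.fib (j + 1) : ℝ) / Nat.fib j) ≤ 30 * y ^ 2 * (b - a) * 2 :=
      mul_le_mul_of_nonneg_left h7 (by positivity)
    have h9 : 2 * y * (1 / (Nat.fib j : ℝ)) ≤ 2 * y * ((b - a) * y) :=
      mul_le_mul_of_nonneg_left hfr (by positivity)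
    nlinarith
  · have h4 : volume.real (Set.Icc a b ∩ {s | YS j s ≤ y}) ≤ b - a := by
      have : volume (Set.Icc a b ∩ {s | YS j s ≤ y}) ≤ ENNReal.ofReal (b - a) := by
        rw [← Real.volume_Icc]
        exact measure_mono Set.inter_subset_left
      exact ENNReal.toReal_le_of_le_ofReal hba this
    have h5 : 1 ≤ 62 * y ^ 2 := by nlinarith
    nlinarith

theorem dyadic {δ Y : ℝ} (hδ : 0 < δ) (hY : Y ≤ 1) (M : ℕ) (hM : 1 ≤ 2 ^ M * δ) (hM1 : 1 ≤ M) :
    hh δ Y ≤ ∑ i ∈ Finset.range M, 2 * (1 / 16) ^ i * (if Y ≤ 2 ^ (i + 1) * δ then (1 : ℝ) else 0) := by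
  classical
  have hex : ∃ i, Y ≤ 2 ^ (i + 1) * δ := ⟨M - 1, by
    have : M - 1 + 1 = M := by omega
    rw [this]
    linarith⟩
  set i0 := Nat.find hex with hi0
  have h1 : Y ≤ 2 ^ (i0 + 1) * δ := Nat.find_spec hex
  have h2 : i0 ≤ M - 1 := by
    apply Nat.find_le
    have : M - 1 + 1 = M := by omega
    rw [this]
    linarith
  have hterm : hh δ Y ≤ 2 * (1 / 16) ^ i0 * (if Y ≤ 2 ^ (i0 + 1) * δ then (1 : ℝ) else 0) := by
    rw [if_pos h1, mul_one]
    rcases Nat.eq_zero_or_pos i0 with h | h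
    · rw [h, pow_zero, mul_one]
      exact hh_le_two hδ Y
    · have h3 : ¬ Y ≤ 2 ^ (i0 - 1 + 1) * δ := Nat.find_min hex (by omega)
      have e : i0 - 1 + 1 = i0 := by omega
      rw [e] at h3
      push Not at h3
      have h4 : (2 ^ i0 * δ) ^ 4 ≤ Y ^ 4 := pow_le_pow_left₀ (by positivity) h3.le 4
      have h5 : (2 ^ i0 * δ) ^ 4 = 16 ^ i0 * δ ^ 4 := by
        rw [mul_pow, ← pow_mul, mul_comm i0 4, pow_mul]
        norm_num
      rw [h5] at h4
      have hp : (0 : ℝ) < 16 ^ i0 := by positivity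
      have hY4 : 0 < Y ^ 4 := lt_of_lt_of_le (by positivity) h4
      unfold hh
      rw [one_div, inv_pow, ← div_eq_mul_inv, div_le_div_iff₀ (by positivity) hp]
      nlinarith [pow_pos hδ 4]
  refine hterm.trans ?_
  exact Finset.single_le_sum (f := fun i => 2 * (1 / 16 : ℝ) ^ i *
    (if Y ≤ 2 ^ (i + 1) * δ then (1 : ℝ) else 0)) (fun i _ => by positivity)
    (Finset.mem_range.mpr (by omega))

theorem avg (j : ℕ) (hj : 1 ≤ j) (a b : ℝ) (hab : a ≤ b) (hlen : b - a ≤ 1 / 2) {δ : ℝ} (hδ : 0 < δ)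
    (hfr : 1 / (Nat.fib j : ℝ) ≤ (b - a) * δ) :
    ∫ s in a..b, hh δ (YS j s) ≤ 700 * δ ^ 2 * (b - a) := by
  have hba : 0 ≤ b - a := by linarith
  obtain ⟨M, hM, hM1⟩ : ∃ M : ℕ, 1 ≤ 2 ^ M * δ ∧ 1 ≤ M := by
    obtain ⟨M, hM⟩ := pow_unbounded_of_one_lt (1 / δ) (show (1 : ℝ) < 2 by norm_num)
    refine ⟨M + 1, ?_, by omega⟩
    rw [div_lt_iff₀ hδ] at hM
    have : (2 : ℝ) ^ M * δ ≤ 2 ^ (M + 1) * δ := by
      apply mul_le_mul_of_nonneg_right _ hδ.le
      exact pow_le_pow_right₀ (by norm_num) (by omega)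
    linarith
  have hmeas : ∀ y : ℝ, MeasurableSet {s | YS j s ≤ y} := fun y =>
    (isClosed_le (YS_cont j) continuous_const).measurableSet
  have hind : ∀ y : ℝ, ∫ s in Set.Ioc a b, (if YS j s ≤ y then (1 : ℝ) else 0) =
      volume.real (Set.Ioc a b ∩ {s | YS j s ≤ y}) := by
    intro y
    have e : (fun s => if YS j s ≤ y then (1 : ℝ) else 0) =
        Set.indicator {s | YS j s ≤ y} (fun _ => (1 : ℝ)) := by
      funext s
      simp [Set.indicator_apply]
    rw [e, setIntegral_indicator (hmeas y), setIntegral_const]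
    simp
  have hint : ∀ y : ℝ, Integrable (fun s => if YS j s ≤ y then (1 : ℝ) else 0)
      (volume.restrict (Set.Ioc a b)) := by
    intro y
    have e : (fun s => if YS j s ≤ y then (1 : ℝ) else 0) =
        Set.indicator {s | YS j s ≤ y} (fun _ => (1 : ℝ)) := by
      funext s
      simp [Set.indicator_apply]
    rw [e]
    exact (integrable_const (1 : ℝ)).indicator (hmeas y)
  rw [intervalIntegral.integral_of_le hab]
  calc ∫ s in Set.Ioc a b, hh δ (YS j s)
      ≤ ∫ s in Set.Ioc a b, ∑ i ∈ Finset.range M,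
        2 * (1 / 16) ^ i * (if YS j s ≤ 2 ^ (i + 1) * δ then (1 : ℝ) else 0) := by
        apply integral_mono
        · exact ((hh_cont hδ j).integrableOn_Icc (a := a) (b := b)).mono_set Set.Ioc_subset_Icc_self
        · apply integrable_finset_sum
          intro i _
          exact (hint _).const_mul _
        · intro s
          exact dyadic hδ (YS_le_one j s) M hM hM1
    _ = ∑ i ∈ Finset.range M, 2 * (1 / 16) ^ i *
        volume.real (Set.Ioc a b ∩ {s | YS j s ≤ 2 ^ (i + 1) * δ}) := by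
        rw [integral_finset_sum]
        · refine Finset.sum_congr rfl fun i _ => ?_
          rw [integral_const_mul, hind]
        · intro i _
          exact (hint _).const_mul _
    _ ≤ ∑ i ∈ Finset.range M, 2 * (1 / 16) ^ i * (62 * (2 ^ (i + 1) * δ) ^ 2 * (b - a)) := by
        refine Finset.sum_le_sum fun i _ => ?_
        apply mul_le_mul_of_nonneg_left _ (by positivity)
        have h2i : (1 : ℝ) ≤ 2 ^ (i + 1) := one_le_pow₀ (by norm_num)
        have hfr' : 1 / (Nat.fib j : ℝ) ≤ (b - a) * (2 ^ (i + 1) * δ) := by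
          refine hfr.trans ?_
          apply mul_le_mul_of_nonneg_left _ hba
          nlinarith
        refine le_trans ?_ (level_measure j hj a b hab hlen (2 ^ (i + 1) * δ) (by positivity) hfr')
        apply measureReal_mono
        · exact Set.inter_subset_inter_left _ Set.Ioc_subset_Icc_self
        · apply ne_of_lt
          refine lt_of_le_of_lt (measure_mono Set.inter_subset_left) ?_
          rw [Real.volume_Icc]
          exact ENNReal.ofReal_lt_top
    _ = 496 * δ ^ 2 * (b - a) * ∑ i ∈ Finset.range M, (1 / 4) ^ i := by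
        rw [Finset.mul_sum]
        refine Finset.sum_congr rfl fun i _ => ?_
        have e : (1 / 16 : ℝ) ^ i * (2 ^ (i + 1)) ^ 2 = 4 * (1 / 4) ^ i := by
          have h1 : ((2 : ℝ) ^ (i + 1)) ^ 2 = 4 * 4 ^ i := by
            rw [← pow_mul, mul_comm (i + 1) 2, pow_mul]
            norm_num [pow_succ]
            ring
          have h2 : (1 / 16 : ℝ) ^ i * 4 ^ i = (1 / 4) ^ i := by
            rw [← mul_pow]
            norm_num
          rw [h1]
          linear_combination 4 * h2
        calc 2 * (1 / 16) ^ i * (62 * (2 ^ (i + 1) * δ) ^ 2 * (b - a))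
            = 124 * δ ^ 2 * (b - a) * ((1 / 16 : ℝ) ^ i * (2 ^ (i + 1)) ^ 2) := by ring
          _ = _ := by rw [e]; ring
    _ ≤ 496 * δ ^ 2 * (b - a) * (4 / 3) := by
        apply mul_le_mul_of_nonneg_left _ (by positivity)
        have h3 := (summable_geometric_of_lt_one (r := (1 / 4 : ℝ)) (by norm_num)
          (by norm_num)).sum_le_tsum (Finset.range M) (fun i _ => by positivity)
        rw [tsum_geometric_of_lt_one (by norm_num) (by norm_num)] at h3
        norm_num at h3 ⊢
        exact h3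
    _ ≤ 700 * δ ^ 2 * (b - a) := by
        have : 0 ≤ δ ^ 2 * (b - a) := by positivity
        nlinarith

theorem fib_fresh (j T : ℕ) (hT : 1 ≤ T) : Nat.fib T * Nat.fib (j + 1) ≤ Nat.fib (j + T) := by
  obtain ⟨n, rfl⟩ : ∃ n, T = n + 1 := ⟨T - 1, by omega⟩
  have h := Nat.fib_add n j
  have e : n + j + 1 = j + (n + 1) := by ring
  rw [e] at h
  rw [h]
  exact Nat.le_add_left _ _

theorem moment_fresh {δ τ : ℝ} (hδ : 0 < δ) (hδ1 : δ ≤ 1) (hτ : 0 ≤ τ) (hτ1 : τ ≤ 1 / 2) {T : ℕ}
    (hT1 : 1 ≤ T) (hT : 8 / δ ^ 2 ≤ Nat.fib T) (m : ℕ) :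
    ∀ j : ℕ, 1 ≤ j → ∀ a b : ℝ, a ≤ b → b - a ≤ 1 / 2 → 1 ≤ (b - a) * δ * Nat.fib j →
      ∫ s in a..b, Real.exp (τ * ∑ l ∈ Finset.range m, hh δ (YS (j + l * T) s)) ≤
        (1 + 12600 * τ * δ ^ 2) ^ m * (b - a) := by
  induction m with
  | zero =>
    intro j _ a b _ _ _
    simp
  | succ m ih =>
    intro j hj a b hab hlen hfr
    set q := 12600 * τ * δ ^ 2 with hq
    have hq0 : 0 ≤ q := by positivity
    have hba : 0 ≤ b - a := by linarith
    have hf : (0 : ℝ) < Nat.fib j := by exact_mod_cast Nat.fib_pos.mpr (by omega)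
    have hf1 : (0 : ℝ) < Nat.fib (j + 1) := by exact_mod_cast Nat.fib_pos.mpr (by omega)
    have hff : (Nat.fib j : ℝ) ≤ Nat.fib (j + 1) := by exact_mod_cast Nat.fib_mono (by omega)
    have hbap : 0 < b - a := by
      rcases hba.lt_or_eq with h | h
      · exact h
      · rw [← h] at hfr; norm_num at hfr
    have hpi := Real.pi_gt_three
    have hpi4 := Real.pi_le_four
    -- number of parts
    set x := (b - a) * Real.pi * Nat.fib (j + 1) / δ with hx
    have hx1 : 1 ≤ x := by
      rw [hx, le_div_iff₀ hδ, one_mul]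
      have h1 : (b - a) * δ * Nat.fib j ≤ (b - a) * 1 * Nat.fib (j + 1) := by
        apply mul_le_mul _ hff hf.le (by positivity)
        exact mul_le_mul_of_nonneg_left hδ1 hba
      have h2 : 1 ≤ (b - a) * Nat.fib (j + 1) := by linarith
      have h3 : (b - a) * Real.pi * Nat.fib (j + 1) = Real.pi * ((b - a) * Nat.fib (j + 1)) := by ring
      rw [h3]
      nlinarith
    set N := ⌈x⌉₊ with hN
    have hxN : x ≤ N := Nat.le_ceil x
    have hN0 : (0 : ℝ) < N := by linarith
    have hN2 : (N : ℝ) ≤ 2 * x := by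
      have := (Nat.ceil_lt_add_one (by linarith : 0 ≤ x)).le
      linarith
    set w := (b - a) / N with hw
    have hw0 : 0 < w := div_pos hbap hN0
    have hwle : w * (Real.pi * Nat.fib (j + 1)) ≤ δ := by
      have h1 : w ≤ (b - a) / x := div_le_div_of_nonneg_left hba (by linarith) hxN
      have h2 : (b - a) / x = δ / (Real.pi * Nat.fib (j + 1)) := by
        rw [hx]; field_simp
      rw [h2, le_div_iff₀ (by positivity)] at h1
      exact h1
    have hwge : δ ≤ w * (8 * Nat.fib (j + 1)) := by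
      have h1 : (b - a) / (2 * x) ≤ w := div_le_div_of_nonneg_left hba hN0 hN2
      have h2 : (b - a) / (2 * x) = δ / (2 * Real.pi * Nat.fib (j + 1)) := by
        rw [hx]; field_simp
      rw [h2, div_le_iff₀ (by positivity)] at h1
      refine h1.trans ?_
      apply mul_le_mul_of_nonneg_left _ hw0.le
      apply mul_le_mul_of_nonneg_right _ hf1.le
      linarith
    have hNw : (N : ℝ) * w = b - a := by rw [hw]; field_simp
    -- continuity of the integrands
    set H : ℝ → ℝ := fun s => ∑ l ∈ Finset.range m, hh δ (YS (j + T + l * T) s) with hH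
    have hHc : Continuous H := continuous_finset_sum _ fun l _ => hh_cont hδ _
    have hc1 : Continuous (fun s => Real.exp (τ * H s)) := by fun_prop
    have hhc := hh_cont hδ j
    have hc2 : Continuous (fun s => Real.exp (τ * hh δ (YS j s)) * Real.exp (τ * H s)) := by fun_prop
    have hc3 : Continuous (fun s => 1 + 18 * τ * hh δ (YS j s)) := by fun_prop
    have hsplit : ∀ s, Real.exp (τ * ∑ l ∈ Finset.range (m + 1), hh δ (YS (j + l * T) s)) =
        Real.exp (τ * hh δ (YS j s)) * Real.exp (τ * H s) := by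
      intro s
      rw [← Real.exp_add, Finset.sum_range_succ']
      congr 1
      have e : ∀ l, j + (l + 1) * T = j + T + l * T := fun l => by ring
      simp only [e, hH, zero_mul, add_zero]
      ring
    simp only [hsplit]
    -- partition
    set p : ℕ → ℝ := fun k => a + k * w with hp
    have hp0 : p 0 = a := by simp [hp]
    have hpN : p N = b := by simp only [hp]; linarith
    have hsum1 := intervalIntegral.sum_integral_adjacent_intervals (a := p) (n := N) (μ := volume)
      (f := fun s => Real.exp (τ * hh δ (YS j s)) * Real.exp (τ * H s))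
      (fun k _ => hc2.intervalIntegrable _ _)
    have hsum2 := intervalIntegral.sum_integral_adjacent_intervals (a := p) (n := N) (μ := volume)
      (f := fun s => 1 + 18 * τ * hh δ (YS j s)) (fun k _ => hc3.intervalIntegrable _ _)
    rw [hp0, hpN] at hsum1 hsum2
    rw [← hsum1]
    have hpart : ∀ k ∈ Finset.range N,
        ∫ s in p k..p (k + 1), Real.exp (τ * hh δ (YS j s)) * Real.exp (τ * H s) ≤
        (1 + q) ^ m * ∫ s in p k..p (k + 1), (1 + 18 * τ * hh δ (YS j s)) := by
      intro k hk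
      have hpk : p (k + 1) - p k = w := by simp only [hp]; push_cast; ring
      have hle : p k ≤ p (k + 1) := by linarith
      set A := ∫ s in p k..p (k + 1), (1 + 18 * τ * hh δ (YS j s)) with hA
      have hA1 : ∀ s ∈ Set.Icc (p k) (p (k + 1)), Real.exp (τ * hh δ (YS j s)) * w ≤ A := by
        intro s hs
        have h1 : Real.exp (τ * hh δ (YS j s)) * w =
            ∫ _s' in p k..p (k + 1), Real.exp (τ * hh δ (YS j s)) := by
          rw [intervalIntegral.integral_const, hpk, smul_eq_mul, mul_comm]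
        rw [h1, hA]
        apply intervalIntegral.integral_mono_on hle
        · exact intervalIntegrable_const
        · exact hc3.intervalIntegrable _ _
        · intro s' hs'
          have h2 : hh δ (YS j s) ≤ 9 * hh δ (YS j s') := by
            apply hh_comp hδ (YS_nonneg _ _) (YS_nonneg _ _)
            refine (YS_lip j s s').trans ?_
            have h3 : |s - s'| ≤ w := by
              rw [abs_le]
              constructor <;> linarith [hs.1, hs.2, hs'.1, hs'.2]
            have h4 := mul_le_mul_of_nonneg_left h3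
              (by positivity : 0 ≤ Real.pi * (Nat.fib (j + 1) : ℝ))
            linarith
          have h5 : τ * hh δ (YS j s) ≤ 1 := by
            have := hh_le_two hδ (YS j s)
            have := hh_nonneg hδ (YS j s)
            nlinarith
          have h6 : 0 ≤ τ * hh δ (YS j s) := mul_nonneg hτ (hh_nonneg hδ _)
          have h7 := Real.abs_exp_sub_one_le (x := τ * hh δ (YS j s)) (by
            rw [abs_of_nonneg h6]; exact h5)
          have h8 := (abs_le.mp h7).2
          rw [abs_of_nonneg h6] at h8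
          have h9 := mul_le_mul_of_nonneg_left h2 hτ
          linarith
      have hfr' : 1 ≤ (p (k + 1) - p k) * δ * Nat.fib (j + T) := by
        rw [hpk]
        have h1 : (Nat.fib T : ℝ) * Nat.fib (j + 1) ≤ Nat.fib (j + T) := by
          exact_mod_cast fib_fresh j T hT1
        have h2 : 8 ≤ Nat.fib T * δ ^ 2 := by
          rw [div_le_iff₀ (by positivity)] at hT
          exact hT
        have h3 : w * δ * (Nat.fib T * Nat.fib (j + 1)) ≤ w * δ * Nat.fib (j + T) :=
          mul_le_mul_of_nonneg_left h1 (by positivity)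
        refine le_trans ?_ h3
        have h4 : δ * (δ * Nat.fib T) ≤ w * (8 * Nat.fib (j + 1)) * (δ * Nat.fib T) :=
          mul_le_mul_of_nonneg_right hwge (by positivity)
        nlinarith
      have hih := ih (j + T) (by omega) (p k) (p (k + 1)) hle (by
        rw [hpk, hw]
        have : (b - a) / N ≤ b - a := div_le_self hba (by linarith)
        linarith) hfr'
      rw [hpk] at hih
      have hA0 : 0 ≤ A / w := by
        apply div_nonneg _ hw0.le
        rw [hA]
        apply intervalIntegral.integral_nonneg hle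
        intro s _
        have := hh_nonneg hδ (YS j s)
        positivity
      calc ∫ s in p k..p (k + 1), Real.exp (τ * hh δ (YS j s)) * Real.exp (τ * H s)
          ≤ ∫ s in p k..p (k + 1), A / w * Real.exp (τ * H s) := by
            apply intervalIntegral.integral_mono_on hle (hc2.intervalIntegrable _ _)
              ((hc1.const_mul (A / w) |> fun h => by simpa using h : Continuous
                (fun s => A / w * Real.exp (τ * H s))).intervalIntegrable _ _)
            intro s hs
            apply mul_le_mul_of_nonneg_right _ (Real.exp_pos _).le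
            rw [le_div_iff₀ hw0]
            exact hA1 s hs
        _ = A / w * ∫ s in p k..p (k + 1), Real.exp (τ * H s) := by
            rw [intervalIntegral.integral_const_mul]
        _ ≤ A / w * ((1 + q) ^ m * w) := mul_le_mul_of_nonneg_left hih hA0
        _ = (1 + q) ^ m * A := by field_simp
    refine (Finset.sum_le_sum hpart).trans ?_
    rw [← Finset.mul_sum, hsum2]
    have havg := avg j hj a b hab hlen hδ (by
      rw [div_le_iff₀ hf]
      linarith)
    have hint : ∫ s in a..b, (1 + 18 * τ * hh δ (YS j s)) =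
        (b - a) + 18 * τ * ∫ s in a..b, hh δ (YS j s) := by
      rw [intervalIntegral.integral_add (intervalIntegrable_const)
        ((hhc.intervalIntegrable a b).const_mul _), intervalIntegral.integral_const_mul]
      simp
    rw [hint, pow_succ]
    have h1 : (b - a) + 18 * τ * ∫ s in a..b, hh δ (YS j s) ≤ (1 + q) * (b - a) := by
      have := mul_le_mul_of_nonneg_left havg (by positivity : 0 ≤ 18 * τ)
      rw [hq]
      nlinarith
    calc (1 + q) ^ m * ((b - a) + 18 * τ * ∫ s in a..b, hh δ (YS j s))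
        ≤ (1 + q) ^ m * ((1 + q) * (b - a)) := mul_le_mul_of_nonneg_left h1 (by positivity)
      _ = _ := by ring

/-- One residue class. -/
theorem moment_res {δ τ : ℝ} (hδ : 0 < δ) (hδ1 : δ ≤ 1) (hτ : 0 ≤ τ) (hτ1 : τ ≤ 1 / 2) {T : ℕ}
    (hT1 : 1 ≤ T) (hT : 8 / δ ^ 2 ≤ Nat.fib T) (k r : ℕ) :
    ∫ s in (0 : ℝ)..1, Real.exp (τ * ∑ l ∈ Finset.range k, hh δ (YS (r + l * T) s)) ≤
      Real.exp 1 * (1 + 12600 * τ * δ ^ 2) ^ k := by
  have hq0 : 0 ≤ 12600 * τ * δ ^ 2 := by positivity
  set q := 12600 * τ * δ ^ 2 with hq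
  rcases Nat.eq_zero_or_pos k with hk | hk
  · subst hk
    simp
  · obtain ⟨m, rfl⟩ : ∃ m, k = m + 1 := ⟨k - 1, by omega⟩
    set H : ℝ → ℝ := fun s => ∑ l ∈ Finset.range m, hh δ (YS (r + T + l * T) s) with hH
    have hHc : Continuous H := continuous_finset_sum _ fun l _ => hh_cont hδ _
    have hc1 : Continuous (fun s => Real.exp (τ * H s)) := by fun_prop
    have hc0 : Continuous (fun s => Real.exp (τ * ∑ l ∈ Finset.range (m + 1),
        hh δ (YS (r + l * T) s))) := by
      have : Continuous (fun s => ∑ l ∈ Finset.range (m + 1), hh δ (YS (r + l * T) s)) :=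
        continuous_finset_sum _ fun l _ => hh_cont hδ _
      fun_prop
    have hpt : ∀ s, Real.exp (τ * ∑ l ∈ Finset.range (m + 1), hh δ (YS (r + l * T) s)) ≤
        Real.exp 1 * Real.exp (τ * H s) := by
      intro s
      rw [← Real.exp_add]
      apply Real.exp_le_exp.mpr
      rw [Finset.sum_range_succ']
      have e : ∀ l, r + (l + 1) * T = r + T + l * T := fun l => by ring
      simp only [e, zero_mul, add_zero]
      have h1 := hh_le_two hδ (YS r s)
      have h2 := hh_nonneg hδ (YS r s)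
      have h3 : τ * hh δ (YS r s) ≤ 1 := by nlinarith
      rw [mul_add]
      linarith
    have hfT : 8 ≤ Nat.fib T * δ ^ 2 := by
      rw [div_le_iff₀ (by positivity)] at hT
      exact hT
    have hfr : 1 ≤ (1 / 2 : ℝ) * δ * Nat.fib (r + T) := by
      have h1 : (Nat.fib T : ℝ) ≤ Nat.fib (r + T) := by exact_mod_cast Nat.fib_mono (by omega)
      have h2 : Nat.fib T * δ ^ 2 ≤ Nat.fib (r + T) * δ := by
        have h3 : δ ^ 2 ≤ δ := by nlinarith
        apply mul_le_mul h1 h3 (by positivity) (by positivity)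
      nlinarith
    have i1 := moment_fresh hδ hδ1 hτ hτ1 hT1 hT m (r + T) (by omega) 0 (1 / 2) (by norm_num)
      (by norm_num) (by rw [sub_zero]; exact hfr)
    have i2 := moment_fresh hδ hδ1 hτ hτ1 hT1 hT m (r + T) (by omega) (1 / 2) 1 (by norm_num)
      (by norm_num) (by
        have : (1 : ℝ) - 1 / 2 = 1 / 2 := by norm_num
        rw [this]; exact hfr)
    have hadd := intervalIntegral.integral_add_adjacent_intervals (μ := volume)
      (hc1.intervalIntegrable 0 (1 / 2)) (hc1.intervalIntegrable (1 / 2) 1)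
    calc ∫ s in (0 : ℝ)..1, Real.exp (τ * ∑ l ∈ Finset.range (m + 1), hh δ (YS (r + l * T) s))
        ≤ ∫ s in (0 : ℝ)..1, Real.exp 1 * Real.exp (τ * H s) := by
          apply intervalIntegral.integral_mono_on (by norm_num) (hc0.intervalIntegrable _ _)
            ((continuous_const.mul hc1).intervalIntegrable _ _)
          intro s _
          exact hpt s
      _ = Real.exp 1 * ∫ s in (0 : ℝ)..1, Real.exp (τ * H s) := by
          rw [intervalIntegral.integral_const_mul]
      _ ≤ Real.exp 1 * (1 + q) ^ m := by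
          apply mul_le_mul_of_nonneg_left _ (Real.exp_pos 1).le
          rw [← hadd]
          rw [← hq] at i1 i2
          have : (1 + q) ^ m * (1 / 2 - 0) + (1 + q) ^ m * (1 - 1 / 2) = (1 + q) ^ m := by ring
          rw [← this]
          exact add_le_add i1 i2
      _ ≤ Real.exp 1 * (1 + q) ^ (m + 1) := by
          apply mul_le_mul_of_nonneg_left _ (Real.exp_pos 1).le
          exact pow_le_pow_right₀ (by linarith) (by omega)

theorem fib_two_pow (m : ℕ) : 2 ^ m ≤ Nat.fib (2 * m + 1) := by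
  induction m with
  | zero => simp
  | succ m ih =>
    have h1 : Nat.fib (2 * (m + 1) + 1) = Nat.fib (2 * m + 1) + Nat.fib (2 * m + 1 + 1) := by
      rw [show 2 * (m + 1) + 1 = 2 * m + 1 + 2 by ring, Nat.fib_add_two]
    have h2 : Nat.fib (2 * m + 1) ≤ Nat.fib (2 * m + 1 + 1) := Nat.fib_mono (by omega)
    rw [h1, pow_succ]
    omega

theorem sum_block (f : ℕ → ℝ) (T : ℕ) (k : ℕ) :
    ∑ j ∈ Finset.range (k * T), f j = ∑ r ∈ Finset.range T, ∑ l ∈ Finset.range k, f (r + l * T) := by
  induction k with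
  | zero => simp
  | succ k ih =>
    rw [Nat.succ_mul, Finset.sum_range_add, ih, ← Finset.sum_add_distrib]
    refine Finset.sum_congr rfl fun r _ => ?_
    rw [Finset.sum_range_succ]
    congr 2
    ring

end SMAux

open SMAux

theorem moment : ∃ c C lam1 : ℝ, 0 < c ∧ 0 < C ∧ 0 < lam1 ∧ lam1 < 1 / 100 ∧
    ∀ lam : ℝ, 0 < lam → lam ≤ lam1 → ∃ Cl : ℝ, 0 < Cl ∧ ∀ k : ℕ,
      ∫ s in (0:ℝ)..1, Real.exp (c / Real.log (1 / lam) * ∑ j ∈ Finset.range k, phS lam j s)
        ≤ Cl * Real.exp (C * lam * k) := by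
  refine ⟨1 / 14, 6300 * 10 ^ 12, 1 / 10 ^ 12, by norm_num, by norm_num, by norm_num, by norm_num,
    fun lam hl hl1 => ⟨Real.exp 1, Real.exp_pos 1, fun k => ?_⟩⟩
  set L := Real.log (1 / lam) with hL
  have hL1 : 1 ≤ L := by
    rw [hL, Real.le_log_iff_exp_le (by positivity)]
    have h1 := Real.exp_one_lt_d9
    have h2 : (10 : ℝ) ^ 12 ≤ 1 / lam := by
      rw [le_div_iff₀ hl]
      calc (10 : ℝ) ^ 12 * lam ≤ 10 ^ 12 * (1 / 10 ^ 12) := by
            apply mul_le_mul_of_nonneg_left hl1 (by norm_num)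
        _ = 1 := by norm_num
    have h3 : (3 : ℝ) ≤ 10 ^ 12 := by norm_num
    linarith
  have hL0 : 0 < L := by linarith
  set δ := 10 ^ 6 * Real.sqrt lam with hδd
  have hδ : 0 < δ := by positivity
  have hδ2 : δ ^ 2 = 10 ^ 12 * lam := by
    rw [hδd, mul_pow, Real.sq_sqrt hl.le]
    norm_num
  have hδ1 : δ ≤ 1 := by
    have : δ ^ 2 ≤ 1 ^ 2 := by
      rw [hδ2]
      calc (10 : ℝ) ^ 12 * lam ≤ 10 ^ 12 * (1 / 10 ^ 12) := by
            apply mul_le_mul_of_nonneg_left hl1 (by norm_num)
        _ = 1 ^ 2 := by norm_num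
    exact (pow_le_pow_iff_left₀ hδ.le (by norm_num) two_ne_zero).mp this
  -- the period
  set m := ⌈2 * L⌉₊ with hm
  set T := 2 * m + 1 with hTd
  have hT1 : 1 ≤ T := by omega
  have hmL : 2 * L ≤ m := Nat.le_ceil _
  have hmL2 : (m : ℝ) ≤ 2 * L + 1 := (Nat.ceil_lt_add_one (by positivity)).le
  have hTL : (T : ℝ) ≤ 7 * L := by
    rw [hTd]; push_cast
    linarith
  have hT : 8 / δ ^ 2 ≤ Nat.fib T := by
    have h1 : ((2 ^ m : ℕ) : ℝ) ≤ Nat.fib T := by exact_mod_cast fib_two_pow m
    refine le_trans ?_ h1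
    push_cast
    have h2 : 1 / lam ≤ (2 : ℝ) ^ m := by
      have h3 : Real.exp L = 1 / lam := by rw [hL]; exact Real.exp_log (by positivity)
      rw [← h3]
      have h4 : (2 : ℝ) ^ m = Real.exp (m * Real.log 2) := by
        rw [mul_comm, Real.exp_mul, Real.exp_log (by norm_num), Real.rpow_natCast]
      rw [h4]
      apply Real.exp_le_exp.mpr
      have h5 : (1 / 2 : ℝ) ≤ Real.log 2 := by
        have := Real.log_two_gt_d9
        linarith
      nlinarith
    refine le_trans ?_ h2
    rw [hδ2, div_le_div_iff₀ (by positivity) hl]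
    nlinarith
  have hTR : (1 : ℝ) ≤ T := by exact_mod_cast hT1
  have hT0 : (0 : ℝ) < T := by linarith
  set σ := 1 / 14 / L with hσ
  have hσ0 : 0 < σ := by positivity
  set τ := σ * T with hτd
  have hτ0 : 0 ≤ τ := by positivity
  have hτ1 : τ ≤ 1 / 2 := by
    rw [hτd, hσ, div_mul_eq_mul_div, div_le_iff₀ hL0]
    linarith
  have hpt : ∀ s, Real.exp (σ * ∑ j ∈ Finset.range k, phS lam j s) ≤
      ∑ r ∈ Finset.range T, (1 / (T : ℝ)) *
        Real.exp (τ * ∑ l ∈ Finset.range k, hh δ (YS (r + l * T) s)) := by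
    intro s
    have h1 : ∑ j ∈ Finset.range k, phS lam j s ≤
        ∑ r ∈ Finset.range T, ∑ l ∈ Finset.range k, hh δ (YS (r + l * T) s) := by
      rw [← sum_block (fun j => hh δ (YS j s)) T k]
      refine (Finset.sum_le_sum fun j _ => phS_le hl j s).trans ?_
      apply Finset.sum_le_sum_of_subset_of_nonneg
      · intro j hj
        rw [Finset.mem_range] at hj ⊢
        exact lt_of_lt_of_le hj (Nat.le_mul_of_pos_right k hT1)
      · intro j _ _
        exact hh_nonneg hδ _
    have h2 := convexOn_exp.map_sum_le (t := Finset.range T) (w := fun _ => 1 / (T : ℝ))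
      (p := fun r => τ * ∑ l ∈ Finset.range k, hh δ (YS (r + l * T) s))
      (fun _ _ => by positivity) (by
        rw [Finset.sum_const, Finset.card_range, nsmul_eq_mul]
        field_simp) (fun _ _ => Set.mem_univ _)
    simp only [smul_eq_mul] at h2
    refine le_trans (Real.exp_le_exp.mpr ?_) h2
    have h3 : ∑ r ∈ Finset.range T, 1 / (T : ℝ) *
        (τ * ∑ l ∈ Finset.range k, hh δ (YS (r + l * T) s)) =
        σ * ∑ r ∈ Finset.range T, ∑ l ∈ Finset.range k, hh δ (YS (r + l * T) s) := by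
      rw [Finset.mul_sum]
      refine Finset.sum_congr rfl fun r _ => ?_
      rw [hτd]
      field_simp
    rw [h3]
    exact mul_le_mul_of_nonneg_left h1 hσ0.le
  have hcr : ∀ r, Continuous (fun s => 1 / (T : ℝ) *
      Real.exp (τ * ∑ l ∈ Finset.range k, hh δ (YS (r + l * T) s))) := by
    intro r
    have : Continuous (fun s => ∑ l ∈ Finset.range k, hh δ (YS (r + l * T) s)) :=
      continuous_finset_sum _ fun l _ => hh_cont hδ _
    fun_prop
  have hcs : Continuous (fun s => ∑ r ∈ Finset.range T, 1 / (T : ℝ) *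
      Real.exp (τ * ∑ l ∈ Finset.range k, hh δ (YS (r + l * T) s))) :=
    continuous_finset_sum _ fun r _ => hcr r
  have hq1 : (1 + 12600 * τ * δ ^ 2) ^ k ≤ Real.exp (6300 * 10 ^ 12 * lam * k) := by
    have h1 : 1 + 12600 * τ * δ ^ 2 ≤ Real.exp (6300 * 10 ^ 12 * lam) := by
      have h2 : 12600 * τ * δ ^ 2 ≤ 6300 * 10 ^ 12 * lam := by
        rw [hδ2]
        nlinarith
      have := Real.add_one_le_exp (6300 * 10 ^ 12 * lam)
      linarith
    calc (1 + 12600 * τ * δ ^ 2) ^ k ≤ (Real.exp (6300 * 10 ^ 12 * lam)) ^ k :=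
          pow_le_pow_left₀ (by positivity) h1 k
      _ = Real.exp (6300 * 10 ^ 12 * lam * k) := by
          rw [← Real.exp_nat_mul]
          congr 1
          ring
  have hmain : ∫ s in (0:ℝ)..1, ∑ r ∈ Finset.range T, 1 / (T : ℝ) *
      Real.exp (τ * ∑ l ∈ Finset.range k, hh δ (YS (r + l * T) s)) ≤
      Real.exp 1 * (1 + 12600 * τ * δ ^ 2) ^ k := by
    rw [intervalIntegral.integral_finset_sum (fun r _ => (hcr r).intervalIntegrable _ _)]
    have h1 : ∀ r ∈ Finset.range T, ∫ s in (0:ℝ)..1, 1 / (T : ℝ) *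
        Real.exp (τ * ∑ l ∈ Finset.range k, hh δ (YS (r + l * T) s)) ≤
        1 / (T : ℝ) * (Real.exp 1 * (1 + 12600 * τ * δ ^ 2) ^ k) := by
      intro r _
      rw [intervalIntegral.integral_const_mul]
      exact mul_le_mul_of_nonneg_left (moment_res hδ hδ1 hτ0 hτ1 hT1 hT k r) (by positivity)
    refine (Finset.sum_le_sum h1).trans (le_of_eq ?_)
    rw [Finset.sum_const, Finset.card_range, nsmul_eq_mul]
    field_simp
  calc ∫ s in (0:ℝ)..1, Real.exp (σ * ∑ j ∈ Finset.range k, phS lam j s)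
      ≤ ∫ s in (0:ℝ)..1, ∑ r ∈ Finset.range T, 1 / (T : ℝ) *
        Real.exp (τ * ∑ l ∈ Finset.range k, hh δ (YS (r + l * T) s)) := by
        refine intervalIntegral.integral_mono_on (by norm_num) ?_
          (hcs.intervalIntegrable _ _) (fun s _ => hpt s)
        rw [intervalIntegrable_iff_integrableOn_Ioc_of_le (by norm_num)]
        refine MeasureTheory.Integrable.mono' ((hcs.integrableOn_Icc (a := 0) (b := 1)).mono_set
          Set.Ioc_subset_Icc_self) ?_ (Filter.Eventually.of_forall fun s => ?_)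
        · apply Measurable.aestronglyMeasurable
          have hph : ∀ j, Measurable (fun s => phS lam j s) := by
            intro j
            unfold phS
            have hY : Measurable (YS j) := (YS_cont j).measurable
            exact Measurable.ite (measurableSet_le (hY.pow_const 2) measurable_const)
              measurable_const (measurable_const.div (hY.pow_const 4))
          have hs : Measurable (fun s => ∑ j ∈ Finset.range k, phS lam j s) :=
            Finset.measurable_sum _ fun j _ => hph j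
          exact Real.measurable_exp.comp (hs.const_mul _)
        · rw [Real.norm_eq_abs, abs_of_pos (Real.exp_pos _)]
          exact hpt s
    _ ≤ Real.exp 1 * (1 + 12600 * τ * δ ^ 2) ^ k := hmain
    _ ≤ Real.exp 1 * Real.exp (6300 * 10 ^ 12 * lam * k) :=
        mul_le_mul_of_nonneg_left hq1 (Real.exp_pos 1).le

end SF
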