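import Mathlib

/-!
# SF-TREE: killed renewal on the dyadic tree (pure combinatorics)

Nodes of level `k` are the numbers `i < 2^(j k)` (`j` monotone); the ancestor of `i` (level `k'`) at level `k <= k'` is
`i / 2^(j k' - j k)`.  Some nodes are good.  Start level `ks`.  Along a path: `runL r` = length of the current run of
non-good levels at level `ks + r`, `debt r` decreases by c at good levels and is at least `A * runL`.

Theorem.  Suppose every node has, among its descendants `G0` levels later, a fraction `>= c6` which met a good node on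
the way.  If from every node of level `ks + m T` with `debt <= Bst` a fraction p of the descendants at level
`ks + (m+1) T` is dead, then the number of surviving nodes at level `ks + M T` is at most
`3 exp (tau B0) (1 - p/4)^M` times the number of all nodes.

Proof in words.  `rho = 1 - c6/2`, `eta` with `(1-c6) exp (eta G0) <= rho`; `gs = Bst/A`.  Potential of a node with debt B and
run g (note `A g <= B`):
  `V = exp (tau (B - Bst)^+) + tau [B > Bst] + tau K exp (eta (g - gs))`.
One step of G0 levels, average over the descendants: with probability `>= c6` there is a good level; then `g' <= G0 - 1` and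
`B' <= max (max(B, A(g+G0)) - c) (A G0)`; otherwise `g' = g + G0`, `B' = max (B, A (g+G0))`.  So the average of the last
term of V is `<= rho tau K exp(eta(g-gs)) + tau K exp(eta(G0-gs))`.
(U1) `B > Bst`, `A (g+G0) <= B`: the first two terms decrease in the mean by at least `c6 min(c,1)/2 * tau exp(tau(B-Bst))`
  (needs `A G0 <= Bst`).
(U2) `B > Bst`, `A(g+G0) > B`: they increase by at most `2 tau A G0 exp (tau (B-Bst))`-like terms, which is less than half of
  `(1-rho) tau K exp(eta(g-gs))` if K is large and `tau A <= eta` (here `g - gs > -G0`).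
(C) `B <= Bst`: they do not increase if `A(g+G0) <= Bst`, otherwise by at most `2 tau A G0 + tau`, again compensated.
So `E V' <= V + tau K' exp(-eta gs)` always, and if `B > Bst`:
`E V' <= V - c' (tau exp (tau (B-Bst)) + tau K exp(eta(g-gs))) + tau K' exp (-eta gs)`.
Over a block of `T = G0 T0` levels: if `B > Bst`, `E V_T <= (1 - p/4) V` (p <= c14 tau); if `B <= Bst`, `V <= 2` and the alive part is
`E[V_T alive] <= V + T tau K' exp(-eta gs) - p <= (1-p/4) V` (each dead node has potential >= 1).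
Induction over the blocks; at the start `V <= exp (tau B0) + 2 <= 3 exp (tau B0)`; in the end each surviving node has `V >= 1`.
-/

namespace SF

open Classical

/-- Ancestor. -/
def anc (j : ℕ → ℕ) (k k' i : ℕ) : ℕ := i / 2 ^ (j k' - j k)

/-- Run length of non-good levels. -/
noncomputable def runL (j : ℕ → ℕ) (good : ℕ → ℕ → Prop) (ks : ℕ) : ℕ → ℕ → ℕ
  | 0, _ => 0
  | (r + 1), i => if good (ks + (r + 1)) i then 0
      else runL j good ks r (anc j (ks + r) (ks + (r + 1)) i) + 1

/-- Debt. -/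
noncomputable def debt (j : ℕ → ℕ) (good : ℕ → ℕ → Prop) (ks : ℕ) (A c B0 : ℝ) : ℕ → ℕ → ℝ
  | 0, _ => B0
  | (r + 1), i => if good (ks + (r + 1)) i
      then max 0 (debt j good ks A c B0 r (anc j (ks + r) (ks + (r + 1)) i) - c)
      else max (debt j good ks A c B0 r (anc j (ks + r) (ks + (r + 1)) i))
        (A * (runL j good ks (r + 1) i : ℝ))

namespace TREEh16

/-! ### the potential -/

noncomputable def Wf (tau Bst B : ℝ) : ℝ :=
  Real.exp (tau * max (B - Bst) 0) + if Bst < B then tau else 0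

noncomputable def Zf (tau K eta gs g : ℝ) : ℝ := tau * K * Real.exp (eta * (g - gs))

theorem Wf_mono {tau Bst : ℝ} (ht : 0 ≤ tau) {B B' : ℝ} (h : B ≤ B') :
    Wf tau Bst B ≤ Wf tau Bst B' := by
  unfold Wf
  apply add_le_add
  · apply Real.exp_le_exp.2
    exact mul_le_mul_of_nonneg_left (max_le_max (by linarith) le_rfl) ht
  · split_ifs with h1 h2
    · exact le_rfl
    · exact absurd (h1.trans_le h) h2
    · exact ht
    · exact le_rfl

theorem Wf_le {tau Bst B : ℝ} (h : B ≤ Bst) : Wf tau Bst B = 1 := by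
  unfold Wf
  rw [if_neg (not_lt.2 h), max_eq_right (by linarith), mul_zero, Real.exp_zero, add_zero]

theorem Wf_gt {tau Bst B : ℝ} (h : Bst < B) :
    Wf tau Bst B = Real.exp (tau * (B - Bst)) + tau := by
  unfold Wf
  rw [if_pos h, max_eq_left (by linarith)]

theorem one_le_Wf {tau Bst : ℝ} (ht : 0 ≤ tau) (B : ℝ) : 1 ≤ Wf tau Bst B := by
  rcases le_or_gt B Bst with h | h
  · rw [Wf_le h]
  · rw [Wf_gt h]
    have : 1 ≤ Real.exp (tau * (B - Bst)) := Real.one_le_exp (mul_nonneg ht (by linarith))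
    linarith

theorem Zf_nonneg {tau K eta gs g : ℝ} (ht : 0 ≤ tau) (hK : 0 ≤ K) : 0 ≤ Zf tau K eta gs g := by
  unfold Zf
  positivity

theorem exp_small {y : ℝ} (h0 : 0 ≤ y) (h1 : y ≤ 1) : Real.exp y ≤ 1 + 2 * y := by
  have h := Real.abs_exp_sub_one_le (x := y) (by rw [abs_of_nonneg h0]; exact h1)
  rw [abs_of_nonneg h0] at h
  have := (abs_le.1 h).2
  linarith

theorem exp_neg_small {y : ℝ} (h0 : 0 ≤ y) (h1 : y ≤ 1) : Real.exp (-y) ≤ 1 - y / 2 := by
  have h := Real.add_one_le_exp y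
  have h2 : Real.exp (-y) * Real.exp y = 1 := by rw [← Real.exp_add]; simp
  have h3 : 0 < Real.exp (-y) := Real.exp_pos _
  have h4 : Real.exp (-y) * (y + 1) ≤ 1 :=
    (mul_le_mul_of_nonneg_left h h3.le).trans (le_of_eq h2)
  have h5 : (1 - y / 2) * (y + 1) ≥ 1 := by nlinarith
  nlinarith

theorem drop {tau Bst c G x : ℝ} (ht : 0 < tau) (hc : 0 < c) (htc : tau * c ≤ 1) (hG : G ≤ Bst)
    (hx : Bst < x) :
    min (c / 2) (1 / 3) * tau * Real.exp (tau * (x - Bst)) ≤
      Wf tau Bst x - Wf tau Bst (max (x - c) G) := by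
  rw [Wf_gt hx]
  have hE : 0 < Real.exp (tau * (x - Bst)) := Real.exp_pos _
  rcases lt_or_ge Bst (x - c) with h | h
  · rw [max_eq_left (by linarith), Wf_gt h]
    have e1 : tau * (x - c - Bst) = tau * (x - Bst) + -(tau * c) := by ring
    rw [e1, Real.exp_add]
    have h1 := exp_neg_small (mul_pos ht hc).le htc
    have h2 : min (c / 2) (1 / 3) * tau * Real.exp (tau * (x - Bst)) ≤
        c / 2 * tau * Real.exp (tau * (x - Bst)) :=
      mul_le_mul_of_nonneg_right (mul_le_mul_of_nonneg_right (min_le_left _ _) ht.le) hE.le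
    nlinarith
  · rw [Wf_le (max_le h hG)]
    have h1 : Real.exp (tau * (x - Bst)) ≤ 3 := by
      have : tau * (x - Bst) ≤ 1 := by
        refine le_trans (mul_le_mul_of_nonneg_left ?_ ht.le) htc
        linarith
      exact (Real.exp_le_exp.2 this).trans Real.exp_one_lt_three.le
    have h1' : 1 ≤ Real.exp (tau * (x - Bst)) :=
      Real.one_le_exp (mul_nonneg ht.le (by linarith))
    have h2 : min (c / 2) (1 / 3) * tau * Real.exp (tau * (x - Bst)) ≤
        1 / 3 * tau * Real.exp (tau * (x - Bst)) :=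
      mul_le_mul_of_nonneg_right (mul_le_mul_of_nonneg_right (min_le_right _ _) ht.le) hE.le
    nlinarith

theorem drift_real {A c c6 G eta K tau Bst B g : ℝ} (hA : 0 < A) (hc : 0 < c)
    (hc6 : 0 < c6) (hc61 : c6 < 1) (hG : 0 < G) (heta : 0 < eta) (hK : 0 < K)
    (hKb : Real.exp (eta * G) * (2 * (A * G) + 1 + min (c6 * min (c / 2) (1 / 3)) (c6 / 4))
      ≤ c6 / 4 * K)
    (ht : 0 < tau) (ht1 : tau ≤ 1) (htc : tau * c ≤ 1) (htG : tau * (A * G) ≤ 1)
    (hte : tau * A ≤ eta) (hBst : A * G ≤ Bst) (hg : 0 ≤ g) (hgB : A * g ≤ B) :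
    (Wf tau Bst (max B (A * (g + G))) - c6 * (Wf tau Bst (max B (A * (g + G)))
      - Wf tau Bst (max (max B (A * (g + G)) - c) (A * G)))
      + (1 - c6 / 2) * Zf tau K eta (Bst / A) g ≤ Wf tau Bst B + Zf tau K eta (Bst / A) g) ∧
    (Bst < B → Wf tau Bst (max B (A * (g + G))) - c6 * (Wf tau Bst (max B (A * (g + G)))
      - Wf tau Bst (max (max B (A * (g + G)) - c) (A * G)))
      + (1 - c6 / 2) * Zf tau K eta (Bst / A) g ≤
        (1 - min (c6 * min (c / 2) (1 / 3)) (c6 / 4) * tau / 2) *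
          (Wf tau Bst B + Zf tau K eta (Bst / A) g)) := by
  obtain ⟨c', hc'⟩ : ∃ c', c' = min (c6 * min (c / 2) (1 / 3)) (c6 / 4) := ⟨_, rfl⟩
  obtain ⟨c1, hc1⟩ : ∃ c1, c1 = min (c / 2) (1 / 3) := ⟨_, rfl⟩
  have hc1p : 0 < c1 := by rw [hc1]; exact lt_min (by linarith) (by norm_num)
  rw [← hc'] at hKb ⊢
  rw [← hc1] at hc'
  have hc'p : 0 < c' := by rw [hc']; exact lt_min (by positivity) (by linarith)
  have hc'1 : c' ≤ c6 * c1 := by rw [hc']; exact min_le_left _ _
  have hc'2 : c' ≤ c6 / 4 := by rw [hc']; exact min_le_right _ _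
  have hAG : 0 < A * G := by positivity
  have hBst0 : 0 < Bst := hAG.trans_le hBst
  have hB0 : 0 ≤ B := le_trans (by positivity) hgB
  obtain ⟨Bm, hBm⟩ : ∃ Bm, Bm = max B (A * (g + G)) := ⟨_, rfl⟩
  rw [← hBm]
  obtain ⟨Z, hZ⟩ : ∃ Z, Z = Zf tau K eta (Bst / A) g := ⟨_, rfl⟩
  rw [← hZ]
  have hZ0 : 0 ≤ Z := by rw [hZ]; exact Zf_nonneg ht.le hK.le
  have hBmB : B ≤ Bm := by rw [hBm]; exact le_max_left _ _
  have hBmA : A * (g + G) ≤ Bm := by rw [hBm]; exact le_max_right _ _
  have hBmG : A * G ≤ Bm := by nlinarith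
  obtain ⟨Wl, hWl⟩ : ∃ Wl, Wl = Wf tau Bst (max (Bm - c) (A * G)) := ⟨_, rfl⟩
  rw [← hWl]
  have hWlm : Wl ≤ Wf tau Bst Bm := by
    rw [hWl]; exact Wf_mono ht.le (max_le (by linarith) hBmG)
  have main : Bst < B → Wf tau Bst Bm - c6 * (Wf tau Bst Bm - Wl) + (1 - c6 / 2) * Z ≤
        (1 - c' * tau / 2) * (Wf tau Bst B + Z) := by
    intro hlt
    obtain ⟨E, hE⟩ : ∃ E, E = Real.exp (tau * (B - Bst)) := ⟨_, rfl⟩
    have hE1 : 1 ≤ E := by
      rw [hE]; exact Real.one_le_exp (mul_nonneg ht.le (by linarith))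
    have hWB : Wf tau Bst B = E + tau := by rw [Wf_gt hlt, hE]
    have goal1 : Wf tau Bst B + Z - c' * tau * E - c' / 2 * Z ≤
        (1 - c' * tau / 2) * (Wf tau Bst B + Z) := by
      rw [hWB]
      have h1 : c' * tau / 2 * (E + tau) ≤ c' * tau * E := by
        have : E + tau ≤ 2 * E := by linarith
        have h2 : 0 ≤ c' * tau / 2 := by positivity
        nlinarith
      have h2 : c' * tau / 2 * Z ≤ c' / 2 * Z := by
        refine mul_le_mul_of_nonneg_right ?_ hZ0
        nlinarith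
      nlinarith
    refine le_trans ?_ goal1
    rcases le_total (A * (g + G)) B with hcase | hcase
    · have e1 : Bm = B := by rw [hBm]; exact max_eq_left hcase
      have h1 := drop ht hc htc hBst hlt
      rw [← hc1, ← hE] at h1
      rw [e1] at hWl
      rw [← hWl] at h1
      rw [e1]
      have h2 : c6 * (c1 * tau * E) ≤ c6 * (Wf tau Bst B - Wl) :=
        mul_le_mul_of_nonneg_left h1 hc6.le
      have h3 : c' * tau * E ≤ c6 * (c1 * tau * E) := by
        have : c6 * (c1 * tau * E) = (c6 * c1) * tau * E := by ring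
        rw [this]
        refine mul_le_mul_of_nonneg_right (mul_le_mul_of_nonneg_right hc'1 ht.le) (by linarith)
      have h4 : c' / 2 * Z ≤ c6 / 2 * Z := by
        refine mul_le_mul_of_nonneg_right ?_ hZ0
        linarith
      linarith
    · have e1 : Bm = A * (g + G) := by rw [hBm]; exact max_eq_right hcase
      have hBmgt : Bst < Bm := hlt.trans_le hBmB
      have hWBm : Wf tau Bst Bm ≤ E + tau + 2 * (tau * (A * G)) * E := by
        rw [Wf_gt hBmgt]
        have h1 : tau * (Bm - Bst) ≤ tau * (B - Bst) + tau * (A * G) := by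
          rw [← mul_add]
          refine mul_le_mul_of_nonneg_left ?_ ht.le
          rw [e1]
          linarith
        have h2 : Real.exp (tau * (Bm - Bst)) ≤ E * Real.exp (tau * (A * G)) := by
          rw [hE, ← Real.exp_add]
          exact Real.exp_le_exp.2 h1
        have h3 := exp_small (by positivity : 0 ≤ tau * (A * G)) htG
        have h4 : E * Real.exp (tau * (A * G)) ≤ E * (1 + 2 * (tau * (A * G))) :=
          mul_le_mul_of_nonneg_left h3 (by linarith)
        linarith
      have hEZ : E ≤ Real.exp (eta * G) * Real.exp (eta * (g - Bst / A)) := by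
        rw [hE, ← Real.exp_add]
        apply Real.exp_le_exp.2
        have h1 : B - Bst ≤ A * (g - Bst / A + G) := by
          have : A * (g - Bst / A + G) = A * (g + G) - Bst := by field_simp; ring
          rw [this]; linarith
        have h2 : 0 < g - Bst / A + G := by
          have h3 : 0 < A * (g - Bst / A + G) := by linarith
          exact pos_of_mul_pos_right h3 hA.le
        calc tau * (B - Bst) ≤ tau * (A * (g - Bst / A + G)) := mul_le_mul_of_nonneg_left h1 ht.le
          _ = tau * A * (g - Bst / A + G) := by ring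
          _ ≤ eta * (g - Bst / A + G) := mul_le_mul_of_nonneg_right hte h2.le
          _ = eta * G + eta * (g - Bst / A) := by ring
      have hfin : (2 * (A * G) + c') * (tau * E) ≤ c6 / 4 * Z := by
        have hx : 0 < Real.exp (eta * (g - Bst / A)) := Real.exp_pos _
        have hy : 0 < Real.exp (eta * G) := Real.exp_pos _
        calc (2 * (A * G) + c') * (tau * E) ≤ (2 * (A * G) + c') *
              (tau * (Real.exp (eta * G) * Real.exp (eta * (g - Bst / A)))) := by
              refine mul_le_mul_of_nonneg_left (mul_le_mul_of_nonneg_left hEZ ht.le) ?_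
              positivity
          _ = (Real.exp (eta * G) * (2 * (A * G) + c')) *
              (tau * Real.exp (eta * (g - Bst / A))) := by ring
          _ ≤ (c6 / 4 * K) * (tau * Real.exp (eta * (g - Bst / A))) := by
              refine mul_le_mul_of_nonneg_right (le_trans ?_ hKb) (by positivity)
              refine mul_le_mul_of_nonneg_left ?_ hy.le
              linarith
          _ = c6 / 4 * Z := by rw [hZ]; unfold Zf; ring
      have h5 : c' / 2 * Z ≤ c6 / 4 * Z := by
        refine mul_le_mul_of_nonneg_right ?_ hZ0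
        linarith
      have h6 : 0 ≤ c6 * (Wf tau Bst Bm - Wl) := mul_nonneg hc6.le (by linarith)
      rw [hWB]
      nlinarith
  refine ⟨?_, main⟩
  rcases lt_or_ge Bst B with hlt | hle
  · refine (main hlt).trans ?_
    have h1 : 0 ≤ Wf tau Bst B + Z := by linarith [one_le_Wf (Bst := Bst) ht.le B]
    have h2 : 0 ≤ c' * tau / 2 := by positivity
    nlinarith
  · rw [Wf_le hle]
    rcases le_or_gt Bm Bst with hm | hm
    · have h1 : Wl = 1 := by
        rw [hWl]; exact Wf_le (max_le (by linarith) hBst)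
      rw [Wf_le hm, h1]
      have : 0 ≤ c6 / 2 * Z := by positivity
      linarith
    · have e1 : Bm = A * (g + G) := by
        rw [hBm]
        refine max_eq_right ?_
        by_contra hcon
        push Not at hcon
        rw [hBm, max_eq_left hcon.le] at hm
        linarith
      have h1 : Wf tau Bst Bm ≤ 1 + 2 * (tau * (A * G)) + tau := by
        rw [Wf_gt hm]
        have h2 : tau * (Bm - Bst) ≤ tau * (A * G) := by
          refine mul_le_mul_of_nonneg_left ?_ ht.le
          rw [e1]; linarith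
        have h3 := (Real.exp_le_exp.2 h2).trans (exp_small (by positivity) htG)
        linarith
      have h2 : (2 * (A * G) + 1) * tau ≤ c6 / 4 * Z := by
        have hx : Real.exp (-(eta * G)) ≤ Real.exp (eta * (g - Bst / A)) := by
          apply Real.exp_le_exp.2
          have h3 : -G ≤ g - Bst / A := by
            have h4 : 0 < A * (g - Bst / A + G) := by
              have : A * (g - Bst / A + G) = A * (g + G) - Bst := by field_simp; ring
              rw [this]; linarith
            have := pos_of_mul_pos_right h4 hA.le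
            linarith
          nlinarith
        have hy : Real.exp (eta * G) * Real.exp (-(eta * G)) = 1 := by
          rw [← Real.exp_add]; simp
        have hp : 0 < Real.exp (-(eta * G)) := Real.exp_pos _
        have hq : 0 < Real.exp (eta * G) := Real.exp_pos _
        calc (2 * (A * G) + 1) * tau = (Real.exp (eta * G) * (2 * (A * G) + 1)) *
              (tau * Real.exp (-(eta * G))) := by
              linear_combination (-(2 * (A * G) + 1) * tau) * hy
          _ ≤ (c6 / 4 * K) * (tau * Real.exp (-(eta * G))) := by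
              refine mul_le_mul_of_nonneg_right (le_trans ?_ hKb) (by positivity)
              refine mul_le_mul_of_nonneg_left ?_ hq.le
              linarith
          _ ≤ (c6 / 4 * K) * (tau * Real.exp (eta * (g - Bst / A))) := by
              refine mul_le_mul_of_nonneg_left (mul_le_mul_of_nonneg_left hx ht.le) (by positivity)
          _ = c6 / 4 * Z := by rw [hZ]; unfold Zf; ring
      have h6 : 0 ≤ c6 * (Wf tau Bst Bm - Wl) := mul_nonneg hc6.le (by linarith)
      have h7 : 0 ≤ c6 * Z := by positivity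
      nlinarith

/-! ### the tree -/

/-- descendants -/
def De (a b i : ℕ) : Finset ℕ := (Finset.range (2 ^ b)).filter (fun x => x / 2 ^ (b - a) = i)

theorem mem_De {a b i x : ℕ} : x ∈ De a b i ↔ x < 2 ^ b ∧ x / 2 ^ (b - a) = i := by
  unfold De
  rw [Finset.mem_filter, Finset.mem_range]

theorem div_div_anc {a b c x : ℕ} (hab : a ≤ b) (hbc : b ≤ c) :
    x / 2 ^ (c - b) / 2 ^ (b - a) = x / 2 ^ (c - a) := by
  rw [Nat.div_div_eq_div_mul, ← pow_add]
  congr 2
  omega

theorem div_lt_anc {b c x : ℕ} (hbc : b ≤ c) (hx : x < 2 ^ c) : x / 2 ^ (c - b) < 2 ^ b := by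
  rw [Nat.div_lt_iff_lt_mul (by positivity), ← pow_add]
  have : b + (c - b) = c := by omega
  rwa [this]

theorem De_card {a b i : ℕ} (hab : a ≤ b) (hi : i < 2 ^ a) : (De a b i).card = 2 ^ (b - a) := by
  have h : De a b i = Finset.Ico (i * 2 ^ (b - a)) ((i + 1) * 2 ^ (b - a)) := by
    ext x
    rw [mem_De, Finset.mem_Ico]
    have hpos : 0 < 2 ^ (b - a) := by positivity
    have h2 : 2 ^ b = 2 ^ a * 2 ^ (b - a) := by rw [← pow_add]; congr 1; omega
    have h3 : (i + 1) * 2 ^ (b - a) ≤ 2 ^ b := by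
      rw [h2]; exact Nat.mul_le_mul_right _ hi
    have h4 : (i + 1) * 2 ^ (b - a) = i * 2 ^ (b - a) + 2 ^ (b - a) := by ring
    rw [Nat.div_eq_iff hpos]
    constructor
    · rintro ⟨h5, h6, h7⟩
      exact ⟨h6, by omega⟩
    · rintro ⟨h5, h6⟩
      exact ⟨by omega, h5, by omega⟩
  rw [h, Nat.card_Ico]
  have : (i + 1) * 2 ^ (b - a) = i * 2 ^ (b - a) + 2 ^ (b - a) := by ring
  rw [this]
  exact Nat.add_sub_cancel_left _ _

theorem De_sum {a b c : ℕ} (hab : a ≤ b) (hbc : b ≤ c) (i : ℕ) (F : ℕ → ℝ) :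
    ∑ x ∈ De a c i, F x = ∑ y ∈ De a b i, ∑ x ∈ De b c y, F x := by
  rw [← Finset.sum_fiberwise_of_maps_to (s := De a c i) (t := De a b i)
    (g := fun x => x / 2 ^ (c - b))]
  · refine Finset.sum_congr rfl fun y hy => Finset.sum_congr ?_ fun _ _ => rfl
    ext x
    rw [Finset.mem_filter, mem_De, mem_De]
    rw [mem_De] at hy
    constructor
    · rintro ⟨⟨h1, _⟩, h3⟩
      exact ⟨h1, h3⟩
    · rintro ⟨h1, h2⟩
      refine ⟨⟨h1, ?_⟩, h2⟩
      rw [← div_div_anc hab hbc, h2, hy.2]
  · intro x hx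
    rw [mem_De] at hx ⊢
    exact ⟨div_lt_anc hbc hx.1, by rw [div_div_anc hab hbc, hx.2]⟩

theorem range_sum {b c : ℕ} (hbc : b ≤ c) (F : ℕ → ℝ) :
    ∑ x ∈ Finset.range (2 ^ c), F x = ∑ y ∈ Finset.range (2 ^ b), ∑ x ∈ De b c y, F x := by
  rw [← Finset.sum_fiberwise_of_maps_to (s := Finset.range (2 ^ c)) (t := Finset.range (2 ^ b))
    (g := fun x => x / 2 ^ (c - b))]
  · rfl
  · intro x hx
    rw [Finset.mem_range] at hx ⊢
    exact div_lt_anc hbc hx

theorem anc_anc {j : ℕ → ℕ} (hj : Monotone j) {k1 k2 k3 : ℕ} (h12 : k1 ≤ k2) (h23 : k2 ≤ k3)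
    (x : ℕ) : anc j k1 k2 (anc j k2 k3 x) = anc j k1 k3 x :=
  div_div_anc (hj h12) (hj h23)

theorem anc_self (j : ℕ → ℕ) (k x : ℕ) : anc j k k x = x := by simp [anc]

theorem debt_nonneg (j : ℕ → ℕ) (good : ℕ → ℕ → Prop) (ks : ℕ) (A c B0 : ℝ) (hB0 : 0 ≤ B0) :
    ∀ r i, 0 ≤ debt j good ks A c B0 r i := by
  intro r
  induction r with
  | zero => intro i; simpa [debt] using hB0
  | succ r ih =>
    intro i
    simp only [debt]
    split_ifs
    · exact le_max_left _ _
    · exact (ih _).trans (le_max_left _ _)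

theorem run_debt (j : ℕ → ℕ) (good : ℕ → ℕ → Prop) (ks : ℕ) (A c B0 : ℝ) (hB0 : 0 ≤ B0) :
    ∀ r i, A * (runL j good ks r i : ℝ) ≤ debt j good ks A c B0 r i := by
  intro r i
  cases r with
  | zero => simpa [debt, runL] using hB0
  | succ r =>
    by_cases hg : good (ks + (r + 1)) i
    · simp only [debt, runL, if_pos hg]
      simp
    · simp only [debt, if_neg hg]
      exact le_max_right _ _

theorem path {j : ℕ → ℕ} (good : ℕ → ℕ → Prop) (ks : ℕ) {A c : ℝ} (B0 : ℝ) (hj : Monotone j)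
    (hA : 0 < A) (hc : 0 < c) (G0 r x : ℕ) (g : ℕ) (B : ℝ)
    (hg : g = runL j good ks r (anc j (ks + r) (ks + (r + G0)) x))
    (hB : B = debt j good ks A c B0 r (anc j (ks + r) (ks + (r + G0)) x)) :
    ∀ q, q ≤ G0 →
      ((∃ q', 1 ≤ q' ∧ q' ≤ q ∧ good (ks + (r + q')) (anc j (ks + (r + q')) (ks + (r + G0)) x)) →
        runL j good ks (r + q) (anc j (ks + (r + q)) (ks + (r + G0)) x) + 1 ≤ q ∧
        debt j good ks A c B0 (r + q) (anc j (ks + (r + q)) (ks + (r + G0)) x) ≤
          max (max B (A * ((g : ℝ) + G0)) - c) (A * G0)) ∧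
      ((¬ ∃ q', 1 ≤ q' ∧ q' ≤ q ∧ good (ks + (r + q')) (anc j (ks + (r + q')) (ks + (r + G0)) x)) →
        runL j good ks (r + q) (anc j (ks + (r + q)) (ks + (r + G0)) x) = g + q ∧
        debt j good ks A c B0 (r + q) (anc j (ks + (r + q)) (ks + (r + G0)) x) ≤
          max B (A * ((g : ℝ) + q))) := by
  intro q
  induction q with
  | zero =>
    intro _
    refine ⟨?_, ?_⟩
    · rintro ⟨q', h1, h2, _⟩
      omega
    · intro _
      refine ⟨by rw [add_zero, hg, add_zero], ?_⟩
      rw [add_zero, ← hB]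
      exact le_max_left _ _
  | succ q ih =>
    intro hq
    obtain ⟨ih1, ih2⟩ := ih (by omega)
    have hanc : anc j (ks + (r + q)) (ks + (r + q + 1)) (anc j (ks + (r + (q + 1)))
        (ks + (r + G0)) x) = anc j (ks + (r + q)) (ks + (r + G0)) x :=
      anc_anc hj (by omega) (by omega) x
    have hrun : runL j good ks (r + (q + 1)) (anc j (ks + (r + (q + 1))) (ks + (r + G0)) x)
        = if good (ks + (r + (q + 1))) (anc j (ks + (r + (q + 1))) (ks + (r + G0)) x) then 0
          else runL j good ks (r + q) (anc j (ks + (r + q)) (ks + (r + G0)) x) + 1 := by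
      rw [← hanc]
      rfl
    have hdebt : debt j good ks A c B0 (r + (q + 1)) (anc j (ks + (r + (q + 1)))
        (ks + (r + G0)) x)
        = if good (ks + (r + (q + 1))) (anc j (ks + (r + (q + 1))) (ks + (r + G0)) x) then
            max 0 (debt j good ks A c B0 (r + q) (anc j (ks + (r + q)) (ks + (r + G0)) x) - c)
          else max (debt j good ks A c B0 (r + q) (anc j (ks + (r + q)) (ks + (r + G0)) x))
            (A * (runL j good ks (r + (q + 1))
              (anc j (ks + (r + (q + 1))) (ks + (r + G0)) x) : ℝ)) := by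
      rw [← hanc]
      rfl
    have hqG : ((q : ℝ) + 1) ≤ G0 := by exact_mod_cast hq
    have hg0 : (0 : ℝ) ≤ g := Nat.cast_nonneg _
    have hG0 : (0 : ℝ) ≤ G0 := Nat.cast_nonneg _
    have hmB : B ≤ max B (A * ((g : ℝ) + G0)) := le_max_left _ _
    have hmA : A * ((g : ℝ) + G0) ≤ max B (A * ((g : ℝ) + G0)) := le_max_right _ _
    have hmG : A * (G0 : ℝ) ≤ max B (A * ((g : ℝ) + G0)) := by nlinarith
    obtain ⟨Bm, hBm⟩ : ∃ Bm, Bm = max B (A * ((g : ℝ) + G0)) := ⟨_, rfl⟩
    rw [← hBm] at ih1 ⊢ hmB hmA hmG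
    by_cases hgood : good (ks + (r + (q + 1))) (anc j (ks + (r + (q + 1))) (ks + (r + G0)) x)
    · rw [if_pos hgood] at hrun hdebt
      refine ⟨?_, ?_⟩
      · intro _
        rw [hrun, hdebt]
        refine ⟨by omega, max_le ?_ ?_⟩
        · exact le_trans (by positivity) (le_max_right _ _)
        · refine le_trans ?_ (le_max_left _ _)
          have : debt j good ks A c B0 (r + q) (anc j (ks + (r + q)) (ks + (r + G0)) x)
              ≤ Bm := by
            by_cases hex : ∃ q', 1 ≤ q' ∧ q' ≤ q ∧ good (ks + (r + q'))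
                (anc j (ks + (r + q')) (ks + (r + G0)) x)
            · exact (ih1 hex).2.trans (max_le (by linarith) hmG)
            · refine (ih2 hex).2.trans (max_le hmB (le_trans ?_ hmA))
              refine mul_le_mul_of_nonneg_left ?_ hA.le
              linarith
          linarith
      · intro hno
        exact absurd ⟨q + 1, by omega, le_rfl, hgood⟩ hno
    · rw [if_neg hgood] at hrun hdebt
      have hiff : (∃ q', 1 ≤ q' ∧ q' ≤ q + 1 ∧ good (ks + (r + q'))
          (anc j (ks + (r + q')) (ks + (r + G0)) x)) ↔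
          ∃ q', 1 ≤ q' ∧ q' ≤ q ∧ good (ks + (r + q'))
            (anc j (ks + (r + q')) (ks + (r + G0)) x) := by
        constructor
        · rintro ⟨q', h1, h2, h3⟩
          refine ⟨q', h1, ?_, h3⟩
          rcases Nat.lt_or_ge q q' with h4 | h4
          · have : q' = q + 1 := by omega
            rw [this] at h3
            exact absurd h3 hgood
          · exact h4
        · rintro ⟨q', h1, h2, h3⟩
          exact ⟨q', h1, by omega, h3⟩
      rw [hiff]
      refine ⟨?_, ?_⟩
      · intro hex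
        obtain ⟨h1, h2⟩ := ih1 hex
        have h3 : runL j good ks (r + (q + 1)) (anc j (ks + (r + (q + 1))) (ks + (r + G0)) x)
            + 1 ≤ q + 1 := by rw [hrun]; omega
        refine ⟨h3, ?_⟩
        rw [hdebt]
        refine max_le h2 (le_trans ?_ (le_max_right _ _))
        refine mul_le_mul_of_nonneg_left ?_ hA.le
        have h4 : runL j good ks (r + (q + 1)) (anc j (ks + (r + (q + 1))) (ks + (r + G0)) x)
            ≤ G0 := by omega
        exact_mod_cast h4
      · intro hno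
        obtain ⟨h1, h2⟩ := ih2 hno
        have h3 : runL j good ks (r + (q + 1)) (anc j (ks + (r + (q + 1))) (ks + (r + G0)) x)
            = g + (q + 1) := by rw [hrun, h1]; ring
        refine ⟨h3, ?_⟩
        rw [hdebt, h3]
        refine max_le (h2.trans (max_le_max le_rfl ?_)) ?_
        · refine mul_le_mul_of_nonneg_left ?_ hA.le
          push_cast
          linarith
        · refine le_trans (le_of_eq ?_) (le_max_right _ _)
          push_cast
          ring

/-- one step of `G0` levels -/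
theorem step {j : ℕ → ℕ} (good : ℕ → ℕ → Prop) (ks : ℕ) {A c c6 : ℝ} {B0 : ℝ} (hj : Monotone j)
    (hA : 0 < A) (hc : 0 < c) (hc6 : 0 < c6) (hc61 : c6 < 1) {G0 : ℕ} (hG : 1 ≤ G0)
    {eta K tau Bst : ℝ} (heta : 0 < eta) (hK : 0 < K)
    (hrho : (1 - c6) * Real.exp (eta * G0) ≤ 1 - c6 / 2)
    (hKb : Real.exp (eta * G0) * (2 * (A * G0) + 1 + min (c6 * min (c / 2) (1 / 3)) (c6 / 4))
      ≤ c6 / 4 * K)
    (ht : 0 < tau) (ht1 : tau ≤ 1) (htc : tau * c ≤ 1) (htG : tau * (A * G0) ≤ 1)
    (hte : tau * A ≤ eta) (hBst : A * G0 ≤ Bst) (hB0 : 0 ≤ B0)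
    (hgood : ∀ r i : ℕ, i < 2 ^ j (ks + r) →
      c6 * (2:ℝ) ^ (j (ks + (r + G0)) - j (ks + r)) ≤
        (((De (j (ks + r)) (j (ks + (r + G0))) i).filter (fun x =>
          ∃ q, 1 ≤ q ∧ q ≤ G0 ∧ good (ks + (r + q)) (anc j (ks + (r + q)) (ks + (r + G0)) x))).card
            : ℝ))
    (r i : ℕ) (hi : i < 2 ^ j (ks + r)) :
    (∑ x ∈ De (j (ks + r)) (j (ks + (r + G0))) i,
      (Wf tau Bst (debt j good ks A c B0 (r + G0) x) +
        Zf tau K eta (Bst / A) (runL j good ks (r + G0) x)) ≤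
      (2:ℝ) ^ (j (ks + (r + G0)) - j (ks + r)) *
        (Wf tau Bst (debt j good ks A c B0 r i) + Zf tau K eta (Bst / A) (runL j good ks r i) +
          Zf tau K eta (Bst / A) G0)) ∧
    (Bst < debt j good ks A c B0 r i → ∑ x ∈ De (j (ks + r)) (j (ks + (r + G0))) i,
      (Wf tau Bst (debt j good ks A c B0 (r + G0) x) +
        Zf tau K eta (Bst / A) (runL j good ks (r + G0) x)) ≤
      (2:ℝ) ^ (j (ks + (r + G0)) - j (ks + r)) *
        ((1 - min (c6 * min (c / 2) (1 / 3)) (c6 / 4) * tau / 2) *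
        (Wf tau Bst (debt j good ks A c B0 r i) + Zf tau K eta (Bst / A) (runL j good ks r i)) +
          Zf tau K eta (Bst / A) G0)) := by
  obtain ⟨g, hg⟩ : ∃ g, g = runL j good ks r i := ⟨_, rfl⟩
  obtain ⟨B, hB⟩ : ∃ B, B = debt j good ks A c B0 r i := ⟨_, rfl⟩
  have hG0 : (0 : ℝ) < G0 := by exact_mod_cast hG
  have hgB : A * (g : ℝ) ≤ B := by rw [hg, hB]; exact run_debt j good ks A c B0 hB0 r i
  obtain ⟨d1, d2⟩ := drift_real hA hc hc6 hc61 hG0 heta hK hKb ht ht1 htc htG hte hBst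
    (Nat.cast_nonneg g) hgB
  rw [← hg, ← hB]
  obtain ⟨Bm, hBm⟩ : ∃ Bm, Bm = max B (A * ((g : ℝ) + G0)) := ⟨_, rfl⟩
  rw [← hBm] at d1 d2
  obtain ⟨S, hS⟩ : ∃ S, S = De (j (ks + r)) (j (ks + (r + G0))) i := ⟨_, rfl⟩
  obtain ⟨N, hN⟩ : ∃ N : ℝ, N = (2:ℝ) ^ (j (ks + (r + G0)) - j (ks + r)) := ⟨_, rfl⟩
  have hN0 : 0 < N := by rw [hN]; positivity
  have hcard : (S.card : ℝ) = N := by
    rw [hS, De_card (hj (by omega)) hi, hN]
    push_cast
    rfl
  have hgd := hgood r i hi
  rw [← hS, ← hN] at hgd ⊢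
  obtain ⟨Q, hQ⟩ : ∃ Q : ℕ → Prop, Q = fun x => ∃ q, 1 ≤ q ∧ q ≤ G0 ∧ good (ks + (r + q))
    (anc j (ks + (r + q)) (ks + (r + G0)) x) := ⟨_, rfl⟩
  have hgd' : c6 * N ≤ ((S.filter Q).card : ℝ) := by rw [hQ]; exact hgd
  have hpath : ∀ x ∈ S, (Q x → runL j good ks (r + G0) x ≤ G0 ∧
      debt j good ks A c B0 (r + G0) x ≤ max (Bm - c) (A * G0)) ∧
      (¬ Q x → runL j good ks (r + G0) x = g + G0 ∧ debt j good ks A c B0 (r + G0) x ≤ Bm) := by
    intro x hx
    rw [hS, mem_De] at hx
    have hanc : anc j (ks + r) (ks + (r + G0)) x = i := hx.2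
    have := path good ks B0 hj hA hc G0 r x g B (by rw [hanc, hg]) (by rw [hanc, hB]) G0 le_rfl
    rw [anc_self, ← hBm] at this
    rw [hQ]
    refine ⟨fun h => ⟨?_, (this.1 h).2⟩, this.2⟩
    have h1 := (this.1 h).1
    omega
  obtain ⟨Wl, hWl⟩ : ∃ Wl, Wl = Wf tau Bst (max (Bm - c) (A * G0)) := ⟨_, rfl⟩
  obtain ⟨Wm, hWm⟩ : ∃ Wm, Wm = Wf tau Bst Bm := ⟨_, rfl⟩
  obtain ⟨Z, hZ⟩ : ∃ Z, Z = Zf tau K eta (Bst / A) g := ⟨_, rfl⟩
  obtain ⟨ZG, hZG⟩ : ∃ ZG, ZG = Zf tau K eta (Bst / A) G0 := ⟨_, rfl⟩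
  rw [← hWl, ← hWm, ← hZ] at d1 d2
  rw [← hZ, ← hZG]
  have hZ0 : 0 ≤ Z := by rw [hZ]; exact Zf_nonneg ht.le hK.le
  have hZG0 : 0 ≤ ZG := by rw [hZG]; exact Zf_nonneg ht.le hK.le
  have hZmono : ∀ {u v : ℝ}, u ≤ v → Zf tau K eta (Bst / A) u ≤ Zf tau K eta (Bst / A) v := by
    intro u v huv
    unfold Zf
    refine mul_le_mul_of_nonneg_left (Real.exp_le_exp.2 ?_) (by positivity)
    exact mul_le_mul_of_nonneg_left (by linarith) heta.le
  have hZs : Zf tau K eta (Bst / A) ((g : ℝ) + G0) = Real.exp (eta * G0) * Z := by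
    rw [hZ]
    unfold Zf
    have : eta * ((g : ℝ) + G0 - Bst / A) = eta * G0 + eta * (g - Bst / A) := by ring
    rw [this, Real.exp_add]
    ring
  have hg0 : (0 : ℝ) ≤ g := Nat.cast_nonneg _
  have hWlm : Wl ≤ Wm := by
    rw [hWl, hWm]
    refine Wf_mono ht.le (max_le (by linarith) ?_)
    rw [hBm]
    refine le_trans ?_ (le_max_right _ _)
    exact mul_le_mul_of_nonneg_left (by linarith) hA.le
  have key : ∑ x ∈ S, (Wf tau Bst (debt j good ks A c B0 (r + G0) x) +
        Zf tau K eta (Bst / A) (runL j good ks (r + G0) x)) ≤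
      N * (Wm - c6 * (Wm - Wl) + (1 - c6 / 2) * Z + ZG) := by
    rw [← Finset.sum_filter_add_sum_filter_not S Q]
    have s1 : ∑ x ∈ S.filter Q, (Wf tau Bst (debt j good ks A c B0 (r + G0) x) +
        Zf tau K eta (Bst / A) (runL j good ks (r + G0) x)) ≤
        ((S.filter Q).card : ℝ) * (Wl + ZG) := by
      rw [← nsmul_eq_mul]
      apply Finset.sum_le_card_nsmul
      intro x hx
      rw [Finset.mem_filter] at hx
      obtain ⟨h1, h2⟩ := (hpath x hx.1).1 hx.2
      refine add_le_add ?_ ?_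
      · rw [hWl]; exact Wf_mono ht.le h2
      · rw [hZG]; exact hZmono (by exact_mod_cast h1)
    have s2 : ∑ x ∈ S.filter (fun x => ¬ Q x), (Wf tau Bst (debt j good ks A c B0 (r + G0) x) +
        Zf tau K eta (Bst / A) (runL j good ks (r + G0) x)) ≤
        ((S.filter (fun x => ¬ Q x)).card : ℝ) * (Wm + Real.exp (eta * G0) * Z) := by
      rw [← nsmul_eq_mul]
      apply Finset.sum_le_card_nsmul
      intro x hx
      rw [Finset.mem_filter] at hx
      obtain ⟨h1, h2⟩ := (hpath x hx.1).2 hx.2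
      refine add_le_add ?_ ?_
      · rw [hWm]; exact Wf_mono ht.le h2
      · rw [h1, ← hZs]; push_cast; exact le_rfl
    have hc2 : ((S.filter Q).card : ℝ) + ((S.filter (fun x => ¬ Q x)).card : ℝ) = N := by
      rw [← hcard]
      exact_mod_cast Finset.card_filter_add_card_filter_not Q
    obtain ⟨n1, hn1⟩ : ∃ n1 : ℝ, n1 = ((S.filter Q).card : ℝ) := ⟨_, rfl⟩
    obtain ⟨n2, hn2⟩ : ∃ n2 : ℝ, n2 = ((S.filter (fun x => ¬ Q x)).card : ℝ) := ⟨_, rfl⟩
    rw [← hn1, ← hn2] at hc2
    rw [← hn1] at s1 hgd'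
    rw [← hn2] at s2
    have hn10 : 0 ≤ n1 := by rw [hn1]; positivity
    have hn20 : 0 ≤ n2 := by rw [hn2]; positivity
    refine (add_le_add s1 s2).trans ?_
    have e1 : n1 * Wl + n2 * Wm ≤ N * (Wm - c6 * (Wm - Wl)) := by
      have h1 : c6 * N * (Wm - Wl) ≤ n1 * (Wm - Wl) :=
        mul_le_mul_of_nonneg_right hgd' (by linarith)
      have h2 : n1 * Wl + n2 * Wm = N * Wm - n1 * (Wm - Wl) := by rw [← hc2]; ring
      rw [h2]
      linarith
    have e2 : n1 * ZG ≤ N * ZG := mul_le_mul_of_nonneg_right (by linarith) hZG0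
    have e3 : n2 * (Real.exp (eta * G0) * Z) ≤ N * ((1 - c6 / 2) * Z) := by
      have h1 : n2 ≤ (1 - c6) * N := by linarith
      have h2 : 0 ≤ Real.exp (eta * G0) * Z := mul_nonneg (Real.exp_pos _).le hZ0
      calc n2 * (Real.exp (eta * G0) * Z) ≤ (1 - c6) * N * (Real.exp (eta * G0) * Z) :=
            mul_le_mul_of_nonneg_right h1 h2
        _ = N * (((1 - c6) * Real.exp (eta * G0)) * Z) := by ring
        _ ≤ N * ((1 - c6 / 2) * Z) := by
            refine mul_le_mul_of_nonneg_left (mul_le_mul_of_nonneg_right hrho hZ0) hN0.le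
    linarith
  constructor
  · refine key.trans (mul_le_mul_of_nonneg_left ?_ hN0.le)
    linarith
  · intro hlt
    refine key.trans (mul_le_mul_of_nonneg_left ?_ hN0.le)
    linarith [d2 hlt]

/-- abstract iteration: `V r x` a function on the nodes with one step inequality -/
theorem iter {J : ℕ → ℕ} (hJ : Monotone J) {G0 : ℕ} {V : ℕ → ℕ → ℝ} {ε : ℝ}
    (h : ∀ r i : ℕ, i < 2 ^ J r → ∑ x ∈ De (J r) (J (r + G0)) i, V (r + G0) x ≤
      (2:ℝ) ^ (J (r + G0) - J r) * (V r i + ε)) :
    ∀ n r i : ℕ, i < 2 ^ J r → ∑ x ∈ De (J r) (J (r + G0 * n)) i, V (r + G0 * n) x ≤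
      (2:ℝ) ^ (J (r + G0 * n) - J r) * (V r i + n * ε) := by
  intro n
  induction n with
  | zero =>
    intro r i hi
    have : De (J r) (J (r + G0 * 0)) i = {i} := by
      ext x
      rw [mem_De, Finset.mem_singleton, mul_zero, add_zero, Nat.sub_self, pow_zero, Nat.div_one]
      constructor
      · exact fun h => h.2
      · intro h; rw [h]; exact ⟨hi, rfl⟩
    rw [this, Finset.sum_singleton]
    simp
  | succ n ih =>
    intro r i hi
    have h1 : r + G0 * (n + 1) = r + G0 * n + G0 := by ring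
    rw [h1, De_sum (hJ (by omega : r ≤ r + G0 * n)) (hJ (by omega : r + G0 * n ≤ r + G0 * n + G0))]
    have h2 : ∀ y ∈ De (J r) (J (r + G0 * n)) i,
        ∑ x ∈ De (J (r + G0 * n)) (J (r + G0 * n + G0)) y, V (r + G0 * n + G0) x ≤
        (2:ℝ) ^ (J (r + G0 * n + G0) - J (r + G0 * n)) * (V (r + G0 * n) y + ε) := by
      intro y hy
      rw [mem_De] at hy
      exact h _ y hy.1
    refine (Finset.sum_le_sum h2).trans ?_
    rw [← Finset.mul_sum, Finset.sum_add_distrib, Finset.sum_const,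
      De_card (hJ (by omega : r ≤ r + G0 * n)) hi, nsmul_eq_mul]
    have h3 := ih r i hi
    have h4 : (2:ℝ) ^ (J (r + G0 * n + G0) - J r) =
        (2:ℝ) ^ (J (r + G0 * n + G0) - J (r + G0 * n)) * (2:ℝ) ^ (J (r + G0 * n) - J r) := by
      rw [← pow_add]
      congr 1
      have h5 := hJ (by omega : r ≤ r + G0 * n)
      have h6 := hJ (by omega : r + G0 * n ≤ r + G0 * n + G0)
      omega
    rw [h4, mul_assoc]
    refine mul_le_mul_of_nonneg_left ?_ (by positivity)
    push_cast
    linarith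

/-- the block inequality, summed over the surviving nodes -/
theorem final {j : ℕ → ℕ} (hj : Monotone j) {ks T : ℕ} {V : ℕ → ℕ → ℝ} {V0 p : ℝ}
    {dead : ℕ → ℕ → Prop} (hV1 : ∀ r x, 1 ≤ V r x) (hp1 : 0 ≤ 1 - p / 4)
    (h0 : ∀ x, V 0 x ≤ V0) {M : ℕ}
    (hb : ∀ m i : ℕ, m < M → i < 2 ^ j (ks + m * T) →
      ∑ x ∈ (De (j (ks + m * T)) (j (ks + (m + 1) * T)) i).filter (fun x => ¬ dead (m + 1) x),
        V ((m + 1) * T) x ≤
      (2:ℝ) ^ (j (ks + (m + 1) * T) - j (ks + m * T)) * ((1 - p / 4) * V (m * T) i)) :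
    (((Finset.range (2 ^ j (ks + M * T))).filter (fun i =>
        ∀ m, 1 ≤ m → m ≤ M → ¬ dead m (anc j (ks + m * T) (ks + M * T) i))).card : ℝ)
      ≤ (2:ℝ) ^ j (ks + M * T) * (V0 * (1 - p / 4) ^ M) := by
  have main : ∀ m, m ≤ M → ∑ x ∈ (Finset.range (2 ^ j (ks + m * T))).filter (fun i =>
        ∀ m', 1 ≤ m' → m' ≤ m → ¬ dead m' (anc j (ks + m' * T) (ks + m * T) i)), V (m * T) x
      ≤ (2:ℝ) ^ j (ks + m * T) * (V0 * (1 - p / 4) ^ m) := by
    intro m
    induction m with
    | zero =>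
      intro _
      refine (Finset.sum_le_card_nsmul _ _ V0 ?_).trans ?_
      · intro x _
        rw [zero_mul]
        exact h0 x
      · rw [nsmul_eq_mul, pow_zero, mul_one]
        refine mul_le_mul_of_nonneg_right ?_ ?_
        · have h1 := Finset.card_filter_le (Finset.range (2 ^ j (ks + 0 * T))) (fun i =>
            ∀ m', 1 ≤ m' → m' ≤ 0 → ¬ dead m' (anc j (ks + m' * T) (ks + 0 * T) i))
          rw [Finset.card_range] at h1
          exact_mod_cast h1
        · exact le_trans zero_le_one ((hV1 0 0).trans (h0 0))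
    | succ m ih =>
      intro hm
      have ih' := ih (by omega)
      have hle : ks + m * T ≤ ks + (m + 1) * T := by
        have : (m + 1) * T = m * T + T := by ring
        omega
      have hJ := hj hle
      rw [Finset.sum_filter, range_sum hJ]
      have h1 : ∀ y ∈ Finset.range (2 ^ j (ks + m * T)),
          ∑ x ∈ De (j (ks + m * T)) (j (ks + (m + 1) * T)) y,
            (if ∀ m', 1 ≤ m' → m' ≤ m + 1 → ¬ dead m' (anc j (ks + m' * T)
              (ks + (m + 1) * T) x) then V ((m + 1) * T) x else 0) ≤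
          if ∀ m', 1 ≤ m' → m' ≤ m → ¬ dead m' (anc j (ks + m' * T) (ks + m * T) y) then
            (2:ℝ) ^ (j (ks + (m + 1) * T) - j (ks + m * T)) * ((1 - p / 4) * V (m * T) y)
            else 0 := by
        intro y hy
        rw [Finset.mem_range] at hy
        have hiff : ∀ x ∈ De (j (ks + m * T)) (j (ks + (m + 1) * T)) y,
            ((∀ m', 1 ≤ m' → m' ≤ m + 1 → ¬ dead m' (anc j (ks + m' * T)
              (ks + (m + 1) * T) x)) ↔
            ((∀ m', 1 ≤ m' → m' ≤ m → ¬ dead m' (anc j (ks + m' * T) (ks + m * T) y)) ∧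
              ¬ dead (m + 1) x)) := by
          intro x hx
          rw [mem_De] at hx
          have hanc : anc j (ks + m * T) (ks + (m + 1) * T) x = y := hx.2
          have hcomp : ∀ m', m' ≤ m → anc j (ks + m' * T) (ks + m * T) y =
              anc j (ks + m' * T) (ks + (m + 1) * T) x := by
            intro m' hm'
            rw [← hanc]
            refine anc_anc hj ?_ hle x
            have := Nat.mul_le_mul_right T hm'
            omega
          constructor
          · intro h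
            refine ⟨fun m' h1 h2 => ?_, ?_⟩
            · rw [hcomp m' h2]
              exact h m' h1 (by omega)
            · have := h (m + 1) (by omega) le_rfl
              rwa [anc_self] at this
          · rintro ⟨h1, h2⟩ m' h3 h4
            rcases Nat.lt_or_ge m m' with h5 | h5
            · have : m' = m + 1 := by omega
              rw [this, anc_self]
              exact h2
            · rw [← hcomp m' h5]
              exact h1 m' h3 h5
        split_ifs with hy2
        · refine le_trans (le_of_eq ?_) (hb m y (by omega) hy)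
          rw [Finset.sum_filter]
          refine Finset.sum_congr rfl fun x hx => ?_
          have := hiff x hx
          by_cases hd : dead (m + 1) x
          · rw [if_neg, if_neg]
            · exact not_not.2 hd
            · intro hcon
              exact (this.1 hcon).2 hd
          · rw [if_pos (this.2 ⟨hy2, hd⟩), if_pos hd]
        · refine le_of_eq (Finset.sum_eq_zero fun x hx => ?_)
          rw [if_neg]
          intro hcon
          exact hy2 ((hiff x hx).1 hcon).1
      refine (Finset.sum_le_sum h1).trans ?_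
      rw [← Finset.sum_filter, ← Finset.mul_sum, ← Finset.mul_sum]
      have h2 : (2:ℝ) ^ j (ks + (m + 1) * T) =
          (2:ℝ) ^ (j (ks + (m + 1) * T) - j (ks + m * T)) * (2:ℝ) ^ j (ks + m * T) := by
        rw [← pow_add]
        congr 1
        omega
      rw [h2, mul_assoc]
      refine mul_le_mul_of_nonneg_left ?_ (by positivity)
      calc _ ≤ (1 - p / 4) * ((2:ℝ) ^ j (ks + m * T) * (V0 * (1 - p / 4) ^ m)) :=
            mul_le_mul_of_nonneg_left ih' hp1
        _ = _ := by rw [pow_succ]; ring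
  refine le_trans ?_ (main M le_rfl)
  have := Finset.card_nsmul_le_sum ((Finset.range (2 ^ j (ks + M * T))).filter (fun i =>
        ∀ m', 1 ≤ m' → m' ≤ M → ¬ dead m' (anc j (ks + m' * T) (ks + M * T) i)))
        (V (M * T)) 1 (fun x _ => hV1 _ x)
  rw [nsmul_eq_mul, mul_one] at this
  exact this

end TREEh16

theorem tree_kill (A c c6 : ℝ) (G0 : ℕ) (hA : 0 < A) (hc : 0 < c) (hc6 : 0 < c6) (hc61 : c6 < 1)
    (hG : 1 ≤ G0) :
    ∃ eta K tau0 c14 : ℝ, 0 < eta ∧ 1 ≤ K ∧ 0 < tau0 ∧ 0 < c14 ∧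
    ∀ (j : ℕ → ℕ) (good : ℕ → ℕ → Prop) (ks : ℕ), Monotone j →
    (∀ r i : ℕ, i < 2 ^ j (ks + r) →
      c6 * (2:ℝ) ^ (j (ks + r + G0) - j (ks + r)) ≤
        (((Finset.range (2 ^ j (ks + r + G0))).filter (fun i' =>
          anc j (ks + r) (ks + r + G0) i' = i ∧
          ∃ q, 1 ≤ q ∧ q ≤ G0 ∧ good (ks + r + q) (anc j (ks + r + q) (ks + r + G0) i'))).card : ℝ)) →
    ∀ (Bst B0 tau p : ℝ) (T0 : ℕ), A * G0 ≤ Bst → 0 ≤ B0 → 1 ≤ T0 → 0 < tau → tau ≤ tau0 → 0 < p →
    p ≤ c14 * tau → K * (G0 * T0 : ℕ) * Real.exp (-eta * Bst) * tau ≤ p →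
    K * (G0 * T0 : ℕ) * Real.exp (-eta * Bst) ≤ 1 →
    ∀ (dead : ℕ → ℕ → Prop) (M : ℕ),
    (∀ m i : ℕ, m < M → i < 2 ^ j (ks + m * (G0 * T0)) →
      debt j good ks A c B0 (m * (G0 * T0)) i ≤ Bst →
      p * (2:ℝ) ^ (j (ks + (m + 1) * (G0 * T0)) - j (ks + m * (G0 * T0))) ≤
        (((Finset.range (2 ^ j (ks + (m + 1) * (G0 * T0)))).filter (fun i' =>
          anc j (ks + m * (G0 * T0)) (ks + (m + 1) * (G0 * T0)) i' = i ∧ dead (m + 1) i')).card : ℝ)) →
    (((Finset.range (2 ^ j (ks + M * (G0 * T0)))).filter (fun i =>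
        ∀ m, 1 ≤ m → m ≤ M →
          ¬ dead m (anc j (ks + m * (G0 * T0)) (ks + M * (G0 * T0)) i))).card : ℝ)
      ≤ (2:ℝ) ^ j (ks + M * (G0 * T0)) * (3 * Real.exp (tau * B0) * (1 - p / 4) ^ M) := by
  have hG0 : (0 : ℝ) < G0 := by exact_mod_cast hG
  obtain ⟨c', hc'⟩ : ∃ c', c' = min (c6 * min (c / 2) (1 / 3)) (c6 / 4) := ⟨_, rfl⟩
  have hc'p : 0 < c' := by
    rw [hc']
    exact lt_min (mul_pos hc6 (lt_min (by linarith) (by norm_num))) (by linarith)
  have hc'4 : c' ≤ c6 / 4 := by rw [hc']; exact min_le_right _ _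
  obtain ⟨η, hη⟩ : ∃ η, η = Real.log ((1 - c6 / 2) / (1 - c6)) / G0 := ⟨_, rfl⟩
  have h1c : 0 < 1 - c6 := by linarith
  have hq1 : 1 < (1 - c6 / 2) / (1 - c6) := by
    rw [lt_div_iff₀ h1c]; linarith
  have hηp : 0 < η := by
    rw [hη]; exact div_pos (Real.log_pos hq1) hG0
  have hηG : Real.exp (η * G0) = (1 - c6 / 2) / (1 - c6) := by
    rw [hη, div_mul_cancel₀ _ hG0.ne', Real.exp_log (by linarith)]
  have hrho : (1 - c6) * Real.exp (η * G0) ≤ 1 - c6 / 2 := by
    rw [hηG, mul_div_cancel₀ _ h1c.ne']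
  obtain ⟨KV, hKV⟩ : ∃ KV, KV = Real.exp (η * G0) * (2 * (A * G0) + 1 + c') / (c6 / 4) :=
    ⟨_, rfl⟩
  have hexp1 : 1 ≤ Real.exp (η * G0) := Real.one_le_exp (by positivity)
  have hKVb : Real.exp (η * G0) * (2 * (A * G0) + 1 + c') ≤ c6 / 4 * KV := by
    rw [hKV, mul_div_cancel₀ _ (by positivity)]
  have hKV1 : 1 ≤ KV := by
    have h1 : 1 ≤ Real.exp (η * G0) * (2 * (A * G0) + 1 + c') := by
      have h2 : 1 ≤ 2 * (A * G0) + 1 + c' := by
        have : 0 < A * G0 := by positivity
        linarith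
      calc (1 : ℝ) = 1 * 1 := by ring
        _ ≤ _ := mul_le_mul hexp1 h2 zero_le_one (by linarith)
    by_contra hcon
    push Not at hcon
    have : c6 / 4 * KV < 1 := by nlinarith
    linarith
  have hAG : 0 < A * G0 := by positivity
  obtain ⟨D, hD⟩ : ∃ D, D = 1 + KV + c + A * G0 + A / η := ⟨_, rfl⟩
  have hAη : 0 < A / η := by positivity
  have hDp : 0 < D := by rw [hD]; linarith
  refine ⟨η / A, 4 * KV * Real.exp (η * G0), 1 / D, c', by positivity, ?_, by positivity, hc'p,
    ?_⟩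
  · nlinarith
  intro j good ks hj hgood Bst B0 tau p T0 hBst hB0 hT0 ht htt hp hpc hKp _ dead M hdead
  have htD : tau * D ≤ 1 := by rwa [le_div_iff₀ hDp] at htt
  have hD1 : ∀ y, 0 ≤ y → y ≤ D → tau * y ≤ 1 := fun y _ hy =>
    (mul_le_mul_of_nonneg_left hy ht.le).trans htD
  have ht1 : tau ≤ 1 := by
    have := hD1 1 zero_le_one (by rw [hD]; linarith)
    linarith
  have htc : tau * c ≤ 1 := hD1 c hc.le (by rw [hD]; linarith)
  have htG : tau * (A * G0) ≤ 1 := hD1 _ hAG.le (by rw [hD]; linarith)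
  have htK : tau * KV ≤ 1 := hD1 _ (by linarith) (by rw [hD]; linarith)
  have hte : tau * A ≤ η := by
    have h1 := hD1 (A / η) hAη.le (by rw [hD]; linarith)
    rw [← mul_div_assoc, div_le_one hηp] at h1
    exact h1
  have hBst0 : 0 < Bst := hAG.trans_le hBst
  have hKVp : 0 < KV := by linarith
  rw [hc'] at hKVb
  have hgood' : ∀ r i : ℕ, i < 2 ^ j (ks + r) →
      c6 * (2:ℝ) ^ (j (ks + (r + G0)) - j (ks + r)) ≤
        (((TREEh16.De (j (ks + r)) (j (ks + (r + G0))) i).filter (fun x =>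
          ∃ q, 1 ≤ q ∧ q ≤ G0 ∧ good (ks + (r + q)) (anc j (ks + (r + q)) (ks + (r + G0)) x))).card
            : ℝ) := by
    intro r i hi
    have h1 := hgood r i hi
    simp only [Nat.add_assoc] at h1
    refine h1.trans (le_of_eq ?_)
    congr 2
    ext x
    simp only [Finset.mem_filter, TREEh16.mem_De, anc, Finset.mem_range, and_assoc]
  have hstep := TREEh16.step good ks hj hA hc hc6 hc61 hG hηp hKVp hrho hKVb ht ht1 htc htG hte
    hBst hB0 hgood'
  rw [← hc'] at hstep
  obtain ⟨V, hV⟩ : ∃ V : ℕ → ℕ → ℝ, V = fun r x =>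
    TREEh16.Wf tau Bst (debt j good ks A c B0 r x) +
      TREEh16.Zf tau KV η (Bst / A) (runL j good ks r x) := ⟨_, rfl⟩
  have hVv : ∀ r x, V r x = TREEh16.Wf tau Bst (debt j good ks A c B0 r x) +
      TREEh16.Zf tau KV η (Bst / A) (runL j good ks r x) := by
    intro r x; rw [hV]
  obtain ⟨ε, hε⟩ : ∃ ε, ε = TREEh16.Zf tau KV η (Bst / A) G0 := ⟨_, rfl⟩
  have hε0 : 0 ≤ ε := by rw [hε]; exact TREEh16.Zf_nonneg ht.le hKVp.le
  have hs1 : ∀ r i : ℕ, i < 2 ^ j (ks + r) →
      ∑ x ∈ TREEh16.De (j (ks + r)) (j (ks + (r + G0))) i, V (r + G0) x ≤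
      (2:ℝ) ^ (j (ks + (r + G0)) - j (ks + r)) * (V r i + ε) := by
    intro r i hi
    rw [hV, hε]
    exact (hstep r i hi).1
  have hs2 : ∀ r i : ℕ, i < 2 ^ j (ks + r) → Bst < debt j good ks A c B0 r i →
      ∑ x ∈ TREEh16.De (j (ks + r)) (j (ks + (r + G0))) i, V (r + G0) x ≤
      (2:ℝ) ^ (j (ks + (r + G0)) - j (ks + r)) * ((1 - c' * tau / 2) * V r i + ε) := by
    intro r i hi
    rw [hV, hε]
    exact (hstep r i hi).2
  have hJ : Monotone fun r => j (ks + r) := fun x y hxy => hj (by omega)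
  have hiter := TREEh16.iter (J := fun r => j (ks + r)) hJ (G0 := G0) (V := V) (ε := ε) hs1
  have hTε : (T0 : ℝ) * ε ≤ p / 4 := by
    have e1 : ε = tau * (KV * Real.exp (η * G0)) * Real.exp (-(η / A) * Bst) := by
      rw [hε]
      unfold TREEh16.Zf
      have : η * ((G0 : ℝ) - Bst / A) = η * G0 + -(η / A) * Bst := by ring
      rw [this, Real.exp_add]
      ring
    have h1 : (T0 : ℝ) ≤ ((G0 * T0 : ℕ) : ℝ) := by
      exact_mod_cast Nat.le_mul_of_pos_left T0 (by omega)
    have h2 : (T0 : ℝ) * ε ≤ ((G0 * T0 : ℕ) : ℝ) * ε := mul_le_mul_of_nonneg_right h1 hε0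
    have h3 : ((G0 * T0 : ℕ) : ℝ) * ε * 4 = 4 * KV * Real.exp (η * G0) * (G0 * T0 : ℕ) *
        Real.exp (-(η / A) * Bst) * tau := by
      rw [e1]; ring
    linarith
  have hVone : ∀ r x, 1 ≤ V r x := by
    intro r x
    rw [hVv]
    have h1 := TREEh16.one_le_Wf (Bst := Bst) ht.le (debt j good ks A c B0 r x)
    have h2 := TREEh16.Zf_nonneg (eta := η) (gs := Bst / A) (g := (runL j good ks r x : ℝ))
      ht.le hKVp.le
    linarith
  have hZle : ∀ g : ℝ, g ≤ Bst / A → TREEh16.Zf tau KV η (Bst / A) g ≤ 1 := by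
    intro g hg
    unfold TREEh16.Zf
    have h1 : Real.exp (η * (g - Bst / A)) ≤ 1 := by
      rw [Real.exp_le_one_iff]
      exact mul_nonpos_of_nonneg_of_nonpos hηp.le (by linarith)
    calc tau * KV * Real.exp (η * (g - Bst / A)) ≤ tau * KV * 1 :=
          mul_le_mul_of_nonneg_left h1 (by positivity)
      _ ≤ 1 := by linarith
  have hp1 : p ≤ 1 := by
    have h1 : c' * tau ≤ 1 * 1 := mul_le_mul (by linarith) ht1 ht.le zero_le_one
    linarith
  refine TREEh16.final hj hVone (by linarith) ?_ ?_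
  · intro x
    rw [hVv]
    have h1 : runL j good ks 0 x = 0 := rfl
    have h2 : debt j good ks A c B0 0 x = B0 := rfl
    rw [h1, h2]
    have h3 := hZle ((0 : ℕ) : ℝ) (by rw [Nat.cast_zero]; positivity)
    have h4 : TREEh16.Wf tau Bst B0 ≤ Real.exp (tau * B0) + tau := by
      unfold TREEh16.Wf
      refine add_le_add (Real.exp_le_exp.2 (mul_le_mul_of_nonneg_left ?_ ht.le)) ?_
      · exact max_le (by linarith) hB0
      · split_ifs
        · exact le_rfl
        · exact ht.le
    have h5 : 1 ≤ Real.exp (tau * B0) := Real.one_le_exp (by positivity)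
    linarith
  · intro m i hm hi
    have hmT : (m + 1) * (G0 * T0) = m * (G0 * T0) + G0 * T0 := by ring
    have hle : j (ks + m * (G0 * T0)) ≤ j (ks + (m + 1) * (G0 * T0)) := hj (by omega)
    obtain ⟨r, hr⟩ : ∃ r, r = m * (G0 * T0) := ⟨_, rfl⟩
    obtain ⟨S, hS⟩ : ∃ S, S = TREEh16.De (j (ks + m * (G0 * T0)))
      (j (ks + (m + 1) * (G0 * T0))) i := ⟨_, rfl⟩
    obtain ⟨N, hN⟩ : ∃ N : ℝ, N = (2:ℝ) ^ (j (ks + (m + 1) * (G0 * T0)) -
      j (ks + m * (G0 * T0))) := ⟨_, rfl⟩
    have hN0 : 0 < N := by rw [hN]; positivity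
    rw [← hS, ← hN]
    have hV1 := hVone (m * (G0 * T0)) i
    rcases lt_or_ge Bst (debt j good ks A c B0 (m * (G0 * T0)) i) with hlt | hle2
    · -- large debt
      have hall : ∑ x ∈ S, V ((m + 1) * (G0 * T0)) x ≤
          N * ((1 - c' * tau / 2) * V (m * (G0 * T0)) i + T0 * ε) := by
        obtain ⟨n, hn⟩ : ∃ n, T0 = n + 1 := ⟨T0 - 1, by omega⟩
        have e1 : (m + 1) * (G0 * T0) = m * (G0 * T0) + G0 + G0 * n := by
          rw [hmT, hn]; ring
        have h1 := hs2 (m * (G0 * T0)) i hi hlt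
        rw [hS, hN, e1]
        rw [TREEh16.De_sum (hj (by omega : ks + m * (G0 * T0) ≤ ks + (m * (G0 * T0) + G0)))
          (hj (by omega : ks + (m * (G0 * T0) + G0) ≤ ks + (m * (G0 * T0) + G0 + G0 * n)))]
        have h2 : ∀ y ∈ TREEh16.De (j (ks + m * (G0 * T0))) (j (ks + (m * (G0 * T0) + G0))) i,
            ∑ x ∈ TREEh16.De (j (ks + (m * (G0 * T0) + G0)))
              (j (ks + (m * (G0 * T0) + G0 + G0 * n))) y, V (m * (G0 * T0) + G0 + G0 * n) x ≤
            (2:ℝ) ^ (j (ks + (m * (G0 * T0) + G0 + G0 * n)) - j (ks + (m * (G0 * T0) + G0))) *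
              (V (m * (G0 * T0) + G0) y + n * ε) := by
          intro y hy
          rw [TREEh16.mem_De] at hy
          exact hiter n _ y hy.1
        refine (Finset.sum_le_sum h2).trans ?_
        rw [← Finset.mul_sum, Finset.sum_add_distrib, Finset.sum_const,
          TREEh16.De_card (hj (by omega : ks + m * (G0 * T0) ≤ ks + (m * (G0 * T0) + G0))) hi,
          nsmul_eq_mul]
        have h4 : (2:ℝ) ^ (j (ks + (m * (G0 * T0) + G0 + G0 * n)) - j (ks + m * (G0 * T0))) =
            (2:ℝ) ^ (j (ks + (m * (G0 * T0) + G0 + G0 * n)) - j (ks + (m * (G0 * T0) + G0))) *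
            (2:ℝ) ^ (j (ks + (m * (G0 * T0) + G0)) - j (ks + m * (G0 * T0))) := by
          rw [← pow_add]
          congr 1
          have h5 := hj (by omega : ks + m * (G0 * T0) ≤ ks + (m * (G0 * T0) + G0))
          have h6 := hj (by omega : ks + (m * (G0 * T0) + G0) ≤
            ks + (m * (G0 * T0) + G0 + G0 * n))
          omega
        rw [h4, mul_assoc]
        refine mul_le_mul_of_nonneg_left ?_ (by positivity)
        have h7 : (T0 : ℝ) = n + 1 := by rw [hn]; push_cast; ring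
        rw [h7]
        push_cast
        linarith
      have hsub : ∑ x ∈ S.filter (fun x => ¬ dead (m + 1) x), V ((m + 1) * (G0 * T0)) x ≤
          ∑ x ∈ S, V ((m + 1) * (G0 * T0)) x :=
        Finset.sum_le_sum_of_subset_of_nonneg (Finset.filter_subset _ _)
          (fun x _ _ => le_trans zero_le_one (hVone _ _))
      refine hsub.trans (hall.trans (mul_le_mul_of_nonneg_left ?_ hN0.le))
      nlinarith
    · -- small debt
      have hall : ∑ x ∈ S, V ((m + 1) * (G0 * T0)) x ≤ N * (V (m * (G0 * T0)) i + T0 * ε) := by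
        have h1 := hiter T0 (m * (G0 * T0)) i hi
        rw [hS, hN, hmT]
        exact h1
      have hd := hdead m i hm hi hle2
      have hd' : p * N ≤ ((S.filter (fun x => dead (m + 1) x)).card : ℝ) := by
        rw [hN]
        refine hd.trans (le_of_eq ?_)
        congr 2
        ext x
        rw [hS]
        simp only [Finset.mem_filter, TREEh16.mem_De, anc, Finset.mem_range, and_assoc]
      have hsum := Finset.sum_filter_add_sum_filter_not S (fun x => dead (m + 1) x)
        (V ((m + 1) * (G0 * T0)))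
      have hdl : ((S.filter (fun x => dead (m + 1) x)).card : ℝ) ≤
          ∑ x ∈ S.filter (fun x => dead (m + 1) x), V ((m + 1) * (G0 * T0)) x := by
        have := Finset.card_nsmul_le_sum (S.filter (fun x => dead (m + 1) x))
          (V ((m + 1) * (G0 * T0))) 1 (fun x _ => hVone _ x)
        rwa [nsmul_eq_mul, mul_one] at this
      have hV2 : V (m * (G0 * T0)) i ≤ 2 := by
        rw [hVv, TREEh16.Wf_le hle2]
        have h1 := TREEh16.run_debt j good ks A c B0 hB0 (m * (G0 * T0)) i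
        have h2 := hZle (runL j good ks (m * (G0 * T0)) i : ℝ)
          (by rw [le_div_iff₀ hA]; linarith)
        linarith
      have h5 : ∑ x ∈ S.filter (fun x => ¬ dead (m + 1) x), V ((m + 1) * (G0 * T0)) x ≤
          N * (V (m * (G0 * T0)) i + T0 * ε - p) := by
        have : N * (V (m * (G0 * T0)) i + T0 * ε - p) =
          N * (V (m * (G0 * T0)) i + T0 * ε) - p * N := by ring
        rw [this]
        linarith
      refine h5.trans (mul_le_mul_of_nonneg_left ?_ hN0.le)
      nlinarith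

end SF
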