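import Pool.Agent.Helper65.SF.WDefs

/-!
# SF-WK: the area identity (symmetry of kappa)

Proof in words.  Fix `b, psi`, `a = TW n`, `Q = coord .. n`, `|W n| < 1`, `x k = W lam b psi k`.
Two tangent vectors along the orbit: `v k = d/dpsi (W lam b psi k)` (b fixed, so `v 1 = 0`), and `w`: the
derivative with respect to the coordinate `rho` of the reversed family `(a, rho)`, `rho = -Q-a`, a fixed:
`w k = d/drho (W lam a rho (n+1-k))` for `k <= n+1` (`w n = 0`), and `x k = W lam a (-Q-a) (n+1-k)` by `W_reverse`.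
Both satisfy the linearised recursion `v (k+3) = 2 x(k+2) v(k+1) + 2 x(k+1) v(k+2) - v k` and the linearised
invariant `A0 v k + A1 v (k+1) + A2 v (k+2) = 0` with `A0 = x k - x(k+1) x(k+2)`, `A1 = x (k+1) - x k x(k+2)`,
`A2 = x (k+2) - x k x (k+1)`.  So the cross product `(v k, v(k+1), v(k+2)) x (w k, ..)` equals `c k (A0,A1,A2)` when
`(A0,A1,A2) ≠ 0`, which holds as (A0)^2 = (1-x1^2)(1-x2^2) + lam^2/4 etc. can not all vanish if lam > 0 (or if
one of the x is in (-1,1)...; for lam = 0 treat as: prove the polynomial identity for the components instead: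
`N(k+1) = - J N(k)` where N is the cross product, `J` the inverse transpose of the derivative of the trace map,
and `A(k+1) = J A(k)`; then `N 0 = c A 0` implies `N k = (-1)^k c A k`).
At k = 0: `v 1 = 0`, first component: `- v 2 w 1 = c 0 A0`, `A0 = x0 - x1 x2 = r sin b sin (psi+b)`,
`v 2 = - r sin (psi+b)`, so `c 0 = w 1/sin b` (if `sin (psi+b) = 0` use the third component
`v 0 w 1`: `A2 = x 2 - x 0 x 1 = - r sin b sin psi`, `v 0 = - r sin psi`).
At k = n-1: `w n = 0`: `c (n-1) = v n / sin a` up to sign.  So `|v n|/|sin a| = |w 1|/|sin b|`.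
`kappa(a,b) = 1/(d/dpsi TW n) = |sin a|/|v n|`, and the other one `= |sin b|/|w 1|` (`PP_deriv`, `TW_deriv`,
`QQ_eq`: the state `(a, -Q-a)` has final angle `(-1)^(n+1) b`).
-/

namespace SF

/-- The derivative of the half traces of the word family in the coordinate. -/
noncomputable def wkv (lam b psi : ℝ) (k : ℕ) : ℝ := deriv (fun s => W lam b s k) psi

theorem wk_W_rec (lam b psi : ℝ) (k : ℕ) :
    W lam b psi (k + 3) = 2 * W lam b psi (k + 2) * W lam b psi (k + 1) - W lam b psi k := rfl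

theorem wkv_has (lam b psi : ℝ) (k : ℕ) : HasDerivAt (fun s => W lam b s k) (wkv lam b psi k) psi :=
  (W_differentiable lam b k psi).hasDerivAt

theorem wkv_zero (lam b psi : ℝ) : wkv lam b psi 0 = -(rr lam b * Real.sin psi) := by
  have h : HasDerivAt (fun s => W lam b s 0) (rr lam b * (-Real.sin psi)) psi :=
    (Real.hasDerivAt_cos psi).const_mul (rr lam b)
  rw [(wkv_has lam b psi 0).unique h]
  ring

theorem wkv_one (lam b psi : ℝ) : wkv lam b psi 1 = 0 := by
  have h : HasDerivAt (fun s => W lam b s 1) 0 psi := hasDerivAt_const psi (Real.cos b)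
  exact (wkv_has lam b psi 1).unique h

theorem wkv_two (lam b psi : ℝ) : wkv lam b psi 2 = -(rr lam b * Real.sin (psi + b)) := by
  have h : HasDerivAt (fun s => W lam b s 2) (rr lam b * (-Real.sin (psi + b) * 1)) psi := by
    have h1 : HasDerivAt (fun s : ℝ => s + b) 1 psi := (hasDerivAt_id psi).add_const b
    exact ((Real.hasDerivAt_cos (psi + b)).comp psi h1).const_mul (rr lam b)
  rw [(wkv_has lam b psi 2).unique h]
  ring

theorem wkv_rec (lam b psi : ℝ) (k : ℕ) :
    wkv lam b psi (k + 3) = 2 * W lam b psi (k + 2) * wkv lam b psi (k + 1)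
      + 2 * W lam b psi (k + 1) * wkv lam b psi (k + 2) - wkv lam b psi k := by
  have h0 := wkv_has lam b psi k
  have h1 := wkv_has lam b psi (k + 1)
  have h2 := wkv_has lam b psi (k + 2)
  have h := ((h2.mul h1).const_mul 2).sub h0
  have h3 := h.congr_of_eventuallyEq (f₁ := fun s => W lam b s (k + 3)) (Filter.Eventually.of_forall fun s => by
    change W lam b s (k + 3) = 2 * (W lam b s (k + 2) * W lam b s (k + 1)) - W lam b s k
    rw [wk_W_rec]
    ring)
  rw [(wkv_has lam b psi (k + 3)).unique h3]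
  ring

theorem wkv_inv (lam b psi : ℝ) (hb : Real.sin b ≠ 0) (k : ℕ) :
    (W lam b psi k - W lam b psi (k + 1) * W lam b psi (k + 2)) * wkv lam b psi k
    + (W lam b psi (k + 1) - W lam b psi k * W lam b psi (k + 2)) * wkv lam b psi (k + 1)
    + (W lam b psi (k + 2) - W lam b psi k * W lam b psi (k + 1)) * wkv lam b psi (k + 2) = 0 := by
  have h0 := wkv_has lam b psi k
  have h1 := wkv_has lam b psi (k + 1)
  have h2 := wkv_has lam b psi (k + 2)
  have h := (((h2.mul h2).add (h1.mul h1)).add (h0.mul h0)).sub (((h2.mul h1).mul h0).const_mul 2)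
  have hc : HasDerivAt (fun _ : ℝ => 1 + lam ^ 2 / 4) 0 psi := hasDerivAt_const psi _
  have h3 := h.congr_of_eventuallyEq (f₁ := fun _ : ℝ => 1 + lam ^ 2 / 4) (Filter.Eventually.of_forall fun s => by
    have hi := (St_word lam b s hb).inv k
    change 1 + lam ^ 2 / 4 = W lam b s (k + 2) * W lam b s (k + 2)
      + W lam b s (k + 1) * W lam b s (k + 1) + W lam b s k * W lam b s k
      - 2 * (W lam b s (k + 2) * W lam b s (k + 1) * W lam b s k)
    rw [← hi]
    ring)
  have h4 := hc.unique h3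
  have h5 : ((fun s => W lam b s (k + 2)) * fun s => W lam b s (k + 1)) psi
      = W lam b psi (k + 2) * W lam b psi (k + 1) := rfl
  rw [h5] at h4
  linarith

theorem wk_A0 (lam b psi : ℝ) :
    W lam b psi 0 - W lam b psi 1 * W lam b psi 2 = -(wkv lam b psi 2 * Real.sin b) := by
  rw [wkv_two, f6_W_zero, f6_W_one, f6_W_two]
  have h : Real.cos psi = Real.cos (psi + b) * Real.cos b + Real.sin (psi + b) * Real.sin b := by
    rw [← Real.cos_sub]
    congr 1
    ring
  rw [h]
  ring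

theorem wk_A2 (lam b psi : ℝ) :
    W lam b psi 2 - W lam b psi 0 * W lam b psi 1 = wkv lam b psi 0 * Real.sin b := by
  rw [wkv_zero, f6_W_zero, f6_W_one, f6_W_two, Real.cos_add]
  ring

/-- The cross product of two tangent vectors along an orbit. -/
theorem wk_cross (x v w : ℕ → ℝ) (m : ℕ) (c : ℝ)
    (hx : ∀ k, k + 3 ≤ m → x (k + 3) = 2 * x (k + 2) * x (k + 1) - x k)
    (hv : ∀ k, k + 3 ≤ m → v (k + 3) = 2 * x (k + 2) * v (k + 1) + 2 * x (k + 1) * v (k + 2) - v k)
    (hw : ∀ k, k + 3 ≤ m → w (k + 3) = 2 * x (k + 2) * w (k + 1) + 2 * x (k + 1) * w (k + 2) - w k)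
    (e0 : v 1 * w 2 - v 2 * w 1 = c * (x 0 - x 1 * x 2))
    (e1 : v 2 * w 0 - v 0 * w 2 = c * (x 1 - x 0 * x 2))
    (e2 : v 0 * w 1 - v 1 * w 0 = c * (x 2 - x 0 * x 1)) (k : ℕ) (hk : k + 2 ≤ m) :
    v (k + 1) * w (k + 2) - v (k + 2) * w (k + 1)
      = (-1) ^ k * c * (x k - x (k + 1) * x (k + 2)) ∧
    v (k + 2) * w k - v k * w (k + 2) = (-1) ^ k * c * (x (k + 1) - x k * x (k + 2)) ∧
    v k * w (k + 1) - v (k + 1) * w k = (-1) ^ k * c * (x (k + 2) - x k * x (k + 1)) := by
  induction k with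
  | zero =>
    simp only [pow_zero, one_mul]
    exact ⟨e0, e1, e2⟩
  | succ k ih =>
    obtain ⟨i0, i1, i2⟩ := ih (by omega)
    have a := hx k (by omega)
    have b := hv k (by omega)
    have d := hw k (by omega)
    have s1 : k + 1 + 1 = k + 2 := rfl
    have s2 : k + 1 + 2 = k + 3 := rfl
    rw [s1, s2, a, b, d, pow_succ]
    refine ⟨?_, ?_, ?_⟩
    · linear_combination (-(2 * x (k + 2))) * i0 - i1
    · linear_combination (-(2 * x (k + 1))) * i0 - i2
    · linear_combination i0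

/-- The two parametrisations have the same derivative. -/
theorem wk_dd (lam : ℝ) (h0 : 0 ≤ lam) (h1 : lam ≤ 1 / 100) (n : ℕ) (hn : 2 ≤ n) (a b : ℝ)
    (ha : Real.sin a ≠ 0) (hb : Real.sin b ≠ 0) :
    ∃ d : ℝ, 0 < d ∧ HasDerivAt (fun s => TW lam b s n) d (PP lam n a b) ∧
      HasDerivAt (fun s => TW lam a s n) d (-QQ lam n a b - a) ∧
      TW lam a (-QQ lam n a b - a) n = (-1) ^ (n + 1) * b ∧
      |wkv lam b (PP lam n a b) n| = |Real.sin a| * d := by
  obtain ⟨m, rfl⟩ : ∃ m, n = m + 1 := ⟨n - 1, by omega⟩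
  set psi := PP lam (m + 1) a b with hpsi
  set rho := -QQ lam (m + 1) a b - a with hrho
  have hTW : TW lam b psi (m + 1) = a := PP_spec lam h0 h1 (m + 1) (by omega) a b hb
  have hx : |W lam b psi (m + 1)| < 1 :=
    (sin_TW_ne lam b psi hb (m + 1)).1 (by rw [hTW]; exact ha)
  have hy : ∀ k, k ≤ m + 2 → W lam a rho k = W lam b psi (m + 2 - k) := fun k hk =>
    W_reverse lam b psi h0 h1 hb (m + 1) (by omega) hx a (QQ lam (m + 1) a b) hTW.symm rfl k hk
  have hT : TW lam a rho (m + 1) = (-1) ^ (m + 1 + 1) * b := by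
    have h := TW_reverse lam b psi h0 h1 hb (m + 1) (by omega) hx a (QQ lam (m + 1) a b) hTW.symm rfl
      (m + 1) (by omega)
    rw [h]
    have e : m + 1 + 1 - (m + 1) = 1 := by omega
    rw [e, TW_one]
  obtain ⟨d, hd, -, hdT, hdW⟩ := TW_deriv lam b psi h0 h1 hb (m + 1) (by omega) hx
  have hx' : |W lam a rho (m + 1)| < 1 := by
    rw [hy (m + 1) (by omega)]
    have e : m + 2 - (m + 1) = 1 := by omega
    rw [e]
    exact f6_cos_lt b hb
  obtain ⟨d', hd', -, hdT', hdW'⟩ := TW_deriv lam a rho h0 h1 ha (m + 1) (by omega) hx'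
  have hv : wkv lam b psi (m + 1) = -Real.sin a * d := by
    rw [(wkv_has lam b psi (m + 1)).unique hdW, hTW]
  have hw : wkv lam a rho (m + 1) = -Real.sin ((-1) ^ (m + 1 + 1) * b) * d' := by
    rw [(wkv_has lam a rho (m + 1)).unique hdW', hT]
  have hsb : Real.sin ((-1) ^ (m + 1 + 1) * b) = (-1) ^ m * Real.sin b := by
    rcases neg_one_pow_eq_or ℝ m with h | h
    · rw [pow_succ, pow_succ, h]
      norm_num
    · rw [pow_succ, pow_succ, h]
      norm_num
  -- the cross product
  have hsa := ha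
  set c := wkv lam a rho (m + 1) / Real.sin b with hc
  have hcb : c * Real.sin b = wkv lam a rho (m + 1) := by
    rw [hc]
    field_simp
  have hA0 := wk_A0 lam b psi
  have hA2 := wk_A2 lam b psi
  have hv1 := wkv_one lam b psi
  have hC := wk_cross (fun k => W lam b psi k) (fun k => wkv lam b psi k)
    (fun k => wkv lam a rho (m + 2 - k)) (m + 2) c
    (fun k _ => wk_W_rec lam b psi k) (fun k _ => wkv_rec lam b psi k)
    (by
      intro k hk
      obtain ⟨j, rfl⟩ : ∃ j, m = k + 1 + j := ⟨m - (k + 1), by omega⟩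
      have h := wkv_rec lam a rho j
      have y1 := hy (j + 1) (by omega)
      have y2 := hy (j + 2) (by omega)
      have e1 : k + 1 + j + 2 - (j + 1) = k + 2 := by omega
      have e2 : k + 1 + j + 2 - (j + 2) = k + 1 := by omega
      rw [e1] at y1
      rw [e2] at y2
      have g0 : k + 1 + j + 2 - (k + 3) = j := by omega
      have g1 : k + 1 + j + 2 - (k + 2) = j + 1 := by omega
      have g2 : k + 1 + j + 2 - (k + 1) = j + 2 := by omega
      have g3 : k + 1 + j + 2 - k = j + 3 := by omega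
      simp only [g0, g1, g2, g3]
      rw [y1, y2] at h
      linarith)
    (by
      have g1 : m + 2 - 1 = m + 1 := by omega
      simp only [g1]
      rw [hv1, hA0, ← hcb]
      ring)
    (by
      have g1 : m + 2 - 1 = m + 1 := by omega
      have g2 : m + 2 - 2 = m := by omega
      have g0 : m + 2 - 0 = m + 2 := by omega
      simp only [g0, g2]
      have h := wkv_inv lam a rho ha m
      have y0 := hy m (by omega)
      have y1 := hy (m + 1) (by omega)
      have y2 := hy (m + 2) (by omega)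
      have f0 : m + 2 - m = 2 := by omega
      have f1 : m + 2 - (m + 1) = 1 := by omega
      have f2 : m + 2 - (m + 2) = 0 := by omega
      rw [f0] at y0
      rw [f1] at y1
      rw [f2] at y2
      rw [y0, y1, y2] at h
      have hb' := hb
      apply mul_right_cancel₀ hb
      have e3 : (c * (W lam b psi 1 - W lam b psi 0 * W lam b psi 2)) * Real.sin b
          = (W lam b psi 1 - W lam b psi 0 * W lam b psi 2) * (c * Real.sin b) := by ring
      rw [e3, hcb]
      linear_combination (wkv lam a rho (m + 2)) * hA0 + (wkv lam a rho m) * hA2 - h)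
    (by
      have g1 : m + 2 - 1 = m + 1 := by omega
      simp only [g1]
      rw [hv1, hA2, ← hcb]
      ring) m (le_refl _)
  obtain ⟨n0, -, n2⟩ := hC
  have g0 : m + 2 - (m + 2) = 0 := by omega
  have g1 : m + 2 - (m + 1) = 1 := by omega
  have g2 : m + 2 - m = 2 := by omega
  simp only [g0, g1, g2] at n0 n2
  have hw1 := wkv_one lam a rho
  have hB0 := wk_A0 lam a rho
  have hB2 := wk_A2 lam a rho
  rw [hy 0 (by omega), hy 1 (by omega), hy 2 (by omega)] at hB0 hB2
  have f0 : m + 2 - 0 = m + 2 := by omega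
  have f1 : m + 2 - 1 = m + 1 := by omega
  have f2 : m + 2 - 2 = m := by omega
  rw [f0, f1, f2] at hB0 hB2
  rw [hw1] at n0 n2
  -- n0 : v (m+1) * w' 0 - v (m+2) * 0 = (-1)^m * c * (x m - x (m+1) * x (m+2))
  have k0 : (wkv lam b psi (m + 1) - (-1) ^ m * c * Real.sin a) * wkv lam a rho 0 = 0 := by
    linear_combination n0 + (-1) ^ m * c * hB2
  have k2 : (wkv lam b psi (m + 1) - (-1) ^ m * c * Real.sin a) * wkv lam a rho 2 = 0 := by
    linear_combination (-1 : ℝ) * n2 - (-1) ^ m * c * hB0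
  have hne : wkv lam a rho 0 ≠ 0 ∨ wkv lam a rho 2 ≠ 0 := by
    by_contra hcon
    push Not at hcon
    obtain ⟨z0, z2⟩ := hcon
    rw [wkv_zero] at z0
    rw [wkv_two] at z2
    have hr : rr lam a ≠ 0 := by
      have := one_le_rr lam a
      linarith
    have s0 : Real.sin rho = 0 := by
      rcases mul_eq_zero.1 (neg_eq_zero.1 z0) with h | h
      · exact absurd h hr
      · exact h
    have s2 : Real.sin (rho + a) = 0 := by
      rcases mul_eq_zero.1 (neg_eq_zero.1 z2) with h | h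
      · exact absurd h hr
      · exact h
    apply ha
    have h : Real.sin a = Real.sin (rho + a) * Real.cos rho - Real.cos (rho + a) * Real.sin rho := by
      rw [← Real.sin_sub]
      congr 1
      ring
    rw [h, s0, s2]
    ring
  have hfin : wkv lam b psi (m + 1) = (-1) ^ m * c * Real.sin a := by
    rcases hne with h | h
    · exact sub_eq_zero.1 ((mul_eq_zero.1 k0).resolve_right h)
    · exact sub_eq_zero.1 ((mul_eq_zero.1 k2).resolve_right h)
  have hdd : d = d' := by
    have hpow : ((-1 : ℝ) ^ m) * (-1) ^ m = 1 := by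
      rw [← mul_pow]
      norm_num
    have e1 : wkv lam b psi (m + 1) * Real.sin b = (-1) ^ m * wkv lam a rho (m + 1) * Real.sin a := by
      rw [hfin, ← hcb]
      ring
    rw [hv, hw, hsb] at e1
    have e2 : (d - d') * (Real.sin a * Real.sin b) = 0 := by
      linear_combination (-1 : ℝ) * e1 + (d' * Real.sin a * Real.sin b) * hpow
    have e3 := (mul_eq_zero.1 e2).resolve_right (mul_ne_zero ha hb)
    linarith
  subst hdd
  refine ⟨d, hd, hdT, hdT', hT, ?_⟩
  rw [hv, abs_mul, abs_neg, abs_of_pos hd]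

/-- The inverse function rule for the word function. -/
theorem wk_inv (lam : ℝ) (h0 : 0 ≤ lam) (h1 : lam ≤ 1 / 100) (n : ℕ) (hn : 2 ≤ n) (a b : ℝ)
    (hb : Real.sin b ≠ 0) (d kappa : ℝ)
    (hd : HasDerivAt (fun s => TW lam b s n) d (PP lam n a b))
    (h : HasDerivAt (fun a' => PP lam n a' b) kappa a) : d * kappa = 1 := by
  have hcomp := HasDerivAt.comp (h₂ := fun s => TW lam b s n) a hd h
  have hid : HasDerivAt ((fun s => TW lam b s n) ∘ (fun a' => PP lam n a' b)) 1 a := by
    refine (hasDerivAt_id a).congr_of_eventuallyEq (Filter.Eventually.of_forall fun s => ?_)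
    exact PP_spec lam h0 h1 n (by omega) s b hb
  exact hcomp.unique hid

theorem wk_sin_pow (k : ℕ) (b : ℝ) (hb : Real.sin b ≠ 0) : Real.sin ((-1) ^ k * b) ≠ 0 := by
  rcases neg_one_pow_eq_or ℝ k with h | h
  · rw [h, one_mul]
    exact hb
  · rw [h, neg_one_mul, Real.sin_neg]
    exact neg_ne_zero.2 hb

theorem kappa_symm (lam : ℝ) (h0 : 0 ≤ lam) (h1 : lam ≤ 1 / 100) (n : ℕ) (hn : 2 ≤ n) (a b : ℝ)
    (ha : Real.sin a ≠ 0) (hb : Real.sin b ≠ 0) (kappa : ℝ)
    (h : HasDerivAt (fun a' => PP lam n a' b) kappa a) :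
    HasDerivAt (fun b' => PP lam n b' a) kappa ((-1) ^ (n + 1) * b) := by
  obtain ⟨d, hd, hdT, hdT', hT, -⟩ := wk_dd lam h0 h1 n hn a b ha hb
  have hsb := wk_sin_pow (n + 1) b hb
  obtain ⟨kappa', -, -, hk'⟩ := PP_deriv lam h0 h1 n hn ((-1) ^ (n + 1) * b) a ha hsb
  have hP : PP lam n ((-1) ^ (n + 1) * b) a = -QQ lam n a b - a :=
    PP_unique lam h0 h1 n (by omega) _ a _ ha hsb hT
  have e1 := wk_inv lam h0 h1 n hn a b hb d kappa hdT h
  have e2 := wk_inv lam h0 h1 n hn ((-1) ^ (n + 1) * b) a ha d kappa' (by rw [hP]; exact hdT') hk'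
  have e3 : kappa' = kappa := by
    apply mul_left_cancel₀ hd.ne'
    rw [e1, e2]
  rw [← e3]
  exact hk'

/-- The coordinate at the end of the word: derivative in `b` for fixed `a`. -/
theorem QQ_deriv (lam : ℝ) (h0 : 0 ≤ lam) (h1 : lam ≤ 1 / 100) (n : ℕ) (hn : 2 ≤ n) (a b : ℝ)
    (ha : Real.sin a ≠ 0) (hb : Real.sin b ≠ 0) (kappa : ℝ)
    (h : HasDerivAt (fun a' => PP lam n a' b) kappa a) :
    HasDerivAt (fun b' => QQ lam n a b') ((-1) ^ n * kappa) b := by
  have hk := kappa_symm lam h0 h1 n hn a b ha hb kappa h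
  have hl : HasDerivAt (fun b' : ℝ => (-1 : ℝ) ^ (n + 1) * b') ((-1 : ℝ) ^ (n + 1) * 1) b :=
    (hasDerivAt_id b).const_mul _
  have hc := HasDerivAt.comp (h₂ := fun b' => PP lam n b' a) b hk hl
  have hs : HasDerivAt (fun b' => -a - PP lam n ((-1) ^ (n + 1) * b') a)
      (-(kappa * ((-1 : ℝ) ^ (n + 1) * 1))) b := hc.const_sub (-a)
  have he : -(kappa * ((-1 : ℝ) ^ (n + 1) * 1)) = (-1) ^ n * kappa := by
    rw [pow_succ]
    ring
  rw [he] at hs
  refine hs.congr_of_eventuallyEq ?_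
  have hopen : ∀ᶠ b' in nhds b, Real.sin b' ≠ 0 :=
    Real.continuous_sin.continuousAt.eventually_ne hb
  filter_upwards [hopen] with b' hb'
  exact QQ_eq lam h0 h1 n hn a b' hb' ha

/-- Bound for the half traces before a non-escaped index. -/
theorem wk_xbound (lam b psi : ℝ) (h0 : 0 ≤ lam) (hb : Real.sin b ≠ 0) (n : ℕ)
    (hx : |W lam b psi n| < 1) (j : ℕ) (hj : 1 ≤ j) (hjn : j < n) :
    |W lam b psi j| ≤ 1 + lam / 2 := by
  have hSt := St_word lam b psi hb
  by_cases hlt : |W lam b psi j| < 1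
  · linarith
  push Not at hlt
  have hj2 : 2 ≤ j := by
    by_contra hcon
    have hj1 : j = 1 := by omega
    subst hj1
    have := f6_cos_lt b hb
    rw [f6_W_one] at hlt
    linarith
  obtain ⟨i, rfl⟩ : ∃ i, j = i + 2 := ⟨j - 2, by omega⟩
  have hprev : |W lam b psi (i + 1)| < 1 := by
    by_contra hcon
    push Not at hcon
    have := escape_all hSt i hcon hlt n (by omega)
    linarith
  have hnext : |W lam b psi (i + 1 + 2)| < 1 := by
    by_contra hcon
    push Not at hcon
    have := escape_all hSt (i + 1) hlt hcon n (by omega)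
    linarith
  exact mid_bound hSt h0 (i + 1) hprev hnext

theorem wk_vbound (lam b psi : ℝ) (h0 : 0 ≤ lam) (h1 : lam ≤ 1 / 100) (hb : Real.sin b ≠ 0)
    (hb2 : lam ≤ |Real.sin b|) (n : ℕ) (hx : |W lam b psi n| < 1) (k : ℕ) :
    (k ≤ n → |wkv lam b psi k| ≤ 6 / 5 * 4 ^ k) ∧
    (k + 1 ≤ n → |wkv lam b psi (k + 1)| ≤ 6 / 5 * 4 ^ (k + 1)) ∧
    (k + 2 ≤ n → |wkv lam b psi (k + 2)| ≤ 6 / 5 * 4 ^ (k + 2)) := by
  have hr : rr lam b ≤ 6 / 5 := by
    have hs : 0 < |Real.sin b| := abs_pos.2 hb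
    have hq : qq lam b ≤ 1 / 2 := by
      unfold qq
      rw [div_le_iff₀ (by positivity)]
      linarith
    have hq0 := f6_qq_nonneg lam b h0
    have h2 := rr_sq lam b
    have h3 := one_le_rr lam b
    nlinarith
  have hr0 := one_le_rr lam b
  induction k with
  | zero =>
    refine ⟨fun _ => ?_, fun _ => ?_, fun _ => ?_⟩
    · rw [wkv_zero, abs_neg, abs_mul, abs_of_pos (by linarith : 0 < rr lam b)]
      have := Real.abs_sin_le_one psi
      have h0' := abs_nonneg (Real.sin psi)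
      nlinarith
    · rw [wkv_one, abs_zero]
      positivity
    · rw [wkv_two, abs_neg, abs_mul, abs_of_pos (by linarith : 0 < rr lam b)]
      have := Real.abs_sin_le_one (psi + b)
      have h0' := abs_nonneg (Real.sin (psi + b))
      nlinarith
  | succ k ih =>
    obtain ⟨i0, i1, i2⟩ := ih
    refine ⟨fun hk => i1 (by omega), fun hk => i2 (by omega), fun hk => ?_⟩
    have b0 := i0 (by omega)
    have b1 := i1 (by omega)
    have b2 := i2 (by omega)
    have x1 := wk_xbound lam b psi h0 hb n hx (k + 1) (by omega) (by omega)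
    have x2 := wk_xbound lam b psi h0 hb n hx (k + 2) (by omega) (by omega)
    have hxx : ∀ y : ℝ, |y| ≤ 1 + lam / 2 → |y| ≤ 201 / 200 := fun y hy => by linarith
    have x1' := hxx _ x1
    have x2' := hxx _ x2
    have e : k + 1 + 2 = k + 3 := rfl
    rw [e, wkv_rec]
    have t1 : |2 * W lam b psi (k + 2) * wkv lam b psi (k + 1)|
        ≤ 2 * (201 / 200) * (6 / 5 * 4 ^ (k + 1)) := by
      rw [abs_mul, abs_mul, abs_two]
      gcongr
    have t2 : |2 * W lam b psi (k + 1) * wkv lam b psi (k + 2)|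
        ≤ 2 * (201 / 200) * (6 / 5 * 4 ^ (k + 2)) := by
      rw [abs_mul, abs_mul, abs_two]
      gcongr
    have t3 := abs_sub (2 * W lam b psi (k + 2) * wkv lam b psi (k + 1)
      + 2 * W lam b psi (k + 1) * wkv lam b psi (k + 2)) (wkv lam b psi k)
    have t4 := abs_add_le (2 * W lam b psi (k + 2) * wkv lam b psi (k + 1))
      (2 * W lam b psi (k + 1) * wkv lam b psi (k + 2))
    have p1 : (4 : ℝ) ^ (k + 1) = 4 * 4 ^ k := by rw [pow_succ]; ring
    have p2 : (4 : ℝ) ^ (k + 2) = 16 * 4 ^ k := by rw [pow_add]; ring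
    have p3 : (4 : ℝ) ^ (k + 3) = 64 * 4 ^ k := by rw [pow_add]; ring
    have hp : (0 : ℝ) < 4 ^ k := by positivity
    rw [p1] at t1
    rw [p2] at t2
    rw [p3]
    linarith

/-- Lower bound for kappa. -/
theorem kappa_lower (lam : ℝ) (h0 : 0 ≤ lam) (h1 : lam ≤ 1 / 100) (n : ℕ) (hn : 2 ≤ n) (a b : ℝ)
    (ha : Real.sin a ≠ 0) (hb : Real.sin b ≠ 0) (hb2 : lam ≤ |Real.sin b|) (kappa : ℝ)
    (h : HasDerivAt (fun a' => PP lam n a' b) kappa a) :
    |Real.sin a| * (1 / 10) ^ n ≤ kappa := by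
  obtain ⟨d, hd, hdT, -, -, hv⟩ := wk_dd lam h0 h1 n hn a b ha hb
  have e1 := wk_inv lam h0 h1 n hn a b hb d kappa hdT h
  have hTW : TW lam b (PP lam n a b) n = a := PP_spec lam h0 h1 n (by omega) a b hb
  have hx : |W lam b (PP lam n a b) n| < 1 :=
    (sin_TW_ne lam b (PP lam n a b) hb n).1 (by rw [hTW]; exact ha)
  have hb3 := (wk_vbound lam b (PP lam n a b) h0 h1 hb hb2 n hx n).1 (le_refl n)
  rw [hv] at hb3
  have hpow : (6 / 5 : ℝ) * 4 ^ n ≤ 10 ^ n := by
    obtain ⟨m, rfl⟩ : ∃ m, n = m + 2 := ⟨n - 2, by omega⟩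
    have e4 : (4 : ℝ) ^ (m + 2) = 16 * 4 ^ m := by rw [pow_add]; ring
    have e10 : (10 : ℝ) ^ (m + 2) = 100 * 10 ^ m := by rw [pow_add]; ring
    rw [e4, e10]
    have : (4 : ℝ) ^ m ≤ 10 ^ m := pow_le_pow_left₀ (by norm_num) (by norm_num) m
    have h4 : (0 : ℝ) < 4 ^ m := by positivity
    linarith
  have h10 : (0 : ℝ) < 10 ^ n := by positivity
  have hk : |Real.sin a| * (1 / 10) ^ n * d ≤ kappa * d := by
    have : kappa * d = 1 := by linarith
    rw [this, one_div, inv_pow]
    have e2 : |Real.sin a| * ((10 : ℝ) ^ n)⁻¹ * d = (|Real.sin a| * d) / 10 ^ n := by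
      field_simp
    rw [e2, div_le_one h10]
    linarith
  exact le_of_mul_le_mul_right hk hd

end SF
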