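import Mathlib

/-!
# SF-WML: separately analytic functions with uniform bounds are jointly analytic

Proof in words.  Let `h = 1/82944`.  For `n >= 0` let `x j = h j / (n+1)`, `j = 0..n` be equally spaced nodes in
`[0,h]` and `l j` the Lagrange basis polynomials.  For complex `|z| <= h`:
`sum_j |l j z| <= 3 * 12^n =: Lam n` (`|l j z| <= (2(n+1))^n / (j! (n-j)!)`).
Let `L n g` be the interpolation polynomial (degree <= n).  If g is holomorphic on the unit disc, `|g| <= M`,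
then with Taylor coefficients `|a m| <= M 2^m`:
`|g - L n g| <= 2 M (2h)^(n+1) (1 + Lam n)` on `|z| <= h`.
For f as in the theorem put `Fn (x,y) = sum_{i,j} l i x l j y f (x i) (x j)` (polynomial in two variables,
degree <= n in each).  On the real square `[-h,h]^2`:
`|f - Fn| <= |f - L^x f| + |L^x (f - L^y f)| <= 2 M (2h)^(n+1) (1 + Lam n)^2`.
`F(n+1) - Fn` is a polynomial of degree `<= n+1` in each variable with values `f - Fn` at the nodes of level
`n+1`, so on the complex bidisc `|x|,|y| <= h` it is bounded by `Lam(n+1)^2 2 M (2h)^(n+1) (1 + Lam n)^2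
<= C M 2^(-n)`.  So `H = F0 + sum (F(n+1) - Fn)` converges uniformly on the bidisc,
is (jointly) holomorphic there, bounded by `K M`, and equals f on the real square.
-/

namespace SF

open Metric

/-! ### Lagrange interpolation at equally spaced nodes -/

/-- the radius -/
noncomputable def hh97 : ℝ := 1 / 82944

/-- the nodes -/
noncomputable def nd97 (n j : ℕ) : ℝ := hh97 * j / (n + 1)

/-- the basis polynomials -/
noncomputable def lg97 (n j : ℕ) : Polynomial ℂ :=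
  Lagrange.basis (Finset.range (n + 1)) (fun j => ((nd97 n j : ℝ) : ℂ)) j

/-- the bound for the Lebesgue constant -/
noncomputable def Lam97 (n : ℕ) : ℝ := 3 * 12 ^ n

theorem hh_pos97 : 0 < hh97 := by unfold hh97; norm_num

theorem nd_nonneg97 (n j : ℕ) : 0 ≤ nd97 n j := by
  unfold nd97; have := hh_pos97; positivity

theorem nd_le97 (n j : ℕ) (hj : j ∈ Finset.range (n + 1)) : nd97 n j ≤ hh97 := by
  have hj' : (j : ℝ) ≤ n + 1 := by exact_mod_cast (Finset.mem_range.mp hj).le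
  unfold nd97
  rw [div_le_iff₀ (by positivity)]
  exact mul_le_mul_of_nonneg_left hj' hh_pos97.le

theorem nd_norm97 (n j : ℕ) (hj : j ∈ Finset.range (n + 1)) : ‖((nd97 n j : ℝ) : ℂ)‖ ≤ hh97 := by
  rw [Complex.norm_real, Real.norm_eq_abs, abs_of_nonneg (nd_nonneg97 n j)]
  exact nd_le97 n j hj

theorem nd_sub97 (n j k : ℕ) : nd97 n j - nd97 n k = hh97 / (n + 1) * ((j : ℝ) - k) := by
  unfold nd97; ring

theorem nd_inj97 (n : ℕ) :
    Set.InjOn (fun j => ((nd97 n j : ℝ) : ℂ)) (Finset.range (n + 1) : Set ℕ) := by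
  intro a _ b _ hab
  have hab' : ((nd97 n a : ℝ) : ℂ) = ((nd97 n b : ℝ) : ℂ) := hab
  have h1 : nd97 n a = nd97 n b := by exact_mod_cast hab'
  have h2 : hh97 / (n + 1) * ((a : ℝ) - b) = 0 := by rw [← nd_sub97, h1, sub_self]
  have h3 : hh97 / ((n : ℝ) + 1) ≠ 0 := by have := hh_pos97; positivity
  have h4 : (a : ℝ) - b = 0 := by
    rcases mul_eq_zero.mp h2 with h | h
    · exact absurd h h3
    · exact h
  exact_mod_cast sub_eq_zero.mp h4

theorem prod_fact97 (n : ℕ) : ∀ j ∈ Finset.range (n + 1),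
    ∏ k ∈ (Finset.range (n + 1)).erase j, |(j : ℝ) - k| = (j.factorial : ℝ) * ((n - j).factorial : ℝ) := by
  induction n with
  | zero =>
    intro j hj
    have : j = 0 := by simpa using hj
    subst this
    simp
  | succ n ih =>
    intro j hj
    rw [Finset.range_add_one (n := n + 1)]
    by_cases hjn : j = n + 1
    · subst hjn
      rw [Finset.erase_insert (by simp)]
      have h1 : ∏ k ∈ Finset.range (n + 1), |((n + 1 : ℕ) : ℝ) - k|
          = ∏ k ∈ Finset.range (n + 1), ((fun m : ℕ => ((m : ℝ) + 1)) (n + 1 - 1 - k)) := by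
        apply Finset.prod_congr rfl
        intro k hk
        have hk' := Finset.mem_range.mp hk
        have h2 : ((n + 1 - 1 - k : ℕ) : ℝ) = (n : ℝ) - k := by
          rw [Nat.add_sub_cancel, Nat.cast_sub (by omega)]
        simp only [h2]
        have h3 : (k : ℝ) ≤ n := by exact_mod_cast (by omega : k ≤ n)
        rw [abs_of_nonneg (by push_cast; linarith)]
        push_cast; ring
      rw [h1, Finset.prod_range_reflect (fun m : ℕ => ((m : ℝ) + 1)) (n + 1)]
      have h4 : ∏ m ∈ Finset.range (n + 1), ((m : ℝ) + 1)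
          = ((∏ m ∈ Finset.range (n + 1), (m + 1) : ℕ) : ℝ) := by push_cast; rfl
      rw [h4, Finset.prod_range_add_one_eq_factorial]
      simp
    · have hj' : j ∈ Finset.range (n + 1) := by
        have := Finset.mem_range.mp hj
        exact Finset.mem_range.mpr (by omega)
      have hjle : j ≤ n := by have := Finset.mem_range.mp hj'; omega
      rw [Finset.erase_insert_of_ne (fun h => hjn h.symm), Finset.prod_insert (by
        intro h
        have := Finset.mem_of_mem_erase h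
        simp at this), ih j hj']
      have h1 : n + 1 - j = (n - j) + 1 := by omega
      rw [h1, Nat.factorial_succ]
      have h2 : |(j : ℝ) - ((n + 1 : ℕ) : ℝ)| = (((n - j) + 1 : ℕ) : ℝ) := by
        have h3 : (j : ℝ) ≤ n := by exact_mod_cast hjle
        rw [abs_sub_comm, abs_of_nonneg (by push_cast; linarith)]
        push_cast [Nat.cast_sub hjle]
        ring
      rw [h2]
      push_cast
      ring

theorem lg_norm97 (n j : ℕ) (hj : j ∈ Finset.range (n + 1)) (z : ℂ) (hz : ‖z‖ ≤ hh97) :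
    ‖(lg97 n j).eval z‖ ≤ (2 * ((n : ℝ) + 1)) ^ n / ((j.factorial : ℝ) * ((n - j).factorial : ℝ)) := by
  have hp := hh_pos97
  unfold lg97 Lagrange.basis Lagrange.basisDivisor
  rw [Polynomial.eval_prod, norm_prod]
  have h1 : ∀ k ∈ (Finset.range (n + 1)).erase j,
      ‖Polynomial.eval z (Polynomial.C (((nd97 n j : ℝ) : ℂ) - ((nd97 n k : ℝ) : ℂ))⁻¹
        * (Polynomial.X - Polynomial.C ((nd97 n k : ℝ) : ℂ)))‖
        ≤ (2 * ((n : ℝ) + 1)) / |(j : ℝ) - k| := by
    intro k hk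
    have hk1 := Finset.mem_erase.mp hk
    rw [Polynomial.eval_mul, Polynomial.eval_C, Polynomial.eval_sub, Polynomial.eval_X,
      Polynomial.eval_C, norm_mul, norm_inv]
    have e1 : ‖((nd97 n j : ℝ) : ℂ) - ((nd97 n k : ℝ) : ℂ)‖ = hh97 / (n + 1) * |(j : ℝ) - k| := by
      rw [← Complex.ofReal_sub, Complex.norm_real, Real.norm_eq_abs, nd_sub97, abs_mul,
        abs_of_pos (by positivity : 0 < hh97 / ((n : ℝ) + 1))]
    have e2 : ‖z - ((nd97 n k : ℝ) : ℂ)‖ ≤ 2 * hh97 := by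
      calc ‖z - ((nd97 n k : ℝ) : ℂ)‖ ≤ ‖z‖ + ‖((nd97 n k : ℝ) : ℂ)‖ := norm_sub_le _ _
        _ ≤ hh97 + hh97 := add_le_add hz (nd_norm97 n k hk1.2)
        _ = 2 * hh97 := by ring
    have hne : (j : ℝ) - k ≠ 0 := by
      intro h
      exact hk1.1 (by exact_mod_cast (sub_eq_zero.mp h).symm)
    have hab : 0 < |(j : ℝ) - k| := abs_pos.mpr hne
    rw [e1]
    calc (hh97 / (n + 1) * |(j : ℝ) - k|)⁻¹ * ‖z - ((nd97 n k : ℝ) : ℂ)‖
        ≤ (hh97 / (n + 1) * |(j : ℝ) - k|)⁻¹ * (2 * hh97) :=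
          mul_le_mul_of_nonneg_left e2 (by positivity)
      _ = (2 * ((n : ℝ) + 1)) / |(j : ℝ) - k| := by field_simp
  refine (Finset.prod_le_prod (fun _ _ => norm_nonneg _) h1).trans ?_
  rw [Finset.prod_div_distrib, prod_fact97 n j hj, Finset.prod_const, Finset.card_erase_of_mem hj,
    Finset.card_range, Nat.add_sub_cancel]

theorem lg_sum97 (n : ℕ) (z : ℂ) (hz : ‖z‖ ≤ hh97) :
    ∑ j ∈ Finset.range (n + 1), ‖(lg97 n j).eval z‖ ≤ Lam97 n := by
  have h1 : ∀ j ∈ Finset.range (n + 1), ‖(lg97 n j).eval z‖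
      ≤ (2 * ((n : ℝ) + 1)) ^ n / (n.factorial : ℝ) * (n.choose j : ℝ) := by
    intro j hj
    have hjle : j ≤ n := by have := Finset.mem_range.mp hj; omega
    refine (lg_norm97 n j hj z hz).trans (le_of_eq ?_)
    have h2 : (n.choose j : ℝ) * (j.factorial : ℝ) * ((n - j).factorial : ℝ) = (n.factorial : ℝ) := by
      exact_mod_cast Nat.choose_mul_factorial_mul_factorial hjle
    have h3 : (j.factorial : ℝ) ≠ 0 := by positivity
    have h4 : ((n - j).factorial : ℝ) ≠ 0 := by positivity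
    have h5 : (n.factorial : ℝ) ≠ 0 := by positivity
    rw [div_mul_eq_mul_div, div_eq_div_iff (mul_ne_zero h3 h4) h5, ← h2]
    ring
  refine (Finset.sum_le_sum h1).trans ?_
  rw [← Finset.mul_sum]
  have h2 : ∑ j ∈ Finset.range (n + 1), (n.choose j : ℝ) = 2 ^ n := by
    exact_mod_cast Nat.sum_range_choose n
  rw [h2]
  have h3 : ((n : ℝ) + 1) ^ n / (n.factorial : ℝ) ≤ Real.exp ((n : ℝ) + 1) :=
    Real.pow_div_factorial_le_exp _ (by positivity) n
  have h4 : Real.exp ((n : ℝ) + 1) ≤ 3 ^ (n + 1) := by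
    have : Real.exp ((n : ℝ) + 1) = Real.exp 1 ^ (n + 1) := by
      rw [← Real.exp_nat_mul]; push_cast; ring_nf
    rw [this]
    have h5 : Real.exp 1 ≤ 3 := by have := Real.exp_one_lt_d9; linarith
    exact pow_le_pow_left₀ (Real.exp_pos 1).le h5 _
  unfold Lam97
  calc (2 * ((n : ℝ) + 1)) ^ n / (n.factorial : ℝ) * 2 ^ n
      = 4 ^ n * (((n : ℝ) + 1) ^ n / (n.factorial : ℝ)) := by
        rw [mul_pow, show (4 : ℝ) = 2 * 2 by norm_num, mul_pow]; ring
    _ ≤ 4 ^ n * 3 ^ (n + 1) := mul_le_mul_of_nonneg_left (h3.trans h4) (by positivity)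
    _ = 3 * 12 ^ n := by rw [show (12 : ℝ) = 4 * 3 by norm_num, mul_pow]; ring

theorem Lam_pos97 (n : ℕ) : 0 < Lam97 n := by unfold Lam97; positivity

theorem lg_degree97 (n j : ℕ) (hj : j ∈ Finset.range (n + 1)) :
    (lg97 n j).degree < ((n + 1 : ℕ) : WithBot ℕ) := by
  unfold lg97
  rw [Lagrange.degree_basis (nd_inj97 n) hj, Finset.card_range]
  exact_mod_cast (by omega : n + 1 - 1 < n + 1)

theorem lg_repr97 (n : ℕ) (p : Polynomial ℂ) (hp : p.degree < ((n + 1 : ℕ) : WithBot ℕ)) (z : ℂ) :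
    p.eval z = ∑ j ∈ Finset.range (n + 1), (lg97 n j).eval z * p.eval ((nd97 n j : ℝ) : ℂ) := by
  have h := Lagrange.eq_interpolate (s := Finset.range (n + 1))
    (v := fun j => ((nd97 n j : ℝ) : ℂ)) (f := p) (nd_inj97 n) (by rwa [Finset.card_range])
  conv_lhs => rw [h, Lagrange.interpolate_apply, Polynomial.eval_finsetSum]
  apply Finset.sum_congr rfl
  intro j _
  rw [Polynomial.eval_mul, Polynomial.eval_C, mul_comm]
  rfl

/-! ### Taylor polynomials and the interpolation error -/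

theorem taylor97 (g : ℂ → ℂ) (M : ℝ) (hd : DifferentiableOn ℂ g (ball 0 1))
    (hb : ∀ z ∈ ball (0 : ℂ) 1, ‖g z‖ ≤ M) (n : ℕ) :
    ∃ p : Polynomial ℂ, p.degree < ((n + 1 : ℕ) : WithBot ℕ) ∧
      ∀ z : ℂ, ‖z‖ ≤ hh97 → ‖g z - p.eval z‖ ≤ 2 * M * (2 * hh97) ^ (n + 1) := by
  have hM : 0 ≤ M := (norm_nonneg _).trans (hb 0 (by simp))
  set a : ℕ → ℂ := fun m => ((m.factorial : ℂ))⁻¹ * iteratedDeriv m g 0 with ha
  have hanorm : ∀ m, ‖a m‖ ≤ M * 2 ^ m := by
    intro m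
    have hsub : closedBall (0 : ℂ) (1 / 2) ⊆ ball 0 1 := closedBall_subset_ball (by norm_num)
    have h1 : DiffContOnCl ℂ g (ball (0 : ℂ) (1 / 2)) := by
      apply DifferentiableOn.diffContOnCl
      rw [closure_ball (0 : ℂ) (by norm_num)]
      exact hd.mono hsub
    have h2 := Complex.norm_iteratedDeriv_le_of_forall_mem_sphere_norm_le m
      (by norm_num : (0 : ℝ) < 1 / 2) h1 (C := M)
      (fun z hz => hb z (hsub (sphere_subset_closedBall hz)))
    have h3 : (m.factorial : ℝ) ≠ 0 := by positivity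
    calc ‖a m‖ = (m.factorial : ℝ)⁻¹ * ‖iteratedDeriv m g 0‖ := by
          rw [ha]; simp only [norm_mul, norm_inv, Complex.norm_natCast]
      _ ≤ (m.factorial : ℝ)⁻¹ * ((m.factorial : ℝ) * M / (1 / 2) ^ m) :=
          mul_le_mul_of_nonneg_left h2 (by positivity)
      _ = M * 2 ^ m := by
          rw [one_div, inv_pow]
          field_simp
  refine ⟨∑ m ∈ Finset.range (n + 1), Polynomial.C (a m) * Polynomial.X ^ m, ?_, ?_⟩
  · rw [← Polynomial.mem_degreeLT]
    apply Submodule.sum_mem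
    intro m hm
    rw [Polynomial.mem_degreeLT]
    refine (Polynomial.degree_C_mul_X_pow_le m (a m)).trans_lt ?_
    exact_mod_cast Finset.mem_range.mp hm
  · intro z hz
    have hh := hh_pos97
    have hh1 : hh97 < 1 / 4 := by unfold hh97; norm_num
    have hz1 : z ∈ ball (0 : ℂ) 1 := by rw [mem_ball_zero_iff]; linarith
    have h1 : HasSum (fun m : ℕ => a m * z ^ m) (g z) := by
      have h := Complex.hasSum_taylorSeries_on_ball hd hz1
      refine h.congr_fun ?_ |> fun h => h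
      intro m
      simp only [ha, sub_zero, smul_eq_mul]
      ring
    have h2 := (hasSum_nat_add_iff' (n + 1)).mpr h1
    have h3 : Polynomial.eval z (∑ m ∈ Finset.range (n + 1), Polynomial.C (a m) * Polynomial.X ^ m)
        = ∑ m ∈ Finset.range (n + 1), a m * z ^ m := by
      rw [Polynomial.eval_finsetSum]
      apply Finset.sum_congr rfl
      intro m _
      simp
    rw [h3, ← h2.tsum_eq]
    have h4 : HasSum (fun m : ℕ => M * (2 * hh97) ^ (n + 1) * (2 * hh97) ^ m)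
        (M * (2 * hh97) ^ (n + 1) * (1 - 2 * hh97)⁻¹) :=
      (hasSum_geometric_of_lt_one (by positivity) (by linarith)).mul_left _
    refine (tsum_of_norm_bounded h4 ?_).trans ?_
    · intro m
      rw [norm_mul, norm_pow]
      calc ‖a (m + (n + 1))‖ * ‖z‖ ^ (m + (n + 1))
          ≤ (M * 2 ^ (m + (n + 1))) * hh97 ^ (m + (n + 1)) :=
            mul_le_mul (hanorm _) (pow_le_pow_left₀ (norm_nonneg _) hz _) (by positivity)
              (by positivity)
        _ = M * (2 * hh97) ^ (n + 1) * (2 * hh97) ^ m := by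
            rw [pow_add, pow_add, mul_pow, mul_pow]; ring
    · have h5 : (1 - 2 * hh97)⁻¹ ≤ 2 := by
        rw [inv_le_comm₀ (by linarith) (by norm_num)]
        linarith
      calc M * (2 * hh97) ^ (n + 1) * (1 - 2 * hh97)⁻¹ ≤ M * (2 * hh97) ^ (n + 1) * 2 :=
            mul_le_mul_of_nonneg_left h5 (by positivity)
        _ = 2 * M * (2 * hh97) ^ (n + 1) := by ring

/-- the interpolation error -/
theorem interp97 (g : ℂ → ℂ) (M : ℝ) (hd : DifferentiableOn ℂ g (ball 0 1))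
    (hb : ∀ z ∈ ball (0 : ℂ) 1, ‖g z‖ ≤ M) (n : ℕ) (z : ℂ) (hz : ‖z‖ ≤ hh97) :
    ‖g z - ∑ j ∈ Finset.range (n + 1), (lg97 n j).eval z * g ((nd97 n j : ℝ) : ℂ)‖
      ≤ 2 * M * (2 * hh97) ^ (n + 1) * (1 + Lam97 n) := by
  obtain ⟨p, hp, hpb⟩ := taylor97 g M hd hb n
  have hM : 0 ≤ M := (norm_nonneg _).trans (hb 0 (by simp))
  have hh := hh_pos97
  set E := 2 * M * (2 * hh97) ^ (n + 1) with hE
  have hE0 : 0 ≤ E := by positivity
  have e : g z - ∑ j ∈ Finset.range (n + 1), (lg97 n j).eval z * g ((nd97 n j : ℝ) : ℂ)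
      = (g z - p.eval z) - ∑ j ∈ Finset.range (n + 1), (lg97 n j).eval z
        * (g ((nd97 n j : ℝ) : ℂ) - p.eval ((nd97 n j : ℝ) : ℂ)) := by
    have h1 := lg_repr97 n p hp z
    simp only [mul_sub, Finset.sum_sub_distrib]
    rw [← h1]; ring
  rw [e]
  calc ‖(g z - p.eval z) - ∑ j ∈ Finset.range (n + 1), (lg97 n j).eval z
        * (g ((nd97 n j : ℝ) : ℂ) - p.eval ((nd97 n j : ℝ) : ℂ))‖
      ≤ ‖g z - p.eval z‖ + ‖∑ j ∈ Finset.range (n + 1), (lg97 n j).eval z
        * (g ((nd97 n j : ℝ) : ℂ) - p.eval ((nd97 n j : ℝ) : ℂ))‖ := norm_sub_le _ _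
    _ ≤ E + ∑ j ∈ Finset.range (n + 1), ‖(lg97 n j).eval z‖ * E := by
        apply add_le_add (hpb z hz)
        refine (norm_sum_le _ _).trans (Finset.sum_le_sum (fun j hj => ?_))
        rw [norm_mul]
        exact mul_le_mul_of_nonneg_left (hpb _ (nd_norm97 n j hj)) (norm_nonneg _)
    _ = E * (1 + ∑ j ∈ Finset.range (n + 1), ‖(lg97 n j).eval z‖) := by
        rw [← Finset.sum_mul]; ring
    _ ≤ E * (1 + Lam97 n) := mul_le_mul_of_nonneg_left (by linarith [lg_sum97 n z hz]) hE0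

/-! ### Two variables -/

/-- the interpolation polynomial in two variables -/
noncomputable def Fn97 (f : ℝ → ℝ → ℂ) (n : ℕ) (p : ℂ × ℂ) : ℂ :=
  ∑ i ∈ Finset.range (n + 1), ∑ j ∈ Finset.range (n + 1),
    (lg97 n i).eval p.1 * (lg97 n j).eval p.2 * f (nd97 n i) (nd97 n j)

theorem sum2_bound97 (n : ℕ) (c : ℕ → ℕ → ℂ) (B : ℝ)
    (hc : ∀ i ∈ Finset.range (n + 1), ∀ j ∈ Finset.range (n + 1), ‖c i j‖ ≤ B)
    (p : ℂ × ℂ) (h1 : ‖p.1‖ ≤ hh97) (h2 : ‖p.2‖ ≤ hh97) :
    ‖∑ i ∈ Finset.range (n + 1), ∑ j ∈ Finset.range (n + 1),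
      (lg97 n i).eval p.1 * (lg97 n j).eval p.2 * c i j‖ ≤ Lam97 n ^ 2 * B := by
  have hB : 0 ≤ B := (norm_nonneg _).trans (hc 0 (by simp) 0 (by simp))
  calc ‖∑ i ∈ Finset.range (n + 1), ∑ j ∈ Finset.range (n + 1),
      (lg97 n i).eval p.1 * (lg97 n j).eval p.2 * c i j‖
      ≤ ∑ i ∈ Finset.range (n + 1), ∑ j ∈ Finset.range (n + 1),
        ‖(lg97 n i).eval p.1‖ * ‖(lg97 n j).eval p.2‖ * B := by
        refine (norm_sum_le _ _).trans (Finset.sum_le_sum (fun i hi => ?_))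
        refine (norm_sum_le _ _).trans (Finset.sum_le_sum (fun j hj => ?_))
        rw [norm_mul, norm_mul]
        exact mul_le_mul_of_nonneg_left (hc i hi j hj) (by positivity)
    _ = (∑ i ∈ Finset.range (n + 1), ‖(lg97 n i).eval p.1‖)
        * (∑ j ∈ Finset.range (n + 1), ‖(lg97 n j).eval p.2‖) * B := by
        rw [Finset.sum_mul_sum, Finset.sum_mul]
        apply Finset.sum_congr rfl
        intro i _
        rw [Finset.sum_mul]
    _ ≤ Lam97 n * Lam97 n * B := by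
        apply mul_le_mul_of_nonneg_right _ hB
        exact mul_le_mul (lg_sum97 n _ h1) (lg_sum97 n _ h2)
          (Finset.sum_nonneg (fun _ _ => norm_nonneg _)) (Lam_pos97 n).le
    _ = Lam97 n ^ 2 * B := by ring

theorem Fn_step97 (f : ℝ → ℝ → ℂ) (n : ℕ) (p : ℂ × ℂ) :
    Fn97 f (n + 1) p - Fn97 f n p
      = ∑ k ∈ Finset.range (n + 1 + 1), ∑ m ∈ Finset.range (n + 1 + 1),
        (lg97 (n + 1) k).eval p.1 * (lg97 (n + 1) m).eval p.2 *
          (f (nd97 (n + 1) k) (nd97 (n + 1) m)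
            - Fn97 f n (((nd97 (n + 1) k : ℝ) : ℂ), ((nd97 (n + 1) m : ℝ) : ℂ))) := by
  have hdeg : ∀ i ∈ Finset.range (n + 1), (lg97 n i).degree < ((n + 1 + 1 : ℕ) : WithBot ℕ) := by
    intro i hi
    refine (lg_degree97 n i hi).trans ?_
    exact_mod_cast Nat.lt_succ_self (n + 1)
  have h1 : Fn97 f n p = ∑ k ∈ Finset.range (n + 1 + 1), ∑ m ∈ Finset.range (n + 1 + 1),
        (lg97 (n + 1) k).eval p.1 * (lg97 (n + 1) m).eval p.2 *
          Fn97 f n (((nd97 (n + 1) k : ℝ) : ℂ), ((nd97 (n + 1) m : ℝ) : ℂ)) := by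
    unfold Fn97
    have h2 : ∀ i ∈ Finset.range (n + 1), ∀ j ∈ Finset.range (n + 1),
        (lg97 n i).eval p.1 * (lg97 n j).eval p.2 * f (nd97 n i) (nd97 n j)
        = ∑ k ∈ Finset.range (n + 1 + 1), ∑ m ∈ Finset.range (n + 1 + 1),
          (lg97 (n + 1) k).eval p.1 * (lg97 (n + 1) m).eval p.2 *
          ((lg97 n i).eval ((nd97 (n + 1) k : ℝ) : ℂ) * (lg97 n j).eval ((nd97 (n + 1) m : ℝ) : ℂ)
            * f (nd97 n i) (nd97 n j)) := by
      intro i hi j hj
      rw [lg_repr97 (n + 1) (lg97 n i) (hdeg i hi) p.1, lg_repr97 (n + 1) (lg97 n j) (hdeg j hj) p.2,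
        Finset.sum_mul_sum, Finset.sum_mul]
      apply Finset.sum_congr rfl
      intro k _
      rw [Finset.sum_mul]
      apply Finset.sum_congr rfl
      intro m _
      ring
    rw [Finset.sum_congr rfl (fun i hi => Finset.sum_congr rfl (fun j hj => h2 i hi j hj))]
    simp only [Finset.mul_sum]
    -- reorder the four sums
    have h3 : ∀ T : ℕ → ℕ → ℕ → ℕ → ℂ,
        ∑ i ∈ Finset.range (n + 1), ∑ j ∈ Finset.range (n + 1),
          ∑ k ∈ Finset.range (n + 1 + 1), ∑ m ∈ Finset.range (n + 1 + 1), T i j k m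
        = ∑ k ∈ Finset.range (n + 1 + 1), ∑ m ∈ Finset.range (n + 1 + 1),
          ∑ i ∈ Finset.range (n + 1), ∑ j ∈ Finset.range (n + 1), T i j k m := by
      intro T
      calc ∑ i ∈ Finset.range (n + 1), ∑ j ∈ Finset.range (n + 1),
            ∑ k ∈ Finset.range (n + 1 + 1), ∑ m ∈ Finset.range (n + 1 + 1), T i j k m
          = ∑ i ∈ Finset.range (n + 1), ∑ k ∈ Finset.range (n + 1 + 1),
            ∑ j ∈ Finset.range (n + 1), ∑ m ∈ Finset.range (n + 1 + 1), T i j k m :=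
            Finset.sum_congr rfl (fun i _ => Finset.sum_comm)
        _ = ∑ k ∈ Finset.range (n + 1 + 1), ∑ i ∈ Finset.range (n + 1),
            ∑ j ∈ Finset.range (n + 1), ∑ m ∈ Finset.range (n + 1 + 1), T i j k m :=
            Finset.sum_comm
        _ = ∑ k ∈ Finset.range (n + 1 + 1), ∑ i ∈ Finset.range (n + 1),
            ∑ m ∈ Finset.range (n + 1 + 1), ∑ j ∈ Finset.range (n + 1), T i j k m :=
            Finset.sum_congr rfl (fun k _ => Finset.sum_congr rfl (fun i _ => Finset.sum_comm))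
        _ = ∑ k ∈ Finset.range (n + 1 + 1), ∑ m ∈ Finset.range (n + 1 + 1),
            ∑ i ∈ Finset.range (n + 1), ∑ j ∈ Finset.range (n + 1), T i j k m :=
            Finset.sum_congr rfl (fun k _ => Finset.sum_comm)
    exact h3 _
  rw [h1]
  conv_lhs => rw [Fn97]
  rw [← Finset.sum_sub_distrib]
  apply Finset.sum_congr rfl
  intro k _
  rw [← Finset.sum_sub_distrib]
  apply Finset.sum_congr rfl
  intro m _
  ring

theorem Fn_diff97 (f : ℝ → ℝ → ℂ) (n : ℕ) : Differentiable ℂ (Fn97 f n) := by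
  unfold Fn97
  apply Differentiable.fun_sum
  intro i _
  apply Differentiable.fun_sum
  intro j _
  have h1 : Differentiable ℂ (fun p : ℂ × ℂ => (lg97 n i).eval p.1) :=
    (lg97 n i).differentiable.comp differentiable_fst
  have h2 : Differentiable ℂ (fun p : ℂ × ℂ => (lg97 n j).eval p.2) :=
    (lg97 n j).differentiable.comp differentiable_snd
  exact (h1.mul h2).mul_const _

/-- Cauchy estimate for the derivative of an entire function of two variables. -/
theorem fderiv_bound97 (u : ℂ × ℂ → ℂ) (hu : Differentiable ℂ u) (B r : ℝ) (hr : 0 < r)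
    (x : ℂ × ℂ) (hB : ∀ p, ‖p - x‖ ≤ r → ‖u p‖ ≤ B) : ‖fderiv ℂ u x‖ ≤ B / r := by
  have hB0 : 0 ≤ B := (norm_nonneg _).trans (hB x (by simpa using hr.le))
  apply ContinuousLinearMap.opNorm_le_bound _ (by positivity)
  intro v
  by_cases hv : v = 0
  · subst hv; simp
  have hv0 : 0 < ‖v‖ := norm_pos_iff.mpr hv
  set w : ℂ → ℂ := fun t => u (x + t • v) with hw
  have hline : Differentiable ℂ (fun t : ℂ => x + t • v) :=
    (differentiable_const x).add (differentiable_id.smul_const v)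
  have hwd : Differentiable ℂ w := hu.comp hline
  have hder : deriv w 0 = fderiv ℂ u x v := by
    have h1 : HasDerivAt (fun t : ℂ => x + t • v) v 0 := by
      simpa using ((hasDerivAt_id (0 : ℂ)).smul_const v).const_add x
    have h2 : HasFDerivAt u (fderiv ℂ u x) ((fun t : ℂ => x + t • v) 0) := by
      simpa using (hu x).hasFDerivAt
    exact (h2.comp_hasDerivAt (0 : ℂ) h1).deriv
  have h3 := Complex.norm_deriv_le_of_forall_mem_sphere_norm_le (f := w) (c := 0)
    (R := r / ‖v‖) (C := B) (by positivity) hwd.diffContOnCl (by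
      intro t ht
      rw [mem_sphere_zero_iff_norm] at ht
      apply hB
      rw [add_sub_cancel_left, norm_smul, ht]
      rw [div_mul_cancel₀ _ hv0.ne'])
  rw [← hder]
  calc ‖deriv w 0‖ ≤ B / (r / ‖v‖) := h3
    _ = B / r * ‖v‖ := by field_simp

theorem ml_lemma : ∃ rho K : ℝ, 0 < rho ∧ rho < 1 ∧ 0 < K ∧
    ∀ (f : ℝ → ℝ → ℂ) (M : ℝ) (F G : ℝ → ℂ → ℂ), 0 ≤ M →
      (∀ y : ℝ, |y| < 1 → DifferentiableOn ℂ (F y) (ball 0 1) ∧ (∀ z ∈ ball (0 : ℂ) 1, ‖F y z‖ ≤ M) ∧
        ∀ x : ℝ, |x| < 1 → F y x = f x y) →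
      (∀ x : ℝ, |x| < 1 → DifferentiableOn ℂ (G x) (ball 0 1) ∧ (∀ z ∈ ball (0 : ℂ) 1, ‖G x z‖ ≤ M) ∧
        ∀ y : ℝ, |y| < 1 → G x y = f x y) →
      ∃ H : ℂ × ℂ → ℂ, DifferentiableOn ℂ H (ball 0 rho ×ˢ ball 0 rho) ∧
        (∀ p ∈ ball (0 : ℂ) rho ×ˢ ball (0 : ℂ) rho, ‖H p‖ ≤ K * M) ∧
        ∀ x y : ℝ, |x| < rho → |y| < rho → H ((x : ℂ), (y : ℂ)) = f x y := by
  have hh := hh_pos97
  have hh1 : hh97 < 1 := by unfold hh97; norm_num
  refine ⟨hh97 / 2, 9 + 2 * 2, by positivity, by linarith, by norm_num, ?_⟩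
  intro f M F G hM hF hG
  -- bound of f at real points
  have hfb : ∀ x y : ℝ, |x| < 1 → |y| < 1 → ‖f x y‖ ≤ M := by
    intro x y hx hy
    rw [← (hF y hy).2.2 x hx]
    apply (hF y hy).2.1
    rw [mem_ball_zero_iff, Complex.norm_real]
    exact hx
  have hnd1 : ∀ n j, j ∈ Finset.range (n + 1) → |nd97 n j| < 1 := by
    intro n j hj
    rw [abs_of_nonneg (nd_nonneg97 n j)]
    exact (nd_le97 n j hj).trans_lt hh1
  -- error on the real square
  set E : ℕ → ℝ := fun n => 2 * M * (2 * hh97) ^ (n + 1) * (1 + Lam97 n) with hE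
  have hE0 : ∀ n, 0 ≤ E n := by
    intro n
    have := Lam_pos97 n
    simp only [hE]
    positivity
  have herr : ∀ n (x y : ℝ), |x| ≤ hh97 → |y| ≤ hh97 →
      ‖f x y - Fn97 f n ((x : ℂ), (y : ℂ))‖ ≤ E n * (1 + Lam97 n) := by
    intro n x y hx hy
    have hx' : ‖(x : ℂ)‖ ≤ hh97 := by rw [Complex.norm_real]; exact hx
    have hy' : ‖(y : ℂ)‖ ≤ hh97 := by rw [Complex.norm_real]; exact hy
    have hx1 : |x| < 1 := hx.trans_lt hh1
    have hy1 : |y| < 1 := hy.trans_lt hh1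
    have h1 := interp97 (F y) M (hF y hy1).1 (hF y hy1).2.1 n (x : ℂ) hx'
    rw [(hF y hy1).2.2 x hx1] at h1
    have h2 : ∀ i ∈ Finset.range (n + 1),
        ‖f (nd97 n i) y - ∑ j ∈ Finset.range (n + 1), (lg97 n j).eval (y : ℂ) * f (nd97 n i) (nd97 n j)‖
          ≤ E n := by
      intro i hi
      have hi1 := hnd1 n i hi
      have h3 := interp97 (G (nd97 n i)) M (hG _ hi1).1 (hG _ hi1).2.1 n (y : ℂ) hy'
      rw [(hG _ hi1).2.2 y hy1] at h3
      rw [Finset.sum_congr rfl (fun j hj => by rw [(hG _ hi1).2.2 (nd97 n j) (hnd1 n j hj)])] at h3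
      exact h3
    rw [Finset.sum_congr rfl (fun j hj => by rw [(hF y hy1).2.2 (nd97 n j) (hnd1 n j hj)])] at h1
    have e : f x y - Fn97 f n ((x : ℂ), (y : ℂ))
        = (f x y - ∑ i ∈ Finset.range (n + 1), (lg97 n i).eval (x : ℂ) * f (nd97 n i) y)
          + ∑ i ∈ Finset.range (n + 1), (lg97 n i).eval (x : ℂ) *
            (f (nd97 n i) y - ∑ j ∈ Finset.range (n + 1),
              (lg97 n j).eval (y : ℂ) * f (nd97 n i) (nd97 n j)) := by
      unfold Fn97
      simp only [mul_sub, Finset.sum_sub_distrib, Finset.mul_sum]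
      have : ∑ i ∈ Finset.range (n + 1), ∑ j ∈ Finset.range (n + 1),
          (lg97 n i).eval (x : ℂ) * (lg97 n j).eval (y : ℂ) * f (nd97 n i) (nd97 n j)
          = ∑ i ∈ Finset.range (n + 1), ∑ j ∈ Finset.range (n + 1),
          (lg97 n i).eval (x : ℂ) * ((lg97 n j).eval (y : ℂ) * f (nd97 n i) (nd97 n j)) :=
        Finset.sum_congr rfl (fun i _ => Finset.sum_congr rfl (fun j _ => by ring))
      rw [this]; ring
    rw [e]
    calc ‖(f x y - ∑ i ∈ Finset.range (n + 1), (lg97 n i).eval (x : ℂ) * f (nd97 n i) y)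
          + ∑ i ∈ Finset.range (n + 1), (lg97 n i).eval (x : ℂ) *
            (f (nd97 n i) y - ∑ j ∈ Finset.range (n + 1),
              (lg97 n j).eval (y : ℂ) * f (nd97 n i) (nd97 n j))‖
        ≤ E n + ∑ i ∈ Finset.range (n + 1), ‖(lg97 n i).eval (x : ℂ)‖ * E n := by
          refine (norm_add_le _ _).trans (add_le_add h1 ?_)
          refine (norm_sum_le _ _).trans (Finset.sum_le_sum (fun i hi => ?_))
          rw [norm_mul]
          exact mul_le_mul_of_nonneg_left (h2 i hi) (norm_nonneg _)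
      _ = E n * (1 + ∑ i ∈ Finset.range (n + 1), ‖(lg97 n i).eval (x : ℂ)‖) := by
          rw [← Finset.sum_mul]; ring
      _ ≤ E n * (1 + Lam97 n) :=
          mul_le_mul_of_nonneg_left (by linarith [lg_sum97 n (x : ℂ) hx']) (hE0 n)
  -- the differences
  set u : ℕ → ℂ × ℂ → ℂ := fun n p => Fn97 f (n + 1) p - Fn97 f n p with hu
  have hc : ∀ n, Lam97 (n + 1) ^ 2 * (E n * (1 + Lam97 n)) ≤ 2 * M * (1 / 2) ^ n := by
    intro n
    simp only [hE]
    have hL1 : 1 + Lam97 n ≤ 4 * 12 ^ n := by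
      unfold Lam97
      have : (1:ℝ) ≤ 12 ^ n := one_le_pow₀ (by norm_num)
      linarith
    have hL0 : 0 < 1 + Lam97 n := by have := Lam_pos97 n; linarith
    have hL2 : (1 + Lam97 n) * (1 + Lam97 n) ≤ (4 * 12 ^ n) * (4 * 12 ^ n) :=
      mul_le_mul hL1 hL1 hL0.le (by positivity)
    calc Lam97 (n + 1) ^ 2 * (2 * M * (2 * hh97) ^ (n + 1) * (1 + Lam97 n) * (1 + Lam97 n))
        = (Lam97 (n + 1) ^ 2 * (2 * M * (2 * hh97) ^ (n + 1))) * ((1 + Lam97 n) * (1 + Lam97 n)) := by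
          ring
      _ ≤ (Lam97 (n + 1) ^ 2 * (2 * M * (2 * hh97) ^ (n + 1))) * ((4 * 12 ^ n) * (4 * 12 ^ n)) :=
          mul_le_mul_of_nonneg_left hL2 (by positivity)
      _ = (36 ^ 2 * 16 * (2 * hh97)) * (2 * M) * ((12 ^ 4 * (2 * hh97)) ^ n) := by
          unfold Lam97
          rw [mul_pow (12 ^ 4 : ℝ), ← pow_mul]
          ring
      _ = (1 / 2) * (2 * M) * (1 / 2) ^ n := by
          have e1 : (36 ^ 2 * 16 * (2 * hh97) : ℝ) = 1 / 2 := by unfold hh97; norm_num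
          have e2 : (12 ^ 4 * (2 * hh97) : ℝ) = 1 / 2 := by unfold hh97; norm_num
          rw [e1, e2]
      _ ≤ 2 * M * (1 / 2) ^ n := by
          have : 0 ≤ M * (1 / 2) ^ n := by positivity
          nlinarith
  have hub : ∀ n (p : ℂ × ℂ), ‖p.1‖ ≤ hh97 → ‖p.2‖ ≤ hh97 → ‖u n p‖ ≤ 2 * M * (1 / 2) ^ n := by
    intro n p h1 h2
    simp only [hu]
    rw [Fn_step97]
    refine (sum2_bound97 (n + 1) _ (E n * (1 + Lam97 n)) ?_ p h1 h2).trans (hc n)
    intro i hi j hj
    apply herr n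
    · rw [abs_of_nonneg (nd_nonneg97 _ i)]; exact nd_le97 _ i hi
    · rw [abs_of_nonneg (nd_nonneg97 _ j)]; exact nd_le97 _ j hj
  have hud : ∀ n, Differentiable ℂ (u n) := fun n => (Fn_diff97 f (n + 1)).sub (Fn_diff97 f n)
  have hgeo : HasSum (fun n : ℕ => 2 * M * (1 / 2 : ℝ) ^ n) (2 * M * 2) := by
    have := (hasSum_geometric_of_lt_one (by norm_num : (0:ℝ) ≤ 1 / 2) (by norm_num)).mul_left (2 * M)
    rw [show (1 - 1 / 2 : ℝ)⁻¹ = 2 by norm_num] at this
    exact this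
  set s : Set (ℂ × ℂ) := ball (0 : ℂ) (hh97 / 2) ×ˢ ball (0 : ℂ) (hh97 / 2) with hs
  have hs_open : IsOpen s := isOpen_ball.prod isOpen_ball
  have hs_conv : Convex ℝ s := (convex_ball _ _).prod (convex_ball _ _)
  have hs0 : (0 : ℂ × ℂ) ∈ s := by
    simp only [hs, Set.mem_prod, Prod.fst_zero, Prod.snd_zero, mem_ball_zero_iff, norm_zero]
    constructor <;> positivity
  have hs1 : ∀ p ∈ s, ‖p.1‖ < hh97 / 2 ∧ ‖p.2‖ < hh97 / 2 := by
    intro p hp
    simpa [hs, mem_ball_zero_iff] using hp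
  have hsum : ∀ p ∈ s, Summable (fun n => u n p) := by
    intro p hp
    have := hs1 p hp
    exact Summable.of_norm_bounded hgeo.summable (fun n => hub n p (by linarith) (by linarith))
  have hder : ∀ p ∈ s, HasFDerivAt (fun q => ∑' n, u n q) (∑' n, fderiv ℂ (u n) p) p := by
    intro p hp
    refine hasFDerivAt_tsum_of_isPreconnected (u := fun n => 2 * M * (1 / 2 : ℝ) ^ n / (hh97 / 2))
      (hgeo.summable.div_const _) hs_open hs_conv.isPreconnected
      (fun n x _ => (hud n x).hasFDerivAt) ?_ hs0 (hsum 0 hs0) hp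
    intro n x hx
    have hx1 := hs1 x hx
    apply fderiv_bound97 (u n) (hud n) _ _ (by positivity)
    intro q hq
    have hq1 : ‖q.1 - x.1‖ ≤ hh97 / 2 := (norm_fst_le (q - x)).trans hq
    have hq2 : ‖q.2 - x.2‖ ≤ hh97 / 2 := (norm_snd_le (q - x)).trans hq
    apply hub n q
    · calc ‖q.1‖ = ‖(q.1 - x.1) + x.1‖ := by rw [sub_add_cancel]
        _ ≤ ‖q.1 - x.1‖ + ‖x.1‖ := norm_add_le _ _
        _ ≤ hh97 := by linarith
    · calc ‖q.2‖ = ‖(q.2 - x.2) + x.2‖ := by rw [sub_add_cancel]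
        _ ≤ ‖q.2 - x.2‖ + ‖x.2‖ := norm_add_le _ _
        _ ≤ hh97 := by linarith
  refine ⟨fun p => Fn97 f 0 p + ∑' n, u n p, ?_, ?_, ?_⟩
  · intro p hp
    exact ((Fn_diff97 f 0 p).add (hder p hp).differentiableAt).differentiableWithinAt
  · intro p hp
    have hp1 := hs1 p hp
    have h1 : ‖Fn97 f 0 p‖ ≤ Lam97 0 ^ 2 * M :=
      sum2_bound97 0 _ M (fun i hi j hj => hfb _ _ (hnd1 0 i hi) (hnd1 0 j hj)) p
        (by linarith) (by linarith)
    have h2 : ‖∑' n, u n p‖ ≤ 2 * M * 2 :=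
      tsum_of_norm_bounded hgeo (fun n => hub n p (by linarith) (by linarith))
    have h3 : Lam97 0 ^ 2 = 9 := by unfold Lam97; norm_num
    calc ‖Fn97 f 0 p + ∑' n, u n p‖ ≤ ‖Fn97 f 0 p‖ + ‖∑' n, u n p‖ := norm_add_le _ _
      _ ≤ Lam97 0 ^ 2 * M + 2 * M * 2 := add_le_add h1 h2
      _ = (9 + 2 * 2) * M := by rw [h3]; ring
  · intro x y hx hy
    have hp : ((x : ℂ), (y : ℂ)) ∈ s := by
      simp only [hs, Set.mem_prod, mem_ball_zero_iff, Complex.norm_real]
      exact ⟨hx, hy⟩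
    have h1 := (hsum _ hp).hasSum.tendsto_sum_nat
    have h2 : ∀ N : ℕ, ∑ n ∈ Finset.range N, u n ((x : ℂ), (y : ℂ))
        = Fn97 f N ((x : ℂ), (y : ℂ)) - Fn97 f 0 ((x : ℂ), (y : ℂ)) := by
      intro N
      exact Finset.sum_range_sub (fun n => Fn97 f n ((x : ℂ), (y : ℂ))) N
    simp only [h2] at h1
    have h3 : Filter.Tendsto (fun N => Fn97 f N ((x : ℂ), (y : ℂ))) Filter.atTop (nhds (f x y)) := by
      rw [tendsto_iff_norm_sub_tendsto_zero]
      have h4 : Filter.Tendsto (fun n : ℕ => 2 * M * (1 / 2 : ℝ) ^ n) Filter.atTop (nhds 0) :=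
        hgeo.summable.tendsto_atTop_zero
      refine squeeze_zero (fun n => norm_nonneg _) (fun n => ?_) h4
      rw [norm_sub_rev]
      refine (herr n x y (by linarith) (by linarith)).trans (le_trans ?_ (hc n))
      have h5 : 1 ≤ Lam97 (n + 1) ^ 2 := by
        unfold Lam97
        have : (1:ℝ) ≤ 12 ^ (n + 1) := one_le_pow₀ (by norm_num)
        nlinarith
      have h6 : 0 ≤ E n * (1 + Lam97 n) :=
        mul_nonneg (hE0 n) (by have := Lam_pos97 n; linarith)
      nlinarith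
    have h7 := tendsto_nhds_unique h1 (h3.sub_const _)
    change Fn97 f 0 ((x : ℂ), (y : ℂ)) + ∑' n, u n ((x : ℂ), (y : ℂ)) = f x y
    rw [h7]; ring

/-- Scaled version with centers `a0, b0` and radius `R`. -/
theorem ml_scaled : ∃ rho K : ℝ, 0 < rho ∧ rho < 1 ∧ 0 < K ∧
    ∀ (a0 b0 R : ℝ) (f : ℝ → ℝ → ℂ) (M : ℝ) (F G : ℝ → ℂ → ℂ), 0 < R → 0 ≤ M →
      (∀ y : ℝ, |y - b0| < R → DifferentiableOn ℂ (F y) (ball (a0 : ℂ) R) ∧
        (∀ z ∈ ball (a0 : ℂ) R, ‖F y z‖ ≤ M) ∧ ∀ x : ℝ, |x - a0| < R → F y x = f x y) →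
      (∀ x : ℝ, |x - a0| < R → DifferentiableOn ℂ (G x) (ball (b0 : ℂ) R) ∧
        (∀ z ∈ ball (b0 : ℂ) R, ‖G x z‖ ≤ M) ∧ ∀ y : ℝ, |y - b0| < R → G x y = f x y) →
      ∃ H : ℂ × ℂ → ℂ, DifferentiableOn ℂ H (ball (a0 : ℂ) (rho * R) ×ˢ ball (b0 : ℂ) (rho * R)) ∧
        (∀ p ∈ ball (a0 : ℂ) (rho * R) ×ˢ ball (b0 : ℂ) (rho * R), ‖H p‖ ≤ K * M) ∧
        ∀ x y : ℝ, |x - a0| < rho * R → |y - b0| < rho * R → H ((x : ℂ), (y : ℂ)) = f x y := by
  obtain ⟨rho, K, hrho, hrho1, hK, hml⟩ := ml_lemma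
  refine ⟨rho, K, hrho, hrho1, hK, ?_⟩
  intro a0 b0 R f M F G hR hM hF hG
  have hR' : (R : ℂ) ≠ 0 := by exact_mod_cast hR.ne'
  have habs : ∀ (c t : ℝ), |t| < 1 → |(c + R * t) - c| < R := by
    intro c t ht
    rw [add_sub_cancel_left, abs_mul, abs_of_pos hR]
    nlinarith
  have hball : ∀ (c : ℝ) (z : ℂ), z ∈ ball (0 : ℂ) 1 → (c : ℂ) + R * z ∈ ball (c : ℂ) R := by
    intro c z hz
    rw [mem_ball_zero_iff] at hz
    rw [mem_ball_iff_norm, add_sub_cancel_left, norm_mul, Complex.norm_real, Real.norm_eq_abs,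
      abs_of_pos hR]
    nlinarith
  have hdiff : ∀ (c : ℝ) (g : ℂ → ℂ), DifferentiableOn ℂ g (ball (c : ℂ) R) →
      DifferentiableOn ℂ (fun z => g ((c : ℂ) + R * z)) (ball 0 1) := by
    intro c g hg
    exact hg.comp ((differentiable_const _).add (differentiable_id.const_mul _)).differentiableOn
      (fun z hz => hball c z hz)
  obtain ⟨H, hH1, hH2, hH3⟩ := hml (fun x y => f (a0 + R * x) (b0 + R * y)) M
    (fun y z => F (b0 + R * y) ((a0 : ℂ) + R * z)) (fun x z => G (a0 + R * x) ((b0 : ℂ) + R * z)) hM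
    (by
      intro y hy
      have h := hF (b0 + R * y) (habs b0 y hy)
      refine ⟨hdiff a0 _ h.1, fun z hz => h.2.1 _ (hball a0 z hz), fun x hx => ?_⟩
      have h2 := h.2.2 (a0 + R * x) (habs a0 x hx)
      push_cast at h2
      exact h2)
    (by
      intro x hx
      have h := hG (a0 + R * x) (habs a0 x hx)
      refine ⟨hdiff b0 _ h.1, fun z hz => h.2.1 _ (hball b0 z hz), fun y hy => ?_⟩
      have h2 := h.2.2 (b0 + R * y) (habs b0 y hy)
      push_cast at h2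
      exact h2)
  have hin : ∀ (c : ℝ) (z : ℂ), z ∈ ball (c : ℂ) (rho * R) → (z - c) / R ∈ ball (0 : ℂ) rho := by
    intro c z hz
    rw [mem_ball_iff_norm] at hz
    rw [mem_ball_zero_iff, norm_div, Complex.norm_real, Real.norm_eq_abs, abs_of_pos hR,
      div_lt_iff₀ hR]
    exact hz
  refine ⟨fun p => H ((p.1 - a0) / R, (p.2 - b0) / R), ?_, ?_, ?_⟩
  · have d1 : Differentiable ℂ (fun p : ℂ × ℂ => (p.1 - (a0 : ℂ)) / (R : ℂ)) := by
      simp only [div_eq_mul_inv]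
      exact (differentiable_fst.sub_const _).mul_const _
    have d2 : Differentiable ℂ (fun p : ℂ × ℂ => (p.2 - (b0 : ℂ)) / (R : ℂ)) := by
      simp only [div_eq_mul_inv]
      exact (differentiable_snd.sub_const _).mul_const _
    refine hH1.comp (d1.prodMk d2).differentiableOn ?_
    intro p hp
    exact ⟨hin a0 p.1 hp.1, hin b0 p.2 hp.2⟩
  · intro p hp
    exact hH2 _ ⟨hin a0 p.1 hp.1, hin b0 p.2 hp.2⟩
  · intro x y hx hy
    have e1 : ((x : ℂ) - a0) / R = (((x - a0) / R : ℝ) : ℂ) := by push_cast; rfl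
    have e2 : ((y : ℂ) - b0) / R = (((y - b0) / R : ℝ) : ℂ) := by push_cast; rfl
    have hx' : |(x - a0) / R| < rho := by
      rw [abs_div, abs_of_pos hR, div_lt_iff₀ hR]; exact hx
    have hy' : |(y - b0) / R| < rho := by
      rw [abs_div, abs_of_pos hR, div_lt_iff₀ hR]; exact hy
    have h := hH3 ((x - a0) / R) ((y - b0) / R) hx' hy'
    simp only [e1, e2]
    rw [h]
    have e3 : a0 + R * ((x - a0) / R) = x := by field_simp; ring
    have e4 : b0 + R * ((y - b0) / R) = y := by field_simp; ring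
    rw [e3, e4]

end SF
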