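import Pool.Agent.Helper65.SF.WXD
import Pool.Agent.Helper65.SF.WK
import Pool.Agent.Helper65.SF.WML

/-!
# SF-W1: joint analyticity of `log kappa`

Proof in words.
* `word_one`: fix b, `psi0 = PP lam n a0 b`, `f z = WC lam b z n`, `f psi0 = cos a0`, `|f| <= 1 - eta` with
  `eta = c0^2/2`, `d = |f' psi0| = |sin a0| TW' > 0`.  `W_disc`: on `|z - psi0| <= c/d` (c = eta^2/512) f varies by
  at most `eta/8`, so `A = arccos f` (branch with `A psi0 = a0`) is holomorphic with `|A - a0| <= 1` there;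
  rescale, `|F' 0| = c |A' psi0| >= c`; `qinv` gives the inverse `T` on `ball a0 R0`, `|T' a / T' a0 - 1| <= 1/2`, so
  `F a = log (T' a/T' a0) + log (T' a0)` (`T' a0 = kappa > 0` real).  For real a, `T a = PP lam n a b` (continuity as
  in `E_curve`, `PP_unique`).
* `word_U`: the function `f a b = log kappa (a,b)` (real) minus its value at `(a0,b0)`; for fixed real b it extends
  in a by `word_one`; for fixed real a, `kappa (a, b) = kappa' ((-1)^(n+1) b, a)` (`kappa_symm`) extends in b by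
  `word_one` (with the roles exchanged); both extensions are bounded by 3 (`|f(a,b)| <= |f(a,b)-f(a0,b)| + |f(a0,b)|`).
  `ml_scaled`.
-/

namespace SF

open Metric

/-- A holomorphic branch of arccos of a function close to its real central value. -/
theorem arccos_branch99 (eta a0 : ℝ) (h0 : 0 < eta) (h1 : eta ≤ 1) (f : ℂ → ℂ)
    (hf : DifferentiableOn ℂ f (ball 0 1)) (hf0 : f 0 = ((Real.cos a0 : ℝ) : ℂ))
    (hc : |Real.cos a0| ≤ 1 - eta) (hb : ∀ z ∈ ball (0 : ℂ) 1, ‖f z - f 0‖ ≤ eta / 8) :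
    ∃ A : ℂ → ℂ, DifferentiableOn ℂ A (ball 0 1) ∧ A 0 = a0 ∧
      (∀ z ∈ ball (0 : ℂ) 1, Complex.cos (A z) = f z) ∧
      ∀ z ∈ ball (0 : ℂ) 1, ‖A z - a0‖ ≤ 1 := by
  -- the sine at the centre
  have hs2 : eta ≤ Real.sin a0 ^ 2 := by
    have h2 := Real.sin_sq_add_cos_sq a0
    have h3 : Real.cos a0 ^ 2 ≤ (1 - eta) ^ 2 := by
      rw [← sq_abs]
      exact pow_le_pow_left₀ (abs_nonneg _) hc 2
    nlinarith
  have hs0 : Real.sin a0 ≠ 0 := by
    intro h
    rw [h] at hs2
    norm_num at hs2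
    linarith
  -- the sign
  obtain ⟨sg, hsg, hsgs⟩ : ∃ sg : ℝ, (sg = 1 ∨ sg = -1) ∧ sg * |Real.sin a0| = Real.sin a0 := by
    rcases lt_or_gt_of_ne hs0 with h | h
    · exact ⟨-1, Or.inr rfl, by rw [abs_of_neg h]; ring⟩
    · exact ⟨1, Or.inl rfl, by rw [abs_of_pos h]; ring⟩
  have hsg2 : (sg : ℂ) ^ 2 = 1 := by
    rcases hsg with h | h <;> rw [h] <;> norm_num
  have hsgn : ‖(sg : ℂ)‖ = 1 := by
    rcases hsg with h | h <;> rw [h] <;> simp
  -- norm of f
  have hfn : ∀ z ∈ ball (0 : ℂ) 1, ‖f z‖ ≤ 1 - 7 * eta / 8 := by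
    intro z hz
    have h2 := hb z hz
    have h3 : ‖f z‖ ≤ ‖f z - f 0‖ + ‖f 0‖ := by
      calc ‖f z‖ = ‖(f z - f 0) + f 0‖ := by rw [sub_add_cancel]
        _ ≤ _ := norm_add_le _ _
    have h4 : ‖f 0‖ ≤ 1 - eta := by
      rw [hf0, Complex.norm_real]
      exact hc
    linarith
  have hre : ∀ z ∈ ball (0 : ℂ) 1, 0 < (1 - f z ^ 2).re := by
    intro z hz
    have h2 := hfn z hz
    have h3 : ‖f z ^ 2‖ < 1 := by
      rw [norm_pow]
      have := norm_nonneg (f z)
      nlinarith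
    have h4 := Complex.re_le_norm (f z ^ 2)
    rw [Complex.sub_re, Complex.one_re]
    linarith
  set L : ℂ → ℂ := fun z => Complex.exp (Complex.log (1 - f z ^ 2) / 2) with hL
  have hL2 : ∀ z ∈ ball (0 : ℂ) 1, L z ^ 2 = 1 - f z ^ 2 := by
    intro z hz
    have h2 : (1 - f z ^ 2) ≠ 0 := by
      intro h
      have := hre z hz
      rw [h] at this
      simp at this
    simp only [hL]
    rw [← Complex.exp_nat_mul]
    have : ((2 : ℕ) : ℂ) * (Complex.log (1 - f z ^ 2) / 2) = Complex.log (1 - f z ^ 2) := by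
      push_cast; ring
    rw [this, Complex.exp_log h2]
  have hLre : ∀ z, 0 ≤ (L z).re := by
    intro z
    simp only [hL]
    rw [Complex.exp_re]
    apply mul_nonneg (Real.exp_pos _).le
    have h2 : (Complex.log (1 - f z ^ 2) / 2).im = Complex.arg (1 - f z ^ 2) / 2 := by
      have : Complex.log (1 - f z ^ 2) / 2 = ((1 / 2 : ℝ) : ℂ) * Complex.log (1 - f z ^ 2) := by
        push_cast; ring
      rw [this, Complex.im_ofReal_mul, Complex.log_im]
      ring
    rw [h2]
    apply Real.cos_nonneg_of_mem_Icc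
    have h3 := Complex.neg_pi_lt_arg (1 - f z ^ 2)
    have h4 := Complex.arg_le_pi (1 - f z ^ 2)
    constructor <;> linarith
  have hLd : DifferentiableOn ℂ L (ball 0 1) := by
    intro z hz
    apply DifferentiableWithinAt.cexp
    apply DifferentiableWithinAt.div_const
    apply DifferentiableWithinAt.clog
    · exact (differentiableWithinAt_const _).sub ((hf z hz).pow 2)
    · exact Or.inl (hre z hz)
  have hLn0 : L 0 = ((|Real.sin a0| : ℝ) : ℂ) := by
    have hz0 : (0 : ℂ) ∈ ball (0 : ℂ) 1 := mem_ball_self one_pos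
    have h2 := hL2 0 hz0
    have h3 : (1 : ℂ) - f 0 ^ 2 = ((|Real.sin a0| : ℝ) : ℂ) ^ 2 := by
      rw [hf0, ← Complex.ofReal_pow, ← Complex.ofReal_pow, sq_abs, ← Complex.ofReal_one,
        ← Complex.ofReal_sub]
      congr 1
      have := Real.sin_sq_add_cos_sq a0
      linarith
    rw [h3] at h2
    rcases sq_eq_sq_iff_eq_or_eq_neg.mp h2 with h | h
    · exact h
    · exfalso
      have h4 := hLre 0
      rw [h, Complex.neg_re, Complex.ofReal_re] at h4
      have := abs_pos.mpr hs0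
      linarith
  -- the exponential
  set E : ℂ → ℂ := fun z => f z + Complex.I * (sg * L z) with hE
  have hEE : ∀ z ∈ ball (0 : ℂ) 1, E z * (f z - Complex.I * (sg * L z)) = 1 := by
    intro z hz
    have h2 := hL2 z hz
    have hI := Complex.I_sq
    simp only [hE]
    linear_combination (-(sg : ℂ) ^ 2 * L z ^ 2) * hI + (L z ^ 2) * hsg2 + h2
  have hE0 : E 0 = Complex.exp (a0 * Complex.I) := by
    have hsg3 : (sg : ℂ) * ((|Real.sin a0| : ℝ) : ℂ) = ((Real.sin a0 : ℝ) : ℂ) := by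
      rw [← Complex.ofReal_mul, hsgs]
    simp only [hE]
    rw [hf0, hLn0, hsg3, Complex.exp_mul_I, ← Complex.ofReal_cos, ← Complex.ofReal_sin]
    ring
  have hLdiff : ∀ z ∈ ball (0 : ℂ) 1, ‖L z - L 0‖ ≤ 3 / 10 := by
    intro z hz
    have hz0 : (0 : ℂ) ∈ ball (0 : ℂ) 1 := mem_ball_self one_pos
    have h2 : (L z - L 0) * (L z + L 0) = -((f z - f 0) * (f z + f 0)) := by
      linear_combination hL2 z hz - hL2 0 hz0
    have h3 : ‖L z - L 0‖ * ‖L z + L 0‖ = ‖f z - f 0‖ * ‖f z + f 0‖ := by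
      rw [← norm_mul, h2, norm_neg, norm_mul]
    have h4 : |Real.sin a0| ≤ ‖L z + L 0‖ := by
      have h5 : |Real.sin a0| ≤ (L z + L 0).re := by
        rw [Complex.add_re, hLn0, Complex.ofReal_re]
        linarith [hLre z]
      exact h5.trans (Complex.re_le_norm _)
    have h5 : ‖f z + f 0‖ ≤ 2 := by
      refine (norm_add_le _ _).trans ?_
      linarith [hfn z hz, hfn 0 hz0]
    have h6 := hb z hz
    have h7 : ‖L z - L 0‖ * |Real.sin a0| ≤ eta / 4 := by
      calc ‖L z - L 0‖ * |Real.sin a0| ≤ ‖L z - L 0‖ * ‖L z + L 0‖ :=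
            mul_le_mul_of_nonneg_left h4 (norm_nonneg _)
        _ = ‖f z - f 0‖ * ‖f z + f 0‖ := h3
        _ ≤ eta / 8 * 2 := mul_le_mul h6 h5 (norm_nonneg _) (by linarith)
        _ = eta / 4 := by ring
    have h8 : eta ≤ |Real.sin a0| := by
      have h9 : |Real.sin a0| ≤ 1 := Real.abs_sin_le_one a0
      have h10 : 0 ≤ |Real.sin a0| := abs_nonneg _
      rw [← sq_abs] at hs2
      nlinarith
    have h9 : ‖L z - L 0‖ * |Real.sin a0| ≤ (1 / 4) * |Real.sin a0| := by linarith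
    have h10 := le_of_mul_le_mul_right h9 (abs_pos.mpr hs0)
    linarith
  have hE1 : ∀ z ∈ ball (0 : ℂ) 1, ‖E z * Complex.exp (-(a0 * Complex.I)) - 1‖ ≤ 1 / 2 := by
    intro z hz
    have h2 : E z * Complex.exp (-(a0 * Complex.I)) - 1 =
        (E z - E 0) * Complex.exp (-(a0 * Complex.I)) := by
      rw [sub_mul, hE0, ← Complex.exp_add, add_neg_cancel, Complex.exp_zero]
    have h3 : ‖Complex.exp (-(a0 * Complex.I))‖ = 1 := by
      have : -((a0 : ℂ) * Complex.I) = ((-a0 : ℝ) : ℂ) * Complex.I := by push_cast; ring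
      rw [this, Complex.norm_exp_ofReal_mul_I]
    rw [h2, norm_mul, h3, mul_one]
    have h4 : E z - E 0 = (f z - f 0) + Complex.I * (sg * (L z - L 0)) := by
      simp only [hE]; ring
    rw [h4]
    refine (norm_add_le _ _).trans ?_
    rw [norm_mul, norm_mul, Complex.norm_I, hsgn, one_mul, one_mul]
    linarith [hLdiff z hz, hb z hz]
  refine ⟨fun z => a0 - Complex.I * Complex.log (E z * Complex.exp (-(a0 * Complex.I))), ?_, ?_, ?_, ?_⟩
  · intro z hz
    apply DifferentiableWithinAt.sub (differentiableWithinAt_const _)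
    apply DifferentiableWithinAt.const_mul
    apply DifferentiableWithinAt.clog
    · apply DifferentiableWithinAt.mul_const
      exact (hf z hz).add (((hLd z hz).const_mul _).const_mul _)
    · apply Complex.mem_slitPlane_of_norm_lt_one (z := E z * Complex.exp (-(a0 * Complex.I)) - 1)
        |> fun h => by simpa using h ((hE1 z hz).trans_lt (by norm_num))
  · simp only
    rw [hE0, ← Complex.exp_add, add_neg_cancel, Complex.exp_zero, Complex.log_one, mul_zero, sub_zero]
  · intro z hz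
    have hne : E z * Complex.exp (-(a0 * Complex.I)) ≠ 0 := by
      apply mul_ne_zero _ (Complex.exp_ne_zero _)
      intro h
      have := hEE z hz
      rw [h, zero_mul] at this
      exact zero_ne_one this
    have h2 : Complex.exp ((a0 - Complex.I * Complex.log (E z * Complex.exp (-(a0 * Complex.I))))
        * Complex.I) = E z := by
      have : ((a0 : ℂ) - Complex.I * Complex.log (E z * Complex.exp (-(a0 * Complex.I))))
        * Complex.I = a0 * Complex.I + Complex.log (E z * Complex.exp (-(a0 * Complex.I))) := by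
        linear_combination (-Complex.log (E z * Complex.exp (-(a0 * Complex.I)))) * Complex.I_sq
      rw [this, Complex.exp_add, Complex.exp_log hne, mul_comm, mul_assoc, ← Complex.exp_add,
        neg_add_cancel, Complex.exp_zero, mul_one]
    have h3 : Complex.exp (-(a0 - Complex.I * Complex.log (E z * Complex.exp (-(a0 * Complex.I))))
        * Complex.I) = f z - Complex.I * (sg * L z) := by
      rw [neg_mul, Complex.exp_neg, h2]
      exact inv_eq_of_mul_eq_one_right (hEE z hz)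
    simp only
    rw [Complex.cos, h2, h3]
    simp only [hE]
    ring
  · intro z hz
    have h2 := hE1 z hz
    have h3 := Complex.norm_log_one_add_half_le_self h2
    rw [add_sub_cancel] at h3
    have h4 : (a0 : ℂ) - Complex.I * Complex.log (E z * Complex.exp (-(a0 * Complex.I))) - a0
      = -(Complex.I * Complex.log (E z * Complex.exp (-(a0 * Complex.I)))) := by ring
    rw [h4, norm_neg, norm_mul, Complex.norm_I, one_mul]
    linarith

/-- Two continuous functions with the same cosine, one with nonvanishing sine, equal at one point. -/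
theorem eq_of_cos99 (u v : ℝ → ℝ) (S : Set ℝ) (hS : IsPreconnected S) (hu : ContinuousOn u S)
    (hv : ContinuousOn v S) (hcos : ∀ x ∈ S, Real.cos (u x) = Real.cos (v x))
    (hsin : ∀ x ∈ S, Real.sin (v x) ≠ 0) (x0 : ℝ) (hx0 : x0 ∈ S) (h0 : u x0 = v x0) :
    ∀ x ∈ S, u x = v x := by
  have h1 : Set.EqOn (fun x => Real.sin (u x)) (fun x => Real.sin (v x)) S := by
    refine hS.eq_of_sq_eq (Real.continuous_sin.comp_continuousOn hu)
      (Real.continuous_sin.comp_continuousOn hv) ?_ ?_ hx0 ?_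
    · intro x hx
      have h2 := Real.sin_sq_add_cos_sq (u x)
      have h3 := Real.sin_sq_add_cos_sq (v x)
      have h4 := hcos x hx
      simp only [Pi.pow_apply]
      rw [h4] at h2
      linarith
    · intro x hx
      exact hsin x hx
    · simp only [h0]
  have h2 : ∀ x ∈ S, Real.cos (u x - v x) = 1 := by
    intro x hx
    have h3 : Real.sin (u x) = Real.sin (v x) := h1 hx
    rw [Real.cos_sub, hcos x hx, h3]
    have := Real.sin_sq_add_cos_sq (v x)
    nlinarith
  have himg : IsPreconnected ((fun x => u x - v x) '' S) := hS.image _ (hu.sub hv)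
  have hord := himg.ordConnected
  have hm0 : (0 : ℝ) ∈ (fun x => u x - v x) '' S := ⟨x0, hx0, by simp [h0]⟩
  have hpi := Real.pi_gt_three
  intro x hx
  have hmx : u x - v x ∈ (fun x => u x - v x) '' S := ⟨x, hx, rfl⟩
  by_contra hne
  have hne' : u x - v x ≠ 0 := sub_ne_zero.mpr hne
  rcases lt_or_gt_of_ne hne' with h | h
  · have ht : max (u x - v x) (-1) ∈ (fun x => u x - v x) '' S :=
      hord.out hmx hm0 ⟨le_max_left _ _, max_le h.le (by norm_num)⟩
    obtain ⟨y, hy, hye⟩ := ht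
    have h3 := h2 y hy
    have hye' : u y - v y = max (u x - v x) (-1) := hye
    rw [hye'] at h3
    have h4 : max (u x - v x) (-1) < 0 := max_lt h (by norm_num)
    have h5 : -1 ≤ max (u x - v x) (-1) := le_max_right _ _
    have h6 := (Real.cos_eq_one_iff_of_lt_of_lt (by linarith) (by linarith)).mp h3
    linarith
  · have ht : min (u x - v x) 1 ∈ (fun x => u x - v x) '' S :=
      hord.out hm0 hmx ⟨le_min h.le (by norm_num), min_le_left _ _⟩
    obtain ⟨y, hy, hye⟩ := ht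
    have h3 := h2 y hy
    have hye' : u y - v y = min (u x - v x) 1 := hye
    rw [hye'] at h3
    have h4 : 0 < min (u x - v x) 1 := lt_min h (by norm_num)
    have h5 : min (u x - v x) 1 ≤ 1 := min_le_right _ _
    have h6 := (Real.cos_eq_one_iff_of_lt_of_lt (by linarith) (by linarith)).mp h3
    linarith

theorem tr_diff99 (p q w : ℂ → ℂ) (hp : Differentiable ℂ p) (hq : Differentiable ℂ q)
    (hw : Differentiable ℂ w) (k : ℕ) :
    Differentiable ℂ (fun t => tr (p t) (q t) (w t) k) ∧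
    Differentiable ℂ (fun t => tr (p t) (q t) (w t) (k + 1)) ∧
    Differentiable ℂ (fun t => tr (p t) (q t) (w t) (k + 2)) := by
  induction k with
  | zero => exact ⟨hp, hq, hw⟩
  | succ k ih =>
    refine ⟨ih.2.1, ih.2.2, ?_⟩
    change Differentiable ℂ (fun t => 2 * tr (p t) (q t) (w t) (k + 2) *
      tr (p t) (q t) (w t) (k + 1) - tr (p t) (q t) (w t) k)
    exact (((differentiable_const 2).mul ih.2.2).mul ih.2.1).sub ih.1

theorem WC_diff99 (lam b : ℝ) (k : ℕ) : Differentiable ℂ (fun z => WC lam b z k) := by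
  unfold WC
  refine (tr_diff99 (fun z => (rr lam b : ℂ) * Complex.cos z) (fun _ => ((Real.cos b : ℝ) : ℂ))
    (fun z => (rr lam b : ℂ) * Complex.cos (z + (b : ℂ))) ?_ ?_ ?_ k).1
  · exact (differentiable_const _).mul Complex.differentiable_cos
  · exact differentiable_const _
  · exact (differentiable_const _).mul
      (Complex.differentiable_cos.comp (differentiable_id.add (differentiable_const _)))

/-- The complex derivative of `WC` at a real point. -/
theorem WC_deriv99 (lam b : ℝ) (k : ℕ) (psi W' : ℝ) (h : HasDerivAt (fun s => W lam b s k) W' psi) :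
    HasDerivAt (fun z => WC lam b z k) (W' : ℂ) (psi : ℂ) := by
  have h1 := (WC_diff99 lam b k (psi : ℂ)).hasDerivAt
  have h2 : HasDerivAt (fun x : ℝ => WC lam b (x : ℂ) k) (deriv (fun z => WC lam b z k) (psi : ℂ)) psi :=
    h1.comp_ofReal
  have h3 : HasDerivAt (fun x : ℝ => WC lam b (x : ℂ) k) (W' : ℂ) psi := by
    have h4 := h.ofReal_comp
    refine h4.congr_of_eventuallyEq (Filter.Eventually.of_forall fun x => ?_)
    exact WC_ofReal lam b x k
  rw [← h2.unique h3]
  exact h1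

theorem word_one (c0 : ℝ) (hc : 0 < c0) : ∃ R0 : ℝ, 0 < R0 ∧ R0 ≤ 1 ∧
    ∀ lam : ℝ, 0 ≤ lam → lam ≤ 1 / 100 → ∀ (n : ℕ), 2 ≤ n → ∀ a0 b : ℝ, c0 ≤ |Real.sin a0| →
      Real.sin b ≠ 0 → ∃ F : ℂ → ℂ, DifferentiableOn ℂ F (ball (a0 : ℂ) R0) ∧
        (∀ z ∈ ball (a0 : ℂ) R0, ‖F z - F a0‖ ≤ 1) ∧
        ∀ a : ℝ, (a : ℂ) ∈ ball (a0 : ℂ) R0 → Real.sin a ≠ 0 ∧ (F a).im = 0 ∧
          HasDerivAt (fun a' => PP lam n a' b) (Real.exp (F a).re) a := by
  set c1 : ℝ := min c0 1 with hc1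
  have hc1p : 0 < c1 := lt_min hc one_pos
  have hc11 : c1 ≤ 1 := min_le_right _ _
  set eta : ℝ := c1 ^ 2 / 2 with heta
  have heta0 : 0 < eta := by positivity
  have heta1 : eta ≤ 1 := by rw [heta]; nlinarith
  set c : ℝ := eta ^ 2 / 512 with hcc
  have hcp : 0 < c := by positivity
  obtain ⟨r, rho, hr, hr2, hr1, hrho, hq⟩ := qinv 1 c 1 one_pos hcp one_pos
  refine ⟨min (min rho 1) c1, lt_min (lt_min hrho one_pos) hc1p,
    (min_le_left _ _).trans (min_le_right _ _), ?_⟩
  set R0 : ℝ := min (min rho 1) c1 with hR0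
  have hR0rho : R0 ≤ rho := (min_le_left _ _).trans (min_le_left _ _)
  have hR0c : R0 ≤ c1 := min_le_right _ _
  have hR0p : 0 < R0 := lt_min (lt_min hrho one_pos) hc1p
  intro lam hl0 hl1 n hn a0 b ha hb
  have hn1 : n ≠ 1 := by omega
  have ha1 : c1 ≤ |Real.sin a0| := (min_le_left _ _).trans ha
  have hsa0 : Real.sin a0 ≠ 0 := by
    intro h
    rw [h, abs_zero] at ha1
    linarith
  set psi0 : ℝ := PP lam n a0 b with hpsi0
  have hs : TW lam b psi0 n = a0 := PP_spec lam hl0 hl1 n hn1 a0 b hb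
  have hW1 : |W lam b psi0 n| < 1 := (sin_TW_ne lam b psi0 hb n).1 (by rw [hs]; exact hsa0)
  have hW : W lam b psi0 n = Real.cos a0 := by
    have h := cos_TW lam b psi0 hb n
    rw [hs, clip_of_lt hW1] at h
    exact h.symm
  have hWle : |Real.cos a0| ≤ 1 - eta := by
    have h2 := Real.sin_sq_add_cos_sq a0
    have h3 : c1 ^ 2 ≤ Real.sin a0 ^ 2 := by
      rw [← sq_abs (Real.sin a0)]
      exact pow_le_pow_left₀ hc1p.le ha1 2
    have h4 : |Real.cos a0| ^ 2 ≤ (1 - eta) ^ 2 := by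
      rw [sq_abs, heta]
      nlinarith [sq_nonneg (c1 ^ 2)]
    have h5 : 0 ≤ 1 - eta := by linarith
    exact le_of_sq_le_sq h4 h5
  obtain ⟨d, hd0, -, hd1, hd2⟩ := TW_deriv lam b psi0 hl0 hl1 hb n hn1 hW1
  rw [hs] at hd2
  set D : ℝ := |Real.sin a0| * d with hD
  have hDp : 0 < D := mul_pos (abs_pos.mpr hsa0) hd0
  have hderD : |deriv (fun s => W lam b s n) psi0| = D := by
    rw [hd2.deriv, abs_mul, abs_neg, abs_of_pos hd0]
  -- the rescaled function
  set ps : ℂ → ℂ := fun w => (psi0 : ℂ) + ((c / D : ℝ) : ℂ) * w with hps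
  have hpsd : ∀ w, HasDerivAt ps ((c / D : ℝ) : ℂ) w := by
    intro w
    have h : HasDerivAt (fun w : ℂ => (psi0 : ℂ) + ((c / D : ℝ) : ℂ) * w)
        (((c / D : ℝ) : ℂ) * 1) w := ((hasDerivAt_id' w).const_mul _).const_add _
    rw [mul_one] at h
    exact h
  set g : ℂ → ℂ := fun w => WC lam b (ps w) n with hg
  have hgd : Differentiable ℂ g := (WC_diff99 lam b n).comp (fun w => (hpsd w).differentiableAt)
  have hg0 : g 0 = ((Real.cos a0 : ℝ) : ℂ) := by
    simp only [hg, hps, mul_zero, add_zero]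
    rw [WC_ofReal, hW]
  have hgb : ∀ z ∈ ball (0 : ℂ) 1, ‖g z - g 0‖ ≤ eta / 8 := by
    intro z hz
    rw [mem_ball_zero_iff] at hz
    have h := W_disc lam b eta hl0 hl1 hb heta0 heta1 n hn1 psi0 (by rw [hW]; exact hWle) (ps z) (by
      rw [hderD]
      simp only [hps]
      rw [add_sub_cancel_left, norm_mul, Complex.norm_real, Real.norm_eq_abs,
        abs_of_pos (div_pos hcp hDp)]
      have : c / D * ‖z‖ * D = c * ‖z‖ := by field_simp
      rw [this]
      nlinarith [norm_nonneg z])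
    rw [hW] at h
    rw [hg0]
    exact h
  obtain ⟨A, hAd, hA0, hAc, hAb⟩ := arccos_branch99 eta a0 heta0 heta1 g hgd.differentiableOn hg0 hWle hgb
  have hz0 : (0 : ℂ) ∈ ball (0 : ℂ) 1 := mem_ball_self one_pos
  have hA' : HasDerivAt A (deriv A 0) 0 :=
    ((hAd 0 hz0).differentiableAt (isOpen_ball.mem_nhds hz0)).hasDerivAt
  have hg' : HasDerivAt g (((-Real.sin a0 * d : ℝ) : ℂ) * ((c / D : ℝ) : ℂ)) 0 := by
    have h1 := WC_deriv99 lam b n psi0 _ hd2
    have h2 := hpsd 0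
    have h3 : ps 0 = (psi0 : ℂ) := by simp [hps]
    rw [← h3] at h1
    exact h1.comp (0 : ℂ) h2
  have hAder : deriv A 0 = ((d * (c / D) : ℝ) : ℂ) := by
    have h1 : HasDerivAt (fun z => Complex.cos (A z)) (-Complex.sin (A 0) * deriv A 0) 0 := hA'.ccos
    have h2 : HasDerivAt (fun z => Complex.cos (A z))
        (((-Real.sin a0 * d : ℝ) : ℂ) * ((c / D : ℝ) : ℂ)) 0 := by
      refine hg'.congr_of_eventuallyEq ?_
      filter_upwards [isOpen_ball.mem_nhds hz0] with z hz using hAc z hz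
    have h3 := h1.unique h2
    rw [hA0, ← Complex.ofReal_sin] at h3
    have h4 : ((Real.sin a0 : ℝ) : ℂ) ≠ 0 := by exact_mod_cast hsa0
    have h5 : ((Real.sin a0 : ℝ) : ℂ) * (deriv A 0 - ((d * (c / D) : ℝ) : ℂ)) = 0 := by
      push_cast at h3 ⊢
      linear_combination -h3
    rcases mul_eq_zero.mp h5 with h | h
    · exact absurd h h4
    · exact sub_eq_zero.mp h
  have hdc : 0 < d * (c / D) := mul_pos hd0 (div_pos hcp hDp)
  have hAn : c ≤ ‖deriv A 0‖ := by
    rw [hAder, Complex.norm_real, Real.norm_eq_abs, abs_of_pos hdc]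
    have h1 : |Real.sin a0| ≤ 1 := Real.abs_sin_le_one a0
    have h2 : d * (c / D) * |Real.sin a0| = c := by
      rw [hD]
      have := abs_pos.mpr hsa0
      field_simp
    nlinarith [abs_nonneg (Real.sin a0)]
  obtain ⟨-, T, hTd, hT0, hT⟩ := hq A hAd (fun z hz => by rw [hA0]; exact hAb z hz) hAn
  rw [hA0] at hTd hT0 hT
  have hball : ball (a0 : ℂ) R0 ⊆ ball (a0 : ℂ) rho := ball_subset_ball hR0rho
  have hTin : ∀ z ∈ ball (a0 : ℂ) rho, T z ∈ ball (0 : ℂ) 1 := fun z hz =>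
    ball_subset_ball (by linarith) (hT z hz).1
  -- sines do not vanish on the real ball
  have hsin : ∀ a : ℝ, (a : ℂ) ∈ ball (a0 : ℂ) R0 → Real.sin a ≠ 0 := by
    intro a ha h
    rw [mem_ball_iff_norm, ← Complex.ofReal_sub, Complex.norm_real, Real.norm_eq_abs] at ha
    have h1 : |Real.sin a - Real.sin a0| ≤ |a - a0| := Real.abs_sin_sub_sin_le a a0
    rw [h, zero_sub, abs_neg] at h1
    linarith
  have hgT : ∀ z ∈ ball (a0 : ℂ) rho, WC lam b (ps (T z)) n = Complex.cos z := by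
    intro z hz
    have h1 := hAc (T z) (hTin z hz)
    rw [(hT z hz).2.1] at h1
    exact h1.symm
  -- real points
  have hreal : ∀ a : ℝ, (a : ℂ) ∈ ball (a0 : ℂ) rho → (ps (T a)).im = 0 := by
    intro a ha
    by_contra hne
    refine rr_word lam b hb n hn1 (ps (T a)) hne (Real.cos a) (Real.abs_cos_le_one a) ?_
    rw [hgT a ha, Complex.ofReal_cos]
  set S : Set ℝ := ball a0 R0 with hS
  have hSmem : ∀ a : ℝ, a ∈ S ↔ (a : ℂ) ∈ ball (a0 : ℂ) R0 := by
    intro a
    rw [hS, mem_ball_iff_norm, mem_ball_iff_norm, ← Complex.ofReal_sub, Complex.norm_real]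
  set p : ℝ → ℝ := fun a => (ps (T a)).re with hp
  have hpc : ∀ a ∈ S, ps (T a) = ((p a : ℝ) : ℂ) := by
    intro a ha
    apply Complex.ext
    · simp [hp]
    · rw [hreal a (hball ((hSmem a).mp ha)), Complex.ofReal_im]
  have hWp : ∀ a ∈ S, W lam b (p a) n = Real.cos a := by
    intro a ha
    have h1 := hgT a (hball ((hSmem a).mp ha))
    rw [hpc a ha, WC_ofReal, ← Complex.ofReal_cos] at h1
    exact_mod_cast h1
  have hTdA : ∀ z ∈ ball (a0 : ℂ) rho, HasDerivAt T (deriv T z) z := fun z hz =>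
    ((hTd z hz).differentiableAt (isOpen_ball.mem_nhds hz)).hasDerivAt
  have hPT : ∀ z ∈ ball (a0 : ℂ) rho,
      HasDerivAt (fun z => ps (T z)) (((c / D : ℝ) : ℂ) * deriv T z) z := by
    intro z hz
    exact (hpsd (T z)).comp z (hTdA z hz)
  have hpcont : ContinuousOn p S := by
    intro a ha
    have h1 : HasDerivAt p (((c / D : ℝ) : ℂ) * deriv T a).re a :=
      (hPT a (hball ((hSmem a).mp ha))).real_of_complex
    exact h1.continuousAt.continuousWithinAt
  have hTWp : ∀ a ∈ S, TW lam b (p a) n = a := by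
    refine eq_of_cos99 (fun a => TW lam b (p a) n) (fun a => a) S (convex_ball a0 R0).isPreconnected
      ((TW_continuous_psi lam hl0 hl1 n b hb).comp_continuousOn hpcont) continuousOn_id ?_ ?_ a0
      (mem_ball_self hR0p) ?_
    · intro a ha
      rw [cos_TW lam b (p a) hb n, hWp a ha]
      exact clip_of_le14 (Real.abs_cos_le_one a)
    · intro a ha
      exact hsin a ((hSmem a).mp ha)
    · have : p a0 = psi0 := by
        simp only [hp, hT0, hps, mul_zero, add_zero, Complex.ofReal_re]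
      simp only [this, hs]
  have hPPp : ∀ a ∈ S, PP lam n a b = p a := fun a ha =>
    PP_unique lam hl0 hl1 n hn1 a b (p a) hb (hsin a ((hSmem a).mp ha)) (hTWp a ha)
  -- the derivative at real points
  have hkap : ∀ a ∈ S, ∃ kappa : ℝ, 0 < kappa ∧ HasDerivAt (fun a' => PP lam n a' b) kappa a ∧
      ((c / D : ℝ) : ℂ) * deriv T a = (kappa : ℂ) := by
    intro a ha
    obtain ⟨kappa, hk0, -, hk1⟩ := PP_deriv lam hl0 hl1 n hn a b hb (hsin a ((hSmem a).mp ha))
    refine ⟨kappa, hk0, hk1, ?_⟩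
    have h1 : HasDerivAt (fun x : ℝ => ps (T (x : ℂ))) (((c / D : ℝ) : ℂ) * deriv T a) a :=
      (hPT a (hball ((hSmem a).mp ha))).comp_ofReal
    have h2 : HasDerivAt (fun x : ℝ => ps (T (x : ℂ))) (kappa : ℂ) a := by
      refine hk1.ofReal_comp.congr_of_eventuallyEq ?_
      filter_upwards [isOpen_ball.mem_nhds ha] with x hx
      rw [hPPp x hx]
      exact hpc x hx
    exact h1.unique h2
  obtain ⟨kap0, hk00, hk01, hk02⟩ := hkap a0 (mem_ball_self hR0p)
  -- deriv T a0 * deriv A 0 = 1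
  have hTA : ∀ z ∈ ball (a0 : ℂ) R0, ‖deriv T z * deriv A 0 - 1‖ ≤ 1 / 2 := fun z hz =>
    (hT z (hball hz)).2.2.2
  have hTA0 : deriv T a0 * deriv A 0 = 1 := by
    have ha0m : (a0 : ℂ) ∈ ball (a0 : ℂ) rho := mem_ball_self hrho
    have h1 : HasDerivAt (fun z => A (T z)) (deriv A 0 * deriv T a0) (a0 : ℂ) := by
      have h2 : HasDerivAt A (deriv A 0) (T a0) := by rw [hT0]; exact hA'
      exact h2.comp (a0 : ℂ) (hTdA a0 ha0m)
    have h2 : HasDerivAt (fun z => A (T z)) 1 (a0 : ℂ) := by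
      refine (hasDerivAt_id (a0 : ℂ)).congr_of_eventuallyEq ?_
      filter_upwards [isOpen_ball.mem_nhds ha0m] with z hz using (hT z hz).2.1
    rw [mul_comm]
    exact h1.unique h2
  refine ⟨fun z => Complex.log (deriv T z * deriv A 0) + ((Real.log kap0 : ℝ) : ℂ), ?_, ?_, ?_⟩
  · intro z hz
    have h1 : DifferentiableWithinAt ℂ (deriv T) (ball (a0 : ℂ) R0) z :=
      ((hTd.deriv isOpen_ball).mono hball) z hz
    apply DifferentiableWithinAt.add_const
    apply DifferentiableWithinAt.clog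
    · exact h1.mul_const _
    · have h2 := Complex.mem_slitPlane_of_norm_lt_one ((hTA z hz).trans_lt (by norm_num))
      simpa using h2
  · intro z hz
    have h3 := Complex.norm_log_one_add_half_le_self (hTA z hz)
    rw [add_sub_cancel] at h3
    have h4 : (Complex.log (deriv T z * deriv A 0) + ((Real.log kap0 : ℝ) : ℂ)) -
        (Complex.log (deriv T a0 * deriv A 0) + ((Real.log kap0 : ℝ) : ℂ)) =
        Complex.log (deriv T z * deriv A 0) := by
      rw [hTA0, Complex.log_one]; ring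
    simp only
    rw [h4]
    linarith [hTA z hz]
  · intro a ha
    have haS := (hSmem a).mpr ha
    obtain ⟨kap, hk0, hk1, hk2⟩ := hkap a haS
    refine ⟨hsin a ha, ?_⟩
    have hcD : ((c / D : ℝ) : ℂ) ≠ 0 := by
      have := div_pos hcp hDp
      exact_mod_cast this.ne'
    have hkc : (kap0 : ℂ) ≠ 0 := by exact_mod_cast hk00.ne'
    have h5 : deriv T a * deriv A 0 = ((kap / kap0 : ℝ) : ℂ) := by
      have e1 : deriv T a = (kap : ℂ) / ((c / D : ℝ) : ℂ) := by
        rw [← hk2]; field_simp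
      have e2 : deriv T a0 = (kap0 : ℂ) / ((c / D : ℝ) : ℂ) := by
        rw [← hk02]; field_simp
      have e3 : deriv A 0 = ((c / D : ℝ) : ℂ) / (kap0 : ℂ) := by
        rw [e2] at hTA0
        field_simp at hTA0 ⊢
        linear_combination hTA0
      rw [e1, e3, Complex.ofReal_div kap kap0, div_mul_div_cancel₀ hcD]
    have h6 : 0 < kap / kap0 := div_pos hk0 hk00
    simp only
    rw [h5, ← Complex.ofReal_log h6.le, ← Complex.ofReal_add]
    refine ⟨Complex.ofReal_im _, ?_⟩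
    rw [Complex.ofReal_re, Real.exp_add, Real.exp_log h6, Real.exp_log hk00,
      div_mul_cancel₀ _ hk00.ne']
    exact hk1

theorem word_U (c0 : ℝ) (hc : 0 < c0) : ∃ R0 C : ℝ, 0 < R0 ∧ R0 ≤ 1 ∧ 0 < C ∧
    ∀ lam : ℝ, 0 ≤ lam → lam ≤ 1 / 100 → ∀ (n : ℕ), 2 ≤ n → ∀ a0 b0 : ℝ, c0 ≤ |Real.sin a0| →
      c0 ≤ |Real.sin b0| → ∃ U : ℂ → ℂ → ℂ,
        DifferentiableOn ℂ (fun z : ℂ × ℂ => U z.1 z.2) (ball (a0 : ℂ) R0 ×ˢ ball (b0 : ℂ) R0) ∧
        (∀ a ∈ ball (a0 : ℂ) R0, ∀ b ∈ ball (b0 : ℂ) R0, ‖U a b - U a0 b0‖ ≤ C) ∧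
        ∀ a b : ℝ, (a : ℂ) ∈ ball (a0 : ℂ) R0 → (b : ℂ) ∈ ball (b0 : ℂ) R0 →
          Real.sin a ≠ 0 ∧ Real.sin b ≠ 0 ∧ (U a b).im = 0 ∧
            HasDerivAt (fun a' => PP lam n a' b) (Real.exp (U a b).re) a := by
  obtain ⟨R1, hR1, hR11, hone⟩ := word_one c0 hc
  obtain ⟨rho, K, hrho, hrho1, hK, hml⟩ := ml_scaled
  refine ⟨rho * R1, 4 * K, by positivity, by nlinarith, by positivity, ?_⟩
  intro lam hl0 hl1 n hn a0 b0 ha hb
  have hsa : Real.sin a0 ≠ 0 := by
    intro h
    rw [h, abs_zero] at ha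
    linarith
  have hsb : Real.sin b0 ≠ 0 := by
    intro h
    rw [h, abs_zero] at hb
    linarith
  set kap : ℝ → ℝ → ℝ := fun a b => deriv (fun a' => PP lam n a' b) a with hkapdef
  have hkap : ∀ a b, Real.sin a ≠ 0 → Real.sin b ≠ 0 →
      0 < kap a b ∧ HasDerivAt (fun a' => PP lam n a' b) (kap a b) a := by
    intro a b h1 h2
    obtain ⟨k, hk0, -, hk⟩ := PP_deriv lam hl0 hl1 n hn a b h2 h1
    simp only [hkapdef]
    rw [hk.deriv]
    exact ⟨hk0, hk⟩
  have hmem : ∀ (c x R : ℝ), (x : ℂ) ∈ ball (c : ℂ) R ↔ |x - c| < R := by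
    intro c x R
    rw [mem_ball_iff_norm, ← Complex.ofReal_sub, Complex.norm_real, Real.norm_eq_abs]
  -- extension in `a`
  have hF : ∀ b : ℝ, ∃ F : ℂ → ℂ, Real.sin b ≠ 0 → DifferentiableOn ℂ F (ball (a0 : ℂ) R1) ∧
      (∀ z ∈ ball (a0 : ℂ) R1, ‖F z - F a0‖ ≤ 1) ∧
      ∀ a : ℝ, |a - a0| < R1 → Real.sin a ≠ 0 ∧ F a = ((Real.log (kap a b) : ℝ) : ℂ) := by
    intro b
    by_cases h : Real.sin b ≠ 0
    · obtain ⟨F, h1, h2, h3⟩ := hone lam hl0 hl1 n hn a0 b ha h
      refine ⟨F, fun _ => ⟨h1, h2, fun a ha => ?_⟩⟩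
      obtain ⟨h4, h5, h6⟩ := h3 a ((hmem a0 a R1).mpr ha)
      refine ⟨h4, ?_⟩
      have h7 : kap a b = Real.exp (F a).re := (hkap a b h4 h).2.unique h6
      rw [h7, Real.log_exp]
      apply Complex.ext
      · simp
      · simp [h5]
    · exact ⟨fun _ => 0, fun h' => absurd h' h⟩
  -- extension in `b`
  obtain ⟨s, hs, hsv⟩ : ∃ s : ℝ, s = (-1) ^ (n + 1) ∧ (s = 1 ∨ s = -1) :=
    ⟨(-1) ^ (n + 1), rfl, neg_one_pow_eq_or ℝ (n + 1)⟩
  have hssin : ∀ x : ℝ, |Real.sin (s * x)| = |Real.sin x| := by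
    intro x
    rcases hsv with h | h <;> rw [h]
    · rw [one_mul]
    · rw [neg_one_mul, Real.sin_neg, abs_neg]
  have hss : s * s = 1 := by rcases hsv with h | h <;> rw [h] <;> norm_num
  have hsabs : |s| = 1 := by rcases hsv with h | h <;> rw [h] <;> norm_num
  have hG : ∀ a : ℝ, ∃ G : ℂ → ℂ, Real.sin a ≠ 0 → DifferentiableOn ℂ G (ball (b0 : ℂ) R1) ∧
      (∀ z ∈ ball (b0 : ℂ) R1, ‖G z - G b0‖ ≤ 1) ∧
      ∀ b : ℝ, |b - b0| < R1 → Real.sin b ≠ 0 ∧ G b = ((Real.log (kap a b) : ℝ) : ℂ) := by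
    intro a
    by_cases h : Real.sin a ≠ 0
    · obtain ⟨F, h1, h2, h3⟩ := hone lam hl0 hl1 n hn (s * b0) a (by rw [hssin]; exact hb) h
      have hmaps : ∀ z ∈ ball (b0 : ℂ) R1, (s : ℂ) * z ∈ ball ((s * b0 : ℝ) : ℂ) R1 := by
        intro z hz
        rw [mem_ball_iff_norm] at hz ⊢
        have : (s : ℂ) * z - ((s * b0 : ℝ) : ℂ) = (s : ℂ) * (z - b0) := by push_cast; ring
        rw [this, norm_mul, Complex.norm_real, Real.norm_eq_abs, hsabs, one_mul]
        exact hz
      refine ⟨fun z => F ((s : ℂ) * z), fun _ => ⟨?_, ?_, fun b hb' => ?_⟩⟩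
      · exact h1.comp (differentiable_id.const_mul _).differentiableOn hmaps
      · intro z hz
        have h4 := h2 _ (hmaps z hz)
        rw [Complex.ofReal_mul] at h4
        exact h4
      · have h4 : ((s * b : ℝ) : ℂ) ∈ ball ((s * b0 : ℝ) : ℂ) R1 := by
          rw [hmem, ← mul_sub, abs_mul, hsabs, one_mul]
          exact hb'
        obtain ⟨h5, h6, h7⟩ := h3 (s * b) h4
        have h8 : Real.sin b ≠ 0 := by
          intro h9
          apply h5
          rw [← abs_eq_zero, hssin, h9, abs_zero]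
        refine ⟨h8, ?_⟩
        have h9 := kappa_symm lam hl0 hl1 n hn a b h h8 (kap a b) (hkap a b h h8).2
        rw [← hs] at h9
        have h10 : kap a b = Real.exp (F ((s * b : ℝ) : ℂ)).re := h9.unique h7
        simp only
        rw [h10, Real.log_exp, ← Complex.ofReal_mul]
        apply Complex.ext
        · simp
        · rw [h6, Complex.ofReal_im]
    · exact ⟨fun _ => 0, fun h' => absurd h' h⟩
  choose F hF using hF
  choose G hG using hG
  have hsx : ∀ x : ℝ, |x - a0| < R1 → Real.sin x ≠ 0 := fun x hx => ((hF b0 hsb).2.2 x hx).1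
  have hsy : ∀ y : ℝ, |y - b0| < R1 → Real.sin y ≠ 0 := fun y hy => ((hG a0 hsa).2.2 y hy).1
  have ha00 : |a0 - a0| < R1 := by rw [sub_self, abs_zero]; exact hR1
  have hb00 : |b0 - b0| < R1 := by rw [sub_self, abs_zero]; exact hR1
  set L0 : ℂ := ((Real.log (kap a0 b0) : ℝ) : ℂ) with hL0
  obtain ⟨H, hH1, hH2, hH3⟩ := hml a0 b0 R1
    (fun x y => ((Real.log (kap x y) : ℝ) : ℂ) - L0) 2
    (fun y z => F y z - L0) (fun x z => G x z - L0) hR1 (by norm_num)
    (by
      intro y hy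
      have h1 := hF y (hsy y hy)
      refine ⟨h1.1.sub_const _, fun z hz => ?_, fun x hx => ?_⟩
      · have h2 : ‖F y a0 - L0‖ ≤ 1 := by
          rw [(h1.2.2 a0 ha00).2, hL0, ← ((hG a0 hsa).2.2 y hy).2, ← ((hG a0 hsa).2.2 b0 hb00).2]
          exact (hG a0 hsa).2.1 y ((hmem b0 y R1).mpr hy)
        have h3 : F y z - L0 = (F y z - F y a0) + (F y a0 - L0) := by ring
        rw [h3]
        refine (norm_add_le _ _).trans ?_
        linarith [h1.2.1 z hz]
      · rw [(h1.2.2 x hx).2])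
    (by
      intro x hx
      have h1 := hG x (hsx x hx)
      refine ⟨h1.1.sub_const _, fun z hz => ?_, fun y hy => ?_⟩
      · have h2 : ‖G x b0 - L0‖ ≤ 1 := by
          rw [(h1.2.2 b0 hb00).2, hL0, ← ((hF b0 hsb).2.2 x hx).2, ← ((hF b0 hsb).2.2 a0 ha00).2]
          exact (hF b0 hsb).2.1 x ((hmem a0 x R1).mpr hx)
        have h3 : G x z - L0 = (G x z - G x b0) + (G x b0 - L0) := by ring
        rw [h3]
        refine (norm_add_le _ _).trans ?_
        linarith [h1.2.1 z hz]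
      · rw [(h1.2.2 y hy).2])
  refine ⟨fun a b => H (a, b) + L0, ?_, ?_, ?_⟩
  · exact hH1.add_const _
  · intro a ha' b hb'
    have h1 := hH2 (a, b) ⟨ha', hb'⟩
    have h2 := hH2 ((a0 : ℂ), (b0 : ℂ)) ⟨mem_ball_self (by positivity), mem_ball_self (by positivity)⟩
    have h3 : H (a, b) + L0 - (H ((a0 : ℂ), (b0 : ℂ)) + L0) = H (a, b) - H ((a0 : ℂ), (b0 : ℂ)) := by
      ring
    simp only
    rw [h3]
    refine (norm_sub_le _ _).trans ?_
    linarith
  · intro a b ha' hb'
    rw [hmem] at ha' hb'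
    have hle : rho * R1 ≤ R1 := by nlinarith
    have h1 := hsx a (ha'.trans_le hle)
    have h2 := hsy b (hb'.trans_le hle)
    have h3 := hH3 a b ha' hb'
    refine ⟨h1, h2, ?_⟩
    simp only
    rw [h3, sub_add_cancel]
    refine ⟨Complex.ofReal_im _, ?_⟩
    rw [Complex.ofReal_re, Real.exp_log (hkap a b h1 h2).1]
    exact (hkap a b h1 h2).2

end SF
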