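import Mathlib

/-!
# SF-WAE: real-rooted rational functions are tame

`D n = (1 + X^2/4)^n`, `f = p / D n`, all complex zeros of `p - D n` and of `p + D n` are real,
`|f 0| <= 1 - eta`.  Then for `|z| |f' 0| <= eta^2/128`: `D n z ≠ 0` and `|f z - f 0| <= eta/8`.

Proof in words.  `D n 0 = 1`, `(D n)' 0 = 0`, so `f 0 = p 0`, `f' 0 = p' 0 =: d`.  `p - D n` is not the zero
polynomial (value at 0) and has only real zeros `tau j` (nonzero as `f 0 ≠ 1`): `p - D n = (p 0 - 1)
prod (1 - X / tau j)` (splits over the reals; over a multiset of roots).  Put `S = sum 1/tau j^2`, and `S'` the same for `p + D n`.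
With `F = f - 1`: second derivative at 0: `F'' = d^2 / F - F (S + n/2)` [`log F` has second derivative
`- S - n/2`]; with `G = f + 1`: `G'' = d^2/G - G (S' + n/2)`; `F'' = G''`.  Hence
`(1 - f)(S + n/2) + (1 + f)(S' + n/2) = 2 d^2/(1 - f^2)`.  All terms on the left are `>= 0`, so
`n <= 2 d^2 / eta`, `S <= 2 d^2/eta^2` (`1 - f^2 >= eta`, `1 - f >= eta`).  (To avoid derivatives of rational functions:
`p'' 0` computed from both factorizations: for a product `q = q0 prod (1 - X/tau j)`,
`q' 0 = - q0 sum 1/tau j`, `q'' 0 = q0 ((sum 1/tau j)^2 - S)`, and `(D n)'' 0 = n/2`.)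
If `d = 0`: no roots, n = 0, f constant.  Else let `|z| <= c/|d|`, `c = eta^2/128`:
`F z / F 0 = exp L`, `L = z * (F'/F)(0) + sum (log (1 - z/tau j) + z / tau j) - n log (1 + z^2/4)`, with
`|z/tau j| <= |z| sqrt S <= 1/2`, `|log (1-u) + u| <= |u|^2`, `|log (1+w)| <= 2 |w|` for `|u|, |w| <= 1/2`:
`|L| <= c/eta + 2 c^2/eta^2 + c^2/eta <= eta/100`, `|exp L - 1| <= 2 |L|`, `|F 0| <= 2`.
-/

namespace SF

open Polynomial

/-- `(1 + X^2/4)^n`. -/
noncomputable def Dpoly (n : ℕ) : Polynomial ℝ := (1 + C (1 / 4) * X ^ 2) ^ n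

namespace WAEAux

/-- The product of the factors `1 - t X`. -/
noncomputable def Q (m : Multiset ℝ) : Polynomial ℝ := (m.map (fun t => 1 - C t * X)).prod

theorem Q_zero : Q 0 = 1 := by simp [Q]

theorem Q_cons (t : ℝ) (m : Multiset ℝ) : Q (t ::ₘ m) = (1 - C t * X) * Q m := by
  simp [Q]

theorem Q_ders (m : Multiset ℝ) : (Q m).eval 0 = 1 ∧ (Q m).derivative.eval 0 = - m.sum ∧
    (Q m).derivative.derivative.eval 0 = m.sum ^ 2 - (m.map (fun t => t ^ 2)).sum := by
  induction m using Multiset.induction with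
  | empty => simp [Q_zero]
  | cons t m ih =>
    obtain ⟨h0, h1, h2⟩ := ih
    rw [Q_cons]
    refine ⟨?_, ?_, ?_⟩
    · simp [h0]
    · simp only [derivative_mul, derivative_sub, derivative_one, derivative_C, derivative_X,
        eval_add, eval_mul, eval_sub, eval_C, eval_X, eval_one, Multiset.sum_cons, h0, h1]
      simp
      ring
    · simp only [derivative_mul, derivative_add, derivative_sub, derivative_one, derivative_C,
        derivative_X, eval_add, eval_mul, eval_sub, eval_C, eval_X, eval_one, Multiset.sum_cons,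
        Multiset.map_cons, h0, h1, h2]
      simp
      ring

theorem factor (k : ℕ) : ∀ q : Polynomial ℝ, q.natDegree ≤ k → q.eval 0 ≠ 0 →
    (∀ z : ℂ, aeval z q = 0 → z.im = 0) → ∃ m : Multiset ℝ, q = C (q.eval 0) * Q m := by
  induction k with
  | zero =>
    intro q hq _ _
    refine ⟨0, ?_⟩
    rw [Q_zero, mul_one]
    have h : q = C (q.coeff 0) := eq_C_of_natDegree_eq_zero (Nat.le_zero.mp hq)
    conv_lhs => rw [h]
    congr 1
    conv_rhs => rw [h]
    simp
  | succ k ih =>
    intro q hq h0 hr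
    by_cases hd : q.natDegree = 0
    · exact ih q (by omega) h0 hr
    · have hdeg : q.degree ≠ 0 := by
        intro h
        exact hd (natDegree_eq_of_degree_eq_some h)
      obtain ⟨z, hz⟩ := IsAlgClosed.exists_aeval_eq_zero (k := ℂ) q hdeg
      have hzi := hr z hz
      set t : ℝ := z.re with ht
      have hzt : z = (t : ℂ) := by
        apply Complex.ext
        · simp [ht]
        · simp [hzi]
      have hroot : q.eval t = 0 := by
        rw [hzt] at hz
        have : aeval ((algebraMap ℝ ℂ) t) q = algebraMap ℝ ℂ (q.eval t) := by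
          rw [aeval_algebraMap_apply]
          simp
        have h2 : algebraMap ℝ ℂ (q.eval t) = 0 := by
          rw [← this]
          exact hz
        exact (map_eq_zero (algebraMap ℝ ℂ)).mp h2
      have ht0 : t ≠ 0 := by
        rintro h
        rw [h] at hroot
        exact h0 hroot
      obtain ⟨g, hg⟩ := dvd_iff_isRoot.mpr hroot
      have hq0 : q ≠ 0 := by
        rintro rfl
        simp at h0
      have hg0 : g ≠ 0 := by
        rintro rfl
        rw [mul_zero] at hg
        exact hq0 hg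
      have hgd : g.natDegree ≤ k := by
        have h3 : q.natDegree = 1 + g.natDegree := by
          rw [hg, natDegree_mul (X_sub_C_ne_zero t) hg0, natDegree_X_sub_C]
        omega
      set g1 : Polynomial ℝ := C (-t) * g with hg1
      have hqg : q = (1 - C t⁻¹ * X) * g1 := by
        rw [hg1, hg]
        have : C t⁻¹ * C t = (1 : Polynomial ℝ) := by
          rw [← C_mul, inv_mul_cancel₀ ht0, C_1]
        rw [C_neg]
        linear_combination (-X * g) * this
      have hg1d : g1.natDegree ≤ k := by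
        rw [hg1]
        exact (natDegree_C_mul_le _ _).trans hgd
      have he : q.eval 0 = g1.eval 0 := by
        rw [hqg]
        simp
      obtain ⟨m, hm⟩ := ih g1 hg1d (he ▸ h0) (by
        intro w hw
        apply hr
        rw [hqg, map_mul, hw, mul_zero])
      refine ⟨t⁻¹ ::ₘ m, ?_⟩
      rw [Q_cons, he]
      conv_lhs => rw [hqg, hm]
      ring

theorem D_ders (n : ℕ) : (Dpoly n).eval 0 = 1 ∧ (Dpoly n).derivative.eval 0 = 0 ∧
    (Dpoly n).derivative.derivative.eval 0 = n / 2 := by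
  induction n with
  | zero => simp [Dpoly]
  | succ n ih =>
    obtain ⟨h0, h1, h2⟩ := ih
    have e : Dpoly (n + 1) = Dpoly n * (1 + C (1 / 4) * X ^ 2) := by
      unfold Dpoly
      rw [pow_succ]
    have d1 : derivative (1 + C (1 / 4) * X ^ 2 : Polynomial ℝ) = C (1 / 2) * X := by
      simp only [derivative_add, derivative_one, derivative_mul, derivative_C, derivative_X_pow]
      simp only [zero_add, zero_mul, ← mul_assoc, ← C_mul]
      norm_num
    rw [e]
    refine ⟨?_, ?_, ?_⟩
    · simp [h0]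
    · rw [derivative_mul, d1]
      simp [h0, h1]
    · rw [derivative_mul, d1, derivative_add, derivative_mul, derivative_mul, d1]
      simp [h0, h1, h2]
      ring

theorem aeval_D (n : ℕ) (z : ℂ) : aeval z (Dpoly n) = (1 + z ^ 2 / 4) ^ n := by
  unfold Dpoly
  simp only [map_pow, map_add, map_mul, map_one, aeval_X, aeval_C]
  congr 2
  rw [show (algebraMap ℝ ℂ) (1 / 4) = (1 / 4 : ℂ) by simp]
  ring

theorem prod_exp (z : ℂ) (m : Multiset ℝ) (h : ∀ t ∈ m, ‖(t : ℂ) * z‖ ≤ 1 / 2) :
    ∃ L : ℂ, Complex.exp L = aeval z (Q m) ∧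
      ‖L + (m.sum : ℂ) * z‖ ≤ (m.map (fun t => t ^ 2)).sum * ‖z‖ ^ 2 := by
  induction m using Multiset.induction with
  | empty => exact ⟨0, by simp [Q_zero], by simp⟩
  | cons t m ih =>
    obtain ⟨L, hL, hb⟩ := ih (fun s hs => h s (Multiset.mem_cons_of_mem hs))
    have ht := h t (Multiset.mem_cons_self t m)
    have hn : ‖-((t : ℂ) * z)‖ ≤ 1 / 2 := by rw [norm_neg]; exact ht
    have h1 := Complex.norm_log_one_add_sub_self_le (z := -((t : ℂ) * z)) (by linarith)
    have hne : 1 + -((t : ℂ) * z) ≠ 0 := by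
      intro h0
      have : ‖-((t : ℂ) * z)‖ = 1 := by
        have : -((t : ℂ) * z) = -1 := by linear_combination h0
        rw [this]
        simp
      linarith
    refine ⟨Complex.log (1 + -((t : ℂ) * z)) + L, ?_, ?_⟩
    · rw [Complex.exp_add, Complex.exp_log hne, hL, Q_cons]
      simp only [map_mul, map_sub, map_one, aeval_X, aeval_C, Complex.coe_algebraMap]
      ring
    · rw [Multiset.sum_cons, Multiset.map_cons, Multiset.sum_cons]
      have e : Complex.log (1 + -((t : ℂ) * z)) + L + ((t + m.sum : ℝ) : ℂ) * z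
        = (Complex.log (1 + -((t : ℂ) * z)) - -((t : ℂ) * z)) + (L + (m.sum : ℂ) * z) := by
        push_cast
        ring
      rw [e]
      refine (norm_add_le _ _).trans ?_
      have h2 : ‖-((t : ℂ) * z)‖ ^ 2 * (1 - ‖-((t : ℂ) * z)‖)⁻¹ / 2 ≤ t ^ 2 * ‖z‖ ^ 2 := by
        have h3 : (1 - ‖-((t : ℂ) * z)‖)⁻¹ ≤ 2 := by
          rw [inv_le_comm₀ (by linarith) (by norm_num)]
          linarith
        have h4 : ‖-((t : ℂ) * z)‖ ^ 2 = t ^ 2 * ‖z‖ ^ 2 := by
          rw [norm_neg, norm_mul, mul_pow, Complex.norm_real, Real.norm_eq_abs, sq_abs]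
        rw [h4]
        have h5 : 0 ≤ t ^ 2 * ‖z‖ ^ 2 := by positivity
        linarith only [mul_le_mul_of_nonneg_left h3 h5]
      have := h1.trans h2
      linarith only [this, hb]

end WAEAux

open WAEAux

theorem ae_lemma (eta : ℝ) (h0 : 0 < eta) (h1 : eta ≤ 1) (n : ℕ) (p : Polynomial ℝ)
    (hm : ∀ z : ℂ, aeval z (p - Dpoly n) = 0 → z.im = 0)
    (hp : ∀ z : ℂ, aeval z (p + Dpoly n) = 0 → z.im = 0)
    (hx : |p.eval 0| ≤ 1 - eta) (z : ℂ) (hz : ‖z‖ * |p.derivative.eval 0| ≤ eta ^ 2 / 128) :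
    aeval z (Dpoly n) ≠ 0 ∧
      ‖aeval z p / aeval z (Dpoly n) - ((p.eval 0 : ℝ) : ℂ)‖ ≤ eta / 8 := by
  obtain ⟨D0, D1, D2⟩ := D_ders n
  set x := p.eval 0 with hxd
  set d := p.derivative.eval 0 with hd
  have hx' := abs_le.mp hx
  have q0 : (p - Dpoly n).eval 0 = x - 1 := by rw [eval_sub, D0]
  have r0 : (p + Dpoly n).eval 0 = x + 1 := by rw [eval_add, D0]
  obtain ⟨m, hmm⟩ := factor _ (p - Dpoly n) le_rfl (by rw [q0]; intro h; linarith) hm
  obtain ⟨m', hm'⟩ := factor _ (p + Dpoly n) le_rfl (by rw [r0]; intro h; linarith) hp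
  obtain ⟨a0, a1, a2⟩ := Q_ders m
  obtain ⟨b0, b1, b2⟩ := Q_ders m'
  set s := m.sum with hs
  set s' := m'.sum with hs'
  set S := (m.map (fun t => t ^ 2)).sum with hS
  set S' := (m'.map (fun t => t ^ 2)).sum with hS'
  have hS0 : 0 ≤ S := by
    apply Multiset.sum_nonneg
    intro y hy
    obtain ⟨t, -, rfl⟩ := Multiset.mem_map.mp hy
    positivity
  have hS'0 : 0 ≤ S' := by
    apply Multiset.sum_nonneg
    intro y hy
    obtain ⟨t, -, rfl⟩ := Multiset.mem_map.mp hy
    positivity
  rw [q0] at hmm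
  rw [r0] at hm'
  -- first derivatives
  have e1 : d = (x - 1) * (-s) := by
    have := congrArg (fun f => (derivative f).eval 0) hmm
    simp only [derivative_sub, derivative_C_mul, eval_sub, eval_mul, eval_C, D1, a1] at this
    rw [← hd] at this
    linarith
  have e1' : d = (x + 1) * (-s') := by
    have := congrArg (fun f => (derivative f).eval 0) hm'
    simp only [derivative_add, derivative_C_mul, eval_add, eval_mul, eval_C, D1, b1] at this
    rw [← hd] at this
    linarith
  have e2 : p.derivative.derivative.eval 0 - n / 2 = (x - 1) * (s ^ 2 - S) := by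
    have := congrArg (fun f => (derivative (derivative f)).eval 0) hmm
    simp only [derivative_sub, derivative_C_mul, eval_sub, eval_mul, eval_C, D2, a2] at this
    exact this
  have e2' : p.derivative.derivative.eval 0 + n / 2 = (x + 1) * (s' ^ 2 - S') := by
    have := congrArg (fun f => (derivative (derivative f)).eval 0) hm'
    simp only [derivative_add, derivative_C_mul, eval_add, eval_mul, eval_C, D2, b2] at this
    exact this
  have hu : 0 < 1 - x := by linarith
  have hv : 0 < 1 + x := by linarith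
  have hxl : eta ≤ 1 - x := by linarith
  have hxr : eta ≤ 1 + x := by linarith
  have huv : eta ≤ (1 - x) * (1 + x) := by
    rcases le_total x 0 with hx0 | hx0
    · have := mul_le_mul_of_nonneg_right (show (1 : ℝ) ≤ 1 - x by linarith only [hx0]) hv.le
      linarith only [this, hxr]
    · have := mul_le_mul_of_nonneg_left (show (1 : ℝ) ≤ 1 + x by linarith only [hx0]) hu.le
      linarith only [this, hxl]
  -- main identity
  have key : ((n : ℝ) + (1 - x) * S + (1 + x) * S') * ((1 - x) * (1 + x)) = 2 * d ^ 2 := by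
    have f1 : d ^ 2 = (1 - x) ^ 2 * s ^ 2 := by rw [e1]; ring
    have f2 : d ^ 2 = (1 + x) ^ 2 * s' ^ 2 := by rw [e1']; ring
    have f3 : (n : ℝ) + (1 - x) * S + (1 + x) * S' = (1 + x) * s' ^ 2 + (1 - x) * s ^ 2 := by
      linarith
    rw [f3]
    linear_combination (-(1 - x)) * f2 - (1 + x) * f1
  have hnn : (0 : ℝ) ≤ n := Nat.cast_nonneg n
  have hn : (n : ℝ) * eta ≤ 2 * d ^ 2 := by
    have g1 : 0 ≤ (1 - x) * S := by positivity
    have g2 : 0 ≤ (1 + x) * S' := by positivity
    have g3 : (n : ℝ) * eta ≤ n * ((1 - x) * (1 + x)) := mul_le_mul_of_nonneg_left huv hnn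
    have g4 : 0 ≤ ((1 - x) * S + (1 + x) * S') * ((1 - x) * (1 + x)) := by positivity
    linarith only [g3, g4, key]
  have hSb : S * eta ^ 2 ≤ 2 * d ^ 2 := by
    have g2 : 0 ≤ (1 + x) * S' := by positivity
    have g3 : eta * eta ≤ (1 - x) * ((1 - x) * (1 + x)) :=
      mul_le_mul (by linarith) huv h0.le hu.le
    have g4 : S * (eta * eta) ≤ S * ((1 - x) * ((1 - x) * (1 + x))) :=
      mul_le_mul_of_nonneg_left g3 hS0
    have g5 : 0 ≤ (n + (1 + x) * S') * ((1 - x) * (1 + x)) := by positivity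
    linarith only [g4, g5, key]
  have hz0 := norm_nonneg z
  have hzd : ‖z‖ ^ 2 * d ^ 2 ≤ (eta ^ 2 / 128) ^ 2 := by
    have : ‖z‖ ^ 2 * d ^ 2 = (‖z‖ * |d|) ^ 2 := by rw [mul_pow, sq_abs]
    rw [this]
    apply pow_le_pow_left₀ (by positivity) hz
  -- bounds
  have B1 : (n : ℝ) * ‖z‖ ^ 2 ≤ eta / 1000 := by
    have g1 : (n : ℝ) * ‖z‖ ^ 2 * eta ≤ 2 * (eta ^ 2 / 128) ^ 2 := by
      have := mul_le_mul_of_nonneg_right hn (sq_nonneg ‖z‖)
      linarith only [this, hzd]
    have g2 : 2 * (eta ^ 2 / 128) ^ 2 ≤ eta / 1000 * eta := by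
      have : eta ^ 4 ≤ eta ^ 2 := pow_le_pow_of_le_one h0.le h1 (by norm_num)
      linarith only [this, sq_nonneg eta]
    exact le_of_mul_le_mul_right (g1.trans g2) h0
  have B2 : S * ‖z‖ ^ 2 ≤ eta / 1000 := by
    have g1 : S * ‖z‖ ^ 2 * eta ^ 2 ≤ 2 * (eta ^ 2 / 128) ^ 2 := by
      have := mul_le_mul_of_nonneg_right hSb (sq_nonneg ‖z‖)
      linarith only [this, hzd]
    have g2 : 2 * (eta ^ 2 / 128) ^ 2 ≤ eta / 1000 * eta ^ 2 := by
      have : eta ^ 4 ≤ eta ^ 3 := pow_le_pow_of_le_one h0.le h1 (by norm_num)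
      linarith only [this, pow_pos h0 3]
    exact le_of_mul_le_mul_right (g1.trans g2) (by positivity)
  have B3 : ‖(s : ℂ) * z‖ ≤ eta / 128 := by
    rw [norm_mul, Complex.norm_real, Real.norm_eq_abs]
    have g1 : |d| = (1 - x) * |s| := by
      rw [e1, show (x - 1) * -s = (1 - x) * s by ring, abs_mul, abs_of_pos hu]
    have g2 : eta * |s| ≤ |d| := by
      rw [g1]
      exact mul_le_mul_of_nonneg_right (by linarith) (abs_nonneg s)
    have g3 : |s| * ‖z‖ * eta ≤ eta / 128 * eta := by
      have := mul_le_mul_of_nonneg_right g2 hz0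
      linarith only [this, hz]
    exact le_of_mul_le_mul_right g3 h0
  -- the logarithm of the product
  obtain ⟨L, hL, hLb⟩ := prod_exp z m (by
    intro t ht
    have g1 : t ^ 2 ≤ S := by
      rw [hS]
      apply Multiset.single_le_sum
      · intro y hy
        obtain ⟨t', -, rfl⟩ := Multiset.mem_map.mp hy
        positivity
      · exact Multiset.mem_map.mpr ⟨t, ht, rfl⟩
    have g2 : ‖(t : ℂ) * z‖ ^ 2 ≤ (1 / 2) ^ 2 := by
      rw [norm_mul, mul_pow, Complex.norm_real, Real.norm_eq_abs, sq_abs]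
      have := mul_le_mul_of_nonneg_right g1 (sq_nonneg ‖z‖)
      linarith only [this, B2, h1]
    exact (pow_le_pow_iff_left₀ (norm_nonneg _) (by norm_num) two_ne_zero).mp g2)
  have hL2 : ‖L‖ ≤ eta / 1000 + eta / 128 := by
    have : L = (L + (s : ℂ) * z) - (s : ℂ) * z := by ring
    rw [this]
    refine (norm_sub_le _ _).trans ?_
    have := hLb.trans B2
    exact add_le_add this B3
  -- the logarithm of the denominator
  obtain ⟨M, hM, hMb⟩ : ∃ M : ℂ, Complex.exp M = aeval z (Dpoly n) ∧ ‖M‖ ≤ eta / 1000 := by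
    rw [aeval_D]
    rcases Nat.eq_zero_or_pos n with hn0 | hn0
    · refine ⟨0, ?_, ?_⟩
      · rw [hn0]; simp
      · rw [norm_zero]; positivity
    · have hn1 : (1 : ℝ) ≤ n := by exact_mod_cast hn0
      have hz2 : ‖z‖ ^ 2 ≤ eta / 1000 := by
        have := mul_le_mul_of_nonneg_right hn1 (sq_nonneg ‖z‖)
        linarith
      have hw : ‖z ^ 2 / 4‖ = ‖z‖ ^ 2 / 4 := by
        rw [norm_div, norm_pow]
        norm_num
      have hw2 : ‖z ^ 2 / 4‖ ≤ 1 / 2 := by
        rw [hw]
        linarith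
      have hne : 1 + z ^ 2 / 4 ≠ 0 := by
        intro h
        have : z ^ 2 / 4 = -1 := by linear_combination h
        rw [this] at hw2
        norm_num at hw2
      refine ⟨n * Complex.log (1 + z ^ 2 / 4), ?_, ?_⟩
      · rw [Complex.exp_nat_mul, Complex.exp_log hne]
      · have h3 := Complex.norm_log_one_add_half_le_self hw2
        rw [norm_mul, Complex.norm_natCast]
        have h4 : (n : ℝ) * ‖Complex.log (1 + z ^ 2 / 4)‖ ≤ n * (3 / 2 * (‖z‖ ^ 2 / 4)) := by
          apply mul_le_mul_of_nonneg_left _ hnn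
          rw [← hw]
          exact h3
        linarith only [h4, B1, h0]
  have hDne : aeval z (Dpoly n) ≠ 0 := by
    rw [← hM]
    exact Complex.exp_ne_zero M
  refine ⟨hDne, ?_⟩
  have hq : aeval z p = aeval z (Dpoly n) + ((x - 1 : ℝ) : ℂ) * aeval z (Q m) := by
    have := congrArg (fun f => aeval z f) hmm
    simp only [map_sub, map_mul, aeval_C, Complex.coe_algebraMap] at this
    rw [Complex.ofReal_one] at this
    push_cast
    linear_combination this
  have hfin : aeval z p / aeval z (Dpoly n) - ((x : ℝ) : ℂ)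
      = ((x - 1 : ℝ) : ℂ) * (Complex.exp (L - M) - 1) := by
    rw [Complex.exp_sub, hL, hM, hq]
    field_simp
    push_cast
    ring
  rw [hfin, norm_mul, Complex.norm_real, Real.norm_eq_abs]
  have hLM : ‖L - M‖ ≤ eta / 100 := by
    refine (norm_sub_le _ _).trans ?_
    linarith
  have hexp := Complex.norm_exp_sub_one_le (x := L - M) (by linarith)
  have hxa : |x - 1| ≤ 2 := by
    rw [abs_le]
    constructor <;> linarith
  calc |x - 1| * ‖Complex.exp (L - M) - 1‖ ≤ 2 * (2 * ‖L - M‖) :=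
        mul_le_mul hxa hexp (norm_nonneg _) (by norm_num)
    _ ≤ eta / 8 := by linarith

end SF
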