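import Pool.Agent.Helper65.SF.WQI
import Pool.Agent.Helper65.SF.F0

/-!
# SF-WCU: analytic continuation of curves

Three consecutive half traces `y0, y1, y2` as entire functions of one parameter, real on the real line,
satisfying the invariant; at the real point `tau0` all are in `[-1+eta, 1-eta]`, `d = |y1' tau0| > 0`, and on
the disc `|z - tau0| d <= c` they vary by at most `eta/8`.  Then the curve can be written as a holomorphic
function of the middle angle `b` on a disc of radius `rho(eta, c)` around `b0`, together with the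
coordinate `p` (`y0 = r cos p`, `y1 = cos b`, `y2 = r cos (p + b)`, `r^2 = 1 + lam^2/(4 sin^2 b)`).

Proof in words.  On the disc, `y1` stays in the disc of radius `eta/8` around `y1 tau0`, so
`A = Arccos (y1 z)`, the branch with `A tau0 = b0`, is holomorphic there
(e.g. `A z = b0 + (sign) int ...`, or use `-i log (y1 + i (sin b0/|sin b0|) sqrt (1 - y1^2))`, `1 - y1^2` stays in the
right half plane), `cos (A z) = y1 z`, `|A z - b0| <= 1`, `|A' tau0| = d / |sin b0| >= d`.  Rescale to the unit disc: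
`F u = A (tau0 + c u / d)`, `|F' 0| >= c`, `qinv` gives `T`.
Coordinate: `Z b = y0 + i (y0 y1 - y2)/sin b` at `T b`; `Z b0 = r exp (i p0)`; by the invariant
`(y0 + i (..)) (y0 - i (..)) = r^2`.  `|Z b - Z b0| <= eta/8 + (3.3 eta/8)/sqrt eta + small <= 1/2` for rho small, so
`p b = p0 - i log ((Z b / Z b0) (rC b0 / rC b))` with the principal log is holomorphic, `|p b - p0| <= 1`, and
`rC exp (i p) = Z`, `rC exp (-i p) = conjugate factor`.  Reality for real b: uniqueness (`InjOn`) and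
conjugation symmetry of `y1` (`y1 (conj z) = conj (y1 z)` by the identity theorem / Schwarz reflection);
then `Z b` has `|Z b| = r`, so p real.
-/

namespace SF

open Metric

/-- Complex radius function. -/
noncomputable def rC (lam : ℝ) (b : ℂ) : ℂ :=
  (1 + (lam : ℂ) ^ 2 / (4 * Complex.sin b ^ 2)) ^ (1 / 2 : ℂ)

/-! ### Square roots -/

theorem wcu_half_sq (w : ℂ) : (w ^ (1 / 2 : ℂ)) ^ 2 = w := by
  rw [one_div]
  exact Complex.cpow_ofNat_inv_pow w 2

theorem wcu_half_re (w : ℂ) : 0 ≤ (w ^ (1 / 2 : ℂ)).re := by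
  rw [one_div, Complex.cpow_inv_two_re]
  exact Real.sqrt_nonneg _

theorem wcu_half_sub (w : ℂ) : ‖w ^ (1 / 2 : ℂ) - 1‖ ≤ ‖w - 1‖ := by
  have h1 : w - 1 = (w ^ (1 / 2 : ℂ) - 1) * (w ^ (1 / 2 : ℂ) + 1) := by
    have h := wcu_half_sq w
    linear_combination -h
  have h2 : 1 ≤ ‖w ^ (1 / 2 : ℂ) + 1‖ := by
    have h3 := Complex.re_le_norm (w ^ (1 / 2 : ℂ) + 1)
    have h4 := wcu_half_re w
    simp only [Complex.add_re, Complex.one_re] at h3
    linarith
  rw [h1, norm_mul]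
  exact le_mul_of_one_le_right (norm_nonneg _) h2

theorem wcu_half_conj (w : ℂ) (hw : w ∈ Complex.slitPlane) :
    (starRingEnd ℂ w) ^ (1 / 2 : ℂ) = starRingEnd ℂ (w ^ (1 / 2 : ℂ)) := by
  rw [Complex.conj_cpow w _ (Complex.slitPlane_arg_ne_pi hw)]
  congr 2
  simp [map_ofNat]

theorem wcu_slit (w : ℂ) (h : ‖w - 1‖ < 1) : w ∈ Complex.slitPlane := by
  rw [Complex.mem_slitPlane_iff]
  left
  have h1 := Complex.abs_re_le_norm (w - 1)
  simp only [Complex.sub_re, Complex.one_re] at h1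
  have h2 := (abs_le.1 h1).1
  linarith

theorem wcu_sin (b : ℂ) (b0 : ℝ) (h : ‖b - b0‖ ≤ 1 / 4) :
    ‖Complex.sin b - Complex.sin b0‖ ≤ 5 / 4 * ‖b - b0‖ := by
  have hx : ∀ x : ℂ, ‖x‖ = ‖b - b0‖ → ‖Complex.exp x - 1‖ ≤ 5 / 4 * ‖b - b0‖ := by
    intro x hx
    have h1 := Complex.norm_exp_sub_one_sub_id_le (x := x) (by rw [hx]; linarith)
    have h2 : ‖Complex.exp x - 1‖ ≤ ‖Complex.exp x - 1 - x‖ + ‖x‖ := by
      have h3 := norm_add_le (Complex.exp x - 1 - x) x
      rwa [sub_add_cancel] at h3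
    rw [hx] at h1 h2
    nlinarith [norm_nonneg (b - b0)]
  have e : Complex.sin b - Complex.sin b0 =
      (Complex.exp (-(b0 : ℂ) * Complex.I) * (Complex.exp (-(b - b0) * Complex.I) - 1)
        - Complex.exp ((b0 : ℂ) * Complex.I) * (Complex.exp ((b - b0) * Complex.I) - 1))
        * (Complex.I / 2) := by
    unfold Complex.sin
    rw [mul_sub, mul_sub, ← Complex.exp_add, ← Complex.exp_add]
    have e1 : -(b0 : ℂ) * Complex.I + -(b - b0) * Complex.I = -b * Complex.I := by ring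
    have e2 : (b0 : ℂ) * Complex.I + (b - b0) * Complex.I = b * Complex.I := by ring
    rw [e1, e2]
    ring
  have n1 : ‖Complex.exp (-(b0 : ℂ) * Complex.I)‖ = 1 := by
    rw [show -(b0 : ℂ) * Complex.I = ((-b0 : ℝ) : ℂ) * Complex.I by push_cast; ring]
    exact Complex.norm_exp_ofReal_mul_I _
  have n2 : ‖Complex.exp ((b0 : ℂ) * Complex.I)‖ = 1 := Complex.norm_exp_ofReal_mul_I _
  have n3 : ‖Complex.I / 2‖ = 1 / 2 := by simp
  rw [e, norm_mul, n3]
  have h5 := hx (-(b - b0) * Complex.I) (by rw [norm_mul, Complex.norm_I, norm_neg, mul_one])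
  have h6 := hx ((b - b0) * Complex.I) (by rw [norm_mul, Complex.norm_I, mul_one])
  have h7 := norm_sub_le (Complex.exp (-(b0 : ℂ) * Complex.I) *
    (Complex.exp (-(b - b0) * Complex.I) - 1))
    (Complex.exp ((b0 : ℂ) * Complex.I) * (Complex.exp ((b - b0) * Complex.I) - 1))
  rw [norm_mul, norm_mul, n1, n2, one_mul, one_mul] at h7
  linarith

theorem rC_ofReal (lam b : ℝ) (hb : Real.sin b ≠ 0) : rC lam (b : ℂ) = ((rr lam b : ℝ) : ℂ) := by
  have h1 : 1 + (lam : ℂ) ^ 2 / (4 * Complex.sin (b : ℂ) ^ 2)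
      = ((1 + qq lam b ^ 2 : ℝ) : ℂ) := by
    unfold qq
    rw [div_pow, mul_pow, sq_abs]
    push_cast
    norm_num
  unfold rC rr
  rw [h1, Real.sqrt_eq_rpow, Complex.ofReal_cpow (by positivity)]
  push_cast
  rfl

/-- The radius function is holomorphic and close to 1 near real points with `sin` not small. -/
theorem rC_holo (lam b0 s : ℝ) (hs : 0 < s) (hb : s ≤ |Real.sin b0|) (hl0 : 0 ≤ lam)
    (hl : lam ≤ s / 10) :
    DifferentiableOn ℂ (rC lam) (ball (b0 : ℂ) (s / 4)) ∧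
    ∀ b ∈ ball (b0 : ℂ) (s / 4), Complex.sin b ≠ 0 ∧ ‖rC lam b - 1‖ ≤ lam ^ 2 / s ^ 2 ∧
      rC lam b ^ 2 = 1 + (lam : ℂ) ^ 2 / (4 * Complex.sin b ^ 2) := by
  have hs1 : s ≤ 1 := hb.trans (Real.abs_sin_le_one b0)
  have hsin : ∀ b ∈ ball (b0 : ℂ) (s / 4), 11 / 16 * s ≤ ‖Complex.sin b‖ := by
    intro b hbb
    rw [mem_ball, dist_eq_norm] at hbb
    have h1 := wcu_sin b b0 (by linarith)
    have h2 : ‖Complex.sin (b0 : ℂ)‖ = |Real.sin b0| := by
      rw [← Complex.ofReal_sin, Complex.norm_real, Real.norm_eq_abs]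
    have h3 := norm_sub_norm_le (Complex.sin (b0 : ℂ)) (Complex.sin b)
    rw [norm_sub_rev] at h3
    linarith
  have hw : ∀ b ∈ ball (b0 : ℂ) (s / 4),
      ‖(1 + (lam : ℂ) ^ 2 / (4 * Complex.sin b ^ 2)) - 1‖ ≤ lam ^ 2 / s ^ 2 := by
    intro b hbb
    have h1 := hsin b hbb
    rw [add_sub_cancel_left, norm_div, norm_mul, norm_pow, norm_pow, Complex.norm_real,
      Real.norm_eq_abs, sq_abs]
    have h2 : ‖(4 : ℂ)‖ = 4 := by simp
    rw [h2]
    apply div_le_div_of_nonneg_left (by positivity) (by positivity)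
    nlinarith
  have hsl : lam ^ 2 / s ^ 2 ≤ 1 / 100 := by
    rw [div_le_iff₀ (by positivity)]
    nlinarith
  have hne : ∀ b ∈ ball (b0 : ℂ) (s / 4), Complex.sin b ≠ 0 := by
    intro b hbb h
    have h1 := hsin b hbb
    rw [h, norm_zero] at h1
    linarith
  constructor
  · intro b hbb
    apply DifferentiableAt.differentiableWithinAt
    unfold rC
    have hd : DifferentiableAt ℂ (fun b : ℂ => 1 + (lam : ℂ) ^ 2 / (4 * Complex.sin b ^ 2)) b := by
      have := hne b hbb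
      fun_prop (disch := simpa using this)
    exact hd.cpow_const (wcu_slit _ (lt_of_le_of_lt (hw b hbb) (by linarith)))
  · intro b hbb
    exact ⟨hne b hbb, (wcu_half_sub _).trans (hw b hbb), wcu_half_sq _⟩

/-! ### The branch of the angle -/

/-- An entire function real on the real line commutes with conjugation. -/
theorem wcu_conj (f : ℂ → ℂ) (hf : Differentiable ℂ f) (hr : ∀ t : ℝ, (f t).im = 0) (z : ℂ) :
    f (starRingEnd ℂ z) = starRingEnd ℂ (f z) := by
  have hg : Differentiable ℂ (starRingEnd ℂ ∘ f ∘ starRingEnd ℂ) := by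
    intro x
    rw [differentiableAt_conj_conj_iff]
    exact hf _
  have h1 : AnalyticOnNhd ℂ f Set.univ := fun z _ => hf.analyticAt z
  have h2 : AnalyticOnNhd ℂ (starRingEnd ℂ ∘ f ∘ starRingEnd ℂ) Set.univ :=
    fun z _ => hg.analyticAt z
  have h3 : f = starRingEnd ℂ ∘ f ∘ starRingEnd ℂ := by
    apply h1.eq_of_frequently_eq h2 (z₀ := 0)
    have h4 : ∀ t : ℝ, f t = (starRingEnd ℂ ∘ f ∘ starRingEnd ℂ) t := by
      intro t
      simp only [Function.comp_apply, Complex.conj_ofReal]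
      exact (Complex.conj_eq_iff_im.2 (hr t)).symm
    rw [Filter.frequently_iff]
    intro U hU
    obtain ⟨e, he, hball⟩ := Metric.mem_nhdsWithin_iff.1 hU
    refine ⟨((e / 2 : ℝ) : ℂ), hball ⟨?_, ?_⟩, h4 _⟩
    · rw [mem_ball, dist_zero_right, Complex.norm_real, Real.norm_eq_abs,
        abs_of_pos (by positivity)]
      linarith
    · simp only [Set.mem_compl_iff, Set.mem_singleton_iff, Complex.ofReal_eq_zero]
      positivity
  have h5 := congrFun h3 (starRingEnd ℂ z)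
  simpa using h5

theorem wcu_branch (eta b0 : ℝ) (h0 : 0 < eta) (h1 : eta ≤ 1 / 2)
    (hs : 3 / 2 * eta ≤ Real.sin b0 ^ 2)
    (g : ℂ → ℂ) (hg : Differentiable ℂ g) (hc : ∀ z, g (starRingEnd ℂ z) = starRingEnd ℂ (g z))
    (hg0 : g 0 = ((Real.cos b0 : ℝ) : ℂ))
    (hv : ∀ z ∈ ball (0 : ℂ) 1, ‖g z - g 0‖ ≤ eta / 8) :
    ∃ F : ℂ → ℂ, DifferentiableOn ℂ F (ball 0 1) ∧ F 0 = b0 ∧
      ∀ z ∈ ball (0 : ℂ) 1, Complex.cos (F z) = g z ∧ ‖F z - b0‖ ≤ 1 ∧
        F (starRingEnd ℂ z) = starRingEnd ℂ (F z) := by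
  set S : ℂ := Complex.sin (b0 : ℂ) with hS
  have hSr : S = ((Real.sin b0 : ℝ) : ℂ) := by rw [hS, Complex.ofReal_sin]
  have hSn : ‖S‖ ^ 2 = Real.sin b0 ^ 2 := by
    rw [hSr, Complex.norm_real, Real.norm_eq_abs, sq_abs]
  have hSsq : 3 / 2 * eta ≤ ‖S‖ ^ 2 := by rw [hSn]; exact hs
  have hSlow : 17 / 10 * eta ≤ ‖S‖ := by
    by_contra hcon
    push Not at hcon
    nlinarith [norm_nonneg S]
  have hSpos : 0 < ‖S‖ := by linarith
  have hS0 : S ≠ 0 := norm_pos_iff.1 hSpos
  have hSC : S ^ 2 + (Complex.cos (b0 : ℂ)) ^ 2 = 1 := Complex.sin_sq_add_cos_sq _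
  have hg0' : g 0 = Complex.cos (b0 : ℂ) := by rw [hg0, Complex.ofReal_cos]
  have hcosn : ‖Complex.cos (b0 : ℂ)‖ ≤ 1 := by
    rw [← Complex.ofReal_cos, Complex.norm_real, Real.norm_eq_abs]
    exact Real.abs_cos_le_one b0
  -- the ratio
  set R : ℂ → ℂ := fun z => (1 - g z ^ 2) / S ^ 2 with hR
  have hRd : Differentiable ℂ R := by
    intro z
    have h2 := hg z
    exact ((differentiableAt_const _).sub (h2.pow 2)).div_const _
  have hR1 : ∀ z ∈ ball (0 : ℂ) 1, ‖R z - 1‖ * ‖S‖ ^ 2 ≤ 17 / 64 * eta := by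
    intro z hz
    have e1 : (R z - 1) * S ^ 2 = (g 0 - g z) * (g 0 + g z) := by
      rw [hR]
      simp only
      rw [sub_mul, div_mul_cancel₀ _ (pow_ne_zero 2 hS0), hg0']
      linear_combination -hSC
    rw [← norm_pow, ← norm_mul, e1, norm_mul, norm_sub_rev]
    have h2 := hv z hz
    have h3 : ‖g 0 + g z‖ ≤ 2 + 1 / 8 := by
      have h4 : g 0 + g z = 2 * g 0 + (g z - g 0) := by ring
      rw [h4]
      have h5 := norm_add_le (2 * g 0) (g z - g 0)
      rw [norm_mul] at h5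
      have h6 : ‖(2 : ℂ)‖ = 2 := by simp
      rw [h6, hg0'] at h5
      rw [hg0'] at h2 ⊢
      linarith
    nlinarith [norm_nonneg (g z - g 0), norm_nonneg (g 0 + g z)]
  have hR2 : ∀ z ∈ ball (0 : ℂ) 1, ‖R z - 1‖ ≤ 17 / 96 := by
    intro z hz
    have h2 := hR1 z hz
    by_contra hcon
    push Not at hcon
    nlinarith
  have hR3 : ∀ z ∈ ball (0 : ℂ) 1, R z ∈ Complex.slitPlane := by
    intro z hz
    exact wcu_slit _ (lt_of_le_of_lt (hR2 z hz) (by norm_num))
  have hRc : ∀ z, R (starRingEnd ℂ z) = starRingEnd ℂ (R z) := by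
    intro z
    rw [hR]
    simp only [map_div₀, map_sub, map_one, map_pow, hc]
    rw [hSr, Complex.conj_ofReal]
  -- the sine
  set e : ℂ → ℂ := fun z => S * (R z) ^ (1 / 2 : ℂ) with he
  have hed : DifferentiableOn ℂ e (ball 0 1) := by
    intro z hz
    exact ((hRd z).cpow_const (hR3 z hz)).const_mul S |>.differentiableWithinAt
  have hesq : ∀ z, e z ^ 2 = 1 - g z ^ 2 := by
    intro z
    rw [he]
    simp only
    rw [mul_pow, wcu_half_sq, hR]
    simp only
    rw [mul_div_cancel₀ _ (pow_ne_zero 2 hS0)]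
  have he0 : e 0 = S := by
    have h2 : R 0 = 1 := by
      rw [hR]
      simp only
      rw [hg0', div_eq_one_iff_eq (pow_ne_zero 2 hS0)]
      linear_combination -hSC
    rw [he]
    simp only
    rw [h2, Complex.one_cpow, mul_one]
  have he1 : ∀ z ∈ ball (0 : ℂ) 1, ‖e z - S‖ ≤ 1 / 6 := by
    intro z hz
    have h2 : e z - S = S * ((R z) ^ (1 / 2 : ℂ) - 1) := by
      rw [he]
      ring
    rw [h2, norm_mul]
    have h3 := wcu_half_sub (R z)
    have h4 := hR1 z hz
    have h5 : ‖S‖ * ‖(R z) ^ (1 / 2 : ℂ) - 1‖ ≤ ‖S‖ * ‖R z - 1‖ :=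
      mul_le_mul_of_nonneg_left h3 hSpos.le
    have h6 : ‖S‖ * ‖R z - 1‖ ≤ 1 / 6 := by
      by_contra hcon
      push Not at hcon
      nlinarith
    linarith
  have hec : ∀ z ∈ ball (0 : ℂ) 1, e (starRingEnd ℂ z) = starRingEnd ℂ (e z) := by
    intro z hz
    rw [he]
    simp only
    rw [hRc, wcu_half_conj _ (hR3 z hz), map_mul, hSr, Complex.conj_ofReal]
  -- the exponential
  set q : ℂ → ℂ := fun z => (g z + Complex.I * e z) * Complex.exp (-(b0 : ℂ) * Complex.I) with hq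
  set q' : ℂ → ℂ := fun z => (g z - Complex.I * e z) * Complex.exp ((b0 : ℂ) * Complex.I) with hq'
  have hee : Complex.exp (-(b0 : ℂ) * Complex.I) * Complex.exp ((b0 : ℂ) * Complex.I) = 1 := by
    rw [← Complex.exp_add]
    simp
  have hqq : ∀ z, q z * q' z = 1 := by
    intro z
    have h2 := hesq z
    have h3 : q z * q' z = (g z ^ 2 - Complex.I ^ 2 * e z ^ 2) *
        (Complex.exp (-(b0 : ℂ) * Complex.I) * Complex.exp ((b0 : ℂ) * Complex.I)) := by
      rw [hq, hq']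
      ring
    rw [h3, hee, Complex.I_sq, h2]
    ring
  have hq1 : ∀ z ∈ ball (0 : ℂ) 1, ‖q z - 1‖ ≤ 1 / 2 := by
    intro z hz
    have h2 : q z - 1 = ((g z - g 0) + Complex.I * (e z - S)) *
        Complex.exp (-(b0 : ℂ) * Complex.I) := by
      have h3 : Complex.exp ((b0 : ℂ) * Complex.I) = g 0 + Complex.I * S := by
        rw [Complex.exp_mul_I, hg0', hS]
        ring
      have h4 : (1 : ℂ) = (g 0 + Complex.I * S) * Complex.exp (-(b0 : ℂ) * Complex.I) := by
        rw [← h3, mul_comm, hee]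
      rw [hq]
      simp only
      conv_lhs => rw [h4]
      ring
    have n1 : ‖Complex.exp (-(b0 : ℂ) * Complex.I)‖ = 1 := by
      rw [show -(b0 : ℂ) * Complex.I = ((-b0 : ℝ) : ℂ) * Complex.I by push_cast; ring]
      exact Complex.norm_exp_ofReal_mul_I _
    rw [h2, norm_mul, n1, mul_one]
    have h5 := norm_add_le (g z - g 0) (Complex.I * (e z - S))
    rw [norm_mul, Complex.norm_I, one_mul] at h5
    have h6 := hv z hz
    have h7 := he1 z hz
    linarith
  have hqs : ∀ z ∈ ball (0 : ℂ) 1, q z ∈ Complex.slitPlane := by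
    intro z hz
    exact wcu_slit _ (lt_of_le_of_lt (hq1 z hz) (by norm_num))
  have hqne : ∀ z, q z ≠ 0 := by
    intro z h
    have := hqq z
    rw [h, zero_mul] at this
    exact zero_ne_one this
  have hq'e : ∀ z, q' z = (q z)⁻¹ := by
    intro z
    exact eq_inv_of_mul_eq_one_right (hqq z)
  have hqd : DifferentiableOn ℂ q (ball 0 1) := by
    rw [hq]
    exact (hg.differentiableOn.add (hed.const_mul _)).mul_const _
  have hqc : ∀ z ∈ ball (0 : ℂ) 1, q (starRingEnd ℂ z) = starRingEnd ℂ (q z)⁻¹ := by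
    intro z hz
    have hce : starRingEnd ℂ (Complex.exp ((b0 : ℂ) * Complex.I))
        = Complex.exp (-(b0 : ℂ) * Complex.I) := by
      rw [← Complex.exp_conj, map_mul, Complex.conj_I, Complex.conj_ofReal]
      congr 1
      ring
    have h2 : ∀ u w : ℂ, starRingEnd ℂ ((u - Complex.I * w) * Complex.exp ((b0 : ℂ) * Complex.I))
        = (starRingEnd ℂ u + Complex.I * starRingEnd ℂ w) *
          Complex.exp (-(b0 : ℂ) * Complex.I) := by
      intro u w
      rw [map_mul, map_sub, map_mul, Complex.conj_I, hce]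
      ring
    have h3 := h2 (g z) (e z)
    rw [← hc, ← hec z hz] at h3
    rw [← hq'e]
    exact h3.symm
  refine ⟨fun z => b0 - Complex.I * Complex.log (q z), ?_, ?_, ?_⟩
  · exact (differentiableOn_const _).sub ((hqd.clog hqs).const_mul _)
  · have h2 : q 0 = 1 := by
      rw [hq]
      simp only
      rw [he0, hg0']
      have h3 : Complex.cos (b0 : ℂ) + Complex.I * S = Complex.exp ((b0 : ℂ) * Complex.I) := by
        rw [Complex.exp_mul_I, hS]
        ring
      rw [h3, mul_comm, hee]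
    simp only
    rw [h2, Complex.log_one]
    ring
  · intro z hz
    refine ⟨?_, ?_, ?_⟩
    · have h2 : Complex.exp ((b0 - Complex.I * Complex.log (q z)) * Complex.I)
          = Complex.exp ((b0 : ℂ) * Complex.I) * q z := by
        have h3 : (b0 - Complex.I * Complex.log (q z)) * Complex.I
            = (b0 : ℂ) * Complex.I + Complex.log (q z) := by
          linear_combination -(Complex.log (q z)) * Complex.I_sq
        rw [h3, Complex.exp_add, Complex.exp_log (hqne z)]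
      have h4 : Complex.exp (-(b0 - Complex.I * Complex.log (q z)) * Complex.I)
          = Complex.exp (-(b0 : ℂ) * Complex.I) * q' z := by
        have h3 : -(b0 - Complex.I * Complex.log (q z)) * Complex.I
            = -(b0 : ℂ) * Complex.I - Complex.log (q z) := by
          linear_combination (Complex.log (q z)) * Complex.I_sq
        rw [h3, Complex.exp_sub, Complex.exp_log (hqne z), hq'e]
        rfl
      unfold Complex.cos
      rw [h2, h4, hq, hq']
      simp only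
      linear_combination (g z) * hee
    · have h2 : (b0 : ℂ) - Complex.I * Complex.log (q z) - b0 = -(Complex.I * Complex.log (q z)) := by
        ring
      rw [h2, norm_neg, norm_mul, Complex.norm_I, one_mul]
      have h3 := Complex.norm_log_one_add_half_le_self (hq1 z hz)
      rw [add_sub_cancel] at h3
      have h4 := hq1 z hz
      linarith
    · simp only
      rw [hqc z hz, Complex.log_conj, Complex.log_inv _ (Complex.slitPlane_arg_ne_pi (hqs z hz)),
        map_sub, map_mul, Complex.conj_I, Complex.conj_ofReal, map_neg]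
      · ring
      · have h2 := Complex.slitPlane_arg_ne_pi (hqs z hz)
        rw [Complex.arg_inv, if_neg h2]
        intro h3
        have h4 := Complex.neg_pi_lt_arg (q z)
        linarith

/-! ### The parameter as a function of the angle -/

theorem wcu_T (eta c : ℝ) (h0 : 0 < eta) (h1 : eta ≤ 1 / 2) (hc : 0 < c) :
    ∃ rho : ℝ, 0 < rho ∧ ∀ (y1 : ℂ → ℂ) (tau0 b0 : ℝ), Differentiable ℂ y1 →
      (∀ t : ℝ, (y1 t).im = 0) → ‖y1 tau0‖ ≤ 1 - eta → 0 < ‖deriv y1 tau0‖ →
      (∀ z : ℂ, ‖z - (tau0 : ℂ)‖ * ‖deriv y1 tau0‖ ≤ c → ‖y1 z - y1 tau0‖ ≤ eta / 8) →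
      y1 tau0 = ((Real.cos b0 : ℝ) : ℂ) →
      ∃ T : ℂ → ℂ, DifferentiableOn ℂ T (ball (b0 : ℂ) rho) ∧ T b0 = tau0 ∧
        (∀ b ∈ ball (b0 : ℂ) rho,
          ‖T b - tau0‖ * ‖deriv y1 tau0‖ ≤ c ∧ y1 (T b) = Complex.cos b ∧
          deriv T b ≠ 0 ∧ ‖deriv T b / deriv T b0 - 1‖ ≤ 1 / 2) ∧
        (∀ b : ℝ, (b : ℂ) ∈ ball (b0 : ℂ) rho → (T b).im = 0) := by
  obtain ⟨r, rho, hr0, hr2, -, hrho, hq⟩ := qinv 1 c 1 one_pos hc one_pos
  refine ⟨rho, hrho, ?_⟩
  intro y1 tau0 b0 hy hre hn hd hv hb0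
  set d : ℝ := ‖deriv y1 tau0‖ with hdd
  set k : ℝ := c / d with hk
  have hk0 : 0 < k := div_pos hc hd
  have hkd : k * d = c := div_mul_cancel₀ _ hd.ne'
  set g : ℂ → ℂ := fun u => y1 (tau0 + k * u) with hg
  have hlin : ∀ u : ℂ, HasDerivAt (fun u : ℂ => (tau0 : ℂ) + k * u) (k : ℂ) u := by
    intro u
    simpa using ((hasDerivAt_id u).const_mul (k : ℂ)).const_add (tau0 : ℂ)
  have hgd : Differentiable ℂ g := by
    intro u
    exact (hy _).comp u (hlin u).differentiableAt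
  have hgc : ∀ z, g (starRingEnd ℂ z) = starRingEnd ℂ (g z) := by
    intro z
    rw [hg]
    simp only
    rw [← wcu_conj y1 hy hre, map_add, map_mul, Complex.conj_ofReal, Complex.conj_ofReal]
  have hg0 : g 0 = y1 tau0 := by
    rw [hg]
    simp
  have hkn : ∀ u : ℂ, ‖(tau0 : ℂ) + k * u - tau0‖ * d = c * ‖u‖ := by
    intro u
    rw [add_sub_cancel_left, norm_mul, Complex.norm_real, Real.norm_eq_abs, abs_of_pos hk0, ← hkd]
    ring
  have hgv : ∀ z ∈ ball (0 : ℂ) 1, ‖g z - g 0‖ ≤ eta / 8 := by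
    intro z hz
    rw [mem_ball, dist_zero_right] at hz
    rw [hg0]
    apply hv
    rw [hkn]
    nlinarith
  have hsin : 3 / 2 * eta ≤ Real.sin b0 ^ 2 := by
    rw [hb0, Complex.norm_real, Real.norm_eq_abs] at hn
    have h2 := Real.sin_sq_add_cos_sq b0
    have h3 : Real.cos b0 ^ 2 ≤ (1 - eta) ^ 2 := by
      rw [← sq_abs (Real.cos b0)]
      exact pow_le_pow_left₀ (abs_nonneg _) hn 2
    nlinarith
  obtain ⟨F, hFd, hF0, hF⟩ := wcu_branch eta b0 h0 h1 hsin g hgd hgc (hg0.trans hb0) hgv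
  have h0mem : (0 : ℂ) ∈ ball (0 : ℂ) 1 := mem_ball_self one_pos
  have hFat : ∀ z ∈ ball (0 : ℂ) 1, DifferentiableAt ℂ F z := fun z hz =>
    hFd.differentiableAt (isOpen_ball.mem_nhds hz)
  -- the derivative at the center
  have hder : -Complex.sin (b0 : ℂ) * deriv F 0 = deriv y1 tau0 * k := by
    have e1 : HasDerivAt (fun z => Complex.cos (F z)) (-Complex.sin (F 0) * deriv F 0) 0 :=
      (hFat 0 h0mem).hasDerivAt.ccos
    have e2 : HasDerivAt g (deriv y1 tau0 * k) 0 := by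
      have h2 : HasDerivAt y1 (deriv y1 tau0) ((tau0 : ℂ) + k * 0) := by
        rw [mul_zero, add_zero]
        exact (hy _).hasDerivAt
      exact h2.comp (0 : ℂ) (hlin 0)
    have e3 : HasDerivAt (fun z => Complex.cos (F z)) (deriv y1 tau0 * k) 0 := by
      apply e2.congr_of_eventuallyEq
      filter_upwards [isOpen_ball.mem_nhds h0mem] with z hz
      exact (hF z hz).1
    have e4 := e1.unique e3
    rwa [hF0] at e4
  have hcF : c ≤ ‖deriv F 0‖ := by
    have h2 := congrArg norm hder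
    rw [norm_mul, norm_mul, norm_neg, Complex.norm_real k, Real.norm_eq_abs, abs_of_pos hk0, ← hdd,
      mul_comm d, hkd] at h2
    have h3 : ‖Complex.sin (b0 : ℂ)‖ ≤ 1 := by
      rw [← Complex.ofReal_sin, Complex.norm_real, Real.norm_eq_abs]
      exact Real.abs_sin_le_one b0
    nlinarith [norm_nonneg (deriv F 0)]
  obtain ⟨hinj, T0, hTd, hT0, hT⟩ := hq F hFd (fun z hz => by
    rw [hF0]
    exact (hF z hz).2.1) hcF
  rw [hF0] at hTd hT0 hT
  have hbmem : (b0 : ℂ) ∈ ball (b0 : ℂ) rho := mem_ball_self hrho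
  have hTat : ∀ z ∈ ball (b0 : ℂ) rho, DifferentiableAt ℂ T0 z := fun z hz =>
    hTd.differentiableAt (isOpen_ball.mem_nhds hz)
  have hsub : ∀ z ∈ ball (0 : ℂ) r, z ∈ ball (0 : ℂ) 1 := fun z hz =>
    ball_subset_ball (by linarith) hz
  have hTF : deriv F 0 * deriv T0 b0 = 1 := by
    have e1 : HasDerivAt (fun w => F (T0 w)) (deriv F 0 * deriv T0 b0) (b0 : ℂ) := by
      have h2 : HasDerivAt F (deriv F 0) (T0 b0) := by
        rw [hT0]
        exact (hFat 0 h0mem).hasDerivAt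
      exact h2.comp (b0 : ℂ) (hTat _ hbmem).hasDerivAt
    have e2 : HasDerivAt (fun w => F (T0 w)) 1 (b0 : ℂ) := by
      apply (hasDerivAt_id (b0 : ℂ)).congr_of_eventuallyEq
      filter_upwards [isOpen_ball.mem_nhds hbmem] with z hz
      exact (hT z hz).2.1
    exact e1.unique e2
  have hkC : (k : ℂ) ≠ 0 := Complex.ofReal_ne_zero.2 hk0.ne'
  have hdT : ∀ b ∈ ball (b0 : ℂ) rho,
      HasDerivAt (fun b => (tau0 : ℂ) + k * T0 b) (k * deriv T0 b) b := by
    intro b hb
    exact ((hTat b hb).hasDerivAt.const_mul (k : ℂ)).const_add (tau0 : ℂ)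
  refine ⟨fun b => tau0 + k * T0 b, ?_, ?_, ?_, ?_⟩
  · intro b hb
    exact (hdT b hb).differentiableAt.differentiableWithinAt
  · simp only
    rw [hT0, mul_zero, add_zero]
  · intro b hb
    obtain ⟨h2, h3, h4, h5⟩ := hT b hb
    refine ⟨?_, ?_, ?_, ?_⟩
    · rw [hkn]
      have h6 := hsub _ h2
      rw [mem_ball, dist_zero_right] at h6
      nlinarith
    · have h6 := (hF _ (hsub _ h2)).1
      rw [h3] at h6
      exact h6.symm
    · rw [(hdT b hb).deriv]
      exact mul_ne_zero hkC h4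
    · rw [(hdT b hb).deriv, (hdT _ hbmem).deriv, mul_div_mul_left _ _ hkC,
        div_eq_mul_inv, ← eq_inv_of_mul_eq_one_left hTF]
      exact h5
  · intro b hb
    obtain ⟨h2, h3, -, -⟩ := hT b hb
    have h4 := (hF _ (hsub _ h2)).2.2
    have h5 : starRingEnd ℂ (T0 b) ∈ ball (0 : ℂ) r := by
      rw [mem_ball, dist_zero_right] at h2 ⊢
      rwa [Complex.norm_conj]
    have h6 : starRingEnd ℂ (T0 b) = T0 b := by
      apply hinj h5 h2
      rw [h4, h3, Complex.conj_ofReal]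
    have h7 : (T0 b).im = 0 := Complex.conj_eq_iff_im.1 h6
    simp [h7]

/-! ### The coordinate -/

theorem wcu_p (eta rho lam b0 p0 : ℝ) (h0 : 0 < eta) (h1 : eta ≤ 1 / 2) (hrho : 0 < rho)
    (hrho1 : rho ≤ eta / 100) (hl0 : 0 ≤ lam) (hl : lam ≤ eta / 20) (u0 u2 : ℂ → ℂ)
    (hd0 : DifferentiableOn ℂ u0 (ball (b0 : ℂ) rho))
    (hd2 : DifferentiableOn ℂ u2 (ball (b0 : ℂ) rho))
    (hinv : ∀ b ∈ ball (b0 : ℂ) rho, u2 b ^ 2 + Complex.cos b ^ 2 + u0 b ^ 2
      - 2 * u2 b * Complex.cos b * u0 b = 1 + (lam : ℂ) ^ 2 / 4)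
    (hv : ∀ b ∈ ball (b0 : ℂ) rho, ‖u0 b - u0 b0‖ ≤ eta / 8 ∧
      ‖Complex.cos b - Complex.cos b0‖ ≤ eta / 8 ∧ ‖u2 b - u2 b0‖ ≤ eta / 8)
    (hn0 : ‖u0 b0‖ ≤ 1 - eta) (hn1 : ‖Complex.cos (b0 : ℂ)‖ ≤ 1 - eta)
    (e0 : u0 b0 = ((rr lam b0 * Real.cos p0 : ℝ) : ℂ))
    (e2 : u2 b0 = ((rr lam b0 * Real.cos (p0 + b0) : ℝ) : ℂ))
    (hre : ∀ b : ℝ, (b : ℂ) ∈ ball (b0 : ℂ) rho → (u0 b).im = 0 ∧ (u2 b).im = 0) :
    ∃ p : ℂ → ℂ, DifferentiableOn ℂ p (ball (b0 : ℂ) rho) ∧ p b0 = p0 ∧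
      (∀ b ∈ ball (b0 : ℂ) rho, u0 b = rC lam b * Complex.cos (p b) ∧
        u2 b = rC lam b * Complex.cos (p b + b) ∧ ‖p b - p0‖ ≤ 1) ∧
      (∀ b : ℝ, (b : ℂ) ∈ ball (b0 : ℂ) rho → (p b).im = 0) := by
  have hbmem : (b0 : ℂ) ∈ ball (b0 : ℂ) rho := mem_ball_self hrho
  -- the sine
  have hSsq : 3 / 2 * eta ≤ |Real.sin b0| ^ 2 := by
    rw [← Complex.ofReal_cos, Complex.norm_real, Real.norm_eq_abs] at hn1
    have h2 := Real.sin_sq_add_cos_sq b0
    have h3 : Real.cos b0 ^ 2 ≤ (1 - eta) ^ 2 := by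
      rw [← sq_abs (Real.cos b0)]
      exact pow_le_pow_left₀ (abs_nonneg _) hn1 2
    rw [sq_abs]
    nlinarith
  have hSlow : 17 / 10 * eta ≤ |Real.sin b0| := by
    by_contra hcon
    push Not at hcon
    nlinarith [abs_nonneg (Real.sin b0)]
  have hS0 : Real.sin b0 ≠ 0 := by
    intro h
    rw [h, abs_zero] at hSlow
    linarith
  obtain ⟨hrd, hr⟩ := rC_holo lam b0 eta h0 (by linarith) hl0 (by linarith)
  have hsub : ball (b0 : ℂ) rho ⊆ ball (b0 : ℂ) (eta / 4) := ball_subset_ball (by linarith)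
  have hrd' := hrd.mono hsub
  have hrl : lam ^ 2 / eta ^ 2 ≤ 1 / 400 := by
    rw [div_le_iff₀ (by positivity)]
    nlinarith
  have hsne : ∀ b ∈ ball (b0 : ℂ) rho, Complex.sin b ≠ 0 := fun b hb => (hr b (hsub hb)).1
  have hr1 : ∀ b ∈ ball (b0 : ℂ) rho, ‖rC lam b - 1‖ ≤ 1 / 400 := fun b hb =>
    (hr b (hsub hb)).2.1.trans hrl
  have hrsq : ∀ b ∈ ball (b0 : ℂ) rho, rC lam b ^ 2 = 1 + (lam : ℂ) ^ 2 / (4 * Complex.sin b ^ 2) :=
    fun b hb => (hr b (hsub hb)).2.2
  have hrn : ∀ b ∈ ball (b0 : ℂ) rho, 399 / 400 ≤ ‖rC lam b‖ := by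
    intro b hb
    have h2 := norm_sub_norm_le (1 : ℂ) (rC lam b)
    rw [norm_sub_rev, norm_one] at h2
    have h3 := hr1 b hb
    linarith
  have hrne : ∀ b ∈ ball (b0 : ℂ) rho, rC lam b ≠ 0 := by
    intro b hb h
    have h2 := hrn b hb
    rw [h, norm_zero] at h2
    linarith
  have hrC0 : rC lam b0 = ((rr lam b0 : ℝ) : ℂ) := rC_ofReal lam b0 hS0
  have hsn0 : ‖Complex.sin (b0 : ℂ)‖ = |Real.sin b0| := by
    rw [← Complex.ofReal_sin, Complex.norm_real, Real.norm_eq_abs]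
  have hsd : ∀ b ∈ ball (b0 : ℂ) rho, ‖Complex.sin b - Complex.sin b0‖ ≤ eta / 80 := by
    intro b hb
    rw [mem_ball, dist_eq_norm] at hb
    have h2 := wcu_sin b b0 (by linarith)
    linarith
  have hslow : ∀ b ∈ ball (b0 : ℂ) rho, 168 / 100 * eta ≤ ‖Complex.sin b‖ := by
    intro b hb
    have h2 := norm_sub_norm_le (Complex.sin (b0 : ℂ)) (Complex.sin b)
    rw [norm_sub_rev] at h2
    have h3 := hsd b hb
    linarith
  -- the factors
  set N : ℂ → ℂ := fun b => u0 b * Complex.cos b - u2 b with hN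
  set Y : ℂ → ℂ := fun b => N b / Complex.sin b with hY
  have hYs : ∀ b ∈ ball (b0 : ℂ) rho, Y b * Complex.sin b = N b := by
    intro b hb
    rw [hY]
    simp only
    rw [div_mul_cancel₀ _ (hsne b hb)]
  have hYd : DifferentiableOn ℂ Y (ball (b0 : ℂ) rho) := by
    rw [hY, hN]
    apply DifferentiableOn.div
    · exact (hd0.mul Complex.differentiable_cos.differentiableOn).sub hd2
    · exact Complex.differentiable_sin.differentiableOn
    · exact hsne
  have hN0 : Y b0 = ((rr lam b0 * Real.sin p0 : ℝ) : ℂ) := by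
    have h2 := hYs b0 hbmem
    apply mul_right_cancel₀ (hsne b0 hbmem)
    rw [h2, hN]
    simp only
    rw [e0, e2, Real.cos_add]
    push_cast
    ring
  have hYn0 : ‖Y b0‖ ≤ 401 / 400 := by
    rw [hN0]
    push_cast
    rw [← hrC0, norm_mul, ← Complex.ofReal_sin, Complex.norm_real, Real.norm_eq_abs]
    have h2 := Real.abs_sin_le_one p0
    have h3 := norm_add_le (rC lam b0 - 1) 1
    rw [sub_add_cancel, norm_one] at h3
    have h4 := hr1 b0 hbmem
    nlinarith [norm_nonneg (rC lam b0)]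
  have hNd : ∀ b ∈ ball (b0 : ℂ) rho, ‖N b - N b0‖ ≤ 3 / 8 * eta := by
    intro b hb
    obtain ⟨h2, h3, h4⟩ := hv b hb
    have h5 : N b - N b0 = (u0 b - u0 b0) * Complex.cos b + u0 b0 * (Complex.cos b - Complex.cos b0)
        - (u2 b - u2 b0) := by
      rw [hN]
      ring
    have h6 : ‖Complex.cos b‖ ≤ 1 := by
      have h7 := norm_add_le (Complex.cos b - Complex.cos b0) (Complex.cos b0)
      rw [sub_add_cancel] at h7
      linarith
    rw [h5]
    have h7 := norm_sub_le ((u0 b - u0 b0) * Complex.cos b +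
      u0 b0 * (Complex.cos b - Complex.cos b0)) (u2 b - u2 b0)
    have h8 := norm_add_le ((u0 b - u0 b0) * Complex.cos b)
      (u0 b0 * (Complex.cos b - Complex.cos b0))
    rw [norm_mul, norm_mul] at h8
    have h9 : ‖u0 b - u0 b0‖ * ‖Complex.cos b‖ ≤ eta / 8 := by
      nlinarith [norm_nonneg (u0 b - u0 b0), norm_nonneg (Complex.cos b)]
    have h10 : ‖u0 b0‖ * ‖Complex.cos b - Complex.cos b0‖ ≤ eta / 8 := by
      nlinarith [norm_nonneg (u0 b0), norm_nonneg (Complex.cos b - Complex.cos b0)]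
    linarith
  have hYv : ∀ b ∈ ball (b0 : ℂ) rho, ‖Y b - Y b0‖ ≤ 24 / 100 := by
    intro b hb
    have h2 : (Y b - Y b0) * Complex.sin b
        = (N b - N b0) - Y b0 * (Complex.sin b - Complex.sin b0) := by
      have h3 := hYs b hb
      have h4 := hYs b0 hbmem
      linear_combination h3 - h4
    have h3 := congrArg norm h2
    rw [norm_mul] at h3
    have h4 := norm_sub_le (N b - N b0) (Y b0 * (Complex.sin b - Complex.sin b0))
    rw [norm_mul] at h4
    have h5 := hNd b hb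
    have h6 := hsd b hb
    have h7 : ‖Y b0‖ * ‖Complex.sin b - Complex.sin b0‖ ≤ 401 / 400 * (eta / 80) :=
      mul_le_mul hYn0 h6 (norm_nonneg _) (by norm_num)
    have h8 := hslow b hb
    by_contra hcon
    push Not at hcon
    nlinarith
  set Z : ℂ → ℂ := fun b => u0 b + Complex.I * Y b with hZ
  set Z' : ℂ → ℂ := fun b => u0 b - Complex.I * Y b with hZ'
  have hZZ : ∀ b ∈ ball (b0 : ℂ) rho, Z b * Z' b = rC lam b ^ 2 := by
    intro b hb
    have h2 := hYs b hb
    have h3 := hinv b hb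
    have h4 := Complex.sin_sq_add_cos_sq b
    have h5 : Y b ^ 2 * Complex.sin b ^ 2 = (Complex.sin b) ^ 2 * (1 - u0 b ^ 2)
        + (lam : ℂ) ^ 2 / 4 := by
      rw [← mul_pow, h2, hN]
      simp only
      linear_combination h3 - (1 - u0 b ^ 2) * h4
    have h6 : Z b * Z' b = u0 b ^ 2 + Y b ^ 2 := by
      rw [hZ, hZ']
      simp only
      linear_combination -(Y b ^ 2) * Complex.I_sq
    rw [h6, hrsq b hb]
    have h7 := hsne b hb
    field_simp
    linear_combination 4 * h5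
  have hee : Complex.exp (-(p0 : ℂ) * Complex.I) * Complex.exp ((p0 : ℂ) * Complex.I) = 1 := by
    rw [← Complex.exp_add]
    simp
  have hZ0 : Z b0 = rC lam b0 * Complex.exp ((p0 : ℂ) * Complex.I) := by
    rw [hZ]
    simp only
    rw [e0, hN0, hrC0, Complex.exp_mul_I]
    push_cast
    ring
  set q : ℂ → ℂ := fun b => Z b / rC lam b * Complex.exp (-(p0 : ℂ) * Complex.I) with hq
  set q' : ℂ → ℂ := fun b => Z' b / rC lam b * Complex.exp ((p0 : ℂ) * Complex.I) with hq'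
  have hqq : ∀ b ∈ ball (b0 : ℂ) rho, q b * q' b = 1 := by
    intro b hb
    have h2 := hZZ b hb
    have h3 := hrne b hb
    have h4 : q b * q' b = (Z b * Z' b) / rC lam b ^ 2 *
        (Complex.exp (-(p0 : ℂ) * Complex.I) * Complex.exp ((p0 : ℂ) * Complex.I)) := by
      rw [hq, hq']
      simp only
      field_simp
    rw [h4, h2, hee, mul_one, div_self (pow_ne_zero 2 h3)]
  have n1 : ‖Complex.exp (-(p0 : ℂ) * Complex.I)‖ = 1 := by
    rw [show -(p0 : ℂ) * Complex.I = ((-p0 : ℝ) : ℂ) * Complex.I by push_cast; ring]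
    exact Complex.norm_exp_ofReal_mul_I _
  have n2 : ‖Complex.exp ((p0 : ℂ) * Complex.I)‖ = 1 := Complex.norm_exp_ofReal_mul_I _
  have hq1 : ∀ b ∈ ball (b0 : ℂ) rho, ‖q b - 1‖ ≤ 1 / 2 := by
    intro b hb
    have h3 := hrne b hb
    have h4 : (q b - 1) * rC lam b = ((u0 b - u0 b0) + Complex.I * (Y b - Y b0)
        + (rC lam b0 - rC lam b) * Complex.exp ((p0 : ℂ) * Complex.I))
        * Complex.exp (-(p0 : ℂ) * Complex.I) := by
      have h5 : q b * rC lam b = (u0 b + Complex.I * Y b) * Complex.exp (-(p0 : ℂ) * Complex.I) := by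
        rw [hq, hZ]
        simp only
        field_simp
      have h6 : u0 b0 + Complex.I * Y b0 = rC lam b0 * Complex.exp ((p0 : ℂ) * Complex.I) := hZ0
      linear_combination h5 + Complex.exp (-(p0 : ℂ) * Complex.I) * h6 + rC lam b * hee
    have h5 := congrArg norm h4
    rw [norm_mul, norm_mul, n1, mul_one] at h5
    have h6 := norm_add_le ((u0 b - u0 b0) + Complex.I * (Y b - Y b0))
      ((rC lam b0 - rC lam b) * Complex.exp ((p0 : ℂ) * Complex.I))
    rw [norm_mul, n2, mul_one] at h6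
    have h7 := norm_add_le (u0 b - u0 b0) (Complex.I * (Y b - Y b0))
    rw [norm_mul, Complex.norm_I, one_mul] at h7
    have h8 : ‖rC lam b0 - rC lam b‖ ≤ 1 / 400 + 1 / 400 := by
      have h9 : rC lam b0 - rC lam b = (rC lam b0 - 1) - (rC lam b - 1) := by ring
      rw [h9]
      exact (norm_sub_le _ _).trans (add_le_add (hr1 _ hbmem) (hr1 b hb))
    have h9 := (hv b hb).1
    have h10 := hYv b hb
    have h11 := hrn b hb
    by_contra hcon
    push Not at hcon
    nlinarith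
  have hqs : ∀ b ∈ ball (b0 : ℂ) rho, q b ∈ Complex.slitPlane := by
    intro b hb
    exact wcu_slit _ (lt_of_le_of_lt (hq1 b hb) (by norm_num))
  have hqne : ∀ b ∈ ball (b0 : ℂ) rho, q b ≠ 0 := by
    intro b hb h
    have := hqq b hb
    rw [h, zero_mul] at this
    exact zero_ne_one this
  have hq'e : ∀ b ∈ ball (b0 : ℂ) rho, q' b = (q b)⁻¹ := by
    intro b hb
    exact eq_inv_of_mul_eq_one_right (hqq b hb)
  have hqd : DifferentiableOn ℂ q (ball (b0 : ℂ) rho) := by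
    rw [hq]
    exact ((hd0.add (hYd.const_mul _)).div hrd' hrne).mul_const _
  refine ⟨fun b => p0 - Complex.I * Complex.log (q b), ?_, ?_, ?_, ?_⟩
  · exact (differentiableOn_const _).sub ((hqd.clog hqs).const_mul _)
  · have h2 : q b0 = 1 := by
      rw [hq]
      simp only
      rw [hZ0, mul_div_cancel_left₀ _ (hrne _ hbmem), mul_comm, hee]
    simp only
    rw [h2, Complex.log_one]
    ring
  · intro b hb
    simp only
    have x1 : Complex.exp ((p0 - Complex.I * Complex.log (q b)) * Complex.I)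
        = Complex.exp ((p0 : ℂ) * Complex.I) * q b := by
      have h3 : (p0 - Complex.I * Complex.log (q b)) * Complex.I
          = (p0 : ℂ) * Complex.I + Complex.log (q b) := by
        linear_combination -(Complex.log (q b)) * Complex.I_sq
      rw [h3, Complex.exp_add, Complex.exp_log (hqne b hb)]
    have x2 : Complex.exp (-(p0 - Complex.I * Complex.log (q b)) * Complex.I)
        = Complex.exp (-(p0 : ℂ) * Complex.I) * q' b := by
      have h3 : -(p0 - Complex.I * Complex.log (q b)) * Complex.I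
          = -(p0 : ℂ) * Complex.I - Complex.log (q b) := by
        linear_combination (Complex.log (q b)) * Complex.I_sq
      rw [h3, Complex.exp_sub, Complex.exp_log (hqne b hb), hq'e b hb]
      rfl
    have hrb := hrne b hb
    have x3 : rC lam b * (Complex.exp ((p0 : ℂ) * Complex.I) * q b) = Z b := by
      have h5 : rC lam b * (Complex.exp ((p0 : ℂ) * Complex.I) * q b) = (Z b / rC lam b * rC lam b) *
          (Complex.exp (-(p0 : ℂ) * Complex.I) * Complex.exp ((p0 : ℂ) * Complex.I)) := by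
        rw [hq]
        ring
      rw [h5, div_mul_cancel₀ _ hrb, hee, mul_one]
    have x4 : rC lam b * (Complex.exp (-(p0 : ℂ) * Complex.I) * q' b) = Z' b := by
      have h5 : rC lam b * (Complex.exp (-(p0 : ℂ) * Complex.I) * q' b) = (Z' b / rC lam b * rC lam b) *
          (Complex.exp (-(p0 : ℂ) * Complex.I) * Complex.exp ((p0 : ℂ) * Complex.I)) := by
        rw [hq']
        ring
      rw [h5, div_mul_cancel₀ _ hrb, hee, mul_one]
    have c1 : rC lam b * Complex.cos (p0 - Complex.I * Complex.log (q b)) = u0 b := by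
      unfold Complex.cos
      rw [x1, x2]
      have h5 : Z b + Z' b = 2 * u0 b := by
        rw [hZ, hZ']
        ring
      linear_combination (x3 + x4 + h5) / 2
    have c2 : rC lam b * Complex.sin (p0 - Complex.I * Complex.log (q b)) = Y b := by
      unfold Complex.sin
      rw [x1, x2]
      have h5 : Z b - Z' b = 2 * Complex.I * Y b := by
        rw [hZ, hZ']
        ring
      linear_combination (x4 - x3 - h5) * Complex.I / 2 - (Y b) * Complex.I_sq
    refine ⟨c1.symm, ?_, ?_⟩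
    · rw [Complex.cos_add]
      have h5 := hYs b hb
      have h6 : N b = u0 b * Complex.cos b - u2 b := rfl
      linear_combination Complex.sin b * c2 - Complex.cos b * c1 + h5 + h6
    · have h2 : (p0 : ℂ) - Complex.I * Complex.log (q b) - p0 = -(Complex.I * Complex.log (q b)) := by
        ring
      rw [h2, norm_neg, norm_mul, Complex.norm_I, one_mul]
      have h3 := Complex.norm_log_one_add_half_le_self (hq1 b hb)
      rw [add_sub_cancel] at h3
      have h4 := hq1 b hb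
      linarith
  · intro b hb
    simp only
    obtain ⟨h2, h3⟩ := hre b hb
    have hsb : Real.sin b ≠ 0 := by
      intro h
      apply hsne b hb
      rw [← Complex.ofReal_sin, h, Complex.ofReal_zero]
    have k0 : starRingEnd ℂ (u0 b) = u0 b := Complex.conj_eq_iff_im.2 h2
    have k2 : starRingEnd ℂ (u2 b) = u2 b := Complex.conj_eq_iff_im.2 h3
    have kc : starRingEnd ℂ (Complex.cos b) = Complex.cos b := by
      rw [← Complex.ofReal_cos, Complex.conj_ofReal]
    have ks : starRingEnd ℂ (Complex.sin b) = Complex.sin b := by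
      rw [← Complex.ofReal_sin, Complex.conj_ofReal]
    have kY : starRingEnd ℂ (Y b) = Y b := by
      rw [hY, hN]
      simp only
      rw [map_div₀, map_sub, map_mul, k0, k2, kc, ks]
    have kZ : starRingEnd ℂ (Z b) = Z' b := by
      rw [hZ, hZ']
      simp only
      rw [map_add, map_mul, k0, kY, Complex.conj_I]
      ring
    have kr : starRingEnd ℂ (rC lam b) = rC lam b := by
      rw [rC_ofReal lam b hsb, Complex.conj_ofReal]
    have kq : starRingEnd ℂ (q b) = q' b := by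
      rw [hq, hq']
      simp only
      rw [map_mul, map_div₀, kZ, kr, ← Complex.exp_conj, map_mul, Complex.conj_I, map_neg,
        Complex.conj_ofReal]
      congr 2
      ring
    have h4 : Complex.normSq (q b) = 1 := by
      have h5 := hqq b hb
      rw [← kq, Complex.mul_conj] at h5
      exact_mod_cast h5
    have h5 : ‖q b‖ = 1 := by
      rw [Complex.normSq_eq_norm_sq] at h4
      have h6 : (‖q b‖ - 1) * (‖q b‖ + 1) = 0 := by linear_combination h4
      have h7 := norm_nonneg (q b)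
      rcases mul_eq_zero.1 h6 with h | h <;> linarith
    simp [Complex.log_re, h5]

theorem curve (eta c : ℝ) (h0 : 0 < eta) (h1 : eta ≤ 1 / 2) (hc : 0 < c) :
    ∃ rho : ℝ, 0 < rho ∧ ∀ (lam : ℝ), 0 ≤ lam → lam ≤ eta / 20 →
      ∀ (y0 y1 y2 : ℂ → ℂ) (tau0 b0 p0 : ℝ),
      Differentiable ℂ y0 → Differentiable ℂ y1 → Differentiable ℂ y2 →
      (∀ t : ℝ, (y0 t).im = 0 ∧ (y1 t).im = 0 ∧ (y2 t).im = 0) →
      (∀ z, y2 z ^ 2 + y1 z ^ 2 + y0 z ^ 2 - 2 * y2 z * y1 z * y0 z = 1 + (lam : ℂ) ^ 2 / 4) →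
      ‖y0 tau0‖ ≤ 1 - eta → ‖y1 tau0‖ ≤ 1 - eta → ‖y2 tau0‖ ≤ 1 - eta →
      0 < ‖deriv y1 tau0‖ →
      (∀ z : ℂ, ‖z - (tau0 : ℂ)‖ * ‖deriv y1 tau0‖ ≤ c →
        ‖y0 z - y0 tau0‖ ≤ eta / 8 ∧ ‖y1 z - y1 tau0‖ ≤ eta / 8 ∧ ‖y2 z - y2 tau0‖ ≤ eta / 8) →
      y1 tau0 = ((Real.cos b0 : ℝ) : ℂ) → y0 tau0 = ((rr lam b0 * Real.cos p0 : ℝ) : ℂ) →
      y2 tau0 = ((rr lam b0 * Real.cos (p0 + b0) : ℝ) : ℂ) →
      ∃ T p : ℂ → ℂ, DifferentiableOn ℂ T (ball (b0 : ℂ) rho) ∧
        DifferentiableOn ℂ p (ball (b0 : ℂ) rho) ∧ T b0 = tau0 ∧ p b0 = p0 ∧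
        (∀ b ∈ ball (b0 : ℂ) rho,
          ‖T b - tau0‖ * ‖deriv y1 tau0‖ ≤ c ∧ y1 (T b) = Complex.cos b ∧
          y0 (T b) = rC lam b * Complex.cos (p b) ∧ y2 (T b) = rC lam b * Complex.cos (p b + b) ∧
          deriv T b ≠ 0 ∧ ‖deriv T b / deriv T b0 - 1‖ ≤ 1 / 2 ∧ ‖p b - p0‖ ≤ 1) ∧
        (∀ b : ℝ, (b : ℂ) ∈ ball (b0 : ℂ) rho → (T b).im = 0 ∧ (p b).im = 0) := by
  obtain ⟨rho, hrho, hT⟩ := wcu_T eta c h0 h1 hc
  have hpos : 0 < min rho (eta / 100) := lt_min hrho (by positivity)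
  refine ⟨min rho (eta / 100), hpos, ?_⟩
  intro lam hl0 hl y0 y1 y2 tau0 b0 p0 hd0 hd1 hd2 hre hinv hn0 hn1 hn2 hd hv e1 e0 e2
  obtain ⟨T, hTd, hT0, hTb, hTr⟩ := hT y1 tau0 b0 hd1 (fun t => (hre t).2.1) hn1 hd
    (fun z hz => (hv z hz).2.1) e1
  have hsub : ball (b0 : ℂ) (min rho (eta / 100)) ⊆ ball (b0 : ℂ) rho :=
    ball_subset_ball (min_le_left _ _)
  have hcos0 : y1 tau0 = Complex.cos (b0 : ℂ) := by rw [e1, Complex.ofReal_cos]
  have hTd' := hTd.mono hsub
  obtain ⟨p, hpd, hp0, hpb, hpr⟩ := wcu_p eta (min rho (eta / 100)) lam b0 p0 h0 h1 hpos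
    (min_le_right _ _) hl0 hl (fun b => y0 (T b)) (fun b => y2 (T b))
    (fun b hb => (hd0 _).comp_differentiableWithinAt b (hTd' b hb))
    (fun b hb => (hd2 _).comp_differentiableWithinAt b (hTd' b hb))
    (fun b hb => by
      have h2 := (hTb b (hsub hb)).2.1
      have h3 := hinv (T b)
      rw [h2] at h3
      exact h3)
    (fun b hb => by
      obtain ⟨h2, h3, -, -⟩ := hTb b (hsub hb)
      obtain ⟨h4, h5, h6⟩ := hv (T b) h2
      rw [h3, hcos0] at h5
      rw [hT0]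
      exact ⟨h4, h5, h6⟩)
    (by rw [hT0]; exact hn0)
    (by rw [← hcos0]; exact hn1)
    (by rw [hT0]; exact e0)
    (by rw [hT0]; exact e2)
    (fun b hb => by
      have h2 := hTr b (hsub hb)
      have h3 : T b = (((T b).re : ℝ) : ℂ) := Complex.ext rfl (by simpa using h2)
      have h4 := hre (T b).re
      rw [← h3] at h4
      exact ⟨h4.1, h4.2.2⟩)
  refine ⟨T, p, hTd', hpd, hT0, hp0, ?_, ?_⟩
  · intro b hb
    obtain ⟨h2, h3, h4, h5⟩ := hTb b (hsub hb)
    obtain ⟨h6, h7, h8⟩ := hpb b hb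
    exact ⟨h2, h3, h6, h7, h4, h5, h8⟩
  · intro b hb
    exact ⟨hTr b (hsub hb), hpr b hb⟩

end SF
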