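import Pool.Agent.Helper65.SF.F6
import Pool.Agent.Helper65.SF.F7
import Pool.Agent.Helper65.SF.WCU

/-!
# SF-W: analytic curves and words, definitions
-/

namespace SF

open Metric

/-- Level `l` is `c0`-good for the angle sequence `th`: seven consecutive sines are not small. -/
def Good (c0 : ℝ) (th : ℕ → ℝ) (l : ℕ) : Prop :=
  4 ≤ l ∧ ∀ j, l ≤ j + 3 → j ≤ l + 3 → c0 ≤ |Real.sin (th j)|

/-- The branch of the energy curve at level `l` over the real point `b0` (radius `R`), shifted by the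
integers `i` (level `l-1`) and `j` (level `l`): `T` = parameter, `p` = coordinate. -/
structure Curve (lam R : ℝ) (l : ℕ) (i j : ℤ) (b0 : ℝ) (T p : ℂ → ℂ) : Prop where
  dT : DifferentiableOn ℂ T (ball (b0 : ℂ) R)
  dp : DifferentiableOn ℂ p (ball (b0 : ℂ) R)
  Tne : ∀ b ∈ ball (b0 : ℂ) R, deriv T b ≠ 0
  Trat : ∀ b ∈ ball (b0 : ℂ) R, ‖deriv T b / deriv T b0 - 1‖ ≤ 1 / 2
  slope : ∀ b ∈ ball (b0 : ℂ) R, ‖deriv p b - 3 / 4‖ ≤ 3 / 10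
  eqX : ∀ b ∈ ball (b0 : ℂ) R, X (lam : ℂ) (T b) l = Complex.cos (b + j * Real.pi)
  eqXm : ∀ b ∈ ball (b0 : ℂ) R,
    X (lam : ℂ) (T b) (l - 1) = rC lam b * Complex.cos (p b + i * Real.pi)
  eqXp : ∀ b ∈ ball (b0 : ℂ) R,
    X (lam : ℂ) (T b) (l + 1) = rC lam b * Complex.cos (p b + b + (i + j) * Real.pi)
  re : ∀ b : ℝ, (b : ℂ) ∈ ball (b0 : ℂ) R → (T b).im = 0 ∧ (p b).im = 0 ∧
    TE lam (T b).re l = b + j * Real.pi ∧ psiE lam (T b).re l = (p b).re + i * Real.pi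

/-- Joint analytic extension of the word function with final index `n` near the real point `(a0, b0)`. -/
structure WordJ (lam R C : ℝ) (n : ℕ) (a0 b0 : ℝ) (P U : ℂ → ℂ → ℂ) : Prop where
  dP : DifferentiableOn ℂ (fun z : ℂ × ℂ => P z.1 z.2) (ball (a0 : ℂ) R ×ˢ ball (b0 : ℂ) R)
  dU : DifferentiableOn ℂ (fun z : ℂ × ℂ => U z.1 z.2) (ball (a0 : ℂ) R ×ˢ ball (b0 : ℂ) R)
  Ub : ∀ a ∈ ball (a0 : ℂ) R, ∀ b ∈ ball (b0 : ℂ) R, ‖U a b - U a0 b0‖ ≤ C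
  Pa : ∀ a ∈ ball (a0 : ℂ) R, ∀ b ∈ ball (b0 : ℂ) R,
    HasDerivAt (fun a' => P a' b) (Complex.exp (U a b)) a
  Pb : ∀ a ∈ ball (a0 : ℂ) R, ∀ b ∈ ball (b0 : ℂ) R,
    ‖deriv (fun b' => P a b') b + 7 / 4‖ ≤ 3 / 10
  re : ∀ a b : ℝ, (a : ℂ) ∈ ball (a0 : ℂ) R → (b : ℂ) ∈ ball (b0 : ℂ) R →
    P a b = ((PP lam n a b : ℝ) : ℂ) ∧ (U a b).im = 0
  small : ‖Complex.exp (U a0 b0)‖ ≤ 1 / (Nat.fib (n - 1) : ℝ)
  large : (1 / 10 : ℝ) ^ n ≤ C * ‖Complex.exp (U a0 b0)‖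

end SF
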