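import Pool.Agent.Helper65.SF.WDefs

/-!
# SF-WS: slopes at good levels

Proof in words.  With `s j = |sin th j| >= c0`, `q in [1, 1 + eps]`, `eps = lam^2/(8 c0^4)`, small.
`TE_rel`: `q01 d(k+2) = q02 d(k+1) + q12 d k` for k = l-3, l-2, l-1, all `d >= 0` (positive, by `TE_deriv`;
`k >= 1` as `l >= 4`).  So `d l >= (1-eps') d(l-1)` (drop `d (l-2) >= 0`), `d(l-1) >= (1-eps') d(l-2)`,
`d l <= (1+eps') (d(l-1) + d(l-2)) <= (2 + 4 eps') d(l-1)`, and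
`(1-eps')(d l + d(l-1)) <= d(l+1) <= (1+eps')(d l + d (l-1))`.
Word family: the same with `TW_rel`, `TW_deriv` (for index 1 the derivative is 0, which is fine: only `>= 0` is
needed for the two lowest indices).
-/

namespace SF

theorem h55_mul_lo {q d : ℝ} (hd : 0 ≤ d) (hq : 1 ≤ q) : d ≤ q * d := by nlinarith

theorem h55_mul_hi {q d eps : ℝ} (hd : 0 ≤ d) (hq : q ≤ 1 + eps) (he1 : eps ≤ 1 / 1000) :
    q * d ≤ 1001 / 1000 * d := by nlinarith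

/-- Pure algebra: five nonnegative numbers with almost Fibonacci relations. -/
theorem slopes_alg (eps d0 d1 d2 d3 d4 q1 q2 q3 q4 q5 q6 q7 q8 q9 : ℝ) (he : 0 ≤ eps)
    (he1 : eps ≤ 1 / 1000) (h0 : 0 ≤ d0) (h1 : 0 ≤ d1) (h2 : 0 ≤ d2) (h3 : 0 < d3) (h4 : 0 ≤ d4)
    (hq : ∀ q ∈ [q1, q2, q3, q4, q5, q6, q7, q8, q9], 1 ≤ q ∧ q ≤ 1 + eps)
    (r0 : q1 * d2 = q2 * d1 + q3 * d0) (r1 : q4 * d3 = q5 * d2 + q6 * d1)
    (r2 : q7 * d4 = q8 * d3 + q9 * d2) :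
    49 / 100 * d3 ≤ d2 ∧ d2 ≤ 101 / 100 * d3 ∧ 149 / 100 * d3 ≤ d4 ∧ d4 ≤ 201 / 100 * d3 := by
  have H1 := hq q1 (by simp)
  have H2 := hq q2 (by simp)
  have H3 := hq q3 (by simp)
  have H4 := hq q4 (by simp)
  have H5 := hq q5 (by simp)
  have H6 := hq q6 (by simp)
  have H7 := hq q7 (by simp)
  have H8 := hq q8 (by simp)
  have H9 := hq q9 (by simp)
  have a1 := h55_mul_hi h2 H1.2 he1
  have a2 := h55_mul_lo h1 H2.1
  have a3 := h55_mul_lo h0 H3.1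
  have a4 := h55_mul_lo h3.le H4.1
  have a4' := h55_mul_hi h3.le H4.2 he1
  have a5 := h55_mul_lo h2 H5.1
  have a5' := h55_mul_hi h2 H5.2 he1
  have a6 := h55_mul_lo h1 H6.1
  have a6' := h55_mul_hi h1 H6.2 he1
  have a7 := h55_mul_lo h4 H7.1
  have a7' := h55_mul_hi h4 H7.2 he1
  have a8 := h55_mul_lo h3.le H8.1
  have a8' := h55_mul_hi h3.le H8.2 he1
  have a9 := h55_mul_lo h2 H9.1
  have a9' := h55_mul_hi h2 H9.2 he1
  have b1 : d1 ≤ 1001 / 1000 * d2 := by linarith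
  have b2 : d3 ≤ 201 / 100 * d2 := by linarith
  have b3 : d2 ≤ 1001 / 1000 * d3 := by linarith
  refine ⟨by linarith, by linarith, by linarith, by linarith⟩

theorem h55_qf (c0 : ℝ) (hc : 0 < c0) (lam a b : ℝ) (h0 : 0 ≤ lam) (h1 : lam ≤ c0 ^ 2 / 100)
    (ha : c0 ≤ |Real.sin a|) (hb : c0 ≤ |Real.sin b|) :
    1 ≤ qf lam a b ∧ qf lam a b ≤ 1 + 1 / 1000 := by
  have ha2 : c0 ^ 2 ≤ Real.sin a ^ 2 := by
    rw [← sq_abs (Real.sin a)]
    exact pow_le_pow_left₀ hc.le ha 2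
  have hb2 : c0 ^ 2 ≤ Real.sin b ^ 2 := by
    rw [← sq_abs (Real.sin b)]
    exact pow_le_pow_left₀ hc.le hb 2
  have hc2 : 0 < c0 ^ 2 := by positivity
  have hprod : c0 ^ 2 * c0 ^ 2 ≤ Real.sin a ^ 2 * Real.sin b ^ 2 :=
    mul_le_mul ha2 hb2 hc2.le (sq_nonneg _)
  have hpos : 0 < 4 * Real.sin a ^ 2 * Real.sin b ^ 2 := by
    have : 0 < c0 ^ 2 * c0 ^ 2 := by positivity
    nlinarith
  have hl2 : lam ^ 2 ≤ (c0 ^ 2 / 100) ^ 2 := pow_le_pow_left₀ h0 h1 2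
  have hfrac : lam ^ 2 / (4 * Real.sin a ^ 2 * Real.sin b ^ 2) ≤ 1 / 40000 := by
    rw [div_le_iff₀ hpos]
    nlinarith
  have hnn : 0 ≤ lam ^ 2 / (4 * Real.sin a ^ 2 * Real.sin b ^ 2) := by positivity
  unfold qf
  constructor
  · rw [Real.one_le_sqrt]; linarith
  · rw [Real.sqrt_le_left (by norm_num)]
    nlinarith

theorem slopes_energy (c0 : ℝ) (hc : 0 < c0) : ∃ lam1 : ℝ, 0 < lam1 ∧ lam1 ≤ 1 / 100 ∧
    ∀ lam t : ℝ, 0 ≤ lam → lam ≤ lam1 → ∀ l : ℕ, Good c0 (fun k => TE lam t k) l →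
      ∀ dm d dp : ℝ, HasDerivAt (fun s => TE lam s (l - 1)) dm t →
        HasDerivAt (fun s => TE lam s l) d t → HasDerivAt (fun s => TE lam s (l + 1)) dp t →
        0 < d ∧ 49 / 100 * d ≤ dm ∧ dm ≤ 101 / 100 * d ∧ 149 / 100 * d ≤ dp ∧ dp ≤ 201 / 100 * d := by
  refine ⟨min (1 / 100) (c0 ^ 2 / 100), lt_min (by norm_num) (by positivity), min_le_left _ _, ?_⟩
  intro lam t h0 hl l hg dm d dp hm hd hp
  have h1 : lam ≤ 1 / 100 := le_trans hl (min_le_left _ _)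
  have h2 : lam ≤ c0 ^ 2 / 100 := le_trans hl (min_le_right _ _)
  obtain ⟨hl4, hs⟩ := hg
  obtain ⟨m, rfl⟩ : ∃ m, l = m + 3 := ⟨l - 3, by omega⟩
  have hm1 : 1 ≤ m := by omega
  have e1 : m + 3 - 1 = m + 2 := by omega
  rw [e1] at hm
  have S : ∀ i, i ≤ 4 → c0 ≤ |Real.sin (TE lam t (m + i))| := fun i hi =>
    hs (m + i) (by omega) (by omega)
  have hX : ∀ i, i ≤ 4 → |X lam t (m + i)| < 1 := by
    intro i hi
    rw [← sin_TE_ne lam t h0]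
    intro h
    have := S i hi
    rw [h, abs_zero] at this
    linarith
  have hD : ∀ i, i ≤ 4 → ∃ e : ℝ, 0 < e ∧ HasDerivAt (fun s => TE lam s (m + i)) e t := by
    intro i hi
    obtain ⟨e, he, hde, -⟩ := TE_deriv lam t h0 h1 (m + i) (by omega) (hX i hi)
    refine ⟨e, lt_of_lt_of_le ?_ he, hde⟩
    have : 0 < Nat.fib (m + i) := Nat.fib_pos.2 (by omega)
    positivity
  obtain ⟨d0, p0, g0⟩ := hD 0 (by norm_num)
  obtain ⟨d1, p1, g1⟩ := hD 1 (by norm_num)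
  obtain ⟨d2, p2, g2⟩ := hD 2 (by norm_num)
  obtain ⟨d3, p3, g3⟩ := hD 3 (by norm_num)
  obtain ⟨d4, p4, g4⟩ := hD 4 (by norm_num)
  have u2 : dm = d2 := hm.unique g2
  have u3 : d = d3 := hd.unique g3
  have u4 : dp = d4 := hp.unique g4
  subst u2 u3 u4
  have r0 := TE_rel lam t h0 h1 m d0 d1 dm (hX 0 (by norm_num)) (hX 1 (by norm_num))
    (hX 2 (by norm_num)) g0 g1 g2
  have r1 := TE_rel lam t h0 h1 (m + 1) d1 dm d (hX 1 (by norm_num)) (hX 2 (by norm_num))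
    (hX 3 (by norm_num)) g1 g2 g3
  have r2 := TE_rel lam t h0 h1 (m + 2) dm d dp (hX 2 (by norm_num)) (hX 3 (by norm_num))
    (hX 4 (by norm_num)) g2 g3 g4
  refine ⟨p3, ?_⟩
  have Q : ∀ i j, i ≤ 4 → j ≤ 4 → 1 ≤ qf lam (TE lam t (m + i)) (TE lam t (m + j)) ∧
      qf lam (TE lam t (m + i)) (TE lam t (m + j)) ≤ 1 + 1 / 1000 := fun i j hi hj =>
    h55_qf c0 hc lam _ _ h0 h2 (S i hi) (S j hj)
  refine slopes_alg (1 / 1000) d0 d1 dm d dp _ _ _ _ _ _ _ _ _ (by norm_num) (by norm_num) p0.le p1.le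
    p2.le p3 p4.le ?_ r0 r1 r2
  intro q hq
  simp only [List.mem_cons, List.not_mem_nil, or_false] at hq
  rcases hq with rfl | rfl | rfl | rfl | rfl | rfl | rfl | rfl | rfl
  · exact Q 0 1 (by norm_num) (by norm_num)
  · exact Q 0 2 (by norm_num) (by norm_num)
  · exact Q 1 2 (by norm_num) (by norm_num)
  · exact Q 1 2 (by norm_num) (by norm_num)
  · exact Q 1 3 (by norm_num) (by norm_num)
  · exact Q 2 3 (by norm_num) (by norm_num)
  · exact Q 2 3 (by norm_num) (by norm_num)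
  · exact Q 2 4 (by norm_num) (by norm_num)
  · exact Q 3 4 (by norm_num) (by norm_num)

theorem slopes_word (c0 : ℝ) (hc : 0 < c0) : ∃ lam1 : ℝ, 0 < lam1 ∧ lam1 ≤ 1 / 100 ∧
    ∀ lam b psi : ℝ, 0 ≤ lam → lam ≤ lam1 → Real.sin b ≠ 0 → ∀ m : ℕ, 4 ≤ m →
      (∀ j, m ≤ j + 3 → j ≤ m + 1 → c0 ≤ |Real.sin (TW lam b psi j)|) →
      ∀ dm d dp : ℝ, HasDerivAt (fun s => TW lam b s (m - 1)) dm psi →
        HasDerivAt (fun s => TW lam b s m) d psi → HasDerivAt (fun s => TW lam b s (m + 1)) dp psi →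
        0 < d ∧ 49 / 100 * d ≤ dm ∧ dm ≤ 101 / 100 * d ∧ 149 / 100 * d ≤ dp ∧ dp ≤ 201 / 100 * d := by
  refine ⟨min (1 / 100) (c0 ^ 2 / 100), lt_min (by norm_num) (by positivity), min_le_left _ _, ?_⟩
  intro lam b t h0 hl hb l hl4 hs dm d dp hm hd hp
  have h1 : lam ≤ 1 / 100 := le_trans hl (min_le_left _ _)
  have h2 : lam ≤ c0 ^ 2 / 100 := le_trans hl (min_le_right _ _)
  obtain ⟨m, rfl⟩ : ∃ m, l = m + 3 := ⟨l - 3, by omega⟩
  have hm1 : 1 ≤ m := by omega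
  have e1 : m + 3 - 1 = m + 2 := by omega
  rw [e1] at hm
  have S : ∀ i, i ≤ 4 → c0 ≤ |Real.sin (TW lam b t (m + i))| := fun i hi =>
    hs (m + i) (by omega) (by omega)
  have hX : ∀ i, i ≤ 4 → |W lam b t (m + i)| < 1 := by
    intro i hi
    rw [← sin_TW_ne lam b t hb]
    intro h
    have := S i hi
    rw [h, abs_zero] at this
    linarith
  have hD : ∀ i, i ≤ 4 → ∃ e : ℝ, 0 ≤ e ∧ (1 ≤ i → 0 < e) ∧
      HasDerivAt (fun s => TW lam b s (m + i)) e t := by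
    intro i hi
    by_cases h : m + i = 1
    · refine ⟨0, le_refl _, fun h' => absurd h (by omega), ?_⟩
      rw [h]
      exact hasDerivAt_const t b
    · obtain ⟨e, he, -, hde, -⟩ := TW_deriv lam b t h0 h1 hb (m + i) h (hX i hi)
      exact ⟨e, he.le, fun _ => he, hde⟩
  obtain ⟨d0, p0, -, g0⟩ := hD 0 (by norm_num)
  obtain ⟨d1, p1, -, g1⟩ := hD 1 (by norm_num)
  obtain ⟨d2, p2, -, g2⟩ := hD 2 (by norm_num)
  obtain ⟨d3, -, p3, g3⟩ := hD 3 (by norm_num)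
  obtain ⟨d4, p4, -, g4⟩ := hD 4 (by norm_num)
  have u2 : dm = d2 := hm.unique g2
  have u3 : d = d3 := hd.unique g3
  have u4 : dp = d4 := hp.unique g4
  subst u2 u3 u4
  have p3' := p3 (by norm_num)
  have r0 := TW_rel lam b t h0 h1 hb m d0 d1 dm (hX 0 (by norm_num)) (hX 1 (by norm_num))
    (hX 2 (by norm_num)) g0 g1 g2
  have r1 := TW_rel lam b t h0 h1 hb (m + 1) d1 dm d (hX 1 (by norm_num)) (hX 2 (by norm_num))
    (hX 3 (by norm_num)) g1 g2 g3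
  have r2 := TW_rel lam b t h0 h1 hb (m + 2) dm d dp (hX 2 (by norm_num)) (hX 3 (by norm_num))
    (hX 4 (by norm_num)) g2 g3 g4
  refine ⟨p3', ?_⟩
  have Q : ∀ i j, i ≤ 4 → j ≤ 4 → 1 ≤ qf lam (TW lam b t (m + i)) (TW lam b t (m + j)) ∧
      qf lam (TW lam b t (m + i)) (TW lam b t (m + j)) ≤ 1 + 1 / 1000 := fun i j hi hj =>
    h55_qf c0 hc lam _ _ h0 h2 (S i hi) (S j hj)
  refine slopes_alg (1 / 1000) d0 d1 dm d dp _ _ _ _ _ _ _ _ _ (by norm_num) (by norm_num) p0 p1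
    p2 p3' p4 ?_ r0 r1 r2
  intro q hq
  simp only [List.mem_cons, List.not_mem_nil, or_false] at hq
  rcases hq with rfl | rfl | rfl | rfl | rfl | rfl | rfl | rfl | rfl
  · exact Q 0 1 (by norm_num) (by norm_num)
  · exact Q 0 2 (by norm_num) (by norm_num)
  · exact Q 1 2 (by norm_num) (by norm_num)
  · exact Q 1 2 (by norm_num) (by norm_num)
  · exact Q 1 3 (by norm_num) (by norm_num)
  · exact Q 2 3 (by norm_num) (by norm_num)
  · exact Q 2 3 (by norm_num) (by norm_num)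
  · exact Q 2 4 (by norm_num) (by norm_num)
  · exact Q 3 4 (by norm_num) (by norm_num)

end SF
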