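import Pool.Agent.Helper65.SF.W1
import Pool.Agent.Helper65.SF.WS

/-!
# SF-WP, auxiliary lemmas (joint primitives, lifts, slopes)
-/


namespace SF

open Metric Set Filter Topology MeasureTheory intervalIntegral

/-- The partial derivative in the second variable is jointly continuous. -/
theorem pc40 (a0 b0 : ℂ) (R M : ℝ) (f : ℂ → ℂ → ℂ)
    (hc : ContinuousOn (fun z : ℂ × ℂ => f z.1 z.2) (ball a0 R ×ˢ ball b0 R))
    (hh : ∀ a ∈ ball a0 R, DifferentiableOn ℂ (f a) (ball b0 R))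
    (hM : ∀ a ∈ ball a0 R, ∀ b ∈ ball b0 R, ‖f a b‖ ≤ M) (z : ℂ × ℂ)
    (hz : z ∈ ball a0 R ×ˢ ball b0 R) :
    ContinuousAt (fun z : ℂ × ℂ => deriv (f z.1) z.2) z := by
  have hD : IsOpen (ball a0 R ×ˢ ball b0 R) := isOpen_ball.prod isOpen_ball
  obtain ⟨hz1, hz2⟩ := hz
  have hz2' : dist z.2 b0 < R := hz2
  set r : ℝ := (R - dist z.2 b0) / 3 with hr
  have hr0 : 0 < r := by rw [hr]; linarith
  -- the neighbourhood
  set N : Set (ℂ × ℂ) := ball a0 R ×ˢ ball z.2 r with hN
  have hNo : IsOpen N := isOpen_ball.prod isOpen_ball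
  have hzN : z ∈ N := ⟨hz1, mem_ball_self hr0⟩
  have hNn : N ∈ 𝓝 z := hNo.mem_nhds hzN
  have hcirc : ∀ y ∈ N, ∀ θ : ℝ, circleMap y.2 r θ ∈ ball b0 R := by
    intro y hy θ
    have h1 : dist (circleMap y.2 r θ) y.2 = r := by
      rw [dist_eq_norm, circleMap_sub_center, norm_circleMap_zero, abs_of_pos hr0]
    have h2 : dist y.2 z.2 < r := hy.2
    rw [mem_ball]
    calc dist (circleMap y.2 r θ) b0 ≤ dist (circleMap y.2 r θ) y.2 + dist y.2 z.2 + dist z.2 b0 :=
          dist_triangle4 _ _ _ _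
      _ < R := by rw [h1]; linarith
  have hcb : ∀ y ∈ N, closedBall y.2 r ⊆ ball b0 R := by
    intro y hy w hw
    have h2 : dist y.2 z.2 < r := hy.2
    have h1 : dist w y.2 ≤ r := hw
    rw [mem_ball]
    calc dist w b0 ≤ dist w y.2 + dist y.2 z.2 + dist z.2 b0 := dist_triangle4 _ _ _ _
      _ < R := by linarith
  let F : ℂ × ℂ → ℝ → ℂ := fun y θ =>
    (circleMap 0 r θ * Complex.I) * ((1 / (circleMap 0 r θ) ^ 2) * f y.1 (circleMap y.2 r θ))
  have hrep : ∀ y ∈ N, deriv (f y.1) y.2 =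
      (2 * Real.pi * Complex.I)⁻¹ * ∫ θ in (0:ℝ)..(2 * Real.pi), F y θ := by
    intro y hy
    have h1 := DifferentiableOn.deriv_eq_smul_circleIntegral hr0 ((hh y.1 hy.1).mono (hcb y hy))
    simp only [smul_eq_mul, circleIntegral, deriv_circleMap, circleMap_sub_center] at h1
    have h2 : (2 * Real.pi * Complex.I : ℂ) ≠ 0 := Complex.two_pi_I_ne_zero
    rw [eq_inv_mul_iff_mul_eq₀ h2]
    exact h1.symm
  have hne : ∀ θ : ℝ, circleMap 0 r θ ≠ 0 := fun θ => circleMap_ne_center hr0.ne'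
  have hcc : ∀ y ∈ N, Continuous (F y) := by
    intro y hy
    have h1 : Continuous fun θ => f y.1 (circleMap y.2 r θ) := by
      have h2 : ContinuousOn (f y.1) (ball b0 R) := (hh y.1 hy.1).continuousOn
      exact h2.comp_continuous (continuous_circleMap _ _) (hcirc y hy)
    have h3 : Continuous fun θ => (1 / (circleMap 0 r θ) ^ 2) :=
      continuous_const.div ((continuous_circleMap 0 r).pow 2) (fun θ => pow_ne_zero 2 (hne θ))
    exact ((continuous_circleMap 0 r).mul continuous_const).mul (h3.mul h1)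
  have hbound : ∀ y ∈ N, ∀ θ : ℝ, ‖F y θ‖ ≤ r * (1 / r ^ 2 * M) := by
    intro y hy θ
    simp only [F]
    rw [norm_mul, norm_mul, norm_mul, norm_div, norm_pow, norm_circleMap_zero, Complex.norm_I,
      mul_one, abs_of_pos hr0, norm_one]
    gcongr
    exact hM _ hy.1 _ (hcirc y hy θ)
  have hcI : ContinuousAt (fun y => ∫ θ in (0:ℝ)..(2 * Real.pi), F y θ) z := by
    apply intervalIntegral.continuousAt_of_dominated_interval
      (bound := fun _ => r * (1 / r ^ 2 * M))
    · filter_upwards [hNn] with y hy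
      exact (hcc y hy).aestronglyMeasurable
    · filter_upwards [hNn] with y hy
      exact Eventually.of_forall fun θ _ => hbound y hy θ
    · exact intervalIntegrable_const
    · refine Eventually.of_forall fun θ _ => ?_
      have h1 : ContinuousAt (fun y : ℂ × ℂ => f y.1 (circleMap y.2 r θ)) z := by
        have h2 : ContinuousAt (fun z : ℂ × ℂ => f z.1 z.2) (z.1, circleMap z.2 r θ) :=
          hc.continuousAt (hD.mem_nhds ⟨hz1, hcirc z hzN θ⟩)
        have h3 : ContinuousAt (fun y : ℂ × ℂ => (y.1, circleMap y.2 r θ)) z := by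
          unfold circleMap
          fun_prop
        exact ContinuousAt.comp (f := fun y : ℂ × ℂ => (y.1, circleMap y.2 r θ))
          (g := fun z : ℂ × ℂ => f z.1 z.2) h2 h3
      exact continuousAt_const.mul (continuousAt_const.mul h1)
  refine ContinuousAt.congr (f := fun y => (2 * Real.pi * Complex.I)⁻¹ *
    ∫ θ in (0:ℝ)..(2 * Real.pi), F y θ) (continuousAt_const.mul hcI) ?_
  filter_upwards [hNn] with y hy
  exact (hrep y hy).symm

/-- Joint primitive in the first variable. -/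
theorem jp40 (a0 b0 : ℂ) (R M : ℝ) (hR : 0 < R) (g : ℂ → ℂ → ℂ)
    (hg : DifferentiableOn ℂ (fun z : ℂ × ℂ => g z.1 z.2) (ball a0 R ×ˢ ball b0 R))
    (hM : ∀ a ∈ ball a0 R, ∀ b ∈ ball b0 R, ‖g a b‖ ≤ M) :
    ∃ I : ℂ → ℂ → ℂ,
      DifferentiableOn ℂ (fun z : ℂ × ℂ => I z.1 z.2) (ball a0 R ×ˢ ball b0 R) ∧
      (∀ b, I a0 b = 0) ∧
      (∀ a ∈ ball a0 R, ∀ b ∈ ball b0 R, HasDerivAt (fun a' => I a' b) (g a b) a) ∧
      (∀ a ∈ ball a0 R, ∀ b ∈ ball b0 R, ‖I a b‖ ≤ dist a a0 * M) := by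
  have hD : IsOpen (ball a0 R ×ˢ ball b0 R) := isOpen_ball.prod isOpen_ball
  have hM0 : 0 ≤ M := (norm_nonneg _).trans (hM a0 (mem_ball_self hR) b0 (mem_ball_self hR))
  have hgc : ContinuousOn (fun z : ℂ × ℂ => g z.1 z.2) (ball a0 R ×ˢ ball b0 R) := hg.continuousOn
  have hga : ∀ b ∈ ball b0 R, DifferentiableOn ℂ (fun a => g a b) (ball a0 R) := by
    intro b hb a ha
    have h1 : DifferentiableAt ℂ (fun z : ℂ × ℂ => g z.1 z.2) (a, b) :=
      hg.differentiableAt (hD.mem_nhds ⟨ha, hb⟩)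
    have h2 : DifferentiableAt ℂ (fun a : ℂ => (a, b)) a := by fun_prop
    exact (DifferentiableAt.comp (f := fun a : ℂ => (a, b)) (g := fun z : ℂ × ℂ => g z.1 z.2)
      a h1 h2).differentiableWithinAt
  have hgb : ∀ a ∈ ball a0 R, DifferentiableOn ℂ (g a) (ball b0 R) := by
    intro a ha b hb
    have h1 : DifferentiableAt ℂ (fun z : ℂ × ℂ => g z.1 z.2) (a, b) :=
      hg.differentiableAt (hD.mem_nhds ⟨ha, hb⟩)
    have h2 : DifferentiableAt ℂ (fun b : ℂ => (a, b)) b := by fun_prop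
    exact (DifferentiableAt.comp (f := fun b : ℂ => (a, b)) (g := fun z : ℂ × ℂ => g z.1 z.2)
      b h1 h2).differentiableWithinAt
  have hseg : ∀ a ∈ ball a0 R, ∀ t ∈ Icc (0:ℝ) 1, a0 + (t : ℂ) * (a - a0) ∈ ball a0 R := by
    intro a ha t ht
    rw [mem_ball, dist_eq_norm] at ha ⊢
    rw [add_sub_cancel_left, norm_mul, Complex.norm_real, Real.norm_eq_abs, abs_of_nonneg ht.1]
    calc t * ‖a - a0‖ ≤ 1 * ‖a - a0‖ := by gcongr; exact ht.2
      _ < R := by rw [one_mul]; exact ha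
  have huI : Set.uIoc (0:ℝ) 1 ⊆ Icc 0 1 := by
    rw [uIoc_of_le zero_le_one]; exact Ioc_subset_Icc_self
  let J : ℂ → ℂ → ℂ := fun a b => ∫ t in (0:ℝ)..1, g (a0 + (t : ℂ) * (a - a0)) b
  let I : ℂ → ℂ → ℂ := fun a b => (a - a0) * J a b
  have hJn : ∀ a ∈ ball a0 R, ∀ b ∈ ball b0 R, ‖J a b‖ ≤ M := by
    intro a ha b hb
    have := intervalIntegral.norm_integral_le_of_norm_le_const (a := (0:ℝ)) (b := 1)
      (f := fun t : ℝ => g (a0 + (t : ℂ) * (a - a0)) b) (C := M)
      (fun t ht => hM _ (hseg a ha t (huI ht)) b hb)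
    simpa using this
  have hIn : ∀ a ∈ ball a0 R, ∀ b ∈ ball b0 R, ‖I a b‖ ≤ dist a a0 * M := by
    intro a ha b hb
    simp only [I]
    rw [norm_mul, dist_eq_norm]
    gcongr
    exact hJn a ha b hb
  -- continuity in t
  have hct : ∀ a ∈ ball a0 R, ∀ b ∈ ball b0 R,
      ContinuousOn (fun t : ℝ => g (a0 + (t : ℂ) * (a - a0)) b) (Icc 0 1) := by
    intro a ha b hb
    have h1 : ContinuousOn (fun t : ℝ => a0 + (t : ℂ) * (a - a0)) (Icc 0 1) := by fun_prop
    exact (hga b hb).continuousOn.comp h1 (fun t ht => hseg a ha t ht)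
  -- the derivative in a
  have hda : ∀ a ∈ ball a0 R, ∀ b ∈ ball b0 R, HasDerivAt (fun a' => I a' b) (g a b) a := by
    intro a ha b hb
    obtain ⟨G, hG⟩ := (hga b hb).isExactOn_ball
    have hI : ∀ a' ∈ ball a0 R, I a' b = G a' - G a0 := by
      intro a' ha'
      have h1 : ∀ t ∈ Set.uIcc (0:ℝ) 1, HasDerivAt (fun t : ℝ => G (a0 + (t : ℂ) * (a' - a0)))
          ((a' - a0) * g (a0 + (t : ℂ) * (a' - a0)) b) t := by
        intro t ht
        rw [uIcc_of_le zero_le_one] at ht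
        have h2 := hG _ (hseg a' ha' t ht)
        have h3 : HasDerivAt (fun t : ℝ => a0 + (t : ℂ) * (a' - a0)) (a' - a0) t := by
          have h4 : HasDerivAt (fun t : ℝ => (t : ℂ)) 1 t := Complex.ofRealCLM.hasDerivAt
          simpa using (h4.mul_const (a' - a0)).const_add a0
        have h5 := HasDerivAt.comp_of_eq t h2 h3 rfl
        simp only [Function.comp_def] at h5
        rw [mul_comm] at h5
        exact h5
      have h6 : IntervalIntegrable (fun t : ℝ => (a' - a0) * g (a0 + (t : ℂ) * (a' - a0)) b)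
          volume 0 1 := by
        apply ContinuousOn.intervalIntegrable
        rw [uIcc_of_le zero_le_one]
        exact continuousOn_const.mul (hct a' ha' b hb)
      have h7 := intervalIntegral.integral_eq_sub_of_hasDerivAt h1 h6
      simp only [I, J]
      rw [← intervalIntegral.integral_const_mul, h7]
      simp
    have h8 : HasDerivAt (fun a' => G a' - G a0) (g a b) a := (hG a ha).sub_const _
    refine h8.congr_of_eventuallyEq ?_
    filter_upwards [isOpen_ball.mem_nhds ha] with a' ha'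
    exact hI a' ha'
  -- joint continuity of J
  have hJc : ContinuousOn (fun z : ℂ × ℂ => J z.1 z.2) (ball a0 R ×ˢ ball b0 R) := by
    intro z hz
    apply ContinuousAt.continuousWithinAt
    apply intervalIntegral.continuousAt_of_dominated_interval (bound := fun _ => M)
    · filter_upwards [hD.mem_nhds hz] with y hy
      have h1 : ContinuousOn (fun t : ℝ => g (a0 + (t : ℂ) * (y.1 - a0)) y.2) (Set.uIoc 0 1) :=
        (hct y.1 hy.1 y.2 hy.2).mono huI
      exact h1.aestronglyMeasurable measurableSet_uIoc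
    · filter_upwards [hD.mem_nhds hz] with y hy
      exact Eventually.of_forall fun t ht => hM _ (hseg y.1 hy.1 t (huI ht)) y.2 hy.2
    · exact intervalIntegrable_const
    · refine Eventually.of_forall fun t ht => ?_
      have h2 : ContinuousAt (fun z : ℂ × ℂ => g z.1 z.2) (a0 + (t : ℂ) * (z.1 - a0), z.2) :=
        hgc.continuousAt (hD.mem_nhds ⟨hseg z.1 hz.1 t (huI ht), hz.2⟩)
      have h3 : ContinuousAt (fun y : ℂ × ℂ => (a0 + (t : ℂ) * (y.1 - a0), y.2)) z := by fun_prop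
      exact ContinuousAt.comp (f := fun y : ℂ × ℂ => (a0 + (t : ℂ) * (y.1 - a0), y.2))
        (g := fun z : ℂ × ℂ => g z.1 z.2) h2 h3
  -- J is holomorphic in b
  have hJb : ∀ a ∈ ball a0 R, DifferentiableOn ℂ (J a) (ball b0 R) := by
    intro a ha b hb
    have hb' : dist b b0 < R := hb
    set r : ℝ := (R - dist b b0) / 2 with hr
    have hr0 : 0 < r := by rw [hr]; linarith
    have hsub : ∀ x ∈ ball b r, closedBall x (r / 2) ⊆ ball b0 R := by
      intro x hx w hw
      have h1 : dist w x ≤ r / 2 := hw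
      have h2 : dist x b < r := hx
      rw [mem_ball]
      calc dist w b0 ≤ dist w x + dist x b + dist b b0 := dist_triangle4 _ _ _ _
        _ < R := by linarith
    have h0 := intervalIntegral.hasDerivAt_integral_of_dominated_loc_of_deriv_le
      (μ := volume) (a := (0:ℝ)) (b := 1)
      (F := fun (x : ℂ) (t : ℝ) => g (a0 + (t : ℂ) * (a - a0)) x)
      (F' := fun (x : ℂ) (t : ℝ) => deriv (g (a0 + (t : ℂ) * (a - a0))) x) (x₀ := b)
      (s := ball b r) (bound := fun _ => M / (r / 2)) (ball_mem_nhds b hr0) ?_ ?_ ?_ ?_ ?_ ?_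
    · exact h0.2.differentiableAt.differentiableWithinAt
    · filter_upwards [isOpen_ball.mem_nhds hb] with x hx
      exact ((hct a ha x hx).mono huI).aestronglyMeasurable measurableSet_uIoc
    · apply ContinuousOn.intervalIntegrable
      rw [uIcc_of_le zero_le_one]
      exact hct a ha b hb
    · have h1 : ContinuousOn (fun t : ℝ => deriv (g (a0 + (t : ℂ) * (a - a0))) b) (Icc 0 1) := by
        intro t ht
        apply ContinuousAt.continuousWithinAt
        have h2 := pc40 a0 b0 R M g hgc hgb hM (a0 + (t : ℂ) * (a - a0), b) ⟨hseg a ha t ht, hb⟩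
        have h3 : ContinuousAt (fun t : ℝ => (a0 + (t : ℂ) * (a - a0), b)) t := by fun_prop
        exact ContinuousAt.comp (f := fun t : ℝ => (a0 + (t : ℂ) * (a - a0), b))
          (g := fun z : ℂ × ℂ => deriv (g z.1) z.2) h2 h3
      exact (h1.mono huI).aestronglyMeasurable measurableSet_uIoc
    · refine Eventually.of_forall fun t ht x hx => ?_
      apply Complex.norm_deriv_le_of_forall_mem_sphere_norm_le (by linarith)
      · apply DifferentiableOn.diffContOnCl
        rw [closure_ball _ (by linarith : r / 2 ≠ 0)]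
        exact (hgb _ (hseg a ha t (huI ht))).mono (hsub x hx)
      · intro w hw
        exact hM _ (hseg a ha t (huI ht)) w (hsub x hx (sphere_subset_closedBall hw))
    · exact intervalIntegrable_const
    · refine Eventually.of_forall fun t ht x hx => ?_
      have hxb : x ∈ ball b0 R := hsub x hx (mem_closedBall_self (by linarith))
      exact ((hgb _ (hseg a ha t (huI ht))).differentiableAt (isOpen_ball.mem_nhds hxb)).hasDerivAt
  refine ⟨I, ?_, ?_, hda, hIn⟩
  · -- joint differentiability of I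
    have hIc : ContinuousOn (fun z : ℂ × ℂ => I z.1 z.2) (ball a0 R ×ˢ ball b0 R) := by
      have h1 : ContinuousOn (fun z : ℂ × ℂ => z.1 - a0) (ball a0 R ×ˢ ball b0 R) := by fun_prop
      exact h1.mul hJc
    have hIb : ∀ a ∈ ball a0 R, DifferentiableOn ℂ (I a) (ball b0 R) :=
      fun a ha => (hJb a ha).const_mul _
    have hIM : ∀ a ∈ ball a0 R, ∀ b ∈ ball b0 R, ‖I a b‖ ≤ R * M := by
      intro a ha b hb
      refine (hIn a ha b hb).trans ?_
      gcongr
      exact (mem_ball.mp ha).le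
    intro z hz
    have h := hasStrictFDerivAt_uncurry_coprod (𝕜 := ℂ) (u := z) (f := I)
      (f₁ := fun a b => ContinuousLinearMap.toSpanSingleton ℂ (g a b))
      (f₂ := fun a b => ContinuousLinearMap.toSpanSingleton ℂ (deriv (I a) b)) ?_ ?_ ?_ ?_
    · exact h.hasFDerivAt.differentiableAt.differentiableWithinAt
    · filter_upwards [hD.mem_nhds hz] with v hv
      have := (hda v.1 hv.1 v.2 hv.2).hasFDerivAt
      exact this
    · filter_upwards [hD.mem_nhds hz] with v hv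
      have := ((hIb v.1 hv.1).differentiableAt (isOpen_ball.mem_nhds hv.2)).hasDerivAt.hasFDerivAt
      exact this
    · have h1 : ContinuousAt (fun z : ℂ × ℂ => g z.1 z.2) z := hgc.continuousAt (hD.mem_nhds hz)
      exact ((ContinuousLinearMap.toSpanSingletonCLE (𝕜 := ℂ) (E := ℂ)).continuous.continuousAt).comp h1
    · have h1 := pc40 a0 b0 R (R * M) I hIc hIb hIM z hz
      exact ((ContinuousLinearMap.toSpanSingletonCLE (𝕜 := ℂ) (E := ℂ)).continuous.continuousAt).comp h1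
  · intro b
    simp [I]


/-- A continuous function on an interval with `cos D = 1` that vanishes at the centre vanishes. -/
theorem lift_eq40 (c R : ℝ) (u v : ℝ → ℝ) (hu : ContinuousOn u (Ioo (c - R) (c + R)))
    (hv : ContinuousOn v (Ioo (c - R) (c + R)))
    (he : ∀ s ∈ Ioo (c - R) (c + R), Real.cos (u s - v s) = 1) (hc : u c = v c) (hR : 0 < R) :
    ∀ s ∈ Ioo (c - R) (c + R), u s = v s := by
  intro s hs
  by_contra hne
  have hpi := Real.pi_pos
  have hcI : c ∈ Ioo (c - R) (c + R) := ⟨by linarith, by linarith⟩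
  have hsub : Set.uIcc c s ⊆ Ioo (c - R) (c + R) := by
    have : OrdConnected (Ioo (c - R) (c + R)) := ordConnected_Ioo
    exact this.uIcc_subset hcI hs
  have hD : ContinuousOn (fun x => u x - v x) (Set.uIcc c s) := (hu.sub hv).mono hsub
  have hD0 : u c - v c = 0 := by linarith
  have hDs : u s - v s ≠ 0 := fun h => hne (by linarith)
  obtain ⟨k, hk⟩ := (Real.cos_eq_one_iff _).mp (he s hs)
  have hk0 : k ≠ 0 := by
    rintro rfl
    apply hDs
    rw [← hk]; simp
  have hnever : ∀ x ∈ Set.uIcc c s, Real.cos (u x - v x) ≠ -1 := by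
    intro x hx h
    have := he x (hsub hx)
    rw [h] at this
    norm_num at this
  rcases lt_or_gt_of_ne hk0 with h | h
  · have hk1 : (k : ℝ) ≤ -1 := by exact_mod_cast Int.le_sub_one_of_lt h
    have h2 : u s - v s ≤ -Real.pi := by rw [← hk]; nlinarith
    have hmem : -Real.pi ∈ Set.uIcc (u c - v c) (u s - v s) := by
      rw [Set.mem_uIcc]; right; constructor
      · exact h2
      · rw [hD0]; linarith
    obtain ⟨x, hx, hx2⟩ := intermediate_value_uIcc hD hmem
    apply hnever x hx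
    simp only at hx2
    rw [hx2, Real.cos_neg, Real.cos_pi]
  · have hk1 : (1 : ℝ) ≤ k := by exact_mod_cast h
    have h2 : Real.pi ≤ u s - v s := by rw [← hk]; nlinarith
    have hmem : Real.pi ∈ Set.uIcc (u c - v c) (u s - v s) := by
      rw [Set.mem_uIcc]; left; constructor
      · rw [hD0]; linarith
      · exact h2
    obtain ⟨x, hx, hx2⟩ := intermediate_value_uIcc hD hmem
    apply hnever x hx
    simp only at hx2
    rw [hx2, Real.cos_pi]

theorem lift_eq_cos40 (c R : ℝ) (u v : ℝ → ℝ) (hu : ContinuousOn u (Ioo (c - R) (c + R)))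
    (hv : ContinuousOn v (Ioo (c - R) (c + R)))
    (he : ∀ s ∈ Ioo (c - R) (c + R), Real.cos (u s) = Real.cos (v s))
    (hs : ∀ s ∈ Ioo (c - R) (c + R), Real.sin (v s) ≠ 0) (hc : u c = v c) (hR : 0 < R) :
    ∀ s ∈ Ioo (c - R) (c + R), u s = v s := by
  have hcI : c ∈ Ioo (c - R) (c + R) := ⟨by linarith, by linarith⟩
  have h1 : EqOn (fun s => Real.sin (u s)) (fun s => Real.sin (v s)) (Ioo (c - R) (c + R)) := by
    refine IsPreconnected.eq_of_sq_eq isPreconnected_Ioo
      (Real.continuous_sin.comp_continuousOn hu) (Real.continuous_sin.comp_continuousOn hv)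
      ?_ (fun {x} hx => hs x hx) hcI ?_
    · intro s hs'
      have h2 := Real.sin_sq_add_cos_sq (u s)
      have h3 := Real.sin_sq_add_cos_sq (v s)
      rw [he s hs'] at h2
      simp only [Pi.pow_apply]
      linarith
    · simp only [hc]
  refine lift_eq40 c R u v hu hv ?_ hc hR
  intro s hs'
  have h1s : Real.sin (u s) = Real.sin (v s) := h1 hs'
  rw [Real.cos_sub, he s hs', h1s]
  have := Real.sin_sq_add_cos_sq (v s)
  nlinarith

/-- Cauchy estimate for the oscillation of the derivative. -/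
theorem cauchy2_40 (c : ℂ) (R : ℝ) (hR : 0 < R) (hR1 : R ≤ 1) (p : ℂ → ℂ)
    (hp : DifferentiableOn ℂ p (ball c R)) (hb : ∀ b ∈ ball c R, ‖p b - p c‖ ≤ 1) :
    ∀ b ∈ ball c (R ^ 2 / 3200), ‖deriv p b - deriv p c‖ ≤ 1 / 100 := by
  have h1 : ∀ b ∈ ball c (R / 2), ‖deriv p b‖ ≤ 4 / R := by
    intro b hbb
    have hsub : closedBall b (R / 4) ⊆ ball c R := by
      intro w hw
      have h1 : dist w b ≤ R / 4 := hw
      have h2 : dist b c < R / 2 := hbb
      rw [mem_ball]
      linarith [dist_triangle w b c]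
    have h2 : deriv (fun w => p w - p c) b = deriv p b := by simp
    rw [← h2]
    have h3 := Complex.norm_deriv_le_of_forall_mem_sphere_norm_le (c := b) (R := R / 4) (C := 1)
      (f := fun w => p w - p c) (by linarith)
      (by
        apply DifferentiableOn.diffContOnCl
        rw [closure_ball _ (by linarith : R / 4 ≠ 0)]
        exact (hp.mono hsub).sub_const _)
      (fun w hw => hb w (hsub (sphere_subset_closedBall hw)))
    refine h3.trans (le_of_eq ?_)
    field_simp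
  have hdp : DifferentiableOn ℂ (deriv p) (ball c R) := hp.deriv isOpen_ball
  have h2 : ∀ b ∈ ball c (R / 4), ‖deriv (deriv p) b‖ ≤ 32 / R ^ 2 := by
    intro b hbb
    have hsub : closedBall b (R / 8) ⊆ ball c (R / 2) := by
      intro w hw
      have h1 : dist w b ≤ R / 8 := hw
      have h2 : dist b c < R / 4 := hbb
      rw [mem_ball]
      linarith [dist_triangle w b c]
    have h3 := Complex.norm_deriv_le_of_forall_mem_sphere_norm_le (c := b) (R := R / 8) (C := 4 / R)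
      (f := deriv p) (by linarith)
      (by
        apply DifferentiableOn.diffContOnCl
        rw [closure_ball _ (by linarith : R / 8 ≠ 0)]
        exact hdp.mono (hsub.trans (ball_subset_ball (by linarith))))
      (fun w hw => h1 w (hsub (sphere_subset_closedBall hw)))
    refine h3.trans (le_of_eq ?_)
    field_simp
    norm_num
  have hRR : R ^ 2 / 3200 ≤ R / 4 := by nlinarith
  intro b hbb
  have hbb' : dist b c < R ^ 2 / 3200 := hbb
  have h3 := (convex_ball c (R / 4)).norm_image_sub_le_of_norm_deriv_le (f := deriv p)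
    (C := 32 / R ^ 2) (x := c) (y := b)
    (fun x hx => hdp.differentiableAt (isOpen_ball.mem_nhds (ball_subset_ball (by linarith) hx)))
    h2 (mem_ball_self (by linarith)) (ball_subset_ball hRR hbb)
  refine h3.trans ?_
  rw [← dist_eq_norm]
  calc 32 / R ^ 2 * dist b c ≤ 32 / R ^ 2 * (R ^ 2 / 3200) := by gcongr
    _ = 1 / 100 := by field_simp; norm_num


theorem tr_diff40 (p q w : ℂ → ℂ) (hp : Differentiable ℂ p) (hq : Differentiable ℂ q)
    (hw : Differentiable ℂ w) (k : ℕ) : Differentiable ℂ (fun z => tr (p z) (q z) (w z) k) := by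
  have key : Differentiable ℂ (fun z => tr (p z) (q z) (w z) k) ∧
      Differentiable ℂ (fun z => tr (p z) (q z) (w z) (k + 1)) ∧
      Differentiable ℂ (fun z => tr (p z) (q z) (w z) (k + 2)) := by
    induction k with
    | zero => exact ⟨hp, hq, hw⟩
    | succ k ih =>
      refine ⟨ih.2.1, ih.2.2, ?_⟩
      have h3 : (fun z => tr (p z) (q z) (w z) (k + 1 + 2)) = fun z =>
          2 * tr (p z) (q z) (w z) (k + 2) * tr (p z) (q z) (w z) (k + 1) - tr (p z) (q z) (w z) k :=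
        rfl
      rw [h3]
      exact (((differentiable_const _).mul ih.2.2).mul ih.2.1).sub ih.1
  exact key.1

theorem WC_diff40 (lam b : ℝ) (k : ℕ) : Differentiable ℂ (fun z => WC lam b z k) := by
  unfold WC
  apply tr_diff40
  · exact (differentiable_const _).mul Complex.differentiable_cos
  · exact differentiable_const _
  · exact (differentiable_const _).mul
      (Complex.differentiable_cos.comp (differentiable_id.add (differentiable_const _)))

theorem rr_sin40 (lam b : ℝ) (hb : Real.sin b ≠ 0) :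
    (rr lam b ^ 2 - 1) * Real.sin b ^ 2 = lam ^ 2 / 4 := by
  rw [rr_sq, qq]
  have h1 : |Real.sin b| ≠ 0 := abs_ne_zero.mpr hb
  have h2 : |Real.sin b| ^ 2 = Real.sin b ^ 2 := sq_abs _
  rw [div_pow, mul_pow, h2]
  field_simp
  ring

theorem WC_inv40 (lam b : ℝ) (hb : Real.sin b ≠ 0) (z : ℂ) (k : ℕ) :
    WC lam b z (k + 2) ^ 2 + WC lam b z (k + 1) ^ 2 + WC lam b z k ^ 2
      - 2 * WC lam b z (k + 2) * WC lam b z (k + 1) * WC lam b z k = 1 + (lam : ℂ) ^ 2 / 4 := by
  unfold WC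
  apply tr_inv
  have h1 : (((rr lam b ^ 2 - 1) * Real.sin b ^ 2 : ℝ) : ℂ) = ((lam ^ 2 / 4 : ℝ) : ℂ) := by
    rw [rr_sin40 lam b hb]
  push_cast at h1 ⊢
  rw [Complex.cos_add]
  have h2 := Complex.sin_sq_add_cos_sq z
  have h3 := Complex.sin_sq_add_cos_sq (b : ℂ)
  linear_combination h1 + (rr lam b : ℂ) ^ 2 * Complex.sin b ^ 2 * h2
    + (1 - (rr lam b : ℂ) ^ 2 * Complex.cos z ^ 2) * h3

theorem deriv_WC40 (lam b psi w : ℝ) (k : ℕ) (h : HasDerivAt (fun s => W lam b s k) w psi) :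
    HasDerivAt (fun z => WC lam b z k) (w : ℂ) (psi : ℂ) := by
  have h1 := (WC_diff40 lam b k (psi : ℂ)).hasDerivAt
  have h2 : HasDerivAt (fun s : ℝ => WC lam b (s : ℂ) k)
      (deriv (fun z => WC lam b z k) (psi : ℂ)) psi := h1.comp_ofReal
  have h3 : HasDerivAt (fun s : ℝ => ((W lam b s k : ℝ) : ℂ)) (w : ℂ) psi := h.ofReal_comp
  have h4 : (fun s : ℝ => WC lam b (s : ℂ) k) = fun s : ℝ => ((W lam b s k : ℝ) : ℂ) := by
    funext s; exact WC_ofReal lam b s k
  rw [h4] at h2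
  have h5 := h2.unique h3
  rw [← h5]
  exact h1

/-- The real computation for the slope. -/
theorem slope40 (c0 lam r cp sp sm q : ℝ) (R' A : ℂ) (hc : 0 < c0) (_hc1 : c0 ≤ 1)
    (hlam : 0 < lam) (hl : lam ≤ c0 ^ 2 / 40) (hr : 1 ≤ r) (hr2 : r ^ 2 - 1 ≤ lam ^ 2 / (4 * c0 ^ 2))
    (hcs : sp ^ 2 + cp ^ 2 = 1) (hsm : sm ^ 2 + (r * cp) ^ 2 = 1) (hsmc : c0 ≤ |sm|)
    (hsign : 0 ≤ sm * sp) (hq1 : 49 / 100 ≤ q) (hq2 : q ≤ 101 / 100)
    (hR' : ‖R'‖ ≤ 8 * lam ^ 2 / c0 ^ 3)
    (hA : (r * sp : ℝ) * A = R' * (cp : ℝ) + ((sm * q : ℝ) : ℂ)) : ‖A - 3 / 4‖ ≤ 27 / 100 := by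
  have hrs : (r * sp) ^ 2 = sm ^ 2 + (r ^ 2 - 1) := by nlinarith
  have hr1 : 0 ≤ r ^ 2 - 1 := by nlinarith
  have hsm2 : c0 ^ 2 ≤ sm ^ 2 := by
    rw [← sq_abs sm]; exact pow_le_pow_left₀ hc.le hsmc 2
  have hrsm : |sm| ≤ |r * sp| := by
    rw [← sq_le_sq]
    linarith
  have hrsp : c0 ≤ |r * sp| := hsmc.trans hrsm
  have hrsne : r * sp ≠ 0 := by
    intro h; rw [h, abs_zero] at hrsp; linarith
  set κ : ℝ := sm / (r * sp) with hκ
  have hκpos : 0 ≤ κ := by
    rw [hκ]
    have : 0 ≤ sm * (r * sp) := by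
      have : sm * (r * sp) = r * (sm * sp) := by ring
      rw [this]; positivity
    rw [div_eq_mul_inv]
    have h2 : sm * (r * sp)⁻¹ = (sm * (r * sp)) * ((r * sp)⁻¹) ^ 2 := by
      field_simp
    rw [h2]; positivity
  have hκ1 : κ ≤ 1 := by
    have : |κ| ≤ 1 := by
      rw [hκ, abs_div, div_le_one (by linarith)]; exact hrsm
    exact (le_abs_self _).trans this
  have hl2 : lam ^ 2 ≤ c0 ^ 4 / 1600 := by
    have h2 : lam ^ 2 ≤ (c0 ^ 2 / 40) ^ 2 := pow_le_pow_left₀ hlam.le hl 2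
    have h3 : (c0 ^ 2 / 40) ^ 2 = c0 ^ 4 / 1600 := by ring
    linarith
  have hx : lam ^ 2 / (4 * c0 ^ 2) / c0 ^ 2 ≤ 1 / 6400 := by
    rw [div_div, div_le_iff₀ (by positivity)]
    have h3 : 1 / 6400 * (4 * c0 ^ 2 * c0 ^ 2) = c0 ^ 4 / 1600 := by ring
    rw [h3]; exact hl2
  have hκ2 : 1 - 1 / 6400 ≤ κ := by
    have h1 : κ ^ 2 = 1 - (r ^ 2 - 1) / (r * sp) ^ 2 := by
      have hne : (r * sp) ^ 2 ≠ 0 := pow_ne_zero 2 hrsne
      have hs1 : sm ^ 2 = (r * sp) ^ 2 - (r ^ 2 - 1) := by linarith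
      rw [hκ, div_pow, hs1, sub_div, div_self hne]
    have h2 : (r ^ 2 - 1) / (r * sp) ^ 2 ≤ lam ^ 2 / (4 * c0 ^ 2) / c0 ^ 2 := by
      have h3 : c0 ^ 2 ≤ (r * sp) ^ 2 := by
        rw [← sq_abs (r * sp)]; exact pow_le_pow_left₀ hc.le hrsp 2
      gcongr
    nlinarith
  have hAe : A = R' * (cp : ℝ) / ((r * sp : ℝ) : ℂ) + ((κ * q : ℝ) : ℂ) := by
    have hne : ((r * sp : ℝ) : ℂ) ≠ 0 := by exact_mod_cast hrsne
    have h1 : ((κ * q : ℝ) : ℂ) = ((sm * q : ℝ) : ℂ) / ((r * sp : ℝ) : ℂ) := by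
      rw [hκ]
      rw [← Complex.ofReal_div]
      congr 1
      field_simp
    rw [h1, ← add_div, ← hA]
    field_simp
  have hfirst : ‖R' * (cp : ℝ) / ((r * sp : ℝ) : ℂ)‖ ≤ 1 / 200 := by
    rw [norm_div, norm_mul, Complex.norm_real, Complex.norm_real, Real.norm_eq_abs,
      Real.norm_eq_abs]
    have h1 : |cp| ≤ 1 := by
      rw [abs_le]; constructor <;> nlinarith [sq_nonneg sp]
    rw [div_le_iff₀ (by linarith)]
    have h2 : ‖R'‖ * |cp| ≤ 8 * lam ^ 2 / c0 ^ 3 * 1 := by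
      apply mul_le_mul hR' h1 (abs_nonneg _) (by positivity)
    have h3 : 8 * lam ^ 2 / c0 ^ 3 ≤ 1 / 200 * c0 := by
      rw [div_le_iff₀ (by positivity)]
      have h4 : 1 / 200 * c0 * c0 ^ 3 = 8 * (c0 ^ 4 / 1600) := by ring
      rw [h4]; linarith
    have h5 : 1 / 200 * c0 ≤ 1 / 200 * |r * sp| := by linarith
    linarith
  have hsecond : |κ * q - 3 / 4| ≤ 261 / 1000 := by
    rw [abs_le]; constructor <;> nlinarith
  rw [hAe]
  have h4 : R' * (cp : ℝ) / ((r * sp : ℝ) : ℂ) + ((κ * q : ℝ) : ℂ) - 3 / 4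
      = R' * (cp : ℝ) / ((r * sp : ℝ) : ℂ) + (((κ * q - 3 / 4 : ℝ)) : ℂ) := by
    push_cast; ring
  rw [h4]
  refine (norm_add_le _ _).trans ?_
  rw [Complex.norm_real, Real.norm_eq_abs]
  linarith

theorem sin_TW0_40 (lam b psi : ℝ) (hb : Real.sin b ≠ 0) :
    0 ≤ Real.sin (TW lam b psi 0) * Real.sin psi := by
  rw [h7_sin_TW lam b psi hb 0]
  have h := F3bAux.oW0_mul lam b psi
  have h2 : oW lam b psi 0 * Real.sqrt (1 - clip (W lam b psi 0) ^ 2) * Real.sin psi
      = Real.sqrt (1 - clip (W lam b psi 0) ^ 2) * |Real.sin psi| := by rw [← h]; ring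
  rw [h2]; positivity

theorem sin_TW2_40 (lam b psi : ℝ) (h0 : 0 ≤ lam) (h1 : lam ≤ 1 / 100) (hb : Real.sin b ≠ 0) :
    0 ≤ Real.sin (TW lam b psi 2) * Real.sin (psi + b) := by
  have h := T0_reflect lam b psi h0 h1 hb
  have h2 := sin_TW0_40 lam b (-psi - b) hb
  have h3 : TW lam b (-psi - b) 0 = T0 lam b (-psi - b) := rfl
  rw [h3, h, Real.sin_neg] at h2
  have h4 : Real.sin (-psi - b) = -Real.sin (psi + b) := by
    rw [← Real.sin_neg]; congr 1; ring
  rw [h4] at h2
  linarith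

theorem W_cos40 (lam b psi : ℝ) (hb : Real.sin b ≠ 0) (k : ℕ)
    (h : Real.sin (TW lam b psi k) ≠ 0) : W lam b psi k = Real.cos (TW lam b psi k) := by
  rw [cos_TW lam b psi hb k, clip_of_lt ((sin_TW_ne lam b psi hb k).mp h)]

theorem absW40 (lam b psi c0 : ℝ) (hb : Real.sin b ≠ 0) (k : ℕ) (hc : 0 < c0)
    (h : c0 ≤ |Real.sin (TW lam b psi k)|) : |W lam b psi k| ≤ 1 - c0 ^ 2 / 2 := by
  have h1 : Real.sin (TW lam b psi k) ≠ 0 := by
    intro h2; rw [h2, abs_zero] at h; linarith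
  rw [W_cos40 lam b psi hb k h1]
  have h2 := Real.sin_sq_add_cos_sq (TW lam b psi k)
  have h3 : c0 ^ 2 ≤ Real.sin (TW lam b psi k) ^ 2 := by
    rw [← sq_abs (Real.sin _)]; exact pow_le_pow_left₀ hc.le h 2
  have h4 : |Real.cos (TW lam b psi k)| ^ 2 ≤ (1 - c0 ^ 2 / 2) ^ 2 := by
    rw [sq_abs]; nlinarith [sq_nonneg (c0 ^ 2)]
  have h5 : 0 ≤ 1 - c0 ^ 2 / 2 := by
    have : Real.sin (TW lam b psi k) ^ 2 ≤ 1 := Real.sin_sq_le_one _
    linarith
  exact (pow_le_pow_iff_left₀ (abs_nonneg _) h5 two_ne_zero).mp h4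


end SF
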