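import Mathlib

/-!
# SF-WQI: quantitative inverse function theorem for holomorphic functions

Proof in words.  Cauchy: `|F''| <= 64 M` on `|z| <= 1/2`, so `|F' z - F' 0| <= 64 M |z|`.
`r = min (min (1/2) r0) (c / (256 M))`: on `ball 0 r`, `|F' z - F' 0| <= |F' 0| / 4`, so `F` approximates
its linear part at 0 with constant `|F' 0| / 4`: F is injective and for `|w - F 0| < rho := c r / 2` there is
`T w` with `F (T w) = w`.  T is holomorphic, `T' w = 1 / F' (T w)`, `|F' 0/F' (T w) - 1| <= 1/3`.
-/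

namespace SF

open Metric

theorem qinv (M c r0 : ℝ) (hM : 0 < M) (hc : 0 < c) (hr0 : 0 < r0) :
    ∃ r rho : ℝ, 0 < r ∧ r ≤ 1 / 2 ∧ r ≤ r0 ∧ 0 < rho ∧ ∀ F : ℂ → ℂ,
      DifferentiableOn ℂ F (ball 0 1) → (∀ z ∈ ball (0 : ℂ) 1, ‖F z - F 0‖ ≤ M) →
      c ≤ ‖deriv F 0‖ →
      Set.InjOn F (ball 0 r) ∧ ∃ T : ℂ → ℂ, DifferentiableOn ℂ T (ball (F 0) rho) ∧ T (F 0) = 0 ∧
        ∀ w ∈ ball (F 0) rho, T w ∈ ball (0 : ℂ) r ∧ F (T w) = w ∧ deriv T w ≠ 0 ∧
          ‖deriv T w * deriv F 0 - 1‖ ≤ 1 / 2 := by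
  refine ⟨min (min (1 / 2) r0) (c / (256 * M)), c * min (min (1 / 2) r0) (c / (256 * M)) / 2,
    ?_, ?_, ?_, ?_, ?_⟩
  · positivity
  · exact le_trans (min_le_left _ _) (min_le_left _ _)
  · exact le_trans (min_le_left _ _) (min_le_right _ _)
  · positivity
  intro F hF hFM hcF
  set r : ℝ := min (min (1 / 2) r0) (c / (256 * M)) with hr
  have hrpos : 0 < r := by positivity
  have hr2 : r ≤ 1 / 2 := le_trans (min_le_left _ _) (min_le_left _ _)
  have hr3 : r ≤ c / (256 * M) := min_le_right _ _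
  set D : ℝ := ‖deriv F 0‖ with hD
  have hDpos : 0 < D := lt_of_lt_of_le hc hcF
  -- first derivative bound
  have h1 : ∀ z : ℂ, ‖z‖ < 3 / 4 → ‖deriv F z‖ ≤ 8 * M := by
    intro z hz
    have hsub : closedBall z (1 / 8) ⊆ ball (0 : ℂ) 1 := by
      intro y hy
      rw [mem_closedBall, dist_eq_norm] at hy
      rw [mem_ball_zero_iff]
      calc ‖y‖ = ‖(y - z) + z‖ := by ring_nf
        _ ≤ ‖y - z‖ + ‖z‖ := norm_add_le _ _
        _ < 1 := by linarith
    have hd : DiffContOnCl ℂ (fun y => F y - F 0) (ball z (1 / 8)) := by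
      apply DifferentiableOn.diffContOnCl
      apply DifferentiableOn.mono _ (closure_ball_subset_closedBall)
      exact (hF.mono hsub).sub_const _
    have := Complex.norm_deriv_le_of_forall_mem_sphere_norm_le (c := z) (R := 1 / 8) (C := M)
      (by norm_num) hd (fun y hy => hFM y (hsub (sphere_subset_closedBall hy)))
    have hde : deriv (fun y => F y - F 0) z = deriv F z := by
      rw [deriv_sub_const]
    rw [hde] at this
    linarith
  have hF' : DifferentiableOn ℂ (deriv F) (ball 0 1) := hF.deriv isOpen_ball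
  have h2 : ∀ z : ℂ, ‖z‖ < 1 / 2 → ‖deriv (deriv F) z‖ ≤ 64 * M := by
    intro z hz
    have hsub : closedBall z (1 / 8) ⊆ ball (0 : ℂ) (3 / 4) := by
      intro y hy
      rw [mem_closedBall, dist_eq_norm] at hy
      rw [mem_ball_zero_iff]
      calc ‖y‖ = ‖(y - z) + z‖ := by ring_nf
        _ ≤ ‖y - z‖ + ‖z‖ := norm_add_le _ _
        _ < 3 / 4 := by linarith
    have hd : DiffContOnCl ℂ (deriv F) (ball z (1 / 8)) := by
      apply DifferentiableOn.diffContOnCl
      apply DifferentiableOn.mono _ (closure_ball_subset_closedBall)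
      exact hF'.mono (hsub.trans (ball_subset_ball (by norm_num)))
    have := Complex.norm_deriv_le_of_forall_mem_sphere_norm_le (c := z) (R := 1 / 8) (C := 8 * M)
      (by norm_num) hd (fun y hy => h1 y (by
        have := hsub (sphere_subset_closedBall hy)
        rwa [mem_ball_zero_iff] at this))
    linarith
  -- derivative is close to the derivative at 0
  have h3 : ∀ z ∈ ball (0 : ℂ) r, ‖deriv F z - deriv F 0‖ ≤ D / 4 := by
    intro z hz
    have hzr : ‖z‖ < r := by rwa [mem_ball_zero_iff] at hz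
    have hcv : Convex ℝ (ball (0 : ℂ) (1 / 2)) := convex_ball _ _
    have := hcv.norm_image_sub_le_of_norm_deriv_le (f := deriv F) (C := 64 * M)
      (x := 0) (y := z)
      (fun y hy => by
        have hy' : y ∈ ball (0 : ℂ) 1 := ball_subset_ball (by norm_num) hy
        exact (hF' y hy').differentiableAt (isOpen_ball.mem_nhds hy'))
      (fun y hy => h2 y (by rwa [mem_ball_zero_iff] at hy))
      (mem_ball_self (by norm_num)) (by rw [mem_ball_zero_iff]; linarith)
    refine le_trans this ?_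
    rw [sub_zero]
    have : 64 * M * ‖z‖ ≤ 64 * M * (c / (256 * M)) := by
      apply mul_le_mul_of_nonneg_left _ (by positivity)
      linarith
    have h4 : 64 * M * (c / (256 * M)) = c / 4 := by
      field_simp
      norm_num
    linarith
  have hdiff : ∀ z ∈ ball (0 : ℂ) r, DifferentiableAt ℂ F z := by
    intro z hz
    have hz' : z ∈ ball (0 : ℂ) 1 := ball_subset_ball (by linarith) hz
    exact (hF z hz').differentiableAt (isOpen_ball.mem_nhds hz')
  -- linear approximation
  have h5 : ∀ x ∈ ball (0 : ℂ) r, ∀ y ∈ ball (0 : ℂ) r,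
      ‖F x - F y - deriv F 0 * (x - y)‖ ≤ D / 4 * ‖x - y‖ := by
    intro x hx y hy
    have hcv : Convex ℝ (ball (0 : ℂ) r) := convex_ball _ _
    have := hcv.norm_image_sub_le_of_norm_deriv_le (f := fun z => F z - deriv F 0 * z)
      (C := D / 4) (x := y) (y := x)
      (fun z hz => (hdiff z hz).sub ((differentiableAt_id).const_mul _))
      (fun z hz => by
        have : deriv (fun z => F z - deriv F 0 * z) z = deriv F z - deriv F 0 := by
          have h := ((hdiff z hz).hasDerivAt).sub ((hasDerivAt_id z).const_mul (deriv F 0))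
          have h' : HasDerivAt (fun z => F z - deriv F 0 * z) (deriv F z - deriv F 0 * 1) z := h
          rw [h'.deriv, mul_one]
        rw [this]
        exact h3 z hz) hy hx
    calc ‖F x - F y - deriv F 0 * (x - y)‖
        = ‖F x - deriv F 0 * x - (F y - deriv F 0 * y)‖ := by ring_nf
      _ ≤ D / 4 * ‖x - y‖ := this
  have h6 : ∀ x ∈ ball (0 : ℂ) r, ∀ y ∈ ball (0 : ℂ) r,
      3 / 4 * D * ‖x - y‖ ≤ ‖F x - F y‖ := by
    intro x hx y hy
    have e1 : ‖deriv F 0 * (x - y)‖ ≤ ‖F x - F y‖ + ‖F x - F y - deriv F 0 * (x - y)‖ := by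
      calc ‖deriv F 0 * (x - y)‖ = ‖(F x - F y) - (F x - F y - deriv F 0 * (x - y))‖ := by
            ring_nf
        _ ≤ _ := norm_sub_le _ _
    rw [norm_mul] at e1
    have e2 := h5 x hx y hy
    nlinarith [e1, e2]
  have hinj : Set.InjOn F (ball 0 r) := by
    intro x hx y hy hxy
    have := h6 x hx y hy
    rw [hxy, sub_self, norm_zero] at this
    have h0 : ‖x - y‖ ≤ 0 := by
      by_contra hcon
      push Not at hcon
      have : 0 < 3 / 4 * D * ‖x - y‖ := by positivity
      linarith
    have : ‖x - y‖ = 0 := le_antisymm h0 (norm_nonneg _)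
    rwa [norm_eq_zero, sub_eq_zero] at this
  refine ⟨hinj, ?_⟩
  -- surjectivity
  have hne : deriv F 0 ≠ 0 := by
    rw [← norm_pos_iff]
    exact hDpos
  have hsurj : ∀ w ∈ ball (F 0) (c * r / 2), ∃ z ∈ ball (0 : ℂ) r, F z = w := by
    intro w hw
    rw [mem_ball, dist_eq_norm] at hw
    -- contraction mapping
    set K : Set ℂ := closedBall (0 : ℂ) (2 / 3 * r) with hK
    have hKr : K ⊆ ball (0 : ℂ) r := closedBall_subset_ball (by linarith)
    set g : ℂ → ℂ := fun z => z - (F z - w) / deriv F 0 with hg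
    have hgl : ∀ x ∈ K, ∀ y ∈ K, ‖g x - g y‖ ≤ 1 / 4 * ‖x - y‖ := by
      intro x hx y hy
      have e := h5 x (hKr hx) y (hKr hy)
      have : g x - g y = -((F x - F y - deriv F 0 * (x - y)) / deriv F 0) := by
        simp only [hg]
        field_simp
        ring
      rw [this, norm_neg, norm_div, div_le_iff₀ hDpos]
      linarith
    have h0K : (0 : ℂ) ∈ K := by
      rw [hK, mem_closedBall, dist_self]
      positivity
    have hg0 : ‖g 0‖ ≤ r / 2 := by
      have : g 0 = (w - F 0) / deriv F 0 := by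
        simp only [hg]
        ring
      rw [this, norm_div, div_le_iff₀ hDpos]
      have : c * r / 2 ≤ r / 2 * D := by nlinarith
      linarith
    have hmaps : Set.MapsTo g K K := by
      intro x hx
      have e := hgl x hx 0 h0K
      rw [sub_zero] at e
      have hx' : ‖x‖ ≤ 2 / 3 * r := by rwa [hK, mem_closedBall_zero_iff] at hx
      rw [hK, mem_closedBall_zero_iff]
      calc ‖g x‖ = ‖(g x - g 0) + g 0‖ := by ring_nf
        _ ≤ ‖g x - g 0‖ + ‖g 0‖ := norm_add_le _ _
        _ ≤ 1 / 4 * (2 / 3 * r) + r / 2 := by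
            have : 1 / 4 * ‖x‖ ≤ 1 / 4 * (2 / 3 * r) := by linarith
            linarith
        _ = 2 / 3 * r := by ring
    have hKc : IsComplete K := (isClosed_closedBall).isComplete
    have hcontr : ContractingWith (1 / 4) (hmaps.restrict g K K) := by
      refine ⟨?_, ?_⟩
      · rw [← NNReal.coe_lt_coe]
        push_cast
        norm_num
      · apply LipschitzWith.of_dist_le_mul
        rintro ⟨x, hx⟩ ⟨y, hy⟩
        have := hgl x hx y hy
        simp only [Subtype.dist_eq, Set.MapsTo.val_restrict_apply, dist_eq_norm]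
        push_cast
        exact this
    obtain ⟨z, hz, hfix, -⟩ := hcontr.exists_fixedPoint' hKc hmaps h0K (edist_ne_top _ _)
    refine ⟨z, hKr hz, ?_⟩
    have : z - (F z - w) / deriv F 0 = z := hfix
    have h7 : (F z - w) / deriv F 0 = 0 := by
      linear_combination -this
    rw [div_eq_zero_iff] at h7
    rcases h7 with h7 | h7
    · exact sub_eq_zero.mp h7
    · exact absurd h7 hne
  -- the inverse
  classical
  let T : ℂ → ℂ := fun w => if h : w ∈ ball (F 0) (c * r / 2) then (hsurj w h).choose else 0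
  have hT : ∀ w ∈ ball (F 0) (c * r / 2), T w ∈ ball (0 : ℂ) r ∧ F (T w) = w := by
    intro w hw
    have e : T w = (hsurj w hw).choose := by
      simp only [T, dif_pos hw]
    rw [e]
    exact (hsurj w hw).choose_spec
  have hcent : F 0 ∈ ball (F 0) (c * r / 2) := mem_ball_self (by positivity)
  have hT0 : T (F 0) = 0 := by
    have := hT _ hcent
    exact hinj this.1 (mem_ball_self hrpos) this.2
  have hcontT : ∀ w ∈ ball (F 0) (c * r / 2), ContinuousAt T w := by
    intro w hw
    rw [Metric.continuousAt_iff]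
    intro ε hε
    obtain ⟨δ, hδ, hδs⟩ := Metric.isOpen_iff.mp isOpen_ball w hw
    refine ⟨min δ (3 / 4 * D * ε), by positivity, ?_⟩
    intro y hy
    have hy1 : y ∈ ball (F 0) (c * r / 2) :=
      hδs (lt_of_lt_of_le hy (min_le_left _ _))
    have hy2 : dist y w < 3 / 4 * D * ε := lt_of_lt_of_le hy (min_le_right _ _)
    have e := h6 (T y) (hT y hy1).1 (T w) (hT w hw).1
    rw [(hT y hy1).2, (hT w hw).2] at e
    rw [dist_eq_norm] at hy2 ⊢
    have : 3 / 4 * D * ‖T y - T w‖ < 3 / 4 * D * ε := lt_of_le_of_lt e hy2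
    exact lt_of_mul_lt_mul_left this (by positivity)
  have hderivT : ∀ w ∈ ball (F 0) (c * r / 2), HasDerivAt T (deriv F (T w))⁻¹ w ∧
      3 / 4 * D ≤ ‖deriv F (T w)‖ := by
    intro w hw
    have hlow : 3 / 4 * D ≤ ‖deriv F (T w)‖ := by
      have e := h3 (T w) (hT w hw).1
      have : ‖deriv F 0‖ ≤ ‖deriv F (T w)‖ + ‖deriv F (T w) - deriv F 0‖ := by
        calc ‖deriv F 0‖ = ‖deriv F (T w) - (deriv F (T w) - deriv F 0)‖ := by ring_nf
          _ ≤ _ := norm_sub_le _ _
      linarith
    refine ⟨?_, hlow⟩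
    apply HasDerivAt.of_local_left_inverse (f := F) (hcontT w hw)
      (hdiff (T w) (hT w hw).1).hasDerivAt
    · rw [← norm_pos_iff]
      have : 0 < 3 / 4 * D := by positivity
      linarith
    · filter_upwards [isOpen_ball.mem_nhds hw] with y hy
      exact (hT y hy).2
  refine ⟨T, ?_, hT0, ?_⟩
  · intro w hw
    exact (hderivT w hw).1.differentiableAt.differentiableWithinAt
  · intro w hw
    obtain ⟨hd, hlow⟩ := hderivT w hw
    have hpos : 0 < ‖deriv F (T w)‖ := by
      have : 0 < 3 / 4 * D := by positivity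
      linarith
    have hne' : deriv F (T w) ≠ 0 := norm_pos_iff.mp hpos
    refine ⟨(hT w hw).1, (hT w hw).2, ?_, ?_⟩
    · rw [hd.deriv]
      exact inv_ne_zero hne'
    · rw [hd.deriv]
      have : (deriv F (T w))⁻¹ * deriv F 0 - 1 = -((deriv F (T w) - deriv F 0) / deriv F (T w)) := by
        field_simp
        ring
      rw [this, norm_neg, norm_div, div_le_iff₀ hpos]
      have e := h3 (T w) (hT w hw).1
      linarith

end SF
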