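import Pool.Agent.Helper65.SF.XC

/-!
# SF-XB: measure of the bad pairs

Proof in words.  `q = 0` contributes at most 1.  The three parts of `BadP`: `path_count` with `a = l0 - 1`, `a = m0 - 1`, and the union over a
(if fewer than G0 levels are available the exponent is 0 and the bound is trivial).
For `i` not in `BadP`: `m = fg M m0 i` is in `[m0, m1]`, `goodN m (anc ..)`, `LG_node`; `|Dq| > Gam` with
`Dq = log (A/B)`, `A, B >= fib m/4` (`slope_comp`, `TE_deriv`) gives `A >= (fib m/4) exp Gam` or `B >= (fib m/4) exp Gam`; here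
`A = deriv (TE m) (EE m (midn M i))` (this is the case d = 0, W = 0 of `tail_count`) and
`B = deriv (TE m) (EE m (sh m q (wq n M i q) (midn M i)))`, `wq` takes two consecutive values.  Sum over m in `[m0,m1]` and over q.
(`y = Gam - log 4`; `exp ((c/log (1/lam)) log 4)` is absorbed in the constant; for `Gam < log 4` the bound is trivial.)
-/

namespace SF

open MeasureTheory Classical

namespace XB56

/-- first part of the bad set -/
def P1 (M l0 H i : ℕ) : Prop := ∀ k, l0 ≤ k → k ≤ l0 + H → ¬ goodN k (anc jL k M i)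

/-- second part of the bad set -/
def P2 (M m0 m1 i : ℕ) : Prop := ∀ k, m0 ≤ k → k ≤ m1 → ¬ goodN k (anc jL k M i)

/-- third part of the bad set -/
def P3 (M m1 Gp a i : ℕ) : Prop := 5 ≤ a ∧ a + Gp ≤ m1 ∧
    ∀ k, a < k → k ≤ a + Gp → ¬ goodN k (anc jL k M i)

/-- the main part -/
def TT (lam : ℝ) (n M l0 H m0 m1 Gp : ℕ) (Gam : ℝ) (i q : ℕ) : Prop :=
  ¬ BadP M l0 H m0 m1 Gp i ∧ 1 ≤ q ∧ Gam < |Dq lam n M m0 i q|

/-- large slope at the node -/
def TA (lam : ℝ) (M m : ℕ) (y : ℝ) (d : ℕ) (W : ℕ → ℤ) (i : ℕ) : Prop :=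
  LG (98 / 1000) m (midn M i) ∧
    0 < sh m d (W i) (midn M i) ∧ sh m d (W i) (midn M i) < 1 ∧
    (Nat.fib m : ℝ) * Real.exp y
      ≤ deriv (fun t => TE lam t m) (EE lam m (sh m d (W i) (midn M i)))

theorem cnt (N : ℕ) (D : ℝ) (hD : 0 < D) (p p' : ℕ → Prop) (b : ℝ)
    (himp : ∀ i, i < N → p i → p' i)
    (h : (((Finset.range N).filter p').card : ℝ) ≤ b * D) :
    ∑ i ∈ Finset.range N, (if p i then 1 / D else 0) ≤ b := by
  rw [← Finset.sum_filter, Finset.sum_const, nsmul_eq_mul, mul_one_div, div_le_iff₀ hD]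
  refine le_trans ?_ h
  have h1 : (Finset.range N).filter p ⊆ (Finset.range N).filter p' := by
    intro i hi
    rw [Finset.mem_filter] at hi ⊢
    exact ⟨hi.1, himp i (Finset.mem_range.1 hi.1) hi.2⟩
  exact_mod_cast Finset.card_le_card h1

theorem midn_pos (M i : ℕ) : 0 < midn M i := by
  unfold midn
  positivity

theorem midn_lt {M i : ℕ} (hi : i < 2 ^ jL M) : midn M i < 1 := by
  unfold midn
  rw [div_lt_one (by positivity)]
  have h1 : i + 1 ≤ 2 ^ jL M := hi
  have h2 : (i : ℝ) + 1 ≤ 2 ^ jL M := by exact_mod_cast h1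
  linarith

/-- The integer part takes two consecutive values. -/
theorem floor_two (c x : ℝ) (hx0 : 0 < x) (hx1 : x < 1) : ⌊x + c⌋ = ⌊c⌋ ∨ ⌊x + c⌋ = ⌊c⌋ + 1 := by
  have h1 : ⌊c⌋ ≤ ⌊x + c⌋ := Int.floor_mono (by linarith)
  have h2 : ⌊x + c⌋ ≤ ⌊c⌋ + 1 := by
    have : ⌊x + c⌋ < ⌊c⌋ + 2 := by
      rw [Int.floor_lt]
      push_cast
      linarith [Int.lt_floor_add_one c]
    omega
  omega

/-- Derivatives at good points. -/
theorem deriv_ge {lam : ℝ} (h0 : 0 < lam) (h1 : lam ≤ 1 / 100) {m : ℕ} (hm : 1 ≤ m) {s : ℝ}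
    (hs0 : 0 < s) (hs1 : s < 1) (hs : Real.sin (Real.pi * (Nat.fib m : ℝ) * s) ≠ 0) :
    (Nat.fib m : ℝ) / 4 ≤ deriv (fun t => TE lam t m) (EE lam m s) := by
  have h2 := (EE_spec lam h0.le h1 m hm s hs0 hs1).1
  have h3 : |X lam (EE lam m s) m| < 1 := by
    rw [← sin_TE_ne lam (EE lam m s) h0.le m, h2]
    exact hs
  obtain ⟨d, hd, hd1, -⟩ := TE_deriv lam (EE lam m s) h0.le h1 m hm h3
  rw [hd1.deriv]
  exact hd

/-- The sine at the second point. -/
theorem sin_sh {m : ℕ} (hm : 1 ≤ m) (q : ℕ) (w : ℤ) (s : ℝ)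
    (hs : Real.sin (Real.pi * (Nat.fib m : ℝ) * s) ≠ 0) :
    Real.sin (Real.pi * (Nat.fib m : ℝ) * sh m q w s) ≠ 0 := by
  have hf : (Nat.fib m : ℝ) ≠ 0 := by
    have := Nat.fib_pos.2 hm
    positivity
  have h1 : Real.pi * (Nat.fib m : ℝ) * sh m q w s = Real.pi * (Nat.fib m : ℝ) * s +
      (((q : ℤ) * (Nat.fib (m - 1) : ℤ) - w * (Nat.fib m : ℤ) : ℤ) : ℝ) * Real.pi := by
    unfold sh
    push_cast
    field_simp
    ring
  rw [h1, Real.sin_add_int_mul_pi]
  exact mul_ne_zero (zpow_ne_zero _ (by norm_num)) hs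

/-- A large logarithm of a quotient. -/
theorem log_large {A B f G : ℝ} (hf : 0 < f) (hA : f / 4 ≤ A) (hB : f / 4 ≤ B)
    (h : G < |Real.log (A / B)|) :
    f * Real.exp (G - Real.log 4) ≤ A ∨ f * Real.exp (G - Real.log 4) ≤ B := by
  have hA0 : 0 < A := lt_of_lt_of_le (by positivity) hA
  have hB0 : 0 < B := lt_of_lt_of_le (by positivity) hB
  have h4 : Real.exp (G - Real.log 4) = Real.exp G / 4 := by
    rw [Real.exp_sub, Real.exp_log (by norm_num)]
  have hG : 0 < Real.exp G := Real.exp_pos _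
  rw [h4]
  rcases lt_abs.1 h with h | h
  · left
    have h5 : Real.exp G < A / B := by
      have := Real.exp_lt_exp.2 h
      rwa [Real.exp_log (by positivity)] at this
    rw [lt_div_iff₀ hB0] at h5
    nlinarith
  · right
    rw [← Real.log_inv, inv_div] at h
    have h5 : Real.exp G < B / A := by
      have := Real.exp_lt_exp.2 h
      rwa [Real.exp_log (by positivity)] at this
    rw [lt_div_iff₀ hA0] at h5
    nlinarith

/-- First good level. -/
theorem fg_spec {M m0 m1 i : ℕ} (h : ¬ P2 M m0 m1 i) :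
    m0 ≤ fg M m0 i ∧ fg M m0 i ≤ m1 ∧ goodN (fg M m0 i) (anc jL (fg M m0 i) M i) := by
  unfold P2 at h
  push Not at h
  obtain ⟨k, h1, h2, h3⟩ := h
  have hmem : k ∈ {k | m0 ≤ k ∧ goodN k (anc jL k M i)} := ⟨h1, h3⟩
  have hs := Nat.sInf_mem ⟨k, hmem⟩
  exact ⟨hs.1, (Nat.sInf_le hmem).trans h2, hs.2⟩

/-- The index function with two values. -/
noncomputable def WW (n M q : ℕ) (i : ℕ) : ℤ :=
  if i < 2 ^ jL M then wq n M i q else ⌊q * (Nat.fib (n - 1) : ℝ) / (Nat.fib n : ℝ)⌋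

theorem WW_two (n M q i : ℕ) : WW n M q i = ⌊q * (Nat.fib (n - 1) : ℝ) / (Nat.fib n : ℝ)⌋ ∨
    WW n M q i = ⌊q * (Nat.fib (n - 1) : ℝ) / (Nat.fib n : ℝ)⌋ + 1 := by
  unfold WW
  split_ifs with h
  · unfold wq
    exact floor_two _ _ (midn_pos M i) (midn_lt h)
  · exact Or.inl rfl

/-- The main part is covered by the large slopes. -/
theorem TT_cover {lam : ℝ} (h0 : 0 < lam) (h1 : lam ≤ 1 / 100) {n M l0 H m0 m1 Gp Q : ℕ}
    {Gam : ℝ} (hm0 : 6 ≤ m0) (hm1M : m1 ≤ M)
    (hsh : ∀ i < 2 ^ jL M, ¬ BadP M l0 H m0 m1 Gp i → ∀ q, 1 ≤ q → q < Q →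
        0 < sh (fg M m0 i) q (wq n M i q) (midn M i) ∧ sh (fg M m0 i) q (wq n M i q) (midn M i) < 1)
    {i q : ℕ} (hi : i < 2 ^ jL M) (hq : q < Q) (hT : TT lam n M l0 H m0 m1 Gp Gam i q) :
    ∃ m ∈ Finset.Icc m0 m1, TA lam M m (Gam - Real.log 4) 0 (fun _ => 0) i ∨
      TA lam M m (Gam - Real.log 4) q (WW n M q) i := by
  obtain ⟨hP, hq1, hD⟩ := hT
  have hP2 : ¬ P2 M m0 m1 i := fun h => hP (Or.inr (Or.inl h))
  obtain ⟨hf1, hf2, hf3⟩ := fg_spec hP2
  have hs := hsh i hi hP q hq1 hq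
  rw [Dq] at hD
  generalize fg M m0 i = m at hf1 hf2 hf3 hs hD
  have hLG : LG (98 / 1000) m (midn M i) := LG_node m M i (by omega) hf3
  have hsin : Real.sin (Real.pi * (Nat.fib m : ℝ) * midn M i) ≠ 0 := by
    have := hLG.2 m (by omega) (by omega)
    intro h
    rw [h, abs_zero] at this
    norm_num at this
  have hm : 1 ≤ m := by omega
  have hA := deriv_ge h0 h1 hm (midn_pos M i) (midn_lt hi) hsin
  have hB := deriv_ge h0 h1 hm hs.1 hs.2 (sin_sh hm q (wq n M i q) _ hsin)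
  have hfp : (0:ℝ) < Nat.fib m := by exact_mod_cast Nat.fib_pos.2 hm
  rw [GG] at hD
  refine ⟨m, Finset.mem_Icc.2 ⟨hf1, hf2⟩, ?_⟩
  rcases log_large hfp hA hB hD with h | h
  · left
    have h2 : sh m (0 : ℕ) (0 : ℤ) (midn M i) = midn M i := by
      unfold sh
      push_cast
      ring
    refine ⟨hLG, ?_, ?_, ?_⟩
    · rw [h2]
      exact midn_pos M i
    · rw [h2]
      exact midn_lt hi
    · rw [h2]
      exact h
  · right
    have h2 : WW n M q i = wq n M i q := by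
      unfold WW
      rw [if_pos hi]
    refine ⟨hLG, ?_, ?_, ?_⟩
    · rw [h2]
      exact hs.1
    · rw [h2]
      exact hs.2
    · rw [h2]
      exact h

/-- `tail_count` in terms of `TA`. -/
theorem tail_TA : ∃ (c C lam1 C9 : ℝ), 0 < c ∧ 0 < C ∧ 0 < lam1 ∧ lam1 ≤ 1 / 100 ∧ 1 ≤ C9 ∧
    ∀ lam : ℝ, 0 < lam → lam ≤ lam1 → ∃ Cl : ℝ, 0 < Cl ∧ ∀ (m M d : ℕ) (y : ℝ) (W : ℕ → ℤ) (w0 : ℤ),
      C9 * (Nat.fib m : ℝ) ≤ 2 ^ jL M → 0 ≤ y → 1000 * d ≤ Nat.fib m → (∀ i, W i = w0 ∨ W i = w0 + 1) →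
      (((Finset.range (2 ^ jL M)).filter (TA lam M m y d W)).card : ℝ)
      ≤ Cl * Real.exp (-(c / Real.log (1 / lam)) * y + C * lam * m) * 2 ^ jL M := by
  obtain ⟨c, C, lam1, C9, h1, h2, h3, h4, h5, h⟩ := tail_count
  refine ⟨c, C, lam1, C9, h1, h2, h3, h4, h5, fun lam h0 h6 => ?_⟩
  obtain ⟨Cl, hCl, h7⟩ := h lam h0 h6
  refine ⟨Cl, hCl, fun m M d y W w0 a1 a2 a3 a4 => ?_⟩
  have h8 := h7 m M d y W w0 a1 a2 a3 a4
  have h9 : (Finset.range (2 ^ jL M)).filter (TA lam M m y d W) =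
      (Finset.range (2 ^ jL M)).filter (fun i => LG (98 / 1000) m (midn M i) ∧
        0 < sh m d (W i) (midn M i) ∧ sh m d (W i) (midn M i) < 1 ∧
        (Nat.fib m : ℝ) * Real.exp y
          ≤ deriv (fun t => TE lam t m) (EE lam m (sh m d (W i) (midn M i)))) :=
    Finset.filter_congr fun i _ => Iff.rfl
  rw [h9]
  exact h8

/-- Summation of the main part. -/
theorem tt_sum {N Q m0 m1 : ℕ} {D E : ℝ} (hD : 0 < D) (hm : m0 ≤ m1)
    (T : ℕ → ℕ → Prop) (A : ℕ → ℕ → Prop) (B : ℕ → ℕ → ℕ → Prop)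
    (hcov : ∀ i < N, ∀ q < Q, T i q → ∃ m ∈ Finset.Icc m0 m1, A m i ∨ B m q i)
    (hA : ∀ m ∈ Finset.Icc m0 m1, (((Finset.range N).filter (A m)).card : ℝ) ≤ E * D)
    (hB : ∀ m ∈ Finset.Icc m0 m1, ∀ q < Q, (((Finset.range N).filter (B m q)).card : ℝ) ≤ E * D) :
    ∑ i ∈ Finset.range N, ∑ q ∈ Finset.range Q, (if T i q then 1 / D else 0) ≤
      Q * ((m1 - m0 + 1 : ℕ) * (2 * E)) := by
  have hpos : ∀ p : Prop, 0 ≤ (if p then (1 / D : ℝ) else 0) := by
    intro p
    split_ifs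
    · positivity
    · exact le_rfl
  rw [Finset.sum_comm]
  have h1 : ∀ q ∈ Finset.range Q, ∑ i ∈ Finset.range N, (if T i q then 1 / D else 0) ≤
      (m1 - m0 + 1 : ℕ) * (2 * E) := by
    intro q hq
    have hq' := Finset.mem_range.1 hq
    calc ∑ i ∈ Finset.range N, (if T i q then 1 / D else 0)
        ≤ ∑ i ∈ Finset.range N, ∑ m ∈ Finset.Icc m0 m1,
          ((if A m i then 1 / D else 0) + (if B m q i then 1 / D else 0)) := by
          refine Finset.sum_le_sum fun i hi => ?_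
          by_cases hT : T i q
          · rw [if_pos hT]
            obtain ⟨m, hm, h⟩ := hcov i (Finset.mem_range.1 hi) q hq' hT
            have h2 : (1 / D : ℝ) ≤ (if A m i then 1 / D else 0) + (if B m q i then 1 / D else 0) := by
              rcases h with h | h
              · rw [if_pos h]
                linarith [hpos (B m q i)]
              · rw [if_pos h]
                linarith [hpos (A m i)]
            exact h2.trans (Finset.single_le_sum
              (f := fun m => (if A m i then 1 / D else 0) + (if B m q i then 1 / D else 0))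
              (fun m _ => add_nonneg (hpos _) (hpos _)) hm)
          · rw [if_neg hT]
            exact Finset.sum_nonneg fun m _ => add_nonneg (hpos _) (hpos _)
      _ = ∑ m ∈ Finset.Icc m0 m1, (∑ i ∈ Finset.range N, (if A m i then 1 / D else 0) +
          ∑ i ∈ Finset.range N, (if B m q i then 1 / D else 0)) := by
          rw [Finset.sum_comm]
          refine Finset.sum_congr rfl fun m _ => ?_
          rw [Finset.sum_add_distrib]
      _ ≤ ∑ m ∈ Finset.Icc m0 m1, (2 * E) := by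
          refine Finset.sum_le_sum fun m hm => ?_
          have h2 := cnt N D hD (A m) (A m) E (fun i _ h => h) (hA m hm)
          have h3 := cnt N D hD (B m q) (B m q) E (fun i _ h => h) (hB m hm q hq')
          linarith
      _ = (m1 - m0 + 1 : ℕ) * (2 * E) := by
          rw [Finset.sum_const, Nat.card_Icc, nsmul_eq_mul]
          congr 2
          omega
  calc _ ≤ ∑ q ∈ Finset.range Q, ((m1 - m0 + 1 : ℕ) * (2 * E) : ℝ) := Finset.sum_le_sum h1
    _ = _ := by
      rw [Finset.sum_const, Finset.card_range, nsmul_eq_mul]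

/-- Summation of all parts. -/
theorem total {N Q m1 : ℕ} {D : ℝ} (hD : 0 < D) (hND : (N : ℝ) = D)
    (B : ℕ → ℕ → Prop) (p1 p2 : ℕ → Prop) (p3 T : ℕ → ℕ → Prop) {b1 b2 b3 b4 : ℝ}
    (h1 : ∑ i ∈ Finset.range N, (if p1 i then 1 / D else 0) ≤ b1)
    (h2 : ∑ i ∈ Finset.range N, (if p2 i then 1 / D else 0) ≤ b2)
    (h3 : ∀ a, ∑ i ∈ Finset.range N, (if p3 a i then 1 / D else 0) ≤ b3)
    (h4 : ∑ i ∈ Finset.range N, ∑ q ∈ Finset.range Q, (if T i q then 1 / D else 0) ≤ Q * b4)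
    (hcov : ∀ i < N, ∀ q < Q, B i q → q = 0 ∨ p1 i ∨ p2 i ∨ (∃ a ∈ Finset.Icc 1 m1, p3 a i) ∨
      T i q) :
    ∑ i ∈ Finset.range N, ∑ q ∈ Finset.range Q, (if B i q then 1 / D else 0) ≤
      1 + Q * (b1 + b2 + m1 * b3 + b4) := by
  have hpos : ∀ p : Prop, 0 ≤ (if p then (1 / D : ℝ) else 0) := by
    intro p
    split_ifs
    · positivity
    · exact le_rfl
  have hpt : ∀ i ∈ Finset.range N, ∀ q ∈ Finset.range Q,
      (if B i q then (1 / D : ℝ) else 0) ≤
        (if q = 0 then 1 / D else 0) + (if p1 i then 1 / D else 0) + (if p2 i then 1 / D else 0) +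
          ∑ a ∈ Finset.Icc 1 m1, (if p3 a i then 1 / D else 0) + (if T i q then 1 / D else 0) := by
    intro i hi q hq
    have hs : 0 ≤ ∑ a ∈ Finset.Icc 1 m1, (if p3 a i then 1 / D else 0) :=
      Finset.sum_nonneg fun a _ => hpos _
    have e0 : 0 ≤ (if q = 0 then (1 / D : ℝ) else 0) := by
      split_ifs
      · positivity
      · exact le_rfl
    have e1 := hpos (p1 i)
    have e2 := hpos (p2 i)
    have e4 := hpos (T i q)
    by_cases hB : B i q
    · rw [if_pos hB]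
      rcases hcov i (Finset.mem_range.1 hi) q (Finset.mem_range.1 hq) hB with h | h | h | h | h
      · rw [if_pos h]
        linarith
      · rw [if_pos h]
        linarith
      · rw [if_pos h]
        linarith
      · obtain ⟨a, ha, h⟩ := h
        have h5 : (1 / D : ℝ) ≤ ∑ a ∈ Finset.Icc 1 m1, (if p3 a i then 1 / D else 0) := by
          have h6 : (1 / D : ℝ) = (if p3 a i then 1 / D else 0) := by
            rw [if_pos h]
          exact h6.le.trans (Finset.single_le_sum (f := fun a => (if p3 a i then 1 / D else 0))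
            (fun a _ => hpos _) ha)
        linarith
      · rw [if_pos h]
        linarith
    · rw [if_neg hB]
      linarith
  refine (Finset.sum_le_sum fun i hi => Finset.sum_le_sum (hpt i hi)).trans ?_
  have hQ0 : (0 : ℝ) ≤ Q := Nat.cast_nonneg _
  have g0 : ∑ i ∈ Finset.range N, ∑ q ∈ Finset.range Q, (if q = 0 then 1 / D else 0) ≤ 1 := by
    have h5 : ∀ i ∈ Finset.range N, ∑ q ∈ Finset.range Q, (if q = 0 then 1 / D else 0) ≤ 1 / D := by
      intro i _
      rw [Finset.sum_ite_eq']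
      split_ifs
      · exact le_rfl
      · positivity
    refine (Finset.sum_le_sum h5).trans ?_
    rw [Finset.sum_const, Finset.card_range, nsmul_eq_mul, hND, mul_one_div, div_self hD.ne']
  have g1 : ∀ (p : ℕ → Prop) (b : ℝ), ∑ i ∈ Finset.range N, (if p i then 1 / D else 0) ≤ b →
      ∑ i ∈ Finset.range N, ∑ _q ∈ Finset.range Q, (if p i then 1 / D else 0) ≤ Q * b := by
    intro p b h
    simp only [Finset.sum_const, Finset.card_range, nsmul_eq_mul]
    rw [← Finset.mul_sum]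
    exact mul_le_mul_of_nonneg_left h hQ0
  have g3 : ∑ i ∈ Finset.range N, ∑ _q ∈ Finset.range Q,
      ∑ a ∈ Finset.Icc 1 m1, (if p3 a i then 1 / D else 0) ≤ Q * (m1 * b3) := by
    simp only [Finset.sum_const, Finset.card_range, nsmul_eq_mul]
    rw [← Finset.mul_sum]
    refine mul_le_mul_of_nonneg_left ?_ hQ0
    rw [Finset.sum_comm]
    calc _ ≤ ∑ a ∈ Finset.Icc 1 m1, b3 := Finset.sum_le_sum fun a _ => h3 a
      _ = m1 * b3 := by
        rw [Finset.sum_const, Nat.card_Icc, nsmul_eq_mul]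
        simp
  have g11 := g1 p1 b1 h1
  have g12 := g1 p2 b2 h2
  simp only [Finset.sum_add_distrib] at *
  nlinarith [g0, g11, g12, g3, h4]

end XB56

open XB56

theorem bad_measure : ∃ (c C lam1 C9 c6 : ℝ) (G0 : ℕ), 0 < c ∧ 0 < C ∧ 0 < lam1 ∧ lam1 ≤ 1 / 100 ∧
    1 ≤ C9 ∧ 0 < c6 ∧ c6 < 1 ∧ 1 ≤ G0 ∧
    ∀ lam : ℝ, 0 < lam → lam ≤ lam1 → ∃ Cl : ℝ, 0 < Cl ∧
    ∀ (n M l0 H m0 m1 Gp Q : ℕ) (Gam : ℝ), 6 ≤ l0 → 6 ≤ m0 → l0 + H ≤ M → m0 ≤ m1 → m1 ≤ M → 1 ≤ Q →
      m1 ≤ n → C9 * (Nat.fib m1 : ℝ) ≤ 2 ^ jL M → 1000 * Q ≤ Nat.fib m0 → 0 ≤ Gam →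
      (∀ i < 2 ^ jL M, ¬ BadP M l0 H m0 m1 Gp i → ∀ q, 1 ≤ q → q < Q →
        0 < sh (fg M m0 i) q (wq n M i q) (midn M i) ∧ sh (fg M m0 i) q (wq n M i q) (midn M i) < 1) →
      ∑ i ∈ Finset.range (2 ^ jL M), ∑ q ∈ Finset.range Q,
        (if BadQ lam n M l0 H m0 m1 Gp Gam i q then (1 / 2 ^ jL M : ℝ) else 0)
      ≤ 1 + Q * ((1 - c6) ^ (H / G0) + (1 - c6) ^ ((m1 - m0) / G0) + m1 * (1 - c6) ^ (Gp / G0)
        + (m1 - m0 + 1 : ℕ) * (Cl * Real.exp (-(c / Real.log (1 / lam)) * Gam + C * lam * m1))) := by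
  obtain ⟨G0, c6, hG0, hc60, hc61, hpath⟩ := path_count
  obtain ⟨c, C, lam1, C9, hc, hC, hlam1, hlam1', hC9, htail⟩ := tail_TA
  refine ⟨c, C, lam1, C9, c6, G0, hc, hC, hlam1, hlam1', hC9, hc60, hc61, hG0, ?_⟩
  intro lam h0 h1
  obtain ⟨Cl, hCl, htail⟩ := htail lam h0 h1
  have hlam : lam ≤ 1 / 100 := h1.trans hlam1'
  have hL : 0 < Real.log (1 / lam) := by
    apply Real.log_pos
    rw [lt_div_iff₀ h0]
    linarith
  have hκ0 : 0 < c / Real.log (1 / lam) := by positivity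
  have hlog4 : 0 < Real.log 4 := Real.log_pos (by norm_num)
  refine ⟨(2 * Cl + 1) * Real.exp (c / Real.log (1 / lam) * Real.log 4), by positivity, ?_⟩
  intro n M l0 H m0 m1 Gp Q Gam hl0 hm0 hlH hm01 hm1M hQ hm1n hC9M hQm0 hGam hsh
  have hD0 : (0 : ℝ) < 2 ^ jL M := by positivity
  have hND : ((2 ^ jL M : ℕ) : ℝ) = 2 ^ jL M := by
    rw [Nat.cast_pow, Nat.cast_ofNat]
  have hb1 : ∑ i ∈ Finset.range (2 ^ jL M), (if P1 M l0 H i then 1 / (2 : ℝ) ^ jL M else 0) ≤
      (1 - c6) ^ (H / G0) := by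
    have hle : (H / G0) * G0 ≤ H := Nat.div_mul_le_self _ _
    refine cnt (2 ^ jL M) (2 ^ jL M) hD0 _ _ _ ?_ (hpath (l0 - 1) (H / G0) M (by omega) (by omega))
    intro i _ hi k hk hk'
    exact hi k (by omega) (by omega)
  have hb2 : ∑ i ∈ Finset.range (2 ^ jL M), (if P2 M m0 m1 i then 1 / (2 : ℝ) ^ jL M else 0) ≤
      (1 - c6) ^ ((m1 - m0) / G0) := by
    have hle : ((m1 - m0) / G0) * G0 ≤ m1 - m0 := Nat.div_mul_le_self _ _
    refine cnt (2 ^ jL M) (2 ^ jL M) hD0 _ _ _ ?_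
      (hpath (m0 - 1) ((m1 - m0) / G0) M (by omega) (by omega))
    intro i _ hi k hk hk'
    exact hi k (by omega) (by omega)
  have hb3 : ∀ a, ∑ i ∈ Finset.range (2 ^ jL M), (if P3 M m1 Gp a i then 1 / (2 : ℝ) ^ jL M else 0) ≤
      (1 - c6) ^ (Gp / G0) := by
    intro a
    have hle : (Gp / G0) * G0 ≤ Gp := Nat.div_mul_le_self _ _
    by_cases ha : 5 ≤ a ∧ a + Gp ≤ m1
    · refine cnt (2 ^ jL M) (2 ^ jL M) hD0 _ _ _ ?_ (hpath a (Gp / G0) M ha.1 (by omega))
      intro i _ hi k hk hk'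
      exact hi.2.2 k hk (by omega)
    · have hz : ∀ i ∈ Finset.range (2 ^ jL M),
          (if P3 M m1 Gp a i then 1 / (2 : ℝ) ^ jL M else 0) = 0 := by
        intro i _
        rw [if_neg]
        intro h
        exact ha ⟨h.1, h.2.1⟩
      rw [Finset.sum_eq_zero hz]
      exact pow_nonneg (by linarith) _
  have hb4 : ∑ i ∈ Finset.range (2 ^ jL M), ∑ q ∈ Finset.range Q,
      (if TT lam n M l0 H m0 m1 Gp Gam i q then 1 / (2 : ℝ) ^ jL M else 0) ≤
      Q * ((m1 - m0 + 1 : ℕ) * ((2 * Cl + 1) * Real.exp (c / Real.log (1 / lam) * Real.log 4) *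
        Real.exp (-(c / Real.log (1 / lam)) * Gam + C * lam * m1))) := by
    have hexp : Real.exp (c / Real.log (1 / lam) * Real.log 4) *
        Real.exp (-(c / Real.log (1 / lam)) * Gam + C * lam * m1) =
        Real.exp (-(c / Real.log (1 / lam)) * (Gam - Real.log 4) + C * lam * m1) := by
      rw [← Real.exp_add]
      congr 1
      ring
    have hQ0 : (0 : ℝ) ≤ Q := Nat.cast_nonneg _
    have hmm : (1 : ℝ) ≤ ((m1 - m0 + 1 : ℕ) : ℝ) := by
      exact_mod_cast Nat.succ_le_succ (Nat.zero_le _)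
    rw [mul_assoc (2 * Cl + 1), hexp]
    have hE0 := Real.exp_pos (-(c / Real.log (1 / lam)) * (Gam - Real.log 4) + C * lam * m1)
    by_cases hy : 0 ≤ Gam - Real.log 4
    · have hmono : ∀ m ∈ Finset.Icc m0 m1, C9 * (Nat.fib m : ℝ) ≤ 2 ^ jL M ∧
          Cl * Real.exp (-(c / Real.log (1 / lam)) * (Gam - Real.log 4) + C * lam * m) * 2 ^ jL M ≤
          (Cl * Real.exp (-(c / Real.log (1 / lam)) * (Gam - Real.log 4) + C * lam * m1)) *
            2 ^ jL M := by
        intro m hm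
        have hm2 := (Finset.mem_Icc.1 hm).2
        have hf : (Nat.fib m : ℝ) ≤ Nat.fib m1 := by exact_mod_cast Nat.fib_mono hm2
        have hmr : (m : ℝ) ≤ m1 := by exact_mod_cast hm2
        refine ⟨?_, ?_⟩
        · refine le_trans ?_ hC9M
          exact mul_le_mul_of_nonneg_left hf (by linarith)
        · refine mul_le_mul_of_nonneg_right ?_ hD0.le
          refine mul_le_mul_of_nonneg_left ?_ hCl.le
          refine Real.exp_le_exp.2 ?_
          have : C * lam * m ≤ C * lam * m1 := mul_le_mul_of_nonneg_left hmr (by positivity)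
          linarith
      have h5 := tt_sum (Q := Q) hD0 hm01
        (fun i q => TT lam n M l0 H m0 m1 Gp Gam i q)
        (fun m => TA lam M m (Gam - Real.log 4) 0 (fun _ => 0))
        (fun m q => TA lam M m (Gam - Real.log 4) q (WW n M q))
        (E := Cl * Real.exp (-(c / Real.log (1 / lam)) * (Gam - Real.log 4) + C * lam * m1))
        (N := 2 ^ jL M)
        (fun i hi q hq hT => TT_cover h0 hlam hm0 hm1M hsh hi hq hT)
        (fun m hm => (htail m M 0 (Gam - Real.log 4) (fun _ => 0) 0 (hmono m hm).1 hy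
          (Nat.zero_le _) (fun _ => Or.inl rfl)).trans (hmono m hm).2)
        (fun m hm q hq => (htail m M q (Gam - Real.log 4) (WW n M q) _ (hmono m hm).1 hy
          (((Nat.mul_le_mul_left 1000 hq.le).trans hQm0).trans
            (Nat.fib_mono (Finset.mem_Icc.1 hm).1)) (fun i => WW_two n M q i)).trans
              (hmono m hm).2)
      refine h5.trans ?_
      refine mul_le_mul_of_nonneg_left ?_ hQ0
      refine mul_le_mul_of_nonneg_left ?_ (by linarith)
      nlinarith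
    · have h5 : ∀ i ∈ Finset.range (2 ^ jL M), ∑ q ∈ Finset.range Q,
          (if TT lam n M l0 H m0 m1 Gp Gam i q then 1 / (2 : ℝ) ^ jL M else 0) ≤
          Q * (1 / (2 : ℝ) ^ jL M) := by
        intro i _
        calc _ ≤ ∑ q ∈ Finset.range Q, (1 / (2 : ℝ) ^ jL M) := by
              refine Finset.sum_le_sum fun q _ => ?_
              split_ifs
              · exact le_rfl
              · positivity
          _ = _ := by rw [Finset.sum_const, Finset.card_range, nsmul_eq_mul]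
      refine (Finset.sum_le_sum h5).trans ?_
      rw [Finset.sum_const, Finset.card_range, nsmul_eq_mul, hND]
      have h6 : (2 : ℝ) ^ jL M * (Q * (1 / (2 : ℝ) ^ jL M)) = Q * 1 := by
        field_simp
      rw [h6]
      refine mul_le_mul_of_nonneg_left ?_ hQ0
      have h7 : 1 ≤ Real.exp (-(c / Real.log (1 / lam)) * (Gam - Real.log 4) + C * lam * m1) := by
        refine Real.one_le_exp ?_
        have h8 : 0 ≤ C * lam * m1 := by positivity
        have h9 : 0 ≤ (c / Real.log (1 / lam)) * (Real.log 4 - Gam) :=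
          mul_nonneg hκ0.le (by linarith [not_le.1 hy])
        linarith
      have h8 : 1 ≤ (2 * Cl + 1) *
          Real.exp (-(c / Real.log (1 / lam)) * (Gam - Real.log 4) + C * lam * m1) :=
        one_le_mul_of_one_le_of_one_le (by linarith) h7
      exact one_le_mul_of_one_le_of_one_le hmm h8
  refine total hD0 hND _ _ _ _ _ hb1 hb2 hb3 hb4 ?_
  intro i _ q _ hB
  by_cases hq : q = 0
  · exact Or.inl hq
  by_cases hP : BadP M l0 H m0 m1 Gp i
  · rcases hP with hP | hP | ⟨a, ha1, ha2, ha3⟩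
    · exact Or.inr (Or.inl hP)
    · exact Or.inr (Or.inr (Or.inl hP))
    · exact Or.inr (Or.inr (Or.inr (Or.inl ⟨a, Finset.mem_Icc.2 ⟨by omega, by omega⟩,
        ha1, ha2, ha3⟩)))
  · refine Or.inr (Or.inr (Or.inr (Or.inr ⟨hP, by omega, ?_⟩)))
    rcases hB with h | h | h
    · exact absurd h hq
    · exact absurd h hP
    · exact h

end SF
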