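import Pool.Agent.Helper65.SF.XCa
import Pool.Agent.Helper65.SF.AF
import Pool.Agent.Helper65.SF.S1

/-!
# SF-XC: counting lemmas for the pieces

Proof in words.
* `path_count`: `no_good` at level `a + q G0`, every node there has `2^(jL M - jL (a + q G0))` descendants of level M (`anc` of `anc`).
* `LG_node`: as `LG_of_goodN` with the better constant (`pi fib (k+3) 2^(-12)/fib (k+4) <= 1/1000`).
* `tail_count`: Let A be the set of the i counted.  By `slope_comp` (at `s_i' = sh m d (W i) (midn M i)`, `LG (1/12) m s_i'` because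
  `fib j sh m d w s = fib j s + integer + O(2 d/fib m)` for `j <= m + 3`, `1000 d <= fib m`), every point `s'` of the interval of
  length `2^(-jL M)` around `s_i'` has `|deriv (X m) (EE m s')| >= fib m exp y/60`.  These intervals are translates of the disjoint
  nodes by one of two numbers (`W i = w0` or `w0 + 1`), so `#A 2^(-jL M) <= 2 vol{s' in (0,1) : ...}`, and `S1_tail` (with `y - log 60`, or
  trivially if `y < log 60`) gives the bound.
* `level_freq`: cut `[u,v]` into intervals of length `w = 2^(-16)/fib (n-G)`; by `steer` (k = n - G) each contains a point with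
  `fib n s`, `fib (n-1) s` close to the star, by `star_good` (constant 1/5 - 20 eps) a neighbourhood of size `c/fib n` satisfies `LG (1/10) n`.
-/

namespace SF

open MeasureTheory Classical

theorem tail_count : ∃ (c C lam1 C9 : ℝ), 0 < c ∧ 0 < C ∧ 0 < lam1 ∧ lam1 ≤ 1 / 100 ∧ 1 ≤ C9 ∧
    ∀ lam : ℝ, 0 < lam → lam ≤ lam1 → ∃ Cl : ℝ, 0 < Cl ∧ ∀ (m M d : ℕ) (y : ℝ) (W : ℕ → ℤ) (w0 : ℤ),
      C9 * (Nat.fib m : ℝ) ≤ 2 ^ jL M → 0 ≤ y → 1000 * d ≤ Nat.fib m → (∀ i, W i = w0 ∨ W i = w0 + 1) →
      (((Finset.range (2 ^ jL M)).filter (fun i => LG (98 / 1000) m (midn M i) ∧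
        0 < sh m d (W i) (midn M i) ∧ sh m d (W i) (midn M i) < 1 ∧
        (Nat.fib m : ℝ) * Real.exp y
          ≤ deriv (fun t => TE lam t m) (EE lam m (sh m d (W i) (midn M i))))).card : ℝ)
      ≤ Cl * Real.exp (-(c / Real.log (1 / lam)) * y + C * lam * m) * 2 ^ jL M := by
  obtain ⟨c, C, lamS, hc, hC, hlS, hlS1, hS⟩ := S1_tail
  obtain ⟨lamC, C9, hlC, hlC1, hC9, hcomp⟩ := slope_comp
  refine ⟨c, C, min lamS lamC, C9, hc, hC, lt_min hlS hlC, (min_le_left _ _).trans hlS1, hC9, ?_⟩
  intro lam h0 h1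
  have h1S : lam ≤ lamS := h1.trans (min_le_left _ _)
  have h1C : lam ≤ lamC := h1.trans (min_le_right _ _)
  obtain ⟨Cl, hCl, hS'⟩ := hS lam h0 h1S
  have hcomp' := hcomp lam h0 h1C
  have hlog : 0 < Real.log (1 / lam) := Real.log_pos (by rw [lt_div_iff₀ h0]; linarith)
  obtain ⟨κ, hκ⟩ : ∃ κ : ℝ, κ = c / Real.log (1 / lam) := ⟨_, rfl⟩
  have hκ0 : 0 < κ := by rw [hκ]; exact div_pos hc hlog
  rw [← hκ] at hS'
  simp only [← hκ]
  have hE0 : 0 < Real.exp (κ * Real.log 60) := Real.exp_pos _
  refine ⟨2 * Cl * Real.exp (κ * Real.log 60) + Real.exp (κ * Real.log 60), by positivity, ?_⟩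
  intro m M d y W w0 hM hy hd hW
  obtain ⟨A, hA⟩ : ∃ A : Finset ℕ, A = (Finset.range (2 ^ jL M)).filter (fun i =>
      LG (98 / 1000) m (midn M i) ∧
        0 < sh m d (W i) (midn M i) ∧ sh m d (W i) (midn M i) < 1 ∧
        (Nat.fib m : ℝ) * Real.exp y
          ≤ deriv (fun t => TE lam t m) (EE lam m (sh m d (W i) (midn M i)))) := ⟨_, rfl⟩
  rw [← hA]
  have hAmem : ∀ i ∈ A, LG (98 / 1000) m (midn M i) ∧
        0 < sh m d (W i) (midn M i) ∧ sh m d (W i) (midn M i) < 1 ∧
        (Nat.fib m : ℝ) * Real.exp y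
          ≤ deriv (fun t => TE lam t m) (EE lam m (sh m d (W i) (midn M i))) := by
    intro i hi
    rw [hA, Finset.mem_filter] at hi
    exact hi.2
  have hAcard : (A.card : ℝ) ≤ 2 ^ jL M := by
    have : A.card ≤ 2 ^ jL M := by
      rw [hA]
      exact (Finset.card_filter_le _ _).trans (le_of_eq (Finset.card_range _))
    exact_mod_cast this
  have hpow : (0 : ℝ) < 2 ^ jL M := by positivity
  have hCm : 0 ≤ C * lam * m := by positivity
  rcases Finset.eq_empty_or_nonempty A with hAe | ⟨i0, hi0⟩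
  · rw [hAe, Finset.card_empty, Nat.cast_zero]
    positivity
  have hm4 : 4 ≤ m := (hAmem i0 hi0).1.1
  have hF : (0 : ℝ) < (Nat.fib m : ℝ) := by exact_mod_cast Nat.fib_pos.2 (by omega)
  rcases lt_or_ge y (Real.log 60) with hy60 | hy60
  · have h2 : 1 ≤ Real.exp (κ * Real.log 60) * Real.exp (-κ * y + C * lam * m) := by
      rw [← Real.exp_add]
      apply Real.one_le_exp
      nlinarith
    calc (A.card : ℝ) ≤ 1 * 2 ^ jL M := by rw [one_mul]; exact hAcard
      _ ≤ Real.exp (κ * Real.log 60) * Real.exp (-κ * y + C * lam * m) * 2 ^ jL M :=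
          mul_le_mul_of_nonneg_right h2 hpow.le
      _ ≤ (2 * Cl * Real.exp (κ * Real.log 60) + Real.exp (κ * Real.log 60)) *
            Real.exp (-κ * y + C * lam * m) * 2 ^ jL M := by
          refine mul_le_mul_of_nonneg_right (mul_le_mul_of_nonneg_right ?_ (Real.exp_pos _).le)
            hpow.le
          have : 0 ≤ 2 * Cl * Real.exp (κ * Real.log 60) := by positivity
          linarith
  · obtain ⟨ℓ, hℓ⟩ : ∃ ℓ : ℝ, ℓ = 1 / 2 ^ jL M := ⟨_, rfl⟩
    have hℓ0 : 0 < ℓ := by rw [hℓ]; positivity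
    have hℓF : ℓ ≤ 1 / (C9 * (Nat.fib m : ℝ)) := by
      rw [hℓ]
      exact one_div_le_one_div_of_le (by positivity) hM
    have hB := hS' m (by omega) (y - Real.log 60) (by linarith)
    have hcard : ∀ r : ℤ, ((A.filter (fun i => W i = r)).card : ℝ) * ℓ ≤
        Cl * Real.exp (-κ * (y - Real.log 60) + C * lam * m) := by
      intro r
      have hdisj : (↑(A.filter (fun i => W i = r)) : Set ℕ).PairwiseDisjoint
          (fun i => Metric.ball (sh m d r (midn M i)) (ℓ / 2)) := by
        intro p _ q _ hpq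
        apply Metric.ball_disjoint_ball
        rw [Real.dist_eq]
        have e1 : sh m d r (midn M p) - sh m d r (midn M q) = ((p : ℝ) - q) * ℓ := by
          unfold sh midn
          rw [hℓ]
          ring
        rw [e1, abs_mul, abs_of_pos hℓ0]
        have e2 : (1 : ℝ) ≤ |(p : ℝ) - q| := by
          have e3 : (1 : ℤ) ≤ |(p : ℤ) - q| := by
            apply Int.one_le_abs
            intro h
            apply hpq
            omega
          exact_mod_cast e3
        nlinarith
      have hsub : (⋃ i ∈ A.filter (fun i => W i = r), Metric.ball (sh m d r (midn M i)) (ℓ / 2)) ⊆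
          {s : ℝ | s ∈ Set.Ioo 0 1 ∧ (Nat.fib m : ℝ) * Real.exp (y - Real.log 60) ≤
            |deriv (fun t => X lam t m) (EE lam m s)|} := by
        intro x hx
        simp only [Set.mem_iUnion, exists_prop, Finset.mem_filter] at hx
        obtain ⟨i, ⟨hi, hir⟩, hx⟩ := hx
        obtain ⟨a1, a2, a3, a4⟩ := hAmem i hi
        rw [hir] at a2 a3 a4
        rw [Metric.mem_ball, Real.dist_eq] at hx
        obtain ⟨b1, b2, b3, b4, b5, b6, b7⟩ := hcomp' m (sh m d r (midn M i)) x a2 a3
          (xc_LG_sh m d r (midn M i) hd a1) (by linarith)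
        refine ⟨⟨b1, b2⟩, ?_⟩
        rw [Real.exp_sub, Real.exp_log (by norm_num)]
        have e1 : (Nat.fib m : ℝ) * (Real.exp y / 60) = (Nat.fib m : ℝ) * Real.exp y / 60 := by ring
        rw [e1]
        linarith
      have h2 := (measure_mono hsub).trans hB
      rw [measure_biUnion_finset hdisj (fun p _ => measurableSet_ball)] at h2
      simp only [Real.volume_ball, Finset.sum_const, nsmul_eq_mul] at h2
      rw [← ENNReal.ofReal_natCast, ← ENNReal.ofReal_mul (Nat.cast_nonneg _),
        ENNReal.ofReal_le_ofReal_iff (by positivity)] at h2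
      calc ((A.filter (fun i => W i = r)).card : ℝ) * ℓ
          = ((A.filter (fun i => W i = r)).card : ℝ) * (2 * (ℓ / 2)) := by ring
        _ ≤ _ := h2
    have hAun : A.card ≤ (A.filter (fun i => W i = w0)).card +
        (A.filter (fun i => W i = w0 + 1)).card := by
      have e1 : A ⊆ A.filter (fun i => W i = w0) ∪ A.filter (fun i => W i = w0 + 1) := by
        intro i hi
        rw [Finset.mem_union, Finset.mem_filter, Finset.mem_filter]
        rcases hW i with h | h
        · exact Or.inl ⟨hi, h⟩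
        · exact Or.inr ⟨hi, h⟩
      exact (Finset.card_le_card e1).trans (Finset.card_union_le _ _)
    have hAun' : (A.card : ℝ) ≤ ((A.filter (fun i => W i = w0)).card : ℝ) +
        ((A.filter (fun i => W i = w0 + 1)).card : ℝ) := by exact_mod_cast hAun
    have hexp : Real.exp (-κ * (y - Real.log 60) + C * lam * m) =
        Real.exp (κ * Real.log 60) * Real.exp (-κ * y + C * lam * m) := by
      rw [← Real.exp_add]
      congr 1
      ring
    have hA1 : (A.card : ℝ) * ℓ ≤
        2 * (Cl * Real.exp (-κ * (y - Real.log 60) + C * lam * m)) := by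
      have e1 := hcard w0
      have e2 := hcard (w0 + 1)
      have e3 := mul_le_mul_of_nonneg_right hAun' hℓ0.le
      linarith
    rw [hexp] at hA1
    have hℓ2 : ℓ * 2 ^ jL M = 1 := by rw [hℓ]; field_simp
    have hexp0 : 0 < Real.exp (-κ * y + C * lam * m) := Real.exp_pos _
    calc (A.card : ℝ) = (A.card : ℝ) * ℓ * 2 ^ jL M := by rw [mul_assoc, hℓ2, mul_one]
      _ ≤ 2 * (Cl * (Real.exp (κ * Real.log 60) * Real.exp (-κ * y + C * lam * m))) * 2 ^ jL M :=
          mul_le_mul_of_nonneg_right hA1 hpow.le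
      _ ≤ (2 * Cl * Real.exp (κ * Real.log 60) + Real.exp (κ * Real.log 60)) *
            Real.exp (-κ * y + C * lam * m) * 2 ^ jL M := by
          refine mul_le_mul_of_nonneg_right ?_ hpow.le
          have : 0 ≤ Real.exp (κ * Real.log 60) * Real.exp (-κ * y + C * lam * m) := by positivity
          linarith

end SF
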