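import Pool.Agent.Helper65.SF.XDefs
import Pool.Agent.Helper65.SF.STEER
import Pool.Agent.Helper65.SF.NG

/-!
# SF-XC, part 1: nodes, ancestors, level frequency, path count

The docstring with the proofs is in `XC.lean`.
-/

namespace SF

open MeasureTheory Classical

/-! ### nodes and ancestors -/

theorem xc_split {k M : ℕ} (hk : k ≤ M) : (2 : ℝ) ^ jL M = 2 ^ (jL M - jL k) * 2 ^ jL k := by
  rw [← pow_add, Nat.sub_add_cancel (jL_mono hk)]

theorem xc_anc_bounds (k M i : ℕ) : anc jL k M i * 2 ^ (jL M - jL k) ≤ i ∧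
    i < (anc jL k M i + 1) * 2 ^ (jL M - jL k) := by
  unfold anc
  have h2 : 0 < 2 ^ (jL M - jL k) := by positivity
  exact ⟨Nat.div_mul_le_self _ _, Nat.lt_mul_of_div_lt (Nat.lt_succ_self _) h2⟩

/-- The midpoint of a node lies in the node of its ancestor. -/
theorem xc_mid (k M i : ℕ) (hk : k ≤ M) : (anc jL k M i : ℝ) / 2 ^ jL k ≤ midn M i ∧
    midn M i ≤ ((anc jL k M i : ℝ) + 1) / 2 ^ jL k := by
  obtain ⟨h1, h2⟩ := xc_anc_bounds k M i
  have h1' : (anc jL k M i : ℝ) * 2 ^ (jL M - jL k) ≤ i := by exact_mod_cast h1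
  have h2' : (i : ℝ) + 1 ≤ ((anc jL k M i : ℝ) + 1) * 2 ^ (jL M - jL k) := by exact_mod_cast h2
  have hp : (0 : ℝ) < 2 ^ jL k := by positivity
  have hq : (0 : ℝ) < 2 ^ (jL M - jL k) := by positivity
  unfold midn
  rw [xc_split hk, div_le_div_iff₀ hp (by positivity), div_le_div_iff₀ (by positivity) hp]
  constructor
  · nlinarith [mul_le_mul_of_nonneg_right h1' hp.le]
  · nlinarith [mul_le_mul_of_nonneg_right h2' hp.le]

theorem xc_count (N M : ℕ) (hN : N ≤ M) (P : ℕ → Prop) :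
    (((Finset.range (2 ^ jL M)).filter (fun i => P (anc jL N M i))).card : ℝ) ≤
      (((Finset.range (2 ^ jL N)).filter P).card : ℝ) * 2 ^ (jL M - jL N) := by
  have hj := jL_mono hN
  have h1 : ((Finset.range (2 ^ jL M)).filter (fun i => P (anc jL N M i))).card ≤
      2 ^ (jL M - jL N) * ((Finset.range (2 ^ jL N)).filter P).card := by
    refine Finset.card_le_mul_card_image_of_maps_to (f := anc jL N M) ?_ _ ?_
    · intro i hi
      simp only [Finset.mem_filter, Finset.mem_range] at hi ⊢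
      refine ⟨?_, hi.2⟩
      unfold anc
      rw [Nat.div_lt_iff_lt_mul (by positivity), ← pow_add]
      rw [show jL N + (jL M - jL N) = jL M by omega]
      exact hi.1
    · intro a _
      have h2 : ((Finset.range (2 ^ jL M)).filter (fun i => P (anc jL N M i))).filter
          (fun i => anc jL N M i = a) ⊆
          Finset.Ico (a * 2 ^ (jL M - jL N)) ((a + 1) * 2 ^ (jL M - jL N)) := by
        intro i hi
        simp only [Finset.mem_filter, Finset.mem_range, Finset.mem_Ico] at hi ⊢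
        have := xc_anc_bounds N M i
        rw [hi.2] at this
        exact this
      refine (Finset.card_le_card h2).trans ?_
      rw [Nat.card_Ico, add_mul, one_mul, Nat.add_sub_cancel_left]
  have h2 : (((Finset.range (2 ^ jL M)).filter (fun i => P (anc jL N M i))).card : ℝ) ≤
      ((2 ^ (jL M - jL N) * ((Finset.range (2 ^ jL N)).filter P).card : ℕ) : ℝ) := by
    exact_mod_cast h1
  refine h2.trans (le_of_eq ?_)
  push_cast
  ring

theorem xc_sin_lip (a b : ℝ) : |Real.sin a| - |a - b| ≤ |Real.sin b| := by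
  have h1 := Real.abs_sin_sub_sin_le a b
  have h2 := abs_sub_abs_le_abs_sub (Real.sin a) (Real.sin b)
  linarith

theorem LG_node (k M i : ℕ) (hk : k ≤ M) (h : goodN k (anc jL k M i)) :
    LG (98 / 1000) k (midn M i) := by
  obtain ⟨h1, h2⟩ := xc_mid k M i hk
  refine ⟨h.1, fun j hj1 hj2 => ?_⟩
  have hg := h.2 j hj1 hj2
  have hlen := (node_length k).2
  have hF : 0 < (Nat.fib (k + 4) : ℝ) := by exact_mod_cast Nat.fib_pos.2 (by omega)
  have hm : |midn k (anc jL k M i) - midn M i| ≤ 1 / 2 * (1 / (2:ℝ) ^ jL k) := by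
    have e1 : midn k (anc jL k M i) = (anc jL k M i : ℝ) / 2 ^ jL k + 1 / 2 * (1 / (2:ℝ) ^ jL k) := by
      unfold midn; ring
    have e2 : ((anc jL k M i : ℝ) + 1) / 2 ^ jL k = (anc jL k M i : ℝ) / 2 ^ jL k + 1 / (2:ℝ) ^ jL k := by
      ring
    rw [e1, abs_le]
    rw [e2] at h2
    constructor <;> linarith
  have hfj : (Nat.fib j : ℝ) ≤ (Nat.fib (k + 4) : ℝ) := by
    exact_mod_cast Nat.fib_mono (by omega : j ≤ k + 4)
  have hfj0 : 0 ≤ (Nat.fib j : ℝ) := Nat.cast_nonneg _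
  have hpi := Real.pi_pos
  have hpi4 : Real.pi < 4 := by linarith [Real.pi_lt_d2]
  have hd : |Real.pi * (Nat.fib j : ℝ) * midn k (anc jL k M i) - Real.pi * (Nat.fib j : ℝ) * midn M i|
      ≤ 1 / 1000 := by
    have e1 : Real.pi * (Nat.fib j : ℝ) * midn k (anc jL k M i) - Real.pi * (Nat.fib j : ℝ) * midn M i =
        Real.pi * ((Nat.fib j : ℝ) * (midn k (anc jL k M i) - midn M i)) := by ring
    rw [e1, abs_mul, abs_mul, abs_of_pos hpi, abs_of_nonneg hfj0]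
    have e3 : (Nat.fib j : ℝ) * |midn k (anc jL k M i) - midn M i| ≤ (Nat.fib (k + 4) : ℝ) *
        (1 / 2 * (1 / (2 ^ 11 * (Nat.fib (k + 4) : ℝ)))) := by
      apply mul_le_mul hfj _ (abs_nonneg _) hF.le
      exact hm.trans (by gcongr)
    have e4 : (Nat.fib (k + 4) : ℝ) * (1 / 2 * (1 / (2 ^ 11 * (Nat.fib (k + 4) : ℝ)))) = 1 / 4096 := by
      field_simp
      norm_num
    rw [e4] at e3
    have e5 : 0 ≤ (Nat.fib j : ℝ) * |midn k (anc jL k M i) - midn M i| := by positivity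
    nlinarith
  have h3 := xc_sin_lip (Real.pi * (Nat.fib j : ℝ) * midn k (anc jL k M i))
    (Real.pi * (Nat.fib j : ℝ) * midn M i)
  linarith

/-! ### the second point is good -/

theorem xc_cassini (m : ℕ) : |(Nat.fib (m + 1) : ℝ) ^ 2 - (Nat.fib (m + 2) : ℝ) * Nat.fib m| = 1 := by
  induction m with
  | zero => simp
  | succ m ih =>
    rw [← abs_neg, ← ih]
    congr 1
    have e1 : (Nat.fib (m + 1 + 2) : ℝ) = Nat.fib (m + 1) + Nat.fib (m + 2) := by
      rw [show m + 1 + 2 = (m + 1) + 2 by ring, Nat.fib_add_two]; push_cast; ring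
    have e2 : (Nat.fib (m + 2) : ℝ) = Nat.fib m + Nat.fib (m + 1) := by
      rw [Nat.fib_add_two]; push_cast; ring
    rw [e1, show m + 1 + 1 = m + 2 by ring, e2]
    ring

theorem xc_comb (p j : ℕ) (h1 : p + 4 ≤ j + 3) (h2 : j ≤ p + 4 + 3) : ∃ a b : ℤ, |b| ≤ 2 ∧
    (Nat.fib j : ℝ) = a * (Nat.fib (p + 4) : ℝ) + b * (Nat.fib (p + 3) : ℝ) := by
  have e2 : (Nat.fib (p + 2) : ℝ) = Nat.fib p + Nat.fib (p + 1) := by
    rw [Nat.fib_add_two]; push_cast; ring
  have e3 : (Nat.fib (p + 3) : ℝ) = Nat.fib (p + 1) + Nat.fib (p + 2) := by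
    rw [show p + 3 = (p + 1) + 2 by ring, Nat.fib_add_two]; push_cast; ring
  have e4 : (Nat.fib (p + 4) : ℝ) = Nat.fib (p + 2) + Nat.fib (p + 3) := by
    rw [show p + 4 = (p + 2) + 2 by ring, Nat.fib_add_two]; push_cast; ring
  have e5 : (Nat.fib (p + 5) : ℝ) = Nat.fib (p + 3) + Nat.fib (p + 4) := by
    rw [show p + 5 = (p + 3) + 2 by ring, Nat.fib_add_two]; push_cast; ring
  have e6 : (Nat.fib (p + 6) : ℝ) = Nat.fib (p + 4) + Nat.fib (p + 5) := by
    rw [show p + 6 = (p + 4) + 2 by ring, Nat.fib_add_two]; push_cast; ring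
  have e7 : (Nat.fib (p + 7) : ℝ) = Nat.fib (p + 5) + Nat.fib (p + 6) := by
    rw [show p + 7 = (p + 5) + 2 by ring, Nat.fib_add_two]; push_cast; ring
  obtain ⟨r, rfl⟩ : ∃ r, j = p + 1 + r := ⟨j - (p + 1), by omega⟩
  have hr : r ≤ 6 := by omega
  interval_cases r
  · exact ⟨-1, 2, by norm_num, by push_cast; linarith⟩
  · exact ⟨1, -1, by norm_num, by
      rw [show p + 1 + 1 = p + 2 by ring]; push_cast; linarith⟩
  · exact ⟨0, 1, by norm_num, by
      rw [show p + 1 + 2 = p + 3 by ring]; push_cast; linarith⟩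
  · exact ⟨1, 0, by norm_num, by
      rw [show p + 1 + 3 = p + 4 by ring]; push_cast; linarith⟩
  · exact ⟨1, 1, by norm_num, by
      rw [show p + 1 + 4 = p + 5 by ring]; push_cast; linarith⟩
  · exact ⟨2, 1, by norm_num, by
      rw [show p + 1 + 5 = p + 6 by ring]; push_cast; linarith⟩
  · exact ⟨3, 2, by norm_num, by
      rw [show p + 1 + 6 = p + 7 by ring]; push_cast; linarith⟩

theorem xc_LG_sh (m d : ℕ) (w : ℤ) (s : ℝ) (hd : 1000 * d ≤ Nat.fib m) (h : LG (98 / 1000) m s) :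
    LG (1 / 12) m (sh m d w s) := by
  refine ⟨h.1, fun j hj1 hj2 => ?_⟩
  have hg := h.2 j hj1 hj2
  obtain ⟨p, rfl⟩ : ∃ p, m = p + 4 := ⟨m - 4, by have := h.1; omega⟩
  obtain ⟨a, b, hb, hab⟩ := xc_comb p j hj1 hj2
  have hc := xc_cassini (p + 2)
  have hF : 0 < (Nat.fib (p + 4) : ℝ) := by exact_mod_cast Nat.fib_pos.2 (by omega)
  obtain ⟨κ, hκ⟩ : ∃ κ : ℝ, κ = (Nat.fib (p + 3) : ℝ) ^ 2 - (Nat.fib (p + 4) : ℝ) * Nat.fib (p + 2) :=
    ⟨_, rfl⟩
  have hκ1 : |κ| = 1 := by rw [hκ]; exact hc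
  have key : Real.pi * (Nat.fib j : ℝ) * sh (p + 4) d w s =
      Real.pi * (Nat.fib j : ℝ) * s + Real.pi * (d * b * κ / (Nat.fib (p + 4) : ℝ)) +
      ((d * (a * Nat.fib (p + 3) + b * Nat.fib (p + 2)) - w * Nat.fib j : ℤ) : ℝ) * Real.pi := by
    unfold sh
    rw [show p + 4 - 1 = p + 3 by omega]
    have h1 : (Nat.fib j : ℝ) * (d * (Nat.fib (p + 3) : ℝ) / (Nat.fib (p + 4) : ℝ)) =
        d * (a * (Nat.fib (p + 3) : ℝ) + b * (Nat.fib (p + 2) : ℝ)) +
          d * b * κ / (Nat.fib (p + 4) : ℝ) := by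
      rw [hab, hκ]
      field_simp
      ring
    push_cast
    linear_combination Real.pi * h1
  rw [key]
  have h2 : |Real.sin (Real.pi * (Nat.fib j : ℝ) * s +
      Real.pi * (d * b * κ / (Nat.fib (p + 4) : ℝ)) +
      ((d * (a * Nat.fib (p + 3) + b * Nat.fib (p + 2)) - w * Nat.fib j : ℤ) : ℝ) * Real.pi)| =
      |Real.sin (Real.pi * (Nat.fib j : ℝ) * s +
        Real.pi * (d * b * κ / (Nat.fib (p + 4) : ℝ)))| := by
    rw [Real.sin_add_int_mul_pi, abs_mul]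
    have h3 : |((-1 : ℝ)) ^ (d * (a * Nat.fib (p + 3) + b * Nat.fib (p + 2)) - w * Nat.fib j : ℤ)| = 1 := by
      rw [abs_zpow, abs_neg, abs_one, one_zpow]
    rw [h3, one_mul]
  rw [h2]
  have h4 := xc_sin_lip (Real.pi * (Nat.fib j : ℝ) * s)
    (Real.pi * (Nat.fib j : ℝ) * s + Real.pi * (d * b * κ / (Nat.fib (p + 4) : ℝ)))
  have h5 : |Real.pi * (Nat.fib j : ℝ) * s -
      (Real.pi * (Nat.fib j : ℝ) * s + Real.pi * (d * b * κ / (Nat.fib (p + 4) : ℝ)))| ≤ 14 / 1000 := by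
    rw [sub_add_cancel_left, abs_neg, abs_mul, abs_div, abs_mul, abs_mul, hκ1, mul_one,
      abs_of_pos Real.pi_pos, abs_of_pos hF, Nat.abs_cast]
    have hb' : |(b : ℝ)| ≤ 2 := by exact_mod_cast hb
    have hd' : 1000 * (d : ℝ) ≤ (Nat.fib (p + 4) : ℝ) := by exact_mod_cast hd
    have h6 : (d : ℝ) * |(b : ℝ)| / (Nat.fib (p + 4) : ℝ) ≤ 2 / 1000 := by
      rw [div_le_iff₀ hF]
      have hd0 : (0 : ℝ) ≤ d := Nat.cast_nonneg _
      nlinarith
    have h7 : 0 ≤ (d : ℝ) * |(b : ℝ)| / (Nat.fib (p + 4) : ℝ) := by positivity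
    have hpi : Real.pi < 4 := by linarith [Real.pi_lt_d2]
    nlinarith [Real.pi_pos]
  linarith

/-! ### level frequency -/

theorem xc_fib_le (n : ℕ) (hn : 1 ≤ n) (G : ℕ) : Nat.fib (n + G) ≤ 2 ^ G * Nat.fib n := by
  induction G with
  | zero => simp
  | succ G ih =>
    have h1 : Nat.fib (n + G + 1) ≤ 2 * Nat.fib (n + G) := by
      obtain ⟨q, hq⟩ : ∃ q, n + G = q + 1 := ⟨n + G - 1, by omega⟩
      rw [hq, Nat.fib_add_two]
      have : Nat.fib q ≤ Nat.fib (q + 1) := Nat.fib_le_fib_succ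
      omega
    calc Nat.fib (n + (G + 1)) ≤ 2 * Nat.fib (n + G) := h1
      _ ≤ 2 * (2 ^ G * Nat.fib n) := by omega
      _ = 2 ^ (G + 1) * Nat.fib n := by ring

theorem level_freq : ∃ c : ℝ, 0 < c ∧ ∀ u v : ℝ, u < v → ∃ n1 : ℕ, ∀ n ≥ n1,
    ENNReal.ofReal (c * (v - u)) ≤ volume {s : ℝ | u < s ∧ s < v ∧ LG (1 / 10) n s} := by
  obtain ⟨G, hG1, hG⟩ := steer (1 / 1000) (by norm_num)
  -- c = 1/2^(G+10)
  refine ⟨1 / 2 ^ (G + 10), by positivity, ?_⟩
  intro u v huv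
  obtain ⟨N, hN⟩ := exists_nat_gt (1 / (v - u))
  refine ⟨N + G + 5, fun n hn => ?_⟩
  obtain ⟨k, rfl⟩ : ∃ k, n = k + G := ⟨n - G, by omega⟩
  have hk5 : 5 ≤ k := by omega
  have hkN : N ≤ k := by omega
  have hvu : 0 < v - u := by linarith
  have hF0 : 0 < Nat.fib k := Nat.fib_pos.2 (by omega)
  have hF : (0 : ℝ) < (Nat.fib k : ℝ) := by exact_mod_cast hF0
  have hkF : (k : ℝ) ≤ (Nat.fib k : ℝ) := by exact_mod_cast Nat.le_fib_self hk5
  -- the window
  obtain ⟨w, hw⟩ : ∃ w : ℝ, w = 1 / (2 ^ 16 * (Nat.fib k : ℝ)) := ⟨_, rfl⟩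
  have hw0 : 0 < w := by rw [hw]; positivity
  have hwF : w * (Nat.fib k : ℝ) = 1 / 2 ^ 16 := by rw [hw]; field_simp
  have hwv : 4 * w ≤ v - u := by
    have h1 : 1 < (v - u) * N := by
      rw [div_lt_iff₀ hvu] at hN; linarith
    have h2 : 1 < (v - u) * (Nat.fib k : ℝ) := by
      have : (N : ℝ) ≤ k := by exact_mod_cast hkN
      nlinarith
    by_contra h3
    push Not at h3
    have h4 : (v - u) * (Nat.fib k : ℝ) < 4 * w * (Nat.fib k : ℝ) := mul_lt_mul_of_pos_right h3 hF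
    rw [mul_assoc, hwF] at h4
    norm_num at h4
    linarith
  -- the radius
  obtain ⟨δ, hδ⟩ : ∃ δ : ℝ, δ = w / 2 ^ (G + 3 + 3) := ⟨_, rfl⟩
  have hδ0 : 0 < δ := by rw [hδ]; positivity
  have hδw : δ ≤ w / 2 := by
    rw [hδ]
    apply div_le_div_of_nonneg_left hw0.le (by norm_num)
    calc (2 : ℝ) = 2 ^ 1 := by norm_num
      _ ≤ 2 ^ (G + 3 + 3) := pow_le_pow_right₀ (by norm_num) (by omega)
  have hδF : ∀ j, j ≤ k + G + 3 → (Nat.fib j : ℝ) * δ ≤ 1 / 100 := by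
    intro j hj
    have h1 : Nat.fib j ≤ 2 ^ (G + 3) * Nat.fib k := by
      refine (Nat.fib_mono hj).trans ?_
      rw [show k + G + 3 = k + (G + 3) by ring]
      exact xc_fib_le k (by omega) _
    have h2 : (Nat.fib j : ℝ) ≤ 2 ^ (G + 3) * (Nat.fib k : ℝ) := by exact_mod_cast h1
    calc (Nat.fib j : ℝ) * δ ≤ 2 ^ (G + 3) * (Nat.fib k : ℝ) * δ :=
          mul_le_mul_of_nonneg_right h2 hδ0.le
      _ = (w * (Nat.fib k : ℝ)) * (1 / 2 ^ 3) := by
          rw [hδ, pow_add (2:ℝ) (G + 3) 3]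
          field_simp
      _ ≤ 1 / 100 := by rw [hwF]; norm_num
  -- points
  have hpt : ∀ p : ℕ, ∃ s : ℝ, u + 2 * w * p + w / 2 ≤ s ∧ s ≤ u + 2 * w * p + w / 2 + w ∧
      ∀ s', |s' - s| < δ → LG (1 / 10) (k + G) s' := by
    intro p
    obtain ⟨s, hs1, hs2, a, b, ha, hb⟩ := hG k hk5 (u + 2 * w * p + w / 2) w (3 / 10)
      (-(3 / 10 * ((1 + Real.sqrt 5) / 2))) (by rw [hwF])
    refine ⟨s, hs1, hs2, fun s' hs' => ⟨by omega, fun j hj1 hj2 => ?_⟩⟩
    have h1 := star_good (k + G) (by omega) s a b (1 / 1000) le_rfl ha (by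
      rw [sub_neg_eq_add] at hb; exact hb) j hj1 hj2
    have h2 := xc_sin_lip (Real.pi * (Nat.fib j : ℝ) * s) (Real.pi * (Nat.fib j : ℝ) * s')
    have h3 : |Real.pi * (Nat.fib j : ℝ) * s - Real.pi * (Nat.fib j : ℝ) * s'| ≤ 4 / 100 := by
      rw [← mul_sub, abs_mul, abs_mul, abs_of_pos Real.pi_pos, Nat.abs_cast, abs_sub_comm, mul_assoc]
      have h4 : (Nat.fib j : ℝ) * |s' - s| ≤ (Nat.fib j : ℝ) * δ :=
        mul_le_mul_of_nonneg_left hs'.le (Nat.cast_nonneg _)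
      have h5 := hδF j (by omega)
      have h6 : 0 ≤ (Nat.fib j : ℝ) * |s' - s| := by positivity
      have hpi : Real.pi < 4 := by linarith [Real.pi_lt_d2]
      nlinarith [Real.pi_pos]
    linarith
  choose s hs1 hs2 hs3 using hpt
  -- number of windows
  obtain ⟨K, hK⟩ : ∃ K : ℕ, K = ⌊(v - u) / (2 * w)⌋₊ := ⟨_, rfl⟩
  have hK1 : (K : ℝ) * (2 * w) ≤ v - u := by
    rw [hK, ← le_div_iff₀ (by positivity)]
    exact Nat.floor_le (by positivity)
  have hK2 : v - u ≤ 2 * ((K : ℝ) * (2 * w)) := by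
    have h1 := Nat.lt_floor_add_one ((v - u) / (2 * w))
    rw [← hK, div_lt_iff₀ (by positivity)] at h1
    have h2 : (1 : ℝ) ≤ K := by
      have : 1 ≤ K := by
        rw [hK]
        apply Nat.le_floor
        rw [Nat.cast_one, le_div_iff₀ (by positivity)]
        linarith
      exact_mod_cast this
    nlinarith
  have hdisj : (↑(Finset.range K) : Set ℕ).PairwiseDisjoint (fun p => Metric.ball (s p) δ) := by
    intro p _ q _ hpq
    have hgen : ∀ p q : ℕ, p < q → Disjoint (Metric.ball (s p) δ) (Metric.ball (s q) δ) := by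
      intro p q hpq
      apply Metric.ball_disjoint_ball
      rw [Real.dist_eq, abs_sub_comm]
      have h1 : (p : ℝ) + 1 ≤ q := by exact_mod_cast hpq
      have h2 := hs2 p
      have h3 := hs1 q
      refine le_trans ?_ (le_abs_self _)
      nlinarith
    rcases lt_or_gt_of_ne hpq with h | h
    · exact hgen p q h
    · exact (hgen q p h).symm
  have hsub : (⋃ p ∈ Finset.range K, Metric.ball (s p) δ) ⊆
      {s : ℝ | u < s ∧ s < v ∧ LG (1 / 10) (k + G) s} := by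
    intro x hx
    simp only [Set.mem_iUnion, Finset.mem_range, exists_prop] at hx
    obtain ⟨p, hp, hx⟩ := hx
    rw [Metric.mem_ball, Real.dist_eq] at hx
    have h1 := hs1 p
    have h2 := hs2 p
    have h3 := abs_lt.1 hx
    have h4 : (p : ℝ) + 1 ≤ K := by exact_mod_cast hp
    have h5 : (0 : ℝ) ≤ p := Nat.cast_nonneg _
    refine ⟨?_, ?_, hs3 p x hx⟩
    · nlinarith
    · nlinarith
  refine le_trans ?_ (measure_mono hsub)
  rw [measure_biUnion_finset hdisj (fun p _ => measurableSet_ball)]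
  simp only [Real.volume_ball, Finset.sum_const, Finset.card_range, nsmul_eq_mul]
  rw [← ENNReal.ofReal_natCast K, ← ENNReal.ofReal_mul (Nat.cast_nonneg _)]
  apply ENNReal.ofReal_le_ofReal
  rw [hδ]
  have h6 : (K : ℝ) * (2 * (w / 2 ^ (G + 3 + 3))) = (K * (2 * w)) * (1 / 2 ^ (G + 6)) := by
    rw [show G + 3 + 3 = G + 6 by ring]; ring
  rw [h6]
  have h7 : (1 : ℝ) / 2 ^ (G + 10) = 1 / 2 ^ (G + 6) * (1 / 16) := by
    rw [show G + 10 = (G + 6) + 4 by ring, pow_add]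
    norm_num
    ring
  rw [h7]
  have h8 : (0 : ℝ) < 1 / 2 ^ (G + 6) := by positivity
  have h9 : (v - u) / 16 ≤ K * (2 * w) := by linarith
  calc 1 / 2 ^ (G + 6) * (1 / 16) * (v - u) = (v - u) / 16 * (1 / 2 ^ (G + 6)) := by ring
    _ ≤ K * (2 * w) * (1 / 2 ^ (G + 6)) := mul_le_mul_of_nonneg_right h9 h8.le

theorem path_count : ∃ (G0 : ℕ) (c6 : ℝ), 1 ≤ G0 ∧ 0 < c6 ∧ c6 < 1 ∧ ∀ a q M : ℕ, 5 ≤ a →
    a + q * G0 ≤ M →
    (((Finset.range (2 ^ jL M)).filter (fun i =>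
      ∀ k, a < k → k ≤ a + q * G0 → ¬ goodN k (anc jL k M i))).card : ℝ) ≤ (1 - c6) ^ q * 2 ^ jL M := by
  obtain ⟨G0, c6, hG, hc, hc1, h⟩ := no_good
  refine ⟨G0, c6, hG, hc, hc1, ?_⟩
  intro a q M ha hM
  have h1 := xc_count (a + q * G0) M hM
    (fun i' => ∀ k, a < k → k ≤ a + q * G0 → ¬ goodN k (anc jL k (a + q * G0) i'))
  have h2 : (Finset.range (2 ^ jL M)).filter (fun i =>
      ∀ k, a < k → k ≤ a + q * G0 → ¬ goodN k (anc jL k M i)) =
      (Finset.range (2 ^ jL M)).filter (fun i => (fun i' => ∀ k, a < k → k ≤ a + q * G0 →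
        ¬ goodN k (anc jL k (a + q * G0) i')) (anc jL (a + q * G0) M i)) := by
    apply Finset.filter_congr
    intro i _
    constructor
    · intro h3 k hk1 hk2
      rw [ch63_anc_anc jL_mono hk2 hM]
      exact h3 k hk1 hk2
    · intro h3 k hk1 hk2
      have := h3 k hk1 hk2
      rwa [ch63_anc_anc jL_mono hk2 hM] at this
  rw [h2]
  refine h1.trans ?_
  have h3 := mul_le_mul_of_nonneg_right (h a q ha)
    (by positivity : (0 : ℝ) ≤ 2 ^ (jL M - jL (a + q * G0)))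
  refine h3.trans (le_of_eq ?_)
  rw [xc_split hM]
  ring

end SF
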