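import Pool.Agent.Helper65.SF.BKDefs

/-!
# SF-X: definitions for the affine pieces
-/

namespace SF

open MeasureTheory Classical

/-- Conclusion of the affine similarity theorem for given constants. -/
def AffP (lam e1 C4 C9 : ℝ) (K l1 n0 : ℕ) : Prop :=
  ∀ (l0 m n d : ℕ) (s0 B e S : ℝ) (w : ℤ) (g : ℕ → Prop), l1 ≤ l0 → 1 ≤ d →
    (d : ℝ) ≤ e1 * (Nat.fib l0 : ℝ) → K * l0 ≤ m → m + n0 ≤ n → g l0 → g m → 0 < s0 → s0 < 1 →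
    (∀ k, l0 ≤ k → k ≤ m → g k → LG (98 / 1000) k s0) →
    debtS g (K * l0) (2 * Real.log 10) (1 / 10) (C4 * l0) (m - K * l0) ≤ B →
    w = ⌊s0 + d * (Nat.fib (n - 1) : ℝ) / (Nat.fib n : ℝ)⌋ →
    e = Real.exp (-(2 / 5) * ((m : ℝ) - l0)) → S = C4 * Real.exp (B + 3 / 10 * ((m : ℝ) - l0)) →
    e * S ≤ 1 →
    0 < sh m d w s0 ∧ sh m d w s0 < 1 ∧
    ∀ s : ℝ, |s - s0| ≤ 1 / (C9 * (Nat.fib m : ℝ)) → Real.sin (Real.pi * (Nat.fib n : ℝ) * s) ≠ 0 →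
      0 < s ∧ s < 1 ∧ Int.fract (s + d * (Nat.fib (n - 1) : ℝ) / (Nat.fib n : ℝ)) = sh n d w s ∧
      0 < sh n d w s ∧
      |EE lam n (sh n d w s) - EE lam m (sh m d w s0)
          - Real.exp (GG lam m s0 (sh m d w s0)) * (EE lam n s - EE lam m s0)|
        ≤ C9 * (1 + Real.exp (GG lam m s0 (sh m d w s0))) * (e + e * S) / (Nat.fib m : ℝ) ∧
      |EE lam n s - EE lam m s0| ≤ C9 / (Nat.fib m : ℝ) ∧
      (LG (1 / 11) n s → |GG lam n s (sh n d w s) - GG lam m s0 (sh m d w s0)| ≤ C9 * (e + e * S))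

/-- Conclusion of the theorem on small ratios for given constants. -/
def S2P (lam th r0 : ℝ) : Prop :=
  ∀ r : ℝ, 0 < r → r ≤ r0 → ∃ n1 : ℕ, ∀ n ≥ n1, ∀ d : ℕ, 1 ≤ d → (d : ℝ) ≤ r ^ (-th) →
    volume {s : ℝ | s ∈ Set.Ioo 0 1 ∧ LG (1 / 11) n s ∧ |Gr lam n d s| ≤ r} ≤ ENNReal.ofReal (r ^ th)

/-- The energy function extended by 0. -/
noncomputable def EEx (lam : ℝ) (n : ℕ) (s : ℝ) : ℝ := if s ∈ Set.Ioo (0:ℝ) 1 then EE lam n s else 0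

/-- First good level `>= a` of the path to the node `i` of level `M`. -/
noncomputable def fg (M a i : ℕ) : ℕ := sInf {k | a ≤ k ∧ goodN k (anc jL k M i)}

/-- Integer part for the rotated midpoint. -/
noncomputable def wq (n M i q : ℕ) : ℤ := ⌊midn M i + q * (Nat.fib (n - 1) : ℝ) / (Nat.fib n : ℝ)⌋

/-- Logarithmic ratio attached to the piece `i` and the rotation by `q`. -/
noncomputable def Dq (lam : ℝ) (n M m0 i q : ℕ) : ℝ :=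
  GG lam (fg M m0 i) (midn M i) (sh (fg M m0 i) q (wq n M i q) (midn M i))

/-- Bad paths. -/
def BadP (M l0 H m0 m1 Gp i : ℕ) : Prop :=
  (∀ k, l0 ≤ k → k ≤ l0 + H → ¬ goodN k (anc jL k M i)) ∨
  (∀ k, m0 ≤ k → k ≤ m1 → ¬ goodN k (anc jL k M i)) ∨
  ∃ a, 5 ≤ a ∧ a + Gp ≤ m1 ∧ ∀ k, a < k → k ≤ a + Gp → ¬ goodN k (anc jL k M i)

/-- Bad pairs. -/
def BadQ (lam : ℝ) (n M l0 H m0 m1 Gp : ℕ) (Gam : ℝ) (i q : ℕ) : Prop :=
  q = 0 ∨ BadP M l0 H m0 m1 Gp i ∨ Gam < |Dq lam n M m0 i q|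

end SF
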