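import Pool.Agent.Helper65.SF.XDefs
import Pool.Agent.Helper65.SF.S1

/-!
# SF-XT: typical sets and local mass

Proof in words.  `local_mass` gives c0, C0, lam1, and for lam the constant Cl0.  Take k = the largest number with
`4 Cl0 fib k <= Y^(1-del)`, if it is at least 1, and `y = del log Y`; then `exp (-y)/(Cl0 fib k) >= 4/Y > 2/Y`.  `n1 = k`.
T = the set of `local_mass` minus the finite set of band edges `{s : sin (pi fib n s) = 0}`; for s, s' in T with `|E s - x|, |E s' - x| <= 1/Y`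
we get `|s - s'| < 3/fib k`, so the set lies in an interval of length `6/fib k <= C Y^(-1+del)`.
`k <= 3 log Y + 3` gives the bound for the complement (`C` = 3 C0 and a factor `exp (3 C0)`).
If `Y^(1-del) < 4 Cl0` everything is trivial for Cl large (`Y^(-1+del) >= 1/(4 Cl0)`; T = `(0,1)` minus the band edges).
`EEx` is measurable: `EE_mono` (monotone on `(0,1)`), zero outside.  `|EEx| <= 3`: `EE_spec`.
-/

namespace SF

open MeasureTheory

theorem EEx_measurable (lam : ℝ) (h0 : 0 ≤ lam) (h1 : lam ≤ 1 / 100) (n : ℕ) (hn : 1 ≤ n) :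
    Measurable (EEx lam n) := by
  classical
  refine measurable_of_Iic fun a => ?_
  have hA : MeasurableSet {s : ℝ | s ∈ Set.Ioo (0:ℝ) 1 ∧ EE lam n s ≤ a} := by
    apply Set.OrdConnected.measurableSet
    refine ⟨?_⟩
    rintro x ⟨hx, hxa⟩ y ⟨hy, hya⟩ z ⟨hz1, hz2⟩
    have hz : z ∈ Set.Ioo (0:ℝ) 1 := ⟨lt_of_lt_of_le hx.1 hz1, lt_of_le_of_lt hz2 hy.2⟩
    exact ⟨hz, (EE_mono lam h0 h1 n hn hz hy hz2).trans hya⟩
  have e : EEx lam n ⁻¹' Set.Iic a = {s : ℝ | s ∈ Set.Ioo (0:ℝ) 1 ∧ EE lam n s ≤ a} ∪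
      ((Set.Ioo (0:ℝ) 1)ᶜ ∩ {_s : ℝ | 0 ≤ a}) := by
    ext s
    simp only [Set.mem_preimage, Set.mem_Iic, Set.mem_union, Set.mem_setOf_eq, Set.mem_inter_iff,
      Set.mem_compl_iff]
    unfold EEx
    by_cases hs : s ∈ Set.Ioo (0:ℝ) 1
    · rw [if_pos hs]; tauto
    · rw [if_neg hs]; tauto
  rw [e]
  exact hA.union (measurableSet_Ioo.compl.inter (MeasurableSet.const _))

theorem EEx_bound (lam : ℝ) (h0 : 0 ≤ lam) (h1 : lam ≤ 1 / 100) (n : ℕ) (hn : 1 ≤ n) (s : ℝ) :
    |EEx lam n s| ≤ 3 := by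
  unfold EEx
  split_ifs with h
  · exact (EE_spec lam h0 h1 n hn s h.1 h.2).2
  · norm_num

theorem xt_fib_exp (k : ℕ) (hk : 1 ≤ k) : Real.exp (((k : ℝ) - 3) / 3) ≤ (Nat.fib k : ℝ) := by
  have key : ∀ k : ℕ, 1 ≤ k → Real.exp (((k : ℝ) - 3) / 3) ≤ (Nat.fib k : ℝ) ∧
      Real.exp ((((k + 1 : ℕ) : ℝ) - 3) / 3) ≤ (Nat.fib (k + 1) : ℝ) := by
    intro k hk
    induction k, hk using Nat.le_induction with
    | base =>
      constructor
      · simp only [Nat.cast_one, Nat.fib_one]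
        apply Real.exp_le_one_iff.mpr; norm_num
      · have e0 : ((((1 + 1 : ℕ) : ℝ)) - 3) / 3 ≤ 0 := by norm_num
        have e1 : (Nat.fib (1 + 1) : ℝ) = 1 := by norm_num
        rw [e1]
        exact Real.exp_le_one_iff.mpr e0
    | succ k hk ih =>
      refine ⟨ih.2, ?_⟩
      have hf : (Nat.fib (k + 1 + 1) : ℝ) = Nat.fib k + Nat.fib (k + 1) := by
        exact_mod_cast Nat.fib_add_two
      rw [hf]
      have e1 : Real.exp (((k : ℝ) - 3) / 3) =
          Real.exp ((((k + 1 + 1 : ℕ) : ℝ) - 3) / 3) * Real.exp (-(2 / 3)) := by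
        rw [← Real.exp_add]; congr 1; push_cast; ring
      have e2 : Real.exp ((((k + 1 : ℕ) : ℝ) - 3) / 3) =
          Real.exp ((((k + 1 + 1 : ℕ) : ℝ) - 3) / 3) * Real.exp (-(1 / 3)) := by
        rw [← Real.exp_add]; congr 1; push_cast; ring
      have h3 : (1:ℝ) / 3 ≤ Real.exp (-(2 / 3)) := by
        have := Real.add_one_le_exp (-(2 / 3) : ℝ); linarith
      have h4 : (2:ℝ) / 3 ≤ Real.exp (-(1 / 3)) := by
        have := Real.add_one_le_exp (-(1 / 3) : ℝ); linarith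
      have hp := Real.exp_pos ((((k + 1 + 1 : ℕ) : ℝ) - 3) / 3)
      have := ih.1
      have := ih.2
      nlinarith
  exact (key k hk).1

theorem xt_k_le (k : ℕ) (hk : 1 ≤ k) (Y : ℝ) (hY : (Nat.fib k : ℝ) ≤ Y) :
    (k : ℝ) ≤ 3 * Real.log Y + 3 := by
  have h1 := (xt_fib_exp k hk).trans hY
  have h2 : ((k : ℝ) - 3) / 3 ≤ Real.log Y := by
    rw [Real.le_log_iff_exp_le (lt_of_lt_of_le (Real.exp_pos _) h1)]
    exact h1
  linarith

/-- A set of reals with pairwise distances `≤ δ` has volume `≤ 2 δ`. -/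
theorem xt_vol (A : Set ℝ) (δ : ℝ) (h : ∀ s ∈ A, ∀ s' ∈ A, |s' - s| ≤ δ) :
    volume A ≤ ENNReal.ofReal (2 * δ) := by
  rcases A.eq_empty_or_nonempty with he | ⟨s0, hs0⟩
  · rw [he]; simp
  · calc volume A ≤ volume (Set.Icc (s0 - δ) (s0 + δ)) := by
          apply measure_mono
          intro s hs
          have := abs_le.mp (h s0 hs0 s hs)
          exact ⟨by linarith [this.1], by linarith [this.2]⟩
      _ = ENNReal.ofReal (2 * δ) := by
          rw [Real.volume_Icc]; congr 1; ring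

theorem xt_find (Z a : ℝ) (ha : 1 ≤ a) (hZ : a ≤ Z) :
    ∃ k : ℕ, 1 ≤ k ∧ a * (Nat.fib k : ℝ) ≤ Z ∧ Z < a * (Nat.fib (k + 1) : ℝ) := by
  classical
  have hex : ∃ k : ℕ, Z < a * (Nat.fib (k + 1) : ℝ) := by
    obtain ⟨N, hN⟩ := exists_nat_gt Z
    refine ⟨N + 5, ?_⟩
    have h1 : N + 6 ≤ Nat.fib (N + 6) := Nat.le_fib_self (by omega)
    have h2 : (N : ℝ) + 6 ≤ (Nat.fib (N + 6) : ℝ) := by exact_mod_cast h1
    have h3 : (0:ℝ) ≤ (Nat.fib (N + 5 + 1) : ℝ) := Nat.cast_nonneg _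
    have h4 : (Nat.fib (N + 5 + 1) : ℝ) ≤ a * (Nat.fib (N + 5 + 1) : ℝ) := by nlinarith
    have h5 : (Nat.fib (N + 5 + 1) : ℝ) = (Nat.fib (N + 6) : ℝ) := rfl
    linarith
  refine ⟨Nat.find hex, ?_, ?_, Nat.find_spec hex⟩
  · by_contra h
    have h0 : Nat.find hex = 0 := by omega
    have h1 := Nat.find_spec hex
    rw [h0] at h1
    simp at h1
    linarith
  · have hk : 1 ≤ Nat.find hex := by
      by_contra h
      have h0 : Nat.find hex = 0 := by omega
      have h1 := Nat.find_spec hex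
      rw [h0] at h1
      simp at h1
      linarith
    have h2 := Nat.find_min hex (m := Nat.find hex - 1) (by omega)
    push Not at h2
    rwa [Nat.sub_add_cancel hk] at h2

theorem xt_meas (n : ℕ) : MeasurableSet {s : ℝ | Real.sin (Real.pi * (Nat.fib n : ℝ) * s) = 0} := by
  apply IsClosed.measurableSet
  exact isClosed_eq (by fun_prop) continuous_const

theorem typ : ∃ (c C lam1 : ℝ), 0 < c ∧ 0 < C ∧ 0 < lam1 ∧ lam1 ≤ 1 / 100 ∧
    ∀ lam : ℝ, 0 < lam → lam ≤ lam1 → ∃ Cl : ℝ, 1 ≤ Cl ∧ ∀ Y del : ℝ, 1 ≤ Y → 0 < del → del ≤ 1 →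
      ∃ n1 : ℕ, ∀ n ≥ n1, ∃ T : Set ℝ, MeasurableSet T ∧ T ⊆ Set.Ioo 0 1 ∧
        (∀ s ∈ T, Real.sin (Real.pi * (Nat.fib n : ℝ) * s) ≠ 0) ∧
        volume (Set.Ioo 0 1 \ T)
          ≤ ENNReal.ofReal (Cl * Y ^ (-(c * del / Real.log (1 / lam) - C * lam))) ∧
        ∀ x : ℝ, volume {s | s ∈ T ∧ |EEx lam n s - x| ≤ 1 / Y} ≤ ENNReal.ofReal (Cl * Y ^ (-1 + del)) := by
  obtain ⟨c0, C0, lam1, hc0, hC0, hl1, hl11, H⟩ := local_mass
  refine ⟨c0, 3 * C0, lam1, hc0, by positivity, hl1, hl11, ?_⟩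
  intro lam h0 h1
  obtain ⟨Cl0', hCl0', H⟩ := H lam h0 h1
  set Cl0 : ℝ := max Cl0' 1 with hCl0def
  have hge : Cl0' ≤ Cl0 := le_max_left _ _
  have hCl1 : 1 ≤ Cl0 := le_max_right _ _
  have hlam : lam ≤ 1 / 100 := h1.trans hl11
  refine ⟨48 * Cl0 * Real.exp (3 * C0), ?_, ?_⟩
  · have h2 : (1:ℝ) ≤ Real.exp (3 * C0) := Real.one_le_exp (by positivity)
    nlinarith
  intro Y del hY hd hd1
  have hYp : 0 < Y := by linarith
  have hE : (1:ℝ) ≤ Real.exp (3 * C0) := Real.one_le_exp (by positivity)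
  have hlogY : 0 ≤ Real.log Y := Real.log_nonneg hY
  rcases lt_or_ge (Y ^ (1 - del)) (4 * Cl0) with hcase | hcase
  · -- trivial case
    refine ⟨1, fun n hn => ?_⟩
    have hfn : (0:ℝ) < (Nat.fib n : ℝ) := by exact_mod_cast Nat.fib_pos.mpr (by omega)
    refine ⟨Set.Ioo 0 1 \ {s : ℝ | Real.sin (Real.pi * (Nat.fib n : ℝ) * s) = 0},
      measurableSet_Ioo.diff (xt_meas n), Set.sdiff_subset, fun s hs => hs.2, ?_, ?_⟩
    · have : volume (Set.Ioo (0:ℝ) 1 \ (Set.Ioo 0 1 \ {s : ℝ | Real.sin (Real.pi * (Nat.fib n : ℝ) * s) = 0})) = 0 := by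
        apply measure_mono_null _ (s1_null (Nat.fib n : ℝ) hfn)
        intro s hs
        by_contra hc
        exact hs.2 ⟨hs.1, hc⟩
      rw [this]
      exact zero_le
    · intro x
      calc volume {s | s ∈ Set.Ioo (0:ℝ) 1 \ {s : ℝ | Real.sin (Real.pi * (Nat.fib n : ℝ) * s) = 0} ∧
              |EEx lam n s - x| ≤ 1 / Y} ≤ volume (Set.Ioo (0:ℝ) 1) :=
            measure_mono fun s hs => hs.1.1
        _ = ENNReal.ofReal 1 := by rw [Real.volume_Ioo]; norm_num
        _ ≤ _ := by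
            apply ENNReal.ofReal_le_ofReal
            have h3 : Y ^ (-1 + del) = (Y ^ (1 - del))⁻¹ := by
              rw [← Real.rpow_neg hYp.le]; congr 1; ring
            rw [h3, ← div_eq_mul_inv]
            have h4 : 0 < Y ^ (1 - del) := Real.rpow_pos_of_pos hYp _
            rw [le_div_iff₀ h4]
            nlinarith
  · obtain ⟨k, hk, hk1, hk2⟩ := xt_find (Y ^ (1 - del)) (4 * Cl0) (by linarith) hcase
    have hfk : (0:ℝ) < (Nat.fib k : ℝ) := by exact_mod_cast Nat.fib_pos.mpr (by omega)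
    have hy : 0 ≤ del * Real.log Y := by positivity
    obtain ⟨T0, hT0m, hT0s, hT0v, hT0⟩ := H k hk (del * Real.log Y) hy
    refine ⟨k, fun n hn => ?_⟩
    have hfn : (0:ℝ) < (Nat.fib n : ℝ) := by
      have : 1 ≤ n := le_trans hk hn
      exact_mod_cast Nat.fib_pos.mpr (by omega)
    refine ⟨T0 \ {s : ℝ | Real.sin (Real.pi * (Nat.fib n : ℝ) * s) = 0},
      hT0m.diff (xt_meas n), Set.sdiff_subset.trans hT0s, fun s hs => hs.2, ?_, ?_⟩
    · have h5 : volume (Set.Ioo (0:ℝ) 1 \ (T0 \ {s : ℝ | Real.sin (Real.pi * (Nat.fib n : ℝ) * s) = 0}))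
          ≤ volume (Set.Ioo (0:ℝ) 1 \ T0) + volume {s : ℝ | Real.sin (Real.pi * (Nat.fib n : ℝ) * s) = 0} := by
        refine le_trans (measure_mono ?_) (measure_union_le _ _)
        intro s hs
        by_cases hsT : s ∈ T0
        · right
          by_contra hc
          exact hs.2 ⟨hsT, hc⟩
        · left
          exact ⟨hs.1, hsT⟩
      rw [s1_null (Nat.fib n : ℝ) hfn, add_zero] at h5
      refine h5.trans (hT0v.trans ?_)
      apply ENNReal.ofReal_le_ofReal
      have hkY : (Nat.fib k : ℝ) ≤ Y := by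
        have h6 : Y ^ (1 - del) ≤ Y := by
          calc Y ^ (1 - del) ≤ Y ^ (1:ℝ) := Real.rpow_le_rpow_of_exponent_le hY (by linarith)
            _ = Y := Real.rpow_one Y
        nlinarith
      have hkl := xt_k_le k hk Y hkY
      have e1 : Y ^ (-(c0 * del / Real.log (1 / lam) - 3 * C0 * lam)) =
          Real.exp (-(c0 / Real.log (1 / lam)) * (del * Real.log Y) + 3 * C0 * lam * Real.log Y) := by
        rw [Real.rpow_def_of_pos hYp]; congr 1; ring
      rw [e1]
      have e2 : 48 * Cl0 * Real.exp (3 * C0) *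
          Real.exp (-(c0 / Real.log (1 / lam)) * (del * Real.log Y) + 3 * C0 * lam * Real.log Y) =
          48 * Cl0 * Real.exp (-(c0 / Real.log (1 / lam)) * (del * Real.log Y)
            + (3 * C0 * lam * Real.log Y + 3 * C0)) := by
        rw [mul_assoc, ← Real.exp_add]; congr 2; ring
      rw [e2]
      have h7 : Real.exp (-(c0 / Real.log (1 / lam)) * (del * Real.log Y) + C0 * lam * k) ≤
          Real.exp (-(c0 / Real.log (1 / lam)) * (del * Real.log Y)
            + (3 * C0 * lam * Real.log Y + 3 * C0)) := by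
        apply Real.exp_le_exp.mpr
        have h8 : C0 * lam * k ≤ C0 * lam * (3 * Real.log Y + 3) :=
          mul_le_mul_of_nonneg_left hkl (by positivity)
        have h9 : C0 * lam * 3 ≤ 3 * C0 := by nlinarith
        nlinarith
      have h10 := Real.exp_pos (-(c0 / Real.log (1 / lam)) * (del * Real.log Y) + C0 * lam * k)
      calc Cl0' * Real.exp (-(c0 / Real.log (1 / lam)) * (del * Real.log Y) + C0 * lam * k)
          ≤ (48 * Cl0) * Real.exp (-(c0 / Real.log (1 / lam)) * (del * Real.log Y) + C0 * lam * k) := by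
            apply mul_le_mul_of_nonneg_right _ h10.le
            linarith
        _ ≤ _ := mul_le_mul_of_nonneg_left h7 (by linarith)
    · intro x
      have h6 : ∀ s ∈ {s | s ∈ T0 \ {s : ℝ | Real.sin (Real.pi * (Nat.fib n : ℝ) * s) = 0} ∧
          |EEx lam n s - x| ≤ 1 / Y}, ∀ s' ∈ {s | s ∈ T0 \ {s : ℝ | Real.sin (Real.pi * (Nat.fib n : ℝ) * s) = 0} ∧
          |EEx lam n s - x| ≤ 1 / Y}, |s' - s| ≤ 3 / (Nat.fib k : ℝ) := by
        rintro s ⟨hs, hsx⟩ s' ⟨hs', hsx'⟩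
        by_contra hc
        push Not at hc
        have h7 := hT0 n hn s hs.1 s' (hT0s hs'.1) hc.le
        have e1 : EEx lam n s = EE lam n s := by unfold EEx; rw [if_pos (hT0s hs.1)]
        have e2 : EEx lam n s' = EE lam n s' := by unfold EEx; rw [if_pos (hT0s hs'.1)]
        rw [e1] at hsx
        rw [e2] at hsx'
        have h8 : |EE lam n s' - EE lam n s| ≤ 2 / Y := by
          have e3 : EE lam n s' - EE lam n s = (EE lam n s' - x) - (EE lam n s - x) := by ring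
          rw [e3]
          calc |(EE lam n s' - x) - (EE lam n s - x)| ≤ |EE lam n s' - x| + |EE lam n s - x| := abs_sub _ _
            _ ≤ 1 / Y + 1 / Y := add_le_add hsx' hsx
            _ = 2 / Y := by ring
        have h9 : Real.exp (-(del * Real.log Y)) = Y ^ (-del) := by
          rw [Real.rpow_def_of_pos hYp]; congr 1; ring
        rw [h9] at h7
        have h10 : Y ^ (1 - del) = Y * Y ^ (-del) := by
          rw [show (1 - del : ℝ) = 1 + -del by ring, Real.rpow_add hYp, Real.rpow_one]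
        have h11 : 0 < Y ^ (-del) := Real.rpow_pos_of_pos hYp _
        have h12 : 4 / Y ≤ Y ^ (-del) / (Cl0' * (Nat.fib k : ℝ)) := by
          rw [div_le_div_iff₀ hYp (by positivity)]
          rw [h10] at hk1
          nlinarith
        have h13 : 2 / Y < 4 / Y := by
          apply div_lt_div_of_pos_right _ hYp; norm_num
        linarith
      refine (xt_vol _ _ h6).trans ?_
      apply ENNReal.ofReal_le_ofReal
      have h3 : Y ^ (-1 + del) = (Y ^ (1 - del))⁻¹ := by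
        rw [← Real.rpow_neg hYp.le]; congr 1; ring
      rw [h3, ← div_eq_mul_inv]
      have h4 : 0 < Y ^ (1 - del) := Real.rpow_pos_of_pos hYp _
      have h14 : Nat.fib (k + 1) ≤ 2 * Nat.fib k := by
        have h15 : Nat.fib (k + 1) = Nat.fib (k - 1) + Nat.fib k := by
          obtain ⟨j, rfl⟩ : ∃ j, k = j + 1 := ⟨k - 1, by omega⟩
          simpa using (Nat.fib_add_two (n := j))
        have h16 : Nat.fib (k - 1) ≤ Nat.fib k := Nat.fib_mono (by omega)
        omega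
      have h17 : (Nat.fib (k + 1) : ℝ) ≤ 2 * (Nat.fib k : ℝ) := by exact_mod_cast h14
      rw [show 2 * (3 / (Nat.fib k : ℝ)) = 6 / (Nat.fib k : ℝ) by ring, div_le_div_iff₀ hfk h4]
      have h18 : Y ^ (1 - del) ≤ 8 * Cl0 * (Nat.fib k : ℝ) := by nlinarith
      have h19 : 48 * Cl0 * (Nat.fib k : ℝ) ≤ 48 * Cl0 * Real.exp (3 * C0) * (Nat.fib k : ℝ) := by
        have : 48 * Cl0 ≤ 48 * Cl0 * Real.exp (3 * C0) := by nlinarith
        exact mul_le_mul_of_nonneg_right this hfk.le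
      linarith

end SF
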