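import Pool.Agent.Helper65.SF.XFb
import Pool.Agent.Helper65.SF.FD
import Pool.Agent.Helper65.SF.XT

/-!
# SF-XF, part 3: application of the Fourier decay lemma
-/

namespace SF

open MeasureTheory Classical

theorem xf_core : ∃ CF : ℝ, 0 < CF ∧ ∀ (lam e1 C4 C9 eta X eps0 Gam D r kp xi : ℝ)
    (K l1 n0 l0 H m0 m1 Gp M Q n : ℕ) (T : Set ℝ),
    0 < lam → lam ≤ 1 / 100 → AffP lam e1 C4 C9 K l1 n0 → 1 ≤ C4 → 1 ≤ C9 → 3 ≤ K → 5 ≤ l1 →
    l1 ≤ l0 → 0 < e1 → (Q : ℝ) ≤ e1 * (Nat.fib l0 : ℝ) → K * (l0 + H) ≤ m0 → m1 ≤ M →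
    m1 + n0 ≤ n → 1 ≤ n → C9 * (Nat.fib m1 : ℝ) ≤ 2 ^ jL M →
    eta = 2 * C4 * Real.exp (C4 * (l0 + H : ℕ) + 2 * Real.log 10 * Gp
        - 1 / 10 * ((m0 : ℝ) - (l0 + H : ℕ))) → eta ≤ 1 →
    |xi| = X → 1 ≤ X → 0 < eps0 → eps0 ≤ 1 → 0 ≤ Gam → 0 < D → 0 < r → r ≤ 1 → 0 ≤ kp → 1 ≤ Q →
    C9 * (1 + Real.exp Gam) * eta / (Nat.fib m0 : ℝ) ≤ eps0 / X →
    X * Real.exp Gam * (C9 / (Nat.fib m0 : ℝ)) * r ≤ eps0 →
    MeasurableSet T → (∀ s ∈ T, Real.sin (Real.pi * (Nat.fib n : ℝ) * s) ≠ 0) →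
    volume (Set.Ioo 0 1 \ T) ≤ ENNReal.ofReal (eps0 / 2) →
    (∀ x : ℝ, volume {s | s ∈ T ∧ |EEx lam n s - x| ≤ Real.exp (-Gam - 1) / X}
      ≤ ENNReal.ofReal (D * (Real.exp (-Gam - 1) / X))) →
    ∑ i ∈ Finset.range (2 ^ jL M), ∑ q ∈ Finset.range Q,
        (if BadQ lam n M l0 H m0 m1 Gp Gam i q then (1 / 2 ^ jL M : ℝ) else 0) ≤ eps0 * Q / 2 →
    ∑ i ∈ Finset.range (2 ^ jL M), (1 / 2 ^ jL M : ℝ) *
          ((((Finset.range Q) ×ˢ (Finset.range Q)).filter (fun z =>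
            ¬ BadQ lam n M l0 H m0 m1 Gp Gam i z.1 ∧ ¬ BadQ lam n M l0 H m0 m1 Gp Gam i z.2 ∧
            |Dq lam n M m0 i z.1 - Dq lam n M m0 i z.2| ≤ 2 * r)).card : ℝ) ≤ kp * Q ^ 2 →
    ‖∫ s in (0:ℝ)..1, Complex.exp ((xi * EEx lam n s : ℝ) * Complex.I)‖
      ≤ CF * (Real.sqrt eps0 + (D * Real.exp Gam * 2 ^ jL M * kp / (X * r)) ^ (1 / 4 : ℝ)) := by
  obtain ⟨CF, hCF, hfd⟩ := fourier_decay
  refine ⟨CF, hCF, ?_⟩
  intro lam e1 C4 C9 eta X eps0 Gam D r kp xi K l1 n0 l0 H m0 m1 Gp M Q n T h0 h1 hAff hC4 hC9 hK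
    hl5 hl he1 hQe hKm hM hn hn1 hCM heta heta1 hxi hX1 he0 hele hG hD hr hr1 hkp hQ1 hnum1 hnum2
    hTm hTsin hTvol hTloc hbad hpair
  have h2pos : (0 : ℝ) < 2 ^ jL M := by positivity
  have hfm0 : (0 : ℝ) < (Nat.fib m0 : ℝ) := by
    have : 0 < Nat.fib m0 := Nat.fib_pos.2 (by nlinarith)
    exact_mod_cast this
  have hX0 : 0 < X := by linarith
  have hQ0 : (0 : ℝ) < Q := by exact_mod_cast hQ1
  have hetapos : 0 < eta := by rw [heta]; positivity
  set u : ℕ → ℝ := fun i => (i : ℝ) / 2 ^ jL M with hu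
  set v : ℕ → ℝ := fun i => ((i : ℝ) + 1) / 2 ^ jL M with hv
  have huv : ∀ i, v i - u i = 1 / 2 ^ jL M := by
    intro i
    simp only [hu, hv]
    ring
  have hmid : ∀ i, ∀ s ∈ Set.Ico (u i) (v i), |s - midn M i| ≤ 1 / 2 ^ jL M := by
    intro i s hs
    have h3 : midn M i = u i + (1 / 2 ^ jL M) / 2 := by
      simp only [hu, midn]
      ring
    have h4 := huv i
    have h5 := hs.1
    have h6 := hs.2
    have h7 : (0 : ℝ) < 1 / 2 ^ jL M := by positivity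
    rw [h3, abs_le]
    constructor <;> linarith
  have hNcast : ((2 ^ jL M : ℕ) : ℝ) = 2 ^ jL M := by push_cast; rfl
  set P : ℕ → Prop := fun i => BadP M l0 H m0 m1 Gp i with hPdef
  set U : Set ℝ := ⋃ i ∈ (Finset.range (2 ^ jL M)).filter P, Set.Ico (u i) (v i) with hU
  have hUm : MeasurableSet U := by
    apply Finset.measurableSet_biUnion
    intro i _
    exact measurableSet_Ico
  -- the number of bad paths
  have hcardP : (((Finset.range (2 ^ jL M)).filter P).card : ℝ) * (1 / 2 ^ jL M) ≤ eps0 / 2 := by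
    have h3 : ∑ i ∈ Finset.range (2 ^ jL M), (if P i then (Q : ℝ) * (1 / 2 ^ jL M) else 0)
        ≤ eps0 * Q / 2 := by
      refine le_trans (Finset.sum_le_sum fun i _ => ?_) hbad
      split_ifs with hPi
      · have h4 : ∀ q ∈ Finset.range Q, (if BadQ lam n M l0 H m0 m1 Gp Gam i q then
            (1 / 2 ^ jL M : ℝ) else 0) = 1 / 2 ^ jL M := by
          intro q _
          rw [if_pos]
          exact Or.inr (Or.inl hPi)
        rw [Finset.sum_congr rfl h4, Finset.sum_const, Finset.card_range, nsmul_eq_mul]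
      · apply Finset.sum_nonneg
        intro q _
        split_ifs
        · positivity
        · exact le_rfl
    rw [← Finset.sum_filter, Finset.sum_const, nsmul_eq_mul] at h3
    have h5 : (((Finset.range (2 ^ jL M)).filter P).card : ℝ) * ((Q : ℝ) * (1 / 2 ^ jL M))
        = ((((Finset.range (2 ^ jL M)).filter P).card : ℝ) * (1 / 2 ^ jL M)) * Q := by ring
    rw [h5] at h3
    have h6 : eps0 * Q / 2 = (eps0 / 2) * Q := by ring
    rw [h6] at h3
    exact le_of_mul_le_mul_right h3 hQ0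
  have hUvol : volume U ≤ ENNReal.ofReal (eps0 / 2) := by
    refine (measure_biUnion_finset_le _ _).trans ?_
    have h3 : ∀ i ∈ (Finset.range (2 ^ jL M)).filter P,
        volume (Set.Ico (u i) (v i)) = ENNReal.ofReal (1 / 2 ^ jL M) := by
      intro i _
      rw [Real.volume_Ico, huv]
    rw [Finset.sum_congr rfl h3, Finset.sum_const, nsmul_eq_mul, ← ENNReal.ofReal_natCast,
      ← ENNReal.ofReal_mul (Nat.cast_nonneg _)]
    exact ENNReal.ofReal_le_ofReal hcardP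
  have hsT : ∀ i < 2 ^ jL M, ∀ s ∈ Set.Ico (u i) (v i), s ∈ T \ U → ¬ P i := by
    intro i hi s hs hsT hPi
    apply hsT.2
    rw [hU]
    simp only [Set.mem_iUnion]
    exact ⟨i, Finset.mem_filter.2 ⟨Finset.mem_range.2 hi, hPi⟩, hs⟩
  have hmain := hfd (EEx lam n) ((Nat.fib (n - 1) : ℝ) / (Nat.fib n : ℝ)) xi X eps0 Gam
    (C9 / (Nat.fib m0 : ℝ)) D r kp (2 ^ jL M) Q u v (fun i => EE lam (fg M m0 i) (midn M i))
    (fun i q => Dq lam n M m0 i q)
    (fun i q => EE lam (fg M m0 i) (sh (fg M m0 i) q (wq n M i q) (midn M i)))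
    (fun i q => BadQ lam n M l0 H m0 m1 Gp Gam i q) (T \ U)
    (EEx_measurable lam h0.le h1 n hn1) hxi hX1 he0 hele hG (by positivity) hD hr hr1 hkp hQ1
    (hTm.diff hUm) ?_ ?_ ?_ ?_ ?_ ?_ ?_ ?_ ?_ hnum2
  · rw [hNcast] at hmain
    exact hmain
  · intro i hi
    have h3 : (i : ℝ) + 1 ≤ 2 ^ jL M := by exact_mod_cast hi
    refine ⟨by simp only [hu]; positivity, ?_, ?_⟩
    · have := huv i
      have h7 : (0 : ℝ) < 1 / 2 ^ jL M := by positivity
      linarith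
    · simp only [hv]
      rw [div_le_one h2pos]
      exact h3
  · intro i _ i' _ hii
    rw [Set.disjoint_left]
    intro s hs hs'
    simp only [hu, hv, Set.mem_Ico] at hs hs'
    rw [div_le_iff₀ h2pos, lt_div_iff₀ h2pos] at hs hs'
    rcases Nat.lt_or_gt_of_ne hii with h3 | h3
    · have h4 : (i : ℝ) + 1 ≤ i' := by exact_mod_cast h3
      linarith [hs.2, hs'.1]
    · have h4 : (i' : ℝ) + 1 ≤ i := by exact_mod_cast h3
      linarith [hs'.2, hs.1]
  · simp only [huv]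
    rw [Finset.sum_const, Finset.card_range, nsmul_eq_mul, hNcast, mul_one_div_cancel h2pos.ne']
    linarith
  · simp only [huv]
    refine hbad.trans ?_
    have : 0 < eps0 * Q := by positivity
    linarith
  · intro i hi q hq hB
    have hB' : ¬ BadQ lam n M l0 H m0 m1 Gp Gam i q := hB
    unfold BadQ at hB'
    rw [not_or, not_or] at hB'
    obtain ⟨hB1, hB2, hB3⟩ := hB'
    obtain ⟨_, _, hp⟩ := xf_piece lam e1 C4 C9 K l1 n0 l0 H m0 m1 Gp M Q n eta hAff hC4 hC9 hK hl5 hl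
      he1 hQe hKm hM hn hCM heta heta1 i hi hB2 q (by omega) (by omega)
    have hDle : |Dq lam n M m0 i q| ≤ Gam := not_lt.1 hB3
    refine ⟨hDle, fun s hs hsTU => ?_⟩
    refine (hp s (hmid i s hs) (hTsin s hsTU.1)).1.trans (le_trans ?_ hnum1)
    have h3 : Real.exp (Dq lam n M m0 i q) ≤ Real.exp Gam :=
      Real.exp_le_exp.2 ((le_abs_self _).trans hDle)
    gcongr
  · intro i hi s hs hsTU
    have hPi := hsT i hi s hs hsTU
    obtain ⟨_, _, hp⟩ := xf_piece lam e1 C4 C9 K l1 n0 l0 H m0 m1 Gp M Q n eta hAff hC4 hC9 hK hl5 hl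
      he1 hQe hKm hM hn hCM heta heta1 i hi hPi 1 le_rfl hQ1
    exact (hp s (hmid i s hs) (hTsin s hsTU.1)).2
  · have h3 : Set.Ico (0:ℝ) 1 \ (T \ U) ⊆ {0} ∪ ((Set.Ioo 0 1 \ T) ∪ U) := by
      intro s hs
      by_cases hs0 : s = 0
      · left
        exact hs0
      · right
        by_cases hsT : s ∈ T
        · right
          by_contra hsU
          exact hs.2 ⟨hsT, hsU⟩
        · left
          exact ⟨⟨lt_of_le_of_ne hs.1.1 (Ne.symm hs0), hs.1.2⟩, hsT⟩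
    refine (measure_mono h3).trans ((measure_union_le _ _).trans ?_)
    rw [Real.volume_singleton, zero_add]
    refine (measure_union_le _ _).trans ?_
    have h4 : ENNReal.ofReal eps0 = ENNReal.ofReal (eps0 / 2) + ENNReal.ofReal (eps0 / 2) := by
      rw [← ENNReal.ofReal_add (by positivity) (by positivity)]
      congr 1
      ring
    rw [h4]
    gcongr
  · intro i _ x
    refine (measure_mono ?_).trans (hTloc x)
    rintro s ⟨_, hs2, hs3⟩
    exact ⟨hs2.1, hs3⟩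
  · simp only [huv]
    exact hpair

end SF
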