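import Pool.Agent.Helper65.SF.XCa

/-!
# SF-XF, part 2: the affine comparison on one piece
-/

namespace SF

open MeasureTheory Classical

theorem xf_run (g : ℕ → Prop) (ks G : ℕ) (r : ℕ)
    (h : ¬ ∃ a, ks ≤ a ∧ a + G ≤ ks + r ∧ ∀ k, a < k → k ≤ a + G → ¬ g k) :
    ∀ q ≤ r, runS g ks q ≤ G := by
  have key : ∀ q, runS g ks q ≤ q ∧ ∀ k, ks + q < k + runS g ks q → k ≤ ks + q → ¬ g k := by
    intro q
    induction q with
    | zero =>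
      simp only [runS]
      refine ⟨le_rfl, fun k hk hk2 => ?_⟩
      omega
    | succ q ih =>
      obtain ⟨h1, h2⟩ := ih
      simp only [runS]
      split_ifs with hg
      · refine ⟨by omega, fun k hk hk2 => ?_⟩
        omega
      · refine ⟨by omega, fun k hk hk2 => ?_⟩
        rcases Nat.lt_or_ge k (ks + (q + 1)) with h3 | h3
        · exact h2 k (by omega) (by omega)
        · have : k = ks + (q + 1) := by omega
          rw [this]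
          exact hg
  intro q hq
  by_contra hc
  obtain ⟨h1, h2⟩ := key q
  apply h
  refine ⟨ks + q - G, by omega, by omega, fun k hk hk2 => h2 k (by omega) (by omega)⟩

theorem xf_num (C4 a m m0 L eta B G : ℝ) (hC4 : 1 ≤ C4) (hL : L ≤ a) (hL0 : 0 ≤ L) (hm : m0 ≤ m)
    (hLm : L ≤ m) (hG : 0 ≤ G) (hB : B = C4 * a + 2 * Real.log 10 * G)
    (heta : eta = 2 * C4 * Real.exp (C4 * a + 2 * Real.log 10 * G - 1 / 10 * (m0 - a))) :
    max (C4 * L) (2 * Real.log 10 * G) ≤ B ∧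
    Real.exp (-(2 / 5) * (m - L)) + Real.exp (-(2 / 5) * (m - L)) *
      (C4 * Real.exp (B + 3 / 10 * (m - L))) ≤ eta ∧
    Real.exp (-(2 / 5) * (m - L)) * (C4 * Real.exp (B + 3 / 10 * (m - L))) ≤ eta := by
  have hC40 : 0 < C4 := by linarith
  have hlog : 0 < Real.log 10 := Real.log_pos (by norm_num)
  have h1 : C4 * L ≤ C4 * a := by gcongr
  have h2 : 0 ≤ 2 * Real.log 10 * G := by positivity
  have h3 : 0 ≤ C4 * a := by
    have : 0 ≤ a := by linarith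
    positivity
  have hBnn : 0 ≤ B := by linarith
  have heS : Real.exp (-(2 / 5) * (m - L)) * (C4 * Real.exp (B + 3 / 10 * (m - L))) ≤ eta / 2 := by
    have h1 : Real.exp (-(2 / 5) * (m - L)) * (C4 * Real.exp (B + 3 / 10 * (m - L)))
        = C4 * Real.exp (B - 1 / 10 * (m - L)) := by
      rw [mul_left_comm, ← Real.exp_add]
      congr 2
      ring
    rw [h1, heta]
    have h2 : Real.exp (B - 1 / 10 * (m - L)) ≤ Real.exp (C4 * a +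
        2 * Real.log 10 * G - 1 / 10 * (m0 - a)) := by
      apply Real.exp_le_exp.2
      rw [hB]
      linarith
    have h3 : C4 * Real.exp (B - 1 / 10 * (m - L)) ≤ C4 * Real.exp (C4 * a +
        2 * Real.log 10 * G - 1 / 10 * (m0 - a)) := by gcongr
    linarith
  have hS1 : 1 ≤ C4 * Real.exp (B + 3 / 10 * (m - L)) := by
    have h1 : 1 ≤ Real.exp (B + 3 / 10 * (m - L)) := by
      apply Real.one_le_exp
      linarith
    nlinarith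
  have hepos : 0 < Real.exp (-(2 / 5) * (m - L)) := Real.exp_pos _
  have hee : Real.exp (-(2 / 5) * (m - L)) ≤
      Real.exp (-(2 / 5) * (m - L)) * (C4 * Real.exp (B + 3 / 10 * (m - L))) := by nlinarith
  refine ⟨max_le (by linarith) (by linarith), by linarith, by linarith⟩

theorem xf_fg (M a b i : ℕ) (h : ¬ ∀ k, a ≤ k → k ≤ b → ¬ goodN k (anc jL k M i)) :
    a ≤ fg M a i ∧ fg M a i ≤ b ∧ goodN (fg M a i) (anc jL (fg M a i) M i) := by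
  have h' : ∃ k, a ≤ k ∧ k ≤ b ∧ goodN k (anc jL k M i) := by
    by_contra hc
    exact h fun k h1 h2 h3 => hc ⟨k, h1, h2, h3⟩
  obtain ⟨k, h1, h2, h3⟩ := h'
  have hne : {k | a ≤ k ∧ goodN k (anc jL k M i)}.Nonempty := ⟨k, h1, h3⟩
  have h4 := Nat.sInf_mem hne
  have h5 : fg M a i ≤ k :=
    Nat.sInf_le (show k ∈ {k | a ≤ k ∧ goodN k (anc jL k M i)} from ⟨h1, h3⟩)
  exact ⟨h4.1, h5.trans h2, h4.2⟩

theorem xf_mid (M i : ℕ) (hi : i < 2 ^ jL M) : 0 < midn M i ∧ midn M i < 1 := by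
  have h : (i : ℝ) + 1 ≤ 2 ^ jL M := by exact_mod_cast hi
  have h0 : (0 : ℝ) ≤ i := Nat.cast_nonneg i
  unfold midn
  generalize (2 : ℝ) ^ jL M = N at *
  constructor
  · apply div_pos <;> linarith
  · rw [div_lt_one (by linarith)]
    linarith

theorem xf_piece0 (lam e1 C4 C9 : ℝ) (K l1 n0 l0 H m0 m1 Gp Q n L m : ℕ) (eta NN s0 : ℝ)
    (hAff : AffP lam e1 C4 C9 K l1 n0) (hC4 : 1 ≤ C4) (hC9 : 1 ≤ C9) (hK : 3 ≤ K) (hl5 : 5 ≤ l1)
    (hl : l1 ≤ l0) (he1 : 0 < e1) (hQe : (Q : ℝ) ≤ e1 * (Nat.fib l0 : ℝ))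
    (hKm : K * (l0 + H) ≤ m0) (hn : m1 + n0 ≤ n)
    (hCM : C9 * (Nat.fib m1 : ℝ) ≤ NN)
    (heta : eta = 2 * C4 * Real.exp (C4 * (l0 + H : ℕ) + 2 * Real.log 10 * Gp
        - 1 / 10 * ((m0 : ℝ) - (l0 + H : ℕ)))) (heta1 : eta ≤ 1)
    (g : ℕ → Prop) (hL1 : l0 ≤ L) (hL2 : L ≤ l0 + H) (hL3 : g L) (hm1 : m0 ≤ m) (hm2 : m ≤ m1)
    (hm3 : g m) (hP3 : ¬ ∃ a, 5 ≤ a ∧ a + Gp ≤ m1 ∧ ∀ k, a < k → k ≤ a + Gp → ¬ g k)
    (hs0pos : 0 < s0) (hs01 : s0 < 1) (hLG : ∀ k, k ≤ m1 → g k → LG (98 / 1000) k s0)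
    (q : ℕ) (hq1 : 1 ≤ q) (hq : q ≤ Q) (w : ℤ)
    (hw : w = ⌊s0 + q * (Nat.fib (n - 1) : ℝ) / (Nat.fib n : ℝ)⌋) :
    0 < sh m q w s0 ∧ sh m q w s0 < 1 ∧
    ∀ s : ℝ, |s - s0| ≤ 1 / NN → Real.sin (Real.pi * (Nat.fib n : ℝ) * s) ≠ 0 →
      |EEx lam n (Int.fract (s + q * ((Nat.fib (n - 1) : ℝ) / (Nat.fib n : ℝ))))
        - EE lam m (sh m q w s0)
        - Real.exp (GG lam m s0 (sh m q w s0)) * (EEx lam n s - EE lam m s0)|
        ≤ C9 * (1 + Real.exp (GG lam m s0 (sh m q w s0))) * eta / (Nat.fib m0 : ℝ) ∧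
      |EEx lam n s - EE lam m s0| ≤ C9 / (Nat.fib m0 : ℝ) := by
  have hKL : K * L ≤ m := by
    have : K * L ≤ K * (l0 + H) := Nat.mul_le_mul_left K hL2
    omega
  have hK5 : 5 ≤ K * L := by nlinarith
  have hKge : L ≤ K * L := by nlinarith
  have hLm : L ≤ m := by omega
  have hm05 : 5 ≤ m0 := by nlinarith
  obtain ⟨B, hB⟩ : ∃ B : ℝ, B = C4 * (l0 + H : ℕ) + 2 * Real.log 10 * Gp := ⟨_, rfl⟩
  have hlog : 0 < Real.log 10 := Real.log_pos (by norm_num)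
  obtain ⟨hn1, hn2, hn3⟩ := xf_num C4 (l0 + H : ℕ) m m0 L eta B Gp hC4 (by exact_mod_cast hL2)
    (Nat.cast_nonneg _) (by exact_mod_cast hm1) (by exact_mod_cast hLm) (Nat.cast_nonneg _) hB heta
  have hrun : ∀ r' ≤ m - K * L, runS g (K * L) r' ≤ Gp := by
    apply xf_run
    rintro ⟨a, ha1, ha2, ha3⟩
    exact hP3 ⟨a, by omega, by omega, ha3⟩
  have hdebt : debtS g (K * L) (2 * Real.log 10) (1 / 10) (C4 * L) (m - K * L) ≤ B :=
    (debt_le g (K * L) (2 * Real.log 10) (1 / 10) (C4 * L) (by linarith) (by norm_num)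
      (mul_nonneg (by linarith) (Nat.cast_nonneg _)) Gp (m - K * L) hrun).2.trans hn1
  have hfm0 : (0 : ℝ) < (Nat.fib m0 : ℝ) := by
    have : 0 < Nat.fib m0 := Nat.fib_pos.2 (by omega)
    exact_mod_cast this
  have hfm : (Nat.fib m0 : ℝ) ≤ (Nat.fib m : ℝ) := by exact_mod_cast Nat.fib_mono hm1
  have hfmpos : (0 : ℝ) < (Nat.fib m : ℝ) := by linarith
  have hfl : (Nat.fib l0 : ℝ) ≤ (Nat.fib L : ℝ) := by exact_mod_cast Nat.fib_mono hL1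
  have hfm1 : (Nat.fib m : ℝ) ≤ (Nat.fib m1 : ℝ) := by exact_mod_cast Nat.fib_mono hm2
  have hqd : (q : ℝ) ≤ e1 * (Nat.fib L : ℝ) := by
    have h1 : (q : ℝ) ≤ Q := by exact_mod_cast hq
    have h2 : e1 * (Nat.fib l0 : ℝ) ≤ e1 * (Nat.fib L : ℝ) := mul_le_mul_of_nonneg_left hfl he1.le
    linarith
  obtain ⟨hA1, hA2, hA3⟩ := hAff L m n q s0 B _ _ w g (by omega) hq1 hqd hKL (by omega)
    hL3 hm3 hs0pos hs01 (fun k hk1 hk2 hk3 => hLG k (by omega) hk3) hdebt hw rfl rfl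
    (by linarith)
  refine ⟨hA1, hA2, fun s hs hsin => ?_⟩
  have hs' : |s - s0| ≤ 1 / (C9 * (Nat.fib m : ℝ)) := by
    refine hs.trans ?_
    apply one_div_le_one_div_of_le (mul_pos (by linarith) hfmpos)
    refine le_trans ?_ hCM
    exact mul_le_mul_of_nonneg_left hfm1 (by linarith)
  obtain ⟨h1, h2, h3, h4, h5, h6, _⟩ := hA3 s hs' hsin
  have h7 : EEx lam n s = EE lam n s := by
    unfold EEx
    rw [if_pos (show s ∈ Set.Ioo (0:ℝ) 1 from ⟨h1, h2⟩)]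
  have h8 : Int.fract (s + q * ((Nat.fib (n - 1) : ℝ) / (Nat.fib n : ℝ))) = sh n q w s := by
    rw [← h3, mul_div_assoc]
  have h9 : sh n q w s < 1 := by
    rw [← h3]
    exact Int.fract_lt_one _
  have h10 : EEx lam n (Int.fract (s + q * ((Nat.fib (n - 1) : ℝ) / (Nat.fib n : ℝ))))
      = EE lam n (sh n q w s) := by
    rw [h8]
    unfold EEx
    rw [if_pos (show sh n q w s ∈ Set.Ioo (0:ℝ) 1 from ⟨h4, h9⟩)]
  rw [h10, h7]
  have hC90 : 0 ≤ C9 := by linarith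
  refine ⟨h5.trans ?_, h6.trans (div_le_div_of_nonneg_left hC90 hfm0 hfm)⟩
  have h12 := Real.exp_pos (GG lam m s0 (sh m q w s0))
  apply div_le_div₀ _ _ hfm0 hfm
  · refine mul_nonneg (mul_nonneg hC90 (by linarith)) ?_
    exact le_trans (by positivity) hn3
  · exact mul_le_mul_of_nonneg_left hn2 (mul_nonneg hC90 (by linarith))

theorem xf_piece (lam e1 C4 C9 : ℝ) (K l1 n0 l0 H m0 m1 Gp M Q n : ℕ) (eta : ℝ)
    (hAff : AffP lam e1 C4 C9 K l1 n0) (hC4 : 1 ≤ C4) (hC9 : 1 ≤ C9) (hK : 3 ≤ K) (hl5 : 5 ≤ l1)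
    (hl : l1 ≤ l0) (he1 : 0 < e1) (hQe : (Q : ℝ) ≤ e1 * (Nat.fib l0 : ℝ))
    (hKm : K * (l0 + H) ≤ m0) (hM : m1 ≤ M) (hn : m1 + n0 ≤ n)
    (hCM : C9 * (Nat.fib m1 : ℝ) ≤ 2 ^ jL M)
    (heta : eta = 2 * C4 * Real.exp (C4 * (l0 + H : ℕ) + 2 * Real.log 10 * Gp
        - 1 / 10 * ((m0 : ℝ) - (l0 + H : ℕ)))) (heta1 : eta ≤ 1)
    (i : ℕ) (hi : i < 2 ^ jL M) (hP : ¬ BadP M l0 H m0 m1 Gp i) (q : ℕ) (hq1 : 1 ≤ q) (hq : q ≤ Q) :
    0 < sh (fg M m0 i) q (wq n M i q) (midn M i) ∧ sh (fg M m0 i) q (wq n M i q) (midn M i) < 1 ∧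
    ∀ s : ℝ, |s - midn M i| ≤ 1 / 2 ^ jL M → Real.sin (Real.pi * (Nat.fib n : ℝ) * s) ≠ 0 →
      |EEx lam n (Int.fract (s + q * ((Nat.fib (n - 1) : ℝ) / (Nat.fib n : ℝ))))
        - EE lam (fg M m0 i) (sh (fg M m0 i) q (wq n M i q) (midn M i))
        - Real.exp (Dq lam n M m0 i q) * (EEx lam n s - EE lam (fg M m0 i) (midn M i))|
        ≤ C9 * (1 + Real.exp (Dq lam n M m0 i q)) * eta / (Nat.fib m0 : ℝ) ∧
      |EEx lam n s - EE lam (fg M m0 i) (midn M i)| ≤ C9 / (Nat.fib m0 : ℝ) := by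
  unfold BadP at hP
  rw [not_or, not_or] at hP
  obtain ⟨hP1, hP2, hP3⟩ := hP
  obtain ⟨hL1, hL2, hL3⟩ := xf_fg M l0 (l0 + H) i hP1
  obtain ⟨hm1, hm2, hm3⟩ := xf_fg M m0 m1 i hP2
  obtain ⟨hs1, hs2⟩ := xf_mid M i hi
  exact xf_piece0 lam e1 C4 C9 K l1 n0 l0 H m0 m1 Gp Q n (fg M l0 i) (fg M m0 i) eta (2 ^ jL M)
    (midn M i) hAff hC4 hC9 hK hl5 hl he1 hQe hKm hn hCM heta heta1
    (fun k => goodN k (anc jL k M i)) hL1 hL2 hL3 hm1 hm2 hm3 hP3 hs1 hs2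
    (fun k hk hk2 => LG_node k M i (hk.trans hM) hk2) q hq1 hq (wq n M i q) rfl

end SF
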