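import Pool.Agent.Helper65.SF.XFa
import Pool.Agent.Helper65.SF.XFb

/-!
# SF-XF, part 4: the main parameter computation
-/

namespace SF

open MeasureTheory Classical

theorem xf_jL (C9 : ℝ) (m b : ℕ) (hb : 1 ≤ b) (hC : C9 ≤ (Nat.fib b : ℝ)) :
    C9 * (Nat.fib m : ℝ) ≤ 2 ^ jL (m + b) ∧ (2 : ℝ) ^ jL (m + b) ≤ 2 ^ 12 * (Nat.fib (m + b + 4) : ℝ) := by
  obtain ⟨h1, h2⟩ := node_length (m + b)
  have hF : (0 : ℝ) < (Nat.fib (m + b + 4) : ℝ) := by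
    have : 0 < Nat.fib (m + b + 4) := Nat.fib_pos.2 (by omega)
    exact_mod_cast this
  have h3 : (0 : ℝ) < 2 ^ jL (m + b) := by positivity
  constructor
  · have h4 : 2 ^ 11 * (Nat.fib (m + b + 4) : ℝ) ≤ 2 ^ jL (m + b) := by
      rw [one_div_le_one_div h3 (by positivity)] at h2
      exact h2
    have h5 := xf_fib_supermul m b hb
    have h6 : Nat.fib (m + b) ≤ Nat.fib (m + b + 4) := Nat.fib_mono (by omega)
    have h7 : (Nat.fib m : ℝ) * (Nat.fib b : ℝ) ≤ (Nat.fib (m + b + 4) : ℝ) := by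
      exact_mod_cast h5.trans h6
    have h8 : C9 * (Nat.fib m : ℝ) ≤ (Nat.fib b : ℝ) * (Nat.fib m : ℝ) := by gcongr
    have h9 : (0 : ℝ) ≤ (Nat.fib (m + b + 4) : ℝ) := hF.le
    generalize (2 : ℝ) ^ jL (m + b) = N at *
    linarith
  · rw [one_div_le_one_div (by positivity) h3] at h1
    exact h1

theorem xf_event (l1 : ℕ) (th bt C9 C4 e1 R ClB ClT CF Z r0 : ℝ) (hth : 0 < th) (hbt : 0 < bt)
    (hbt1 : bt ≤ th / 100) (hr0 : 0 < r0) :
    ∃ X0 : ℝ, 1 ≤ X0 ∧ ∀ X ≥ X0, 100 ≤ Real.log X ∧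
      Real.log (2 * C4) + 2 * Real.log 10 ≤ 1 / 100 * Real.log X ∧
      2 * C9 ^ 2 ≤ Real.exp (1 / 50 * Real.log X) ∧
      3 / r0 ≤ Real.exp (1 / 10 * Real.log X) ∧
      6 ≤ Real.exp (th / 10 * Real.log X) ∧
      1000 * C9 ≤ Real.exp (7 / 10 * Real.log X) ∧
      l1 + 7 + 5 / 2 * Real.log (3 * C9 / e1) ≤ th / 10 * Real.log X ∧
      1 ≤ th / 10 * Real.log X ∧
      60 ≤ Real.exp ((th / 10 - bt) * Real.log X) ∧
      10 * R * (3 * Real.log X + 1) ≤ Real.exp (bt * Real.log X) ∧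
      10 * ClB * (Real.log X + 2) ≤ Real.exp (bt * Real.log X) ∧
      2 * ClT ≤ Real.exp (bt * Real.log X) ∧
      2 * CF ≤ Real.exp (bt / 4 * Real.log X) ∧
      2 * CF * Z ≤ Real.exp (th / 100 * Real.log X) := by
  have hlin : ∀ A a : ℝ, 0 < a → ∀ᶠ X in Filter.atTop, A ≤ a * Real.log X := by
    intro A a ha
    exact (Real.tendsto_log_atTop.const_mul_atTop ha).eventually_ge_atTop A
  have hexp : ∀ A B a : ℝ, 0 < a → ∀ᶠ X in Filter.atTop, A + B * Real.log X ≤ Real.exp (a * Real.log X) := by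
    intro A B a ha
    have h1 := hlin (2 * (|A| + |B| / a)) a ha
    have h2 := hlin 1 a ha
    have h3 := hlin (2 * (|A| + |B| / a) + 2) a ha
    filter_upwards [h1, h2, h3] with X h1 h2 h3
    have h4 := Real.quadratic_le_exp_of_nonneg (x := a * Real.log X) (by linarith)
    have h5 : B * Real.log X ≤ |B| / a * (a * Real.log X) := by
      have h6 : |B| / a * (a * Real.log X) = |B| * Real.log X := by field_simp
      rw [h6]
      have h7 : 0 ≤ Real.log X := by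
        by_contra hc
        rw [not_le] at hc
        nlinarith
      exact mul_le_mul_of_nonneg_right (le_abs_self B) h7
    have h6 : 0 ≤ |B| / a := by positivity
    have h7 := le_abs_self A
    have h8 := abs_nonneg A
    generalize a * Real.log X = y at *
    nlinarith [mul_nonneg h8 (sub_nonneg.2 h2), mul_nonneg h6 (sub_nonneg.2 h2)]
  have hall : ∀ᶠ X in Filter.atTop, 100 ≤ Real.log X ∧
      Real.log (2 * C4) + 2 * Real.log 10 ≤ 1 / 100 * Real.log X ∧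
      2 * C9 ^ 2 ≤ Real.exp (1 / 50 * Real.log X) ∧
      3 / r0 ≤ Real.exp (1 / 10 * Real.log X) ∧
      6 ≤ Real.exp (th / 10 * Real.log X) ∧
      1000 * C9 ≤ Real.exp (7 / 10 * Real.log X) ∧
      l1 + 7 + 5 / 2 * Real.log (3 * C9 / e1) ≤ th / 10 * Real.log X ∧
      1 ≤ th / 10 * Real.log X ∧
      60 ≤ Real.exp ((th / 10 - bt) * Real.log X) ∧
      10 * R * (3 * Real.log X + 1) ≤ Real.exp (bt * Real.log X) ∧
      10 * ClB * (Real.log X + 2) ≤ Real.exp (bt * Real.log X) ∧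
      2 * ClT ≤ Real.exp (bt * Real.log X) ∧
      2 * CF ≤ Real.exp (bt / 4 * Real.log X) ∧
      2 * CF * Z ≤ Real.exp (th / 100 * Real.log X) := by
    filter_upwards [hlin 100 1 (by norm_num), hlin (Real.log (2 * C4) + 2 * Real.log 10) (1 / 100)
      (by norm_num), hexp (2 * C9 ^ 2) 0 (1 / 50) (by norm_num), hexp (3 / r0) 0 (1 / 10) (by norm_num),
      hexp 6 0 (th / 10) (by positivity), hexp (1000 * C9) 0 (7 / 10) (by norm_num),
      hlin (l1 + 7 + 5 / 2 * Real.log (3 * C9 / e1)) (th / 10) (by positivity),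
      hlin 1 (th / 10) (by positivity), hexp 60 0 (th / 10 - bt) (by linarith),
      hexp (10 * R) (30 * R) bt hbt, hexp (20 * ClB) (10 * ClB) bt hbt, hexp (2 * ClT) 0 bt hbt,
      hexp (2 * CF) 0 (bt / 4) (by positivity), hexp (2 * CF * Z) 0 (th / 100) (by positivity)]
      with X h1 h2 h3 h4 h5 h6 h7 h8 h9 h10 h11 h12 h13 h14
    refine ⟨by linarith, h2, by linarith, by linarith, by linarith, by linarith, h7, h8,
      by linarith, by linarith, by linarith, by linarith, by linarith, by linarith⟩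
  obtain ⟨X0, hX0⟩ := Filter.eventually_atTop.1 hall
  exact ⟨max 1 X0, le_max_left _ _, fun X hX => hX0 X ((le_max_right _ _).trans hX)⟩

theorem xf_mainX (CF : ℝ) (hCF : 0 < CF)
    (hcore : ∀ (lam e1 C4 C9 eta X eps0 Gam D r kp xi : ℝ)
    (K l1 n0 l0 H m0 m1 Gp M Q n : ℕ) (T : Set ℝ),
    0 < lam → lam ≤ 1 / 100 → AffP lam e1 C4 C9 K l1 n0 → 1 ≤ C4 → 1 ≤ C9 → 3 ≤ K → 5 ≤ l1 →
    l1 ≤ l0 → 0 < e1 → (Q : ℝ) ≤ e1 * (Nat.fib l0 : ℝ) → K * (l0 + H) ≤ m0 → m1 ≤ M →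
    m1 + n0 ≤ n → 1 ≤ n → C9 * (Nat.fib m1 : ℝ) ≤ 2 ^ jL M →
    eta = 2 * C4 * Real.exp (C4 * (l0 + H : ℕ) + 2 * Real.log 10 * Gp
        - 1 / 10 * ((m0 : ℝ) - (l0 + H : ℕ))) → eta ≤ 1 →
    |xi| = X → 1 ≤ X → 0 < eps0 → eps0 ≤ 1 → 0 ≤ Gam → 0 < D → 0 < r → r ≤ 1 → 0 ≤ kp → 1 ≤ Q →
    C9 * (1 + Real.exp Gam) * eta / (Nat.fib m0 : ℝ) ≤ eps0 / X →
    X * Real.exp Gam * (C9 / (Nat.fib m0 : ℝ)) * r ≤ eps0 →
    MeasurableSet T → (∀ s ∈ T, Real.sin (Real.pi * (Nat.fib n : ℝ) * s) ≠ 0) →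
    volume (Set.Ioo 0 1 \ T) ≤ ENNReal.ofReal (eps0 / 2) →
    (∀ x : ℝ, volume {s | s ∈ T ∧ |EEx lam n s - x| ≤ Real.exp (-Gam - 1) / X}
      ≤ ENNReal.ofReal (D * (Real.exp (-Gam - 1) / X))) →
    ∑ i ∈ Finset.range (2 ^ jL M), ∑ q ∈ Finset.range Q,
        (if BadQ lam n M l0 H m0 m1 Gp Gam i q then (1 / 2 ^ jL M : ℝ) else 0) ≤ eps0 * Q / 2 →
    ∑ i ∈ Finset.range (2 ^ jL M), (1 / 2 ^ jL M : ℝ) *
          ((((Finset.range Q) ×ˢ (Finset.range Q)).filter (fun z =>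
            ¬ BadQ lam n M l0 H m0 m1 Gp Gam i z.1 ∧ ¬ BadQ lam n M l0 H m0 m1 Gp Gam i z.2 ∧
            |Dq lam n M m0 i z.1 - Dq lam n M m0 i z.2| ≤ 2 * r)).card : ℝ) ≤ kp * Q ^ 2 →
    ‖∫ s in (0:ℝ)..1, Complex.exp ((xi * EEx lam n s : ℝ) * Complex.I)‖
      ≤ CF * (Real.sqrt eps0 + (D * Real.exp Gam * 2 ^ jL M * kp / (X * r)) ^ (1 / 4 : ℝ)))
    (lam e1 C4 C9 C9b c6 gl Cb C10 ClB ClT ct Ct Lg th bt del r0 : ℝ) (K G0 l1 n0 b : ℕ)
    (h0 : 0 < lam) (h1 : lam ≤ 1 / 100) (he1 : 0 < e1) (he11 : e1 < 1) (hC4 : 1 ≤ C4) (hC9 : 1 ≤ C9)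
    (hK : 3 ≤ K) (hl5 : 5 ≤ l1) (hAff : AffP lam e1 C4 C9 K l1 n0) (hr0 : 0 < r0) (hr01 : r0 < 1)
    (hS2 : S2P lam th r0) (hc6 : 0 < c6) (hc61 : c6 < 1) (hG0 : 1 ≤ G0) (hCb : 0 < Cb)
    (hClB : 0 < ClB) (hClT : 1 ≤ ClT) (hC10 : 1 ≤ C10) (hb1 : 1 ≤ b) (hb2 : C9 ≤ (Nat.fib b : ℝ))
    (hb3 : C9b ≤ (Nat.fib b : ℝ)) (hth0 : 0 < th) (hth1 : th ≤ 1) (hbt0 : 0 < bt)
    (hbt1 : bt ≤ th / 100) (hKth : (K : ℝ) * (2 * th) ≤ 1) (hdel : del = th / 2000)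
    (hs3 : (2 * C4 + 1) * th + 2 * Real.log 10 * del ≤ 1 / 50)
    (hs6 : 2 * bt ≤ gl * del - 3 * Cb * lam) (hs5 : 2 * bt ≤ ct * del / Lg - Ct * lam)
    (hs7 : 2 * bt ≤ -Real.log (1 - c6) / G0 * del)
    (hbad : ∀ (n M l0 H m0 m1 Gp Q : ℕ) (Gam : ℝ), 6 ≤ l0 → 6 ≤ m0 → l0 + H ≤ M → m0 ≤ m1 →
      m1 ≤ M → 1 ≤ Q → m1 ≤ n → C9b * (Nat.fib m1 : ℝ) ≤ 2 ^ jL M → 1000 * Q ≤ Nat.fib m0 → 0 ≤ Gam →
      (∀ i < 2 ^ jL M, ¬ BadP M l0 H m0 m1 Gp i → ∀ q, 1 ≤ q → q < Q →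
        0 < sh (fg M m0 i) q (wq n M i q) (midn M i) ∧ sh (fg M m0 i) q (wq n M i q) (midn M i) < 1) →
      ∑ i ∈ Finset.range (2 ^ jL M), ∑ q ∈ Finset.range Q,
        (if BadQ lam n M l0 H m0 m1 Gp Gam i q then (1 / 2 ^ jL M : ℝ) else 0)
      ≤ 1 + Q * ((1 - c6) ^ (H / G0) + (1 - c6) ^ ((m1 - m0) / G0) + m1 * (1 - c6) ^ (Gp / G0)
        + (m1 - m0 + 1 : ℕ) * (ClB * Real.exp (-gl * Gam + Cb * lam * m1))))
    (hpair : ∀ (Gam eta r : ℝ) (l0 H m0 m1 Gp M Q : ℕ), l1 ≤ l0 → (Q : ℝ) ≤ e1 * (Nat.fib l0 : ℝ) →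
      K * (l0 + H) ≤ m0 → m0 ≤ m1 → m1 ≤ M → C9 * (Nat.fib m1 : ℝ) ≤ 2 ^ jL M →
      eta = 2 * C4 * Real.exp (C4 * (l0 + H : ℕ) + 2 * Real.log 10 * Gp
        - 1 / 10 * ((m0 : ℝ) - (l0 + H : ℕ))) →
      eta ≤ 1 → 2 * C9 * eta ≤ r → 0 < r → 3 * r ≤ r0 → 1 ≤ Q → (Q : ℝ) ≤ (3 * r) ^ (-th) →
      ∃ n1 : ℕ, ∀ n ≥ n1,
        ∑ i ∈ Finset.range (2 ^ jL M), (1 / 2 ^ jL M : ℝ) *
          ((((Finset.range Q) ×ˢ (Finset.range Q)).filter (fun z =>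
            ¬ BadQ lam n M l0 H m0 m1 Gp Gam i z.1 ∧ ¬ BadQ lam n M l0 H m0 m1 Gp Gam i z.2 ∧
            |Dq lam n M m0 i z.1 - Dq lam n M m0 i z.2| ≤ 2 * r)).card : ℝ)
        ≤ (C10 * (3 * r) ^ th + 1 / Q) * Q ^ 2)
    (htyp : ∀ Y del : ℝ, 1 ≤ Y → 0 < del → del ≤ 1 →
      ∃ n1 : ℕ, ∀ n ≥ n1, ∃ T : Set ℝ, MeasurableSet T ∧ T ⊆ Set.Ioo 0 1 ∧
        (∀ s ∈ T, Real.sin (Real.pi * (Nat.fib n : ℝ) * s) ≠ 0) ∧
        volume (Set.Ioo 0 1 \ T)
          ≤ ENNReal.ofReal (ClT * Y ^ (-(ct * del / Lg - Ct * lam))) ∧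
        ∀ x : ℝ, volume {s | s ∈ T ∧ |EEx lam n s - x| ≤ 1 / Y} ≤ ENNReal.ofReal (ClT * Y ^ (-1 + del)))
    (X l : ℝ) (hXl : X = Real.exp l) (E0 : 100 ≤ l)
    (E1 : Real.log (2 * C4) + 2 * Real.log 10 ≤ 1 / 100 * l)
    (E2 : 2 * C9 ^ 2 ≤ Real.exp (1 / 50 * l))
    (E3 : 3 / r0 ≤ Real.exp (1 / 10 * l))
    (E4 : 6 ≤ Real.exp (th / 10 * l))
    (E5 : 1000 * C9 ≤ Real.exp (7 / 10 * l))
    (E6 : l1 + 7 + 5 / 2 * Real.log (3 * C9 / e1) ≤ th / 10 * l)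
    (E7 : 1 ≤ th / 10 * l)
    (E8 : 60 ≤ Real.exp ((th / 10 - bt) * l))
    (E9 : 10 * Real.exp (-Real.log (1 - c6)) * (3 * l + 1) ≤ Real.exp (bt * l))
    (E10 : 10 * ClB * (l + 2) ≤ Real.exp (bt * l))
    (E11 : 2 * ClT ≤ Real.exp (bt * l))
    (E12 : 2 * CF ≤ Real.exp (bt / 4 * l))
    (E13 : 2 * CF * (ClT * Real.exp 1 * 2 ^ (18 + b) * (3 * C10 + 6) * C9) ^ (1 / 4 : ℝ)
      ≤ Real.exp (th / 100 * l)) :
    ∃ n1 : ℕ, ∀ n ≥ n1, ∀ xi : ℝ, |xi| = X →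
      ‖∫ s in (0:ℝ)..1, Complex.exp ((xi * EEx lam n s : ℝ) * Complex.I)‖
        ≤ Real.exp (-(bt / 4 * l)) := by
  have hdel0 : 0 < del := by rw [hdel]; positivity
  have hdel1 : del ≤ 1 / 2000 := by rw [hdel]; linarith
  have hl0 : 0 ≤ l := by linarith
  have hC90 : 0 < C9 := by linarith
  have hC40 : 0 < C4 := by linarith
  have hdl : 0 ≤ del * l := by positivity
  have hdl1 : del * l ≤ 1 / 2000 * l := by gcongr
  obtain ⟨m0, hm06, hm0a, hm0b, hm0c, hm0d⟩ := xf_m0 l (by linarith)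
  obtain ⟨Q, hQ1, hQ2, hQ3, hQ4, hQ5⟩ := xf_Q th bt del C9 l hth0 hth1 hbt0.le (by linarith) hdel0.le
    hC9 hl0 E4
  have hA0 : 0 ≤ Real.log (3 * C9 / e1) := by
    apply Real.log_nonneg
    rw [le_div_iff₀ he1]
    linarith
  obtain ⟨l0, hl01, hl06, hl0Q, hl0b⟩ := xf_l0 e1 (Real.log (3 * C9 / e1) + 1 / 5 * th * l) l1 Q he1
    (by positivity) (by
      rw [Real.exp_add, Real.exp_log (by positivity)]
      calc 3 * (Q : ℝ) / e1 ≤ 3 * (C9 * Real.exp (1 / 5 * th * l)) / e1 := by gcongr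
        _ = _ := by ring)
  obtain ⟨hN, hN1, hN2⟩ : ∃ hN : ℕ, del * l ≤ hN ∧ (hN : ℝ) ≤ del * l + 1 :=
    ⟨⌈del * l⌉₊, Nat.le_ceil _, (Nat.ceil_lt_add_one hdl).le⟩
  have hthl : 0 ≤ th * l := by positivity
  have hdl2 : del * l = 1 / 2000 * (th * l) := by rw [hdel]; ring
  have ha : ((l0 + hN : ℕ) : ℝ) ≤ 2 * th * l := by
    push_cast
    linarith
  have hKm : K * (l0 + hN) ≤ m0 := by
    have h3 : (K : ℝ) * ((l0 + hN : ℕ) : ℝ) ≤ m0 := by
      calc (K : ℝ) * ((l0 + hN : ℕ) : ℝ) ≤ K * (2 * th * l) := by gcongr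
        _ = (K * (2 * th)) * l := by ring
        _ ≤ 1 * l := by gcongr
        _ ≤ m0 := by linarith
    exact_mod_cast h3
  obtain ⟨hJ1, hJ2⟩ := xf_jL C9 (m0 + hN) b hb1 hb2
  obtain ⟨hJ3, _⟩ := xf_jL C9b (m0 + hN) b hb1 hb3
  obtain ⟨eta, heta⟩ : ∃ eta : ℝ, eta = 2 * C4 * Real.exp (C4 * (l0 + hN : ℕ) + 2 * Real.log 10 * hN
        - 1 / 10 * ((m0 : ℝ) - (l0 + hN : ℕ))) := ⟨_, rfl⟩
  have hetale : eta ≤ Real.exp (-(3 / 20 * l)) := by
    rw [heta]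
    exact xf_eta C4 th del l (l0 + hN : ℕ) m0 hN hC4 hth0.le hl0 ha hm0c hN2 hs3 E1
  have heta1 : eta ≤ 1 := hetale.trans (by
    rw [Real.exp_le_one_iff]
    linarith)
  have hetapos : 0 < eta := by rw [heta]; positivity
  obtain ⟨r, hr⟩ : ∃ r : ℝ, r = Real.exp (-((1 / 10 + bt + del) * l)) / C9 := ⟨_, rfl⟩
  have hrpos : 0 < r := by rw [hr]; positivity
  rw [← hr] at hQ2 hQ5
  have hbtl : bt ≤ 1 / 100 := by linarith
  have h2C9 : 2 * C9 * eta ≤ r := by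
    rw [hr, le_div_iff₀ hC90]
    calc 2 * C9 * eta * C9 = 2 * C9 ^ 2 * eta := by ring
      _ ≤ Real.exp (1 / 50 * l) * Real.exp (-(3 / 20 * l)) := by gcongr
      _ ≤ Real.exp (-((1 / 10 + bt + del) * l)) := by
          rw [← Real.exp_add]
          apply Real.exp_le_exp.2
          have : (bt + del) * l ≤ (3 / 100) * l := by
            gcongr
            linarith
          linarith
  have hr3 : 3 * r ≤ r0 := by
    have h3 : r ≤ Real.exp (-(1 / 10 * l)) := by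
      rw [hr]
      refine (div_le_self (Real.exp_pos _).le hC9).trans (Real.exp_le_exp.2 ?_)
      have : 0 ≤ (bt + del) * l := by positivity
      linarith
    rw [div_le_iff₀ hr0] at E3
    have h4 : Real.exp (-(1 / 10 * l)) * Real.exp (1 / 10 * l) = 1 := by
      rw [← Real.exp_add]
      simp
    have h5 := Real.exp_pos (-(1 / 10 * l))
    calc 3 * r ≤ 3 * Real.exp (-(1 / 10 * l)) := by gcongr
      _ ≤ (Real.exp (1 / 10 * l) * r0) * Real.exp (-(1 / 10 * l)) := by gcongr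
      _ = (Real.exp (-(1 / 10 * l)) * Real.exp (1 / 10 * l)) * r0 := by ring
      _ = r0 := by rw [h4, one_mul]
  have hr1 : r ≤ 1 := by linarith
  have hX1 : 1 ≤ X := by
    rw [hXl]
    exact Real.one_le_exp hl0
  have hXpos : 0 < X := by linarith
  have hYexp : X * Real.exp (del * l + 1) = Real.exp (l + del * l + 1) := by
    rw [hXl, ← Real.exp_add]
    congr 1
    ring
  obtain ⟨Y, hY⟩ : ∃ Y : ℝ, Y = X * Real.exp (del * l + 1) := ⟨_, rfl⟩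
  have hY1 : 1 ≤ Y := by
    rw [hY, hYexp]
    exact Real.one_le_exp (by linarith)
  have hYpos : 0 < Y := by linarith
  obtain ⟨nT, hnT⟩ := htyp Y del hY1 hdel0 (by linarith)
  obtain ⟨nP, hnP⟩ := hpair (del * l) eta r l0 hN m0 (m0 + hN) hN (m0 + hN + b) Q hl01 hl0Q hKm
    (by omega) (by omega) hJ1 heta heta1 h2C9 hrpos hr3 hQ1 hQ2
  have h100 : 1000 * Q ≤ Nat.fib m0 := by
    have h3 : (1000 : ℝ) * Q ≤ (Nat.fib m0 : ℝ) := by
      calc (1000 : ℝ) * Q ≤ 1000 * (C9 * Real.exp (1 / 5 * th * l)) := by gcongr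
        _ = (1000 * C9) * Real.exp (1 / 5 * th * l) := by ring
        _ ≤ Real.exp (7 / 10 * l) * Real.exp (1 / 5 * 1 * l) := by gcongr
        _ = Real.exp (9 / 10 * l) := by
            rw [← Real.exp_add]
            congr 1
            ring
        _ ≤ _ := hm0a
    exact_mod_cast h3
  have hfm0 : (0 : ℝ) < (Nat.fib m0 : ℝ) := by
    have : 0 < Nat.fib m0 := Nat.fib_pos.2 (by omega)
    exact_mod_cast this
  have hm1l : ((m0 + hN : ℕ) : ℝ) ≤ 3 * l := by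
    push_cast
    linarith
  -- the numerical conditions of the core theorem
  have hnum1 : C9 * (1 + Real.exp (del * l)) * eta / (Nat.fib m0 : ℝ) ≤ Real.exp (-(bt * l)) / X := by
    rw [div_le_div_iff₀ hfm0 hXpos]
    have h3 : 1 + Real.exp (del * l) ≤ 2 * Real.exp (del * l) := by
      have := Real.one_le_exp hdl
      linarith
    calc C9 * (1 + Real.exp (del * l)) * eta * X
        ≤ C9 * (2 * Real.exp (del * l)) * Real.exp (-(3 / 20 * l)) * Real.exp l := by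
          rw [hXl]
          gcongr
      _ = (2 * C9) * (Real.exp (del * l) * Real.exp (-(3 / 20 * l)) * Real.exp l) := by ring
      _ ≤ Real.exp (1 / 50 * l) * (Real.exp (del * l) * Real.exp (-(3 / 20 * l)) * Real.exp l) := by
          gcongr
          have hsq : C9 * 1 ≤ C9 * C9 := mul_le_mul_of_nonneg_left hC9 hC90.le
          rw [sq] at E2
          linarith
      _ = Real.exp ((1 / 50 + del + 17 / 20) * l) := by
          rw [← Real.exp_add, ← Real.exp_add, ← Real.exp_add]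
          congr 1
          ring
      _ ≤ Real.exp ((9 / 10 - bt) * l) := by
          apply Real.exp_le_exp.2
          gcongr
          linarith
      _ = Real.exp (-(bt * l)) * Real.exp (9 / 10 * l) := by
          rw [← Real.exp_add]
          congr 1
          ring
      _ ≤ _ := by gcongr
  have hnum2 : X * Real.exp (del * l) * (C9 / (Nat.fib m0 : ℝ)) * r ≤ Real.exp (-(bt * l)) := by
    rw [hXl, hr]
    calc Real.exp l * Real.exp (del * l) * (C9 / (Nat.fib m0 : ℝ)) *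
          (Real.exp (-((1 / 10 + bt + del) * l)) / C9)
        = (Real.exp l * Real.exp (del * l) * Real.exp (-((1 / 10 + bt + del) * l))) /
          (Nat.fib m0 : ℝ) := by field_simp
      _ ≤ (Real.exp l * Real.exp (del * l) * Real.exp (-((1 / 10 + bt + del) * l))) /
          Real.exp (9 / 10 * l) := by gcongr
      _ = Real.exp (-(bt * l)) := by
          rw [← Real.exp_add, ← Real.exp_add, ← Real.exp_sub]
          congr 1
          ring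
  have hbadnum := xf_bad c6 bt th del l gl Cb lam ClB G0 hN (m0 + hN) Q hc6 hc61 hG0 hbt0 hl0 hClB
    hCb.le h0.le hN1 (by linarith) hm1l hQ1 hQ4 hs7 hs6 E8 E9 E10
  refine ⟨max (max nT nP) (m0 + hN + n0 + 1), ?_⟩
  intro n hn xi hxi
  have hnT' : nT ≤ n := ((le_max_left _ _).trans (le_max_left _ _)).trans hn
  have hnP' : nP ≤ n := ((le_max_right _ _).trans (le_max_left _ _)).trans hn
  have hn3 : m0 + hN + n0 + 1 ≤ n := (le_max_right _ _).trans hn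
  obtain ⟨T, hTm, _, hTsin, hTvol, hTloc⟩ := hnT n hnT'
  have hleK : l0 + hN ≤ K * (l0 + hN) := Nat.le_mul_of_pos_left _ (by omega)
  have hbad1 := hbad n (m0 + hN + b) l0 hN m0 (m0 + hN) hN Q (del * l) hl06 hm06
    (by omega) (by omega) (by omega) hQ1 (by omega) hJ3 h100 hdl (fun i hi hP q hq1 hq => by
      obtain ⟨p1, p2, _⟩ := xf_piece lam e1 C4 C9 K l1 n0 l0 hN m0 (m0 + hN) hN (m0 + hN + b) Q n eta
        hAff hC4 hC9 hK hl5 hl01 he1 hl0Q hKm (by omega) (by omega) hJ1 heta heta1 i hi hP q hq1 hq.le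
      exact ⟨p1, p2⟩)
  rw [Nat.add_sub_cancel_left] at hbad1
  have hbad2 := hbad1.trans hbadnum
  obtain ⟨D, hD⟩ : ∃ D : ℝ, D = ClT * Y ^ del := ⟨_, rfl⟩
  have hDpos : 0 < D := by rw [hD]; positivity
  have hYinv : Real.exp (-(del * l) - 1) / X = 1 / Y := by
    rw [hY, show -(del * l) - 1 = -(del * l + 1) by ring, Real.exp_neg]
    field_simp
  have hcoreX := hcore lam e1 C4 C9 eta X (Real.exp (-(bt * l))) (del * l) D r
    (C10 * (3 * r) ^ th + 1 / Q) xi K l1 n0 l0 hN m0 (m0 + hN) hN (m0 + hN + b) Q n T h0 h1 hAff hC4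
    hC9 hK hl5 hl01 he1 hl0Q hKm (by omega) (by omega) (by omega) hJ1 heta heta1 hxi hX1
    (Real.exp_pos _) (by
      rw [Real.exp_le_one_iff]
      have : 0 ≤ bt * l := by positivity
      linarith) hdl hDpos hrpos hr1 (by positivity) hQ1 hnum1 hnum2 hTm hTsin
    (hTvol.trans (ENNReal.ofReal_le_ofReal (by
      have h3 : Y ^ (-(ct * del / Lg - Ct * lam)) ≤ Real.exp (-(bt * l)) * Real.exp (-(bt * l)) := by
        rw [hY, hYexp, ← Real.exp_mul, ← Real.exp_add]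
        apply Real.exp_le_exp.2
        have h4 : 2 * bt * l ≤ (ct * del / Lg - Ct * lam) * l := by gcongr
        have h5 : 0 ≤ (ct * del / Lg - Ct * lam) * (del * l + 1) := by
          have : 0 ≤ ct * del / Lg - Ct * lam := by linarith
          positivity
        linarith
      have h6 : Real.exp (-(bt * l)) * Real.exp (bt * l) = 1 := by
        rw [← Real.exp_add]
        simp
      calc ClT * Y ^ (-(ct * del / Lg - Ct * lam))
          ≤ ClT * (Real.exp (-(bt * l)) * Real.exp (-(bt * l))) := by gcongr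
        _ = (2 * ClT) * Real.exp (-(bt * l)) * Real.exp (-(bt * l)) / 2 := by ring
        _ ≤ Real.exp (bt * l) * Real.exp (-(bt * l)) * Real.exp (-(bt * l)) / 2 := by gcongr
        _ = (Real.exp (-(bt * l)) * Real.exp (bt * l)) * Real.exp (-(bt * l)) / 2 := by ring
        _ = _ := by rw [h6, one_mul])))
    (fun x => by
      rw [hYinv]
      refine (hTloc x).trans (ENNReal.ofReal_le_ofReal (le_of_eq ?_))
      rw [hD, Real.rpow_add hYpos, Real.rpow_neg_one]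
      ring)
    hbad2 (hnP n hnP')
  refine hcoreX.trans ?_
  have hfibmul := xf_fib_mul m0 (hN + b + 4) (by omega)
  have hfibmul' : (Nat.fib (m0 + (hN + b + 4)) : ℝ) ≤ 2 ^ (hN + b + 4) * (Nat.fib m0 : ℝ) := by
    exact_mod_cast hfibmul
  exact xf_fin CF th bt del l ClT Y D (2 ^ jL (m0 + hN + b)) C10 (C10 * (3 * r) ^ th + 1 / Q) X r C9
    ((3 * r) ^ th) b m0 hN (jL (m0 + hN + b)) Q hCF hth0 hbt0 hdel hth1 hbt1 hl0 hClT hXl hY hD rfl hJ2
    hfibmul' hm0b hN2 hC10 hC9 hQ5 (by positivity) hQ1 hQ4 rfl hr E12 E13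

end SF
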