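import Pool.Agent.Helper65.SF.XCa

/-!
# SF-XP: counting the pairs of rotations with nearly equal logarithmic ratios

Proof in words.  Let i be a piece, q a number with `not BadQ`.  Then `L = fg M l0 i` in `[l0, l0+H]`, `m = fg M m0 i` in `[m0, m1]` are good levels
(`Nat.sInf_mem`), `K L <= K (l0+H) <= m0 <= m`, the runs are at most Gp, so `debt_le` gives the debt bound
`B = C4 (l0+H) + 2 log 10 Gp` and `e + e S <= eta` (`C4 >= 1`).  `AffP` with `s0 = midn M i`, `l0 := L`, `d := q`, `w := wq n M i q` (`LG_node`).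
Let q < q' both not bad with `|Dq i q - Dq i q'| <= 2 r`.  For every s in the open piece with `LG (1/10) n s` (so `LG (1/11) n s`; and
`sin (pi fib n s) /= 0`): the last conclusion of `AffP` for q and q' gives `|GG n s (sh n q w s) - GG n s (sh n q' w' s)| <= 2 r + 2 C9 eta <= 3 r`, and
the difference is `Gr lam n (q'-q) sig`, `sig = sh n q w s = fract (s + q fib (n-1)/fib n)` (log of quotients, the derivatives are
positive; `fract (sig + (q'-q) al) = fract (s + q' al)`).  `LG (1/11) n sig`: `fib j q fib (n-1)/fib n` is within `3 Q/fib n` of an integer for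
`|j - n| <= 3` (n large).  So `level_freq` on the piece:
`c |piece| <= vol{s in piece : fract (s + q al) in S(q'-q)}`, `S(d)` = the set in `S2P` with 3 r.  Sum over i: rotation mod 1 preserves
Lebesgue measure: at most `(3 r)^th` for each pair (q,q') with q < q' (`q'-q <= Q <= (3r)^(-th)`).  The same for q > q', the
diagonal gives at most Q.  n1: maximum over the finitely many pieces and d.
-/

namespace SF

open MeasureTheory Classical

/-! ### Elementary facts -/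

private theorem xp7_cassini (q : ℕ) :
    |(Nat.fib (q + 1) : ℤ) * Nat.fib (q + 1) - Nat.fib (q + 2) * Nat.fib q| = 1 := by
  induction q with
  | zero => simp
  | succ q ih =>
    rw [← abs_neg, ← ih]
    congr 1
    have e1 : (Nat.fib (q + 1 + 2) : ℤ) = Nat.fib (q + 1) + Nat.fib (q + 2) := by
      rw [show q + 1 + 2 = (q + 1) + 2 by ring, Nat.fib_add_two]; push_cast; ring
    have e2 : (Nat.fib (q + 2) : ℤ) = Nat.fib q + Nat.fib (q + 1) := by
      rw [Nat.fib_add_two]; push_cast; ring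
    rw [show q + 1 + 1 = q + 2 by ring, e1, e2]
    ring

private theorem xp7_det (q m : ℕ) :
    |(Nat.fib (q + m) : ℤ) * Nat.fib (q + 1) - Nat.fib (q + m + 1) * Nat.fib q| = Nat.fib m := by
  have key : ∀ m : ℕ, (Nat.fib (q + m) : ℤ) * Nat.fib (q + 1) - Nat.fib (q + m + 1) * Nat.fib q
      = ((Nat.fib (q + 1) : ℤ) * Nat.fib (q + 1) - Nat.fib (q + 2) * Nat.fib q) * Nat.fib m := by
    intro m
    induction m using Nat.twoStepInduction with
    | zero => simp; ring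
    | one => simp
    | more m ih1 ih2 =>
      have e1 : (Nat.fib (q + (m + 2)) : ℤ) = Nat.fib (q + m) + Nat.fib (q + (m + 1)) := by
        rw [show q + (m + 2) = (q + m) + 2 by ring, Nat.fib_add_two]; push_cast; ring_nf
      have e2 : (Nat.fib (q + (m + 2) + 1) : ℤ) = Nat.fib (q + m + 1) + Nat.fib (q + (m + 1) + 1) := by
        rw [show q + (m + 2) + 1 = (q + m + 1) + 2 by ring, Nat.fib_add_two]; push_cast; ring_nf
      have e3 : (Nat.fib (m + 2) : ℤ) = Nat.fib m + Nat.fib (m + 1) := by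
        rw [Nat.fib_add_two]; push_cast; ring
      rw [e1, e2, e3, mul_add, ← ih1, ← ih2]
      ring
  rw [key m, abs_mul, xp7_cassini q, one_mul]
  simp

private theorem xp7_fib3 {m : ℕ} (hm : m ≤ 3) : (Nat.fib m : ℤ) ≤ 2 := by
  have : Nat.fib m ≤ Nat.fib 3 := Nat.fib_mono hm
  have h3 : Nat.fib 3 = 2 := rfl
  rw [h3] at this
  exact_mod_cast this

/-- `fib j fib (n-1)` is close to `fib (j-1) fib n`. -/
private theorem xp7_near (n j : ℕ) (hn : 4 ≤ n) (h1 : n ≤ j + 3) (h2 : j ≤ n + 3) :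
    |(Nat.fib j : ℝ) * Nat.fib (n - 1) - Nat.fib (j - 1) * Nat.fib n| ≤ 2 := by
  have key : |(Nat.fib j : ℤ) * Nat.fib (n - 1) - Nat.fib (j - 1) * Nat.fib n| ≤ 2 := by
    rcases le_total j n with h | h
    · obtain ⟨q, rfl⟩ : ∃ q, j = q + 1 := ⟨j - 1, by omega⟩
      obtain ⟨m, rfl⟩ : ∃ m, n = q + m + 1 := ⟨n - (q + 1), by omega⟩
      have := xp7_det q m
      rw [Nat.add_sub_cancel, Nat.add_sub_cancel]
      have e : (Nat.fib (q + 1) : ℤ) * Nat.fib (q + m) - Nat.fib q * Nat.fib (q + m + 1) =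
          (Nat.fib (q + m) : ℤ) * Nat.fib (q + 1) - Nat.fib (q + m + 1) * Nat.fib q := by ring
      rw [e, this]
      exact xp7_fib3 (by omega)
    · obtain ⟨q, rfl⟩ : ∃ q, n = q + 1 := ⟨n - 1, by omega⟩
      obtain ⟨m, rfl⟩ : ∃ m, j = q + m + 1 := ⟨j - (q + 1), by omega⟩
      have := xp7_det q m
      rw [Nat.add_sub_cancel, Nat.add_sub_cancel]
      have e : (Nat.fib (q + m + 1) : ℤ) * Nat.fib q - Nat.fib (q + m) * Nat.fib (q + 1) =
          -((Nat.fib (q + m) : ℤ) * Nat.fib (q + 1) - Nat.fib (q + m + 1) * Nat.fib q) := by ring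
      rw [e, abs_neg, this]
      exact xp7_fib3 (by omega)
  exact_mod_cast key

private theorem xp7_sin_near (a b : ℝ) (k : ℤ) :
    |Real.sin a| - |b - a - k * Real.pi| ≤ |Real.sin b| := by
  have h1 : |Real.sin (b - k * Real.pi)| = |Real.sin b| := by
    rw [Real.sin_sub_int_mul_pi, abs_mul]
    rcases Int.even_or_odd k with h | h
    · rw [h.neg_one_zpow]; simp
    · rw [h.neg_one_zpow]; simp
  have h := Real.abs_sin_sub_sin_le a (b - k * Real.pi)
  have h2 : |Real.sin a| ≤ |Real.sin a - Real.sin (b - k * Real.pi)| +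
      |Real.sin (b - k * Real.pi)| := by
    have := abs_add_le (Real.sin a - Real.sin (b - k * Real.pi)) (Real.sin (b - k * Real.pi))
    simpa using this
  have h3 : |a - (b - k * Real.pi)| = |b - a - k * Real.pi| := by
    rw [← abs_neg]
    congr 1
    ring
  rw [h3] at h
  rw [h1] at h2
  linarith

/-- Goodness is preserved by the rotation. -/
private theorem xp7_LG (n Q q : ℕ) (hq : q ≤ Q) (hn : 4 ≤ n) (hQ : 700 * Q ≤ Nat.fib n) (s : ℝ)
    (h : LG (1 / 10) n s) :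
    LG (1 / 11) n (Int.fract (s + q * (Nat.fib (n - 1) : ℝ) / (Nat.fib n : ℝ))) := by
  refine ⟨hn, fun j hj1 hj2 => ?_⟩
  have h1 := h.2 j hj1 hj2
  have hfn : (0 : ℝ) < Nat.fib n := by
    have : 0 < Nat.fib n := Nat.fib_pos.2 (by omega)
    exact_mod_cast this
  have hnear := xp7_near n j hn hj1 hj2
  set w : ℤ := ⌊s + q * (Nat.fib (n - 1) : ℝ) / (Nat.fib n : ℝ)⌋ with hw
  have hfr : Int.fract (s + q * (Nat.fib (n - 1) : ℝ) / (Nat.fib n : ℝ)) =
      s + q * (Nat.fib (n - 1) : ℝ) / (Nat.fib n : ℝ) - w := rfl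
  rw [hfr]
  have h2 := xp7_sin_near (Real.pi * (Nat.fib j : ℝ) * s)
    (Real.pi * (Nat.fib j : ℝ) * (s + q * (Nat.fib (n - 1) : ℝ) / (Nat.fib n : ℝ) - w))
    ((q : ℤ) * (Nat.fib (j - 1) : ℤ) - w * (Nat.fib j : ℤ))
  have h3 : Real.pi * (Nat.fib j : ℝ) * (s + q * (Nat.fib (n - 1) : ℝ) / (Nat.fib n : ℝ) - w) -
      Real.pi * (Nat.fib j : ℝ) * s -
      (((q : ℤ) * (Nat.fib (j - 1) : ℤ) - w * (Nat.fib j : ℤ) : ℤ) : ℝ) * Real.pi =
      Real.pi * (q / Nat.fib n) *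
        ((Nat.fib j : ℝ) * Nat.fib (n - 1) - Nat.fib (j - 1) * Nat.fib n) := by
    push_cast
    field_simp
    ring
  rw [h3, abs_mul, abs_of_nonneg (by positivity : (0:ℝ) ≤ Real.pi * (q / Nat.fib n))] at h2
  have h4 : Real.pi * ((q : ℝ) / Nat.fib n) *
      |(Nat.fib j : ℝ) * Nat.fib (n - 1) - Nat.fib (j - 1) * Nat.fib n| ≤ 1 / 110 := by
    have h5 : (q : ℝ) / Nat.fib n ≤ 1 / 700 := by
      rw [div_le_div_iff₀ hfn (by norm_num)]
      have h6 : ((700 * Q : ℕ) : ℝ) ≤ Nat.fib n := by exact_mod_cast hQ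
      have h7 : (q : ℝ) ≤ Q := by exact_mod_cast hq
      push_cast at h6
      linarith
    have h8 := Real.pi_lt_d4
    have h9 := Real.pi_pos
    calc Real.pi * ((q : ℝ) / Nat.fib n) *
        |(Nat.fib j : ℝ) * Nat.fib (n - 1) - Nat.fib (j - 1) * Nat.fib n|
        ≤ 3.1416 * (1 / 700) * 2 := by gcongr
      _ ≤ 1 / 110 := by norm_num
  linarith

/-- Positive slopes. -/
private theorem xp7_deriv_pos (lam : ℝ) (h0 : 0 < lam) (h1 : lam ≤ 1 / 100) (n : ℕ) (hn : 1 ≤ n)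
    (s : ℝ) (hs0 : 0 < s) (hs1 : s < 1) (hs : Real.sin (Real.pi * (Nat.fib n : ℝ) * s) ≠ 0) :
    0 < deriv (fun t => TE lam t n) (EE lam n s) := by
  have hsp := (EE_spec lam h0.le h1 n hn s hs0 hs1).1
  have hsin : Real.sin (TE lam (EE lam n s) n) ≠ 0 := by rw [hsp]; exact hs
  obtain ⟨d, hd, hd1, -⟩ := TE_deriv lam (EE lam n s) h0.le h1 n hn
    ((sin_TE_ne lam (EE lam n s) h0.le n).1 hsin)
  rw [hd1.deriv]
  have hf : 0 < (Nat.fib n : ℝ) := by exact_mod_cast Nat.fib_pos.2 hn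
  linarith

private theorem xp7_fract_add (x y : ℝ) : Int.fract (Int.fract x + y) = Int.fract (x + y) := by
  have : Int.fract x + y = x + y - (⌊x⌋ : ℤ) := by
    unfold Int.fract
    ring
  rw [this, Int.fract_sub_intCast]

/-! ### Measure facts -/

private theorem xp7_rot (S : Set ℝ) (β : ℝ) :
    volume {s : ℝ | s ∈ Set.Ioo (0:ℝ) 1 ∧ Int.fract (s + β) ∈ S} ≤ 2 * volume S := by
  have hsub : {s : ℝ | s ∈ Set.Ioo (0:ℝ) 1 ∧ Int.fract (s + β) ∈ S} ⊆
      ((fun s => s + (β - ⌊β⌋)) ⁻¹' S) ∪ ((fun s => s + (β - ⌊β⌋ - 1)) ⁻¹' S) := by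
    rintro s ⟨hs, hS⟩
    have h1 : (⌊β⌋ : ℝ) ≤ β := Int.floor_le β
    have h2 : β < ⌊β⌋ + 1 := Int.lt_floor_add_one β
    by_cases h : s + β < ⌊β⌋ + 1
    · left
      have hf : ⌊s + β⌋ = ⌊β⌋ := by
        rw [Int.floor_eq_iff]
        exact ⟨by linarith [hs.1], h⟩
      have : Int.fract (s + β) = s + (β - ⌊β⌋) := by
        unfold Int.fract
        rw [hf]
        ring
      rw [this] at hS
      exact hS
    · right
      push Not at h
      have hf : ⌊s + β⌋ = ⌊β⌋ + 1 := by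
        rw [Int.floor_eq_iff]
        push_cast
        exact ⟨h, by linarith [hs.2]⟩
      have : Int.fract (s + β) = s + (β - ⌊β⌋ - 1) := by
        unfold Int.fract
        rw [hf]
        push_cast
        ring
      rw [this] at hS
      exact hS
  calc volume {s : ℝ | s ∈ Set.Ioo (0:ℝ) 1 ∧ Int.fract (s + β) ∈ S}
      ≤ volume (((fun s => s + (β - ⌊β⌋)) ⁻¹' S) ∪ ((fun s => s + (β - ⌊β⌋ - 1)) ⁻¹' S)) :=
        measure_mono hsub
    _ ≤ volume ((fun s => s + (β - ⌊β⌋)) ⁻¹' S) + volume ((fun s => s + (β - ⌊β⌋ - 1)) ⁻¹' S) :=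
        measure_union_le _ _
    _ = 2 * volume S := by
        rw [measure_preimage_add_right, measure_preimage_add_right, two_mul]

private theorem xp7_pieces (N : ℕ) (hN : 0 < N) (A : Finset ℕ) (E : Set ℝ) (v : ENNReal)
    (h : ∀ i ∈ A, v ≤ volume (Set.Ioo ((i : ℝ) / N) (((i : ℝ) + 1) / N) ∩ E)) :
    A.card * v ≤ volume E := by
  have hNr : (0 : ℝ) < N := by exact_mod_cast hN
  have hdisj : Set.PairwiseDisjoint (A : Set ℕ)
      (fun i : ℕ => Set.Ioo ((i : ℝ) / N) (((i : ℝ) + 1) / N)) := by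
    intro i _ j _ hij
    rw [Function.onFun, Set.disjoint_left]
    intro s hs hs'
    have a1 := (div_lt_iff₀ hNr).1 hs.1
    have a2 := (lt_div_iff₀ hNr).1 hs.2
    have b1 := (div_lt_iff₀ hNr).1 hs'.1
    have b2 := (lt_div_iff₀ hNr).1 hs'.2
    have c1 : (i : ℝ) < j + 1 := by linarith
    have c2 : (j : ℝ) < i + 1 := by linarith
    have c1' : i < j + 1 := by exact_mod_cast c1
    have c2' : j < i + 1 := by exact_mod_cast c2
    omega
  calc A.card * v = ∑ _i ∈ A, v := by rw [Finset.sum_const, nsmul_eq_mul]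
    _ ≤ ∑ i ∈ A, volume (Set.Ioo ((i : ℝ) / N) (((i : ℝ) + 1) / N) ∩ E) := Finset.sum_le_sum h
    _ = ∑ i ∈ A, (volume.restrict E) (Set.Ioo ((i : ℝ) / N) (((i : ℝ) + 1) / N)) := by
        refine Finset.sum_congr rfl fun i _ => ?_
        rw [Measure.restrict_apply measurableSet_Ioo]
    _ = (volume.restrict E) (⋃ i ∈ A, Set.Ioo ((i : ℝ) / N) (((i : ℝ) + 1) / N)) :=
        (measure_biUnion_finset hdisj fun i _ => measurableSet_Ioo).symm
    _ ≤ (volume.restrict E) Set.univ := measure_mono (Set.subset_univ _)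
    _ = volume E := Measure.restrict_apply_univ _

/-! ### Counting -/

private theorem xp7_sum {N Q : ℕ} (hN : 0 < N) (hQ : 1 ≤ Q) (P : ℕ → ℕ × ℕ → Prop)
    [∀ i, DecidablePred (P i)] (K : ℝ) (hK : 0 ≤ K)
    (h : ∀ q q', q < Q → q' < Q → q ≠ q' → ∀ A : Finset ℕ, (∀ i ∈ A, i < N ∧ P i (q, q')) →
      (A.card : ℝ) ≤ K * N) :
    ∑ i ∈ Finset.range N, (1 / N : ℝ) *
      ((((Finset.range Q) ×ˢ (Finset.range Q)).filter (P i)).card : ℝ) ≤ (K + 1 / Q) * Q ^ 2 := by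
  have hNr : (0 : ℝ) < N := by exact_mod_cast hN
  have hQr : (0 : ℝ) < Q := by exact_mod_cast hQ
  have e1 : ∑ i ∈ Finset.range N, (1 / N : ℝ) *
      ((((Finset.range Q) ×ˢ (Finset.range Q)).filter (P i)).card : ℝ) =
      ∑ z ∈ (Finset.range Q) ×ˢ (Finset.range Q),
        (1 / N : ℝ) * (((Finset.range N).filter (fun i => P i z)).card : ℝ) := by
    simp only [Finset.card_filter, Nat.cast_sum, Nat.cast_ite, Nat.cast_one, Nat.cast_zero,
      Finset.mul_sum]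
    rw [Finset.sum_comm]
  rw [e1]
  have e2 : ∀ z ∈ (Finset.range Q) ×ˢ (Finset.range Q),
      (1 / N : ℝ) * (((Finset.range N).filter (fun i => P i z)).card : ℝ) ≤
        K + if z.1 = z.2 then 1 else 0 := by
    rintro ⟨q, q'⟩ hz
    rw [Finset.mem_product, Finset.mem_range, Finset.mem_range] at hz
    by_cases hqq : q = q'
    · have h1 : (((Finset.range N).filter (fun i => P i (q, q'))).card : ℝ) ≤ N := by
        have := Finset.card_filter_le (Finset.range N) (fun i => P i (q, q'))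
        rw [Finset.card_range] at this
        exact_mod_cast this
      simp only [hqq, if_true] at h1 ⊢
      rw [one_div, inv_mul_le_iff₀ hNr]
      nlinarith
    · simp only [hqq, if_false, add_zero]
      rw [one_div, inv_mul_le_iff₀ hNr, mul_comm]
      refine h q q' hz.1 hz.2 hqq _ fun i hi => ?_
      rw [Finset.mem_filter, Finset.mem_range] at hi
      exact hi
  refine (Finset.sum_le_sum e2).trans ?_
  rw [Finset.sum_add_distrib, Finset.sum_const, Finset.card_product, Finset.card_range,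
    nsmul_eq_mul, Finset.sum_product]
  have e3 : ∑ x ∈ Finset.range Q, ∑ y ∈ Finset.range Q,
      (if (x, y).1 = (x, y).2 then (1 : ℝ) else 0) = Q := by
    have : ∀ x ∈ Finset.range Q, ∑ y ∈ Finset.range Q,
        (if (x, y).1 = (x, y).2 then (1 : ℝ) else 0) = 1 := by
      intro x hx
      simp only
      rw [Finset.sum_ite_eq, if_pos hx]
    rw [Finset.sum_congr rfl this]
    simp
  rw [e3]
  push_cast
  refine le_of_eq ?_
  field_simp

/-! ### The affine comparison for one piece and one rotation -/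

private theorem xp7_run (g : ℕ → Prop) (ks : ℕ) (r : ℕ) :
    runS g ks r ≤ r ∧ ∀ k, ks + r - runS g ks r < k → k ≤ ks + r → ¬ g k := by
  induction r with
  | zero =>
    refine ⟨le_refl _, fun k h1 h2 => ?_⟩
    have : runS g ks 0 = 0 := rfl
    omega
  | succ r ih =>
    by_cases hg : g (ks + (r + 1))
    · have e : runS g ks (r + 1) = 0 := by
        rw [runS, if_pos hg]
      rw [e]
      exact ⟨by omega, fun k h1 h2 => by omega⟩
    · have e : runS g ks (r + 1) = runS g ks r + 1 := by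
        rw [runS, if_neg hg]
      rw [e]
      refine ⟨by omega, fun k h1 h2 => ?_⟩
      by_cases hk : k = ks + (r + 1)
      · rw [hk]; exact hg
      · exact ih.2 k (by omega) (by omega)

private theorem xp7_piece (lam e1 C4 C9 Gam eta r : ℝ) (K l1 n0 l0 H m0 m1 Gp M Q : ℕ)
    (hC4 : 1 ≤ C4) (hC9 : 1 ≤ C9) (hK : 3 ≤ K) (hl1 : 5 ≤ l1)
    (hA : AffP lam e1 C4 C9 K l1 n0) (hl0 : l1 ≤ l0)
    (hQe : (Q : ℝ) ≤ e1 * (Nat.fib l0 : ℝ)) (hKm : K * (l0 + H) ≤ m0) (hmM : m1 ≤ M)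
    (hC9M : C9 * (Nat.fib m1 : ℝ) ≤ 2 ^ jL M)
    (heta : eta = 2 * C4 * Real.exp (C4 * (l0 + H : ℕ) + 2 * Real.log 10 * Gp
        - 1 / 10 * ((m0 : ℝ) - (l0 + H : ℕ))))
    (heta1 : eta ≤ 1) (hr : 2 * C9 * eta ≤ r) (n i q : ℕ) (hi : i < 2 ^ jL M) (hq : q < Q)
    (hn : m1 + n0 ≤ n) (hbad : ¬ BadQ lam n M l0 H m0 m1 Gp Gam i q) (s : ℝ)
    (hs1 : (i : ℝ) / 2 ^ jL M < s) (hs2 : s < ((i : ℝ) + 1) / 2 ^ jL M)
    (hLG : LG (1 / 10) n s) :
    0 < Int.fract (s + q * (Nat.fib (n - 1) : ℝ) / (Nat.fib n : ℝ)) ∧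
    |GG lam n s (Int.fract (s + q * (Nat.fib (n - 1) : ℝ) / (Nat.fib n : ℝ))) -
      Dq lam n M m0 i q| ≤ r / 2 := by
  unfold BadQ BadP at hbad
  push Not at hbad
  obtain ⟨hq0, ⟨⟨k1, hk1, hk1', hgk1⟩, ⟨k2, hk2, hk2', hgk2⟩, hrun⟩, hGam⟩ := hbad
  set g : ℕ → Prop := fun k => goodN k (anc jL k M i) with hg
  -- the levels
  set L : ℕ := fg M l0 i with hL
  set m : ℕ := fg M m0 i with hm
  have hLmem : l0 ≤ L ∧ g L :=
    Nat.sInf_mem (s := {k | l0 ≤ k ∧ goodN k (anc jL k M i)}) ⟨k1, hk1, hgk1⟩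
  have hLle : L ≤ l0 + H :=
    (Nat.sInf_le (s := {k | l0 ≤ k ∧ goodN k (anc jL k M i)}) ⟨hk1, hgk1⟩).trans hk1'
  have hmmem : m0 ≤ m ∧ g m :=
    Nat.sInf_mem (s := {k | m0 ≤ k ∧ goodN k (anc jL k M i)}) ⟨k2, hk2, hgk2⟩
  have hmle : m ≤ m1 :=
    (Nat.sInf_le (s := {k | m0 ≤ k ∧ goodN k (anc jL k M i)}) ⟨hk2, hgk2⟩).trans hk2'
  have hN : (0 : ℝ) < 2 ^ jL M := by positivity
  have hir : (i : ℝ) + 1 ≤ 2 ^ jL M := by exact_mod_cast hi
  -- s0
  have hs0pos : 0 < midn M i := by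
    unfold midn
    exact div_pos (add_pos_of_nonneg_of_pos (Nat.cast_nonneg _) (by norm_num)) hN
  have hs0lt : midn M i < 1 := by
    unfold midn
    rw [div_lt_one hN]
    linarith
  -- debt
  have hKL : K * L ≤ m := (Nat.mul_le_mul_left K hLle).trans (hKm.trans hmmem.1)
  have hKL5 : 5 ≤ K * L := by
    have h5L : 5 ≤ L := hl1.trans (hl0.trans hLmem.1)
    exact h5L.trans (Nat.le_mul_of_pos_left L (by omega))
  have hlog : 0 ≤ Real.log 10 := Real.log_nonneg (by norm_num)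
  have hruns : ∀ t ≤ m - K * L, runS g (K * L) t ≤ Gp := by
    intro t ht
    by_contra hcon
    push Not at hcon
    obtain ⟨r1, r2⟩ := xp7_run g (K * L) t
    obtain ⟨k, hk3, hk4, hk5⟩ := hrun (K * L + t - Gp) (by omega) (by omega)
    exact r2 k (by omega) (by omega) hk5
  have hlog2 : 0 ≤ 2 * Real.log 10 := mul_nonneg zero_le_two hlog
  have hC40 : 0 ≤ C4 := zero_le_one.trans hC4
  have hdebt := debt_le g (K * L) (2 * Real.log 10) (1 / 10) (C4 * L) hlog2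
    (by norm_num) (mul_nonneg hC40 (Nat.cast_nonneg _)) Gp (m - K * L) hruns
  set B : ℝ := C4 * (l0 + H : ℕ) + 2 * Real.log 10 * Gp with hB
  have hB0 : 0 ≤ B :=
    add_nonneg (mul_nonneg hC40 (Nat.cast_nonneg _)) (mul_nonneg hlog2 (Nat.cast_nonneg _))
  have hdB : debtS g (K * L) (2 * Real.log 10) (1 / 10) (C4 * L) (m - K * L) ≤ B := by
    refine hdebt.2.trans (max_le ?_ ?_)
    · have h1 : (L : ℝ) ≤ (l0 + H : ℕ) := by exact_mod_cast hLle
      have h2 : C4 * (L : ℝ) ≤ C4 * (l0 + H : ℕ) := mul_le_mul_of_nonneg_left h1 hC40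
      have h3 : 0 ≤ 2 * Real.log 10 * (Gp : ℝ) := mul_nonneg hlog2 (Nat.cast_nonneg _)
      linarith
    · have h3 : 0 ≤ C4 * ((l0 + H : ℕ) : ℝ) := mul_nonneg hC40 (Nat.cast_nonneg _)
      linarith
  -- e and S
  set e : ℝ := Real.exp (-(2 / 5) * ((m : ℝ) - L)) with he
  set S : ℝ := C4 * Real.exp (B + 3 / 10 * ((m : ℝ) - L)) with hS
  have heS : e * S = C4 * Real.exp (B - 1 / 10 * ((m : ℝ) - L)) := by
    rw [he, hS, mul_left_comm, ← Real.exp_add]
    congr 2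
    ring
  have hdiff : (m0 : ℝ) - (l0 + H : ℕ) ≤ (m : ℝ) - L := by
    have h1 : (m0 : ℝ) ≤ m := by exact_mod_cast hmmem.1
    have h2 : (L : ℝ) ≤ (l0 + H : ℕ) := by exact_mod_cast hLle
    linarith
  have hmL : 0 ≤ (m : ℝ) - L := by
    have hLm : L ≤ m := (Nat.le_mul_of_pos_left L (by omega)).trans hKL
    have : (L : ℝ) ≤ m := by exact_mod_cast hLm
    linarith
  have heS2 : e * S ≤ eta / 2 := by
    rw [heS, heta]
    have : Real.exp (B - 1 / 10 * ((m : ℝ) - L)) ≤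
        Real.exp (B - 1 / 10 * ((m0 : ℝ) - (l0 + H : ℕ))) := by
      apply Real.exp_le_exp.2
      linarith
    calc C4 * Real.exp (B - 1 / 10 * ((m : ℝ) - L))
        ≤ C4 * Real.exp (B - 1 / 10 * ((m0 : ℝ) - (l0 + H : ℕ))) :=
          mul_le_mul_of_nonneg_left this hC40
      _ = _ := by rw [hB]; ring
  have hee : e ≤ e * S := by
    rw [heS, he]
    calc Real.exp (-(2 / 5) * ((m : ℝ) - L)) ≤ Real.exp (B - 1 / 10 * ((m : ℝ) - L)) := by
          apply Real.exp_le_exp.2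
          linarith
      _ ≤ C4 * Real.exp (B - 1 / 10 * ((m : ℝ) - L)) := le_mul_of_one_le_left (Real.exp_pos _).le hC4
  have hLe1 : (q : ℝ) ≤ e1 * (Nat.fib L : ℝ) := by
    have h1 : (q : ℝ) ≤ Q := by exact_mod_cast hq.le
    have h2 : (0 : ℝ) < Nat.fib l0 := by
      have : 0 < Nat.fib l0 := Nat.fib_pos.2 (by omega)
      exact_mod_cast this
    have he1 : 0 ≤ e1 := by
      by_contra hc
      push Not at hc
      have h3 : (0 : ℝ) ≤ Q := Nat.cast_nonneg _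
      have h4 := mul_neg_of_neg_of_pos hc h2
      exact absurd (h3.trans hQe) (not_le.2 h4)
    have h3 : (Nat.fib l0 : ℝ) ≤ Nat.fib L := by exact_mod_cast Nat.fib_mono hLmem.1
    calc (q : ℝ) ≤ Q := h1
      _ ≤ e1 * (Nat.fib l0 : ℝ) := hQe
      _ ≤ e1 * (Nat.fib L : ℝ) := mul_le_mul_of_nonneg_left h3 he1
  obtain ⟨-, -, hall⟩ := hA L m n q (midn M i) B e S (wq n M i q) g (hl0.trans hLmem.1)
    (Nat.one_le_iff_ne_zero.2 hq0) hLe1 hKL (by omega) hLmem.2 hmmem.2 hs0pos hs0lt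
    (fun k _ hk hgk => LG_node k M i (by omega) hgk) hdB rfl he hS (by linarith)
  have hfm : (0 : ℝ) < Nat.fib m := by
    have : 0 < Nat.fib m := Nat.fib_pos.2 (by omega)
    exact_mod_cast this
  have hfm1 : (Nat.fib m : ℝ) ≤ Nat.fib m1 := by exact_mod_cast Nat.fib_mono hmle
  have hdist : |s - midn M i| ≤ 1 / (C9 * (Nat.fib m : ℝ)) := by
    have h1 : |s - midn M i| ≤ 1 / 2 ^ jL M := by
      unfold midn
      have h2 : ((i : ℝ) + 1 / 2) / 2 ^ jL M = (i : ℝ) / 2 ^ jL M + 1 / 2 * (1 / 2 ^ jL M) := by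
        field_simp
      have h3 : ((i : ℝ) + 1) / 2 ^ jL M = (i : ℝ) / 2 ^ jL M + 1 / 2 ^ jL M := by
        field_simp
      have h4 : 0 < (1 : ℝ) / 2 ^ jL M := div_pos one_pos hN
      rw [h2, abs_le]
      constructor <;> linarith
    refine h1.trans ?_
    have hC90 : 0 < C9 := zero_lt_one.trans_le hC9
    apply one_div_le_one_div_of_le (mul_pos hC90 hfm)
    calc C9 * (Nat.fib m : ℝ) ≤ C9 * (Nat.fib m1 : ℝ) := mul_le_mul_of_nonneg_left hfm1 hC90.le
      _ ≤ _ := hC9M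
  have hsin : Real.sin (Real.pi * (Nat.fib n : ℝ) * s) ≠ 0 := by
    intro h0
    have := hLG.2 n (by omega) (by omega)
    rw [h0, abs_zero] at this
    norm_num at this
  obtain ⟨-, -, hfr, hpos, -, -, hGG⟩ := hall s hdist hsin
  have hLG11 : LG (1 / 11) n s := ⟨hLG.1, fun j h1 h2 => by
    have := hLG.2 j h1 h2
    linarith⟩
  have h5 := hGG hLG11
  rw [hfr]
  refine ⟨hpos, ?_⟩
  have h6 : Dq lam n M m0 i q =
      GG lam m (midn M i) (sh m q (wq n M i q) (midn M i)) := rfl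
  rw [h6]
  refine h5.trans ?_
  have h7 : C9 * (e + e * S) ≤ C9 * eta := by
    have : e + e * S ≤ eta := by linarith
    exact mul_le_mul_of_nonneg_left this (zero_le_one.trans hC9)
  linarith

theorem pair_count : ∃ C10 : ℝ, 1 ≤ C10 ∧
    ∀ (lam th r0 e1 C4 C9 Gam eta r : ℝ) (K l1 n0 l0 H m0 m1 Gp M Q : ℕ), 0 < lam → lam ≤ 1 / 100 →
      0 < th → th ≤ 1 → 1 ≤ C4 → 1 ≤ C9 → 3 ≤ K → 5 ≤ l1 →
      AffP lam e1 C4 C9 K l1 n0 → S2P lam th r0 → l1 ≤ l0 → (Q : ℝ) ≤ e1 * (Nat.fib l0 : ℝ) →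
      K * (l0 + H) ≤ m0 → m0 ≤ m1 → m1 ≤ M → C9 * (Nat.fib m1 : ℝ) ≤ 2 ^ jL M →
      eta = 2 * C4 * Real.exp (C4 * (l0 + H : ℕ) + 2 * Real.log 10 * Gp
        - 1 / 10 * ((m0 : ℝ) - (l0 + H : ℕ))) →
      eta ≤ 1 → 2 * C9 * eta ≤ r → 0 < r → 3 * r ≤ r0 → r0 < 1 → 1 ≤ Q → (Q : ℝ) ≤ (3 * r) ^ (-th) →
      ∃ n1 : ℕ, ∀ n ≥ n1,
        ∑ i ∈ Finset.range (2 ^ jL M), (1 / 2 ^ jL M : ℝ) *
          ((((Finset.range Q) ×ˢ (Finset.range Q)).filter (fun z =>
            ¬ BadQ lam n M l0 H m0 m1 Gp Gam i z.1 ∧ ¬ BadQ lam n M l0 H m0 m1 Gp Gam i z.2 ∧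
            |Dq lam n M m0 i z.1 - Dq lam n M m0 i z.2| ≤ 2 * r)).card : ℝ)
        ≤ (C10 * (3 * r) ^ th + 1 / Q) * Q ^ 2 := by
  obtain ⟨c, hc, hfreq⟩ := level_freq
  refine ⟨max 1 (2 / c), le_max_left _ _, ?_⟩
  intro lam th r0 e1 C4 C9 Gam eta r K l1 n0 l0 H m0 m1 Gp M Q hlam hlam1 hth hth1 hC4 hC9 hK hl1
    hA hS2 hl0 hQe hKm hm01 hmM hC9M heta heta1 hr2 hr hr0 hr01 hQ hQth
  have hN : (0 : ℝ) < 2 ^ jL M := by positivity
  have hNn : 0 < 2 ^ jL M := by positivity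
  -- thresholds
  have E1 : ∀ᶠ n : ℕ in Filter.atTop, ∀ i ∈ Finset.range (2 ^ jL M),
      ENNReal.ofReal (c * (1 / 2 ^ jL M)) ≤
        volume {s : ℝ | (i : ℝ) / 2 ^ jL M < s ∧ s < ((i : ℝ) + 1) / 2 ^ jL M ∧ LG (1 / 10) n s} := by
    refine (Finset.eventually_all _).2 fun i _ => ?_
    obtain ⟨n1, hn1⟩ := hfreq ((i : ℝ) / 2 ^ jL M) (((i : ℝ) + 1) / 2 ^ jL M) (by
      apply div_lt_div_of_pos_right _ hN
      linarith)
    refine Filter.eventually_atTop.2 ⟨n1, fun n hn => ?_⟩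
    have h1 := hn1 n hn
    have h2 : ((i : ℝ) + 1) / 2 ^ jL M - (i : ℝ) / 2 ^ jL M = 1 / 2 ^ jL M := by
      rw [← sub_div]
      congr 1
      ring
    rwa [h2] at h1
  have E2 : ∀ᶠ n : ℕ in Filter.atTop, ∀ d : ℕ, 1 ≤ d → (d : ℝ) ≤ (3 * r) ^ (-th) →
      volume {s : ℝ | s ∈ Set.Ioo 0 1 ∧ LG (1 / 11) n s ∧ |Gr lam n d s| ≤ 3 * r} ≤
        ENNReal.ofReal ((3 * r) ^ th) := by
    obtain ⟨n1, hn1⟩ := hS2 (3 * r) (by positivity) hr0
    exact Filter.eventually_atTop.2 ⟨n1, fun n hn => hn1 n hn⟩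
  have E3 : ∀ᶠ n : ℕ in Filter.atTop, 700 * Q ≤ Nat.fib n ∧ m1 + n0 ≤ n ∧ 7 ≤ n := by
    refine Filter.eventually_atTop.2 ⟨700 * Q + (m1 + n0) + 7, fun n hn => ⟨?_, by omega, by omega⟩⟩
    have := Nat.le_fib_self (n := n) (by omega)
    omega
  obtain ⟨n1, hn1⟩ := Filter.eventually_atTop.1 (E1.and (E2.and E3))
  refine ⟨n1, fun n hn => ?_⟩
  obtain ⟨F1, F2, F3, F4, F5⟩ := hn1 n hn
  have hfn : (0 : ℝ) < Nat.fib n := by
    have : 0 < Nat.fib n := Nat.fib_pos.2 (by omega)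
    exact_mod_cast this
  -- one pair q < q'
  have hpair : ∀ q q', q < q' → q' < Q → ∀ A : Finset ℕ, (∀ i ∈ A, i < 2 ^ jL M ∧
      (¬ BadQ lam n M l0 H m0 m1 Gp Gam i q ∧ ¬ BadQ lam n M l0 H m0 m1 Gp Gam i q' ∧
            |Dq lam n M m0 i q - Dq lam n M m0 i q'| ≤ 2 * r)) →
      (A.card : ℝ) ≤ max 1 (2 / c) * (3 * r) ^ th * ((2 ^ jL M : ℕ) : ℝ) := by
    intro q q' hqq hq'Q A hA'
    set S : Set ℝ := {s : ℝ | s ∈ Set.Ioo 0 1 ∧ LG (1 / 11) n s ∧ |Gr lam n (q' - q : ℕ) s| ≤ 3 * r}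
      with hS
    have hSm : volume S ≤ ENNReal.ofReal ((3 * r) ^ th) := by
      refine F2 (q' - q) (by omega) ?_
      have h1 : ((q' - q : ℕ) : ℝ) ≤ Q := by
        have : q' - q ≤ Q := by omega
        exact_mod_cast this
      exact h1.trans hQth
    set E : Set ℝ := {s : ℝ | s ∈ Set.Ioo (0:ℝ) 1 ∧
      Int.fract (s + q * (Nat.fib (n - 1) : ℝ) / (Nat.fib n : ℝ)) ∈ S} with hE
    have hEm : volume E ≤ 2 * ENNReal.ofReal ((3 * r) ^ th) :=
      (xp7_rot S _).trans (by gcongr)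
    have hcount : (A.card : ENNReal) * ENNReal.ofReal (c * (1 / 2 ^ jL M)) ≤ volume E := by
      refine xp7_pieces (2 ^ jL M) hNn A E _ fun i hi => ?_
      obtain ⟨hiN, hb1, hb2, hD⟩ := hA' i hi
      refine (F1 i (Finset.mem_range.2 hiN)).trans (measure_mono ?_)
      rintro s ⟨hs1, hs2, hLG⟩
      have hcast : ((2 ^ jL M : ℕ) : ℝ) = 2 ^ jL M := by push_cast; rfl
      refine ⟨⟨by rw [hcast]; exact hs1, by rw [hcast]; exact hs2⟩, ?_⟩
      have hir : (i : ℝ) + 1 ≤ 2 ^ jL M := by exact_mod_cast hiN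
      have hs0 : 0 < s := lt_of_le_of_lt (by positivity) hs1
      have hs1' : s < 1 := lt_of_lt_of_le hs2 ((div_le_one hN).2 hir)
      refine ⟨⟨hs0, hs1'⟩, ?_⟩
      obtain ⟨p1, g1⟩ := xp7_piece lam e1 C4 C9 Gam eta r K l1 n0 l0 H m0 m1 Gp M Q hC4 hC9 hK hl1
        hA hl0 hQe hKm hmM hC9M heta heta1 hr2 n i q hiN (by omega) F4 hb1 s hs1 hs2 hLG
      obtain ⟨p2, g2⟩ := xp7_piece lam e1 C4 C9 Gam eta r K l1 n0 l0 H m0 m1 Gp M Q hC4 hC9 hK hl1
        hA hl0 hQe hKm hmM hC9M heta heta1 hr2 n i q' hiN hq'Q F4 hb2 s hs1 hs2 hLG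
      have L1 := xp7_LG n Q q (by omega) (by omega) F3 s hLG
      have L2 := xp7_LG n Q q' (by omega) (by omega) F3 s hLG
      have key : Int.fract (Int.fract (s + q * (Nat.fib (n - 1) : ℝ) / (Nat.fib n : ℝ)) +
          ((q' - q : ℕ) : ℝ) * (Nat.fib (n - 1) : ℝ) / (Nat.fib n : ℝ)) =
          Int.fract (s + q' * (Nat.fib (n - 1) : ℝ) / (Nat.fib n : ℝ)) := by
        rw [xp7_fract_add]
        congr 1
        rw [Nat.cast_sub hqq.le]
        ring
      set x1 : ℝ := Int.fract (s + q * (Nat.fib (n - 1) : ℝ) / (Nat.fib n : ℝ)) with hx1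
      set x2 : ℝ := Int.fract (s + q' * (Nat.fib (n - 1) : ℝ) / (Nat.fib n : ℝ)) with hx2
      have x1lt : x1 < 1 := Int.fract_lt_one _
      have x2lt : x2 < 1 := Int.fract_lt_one _
      have sn : ∀ {x κ : ℝ}, 0 < κ → LG κ n x → Real.sin (Real.pi * (Nat.fib n : ℝ) * x) ≠ 0 := by
        intro x κ hκ hx h0
        have := hx.2 n (by omega) (by omega)
        rw [h0, abs_zero] at this
        linarith
      have d0 := xp7_deriv_pos lam hlam hlam1 n (by omega) s hs0 hs1' (sn (by norm_num) hLG)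
      have d1 := xp7_deriv_pos lam hlam hlam1 n (by omega) x1 p1 x1lt (sn (by norm_num) L1)
      have d2 := xp7_deriv_pos lam hlam hlam1 n (by omega) x2 p2 x2lt (sn (by norm_num) L2)
      refine ⟨⟨p1, x1lt⟩, L1, ?_⟩
      unfold Gr
      rw [key]
      have e1' : GG lam n x1 x2 = GG lam n s x2 - GG lam n s x1 := by
        unfold GG
        rw [Real.log_div d1.ne' d2.ne', Real.log_div d0.ne' d2.ne', Real.log_div d0.ne' d1.ne']
        ring
      rw [e1']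
      have a1 := abs_le.1 g1
      have a2 := abs_le.1 g2
      have a3 := abs_le.1 hD
      rw [abs_le]
      constructor <;> linarith
    have h1 : (A.card : ENNReal) * ENNReal.ofReal (c * (1 / 2 ^ jL M)) ≤
        2 * ENNReal.ofReal ((3 * r) ^ th) := hcount.trans hEm
    have hth0 : 0 ≤ (3 * r) ^ th := by positivity
    have h2 : (A.card : ℝ) * (c * (1 / 2 ^ jL M)) ≤ 2 * (3 * r) ^ th := by
      have h3 : (A.card : ENNReal) * ENNReal.ofReal (c * (1 / 2 ^ jL M)) =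
          ENNReal.ofReal ((A.card : ℝ) * (c * (1 / 2 ^ jL M))) := by
        rw [ENNReal.ofReal_mul (Nat.cast_nonneg _), ENNReal.ofReal_natCast]
      have h4 : 2 * ENNReal.ofReal ((3 * r) ^ th) = ENNReal.ofReal (2 * (3 * r) ^ th) := by
        rw [ENNReal.ofReal_mul (by norm_num)]
        norm_num
      rw [h3, h4] at h1
      exact (ENNReal.ofReal_le_ofReal_iff (by positivity)).1 h1
    have h5 : (A.card : ℝ) ≤ 2 / c * (3 * r) ^ th * 2 ^ jL M := by
      have h6 : (A.card : ℝ) = (A.card : ℝ) * (c * (1 / 2 ^ jL M)) * (2 ^ jL M / c) := by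
        field_simp
      rw [h6]
      calc (A.card : ℝ) * (c * (1 / 2 ^ jL M)) * (2 ^ jL M / c)
          ≤ 2 * (3 * r) ^ th * (2 ^ jL M / c) := by gcongr
        _ = 2 / c * (3 * r) ^ th * 2 ^ jL M := by ring
    refine h5.trans ?_
    push_cast
    gcongr
    exact le_max_right _ _
  have hfin := xp7_sum (N := 2 ^ jL M) (Q := Q) hNn hQ (fun i z =>
            ¬ BadQ lam n M l0 H m0 m1 Gp Gam i z.1 ∧ ¬ BadQ lam n M l0 H m0 m1 Gp Gam i z.2 ∧
            |Dq lam n M m0 i z.1 - Dq lam n M m0 i z.2| ≤ 2 * r)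
    (max 1 (2 / c) * (3 * r) ^ th) (by positivity) (fun q q' hq hq' hne A hA' => by
      rcases lt_or_gt_of_ne hne with h | h
      · exact hpair q q' h hq' A hA'
      · refine hpair q' q h hq A fun i hi => ?_
        obtain ⟨h1, h2, h3, h4⟩ := hA' i hi
        refine ⟨h1, h3, h2, ?_⟩
        rw [abs_sub_comm]
        exact h4)
  have hcast : ((2 ^ jL M : ℕ) : ℝ) = 2 ^ jL M := by push_cast; rfl
  rw [hcast] at hfin
  exact hfin

end SF
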