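import Pool.Agent.Helper65.SF.XFa
import Pool.Agent.Helper65.SF.XFk
import Pool.Agent.Helper65.SF.XFm
import Pool.Agent.Helper65.SF.XB
import Pool.Agent.Helper65.SF.XP
import Pool.Agent.Helper65.SF.XT
import Pool.Agent.Helper65.SF.AF
import Pool.Agent.Helper65.SF.S2

/-!
# SF-XF: Fourier decay for the energy function (parameter choice)

Proof in words.  Fix lam small, `th = lam^(4/5)`, `L = log (1/lam)`, `del = th/2000`, `bt = kap1 th/L` with a small absolute constant kap1, and X large.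
Constants: `affine` (e1, C4, C9, K, l1, n0 with `AffP`), `S2` (r0 with `S2P lam th r0`), `bad_measure`, `pair_count`, `typ`.
Choose (all logarithms natural, `log fi = 0.4812..`):
 `Gam = del log X`, `eps0 = X^(-bt)`, m0 least with `fib m0 >= X^(9/10)` (so `fib m0 <= 2 X^(9/10)`, `m0` about 1.87 log X),
 `m1 = m0 + ceil (del log X)`, M = m1 + const with `C fib m1 <= 2^(jL M)`; `2^(jL M) <= C X^(9/10 + del)`;
 `r = X^(-(1/10) - bt - del)/C9` (up to a constant factor), Q = floor of `(3r)^(-th)`, about `X^(th/10)`; l0 least with `l0 >= l1, 6` and `Q <= e1 fib l0`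
 (about 0.21 th log X), `H = ceil (del log X)`, `Gp = ceil (del log X)`.
 `eta = 2 C4 exp (C4 (l0+H) + 2 log 10 Gp - (m0 - l0 - H)/10) <= X^(-9/50)` for lam small, X large; `2 C9 eta <= r`.
Apply `fourier_decay` with `E = EEx lam n`, `al = fib (n-1)/fib n`, N = `2^(jL M)`, `u i = i/2^(jL M)`, `v i = (i+1)/2^(jL M)`,
 `Bad = BadQ`, `Dl i q = Dq`, `Ec i = EE lam (fg M m0 i) (midn M i)`, `cst i q = EE lam (fg M m0 i) (sh ...)`, `rho = C9/fib m0`,
 T = the set of `typ` for `Y = X exp (Gam + 1)` and del; `D = Cl Y^del`.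
 - affine condition: `C9 (1 + exp Gam) eta/fib m0 <= eps0/X` since `X^(del - 9/50 - 9/10) << X^(-1-bt)` (`e + e S <= eta` as in SF-XP; `EEx` at the points is EE).
 - `|E s - Ec i| <= rho`: for pieces in `BadP` there is no information, so for those i set the piece `Bad` for all q and replace T by T minus the union of
   the pieces with `BadP` (its measure is at most the path part of the bound in `bad_measure`, i.e. at most eps0/2).
 - bad total `<= eps0 Q`: `bad_measure`: each term is at most `X^(-2 bt)` up to constants: `(1-c6)^(del log X/G0 - 1)`, since `bt << del`;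
   `(m1-m0+1) Cl exp (-(c/L) del log X + C lam m1)`: exponent `-(c th/(2000 L)) + 2 C lam <= -3 bt`, lam small; `1 <= Q X^(-2 bt)`.
 - `pair_count`: `kap1' = C10 (3r)^th + 1/Q <= C X^(-th/10)`; the condition `X exp Gam rho r <= eps0` holds by the choice of r.
 Result: `C (sqrt eps0 + (D exp Gam N kap1'/(X r))^(1/4))`, `D exp Gam N/(X r) <= C X^(2 del + del + 9/10 + del - 1 + 1/10 + bt + del)`, so the second term is
 at most `X^(-th/100)`, the first is `X^(-bt/2)`: total at most `X^(-bt/4)`.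
-/

namespace SF

open MeasureTheory Classical

theorem decay : ∃ lam1 kap : ℝ, 0 < lam1 ∧ lam1 ≤ 1 / 100 ∧ 0 < kap ∧ ∀ lam : ℝ, 0 < lam → lam ≤ lam1 →
    ∃ X0 : ℝ, 1 ≤ X0 ∧ ∀ X : ℝ, X0 ≤ X → ∃ n1 : ℕ, ∀ n ≥ n1, ∀ xi : ℝ, |xi| = X →
      ‖∫ s in (0:ℝ)..1, Complex.exp ((xi * EEx lam n s : ℝ) * Complex.I)‖
        ≤ X ^ (-(kap * lam ^ (4 / 5 : ℝ) / Real.log (1 / lam))) := by
  obtain ⟨CF, hCF, hcore⟩ := xf_core
  obtain ⟨lamA, e1, C4, C9, K, hA0, hA1, he1, he11, hC4, hC9, hK, hAff⟩ := affine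
  obtain ⟨lamS, hS0, hS1, hS2⟩ := S2
  obtain ⟨c, Cb, lamB, C9b, c6, G0, hc, hCb, hB0, hB1, hC9b, hc6, hc61, hG0, hbad⟩ := bad_measure
  obtain ⟨C10, hC10, hpair⟩ := pair_count
  obtain ⟨ct, Ct, lamT, hct, hCt, hT0, hT1, htyp⟩ := typ
  have hl6 : 0 < -Real.log (1 - c6) := by
    have := Real.log_neg (show 0 < 1 - c6 by linarith) (by linarith)
    linarith
  obtain ⟨lamN, kp, hN0, hkp0, hsmall⟩ := xf_small c Cb ct Ct C4 (-Real.log (1 - c6)) K G0 hc hCb hct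
    hCt hC4 hl6 (by omega) hG0
  obtain ⟨b, hb1, hb2, hb3⟩ : ∃ b : ℕ, 1 ≤ b ∧ C9 ≤ (Nat.fib b : ℝ) ∧ C9b ≤ (Nat.fib b : ℝ) := by
    obtain ⟨N, hN⟩ := exists_nat_gt (max C9 C9b)
    have h1 : N + 5 ≤ Nat.fib (N + 5) := Nat.le_fib_self (by omega)
    have h2 : ((N + 5 : ℕ) : ℝ) ≤ (Nat.fib (N + 5) : ℝ) := by exact_mod_cast h1
    push_cast at h2
    have h3 := (le_max_left C9 C9b).trans_lt hN
    have h4 := (le_max_right C9 C9b).trans_lt hN
    exact ⟨N + 5, by omega, by linarith, by linarith⟩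
  refine ⟨min (min lamA lamS) (min (min lamB lamT) lamN), kp / 4, by positivity,
    ((min_le_left _ _).trans (min_le_left _ _)).trans hA1, by positivity, ?_⟩
  intro lam h0 hlam
  have hlA : lam ≤ lamA := hlam.trans ((min_le_left _ _).trans (min_le_left _ _))
  have hlS : lam ≤ lamS := hlam.trans ((min_le_left _ _).trans (min_le_right _ _))
  have hlB : lam ≤ lamB :=
    hlam.trans ((min_le_right _ _).trans ((min_le_left _ _).trans (min_le_left _ _)))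
  have hlT : lam ≤ lamT :=
    hlam.trans ((min_le_right _ _).trans ((min_le_left _ _).trans (min_le_right _ _)))
  have hlN : lam ≤ lamN := hlam.trans ((min_le_right _ _).trans (min_le_right _ _))
  have h1 : lam ≤ 1 / 100 := hlA.trans hA1
  obtain ⟨l1, n0, hl5, hAff'⟩ := hAff lam h0 hlA
  obtain ⟨r0, hr0, hr01, hS2'⟩ := hS2 lam h0 hlS
  have hS2P : S2P lam (lam ^ (4 / 5 : ℝ)) r0 := hS2'
  obtain ⟨ClB, hClB, hbad'⟩ := hbad lam h0 hlB
  obtain ⟨ClT, hClT, htyp'⟩ := htyp lam h0 hlT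
  obtain ⟨t1, t2, t3, t4, t5, t6, t7, t8, t9, t10⟩ := hsmall lam h0 hlN h1
  have hexpo : kp / 4 * lam ^ (4 / 5 : ℝ) / Real.log (1 / lam)
      = (kp * lam ^ (4 / 5 : ℝ) / Real.log (1 / lam)) / 4 := by ring
  rw [hexpo]
  generalize kp * lam ^ (4 / 5 : ℝ) / Real.log (1 / lam) = bt at *
  generalize lam ^ (4 / 5 : ℝ) = th at *
  obtain ⟨X0, hX01, hX0⟩ := xf_event l1 th bt C9 C4 e1 (Real.exp (-Real.log (1 - c6))) ClB ClT CF
    ((ClT * Real.exp 1 * 2 ^ (18 + b) * (3 * C10 + 6) * C9) ^ (1 / 4 : ℝ)) r0 t1 t4 t5 hr0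
  refine ⟨X0, hX01, fun X hX => ?_⟩
  obtain ⟨E0, E1, E2, E3, E4, E5, E6, E7, E8, E9, E10, E11, E12, E13⟩ := hX0 X hX
  have hXpos : 0 < X := by linarith
  obtain ⟨n1, hn1⟩ := xf_mainX CF hCF hcore lam e1 C4 C9 C9b c6 (c / Real.log (1 / lam)) Cb C10 ClB
    ClT ct Ct (Real.log (1 / lam)) th bt (th / 2000) r0 K G0 l1 n0 b h0 h1 he1 he11 hC4 hC9 hK hl5
    hAff' hr0 hr01 hS2P hc6 hc61 hG0 hCb hClB hClT hC10 hb1 hb2 hb3 t1 t2 t4 t5 t6 rfl t7 t8 t9 t10
    hbad' (fun Gam eta r l0 H m0 m1 Gp M Q a1 a2 a3 a4 a5 a6 a7 a8 a9 a10 a11 a12 a13 =>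
      hpair lam th r0 e1 C4 C9 Gam eta r K l1 n0 l0 H m0 m1 Gp M Q h0 h1 t1 t2 hC4 hC9 hK hl5 hAff'
        hS2P a1 a2 a3 a4 a5 a6 a7 a8 a9 a10 a11 hr01 a12 a13) htyp' X (Real.log X)
    (Real.exp_log hXpos).symm E0 E1 E2 E3 E4 E5 E6 E7 E8 E9 E10 E11 E12 E13
  refine ⟨n1, fun n hn xi hxi => (hn1 n hn xi hxi).trans (le_of_eq ?_)⟩
  rw [Real.rpow_def_of_pos hXpos]
  congr 1
  ring

end SF
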