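import Mathlib

/-!
# SF-XF, part 1: elementary inequalities for the parameter choice
-/

namespace SF

open MeasureTheory Classical

theorem xf_fib_le (m : ℕ) : (Nat.fib m : ℝ) ≤ Real.exp (m / 2) := by
  have h1 : Real.exp (1 / 2) ≤ 1.6488 := by
    have h : Real.exp (1 / 2) = Real.sqrt (Real.exp 1) := by
      rw [Real.sqrt_eq_rpow, ← Real.exp_mul]
      norm_num
    rw [h, Real.sqrt_le_left (by norm_num)]
    have := Real.exp_one_lt_d9
    norm_num at this ⊢
    linarith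
  have h2 : (2.7182 : ℝ) ≤ Real.exp 1 := by
    have := Real.exp_one_gt_d9
    norm_num at this ⊢
    linarith
  induction m using Nat.twoStepInduction with
  | zero => simp
  | one =>
    simp only [Nat.fib_one, Nat.cast_one]
    exact Real.one_le_exp (by norm_num)
  | more m ih1 ih2 =>
    rw [Nat.fib_add_two]
    push_cast at ih1 ih2 ⊢
    have e1 : Real.exp (((m : ℝ) + 1) / 2) = Real.exp (m / 2) * Real.exp (1 / 2) := by
      rw [← Real.exp_add]
      congr 1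
      ring
    have e2 : Real.exp (((m : ℝ) + 2) / 2) = Real.exp (m / 2) * Real.exp 1 := by
      rw [← Real.exp_add]
      congr 1
      ring
    have h0 := Real.exp_pos ((m : ℝ) / 2)
    rw [e1] at ih2
    rw [e2]
    nlinarith

theorem xf_fib_ge (m : ℕ) (hm : 1 ≤ m) : Real.exp (2 * m / 5) / 3 ≤ (Nat.fib m : ℝ) := by
  have h1 : (1.49 : ℝ) ≤ Real.exp (2 / 5) := by
    have := Real.quadratic_le_exp_of_nonneg (x := 2 / 5) (by norm_num)
    have h3 := Real.sum_le_exp_of_nonneg (x := 2 / 5) (by norm_num) 5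
    simp only [Finset.sum_range_succ, Finset.sum_range_zero, Nat.factorial] at h3
    norm_num at h3 ⊢
    linarith
  have h2 : Real.exp (2 / 5) ≤ 1.5 := by
    have h3 : Real.exp (2 / 5) ^ 5 ≤ (1.5 : ℝ) ^ 5 := by
      rw [← Real.exp_nat_mul]
      have e : ((5 : ℕ) : ℝ) * (2 / 5) = 1 + 1 := by norm_num
      rw [e, Real.exp_add]
      have := Real.exp_one_lt_d9
      have h0 := Real.exp_pos 1
      nlinarith
    exact le_of_pow_le_pow_left₀ (by norm_num) (by norm_num) h3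
  obtain ⟨k, rfl⟩ : ∃ k, m = k + 1 := ⟨m - 1, by omega⟩
  clear hm
  induction k using Nat.twoStepInduction with
  | zero =>
    simp only [Nat.fib_one, zero_add, Nat.cast_one]
    norm_num at h2 ⊢
    linarith
  | one =>
    have e : Real.exp (2 * ((1 + 1 : ℕ) : ℝ) / 5) = Real.exp (2 / 5) * Real.exp (2 / 5) := by
      rw [← Real.exp_add]
      congr 1
      norm_num
    rw [e]
    have : Nat.fib (1 + 1) = 1 := rfl
    rw [this]
    push_cast
    nlinarith
  | more k ih1 ih2 =>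
    rw [show k + 2 + 1 = (k + 1) + 2 by ring, Nat.fib_add_two]
    push_cast at ih1 ih2 ⊢
    have e1 : Real.exp (2 * ((k : ℝ) + 1 + 1) / 5) = Real.exp (2 * ((k : ℝ) + 1) / 5) * Real.exp (2 / 5) := by
      rw [← Real.exp_add]
      congr 1
      ring
    have e2 : Real.exp (2 * ((k : ℝ) + 1 + 2) / 5) = Real.exp (2 * ((k : ℝ) + 1) / 5) *
        (Real.exp (2 / 5) * Real.exp (2 / 5)) := by
      rw [← Real.exp_add, ← Real.exp_add]
      congr 1
      ring
    have h0 := Real.exp_pos (2 * ((k : ℝ) + 1) / 5)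
    rw [e1] at ih2
    rw [e2]
    nlinarith

theorem xf_fib_mul (m k : ℕ) (hm : 1 ≤ m) : Nat.fib (m + k) ≤ 2 ^ k * Nat.fib m := by
  induction k with
  | zero => simp
  | succ k ih =>
    have h1 : Nat.fib (m + (k + 1)) ≤ 2 * Nat.fib (m + k) := by
      obtain ⟨a, ha⟩ : ∃ a, m + k = a + 1 := ⟨m + k - 1, by omega⟩
      rw [show m + (k + 1) = a + 2 by omega, ha, Nat.fib_add_two]
      have : Nat.fib a ≤ Nat.fib (a + 1) := Nat.fib_le_fib_succ
      omega
    rw [pow_succ]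
    nlinarith

theorem xf_fib_supermul (m n : ℕ) (hn : 1 ≤ n) : Nat.fib m * Nat.fib n ≤ Nat.fib (m + n) := by
  obtain ⟨n, rfl⟩ : ∃ n', n = n' + 1 := ⟨n - 1, by omega⟩
  have := Nat.fib_add m n
  rw [show m + (n + 1) = m + n + 1 by ring, this]
  have h1 : Nat.fib m ≤ Nat.fib (m + 1) := Nat.fib_le_fib_succ
  nlinarith [Nat.zero_le (Nat.fib m * Nat.fib n), Nat.mul_le_mul_right (Nat.fib (n + 1)) h1]

theorem xf_log6 : Real.log 6 ≤ 2 := by
  have h : (6 : ℝ) ≤ Real.exp 2 := by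
    have h1 : Real.exp 2 = Real.exp 1 * Real.exp 1 := by
      rw [← Real.exp_add]
      norm_num
    have h2 := Real.exp_one_gt_d9
    rw [h1]
    nlinarith
  calc Real.log 6 ≤ Real.log (Real.exp 2) := Real.log_le_log (by norm_num) h
    _ = 2 := Real.log_exp 2

theorem xf_log10 : 0 < Real.log 10 ∧ Real.log 10 ≤ 3 := by
  refine ⟨Real.log_pos (by norm_num), ?_⟩
  have h : (10 : ℝ) ≤ Real.exp 3 := by
    have h1 : Real.exp 3 = Real.exp 1 * Real.exp 1 * Real.exp 1 := by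
      rw [← Real.exp_add, ← Real.exp_add]
      norm_num
    have h2 := Real.exp_one_gt_d9
    rw [h1]
    have h3 : (2.7 : ℝ) ≤ Real.exp 1 := by norm_num at h2 ⊢; linarith
    nlinarith [mul_nonneg (sub_nonneg.2 h3) (sub_nonneg.2 h3)]
  calc Real.log 10 ≤ Real.log (Real.exp 3) := Real.log_le_log (by norm_num) h
    _ = 3 := Real.log_exp 3

theorem xf_log3 : 0 < Real.log 3 ∧ Real.log 3 ≤ 2 := by
  refine ⟨Real.log_pos (by norm_num), ?_⟩
  refine le_trans (Real.log_le_log (by norm_num) (by norm_num)) xf_log6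

theorem xf_m0 (l : ℝ) (hl : 10 ≤ l) : ∃ m0 : ℕ, 6 ≤ m0 ∧ Real.exp (9 / 10 * l) ≤ (Nat.fib m0 : ℝ) ∧
    (Nat.fib m0 : ℝ) ≤ 2 * Real.exp (9 / 10 * l) ∧ 9 / 5 * l ≤ m0 ∧ (m0 : ℝ) ≤ 9 / 4 * l + 5 := by
  have hex : ∃ m : ℕ, Real.exp (9 / 10 * l) ≤ (Nat.fib m : ℝ) := by
    obtain ⟨N, hN⟩ := exists_nat_gt (Real.exp (9 / 10 * l))
    refine ⟨N + 5, ?_⟩
    have h1 : N + 5 ≤ Nat.fib (N + 5) := Nat.le_fib_self (by omega)
    have h2 : ((N + 5 : ℕ) : ℝ) ≤ (Nat.fib (N + 5) : ℝ) := by exact_mod_cast h1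
    push_cast at h2
    linarith
  classical
  have h1 := Nat.find_spec hex
  have h2 := fun k hk => Nat.find_min hex (m := k) hk
  generalize Nat.find hex = m0 at *
  have h3 : 9 / 5 * l ≤ m0 := by
    have h4 := h1.trans (xf_fib_le m0)
    rw [Real.exp_le_exp] at h4
    linarith
  have h5 : 6 ≤ m0 := by
    have : (6 : ℝ) ≤ m0 := by linarith
    exact_mod_cast this
  have h6 : (Nat.fib m0 : ℝ) ≤ 2 * Real.exp (9 / 10 * l) := by
    obtain ⟨a, rfl⟩ : ∃ a, m0 = a + 2 := ⟨m0 - 2, by omega⟩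
    have h7 := h2 (a + 1) (by omega)
    rw [not_le] at h7
    have h8 : Nat.fib a ≤ Nat.fib (a + 1) := Nat.fib_le_fib_succ
    have h9 : (Nat.fib a : ℝ) ≤ (Nat.fib (a + 1) : ℝ) := by exact_mod_cast h8
    rw [Nat.fib_add_two]
    push_cast
    linarith
  refine ⟨m0, h5, h1, h6, h3, ?_⟩
  have h7 := (xf_fib_ge m0 (by omega)).trans h6
  have h8 : Real.exp (2 * m0 / 5) ≤ Real.exp (Real.log 6 + 9 / 10 * l) := by
    rw [Real.exp_add, Real.exp_log (by norm_num)]
    linarith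
  rw [Real.exp_le_exp] at h8
  have := xf_log6
  linarith

theorem xf_l0 (e1 A : ℝ) (l1 Q : ℕ) (he : 0 < e1) (hA : 0 ≤ A) (hQ : 3 * (Q : ℝ) / e1 ≤ Real.exp A) :
    ∃ l0 : ℕ, l1 ≤ l0 ∧ 6 ≤ l0 ∧ (Q : ℝ) ≤ e1 * (Nat.fib l0 : ℝ) ∧ (l0 : ℝ) ≤ l1 + 7 + 5 / 2 * A := by
  have hex : ∃ m : ℕ, l1 ≤ m ∧ 6 ≤ m ∧ (Q : ℝ) ≤ e1 * (Nat.fib m : ℝ) := by
    obtain ⟨N, hN⟩ := exists_nat_gt ((Q : ℝ) / e1)
    refine ⟨N + l1 + 6, by omega, by omega, ?_⟩
    have h1 : N + l1 + 6 ≤ Nat.fib (N + l1 + 6) := Nat.le_fib_self (by omega)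
    have h2 : ((N + l1 + 6 : ℕ) : ℝ) ≤ (Nat.fib (N + l1 + 6) : ℝ) := by exact_mod_cast h1
    have h3 : (Q : ℝ) / e1 ≤ (Nat.fib (N + l1 + 6) : ℝ) := by
      have h4 : (0 : ℝ) ≤ l1 := Nat.cast_nonneg _
      push_cast at h2
      linarith
    rw [div_le_iff₀ he] at h3
    linarith
  classical
  have h1 := Nat.find_spec hex
  have h2 := fun k hk => Nat.find_min hex (m := k) hk
  generalize Nat.find hex = l0 at *
  refine ⟨l0, h1.1, h1.2.1, h1.2.2, ?_⟩
  rcases Nat.lt_or_ge (l1 + 7) l0 with h3 | h3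
  · have h4 := h2 (l0 - 1) (by omega)
    have h5 : ¬ ((Q : ℝ) ≤ e1 * (Nat.fib (l0 - 1) : ℝ)) := fun h => h4 ⟨by omega, by omega, h⟩
    rw [not_le] at h5
    have h6 := xf_fib_ge (l0 - 1) (by omega)
    have h7 : Real.exp (2 * ((l0 - 1 : ℕ) : ℝ) / 5) ≤ 3 * Q / e1 := by
      rw [le_div_iff₀ he]
      have := mul_le_mul_of_nonneg_left h6 he.le
      nlinarith
    have h8 := h7.trans hQ
    rw [Real.exp_le_exp, Nat.cast_sub (by omega)] at h8
    push_cast at h8
    have h9 : (0 : ℝ) ≤ l1 := Nat.cast_nonneg _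
    linarith
  · have h4 : (l0 : ℝ) ≤ l1 + 7 := by exact_mod_cast h3
    linarith

theorem xf_pow (c6 x : ℝ) (G0 h : ℕ) (h0 : 0 < c6) (h1 : c6 < 1) (hG : 1 ≤ G0) (hx : x ≤ h) :
    (1 - c6) ^ (h / G0) ≤ Real.exp (-Real.log (1 - c6)) *
      Real.exp (-(-Real.log (1 - c6) / G0 * x)) := by
  have h2 : 0 < 1 - c6 := by linarith
  have h3 : 0 < -Real.log (1 - c6) := by
    have := Real.log_neg h2 (by linarith)
    linarith
  have hG0 : (0 : ℝ) < G0 := by exact_mod_cast hG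
  have h4 : (h : ℝ) / G0 - 1 ≤ ((h / G0 : ℕ) : ℝ) := by
    have h5 := Nat.div_add_mod h G0
    have h6 := Nat.mod_lt h (show 0 < G0 by omega)
    have h7 : h ≤ G0 * (h / G0) + G0 := by omega
    have h8 : (h : ℝ) ≤ G0 * ((h / G0 : ℕ) : ℝ) + G0 := by exact_mod_cast h7
    rw [sub_le_iff_le_add, div_le_iff₀ hG0]
    linarith
  have h5 : (1 - c6) ^ (h / G0) = Real.exp (-(-Real.log (1 - c6) * ((h / G0 : ℕ) : ℝ))) := by
    rw [neg_mul, neg_neg, mul_comm, Real.exp_nat_mul, Real.exp_log h2]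
  rw [h5, ← Real.exp_add]
  apply Real.exp_le_exp.2
  generalize -Real.log (1 - c6) = t at *
  have h6 : x / G0 ≤ (h : ℝ) / G0 := by gcongr
  have h7 : t / G0 * x = t * (x / G0) := by ring
  rw [h7]
  nlinarith

theorem xf_small (c Cb ct Ct C4 l6 : ℝ) (K G0 : ℕ) (hc : 0 < c) (hCb : 0 < Cb) (hct : 0 < ct)
    (hCt : 0 < Ct) (hC4 : 1 ≤ C4) (hl6 : 0 < l6) (hK : 1 ≤ K) (hG0 : 1 ≤ G0) :
    ∃ lamN kp : ℝ, 0 < lamN ∧ 0 < kp ∧ ∀ lam : ℝ, 0 < lam → lam ≤ lamN → lam ≤ 1 / 100 →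
      0 < lam ^ (4 / 5 : ℝ) ∧ lam ^ (4 / 5 : ℝ) ≤ 1 ∧ 1 ≤ Real.log (1 / lam) ∧
      0 < kp * lam ^ (4 / 5 : ℝ) / Real.log (1 / lam) ∧
      kp * lam ^ (4 / 5 : ℝ) / Real.log (1 / lam) ≤ lam ^ (4 / 5 : ℝ) / 100 ∧
      (K : ℝ) * (2 * lam ^ (4 / 5 : ℝ)) ≤ 1 ∧
      (2 * C4 + 1) * lam ^ (4 / 5 : ℝ) + 2 * Real.log 10 * (lam ^ (4 / 5 : ℝ) / 2000) ≤ 1 / 50 ∧
      2 * (kp * lam ^ (4 / 5 : ℝ) / Real.log (1 / lam))
        ≤ c / Real.log (1 / lam) * (lam ^ (4 / 5 : ℝ) / 2000) - 3 * Cb * lam ∧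
      2 * (kp * lam ^ (4 / 5 : ℝ) / Real.log (1 / lam))
        ≤ ct * (lam ^ (4 / 5 : ℝ) / 2000) / Real.log (1 / lam) - Ct * lam ∧
      2 * (kp * lam ^ (4 / 5 : ℝ) / Real.log (1 / lam)) ≤ l6 / G0 * (lam ^ (4 / 5 : ℝ) / 2000) := by
  have hK0 : (0 : ℝ) < K := by exact_mod_cast hK
  have hG00 : (0 : ℝ) < G0 := by exact_mod_cast hG0
  obtain ⟨s0, hs0, hs1, hs2, hs3, hs4⟩ : ∃ s0 : ℝ, 0 < s0 ∧ s0 * (2 * K) ≤ 1 ∧
      s0 * (2 * C4 + 2) ≤ 1 / 50 ∧ s0 * (120000 * Cb) ≤ c ∧ s0 * (40000 * Ct) ≤ ct := by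
    refine ⟨min (min (1 / (2 * K)) (1 / 50 / (2 * C4 + 2))) (min (c / (120000 * Cb))
      (ct / (40000 * Ct))), by positivity, ?_, ?_, ?_, ?_⟩
    · rw [← le_div_iff₀ (by positivity)]
      exact (min_le_left _ _).trans (min_le_left _ _)
    · rw [← le_div_iff₀ (by positivity)]
      exact (min_le_left _ _).trans (min_le_right _ _)
    · rw [← le_div_iff₀ (by positivity)]
      exact (min_le_right _ _).trans (min_le_left _ _)
    · rw [← le_div_iff₀ (by positivity)]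
      exact (min_le_right _ _).trans (min_le_right _ _)
  obtain ⟨kp, hk0, hk1, hk2, hk3, hk4⟩ : ∃ kp : ℝ, 0 < kp ∧ kp ≤ 1 / 100 ∧ kp * 8000 ≤ c ∧
      kp * 8000 ≤ ct ∧ kp * (4000 * G0) ≤ l6 := by
    refine ⟨min (min (1 / 100) (c / 8000)) (min (ct / 8000) (l6 / (4000 * G0))), by positivity,
      (min_le_left _ _).trans (min_le_left _ _), ?_, ?_, ?_⟩
    · rw [← le_div_iff₀ (by positivity)]
      exact (min_le_left _ _).trans (min_le_right _ _)
    · rw [← le_div_iff₀ (by positivity)]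
      exact (min_le_right _ _).trans (min_le_left _ _)
    · rw [← le_div_iff₀ (by positivity)]
      exact (min_le_right _ _).trans (min_le_right _ _)
  refine ⟨s0 ^ 10, kp, by positivity, hk0, ?_⟩
  intro lam h0 h1 h2
  -- the tenth root
  obtain ⟨sg, hsg0, hsg, hsgs⟩ : ∃ sg : ℝ, 0 < sg ∧ sg ^ 10 = lam ∧ sg ≤ s0 := by
    refine ⟨lam ^ (1 / 10 : ℝ), by positivity, ?_, ?_⟩
    · rw [← Real.rpow_natCast, ← Real.rpow_mul h0.le]
      norm_num
    · calc lam ^ (1 / 10 : ℝ) ≤ (s0 ^ 10) ^ (1 / 10 : ℝ) := by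
            apply Real.rpow_le_rpow h0.le h1 (by norm_num)
        _ = s0 := by
            rw [← Real.rpow_natCast, ← Real.rpow_mul hs0.le]
            norm_num
  have hth : lam ^ (4 / 5 : ℝ) = sg ^ 8 := by
    rw [← hsg, ← Real.rpow_natCast, ← Real.rpow_natCast, ← Real.rpow_mul hsg0.le]
    norm_num
  have hsg1 : sg ≤ 1 := by
    by_contra hc
    rw [not_le] at hc
    have : 1 < sg ^ 10 := one_lt_pow₀ hc (by norm_num)
    rw [hsg] at this
    linarith
  have hth1 : sg ^ 8 ≤ sg := by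
    have : sg ^ 8 ≤ sg ^ 1 := pow_le_pow_of_le_one hsg0.le hsg1 (by norm_num)
    rwa [pow_one] at this
  have hL1 : 1 ≤ Real.log (1 / lam) := by
    have h3 : Real.exp 1 ≤ 1 / lam := by
      have h4 := Real.exp_one_lt_d9
      have h5 : 100 ≤ 1 / lam := by
        rw [le_div_iff₀ h0]
        linarith
      linarith
    calc (1 : ℝ) = Real.log (Real.exp 1) := (Real.log_exp 1).symm
      _ ≤ _ := Real.log_le_log (Real.exp_pos 1) h3
  have hL2 : sg * Real.log (1 / lam) ≤ 10 := by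
    have h3 : Real.log (1 / lam) = 10 * Real.log (1 / sg) := by
      rw [← hsg, one_div, one_div, ← inv_pow, Real.log_pow]
      norm_num
    have h4 : Real.log (1 / sg) ≤ 1 / sg - 1 := Real.log_le_sub_one_of_pos (by positivity)
    rw [h3]
    have h5 : sg * (1 / sg) = 1 := by field_simp
    nlinarith
  rw [hth]
  have hth0 : 0 < sg ^ 8 := by positivity
  have hlam : lam = sg ^ 8 * (sg * sg) := by rw [← hsg]; ring
  generalize Real.log (1 / lam) = Lg at *
  generalize hT : sg ^ 8 = T at *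
  have hLg0 : 0 < Lg := by linarith
  have hTs0 : T ≤ s0 := hth1.trans hsgs
  have hbt : kp * T / Lg ≤ kp * T := div_le_self (by positivity) hL1
  refine ⟨hth0, by linarith, hL1, by positivity, ?_, ?_, ?_, ?_, ?_, ?_⟩
  · refine hbt.trans ?_
    nlinarith
  · nlinarith
  · have := xf_log10
    nlinarith
  · have h3 : c / Lg * (T / 2000) - 3 * Cb * lam - 2 * (kp * T / Lg)
        = (T / Lg) * (c / 2000 - 2 * kp - 3 * Cb * (sg * Lg) * sg) := by
      rw [hlam]
      field_simp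
      ring
    have h4 : 0 ≤ c / 2000 - 2 * kp - 3 * Cb * (sg * Lg) * sg := by
      have h5 : 3 * Cb * (sg * Lg) * sg ≤ 3 * Cb * 10 * s0 := by gcongr
      linarith
    have h6 : 0 ≤ (T / Lg) * (c / 2000 - 2 * kp - 3 * Cb * (sg * Lg) * sg) := by positivity
    linarith
  · have h3 : ct * (T / 2000) / Lg - Ct * lam - 2 * (kp * T / Lg)
        = (T / Lg) * (ct / 2000 - 2 * kp - Ct * (sg * Lg) * sg) := by
      rw [hlam]
      field_simp
      ring
    have h4 : 0 ≤ ct / 2000 - 2 * kp - Ct * (sg * Lg) * sg := by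
      have h5 : Ct * (sg * Lg) * sg ≤ Ct * 10 * s0 := by gcongr
      linarith
    have h6 : 0 ≤ (T / Lg) * (ct / 2000 - 2 * kp - Ct * (sg * Lg) * sg) := by positivity
    linarith
  · have h3 : l6 / G0 * (T / 2000) - 2 * (kp * T) = T / (2000 * G0) * (l6 - kp * (4000 * G0)) := by
      field_simp
      ring
    have h4 : 0 ≤ T / (2000 * G0) * (l6 - kp * (4000 * G0)) := by
      have : 0 ≤ l6 - kp * (4000 * G0) := by linarith
      positivity
    linarith

theorem xf_eta (C4 th del l a m0 G : ℝ) (hC4 : 1 ≤ C4) (hth : 0 ≤ th) (hl : 0 ≤ l)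
    (ha : a ≤ 2 * th * l) (hm0 : 9 / 5 * l ≤ m0) (hG : G ≤ del * l + 1)
    (hS : (2 * C4 + 1) * th + 2 * Real.log 10 * del ≤ 1 / 50)
    (hE : Real.log (2 * C4) + 2 * Real.log 10 ≤ 1 / 100 * l) :
    2 * C4 * Real.exp (C4 * a + 2 * Real.log 10 * G - 1 / 10 * (m0 - a))
      ≤ Real.exp (-(3 / 20 * l)) := by
  have h1 : 2 * C4 = Real.exp (Real.log (2 * C4)) := (Real.exp_log (by linarith)).symm
  nth_rewrite 1 [h1]
  rw [← Real.exp_add]
  apply Real.exp_le_exp.2
  obtain ⟨h10, _⟩ := xf_log10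
  have h2 : 2 * Real.log 10 * G ≤ 2 * Real.log 10 * (del * l + 1) := by gcongr
  have h3 : C4 * a ≤ C4 * (2 * th * l) := by gcongr
  have h4 : ((2 * C4 + 1) * th + 2 * Real.log 10 * del) * l ≤ 1 / 50 * l := by gcongr
  nlinarith [mul_nonneg hth hl]

theorem xf_Q (th bt del C9 l : ℝ) (hth : 0 < th) (hth1 : th ≤ 1) (hbt : 0 ≤ bt)
    (hbt1 : bt + del ≤ 1 / 10) (hdel : 0 ≤ del) (hC9 : 1 ≤ C9) (hl : 0 ≤ l)
    (hE : 6 ≤ Real.exp (th / 10 * l)) :
    ∃ Q : ℕ, 1 ≤ Q ∧ (Q : ℝ) ≤ (3 * (Real.exp (-((1 / 10 + bt + del) * l)) / C9)) ^ (-th) ∧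
      (Q : ℝ) ≤ C9 * Real.exp (1 / 5 * th * l) ∧ Real.exp (th / 10 * l) / 6 ≤ Q ∧
      (3 * (Real.exp (-((1 / 10 + bt + del) * l)) / C9)) ^ th ≤ 3 * Real.exp (-(th / 10 * l)) := by
  have hC90 : 0 < C9 := by linarith
  obtain ⟨h3, h32⟩ := xf_log3
  have hlC : 0 ≤ Real.log C9 := Real.log_nonneg hC9
  have hpos : 0 < 3 * (Real.exp (-((1 / 10 + bt + del) * l)) / C9) := by positivity
  have hlog : Real.log (3 * (Real.exp (-((1 / 10 + bt + del) * l)) / C9))
      = Real.log 3 - (1 / 10 + bt + del) * l - Real.log C9 := by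
    rw [Real.log_mul (by norm_num) (by positivity), Real.log_div (by positivity) (by positivity),
      Real.log_exp]
    ring
  generalize 3 * (Real.exp (-((1 / 10 + bt + del) * l)) / C9) = z at *
  have hz1 : z ^ (-th) = Real.exp (th * (Real.log C9 + (1 / 10 + bt + del) * l - Real.log 3)) := by
    rw [Real.rpow_def_of_pos hpos, hlog]
    congr 1
    ring
  have hz2 : z ^ th = Real.exp (-(th * (Real.log C9 + (1 / 10 + bt + del) * l - Real.log 3))) := by
    rw [Real.rpow_def_of_pos hpos, hlog]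
    congr 1
    ring
  have hlow : th / 10 * l - Real.log 3 ≤ th * (Real.log C9 + (1 / 10 + bt + del) * l - Real.log 3) := by
    have h4 : 0 ≤ th * Real.log C9 := by positivity
    have h5 : 0 ≤ th * ((bt + del) * l) := by positivity
    have h6 : th * Real.log 3 ≤ 1 * Real.log 3 := by gcongr
    nlinarith
  have hhigh : th * (Real.log C9 + (1 / 10 + bt + del) * l - Real.log 3)
      ≤ Real.log C9 + 1 / 5 * th * l := by
    have h4 : th * Real.log C9 ≤ 1 * Real.log C9 := by gcongr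
    have h5 : th * ((bt + del) * l) ≤ th * (1 / 10 * l) := by gcongr
    have h6 : 0 ≤ th * Real.log 3 := by positivity
    nlinarith
  have hR1 : Real.exp (th / 10 * l) / 3 ≤ z ^ (-th) := by
    rw [hz1]
    have : Real.exp (th / 10 * l) / 3 = Real.exp (th / 10 * l - Real.log 3) := by
      rw [Real.exp_sub, Real.exp_log (by norm_num)]
    rw [this]
    exact Real.exp_le_exp.2 hlow
  have hR2 : z ^ (-th) ≤ C9 * Real.exp (1 / 5 * th * l) := by
    rw [hz1]
    have : C9 * Real.exp (1 / 5 * th * l) = Real.exp (Real.log C9 + 1 / 5 * th * l) := by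
      rw [Real.exp_add, Real.exp_log hC90]
    rw [this]
    exact Real.exp_le_exp.2 hhigh
  have hfl := Nat.floor_le (show 0 ≤ z ^ (-th) by positivity)
  have hfl2 := Nat.lt_floor_add_one (z ^ (-th))
  refine ⟨⌊z ^ (-th)⌋₊, ?_, hfl, hfl.trans hR2, ?_, ?_⟩
  · rw [Nat.one_le_floor_iff]
    linarith
  · linarith
  · rw [hz2]
    have : 3 * Real.exp (-(th / 10 * l)) = Real.exp (-(th / 10 * l - Real.log 3)) := by
      rw [neg_sub, sub_eq_add_neg, Real.exp_add, Real.exp_log (by norm_num)]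
    rw [this]
    exact Real.exp_le_exp.2 (neg_le_neg hlow)

theorem xf_bad (c6 bt th del l gl Cb lam ClB : ℝ) (G0 hN m1 Q : ℕ) (h0 : 0 < c6) (h1 : c6 < 1)
    (hG : 1 ≤ G0) (hbt : 0 < bt) (hl : 0 ≤ l) (hClB : 0 < ClB) (hCb : 0 ≤ Cb) (hlam : 0 ≤ lam)
    (hN1 : del * l ≤ hN) (hN2 : (hN : ℝ) ≤ l + 1) (hm1 : (m1 : ℝ) ≤ 3 * l)
    (hQ1 : 1 ≤ Q) (hQ : Real.exp (th / 10 * l) / 6 ≤ Q)
    (hS6 : 2 * bt ≤ -Real.log (1 - c6) / G0 * del) (hSb : 2 * bt ≤ gl * del - 3 * Cb * lam)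
    (hE1 : 60 ≤ Real.exp ((th / 10 - bt) * l))
    (hE2 : 10 * Real.exp (-Real.log (1 - c6)) * (3 * l + 1) ≤ Real.exp (bt * l))
    (hE3 : 10 * ClB * (l + 2) ≤ Real.exp (bt * l)) :
    1 + Q * ((1 - c6) ^ (hN / G0) + (1 - c6) ^ (hN / G0) + m1 * (1 - c6) ^ (hN / G0)
      + (hN + 1 : ℕ) * (ClB * Real.exp (-gl * (del * l) + Cb * lam * m1)))
      ≤ Real.exp (-(bt * l)) * Q / 2 := by
  have hQ0 : (0 : ℝ) < Q := by exact_mod_cast hQ1
  have hz := xf_pow c6 (del * l) G0 hN h0 h1 hG hN1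
  have hzpos : 0 ≤ (1 - c6) ^ (hN / G0) := pow_nonneg (by linarith) _
  have hl6 : 0 < Real.exp (-Real.log (1 - c6)) := Real.exp_pos _
  generalize (1 - c6) ^ (hN / G0) = z at *
  generalize hR : Real.exp (-Real.log (1 - c6)) = R at *
  generalize -Real.log (1 - c6) / G0 = s at *
  have hz1 : z ≤ R * Real.exp (-(2 * bt * l)) := by
    refine hz.trans (mul_le_mul_of_nonneg_left ?_ hl6.le)
    apply Real.exp_le_exp.2
    have := mul_le_mul_of_nonneg_right hS6 hl
    linarith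
  have he : Real.exp (-(2 * bt * l)) = Real.exp (-(bt * l)) * Real.exp (-(bt * l)) := by
    rw [← Real.exp_add]
    congr 1
    ring
  have hee : Real.exp (-(bt * l)) * Real.exp (bt * l) = 1 := by
    rw [← Real.exp_add]
    simp
  have hepos : 0 < Real.exp (-(bt * l)) := Real.exp_pos _
  -- the first terms
  have hz2 : z * (3 * l + 1) ≤ Real.exp (-(bt * l)) / 10 := by
    calc z * (3 * l + 1) ≤ (R * Real.exp (-(2 * bt * l))) * (3 * l + 1) := by gcongr
      _ = Real.exp (-(bt * l)) * (Real.exp (-(bt * l)) * (10 * R * (3 * l + 1))) / 10 := by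
          rw [he]
          ring
      _ ≤ Real.exp (-(bt * l)) * (Real.exp (-(bt * l)) * Real.exp (bt * l)) / 10 := by gcongr
      _ = _ := by rw [hee]; ring
  have hz3 : z ≤ Real.exp (-(bt * l)) / 10 := by
    refine le_trans ?_ hz2
    have : 0 ≤ z * (3 * l) := by positivity
    linarith
  have hz4 : m1 * z ≤ Real.exp (-(bt * l)) / 10 := by
    refine le_trans ?_ hz2
    have : m1 * z ≤ (3 * l) * z := by gcongr
    linarith
  -- the last term
  have hA : Real.exp (-gl * (del * l) + Cb * lam * m1) ≤ Real.exp (-(2 * bt * l)) := by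
    apply Real.exp_le_exp.2
    have h3 : Cb * lam * m1 ≤ Cb * lam * (3 * l) := by gcongr
    have h4 := mul_le_mul_of_nonneg_right hSb hl
    linarith
  have hA2 : ((hN + 1 : ℕ) : ℝ) * (ClB * Real.exp (-gl * (del * l) + Cb * lam * m1))
      ≤ Real.exp (-(bt * l)) / 10 := by
    calc ((hN + 1 : ℕ) : ℝ) * (ClB * Real.exp (-gl * (del * l) + Cb * lam * m1))
        ≤ (l + 2) * (ClB * Real.exp (-(2 * bt * l))) := by
          gcongr
          push_cast
          linarith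
      _ = Real.exp (-(bt * l)) * (Real.exp (-(bt * l)) * (10 * ClB * (l + 2))) / 10 := by
          rw [he]
          ring
      _ ≤ Real.exp (-(bt * l)) * (Real.exp (-(bt * l)) * Real.exp (bt * l)) / 10 := by gcongr
      _ = _ := by rw [hee]; ring
  -- the one
  have hone : 1 ≤ Real.exp (-(bt * l)) / 10 * Q := by
    have h3 : Real.exp (-(bt * l)) * Real.exp (th / 10 * l) = Real.exp ((th / 10 - bt) * l) := by
      rw [← Real.exp_add]
      congr 1
      ring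
    calc (1 : ℝ) ≤ Real.exp (-(bt * l)) * Real.exp (th / 10 * l) / 60 := by
          rw [h3]
          linarith
      _ = Real.exp (-(bt * l)) / 10 * (Real.exp (th / 10 * l) / 6) := by ring
      _ ≤ _ := by gcongr
  have h5 : Q * (z + z + m1 * z + ((hN + 1 : ℕ) : ℝ) *
      (ClB * Real.exp (-gl * (del * l) + Cb * lam * m1)))
      ≤ Q * (4 * (Real.exp (-(bt * l)) / 10)) := by
    gcongr
    linarith
  linarith

theorem xf_fin (CF th bt del l ClT Y D N C10 kp X r C9 z : ℝ) (b m0 hN J Q : ℕ)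
    (hCF : 0 < CF) (hth : 0 < th) (hbt : 0 < bt) (hdel : del = th / 2000) (hth1 : th ≤ 1)
    (hbt1 : bt ≤ th / 100) (hl : 0 ≤ l) (hClT : 1 ≤ ClT) (hX : X = Real.exp l)
    (hY : Y = X * Real.exp (del * l + 1)) (hD : D = ClT * Y ^ del) (hN' : N = 2 ^ J)
    (hJ : N ≤ 2 ^ 12 * (Nat.fib (m0 + hN + b + 4) : ℝ))
    (hfib : (Nat.fib (m0 + (hN + b + 4)) : ℝ) ≤ 2 ^ (hN + b + 4) * (Nat.fib m0 : ℝ))
    (hm0 : (Nat.fib m0 : ℝ) ≤ 2 * Real.exp (9 / 10 * l))
    (hN2 : (hN : ℝ) ≤ del * l + 1) (hC10 : 1 ≤ C10) (hC9 : 1 ≤ C9)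
    (hz : z ≤ 3 * Real.exp (-(th / 10 * l))) (hz0 : 0 ≤ z) (hQ1 : 1 ≤ Q)
    (hQ : Real.exp (th / 10 * l) / 6 ≤ Q)
    (hkp : kp = C10 * z + 1 / Q) (hr : r = Real.exp (-((1 / 10 + bt + del) * l)) / C9)
    (hE4 : 2 * CF ≤ Real.exp (bt / 4 * l))
    (hE5 : 2 * CF * (ClT * Real.exp 1 * 2 ^ (18 + b) * (3 * C10 + 6) * C9) ^ (1 / 4 : ℝ)
      ≤ Real.exp (th / 100 * l)) :
    CF * (Real.sqrt (Real.exp (-(bt * l))) +
      (D * Real.exp (del * l) * N * kp / (X * r)) ^ (1 / 4 : ℝ)) ≤ Real.exp (-(bt / 4 * l)) := by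
  have hQ0 : (0 : ℝ) < Q := by exact_mod_cast hQ1
  have hdel0 : 0 < del := by rw [hdel]; positivity
  have hdel1 : del ≤ 1 := by rw [hdel]; linarith
  have hC90 : 0 < C9 := by linarith
  have hC100 : 0 < C10 := by linarith
  have hClT0 : 0 < ClT := by linarith
  -- D
  have hDle : D ≤ ClT * Real.exp (2 * del * l + 1) := by
    have h1 : Y = Real.exp (l + del * l + 1) := by
      rw [hY, hX, ← Real.exp_add]
      congr 1
      ring
    rw [hD, h1, ← Real.exp_mul]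
    gcongr
    nlinarith [mul_nonneg hdel0.le hl, mul_nonneg (mul_nonneg hdel0.le hl) (sub_nonneg.2 hdel1)]
  have hD0 : 0 ≤ D := by
    rw [hD, hY, hX]
    positivity
  -- N
  have h2N : (2 : ℝ) ^ hN ≤ 2 * Real.exp (del * l) := by
    have hlog2 : 0 < Real.log 2 := Real.log_pos (by norm_num)
    have hlog21 : Real.log 2 ≤ 1 := by
      have := Real.log_two_lt_d9
      linarith
    have h3 : (2 : ℝ) ^ hN = Real.exp (hN * Real.log 2) := by
      rw [Real.exp_nat_mul, Real.exp_log (by norm_num)]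
    rw [h3]
    have h4 : 2 * Real.exp (del * l) = Real.exp (Real.log 2 + del * l) := by
      rw [Real.exp_add, Real.exp_log (by norm_num)]
    rw [h4]
    apply Real.exp_le_exp.2
    have h5 : (hN : ℝ) * Real.log 2 ≤ (del * l + 1) * Real.log 2 := by gcongr
    have h6 : del * l * Real.log 2 ≤ del * l * 1 := by gcongr
    linarith
  have hNle : N ≤ 2 ^ (18 + b) * Real.exp ((9 / 10 + del) * l) := by
    have h3 : m0 + (hN + b + 4) = m0 + hN + b + 4 := by ring
    rw [h3] at hfib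
    calc N ≤ 2 ^ 12 * (2 ^ (hN + b + 4) * (Nat.fib m0 : ℝ)) := hJ.trans (by gcongr)
      _ = 2 ^ 12 * (2 ^ hN * 2 ^ (b + 4) * (Nat.fib m0 : ℝ)) := by
          rw [show hN + b + 4 = hN + (b + 4) by ring, pow_add]
      _ ≤ 2 ^ 12 * ((2 * Real.exp (del * l)) * 2 ^ (b + 4) * (2 * Real.exp (9 / 10 * l))) := by
          gcongr
      _ = 2 ^ (18 + b) * (Real.exp (9 / 10 * l) * Real.exp (del * l)) := by
          rw [show 18 + b = b + 4 + 14 by ring, pow_add]
          ring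
      _ = _ := by
          rw [← Real.exp_add]
          congr 2
          ring
  have hN0 : 0 ≤ N := by rw [hN']; positivity
  -- kp
  have hkple : kp ≤ (3 * C10 + 6) * Real.exp (-(th / 10 * l)) := by
    rw [hkp]
    have h3 : C10 * z ≤ C10 * (3 * Real.exp (-(th / 10 * l))) := by gcongr
    have h4 : 1 / (Q : ℝ) ≤ 6 * Real.exp (-(th / 10 * l)) := by
      rw [Real.exp_neg, div_le_iff₀ hQ0]
      have h5 := Real.exp_pos (th / 10 * l)
      have h6 : 6 * (Real.exp (th / 10 * l))⁻¹ * Q ≥ 6 * (Real.exp (th / 10 * l))⁻¹ *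
        (Real.exp (th / 10 * l) / 6) := by gcongr
      have h7 : 6 * (Real.exp (th / 10 * l))⁻¹ * (Real.exp (th / 10 * l) / 6) = 1 := by
        field_simp
      linarith
    linarith
  have hkp0 : 0 ≤ kp := by rw [hkp]; positivity
  -- the quotient
  have hXr : X * r = Real.exp ((9 / 10 - bt - del) * l) / C9 := by
    rw [hX, hr, mul_div_assoc', ← Real.exp_add]
    congr 2
    ring
  have hquo : D * Real.exp (del * l) * N * kp / (X * r)
      ≤ (ClT * Real.exp 1 * 2 ^ (18 + b) * (3 * C10 + 6) * C9) * Real.exp (-(2 / 25 * th * l)) := by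
    rw [hXr, div_le_iff₀ (by positivity)]
    calc D * Real.exp (del * l) * N * kp
        ≤ (ClT * Real.exp (2 * del * l + 1)) * Real.exp (del * l) *
          (2 ^ (18 + b) * Real.exp ((9 / 10 + del) * l)) *
          ((3 * C10 + 6) * Real.exp (-(th / 10 * l))) := by gcongr
      _ = (ClT * Real.exp 1 * 2 ^ (18 + b) * (3 * C10 + 6)) *
          Real.exp ((4 * del + 9 / 10 - th / 10) * l) := by
          have h3 : Real.exp 1 * Real.exp ((4 * del + 9 / 10 - th / 10) * l)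
              = Real.exp (2 * del * l + 1) * Real.exp (del * l) * Real.exp ((9 / 10 + del) * l) *
                Real.exp (-(th / 10 * l)) := by
            rw [← Real.exp_add, ← Real.exp_add, ← Real.exp_add, ← Real.exp_add]
            congr 1
            ring
          linear_combination (-(ClT * 2 ^ (18 + b) * (3 * C10 + 6))) * h3
      _ ≤ (ClT * Real.exp 1 * 2 ^ (18 + b) * (3 * C10 + 6)) *
          (Real.exp (-(2 / 25 * th * l)) * Real.exp ((9 / 10 - bt - del) * l)) := by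
          rw [← Real.exp_add]
          gcongr
          have h3 : (4 * del + 9 / 10 - th / 10) * l
            ≤ (-(2 / 25 * th) + (9 / 10 - bt - del)) * l := by
            gcongr
            rw [hdel]
            linarith
          linarith
      _ = _ := by
          field_simp
  have hquo0 : 0 ≤ D * Real.exp (del * l) * N * kp / (X * r) := by
    rw [hXr]
    positivity
  have h4 : (D * Real.exp (del * l) * N * kp / (X * r)) ^ (1 / 4 : ℝ)
      ≤ (ClT * Real.exp 1 * 2 ^ (18 + b) * (3 * C10 + 6) * C9) ^ (1 / 4 : ℝ) *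
        Real.exp (-(1 / 50 * th * l)) := by
    calc (D * Real.exp (del * l) * N * kp / (X * r)) ^ (1 / 4 : ℝ)
        ≤ ((ClT * Real.exp 1 * 2 ^ (18 + b) * (3 * C10 + 6) * C9) *
          Real.exp (-(2 / 25 * th * l))) ^ (1 / 4 : ℝ) := by gcongr
      _ = _ := by
          rw [Real.mul_rpow (by positivity) (by positivity), ← Real.exp_mul]
          congr 2
          ring
  have h5 : Real.sqrt (Real.exp (-(bt * l))) = Real.exp (-(bt / 2 * l)) := by
    rw [Real.sqrt_eq_rpow, ← Real.exp_mul]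
    congr 1
    ring
  rw [h5]
  have h6 : CF * Real.exp (-(bt / 2 * l)) ≤ 1 / 2 * Real.exp (-(bt / 4 * l)) := by
    have h7 : Real.exp (-(bt / 2 * l)) = Real.exp (-(bt / 4 * l)) * Real.exp (-(bt / 4 * l)) := by
      rw [← Real.exp_add]
      congr 1
      ring
    have h8 : Real.exp (-(bt / 4 * l)) * Real.exp (bt / 4 * l) = 1 := by
      rw [← Real.exp_add]
      simp
    have h9 : 2 * CF * Real.exp (-(bt / 4 * l)) ≤ 1 := by
      calc 2 * CF * Real.exp (-(bt / 4 * l)) ≤ Real.exp (bt / 4 * l) * Real.exp (-(bt / 4 * l)) := by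
            gcongr
        _ = 1 := by rw [mul_comm]; exact h8
    rw [h7]
    have h10 := Real.exp_pos (-(bt / 4 * l))
    nlinarith
  generalize (ClT * Real.exp 1 * 2 ^ (18 + b) * (3 * C10 + 6) * C9) ^ (1 / 4 : ℝ) = Z at *
  have h7 : CF * (D * Real.exp (del * l) * N * kp / (X * r)) ^ (1 / 4 : ℝ)
      ≤ 1 / 2 * Real.exp (-(bt / 4 * l)) := by
    calc CF * (D * Real.exp (del * l) * N * kp / (X * r)) ^ (1 / 4 : ℝ)
        ≤ CF * (Z * Real.exp (-(1 / 50 * th * l))) := by gcongr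
      _ = 1 / 2 * ((2 * CF * Z) * Real.exp (-(1 / 50 * th * l))) := by ring
      _ ≤ 1 / 2 * (Real.exp (th / 100 * l) * Real.exp (-(1 / 50 * th * l))) := by gcongr
      _ ≤ 1 / 2 * Real.exp (-(bt / 4 * l)) := by
          rw [← Real.exp_add]
          gcongr
          have : bt / 4 * l ≤ th / 100 / 4 * l := by gcongr
          nlinarith [mul_nonneg hth.le hl]
  rw [mul_add]
  linarith

end SF
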